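import Pool.Agent.H502.BkDefs
set_option autoImplicit false

namespace Pool.Agent.H502.Bk

section
/-- positive powers: `npw x k = x ^ (k + 1)` -/
def npw {M : Type} [Semigroup M] (x : M) : ℕ → M
  | 0 => x
  | k + 1 => npw x k * x

theorem npw_comm {M : Type} [Semigroup M] (x : M) (k : ℕ) : npw x k * x = x * npw x k := by
  induction k with
  | zero => rfl
  | succ k ih =>
    show npw x k * x * x = x * (npw x k * x)
    rw [ih, mul_assoc, ih]

theorem npw_add {M : Type} [Semigroup M] (x : M) (a b : ℕ) :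
    npw x a * npw x b = npw x (a + b + 1) := by
  induction b with
  | zero => rfl
  | succ b ih =>
    show npw x a * (npw x b * x) = npw x (a + b + 1) * x
    rw [← mul_assoc, ih]

theorem map_npw {M N : Type} [Semigroup M] [Semigroup N] (f : M →ₙ* N) (x : M) (k : ℕ) :
    f (npw x k) = npw (f x) k := by
  induction k with
  | zero => rfl
  | succ k ih =>
    show f (npw x k * x) = npw (f x) k * f x
    rw [map_mul, ih]

theorem npw_periodic {M : Type} [Semigroup M] {x : M} {i d : ℕ} (h : npw x i = npw x (i + d)) :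
    ∀ (m r : ℕ), i ≤ m → npw x (m + r * d) = npw x m := by
  have h1 : ∀ m, i ≤ m → npw x (m + d) = npw x m := by
    intro m hm
    obtain ⟨j, rfl⟩ := Nat.exists_eq_add_of_le hm
    induction j with
    | zero => exact h.symm
    | succ j ih =>
      have := ih (by omega)
      show npw x (i + (j + 1) + d) = npw x (i + (j + 1))
      have e1 : i + (j + 1) + d = (i + j + d) + 1 := by ring
      rw [e1]
      show npw x (i + j + d) * x = npw x (i + j) * x
      rw [this]
  intro m r hm
  induction r with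
  | zero => simp
  | succ r ih =>
    have e1 : m + (r + 1) * d = (m + r * d) + d := by ring
    rw [e1, h1 _ (by omega), ih]

/-- in a semigroup with at most `t` elements the `t!`-th powers are idempotent -/
theorem npw_idem {T : Type} [Semigroup T] [Finite T] {t : ℕ} (ht : Nat.card T ≤ t) (x : T) :
    npw x (t.factorial - 1) * npw x (t.factorial - 1) = npw x (t.factorial - 1) := by
  classical
  have := Fintype.ofFinite T
  have hlt : Fintype.card T < Fintype.card (Fin (t + 1)) := by
    rw [Fintype.card_fin, ← Nat.card_eq_fintype_card]; omega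
  obtain ⟨a, b, hab, he⟩ := Fintype.exists_ne_map_eq_of_card_lt (fun i : Fin (t + 1) => npw x i) hlt
  have key : ∀ a b : ℕ, a < b → b ≤ t → npw x a = npw x b →
      npw x (t.factorial - 1) * npw x (t.factorial - 1) = npw x (t.factorial - 1) := by
    intro a b hlt2 hb he
    obtain ⟨d, hd⟩ := Nat.exists_eq_add_of_lt hlt2
    have hp := npw_periodic (x := x) (i := a) (d := d + 1) (by rw [he, hd]; rfl)
    have hdt : d + 1 ∣ t.factorial := Nat.dvd_factorial (by omega) (by omega)
    obtain ⟨r, hr⟩ := hdt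
    have hfac : t ≤ t.factorial := Nat.self_le_factorial t
    rw [npw_add]
    have e1 : t.factorial - 1 + (t.factorial - 1) + 1 = (t.factorial - 1) + r * (d + 1) := by
      have := Nat.factorial_pos t
      rw [mul_comm r, ← hr]; omega
    rw [e1]
    exact hp _ _ (by omega)
  have hne : (a : ℕ) ≠ b := fun h => hab (Fin.ext h)
  have ha := a.2
  have hb := b.2
  rcases Nat.lt_or_gt_of_ne hne with h1 | h1
  · exact key a b h1 (by omega) he
  · exact key b a h1 (by omega) he.symm

theorem exists_idem_npw {T : Type} [Semigroup T] [Finite T] (x : T) :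
    ∃ k, npw x k * npw x k = npw x k := ⟨_, npw_idem le_rfl x⟩

/-- elementwise form of 0-simplicity, `z` is the zero -/
def ZS {S : Type} [Semigroup S] (z : S) : Prop :=
  (∀ x, z * x = z ∧ x * z = z) ∧ (∃ x y : S, x * y ≠ z) ∧ ∀ a, a ≠ z → ∀ b, ∃ x y, x * a * y = b

theorem zs_of_zeroSimple {S : Type} [Semigroup S] (h : ZeroSimple S) : ∃ z : S, ZS z := by
  obtain ⟨z, hz, ⟨p, q, hpq⟩, hI⟩ := h
  refine ⟨z, hz, ⟨p, q, hpq⟩, ?_⟩
  have hsq : ∀ x : S, ∃ a b, a * b = x := by
    have := hI {x | ∃ a b, a * b = x} ⟨p * q, p, q, rfl⟩ (by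
      rintro a ⟨c, d, rfl⟩ x
      exact ⟨⟨x, c * d, rfl⟩, ⟨c * d, x, rfl⟩⟩)
    rcases this with h | h
    · exact absurd (h.subset ⟨p, q, rfl⟩ : p * q ∈ ({z} : Set S)) hpq
    · intro x
      exact h.symm.subset (Set.mem_univ x)
  intro a ha
  have h1 := hI {x | ∃ p q, p * a * q = x} ⟨a * a * a, a, a, rfl⟩ (by
    rintro b ⟨p, q, rfl⟩ x
    refine ⟨⟨x * p, q, by simp [mul_assoc]⟩, ⟨p, q * x, by simp [mul_assoc]⟩⟩)
  rcases h1 with h | h
  · exfalso
    have hN := hI {b | ∀ p q, p * b * q = z} ⟨a, fun p q => h.subset ⟨p, q, rfl⟩⟩ (by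
      intro b hb x
      constructor
      · intro p q
        have := hb (p * x) q
        simpa [mul_assoc] using this
      · intro p q
        have := hb p (x * q)
        simpa [mul_assoc] using this)
    rcases hN with h2 | h2
    · exact ha (h2.subset (fun p q => h.subset ⟨p, q, rfl⟩ : a ∈ {b | ∀ p q, p * b * q = z}))
    · obtain ⟨c, d, hcd⟩ := hsq p
      have := (h2.symm.subset (Set.mem_univ d) : d ∈ {b | ∀ p q, p * b * q = z}) c q
      rw [hcd] at this
      exact hpq this
  · intro b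
    exact h.symm.subset (Set.mem_univ b)

theorem zeroSimple_of_zs {S : Type} [Semigroup S] {z : S} (h : ZS z) : ZeroSimple S := by
  refine ⟨z, h.1, h.2.1, ?_⟩
  intro I hne hI
  by_cases h1 : ∃ a ∈ I, a ≠ z
  · obtain ⟨a, ha, haz⟩ := h1
    right
    ext b
    simp only [Set.mem_univ, iff_true]
    obtain ⟨x, y, rfl⟩ := h.2.2 a haz b
    exact (hI _ (hI a ha x).1 y).2
  · left
    push Not at h1
    ext b
    simp only [Set.mem_singleton_iff]
    constructor
    · exact h1 b
    · rintro rfl
      obtain ⟨a, ha⟩ := hne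
      rwa [← h1 a ha]

section facts
variable {S : Type} [Semigroup S] {z : S}

theorem ZS.mul_right_ne (h : ZS z) {a b : S} (hab : a * b ≠ z) : b ≠ z :=
  fun hb => hab (by rw [hb]; exact (h.1 a).2)

theorem ZS.mul_left_ne (h : ZS z) {a b : S} (hab : a * b ≠ z) : a ≠ z :=
  fun ha => hab (by rw [ha]; exact (h.1 b).1)

theorem ZS.right_inv [Finite S] (h : ZS z) {a b : S} (hab : a * b ≠ z) : ∃ c, a * b * c = a := by
  obtain ⟨x, y, hxy⟩ := h.2.2 (a * b) hab a
  have key : ∀ k, npw x k * a * npw (b * y) k = a := by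
    intro k
    induction k with
    | zero => show x * a * (b * y) = a; simpa [mul_assoc] using hxy
    | succ k ih =>
      show npw x k * x * a * (npw (b * y) k * (b * y)) = a
      have : npw x k * x * a * (npw (b * y) k * (b * y)) =
          x * (npw x k * a * npw (b * y) k) * (b * y) := by
        rw [npw_comm x k]; simp only [mul_assoc]
      rw [this, ih]; simpa [mul_assoc] using hxy
  obtain ⟨k, hk⟩ := exists_idem_npw (b * y)
  have h1 : a * npw (b * y) k = a := by
    have h2 := key k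
    calc a * npw (b * y) k = npw x k * a * npw (b * y) k * npw (b * y) k := by rw [h2]
      _ = npw x k * a * npw (b * y) k := by rw [mul_assoc (npw x k * a), hk]
      _ = a := h2
  have h3 : npw (b * y) k = b * y * npw (b * y) (k + k) := by
    rw [← hk, npw_add, ← npw_comm]
    rfl
  refine ⟨y * npw (b * y) (k + k), ?_⟩
  rw [h3] at h1
  simpa [mul_assoc] using h1

theorem ZS.left_inv [Finite S] (h : ZS z) {a b : S} (hab : a * b ≠ z) : ∃ c, c * (a * b) = b := by
  obtain ⟨x, y, hxy⟩ := h.2.2 (a * b) hab b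
  have key : ∀ k, npw (x * a) k * b * npw y k = b := by
    intro k
    induction k with
    | zero => show x * a * b * y = b; simpa [mul_assoc] using hxy
    | succ k ih =>
      show npw (x * a) k * (x * a) * b * (npw y k * y) = b
      have : npw (x * a) k * (x * a) * b * (npw y k * y) =
          (x * a) * (npw (x * a) k * b * npw y k) * y := by
        rw [npw_comm (x * a) k]; simp only [mul_assoc]
      rw [this, ih]; simpa [mul_assoc] using hxy
  obtain ⟨k, hk⟩ := exists_idem_npw (x * a)
  have h1 : npw (x * a) k * b = b := by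
    have h2 := key k
    calc npw (x * a) k * b = npw (x * a) k * (npw (x * a) k * b * npw y k) := by rw [h2]
      _ = (npw (x * a) k * npw (x * a) k) * b * npw y k := by simp only [mul_assoc]
      _ = b := by rw [hk, h2]
  have h3 : npw (x * a) k = npw (x * a) (k + k) * (x * a) := by
    rw [← hk, npw_add]
    rfl
  refine ⟨npw (x * a) (k + k) * x, ?_⟩
  rw [h3] at h1
  simpa [mul_assoc] using h1

/-- categorical at zero -/
theorem ZS.cat [Finite S] (h : ZS z) {a b c : S} (hab : a * b ≠ z) (hbc : b * c ≠ z) :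
    a * b * c ≠ z := by
  obtain ⟨d, hd⟩ := h.right_inv hbc
  intro h0
  apply hab
  rw [← hd, ← mul_assoc, ← mul_assoc, h0]
  exact (h.1 d).1

/-- closed walks have idempotent powers acting as right identities -/
theorem ZS.pump [Finite S] (h : ZS z) {a b : S} (hab : a * b ≠ z) (hb : b = a ∨ ∃ y, b = y * a)
    {k : ℕ} (hk : npw b k * npw b k = npw b k) : a * npw b k = a := by
  have hbb : b * b ≠ z := by
    rcases hb with rfl | ⟨y, rfl⟩
    · exact hab
    · have h1 : y * a ≠ z := h.mul_right_ne hab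
      have := h.cat h1 hab
      simpa [mul_assoc] using this
  have hpow : ∀ k, npw b k ≠ z := by
    intro k
    induction k with
    | zero => exact h.mul_left_ne hbb
    | succ k ih =>
      cases k with
      | zero => exact hbb
      | succ k => exact h.cat ih hbb
  have h1 : ∃ y, npw b k = y * a := by
    have h2 : npw b k = npw b (k + k) * b := by rw [← hk, npw_add]; rfl
    rcases hb with hb | ⟨y, hy⟩
    · exact ⟨npw b (k + k), by rw [← hb]; exact h2⟩
    · exact ⟨npw b (k + k) * y, by rw [mul_assoc, ← hy]; exact h2⟩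
  obtain ⟨y, hy⟩ := h1
  have h2 : y * a ≠ z := by rw [← hy]; exact hpow k
  obtain ⟨d, hd⟩ := h.left_inv h2
  calc a * npw b k = d * (y * a) * npw b k := by rw [hd]
    _ = d * (npw b k * npw b k) := by rw [← hy, mul_assoc]
    _ = a := by rw [hk, hy, hd]

end facts

end

section
/-- Rees matrix semigroup with zero over a group `G` with sandwich matrix `P` -/
def RM (G I L : Type) (_P : L → I → Option G) : Type := Option (I × G × L)

def RM.mul' {G I L : Type} [Group G] {P : L → I → Option G} :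
    RM G I L P → RM G I L P → RM G I L P
  | some (i, g, l), some (j, h, m) => (P l j).map (fun p => (i, g * p * h, m))
  | _, _ => none

instance RM.semigroup {G I L : Type} [Group G] {P : L → I → Option G} :
    Semigroup (RM G I L P) where
  mul := RM.mul'
  mul_assoc a b c := by
    show RM.mul' (RM.mul' a b) c = RM.mul' a (RM.mul' b c)
    rcases a with _ | ⟨i, g, l⟩
    · rfl
    rcases b with _ | ⟨j, h, m⟩
    · rfl
    rcases c with _ | ⟨k, r, q⟩
    · show RM.mul' (RM.mul' _ _) none = none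
      cases h1 : RM.mul' (P := P) (some (i, g, l)) (some (j, h, m)) <;> rfl
    show RM.mul' ((P l j).map _) _ = RM.mul' _ ((P m k).map _)
    cases h1 : P l j <;> cases h2 : P m k
    · rfl
    · show none = RM.mul' (P := P) (some (i, g, l)) (some (j, _, q))
      simp [RM.mul', h1]
    · show RM.mul' (P := P) (some (i, _, m)) (some (k, r, q)) = none
      simp [RM.mul', h2]
    · show RM.mul' (P := P) (some (i, _, m)) (some (k, r, q)) =
        RM.mul' (P := P) (some (i, g, l)) (some (j, _, q))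
      simp [RM.mul', h1, h2, mul_assoc]

instance {G I L : Type} {P : L → I → Option G} [Finite G] [Finite I] [Finite L] :
    Finite (RM G I L P) := by unfold RM; infer_instance

theorem RM.card {G I L : Type} {P : L → I → Option G} [Finite G] [Finite I] [Finite L] :
    Nat.card (RM G I L P) = Nat.card I * (Nat.card G * Nat.card L) + 1 := by
  have := Fintype.ofFinite I
  have := Fintype.ofFinite G
  have := Fintype.ofFinite L
  unfold RM
  simp [Nat.card_eq_fintype_card]

def RM.el {G I L : Type} (P : L → I → Option G) (i : I) (g : G) (l : L) : RM G I L P :=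
  some (i, g, l)

def RM.zero {G I L : Type} (P : L → I → Option G) : RM G I L P := none

theorem RM.el_mul_el {G I L : Type} [Group G] {P : L → I → Option G} {i j : I} {g h : G}
    {l m : L} {p : G} (hp : P l j = some p) :
    RM.el P i g l * RM.el P j h m = RM.el P i (g * p * h) m := by
  show (P l j).map _ = _
  rw [hp]; rfl

theorem RM.el_mul_el_none {G I L : Type} [Group G] {P : L → I → Option G} {i j : I} {g h : G}
    {l m : L} (hp : P l j = none) :
    RM.el P i g l * RM.el P j h m = RM.zero P := by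
  show (P l j).map _ = _
  rw [hp]; rfl

theorem RM.zero_mul' {G I L : Type} [Group G] {P : L → I → Option G} (x : RM G I L P) :
    RM.zero P * x = RM.zero P := rfl

theorem RM.mul_zero' {G I L : Type} [Group G] {P : L → I → Option G} (x : RM G I L P) :
    x * RM.zero P = RM.zero P := by
  rcases x with _ | ⟨i, g, l⟩ <;> rfl

theorem RM.cases' {G I L : Type} {P : L → I → Option G} (x : RM G I L P) :
    x = RM.zero P ∨ ∃ i g l, x = RM.el P i g l := by
  rcases x with _ | ⟨i, g, l⟩
  · exact Or.inl rfl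
  · exact Or.inr ⟨i, g, l, rfl⟩

theorem RM.zs {G I L : Type} [Group G] [Nonempty I] {P : L → I → Option G}
    (h1 : ∀ i, ∃ l p, P l i = some p) (h2 : ∀ l, ∃ i p, P l i = some p) :
    ZS (RM.zero P : RM G I L P) := by
  refine ⟨fun x => ⟨RM.zero_mul' x, RM.mul_zero' x⟩, ?_, ?_⟩
  · obtain ⟨i⟩ := ‹Nonempty I›
    obtain ⟨l, p, hp⟩ := h1 i
    refine ⟨RM.el P i 1 l, RM.el P i 1 l, ?_⟩
    rw [RM.el_mul_el hp]
    exact fun h => Option.some_ne_none _ h
  · intro a ha b
    rcases RM.cases' a with rfl | ⟨i, g, l, rfl⟩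
    · exact absurd rfl ha
    rcases RM.cases' b with rfl | ⟨j, h, m, rfl⟩
    · exact ⟨RM.zero P, RM.zero P, by rw [RM.zero_mul', RM.zero_mul']⟩
    obtain ⟨l', p, hp⟩ := h1 i
    obtain ⟨i', q, hq⟩ := h2 l
    refine ⟨RM.el P j 1 l', RM.el P i' ((p * g * q)⁻¹ * h) m, ?_⟩
    rw [RM.el_mul_el hp, RM.el_mul_el hq]
    congr 1
    group

end

section
/-- R-relation (for nonzero elements of a finite 0-simple semigroup) -/
def RR {S : Type} [Semigroup S] (u v : S) : Prop := (∃ c, u * c = v) ∧ ∃ c, v * c = u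

/-- L-relation -/
def LL {S : Type} [Semigroup S] (u v : S) : Prop := (∃ c, c * u = v) ∧ ∃ c, c * v = u

section
variable {S : Type} [Semigroup S]

theorem RR.symm {u v : S} (h : RR u v) : RR v u := ⟨h.2, h.1⟩
theorem LL.symm {u v : S} (h : LL u v) : LL v u := ⟨h.2, h.1⟩
theorem RR.trans {u v w : S} (h : RR u v) (h' : RR v w) : RR u w := by
  obtain ⟨⟨c, rfl⟩, d, hd⟩ := h
  obtain ⟨⟨c', rfl⟩, d', hd'⟩ := h'
  exact ⟨⟨c * c', by rw [mul_assoc]⟩, ⟨d' * d, by rw [← mul_assoc, hd', hd]⟩⟩
theorem LL.trans {u v w : S} (h : LL u v) (h' : LL v w) : LL u w := by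
  obtain ⟨⟨c, rfl⟩, d, hd⟩ := h
  obtain ⟨⟨c', rfl⟩, d', hd'⟩ := h'
  exact ⟨⟨c' * c, by rw [mul_assoc]⟩, ⟨d * d', by rw [mul_assoc, hd', hd]⟩⟩

variable {z : S}

theorem ZS.rr_mul [Finite S] (h : ZS z) {a b : S} (hab : a * b ≠ z) : RR (a * b) a :=
  ⟨h.right_inv hab, b, rfl⟩

theorem ZS.ll_mul [Finite S] (h : ZS z) {a b : S} (hab : a * b ≠ z) : LL (a * b) b :=
  ⟨h.left_inv hab, a, rfl⟩

theorem ZS.rr_ne (h : ZS z) {u v : S} (huv : RR u v) (hv : v ≠ z) : u ≠ z := by
  rintro rfl
  obtain ⟨⟨c, hc⟩, -⟩ := huv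
  exact hv (by rw [← hc]; exact (h.1 c).1)

theorem ZS.ll_ne (h : ZS z) {u v : S} (huv : LL u v) (hv : v ≠ z) : u ≠ z := by
  rintro rfl
  obtain ⟨⟨c, hc⟩, -⟩ := huv
  exact hv (by rw [← hc]; exact (h.1 c).2)

/-- whether `b * a` is zero depends on the R-class of `a` -/
theorem ZS.ne_of_rr (h : ZS z) {a a' b : S} (haa : RR a a') (hab : b * a ≠ z) : b * a' ≠ z := by
  obtain ⟨-, ⟨c, rfl⟩⟩ := haa
  rw [← mul_assoc] at hab
  exact h.mul_left_ne hab

theorem ZS.ne_of_ll (h : ZS z) {a b b' : S} (hbb : LL b b') (hab : b * a ≠ z) : b' * a ≠ z := by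
  obtain ⟨-, ⟨c, rfl⟩⟩ := hbb
  rw [mul_assoc] at hab
  exact h.mul_right_ne hab

theorem ZS.exists_right (h : ZS z) {a : S} (ha : a ≠ z) : ∃ b, a * b ≠ z := by
  obtain ⟨x, y, hxy⟩ := h.2.2 a ha a
  refine ⟨y, fun h0 => ha ?_⟩
  rw [← hxy, mul_assoc, h0]; exact (h.1 x).2

theorem ZS.exists_left (h : ZS z) {a : S} (ha : a ≠ z) : ∃ b, b * a ≠ z := by
  obtain ⟨x, y, hxy⟩ := h.2.2 a ha a
  refine ⟨x, fun h0 => ha ?_⟩
  rw [← hxy, h0]; exact (h.1 y).1

theorem ZS.rr_refl [Finite S] (h : ZS z) {a : S} (ha : a ≠ z) : RR a a := by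
  obtain ⟨b, hb⟩ := h.exists_right ha
  exact (h.rr_mul hb).symm.trans (h.rr_mul hb)

theorem ZS.ll_refl [Finite S] (h : ZS z) {a : S} (ha : a ≠ z) : LL a a := by
  obtain ⟨b, hb⟩ := h.exists_left ha
  exact (h.ll_mul hb).symm.trans (h.ll_mul hb)

/-- any R-class meets any L-class -/
theorem ZS.meet [Finite S] (h : ZS z) {v b : S} (hv : v ≠ z) (hb : b ≠ z) :
    ∃ x, x ≠ z ∧ RR x v ∧ LL x b := by
  obtain ⟨p, q, hpq⟩ := h.2.2 v hv b
  have h1 : p * (v * q) ≠ z := by rw [← mul_assoc, hpq]; exact hb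
  have h2 : v * q ≠ z := h.mul_right_ne h1
  refine ⟨v * q, h2, h.rr_mul h2, ?_⟩
  have := (h.ll_mul h1).symm
  rwa [← mul_assoc, hpq] at this

/-- the subsemigroup of elements whose R-class is met by `α` and whose L-class is met by `β` -/
def sub [Finite S] (h : ZS z) {A B : Type} (α : A → S) (β : B → S) : Subsemigroup S where
  carrier := {u | u = z ∨ (u ≠ z ∧ (∃ p, RR u (α p)) ∧ ∃ q, LL u (β q))}
  mul_mem' := by
    intro u v hu hv
    by_cases huv : u * v = z
    · exact Or.inl huv
    right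
    rcases hu with rfl | ⟨hu, ⟨p, hp⟩, -⟩
    · exact absurd (h.1 v).1 huv
    rcases hv with rfl | ⟨hv, -, q, hq⟩
    · exact absurd (h.1 u).2 huv
    exact ⟨huv, ⟨p, (h.rr_mul huv).trans hp⟩, ⟨q, (h.ll_mul huv).trans hq⟩⟩

theorem sub_zs [Finite S] (h : ZS z) {A B : Type} [Nonempty A] (α : A → S) (β : B → S)
    (hα : ∀ p, α p ≠ z) (hβ : ∀ q, β q ≠ z)
    (h1 : ∀ p, ∃ q, β q * α p ≠ z) (h2 : ∀ q, ∃ p, β q * α p ≠ z) :
    ZS (⟨z, Or.inl rfl⟩ : sub h α β) := by
  have key : ∀ a : sub h α β, a ≠ ⟨z, Or.inl rfl⟩ → ∀ b : sub h α β, ∃ x y, x * a * y = b := by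
    rintro ⟨u, hu⟩ hne ⟨v, hv⟩
    rcases hu with rfl | ⟨hu, ⟨p, hp⟩, q, hq⟩
    · exact absurd rfl hne
    rcases hv with rfl | ⟨hv, ⟨p', hp'⟩, q', hq'⟩
    · refine ⟨⟨v, Or.inl rfl⟩, ⟨v, Or.inl rfl⟩, Subtype.ext ?_⟩
      show v * u * v = v
      rw [(h.1 u).1, (h.1 v).1]
    obtain ⟨q1, hq1⟩ := h1 p
    have hb1 : β q1 * u ≠ z := h.ne_of_rr hp.symm hq1
    obtain ⟨x, hx, hx1, hx2⟩ := h.meet hv (hβ q1)
    have hxu : x * u ≠ z := h.ne_of_ll hx2.symm hb1
    have hxv : RR (x * u) v := (h.rr_mul hxu).trans hx1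
    obtain ⟨⟨c, hc⟩, -⟩ := hxv
    obtain ⟨p1, hp1⟩ := h2 q
    have hua : u * α p1 ≠ z := h.ne_of_ll hq.symm hp1
    obtain ⟨c0, hc0⟩ := h.right_inv hua
    have hv2 : x * u * (α p1 * (c0 * c)) = v := by
      rw [← hc]
      calc x * u * (α p1 * (c0 * c)) = x * (u * α p1 * c0) * c := by simp only [mul_assoc]
        _ = x * u * c := by rw [hc0]
    have hy : α p1 * (c0 * c) ≠ z := h.mul_right_ne (a := x * u) (by rw [hv2]; exact hv)
    refine ⟨⟨x, Or.inr ⟨hx, ⟨p', hx1.trans hp'⟩, ⟨q1, hx2⟩⟩⟩,
      ⟨α p1 * (c0 * c), Or.inr ⟨hy, ⟨p1, h.rr_mul hy⟩, ⟨q', ?_⟩⟩⟩, Subtype.ext hv2⟩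
    have h3 : x * u * (α p1 * (c0 * c)) ≠ z := by rw [hv2]; exact hv
    have h4 := (h.ll_mul h3).symm
    rw [hv2] at h4
    exact h4.trans hq'
  refine ⟨?_, ?_, key⟩
  · rintro ⟨x, hx⟩
    exact ⟨Subtype.ext (h.1 x).1, Subtype.ext (h.1 x).2⟩
  · obtain ⟨p⟩ := ‹Nonempty A›
    obtain ⟨q, hq⟩ := h1 p
    obtain ⟨x, hx, hx1, hx2⟩ := h.meet (hα p) (hβ q)
    refine ⟨⟨x, Or.inr ⟨hx, ⟨p, hx1⟩, ⟨q, hx2⟩⟩⟩, ⟨x, Or.inr ⟨hx, ⟨p, hx1⟩, ⟨q, hx2⟩⟩⟩, ?_⟩
    intro h0
    have h3 : x * x = z := congrArg Subtype.val h0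
    exact h.ne_of_ll hx2.symm (h.ne_of_rr hx1.symm hq) h3

end

end

section
open Function

/-- coordinatewise change of a tuple -/
theorem change_all {ι : Type} [Fintype ι] [DecidableEq ι] {X : ι → Type} {Y : Type}
    (F : (∀ i, X i) → Y) (r : ∀ i, X i → X i → Prop) (P : (∀ i, X i) → Prop)
    (h : ∀ w, P w → ∀ i a, r i (w i) a → F w = F (update w i a) ∧ P (update w i a))
    (w w' : ∀ i, X i) (hw : P w) (hww : ∀ i, r i (w i) (w' i)) : F w = F w' := by
  have key : ∀ s : Finset ι, F w = F (s.piecewise w' w) ∧ P (s.piecewise w' w) := by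
    intro s
    induction s using Finset.induction with
    | empty => simp [hw]
    | insert i s hi ih =>
      rw [Finset.piecewise_insert]
      have h1 := h _ ih.2 i (w' i) (by
        rw [Finset.piecewise_eq_of_notMem _ _ _ hi]; exact hww i)
      exact ⟨ih.1.trans h1.1, h1.2⟩
  have := (key Finset.univ).1
  rwa [Finset.piecewise_univ] at this

section sub
variable {S : Type} [Semigroup S] {z : S} [Finite S]

theorem sub_rr (h : ZS z) {A B : Type} [Nonempty A] (α : A → S) (β : B → S)
    (hα : ∀ p, α p ≠ z) (hβ : ∀ q, β q ≠ z)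
    (h1 : ∀ p, ∃ q, β q * α p ≠ z) (h2 : ∀ q, ∃ p, β q * α p ≠ z)
    {u v : sub h α β} (hu : u.1 ≠ z) (hv : v.1 ≠ z) (huv : RR u.1 v.1) : RR u v := by
  have key : ∀ {u v : sub h α β}, u.1 ≠ z → v.1 ≠ z → RR u.1 v.1 → ∃ c, u * c = v := by
    intro u v hu hv huv
    have hz := sub_zs h α β hα hβ h1 h2
    have hu' : u ≠ ⟨z, Or.inl rfl⟩ := fun h0 => hu (congrArg Subtype.val h0)
    obtain ⟨a, ha⟩ := hz.exists_right hu'
    obtain ⟨q, hq⟩ := hz.right_inv ha
    obtain ⟨⟨c, hc⟩, -⟩ := huv
    have hq' : u.1 * a.1 * q.1 = u.1 := congrArg Subtype.val hq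
    have h3 : u.1 * (a.1 * (q.1 * c)) = v.1 := by
      rw [← hc]
      calc u.1 * (a.1 * (q.1 * c)) = u.1 * a.1 * q.1 * c := by simp only [mul_assoc]
        _ = u.1 * c := by rw [hq']
    have h4 : u.1 * (a.1 * (q.1 * c)) ≠ z := by rw [h3]; exact hv
    have h5 : a.1 * (q.1 * c) ≠ z := h.mul_right_ne h4
    have ha0 : a.1 ≠ z := h.mul_left_ne h5
    rcases a.2 with h6 | ⟨-, ⟨p, hp⟩, -⟩
    · exact absurd h6 ha0
    rcases v.2 with h6 | ⟨-, -, ⟨q', hq'⟩⟩
    · exact absurd h6 hv
    refine ⟨⟨a.1 * (q.1 * c), Or.inr ⟨h5, ⟨p, (h.rr_mul h5).trans hp⟩, ⟨q', ?_⟩⟩⟩,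
      Subtype.ext h3⟩
    have := (h.ll_mul h4).symm
    rw [h3] at this
    exact this.trans hq'
  exact ⟨key hu hv huv, key hv hu huv.symm⟩

theorem sub_ll (h : ZS z) {A B : Type} [Nonempty A] (α : A → S) (β : B → S)
    (hα : ∀ p, α p ≠ z) (hβ : ∀ q, β q ≠ z)
    (h1 : ∀ p, ∃ q, β q * α p ≠ z) (h2 : ∀ q, ∃ p, β q * α p ≠ z)
    {u v : sub h α β} (hu : u.1 ≠ z) (hv : v.1 ≠ z) (huv : LL u.1 v.1) : LL u v := by
  have key : ∀ {u v : sub h α β}, u.1 ≠ z → v.1 ≠ z → LL u.1 v.1 → ∃ c, c * u = v := by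
    intro u v hu hv huv
    have hz := sub_zs h α β hα hβ h1 h2
    have hu' : u ≠ ⟨z, Or.inl rfl⟩ := fun h0 => hu (congrArg Subtype.val h0)
    obtain ⟨a, ha⟩ := hz.exists_left hu'
    obtain ⟨q, hq⟩ := hz.left_inv ha
    obtain ⟨⟨c, hc⟩, -⟩ := huv
    have hq' : q.1 * (a.1 * u.1) = u.1 := congrArg Subtype.val hq
    have h3 : (c * q.1 * a.1) * u.1 = v.1 := by
      rw [← hc]
      calc (c * q.1 * a.1) * u.1 = c * (q.1 * (a.1 * u.1)) := by simp only [mul_assoc]
        _ = c * u.1 := by rw [hq']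
    have h4 : (c * q.1 * a.1) * u.1 ≠ z := by rw [h3]; exact hv
    have h5 : c * q.1 * a.1 ≠ z := h.mul_left_ne h4
    have ha0 : a.1 ≠ z := h.mul_right_ne h5
    rcases a.2 with h6 | ⟨-, -, ⟨p, hp⟩⟩
    · exact absurd h6 ha0
    rcases v.2 with h6 | ⟨-, ⟨q', hq'⟩, -⟩
    · exact absurd h6 hv
    refine ⟨⟨c * q.1 * a.1, Or.inr ⟨h5, ⟨q', ?_⟩, ⟨p, (h.ll_mul h5).trans hp⟩⟩⟩,
      Subtype.ext h3⟩
    have := (h.rr_mul h4).symm
    rw [h3] at this
    exact this.trans hq'
  exact ⟨key hu hv huv, key hv hu huv.symm⟩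

end sub

section quot
variable {ι : Type} [Fintype ι] [DecidableEq ι] {C : ι → Type} [∀ i, Semigroup (C i)]
  [∀ i, Finite (C i)] {S : Type} [Semigroup S] (f : (∀ i, C i) →ₙ* S) {z : ∀ i, C i}

theorem ZS.exists_mul {T : Type} [Semigroup T] [Finite T] {z : T} (h : ZS z) (x : T) :
    ∃ p q, p * q = x := by
  by_cases hx : x = z
  · exact ⟨z, z, by rw [hx]; exact (h.1 z).1⟩
  · obtain ⟨⟨c, hc⟩, -⟩ := h.rr_refl hx
    exact ⟨x, c, hc⟩

/-- the congruence in coordinate `i` -/
def th (hz : ∀ i, ZS (z i)) (i : ι) : Con (C i) where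
  r u v := (u = z i ∧ v = z i) ∨ (u ≠ z i ∧ v ≠ z i ∧ RR u v ∧ LL u v ∧
    ∀ w, f (update w i u) = f (update w i v))
  iseqv := by
    refine ⟨?_, ?_, ?_⟩
    · intro u
      by_cases hu : u = z i
      · exact Or.inl ⟨hu, hu⟩
      · exact Or.inr ⟨hu, hu, (hz i).rr_refl hu, (hz i).ll_refl hu, fun _ => rfl⟩
    · rintro u v (⟨h1, h2⟩ | ⟨h1, h2, h3, h4, h5⟩)
      · exact Or.inl ⟨h2, h1⟩
      · exact Or.inr ⟨h2, h1, h3.symm, h4.symm, fun w => (h5 w).symm⟩
    · rintro u v w (⟨h1, h2⟩ | ⟨h1, h2, h3, h4, h5⟩) (⟨g1, g2⟩ | ⟨g1, g2, g3, g4, g5⟩)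
      · exact Or.inl ⟨h1, g2⟩
      · exact absurd h2 g1
      · exact absurd g1 h2
      · exact Or.inr ⟨h1, g2, h3.trans g3, h4.trans g4, fun w => (h5 w).trans (g5 w)⟩
  mul' := by
    rintro a b c d (⟨h1, h2⟩ | ⟨h1, h2, h3, h4, h5⟩) (⟨g1, g2⟩ | ⟨g1, g2, g3, g4, g5⟩)
    · left; rw [h1, h2, ((hz i).1 _).1, ((hz i).1 _).1]; exact ⟨rfl, rfl⟩
    · left; rw [h1, h2, ((hz i).1 _).1, ((hz i).1 _).1]; exact ⟨rfl, rfl⟩
    · left; rw [g1, g2, ((hz i).1 _).2, ((hz i).1 _).2]; exact ⟨rfl, rfl⟩
    · by_cases hac : a * c = z i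
      · left
        refine ⟨hac, ?_⟩
        by_contra hbd
        exact (hz i).ne_of_ll h4.symm ((hz i).ne_of_rr g3.symm hbd) hac
      · right
        have hbd : b * d ≠ z i := (hz i).ne_of_ll h4 ((hz i).ne_of_rr g3 hac)
        refine ⟨hac, hbd, ((hz i).rr_mul hac).trans (h3.trans ((hz i).rr_mul hbd).symm),
          ((hz i).ll_mul hac).trans (g4.trans ((hz i).ll_mul hbd).symm), ?_⟩
        intro w
        choose α β hαβ using fun j => (hz j).exists_mul (w j)
        have e : ∀ x y : C i, update w i (x * y) = update α i x * update β i y := by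
          intro x y
          funext j
          by_cases hj : j = i
          · subst hj; simp
          · simp [hj, hαβ]
        rw [e, e, map_mul, map_mul, h5, g5]

theorem f_congr (hz : ∀ i, ZS (z i)) (w w' : ∀ i, C i) (h : ∀ i, th f hz i (w i) (w' i)) :
    f w = f w' := by
  refine change_all f (fun i => th f hz i) (fun _ => True) ?_ w w' trivial h
  intro w _ i a hr
  refine ⟨?_, trivial⟩
  rcases hr with ⟨h1, h2⟩ | ⟨h1, h2, h3, h4, h5⟩
  · rw [h2, ← h1, update_eq_self]
  · have := h5 w
    rwa [update_eq_self] at this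

/-- the induced map -/
noncomputable def fq (hz : ∀ i, ZS (z i)) : (∀ i, (th f hz i).Quotient) →ₙ* S where
  toFun q := f fun i => (q i).out
  map_mul' q q' := by
    rw [← map_mul]
    apply f_congr f hz
    intro i
    apply (th f hz i).eq.1
    rw [Pi.mul_apply, Pi.mul_apply, Con.coe_mul]
    rw [show (((q i * q' i).out : C i) : (th f hz i).Quotient) = q i * q' i from
      Quotient.out_eq _, show (((q i).out : C i) : (th f hz i).Quotient) = q i from
      Quotient.out_eq _, show (((q' i).out : C i) : (th f hz i).Quotient) = q' i from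
      Quotient.out_eq _]

theorem fq_surj (hz : ∀ i, ZS (z i)) (hf : Surjective f) : Surjective (fq f hz) := by
  intro s
  obtain ⟨w, rfl⟩ := hf s
  refine ⟨fun i => (w i : (th f hz i).Quotient), ?_⟩
  apply f_congr f hz
  intro i
  apply (th f hz i).eq.1
  exact Quotient.out_eq _

theorem zs_quot (hz : ∀ i, ZS (z i)) (i : ι) : ZS ((z i : C i) : (th f hz i).Quotient) := by
  have hne : ∀ u : C i, (u : (th f hz i).Quotient) = ((z i : C i) : (th f hz i).Quotient) →
      u = z i := by
    intro u hu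
    rcases (th f hz i).eq.1 hu with ⟨h1, -⟩ | ⟨-, h2, -⟩
    · exact h1
    · exact absurd rfl h2
  refine ⟨?_, ?_, ?_⟩
  · intro x
    induction x using Con.induction_on with
    | H x =>
      rw [← Con.coe_mul, ← Con.coe_mul, ((hz i).1 x).1, ((hz i).1 x).2]
      exact ⟨rfl, rfl⟩
  · obtain ⟨x, y, hxy⟩ := (hz i).2.1
    refine ⟨x, y, ?_⟩
    rw [← Con.coe_mul]
    exact fun h => hxy (hne _ h)
  · intro a ha b
    induction a using Con.induction_on with
    | H u =>
      induction b using Con.induction_on with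
      | H v =>
        have hu : u ≠ z i := fun h => ha (by rw [h])
        obtain ⟨x, y, hxy⟩ := (hz i).2.2 u hu v
        exact ⟨x, y, by rw [← Con.coe_mul, ← Con.coe_mul, hxy]⟩

theorem card_quot [Finite S] (hz : ∀ i, ZS (z i)) (i : ι) {A B : Type} [Finite A] [Finite B]
    (ra : C i → A) (lb : C i → B)
    (hra : ∀ u v, u ≠ z i → v ≠ z i → ra u = ra v → RR u v)
    (hlb : ∀ u v, u ≠ z i → v ≠ z i → lb u = lb v → LL u v) :
    Nat.card (th f hz i).Quotient ≤ Nat.card A * (Nat.card B * Nat.card S) + 1 := by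
  classical
  have hex : ∀ j, ∃ e : C j, e ≠ z j := by
    intro j
    obtain ⟨x, y, hxy⟩ := (hz j).2.1
    exact ⟨_, hxy⟩
  choose e he using hex
  let code : (th f hz i).Quotient → Option (A × B × S) := fun q =>
    if q.out = z i then none else some (ra q.out, lb q.out, f (update e i q.out))
  have hinj : Injective code := by
    intro q q' hqq
    have h1 : th f hz i q.out q'.out := by
      by_cases hq : q.out = z i
      · by_cases hq' : q'.out = z i
        · exact Or.inl ⟨hq, hq'⟩
        · simp [code, hq, hq'] at hqq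
      · by_cases hq' : q'.out = z i
        · simp [code, hq, hq'] at hqq
        · simp only [code, hq, hq', if_false, Option.some.injEq, Prod.mk.injEq] at hqq
          obtain ⟨ha, hb, hc⟩ := hqq
          generalize q.out = u at *
          generalize q'.out = v at *
          have hR := hra u v hq hq' ha
          have hL := hlb u v hq hq' hb
          refine Or.inr ⟨hq, hq', hR, hL, ?_⟩
          intro w
          -- local identities
          obtain ⟨b1, hb1⟩ := (hz i).exists_left hq
          obtain ⟨c1, hc1⟩ := (hz i).left_inv hb1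
          obtain ⟨b2, hb2⟩ := (hz i).exists_right hq
          obtain ⟨c2, hc2⟩ := (hz i).right_inv hb2
          obtain ⟨⟨r, hr⟩, -⟩ := hR
          obtain ⟨⟨l, hl⟩, -⟩ := hL
          have u1 : (c1 * b1) * u = u := by rw [mul_assoc]; exact hc1
          have u2 : u * (b2 * c2) = u := by rw [← mul_assoc]; exact hc2
          have v1 : (c1 * b1) * v = v := by rw [← hr, ← mul_assoc, u1]
          have v2 : v * (b2 * c2) = v := by rw [← hl, mul_assoc, u2]
          choose α β hαβ using fun j => (hz j).2.2 (e j) (he j) (w j)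
          have e1 : ∀ x : C i, (c1 * b1) * x * (b2 * c2) = x →
              update w i x = update α i (c1 * b1) * update e i x * update β i (b2 * c2) := by
            intro x hx
            funext j
            by_cases hj : j = i
            · subst hj; simp [hx]
            · simp [hj, hαβ]
          rw [e1 u (by rw [u1, u2]), e1 v (by rw [v1, v2]), map_mul, map_mul, map_mul, map_mul, hc]
    have h2 := (th f hz i).eq.2 h1
    have e1 : ((q.out : C i) : (th f hz i).Quotient) = q := Quotient.out_eq _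
    have e2 : ((q'.out : C i) : (th f hz i).Quotient) = q' := Quotient.out_eq _
    rw [e1, e2] at h2
    exact h2
  have h1 := Nat.card_le_card_of_injective code hinj
  have h2 : Nat.card (Option (A × B × S)) = Nat.card A * (Nat.card B * Nat.card S) + 1 := by
    have := Fintype.ofFinite A
    have := Fintype.ofFinite B
    have := Fintype.ofFinite S
    simp [Nat.card_eq_fintype_card]
  omega

end quot

end

section
open Function

/-- bound for the number of factors -/
def numK (n B : ℕ) : ℕ := 2 ^ (B + 1) * (2 ^ ((B + 1) * ((B + 1) * (B + 1))) * (B + 1) ^ n)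

theorem merge {S : Type} [Semigroup S] [Finite S] {k B : ℕ} (T : Fin k → FinSg)
    (hB : ∀ i, Nat.card (T i) ≤ B) (f : (∀ i, T i) →ₙ* S) (hf : Surjective f) :
    ∃ k' ≤ numK (Nat.card S) B, ∃ e : Fin k' → Fin k, ∃ f' : (∀ j, T (e j)) →ₙ* S,
      Surjective f' := by
  classical
  choose x hx using hf
  have hemb : ∀ i, ∃ ε : T i → Fin (B + 1), Injective ε := by
    intro i
    have h1 : Nat.card (T i) ≤ B + 1 := (hB i).trans (Nat.le_succ B)
    exact ⟨fun u => Fin.castLE h1 (Finite.equivFin (T i) u), fun u v h =>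
      (Finite.equivFin (T i)).injective (Fin.castLE_injective h1 h)⟩
  choose ε hε using hemb
  let Code := Set (Fin (B + 1)) × Set (Fin (B + 1) × Fin (B + 1) × Fin (B + 1)) ×
    (S → Fin (B + 1))
  let code : Fin k → Code := fun i => (Set.range (ε i),
    {t | ∃ u v, t = (ε i u, ε i v, ε i (u * v))}, fun s => ε i (x s i))
  have hcode : ∀ i j, code i = code j → ∃ σ : T i →ₙ* T j, ∀ s, σ (x s i) = x s j := by
    intro i j hij
    have h1 : Set.range (ε i) = Set.range (ε j) := congrArg Prod.fst hij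
    have h2 : {t | ∃ u v, t = (ε i u, ε i v, ε i (u * v))} =
      {t | ∃ u v, t = (ε j u, ε j v, ε j (u * v))} := congrArg (fun c => c.2.1) hij
    have h3 : (fun s => ε i (x s i)) = fun s => ε j (x s j) := congrArg (fun c => c.2.2) hij
    have h4 : ∀ u : T i, ∃ v : T j, ε j v = ε i u := fun u => by
      have : ε i u ∈ Set.range (ε i) := ⟨u, rfl⟩
      rw [h1] at this
      exact this
    choose σ hσ using h4
    refine ⟨⟨σ, ?_⟩, ?_⟩
    · intro u u'
      have h5 : (ε i u, ε i u', ε i (u * u')) ∈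
          {t | ∃ u v, t = (ε i u, ε i v, ε i (u * v))} := ⟨u, u', rfl⟩
      rw [h2] at h5
      obtain ⟨v, v', h6⟩ := h5
      simp only [Prod.mk.injEq] at h6
      obtain ⟨h7, h8, h9⟩ := h6
      apply hε j
      rw [hσ, h9]
      have e1 : σ u = v := hε j (by rw [hσ, h7])
      have e2 : σ u' = v' := hε j (by rw [hσ, h8])
      rw [e1, e2]
    · intro s
      apply hε j
      show ε j (σ (x s i)) = _
      rw [hσ]
      exact congrFun h3 s
  let R := Set.range code
  have hR : Nat.card R ≤ numK (Nat.card S) B := by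
    have h1 : Nat.card R ≤ Nat.card Code := Nat.card_le_card_of_injective _ Subtype.val_injective
    have := Fintype.ofFinite S
    have h2 : Nat.card Code = numK (Nat.card S) B := by
      simp [Code, numK, Nat.card_eq_fintype_card]
    omega
  let E : R ≃ Fin (Nat.card R) := Finite.equivFin R
  let e : Fin (Nat.card R) → Fin k := fun j => (E.symm j).2.choose
  have he : ∀ j, code (e j) = (E.symm j).1 := fun j => (E.symm j).2.choose_spec
  let r : Fin k → Fin (Nat.card R) := fun i => E ⟨code i, i, rfl⟩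
  have her : ∀ i, code (e (r i)) = code i := by
    intro i
    rw [he]
    show (E.symm (E ⟨code i, i, rfl⟩)).1 = code i
    rw [Equiv.symm_apply_apply]
  choose σ hσ using fun i => hcode (e (r i)) i (her i)
  refine ⟨Nat.card R, hR, e, ⟨fun w => f fun i => σ i (w (r i)), ?_⟩, ?_⟩
  · intro w w'
    rw [← map_mul]
    congr 1
    funext i
    show σ i (w (r i) * w' (r i)) = σ i (w (r i)) * σ i (w' (r i))
    rw [map_mul]
  · intro s
    refine ⟨fun j => x s (e j), ?_⟩
    show f _ = s
    rw [← hx s]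
    congr 1
    funext i
    rw [hσ, hx]

/-- bound for the sizes of the factors for `HP` -/
def hpB (n : ℕ) : ℕ := (2 * (n + 1)) * ((2 * (n + 1)) * n) + 1

theorem hp_size {S : Type} [Semigroup S] [Finite S] {k : ℕ} (T : Fin k → FinSg)
    (hT : ∀ i, ZeroSimple (T i)) (f : (∀ i, T i) →ₙ* S) (hf : Surjective f) :
    ∃ T' : Fin k → FinSg, (∀ i, ZeroSimple (T' i) ∧ Nat.card (T' i) ≤ hpB (Nat.card S)) ∧
      ∃ f' : (∀ i, T' i) →ₙ* S, Surjective f' := by
  classical
  choose x hx using hf
  choose z hz using fun i => zs_of_zeroSimple (hT i)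
  choose x0 x0' hx0 using fun i => (hz i).2.1
  let y : ∀ i, Option S → T i := fun i o => o.elim (x0 i * x0' i) fun s =>
    if x s i = z i then x0 i * x0' i else x s i
  have hy : ∀ i o, y i o ≠ z i := by
    intro i o
    cases o with
    | none => exact hx0 i
    | some s =>
      show (if x s i = z i then x0 i * x0' i else x s i) ≠ z i
      split_ifs with h
      · exact hx0 i
      · exact h
  choose a ha using fun i o => (hz i).exists_right (hy i o)
  choose b hb using fun i o => (hz i).exists_left (hy i o)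
  let α : ∀ i, Option S ⊕ Option S → T i := fun i => Sum.elim (y i) (a i)
  let β : ∀ i, Option S ⊕ Option S → T i := fun i => Sum.elim (y i) (b i)
  have hα : ∀ i p, α i p ≠ z i := by
    rintro i (o | o)
    · exact hy i o
    · exact (hz i).mul_right_ne (ha i o)
  have hβ : ∀ i p, β i p ≠ z i := by
    rintro i (o | o)
    · exact hy i o
    · exact (hz i).mul_left_ne (hb i o)
  have h1 : ∀ i p, ∃ q, β i q * α i p ≠ z i := by
    rintro i (o | o)
    · exact ⟨Sum.inr o, hb i o⟩
    · exact ⟨Sum.inl o, ha i o⟩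
  have h2 : ∀ i q, ∃ p, β i q * α i p ≠ z i := by
    rintro i (o | o)
    · exact ⟨Sum.inr o, ha i o⟩
    · exact ⟨Sum.inl o, hb i o⟩
  let C : Fin k → Type := fun i => sub (hz i) (α i) (β i)
  let g : (∀ i, C i) →ₙ* S :=
    ⟨fun w => f fun i => (w i).1, fun w w' => by rw [← map_mul]; rfl⟩
  have hg : Surjective g := by
    intro s
    have hmem : ∀ i, x s i ∈ sub (hz i) (α i) (β i) := by
      intro i
      by_cases h : x s i = z i
      · exact Or.inl h
      · have hys : α i (Sum.inl (some s)) = x s i := by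
          show (if x s i = z i then x0 i * x0' i else x s i) = _
          rw [if_neg h]
        have hys' : β i (Sum.inl (some s)) = x s i := by
          show (if x s i = z i then x0 i * x0' i else x s i) = _
          rw [if_neg h]
        refine Or.inr ⟨h, ⟨Sum.inl (some s), ?_⟩, ⟨Sum.inl (some s), ?_⟩⟩
        · rw [hys]; exact (hz i).rr_refl h
        · rw [hys']; exact (hz i).ll_refl h
    exact ⟨fun i => ⟨x s i, hmem i⟩, hx s⟩
  have hz' : ∀ i, ZS (⟨z i, Or.inl rfl⟩ : C i) := fun i =>
    sub_zs (hz i) (α i) (β i) (hα i) (hβ i) (h1 i) (h2 i)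
  refine ⟨fun i => ⟨(th g hz' i).Quotient, inferInstance, Quotient.finite _,
    ⟨((⟨z i, Or.inl rfl⟩ : C i) : (th g hz' i).Quotient)⟩⟩, ?_, fq g hz', fq_surj g hz' hg⟩
  intro i
  refine ⟨zeroSimple_of_zs (zs_quot g hz' i), ?_⟩
  have hrow : ∀ u : C i, ∃ p : Option S ⊕ Option S, u ≠ ⟨z i, Or.inl rfl⟩ → RR u.1 (α i p) := by
    intro u
    rcases u.2 with h | ⟨h, ⟨p, hp⟩, -⟩
    · exact ⟨Sum.inl none, fun h' => absurd (Subtype.ext h) h'⟩
    · exact ⟨p, fun _ => hp⟩
  have hcol : ∀ u : C i, ∃ p : Option S ⊕ Option S, u ≠ ⟨z i, Or.inl rfl⟩ → LL u.1 (β i p) := by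
    intro u
    rcases u.2 with h | ⟨h, -, ⟨p, hp⟩⟩
    · exact ⟨Sum.inl none, fun h' => absurd (Subtype.ext h) h'⟩
    · exact ⟨p, fun _ => hp⟩
  choose ra hra using hrow
  choose lb hlb using hcol
  have hval : ∀ u : C i, u ≠ ⟨z i, Or.inl rfl⟩ → u.1 ≠ z i := fun u hu h => hu (Subtype.ext h)
  have := card_quot g hz' i ra lb
    (fun u v hu hv huv => sub_rr (hz i) (α i) (β i) (hα i) (hβ i) (h1 i) (h2 i) (hval u hu)
      (hval v hv) ((hra u hu).trans (by rw [huv]; exact (hra v hv).symm)))
    (fun u v hu hv huv => sub_ll (hz i) (α i) (β i) (hα i) (hβ i) (h1 i) (h2 i) (hval u hu)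
      (hval v hv) ((hlb u hu).trans (by rw [huv]; exact (hlb v hv).symm)))
  refine this.trans (le_of_eq ?_)
  have := Fintype.ofFinite S
  simp only [hpB, Nat.card_eq_fintype_card, Fintype.card_sum, Fintype.card_option]
  ring

end

section
open Function

/-- nonempty words -/
inductive W (S : Type) : Type
  | one (s : S) : W S
  | snoc (w : W S) (s : S) : W S

namespace W
variable {S : Type}

def mul' (u : W S) : W S → W S
  | one s => snoc u s
  | snoc v s => snoc (mul' u v) s

instance : Semigroup (W S) where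
  mul := mul'
  mul_assoc a b c := by
    show mul' (mul' a b) c = mul' a (mul' b c)
    induction c with
    | one s => rfl
    | snoc v s ih =>
      show snoc (mul' (mul' a b) v) s = snoc (mul' a (mul' b v)) s
      rw [ih]

theorem mul_one' (u : W S) (s : S) : u * one s = snoc u s := rfl
theorem mul_snoc (u v : W S) (s : S) : u * snoc v s = snoc (u * v) s := rfl

def head : W S → S
  | one s => s
  | snoc w _ => head w

def last : W S → S
  | one s => s
  | snoc _ s => s

theorem head_mul (u v : W S) : head (u * v) = head u := by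
  induction v with
  | one s => rfl
  | snoc v s ih => exact ih

theorem last_mul (u v : W S) : last (u * v) = last v := by
  cases v <;> rfl

/-- value of a word -/
def ev {M : Type} [Semigroup M] (x : S → M) : W S → M
  | one s => x s
  | snoc w s => ev x w * x s

theorem ev_mul {M : Type} [Semigroup M] (x : S → M) (u v : W S) :
    ev x (u * v) = ev x u * ev x v := by
  induction v with
  | one s => rfl
  | snoc v s ih =>
    show ev x (u * v) * x s = ev x u * (ev x v * x s)
    rw [ih, mul_assoc]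

theorem ev_npw {M : Type} [Semigroup M] (x : S → M) (u : W S) (k : ℕ) :
    ev x (npw u k) = npw (ev x u) k := by
  induction k with
  | zero => rfl
  | succ k ih =>
    show ev x (npw u k * u) = npw (ev x u) k * ev x u
    rw [ev_mul, ih]

theorem map_ev {M N : Type} [Semigroup M] [Semigroup N] (g : M →ₙ* N) (x : S → M) (u : W S) :
    g (ev x u) = ev (fun s => g (x s)) u := by
  induction u with
  | one s => rfl
  | snoc v s ih =>
    show g (ev x v * x s) = _
    rw [map_mul, ih]
    rfl

/-- at least two letters -/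
def Long : W S → Prop
  | one _ => False
  | snoc _ _ => True

theorem long_mul (u v : W S) : Long (u * v) := by
  cases v <;> trivial

theorem Long.split {w : W S} (h : Long w) : ∃ s v, w = one s * v := by
  induction w with
  | one s => exact h.elim
  | snoc w t ih =>
    cases w with
    | one s => exact ⟨s, one t, rfl⟩
    | snoc w s =>
      obtain ⟨a, v, hv⟩ := ih trivial
      exact ⟨a, snoc v t, by rw [mul_snoc, ← hv]⟩

end W

open W

/-- digraphs with loops, and a set of admissible vertices -/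
abbrev Dig (S : Type) := (S → Prop) × (S → S → Prop)

section dig
variable {S : Type}

def arc (D : Dig S) (s t : S) : Prop := D.1 s ∧ D.1 t ∧ D.2 s t

def path (D : Dig S) : W S → Prop
  | one s => D.1 s
  | snoc w t => path D w ∧ arc D (last w) t

theorem path_mul {D : Dig S} (u v : W S) :
    path D (u * v) ↔ path D u ∧ arc D (last u) (head v) ∧ path D v := by
  induction v with
  | one t =>
    constructor
    · rintro ⟨h1, h2⟩; exact ⟨h1, h2, h2.2.1⟩
    · rintro ⟨h1, h2, -⟩; exact ⟨h1, h2⟩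
  | snoc v t ih =>
    show path D (u * v) ∧ arc D (last (u * v)) t ↔
      path D u ∧ arc D (last u) (head v) ∧ path D v ∧ arc D (last v) t
    rw [ih, last_mul]
    tauto

def reach (D : Dig S) (t s : S) : Prop := ∃ c : W S, path D c ∧ head c = t ∧ last c = s

theorem reach_of_arc {D : Dig S} {s t r : S} (h : arc D s t) (h' : reach D t r) :
    reach D s r := by
  obtain ⟨c, hc, rfl, rfl⟩ := h'
  refine ⟨one s * c, ?_, ?_, ?_⟩
  · rw [path_mul]; exact ⟨h.1, h, hc⟩
  · rw [head_mul]; rfl
  · rw [last_mul]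

theorem reach_last {D : Dig S} {w : W S} (h : path D w) : reach D (last w) (last w) := by
  refine ⟨one (last w), ?_, rfl, rfl⟩
  cases w with
  | one s => exact h
  | snoc w t => exact h.2.2.1

/-- the digraph of a family of elements of a semigroup with zero -/
def digOf {C : Type} [Semigroup C] (z : C) (y : S → C) : Dig S :=
  (fun s => y s ≠ z, fun s t => y s * y t ≠ z)

variable {C : Type} [Semigroup C] {z : C}

theorem ev_last {M : Type} [Semigroup M] (y : S → M) (w : W S) :
    ev y w = y (last w) ∨ ∃ a, ev y w = a * y (last w) := by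
  cases w with
  | one s => exact Or.inl rfl
  | snoc w s => exact Or.inr ⟨ev y w, rfl⟩

theorem ev_ne_iff [Finite C] (h : ZS z) (y : S → C) (w : W S) :
    ev y w ≠ z ↔ path (digOf z y) w := by
  induction w with
  | one s => exact Iff.rfl
  | snoc w t ih =>
    show ev y w * y t ≠ z ↔ path (digOf z y) w ∧ arc (digOf z y) (last w) t
    rw [← ih]
    constructor
    · intro h1
      have h2 : ev y w ≠ z := h.mul_left_ne h1
      have h3 : y (last w) * y t ≠ z := by
        rcases ev_last y w with h4 | ⟨a, h4⟩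
        · rwa [← h4]
        · rw [h4, mul_assoc] at h1
          exact h.mul_right_ne h1
      exact ⟨h2, h.mul_left_ne h3, h.mul_right_ne h3, h3⟩
    · rintro ⟨h2, -, -, h3⟩
      rcases ev_last y w with h4 | ⟨a, h4⟩
      · rw [h4]; exact h3
      · rw [h4]
        exact h.cat (by rw [← h4]; exact h2) h3

theorem ev_pump [Finite C] (h : ZS z) (y : S → C) {c : W S} (hc : path (digOf z y) c)
    (ha : arc (digOf z y) (last c) (head c)) {k : ℕ}
    (hk : npw (ev y c) k * npw (ev y c) k = npw (ev y c) k) (p : W S) (hp : last p = last c) :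
    ev y (p * npw c k) = ev y p := by
  have h1 : y (last c) * ev y c ≠ z := by
    have : ev y (one (last c) * c) ≠ z := by
      rw [ev_ne_iff h, path_mul]
      exact ⟨ha.1, ha, hc⟩
    rwa [ev_mul] at this
  have h2 : y (last c) * npw (ev y c) k = y (last c) := by
    refine h.pump h1 ?_ hk
    exact ev_last y c
  rw [ev_mul, ev_npw]
  rcases ev_last y p with h3 | ⟨a, h3⟩
  · rw [h3, hp, h2]
  · rw [h3, mul_assoc, hp, h2]

end dig

end

section
open Function W Classical

section words
variable {S : Type}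

/-- vertices and arcs of a word -/
def arcs : W S → Dig S
  | one s => (fun x => x = s, fun _ _ => False)
  | snoc w t => (fun x => (arcs w).1 x ∨ x = t, fun x y => (arcs w).2 x y ∨ (x = last w ∧ y = t))

theorem path_last {D : Dig S} {w : W S} (h : path D w) : D.1 (last w) := by
  cases w with
  | one s => exact h
  | snoc w t => exact h.2.2.1

theorem arcs_le_iff {D : Dig S} (w : W S) : arcs w ≤ D ↔ path D w := by
  induction w with
  | one s =>
    constructor
    · rintro ⟨h1, -⟩
      exact h1 s rfl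
    · intro h
      refine ⟨fun x hx => ?_, fun x y hxy => hxy.elim⟩
      have hx' : x = s := hx
      rw [hx']; exact h
  | snoc w t ih =>
    constructor
    · rintro ⟨h1, h2⟩
      have h3 : path D w := ih.1 ⟨fun x hx => h1 x (Or.inl hx), fun x y hxy => h2 x y (Or.inl hxy)⟩
      exact ⟨h3, path_last h3, h1 t (Or.inr rfl), h2 _ _ (Or.inr ⟨rfl, rfl⟩)⟩
    · rintro ⟨h1, h2, h3, h4⟩
      have h5 := ih.2 h1
      refine ⟨fun x hx => ?_, fun x y hxy => ?_⟩
      · rcases hx with hx | hx
        · exact h5.1 x hx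
        · rw [hx]; exact h3
      · rcases hxy with hxy | ⟨hx, hy⟩
        · exact h5.2 x y hxy
        · rw [hx, hy]; exact h4

theorem path_mono {E D : Dig S} (h : E ≤ D) {w : W S} (hw : path E w) : path D w :=
  (arcs_le_iff w).1 (((arcs_le_iff w).2 hw).trans h)

theorem arc_mono {E D : Dig S} (h : E ≤ D) {s t : S} (hw : arc E s t) : arc D s t :=
  ⟨h.1 s hw.1, h.1 t hw.2.1, h.2 s t hw.2.2⟩

/-- value of a word in `S` -/
def val [Semigroup S] (w : W S) : S := ev (fun s => s) w

end words

section pw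
variable {M : Type} [Semigroup M]

theorem npw_npw (b : M) (m k : ℕ) : npw (npw b m) k = npw b (m * k + m + k) := by
  induction k with
  | zero => simp [npw]
  | succ k ih =>
    show npw (npw b m) k * npw b m = _
    rw [ih, npw_add]
    congr 1
    ring

theorem absorb {a b : M} {m k : ℕ} (h1 : a * npw b m = a)
    (h2 : npw b k * npw b k = npw b k) : a * npw b k = a := by
  have h3 : ∀ j, a * npw (npw b m) j = a := by
    intro j
    induction j with
    | zero => exact h1
    | succ j ih =>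
      show a * (npw (npw b m) j * npw b m) = a
      rw [← mul_assoc, ih, h1]
  have h4 : ∀ j, npw (npw b k) j = npw b k := by
    intro j
    induction j with
    | zero => rfl
    | succ j ih =>
      show npw (npw b k) j * npw b k = _
      rw [ih, h2]
  have h5 := h3 k
  rw [npw_npw, show m * k + m + k = k * m + k + m by ring, ← npw_npw, h4] at h5
  exact h5

theorem coe_npw (c : Con M) (b : M) (k : ℕ) : ((npw b k : M) : c.Quotient) = npw (b : c.Quotient) k := by
  induction k with
  | zero => rfl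
  | succ k ih =>
    show ((npw b k * b : M) : c.Quotient) = npw (b : c.Quotient) k * (b : c.Quotient)
    rw [Con.coe_mul, ih]

end pw

end

section defs2
open Function W

/-- label of a word, for a labelling of the pairs of letters by elements of a group -/
def lab {S G : Type} [Group G] (lb : S → S → G) : W S → G
  | one _ => 1
  | snoc w t => lab lb w * lb (last w) t

/-- the relation `R` on the paths of `D` is implied by equality of the end points and of the labels
for a labelling by a group in `V` -/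
def Lab (V : PV) {S : Type} (D : Dig S) (R : W S → W S → Prop) : Prop :=
  ∃ (G : Type) (_ : Group G) (lb : S → S → G), V.mem G ∧
    ∀ p p', path D p → path D p' → head p = head p' → last p = last p' →
      lab lb p = lab lb p' → R p p'

/-- the same with a bound for the order of the group -/
def LabB (V : PV) {S : Type} (D : Dig S) (R : W S → W S → Prop) (B : ℕ) : Prop :=
  ∃ (G : Type) (_ : Group G) (lb : S → S → G), V.mem G ∧ Nat.card G ≤ B ∧
    ∀ p p', path D p → path D p' → head p = head p' → last p = last p' →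
      lab lb p = lab lb p' → R p p'

end defs2

end Pool.Agent.H502.Bk
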