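import Mathlib
set_option autoImplicit false

namespace Pool.Agent.H502.Bk

/-- A finite nonempty semigroup. -/
structure FinSg where
  carrier : Type
  sg : Semigroup carrier
  fin : Finite carrier
  ne : Nonempty carrier

attribute [instance] FinSg.sg FinSg.fin FinSg.ne

instance : CoeSort FinSg Type := ⟨FinSg.carrier⟩

/-- homomorphic images of members of `C` -/
def opH (C : Set FinSg) : Set FinSg :=
  {B | ∃ A ∈ C, ∃ f : A →ₙ* B, Function.Surjective f}

/-- semigroups embeddable into members of `C` -/
def opS (C : Set FinSg) : Set FinSg :=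
  {B | ∃ A ∈ C, ∃ f : B →ₙ* A, Function.Injective f}

/-- the direct product of `n + 1` finite semigroups -/
def prodSg {n : ℕ} (T : Fin (n + 1) → FinSg) : FinSg :=
  ⟨∀ i, T i, inferInstance, inferInstance, inferInstance⟩

/-- finite direct products of members of `C` (at least one factor), up to isomorphism -/
def opP (C : Set FinSg) : Set FinSg :=
  {B | ∃ (n : ℕ) (T : Fin (n + 1) → FinSg), (∀ i, T i ∈ C) ∧ Nonempty (B ≃* prodSg T)}

/-- A semigroup `S` is 0-simple if it has a zero `z`, `S² ≠ {z}`, and its only ideals (nonempty
subsets `I` with `S I ⊆ I` and `I S ⊆ I`) are `{z}` and `S`. -/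
def ZeroSimple (S : Type) [Semigroup S] : Prop :=
  ∃ z : S, (∀ x, z * x = z ∧ x * z = z) ∧ (∃ x y : S, x * y ≠ z) ∧
    ∀ I : Set S, I.Nonempty → (∀ a ∈ I, ∀ x, x * a ∈ I ∧ a * x ∈ I) → I = {z} ∨ I = Set.univ

/-- the class of all finite 0-simple semigroups -/
def C0 : Set FinSg := {S | ZeroSimple S}

/-- entry `(i, j)` of the `n × n` table written row by row in the list `l` -/
def tmul (n : ℕ) (l : List ℕ) (i j : ℕ) : ℕ := l.getD (i * n + j) 0

/-- `l` is the multiplication table (row by row) of a semigroup on `{0, …, n-1}`, `n > 0` -/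
def IsTable (n : ℕ) (l : List ℕ) : Prop :=
  0 < n ∧ l.length = n * n ∧ (∀ x ∈ l, x < n) ∧
    ∀ i < n, ∀ j < n, ∀ k < n, tmul n l (tmul n l i j) k = tmul n l i (tmul n l j k)

theorem tmul_lt {n : ℕ} {l : List ℕ} (h : IsTable n l) (i j : ℕ) : tmul n l i j < n := by
  unfold tmul
  by_cases hh : i * n + j < l.length
  · rw [List.getD_eq_getElem _ _ hh]
    exact h.2.2.1 _ (List.getElem_mem hh)
  · rw [List.getD_eq_default _ _ (by omega)]
    exact h.1

/-- the semigroup given by a table -/
def tableSg (n : ℕ) (l : List ℕ) (h : IsTable n l) : FinSg where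
  carrier := Fin n
  sg := { mul := fun a b => ⟨tmul n l a b, tmul_lt h a b⟩
          mul_assoc := fun a b c => Fin.ext (h.2.2.2 a a.2 b b.2 c c.2) }
  fin := inferInstance
  ne := ⟨⟨0, h.1⟩⟩

/-- A class is decidable: membership is decided from the multiplication table. -/
def DecClass (C : Set FinSg) : Prop :=
  ComputablePred fun x : ℕ × List ℕ => ∃ h : IsTable x.1 x.2, tableSg x.1 x.2 h ∈ C

section defs
open Function

/-- A pseudovariety of finite groups: a class of finite groups closed under subgroups, homomorphic
images (in particular isomorphic copies) and finite direct products. -/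
structure PV where
  mem : (G : Type) → [Group G] → Prop
  fin : ∀ (G : Type) [Group G], mem G → Finite G
  sub : ∀ (G H : Type) [Group G] [Group H] (f : G →* H), Injective f → mem H → mem G
  quo : ∀ (G H : Type) [Group G] [Group H] (f : G →* H), Surjective f → mem G → mem H
  prod : ∀ (G H : Type) [Group G] [Group H], mem G → mem H → mem (G × H)
  unit : mem Unit

/-- every subgroup of the semigroup `T` belongs to `V` -/
def AllSub (V : PV) (T : Type) [Semigroup T] : Prop :=
  ∀ (H : Type) [Group H] (g : H →ₙ* T), Injective g → V.mem H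

/-- The class of finite 0-simple semigroups over groups in `V`: the finite 0-simple semigroups all
of whose subgroups belong to `V`. -/
def ZSO (V : PV) : Set FinSg := {S | ZeroSimple S ∧ AllSub V S}

/-- group words: `(i, true)` stands for the variable `x_i` and `(i, false)` for its inverse -/
abbrev Wd := List (ℕ × Bool)

/-- value of a group word -/
def Wd.ev {G : Type} [Group G] (v : ℕ → G) (w : Wd) : G :=
  (w.map fun x => if x.2 then v x.1 else (v x.1)⁻¹).prod

/-- literals: `(true, w)` is the equation `w = 1` and `(false, w)` is the inequation `w ≠ 1` -/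
abbrev Lit := Bool × Wd

def Lit.ho {G : Type} [Group G] (v : ℕ → G) (l : Lit) : Prop :=
  if l.1 then Wd.ev v l.2 = 1 else Wd.ev v l.2 ≠ 1

/-- quantifier free formulas of the language of groups, in conjunctive normal form -/
abbrev Cnf := List (List Lit)

def Cnf.ho {G : Type} [Group G] (v : ℕ → G) (φ : Cnf) : Prop := ∀ c ∈ φ, ∃ l ∈ c, Lit.ho v l

/-- the universal theory of `V` is decidable: it is decidable whether the universal closure of a
quantifier free formula holds in all groups of `V` -/
def PV.DecUniv (V : PV) : Prop :=
  ComputablePred fun φ : Cnf => ∀ (G : Type) [Group G], V.mem G → ∀ v : ℕ → G, Cnf.ho v φ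


end defs

section opsdefs

/-- the three operators -/
inductive Op
  | H | S | P

/-- composite of a list of operators, the last one is applied first -/
def app : List Op → Set FinSg → Set FinSg
  | [], C => C
  | Op.H :: l, C => opH (app l C)
  | Op.S :: l, C => opS (app l C)
  | Op.P :: l, C => opP (app l C)

end opsdefs

end Pool.Agent.H502.Bk
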