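import Pool.Agent.H502.BkSk
set_option autoImplicit false

namespace Pool.Agent.H502.Bk

section
open Function W

namespace J11116

/-! ### TARGET of this job: PV.pi -/

theorem PV.pi (V : PV) {ι : Type} [Finite ι] (G : ι → Type) [∀ i, Group (G i)]
    (h : ∀ i, V.mem (G i)) : V.mem (∀ i, G i) := by
  have key : ∀ (ι : Type) [Finite ι] (G : ι → Type) [∀ i, Group (G i)],
      (∀ i, V.mem (G i)) → V.mem (∀ i, G i) := by
    intro ι _
    refine Finite.induction_empty_option (P := fun ι => ∀ (G : ι → Type) [∀ i, Group (G i)],
      (∀ i, V.mem (G i)) → V.mem (∀ i, G i)) ?_ ?_ ?_ ι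
    · intro α β e ih G _ h
      refine V.sub _ (∀ a, G (e a)) (⟨⟨fun x a => x (e a), rfl⟩, fun _ _ => rfl⟩ :
        (∀ i, G i) →* (∀ a, G (e a))) ?_ (ih (fun a => G (e a)) (fun a => h (e a)))
      intro x y hxy
      funext i
      obtain ⟨a, rfl⟩ := e.surjective i
      exact congrFun hxy a
    · intro G _ h
      refine V.sub _ Unit (1 : (∀ i, G i) →* Unit) ?_ V.unit
      intro x y _
      funext i
      exact i.elim
    · intro α _ ih G _ h
      refine V.sub _ (G none × ∀ a : α, G (some a))
        (⟨⟨fun x => (x none, fun a => x (some a)), rfl⟩, fun _ _ => rfl⟩ :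
          (∀ i, G i) →* (G none × ∀ a : α, G (some a))) ?_
        (V.prod _ _ (h none) (ih (fun a => G (some a)) (fun a => h (some a))))
      intro x y hxy
      have h1 := congrArg Prod.fst hxy
      have h2 := congrArg Prod.snd hxy
      funext i
      cases i with
      | none => exact h1
      | some a => exact congrFun h2 a
  exact key ι G h

end J11116

alias PV.pi := J11116.PV.pi

end

end Pool.Agent.H502.Bk
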