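import Pool.Agent.H502.BkSk
import Pool.Agent.H502.BkJ_PV_pi
set_option autoImplicit false

namespace Pool.Agent.H502.Bk

section
open Function W

namespace J11118

/-! ### TARGET of this job: AllSub.pi -/

/-- the kernel of a coordinate -/
def kerC_11118 {H A : Type} [Group H] [Semigroup A] (g : H →ₙ* A) : Subgroup H where
  carrier := {h | g h = g 1}
  mul_mem' := by
    intro a b ha hb
    have ha' : g a = g 1 := ha
    have hb' : g b = g 1 := hb
    show g (a * b) = g 1
    rw [map_mul, ha', hb', ← map_mul, one_mul]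
  one_mem' := rfl
  inv_mem' := by
    intro a ha
    have ha' : g a = g 1 := ha
    show g a⁻¹ = g 1
    calc g a⁻¹ = g (a⁻¹ * 1) := by rw [mul_one]
      _ = g a⁻¹ * g 1 := map_mul _ _ _
      _ = g a⁻¹ * g a := by rw [ha']
      _ = g (a⁻¹ * a) := (map_mul _ _ _).symm
      _ = g 1 := by rw [inv_mul_cancel]

theorem kerC_normal_11118 {H A : Type} [Group H] [Semigroup A] (g : H →ₙ* A) :
    (kerC_11118 g).Normal := by
  constructor
  intro a ha b
  have ha' : g a = g 1 := ha
  show g (b * a * b⁻¹) = g 1
  rw [map_mul, map_mul, ha', ← map_mul, ← map_mul, mul_one, mul_inv_cancel]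

theorem kerC_iff_11118 {H A : Type} [Group H] [Semigroup A] (g : H →ₙ* A) (a b : H) :
    a⁻¹ * b ∈ kerC_11118 g ↔ g a = g b := by
  constructor
  · intro h
    have h' : g (a⁻¹ * b) = g 1 := h
    calc g a = g (a * 1) := by rw [mul_one]
      _ = g a * g 1 := map_mul _ _ _
      _ = g a * g (a⁻¹ * b) := by rw [h']
      _ = g (a * (a⁻¹ * b)) := (map_mul _ _ _).symm
      _ = g b := by rw [mul_inv_cancel_left]
  · intro h
    show g (a⁻¹ * b) = g 1
    rw [map_mul, ← h, ← map_mul, inv_mul_cancel]

theorem kerC_mem_11118 (V : PV) {H A : Type} [Group H] [Semigroup A] (g : H →ₙ* A)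
    (h : AllSub V A) [(kerC_11118 g).Normal] : V.mem (H ⧸ kerC_11118 g) := by
  have hwd : ∀ a b : H, (QuotientGroup.leftRel (kerC_11118 g)) a b → g a = g b := by
    intro a b hab
    rw [QuotientGroup.leftRel_apply] at hab
    exact (kerC_iff_11118 g a b).1 hab
  let f : (H ⧸ kerC_11118 g) →ₙ* A :=
    { toFun := fun q => Quotient.liftOn' q g hwd
      map_mul' := by
        intro x y
        induction x using QuotientGroup.induction_on with
        | H x =>
          induction y using QuotientGroup.induction_on with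
          | H y => exact map_mul g x y }
  refine h _ f ?_
  intro x y hxy
  induction x using QuotientGroup.induction_on with
  | H x =>
    induction y using QuotientGroup.induction_on with
    | H y =>
      have h1 : g x = g y := hxy
      exact QuotientGroup.eq.2 ((kerC_iff_11118 g x y).2 h1)

theorem AllSub.pi {V : PV} {ι : Type} [Finite ι] (T : ι → Type) [∀ i, Semigroup (T i)]
    (h : ∀ i, AllSub V (T i)) : AllSub V (∀ i, T i) := by
  intro H _ g hg
  let gi : ∀ i, H →ₙ* T i := fun i =>
    { toFun := fun a => g a i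
      map_mul' := fun a b => by rw [map_mul]; rfl }
  haveI : ∀ i, (kerC_11118 (gi i)).Normal := fun i => kerC_normal_11118 (gi i)
  have h1 : ∀ i, V.mem (H ⧸ kerC_11118 (gi i)) := fun i => kerC_mem_11118 V (gi i) (h i)
  have h2 : V.mem (∀ i, H ⧸ kerC_11118 (gi i)) := PV.pi V _ h1
  refine V.sub H (∀ i, H ⧸ kerC_11118 (gi i))
    (MonoidHom.pi fun i => QuotientGroup.mk' (kerC_11118 (gi i))) ?_ h2
  intro a b hab
  apply hg
  funext i
  have h3 := congrFun hab i
  have h4 : ((a : H) : H ⧸ kerC_11118 (gi i)) = (b : H) := h3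
  rw [QuotientGroup.eq] at h4
  exact (kerC_iff_11118 (gi i) a b).1 h4

end J11118

alias AllSub.pi := J11118.AllSub.pi

end

end Pool.Agent.H502.Bk
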