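import Pool.Agent.H502.BkSk
set_option autoImplicit false

namespace Pool.Agent.H502.Bk

section
open Function W

namespace J11119

/-! ### TARGET of this job: AllSub.quot -/

/-- left translate of a subsemigroup -/
def AllSub.lt {A : Type} [Semigroup A] (K : Subsemigroup A) (a : A) (ha : a ∈ K) :
    Subsemigroup A where
  carrier := {z | ∃ y ∈ K, a * y = z}
  mul_mem' := by
    rintro _ _ ⟨y, hy, rfl⟩ ⟨z, hz, rfl⟩
    exact ⟨y * (a * z), K.mul_mem hy (K.mul_mem ha hz), by simp only [mul_assoc]⟩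

/-- right translate of a subsemigroup -/
def AllSub.rt {A : Type} [Semigroup A] (K : Subsemigroup A) (a : A) (ha : a ∈ K) :
    Subsemigroup A where
  carrier := {z | ∃ y ∈ K, y * a = z}
  mul_mem' := by
    rintro _ _ ⟨y, hy, rfl⟩ ⟨z, hz, rfl⟩
    exact ⟨y * a * z, K.mul_mem (K.mul_mem hy ha) hz, by simp only [mul_assoc]⟩

/-- preimage of the range -/
def AllSub.pre {A B H : Type} [Semigroup A] [Semigroup B] [Group H] (f : A →ₙ* B) (g : H →ₙ* B) :
    Subsemigroup A where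
  carrier := f ⁻¹' Set.range g
  mul_mem' := by
    rintro a b ⟨x, hx⟩ ⟨y, hy⟩
    exact ⟨x * y, by rw [map_mul, map_mul, hx, hy]⟩

/-- a nonempty subsemigroup `K` with `aK = K = Ka` for all `a ∈ K` is a group -/
theorem AllSub.quot_aux {V : PV} {A H : Type} [Semigroup A] [Group H] (h : AllSub V A)
    (K : Subsemigroup A) (a₀ : A) (ha₀ : a₀ ∈ K)
    (hL : ∀ a ∈ K, ∀ x ∈ K, ∃ y ∈ K, a * y = x) (hR : ∀ a ∈ K, ∀ x ∈ K, ∃ y ∈ K, y * a = x)
    (φ : K → H) (hφ : ∀ x y : K, φ (x * y) = φ x * φ y) (hφs : Surjective φ) : V.mem H := by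
  obtain ⟨e, he, hea⟩ := hR a₀ ha₀ a₀ ha₀
  have hone : ∀ x ∈ K, e * x = x := by
    intro x hx
    obtain ⟨y, hy, rfl⟩ := hL a₀ ha₀ x hx
    rw [← mul_assoc, hea]
  have hinv : ∀ x : K, ∃ y : K, (y : A) * x = e := by
    intro x
    obtain ⟨y, hy, hyx⟩ := hR x.1 x.2 e he
    exact ⟨⟨y, hy⟩, hyx⟩
  choose iv hiv using hinv
  letI i1 : One K := ⟨⟨e, he⟩⟩
  letI i2 : Inv K := ⟨iv⟩
  letI i3 : Group K := Group.ofLeftAxioms (fun x y z => mul_assoc x y z)
    (fun x => Subtype.ext (hone x.1 x.2)) (fun x => Subtype.ext (hiv x))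
  have hK : V.mem K := h K ⟨fun k => k.1, fun _ _ => rfl⟩ Subtype.val_injective
  exact V.quo K H (MonoidHom.mk' φ hφ) hφs hK


theorem AllSub.quot {V : PV} {A B : Type} [Semigroup A] [Semigroup B] [Finite A] (f : A →ₙ* B)
    (hf : Surjective f) (h : AllSub V A) : AllSub V B := by
  classical
  intro H _ g hg
  -- minimal subsemigroup onto the range
  have hex : ∃ n : ℕ, ∃ K : Subsemigroup A, f '' (K : Set A) = Set.range g ∧
      (K : Set A).ncard = n := by
    refine ⟨_, AllSub.pre f g, ?_, rfl⟩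
    show f '' (f ⁻¹' Set.range g) = _
    exact Set.image_preimage_eq _ hf
  obtain ⟨K, hK, hKn⟩ := Nat.find_spec hex
  have hmin : ∀ K' : Subsemigroup A, (K' : Set A) ⊆ K → f '' (K' : Set A) = Set.range g →
      (K' : Set A) = K := by
    intro K' hsub him
    apply Set.eq_of_subset_of_ncard_le hsub _ (Set.toFinite _)
    rw [hKn]
    exact Nat.find_min' hex ⟨K', him, rfl⟩
  have hfK : ∀ a ∈ K, ∃ x : H, g x = f a := by
    intro a ha
    have : f a ∈ f '' (K : Set A) := ⟨a, ha, rfl⟩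
    rw [hK] at this
    exact this
  have hgK : ∀ x : H, ∃ a ∈ K, f a = g x := by
    intro x
    have : g x ∈ Set.range g := ⟨x, rfl⟩
    rw [← hK] at this
    exact this
  have hL : ∀ a ∈ K, ∀ x ∈ K, ∃ y ∈ K, a * y = x := by
    intro a ha x hx
    obtain ⟨h₀, hh₀⟩ := hfK a ha
    let K' : Subsemigroup A := AllSub.lt K a ha
    have h1 : (K' : Set A) = K := by
      apply hmin
      · rintro _ ⟨y, hy, rfl⟩
        exact K.mul_mem ha hy
      · apply Set.Subset.antisymm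
        · rintro _ ⟨_, ⟨y, hy, rfl⟩, rfl⟩
          obtain ⟨h₁, hh₁⟩ := hfK y hy
          exact ⟨h₀ * h₁, by rw [map_mul, map_mul, hh₀, hh₁]⟩
        · rintro _ ⟨w, rfl⟩
          obtain ⟨y, hy, hfy⟩ := hgK (h₀⁻¹ * w)
          refine ⟨a * y, ⟨y, hy, rfl⟩, ?_⟩
          rw [map_mul, hfy, ← hh₀, ← map_mul, mul_inv_cancel_left]
    have h2 : x ∈ (K' : Set A) := by rw [h1]; exact hx
    exact h2
  have hR : ∀ a ∈ K, ∀ x ∈ K, ∃ y ∈ K, y * a = x := by
    intro a ha x hx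
    obtain ⟨h₀, hh₀⟩ := hfK a ha
    let K' : Subsemigroup A := AllSub.rt K a ha
    have h1 : (K' : Set A) = K := by
      apply hmin
      · rintro _ ⟨y, hy, rfl⟩
        exact K.mul_mem hy ha
      · apply Set.Subset.antisymm
        · rintro _ ⟨_, ⟨y, hy, rfl⟩, rfl⟩
          obtain ⟨h₁, hh₁⟩ := hfK y hy
          exact ⟨h₁ * h₀, by rw [map_mul, map_mul, hh₀, hh₁]⟩
        · rintro _ ⟨w, rfl⟩
          obtain ⟨y, hy, hfy⟩ := hgK (w * h₀⁻¹)
          refine ⟨y * a, ⟨y, hy, rfl⟩, ?_⟩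
          rw [map_mul, hfy, ← hh₀, ← map_mul, inv_mul_cancel_right]
    have h2 : x ∈ (K' : Set A) := by rw [h1]; exact hx
    exact h2
  obtain ⟨a₀, ha₀, -⟩ := hgK 1
  have hφ : ∀ k : K, ∃ x : H, g x = f k := fun k => hfK k.1 k.2
  choose φ hφ using hφ
  refine AllSub.quot_aux h K a₀ ha₀ hL hR φ ?_ ?_
  · intro x y
    apply hg
    rw [map_mul, hφ, hφ, hφ, ← map_mul]
    rfl
  · intro x
    obtain ⟨a, ha, hfa⟩ := hgK x
    exact ⟨⟨a, ha⟩, hg (by rw [hφ, hfa])⟩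

end J11119

alias AllSub.quot := J11119.AllSub.quot

end

end Pool.Agent.H502.Bk
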