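import Pool.Agent.H502.BkSk
set_option autoImplicit false

namespace Pool.Agent.H502.Bk

section
open Function

namespace J11143

/-! ### TARGET of this job: IsoC_ZSO -/

theorem IsoC_ZSO (V : PV) : IsoC (ZSO V) := by
  rintro A ⟨hA, hS⟩ B ⟨e⟩
  refine ⟨?_, AllSub.inj e.symm.toMulHom e.symm.injective hS⟩
  obtain ⟨z, h1, ⟨p, q, hpq⟩, h3⟩ := zs_of_zeroSimple hA
  refine zeroSimple_of_zs (z := e z) ⟨?_, ⟨e p, e q, ?_⟩, ?_⟩
  · intro x
    obtain ⟨y, rfl⟩ := e.surjective x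
    constructor
    · rw [← map_mul, (h1 y).1]
    · rw [← map_mul, (h1 y).2]
  · rw [← map_mul]
    exact fun h => hpq (e.injective h)
  · intro a ha b
    obtain ⟨a', rfl⟩ := e.surjective a
    obtain ⟨b', rfl⟩ := e.surjective b
    obtain ⟨x, y, hxy⟩ := h3 a' (fun h => ha (by rw [h])) b'
    exact ⟨e x, e y, by rw [← map_mul, ← map_mul, hxy]⟩

end J11143

alias IsoC_ZSO := J11143.IsoC_ZSO

end

end Pool.Agent.H502.Bk
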