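import Pool.Agent.H502.BkSk
import Pool.Agent.H502.BkJ_PV_pi
set_option autoImplicit false

namespace Pool.Agent.H502.Bk

section
open Function W

namespace J11122

/-! ### TARGET of this job: Lab.pi -/

theorem Lab.pi_lab {S : Type} {ι : Type} (G : ι → Type) [∀ i, Group (G i)]
    (lb : ∀ i, S → S → G i) (p : W S) :
    lab (fun s t => fun i => lb i s t) p = fun i => lab (lb i) p := by
  induction p with
  | one _ => rfl
  | snoc w t ih =>
    show lab (fun s t => fun i => lb i s t) w * (fun i => lb i (last w) t) =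
      fun i => lab (lb i) w * lb i (last w) t
    rw [ih]
    rfl

theorem Lab.pi {V : PV} {S : Type} {D : Dig S} {ι : Type} [Finite ι]
    (R : ι → W S → W S → Prop) (h : ∀ i, Lab V D (R i)) :
    Lab V D (fun p p' => ∀ i, R i p p') := by
  choose G hG lb h1 h2 using h
  refine ⟨∀ i, G i, inferInstance, fun s t i => lb i s t, PV.pi V G h1, ?_⟩
  intro p p' hp hp' hh hl he i
  rw [Lab.pi_lab, Lab.pi_lab] at he
  exact h2 i p p' hp hp' hh hl (congrFun he i)

end J11122

alias Lab.pi := J11122.Lab.pi

end

end Pool.Agent.H502.Bk
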