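import Pool.Agent.H502.BkSk
set_option autoImplicit false

namespace Pool.Agent.H502.Bk

section
open Function

namespace J11141

/-! ### TARGET of this job: PH_le -/

theorem PH_le (X : Set FinSg) : opP (opH X) ⊆ opH (opP X) := by
  rintro B ⟨n, A, hA, ⟨e⟩⟩
  choose C hC f hf using hA
  refine ⟨prodSg C, ⟨n, C, hC, ⟨MulEquiv.refl _⟩⟩,
    e.symm.toMulHom.comp ⟨fun x i => f i (x i), fun x y => ?_⟩, ?_⟩
  · funext i
    exact map_mul (f i) (x i) (y i)
  · refine e.symm.surjective.comp (fun y => ?_)
    choose x hx using fun i => hf i (y i)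
    exact ⟨x, funext hx⟩

end J11141

alias PH_le := J11141.PH_le

end

end Pool.Agent.H502.Bk
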