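import Pool.Agent.H502.BkSk
set_option autoImplicit false

namespace Pool.Agent.H502.Bk

section
open Function

namespace J11142

/-! ### TARGET of this job: PS_le -/

theorem PS_le (X : Set FinSg) : opP (opS X) ⊆ opS (opP X) := by
  rintro B ⟨n, A, hA, ⟨e⟩⟩
  choose C hC f hf using hA
  refine ⟨prodSg C, ⟨n, C, hC, ⟨MulEquiv.refl _⟩⟩,
    MulHom.comp ⟨fun x i => f i (x i), fun x y => ?_⟩ e.toMulHom, ?_⟩
  · funext i
    exact map_mul (f i) (x i) (y i)
  · intro x y h
    apply e.injective
    funext i
    exact hf i (congrFun h i)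

end J11142

alias PS_le := J11142.PS_le

end

end Pool.Agent.H502.Bk
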