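import Pool.Agent.H502.BkSk
set_option autoImplicit false

namespace Pool.Agent.H502.Bk

section
open Function W

namespace J11117

/-! ### TARGET of this job: PV.cyc -/

theorem PV.cyc (V : PV) : (∀ (G : Type) [Group G], V.mem G → Subsingleton G) ∨
    ∃ m : ℕ, 2 ≤ m ∧ V.mem (Multiplicative (ZMod m)) := by
  by_cases h : ∀ (G : Type) [Group G], V.mem G → Subsingleton G
  · exact Or.inl h
  right
  rw [not_forall] at h
  obtain ⟨G, h⟩ := h
  rw [not_forall] at h
  obtain ⟨iG, h⟩ := h
  rw [Classical.not_imp] at h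
  obtain ⟨hG, hn⟩ := h
  have hfin := V.fin G hG
  rw [not_subsingleton_iff_nontrivial] at hn
  obtain ⟨g, hg⟩ := exists_ne (1 : G)
  have e : Multiplicative (ZMod (Nat.card (Subgroup.zpowers g))) ≃* Subgroup.zpowers g :=
    zmodCyclicMulEquiv inferInstance
  refine ⟨Nat.card (Subgroup.zpowers g), ?_,
    V.sub _ G ((Subgroup.subtype (Subgroup.zpowers g)).comp e.toMonoidHom) ?_ hG⟩
  · rw [Nat.card_zpowers]
    have h1 : orderOf g ≠ 1 := fun h => hg (orderOf_eq_one_iff.1 h)
    have h2 : 0 < orderOf g := orderOf_pos g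
    omega
  · intro x y hxy
    apply e.injective
    exact Subtype.ext hxy

end J11117

alias PV.cyc := J11117.PV.cyc

end

end Pool.Agent.H502.Bk
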