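import Pool.Agent.H502.BkSk
set_option autoImplicit false

namespace Pool.Agent.H502.Bk

section
open Function

namespace J11140

/-! ### TARGET of this job: SH_le -/

theorem SH_le (X : Set FinSg) : opS (opH X) ⊆ opH (opS X) := by
  rintro B ⟨A, ⟨C, hC, f, hf⟩, g, hg⟩
  let U : Subsemigroup C :=
    { carrier := {c | ∃ b, g b = f c}
      mul_mem' := by
        rintro c d ⟨b, hb⟩ ⟨b', hb'⟩
        exact ⟨b * b', by rw [map_mul, map_mul, hb, hb']⟩ }
  have hex : ∀ u : U, ∃ b, g b = f u := fun u => u.2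
  choose r hr using hex
  have hne : Nonempty U := by
    obtain ⟨b⟩ := B.ne
    obtain ⟨c, hc⟩ := hf (g b)
    exact ⟨⟨c, b, hc.symm⟩⟩
  refine ⟨⟨U, inferInstance, inferInstance, hne⟩, ⟨C, hC, ⟨fun u => (u : C), fun _ _ => rfl⟩,
    fun u v h => Subtype.ext h⟩, ⟨r, fun u v => ?_⟩, fun b => ?_⟩
  · apply hg
    rw [map_mul, hr, hr, hr]
    exact map_mul f (u : C) (v : C)
  · obtain ⟨c, hc⟩ := hf (g b)
    exact ⟨⟨c, b, hc.symm⟩, hg ((hr _).trans hc)⟩

end J11140

alias SH_le := J11140.SH_le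

end

end Pool.Agent.H502.Bk
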