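import Pool.Agent.H502.BkSk
set_option autoImplicit false

namespace Pool.Agent.H502.Bk

section
open Function

namespace J11713

/-! ### TARGET of this job: rees_coord -/

theorem rc_group {C : Type} [Semigroup C] [Finite C] {z : C} (h : ZS z) {e : C}
    (he : e * e = e) (hez : e ≠ z) :
    ∃ (_ : Group {x : C // x ≠ z ∧ e * x = x ∧ x * e = x}),
      ∀ x y : {x : C // x ≠ z ∧ e * x = x ∧ x * e = x}, (x * y).1 = x.1 * y.1 := by
  have hinv : ∀ x : {x : C // x ≠ z ∧ e * x = x ∧ x * e = x},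
      ∃ y : {x : C // x ≠ z ∧ e * x = x ∧ x * e = x}, y.1 * x.1 = e := by
    rintro ⟨x, hx, hx1, hx2⟩
    obtain ⟨c, hc⟩ := h.left_inv (a := x) (b := e) (by rw [hx2]; exact hx)
    rw [hx2] at hc
    have h1 : e * c * e * x = e := by
      rw [mul_assoc (e * c), hx1, mul_assoc, hc, he]
    refine ⟨⟨e * c * e, ?_, ?_, ?_⟩, h1⟩
    · intro h0
      rw [h0, (h.1 x).1] at h1
      exact hez h1.symm
    · rw [← mul_assoc, ← mul_assoc, he]
    · rw [mul_assoc, he]
  choose iv hiv using hinv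
  letI : Mul {x : C // x ≠ z ∧ e * x = x ∧ x * e = x} := ⟨fun x y => ⟨x.1 * y.1, by
    have := h.cat (a := x.1) (b := e) (c := y.1) (by rw [x.2.2.2]; exact x.2.1)
      (by rw [y.2.2.1]; exact y.2.1)
    rwa [x.2.2.2] at this, by rw [← mul_assoc, x.2.2.1], by rw [mul_assoc, y.2.2.2]⟩⟩
  letI : One {x : C // x ≠ z ∧ e * x = x ∧ x * e = x} := ⟨⟨e, hez, he, he⟩⟩
  letI : Inv {x : C // x ≠ z ∧ e * x = x ∧ x * e = x} := ⟨iv⟩
  refine ⟨Group.ofLeftAxioms ?_ ?_ ?_, ?_⟩
  · intro a b c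
    exact Subtype.ext (mul_assoc a.1 b.1 c.1)
  · intro a
    exact Subtype.ext a.2.2.1
  · intro a
    exact Subtype.ext (hiv a)
  · intro x y
    rfl

theorem rc_idem {C : Type} [Semigroup C] [Finite C] {z : C} (h : ZS z) :
    ∃ e : C, e * e = e ∧ e ≠ z := by
  obtain ⟨p, q, hpq⟩ := h.2.1
  obtain ⟨c, hc⟩ := h.left_inv hpq
  have hq : q ≠ z := h.mul_right_ne hpq
  have h1 : ∀ k, npw (c * p) k * q = q := by
    intro k
    induction k with
    | zero => show c * p * q = q; rw [mul_assoc, hc]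
    | succ k ih =>
      show npw (c * p) k * (c * p) * q = q
      rw [mul_assoc, mul_assoc c, hc, ih]
  obtain ⟨k, hk⟩ := exists_idem_npw (c * p)
  refine ⟨_, hk, fun h0 => hq ?_⟩
  have h2 := h1 k
  rw [h0, (h.1 q).1] at h2
  exact h2.symm

/-- coordinates in a finite 0-simple semigroup all of whose subgroups are in `V` -/
theorem rees_coord (V : PV) {C : Type} [Semigroup C] [Finite C] {z : C} (h : ZS z)
    (hC : AllSub V C) : ∃ (G : Type) (_ : Group G), V.mem G ∧ ∃ (γ : C → G) (π : C → C → G),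
      (∀ a b, a * b ≠ z → γ (a * b) = γ a * π a b * γ b) ∧
      (∀ a b c, c * a ≠ z → a * b ≠ z → π (c * a) b = π a b) ∧
      (∀ a b d, a * b ≠ z → b * d ≠ z → π a (b * d) = π a b) ∧
      ∀ a b, a ≠ z → b ≠ z → RR a b → LL a b → γ a = γ b → a = b := by
  classical
  obtain ⟨e, he, hez⟩ := rc_idem h
  obtain ⟨grp, hmul⟩ := rc_group h he hez
  have : Nonempty C := ⟨z⟩
  refine ⟨{x : C // x ≠ z ∧ e * x = x ∧ x * e = x}, grp,
    hC _ ⟨Subtype.val, hmul⟩ Subtype.val_injective, ?_⟩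
  have hX : ∃ X : C → C, (∀ a, a ≠ z → X a ≠ z ∧ RR (X a) a ∧ LL (X a) e) ∧
      ∀ a b, RR a b → X a = X b := by
    refine ⟨fun a => Classical.epsilon (fun x => x ≠ z ∧ RR x a ∧ LL x e), ?_, ?_⟩
    · intro a ha
      exact Classical.epsilon_spec (h.meet ha hez)
    · intro a b hab
      have : (fun x => x ≠ z ∧ RR x a ∧ LL x e) = (fun x => x ≠ z ∧ RR x b ∧ LL x e) := by
        funext x
        apply propext
        constructor
        · rintro ⟨h1, h2, h3⟩
          exact ⟨h1, h2.trans hab, h3⟩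
        · rintro ⟨h1, h2, h3⟩
          exact ⟨h1, h2.trans hab.symm, h3⟩
      simp only
      rw [this]
  have hZ : ∃ Z : C → C, (∀ a, a ≠ z → Z a ≠ z ∧ RR (Z a) e ∧ LL (Z a) a) ∧
      ∀ a b, LL a b → Z a = Z b := by
    refine ⟨fun a => Classical.epsilon (fun x => x ≠ z ∧ RR x e ∧ LL x a), ?_, ?_⟩
    · intro a ha
      exact Classical.epsilon_spec (h.meet hez ha)
    · intro a b hab
      have : (fun x => x ≠ z ∧ RR x e ∧ LL x a) = (fun x => x ≠ z ∧ RR x e ∧ LL x b) := by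
        funext x
        apply propext
        constructor
        · rintro ⟨h1, h2, h3⟩
          exact ⟨h1, h2, h3.trans hab⟩
        · rintro ⟨h1, h2, h3⟩
          exact ⟨h1, h2, h3.trans hab.symm⟩
      simp only
      rw [this]
  obtain ⟨X, hX1, hX2⟩ := hX
  obtain ⟨Z, hZ1, hZ2⟩ := hZ
  have hXe : ∀ a, a ≠ z → X a * e = X a := by
    intro a ha
    obtain ⟨-, -, -, c, hc⟩ := hX1 a ha
    rw [← hc, mul_assoc, he]
  have hZe : ∀ a, a ≠ z → e * Z a = Z a := by
    intro a ha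
    obtain ⟨-, ⟨-, c, hc⟩, -⟩ := hZ1 a ha
    rw [← hc, ← mul_assoc, he]
  have hex : ∀ a, ∃ g : {x : C // x ≠ z ∧ e * x = x ∧ x * e = x}, a ≠ z → X a * g.1 * Z a = a := by
    intro a
    by_cases ha : a ≠ z
    · obtain ⟨-, ⟨⟨c, hc⟩, -⟩, ⟨x', hx'⟩, -⟩ := hX1 a ha
      obtain ⟨-, ⟨⟨z', hz'⟩, -⟩, ⟨d, hd⟩, -⟩ := hZ1 a ha
      have e1 : X a * x' * a = a := by
        calc X a * x' * a = X a * x' * (X a * c) := by rw [hc]
          _ = X a * (x' * X a) * c := by simp only [mul_assoc]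
          _ = a := by rw [hx', hXe a ha, hc]
      have e2 : a * z' * Z a = a := by
        calc a * z' * Z a = d * Z a * z' * Z a := by rw [hd]
          _ = d * ((Z a * z') * Z a) := by simp only [mul_assoc]
          _ = a := by rw [hz', hZe a ha, hd]
      have e3 : X a * (e * (x' * a * z') * e) * Z a = a := by
        calc X a * (e * (x' * a * z') * e) * Z a = (X a * e) * x' * a * z' * (e * Z a) := by
              simp only [mul_assoc]
          _ = (X a * x' * a) * z' * Z a := by rw [hXe a ha, hZe a ha]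
          _ = a := by rw [e1, e2]
      refine ⟨⟨e * (x' * a * z') * e, ?_, ?_, ?_⟩, fun _ => e3⟩
      · intro h0
        rw [h0, (h.1 _).2, (h.1 _).1] at e3
        exact ha e3.symm
      · rw [← mul_assoc, ← mul_assoc, he]
      · rw [mul_assoc, he]
    · exact ⟨⟨e, hez, he, he⟩, fun h1 => absurd h1 ha⟩
  have huniq : ∀ a b, a ≠ z → b ≠ z → ∀ g g' : {x : C // x ≠ z ∧ e * x = x ∧ x * e = x},
      X a * g.1 * Z b = X a * g'.1 * Z b → g = g' := by
    intro a b ha hb g g' hgg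
    obtain ⟨-, -, ⟨x', hx'⟩, -⟩ := hX1 a ha
    obtain ⟨-, ⟨⟨z', hz'⟩, -⟩, -⟩ := hZ1 b hb
    have key : ∀ g : {x : C // x ≠ z ∧ e * x = x ∧ x * e = x},
        x' * (X a * g.1 * Z b) * z' = g.1 := by
      intro g
      calc x' * (X a * g.1 * Z b) * z' = (x' * X a) * g.1 * (Z b * z') := by
            simp only [mul_assoc]
        _ = g.1 := by rw [hx', hz', g.2.2.1, g.2.2.2]
    apply Subtype.ext
    rw [← key g, ← key g', hgg]
  choose γ hγ using hex
  have hpi : ∀ a b, ∃ g : {x : C // x ≠ z ∧ e * x = x ∧ x * e = x}, a * b ≠ z →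
      g.1 = Z a * X b := by
    intro a b
    by_cases hab : a * b ≠ z
    · have ha : a ≠ z := h.mul_left_ne hab
      have hb : b ≠ z := h.mul_right_ne hab
      have h1 : Z a * b ≠ z := h.ne_of_ll (hZ1 a ha).2.2.symm hab
      have h2 : Z a * X b ≠ z := h.ne_of_rr (hX1 b hb).2.1.symm h1
      exact ⟨⟨Z a * X b, h2, by rw [← mul_assoc, hZe a ha], by rw [mul_assoc, hXe b hb]⟩,
        fun _ => rfl⟩
    · exact ⟨⟨e, hez, he, he⟩, fun h1 => absurd h1 hab⟩
  choose π hπ using hpi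
  refine ⟨γ, π, ?_, ?_, ?_, ?_⟩
  · intro a b hab
    have ha : a ≠ z := h.mul_left_ne hab
    have hb : b ≠ z := h.mul_right_ne hab
    apply huniq a b ha hb
    have h1 := hγ (a * b) hab
    rw [hX2 _ _ (h.rr_mul hab), hZ2 _ _ (h.ll_mul hab)] at h1
    rw [h1, hmul, hmul, hπ a b hab]
    calc a * b = (X a * (γ a).1 * Z a) * (X b * (γ b).1 * Z b) := by rw [hγ a ha, hγ b hb]
      _ = _ := by simp only [mul_assoc]
  · intro a b c hca hab
    have h1 : c * a * b ≠ z := h.cat hca hab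
    apply Subtype.ext
    rw [hπ _ _ h1, hπ _ _ hab, hZ2 _ _ (h.ll_mul hca)]
  · intro a b d hab hbd
    have h1 : a * (b * d) ≠ z := by rw [← mul_assoc]; exact h.cat hab hbd
    apply Subtype.ext
    rw [hπ _ _ h1, hπ _ _ hab, hX2 _ _ (h.rr_mul hbd)]
  · intro a b ha hb hR hL hg
    rw [← hγ a ha, ← hγ b hb, hg, hX2 _ _ hR, hZ2 _ _ hL]

end J11713

alias rees_coord := J11713.rees_coord

end

end Pool.Agent.H502.Bk
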