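import Pool.Agent.H502.BkSk
set_option autoImplicit false

namespace Pool.Agent.H502.Bk

section
open Function W

namespace J11120

/-! ### TARGET of this job: rm_allSub -/

theorem rm_allSub_el_inj {G I L : Type} {P : L → I → Option G} {i j : I} {a b : G} {l m : L}
    (h : RM.el P i a l = RM.el P j b m) : i = j ∧ a = b ∧ l = m := by
  have h1 : (i, a, l) = (j, b, m) := Option.some.inj h
  simp only [Prod.mk.injEq] at h1
  exact h1

theorem rm_allSub_el_ne {G I L : Type} {P : L → I → Option G} {i : I} {a : G} {l : L} :
    RM.el P i a l ≠ RM.zero P := fun h => Option.some_ne_none _ h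

theorem rm_allSub (V : PV) {G I L : Type} [Group G] (hG : V.mem G) (P : L → I → Option G) :
    AllSub V (RM G I L P) := by
  intro H _ g hg
  rcases RM.cases' (g 1) with h0 | ⟨i, x, l, h0⟩
  · have hz : ∀ h, g h = RM.zero P := by
      intro h
      have h1 : g h = g 1 * g h := by rw [← map_mul, one_mul]
      rw [h1, h0, RM.zero_mul']
    have hinj : Injective (1 : H →* Unit) := by
      intro a b _
      apply hg
      rw [hz a, hz b]
    exact V.sub H Unit 1 hinj V.unit
  · have hne : ∀ h, g h ≠ RM.zero P := by
      intro h hh
      have h1 : g 1 = g h * g h⁻¹ := by rw [← map_mul, mul_inv_cancel]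
      rw [hh, RM.zero_mul', h0] at h1
      exact rm_allSub_el_ne h1
    have hform : ∀ h, ∃ a, g h = RM.el P i a l := by
      intro h
      rcases RM.cases' (g h) with h1 | ⟨j, a, m, h1⟩
      · exact absurd h1 (hne h)
      · have e1 : g h = g 1 * g h := by rw [← map_mul, one_mul]
        have e2 : g h = g h * g 1 := by rw [← map_mul, mul_one]
        rw [h0, h1] at e1 e2
        have hj : j = i := by
          cases hp : P l j with
          | none =>
            rw [RM.el_mul_el_none hp] at e1
            exact absurd e1 rm_allSub_el_ne
          | some p =>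
            rw [RM.el_mul_el hp] at e1
            exact (rm_allSub_el_inj e1).1
        have hm : m = l := by
          cases hp : P m i with
          | none =>
            rw [RM.el_mul_el_none hp] at e2
            exact absurd e2 rm_allSub_el_ne
          | some p =>
            rw [RM.el_mul_el hp] at e2
            exact (rm_allSub_el_inj e2).2.2
        exact ⟨a, by rw [h1, hj, hm]⟩
    choose a ha using hform
    obtain ⟨p, hp⟩ : ∃ p, P l i = some p := by
      cases hp : P l i with
      | none =>
        have e1 : g 1 = g 1 * g 1 := by rw [← map_mul, one_mul]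
        rw [ha 1, RM.el_mul_el_none hp] at e1
        exact absurd e1 rm_allSub_el_ne
      | some p => exact ⟨p, rfl⟩
    have hmul : ∀ h h', a (h * h') = a h * p * a h' := by
      intro h h'
      have e1 : g (h * h') = g h * g h' := map_mul g h h'
      rw [ha, ha, ha, RM.el_mul_el hp] at e1
      exact (rm_allSub_el_inj e1).2.1
    have hhom : ∀ h h', a (h * h') * p = (a h * p) * (a h' * p) := by
      intro h h'
      rw [hmul, mul_assoc (a h * p)]
    refine V.sub H G (MonoidHom.mk' (fun h => a h * p) hhom) ?_ hG
    intro h h' hh
    have h1 : a h * p = a h' * p := hh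
    have h2 : a h = a h' := mul_right_cancel h1
    apply hg
    rw [ha, ha, h2]

end J11120

alias rm_allSub := J11120.rm_allSub

end

end Pool.Agent.H502.Bk
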