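import Pool.Agent.H502.BkSk
import Pool.Agent.H502.BkJ_rees_coord
import Pool.Agent.H502.BkJ_rm_allSub
set_option autoImplicit false

namespace Pool.Agent.H502.Bk

section
open Function

namespace J11714


theorem asz_row_inv {S : Type} [Semigroup S] {Z : S → Prop} (hZ : ZCat Z) {G : Type} [Group G]
    {g : S → G} {p : S → S → G} (hs : SZsol Z g p) {t t' : S} (h : RowE Z t t') :
    ∀ s, (Z (s * t) ↔ Z (s * t')) ∧ (¬ Z (s * t) → p s t = p s t') := by
  induction h with
  | rel t t' h =>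
    obtain ⟨v, rfl, hv⟩ := h
    intro s
    refine ⟨⟨fun h1 => ?_, fun h1 => ?_⟩, fun h1 => (hs.2.2.1 s t v h1 hv).symm⟩
    · rw [← mul_assoc]
      exact (hZ.1 _ v h1).1
    · by_contra h2
      exact hZ.2.2 s t v h2 hv (by rw [mul_assoc]; exact h1)
  | refl t => exact fun s => ⟨Iff.rfl, fun _ => rfl⟩
  | symm t t' _ ih =>
    intro s
    exact ⟨(ih s).1.symm, fun h => ((ih s).2 (fun h' => h ((ih s).1.1 h'))).symm⟩
  | trans t t' t'' _ _ ih1 ih2 =>
    intro s
    exact ⟨(ih1 s).1.trans (ih2 s).1, fun h => ((ih1 s).2 h).trans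
      ((ih2 s).2 (fun h' => h ((ih1 s).1.2 h')))⟩

theorem asz_col_inv {S : Type} [Semigroup S] {Z : S → Prop} (hZ : ZCat Z) {G : Type} [Group G]
    {g : S → G} {p : S → S → G} (hs : SZsol Z g p) {s s' : S} (h : ColE Z s s') :
    ∀ t, (Z (s * t) ↔ Z (s' * t)) ∧ (¬ Z (s * t) → p s t = p s' t) := by
  induction h with
  | rel s s' h =>
    obtain ⟨u, rfl, hu⟩ := h
    intro t
    refine ⟨⟨fun h1 => ?_, fun h1 => ?_⟩, fun h1 => (hs.2.1 u s t hu h1).symm⟩
    · rw [mul_assoc]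
      exact (hZ.1 _ u h1).2
    · by_contra h2
      exact hZ.2.2 u s t hu h2 h1
  | refl t => exact fun s => ⟨Iff.rfl, fun _ => rfl⟩
  | symm t t' _ ih =>
    intro s
    exact ⟨(ih s).1.symm, fun h => ((ih s).2 (fun h' => h ((ih s).1.1 h'))).symm⟩
  | trans t t' t'' _ _ ih1 ih2 =>
    intro s
    exact ⟨(ih1 s).1.trans (ih2 s).1, fun h => ((ih1 s).2 h).trans
      ((ih2 s).2 (fun h' => h ((ih1 s).1.2 h')))⟩

theorem asz_row_rr {S C : Type} [Semigroup S] [Semigroup C] [Finite C] {z : C} (h : ZS z)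
    (j : S →ₙ* C) {s t : S} (hst : RowE (fun s => j s = z) s t) :
    s = t ∨ RR (j s) (j t) := by
  induction hst with
  | rel s t h' =>
    obtain ⟨v, rfl, hv⟩ := h'
    right
    have h1 : j s * j v ≠ z := by rw [← map_mul]; exact hv
    rw [map_mul]
    exact (h.rr_mul h1).symm
  | refl t => exact Or.inl rfl
  | symm t t' _ ih => exact ih.elim (fun h => Or.inl h.symm) (fun h => Or.inr h.symm)
  | trans t t' t'' _ _ ih1 ih2 =>
    rcases ih1 with rfl | h1
    · exact ih2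
    · rcases ih2 with rfl | h2
      · exact Or.inr h1
      · exact Or.inr (h1.trans h2)

theorem asz_col_ll {S C : Type} [Semigroup S] [Semigroup C] [Finite C] {z : C} (h : ZS z)
    (j : S →ₙ* C) {s t : S} (hst : ColE (fun s => j s = z) s t) :
    s = t ∨ LL (j s) (j t) := by
  induction hst with
  | rel s t h' =>
    obtain ⟨v, rfl, hv⟩ := h'
    right
    have h1 : j v * j s ≠ z := by rw [← map_mul]; exact hv
    rw [map_mul]
    exact (h.ll_mul h1).symm
  | refl t => exact Or.inl rfl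
  | symm t t' _ ih => exact ih.elim (fun h => Or.inl h.symm) (fun h => Or.inr h.symm)
  | trans t t' t'' _ _ ih1 ih2 =>
    rcases ih1 with rfl | h1
    · exact ih2
    · rcases ih2 with rfl | h2
      · exact Or.inr h1
      · exact Or.inr (h1.trans h2)

theorem asz_forward (V : PV) {S C : Type} [Semigroup S] [Semigroup C] [Finite C] {z : C}
    (h : ZS z) (hC : AllSub V C) (j : S →ₙ* C) (hj : Injective j) :
    ∃ Z : S → Prop, ZCat Z ∧
    ∃ (G : Type) (_ : Group G), V.mem G ∧ ∃ (g : S → G) (p : S → S → G), SZsol Z g p := by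
  obtain ⟨G, iG, hG, γ, π, ha, hb, hc, hd⟩ := rees_coord V h hC
  refine ⟨fun s => j s = z, ⟨?_, ?_, ?_⟩, G, iG, hG, fun s => γ (j s), fun s t => π (j s) (j t),
    ?_, ?_, ?_, ?_⟩
  · intro s t (hs : j s = z)
    refine ⟨?_, ?_⟩
    · show j (s * t) = z
      rw [map_mul, hs]; exact (h.1 _).1
    · show j (t * s) = z
      rw [map_mul, hs]; exact (h.1 _).2
  · intro s t (hs : j s = z) (ht : j t = z)
    exact hj (hs.trans ht.symm)
  · intro u s t (h1 : ¬ j (u * s) = z) (h2 : ¬ j (s * t) = z)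
    show ¬ j (u * s * t) = z
    rw [map_mul] at h1 h2
    rw [map_mul, map_mul]
    exact h.cat h1 h2
  · intro s t (h1 : ¬ j (s * t) = z)
    show γ (j s) * π (j s) (j t) * γ (j t) = γ (j (s * t))
    rw [map_mul] at h1 ⊢
    exact (ha _ _ h1).symm
  · intro u s t (h1 : ¬ j (u * s) = z) (h2 : ¬ j (s * t) = z)
    show π (j (u * s)) (j t) = π (j s) (j t)
    rw [map_mul] at h1 h2 ⊢
    exact hb _ _ _ h1 h2
  · intro s t v (h1 : ¬ j (s * t) = z) (h2 : ¬ j (t * v) = z)
    show π (j s) (j (t * v)) = π (j s) (j t)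
    rw [map_mul] at h1 h2 ⊢
    exact hc _ _ _ h1 h2
  · intro s t hst (h1 : ¬ j s = z) (h2 : ¬ j t = z) hr hcol he
    have h3 : RR (j s) (j t) := (asz_row_rr h j hr).resolve_left hst
    have h4 : LL (j s) (j t) := (asz_col_ll h j hcol).resolve_left hst
    exact hst (hj (hd _ _ h1 h2 h3 h4 he))

open Classical in
/-- the sandwich matrix -/
noncomputable def asz_P {S G : Type} [Semigroup S] [Group G] (Z : S → Prop) (p : S → S → G) :
    S ⊕ S → S ⊕ S → Option G
  | Sum.inl a, Sum.inl b => if Z (a * b) then none else some (p a b)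
  | Sum.inl a, Sum.inr b => if a = b then some 1 else none
  | Sum.inr a, Sum.inl b => if a = b then some 1 else none
  | Sum.inr _, Sum.inr _ => none

theorem asz_zs {S G : Type} [Semigroup S] [Group G] [Nonempty S] (Z : S → Prop) (p : S → S → G) :
    ZS (RM.zero (asz_P Z p) : RM G (S ⊕ S) (S ⊕ S) (asz_P Z p)) := by
  apply RM.zs
  · rintro (b | b)
    · exact ⟨Sum.inr b, 1, by simp [asz_P]⟩
    · exact ⟨Sum.inl b, 1, by simp [asz_P]⟩
  · rintro (b | b)
    · exact ⟨Sum.inr b, 1, by simp [asz_P]⟩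
    · exact ⟨Sum.inl b, 1, by simp [asz_P]⟩

theorem asz_backward {S : Type} [Semigroup S] {Z : S → Prop} (hZ : ZCat Z) {G : Type} [Group G]
    {g : S → G} {p : S → S → G} (hs : SZsol Z g p) :
    ∃ f : S →ₙ* RM G (S ⊕ S) (S ⊕ S) (asz_P Z p), Injective f := by
  classical
  obtain ⟨r, hr1, hr2⟩ : ∃ r : S → S, (∀ s, RowE Z (r s) s) ∧ ∀ s t, RowE Z s t → r s = r t := by
    refine ⟨fun s => (Quotient.mk (Relation.EqvGen.setoid fun s t => ∃ v, t = s * v ∧ ¬ Z t) s).out,
      fun s => ?_, fun s t hst => ?_⟩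
    · exact Quotient.exact (Quotient.out_eq
        (Quotient.mk (Relation.EqvGen.setoid fun s t => ∃ v, t = s * v ∧ ¬ Z t) s))
    · have : Quotient.mk (Relation.EqvGen.setoid fun s t => ∃ v, t = s * v ∧ ¬ Z t) s =
        Quotient.mk (Relation.EqvGen.setoid fun s t => ∃ v, t = s * v ∧ ¬ Z t) t :=
        Quotient.sound hst
      simp only [this]
  obtain ⟨c, hc1, hc2⟩ : ∃ c : S → S, (∀ s, ColE Z (c s) s) ∧ ∀ s t, ColE Z s t → c s = c t := by
    refine ⟨fun s => (Quotient.mk (Relation.EqvGen.setoid fun s t => ∃ u, t = u * s ∧ ¬ Z t) s).out,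
      fun s => ?_, fun s t hst => ?_⟩
    · exact Quotient.exact (Quotient.out_eq
        (Quotient.mk (Relation.EqvGen.setoid fun s t => ∃ u, t = u * s ∧ ¬ Z t) s))
    · have : Quotient.mk (Relation.EqvGen.setoid fun s t => ∃ u, t = u * s ∧ ¬ Z t) s =
        Quotient.mk (Relation.EqvGen.setoid fun s t => ∃ u, t = u * s ∧ ¬ Z t) t :=
        Quotient.sound hst
      simp only [this]
  have hr3 : ∀ s t, r s = r t → RowE Z s t := by
    intro s t h
    have h1 := hr1 s
    rw [h] at h1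
    exact Relation.EqvGen.trans _ _ _ (Relation.EqvGen.symm _ _ h1) (hr1 t)
  have hc3 : ∀ s t, c s = c t → ColE Z s t := by
    intro s t h
    have h1 := hc1 s
    rw [h] at h1
    exact Relation.EqvGen.trans _ _ _ (Relation.EqvGen.symm _ _ h1) (hc1 t)
  have hinv : ∀ s t, (Z (c s * r t) ↔ Z (s * t)) ∧ (¬ Z (s * t) → p (c s) (r t) = p s t) := by
    intro s t
    have h1 := asz_col_inv hZ hs (hc1 s) (r t)
    have h2 := asz_row_inv hZ hs (hr1 t) s
    refine ⟨h1.1.trans h2.1, fun h => ?_⟩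
    have h3 : ¬ Z (s * r t) := fun h' => h (h2.1.1 h')
    have h4 : ¬ Z (c s * r t) := fun h' => h3 (h1.1.1 h')
    exact (h1.2 h4).trans (h2.2 h3)
  let f : S → RM G (S ⊕ S) (S ⊕ S) (asz_P Z p) := fun s =>
    if Z s then RM.zero _ else RM.el _ (Sum.inl (r s)) (g s) (Sum.inl (c s))
  have hf0 : ∀ s, Z s → f s = RM.zero _ := fun s h => if_pos h
  have hf1 : ∀ s, ¬ Z s → f s = RM.el _ (Sum.inl (r s)) (g s) (Sum.inl (c s)) :=
    fun s h => if_neg h
  refine ⟨⟨f, ?_⟩, ?_⟩
  · intro s t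
    by_cases hst : Z (s * t)
    · rw [hf0 _ hst]
      by_cases h1 : Z s
      · rw [hf0 _ h1, RM.zero_mul']
      by_cases h2 : Z t
      · rw [hf0 _ h2, RM.mul_zero']
      rw [hf1 _ h1, hf1 _ h2, RM.el_mul_el_none]
      show (if Z (c s * r t) then none else some (p (c s) (r t))) = none
      rw [if_pos ((hinv s t).1.2 hst)]
    · have h1 : ¬ Z s := fun h => hst (hZ.1 s t h).1
      have h2 : ¬ Z t := fun h => hst (hZ.1 t s h).2
      have hP : asz_P Z p (Sum.inl (c s)) (Sum.inl (r t)) = some (p s t) := by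
        show (if Z (c s * r t) then none else some (p (c s) (r t))) = _
        rw [if_neg (fun h => hst ((hinv s t).1.1 h)), (hinv s t).2 hst]
      rw [hf1 _ hst, hf1 _ h1, hf1 _ h2, RM.el_mul_el hP, hs.1 s t hst,
        hr2 s (s * t) (Relation.EqvGen.rel _ _ ⟨t, rfl, hst⟩),
        hc2 t (s * t) (Relation.EqvGen.rel _ _ ⟨s, rfl, hst⟩)]
  · intro s t (hst : f s = f t)
    by_cases h1 : Z s
    · by_cases h2 : Z t
      · exact hZ.2.1 s t h1 h2
      · rw [hf0 _ h1, hf1 _ h2] at hst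
        exact (Option.some_ne_none _ hst.symm).elim
    · by_cases h2 : Z t
      · rw [hf1 _ h1, hf0 _ h2] at hst
        exact (Option.some_ne_none _ hst).elim
      · rw [hf1 _ h1, hf1 _ h2] at hst
        have h3 := Option.some.inj hst
        have e1 : r s = r t := Sum.inl.inj (congrArg Prod.fst h3)
        have e2 : g s = g t := congrArg (fun x => x.2.1) h3
        have e3 : c s = c t := Sum.inl.inj (congrArg (fun x => x.2.2) h3)
        by_contra hne
        exact hs.2.2.2 s t hne h1 h2 (hr3 s t e1) (hc3 s t e3) e2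

/-! ### TARGET of this job: alg_SZ -/

theorem alg_SZ (V : PV) (B : FinSg) : B ∈ opS (ZSO V) ↔ ∃ Z : B → Prop, ZCat Z ∧
    ∃ (G : Type) (_ : Group G), V.mem G ∧ ∃ (g : B → G) (p : B → B → G), SZsol Z g p := by
  constructor
  · rintro ⟨A, ⟨hA1, hA2⟩, j, hj⟩
    obtain ⟨z, hz⟩ := zs_of_zeroSimple hA1
    exact asz_forward V hz hA2 j hj
  · rintro ⟨Z, hZ, G, iG, hG, g, p, hs⟩
    have : Finite G := V.fin G hG
    obtain ⟨f, hf⟩ := asz_backward hZ hs
    exact ⟨⟨RM G (B ⊕ B) (B ⊕ B) (asz_P Z p), inferInstance, inferInstance, ⟨RM.zero _⟩⟩,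
      ⟨zeroSimple_of_zs (asz_zs Z p), rm_allSub V hG _⟩, f, hf⟩

end J11714

alias alg_SZ := J11714.alg_SZ

end

end Pool.Agent.H502.Bk
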