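import Pool.Agent.H502.BkSk
set_option autoImplicit false

namespace Pool.Agent.H502.Bk

section
open Function W

namespace J11597

/-! ### TARGET of this job: plus_head -/

theorem plus_head {S : Type} (E : Dig S) (c : S → W S) (K : ℕ) (w : W S) :
    head (plus E c K w) = head w := by
  induction w with
  | one s =>
    simp only [plus]
    split_ifs
    · rw [head_mul]
    · rfl
  | snoc w t ih =>
    simp only [plus]
    rw [head_mul, ih]
    rfl

end J11597

alias plus_head := J11597.plus_head

end

end Pool.Agent.H502.Bk
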