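import Pool.Agent.H502.BkSk
set_option autoImplicit false

namespace Pool.Agent.H502.Bk

section
open Function W

namespace J11598

/-! ### TARGET of this job: plus_last -/

theorem plus_last_npw {S : Type} (c : W S) (k : ℕ) : last (npw c k) = last c := by
  cases k with
  | zero => rfl
  | succ k => exact last_mul _ _

theorem plus_last {S : Type} (E : Dig S) (c : S → W S) (K : ℕ)
    (hc : ∀ s, conn E s s → last (c s) = s) (w : W S) :
    last (plus E c K w) = last w := by
  cases w with
  | one s =>
    simp only [plus]
    split_ifs with h
    · rw [last_mul, plus_last_npw, hc s h]
      rfl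
    · rfl
  | snoc w t =>
    simp only [plus]
    rw [last_mul]
    split_ifs with h
    · rw [last_mul, plus_last_npw, hc t h]
      rfl
    · rfl

end J11598

alias plus_last := J11598.plus_last

end

end Pool.Agent.H502.Bk
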