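import Pool.Agent.H502.BkSk
import Pool.Agent.H502.BkJ_plus_last
import Pool.Agent.H502.BkJ_plus_head
set_option autoImplicit false

namespace Pool.Agent.H502.Bk

section
open Function W

namespace J11602

/-! ### TARGET of this job: arcs_le_plus -/

theorem arcs_le_plus_mul_one {S : Type} (u v : W S) (x : S) :
    (arcs (u * v)).1 x ↔ (arcs u).1 x ∨ (arcs v).1 x := by
  induction v with
  | one t => exact Iff.rfl
  | snoc v t ih =>
    show (arcs (u * v)).1 x ∨ x = t ↔ (arcs u).1 x ∨ ((arcs v).1 x ∨ x = t)
    rw [ih, or_assoc]

theorem arcs_le_plus_mul_two {S : Type} (u v : W S) (x y : S) :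
    (arcs (u * v)).2 x y ↔ (arcs u).2 x y ∨ (arcs v).2 x y ∨ (x = last u ∧ y = head v) := by
  induction v with
  | one t =>
    show (arcs u).2 x y ∨ (x = last u ∧ y = t) ↔ (arcs u).2 x y ∨ False ∨ (x = last u ∧ y = t)
    tauto
  | snoc v t ih =>
    show (arcs (u * v)).2 x y ∨ (x = last (u * v) ∧ y = t) ↔
      (arcs u).2 x y ∨ ((arcs v).2 x y ∨ (x = last v ∧ y = t)) ∨ (x = last u ∧ y = head v)
    rw [ih, last_mul]
    tauto

theorem arcs_le_plus_head_mem {S : Type} (w : W S) : (arcs w).1 (head w) := by
  induction w with
  | one s => rfl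
  | snoc w t ih => exact Or.inl ih

theorem arcs_le_plus_last_mem {S : Type} (w : W S) : (arcs w).1 (last w) := by
  cases w with
  | one s => rfl
  | snoc w t => exact Or.inr rfl

open Classical in
theorem arcs_le_plus {S : Type} (E : Dig S) (c : S → W S) (K : ℕ)
    (hc : ∀ s, conn E s s → last (c s) = s) (w : W S) :
    arcs w ≤ arcs (plus E c K w) := by
  have hp : ∀ t, head (if conn E t t then one t * npw (c t) K else one t) = t := by
    intro t
    split_ifs with h
    · exact head_mul _ _
    · rfl
  induction w with
  | one s =>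
    refine ⟨fun x hx => ?_, fun x y hxy => hxy.elim⟩
    have hx' : x = s := hx
    have h1 := arcs_le_plus_head_mem (plus E c K (one s))
    rw [plus_head] at h1
    rw [hx']
    exact h1
  | snoc w t ih =>
    refine ⟨fun x hx => ?_, fun x y hxy => ?_⟩
    · show (arcs (plus E c K w * (if conn E t t then one t * npw (c t) K else one t))).1 x
      rw [arcs_le_plus_mul_one]
      rcases hx with hx | hx
      · exact Or.inl (ih.1 x hx)
      · right
        have h1 := arcs_le_plus_head_mem (if conn E t t then one t * npw (c t) K else one t)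
        rw [hp] at h1
        rw [hx]
        exact h1
    · show (arcs (plus E c K w * (if conn E t t then one t * npw (c t) K else one t))).2 x y
      rw [arcs_le_plus_mul_two]
      rcases hxy with hxy | ⟨hx, hy⟩
      · exact Or.inl (ih.2 x y hxy)
      · right; right
        rw [plus_last E c K hc, hp]
        exact ⟨hx, hy⟩

end J11602

alias arcs_le_plus := J11602.arcs_le_plus

end

end Pool.Agent.H502.Bk
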