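import Pool.Agent.H502.BkSk
set_option autoImplicit false

namespace Pool.Agent.H502.Bk

section
open Function

namespace J11153

/-! ### TARGET of this job: comp_hpB' -/

theorem comp_hpB'_powPrim : Primrec₂ (fun a b : ℕ => a ^ b) := by
  refine (Primrec.nat_rec (f := fun _ : ℕ => 1) (g := fun a (p : ℕ × ℕ) => p.2 * a)
    (Primrec.const 1) ?_).of_eq ?_
  · exact (Primrec.nat_mul.comp (Primrec.snd.comp Primrec.snd) Primrec.fst)
  · intro a n
    induction n with
    | zero => rfl
    | succ n ih => rw [pow_succ, ← ih]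

theorem comp_hpB'_pow {f g : ℕ → ℕ} (hf : Primrec f) (hg : Primrec g) :
    Primrec fun n => f n ^ g n := comp_hpB'_powPrim.comp hf hg

theorem comp_hpB'_mul {f g : ℕ → ℕ} (hf : Primrec f) (hg : Primrec g) :
    Primrec fun n => f n * g n := Primrec.nat_mul.comp hf hg

theorem comp_hpB'_add {f g : ℕ → ℕ} (hf : Primrec f) (hg : Primrec g) :
    Primrec fun n => f n + g n := Primrec.nat_add.comp hf hg

theorem comp_hpB'_hpB : Primrec hpB := by
  have h1 : Primrec (fun n : ℕ => 2 * (n + 1)) :=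
    comp_hpB'_mul (Primrec.const 2) (comp_hpB'_add Primrec.id (Primrec.const 1))
  have h2 : Primrec (fun n : ℕ => (2 * (n + 1)) * ((2 * (n + 1)) * n) + 1) :=
    comp_hpB'_add (comp_hpB'_mul h1 (comp_hpB'_mul h1 Primrec.id)) (Primrec.const 1)
  exact h2.of_eq fun n => by unfold hpB; rfl

theorem comp_hpB'_numK : Primrec (fun n => numK n (hpB n)) := by
  have hB := comp_hpB'_hpB
  have hB1 : Primrec (fun n : ℕ => hpB n + 1) := comp_hpB'_add hB (Primrec.const 1)
  have h2 : Primrec (fun n : ℕ => 2 ^ (hpB n + 1) *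
      (2 ^ ((hpB n + 1) * ((hpB n + 1) * (hpB n + 1))) * (hpB n + 1) ^ n)) :=
    comp_hpB'_mul (comp_hpB'_pow (Primrec.const 2) hB1)
      (comp_hpB'_mul (comp_hpB'_pow (Primrec.const 2) (comp_hpB'_mul hB1 (comp_hpB'_mul hB1 hB1)))
        (comp_hpB'_pow hB1 Primrec.id))
  exact h2.of_eq fun n => by unfold numK; rfl

theorem comp_hpB' : Computable hpB' := by
  have h : Primrec (fun n => (hpB n) ^ (numK n (hpB n))) :=
    comp_hpB'_pow comp_hpB'_hpB comp_hpB'_numK
  exact (h.of_eq fun n => by unfold hpB'; rfl).to_comp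

end J11153

alias comp_hpB' := J11153.comp_hpB'

end

end Pool.Agent.H502.Bk
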