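import Pool.Agent.H502.BkSk
set_option autoImplicit false

namespace Pool.Agent.H502.Bk

section
open Function

namespace J11150

theorem comp_hpsB_powPrim : Primrec₂ (fun a b : ℕ => a ^ b) := by
  refine (Primrec.nat_rec (f := fun _ : ℕ => 1) (g := fun a (p : ℕ × ℕ) => p.2 * a)
    (Primrec.const 1) ?_).of_eq ?_
  · exact (Primrec.nat_mul.comp (Primrec.snd.comp Primrec.snd) Primrec.fst)
  · intro a n
    induction n with
    | zero => rfl
    | succ n ih => rw [pow_succ, ← ih]

theorem comp_hpsB_pow {f g : ℕ → ℕ} (hf : Primrec f) (hg : Primrec g) :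
    Primrec fun n => f n ^ g n := comp_hpsB_powPrim.comp hf hg

theorem comp_hpsB_mul {f g : ℕ → ℕ} (hf : Primrec f) (hg : Primrec g) :
    Primrec fun n => f n * g n := Primrec.nat_mul.comp hf hg

theorem comp_hpsB_add {f g : ℕ → ℕ} (hf : Primrec f) (hg : Primrec g) :
    Primrec fun n => f n + g n := Primrec.nat_add.comp hf hg

/-! ### TARGET of this job: comp_hpsB -/

theorem comp_hpsB (m : ℕ) : Computable (hpsB m) := by
  have hid : Primrec (fun n : ℕ => n) := Primrec.id
  have h2 : Primrec (fun _ : ℕ => 2) := Primrec.const 2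
  have h1 : Primrec (fun _ : ℕ => 1) := Primrec.const 1
  have hm : Primrec (fun _ : ℕ => m) := Primrec.const m
  have hE : Primrec (fun n : ℕ => 2 ^ n * 2 ^ (n * n)) :=
    comp_hpsB_mul (comp_hpsB_pow h2 hid) (comp_hpsB_pow h2 (comp_hpsB_mul hid hid))
  have hq : Primrec (fun n : ℕ => qB n) :=
    comp_hpsB_add hid (comp_hpsB_mul (comp_hpsB_pow hid (comp_hpsB_pow hid hE)) hid)
  have hg : Primrec (fun n : ℕ => gB m n (qB n)) :=
    comp_hpsB_mul (comp_hpsB_pow hm (comp_hpsB_mul hid hid))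
      (comp_hpsB_pow (comp_hpsB_pow hq hq) hid)
  have hM : Primrec (fun n : ℕ => mB m n (qB n)) :=
    comp_hpsB_add (comp_hpsB_mul (comp_hpsB_add hid hid)
      (comp_hpsB_mul hg (comp_hpsB_add hid hid))) h1
  exact (comp_hpsB_pow hM hE).to_comp

end J11150

alias comp_hpsB := J11150.comp_hpsB

end

end Pool.Agent.H502.Bk
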