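import Pool.Agent.H502.BkSk
set_option autoImplicit false

namespace Pool.Agent.H502.Bk

section
open Function

namespace J11149

/-! ### TARGET of this job: comp_hsB -/

theorem h1_powPrim : Primrec₂ (fun a b : ℕ => a ^ b) := by
  refine (Primrec.nat_rec (f := fun _ : ℕ => 1) (g := fun a (p : ℕ × ℕ) => p.2 * a)
    (Primrec.const 1) ?_).of_eq ?_
  · exact (Primrec.nat_mul.comp (Primrec.snd.comp Primrec.snd) Primrec.fst)
  · intro a n
    induction n with
    | zero => rfl
    | succ n ih => rw [pow_succ, ← ih]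

theorem h1_prim_pow {f g : ℕ → ℕ} (hf : Primrec f) (hg : Primrec g) :
    Primrec fun n => f n ^ g n := h1_powPrim.comp hf hg

theorem h1_prim_mul {f g : ℕ → ℕ} (hf : Primrec f) (hg : Primrec g) :
    Primrec fun n => f n * g n := Primrec.nat_mul.comp hf hg

theorem h1_prim_add {f g : ℕ → ℕ} (hf : Primrec f) (hg : Primrec g) :
    Primrec fun n => f n + g n := Primrec.nat_add.comp hf hg

theorem comp_hsB (m : ℕ) : Computable (hsB m) := by
  have hid : Primrec (fun n : ℕ => n) := Primrec.id
  have hc : ∀ k : ℕ, Primrec (fun _ : ℕ => k) := fun k => Primrec.const k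
  have hnn : Primrec (fun n : ℕ => n * n) := h1_prim_mul hid hid
  have hn2 : Primrec (fun n : ℕ => n + n) := h1_prim_add hid hid
  have h : Primrec (hsB m) := by
    unfold hsB mB gB
    exact h1_prim_add (h1_prim_mul hn2 (h1_prim_mul (h1_prim_mul (h1_prim_pow (hc m) hnn)
      (h1_prim_pow (h1_prim_pow hnn hnn) hid)) hn2)) (hc 1)
  exact h.to_comp

end J11149

alias comp_hsB := J11149.comp_hsB

end

end Pool.Agent.H502.Bk
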