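import Pool.Agent.H502.BkSk
set_option autoImplicit false

namespace Pool.Agent.H502.Bk

section
open Function

namespace J11152

/-! ### TARGET of this job: comp_hspB -/

theorem hspB_powPrim : Primrec₂ (fun a b : ℕ => a ^ b) := by
  refine (Primrec.nat_rec (f := fun _ : ℕ => 1) (g := fun a (p : ℕ × ℕ) => p.2 * a)
    (Primrec.const 1) ?_).of_eq ?_
  · exact (Primrec.nat_mul.comp (Primrec.snd.comp Primrec.snd) Primrec.fst)
  · intro a n
    induction n with
    | zero => rfl
    | succ n ih => rw [pow_succ, ← ih]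

theorem hspB_prim_pow {f g : ℕ → ℕ} (hf : Primrec f) (hg : Primrec g) :
    Primrec fun n => f n ^ g n := hspB_powPrim.comp hf hg

theorem hspB_prim_mul {f g : ℕ → ℕ} (hf : Primrec f) (hg : Primrec g) :
    Primrec fun n => f n * g n := Primrec.nat_mul.comp hf hg

theorem hspB_prim_add {f g : ℕ → ℕ} (hf : Primrec f) (hg : Primrec g) :
    Primrec fun n => f n + g n := Primrec.nat_add.comp hf hg

theorem hspB_prim_gB (m : ℕ) {q : ℕ → ℕ} (hq : Primrec q) : Primrec fun n => gB m n (q n) := by
  unfold gB
  exact hspB_prim_mul (hspB_prim_pow (Primrec.const m) (hspB_prim_mul Primrec.id Primrec.id))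
    (hspB_prim_pow (hspB_prim_pow hq hq) Primrec.id)

theorem hspB_prim_mB (m : ℕ) {q : ℕ → ℕ} (hq : Primrec q) : Primrec fun n => mB m n (q n) := by
  unfold mB
  exact hspB_prim_add (hspB_prim_mul (hspB_prim_add Primrec.id Primrec.id)
    (hspB_prim_mul (hspB_prim_gB m hq) (hspB_prim_add Primrec.id Primrec.id))) (Primrec.const 1)

theorem comp_hspB (m : ℕ) : Computable (hspB m) := by
  have h : Primrec (hspB m) := by
    have h1 : Primrec fun n => (mB m n (n * (n + 2))) ^ (2 ^ n * 2 ^ (n * n)) :=
      hspB_prim_pow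
        (hspB_prim_mB m (hspB_prim_mul Primrec.id (hspB_prim_add Primrec.id (Primrec.const 2))))
        (hspB_prim_mul (hspB_prim_pow (Primrec.const 2) Primrec.id)
          (hspB_prim_pow (Primrec.const 2) (hspB_prim_mul Primrec.id Primrec.id)))
    exact h1
  exact h.to_comp

end J11152

alias comp_hspB := J11152.comp_hspB

end

end Pool.Agent.H502.Bk
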