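import Pool.Agent.H502.BkSk
set_option autoImplicit false

namespace Pool.Agent.H502.Bk

section
open Function

namespace J11151

/-! ### TARGET of this job: comp_shpsB -/

theorem comp_shpsB_powPrim : Primrec₂ (fun a b : ℕ => a ^ b) := by
  refine (Primrec.nat_rec (f := fun _ : ℕ => 1) (g := fun a (p : ℕ × ℕ) => p.2 * a)
    (Primrec.const 1) ?_).of_eq ?_
  · exact (Primrec.nat_mul.comp (Primrec.snd.comp Primrec.snd) Primrec.fst)
  · intro a n
    induction n with
    | zero => rfl
    | succ n ih => rw [pow_succ, ← ih]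

theorem comp_shpsB_pow {f g : ℕ → ℕ} (hf : Primrec f) (hg : Primrec g) :
    Primrec fun n => f n ^ g n := comp_shpsB_powPrim.comp hf hg

theorem comp_shpsB_mul {f g : ℕ → ℕ} (hf : Primrec f) (hg : Primrec g) :
    Primrec fun n => f n * g n := Primrec.nat_mul.comp hf hg

theorem comp_shpsB_add {f g : ℕ → ℕ} (hf : Primrec f) (hg : Primrec g) :
    Primrec fun n => f n + g n := Primrec.nat_add.comp hf hg

theorem comp_shpsB_gB (m : ℕ) {f : ℕ → ℕ} (hf : Primrec f) : Primrec fun n => gB m n (f n) := by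
  unfold gB
  have hid : Primrec (fun n : ℕ => n) := Primrec.id
  exact comp_shpsB_mul (comp_shpsB_pow (Primrec.const m) (comp_shpsB_mul hid hid))
    (comp_shpsB_pow (comp_shpsB_pow hf hf) hid)

theorem comp_shpsB_mB (m : ℕ) {f : ℕ → ℕ} (hf : Primrec f) : Primrec fun n => mB m n (f n) := by
  unfold mB
  have hid : Primrec (fun n : ℕ => n) := Primrec.id
  exact comp_shpsB_add (comp_shpsB_mul (comp_shpsB_add hid hid)
    (comp_shpsB_mul (comp_shpsB_gB m hf) (comp_shpsB_add hid hid))) (Primrec.const 1)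

theorem comp_shpsB (m : ℕ) : Computable (shpsB m) := by
  have hid : Primrec (fun n : ℕ => n) := Primrec.id
  have h1 : Primrec fun n : ℕ => n * (n + n * n) :=
    comp_shpsB_mul hid (comp_shpsB_add hid (comp_shpsB_mul hid hid))
  have h2 : Primrec fun n : ℕ => 2 ^ n * 2 ^ (n * n) :=
    comp_shpsB_mul (comp_shpsB_pow (Primrec.const 2) hid)
      (comp_shpsB_pow (Primrec.const 2) (comp_shpsB_mul hid hid))
  have h3 : Primrec (shpsB m) := comp_shpsB_pow (comp_shpsB_mB m h1) h2
  exact h3.to_comp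

end J11151

alias comp_shpsB := J11151.comp_shpsB

end

end Pool.Agent.H502.Bk
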