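import Pool.Agent.H502.BkSk
set_option autoImplicit false

namespace Pool.Agent.H502.Bk

section
open Function

namespace J11154

/-! ### TARGET of this job: comp_spB -/

theorem comp_spB_pow : Primrec₂ (fun a b : ℕ => a ^ b) :=
  Primrec₂.unpaired.1 (Primrec.nat_iff.2 Nat.Primrec.pow)

theorem comp_spB : Computable (fun n : ℕ => n ^ (n * n)) := by
  have h : Primrec (fun n : ℕ => n ^ (n * n)) :=
    comp_spB_pow.comp Primrec.id (Primrec.nat_mul.comp Primrec.id Primrec.id)
  exact h.to_comp


end J11154

alias comp_spB := J11154.comp_spB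

end

end Pool.Agent.H502.Bk
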