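import Pool.Agent.H502.BkSk
set_option autoImplicit false

namespace Pool.Agent.H502.Bk

section
open Function W

namespace J11584

/-! ### TARGET of this job: cover_exists -/

theorem cover_exists {S : Type} [Finite S] (E : Dig S) (s : S) (h : conn E s s) :
    ∃ c : W S, Loop E s c ∧ (∀ x, conn E s x → conn E x s → (arcs c).1 x) ∧
      ∀ x y, arc E x y → conn E s x → conn E y s → (arcs c).2 x y := by
  classical
  have hl : ∀ u v : W S, arcs u ≤ arcs (u * v) ∧ arcs v ≤ arcs (u * v) := by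
    intro u v
    have h0 := (path_mul u v).1 ((arcs_le_iff (D := arcs (u * v)) (u * v)).1 le_rfl)
    exact ⟨(arcs_le_iff u).2 h0.1, (arcs_le_iff v).2 h0.2.2⟩
  have hmul : ∀ c c' : W S, Loop E s c → Loop E s c' → Loop E s (c * c') := by
    intro c c' h h'
    refine ⟨(path_mul _ _).2 ⟨h.1, ?_, h'.1⟩, ?_, ?_⟩
    · rw [h.2.2]; exact h'.2.1
    · rw [head_mul]; exact h.2.1
    · rw [last_mul]; exact h'.2.2
  obtain ⟨c0, hc0, hc0', hc0''⟩ := h
  have hL0 : Loop E s c0 := ⟨hc0, hc0', hc0''⟩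
  let Q : S ⊕ (S × S) → Dig S → Prop := fun i D => match i with
    | Sum.inl x => conn E s x → conn E x s → D.1 x
    | Sum.inr xy => arc E xy.1 xy.2 → conn E s xy.1 → conn E xy.2 s → D.2 xy.1 xy.2
  have hmono : ∀ i (D D' : Dig S), D ≤ D' → Q i D → Q i D' := by
    intro i D D' hDD h
    rcases i with x | xy
    · intro h1 h2
      exact hDD.1 _ (h h1 h2)
    · intro h1 h2 h3
      exact hDD.2 _ _ (h h1 h2 h3)
  have hex : ∀ i, ∃ c, Loop E s c ∧ Q i (arcs c) := by
    intro i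
    rcases i with x | ⟨x, y⟩
    · by_cases h1 : conn E s x ∧ conn E x s
      · obtain ⟨⟨u, hu, hu', hu''⟩, v, hv, hv', hv''⟩ := h1
        refine ⟨u * v, ⟨(path_mul _ _).2 ⟨hu, ?_, hv⟩, ?_, ?_⟩, ?_⟩
        · rw [hu'']; exact hv'
        · rw [head_mul]; exact hu'
        · rw [last_mul]; exact hv''
        · intro _ _
          apply (hl u v).1.1
          rw [← hu'']
          exact path_last ((arcs_le_iff (D := arcs u) u).1 le_rfl)
      · exact ⟨c0, hL0, fun a b => (h1 ⟨a, b⟩).elim⟩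
    · by_cases h1 : arc E x y ∧ conn E s x ∧ conn E y s
      · obtain ⟨ha, ⟨u, hu, hu', hu''⟩, v, hv, hv', hv''⟩ := h1
        have hp : path E (snoc u y) := ⟨hu, by rw [hu'']; exact ha⟩
        refine ⟨snoc u y * v, ⟨(path_mul _ _).2 ⟨hp, hv', hv⟩, ?_, ?_⟩, ?_⟩
        · rw [head_mul]; exact hu'
        · rw [last_mul]; exact hv''
        · intro _ _ _
          apply (hl (snoc u y) v).1.2
          exact Or.inr ⟨hu''.symm, rfl⟩
      · exact ⟨c0, hL0, fun a b c => (h1 ⟨a, b, c⟩).elim⟩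
  have key : ∀ F : Finset (S ⊕ (S × S)), ∃ c, Loop E s c ∧ ∀ i ∈ F, Q i (arcs c) := by
    intro F
    induction F using Finset.induction_on with
    | empty => exact ⟨c0, hL0, by simp⟩
    | insert a F _ ih =>
      obtain ⟨c, hc, hc'⟩ := ih
      obtain ⟨d, hd, hd'⟩ := hex a
      refine ⟨c * d, hmul _ _ hc hd, ?_⟩
      intro i hi
      rcases Finset.mem_insert.1 hi with rfl | hi
      · exact hmono _ _ _ (hl c d).2 hd'
      · exact hmono _ _ _ (hl c d).1 (hc' i hi)
  have := Fintype.ofFinite (S ⊕ (S × S))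
  obtain ⟨c, hc, hc'⟩ := key Finset.univ
  exact ⟨c, hc, fun x => hc' (Sum.inl x) (Finset.mem_univ _),
    fun x y => hc' (Sum.inr (x, y)) (Finset.mem_univ _)⟩

end J11584

alias cover_exists := J11584.cover_exists

end

end Pool.Agent.H502.Bk
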