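import Pool.Agent.H502.BkSk
set_option autoImplicit false

namespace Pool.Agent.H502.Bk

section
open Function

namespace J11144


section dHaux
open Primrec

theorem dH_powPrim : Primrec₂ (fun a b : ℕ => a ^ b) := by
  refine (Primrec.nat_rec (f := fun _ : ℕ => 1) (g := fun a (p : ℕ × ℕ) => p.2 * a)
    (Primrec.const 1) ?_).of_eq ?_
  · exact (Primrec.nat_mul.comp (snd.comp snd) fst)
  · intro a n
    induction n with
    | zero => rfl
    | succ n ih => rw [pow_succ, ← ih]

theorem dH_allLt {α : Type} [Primcodable α] {f : α → ℕ} {P : α → ℕ → Prop} (hf : Primrec f)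
    (hP : PrimrecPred fun p : α × ℕ => P p.1 p.2) : PrimrecPred (fun a => ∀ x < f a, P a x) := by
  have hR : PrimrecRel (fun (x : ℕ) (a : α) => P a x) := hP.comp (snd.pair fst)
  exact ((PrimrecRel.forall_mem_list hR).comp (Primrec.list_range.comp hf) Primrec.id).of_eq
    (fun a => by simp)

theorem dH_exLt {α : Type} [Primcodable α] {f : α → ℕ} {P : α → ℕ → Prop} (hf : Primrec f)
    (hP : PrimrecPred fun p : α × ℕ => P p.1 p.2) : PrimrecPred (fun a => ∃ x < f a, P a x) := by
  have hR : PrimrecRel (fun (x : ℕ) (a : α) => P a x) := hP.comp (snd.pair fst)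
  exact ((PrimrecRel.exists_mem_list hR).comp (Primrec.list_range.comp hf) Primrec.id).of_eq
    (fun a => by simp)

theorem dH_allMem {α β : Type} [Primcodable α] [Primcodable β] {f : α → List β} {P : α → β → Prop}
    (hf : Primrec f) (hP : PrimrecPred fun p : α × β => P p.1 p.2) :
    PrimrecPred (fun a => ∀ x ∈ f a, P a x) := by
  have hR : PrimrecRel (fun (x : β) (a : α) => P a x) := hP.comp (snd.pair fst)
  exact (PrimrecRel.forall_mem_list hR).comp hf Primrec.id

theorem dH_tmulPrim {α : Type} [Primcodable α] {n i j : α → ℕ} {l : α → List ℕ} (hn : Primrec n)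
    (hl : Primrec l) (hi : Primrec i) (hj : Primrec j) :
    Primrec (fun a => tmul (n a) (l a) (i a) (j a)) := by
  unfold tmul
  exact (Primrec.list_getD 0).comp hl (Primrec.nat_add.comp (Primrec.nat_mul.comp hi hn) hj)

theorem dH_isTablePrim : PrimrecPred fun x : ℕ × List ℕ => IsTable x.1 x.2 := by
  unfold IsTable
  refine PrimrecPred.and (Primrec.nat_lt.comp (Primrec.const 0) fst) (PrimrecPred.and
    (Primrec.eq.comp (Primrec.list_length.comp snd) (Primrec.nat_mul.comp fst fst))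
    (PrimrecPred.and ?_ ?_))
  · exact dH_allMem (f := fun x : ℕ × List ℕ => x.2) (P := fun x y => y < x.1) snd
      (Primrec.nat_lt.comp snd (fst.comp fst))
  · refine dH_allLt (f := fun x : ℕ × List ℕ => x.1) fst ?_
    refine dH_allLt (f := fun x : (ℕ × List ℕ) × ℕ => x.1.1) (fst.comp fst) ?_
    refine dH_allLt (f := fun x : ((ℕ × List ℕ) × ℕ) × ℕ => x.1.1.1) (fst.comp (fst.comp fst)) ?_
    have hn : Primrec fun x : (((ℕ × List ℕ) × ℕ) × ℕ) × ℕ => x.1.1.1.1 :=
      fst.comp (fst.comp (fst.comp fst))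
    have hl : Primrec fun x : (((ℕ × List ℕ) × ℕ) × ℕ) × ℕ => x.1.1.1.2 :=
      snd.comp (fst.comp (fst.comp fst))
    have hi : Primrec fun x : (((ℕ × List ℕ) × ℕ) × ℕ) × ℕ => x.1.1.2 :=
      snd.comp (fst.comp fst)
    have hj : Primrec fun x : (((ℕ × List ℕ) × ℕ) × ℕ) × ℕ => x.1.2 := snd.comp fst
    have hk : Primrec fun x : (((ℕ × List ℕ) × ℕ) × ℕ) × ℕ => x.2 := snd
    exact Primrec.eq.comp (dH_tmulPrim hn hl (dH_tmulPrim hn hl hi hj) hk)
      (dH_tmulPrim hn hl hi (dH_tmulPrim hn hl hj hk))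

/-- bounded existential quantifiers preserve computability -/
theorem dH_exLtC {α : Type} [Primcodable α] {f : α → ℕ} {P : α → ℕ → Prop} (hf : Computable f)
    (hP : ComputablePred fun p : α × ℕ => P p.1 p.2) :
    ComputablePred (fun a => ∃ x < f a, P a x) := by
  obtain ⟨g, hg, hPg⟩ := ComputablePred.computable_iff.1 hP
  have hPg' : ∀ a x, P a x ↔ g (a, x) = true := fun a x => by
    have := congrFun hPg (a, x)
    exact iff_of_eq this
  refine ComputablePred.computable_iff.2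
    ⟨fun a => Nat.rec (motive := fun _ => Bool) false (fun y IH => IH || g (a, y)) (f a), ?_, ?_⟩
  · refine Computable.nat_rec (f := f) (g := fun _ => false)
      (h := fun a (q : ℕ × Bool) => q.2 || g (a, q.1)) hf (Computable.const false) ?_
    have h1 : Computable fun p : α × (ℕ × Bool) => p.2.2 := Computable.snd.comp Computable.snd
    have h2 : Computable fun p : α × (ℕ × Bool) => g (p.1, p.2.1) :=
      hg.comp (Computable.fst.pair (Computable.fst.comp Computable.snd))
    exact (Primrec.or.to_comp).comp h1 h2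
  · funext a
    apply propext
    have key : ∀ n : ℕ, (∃ x < n, P a x) ↔
        Nat.rec (motive := fun _ => Bool) false (fun y IH => IH || g (a, y)) n = true := by
      intro n
      induction n with
      | zero => simp
      | succ n ih =>
        rw [Bool.or_eq_true, ← ih]
        constructor
        · rintro ⟨x, hx, hp⟩
          rcases Nat.lt_succ_iff_lt_or_eq.1 hx with h | h
          · exact Or.inl ⟨x, h, hp⟩
          · subst h; exact Or.inr ((hPg' _ _).1 hp)
        · rintro (⟨x, hx, hp⟩ | h)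
          · exact ⟨x, by omega, hp⟩
          · exact ⟨n, by omega, (hPg' _ _).2 h⟩
    exact key (f a)

theorem dH_andC {α : Type} [Primcodable α] {P Q : α → Prop} (hP : ComputablePred P)
    (hQ : ComputablePred Q) : ComputablePred (fun a => P a ∧ Q a) := by
  obtain ⟨f, hf, rfl⟩ := ComputablePred.computable_iff.1 hP
  obtain ⟨g, hg, rfl⟩ := ComputablePred.computable_iff.1 hQ
  refine ComputablePred.computable_iff.2 ⟨fun a => f a && g a, (Primrec.and.to_comp).comp hf hg, ?_⟩
  funext a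
  simp

theorem dH_compC {α β : Type} [Primcodable α] [Primcodable β] {P : β → Prop}
    (hP : ComputablePred P) {f : α → β} (hf : Computable f) :
    ComputablePred (fun a => P (f a)) := by
  obtain ⟨g, hg, rfl⟩ := ComputablePred.computable_iff.1 hP
  exact ComputablePred.computable_iff.2 ⟨fun a => g (f a), hg.comp hf, rfl⟩

theorem dH_ofPrim {α : Type} [Primcodable α] {P : α → Prop} (hP : PrimrecPred P) :
    ComputablePred P := by
  obtain ⟨hd, hp⟩ := hP
  exact ⟨hd, hp.to_comp⟩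

end dHaux

theorem dH_exists_digits (N : ℕ) : ∀ (n : ℕ) (f : ℕ → ℕ), (∀ i < n, f i < N) →
    ∃ m < N ^ n, ∀ i < n, m / N ^ i % N = f i := by
  intro n
  induction n with
  | zero => intro f _; exact ⟨0, by simp, by simp⟩
  | succ n ih =>
    intro f hf
    obtain ⟨m, hm, hd⟩ := ih f (fun i hi => hf i (by omega))
    have hN : 0 < N := lt_of_le_of_lt (Nat.zero_le _) (hf n (Nat.lt_succ_self n))
    refine ⟨m + f n * N ^ n, ?_, ?_⟩
    · have h1 := hf n (Nat.lt_succ_self n)
      have h2 : (f n + 1) * N ^ n ≤ N * N ^ n := Nat.mul_le_mul_right _ h1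
      rw [pow_succ, mul_comm (N ^ n) N]
      rw [add_mul, one_mul] at h2
      omega
    · intro i hi
      rcases Nat.lt_succ_iff_lt_or_eq.1 hi with h | h
      · have h3 : f n * N ^ n = N ^ i * (N * (f n * N ^ (n - i - 1))) := by
          have : N ^ n = N ^ i * (N * N ^ (n - i - 1)) := by
            rw [← pow_succ', ← pow_add]; congr 1; omega
          rw [this]; ring
        rw [h3, Nat.add_mul_div_left _ _ (pow_pos hN i), Nat.add_mul_mod_self_left]
        exact hd i h
      · subst h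
        rw [Nat.add_mul_div_right _ _ (pow_pos hN i), Nat.div_eq_of_lt hm, zero_add]
        exact Nat.mod_eq_of_lt (hf i (Nat.lt_succ_self i))

/-- the list of the first `k` digits of `c` to the base `N` -/
def dH_dl (N k c : ℕ) : List ℕ := (List.range k).map fun j => c / N ^ j % N

theorem dH_exists_dl (N : ℕ) (l : List ℕ) (hl : ∀ x ∈ l, x < N) :
    ∃ c < N ^ l.length, dH_dl N l.length c = l := by
  obtain ⟨c, hc, hd⟩ := dH_exists_digits N l.length (fun i => l.getD i 0) (by
    intro i hi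
    rw [List.getD_eq_getElem _ _ hi]
    exact hl _ (List.getElem_mem hi))
  refine ⟨c, hc, ?_⟩
  apply List.ext_getElem
  · simp [dH_dl]
  · intro i h1 h2
    simp only [dH_dl, List.getElem_map, List.getElem_range]
    rw [hd i h2, List.getD_eq_getElem _ _ h2]

theorem dH_card_tableSg {n : ℕ} {l : List ℕ} (h : IsTable n l) :
    Nat.card (tableSg n l h) = n := by
  show Nat.card (Fin n) = n
  exact Nat.card_fin n

/-- every finite semigroup is given by a table -/
theorem dH_exists_table (R : FinSg) :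
    ∃ (l' : List ℕ) (h' : IsTable (Nat.card R) l'), Nonempty (R ≃* tableSg (Nat.card R) l' h') := by
  classical
  obtain ⟨m, hm⟩ : ∃ m, m = Nat.card R := ⟨_, rfl⟩
  rw [← hm]
  have hm0 : 0 < m := by rw [hm]; exact Nat.card_pos
  let g : Fin m ≃ R := (finCongr hm).trans (Finite.equivFin R).symm
  let gg : ℕ → R := fun i => g ⟨i % m, Nat.mod_lt _ hm0⟩
  have hgg : ∀ i (hi : i < m), gg i = g ⟨i, hi⟩ := by
    intro i hi
    show g ⟨i % m, _⟩ = _
    congr 1
    exact Fin.ext (Nat.mod_eq_of_lt hi)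
  have hinv : ∀ x : R, gg (g.symm x) = x := by
    intro x
    rw [hgg _ (g.symm x).2]
    exact g.apply_symm_apply x
  let l' : List ℕ := (List.range (m * m)).map fun q => ((g.symm (gg (q / m) * gg (q % m)) : Fin m) : ℕ)
  have hlen : l'.length = m * m := by simp [l']
  have htm : ∀ i < m, ∀ j < m, tmul m l' i j = (g.symm (gg i * gg j) : Fin m) := by
    intro i hi j hj
    have hlt : i * m + j < l'.length := by
      rw [hlen]
      calc i * m + j < i * m + m := by omega
        _ = (i + 1) * m := by ring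
        _ ≤ m * m := Nat.mul_le_mul_right _ hi
    unfold tmul
    rw [List.getD_eq_getElem _ _ hlt]
    simp only [l', List.getElem_map, List.getElem_range]
    have e1 : (i * m + j) / m = i := by
      rw [Nat.mul_comm i m, Nat.mul_add_div hm0, Nat.div_eq_of_lt hj, add_zero]
    have e2 : (i * m + j) % m = j := by
      rw [Nat.mul_add_mod_self_right]; exact Nat.mod_eq_of_lt hj
    rw [e1, e2]
  have hT : IsTable m l' := by
    refine ⟨hm0, hlen, ?_, ?_⟩
    · intro x hx
      simp only [l', List.mem_map] at hx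
      obtain ⟨q, -, rfl⟩ := hx
      exact (g.symm _).2
    · intro i hi j hj k hk
      rw [htm i hi j hj, htm j hj k hk, htm _ (g.symm _).2 k hk, htm i hi _ (g.symm _).2,
        hinv, hinv, mul_assoc]
  refine ⟨l', hT, ?_⟩
  let φ : R → tableSg m l' hT := fun x => (g.symm x : Fin m)
  have hφ : ∀ x y, φ (x * y) = φ x * φ y := by
    intro x y
    apply Fin.ext
    show ((g.symm (x * y) : Fin m) : ℕ) = tmul m l' (g.symm x : Fin m) (g.symm y : Fin m)
    rw [htm _ (g.symm x).2 _ (g.symm y).2, hinv, hinv]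
  exact ⟨MulEquiv.mk' (g.symm : R ≃ Fin m) hφ⟩

/-- numerical form of a surjective homomorphism between table semigroups -/
def dH_homOK (n : ℕ) (l : List ℕ) (k : ℕ) (t : List ℕ) (e : ℕ) : Prop :=
  (∀ i < k, ∀ j < k, e / n ^ (tmul k t i j) % n = tmul n l (e / n ^ i % n) (e / n ^ j % n)) ∧
    ∀ y < n, ∃ i < k, e / n ^ i % n = y

theorem dH_iff {X : Set FinSg} (hI : IsoC X) {b : ℕ → ℕ}
    (h : ∀ B ∈ opH X, ∃ T ∈ X, Nat.card T ≤ b (Nat.card B) ∧ ∃ f : T →ₙ* B, Surjective f)
    (n : ℕ) (l : List ℕ) :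
    (∃ ht : IsTable n l, tableSg n l ht ∈ opH X) ↔
      (IsTable n l ∧ ∃ k < b n + 1, ∃ c < k ^ (k * k),
        ((∃ h' : IsTable k (dH_dl k (k * k) c), tableSg k (dH_dl k (k * k) c) h' ∈ X) ∧
          ∃ e < n ^ k, dH_homOK n l k (dH_dl k (k * k) c) e)) := by
  constructor
  · rintro ⟨ht, hm⟩
    refine ⟨ht, ?_⟩
    obtain ⟨T, hT, hcard, f, hf⟩ := h _ hm
    rw [dH_card_tableSg ht] at hcard
    obtain ⟨l', h', ⟨φ⟩⟩ := dH_exists_table T
    obtain ⟨c, hc1, hc2⟩ := dH_exists_dl (Nat.card T) l' h'.2.2.1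
    rw [h'.2.1] at hc1 hc2
    refine ⟨Nat.card T, by omega, c, hc1, ?_⟩
    rw [hc2]
    refine ⟨⟨h', hI _ hT _ ⟨φ⟩⟩, ?_⟩
    let ψ : tableSg (Nat.card T) l' h' →ₙ* tableSg n l ht := f.comp φ.symm.toMulHom
    have hψ : Surjective ψ := hf.comp φ.symm.surjective
    let p : Fin (Nat.card T) → Fin n := fun i => ψ i
    obtain ⟨e, he1, he2⟩ := dH_exists_digits n (Nat.card T)
      (fun i => if hi : i < Nat.card T then (p ⟨i, hi⟩ : ℕ) else 0) (by
        intro i hi
        simp only [hi, dif_pos]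
        exact (p _).2)
    have he3 : ∀ (i : ℕ) (hi : i < Nat.card T), e / n ^ i % n = p ⟨i, hi⟩ := by
      intro i hi
      rw [he2 i hi, dif_pos hi]
    refine ⟨e, he1, ?_, ?_⟩
    · intro i hi j hj
      rw [he3 i hi, he3 j hj, he3 _ (tmul_lt h' i j)]
      have h1 := map_mul ψ (show tableSg (Nat.card T) l' h' from (⟨i, hi⟩ : Fin _))
        (show tableSg (Nat.card T) l' h' from (⟨j, hj⟩ : Fin _))
      exact congrArg Fin.val h1
    · intro y hy
      obtain ⟨x, hx⟩ := hψ (show tableSg n l ht from (⟨y, hy⟩ : Fin n))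
      refine ⟨(x : Fin (Nat.card T)).1, (x : Fin (Nat.card T)).2, ?_⟩
      rw [he3 _ (x : Fin (Nat.card T)).2]
      exact congrArg Fin.val hx
  · rintro ⟨ht, k, -, c, -, ⟨h', hX⟩, e, -, he1, he2⟩
    refine ⟨ht, tableSg k _ h', hX, ⟨fun i : Fin k => (⟨e / n ^ (i : ℕ) % n, Nat.mod_lt _ ht.1⟩ : Fin n), ?_⟩, ?_⟩
    · intro (i : Fin k) (j : Fin k)
      apply Fin.ext
      exact he1 i i.2 j j.2
    · intro (y : Fin n)
      obtain ⟨i, hi, hy⟩ := he2 y y.2
      exact ⟨(⟨i, hi⟩ : Fin k), Fin.ext hy⟩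

/-! ### TARGET of this job: dec_H -/

/-- if `X` is decidable, then `HX` is decidable, provided preimages have bounded size -/
theorem dec_H {X : Set FinSg} (hX : DecClass X) (hI : IsoC X) {b : ℕ → ℕ} (hb : Computable b)
    (h : ∀ B ∈ opH X, ∃ T ∈ X, Nat.card T ≤ b (Nat.card B) ∧ ∃ f : T →ₙ* B, Surjective f) :
    DecClass (opH X) := by
  unfold DecClass
  refine ComputablePred.of_eq (p := fun x : ℕ × List ℕ =>
      (IsTable x.1 x.2 ∧ ∃ k < b x.1 + 1, ∃ c < k ^ (k * k),
        ((∃ h' : IsTable k (dH_dl k (k * k) c), tableSg k (dH_dl k (k * k) c) h' ∈ X) ∧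
          ∃ e < x.1 ^ k, dH_homOK x.1 x.2 k (dH_dl k (k * k) c) e))) ?_
    (fun x => (dH_iff hI h x.1 x.2).symm)
  refine dH_andC (dH_ofPrim dH_isTablePrim) ?_
  refine dH_exLtC (f := fun x : ℕ × List ℕ => b x.1 + 1)
    ((Primrec.succ.to_comp).comp (hb.comp Computable.fst)) ?_
  refine dH_exLtC (f := fun x : (ℕ × List ℕ) × ℕ => x.2 ^ (x.2 * x.2)) ?_ ?_
  · exact (dH_powPrim.comp Primrec.snd (Primrec.nat_mul.comp Primrec.snd Primrec.snd)).to_comp
  -- projections from `((ℕ × List ℕ) × ℕ) × ℕ`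
  have pn : Primrec fun x : ((ℕ × List ℕ) × ℕ) × ℕ => x.1.1.1 :=
    Primrec.fst.comp (Primrec.fst.comp Primrec.fst)
  have pl : Primrec fun x : ((ℕ × List ℕ) × ℕ) × ℕ => x.1.1.2 :=
    Primrec.snd.comp (Primrec.fst.comp Primrec.fst)
  have pk : Primrec fun x : ((ℕ × List ℕ) × ℕ) × ℕ => x.1.2 := Primrec.snd.comp Primrec.fst
  have pc : Primrec fun x : ((ℕ × List ℕ) × ℕ) × ℕ => x.2 := Primrec.snd
  have pL : Primrec fun x : ((ℕ × List ℕ) × ℕ) × ℕ => dH_dl x.1.2 (x.1.2 * x.1.2) x.2 := by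
    unfold dH_dl
    refine Primrec.list_map (Primrec.list_range.comp (Primrec.nat_mul.comp pk pk)) ?_
    exact Primrec.nat_mod.comp (Primrec.nat_div.comp (pc.comp Primrec.fst)
      (dH_powPrim.comp (pk.comp Primrec.fst) Primrec.snd)) (pk.comp Primrec.fst)
  refine dH_andC ?_ ?_
  · exact dH_compC hX (f := fun x : ((ℕ × List ℕ) × ℕ) × ℕ =>
      (x.1.2, dH_dl x.1.2 (x.1.2 * x.1.2) x.2)) (pk.pair pL).to_comp
  · apply dH_ofPrim
    refine dH_exLt (f := fun x : ((ℕ × List ℕ) × ℕ) × ℕ => x.1.1.1 ^ x.1.2)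
      (dH_powPrim.comp pn pk) ?_
    have q0 : Primrec fun x : (((ℕ × List ℕ) × ℕ) × ℕ) × ℕ => x.1 := Primrec.fst
    have qe : Primrec fun x : (((ℕ × List ℕ) × ℕ) × ℕ) × ℕ => x.2 := Primrec.snd
    unfold dH_homOK
    refine PrimrecPred.and ?_ ?_
    · refine dH_allLt (f := fun x : (((ℕ × List ℕ) × ℕ) × ℕ) × ℕ => x.1.1.2) (pk.comp q0) ?_
      refine dH_allLt (f := fun x : ((((ℕ × List ℕ) × ℕ) × ℕ) × ℕ) × ℕ => x.1.1.1.2)
        ((pk.comp q0).comp Primrec.fst) ?_
      have r0 : Primrec fun x : (((((ℕ × List ℕ) × ℕ) × ℕ) × ℕ) × ℕ) × ℕ => x.1.1 :=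
        Primrec.fst.comp Primrec.fst
      have ri : Primrec fun x : (((((ℕ × List ℕ) × ℕ) × ℕ) × ℕ) × ℕ) × ℕ => x.1.2 :=
        Primrec.snd.comp Primrec.fst
      have rj : Primrec fun x : (((((ℕ × List ℕ) × ℕ) × ℕ) × ℕ) × ℕ) × ℕ => x.2 := Primrec.snd
      have re := qe.comp r0
      have rn := (pn.comp q0).comp r0
      have rl := (pl.comp q0).comp r0
      have rk := (pk.comp q0).comp r0
      have rt := (pL.comp q0).comp r0
      exact Primrec.eq.comp
        (Primrec.nat_mod.comp (Primrec.nat_div.comp re (dH_powPrim.comp rn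
          (dH_tmulPrim rk rt ri rj))) rn)
        (dH_tmulPrim rn rl
          (Primrec.nat_mod.comp (Primrec.nat_div.comp re (dH_powPrim.comp rn ri)) rn)
          (Primrec.nat_mod.comp (Primrec.nat_div.comp re (dH_powPrim.comp rn rj)) rn))
    · refine dH_allLt (f := fun x : (((ℕ × List ℕ) × ℕ) × ℕ) × ℕ => x.1.1.1.1) (pn.comp q0) ?_
      refine dH_exLt (f := fun x : ((((ℕ × List ℕ) × ℕ) × ℕ) × ℕ) × ℕ => x.1.1.1.2)
        ((pk.comp q0).comp Primrec.fst) ?_
      have r0 : Primrec fun x : (((((ℕ × List ℕ) × ℕ) × ℕ) × ℕ) × ℕ) × ℕ => x.1.1 :=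
        Primrec.fst.comp Primrec.fst
      have ry : Primrec fun x : (((((ℕ × List ℕ) × ℕ) × ℕ) × ℕ) × ℕ) × ℕ => x.1.2 :=
        Primrec.snd.comp Primrec.fst
      have ri : Primrec fun x : (((((ℕ × List ℕ) × ℕ) × ℕ) × ℕ) × ℕ) × ℕ => x.2 := Primrec.snd
      have re := qe.comp r0
      have rn := (pn.comp q0).comp r0
      exact Primrec.eq.comp
        (Primrec.nat_mod.comp (Primrec.nat_div.comp re (dH_powPrim.comp rn ri)) rn) ry

end J11144

alias dec_H := J11144.dec_H

end

end Pool.Agent.H502.Bk
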