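import Pool.Agent.H502.BkSk
set_option autoImplicit false

namespace Pool.Agent.H502.Bk

section
open Function

namespace J11146

section dPaux
open Primrec

theorem dP_powPrim : Primrec₂ (fun a b : ℕ => a ^ b) := by
  refine (Primrec.nat_rec (f := fun _ : ℕ => 1) (g := fun a (p : ℕ × ℕ) => p.2 * a)
    (Primrec.const 1) ?_).of_eq ?_
  · exact (Primrec.nat_mul.comp (snd.comp snd) fst)
  · intro a n
    induction n with
    | zero => rfl
    | succ n ih => rw [pow_succ, ← ih]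

theorem dP_allLt {α : Type} [Primcodable α] {f : α → ℕ} {P : α → ℕ → Prop} (hf : Primrec f)
    (hP : PrimrecPred fun p : α × ℕ => P p.1 p.2) : PrimrecPred (fun a => ∀ x < f a, P a x) := by
  have hR : PrimrecRel (fun (x : ℕ) (a : α) => P a x) := hP.comp (snd.pair fst)
  exact ((PrimrecRel.forall_mem_list hR).comp (Primrec.list_range.comp hf) Primrec.id).of_eq
    (fun a => by simp)

theorem dP_exLt {α : Type} [Primcodable α] {f : α → ℕ} {P : α → ℕ → Prop} (hf : Primrec f)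
    (hP : PrimrecPred fun p : α × ℕ => P p.1 p.2) : PrimrecPred (fun a => ∃ x < f a, P a x) := by
  have hR : PrimrecRel (fun (x : ℕ) (a : α) => P a x) := hP.comp (snd.pair fst)
  exact ((PrimrecRel.exists_mem_list hR).comp (Primrec.list_range.comp hf) Primrec.id).of_eq
    (fun a => by simp)

theorem dP_allMem {α β : Type} [Primcodable α] [Primcodable β] {f : α → List β} {P : α → β → Prop}
    (hf : Primrec f) (hP : PrimrecPred fun p : α × β => P p.1 p.2) :
    PrimrecPred (fun a => ∀ x ∈ f a, P a x) := by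
  have hR : PrimrecRel (fun (x : β) (a : α) => P a x) := hP.comp (snd.pair fst)
  exact (PrimrecRel.forall_mem_list hR).comp hf Primrec.id

theorem dP_tmulPrim {α : Type} [Primcodable α] {n i j : α → ℕ} {l : α → List ℕ} (hn : Primrec n)
    (hl : Primrec l) (hi : Primrec i) (hj : Primrec j) :
    Primrec (fun a => tmul (n a) (l a) (i a) (j a)) := by
  unfold tmul
  exact (Primrec.list_getD 0).comp hl (Primrec.nat_add.comp (Primrec.nat_mul.comp hi hn) hj)

theorem dP_isTablePrim : PrimrecPred fun x : ℕ × List ℕ => IsTable x.1 x.2 := by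
  unfold IsTable
  refine PrimrecPred.and (Primrec.nat_lt.comp (Primrec.const 0) fst) (PrimrecPred.and
    (Primrec.eq.comp (Primrec.list_length.comp snd) (Primrec.nat_mul.comp fst fst))
    (PrimrecPred.and ?_ ?_))
  · exact dP_allMem (f := fun x : ℕ × List ℕ => x.2) (P := fun x y => y < x.1) snd
      (Primrec.nat_lt.comp snd (fst.comp fst))
  · refine dP_allLt (f := fun x : ℕ × List ℕ => x.1) fst ?_
    refine dP_allLt (f := fun x : (ℕ × List ℕ) × ℕ => x.1.1) (fst.comp fst) ?_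
    refine dP_allLt (f := fun x : ((ℕ × List ℕ) × ℕ) × ℕ => x.1.1.1) (fst.comp (fst.comp fst)) ?_
    have hn : Primrec fun x : (((ℕ × List ℕ) × ℕ) × ℕ) × ℕ => x.1.1.1.1 :=
      fst.comp (fst.comp (fst.comp fst))
    have hl : Primrec fun x : (((ℕ × List ℕ) × ℕ) × ℕ) × ℕ => x.1.1.1.2 :=
      snd.comp (fst.comp (fst.comp fst))
    have hi : Primrec fun x : (((ℕ × List ℕ) × ℕ) × ℕ) × ℕ => x.1.1.2 :=
      snd.comp (fst.comp fst)
    have hj : Primrec fun x : (((ℕ × List ℕ) × ℕ) × ℕ) × ℕ => x.1.2 := snd.comp fst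
    have hk : Primrec fun x : (((ℕ × List ℕ) × ℕ) × ℕ) × ℕ => x.2 := snd
    exact Primrec.eq.comp (dP_tmulPrim hn hl (dP_tmulPrim hn hl hi hj) hk)
      (dP_tmulPrim hn hl hi (dP_tmulPrim hn hl hj hk))

/-- bounded existential quantifiers preserve computability -/
theorem dP_exLtC {α : Type} [Primcodable α] {f : α → ℕ} {P : α → ℕ → Prop} (hf : Computable f)
    (hP : ComputablePred fun p : α × ℕ => P p.1 p.2) :
    ComputablePred (fun a => ∃ x < f a, P a x) := by
  obtain ⟨g, hg, hPg⟩ := ComputablePred.computable_iff.1 hP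
  have hPg' : ∀ a x, P a x ↔ g (a, x) = true := fun a x => by
    have := congrFun hPg (a, x)
    exact iff_of_eq this
  refine ComputablePred.computable_iff.2
    ⟨fun a => Nat.rec (motive := fun _ => Bool) false (fun y IH => IH || g (a, y)) (f a), ?_, ?_⟩
  · refine Computable.nat_rec (f := f) (g := fun _ => false)
      (h := fun a (q : ℕ × Bool) => q.2 || g (a, q.1)) hf (Computable.const false) ?_
    have h1 : Computable fun p : α × (ℕ × Bool) => p.2.2 := Computable.snd.comp Computable.snd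
    have h2 : Computable fun p : α × (ℕ × Bool) => g (p.1, p.2.1) :=
      hg.comp (Computable.fst.pair (Computable.fst.comp Computable.snd))
    exact (Primrec.or.to_comp).comp h1 h2
  · funext a
    apply propext
    have key : ∀ n : ℕ, (∃ x < n, P a x) ↔
        Nat.rec (motive := fun _ => Bool) false (fun y IH => IH || g (a, y)) n = true := by
      intro n
      induction n with
      | zero => simp
      | succ n ih =>
        rw [Bool.or_eq_true, ← ih]
        constructor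
        · rintro ⟨x, hx, hp⟩
          rcases Nat.lt_succ_iff_lt_or_eq.1 hx with h | h
          · exact Or.inl ⟨x, h, hp⟩
          · subst h; exact Or.inr ((hPg' _ _).1 hp)
        · rintro (⟨x, hx, hp⟩ | h)
          · exact ⟨x, by omega, hp⟩
          · exact ⟨n, by omega, (hPg' _ _).2 h⟩
    exact key (f a)

theorem dP_andC {α : Type} [Primcodable α] {P Q : α → Prop} (hP : ComputablePred P)
    (hQ : ComputablePred Q) : ComputablePred (fun a => P a ∧ Q a) := by
  obtain ⟨f, hf, rfl⟩ := ComputablePred.computable_iff.1 hP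
  obtain ⟨g, hg, rfl⟩ := ComputablePred.computable_iff.1 hQ
  refine ComputablePred.computable_iff.2 ⟨fun a => f a && g a, (Primrec.and.to_comp).comp hf hg, ?_⟩
  funext a
  simp

theorem dP_compC {α β : Type} [Primcodable α] [Primcodable β] {P : β → Prop}
    (hP : ComputablePred P) {f : α → β} (hf : Computable f) :
    ComputablePred (fun a => P (f a)) := by
  obtain ⟨g, hg, rfl⟩ := ComputablePred.computable_iff.1 hP
  exact ComputablePred.computable_iff.2 ⟨fun a => g (f a), hg.comp hf, rfl⟩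

theorem dP_ofPrim {α : Type} [Primcodable α] {P : α → Prop} (hP : PrimrecPred P) :
    ComputablePred P := by
  obtain ⟨hd, hp⟩ := hP
  exact ⟨hd, hp.to_comp⟩

end dPaux

theorem dP_exists_digits (N : ℕ) : ∀ (n : ℕ) (f : ℕ → ℕ), (∀ i < n, f i < N) →
    ∃ m < N ^ n, ∀ i < n, m / N ^ i % N = f i := by
  intro n
  induction n with
  | zero => intro f _; exact ⟨0, by simp, by simp⟩
  | succ n ih =>
    intro f hf
    obtain ⟨m, hm, hd⟩ := ih f (fun i hi => hf i (by omega))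
    have hN : 0 < N := lt_of_le_of_lt (Nat.zero_le _) (hf n (Nat.lt_succ_self n))
    refine ⟨m + f n * N ^ n, ?_, ?_⟩
    · have h1 := hf n (Nat.lt_succ_self n)
      have h2 : (f n + 1) * N ^ n ≤ N * N ^ n := Nat.mul_le_mul_right _ h1
      rw [pow_succ, mul_comm (N ^ n) N]
      rw [add_mul, one_mul] at h2
      omega
    · intro i hi
      rcases Nat.lt_succ_iff_lt_or_eq.1 hi with h | h
      · have h3 : f n * N ^ n = N ^ i * (N * (f n * N ^ (n - i - 1))) := by
          have : N ^ n = N ^ i * (N * N ^ (n - i - 1)) := by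
            rw [← pow_succ', ← pow_add]; congr 1; omega
          rw [this]; ring
        rw [h3, Nat.add_mul_div_left _ _ (pow_pos hN i), Nat.add_mul_mod_self_left]
        exact hd i h
      · subst h
        rw [Nat.add_mul_div_right _ _ (pow_pos hN i), Nat.div_eq_of_lt hm, zero_add]
        exact Nat.mod_eq_of_lt (hf i (Nat.lt_succ_self i))

/-- the list of the first `k` digits of `c` to the base `N` -/
def dP_dl (N k c : ℕ) : List ℕ := (List.range k).map fun j => c / N ^ j % N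

theorem dP_exists_dl (N : ℕ) (l : List ℕ) (hl : ∀ x ∈ l, x < N) :
    ∃ c < N ^ l.length, dP_dl N l.length c = l := by
  obtain ⟨c, hc, hd⟩ := dP_exists_digits N l.length (fun i => l.getD i 0) (by
    intro i hi
    rw [List.getD_eq_getElem _ _ hi]
    exact hl _ (List.getElem_mem hi))
  refine ⟨c, hc, ?_⟩
  apply List.ext_getElem
  · simp [dP_dl]
  · intro i h1 h2
    simp only [dP_dl, List.getElem_map, List.getElem_range]
    rw [hd i h2, List.getD_eq_getElem _ _ h2]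

theorem dP_card_tableSg {n : ℕ} {l : List ℕ} (h : IsTable n l) :
    Nat.card (tableSg n l h) = n := by
  show Nat.card (Fin n) = n
  exact Nat.card_fin n

/-- every finite semigroup is given by a table -/
theorem dP_exists_table (R : FinSg) :
    ∃ (l' : List ℕ) (h' : IsTable (Nat.card R) l'), Nonempty (R ≃* tableSg (Nat.card R) l' h') := by
  classical
  obtain ⟨m, hm⟩ : ∃ m, m = Nat.card R := ⟨_, rfl⟩
  rw [← hm]
  have hm0 : 0 < m := by rw [hm]; exact Nat.card_pos
  let g : Fin m ≃ R := (finCongr hm).trans (Finite.equivFin R).symm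
  let gg : ℕ → R := fun i => g ⟨i % m, Nat.mod_lt _ hm0⟩
  have hgg : ∀ i (hi : i < m), gg i = g ⟨i, hi⟩ := by
    intro i hi
    show g ⟨i % m, _⟩ = _
    congr 1
    exact Fin.ext (Nat.mod_eq_of_lt hi)
  have hinv : ∀ x : R, gg (g.symm x) = x := by
    intro x
    rw [hgg _ (g.symm x).2]
    exact g.apply_symm_apply x
  let l' : List ℕ := (List.range (m * m)).map fun q => ((g.symm (gg (q / m) * gg (q % m)) : Fin m) : ℕ)
  have hlen : l'.length = m * m := by simp [l']
  have htm : ∀ i < m, ∀ j < m, tmul m l' i j = (g.symm (gg i * gg j) : Fin m) := by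
    intro i hi j hj
    have hlt : i * m + j < l'.length := by
      rw [hlen]
      calc i * m + j < i * m + m := by omega
        _ = (i + 1) * m := by ring
        _ ≤ m * m := Nat.mul_le_mul_right _ hi
    unfold tmul
    rw [List.getD_eq_getElem _ _ hlt]
    simp only [l', List.getElem_map, List.getElem_range]
    have e1 : (i * m + j) / m = i := by
      rw [Nat.mul_comm i m, Nat.mul_add_div hm0, Nat.div_eq_of_lt hj, add_zero]
    have e2 : (i * m + j) % m = j := by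
      rw [Nat.mul_add_mod_self_right]; exact Nat.mod_eq_of_lt hj
    rw [e1, e2]
  have hT : IsTable m l' := by
    refine ⟨hm0, hlen, ?_, ?_⟩
    · intro x hx
      simp only [l', List.mem_map] at hx
      obtain ⟨q, -, rfl⟩ := hx
      exact (g.symm _).2
    · intro i hi j hj k hk
      rw [htm i hi j hj, htm j hj k hk, htm _ (g.symm _).2 k hk, htm i hi _ (g.symm _).2,
        hinv, hinv, mul_assoc]
  refine ⟨l', hT, ?_⟩
  let φ : R → tableSg m l' hT := fun x => (g.symm x : Fin m)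
  have hφ : ∀ x y, φ (x * y) = φ x * φ y := by
    intro x y
    apply Fin.ext
    show ((g.symm (x * y) : Fin m) : ℕ) = tmul m l' (g.symm x : Fin m) (g.symm y : Fin m)
    rw [htm _ (g.symm x).2 _ (g.symm y).2, hinv, hinv]
  exact ⟨MulEquiv.mk' (g.symm : R ≃ Fin m) hφ⟩


section dPfm
open Primrec

/-- terms of bounded arithmetic with a table -/
inductive dPTm : Type
  | v (i : ℕ)
  | c (n : ℕ)
  | add (a b : dPTm)
  | mul (a b : dPTm)
  | div (a b : dPTm)
  | mod (a b : dPTm)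
  | pow (a b : dPTm)
  | lk (a : dPTm)

def dPTm.ev (l e : List ℕ) : dPTm → ℕ
  | v i => e.getD i 0
  | c n => n
  | add a b => a.ev l e + b.ev l e
  | mul a b => a.ev l e * b.ev l e
  | div a b => a.ev l e / b.ev l e
  | mod a b => a.ev l e % b.ev l e
  | pow a b => a.ev l e ^ b.ev l e
  | lk a => l.getD (a.ev l e) 0

theorem dPTm.prim (t : dPTm) : Primrec fun p : List ℕ × List ℕ => t.ev p.1 p.2 := by
  induction t with
  | v i => exact (Primrec.list_getD 0).comp snd (Primrec.const i)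
  | c n => exact Primrec.const n
  | add a b iha ihb => exact Primrec.nat_add.comp iha ihb
  | mul a b iha ihb => exact Primrec.nat_mul.comp iha ihb
  | div a b iha ihb => exact Primrec.nat_div.comp iha ihb
  | mod a b iha ihb => exact Primrec.nat_mod.comp iha ihb
  | pow a b iha ihb => exact dP_powPrim.comp iha ihb
  | lk a ih => exact (Primrec.list_getD 0).comp fst ih

/-- bounded formulas; a quantifier appends its variable at the end of the environment -/
inductive dPFm : Type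
  | eq (a b : dPTm)
  | lt (a b : dPTm)
  | and (f g : dPFm)
  | imp (f g : dPFm)
  | not (f : dPFm)
  | all (b : dPTm) (f : dPFm)
  | ex (b : dPTm) (f : dPFm)

def dPFm.ho (l : List ℕ) : dPFm → List ℕ → Prop
  | eq a b, e => a.ev l e = b.ev l e
  | lt a b, e => a.ev l e < b.ev l e
  | and f g, e => f.ho l e ∧ g.ho l e
  | imp f g, e => f.ho l e → g.ho l e
  | not f, e => ¬ f.ho l e
  | all b f, e => ∀ x < b.ev l e, f.ho l (e ++ [x])
  | ex b f, e => ∃ x < b.ev l e, f.ho l (e ++ [x])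

theorem dPFm.prim (f : dPFm) : PrimrecPred fun p : List ℕ × List ℕ => f.ho p.1 p.2 := by
  have happ : Primrec fun q : (List ℕ × List ℕ) × ℕ => (q.1.1, q.1.2 ++ [q.2]) :=
    (fst.comp fst).pair (Primrec.list_concat.comp (snd.comp fst) snd)
  induction f with
  | eq a b => exact Primrec.eq.comp a.prim b.prim
  | lt a b => exact Primrec.nat_lt.comp a.prim b.prim
  | and f g ihf ihg => exact ihf.and ihg
  | imp f g ihf ihg => exact (ihf.not.or ihg).of_eq (fun p => by simp only [dPFm.ho]; tauto)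
  | not f ih => exact ih.not
  | all b f ih => exact dP_allLt b.prim (ih.comp happ)
  | ex b f ih => exact dP_exLt b.prim (ih.comp happ)


end dPfm

theorem dP_notC {α : Type} [Primcodable α] {P : α → Prop} (hP : ComputablePred P) :
    ComputablePred (fun a => ¬ P a) := by
  obtain ⟨f, hf, rfl⟩ := ComputablePred.computable_iff.1 hP
  refine ComputablePred.computable_iff.2 ⟨fun a => ! f a, (Primrec.not.to_comp).comp hf, ?_⟩
  funext a
  simp

theorem dP_allLtC {α : Type} [Primcodable α] {f : α → ℕ} {P : α → ℕ → Prop} (hf : Computable f)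
    (hP : ComputablePred fun p : α × ℕ => P p.1 p.2) :
    ComputablePred (fun a => ∀ x < f a, P a x) := by
  have h1 := dP_notC (dP_exLtC (P := fun a x => ¬ P a x) hf (dP_notC hP))
  refine h1.of_eq (fun a => ?_)
  push Not
  rfl

/-- removing a one-element factor -/
theorem dP_remove {k : ℕ} (T : Fin (k + 1 + 1) → FinSg) (i : Fin (k + 1 + 1))
    (hi : Nat.card (T i) = 1) : Nonempty (prodSg T ≃* prodSg (fun j => T (i.succAbove j))) := by
  have hs : Subsingleton (T i) := (Nat.card_eq_one_iff_unique.1 hi).1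
  obtain ⟨x0⟩ := (T i).ne
  let f : prodSg T → prodSg (fun j => T (i.succAbove j)) := fun w j => w (i.succAbove j)
  have hf : ∀ w w', f (w * w') = f w * f w' := fun w w' => rfl
  have hb : Bijective f := by
    constructor
    · intro w w' h
      have h' : ∀ j, w (i.succAbove j) = w' (i.succAbove j) := fun j => congrFun h j
      have : ∀ j, w j = w' j := by
        rw [Fin.forall_iff_succAbove i]
        exact ⟨Subsingleton.elim _ _, h'⟩
      exact funext this
    · intro w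
      refine ⟨Fin.insertNth (α := fun j => (T j).carrier) i x0 w, ?_⟩
      funext j
      exact Fin.insertNth_apply_succAbove (α := fun j => (T j).carrier) i x0 w j
  exact ⟨MulEquiv.mk' (Equiv.ofBijective f hb) hf⟩

theorem dP_reduce {X : Set FinSg} (B : FinSg) : ∀ (k : ℕ) (T : Fin (k + 1) → FinSg),
    (∀ i, T i ∈ X) → Nonempty (B ≃* prodSg T) →
    ∃ q < Nat.card B, ∃ T' : Fin (q + 1) → FinSg, (∀ i, T' i ∈ X) ∧ Nonempty (B ≃* prodSg T') := by
  intro k
  induction k with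
  | zero =>
    intro T hT e
    exact ⟨0, Nat.card_pos, T, hT, e⟩
  | succ k ih =>
    intro T hT e
    by_cases hk : k + 1 < Nat.card B
    · exact ⟨k + 1, hk, T, hT, e⟩
    · obtain ⟨e⟩ := e
      have hcard : Nat.card B = ∏ i, Nat.card (T i) := by
        rw [Nat.card_congr e.toEquiv]
        exact Nat.card_pi
      obtain ⟨i, hi⟩ : ∃ i, Nat.card (T i) = 1 := by
        by_contra hne
        push Not at hne
        have h2 : ∀ i, 2 ≤ Nat.card (T i) := by
          intro i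
          have h0 : 0 < Nat.card (T i) := Nat.card_pos
          have h1 := hne i
          omega
        have h3 : ∏ _i : Fin (k + 1 + 1), 2 ≤ ∏ i, Nat.card (T i) :=
          Finset.prod_le_prod' (fun i _ => h2 i)
        rw [Finset.prod_const, Finset.card_univ, Fintype.card_fin, ← hcard] at h3
        have h4 : k + 1 + 1 < 2 ^ (k + 1 + 1) := Nat.lt_two_pow_self
        omega
      obtain ⟨e2⟩ := dP_remove T i hi
      exact ih (fun j => T (i.succAbove j)) (fun j => hT _) ⟨e.trans e2⟩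

/-- the numerical condition -/
def dP_OK (n : ℕ) (l : List ℕ) (r : ℕ) (m c : ℕ → ℕ) (φ : ℕ → ℕ → ℕ) : Prop :=
  (∀ i < r, ∀ x < n, φ x i < m i) ∧
  (∀ i < r, ∀ x < n, ∀ y < n, φ (tmul n l x y) i = c i / (m i) ^ (φ x i * m i + φ y i) % m i) ∧
  (∀ x < n, ∀ y < n, (∀ i < r, φ x i = φ y i) → x = y) ∧
  ∀ w < (n + 1) ^ r, (∀ i < r, w / (n + 1) ^ i % (n + 1) < m i) →
    ∃ x < n, ∀ i < r, φ x i = w / (n + 1) ^ i % (n + 1)

theorem dP_tmul_dl {m c a b : ℕ} (ha : a < m) (hb : b < m) :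
    tmul m (dP_dl m (m * m) c) a b = c / m ^ (a * m + b) % m := by
  have hlt : a * m + b < (dP_dl m (m * m) c).length := by
    simp only [dP_dl, List.length_map, List.length_range]
    calc a * m + b < a * m + m := by omega
      _ = (a + 1) * m := by ring
      _ ≤ m * m := Nat.mul_le_mul_right _ ha
  unfold tmul
  rw [List.getD_eq_getElem _ _ hlt]
  simp only [dP_dl, List.getElem_map, List.getElem_range]

theorem dP_of_OK {X : Set FinSg} {n : ℕ} {l : List ℕ} (h : IsTable n l) (q : ℕ) (m c : ℕ → ℕ)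
    (φ : ℕ → ℕ → ℕ) (hm : ∀ i, m i < n + 1)
    (hX : ∀ i < q + 1, ∃ h' : IsTable (m i) (dP_dl (m i) (m i * m i) (c i)),
      tableSg (m i) (dP_dl (m i) (m i * m i) (c i)) h' ∈ X)
    (hO : dP_OK n l (q + 1) m c φ) : tableSg n l h ∈ opP X := by
  obtain ⟨h1, h2, h3, h4⟩ := hO
  choose hT hTX using hX
  let T : Fin (q + 1) → FinSg := fun i => tableSg (m i) _ (hT i i.2)
  let F : Fin n → (∀ i : Fin (q + 1), Fin (m i)) := fun x i => ⟨φ x i, h1 i i.2 x x.2⟩
  have hF : Bijective F := by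
    constructor
    · intro x y hxy
      apply Fin.ext
      refine h3 x x.2 y y.2 (fun i hi => ?_)
      exact congrArg Fin.val (congrFun hxy ⟨i, hi⟩)
    · intro y
      obtain ⟨w, hw, hd⟩ := dP_exists_digits (n + 1) (q + 1)
        (fun i => if hi : i < q + 1 then (y ⟨i, hi⟩ : ℕ) else 0) (by
          intro i hi
          rw [dif_pos hi]
          have a1 := (y ⟨i, hi⟩).2
          have a2 := hm i
          exact lt_trans a1 a2)
      have hd' : ∀ i (hi : i < q + 1), w / (n + 1) ^ i % (n + 1) = (y ⟨i, hi⟩ : ℕ) := by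
        intro i hi
        rw [hd i hi, dif_pos hi]
      obtain ⟨x, hx, hxe⟩ := h4 w hw (by
        intro i hi
        rw [hd' i hi]
        exact (y ⟨i, hi⟩).2)
      refine ⟨⟨x, hx⟩, ?_⟩
      funext i
      apply Fin.ext
      show φ x i = _
      rw [hxe i i.2, hd' i i.2]
  let F' : tableSg n l h → prodSg T := F
  have hmul : ∀ a b : tableSg n l h, F' (a * b) = F' a * F' b := by
    intro (a : Fin n) (b : Fin n)
    funext i
    apply Fin.ext
    show φ (tmul n l a b) i = tmul (m i) (dP_dl (m i) (m i * m i) (c i)) (φ a i) (φ b i)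
    rw [h2 i i.2 a a.2 b b.2, dP_tmul_dl (h1 i i.2 a a.2) (h1 i i.2 b b.2)]
  exact ⟨q, T, fun i => hTX i i.2, ⟨MulEquiv.mk' (Equiv.ofBijective F' hF) hmul⟩⟩

theorem dP_exists {X : Set FinSg} (hI : IsoC X) {n : ℕ} {l : List ℕ} (h : IsTable n l)
    (hm : tableSg n l h ∈ opP X) :
    ∃ q < n, ∃ M < (n + 1) ^ (q + 1), ∃ C < (n ^ (n * n) + 1) ^ (q + 1),
      (∀ i < q + 1, ∃ h' : IsTable (M / (n + 1) ^ i % (n + 1))
        (dP_dl (M / (n + 1) ^ i % (n + 1))
          ((M / (n + 1) ^ i % (n + 1)) * (M / (n + 1) ^ i % (n + 1)))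
          (C / (n ^ (n * n) + 1) ^ i % (n ^ (n * n) + 1))),
        tableSg _ _ h' ∈ X) ∧
      ∃ E < (n + 1) ^ (n * (q + 1)),
        dP_OK n l (q + 1) (fun i => M / (n + 1) ^ i % (n + 1))
          (fun i => C / (n ^ (n * n) + 1) ^ i % (n ^ (n * n) + 1))
          (fun x i => E / (n + 1) ^ (x * (q + 1) + i) % (n + 1)) := by
  obtain ⟨k, T0, hT0, e0⟩ := hm
  obtain ⟨q, hq, T, hT, ⟨e⟩⟩ := dP_reduce _ k T0 hT0 e0
  rw [dP_card_tableSg h] at hq
  choose l' h' φ' using fun i => dP_exists_table (T i)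
  obtain ⟨m, hmdef⟩ : ∃ m : Fin (q + 1) → ℕ, m = fun i => Nat.card (T i) := ⟨_, rfl⟩
  have h'' : ∀ i, IsTable (m i) (l' i) := by rw [hmdef]; exact h'
  have φ'' : ∀ i, Nonempty (T i ≃* tableSg (m i) (l' i) (h'' i)) := by
    subst hmdef; exact φ'
  have hmn : ∀ i, m i ≤ n := by
    intro i
    rw [hmdef]
    have hs : Surjective (fun x : tableSg n l h => e x i) := by
      intro y
      classical
      obtain ⟨x, hx⟩ := e.surjective
        (show prodSg T from (Function.update (fun j => (T j).ne.some) i y : ∀ j, T j))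
      refine ⟨x, ?_⟩
      show e x i = y
      rw [hx]
      exact Function.update_self (β := fun j => (T j).carrier) i y _
    have := Nat.card_le_card_of_surjective _ hs
    rwa [dP_card_tableSg h] at this
  clear φ'
  have φ : ∀ i, T i ≃* tableSg (m i) (l' i) (h'' i) := fun i => (φ'' i).some
  -- codes of the tables
  have hc : ∀ i, ∃ c < n ^ (n * n) + 1, dP_dl (m i) (m i * m i) c = l' i := by
    intro i
    obtain ⟨c, hc1, hc2⟩ := dP_exists_dl (m i) (l' i) (h'' i).2.2.1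
    rw [(h'' i).2.1] at hc1 hc2
    refine ⟨c, ?_, hc2⟩
    have h1 : (m i) ^ (m i * m i) ≤ n ^ (m i * m i) := Nat.pow_le_pow_left (hmn i) _
    have h2 : n ^ (m i * m i) ≤ n ^ (n * n) :=
      Nat.pow_le_pow_right h.1 (Nat.mul_le_mul (hmn i) (hmn i))
    omega
  choose c hc1 hc2 using hc
  obtain ⟨M, hM1, hM2⟩ := dP_exists_digits (n + 1) (q + 1)
    (fun i => if hi : i < q + 1 then m ⟨i, hi⟩ else 0) (by
      intro i hi
      rw [dif_pos hi]
      exact Nat.lt_succ_of_le (hmn _))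
  have hM : ∀ i : Fin (q + 1), M / (n + 1) ^ (i : ℕ) % (n + 1) = m i := by
    intro i
    rw [hM2 i i.2, dif_pos i.2]
  obtain ⟨C, hC1, hC2⟩ := dP_exists_digits (n ^ (n * n) + 1) (q + 1)
    (fun i => if hi : i < q + 1 then c ⟨i, hi⟩ else 0) (by
      intro i hi
      rw [dif_pos hi]
      exact hc1 _)
  have hC : ∀ i : Fin (q + 1), C / (n ^ (n * n) + 1) ^ (i : ℕ) % (n ^ (n * n) + 1) = c i := by
    intro i
    rw [hC2 i i.2, dif_pos i.2]
  -- the maps
  let p : Fin n → ∀ i : Fin (q + 1), Fin (m i) := fun x i => φ i (e (show tableSg n l h from x) i)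
  have hpm : ∀ (x y : Fin n) (i : Fin (q + 1)),
      (p ⟨tmul n l x y, tmul_lt h x y⟩ i : ℕ) = tmul (m i) (l' i) (p x i) (p y i) := by
    intro x y i
    have h1 : φ i (e ((show tableSg n l h from x) * (show tableSg n l h from y)) i) =
        φ i (e (show tableSg n l h from x) i) * φ i (e (show tableSg n l h from y) i) := by
      rw [map_mul]
      exact map_mul (φ i) _ _
    exact congrArg Fin.val h1
  have hpi : ∀ x y : Fin n, (∀ i, (p x i : ℕ) = p y i) → x = y := by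
    intro x y hxy
    apply e.injective
    funext i
    exact (φ i).injective (Fin.ext (hxy i))
  have hps : ∀ y : (∀ i : Fin (q + 1), Fin (m i)), ∃ x, ∀ i, p x i = y i := by
    intro y
    obtain ⟨x, hx⟩ := e.surjective (show prodSg T from fun i => (φ i).symm (show tableSg _ _ (h'' i) from y i))
    refine ⟨x, fun i => ?_⟩
    show φ i (e x i) = _
    rw [hx]
    exact (φ i).apply_symm_apply _
  obtain ⟨E, hE1, hE2⟩ := dP_exists_digits (n + 1) (n * (q + 1))
    (fun j => if hj : j / (q + 1) < n then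
      (p ⟨j / (q + 1), hj⟩ ⟨j % (q + 1), Nat.mod_lt _ (Nat.succ_pos q)⟩ : ℕ) else 0) (by
      intro j _
      show dite _ _ _ < n + 1
      split_ifs with hj
      · have a1 := (p ⟨j / (q + 1), hj⟩ ⟨j % (q + 1), Nat.mod_lt _ (Nat.succ_pos q)⟩).2
        have a2 := hmn ⟨j % (q + 1), Nat.mod_lt _ (Nat.succ_pos q)⟩
        omega
      · omega)
  have hE : ∀ (x : Fin n) (i : Fin (q + 1)),
      E / (n + 1) ^ ((x : ℕ) * (q + 1) + i) % (n + 1) = p x i := by
    intro x i
    have hlt : (x : ℕ) * (q + 1) + i < n * (q + 1) := by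
      calc (x : ℕ) * (q + 1) + i < (x : ℕ) * (q + 1) + (q + 1) := by have := i.2; omega
        _ = ((x : ℕ) + 1) * (q + 1) := by ring
        _ ≤ n * (q + 1) := Nat.mul_le_mul_right _ x.2
    have e1 : ((x : ℕ) * (q + 1) + i) / (q + 1) = x := by
      rw [Nat.mul_comm (x : ℕ) (q + 1), Nat.mul_add_div (Nat.succ_pos q), Nat.div_eq_of_lt i.2, add_zero]
    have e2 : ((x : ℕ) * (q + 1) + i) % (q + 1) = i := by
      rw [Nat.mul_add_mod_self_right]; exact Nat.mod_eq_of_lt i.2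
    have hj : ((x : ℕ) * (q + 1) + i) / (q + 1) < n := by rw [e1]; exact x.2
    rw [hE2 _ hlt]
    show dite _ _ _ = _
    rw [dif_pos hj]
    have e3 : (⟨((x : ℕ) * (q + 1) + i) / (q + 1), hj⟩ : Fin n) = x := Fin.ext e1
    have e4 : (⟨((x : ℕ) * (q + 1) + i) % (q + 1), Nat.mod_lt _ (Nat.succ_pos q)⟩ : Fin (q + 1)) = i :=
      Fin.ext e2
    rw [e3, e4]
  refine ⟨q, hq, M, hM1, C, hC1, ?_, E, hE1, ?_⟩
  · intro i hi
    have a1 := hM ⟨i, hi⟩
    have a2 := hC ⟨i, hi⟩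
    simp only at a1 a2
    rw [a1, a2, hc2 ⟨i, hi⟩]
    exact ⟨h'' _, hI _ (hT _) _ ⟨φ _⟩⟩
  · refine ⟨?_, ?_, ?_, ?_⟩
    · intro i hi x hx
      have a1 := hM ⟨i, hi⟩
      have a2 := hE ⟨x, hx⟩ ⟨i, hi⟩
      simp only at a1 a2 ⊢
      rw [a1, a2]
      exact (p _ _).2
    · intro i hi x hx y hy
      have a1 := hM ⟨i, hi⟩
      have a2 := hE ⟨x, hx⟩ ⟨i, hi⟩
      have a3 := hE ⟨y, hy⟩ ⟨i, hi⟩
      have a4 := hE ⟨tmul n l x y, tmul_lt h x y⟩ ⟨i, hi⟩
      have a5 := hC ⟨i, hi⟩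
      simp only at a1 a2 a3 a4 a5 ⊢
      rw [a1, a2, a3, a4, a5, ← dP_tmul_dl (p _ _).2 (p _ _).2, hc2]
      exact hpm ⟨x, hx⟩ ⟨y, hy⟩ ⟨i, hi⟩
    · intro x hx y hy hxy
      have := hpi ⟨x, hx⟩ ⟨y, hy⟩ (by
        intro i
        have a2 := hE ⟨x, hx⟩ i
        have a3 := hE ⟨y, hy⟩ i
        have a4 := hxy i i.2
        simp only at a2 a3 a4
        rw [← a2, ← a3, a4])
      exact congrArg Fin.val this
    · intro w hw hwd
      obtain ⟨x, hx⟩ := hps (fun i => ⟨w / (n + 1) ^ (i : ℕ) % (n + 1), by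
        have a1 := hwd i i.2
        have a2 := hM i
        simp only at a1
        rw [a2] at a1
        exact a1⟩)
      refine ⟨x, x.2, fun i hi => ?_⟩
      have a2 := hE x ⟨i, hi⟩
      simp only at a2 ⊢
      rw [a2, hx ⟨i, hi⟩]

section dPform

/-! environment: `v 0 = n`, `v 1 = q`, `v 2 = M`, `v 3 = C`, `v 4 = E` -/

def dP_n1 : dPTm := .add (.v 0) (.c 1)
def dP_r : dPTm := .add (.v 1) (.c 1)
def dP_N : dPTm := .add (.pow (.v 0) (.mul (.v 0) (.v 0))) (.c 1)
def dP_m (i : dPTm) : dPTm := .mod (.div (.v 2) (.pow dP_n1 i)) dP_n1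
def dP_c (i : dPTm) : dPTm := .mod (.div (.v 3) (.pow dP_N i)) dP_N
def dP_f (x i : dPTm) : dPTm := .mod (.div (.v 4) (.pow dP_n1 (.add (.mul x dP_r) i))) dP_n1
def dP_t (x y : dPTm) : dPTm := .lk (.add (.mul x (.v 0)) y)
def dP_w (w i : dPTm) : dPTm := .mod (.div w (.pow dP_n1 i)) dP_n1

def dP_main : dPFm :=
  .and (.all dP_r (.all (.v 0) (.lt (dP_f (.v 6) (.v 5)) (dP_m (.v 5)))))
  (.and (.all dP_r (.all (.v 0) (.all (.v 0) (.eq (dP_f (dP_t (.v 6) (.v 7)) (.v 5))
    (.mod (.div (dP_c (.v 5)) (.pow (dP_m (.v 5))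
      (.add (.mul (dP_f (.v 6) (.v 5)) (dP_m (.v 5))) (dP_f (.v 7) (.v 5))))) (dP_m (.v 5)))))))
  (.and (.all (.v 0) (.all (.v 0) (.imp (.all dP_r (.eq (dP_f (.v 5) (.v 7)) (dP_f (.v 6) (.v 7))))
    (.eq (.v 5) (.v 6)))))
  (.all (.pow dP_n1 dP_r) (.imp (.all dP_r (.lt (dP_w (.v 5) (.v 6)) (dP_m (.v 6))))
    (.ex (.v 0) (.all dP_r (.eq (dP_f (.v 6) (.v 7)) (dP_w (.v 5) (.v 7)))))))))

theorem dP_main_ho (l : List ℕ) (n q M C E : ℕ) : dP_main.ho l [n, q, M, C, E] ↔
    dP_OK n l (q + 1) (fun i => M / (n + 1) ^ i % (n + 1))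
          (fun i => C / (n ^ (n * n) + 1) ^ i % (n ^ (n * n) + 1))
          (fun x i => E / (n + 1) ^ (x * (q + 1) + i) % (n + 1)) := Iff.rfl

end dPform

theorem dP_iff {X : Set FinSg} (hI : IsoC X) (n : ℕ) (l : List ℕ) :
    (∃ ht : IsTable n l, tableSg n l ht ∈ opP X) ↔
      (IsTable n l ∧ ∃ q < n, ∃ M < (n + 1) ^ (q + 1), ∃ C < (n ^ (n * n) + 1) ^ (q + 1),
      (∀ i < q + 1, ∃ h' : IsTable (M / (n + 1) ^ i % (n + 1))
        (dP_dl (M / (n + 1) ^ i % (n + 1))
          ((M / (n + 1) ^ i % (n + 1)) * (M / (n + 1) ^ i % (n + 1)))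
          (C / (n ^ (n * n) + 1) ^ i % (n ^ (n * n) + 1))),
        tableSg _ _ h' ∈ X) ∧
      ∃ E < (n + 1) ^ (n * (q + 1)), dP_main.ho l [n, q, M, C, E]) := by
  constructor
  · rintro ⟨ht, hm⟩
    exact ⟨ht, dP_exists hI ht hm⟩
  · rintro ⟨ht, q, -, M, -, C, -, hX, E, -, hE⟩
    exact ⟨ht, dP_of_OK ht q _ _ _ (fun i => Nat.mod_lt _ (Nat.succ_pos n)) hX
      ((dP_main_ho l n q M C E).1 hE)⟩

/-! ### TARGET of this job: dec_P -/

theorem dec_P {X : Set FinSg} (hX : DecClass X) (hI : IsoC X) : DecClass (opP X) := by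
  unfold DecClass
  refine ComputablePred.of_eq (p := fun x : ℕ × List ℕ =>
      (IsTable x.1 x.2 ∧ ∃ q < x.1, ∃ M < (x.1 + 1) ^ (q + 1),
        ∃ C < (x.1 ^ (x.1 * x.1) + 1) ^ (q + 1),
      (∀ i < q + 1, ∃ h' : IsTable (M / (x.1 + 1) ^ i % (x.1 + 1))
        (dP_dl (M / (x.1 + 1) ^ i % (x.1 + 1))
          ((M / (x.1 + 1) ^ i % (x.1 + 1)) * (M / (x.1 + 1) ^ i % (x.1 + 1)))
          (C / (x.1 ^ (x.1 * x.1) + 1) ^ i % (x.1 ^ (x.1 * x.1) + 1))),
        tableSg _ _ h' ∈ X) ∧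
      ∃ E < (x.1 + 1) ^ (x.1 * (q + 1)), dP_main.ho x.2 [x.1, q, M, C, E])) ?_
    (fun x => (dP_iff hI x.1 x.2).symm)
  refine dP_andC (dP_ofPrim dP_isTablePrim) ?_
  refine dP_exLtC (f := fun x : ℕ × List ℕ => x.1) Computable.fst ?_
  have one : ∀ {α : Type} [Primcodable α] {f : α → ℕ}, Primrec f → Primrec (fun a => f a + 1) :=
    fun hf => Primrec.succ.comp hf
  refine dP_exLtC (f := fun x : (ℕ × List ℕ) × ℕ => (x.1.1 + 1) ^ (x.2 + 1)) ?_ ?_
  · exact (dP_powPrim.comp (one (Primrec.fst.comp Primrec.fst)) (one Primrec.snd)).to_comp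
  refine dP_exLtC (f := fun x : ((ℕ × List ℕ) × ℕ) × ℕ =>
    (x.1.1.1 ^ (x.1.1.1 * x.1.1.1) + 1) ^ (x.1.2 + 1)) ?_ ?_
  · have pn : Primrec fun x : ((ℕ × List ℕ) × ℕ) × ℕ => x.1.1.1 :=
      Primrec.fst.comp (Primrec.fst.comp Primrec.fst)
    exact (dP_powPrim.comp (one (dP_powPrim.comp pn (Primrec.nat_mul.comp pn pn)))
      (one (Primrec.snd.comp Primrec.fst))).to_comp
  -- projections from `(((ℕ × List ℕ) × ℕ) × ℕ) × ℕ`
  have pn : Primrec fun x : (((ℕ × List ℕ) × ℕ) × ℕ) × ℕ => x.1.1.1.1 :=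
    Primrec.fst.comp (Primrec.fst.comp (Primrec.fst.comp Primrec.fst))
  have pl : Primrec fun x : (((ℕ × List ℕ) × ℕ) × ℕ) × ℕ => x.1.1.1.2 :=
    Primrec.snd.comp (Primrec.fst.comp (Primrec.fst.comp Primrec.fst))
  have pq : Primrec fun x : (((ℕ × List ℕ) × ℕ) × ℕ) × ℕ => x.1.1.2 :=
    Primrec.snd.comp (Primrec.fst.comp Primrec.fst)
  have pM : Primrec fun x : (((ℕ × List ℕ) × ℕ) × ℕ) × ℕ => x.1.2 := Primrec.snd.comp Primrec.fst
  have pC : Primrec fun x : (((ℕ × List ℕ) × ℕ) × ℕ) × ℕ => x.2 := Primrec.snd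
  refine dP_andC ?_ ?_
  · refine dP_allLtC (f := fun x : (((ℕ × List ℕ) × ℕ) × ℕ) × ℕ => x.1.1.2 + 1)
      (one pq).to_comp ?_
    have qn : Primrec fun x : ((((ℕ × List ℕ) × ℕ) × ℕ) × ℕ) × ℕ => x.1.1.1.1.1 :=
      pn.comp Primrec.fst
    have qM : Primrec fun x : ((((ℕ × List ℕ) × ℕ) × ℕ) × ℕ) × ℕ => x.1.1.2 := pM.comp Primrec.fst
    have qC : Primrec fun x : ((((ℕ × List ℕ) × ℕ) × ℕ) × ℕ) × ℕ => x.1.2 := pC.comp Primrec.fst
    have qi : Primrec fun x : ((((ℕ × List ℕ) × ℕ) × ℕ) × ℕ) × ℕ => x.2 := Primrec.snd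
    have qm : Primrec fun x : ((((ℕ × List ℕ) × ℕ) × ℕ) × ℕ) × ℕ =>
        x.1.1.2 / (x.1.1.1.1.1 + 1) ^ x.2 % (x.1.1.1.1.1 + 1) :=
      Primrec.nat_mod.comp (Primrec.nat_div.comp qM (dP_powPrim.comp (one qn) qi)) (one qn)
    have qN : Primrec fun x : ((((ℕ × List ℕ) × ℕ) × ℕ) × ℕ) × ℕ =>
        x.1.1.1.1.1 ^ (x.1.1.1.1.1 * x.1.1.1.1.1) + 1 :=
      one (dP_powPrim.comp qn (Primrec.nat_mul.comp qn qn))
    have qc : Primrec fun x : ((((ℕ × List ℕ) × ℕ) × ℕ) × ℕ) × ℕ =>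
        x.1.2 / (x.1.1.1.1.1 ^ (x.1.1.1.1.1 * x.1.1.1.1.1) + 1) ^ x.2 %
          (x.1.1.1.1.1 ^ (x.1.1.1.1.1 * x.1.1.1.1.1) + 1) :=
      Primrec.nat_mod.comp (Primrec.nat_div.comp qC (dP_powPrim.comp qN qi)) qN
    have qL : Primrec fun x : ((((ℕ × List ℕ) × ℕ) × ℕ) × ℕ) × ℕ =>
        dP_dl (x.1.1.2 / (x.1.1.1.1.1 + 1) ^ x.2 % (x.1.1.1.1.1 + 1))
          ((x.1.1.2 / (x.1.1.1.1.1 + 1) ^ x.2 % (x.1.1.1.1.1 + 1)) *
            (x.1.1.2 / (x.1.1.1.1.1 + 1) ^ x.2 % (x.1.1.1.1.1 + 1)))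
          (x.1.2 / (x.1.1.1.1.1 ^ (x.1.1.1.1.1 * x.1.1.1.1.1) + 1) ^ x.2 %
            (x.1.1.1.1.1 ^ (x.1.1.1.1.1 * x.1.1.1.1.1) + 1)) := by
      unfold dP_dl
      refine Primrec.list_map (Primrec.list_range.comp (Primrec.nat_mul.comp qm qm)) ?_
      exact Primrec.nat_mod.comp (Primrec.nat_div.comp (qc.comp Primrec.fst)
        (dP_powPrim.comp (qm.comp Primrec.fst) Primrec.snd)) (qm.comp Primrec.fst)
    exact dP_compC hX (f := fun x : ((((ℕ × List ℕ) × ℕ) × ℕ) × ℕ) × ℕ =>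
      (x.1.1.2 / (x.1.1.1.1.1 + 1) ^ x.2 % (x.1.1.1.1.1 + 1),
        dP_dl (x.1.1.2 / (x.1.1.1.1.1 + 1) ^ x.2 % (x.1.1.1.1.1 + 1))
          ((x.1.1.2 / (x.1.1.1.1.1 + 1) ^ x.2 % (x.1.1.1.1.1 + 1)) *
            (x.1.1.2 / (x.1.1.1.1.1 + 1) ^ x.2 % (x.1.1.1.1.1 + 1)))
          (x.1.2 / (x.1.1.1.1.1 ^ (x.1.1.1.1.1 * x.1.1.1.1.1) + 1) ^ x.2 %
            (x.1.1.1.1.1 ^ (x.1.1.1.1.1 * x.1.1.1.1.1) + 1)))) (qm.pair qL).to_comp
  · apply dP_ofPrim
    refine dP_exLt (f := fun x : (((ℕ × List ℕ) × ℕ) × ℕ) × ℕ =>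
      (x.1.1.1.1 + 1) ^ (x.1.1.1.1 * (x.1.1.2 + 1)))
      (dP_powPrim.comp (one pn) (Primrec.nat_mul.comp pn (one pq))) ?_
    have r0 : Primrec fun x : ((((ℕ × List ℕ) × ℕ) × ℕ) × ℕ) × ℕ => x.1 := Primrec.fst
    have henv : Primrec fun x : ((((ℕ × List ℕ) × ℕ) × ℕ) × ℕ) × ℕ =>
        (x.1.1.1.1.2, [x.1.1.1.1.1, x.1.1.1.2, x.1.1.2, x.1.2, x.2]) :=
      (pl.comp r0).pair (Primrec.list_cons.comp (pn.comp r0) (Primrec.list_cons.comp (pq.comp r0)
        (Primrec.list_cons.comp (pM.comp r0) (Primrec.list_cons.comp (pC.comp r0)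
          (Primrec.list_cons.comp Primrec.snd (Primrec.const []))))))
    exact dP_main.prim.comp henv

end J11146

alias dec_P := J11146.dec_P

end

end Pool.Agent.H502.Bk
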