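import Pool.Agent.H502.BkSk
import Pool.Agent.H502.BkJ_alg_SZ
set_option autoImplicit false

namespace Pool.Agent.H502.Bk

section
open Function

namespace J11715

/-! ### TARGET of this job: dec_SZ -/

section aux352
open Primrec

theorem powPrim352 : Primrec₂ (fun a b : ℕ => a ^ b) := by
  refine (Primrec.nat_rec (f := fun _ : ℕ => 1) (g := fun a (p : ℕ × ℕ) => p.2 * a)
    (Primrec.const 1) ?_).of_eq ?_
  · exact (Primrec.nat_mul.comp (snd.comp snd) fst)
  · intro a n
    induction n with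
    | zero => rfl
    | succ n ih => rw [pow_succ, ← ih]

/-- terms of bounded arithmetic with a table -/
inductive Tm352 : Type
  | v (i : ℕ)
  | c (n : ℕ)
  | add (a b : Tm352)
  | mul (a b : Tm352)
  | div (a b : Tm352)
  | mod (a b : Tm352)
  | pow (a b : Tm352)
  | lk (a : Tm352)

def Tm352.ev (l e : List ℕ) : Tm352 → ℕ
  | v i => e.getD i 0
  | c n => n
  | add a b => a.ev l e + b.ev l e
  | mul a b => a.ev l e * b.ev l e
  | div a b => a.ev l e / b.ev l e
  | mod a b => a.ev l e % b.ev l e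
  | pow a b => a.ev l e ^ b.ev l e
  | lk a => l.getD (a.ev l e) 0

theorem Tm352.prim (t : Tm352) : Primrec fun p : List ℕ × List ℕ => t.ev p.1 p.2 := by
  induction t with
  | v i => exact (Primrec.list_getD 0).comp snd (Primrec.const i)
  | c n => exact Primrec.const n
  | add a b iha ihb => exact Primrec.nat_add.comp iha ihb
  | mul a b iha ihb => exact Primrec.nat_mul.comp iha ihb
  | div a b iha ihb => exact Primrec.nat_div.comp iha ihb
  | mod a b iha ihb => exact Primrec.nat_mod.comp iha ihb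
  | pow a b iha ihb => exact powPrim352.comp iha ihb
  | lk a ih => exact (Primrec.list_getD 0).comp fst ih

/-- bounded formulas; a quantifier appends its variable at the end of the environment -/
inductive Fm352 : Type
  | eq (a b : Tm352)
  | and (f g : Fm352)
  | imp (f g : Fm352)
  | not (f : Fm352)
  | all (b : Tm352) (f : Fm352)

def Fm352.ho (l : List ℕ) : Fm352 → List ℕ → Prop
  | eq a b, e => a.ev l e = b.ev l e
  | and f g, e => f.ho l e ∧ g.ho l e
  | imp f g, e => f.ho l e → g.ho l e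
  | not f, e => ¬ f.ho l e
  | all b f, e => ∀ x < b.ev l e, f.ho l (e ++ [x])

theorem allLt352 {α : Type} [Primcodable α] {f : α → ℕ} {P : α → ℕ → Prop} (hf : Primrec f)
    (hP : PrimrecPred fun p : α × ℕ => P p.1 p.2) : PrimrecPred (fun a => ∀ x < f a, P a x) := by
  have hR : PrimrecRel (fun (x : ℕ) (a : α) => P a x) := hP.comp (snd.pair fst)
  exact ((PrimrecRel.forall_mem_list hR).comp (Primrec.list_range.comp hf) Primrec.id).of_eq
    (fun a => by simp)

theorem allMem352 {α β : Type} [Primcodable α] [Primcodable β] {f : α → List β} {P : α → β → Prop}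
    (hf : Primrec f) (hP : PrimrecPred fun p : α × β => P p.1 p.2) :
    PrimrecPred (fun a => ∀ x ∈ f a, P a x) := by
  have hR : PrimrecRel (fun (x : β) (a : α) => P a x) := hP.comp (snd.pair fst)
  exact (PrimrecRel.forall_mem_list hR).comp hf Primrec.id

theorem Fm352.prim (f : Fm352) : PrimrecPred fun p : List ℕ × List ℕ => f.ho p.1 p.2 := by
  have happ : Primrec fun q : (List ℕ × List ℕ) × ℕ => (q.1.1, q.1.2 ++ [q.2]) :=
    (fst.comp fst).pair (Primrec.list_concat.comp (snd.comp fst) snd)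
  induction f with
  | eq a b => exact Primrec.eq.comp a.prim b.prim
  | and f g ihf ihg => exact ihf.and ihg
  | imp f g ihf ihg => exact (ihf.not.or ihg).of_eq (fun p => by simp only [Fm352.ho]; tauto)
  | not f ih => exact ih.not
  | all b f ih => exact allLt352 b.prim (ih.comp happ)

theorem tmulPrim352 {α : Type} [Primcodable α] {n i j : α → ℕ} {l : α → List ℕ} (hn : Primrec n)
    (hl : Primrec l) (hi : Primrec i) (hj : Primrec j) :
    Primrec (fun a => tmul (n a) (l a) (i a) (j a)) := by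
  unfold tmul
  exact (Primrec.list_getD 0).comp hl (Primrec.nat_add.comp (Primrec.nat_mul.comp hi hn) hj)

theorem isTablePrim352 : PrimrecPred fun x : ℕ × List ℕ => IsTable x.1 x.2 := by
  unfold IsTable
  refine PrimrecPred.and (Primrec.nat_lt.comp (Primrec.const 0) fst) (PrimrecPred.and
    (Primrec.eq.comp (Primrec.list_length.comp snd) (Primrec.nat_mul.comp fst fst))
    (PrimrecPred.and ?_ ?_))
  · exact allMem352 (f := fun x : ℕ × List ℕ => x.2) (P := fun x y => y < x.1) snd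
      (Primrec.nat_lt.comp snd (fst.comp fst))
  · refine allLt352 (f := fun x : ℕ × List ℕ => x.1) fst ?_
    refine allLt352 (f := fun x : (ℕ × List ℕ) × ℕ => x.1.1) (fst.comp fst) ?_
    refine allLt352 (f := fun x : ((ℕ × List ℕ) × ℕ) × ℕ => x.1.1.1) (fst.comp (fst.comp fst)) ?_
    have hn : Primrec fun x : (((ℕ × List ℕ) × ℕ) × ℕ) × ℕ => x.1.1.1.1 :=
      fst.comp (fst.comp (fst.comp fst))
    have hl : Primrec fun x : (((ℕ × List ℕ) × ℕ) × ℕ) × ℕ => x.1.1.1.2 :=
      snd.comp (fst.comp (fst.comp fst))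
    have hi : Primrec fun x : (((ℕ × List ℕ) × ℕ) × ℕ) × ℕ => x.1.1.2 :=
      snd.comp (fst.comp fst)
    have hj : Primrec fun x : (((ℕ × List ℕ) × ℕ) × ℕ) × ℕ => x.1.2 := snd.comp fst
    have hk : Primrec fun x : (((ℕ × List ℕ) × ℕ) × ℕ) × ℕ => x.2 := snd
    exact Primrec.eq.comp (tmulPrim352 hn hl (tmulPrim352 hn hl hi hj) hk)
      (tmulPrim352 hn hl hi (tmulPrim352 hn hl hj hk))

theorem exists_digits352 (N : ℕ) : ∀ (n : ℕ) (f : ℕ → ℕ), (∀ i < n, f i < N) →
    ∃ m < N ^ n, ∀ i < n, m / N ^ i % N = f i := by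
  intro n
  induction n with
  | zero => intro f _; exact ⟨0, by simp, by simp⟩
  | succ n ih =>
    intro f hf
    obtain ⟨m, hm, hd⟩ := ih f (fun i hi => hf i (by omega))
    have hN : 0 < N := lt_of_le_of_lt (Nat.zero_le _) (hf n (Nat.lt_succ_self n))
    refine ⟨m + f n * N ^ n, ?_, ?_⟩
    · have h1 := hf n (Nat.lt_succ_self n)
      have h2 : (f n + 1) * N ^ n ≤ N * N ^ n := Nat.mul_le_mul_right _ h1
      rw [pow_succ, mul_comm (N ^ n) N]
      rw [add_mul, one_mul] at h2
      omega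
    · intro i hi
      rcases Nat.lt_succ_iff_lt_or_eq.1 hi with h | h
      · have h3 : f n * N ^ n = N ^ i * (N * (f n * N ^ (n - i - 1))) := by
          have : N ^ n = N ^ i * (N * N ^ (n - i - 1)) := by
            rw [← pow_succ', ← pow_add]; congr 1; omega
          rw [this]; ring
        rw [h3, Nat.add_mul_div_left _ _ (pow_pos hN i), Nat.add_mul_mod_self_left]
        exact hd i h
      · subst h
        rw [Nat.add_mul_div_right _ _ (pow_pos hN i), Nat.div_eq_of_lt hm, zero_add]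
        exact Nat.mod_eq_of_lt (hf i (Nat.lt_succ_self i))

/-- product of the table -/
def mt352 (a b : Tm352) : Tm352 := .lk (.add (.mul a (.v 0)) b)

/-- membership in a coded set -/
def mem352 (a X : Tm352) : Fm352 := .eq (.mod (.div X (.pow (.c 2) a)) (.c 2)) (.c 1)

/-- formula for the row equivalence -/
def rowF352 : Fm352 :=
  .all (.pow (.c 2) (.v 0)) (.imp (.all (.v 0) (.all (.v 0)
    (.imp (.not (.eq (mt352 (.v 6) (.v 7)) (.v 1)))
      (.and (.imp (mem352 (.v 6) (.v 5)) (mem352 (mt352 (.v 6) (.v 7)) (.v 5)))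
        (.imp (mem352 (mt352 (.v 6) (.v 7)) (.v 5)) (mem352 (.v 6) (.v 5)))))))
    (.imp (mem352 (.v 2) (.v 5)) (mem352 (.v 3) (.v 5))))

/-- formula for the column equivalence -/
def colF352 : Fm352 :=
  .all (.pow (.c 2) (.v 0)) (.imp (.all (.v 0) (.all (.v 0)
    (.imp (.not (.eq (mt352 (.v 7) (.v 6)) (.v 1)))
      (.and (.imp (mem352 (.v 6) (.v 5)) (mem352 (mt352 (.v 7) (.v 6)) (.v 5)))
        (.imp (mem352 (mt352 (.v 7) (.v 6)) (.v 5)) (mem352 (.v 6) (.v 5)))))))
    (.imp (mem352 (.v 2) (.v 5)) (mem352 (.v 3) (.v 5))))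

theorem rowF_ho352 (l : List ℕ) (n d s t u : ℕ) : rowF352.ho l [n, d, s, t, u] ↔
    ∀ X < 2 ^ n, (∀ a < n, ∀ b < n, ¬ tmul n l a b = d →
      ((X / 2 ^ a % 2 = 1 → X / 2 ^ (tmul n l a b) % 2 = 1) ∧
        (X / 2 ^ (tmul n l a b) % 2 = 1 → X / 2 ^ a % 2 = 1))) →
      X / 2 ^ s % 2 = 1 → X / 2 ^ t % 2 = 1 := Iff.rfl

theorem colF_ho352 (l : List ℕ) (n d s t u : ℕ) : colF352.ho l [n, d, s, t, u] ↔
    ∀ X < 2 ^ n, (∀ a < n, ∀ b < n, ¬ tmul n l b a = d →
      ((X / 2 ^ a % 2 = 1 → X / 2 ^ (tmul n l b a) % 2 = 1) ∧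
        (X / 2 ^ (tmul n l b a) % 2 = 1 → X / 2 ^ a % 2 = 1))) →
      X / 2 ^ s % 2 = 1 → X / 2 ^ t % 2 = 1 := Iff.rfl

def c1_352 : Fm352 := .not (.eq (mt352 (.v 2) (.v 3)) (.v 1))
def c2_352 : Fm352 := .and (.not (.eq (mt352 (.v 4) (.v 2)) (.v 1)))
  (.not (.eq (mt352 (.v 2) (.v 3)) (.v 1)))
def c3_352 : Fm352 := .and (.not (.eq (mt352 (.v 2) (.v 3)) (.v 1)))
  (.not (.eq (mt352 (.v 3) (.v 4)) (.v 1)))
def c4_352 : Fm352 := .and (.not (.eq (.v 2) (.v 3))) (.and (.not (.eq (.v 2) (.v 1)))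
  (.and (.not (.eq (.v 3) (.v 1))) (.and rowF352 colF352)))

theorem c1_ho352 (l : List ℕ) (n d s t u : ℕ) : c1_352.ho l [n, d, s, t, u] ↔
    ¬ tmul n l s t = d := Iff.rfl
theorem c2_ho352 (l : List ℕ) (n d s t u : ℕ) : c2_352.ho l [n, d, s, t, u] ↔
    (¬ tmul n l u s = d ∧ ¬ tmul n l s t = d) := Iff.rfl
theorem c3_ho352 (l : List ℕ) (n d s t u : ℕ) : c3_352.ho l [n, d, s, t, u] ↔
    (¬ tmul n l s t = d ∧ ¬ tmul n l t u = d) := Iff.rfl
theorem c4_ho352 (l : List ℕ) (n d s t u : ℕ) : c4_352.ho l [n, d, s, t, u] ↔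
    (¬ s = t ∧ ¬ s = d ∧ ¬ t = d ∧ rowF352.ho l [n, d, s, t, u] ∧
      colF352.ho l [n, d, s, t, u]) := Iff.rfl

/-- formula for `ZCat` -/
def zF352 : Fm352 := .and
  (.all (.v 0) (.all (.v 0) (.imp (.eq (.v 2) (.v 1))
    (.and (.eq (mt352 (.v 2) (.v 3)) (.v 1)) (.eq (mt352 (.v 3) (.v 2)) (.v 1))))))
  (.all (.v 0) (.all (.v 0) (.all (.v 0) (.imp (.not (.eq (mt352 (.v 2) (.v 3)) (.v 1)))
    (.imp (.not (.eq (mt352 (.v 3) (.v 4)) (.v 1)))
      (.not (.eq (mt352 (mt352 (.v 2) (.v 3)) (.v 4)) (.v 1))))))))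

theorem zF_ho352 (l : List ℕ) (n d : ℕ) : zF352.ho l [n, d] ↔
    ((∀ s < n, ∀ t < n, s = d → tmul n l s t = d ∧ tmul n l t s = d) ∧
      ∀ u < n, ∀ s < n, ∀ t < n, ¬ tmul n l u s = d → ¬ tmul n l s t = d →
        ¬ tmul n l (tmul n l u s) t = d) := Iff.rfl

/-- the term for the variable `p a b` -/
def pT352 (a b : Tm352) : Tm352 := .add (.v 0) (.add (.mul a (.v 0)) b)

/-- word with two letters -/
def w2_352 (a b : Tm352) (l e : List ℕ) : Wd := [(a.ev l e, true), (b.ev l e, false)]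

/-- word with four letters -/
def w4_352 (a b c d : Tm352) (l e : List ℕ) : Wd :=
  [(a.ev l e, true), (b.ev l e, true), (c.ev l e, true), (d.ev l e, false)]

theorem w2_prim352 (a b : Tm352) : Primrec fun p : List ℕ × List ℕ => w2_352 a b p.1 p.2 :=
  Primrec.list_cons.comp (a.prim.pair (Primrec.const true))
    (Primrec.list_cons.comp (b.prim.pair (Primrec.const false)) (Primrec.const []))

theorem w4_prim352 (a b c d : Tm352) :
    Primrec fun p : List ℕ × List ℕ => w4_352 a b c d p.1 p.2 :=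
  Primrec.list_cons.comp (a.prim.pair (Primrec.const true))
    (Primrec.list_cons.comp (b.prim.pair (Primrec.const true))
      (Primrec.list_cons.comp (c.prim.pair (Primrec.const true))
        (Primrec.list_cons.comp (d.prim.pair (Primrec.const false)) (Primrec.const []))))

open Classical in
/-- the literals for one index -/
noncomputable def lits352 (l e : List ℕ) : List Lit :=
  [if c1_352.ho l e then
      (false, w4_352 (.v 2) (pT352 (.v 2) (.v 3)) (.v 3) (mt352 (.v 2) (.v 3)) l e)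
    else (false, []),
   if c2_352.ho l e then
      (false, w2_352 (pT352 (mt352 (.v 4) (.v 2)) (.v 3)) (pT352 (.v 2) (.v 3)) l e)
    else (false, []),
   if c3_352.ho l e then
      (false, w2_352 (pT352 (.v 2) (mt352 (.v 3) (.v 4))) (pT352 (.v 2) (.v 3)) l e)
    else (false, []),
   if c4_352.ho l e then (true, w2_352 (.v 2) (.v 3) l e) else (false, [])]

theorem lits_prim352 : Primrec fun p : List ℕ × List ℕ => lits352 p.1 p.2 := by
  classical
  unfold lits352
  refine Primrec.list_cons.comp ?_ (Primrec.list_cons.comp ?_ (Primrec.list_cons.comp ?_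
    (Primrec.list_cons.comp ?_ (Primrec.const []))))
  · exact Primrec.ite c1_352.prim ((Primrec.const false).pair (w4_prim352 _ _ _ _))
      (Primrec.const _)
  · exact Primrec.ite c2_352.prim ((Primrec.const false).pair (w2_prim352 _ _))
      (Primrec.const _)
  · exact Primrec.ite c3_352.prim ((Primrec.const false).pair (w2_prim352 _ _))
      (Primrec.const _)
  · exact Primrec.ite c4_352.prim ((Primrec.const true).pair (w2_prim352 _ _))
      (Primrec.const _)

/-- the environment -/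
def env352 (n d i : ℕ) : List ℕ := [n, d, i / n / n, i / n % n, i % n]

/-- the clause -/
noncomputable def cl352 (l : List ℕ) (n d : ℕ) : List Lit :=
  (List.range (n * n * n)).flatMap fun i => lits352 l (env352 n d i)

open Classical in
/-- the conjunctive normal form -/
noncomputable def phi352 (n : ℕ) (l : List ℕ) : Cnf :=
  (List.range (n + 1)).map fun d => if zF352.ho l [n, d] then cl352 l n d else [(true, [])]

theorem phi_prim352 : Primrec fun x : ℕ × List ℕ => phi352 x.1 x.2 := by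
  classical
  unfold phi352
  refine Primrec.list_map (Primrec.list_range.comp (Primrec.succ.comp fst)) ?_
  have h1 : Primrec fun q : (ℕ × List ℕ) × ℕ => (q.1.2, [q.1.1, q.2]) :=
    (snd.comp fst).pair (Primrec.list_cons.comp (fst.comp fst)
      (Primrec.list_cons.comp snd (Primrec.const [])))
  refine Primrec.ite (zF352.prim.comp h1) ?_ (Primrec.const _)
  unfold cl352
  refine Primrec.list_flatMap (f := fun q : (ℕ × List ℕ) × ℕ => List.range (q.1.1 * q.1.1 * q.1.1))
    (g := fun (q : (ℕ × List ℕ) × ℕ) (i : ℕ) => lits352 q.1.2 (env352 q.1.1 q.2 i)) ?_ ?_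
  · exact Primrec.list_range.comp (Primrec.nat_mul.comp
      (Primrec.nat_mul.comp (fst.comp fst) (fst.comp fst)) (fst.comp fst))
  · have hn : Primrec fun q : ((ℕ × List ℕ) × ℕ) × ℕ => q.1.1.1 := fst.comp (fst.comp fst)
    have hl : Primrec fun q : ((ℕ × List ℕ) × ℕ) × ℕ => q.1.1.2 := snd.comp (fst.comp fst)
    have hd : Primrec fun q : ((ℕ × List ℕ) × ℕ) × ℕ => q.1.2 := snd.comp fst
    have hi : Primrec fun q : ((ℕ × List ℕ) × ℕ) × ℕ => q.2 := snd
    refine lits_prim352.comp (g := fun q : ((ℕ × List ℕ) × ℕ) × ℕ =>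
      (q.1.1.2, env352 q.1.1.1 q.1.2 q.2)) (hl.pair ?_)
    unfold env352
    have hdiv := Primrec.nat_div.comp hi hn
    exact Primrec.list_cons.comp hn (Primrec.list_cons.comp hd
      (Primrec.list_cons.comp (Primrec.nat_div.comp hdiv hn)
        (Primrec.list_cons.comp (Primrec.nat_mod.comp hdiv hn)
          (Primrec.list_cons.comp (Primrec.nat_mod.comp hi hn) (Primrec.const [])))))

end aux352

section sem352

theorem lit_nil352 {G : Type} [Group G] (v : ℕ → G) : ¬ Lit.ho v (false, []) := by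
  simp [Lit.ho, Wd.ev]

theorem lit_true352 {G : Type} [Group G] (v : ℕ → G) : Lit.ho v (true, []) := by
  simp [Lit.ho, Wd.ev]

open Classical in
theorem lit_ite352 {G : Type} [Group G] (v : ℕ → G) (c : Prop) (L : Lit) :
    ¬ Lit.ho v (if c then L else (false, [])) ↔ (c → ¬ Lit.ho v L) := by
  by_cases h : c
  · simp [h]
  · simp only [h, if_false]
    exact ⟨fun _ h => h.elim, fun _ => lit_nil352 v⟩

theorem w4_ev352 {G : Type} [Group G] (v : ℕ → G) (a b c d : Tm352) (l e : List ℕ) :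
    ¬ Lit.ho v (false, w4_352 a b c d l e) ↔
      v (a.ev l e) * v (b.ev l e) * v (c.ev l e) = v (d.ev l e) := by
  have h : Wd.ev v (w4_352 a b c d l e) =
      v (a.ev l e) * v (b.ev l e) * v (c.ev l e) * (v (d.ev l e))⁻¹ := by
    simp [Wd.ev, w4_352, mul_assoc]
  simp only [Lit.ho, h, Bool.false_eq_true, if_false, not_not, ne_eq]
  exact mul_inv_eq_one

theorem w2_ev352 {G : Type} [Group G] (v : ℕ → G) (a b : Tm352) (l e : List ℕ) :
    ¬ Lit.ho v (false, w2_352 a b l e) ↔ v (a.ev l e) = v (b.ev l e) := by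
  have h : Wd.ev v (w2_352 a b l e) = v (a.ev l e) * (v (b.ev l e))⁻¹ := by
    simp [Wd.ev, w2_352]
  simp only [Lit.ho, h, Bool.false_eq_true, if_false, not_not, ne_eq]
  exact mul_inv_eq_one

theorem w2_ev_true352 {G : Type} [Group G] (v : ℕ → G) (a b : Tm352) (l e : List ℕ) :
    ¬ Lit.ho v (true, w2_352 a b l e) ↔ v (a.ev l e) ≠ v (b.ev l e) := by
  have h : Wd.ev v (w2_352 a b l e) = v (a.ev l e) * (v (b.ev l e))⁻¹ := by
    simp [Wd.ev, w2_352]
  simp only [Lit.ho, h, if_true, ne_eq]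
  exact not_congr mul_inv_eq_one

/-- the system of equations in terms of a valuation -/
def Sys352 {G : Type} [Group G] (v : ℕ → G) (l : List ℕ) (n d s t u : ℕ) : Prop :=
  (¬ tmul n l s t = d → v s * v (n + (s * n + t)) * v t = v (tmul n l s t)) ∧
  (¬ tmul n l u s = d ∧ ¬ tmul n l s t = d →
    v (n + (tmul n l u s * n + t)) = v (n + (s * n + t))) ∧
  (¬ tmul n l s t = d ∧ ¬ tmul n l t u = d →
    v (n + (s * n + tmul n l t u)) = v (n + (s * n + t))) ∧
  ((¬ s = t ∧ ¬ s = d ∧ ¬ t = d ∧ rowF352.ho l [n, d, s, t, u] ∧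
      colF352.ho l [n, d, s, t, u]) → v s ≠ v t)

theorem lits_sem352 {G : Type} [Group G] (v : ℕ → G) (l : List ℕ) (n d s t u : ℕ) :
    (¬ ∃ L ∈ lits352 l [n, d, s, t, u], Lit.ho v L) ↔ Sys352 v l n d s t u := by
  classical
  unfold lits352 Sys352
  simp only [List.mem_cons, List.not_mem_nil, or_false, exists_eq_or_imp, exists_eq_left,
    not_or, lit_ite352, w4_ev352, w2_ev352, w2_ev_true352]
  exact Iff.rfl

theorem digits3_352 {n s t u : ℕ} (hs : s < n) (ht : t < n) (hu : u < n) :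
    ∃ i < n * n * n, i / n / n = s ∧ i / n % n = t ∧ i % n = u := by
  have hn : 0 < n := by omega
  refine ⟨u + n * (t + n * s), ?_, ?_, ?_, ?_⟩
  · have h1 : t + n * s < n * n := by
      have : n * (s + 1) ≤ n * n := Nat.mul_le_mul_left n hs
      rw [Nat.mul_add, Nat.mul_one] at this
      omega
    have h2 : n * (t + n * s + 1) ≤ n * (n * n) := Nat.mul_le_mul_left n h1
    rw [Nat.mul_add, Nat.mul_one, ← Nat.mul_assoc] at h2
    omega
  · rw [Nat.add_mul_div_left _ _ hn, Nat.div_eq_of_lt hu, Nat.zero_add,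
      Nat.add_mul_div_left _ _ hn, Nat.div_eq_of_lt ht, Nat.zero_add]
  · rw [Nat.add_mul_div_left _ _ hn, Nat.div_eq_of_lt hu, Nat.zero_add,
      Nat.add_mul_mod_self_left, Nat.mod_eq_of_lt ht]
  · rw [Nat.add_mul_mod_self_left, Nat.mod_eq_of_lt hu]

theorem cl_sem352 {G : Type} [Group G] (v : ℕ → G) (l : List ℕ) (n d : ℕ) :
    (¬ ∃ L ∈ cl352 l n d, Lit.ho v L) ↔
      ∀ s < n, ∀ t < n, ∀ u < n, Sys352 v l n d s t u := by
  unfold cl352
  simp only [List.mem_flatMap, List.mem_range]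
  constructor
  · intro h s hs t ht u hu
    obtain ⟨i, hi, h1, h2, h3⟩ := digits3_352 hs ht hu
    rw [← lits_sem352]
    rintro ⟨L, hL, hv⟩
    refine h ⟨L, ⟨i, hi, ?_⟩, hv⟩
    unfold env352
    rw [h1, h2, h3]
    exact hL
  · rintro h ⟨L, ⟨i, hi, hL⟩, hv⟩
    have hn : 0 < n := by
      rcases Nat.eq_zero_or_pos n with h0 | h0
      · subst h0; simp at hi
      · exact h0
    have hs : i / n / n < n := by
      rw [Nat.div_lt_iff_lt_mul hn, Nat.div_lt_iff_lt_mul hn]
      exact hi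
    exact (lits_sem352 v l n d _ _ _).2 (h _ hs _ (Nat.mod_lt _ hn) _ (Nat.mod_lt _ hn))
      ⟨L, hL, hv⟩

theorem eqv352 {n : ℕ} (R0 : Fin n → Fin n → Prop) (s t : Fin n) :
    Relation.EqvGen R0 s t ↔ ∀ X < 2 ^ n, (∀ a b : Fin n, R0 a b →
      (X / 2 ^ a.1 % 2 = 1 ↔ X / 2 ^ b.1 % 2 = 1)) →
      X / 2 ^ s.1 % 2 = 1 → X / 2 ^ t.1 % 2 = 1 := by
  classical
  constructor
  · intro h X hX hc
    have : X / 2 ^ s.1 % 2 = 1 ↔ X / 2 ^ t.1 % 2 = 1 := by
      induction h with
      | rel a b hab => exact hc a b hab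
      | refl a => exact Iff.rfl
      | symm a b _ ih => exact ih.symm
      | trans a b c _ _ ih1 ih2 => exact ih1.trans ih2
    exact this.1
  · intro H
    obtain ⟨X, hX, hd⟩ := exists_digits352 2 n
      (fun i => if ∃ hi : i < n, Relation.EqvGen R0 s ⟨i, hi⟩ then 1 else 0)
      (fun i _ => by split_ifs <;> omega)
    have hm : ∀ a : Fin n, X / 2 ^ a.1 % 2 = 1 ↔ Relation.EqvGen R0 s a := by
      intro a
      rw [hd a.1 a.2]
      constructor
      · intro h
        by_contra hc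
        rw [if_neg] at h
        · omega
        · rintro ⟨_, h2⟩
          exact hc h2
      · intro h
        rw [if_pos ⟨a.2, h⟩]
    have h1 := H X hX (fun a b hab => by
      rw [hm, hm]
      exact ⟨fun h => h.trans _ _ _ (.rel _ _ hab), fun h => h.trans _ _ _ (.symm _ _ (.rel _ _ hab))⟩)
      ((hm s).2 (.refl _))
    exact (hm t).1 h1

/-- the set coded by `d` -/
def Zd352 (n : ℕ) (l : List ℕ) (h : IsTable n l) (d : ℕ) : tableSg n l h → Prop :=
  fun x : Fin n => x.1 = d

theorem row352 {n : ℕ} {l : List ℕ} (h : IsTable n l) (d : ℕ) (s t : Fin n) (u : ℕ) :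
    RowE (Zd352 n l h d) (s : tableSg n l h) (t : tableSg n l h) ↔
      rowF352.ho l [n, d, s.1, t.1, u] := by
  rw [rowF_ho352]
  unfold RowE
  refine (eqv352 (n := n) _ s t).trans ?_
  refine forall₂_congr fun X _ => ?_
  refine imp_congr ?_ Iff.rfl
  constructor
  · intro H a ha b hb hne
    have := H ⟨a, ha⟩ ⟨tmul n l a b, tmul_lt h a b⟩ ⟨(⟨b, hb⟩ : Fin n), rfl, hne⟩
    exact ⟨this.1, this.2⟩
  · rintro H a b ⟨v, rfl, hne⟩
    have := H a.1 a.2 (show Fin n from v).1 (show Fin n from v).2 hne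
    exact ⟨this.1, this.2⟩

theorem col352 {n : ℕ} {l : List ℕ} (h : IsTable n l) (d : ℕ) (s t : Fin n) (u : ℕ) :
    ColE (Zd352 n l h d) (s : tableSg n l h) (t : tableSg n l h) ↔
      colF352.ho l [n, d, s.1, t.1, u] := by
  rw [colF_ho352]
  unfold ColE
  refine (eqv352 (n := n) _ s t).trans ?_
  refine forall₂_congr fun X _ => ?_
  refine imp_congr ?_ Iff.rfl
  constructor
  · intro H a ha b hb hne
    have := H ⟨a, ha⟩ ⟨tmul n l b a, tmul_lt h b a⟩ ⟨(⟨b, hb⟩ : Fin n), rfl, hne⟩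
    exact ⟨this.1, this.2⟩
  · rintro H a b ⟨v, rfl, hne⟩
    have := H a.1 a.2 (show Fin n from v).1 (show Fin n from v).2 hne
    exact ⟨this.1, this.2⟩

theorem zcat352 {n : ℕ} {l : List ℕ} (h : IsTable n l) (d : ℕ) :
    ZCat (Zd352 n l h d) ↔ zF352.ho l [n, d] := by
  rw [zF_ho352]
  constructor
  · rintro ⟨h1, _, h3⟩
    refine ⟨fun s hs t ht hsd => h1 (⟨s, hs⟩ : Fin n) (⟨t, ht⟩ : Fin n) hsd, ?_⟩
    intro u hu s hs t ht ha hb
    exact h3 (⟨u, hu⟩ : Fin n) (⟨s, hs⟩ : Fin n) (⟨t, ht⟩ : Fin n) ha hb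
  · rintro ⟨h1, h3⟩
    refine ⟨fun s t hs => h1 (show Fin n from s).1 (show Fin n from s).2 (show Fin n from t).1
      (show Fin n from t).2 hs, fun s t hs ht => Fin.ext (hs.trans ht.symm), ?_⟩
    intro u s t ha hb
    exact h3 (show Fin n from u).1 (show Fin n from u).2 (show Fin n from s).1
      (show Fin n from s).2 (show Fin n from t).1 (show Fin n from t).2 ha hb

theorem zd_of_zcat352 {n : ℕ} {l : List ℕ} (h : IsTable n l) (Z : tableSg n l h → Prop)
    (hZ : ZCat Z) : ∃ d < n + 1, Z = Zd352 n l h d := by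
  by_cases he : ∃ z, Z z
  · obtain ⟨z, hz⟩ := he
    refine ⟨(show Fin n from z).1, Nat.lt_succ_of_lt (show Fin n from z).2, ?_⟩
    funext x
    apply propext
    constructor
    · intro hx
      rw [hZ.2.1 x z hx hz]
      rfl
    · intro hx
      have : x = z := Fin.ext hx
      rw [this]
      exact hz
  · refine ⟨n, Nat.lt_succ_self n, ?_⟩
    funext x
    apply propext
    constructor
    · intro hx
      exact (he ⟨x, hx⟩).elim
    · intro hx
      exact absurd hx (Nat.ne_of_lt (show Fin n from x).2)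

theorem sys352 {n : ℕ} {l : List ℕ} (h : IsTable n l) (d : ℕ) (G : Type) [Group G] :
    (∃ (g : tableSg n l h → G) (p : tableSg n l h → tableSg n l h → G),
      SZsol (Zd352 n l h d) g p) ↔
    ∃ v : ℕ → G, ∀ s < n, ∀ t < n, ∀ u < n, Sys352 v l n d s t u := by
  classical
  constructor
  · rintro ⟨g, p, h1, h2, h3, h4⟩
    have hn : 0 < n := h.1
    let gg : Fin n → G := g
    let pp : Fin n → Fin n → G := p
    let v : ℕ → G := fun m => if hm : m < n then gg ⟨m, hm⟩ else
      if hq : (m - n) / n < n then pp ⟨(m - n) / n, hq⟩ ⟨(m - n) % n, Nat.mod_lt _ hn⟩ else 1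
    have hv1 : ∀ m (hm : m < n), v m = gg ⟨m, hm⟩ := fun m hm => dif_pos hm
    have hv2 : ∀ a (ha : a < n) b (hb : b < n), v (n + (a * n + b)) = pp ⟨a, ha⟩ ⟨b, hb⟩ := by
      intro a ha b hb
      have e0 : n + (a * n + b) - n = a * n + b := by omega
      have e1 : (a * n + b) / n = a := by
        rw [Nat.add_comm, Nat.add_mul_div_right _ _ hn, Nat.div_eq_of_lt hb, Nat.zero_add]
      have e2 : (a * n + b) % n = b := by
        rw [Nat.add_comm, Nat.add_mul_mod_self_right, Nat.mod_eq_of_lt hb]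
      have e3 : ¬ n + (a * n + b) < n := by omega
      show (if hm : n + (a * n + b) < n then gg ⟨n + (a * n + b), hm⟩ else
        if hq : (n + (a * n + b) - n) / n < n then
          pp ⟨(n + (a * n + b) - n) / n, hq⟩ ⟨(n + (a * n + b) - n) % n, Nat.mod_lt _ hn⟩
          else 1) = _
      rw [dif_neg e3, dif_pos (by rw [e0, e1]; exact ha)]
      congr 1
      · apply Fin.ext
        show (n + (a * n + b) - n) / n = a
        rw [e0, e1]
      · apply Fin.ext
        show (n + (a * n + b) - n) % n = b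
        rw [e0, e2]
    refine ⟨v, fun s hs t ht u hu => ⟨?_, ?_, ?_, ?_⟩⟩
    · intro hne
      rw [hv1 s hs, hv1 t ht, hv2 s hs t ht, hv1 _ (tmul_lt h s t)]
      exact h1 (⟨s, hs⟩ : Fin n) (⟨t, ht⟩ : Fin n) hne
    · rintro ⟨ha, hb⟩
      rw [hv2 _ (tmul_lt h u s) t ht, hv2 s hs t ht]
      exact h2 (⟨u, hu⟩ : Fin n) (⟨s, hs⟩ : Fin n) (⟨t, ht⟩ : Fin n) ha hb
    · rintro ⟨ha, hb⟩
      rw [hv2 s hs _ (tmul_lt h t u), hv2 s hs t ht]
      exact h3 (⟨s, hs⟩ : Fin n) (⟨t, ht⟩ : Fin n) (⟨u, hu⟩ : Fin n) ha hb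
    · rintro ⟨ha, hb, hc, hr, hcl⟩
      rw [hv1 s hs, hv1 t ht]
      refine h4 (⟨s, hs⟩ : Fin n) (⟨t, ht⟩ : Fin n) (fun he => ha (congrArg Fin.val he)) hb hc
        ((row352 h d _ _ u).2 hr) ((col352 h d _ _ u).2 hcl)
  · rintro ⟨v, hv⟩
    refine ⟨fun s => v (show Fin n from s).1,
      fun s t => v (n + ((show Fin n from s).1 * n + (show Fin n from t).1)), ?_, ?_, ?_, ?_⟩
    · intro s t hne
      exact (hv (show Fin n from s).1 (show Fin n from s).2 (show Fin n from t).1
        (show Fin n from t).2 (show Fin n from t).1 (show Fin n from t).2).1 hne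
    · intro u s t ha hb
      exact (hv (show Fin n from s).1 (show Fin n from s).2 (show Fin n from t).1
        (show Fin n from t).2 (show Fin n from u).1 (show Fin n from u).2).2.1 ⟨ha, hb⟩
    · intro s t u ha hb
      exact (hv (show Fin n from s).1 (show Fin n from s).2 (show Fin n from t).1
        (show Fin n from t).2 (show Fin n from u).1 (show Fin n from u).2).2.2.1 ⟨ha, hb⟩
    · intro s t hst ha hb hr hc
      exact (hv (show Fin n from s).1 (show Fin n from s).2 (show Fin n from t).1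
        (show Fin n from t).2 (show Fin n from t).1 (show Fin n from t).2).2.2.2
        ⟨fun he => hst (Fin.ext he), ha, hb, (row352 h d _ _ _).1 hr, (col352 h d _ _ _).1 hc⟩

theorem phi_sem352 (V : PV) {n : ℕ} {l : List ℕ} (h : IsTable n l) :
    tableSg n l h ∈ opS (ZSO V) ↔
      ¬ ∀ (G : Type) [Group G], V.mem G → ∀ v : ℕ → G, Cnf.ho v (phi352 n l) := by
  classical
  rw [alg_SZ]
  constructor
  · rintro ⟨Z, hZ, G, iG, hG, g, p, hsol⟩ H
    obtain ⟨d, hd, rfl⟩ := zd_of_zcat352 h Z hZ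
    obtain ⟨v, hv⟩ := (sys352 h d G).1 ⟨g, p, hsol⟩
    have h1 := H G hG v (cl352 l n d) (by
      unfold phi352
      rw [List.mem_map]
      exact ⟨d, List.mem_range.2 hd, if_pos ((zcat352 h d).1 hZ)⟩)
    exact (cl_sem352 v l n d).2 hv h1
  · intro H
    push Not at H
    obtain ⟨G, iG, hG, v, hv⟩ := H
    unfold Cnf.ho phi352 at hv
    push Not at hv
    obtain ⟨c, hc, hcl⟩ := hv
    rw [List.mem_map] at hc
    obtain ⟨d, hd, hdc⟩ := hc
    by_cases hz : zF352.ho l [n, d]
    · rw [if_pos hz] at hdc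
      subst hdc
      have h2 : ¬ ∃ L ∈ cl352 l n d, Lit.ho v L := by
        push Not
        exact hcl
      obtain ⟨g, p, hs⟩ := (sys352 h d G).2 ⟨v, (cl_sem352 v l n d).1 h2⟩
      exact ⟨Zd352 n l h d, (zcat352 h d).2 hz, G, iG, hG, g, p, hs⟩
    · rw [if_neg hz] at hdc
      subst hdc
      exact absurd (lit_true352 v) (hcl _ (by simp))

end sem352

theorem dec_SZ (V : PV) (hV : V.DecUniv) : DecClass (opS (ZSO V)) := by
  classical
  obtain ⟨f, hf, he⟩ := ComputablePred.computable_iff.1 hV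
  obtain ⟨i1, h1⟩ := isTablePrim352
  unfold DecClass
  rw [ComputablePred.computable_iff]
  refine ⟨fun x => (decide (IsTable x.1 x.2)) && !(f (phi352 x.1 x.2)), ?_, ?_⟩
  · exact Primrec.and.to_comp.comp h1.to_comp
      (Primrec.not.to_comp.comp (hf.comp phi_prim352.to_comp))
  · funext x
    apply propext
    have hx := congrFun he (phi352 x.1 x.2)
    constructor
    · rintro ⟨ht, hm⟩
      have h2 := (phi_sem352 V ht).1 hm
      have h3 : f (phi352 x.1 x.2) = false := by
        by_contra h4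
        exact h2 (hx.mpr (Bool.not_eq_false _ ▸ h4))
      simp [ht, h3]
    · intro h2
      rw [Bool.and_eq_true, Bool.not_eq_true', decide_eq_true_eq] at h2
      refine ⟨h2.1, (phi_sem352 V h2.1).2 fun h4 => ?_⟩
      have h5 : f (phi352 x.1 x.2) = true := hx.mp h4
      rw [h5] at h2
      exact Bool.noConfusion h2.2

end J11715

alias dec_SZ := J11715.dec_SZ

end

end Pool.Agent.H502.Bk
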