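import Pool.Agent.H502.BkSk
set_option autoImplicit false

namespace Pool.Agent.H502.Bk

section
open Function

namespace J11148

/-! ### TARGET of this job: dec_ZSO -/

section dec_ZSO_prim
open Primrec

theorem dec_ZSO_allLt {α : Type} [Primcodable α] {f : α → ℕ} {P : α → ℕ → Prop} (hf : Primrec f)
    (hP : PrimrecPred fun p : α × ℕ => P p.1 p.2) : PrimrecPred (fun a => ∀ x < f a, P a x) := by
  have hR : PrimrecRel (fun (x : ℕ) (a : α) => P a x) := hP.comp (snd.pair fst)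
  exact ((PrimrecRel.forall_mem_list hR).comp (Primrec.list_range.comp hf) Primrec.id).of_eq
    (fun a => by simp)

theorem dec_ZSO_exLt {α : Type} [Primcodable α] {f : α → ℕ} {P : α → ℕ → Prop} (hf : Primrec f)
    (hP : PrimrecPred fun p : α × ℕ => P p.1 p.2) : PrimrecPred (fun a => ∃ x < f a, P a x) := by
  have hR : PrimrecRel (fun (x : ℕ) (a : α) => P a x) := hP.comp (snd.pair fst)
  exact ((PrimrecRel.exists_mem_list hR).comp (Primrec.list_range.comp hf) Primrec.id).of_eq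
    (fun a => by simp)

theorem dec_ZSO_allMem {α β : Type} [Primcodable α] [Primcodable β] {f : α → List β}
    {P : α → β → Prop}
    (hf : Primrec f) (hP : PrimrecPred fun p : α × β => P p.1 p.2) :
    PrimrecPred (fun a => ∀ x ∈ f a, P a x) := by
  have hR : PrimrecRel (fun (x : β) (a : α) => P a x) := hP.comp (snd.pair fst)
  exact (PrimrecRel.forall_mem_list hR).comp hf Primrec.id

theorem dec_ZSO_tmulPrim {α : Type} [Primcodable α] {n i j : α → ℕ} {l : α → List ℕ}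
    (hn : Primrec n)
    (hl : Primrec l) (hi : Primrec i) (hj : Primrec j) :
    Primrec (fun a => tmul (n a) (l a) (i a) (j a)) := by
  unfold tmul
  exact (Primrec.list_getD 0).comp hl (Primrec.nat_add.comp (Primrec.nat_mul.comp hi hn) hj)

theorem dec_ZSO_isTablePrim : PrimrecPred fun x : ℕ × List ℕ => IsTable x.1 x.2 := by
  unfold IsTable
  refine PrimrecPred.and (Primrec.nat_lt.comp (Primrec.const 0) fst) (PrimrecPred.and
    (Primrec.eq.comp (Primrec.list_length.comp snd) (Primrec.nat_mul.comp fst fst))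
    (PrimrecPred.and ?_ ?_))
  · exact dec_ZSO_allMem (f := fun x : ℕ × List ℕ => x.2) (P := fun x y => y < x.1) snd
      (Primrec.nat_lt.comp snd (fst.comp fst))
  · refine dec_ZSO_allLt (f := fun x : ℕ × List ℕ => x.1) fst ?_
    refine dec_ZSO_allLt (f := fun x : (ℕ × List ℕ) × ℕ => x.1.1) (fst.comp fst) ?_
    refine dec_ZSO_allLt (f := fun x : ((ℕ × List ℕ) × ℕ) × ℕ => x.1.1.1)
      (fst.comp (fst.comp fst)) ?_
    have hn : Primrec fun x : (((ℕ × List ℕ) × ℕ) × ℕ) × ℕ => x.1.1.1.1 :=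
      fst.comp (fst.comp (fst.comp fst))
    have hl : Primrec fun x : (((ℕ × List ℕ) × ℕ) × ℕ) × ℕ => x.1.1.1.2 :=
      snd.comp (fst.comp (fst.comp fst))
    have hi : Primrec fun x : (((ℕ × List ℕ) × ℕ) × ℕ) × ℕ => x.1.1.2 :=
      snd.comp (fst.comp fst)
    have hj : Primrec fun x : (((ℕ × List ℕ) × ℕ) × ℕ) × ℕ => x.1.2 := snd.comp fst
    have hk : Primrec fun x : (((ℕ × List ℕ) × ℕ) × ℕ) × ℕ => x.2 := snd
    exact Primrec.eq.comp (dec_ZSO_tmulPrim hn hl (dec_ZSO_tmulPrim hn hl hi hj) hk)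
      (dec_ZSO_tmulPrim hn hl hi (dec_ZSO_tmulPrim hn hl hj hk))

/-- `0`-simplicity of a table -/
def dec_ZSO_zsf (n : ℕ) (l : List ℕ) : Prop :=
  ∃ z < n, (∀ x < n, tmul n l z x = z ∧ tmul n l x z = z) ∧
    (∃ x < n, ∃ y < n, ¬ tmul n l x y = z) ∧
    ∀ a < n, ∀ b < n, a = z ∨ ∃ x < n, ∃ y < n, tmul n l (tmul n l x a) y = b

theorem dec_ZSO_zsfPrim : PrimrecPred fun x : ℕ × List ℕ => dec_ZSO_zsf x.1 x.2 := by
  unfold dec_ZSO_zsf
  refine dec_ZSO_exLt (f := fun x : ℕ × List ℕ => x.1) fst ?_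
  refine PrimrecPred.and ?_ (PrimrecPred.and ?_ ?_)
  · refine dec_ZSO_allLt (f := fun x : (ℕ × List ℕ) × ℕ => x.1.1) (fst.comp fst) ?_
    have hn : Primrec fun x : ((ℕ × List ℕ) × ℕ) × ℕ => x.1.1.1 := fst.comp (fst.comp fst)
    have hl : Primrec fun x : ((ℕ × List ℕ) × ℕ) × ℕ => x.1.1.2 := snd.comp (fst.comp fst)
    have hz : Primrec fun x : ((ℕ × List ℕ) × ℕ) × ℕ => x.1.2 := snd.comp fst
    have hx : Primrec fun x : ((ℕ × List ℕ) × ℕ) × ℕ => x.2 := snd
    exact (Primrec.eq.comp (dec_ZSO_tmulPrim hn hl hz hx) hz).and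
      (Primrec.eq.comp (dec_ZSO_tmulPrim hn hl hx hz) hz)
  · refine dec_ZSO_exLt (f := fun x : (ℕ × List ℕ) × ℕ => x.1.1) (fst.comp fst) ?_
    refine dec_ZSO_exLt (f := fun x : ((ℕ × List ℕ) × ℕ) × ℕ => x.1.1.1)
      (fst.comp (fst.comp fst)) ?_
    have hn : Primrec fun x : (((ℕ × List ℕ) × ℕ) × ℕ) × ℕ => x.1.1.1.1 :=
      fst.comp (fst.comp (fst.comp fst))
    have hl : Primrec fun x : (((ℕ × List ℕ) × ℕ) × ℕ) × ℕ => x.1.1.1.2 :=
      snd.comp (fst.comp (fst.comp fst))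
    have hz : Primrec fun x : (((ℕ × List ℕ) × ℕ) × ℕ) × ℕ => x.1.1.2 :=
      snd.comp (fst.comp fst)
    have hx : Primrec fun x : (((ℕ × List ℕ) × ℕ) × ℕ) × ℕ => x.1.2 := snd.comp fst
    have hy : Primrec fun x : (((ℕ × List ℕ) × ℕ) × ℕ) × ℕ => x.2 := snd
    exact (Primrec.eq.comp (dec_ZSO_tmulPrim hn hl hx hy) hz).not
  · refine dec_ZSO_allLt (f := fun x : (ℕ × List ℕ) × ℕ => x.1.1) (fst.comp fst) ?_
    refine dec_ZSO_allLt (f := fun x : ((ℕ × List ℕ) × ℕ) × ℕ => x.1.1.1)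
      (fst.comp (fst.comp fst)) ?_
    refine PrimrecPred.or (Primrec.eq.comp (snd.comp fst) (snd.comp (fst.comp fst))) ?_
    refine dec_ZSO_exLt (f := fun x : (((ℕ × List ℕ) × ℕ) × ℕ) × ℕ => x.1.1.1.1)
      (fst.comp (fst.comp (fst.comp fst))) ?_
    refine dec_ZSO_exLt (f := fun x : ((((ℕ × List ℕ) × ℕ) × ℕ) × ℕ) × ℕ => x.1.1.1.1.1)
      (fst.comp (fst.comp (fst.comp (fst.comp fst)))) ?_
    have hn : Primrec fun x : (((((ℕ × List ℕ) × ℕ) × ℕ) × ℕ) × ℕ) × ℕ => x.1.1.1.1.1.1 :=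
      fst.comp (fst.comp (fst.comp (fst.comp (fst.comp fst))))
    have hl : Primrec fun x : (((((ℕ × List ℕ) × ℕ) × ℕ) × ℕ) × ℕ) × ℕ => x.1.1.1.1.1.2 :=
      snd.comp (fst.comp (fst.comp (fst.comp (fst.comp fst))))
    have ha : Primrec fun x : (((((ℕ × List ℕ) × ℕ) × ℕ) × ℕ) × ℕ) × ℕ => x.1.1.1.2 :=
      snd.comp (fst.comp (fst.comp fst))
    have hb : Primrec fun x : (((((ℕ × List ℕ) × ℕ) × ℕ) × ℕ) × ℕ) × ℕ => x.1.1.2 :=
      snd.comp (fst.comp fst)
    have hx : Primrec fun x : (((((ℕ × List ℕ) × ℕ) × ℕ) × ℕ) × ℕ) × ℕ => x.1.2 := snd.comp fst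
    have hy : Primrec fun x : (((((ℕ × List ℕ) × ℕ) × ℕ) × ℕ) × ℕ) × ℕ => x.2 := snd
    exact Primrec.eq.comp (dec_ZSO_tmulPrim hn hl (dec_ZSO_tmulPrim hn hl hx ha) hy) hb

theorem dec_ZSO_zsf_iff {n : ℕ} {l : List ℕ} (h : IsTable n l) :
    ZeroSimple (tableSg n l h) ↔ dec_ZSO_zsf n l := by
  constructor
  · intro H
    obtain ⟨z, hz1, ⟨p, q, hpq⟩, hz3⟩ := zs_of_zeroSimple H
    let z' : Fin n := z
    let p' : Fin n := p
    let q' : Fin n := q
    refine ⟨z', z'.2, fun x hx => ⟨?_, ?_⟩, ⟨p', p'.2, q', q'.2, fun h' => hpq ?_⟩,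
      fun a ha b hb => ?_⟩
    · exact congrArg (fun t : Fin n => (t : ℕ)) (hz1 (⟨x, hx⟩ : Fin n)).1
    · exact congrArg (fun t : Fin n => (t : ℕ)) (hz1 (⟨x, hx⟩ : Fin n)).2
    · have : (⟨tmul n l p' q', tmul_lt h p' q'⟩ : Fin n) = z' := Fin.ext h'
      exact this
    · by_cases haz : (⟨a, ha⟩ : Fin n) = z'
      · left
        exact congrArg (fun t : Fin n => (t : ℕ)) haz
      · right
        obtain ⟨x, y, hxy⟩ := hz3 (⟨a, ha⟩ : Fin n) haz (⟨b, hb⟩ : Fin n)
        let x' : Fin n := x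
        let y' : Fin n := y
        exact ⟨x', x'.2, y', y'.2, congrArg (fun t : Fin n => (t : ℕ)) hxy⟩
  · rintro ⟨z, hz, h1, ⟨p, hp, q, hq, hpq⟩, h3⟩
    let z' : Fin n := ⟨z, hz⟩
    refine zeroSimple_of_zs (z := (show (tableSg n l h).carrier from z')) ⟨?_, ?_, ?_⟩
    · intro x
      let x' : Fin n := x
      exact ⟨Fin.ext (h1 x' x'.2).1, Fin.ext (h1 x' x'.2).2⟩
    · refine ⟨(⟨p, hp⟩ : Fin n), (⟨q, hq⟩ : Fin n), fun h' => hpq ?_⟩
      exact congrArg (fun t : Fin n => (t : ℕ)) h'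
    · intro a haz b
      let a' : Fin n := a
      let b' : Fin n := b
      rcases h3 a' a'.2 b' b'.2 with h4 | ⟨x, hx, y, hy, hxy⟩
      · exact absurd (Fin.ext h4 : a' = z') haz
      · exact ⟨(⟨x, hx⟩ : Fin n), (⟨y, hy⟩ : Fin n), Fin.ext hxy⟩

/-- the units of the local monoid at `e` -/
def dec_ZSO_un (n : ℕ) (l : List ℕ) (e a : ℕ) : Prop :=
  tmul n l e a = a ∧ tmul n l a e = a ∧ ∃ b < n, tmul n l e b = b ∧ tmul n l b e = b ∧
    tmul n l a b = e ∧ tmul n l b a = e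

theorem dec_ZSO_unPrim {α : Type} [Primcodable α] {n e a : α → ℕ} {l : α → List ℕ}
    (hn : Primrec n) (hl : Primrec l) (he : Primrec e) (ha : Primrec a) :
    PrimrecPred fun x => dec_ZSO_un (n x) (l x) (e x) (a x) := by
  unfold dec_ZSO_un
  refine PrimrecPred.and (Primrec.eq.comp (dec_ZSO_tmulPrim hn hl he ha) ha) (PrimrecPred.and
    (Primrec.eq.comp (dec_ZSO_tmulPrim hn hl ha he) ha) ?_)
  refine dec_ZSO_exLt (f := n) hn ?_
  have hn' := hn.comp (fst (α := α) (β := ℕ))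
  have hl' := hl.comp (fst (α := α) (β := ℕ))
  have he' := he.comp (fst (α := α) (β := ℕ))
  have ha' := ha.comp (fst (α := α) (β := ℕ))
  have hb' : Primrec fun p : α × ℕ => p.2 := snd
  exact (Primrec.eq.comp (dec_ZSO_tmulPrim hn' hl' he' hb') hb').and
    ((Primrec.eq.comp (dec_ZSO_tmulPrim hn' hl' hb' he') hb').and
    ((Primrec.eq.comp (dec_ZSO_tmulPrim hn' hl' ha' hb') he').and
    (Primrec.eq.comp (dec_ZSO_tmulPrim hn' hl' hb' ha') he')))

open Classical in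
/-- multiplication literals -/
noncomputable def dec_ZSO_l1 (n : ℕ) (l : List ℕ) (e q : ℕ) : Lit :=
  if dec_ZSO_un n l e (q / n) ∧ dec_ZSO_un n l e (q % n) then
    (false, [(q / n, true), (q % n, true), (tmul n l (q / n) (q % n), false)]) else (false, [])

open Classical in
/-- injectivity literals -/
noncomputable def dec_ZSO_l2 (n : ℕ) (l : List ℕ) (e q : ℕ) : Lit :=
  if (dec_ZSO_un n l e (q / n) ∧ dec_ZSO_un n l e (q % n)) ∧ ¬ q / n = q % n then
    (true, [(q / n, true), (q % n, false)]) else (false, [])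

/-- the clause saying that the group of units at `e` does not embed -/
noncomputable def dec_ZSO_cl (n : ℕ) (l : List ℕ) (e : ℕ) : List Lit :=
  (List.range (n * n)).map (dec_ZSO_l1 n l e) ++ (List.range (n * n)).map (dec_ZSO_l2 n l e)

theorem dec_ZSO_clPrim :
    Primrec fun x : (ℕ × List ℕ) × ℕ => ([dec_ZSO_cl x.1.1 x.1.2 x.2] : Cnf) := by
  classical
  have hr : Primrec fun x : (ℕ × List ℕ) × ℕ => List.range (x.1.1 * x.1.1) :=
    Primrec.list_range.comp (Primrec.nat_mul.comp (fst.comp fst) (fst.comp fst))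
  have hn : Primrec fun p : ((ℕ × List ℕ) × ℕ) × ℕ => p.1.1.1 := fst.comp (fst.comp fst)
  have hl : Primrec fun p : ((ℕ × List ℕ) × ℕ) × ℕ => p.1.1.2 := snd.comp (fst.comp fst)
  have he : Primrec fun p : ((ℕ × List ℕ) × ℕ) × ℕ => p.1.2 := snd.comp fst
  have ha : Primrec fun p : ((ℕ × List ℕ) × ℕ) × ℕ => p.2 / p.1.1.1 :=
    Primrec.nat_div.comp snd hn
  have hb : Primrec fun p : ((ℕ × List ℕ) × ℕ) × ℕ => p.2 % p.1.1.1 :=
    Primrec.nat_mod.comp snd hn
  have hua := dec_ZSO_unPrim hn hl he ha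
  have hub := dec_ZSO_unPrim hn hl he hb
  have ht : Primrec fun p : ((ℕ × List ℕ) × ℕ) × ℕ =>
      tmul p.1.1.1 p.1.1.2 (p.2 / p.1.1.1) (p.2 % p.1.1.1) := dec_ZSO_tmulPrim hn hl ha hb
  have h1 : Primrec fun p : ((ℕ × List ℕ) × ℕ) × ℕ => dec_ZSO_l1 p.1.1.1 p.1.1.2 p.1.2 p.2 := by
    unfold dec_ZSO_l1
    refine Primrec.ite (hua.and hub) ?_ (Primrec.const _)
    refine (Primrec.const false).pair ?_
    exact Primrec.list_cons.comp (ha.pair (Primrec.const true)) (Primrec.list_cons.comp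
      (hb.pair (Primrec.const true)) (Primrec.list_cons.comp (ht.pair (Primrec.const false))
      (Primrec.const [])))
  have h2 : Primrec fun p : ((ℕ × List ℕ) × ℕ) × ℕ => dec_ZSO_l2 p.1.1.1 p.1.1.2 p.1.2 p.2 := by
    unfold dec_ZSO_l2
    refine Primrec.ite ((hua.and hub).and (Primrec.eq.comp ha hb).not) ?_ (Primrec.const _)
    refine (Primrec.const true).pair ?_
    exact Primrec.list_cons.comp (ha.pair (Primrec.const true)) (Primrec.list_cons.comp
      (hb.pair (Primrec.const false)) (Primrec.const []))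
  have h3 : Primrec fun x : (ℕ × List ℕ) × ℕ => dec_ZSO_cl x.1.1 x.1.2 x.2 := by
    unfold dec_ZSO_cl
    exact Primrec.list_append.comp (Primrec.list_map hr h1.to₂) (Primrec.list_map hr h2.to₂)
  exact Primrec.list_cons.comp h3 (Primrec.const [])

end dec_ZSO_prim

theorem dec_ZSO_ho0 {G : Type} [Group G] (v : ℕ → G) : ¬ Lit.ho v (false, []) := by
  simp [Lit.ho, Wd.ev]

theorem dec_ZSO_ho1 {G : Type} [Group G] (v : ℕ → G) (a b c : ℕ) :
    Lit.ho v (false, [(a, true), (b, true), (c, false)]) ↔ ¬ v a * v b = v c := by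
  simp only [Lit.ho, Wd.ev, List.map_cons, List.map_nil, List.prod_cons, List.prod_nil,
    Bool.false_eq_true, if_false, if_true, mul_one, ne_eq]
  rw [← mul_assoc, mul_inv_eq_one]

theorem dec_ZSO_ho2 {G : Type} [Group G] (v : ℕ → G) (a b : ℕ) :
    Lit.ho v (true, [(a, true), (b, false)]) ↔ v a = v b := by
  simp only [Lit.ho, Wd.ev, List.map_cons, List.map_nil, List.prod_cons, List.prod_nil,
    Bool.false_eq_true, if_false, if_true, mul_one]
  rw [mul_inv_eq_one]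

theorem dec_ZSO_cl_iff {G : Type} [Group G] (v : ℕ → G) {n : ℕ} (hn : 0 < n) (l : List ℕ)
    (e : ℕ) : (¬ Cnf.ho v [dec_ZSO_cl n l e]) ↔
      (∀ a < n, ∀ b < n, dec_ZSO_un n l e a → dec_ZSO_un n l e b →
        v a * v b = v (tmul n l a b)) ∧
      (∀ a < n, ∀ b < n, dec_ZSO_un n l e a → dec_ZSO_un n l e b → v a = v b → a = b) := by
  classical
  have h0 : (¬ Cnf.ho v [dec_ZSO_cl n l e]) ↔ ∀ t ∈ dec_ZSO_cl n l e, ¬ Lit.ho v t := by
    simp [Cnf.ho]
  rw [h0]
  constructor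
  · intro h
    have hq : ∀ a < n, ∀ b < n, a * n + b < n * n ∧ (a * n + b) / n = a ∧
        (a * n + b) % n = b := by
      intro a ha b hb
      refine ⟨?_, ?_, ?_⟩
      · calc a * n + b < a * n + n := by omega
          _ = (a + 1) * n := by ring
          _ ≤ n * n := Nat.mul_le_mul_right _ ha
      · rw [Nat.mul_comm a n, Nat.mul_add_div hn, Nat.div_eq_of_lt hb, add_zero]
      · rw [Nat.mul_add_mod_self_right]; exact Nat.mod_eq_of_lt hb
    refine ⟨fun a ha b hb hua hub => ?_, fun a ha b hb hua hub hv => ?_⟩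
    · obtain ⟨h1, h2, h3⟩ := hq a ha b hb
      have h4 := h (dec_ZSO_l1 n l e (a * n + b)) (by
        unfold dec_ZSO_cl
        exact List.mem_append_left _ (List.mem_map.2 ⟨_, List.mem_range.2 h1, rfl⟩))
      unfold dec_ZSO_l1 at h4
      rw [h2, h3, if_pos ⟨hua, hub⟩, dec_ZSO_ho1, not_not] at h4
      exact h4
    · by_contra hab
      obtain ⟨h1, h2, h3⟩ := hq a ha b hb
      have h4 := h (dec_ZSO_l2 n l e (a * n + b)) (by
        unfold dec_ZSO_cl
        exact List.mem_append_right _ (List.mem_map.2 ⟨_, List.mem_range.2 h1, rfl⟩))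
      unfold dec_ZSO_l2 at h4
      rw [h2, h3, if_pos ⟨⟨hua, hub⟩, hab⟩, dec_ZSO_ho2] at h4
      exact h4 hv
  · rintro ⟨h1, h2⟩ t ht
    unfold dec_ZSO_cl at ht
    rcases List.mem_append.1 ht with ht | ht
    · obtain ⟨q, hq, rfl⟩ := List.mem_map.1 ht
      have hq' := List.mem_range.1 hq
      have ha : q / n < n := Nat.div_lt_of_lt_mul hq'
      have hb : q % n < n := Nat.mod_lt _ hn
      unfold dec_ZSO_l1
      split_ifs with hu
      · rw [dec_ZSO_ho1, not_not]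
        exact h1 _ ha _ hb hu.1 hu.2
      · exact dec_ZSO_ho0 v
    · obtain ⟨q, hq, rfl⟩ := List.mem_map.1 ht
      have hq' := List.mem_range.1 hq
      have ha : q / n < n := Nat.div_lt_of_lt_mul hq'
      have hb : q % n < n := Nat.mod_lt _ hn
      unfold dec_ZSO_l2
      split_ifs with hu
      · rw [dec_ZSO_ho2]
        exact fun hv => hu.2 (h2 _ ha _ hb hu.1.1 hu.1.2 hv)
      · exact dec_ZSO_ho0 v

/-- the group of units of the local monoid at `e` -/
def dec_ZSO_U (T : Type) [Semigroup T] (e : T) : Type :=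
  {a : T // e * a = a ∧ a * e = a ∧ ∃ b, e * b = b ∧ b * e = b ∧ a * b = e ∧ b * a = e}

noncomputable def dec_ZSO_grp (T : Type) [Semigroup T] (e : T) (he : e * e = e) :
    Group (dec_ZSO_U T e) :=
  letI : Mul (dec_ZSO_U T e) := ⟨fun a b => ⟨a.1 * b.1, by
    obtain ⟨a, ha1, ha2, a', ha3, ha4, ha5, ha6⟩ := a
    obtain ⟨b, hb1, hb2, b', hb3, hb4, hb5, hb6⟩ := b
    refine ⟨?_, ?_, b' * a', ?_, ?_, ?_, ?_⟩
    · show e * (a * b) = a * b
      rw [← mul_assoc, ha1]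
    · show (a * b) * e = a * b
      rw [mul_assoc, hb2]
    · rw [← mul_assoc, hb3]
    · rw [mul_assoc, ha4]
    · show (a * b) * (b' * a') = e
      rw [mul_assoc, ← mul_assoc b, hb5, ha3, ha5]
    · show (b' * a') * (a * b) = e
      rw [mul_assoc, ← mul_assoc a', ha6, hb1, hb6]⟩⟩
  letI : One (dec_ZSO_U T e) := ⟨⟨e, he, he, e, he, he, he, he⟩⟩
  letI : Inv (dec_ZSO_U T e) := ⟨fun a => ⟨a.2.2.2.choose, by
    obtain ⟨h1, h2, h3, h4⟩ := a.2.2.2.choose_spec
    exact ⟨h1, h2, a.1, a.2.1, a.2.2.1, h4, h3⟩⟩⟩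
  Group.ofLeftAxioms
    (fun a b c => Subtype.ext (mul_assoc a.1 b.1 c.1))
    (fun a => Subtype.ext a.2.1)
    (fun a => Subtype.ext a.2.2.2.choose_spec.2.2.2)

theorem dec_ZSO_B (V : PV) {n : ℕ} {l : List ℕ} (h : IsTable n l)
    (hall : AllSub V (tableSg n l h)) (e : ℕ) (he : e < n) (hee : tmul n l e e = e) :
    ∃ (G : Type) (_ : Group G), V.mem G ∧ ∃ v : ℕ → G, ¬ Cnf.ho v [dec_ZSO_cl n l e] := by
  classical
  let T := (tableSg n l h).carrier
  let e' : T := (show T from (⟨e, he⟩ : Fin n))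
  have he' : e' * e' = e' := by
    have : (⟨tmul n l e e, tmul_lt h e e⟩ : Fin n) = ⟨e, he⟩ := Fin.ext hee
    exact this
  letI iG : Group (dec_ZSO_U T e') := dec_ZSO_grp T e' he'
  have hmul : ∀ a b : dec_ZSO_U T e', (a * b).1 = a.1 * b.1 := fun _ _ => rfl
  have hmem : V.mem (dec_ZSO_U T e') :=
    hall (dec_ZSO_U T e') ⟨fun a => a.1, hmul⟩ Subtype.val_injective
  have hun : ∀ a, ∀ ha : a < n, dec_ZSO_un n l e a →
      (e' * (show T from (⟨a, ha⟩ : Fin n)) = (show T from (⟨a, ha⟩ : Fin n)) ∧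
        (show T from (⟨a, ha⟩ : Fin n)) * e' = (show T from (⟨a, ha⟩ : Fin n)) ∧
        ∃ b : T, e' * b = b ∧ b * e' = b ∧ (show T from (⟨a, ha⟩ : Fin n)) * b = e' ∧
          b * (show T from (⟨a, ha⟩ : Fin n)) = e') := by
    rintro a ha ⟨h1, h2, b, hb, h3, h4, h5, h6⟩
    exact ⟨Fin.ext h1, Fin.ext h2, (show T from (⟨b, hb⟩ : Fin n)), Fin.ext h3, Fin.ext h4,
      Fin.ext h5, Fin.ext h6⟩
  let v : ℕ → dec_ZSO_U T e' := fun a =>
    if ha : a < n ∧ dec_ZSO_un n l e a then ⟨_, hun a ha.1 ha.2⟩ else 1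
  have hv : ∀ a, ∀ ha : a < n, dec_ZSO_un n l e a → (v a).1 = (show T from (⟨a, ha⟩ : Fin n)) := by
    intro a ha hu
    have h1 : v a = ⟨_, hun a ha hu⟩ := dif_pos ⟨ha, hu⟩
    rw [h1]
  refine ⟨dec_ZSO_U T e', iG, hmem, v, ?_⟩
  rw [dec_ZSO_cl_iff v h.1]
  refine ⟨fun a ha b hb hua hub => ?_, fun a ha b hb hua hub hvv => ?_⟩
  · -- the product is again a unit
    have hprod : dec_ZSO_un n l e (tmul n l a b) := by
      have h1 := (v a * v b).2
      have h2 : (v a * v b).1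
          = (show T from (⟨tmul n l a b, tmul_lt h a b⟩ : Fin n)) := by
        rw [hmul, hv a ha hua, hv b hb hub]
        rfl
      rw [h2] at h1
      obtain ⟨h3, h4, c, h5, h6, h7, h8⟩ := h1
      let c' : Fin n := c
      exact ⟨congrArg (fun t : Fin n => (t : ℕ)) h3, congrArg (fun t : Fin n => (t : ℕ)) h4,
        c', c'.2, congrArg (fun t : Fin n => (t : ℕ)) h5, congrArg (fun t : Fin n => (t : ℕ)) h6,
        congrArg (fun t : Fin n => (t : ℕ)) h7, congrArg (fun t : Fin n => (t : ℕ)) h8⟩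
    refine Subtype.ext ?_
    rw [hmul, hv a ha hua, hv b hb hub, hv _ (tmul_lt h a b) hprod]
    rfl
  · have h1 := congrArg Subtype.val hvv
    rw [hv a ha hua, hv b hb hub] at h1
    exact congrArg (fun t : Fin n => (t : ℕ)) h1

theorem dec_ZSO_C (V : PV) {n : ℕ} {l : List ℕ} (h : IsTable n l)
    (hall : ∀ e < n, tmul n l e e = e →
      ∃ (G : Type) (_ : Group G), V.mem G ∧ ∃ v : ℕ → G, ¬ Cnf.ho v [dec_ZSO_cl n l e]) :
    AllSub V (tableSg n l h) := by
  intro H _ g hg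
  let gv : H → ℕ := fun x => ((show Fin n from g x) : ℕ)
  have hgv : ∀ x, gv x < n := fun x => (show Fin n from g x).2
  have hmul : ∀ x y, gv (x * y) = tmul n l (gv x) (gv y) := by
    intro x y
    show ((show Fin n from g (x * y)) : ℕ) = _
    rw [map_mul]
    rfl
  have hinj : ∀ x y, gv x = gv y → x = y := by
    intro x y hxy
    exact hg (Fin.ext hxy)
  have hun : ∀ x, dec_ZSO_un n l (gv 1) (gv x) := by
    intro x
    refine ⟨?_, ?_, gv x⁻¹, hgv _, ?_, ?_, ?_, ?_⟩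
    · rw [← hmul, one_mul]
    · rw [← hmul, mul_one]
    · rw [← hmul, one_mul]
    · rw [← hmul, mul_one]
    · rw [← hmul, mul_inv_cancel]
    · rw [← hmul, inv_mul_cancel]
  obtain ⟨G, iG, hG, v, hv⟩ := hall (gv 1) (hgv 1) (by rw [← hmul, mul_one])
  rw [dec_ZSO_cl_iff v h.1] at hv
  obtain ⟨h1, h2⟩ := hv
  let φ : H →* G := MonoidHom.mk' (fun x => v (gv x)) (by
    intro x y
    rw [hmul]
    exact (h1 _ (hgv x) _ (hgv y) (hun x) (hun y)).symm)
  refine V.sub H G φ ?_ hG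
  intro x y hxy
  exact hinj x y (h2 _ (hgv x) _ (hgv y) (hun x) (hun y) hxy)

theorem dec_ZSO (V : PV) (hV : V.DecUniv) : DecClass (ZSO V) := by
  classical
  obtain ⟨f, hf, hfe⟩ := ComputablePred.computable_iff.1 hV
  have hf' : ∀ φ : Cnf, (∀ (G : Type) [Group G], V.mem G → ∀ v : ℕ → G, Cnf.ho v φ) ↔
      f φ = true := fun φ => iff_of_eq (congrFun hfe φ)
  have hP := dec_ZSO_isTablePrim.and dec_ZSO_zsfPrim
  obtain ⟨hd, hP'⟩ := hP
  let F : (ℕ × List ℕ) × ℕ → Bool := fun p =>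
    !(decide (tmul p.1.1 p.1.2 p.2 p.2 = p.2)) || !(f [dec_ZSO_cl p.1.1 p.1.2 p.2])
  have hF : Computable F := by
    have h1 : PrimrecPred fun p : (ℕ × List ℕ) × ℕ => tmul p.1.1 p.1.2 p.2 p.2 = p.2 :=
      Primrec.eq.comp (dec_ZSO_tmulPrim (Primrec.fst.comp Primrec.fst)
        (Primrec.snd.comp Primrec.fst) Primrec.snd Primrec.snd) Primrec.snd
    have h2 : Primrec fun p : (ℕ × List ℕ) × ℕ =>
        decide (tmul p.1.1 p.1.2 p.2 p.2 = p.2) := h1.decide
    exact Primrec.or.to_comp.comp (Primrec.not.to_comp.comp h2.to_comp)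
      (Primrec.not.to_comp.comp (hf.comp dec_ZSO_clPrim.to_comp))
  let D : ℕ × List ℕ → Bool := fun x =>
    Nat.rec (motive := fun _ => Bool) true (fun e acc => acc && F (x, e)) x.1
  have hD : Computable D := by
    refine Computable.nat_rec (f := fun x : ℕ × List ℕ => x.1) Computable.fst
      (Computable.const true) (h := fun x p => p.2 && F (x, p.1)) ?_
    exact Primrec.and.to_comp.comp (Computable.snd.comp Computable.snd)
      (hF.comp (Computable.fst.pair (Computable.fst.comp Computable.snd)))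
  have hDiff : ∀ x : ℕ × List ℕ, D x = true ↔ ∀ e < x.1, F (x, e) = true := by
    intro x
    have key : ∀ N : ℕ, (Nat.rec (motive := fun _ => Bool) true
        (fun e acc => acc && F (x, e)) N) = true ↔ ∀ e < N, F (x, e) = true := by
      intro N
      induction N with
      | zero => simp
      | succ N ih =>
        show ((Nat.rec (motive := fun _ => Bool) true
          (fun e acc => acc && F (x, e)) N) && F (x, N)) = true ↔ _
        rw [Bool.and_eq_true, ih]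
        constructor
        · rintro ⟨h1, h2⟩ e he
          rcases Nat.lt_succ_iff_lt_or_eq.1 he with h | h
          · exact h1 e h
          · rw [h]; exact h2
        · intro h
          exact ⟨fun e he => h e (by omega), h N (by omega)⟩
    exact key x.1
  refine ComputablePred.computable_iff.2
    ⟨fun x => decide (IsTable x.1 x.2 ∧ dec_ZSO_zsf x.1 x.2) && D x, ?_, ?_⟩
  · refine Primrec.and.to_comp.comp ?_ hD
    convert hP'.to_comp using 3
  · funext x
    apply propext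
    rw [Bool.and_eq_true, decide_eq_true_iff, hDiff]
    constructor
    · rintro ⟨h, hz, hall⟩
      refine ⟨⟨h, (dec_ZSO_zsf_iff h).1 hz⟩, fun e he => ?_⟩
      show (!(decide (tmul x.1 x.2 e e = e)) || !(f [dec_ZSO_cl x.1 x.2 e])) = true
      by_cases hee : tmul x.1 x.2 e e = e
      · obtain ⟨G, iG, hG, v, hv⟩ := dec_ZSO_B V h hall e he hee
        have : ¬ f [dec_ZSO_cl x.1 x.2 e] = true := fun h' => hv ((hf' _).2 h' G hG v)
        simp [this]
      · simp [hee]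
    · rintro ⟨⟨h, hz⟩, hall⟩
      refine ⟨h, (dec_ZSO_zsf_iff h).2 hz, dec_ZSO_C V h fun e he hee => ?_⟩
      have h1 : (!(decide (tmul x.1 x.2 e e = e)) || !(f [dec_ZSO_cl x.1 x.2 e])) = true :=
        hall e he
      have h2 : ¬ f [dec_ZSO_cl x.1 x.2 e] = true := by
        intro h'
        simp [hee, h'] at h1
      rw [← hf'] at h2
      push Not at h2
      obtain ⟨G, iG, hG, v, hv⟩ := h2
      exact ⟨G, iG, hG, v, hv⟩

end J11148

alias dec_ZSO := J11148.dec_ZSO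

end

end Pool.Agent.H502.Bk
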