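import Pool.Agent.H502.BkSk
set_option autoImplicit false

namespace Pool.Agent.H502.Bk

section
open Function

namespace J11147

/-! ### TARGET of this job: dec_union_one -/

section uone
open Primrec

theorem u1_allLt {α : Type} [Primcodable α] {f : α → ℕ} {P : α → ℕ → Prop} (hf : Primrec f)
    (hP : PrimrecPred fun p : α × ℕ => P p.1 p.2) : PrimrecPred (fun a => ∀ x < f a, P a x) := by
  have hR : PrimrecRel (fun (x : ℕ) (a : α) => P a x) := hP.comp (snd.pair fst)
  exact ((PrimrecRel.forall_mem_list hR).comp (Primrec.list_range.comp hf) Primrec.id).of_eq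
    (fun a => by simp)

theorem u1_allMem {α β : Type} [Primcodable α] [Primcodable β] {f : α → List β}
    {P : α → β → Prop} (hf : Primrec f) (hP : PrimrecPred fun p : α × β => P p.1 p.2) :
    PrimrecPred (fun a => ∀ x ∈ f a, P a x) := by
  have hR : PrimrecRel (fun (x : β) (a : α) => P a x) := hP.comp (snd.pair fst)
  exact (PrimrecRel.forall_mem_list hR).comp hf Primrec.id

theorem u1_tmulPrim {α : Type} [Primcodable α] {n i j : α → ℕ} {l : α → List ℕ} (hn : Primrec n)
    (hl : Primrec l) (hi : Primrec i) (hj : Primrec j) :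
    Primrec (fun a => tmul (n a) (l a) (i a) (j a)) := by
  unfold tmul
  exact (Primrec.list_getD 0).comp hl (Primrec.nat_add.comp (Primrec.nat_mul.comp hi hn) hj)

theorem u1_isTablePrim : PrimrecPred fun x : ℕ × List ℕ => IsTable x.1 x.2 := by
  unfold IsTable
  refine PrimrecPred.and (Primrec.nat_lt.comp (Primrec.const 0) fst) (PrimrecPred.and
    (Primrec.eq.comp (Primrec.list_length.comp snd) (Primrec.nat_mul.comp fst fst))
    (PrimrecPred.and ?_ ?_))
  · exact u1_allMem (f := fun x : ℕ × List ℕ => x.2) (P := fun x y => y < x.1) snd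
      (Primrec.nat_lt.comp snd (fst.comp fst))
  · refine u1_allLt (f := fun x : ℕ × List ℕ => x.1) fst ?_
    refine u1_allLt (f := fun x : (ℕ × List ℕ) × ℕ => x.1.1) (fst.comp fst) ?_
    refine u1_allLt (f := fun x : ((ℕ × List ℕ) × ℕ) × ℕ => x.1.1.1) (fst.comp (fst.comp fst)) ?_
    have hn : Primrec fun x : (((ℕ × List ℕ) × ℕ) × ℕ) × ℕ => x.1.1.1.1 :=
      fst.comp (fst.comp (fst.comp fst))
    have hl : Primrec fun x : (((ℕ × List ℕ) × ℕ) × ℕ) × ℕ => x.1.1.1.2 :=
      snd.comp (fst.comp (fst.comp fst))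
    have hi : Primrec fun x : (((ℕ × List ℕ) × ℕ) × ℕ) × ℕ => x.1.1.2 :=
      snd.comp (fst.comp fst)
    have hj : Primrec fun x : (((ℕ × List ℕ) × ℕ) × ℕ) × ℕ => x.1.2 := snd.comp fst
    have hk : Primrec fun x : (((ℕ × List ℕ) × ℕ) × ℕ) × ℕ => x.2 := snd
    exact Primrec.eq.comp (u1_tmulPrim hn hl (u1_tmulPrim hn hl hi hj) hk)
      (u1_tmulPrim hn hl hi (u1_tmulPrim hn hl hj hk))

end uone

theorem u1_or {α : Type} [Primcodable α] {p q : α → Prop} (hp : ComputablePred p)
    (hq : ComputablePred q) : ComputablePred (fun a => p a ∨ q a) := by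
  obtain ⟨d1, h1⟩ := hp
  obtain ⟨d2, h2⟩ := hq
  refine ⟨fun a => instDecidableOr, ?_⟩
  refine (Primrec.or.to_comp.comp h1 h2).of_eq fun a => ?_
  by_cases h3 : p a <;> by_cases h4 : q a <;> simp [h3, h4]

theorem dec_union_one {X : Set FinSg} (hX : DecClass X) :
    DecClass (X ∪ {S | Nat.card S = 1}) := by
  have h1 : PrimrecPred fun x : ℕ × List ℕ => IsTable x.1 x.2 ∧ x.1 = 1 :=
    u1_isTablePrim.and (Primrec.eq.comp Primrec.fst (Primrec.const 1))
  have h2 : ComputablePred fun x : ℕ × List ℕ => IsTable x.1 x.2 ∧ x.1 = 1 := by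
    obtain ⟨hd, hp⟩ := h1
    exact ⟨hd, hp.to_comp⟩
  have h3 := u1_or hX h2
  refine h3.of_eq fun x => ?_
  constructor
  · rintro (⟨h, hm⟩ | ⟨h, hm⟩)
    · exact ⟨h, Or.inl hm⟩
    · refine ⟨h, Or.inr ?_⟩
      show Nat.card (Fin x.1) = 1
      rw [Nat.card_fin]; exact hm
  · rintro ⟨h, hm | hm⟩
    · exact Or.inl ⟨h, hm⟩
    · refine Or.inr ⟨h, ?_⟩
      have h4 : Nat.card (Fin x.1) = 1 := hm
      rwa [Nat.card_fin] at h4

end J11147

alias dec_union_one := J11147.dec_union_one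

end

end Pool.Agent.H502.Bk
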