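import Pool.Agent.H502.BkSk
import Pool.Agent.H502.BkJ_AllSub_quot
import Pool.Agent.H502.BkJ_rm_allSub
set_option autoImplicit false

namespace Pool.Agent.H502.Bk

section
open Function W

namespace J11133

/-! ### TARGET of this job: h_eq -/

theorem h_eq (V : PV) : opH (ZSO V) = ZSO V ∪ {S | Nat.card S = 1} := by
  apply Set.Subset.antisymm
  · rintro B ⟨A, ⟨hA1, hA2⟩, f, hf⟩
    by_cases hc : Nat.card B = 1
    · exact Or.inr hc
    · left
      obtain ⟨z, hz⟩ := zs_of_zeroSimple hA1
      have hne : ∃ b : B, b ≠ f z := by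
        by_contra hcon
        push Not at hcon
        apply hc
        rw [Nat.card_eq_one_iff_unique]
        exact ⟨⟨fun x y => (hcon x).trans (hcon y).symm⟩, ⟨f z⟩⟩
      have hB : ZS (f z) := by
        refine ⟨?_, ?_, ?_⟩
        · intro x
          obtain ⟨a, rfl⟩ := hf x
          rw [← map_mul, ← map_mul, (hz.1 a).1, (hz.1 a).2]
          exact ⟨rfl, rfl⟩
        · obtain ⟨b, hb⟩ := hne
          obtain ⟨a, rfl⟩ := hf b
          have haz : a ≠ z := fun h => hb (by rw [h])
          obtain ⟨x, y, hxy⟩ := hz.2.2 a haz a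
          refine ⟨f (x * a), f y, ?_⟩
          rw [← map_mul, hxy]
          exact hb
        · intro b hb c
          obtain ⟨a, rfl⟩ := hf b
          obtain ⟨d, rfl⟩ := hf c
          have haz : a ≠ z := fun h => hb (by rw [h])
          obtain ⟨x, y, hxy⟩ := hz.2.2 a haz d
          exact ⟨f x, f y, by rw [← map_mul, ← map_mul, hxy]⟩
      exact ⟨zeroSimple_of_zs hB, AllSub.quot f hf hA2⟩
  · rintro B (hB | hB)
    · exact opH_incr _ hB
    · have hB' : Nat.card B = 1 := hB
      rw [Nat.card_eq_one_iff_unique] at hB'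
      obtain ⟨hsub, ⟨b0⟩⟩ := hB'
      have hzs : ZS (RM.zero (fun (_ : Unit) (_ : Unit) => some (1 : Unit)) :
          RM Unit Unit Unit (fun _ _ => some 1)) :=
        RM.zs (fun i => ⟨(), 1, rfl⟩) (fun l => ⟨(), 1, rfl⟩)
      refine ⟨⟨RM Unit Unit Unit (fun _ _ => some 1), inferInstance, inferInstance, ⟨RM.zero _⟩⟩,
        ⟨zeroSimple_of_zs hzs, rm_allSub V V.unit _⟩,
        { toFun := fun _ => b0, map_mul' := fun _ _ => Subsingleton.elim _ _ }, ?_⟩
      intro b
      exact ⟨(RM.zero (fun (_ : Unit) (_ : Unit) => some (1 : Unit)) :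
        RM Unit Unit Unit (fun _ _ => some 1)), Subsingleton.elim b0 b⟩

end J11133

alias h_eq := J11133.h_eq

end

end Pool.Agent.H502.Bk
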