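import Pool.Agent.H502.BkSk
set_option autoImplicit false

namespace Pool.Agent.H502.Bk

section
open Function

namespace J11138

/-! ### TARGET of this job: pi_mem_opP -/

/-- a product over a finite nonempty index type of members of `X` is in `opP X` -/
theorem pi_mem_opP {X : Set FinSg} {ι : Type} [Finite ι] [Nonempty ι] (T : ι → FinSg)
    (h : ∀ i, T i ∈ X) (B : FinSg) (e : B ≃* (∀ i, T i)) : B ∈ opP X := by
  classical
  obtain ⟨n, ⟨σ⟩⟩ := Finite.exists_equiv_fin ι
  obtain ⟨k, rfl⟩ : ∃ k, n = k + 1 := by
    rcases n with _ | k
    · exact (IsEmpty.false (σ (Classical.arbitrary ι))).elim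
    · exact ⟨k, rfl⟩
  refine ⟨k, fun j => T (σ.symm j), fun j => h _, ⟨e.trans ?_⟩⟩
  exact
    { toFun := fun x j => x (σ.symm j)
      invFun := fun y i => cast (congrArg (fun i' => (T i' : Type)) (σ.symm_apply_apply i)) (y (σ i))
      left_inv := by
        intro x
        funext i
        have : ∀ (i' : ι) (hi : i' = i) (hh : (T i' : Type) = (T i : Type)), cast hh (x i') = x i := by
          rintro i' rfl _
          rfl
        exact this _ (σ.symm_apply_apply i) _
      right_inv := by
        intro y
        funext j
        have : ∀ (j' : Fin (k + 1)) (hj : j' = j)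
            (hh : (T (σ.symm j') : Type) = (T (σ.symm j) : Type)), cast hh (y j') = y j := by
          rintro j' rfl _
          rfl
        exact this _ (σ.apply_symm_apply j) _
      map_mul' := fun x y => rfl }

end J11138

alias pi_mem_opP := J11138.pi_mem_opP

end

end Pool.Agent.H502.Bk
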