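import Pool.Agent.H502.BkSk
import Pool.Agent.H502.BkJ_AllSub_quot
import Pool.Agent.H502.BkJ_pi_mem_opP
set_option autoImplicit false

namespace Pool.Agent.H502.Bk

section
open Function W

namespace J11129

/-! ### TARGET of this job: hp_bd -/

theorem hp_bd_size {V : PV} {S : Type} [Semigroup S] [Finite S] {k : ℕ} (T : Fin k → FinSg)
    (hT : ∀ i, T i ∈ ZSO V) (f : (∀ i, T i) →ₙ* S) (hf : Surjective f) :
    ∃ T' : Fin k → FinSg, (∀ i, T' i ∈ ZSO V ∧ Nat.card (T' i) ≤ hpB (Nat.card S)) ∧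
      ∃ f' : (∀ i, T' i) →ₙ* S, Surjective f' := by
  classical
  choose x hx using hf
  choose z hz using fun i => zs_of_zeroSimple (hT i).1
  choose x0 x0' hx0 using fun i => (hz i).2.1
  let y : ∀ i, Option S → T i := fun i o => o.elim (x0 i * x0' i) fun s =>
    if x s i = z i then x0 i * x0' i else x s i
  have hy : ∀ i o, y i o ≠ z i := by
    intro i o
    cases o with
    | none => exact hx0 i
    | some s =>
      show (if x s i = z i then x0 i * x0' i else x s i) ≠ z i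
      split_ifs with h
      · exact hx0 i
      · exact h
  choose a ha using fun i o => (hz i).exists_right (hy i o)
  choose b hb using fun i o => (hz i).exists_left (hy i o)
  let α : ∀ i, Option S ⊕ Option S → T i := fun i => Sum.elim (y i) (a i)
  let β : ∀ i, Option S ⊕ Option S → T i := fun i => Sum.elim (y i) (b i)
  have hα : ∀ i p, α i p ≠ z i := by
    rintro i (o | o)
    · exact hy i o
    · exact (hz i).mul_right_ne (ha i o)
  have hβ : ∀ i p, β i p ≠ z i := by
    rintro i (o | o)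
    · exact hy i o
    · exact (hz i).mul_left_ne (hb i o)
  have h1 : ∀ i p, ∃ q, β i q * α i p ≠ z i := by
    rintro i (o | o)
    · exact ⟨Sum.inr o, hb i o⟩
    · exact ⟨Sum.inl o, ha i o⟩
  have h2 : ∀ i q, ∃ p, β i q * α i p ≠ z i := by
    rintro i (o | o)
    · exact ⟨Sum.inr o, ha i o⟩
    · exact ⟨Sum.inl o, hb i o⟩
  let C : Fin k → Type := fun i => sub (hz i) (α i) (β i)
  let g : (∀ i, C i) →ₙ* S :=
    ⟨fun w => f fun i => (w i).1, fun w w' => by rw [← map_mul]; rfl⟩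
  have hg : Surjective g := by
    intro s
    have hmem : ∀ i, x s i ∈ sub (hz i) (α i) (β i) := by
      intro i
      by_cases h : x s i = z i
      · exact Or.inl h
      · have hys : α i (Sum.inl (some s)) = x s i := by
          show (if x s i = z i then x0 i * x0' i else x s i) = _
          rw [if_neg h]
        have hys' : β i (Sum.inl (some s)) = x s i := by
          show (if x s i = z i then x0 i * x0' i else x s i) = _
          rw [if_neg h]
        refine Or.inr ⟨h, ⟨Sum.inl (some s), ?_⟩, ⟨Sum.inl (some s), ?_⟩⟩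
        · rw [hys]; exact (hz i).rr_refl h
        · rw [hys']; exact (hz i).ll_refl h
    exact ⟨fun i => ⟨x s i, hmem i⟩, hx s⟩
  have hz' : ∀ i, ZS (⟨z i, Or.inl rfl⟩ : C i) := fun i =>
    sub_zs (hz i) (α i) (β i) (hα i) (hβ i) (h1 i) (h2 i)
  refine ⟨fun i => ⟨(th g hz' i).Quotient, inferInstance, Quotient.finite _,
    ⟨((⟨z i, Or.inl rfl⟩ : C i) : (th g hz' i).Quotient)⟩⟩, ?_, fq g hz', fq_surj g hz' hg⟩
  intro i
  have hsub : AllSub V (C i) :=
    AllSub.inj (MulMemClass.subtype (sub (hz i) (α i) (β i))) Subtype.val_injective (hT i).2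
  have hquot : AllSub V (th g hz' i).Quotient := by
    refine AllSub.quot (⟨fun u => (u : (th g hz' i).Quotient), fun _ _ => rfl⟩ :
      C i →ₙ* (th g hz' i).Quotient) ?_ hsub
    intro q
    induction q using Con.induction_on with
    | H u => exact ⟨u, rfl⟩
  refine ⟨⟨zeroSimple_of_zs (zs_quot g hz' i), hquot⟩, ?_⟩
  have hrow : ∀ u : C i, ∃ p : Option S ⊕ Option S, u ≠ ⟨z i, Or.inl rfl⟩ → RR u.1 (α i p) := by
    intro u
    rcases u.2 with h | ⟨h, ⟨p, hp⟩, -⟩
    · exact ⟨Sum.inl none, fun h' => absurd (Subtype.ext h) h'⟩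
    · exact ⟨p, fun _ => hp⟩
  have hcol : ∀ u : C i, ∃ p : Option S ⊕ Option S, u ≠ ⟨z i, Or.inl rfl⟩ → LL u.1 (β i p) := by
    intro u
    rcases u.2 with h | ⟨h, -, ⟨p, hp⟩⟩
    · exact ⟨Sum.inl none, fun h' => absurd (Subtype.ext h) h'⟩
    · exact ⟨p, fun _ => hp⟩
  choose ra hra using hrow
  choose lb hlb using hcol
  have hval : ∀ u : C i, u ≠ ⟨z i, Or.inl rfl⟩ → u.1 ≠ z i := fun u hu h => hu (Subtype.ext h)
  have := card_quot g hz' i ra lb
    (fun u v hu hv huv => sub_rr (hz i) (α i) (β i) (hα i) (hβ i) (h1 i) (h2 i) (hval u hu)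
      (hval v hv) ((hra u hu).trans (by rw [huv]; exact (hra v hv).symm)))
    (fun u v hu hv huv => sub_ll (hz i) (α i) (β i) (hα i) (hβ i) (h1 i) (h2 i) (hval u hu)
      (hval v hv) ((hlb u hu).trans (by rw [huv]; exact (hlb v hv).symm)))
  refine this.trans (le_of_eq ?_)
  have := Fintype.ofFinite S
  simp only [hpB, Nat.card_eq_fintype_card, Fintype.card_sum, Fintype.card_option]
  ring

theorem hp_bd {V : PV} (B : FinSg) (hB : B ∈ opH (opP (ZSO V))) :
    ∃ T ∈ opP (ZSO V), Nat.card T ≤ hpB' (Nat.card B) ∧ ∃ f : T →ₙ* B, Surjective f := by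
  obtain ⟨A, ⟨m, T, hT, ⟨e⟩⟩, f, hf⟩ := hB
  let F : (∀ i, T i) →ₙ* B := f.comp e.symm.toMulHom
  have hF : Surjective F := hf.comp e.symm.surjective
  obtain ⟨T', hT', f', hf'⟩ := hp_bd_size T hT F hF
  obtain ⟨k', hk', E, f'', hf''⟩ := merge T' (fun i => (hT' i).2) f' hf'
  have hpos : 1 ≤ hpB (Nat.card B) := Nat.le_add_left _ _
  have hnum : 1 ≤ numK (Nat.card B) (hpB (Nat.card B)) := by
    unfold numK
    exact Nat.one_le_iff_ne_zero.2 (by positivity)
  obtain ⟨k, hk1, hk2, E', g, hg⟩ : ∃ k : ℕ, 1 ≤ k ∧ k ≤ numK (Nat.card B) (hpB (Nat.card B)) ∧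
      ∃ E' : Fin k → Fin (m + 1), ∃ g : (∀ j, T' (E' j)) →ₙ* B, Surjective g := by
    rcases Nat.eq_zero_or_pos k' with h0 | h0
    · subst h0
      have hsub : ∀ b b' : B, b = b' := by
        intro b b'
        obtain ⟨w, hw⟩ := hf'' b
        obtain ⟨w', hw'⟩ := hf'' b'
        rw [← hw, ← hw']
        congr 1
        funext j
        exact j.elim0
      obtain ⟨b0⟩ := B.ne
      refine ⟨1, le_refl 1, hnum, fun _ => 0, ⟨fun _ => b0, fun _ _ => hsub _ _⟩, fun b => ?_⟩
      obtain ⟨t0⟩ := (T' 0).ne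
      exact ⟨fun _ => t0, hsub _ _⟩
    · exact ⟨k', h0, hk', E, f'', hf''⟩
  haveI : Nonempty (Fin k) := ⟨⟨0, hk1⟩⟩
  refine ⟨⟨∀ j, T' (E' j), inferInstance, inferInstance, inferInstance⟩, ?_, ?_, g, hg⟩
  · exact pi_mem_opP (fun j => T' (E' j)) (fun j => (hT' (E' j)).1) _ (MulEquiv.refl _)
  · show Nat.card (∀ j, T' (E' j)) ≤ _
    rw [Nat.card_pi]
    have h1 := Finset.prod_le_pow_card (Finset.univ : Finset (Fin k))
      (fun j => Nat.card (T' (E' j))) (hpB (Nat.card B)) (fun j _ => (hT' (E' j)).2)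
    rw [Finset.card_univ, Fintype.card_fin] at h1
    exact h1.trans (Nat.pow_le_pow_right hpos hk2)

end J11129

alias hp_bd := J11129.hp_bd

end

end Pool.Agent.H502.Bk
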