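import Pool.Agent.H502.BkSk
set_option autoImplicit false

namespace Pool.Agent.H502.Bk

section
open Function W

namespace J11121

/-! ### TARGET of this job: lab_zs -/

/-- a nonzero idempotent -/
theorem lab_zs_idem {C : Type} [Semigroup C] [Finite C] {z : C} (h : ZS z) :
    ∃ e : C, e ≠ z ∧ e * e = e := by
  obtain ⟨x, y, hxy⟩ := h.2.1
  obtain ⟨b, hb⟩ := h.exists_left hxy
  obtain ⟨c, hc⟩ := h.left_inv hb
  obtain ⟨k, hk⟩ := exists_idem_npw (c * b)
  refine ⟨npw (c * b) k, ?_, hk⟩
  have hc' : c * b * (x * y) = x * y := by rw [mul_assoc]; exact hc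
  have key : ∀ k, npw (c * b) k * (x * y) = x * y := by
    intro k
    induction k with
    | zero => exact hc'
    | succ k ih =>
      show npw (c * b) k * (c * b) * (x * y) = x * y
      rw [mul_assoc, hc', ih]
  intro h0
  have h1 := key k
  rw [h0, (h.1 _).1] at h1
  exact hxy h1.symm

/-- the maximal subgroup at an idempotent -/
def lab_zs_H {C : Type} [Semigroup C] (z e : C) : Type := {x : C // x ≠ z ∧ e * x = x ∧ x * e = x}

theorem lab_zs_mul {C : Type} [Semigroup C] [Finite C] {z e : C} (h : ZS z) {x y : C}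
    (hx : x ≠ z ∧ e * x = x ∧ x * e = x) (hy : y ≠ z ∧ e * y = y ∧ y * e = y) :
    x * y ≠ z ∧ e * (x * y) = x * y ∧ x * y * e = x * y := by
  refine ⟨?_, ?_, ?_⟩
  · have h1 : x * e ≠ z := by rw [hx.2.2]; exact hx.1
    have h2 : e * y ≠ z := by rw [hy.2.1]; exact hy.1
    have h3 := h.cat h1 h2
    rwa [hx.2.2] at h3
  · rw [← mul_assoc, hx.2.1]
  · rw [mul_assoc, hy.2.2]

theorem lab_zs_inv {C : Type} [Semigroup C] [Finite C] {z e : C} (h : ZS z) (he : e ≠ z)
    (hee : e * e = e) {x : C} (hx : x ≠ z ∧ e * x = x ∧ x * e = x) :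
    ∃ y : C, (y ≠ z ∧ e * y = y ∧ y * e = y) ∧ x * y = e := by
  have h1 : e * x ≠ z := by rw [hx.2.1]; exact hx.1
  obtain ⟨c, hc⟩ := h.right_inv h1
  rw [hx.2.1] at hc
  have h2 : x * (e * c * e) = e := by
    rw [← mul_assoc, ← mul_assoc, hx.2.2, hc, hee]
  refine ⟨e * c * e, ⟨?_, ?_, ?_⟩, h2⟩
  · exact h.mul_right_ne (a := x) (by rw [h2]; exact he)
  · rw [← mul_assoc, ← mul_assoc, hee]
  · rw [mul_assoc, hee]

/-- group structure -/
noncomputable def lab_zs_grp {C : Type} [Semigroup C] [Finite C] {z e : C} (h : ZS z) (he : e ≠ z)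
    (hee : e * e = e) : Group (lab_zs_H z e) :=
  letI : Mul (lab_zs_H z e) := ⟨fun x y => ⟨x.1 * y.1, lab_zs_mul h x.2 y.2⟩⟩
  letI : One (lab_zs_H z e) := ⟨⟨e, he, hee, hee⟩⟩
  letI : Inv (lab_zs_H z e) :=
    ⟨fun x => ⟨(lab_zs_inv h he hee x.2).choose, (lab_zs_inv h he hee x.2).choose_spec.1⟩⟩
  Group.ofRightAxioms (fun a b c => Subtype.ext (mul_assoc a.1 b.1 c.1))
    (fun a => Subtype.ext a.2.2.2)
    (fun a => Subtype.ext (lab_zs_inv h he hee a.2).choose_spec.2)


theorem lab_zs (V : PV) {C : Type} [Semigroup C] [Finite C] {z : C} (h : ZS z)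
    (hC : AllSub V C) {S : Type} (y : S → C) :
    Lab V (digOf z y) (fun p p' => ev y p = ev y p') := by
  classical
  obtain ⟨e, he, hee⟩ := lab_zs_idem h
  choose u v huv using fun s => h.2.2 e he (y s)
  letI : Group (lab_zs_H z e) := lab_zs_grp h he hee
  have hmulv : ∀ a b : lab_zs_H z e, (a * b).1 = a.1 * b.1 := fun a b => rfl
  have honev : (1 : lab_zs_H z e).1 = e := rfl
  let X : S → C := fun s => u s * e
  let Z : S → C := fun s => e * v s
  have hXe : ∀ s, X s * e = X s := fun s => by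
    show u s * e * e = u s * e
    rw [mul_assoc, hee]
  have hZe : ∀ s, e * Z s = Z s := fun s => by
    show e * (e * v s) = e * v s
    rw [← mul_assoc, hee]
  have hXZ : ∀ s, X s * Z s = y s := fun s => by
    show u s * e * (e * v s) = y s
    rw [← huv s]
    calc u s * e * (e * v s) = u s * (e * e) * v s := by simp only [mul_assoc]
      _ = u s * e * v s := by rw [hee]
  have hmem : ∀ s t, Z s * X t ≠ z →
      (Z s * X t ≠ z ∧ e * (Z s * X t) = Z s * X t ∧ Z s * X t * e = Z s * X t) := by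
    intro s t hst
    refine ⟨hst, ?_, ?_⟩
    · rw [← mul_assoc, hZe]
    · rw [mul_assoc, hXe]
  let lb : S → S → lab_zs_H z e := fun s t =>
    if hst : Z s * X t ≠ z then ⟨Z s * X t, hmem s t hst⟩ else 1
  have hlb : ∀ s t, Z s * X t ≠ z → (lb s t).1 = Z s * X t := by
    intro s t hst
    simp only [lb, dif_pos hst]
  refine ⟨lab_zs_H z e, inferInstance, lb, ?_, ?_⟩
  · exact hC (lab_zs_H z e) ⟨Subtype.val, fun a b => rfl⟩ Subtype.val_injective
  · have key : ∀ p, path (digOf z y) p → ev y p = X (head p) * (lab lb p).1 * Z (last p) := by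
      intro p
      induction p with
      | one s =>
        intro _
        show y s = X s * (1 : lab_zs_H z e).1 * Z s
        rw [honev, hXe, hXZ]
      | snoc w t ih =>
        rintro ⟨hw, -, -, hst⟩
        have h0 : y (last w) * y t ≠ z := hst
        have h1 : Z (last w) * X t ≠ z := by
          have h2 : X (last w) * (Z (last w) * X t) * Z t ≠ z := by
            have h3 : X (last w) * (Z (last w) * X t) * Z t = y (last w) * y t := by
              rw [← hXZ (last w), ← hXZ t]
              simp only [mul_assoc]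
            rw [h3]; exact h0
          exact h.mul_right_ne (h.mul_left_ne h2)
        show ev y w * y t = X (head w) * (lab lb w * lb (last w) t).1 * Z t
        rw [hmulv, hlb _ _ h1, ih hw, ← hXZ t]
        simp only [mul_assoc]
    intro p p' hp hp' hh hl hlab
    show ev y p = ev y p'
    rw [key p hp, key p' hp', hh, hl, hlab]


end J11121

alias lab_zs := J11121.lab_zs

end

end Pool.Agent.H502.Bk
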