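import Pool.Agent.H502.BkSk
set_option autoImplicit false

namespace Pool.Agent.H502.Bk

section
open Function W

namespace J11125

/-! ### TARGET of this job: mB_mono -/

theorem mB_mono {m n q q' : ℕ} (h : q ≤ q') (hq : 0 < q) : mB m n q ≤ mB m n q' := by
  have h1 : q ^ q ≤ q' ^ q' :=
    (Nat.pow_le_pow_left h q).trans (Nat.pow_le_pow_right (lt_of_lt_of_le hq h) h)
  have h2 : gB m n q ≤ gB m n q' := by
    unfold gB
    exact Nat.mul_le_mul_left _ (Nat.pow_le_pow_left h1 n)
  unfold mB
  exact Nat.add_le_add_right (Nat.mul_le_mul_left _ (Nat.mul_le_mul_right _ h2)) 1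

end J11125

alias mB_mono := J11125.mB_mono

end

end Pool.Agent.H502.Bk
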