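import Pool.Agent.H502.BkSk
import Pool.Agent.H502.BkJ_lab_zs
import Pool.Agent.H502.BkJ_mB_mono
set_option autoImplicit false

namespace Pool.Agent.H502.Bk

section
open Function W

namespace J11126

-- helper559: TARGET hs_bd, compiles (the RM section of the prelude, lines 336-388, gives errors on my box, independent of this)
theorem hs_bd {V : PV} {m : ℕ} (hm : RealB V m) (B : FinSg) (hB : B ∈ opH (opS (ZSO V))) :
    ∃ U ∈ opS (ZSO V), Nat.card U ≤ hsB m (Nat.card B) ∧ ∃ f : U →ₙ* B, Surjective f := by
  classical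
  obtain ⟨A, ⟨C, ⟨hC0, hCV⟩, j, hj⟩, f, hf⟩ := hB
  obtain ⟨z, hz⟩ := zs_of_zeroSimple hC0
  choose x hx using hf
  have hfv : ∀ w : W B, f (ev x w) = val w := by
    intro w
    rw [map_ev]
    unfold val
    congr 1
    funext s
    exact hx s
  have hjv : ∀ w : W B, j (ev x w) = ev (fun s => j (x s)) w := fun w => map_ev j x w
  have hval : ∀ w w' : W B, ev (fun s => j (x s)) w = ev (fun s => j (x s)) w' → val w = val w' := by
    intro w w' h
    rw [← hjv, ← hjv] at h
    rw [← hfv, ← hfv, hj h]
  let D : Dig B := digOf z (fun s => j (x s))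
  let R : Setoid (W B) :=
    { r := fun p p' => last p = last p' ∧ val p = val p'
      iseqv := ⟨fun _ => ⟨rfl, rfl⟩, fun h => ⟨h.1.symm, h.2.symm⟩,
        fun h h' => ⟨h.1.trans h'.1, h.2.trans h'.2⟩⟩ }
  let q : Quotient R → B × B := fun c => Quotient.lift (fun p : W B => (last p, val p))
    (fun p p' (h : last p = last p' ∧ val p = val p') => Prod.ext h.1 h.2) c
  have hq : Injective q := by
    intro c c'
    refine Quotient.inductionOn₂ c c' (fun p p' h => ?_)
    apply Quotient.sound
    have h' : (last p, val p) = (last p', val p') := h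
    exact ⟨(Prod.mk.inj h').1, (Prod.mk.inj h').2⟩
  have hfin : Finite (Quotient R) := Finite.of_injective q hq
  have hcardq : Nat.card (Quotient R) ≤ Nat.card B * Nat.card B := by
    rw [← Nat.card_prod]
    exact Nat.card_le_card_of_injective q hq
  have hne : Nonempty (Quotient R) := ⟨Quotient.mk R (one (Classical.arbitrary B))⟩
  have hpos : 0 < Nat.card (Quotient R) := Nat.card_pos
  have hLab : Lab V D (fun p p' => R p p') := by
    obtain ⟨G, iG, lb, hG, h⟩ := lab_zs V hz hCV (fun s => j (x s))
    refine ⟨G, iG, lb, hG, fun p p' hp hp' hh hl he => ⟨hl, ?_⟩⟩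
    exact hval _ _ (h p p' hp hp' hh hl he)
  obtain ⟨M, g, hM, hMc, hMp⟩ := hm B D R (fun p p' h => h.1)
    (fun p p' s h => ⟨rfl, by
      show val p * s = val p' * s
      rw [h.2]⟩) hfin hLab
  have key : ∀ w w' : W B, ev g w = ev g w' → val w = val w' := by
    intro w w' h
    obtain ⟨h1, h2⟩ := hMp w w' h
    by_cases hp : path D w
    · exact (h2 hp).2.2.2
    · have hp' : ¬ path D w' := fun h3 => hp (h1.2 h3)
      apply hval
      have e1 : ev (fun s => j (x s)) w = z := by
        by_contra h3
        exact hp ((ev_ne_iff hz _ w).1 h3)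
      have e2 : ev (fun s => j (x s)) w' = z := by
        by_contra h3
        exact hp' ((ev_ne_iff hz _ w').1 h3)
      rw [e1, e2]
  let U : Subsemigroup M :=
    { carrier := {r | ∃ w : W B, ev g w = r}
      mul_mem' := by
        rintro _ _ ⟨w, rfl⟩ ⟨w', rfl⟩
        exact ⟨w * w', ev_mul g w w'⟩ }
  have hUne : Nonempty U := ⟨⟨ev g (one (Classical.arbitrary B)), ⟨_, rfl⟩⟩⟩
  refine ⟨⟨U, inferInstance, inferInstance, hUne⟩, ⟨M, hM, MulMemClass.subtype U,
    Subtype.coe_injective⟩, ?_, ?_⟩
  · have h1 : Nat.card U ≤ Nat.card M :=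
      Nat.card_le_card_of_injective (fun u : U => (u : M)) Subtype.coe_injective
    exact h1.trans (hMc.trans (mB_mono hcardq hpos))
  · let wd : U → W B := fun u => Classical.choose u.2
    have hwd : ∀ u : U, ev g (wd u) = u := fun u => Classical.choose_spec u.2
    refine ⟨⟨fun u => val (wd u), ?_⟩, ?_⟩
    · intro u v
      have h1 : val (wd (u * v)) = val (wd u * wd v) := by
        apply key
        rw [ev_mul, hwd, hwd, hwd]
        rfl
      show val (wd (u * v)) = val (wd u) * val (wd v)
      rw [h1]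
      exact ev_mul _ _ _
    · intro b
      refine ⟨⟨ev g (one b), ⟨_, rfl⟩⟩, ?_⟩
      show val (wd ⟨ev g (one b), ⟨_, rfl⟩⟩) = b
      have h1 : val (wd ⟨ev g (one b), ⟨_, rfl⟩⟩) = val (one b) := by
        apply key
        rw [hwd]
      rw [h1]
      rfl



end J11126

alias hs_bd := J11126.hs_bd

end

end Pool.Agent.H502.Bk
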