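import Pool.Agent.H502.BkSk
import Pool.Agent.H502.BkJ_plus_last
set_option autoImplicit false

namespace Pool.Agent.H502.Bk

section
open Function W

namespace J11599

/-! ### TARGET of this job: plus_path -/

theorem plus_path_last_npw {S : Type} (c : W S) (k : ℕ) : last (npw c k) = last c := by
  cases k with
  | zero => rfl
  | succ k => exact last_mul _ _

theorem plus_path_head_npw {S : Type} (c : W S) (k : ℕ) : head (npw c k) = head c := by
  induction k with
  | zero => rfl
  | succ k ih =>
    show head (npw c k * c) = _
    rw [head_mul, ih]

theorem plus_path_npw {S : Type} {E : Dig S} {c : W S} (hc : path E c)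
    (ha : arc E (last c) (head c)) (k : ℕ) : path E (npw c k) := by
  induction k with
  | zero => exact hc
  | succ k ih =>
    show path E (npw c k * c)
    rw [path_mul, plus_path_last_npw]
    exact ⟨ih, ha, hc⟩

open Classical in
theorem plus_path {S : Type} (E : Dig S) (c : S → W S) (K : ℕ)
    (hc : ∀ s, conn E s s → Loop E s (c s)) (w : W S) (hw : path E w) :
    path E (plus E c K w) := by
  have hp : ∀ t, E.1 t → path E (if conn E t t then one t * npw (c t) K else one t) ∧
      head (if conn E t t then one t * npw (c t) K else one t) = t := by
    intro t ht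
    split_ifs with h
    · obtain ⟨h1, h2, h3⟩ := hc t h
      refine ⟨?_, head_mul _ _⟩
      rw [path_mul, plus_path_head_npw]
      exact ⟨ht, h2, plus_path_npw h1 (by rw [h3]; exact h2) K⟩
    · exact ⟨ht, rfl⟩
  induction w with
  | one s =>
    exact (hp s hw).1
  | snoc w t ih =>
    obtain ⟨h1, h2⟩ := hw
    show path E (plus E c K w * (if conn E t t then one t * npw (c t) K else one t))
    rw [path_mul, (hp t h2.2.1).2, plus_last E c K (fun s hs => (hc s hs).2.2)]
    exact ⟨ih h1, h2, (hp t h2.2.1).1⟩

end J11599

alias plus_path := J11599.plus_path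

end

end Pool.Agent.H502.Bk
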