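import Pool.Agent.H502.BkSk
import Pool.Agent.H502.BkJ_plus_last
import Pool.Agent.H502.BkJ_plus_head
import Pool.Agent.H502.BkJ_plus_path
set_option autoImplicit false

namespace Pool.Agent.H502.Bk

section
open Function W

namespace J11600

/-! ### TARGET of this job: plus_arcs -/

theorem plus_arcs_mul_one {S : Type} (u v : W S) (x : S) :
    (arcs (u * v)).1 x ↔ (arcs u).1 x ∨ (arcs v).1 x := by
  induction v with
  | one t => exact Iff.rfl
  | snoc v t ih =>
    show (arcs (u * v)).1 x ∨ x = t ↔ (arcs u).1 x ∨ ((arcs v).1 x ∨ x = t)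
    rw [ih, or_assoc]

theorem plus_arcs_mul_two {S : Type} (u v : W S) (x y : S) :
    (arcs (u * v)).2 x y ↔ (arcs u).2 x y ∨ (arcs v).2 x y ∨ (x = last u ∧ y = head v) := by
  induction v with
  | one t =>
    show (arcs u).2 x y ∨ (x = last u ∧ y = t) ↔ (arcs u).2 x y ∨ False ∨ (x = last u ∧ y = t)
    tauto
  | snoc v t ih =>
    show (arcs (u * v)).2 x y ∨ (x = last (u * v) ∧ y = t) ↔
      (arcs u).2 x y ∨ ((arcs v).2 x y ∨ (x = last v ∧ y = t)) ∨ (x = last u ∧ y = head v)
    rw [ih, last_mul]
    tauto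

theorem plus_arcs_last_mem {S : Type} (w : W S) : (arcs w).1 (last w) := by
  cases w with
  | one s => rfl
  | snoc w t => exact Or.inr rfl

theorem plus_arcs_npw_one {S : Type} (c : W S) (k : ℕ) (x : S) :
    (arcs (npw c k)).1 x ↔ (arcs c).1 x := by
  induction k with
  | zero => exact Iff.rfl
  | succ k ih =>
    show (arcs (npw c k * c)).1 x ↔ _
    rw [plus_arcs_mul_one, ih, or_self]

theorem plus_arcs_last_npw {S : Type} (c : W S) (k : ℕ) : last (npw c k) = last c := by
  cases k with
  | zero => rfl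
  | succ k => exact last_mul _ _

theorem plus_arcs_head_npw {S : Type} (c : W S) (k : ℕ) : head (npw c k) = head c := by
  induction k with
  | zero => rfl
  | succ k ih =>
    show head (npw c k * c) = _
    rw [head_mul, ih]

theorem plus_arcs_npw_two {S : Type} (c : W S) (k : ℕ) (x y : S)
    (h : (arcs (npw c k)).2 x y) : (arcs c).2 x y ∨ (x = last c ∧ y = head c) := by
  induction k with
  | zero => exact Or.inl h
  | succ k ih =>
    have h' : (arcs (npw c k * c)).2 x y := h
    rw [plus_arcs_mul_two, plus_arcs_last_npw] at h'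
    rcases h' with h' | h' | h'
    · exact ih h'
    · exact Or.inl h'
    · exact Or.inr h'

theorem plus_arcs_npw_two' {S : Type} (c : W S) (k : ℕ) (x y : S)
    (h : (arcs c).2 x y) : (arcs (npw c k)).2 x y := by
  induction k with
  | zero => exact h
  | succ k ih =>
    show (arcs (npw c k * c)).2 x y
    rw [plus_arcs_mul_two]
    exact Or.inl ih

/-- vertices of a walk starting after `s` are reachable from `s` -/
theorem plus_arcs_from {S : Type} {E : Dig S} {s : S} (w : W S) (hw : path E w)
    (ha : arc E s (head w)) (x : S) (hx : (arcs w).1 x) : conn E s x := by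
  induction w generalizing x with
  | one t =>
    have hx' : x = t := hx
    rw [hx']
    exact conn_of_arc ha
  | snoc w t ih =>
    have hw1 : path E w := hw.1
    have hw2 : arc E (last w) t := hw.2
    rcases hx with hx | hx
    · exact ih hw1 ha x hx
    · rw [hx]
      exact conn_trans (ih hw1 ha _ (plus_arcs_last_mem w)) (conn_of_arc hw2)

/-- the last letter is reachable from every vertex of the word or is this vertex -/
theorem plus_arcs_to {S : Type} {E : Dig S} (w : W S) (hw : path E w)
    (x : S) (hx : (arcs w).1 x) : x = last w ∨ conn E x (last w) := by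
  induction w with
  | one t => exact Or.inl hx
  | snoc w t ih =>
    have hw1 : path E w := hw.1
    have hw2 : arc E (last w) t := hw.2
    rcases hx with hx | hx
    · right
      rcases ih hw1 hx with h | h
      · rw [h]
        exact conn_of_arc hw2
      · exact conn_trans h (conn_of_arc hw2)
    · exact Or.inl hx

/-- end points of arcs are vertices -/
theorem plus_arcs_vert {S : Type} (w : W S) (x y : S) (h : (arcs w).2 x y) :
    (arcs w).1 x ∧ (arcs w).1 y := by
  induction w with
  | one t => exact h.elim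
  | snoc w t ih =>
    rcases h with h | ⟨hx, hy⟩
    · exact ⟨Or.inl (ih h).1, Or.inl (ih h).2⟩
    · refine ⟨Or.inl ?_, Or.inr hy⟩
      rw [hx]
      exact plus_arcs_last_mem w

/-- strongly connected component of `t` -/
def plus_arcsC {S : Type} (E : Dig S) (t x : S) : Prop := x = t ∨ (conn E t x ∧ conn E x t)

theorem plus_arcsC_trans {S : Type} {E : Dig S} {r s t : S} (h : plus_arcsC E r s)
    (h' : plus_arcsC E s t) : plus_arcsC E r t := by
  rcases h with rfl | ⟨h1, h2⟩
  · exact h'
  · rcases h' with rfl | ⟨h3, h4⟩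
    · exact Or.inr ⟨h1, h2⟩
    · exact Or.inr ⟨conn_trans h1 h3, conn_trans h4 h2⟩

/-- right side of the vertex formula -/
def plus_arcsV {S : Type} (E : Dig S) (w : W S) (x : S) : Prop :=
  plus_arcsC E (head w) x ∨ ∃ a b, (arcs w).2 a b ∧ ¬ conn E b a ∧ plus_arcsC E b x

theorem plus_arcsV_trans {S : Type} {E : Dig S} {w : W S} {x y : S} (h : plus_arcsV E w x)
    (h' : plus_arcsC E x y) : plus_arcsV E w y := by
  rcases h with h | ⟨a, b, h1, h2, h3⟩
  · exact Or.inl (plus_arcsC_trans h h')
  · exact Or.inr ⟨a, b, h1, h2, plus_arcsC_trans h3 h'⟩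

open Classical in
theorem plus_arcs_piece {S : Type} (E : Dig S) (c : S → W S) (K : ℕ)
    (hc : ∀ s, conn E s s → Loop E s (c s) ∧ (∀ x, conn E s x → conn E x s → (arcs (c s)).1 x) ∧
      ∀ x y, arc E x y → conn E s x → conn E y s → (arcs (c s)).2 x y) (t : S) :
    (∀ x, (arcs (if conn E t t then one t * npw (c t) K else one t)).1 x ↔ plus_arcsC E t x) ∧
    ∀ x y, (arcs (if conn E t t then one t * npw (c t) K else one t)).2 x y ↔
      arc E x y ∧ conn E t x ∧ conn E y t := by
  split_ifs with h
  · obtain ⟨⟨h1, h2, h3⟩, h4, h5⟩ := hc t h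
    have hv : ∀ x, (arcs (c t)).1 x → conn E t x ∧ conn E x t := by
      intro x hx
      refine ⟨plus_arcs_from (c t) h1 h2 x hx, ?_⟩
      rcases plus_arcs_to (c t) h1 x hx with h6 | h6
      · rw [h6, h3]; exact h
      · rw [h3] at h6; exact h6
    have hle := (arcs_le_iff (c t)).2 h1
    refine ⟨fun x => ?_, fun x y => ?_⟩
    · rw [plus_arcs_mul_one, plus_arcs_npw_one]
      constructor
      · rintro (h6 | h6)
        · exact Or.inl h6
        · exact Or.inr (hv x h6)
      · rintro (h6 | h6)
        · exact Or.inl h6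
        · exact Or.inr (h4 x h6.1 h6.2)
    · rw [plus_arcs_mul_two, plus_arcs_head_npw]
      constructor
      · have hcl : x = t ∧ y = head (c t) → arc E x y ∧ conn E t x ∧ conn E y t := by
          rintro ⟨rfl, rfl⟩
          refine ⟨h2, h, ?_⟩
          have h6 : (arcs (c x)).1 (head (c x)) := by
            generalize c x = u
            induction u with
            | one s => rfl
            | snoc w t ih => exact Or.inl ih
          exact (hv _ h6).2
        rintro (h6 | h6 | h6)
        · exact h6.elim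
        · rcases plus_arcs_npw_two _ _ _ _ h6 with h7 | h7
          · have h8 := plus_arcs_vert _ _ _ h7
            refine ⟨⟨?_, ?_, hle.2 x y h7⟩, (hv x h8.1).1, (hv y h8.2).2⟩
            · exact hle.1 x h8.1
            · exact hle.1 y h8.2
          · rw [h3] at h7
            exact hcl h7
        · exact hcl h6
      · rintro ⟨h6, h7, h8⟩
        exact Or.inr (Or.inl (plus_arcs_npw_two' _ _ _ _ (h5 x y h6 h7 h8)))
  · refine ⟨fun x => ?_, fun x y => ?_⟩
    · constructor
      · intro h6
        exact Or.inl h6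
      · rintro (h6 | h6)
        · exact h6
        · exact absurd (conn_trans h6.1 h6.2) h
    · constructor
      · intro h6
        exact h6.elim
      · rintro ⟨h6, h7, h8⟩
        exact absurd (conn_trans (conn_trans h7 (conn_of_arc h6)) h8) h

open Classical in
theorem plus_arcs_form {S : Type} (E : Dig S) (c : S → W S) (K : ℕ)
    (hc : ∀ s, conn E s s → Loop E s (c s) ∧ (∀ x, conn E s x → conn E x s → (arcs (c s)).1 x) ∧
      ∀ x y, arc E x y → conn E s x → conn E y s → (arcs (c s)).2 x y)
    (w : W S) (hw : path E w) :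
    (∀ x, (arcs (plus E c K w)).1 x ↔ plus_arcsV E w x) ∧
    ∀ x y, (arcs (plus E c K w)).2 x y ↔
      ((arcs w).2 x y ∧ ¬ conn E y x) ∨ (arc E x y ∧ conn E y x ∧ plus_arcsV E w x) := by
  induction w with
  | one s =>
    obtain ⟨h1, h2⟩ := plus_arcs_piece E c K hc s
    have hV : ∀ x, plus_arcsV E (one s) x ↔ plus_arcsC E s x := by
      intro x
      constructor
      · rintro (h | ⟨a, b, h, -⟩)
        · exact h
        · exact h.elim
      · exact Or.inl
    refine ⟨fun x => (h1 x).trans (hV x).symm, fun x y => (h2 x y).trans ?_⟩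
    rw [hV]
    constructor
    · rintro ⟨h3, h4, h5⟩
      exact Or.inr ⟨h3, conn_trans h5 h4, Or.inr ⟨h4, conn_trans (conn_of_arc h3) h5⟩⟩
    · rintro (h3 | ⟨h3, h4, h5⟩)
      · exact h3.1.elim
      · rcases h5 with rfl | ⟨h5, h6⟩
        · exact ⟨h3, conn_trans (conn_of_arc h3) h4, h4⟩
        · exact ⟨h3, h5, conn_trans h4 h6⟩
  | snoc w t ih =>
    have hw1 : path E w := hw.1
    have hw2 : arc E (last w) t := hw.2
    obtain ⟨ih1, ih2⟩ := ih hw1
    obtain ⟨h1, h2⟩ := plus_arcs_piece E c K hc t
    have hhead : head (if conn E t t then one t * npw (c t) K else one t) = t := by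
      split_ifs
      · exact head_mul _ _
      · rfl
    have hlast : last (plus E c K w) = last w := plus_last E c K (fun s hs => (hc s hs).1.2.2) w
    have hVl : plus_arcsV E w (last w) := by
      rw [← ih1, ← hlast]
      exact plus_arcs_last_mem _
    have hV : ∀ x, plus_arcsV E (snoc w t) x ↔ plus_arcsV E w x ∨ plus_arcsC E t x := by
      intro x
      constructor
      · rintro (h | ⟨a, b, h3 | ⟨h3, h3'⟩, h4, h5⟩)
        · exact Or.inl (Or.inl h)
        · exact Or.inl (Or.inr ⟨a, b, h3, h4, h5⟩)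
        · rw [h3'] at h5
          exact Or.inr h5
      · rintro (h | h)
        · rcases h with h | ⟨a, b, h3, h4, h5⟩
          · exact Or.inl h
          · exact Or.inr ⟨a, b, Or.inl h3, h4, h5⟩
        · by_cases hcn : conn E t (last w)
          · have h6 : plus_arcsV E w x := by
              refine plus_arcsV_trans hVl (plus_arcsC_trans (Or.inr ⟨conn_of_arc hw2, hcn⟩) h)
            rcases h6 with h6 | ⟨a, b, h3, h4, h5⟩
            · exact Or.inl h6
            · exact Or.inr ⟨a, b, Or.inl h3, h4, h5⟩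
          · exact Or.inr ⟨last w, t, Or.inr ⟨rfl, rfl⟩, hcn, h⟩
    refine ⟨fun x => ?_, fun x y => ?_⟩
    · show (arcs (plus E c K w * (if conn E t t then one t * npw (c t) K else one t))).1 x ↔ _
      rw [plus_arcs_mul_one, ih1, h1, hV]
    · show (arcs (plus E c K w * (if conn E t t then one t * npw (c t) K else one t))).2 x y ↔
        (((arcs w).2 x y ∨ (x = last w ∧ y = t)) ∧ ¬ conn E y x) ∨ _
      rw [plus_arcs_mul_two, ih2, h2, hV, hlast, hhead]
      constructor
      · rintro ((⟨h3, h4⟩ | ⟨h3, h4, h5⟩) | ⟨h3, h4, h5⟩ | ⟨h3, h4⟩)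
        · exact Or.inl ⟨Or.inl h3, h4⟩
        · exact Or.inr ⟨h3, h4, Or.inl h5⟩
        · exact Or.inr ⟨h3, conn_trans h5 h4, Or.inr (Or.inr ⟨h4, conn_trans (conn_of_arc h3) h5⟩)⟩
        · by_cases hcn : conn E y x
          · refine Or.inr ⟨?_, hcn, Or.inl ?_⟩
            · rw [h3, h4]; exact hw2
            · rw [h3]; exact hVl
          · exact Or.inl ⟨Or.inr ⟨h3, h4⟩, hcn⟩
      · rintro (⟨h3 | h3, h4⟩ | ⟨h3, h4, h5 | h5⟩)
        · exact Or.inl (Or.inl ⟨h3, h4⟩)
        · exact Or.inr (Or.inr h3)
        · exact Or.inl (Or.inr ⟨h3, h4, h5⟩)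
        · right; left
          rcases h5 with rfl | ⟨h5, h6⟩
          · exact ⟨h3, conn_trans (conn_of_arc h3) h4, h4⟩
          · exact ⟨h3, h5, conn_trans h4 h6⟩

/-- the vertices and arcs of `plus w` are determined by the first letter and the outer arcs -/
theorem plus_arcs {S : Type} (E : Dig S) (c : S → W S) (K : ℕ)
    (hc : ∀ s, conn E s s → Loop E s (c s) ∧ (∀ x, conn E s x → conn E x s → (arcs (c s)).1 x) ∧
      ∀ x y, arc E x y → conn E s x → conn E y s → (arcs (c s)).2 x y)
    (w w' : W S) (hw : path E w) (hw' : path E w') (hh : head w = head w')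
    (ho : ∀ x y, ¬ conn E y x → ((arcs w).2 x y ↔ (arcs w').2 x y)) :
    arcs (plus E c K w) = arcs (plus E c K w') := by
  obtain ⟨h1, h2⟩ := plus_arcs_form E c K hc w hw
  obtain ⟨h1', h2'⟩ := plus_arcs_form E c K hc w' hw'
  have hV : ∀ x, plus_arcsV E w x ↔ plus_arcsV E w' x := by
    intro x
    unfold plus_arcsV
    rw [hh]
    constructor
    · rintro (h | ⟨a, b, h3, h4, h5⟩)
      · exact Or.inl h
      · exact Or.inr ⟨a, b, (ho a b h4).1 h3, h4, h5⟩
    · rintro (h | ⟨a, b, h3, h4, h5⟩)
      · exact Or.inl h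
      · exact Or.inr ⟨a, b, (ho a b h4).2 h3, h4, h5⟩
  refine Prod.ext ?_ ?_
  · funext x
    exact propext ((h1 x).trans ((hV x).trans (h1' x).symm))
  · funext x y
    refine propext ((h2 x y).trans (Iff.trans ?_ (h2' x y).symm))
    rw [hV]
    constructor
    · rintro (⟨h3, h4⟩ | h3)
      · exact Or.inl ⟨(ho x y h4).1 h3, h4⟩
      · exact Or.inr h3
    · rintro (⟨h3, h4⟩ | h3)
      · exact Or.inl ⟨(ho x y h4).2 h3, h4⟩
      · exact Or.inr h3

end J11600

alias plus_arcs := J11600.plus_arcs

end

end Pool.Agent.H502.Bk
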