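import Pool.Agent.H502.BkSk
import Pool.Agent.H502.BkJ_plus_last
import Pool.Agent.H502.BkJ_plus_head
set_option autoImplicit false

namespace Pool.Agent.H502.Bk

section
open Function W

namespace J11612

/-! ### TARGET of this job: plus_ev -/

theorem plus_ev_head_npw {S : Type} (c : W S) (k : ℕ) : head (npw c k) = head c := by
  induction k with
  | zero => rfl
  | succ k ih =>
    show head (npw c k * c) = _
    rw [head_mul, ih]

theorem plus_ev_of_npw {S : Type} {E : Dig S} {c : W S} {k : ℕ} (h : path E (npw c k)) :
    path E c := by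
  cases k with
  | zero => exact h
  | succ k => exact ((path_mul (npw c k) c).1 h).2.2

theorem plus_ev {S : Type} (E : Dig S) (c : S → W S) {t : ℕ}
    (hc : ∀ s, conn E s s → last (c s) = s) {C : Type} [Semigroup C] [Finite C] {z : C}
    (hz : ZS z) (ht : Nat.card C ≤ t) (y : S → C) (w : W S)
    (hw : path (digOf z y) (plus E c (t.factorial - 1) w)) :
    ev y (plus E c (t.factorial - 1) w) = ev y w := by
  induction w with
  | one s =>
    simp only [plus] at hw ⊢
    split_ifs at hw ⊢ with h
    · obtain ⟨h1, h2, h3⟩ := (path_mul _ _).1 hw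
      rw [plus_ev_head_npw] at h2
      exact ev_pump hz y (plus_ev_of_npw h3) (by rw [hc s h]; exact h2) (npw_idem ht _) (one s)
        (hc s h).symm
    · rfl
  | snoc w s ih =>
    simp only [plus] at hw ⊢
    obtain ⟨h1, h2, h3⟩ := (path_mul _ _).1 hw
    have ih' := ih h1
    split_ifs at h3 ⊢ with h
    · obtain ⟨h4, h5, h6⟩ := (path_mul _ _).1 h3
      rw [plus_ev_head_npw] at h5
      rw [← mul_assoc, ev_pump hz y (plus_ev_of_npw h6) (by rw [hc s h]; exact h5) (npw_idem ht _) _
        (by rw [last_mul]; exact (hc s h).symm), ev_mul, ih']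
      rfl
    · rw [ev_mul, ih']
      rfl

end J11612

alias plus_ev := J11612.plus_ev

end

end Pool.Agent.H502.Bk
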