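import Pool.Agent.H502.BkSk
import Pool.Agent.H502.BkJ_PV_pi
import Pool.Agent.H502.BkJ_lab_zs
import Pool.Agent.H502.BkJ_cover_exists
import Pool.Agent.H502.BkJ_plus_head
import Pool.Agent.H502.BkJ_plus_last
import Pool.Agent.H502.BkJ_plus_path
import Pool.Agent.H502.BkJ_plus_arcs
import Pool.Agent.H502.BkJ_arcs_le_plus
import Pool.Agent.H502.BkJ_plus_ev
set_option autoImplicit false

namespace Pool.Agent.H502.Bk

section
open Function W

namespace J11625


theorem hl_lab_map {S G H : Type} [Group G] [Group H] (f : G →* H) (lb : S → S → G) (p : W S) :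
    f (lab lb p) = lab (fun s t => f (lb s t)) p := by
  induction p with
  | one s => exact map_one f
  | snoc w t ih =>
    show f (lab lb w * lb (last w) t) = lab (fun s t => f (lb s t)) w * f (lb (last w) t)
    rw [map_mul, ih]

theorem hl_arc_reach {S : Type} {E : Dig S} {p : W S} (hp : path E p) {x y : S}
    (h : (arcs p).2 x y) : y = last p ∨ conn E y (last p) := by
  induction p with
  | one s => exact h.elim
  | snoc w t ih =>
    obtain ⟨h1, h2⟩ := hp
    rcases h with h | ⟨-, h⟩
    · rcases ih h1 h with h3 | h3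
      · right
        rw [h3]; exact conn_of_arc h2
      · right
        exact conn_trans h3 (conn_of_arc h2)
    · left; exact h

open Classical in
theorem hl_outer {S G : Type} [Group G] {E : Dig S} (a : G) {x y : S} (hxy : ¬ conn E y x)
    (p : W S) (hp : path E p) :
    lab (fun s t => if x = s ∧ y = t ∧ ¬ conn E t s then a else 1) p =
      if (arcs p).2 x y then a else 1 := by
  induction p with
  | one s =>
    rw [if_neg (show ¬ (arcs (one s)).2 x y from fun h => h)]
    rfl
  | snoc w t ih =>
    obtain ⟨h1, h2⟩ := hp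
    have hi : (arcs (snoc w t)).2 x y ↔ ((arcs w).2 x y ∨ (x = last w ∧ y = t)) := Iff.rfl
    have hlab : lab (fun s t => if x = s ∧ y = t ∧ ¬ conn E t s then a else 1) (snoc w t) =
      lab (fun s t => if x = s ∧ y = t ∧ ¬ conn E t s then a else 1) w *
      (if x = last w ∧ y = t ∧ ¬ conn E t (last w) then a else 1) := rfl
    rw [hlab, ih h1]
    by_cases hc : x = last w ∧ y = t
    · obtain ⟨hx, hy⟩ := hc
      have hn : ¬ (arcs w).2 x y := by
        intro h3
        rcases hl_arc_reach h1 h3 with h4 | h4
        · apply hxy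
          have h5 : arc E (last w) t := h2
          rw [← hx, ← hy] at h5
          have h6 : y = x := h4.trans hx.symm
          have h7 : conn E x y := conn_of_arc h5
          rw [h6] at h7 ⊢
          exact h7
        · exact hxy (by rw [hx]; exact h4)
      have hn2 : ¬ conn E t (last w) := by rw [← hx, ← hy]; exact hxy
      rw [if_neg hn, if_pos ⟨hx, hy, hn2⟩, if_pos (hi.2 (Or.inr ⟨hx, hy⟩)), one_mul]
    · have hn3 : ¬ (x = last w ∧ y = t ∧ ¬ conn E t (last w)) := fun h => hc ⟨h.1, h.2.1⟩
      rw [if_neg hn3, mul_one]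
      by_cases h3 : (arcs w).2 x y
      · rw [if_pos h3, if_pos (hi.2 (Or.inl h3))]
      · rw [if_neg h3, if_neg (fun h => (hi.1 h).elim h3 hc)]

theorem hl_val_mul {S : Type} [Semigroup S] (u v : W S) : val (u * v) = val u * val v :=
  ev_mul _ u v

/-! ### TARGET of this job: hsp_lab -/

theorem hsp_lab (V : PV) {m0 : ℕ} (hm0 : 2 ≤ m0) (hV : V.mem (Multiplicative (ZMod m0)))
    {S : Type} [Semigroup S] [Finite S] {ι : Type} [Finite ι] (C : ι → Type)
    [∀ i, Semigroup (C i)] [∀ i, Finite (C i)] (z : ∀ i, C i) (hz : ∀ i, ZS (z i))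
    (hC : ∀ i, AllSub V (C i)) (y : ∀ i, S → C i)
    (hy : ∀ w w' : W S, (∀ i, ev (y i) w = ev (y i) w') → val w = val w') (E : Dig S) :
    ∃ P : W S → W S, (∀ w t, val (P (snoc w t)) = val (P w) * val (P (one t))) ∧
      Lab V E (fun p p' => val (P p) = val (P p')) ∧
      ∀ w, arcs w = E → val (P w) = val w := by
  classical
  have := Fintype.ofFinite ι
  have hex : ∀ s : S, ∃ c : W S, conn E s s → (Loop E s c ∧
      (∀ x, conn E s x → conn E x s → (arcs c).1 x) ∧
      ∀ x y, arc E x y → conn E s x → conn E y s → (arcs c).2 x y) := by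
    intro s
    by_cases hs : conn E s s
    · obtain ⟨c, hc⟩ := cover_exists E s hs
      exact ⟨c, fun _ => hc⟩
    · exact ⟨one s, fun h => (hs h).elim⟩
  choose c hc using hex
  have hcl : ∀ s, conn E s s → last (c s) = s := fun s hs => (hc s hs).1.2.2
  have hcL : ∀ s, conn E s s → Loop E s (c s) := fun s hs => (hc s hs).1
  obtain ⟨t0, ht0⟩ : ∃ t0 : ℕ, ∀ i, Nat.card (C i) ≤ t0 :=
    ⟨∑ i, Nat.card (C i), fun i =>
      Finset.single_le_sum (f := fun i => Nat.card (C i)) (fun _ _ => Nat.zero_le _)
        (Finset.mem_univ i)⟩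
  have hz0 : ∀ (i : ι) (u : W S), ¬ path (digOf (z i) (y i)) u → ev (y i) u = z i := by
    intro i u hu
    by_contra hne
    exact hu ((ev_ne_iff (hz i) (y i) u).1 hne)
  have hpl : ∀ (i : ι) (w : W S), path (digOf (z i) (y i)) (plus E c (t0.factorial - 1) w) →
      path (digOf (z i) (y i)) w := by
    intro i w hw
    exact (arcs_le_iff w).1 ((arcs_le_plus E c _ hcl w).trans ((arcs_le_iff _).2 hw))
  refine ⟨plus E c (t0.factorial - 1), ?_, ?_, ?_⟩
  · intro w t
    rw [← hl_val_mul]
    rfl
  · choose G inst l hmem hl using fun i => lab_zs V (hz i) (hC i) (y i)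
    let lb : S → S → ((∀ i, G i) × (S → S → Multiplicative (ZMod m0))) := fun s t =>
      (fun i => l i s t, fun x y => if x = s ∧ y = t ∧ ¬ conn E t s then
        Multiplicative.ofAdd (1 : ZMod m0) else 1)
    refine ⟨((∀ i, G i) × (S → S → Multiplicative (ZMod m0))), inferInstance, lb, ?_, ?_⟩
    · exact V.prod _ _ (V.pi _ hmem) (V.pi _ fun _ => V.pi _ fun _ => hV)
    · intro p p' hp hp' hh hla he
      have hcomp : ∀ i, lab (l i) p = lab (l i) p' := by
        intro i
        have e1 := hl_lab_map ((Pi.evalMonoidHom G i).comp (MonoidHom.fst _ _)) lb p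
        have e2 := hl_lab_map ((Pi.evalMonoidHom G i).comp (MonoidHom.fst _ _)) lb p'
        rw [he] at e1
        exact e1.symm.trans e2
      have hout : ∀ x y : S, ¬ conn E y x → ((arcs p).2 x y ↔ (arcs p').2 x y) := by
        intro x y hxy
        let F : ((∀ i, G i) × (S → S → Multiplicative (ZMod m0))) →* Multiplicative (ZMod m0) :=
          (Pi.evalMonoidHom (fun _ => Multiplicative (ZMod m0)) y).comp
            ((Pi.evalMonoidHom (fun _ => S → Multiplicative (ZMod m0)) x).comp
              (MonoidHom.snd _ _))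
        have e1 := hl_lab_map F lb p
        have e2 := hl_lab_map F lb p'
        rw [he] at e1
        have e3 := e1.symm.trans e2
        have e4 : lab (fun s t => if x = s ∧ y = t ∧ ¬ conn E t s then
            Multiplicative.ofAdd (1 : ZMod m0) else 1) p =
            lab (fun s t => if x = s ∧ y = t ∧ ¬ conn E t s then
            Multiplicative.ofAdd (1 : ZMod m0) else 1) p' := e3
        rw [hl_outer _ hxy p hp, hl_outer _ hxy p' hp'] at e4
        have hne : Multiplicative.ofAdd (1 : ZMod m0) ≠ 1 := by
          have : Fact (1 < m0) := ⟨hm0⟩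
          intro h
          have h1 : (1 : ZMod m0) = 0 := h
          exact one_ne_zero h1
        constructor
        · intro h1
          by_contra h2
          rw [if_pos h1, if_neg h2] at e4
          exact hne e4
        · intro h1
          by_contra h2
          rw [if_neg h2, if_pos h1] at e4
          exact hne e4.symm
      have harcs := plus_arcs E c (t0.factorial - 1) hc p p' hp hp' hh hout
      apply hy
      intro i
      by_cases h1 : path (digOf (z i) (y i)) (plus E c (t0.factorial - 1) p)
      · have h2 : path (digOf (z i) (y i)) (plus E c (t0.factorial - 1) p') := by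
          rw [← arcs_le_iff, ← harcs, arcs_le_iff]; exact h1
        rw [plus_ev E c hcl (hz i) (ht0 i) (y i) p h1, plus_ev E c hcl (hz i) (ht0 i) (y i) p' h2]
        exact hl i p p' (hpl i p h1) (hpl i p' h2) hh hla (hcomp i)
      · have h2 : ¬ path (digOf (z i) (y i)) (plus E c (t0.factorial - 1) p') := by
          rw [← arcs_le_iff, ← harcs, arcs_le_iff]; exact h1
        rw [hz0 i _ h1, hz0 i _ h2]
  · intro w hw
    have hpE : path E w := (arcs_le_iff w).1 (le_of_eq hw)
    have h1 : arcs (plus E c (t0.factorial - 1) w) ≤ E :=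
      (arcs_le_iff _).2 (plus_path E c _ hcL w hpE)
    have h2 : arcs w ≤ arcs (plus E c (t0.factorial - 1) w) := arcs_le_plus E c _ hcl w
    have h3 : arcs (plus E c (t0.factorial - 1) w) = arcs w :=
      le_antisymm (h1.trans (le_of_eq hw.symm)) h2
    apply hy
    intro i
    by_cases h4 : path (digOf (z i) (y i)) (plus E c (t0.factorial - 1) w)
    · exact plus_ev E c hcl (hz i) (ht0 i) (y i) w h4
    · have h5 : ¬ path (digOf (z i) (y i)) w := by
        rw [← arcs_le_iff, ← h3, arcs_le_iff]; exact h4
      rw [hz0 i _ h4, hz0 i _ h5]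

end J11625

alias hsp_lab := J11625.hsp_lab

end

end Pool.Agent.H502.Bk
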