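import Pool.Agent.H502.BkSk
import Pool.Agent.H502.BkJ_PV_cyc
import Pool.Agent.H502.BkJ_lab_zs
import Pool.Agent.H502.BkJ_mB_mono
import Pool.Agent.H502.BkJ_pi_mem_opP
import Pool.Agent.H502.BkJ_hsp_lab
set_option autoImplicit false

namespace Pool.Agent.H502.Bk

section
open Function W

namespace J11628

/-! ### TARGET of this job: hsp_bd -/

theorem hsp_bd_card_dig (S : Type) [Finite S] :
    Nat.card (Dig S) = 2 ^ Nat.card S * 2 ^ (Nat.card S * Nat.card S) := by
  classical
  have := Fintype.ofFinite S
  simp only [Dig, Nat.card_eq_fintype_card, Fintype.card_prod, Fintype.card_fun,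
    Fintype.card_prop]
  rw [pow_mul]

theorem hsp_bd_aux {V : PV} {m : ℕ} (B : FinSg) (M : Dig B → FinSg) (g : ∀ E, B → M E)
    (hM : ∀ E, M E ∈ ZSO V)
    (hc : ∀ E, Nat.card (M E) ≤ mB m (Nat.card B) (Nat.card B * (Nat.card B + 2)))
    (hstar : ∀ w w' : W B, (∀ E, ev (g E) w = ev (g E) w') → val w = val w') :
    ∃ U ∈ opS (opP (ZSO V)), Nat.card U ≤ hspB m (Nat.card B) ∧
      ∃ f : U →ₙ* B, Surjective f := by
  classical
  have hfd : Finite (Dig B) := inferInstance
  let Φ : W B → (∀ E, M E) := fun w E => ev (g E) w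
  have hΦ : ∀ u v, Φ (u * v) = Φ u * Φ v := fun u v => funext fun E => ev_mul (g E) u v
  let U : Subsemigroup (∀ E, M E) :=
    { carrier := {r | ∃ w, Φ w = r}
      mul_mem' := by
        rintro a b ⟨u, rfl⟩ ⟨v, rfl⟩
        exact ⟨u * v, hΦ u v⟩ }
  let PS : FinSg := ⟨∀ E, M E, inferInstance, inferInstance, inferInstance⟩
  have hPS : PS ∈ opP (ZSO V) :=
    pi_mem_opP M hM PS (MulEquiv.refl _)
  have hUne : Nonempty U := by
    obtain ⟨b⟩ := B.ne
    exact ⟨⟨Φ (one b), one b, rfl⟩⟩
  let US : FinSg := ⟨U, inferInstance, inferInstance, hUne⟩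
  have hUS : US ∈ opS (opP (ZSO V)) :=
    ⟨PS, hPS, (MulMemClass.subtype U : U →ₙ* (∀ E, M E)), Subtype.val_injective⟩
  have hrep : ∀ r : U, ∃ w : W B, Φ w = r.1 := fun r => r.2
  choose wd hwd using hrep
  have hval : ∀ (r : U) (w : W B), Φ w = r.1 → val (wd r) = val w := by
    intro r w hw
    refine hstar _ _ fun E => ?_
    exact congrFun ((hwd r).trans hw.symm) E
  refine ⟨US, hUS, ?_, ⟨⟨fun r => val (wd r), ?_⟩, ?_⟩⟩
  · have h1 : Nat.card U ≤ Nat.card (∀ E, M E) := Nat.card_le_card_of_injective _ Subtype.val_injective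
    have := Fintype.ofFinite (Dig B)
    have h2 : Nat.card (∀ E, M E) ≤ hspB m (Nat.card B) := by
      have h3 : Nat.card (∀ E, M E) = ∏ E : Dig B, Nat.card (M E) := Nat.card_pi
      have h4 : (∏ E : Dig B, Nat.card (M E)) ≤
          (mB m (Nat.card B) (Nat.card B * (Nat.card B + 2))) ^
            (Finset.univ : Finset (Dig B)).card :=
        Finset.prod_le_pow_card _ _ _ fun E _ => hc E
      have h5 : (Finset.univ : Finset (Dig B)).card = Nat.card (Dig B) := by
        rw [Finset.card_univ, Nat.card_eq_fintype_card]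
      rw [h5, hsp_bd_card_dig] at h4
      rw [h3, hspB]
      exact h4
    exact h1.trans h2
  · intro r r'
    show val (wd (r * r')) = val (wd r) * val (wd r')
    rw [hval (r * r') (wd r * wd r') (by rw [hΦ, hwd, hwd]; rfl)]
    exact ev_mul _ _ _
  · intro s
    refine ⟨(⟨Φ (one s), one s, rfl⟩ : U), ?_⟩
    show val (wd ⟨Φ (one s), one s, rfl⟩) = s
    rw [hval _ (one s) rfl]
    rfl

theorem hsp_bd_arcs {S : Type} {w w' : W S} (h1 : path (arcs w) w') (h2 : path (arcs w') w) :
    arcs w' = arcs w :=
  le_antisymm ((arcs_le_iff w').2 h1) ((arcs_le_iff w).2 h2)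

theorem hsp_bd {V : PV} {m : ℕ} (hm0 : 0 < m) (hm : RealB V m) (B : FinSg)
    (hB : B ∈ opH (opS (opP (ZSO V)))) :
    ∃ U ∈ opS (opP (ZSO V)), Nat.card U ≤ hspB m (Nat.card B) ∧
      ∃ f : U →ₙ* B, Surjective f := by
  classical
  obtain ⟨A, ⟨A', ⟨n, T, hT, ⟨e⟩⟩, j, hj⟩, f, hf⟩ := hB
  have hzs : ∀ i, ∃ z : (T i).carrier, ZS z := fun i => zs_of_zeroSimple (hT i).1
  choose z hz using hzs
  have hC : ∀ i, AllSub V (T i).carrier := fun i => (hT i).2
  choose x hx using hf
  let y : ∀ i, B → (T i).carrier := fun i s => (e (j (x s)) : ∀ i, T i) i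
  have hyev : ∀ i (w : W B), ev (y i) w = (e (j (ev x w)) : ∀ i, T i) i := by
    intro i w
    induction w with
    | one s => rfl
    | snoc w s ih =>
      show ev (y i) w * y i s = (e (j (ev x w * x s)) : ∀ i, T i) i
      rw [ih, map_mul, map_mul]
      rfl
  have hvalx : ∀ w : W B, val w = f (ev x w) := by
    intro w
    rw [map_ev f x w]
    unfold val
    congr 1
    funext s
    exact (hx s).symm
  have hy : ∀ w w' : W B, (∀ i, ev (y i) w = ev (y i) w') → val w = val w' := by
    intro w w' h
    have h1 : (e (j (ev x w)) : ∀ i, T i) = e (j (ev x w')) := by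
      funext i
      rw [← hyev, ← hyev]
      exact h i
    have h2 : ev x w = ev x w' := hj (e.injective h1)
    rw [hvalx, hvalx, h2]
  have hn0 : 0 < Nat.card B := Nat.card_pos
  rcases PV.cyc V with htriv | ⟨m0, hm0', hV⟩
  · -- all groups of `V` are trivial
    have hex : ∀ E : Dig B, ∃ (M : FinSg) (g : B → M), M ∈ ZSO V ∧
        Nat.card M ≤ mB m (Nat.card B) (Nat.card B * (Nat.card B + 2)) ∧
        ∀ w w', ev g w = ev g w' → (path E w ↔ path E w') ∧
          (path E w → head w = head w' ∧ last w = last w') := by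
      intro E
      let R : Setoid (W B) :=
        { r := fun p p' => last p = last p' ∧ (path E p ↔ path E p')
          iseqv := ⟨fun p => ⟨rfl, Iff.rfl⟩, fun h => ⟨h.1.symm, h.2.symm⟩,
            fun h h' => ⟨h.1.trans h'.1, h.2.trans h'.2⟩⟩ }
      let F : Quotient R → B × Prop := Quotient.lift (fun p : W B => (last p, path E p))
        (fun p p' (h : last p = last p' ∧ (path E p ↔ path E p')) =>
          Prod.ext h.1 (propext h.2))
      have hF : Injective F := by
        intro a b
        refine Quotient.inductionOn₂ a b fun p p' h => ?_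
        have h1 : (last p, path E p) = (last p', path E p') := h
        rw [Prod.mk.injEq] at h1
        exact Quotient.sound ⟨h1.1, iff_of_eq h1.2⟩
      have hfin : Finite (Quotient R) := Finite.of_injective F hF
      have hcard : Nat.card (Quotient R) ≤ Nat.card B * (Nat.card B + 2) := by
        have h1 := Nat.card_le_card_of_injective F hF
        rw [Nat.card_prod] at h1
        have h2 : Nat.card Prop = 2 := by simp
        rw [h2] at h1
        exact h1.trans (Nat.mul_le_mul_left _ (by omega))
      have hpos : 0 < Nat.card (Quotient R) := by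
        obtain ⟨b⟩ := B.ne
        haveI : Nonempty (Quotient R) := ⟨Quotient.mk R (one b)⟩
        exact Nat.card_pos
      obtain ⟨M, g, h1, h2, h3⟩ := hm B E R (fun p p' h => h.1)
        (fun p p' s h => ⟨rfl, by
          show (path E p ∧ arc E (last p) s) ↔ (path E p' ∧ arc E (last p') s)
          rw [h.1, h.2]⟩) hfin
        ⟨Unit, inferInstance, fun _ _ => (), V.unit, fun p p' hp hp' _ hl _ =>
          ⟨hl, iff_of_true hp hp'⟩⟩
      refine ⟨M, g, h1, h2.trans (mB_mono hcard hpos), fun w w' h => ?_⟩
      obtain ⟨h4, h5⟩ := h3 w w' h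
      exact ⟨h4, fun hp => ⟨(h5 hp).1, (h5 hp).2.1⟩⟩
    choose M g h1 h2 h3 using hex
    refine hsp_bd_aux B M g h1 h2 fun w w' h => ?_
    have hself : path (arcs w) w := (arcs_le_iff w).1 le_rfl
    obtain ⟨-, h5⟩ := h3 (arcs w) w w' (h (arcs w))
    obtain ⟨hh, hl⟩ := h5 hself
    refine hy w w' fun i => ?_
    have h6 := (h3 (digOf (z i) (y i)) w w' (h _)).1
    by_cases hp : path (digOf (z i) (y i)) w
    · have hp' := h6.1 hp
      obtain ⟨G, _, lb, hG, h7⟩ := lab_zs V (hz i) (hC i) (y i)
      haveI := htriv G hG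
      exact h7 w w' hp hp' hh hl (Subsingleton.elim _ _)
    · have hp' : ¬ path (digOf (z i) (y i)) w' := fun h => hp (h6.2 h)
      rw [← ev_ne_iff (hz i), not_not] at hp hp'
      rw [hp, hp']
  · have hex : ∀ E : Dig B, ∃ (M : FinSg) (g : B → M), M ∈ ZSO V ∧
        Nat.card M ≤ mB m (Nat.card B) (Nat.card B * (Nat.card B + 2)) ∧
        ∀ w w', ev g w = ev g w' → (path E w ↔ path E w') ∧
          (arcs w = E → arcs w' = E → val w = val w') := by
      intro E
      obtain ⟨P, hP1, hP2, hP3⟩ := hsp_lab V hm0' hV (fun i => (T i).carrier) z hz hC y hy E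
      let R : Setoid (W B) :=
        { r := fun p p' => last p = last p' ∧ (path E p ↔ path E p') ∧
            (path E p → val (P p) = val (P p'))
          iseqv := ⟨fun p => ⟨rfl, Iff.rfl, fun _ => rfl⟩,
            fun h => ⟨h.1.symm, h.2.1.symm, fun hp => (h.2.2 (h.2.1.2 hp)).symm⟩,
            fun h h' => ⟨h.1.trans h'.1, h.2.1.trans h'.2.1,
              fun hp => (h.2.2 hp).trans (h'.2.2 (h.2.1.1 hp))⟩⟩ }
      let F : Quotient R → B × Option B := Quotient.lift
        (fun p : W B => (last p, if path E p then some (val (P p)) else none))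
        (fun p p' (h : last p = last p' ∧ (path E p ↔ path E p') ∧
            (path E p → val (P p) = val (P p'))) => by
          refine Prod.ext h.1 ?_
          show (if path E p then some (val (P p)) else none)
            = (if path E p' then some (val (P p')) else none)
          by_cases hp : path E p
          · rw [if_pos hp, if_pos (h.2.1.1 hp), h.2.2 hp]
          · rw [if_neg hp, if_neg (fun h' => hp (h.2.1.2 h'))])
      have hF : Injective F := by
        intro a b
        refine Quotient.inductionOn₂ a b fun p p' h => ?_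
        have h1 : (last p, if path E p then some (val (P p)) else none)
            = (last p', if path E p' then some (val (P p')) else none) := h
        rw [Prod.mk.injEq] at h1
        obtain ⟨h2, h3⟩ := h1
        refine Quotient.sound ⟨h2, ?_, ?_⟩
        · by_cases hp : path E p <;> by_cases hp' : path E p' <;> simp [hp, hp'] at h3 ⊢
        · intro hp
          by_cases hp' : path E p'
          · rw [if_pos hp, if_pos hp'] at h3
            exact Option.some_injective _ h3
          · rw [if_pos hp, if_neg hp'] at h3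
            exact absurd h3 (by simp)
      have hfin : Finite (Quotient R) := Finite.of_injective F hF
      have hcard : Nat.card (Quotient R) ≤ Nat.card B * (Nat.card B + 2) := by
        have h1 := Nat.card_le_card_of_injective F hF
        rw [Nat.card_prod] at h1
        have h2 : Nat.card (Option B) = Nat.card B + 1 := Finite.card_option
        rw [h2] at h1
        exact h1.trans (Nat.mul_le_mul_left _ (by omega))
      have hpos : 0 < Nat.card (Quotient R) := by
        obtain ⟨b⟩ := B.ne
        haveI : Nonempty (Quotient R) := ⟨Quotient.mk R (one b)⟩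
        exact Nat.card_pos
      obtain ⟨G, iG, lb, hG, h7⟩ := hP2
      obtain ⟨M, g, h1, h2, h3⟩ := hm B E R (fun p p' h => h.1)
        (fun p p' s h => ⟨rfl, by
          show (path E p ∧ arc E (last p) s) ↔ (path E p' ∧ arc E (last p') s)
          rw [h.1, h.2.1], by
          rintro ⟨hp, -⟩
          rw [hP1, hP1, h.2.2 hp]⟩) hfin
        ⟨G, iG, lb, hG, fun p p' hp hp' hh hl hlab =>
          ⟨hl, iff_of_true hp hp', fun _ => h7 p p' hp hp' hh hl hlab⟩⟩
      refine ⟨M, g, h1, h2.trans (mB_mono hcard hpos), fun w w' h => ?_⟩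
      obtain ⟨h4, h5⟩ := h3 w w' h
      refine ⟨h4, fun ha ha' => ?_⟩
      have hp : path E w := by rw [← ha]; exact (arcs_le_iff w).1 le_rfl
      have h6 : last w = last w' ∧ (path E w ↔ path E w') ∧
            (path E w → val (P w) = val (P w')) := (h5 hp).2.2
      rw [← hP3 w ha, ← hP3 w' ha']
      exact h6.2.2 hp
    choose M g h1 h2 h3 using hex
    refine hsp_bd_aux B M g h1 h2 fun w w' h => ?_
    have hself : path (arcs w) w := (arcs_le_iff w).1 le_rfl
    have hself' : path (arcs w') w' := (arcs_le_iff w').1 le_rfl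
    have h4 : path (arcs w) w' := (h3 (arcs w) w w' (h (arcs w))).1.1 hself
    have h5 : path (arcs w') w := (h3 (arcs w') w w' (h (arcs w'))).1.2 hself'
    exact (h3 (arcs w) w w' (h (arcs w))).2 rfl (hsp_bd_arcs h4 h5)

end J11628

alias hsp_bd := J11628.hsp_bd

end

end Pool.Agent.H502.Bk
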