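import Pool.Agent.H502.BkSk
set_option autoImplicit false

namespace Pool.Agent.H502.Bk

section
open Function W

namespace J11123

/-! ### TARGET of this job: loop_quot -/

theorem R_mul_11123 {S : Type} (R : Setoid (W S))
    (hsnoc : ∀ p p' s, R p p' → R (snoc p s) (snoc p' s)) {p p' : W S} (h : R p p') (w : W S) :
    R (p * w) (p' * w) := by
  induction w with
  | one s => exact hsnoc _ _ _ h
  | snoc v s ih => exact hsnoc _ _ _ ih

theorem lab_mul_11123 {S G : Type} [Group G] (lb : S → S → G) (p c : W S) :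
    lab lb (p * c) = lab lb p * gl lb (last p) c := by
  unfold gl
  induction c with
  | one s =>
    show lab lb p * lb (last p) s = lab lb p * (lb (last p) s * 1)
    rw [mul_one]
  | snoc v s ih =>
    show lab lb (p * v) * lb (last (p * v)) s =
      lab lb p * (lb (last p) (head v) * (lab lb v * lb (last v) s))
    rw [ih, last_mul]
    simp only [mul_assoc]

theorem loop_mul_11123 {S : Type} {D : Dig S} {b : S} {c c' : W S} (h : Loop D b c)
    (h' : Loop D b c') : Loop D b (c * c') := by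
  refine ⟨?_, ?_, ?_⟩
  · rw [path_mul]
    refine ⟨h.1, ?_, h'.1⟩
    rw [h.2.2]
    exact h'.2.1
  · rw [head_mul]; exact h.2.1
  · rw [last_mul]; exact h'.2.2

theorem gl_mul_11123 {S G : Type} [Group G] {D : Dig S} (lb : S → S → G) {b : S} {c c' : W S}
    (h : Loop D b c) : gl lb b (c * c') = gl lb b c * gl lb b c' := by
  unfold gl
  rw [head_mul, lab_mul_11123, h.2.2]
  unfold gl
  simp only [mul_assoc]

theorem loop_npw_11123 {S G : Type} [Group G] {D : Dig S} (lb : S → S → G) {b : S} {c : W S}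
    (h : Loop D b c) (k : ℕ) : Loop D b (npw c k) ∧ gl lb b (npw c k) = gl lb b c ^ (k + 1) := by
  induction k with
  | zero => exact ⟨h, by rw [zero_add, pow_one]; rfl⟩
  | succ k ih =>
    refine ⟨loop_mul_11123 ih.1 h, ?_⟩
    show gl lb b (npw c k * c) = _
    rw [gl_mul_11123 lb ih.1, ih.2, ← pow_succ]

theorem exists_loop_11123 {S G : Type} [Group G] [Finite G] {D : Dig S} (lb : S → S → G) {b : S}
    (hne : ∃ c, Loop D b c) {g : G} (hg : g ∈ LK D lb b) : ∃ c, Loop D b c ∧ gl lb b c = g := by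
  unfold LK at hg
  induction hg using Subgroup.closure_induction with
  | mem x hx => exact hx
  | one =>
    obtain ⟨c, hc⟩ := hne
    have h := loop_npw_11123 lb hc (orderOf (gl lb b c) - 1)
    refine ⟨_, h.1, ?_⟩
    rw [h.2]
    have h0 : 0 < orderOf (gl lb b c) := orderOf_pos _
    rw [Nat.sub_add_cancel h0, pow_orderOf_eq_one]
  | mul x y _ _ hx hy =>
    obtain ⟨c, hc, rfl⟩ := hx
    obtain ⟨c', hc', rfl⟩ := hy
    exact ⟨c * c', loop_mul_11123 hc hc', gl_mul_11123 lb hc⟩
  | inv x _ hx =>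
    obtain ⟨c, hc, rfl⟩ := hx
    have h := loop_npw_11123 lb hc (2 * orderOf (gl lb b c) - 2)
    refine ⟨_, h.1, ?_⟩
    rw [h.2]
    have h0 : 0 < orderOf (gl lb b c) := orderOf_pos _
    apply eq_inv_of_mul_eq_one_left
    rw [← pow_succ]
    have : 2 * orderOf (gl lb b c) - 2 + 1 + 1 = orderOf (gl lb b c) * 2 := by omega
    rw [this, pow_mul, pow_orderOf_eq_one, one_pow]

/-- classes of paths ending at `b` -/
def X_11123 {S : Type} (D : Dig S) (R : Setoid (W S)) (b : S) : Type :=
  {q : Quotient R // ∃ p, path D p ∧ last p = b ∧ Quotient.mk R p = q}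

/-- right multiplication by a loop -/
def act_11123 {S : Type} (D : Dig S) (R : Setoid (W S))
    (hsnoc : ∀ p p' s, R p p' → R (snoc p s) (snoc p' s)) (b : S) (c : W S) (hc : Loop D b c)
    (x : X_11123 D R b) : X_11123 D R b :=
  ⟨Quotient.map (fun w => w * c) (fun _ _ h => R_mul_11123 R hsnoc h c) x.1, by
    obtain ⟨q, p, hp, hb, rfl⟩ := x
    refine ⟨p * c, ?_, ?_, rfl⟩
    · rw [path_mul]
      refine ⟨hp, ?_, hc.1⟩
      rw [hb]; exact hc.2.1
    · rw [last_mul]; exact hc.2.2⟩

theorem act_mk_11123 {S : Type} {D : Dig S} {R : Setoid (W S)}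
    (hsnoc : ∀ p p' s, R p p' → R (snoc p s) (snoc p' s)) {b : S} {c : W S} (hc : Loop D b c)
    (p : W S) (hp : ∃ p', path D p' ∧ last p' = b ∧ Quotient.mk R p' = Quotient.mk R p) :
    (act_11123 D R hsnoc b c hc ⟨Quotient.mk R p, hp⟩).1 = Quotient.mk R (p * c) := rfl

theorem pathmul_11123 {S : Type} {D : Dig S} {b : S} {c : W S} (hc : Loop D b c) {p : W S}
    (hp : path D p) (hb : last p = b) : path D (p * c) := by
  rw [path_mul]
  refine ⟨hp, ?_, hc.1⟩
  rw [hb]; exact hc.2.1

theorem act_congr_11123 {S G : Type} [Group G] {D : Dig S} (lb : S → S → G)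
    {R : Setoid (W S)} (hsnoc : ∀ p p' s, R p p' → R (snoc p s) (snoc p' s))
    (hR : ∀ p p', path D p → path D p' → head p = head p' → last p = last p' →
      lab lb p = lab lb p' → R p p') {b : S} {c c' : W S} (hc : Loop D b c) (hc' : Loop D b c')
    (h : gl lb b c = gl lb b c') :
    act_11123 D R hsnoc b c hc = act_11123 D R hsnoc b c' hc' := by
  funext x
  obtain ⟨q, p, hp, hb, rfl⟩ := x
  apply Subtype.ext
  rw [act_mk_11123, act_mk_11123]
  apply Quotient.sound
  apply hR _ _ (pathmul_11123 hc hp hb) (pathmul_11123 hc' hp hb)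
  · rw [head_mul, head_mul]
  · rw [last_mul, last_mul, hc.2.2, hc'.2.2]
  · rw [lab_mul_11123, lab_mul_11123, hb, h]

theorem act_one_11123 {S G : Type} [Group G] {D : Dig S} (lb : S → S → G)
    {R : Setoid (W S)} (hsnoc : ∀ p p' s, R p p' → R (snoc p s) (snoc p' s))
    (hR : ∀ p p', path D p → path D p' → head p = head p' → last p = last p' →
      lab lb p = lab lb p' → R p p') {b : S} {c : W S} (hc : Loop D b c)
    (h : gl lb b c = 1) (x : X_11123 D R b) :
    act_11123 D R hsnoc b c hc x = x := by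
  obtain ⟨q, p, hp, hb, rfl⟩ := x
  apply Subtype.ext
  rw [act_mk_11123]
  apply Quotient.sound
  apply hR _ _ (pathmul_11123 hc hp hb) hp
  · rw [head_mul]
  · rw [last_mul, hc.2.2, hb]
  · rw [lab_mul_11123, hb, h, mul_one]

theorem act_mul_11123 {S : Type} {D : Dig S}
    {R : Setoid (W S)} (hsnoc : ∀ p p' s, R p p' → R (snoc p s) (snoc p' s))
    {b : S} {c c' : W S} (hc : Loop D b c) (hc' : Loop D b c') (x : X_11123 D R b) :
    act_11123 D R hsnoc b (c * c') (loop_mul_11123 hc hc') x =
      act_11123 D R hsnoc b c' hc' (act_11123 D R hsnoc b c hc x) := by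
  obtain ⟨q, p, hp, hb, rfl⟩ := x
  apply Subtype.ext
  show Quotient.mk R (p * (c * c')) = Quotient.mk R ((p * c) * c')
  rw [mul_assoc]

theorem pow_self_mono_11123 {a q : ℕ} (h : a ≤ q) : a ^ a ≤ q ^ q := by
  rcases Nat.eq_zero_or_pos a with h0 | h0
  · subst h0
    rcases Nat.eq_zero_or_pos q with h1 | h1
    · subst h1; exact le_rfl
    · simpa using Nat.one_le_pow _ _ h1
  · exact (Nat.pow_le_pow_left h a).trans (Nat.pow_le_pow_right (by omega) h)

theorem loop_quot (V : PV) {S G : Type} [Group G] (hG : V.mem G) (D : Dig S) (lb : S → S → G)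
    (R : Setoid (W S)) (hlast : ∀ p p', R p p' → last p = last p')
    (hsnoc : ∀ p p' s, R p p' → R (snoc p s) (snoc p' s)) [Finite (Quotient R)]
    (hR : ∀ p p', path D p → path D p' → head p = head p' → last p = last p' →
      lab lb p = lab lb p' → R p p') (b : S) :
    ∃ (Γ : Type) (_ : Group Γ) (φ : LK D lb b →* Γ), V.mem Γ ∧
      Nat.card Γ ≤ (Nat.card (Quotient R)) ^ (Nat.card (Quotient R)) ∧
      ∀ c c' (hc : Loop D b c) (hc' : Loop D b c'),
        φ ⟨gl lb b c, gl_mem lb hc⟩ = φ ⟨gl lb b c', gl_mem lb hc'⟩ →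
        ∀ p, path D p → last p = b → R (p * c) (p * c') := by
  by_cases hne : ∃ c, Loop D b c
  swap
  · refine ⟨Unit, inferInstance, 1, V.unit, ?_, ?_⟩
    · have h := pow_self_mono_11123 (Nat.zero_le (Nat.card (Quotient R)))
      simpa using h
    · intro c _ hc
      exact absurd ⟨c, hc⟩ hne
  have : Finite G := V.fin G hG
  have hex : ∀ g : LK D lb b, ∃ c, Loop D b c ∧ gl lb b c = g.1 :=
    fun g => exists_loop_11123 lb hne g.2
  choose C hC hCg using hex
  let F : LK D lb b → X_11123 D R b → X_11123 D R b :=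
    fun g => act_11123 D R hsnoc b (C g) (hC g)
  have hFone : ∀ x, F 1 x = x := fun x =>
    act_one_11123 lb hsnoc hR (hC 1) (hCg 1) x
  have hFmul : ∀ g h x, F (g * h) x = F h (F g x) := by
    intro g h x
    show act_11123 D R hsnoc b (C (g * h)) (hC (g * h)) x = _
    have e : gl lb b (C (g * h)) = gl lb b (C g * C h) := by
      rw [hCg, gl_mul_11123 lb (hC g), hCg, hCg]
      rfl
    rw [act_congr_11123 lb hsnoc hR (hC (g * h)) (loop_mul_11123 (hC g) (hC h)) e,
      act_mul_11123 hsnoc (hC g) (hC h) x]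
  let act : MulAction (LK D lb b) (X_11123 D R b) :=
    { smul := fun g x => F g⁻¹ x
      one_smul := fun x => by
        show F 1⁻¹ x = x
        rw [inv_one, hFone]
      mul_smul := fun g h x => by
        show F (g * h)⁻¹ x = F g⁻¹ (F h⁻¹ x)
        rw [mul_inv_rev, hFmul] }
  let Φ : LK D lb b →* Equiv.Perm (X_11123 D R b) := MulAction.toPermHom (LK D lb b) (X_11123 D R b)
  have hΦ : ∀ g x, Φ g x = F g⁻¹ x := fun g x => rfl
  have hfinX : Finite (X_11123 D R b) := by unfold X_11123; infer_instance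
  refine ⟨Φ.range, inferInstance, Φ.rangeRestrict, ?_, ?_, ?_⟩
  · exact V.quo _ _ Φ.rangeRestrict Φ.rangeRestrict_surjective
      (V.sub _ _ (LK D lb b).subtype (Subgroup.subtype_injective _) hG)
  · have h1 : Nat.card Φ.range ≤ Nat.card (Equiv.Perm (X_11123 D R b)) :=
      Nat.card_le_card_of_injective (Subtype.val : Φ.range → Equiv.Perm (X_11123 D R b))
        Subtype.val_injective
    have h2 : Nat.card (Equiv.Perm (X_11123 D R b)) ≤
        Nat.card (X_11123 D R b → X_11123 D R b) :=
      Nat.card_le_card_of_injective (fun e : Equiv.Perm (X_11123 D R b) => (e : _ → _))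
        DFunLike.coe_injective
    have h3 : Nat.card (X_11123 D R b → X_11123 D R b) =
        Nat.card (X_11123 D R b) ^ Nat.card (X_11123 D R b) := by
      rw [Nat.card_fun]
    have h4 : Nat.card (X_11123 D R b) ≤ Nat.card (Quotient R) :=
      Nat.card_le_card_of_injective (Subtype.val : X_11123 D R b → Quotient R)
        Subtype.val_injective
    calc Nat.card Φ.range ≤ Nat.card (X_11123 D R b) ^ Nat.card (X_11123 D R b) := by
          rw [← h3]; exact h1.trans h2
      _ ≤ _ := pow_self_mono_11123 h4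
  · intro c c' hc hc' h p hp hb
    have h1 : Φ ⟨gl lb b c, gl_mem lb hc⟩ = Φ ⟨gl lb b c', gl_mem lb hc'⟩ :=
      congrArg Subtype.val h
    have h2 : ∀ x, F ⟨gl lb b c, gl_mem lb hc⟩ x = F ⟨gl lb b c', gl_mem lb hc'⟩ x := by
      intro x
      have h3 := congrArg (fun e : Equiv.Perm (X_11123 D R b) => e⁻¹) h1
      simp only [← map_inv] at h3
      have h4 := congrArg (fun e : Equiv.Perm (X_11123 D R b) => e x) h3
      simp only [hΦ, inv_inv] at h4
      exact h4
    have h5 := h2 ⟨Quotient.mk R p, p, hp, hb, rfl⟩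
    have h6 : act_11123 D R hsnoc b c hc ⟨Quotient.mk R p, p, hp, hb, rfl⟩ =
        act_11123 D R hsnoc b c' hc' ⟨Quotient.mk R p, p, hp, hb, rfl⟩ := by
      rw [act_congr_11123 lb hsnoc hR hc (hC ⟨gl lb b c, gl_mem lb hc⟩)
          (hCg ⟨gl lb b c, gl_mem lb hc⟩).symm,
        act_congr_11123 lb hsnoc hR hc' (hC ⟨gl lb b c', gl_mem lb hc'⟩)
          (hCg ⟨gl lb b c', gl_mem lb hc'⟩).symm]
      exact h5
    have h7 := congrArg Subtype.val h6
    rw [act_mk_11123, act_mk_11123] at h7
    exact Quotient.exact h7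

end J11123

alias loop_quot := J11123.loop_quot

end

end Pool.Agent.H502.Bk
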