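import Pool.Agent.H502.BkSk
set_option autoImplicit false

namespace Pool.Agent.H502.Bk

section
open Function

namespace J11136

/-! ### TARGET of this job: opH_idem -/

theorem opH_idem (X : Set FinSg) : opH (opH X) = opH X := by
  apply Set.Subset.antisymm
  · rintro B ⟨A, ⟨A', hA', f, hf⟩, g, hg⟩
    exact ⟨A', hA', g.comp f, by
      rw [MulHom.coe_comp]
      exact hg.comp hf⟩
  · intro B hB
    exact ⟨B, hB, MulHom.id _, Function.surjective_id⟩

end J11136

alias opH_idem := J11136.opH_idem

end

end Pool.Agent.H502.Bk
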