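import Pool.Agent.H502.BkSk
set_option autoImplicit false

namespace Pool.Agent.H502.Bk

section
open Function

namespace J11135

/-! ### TARGET of this job: opP_incr -/

theorem opP_incr (X : Set FinSg) : X ⊆ opP X := by
  intro A hA
  refine ⟨0, fun _ => A, fun _ => hA, ⟨?_⟩⟩
  exact
    { toFun := fun a _ => a
      invFun := fun f => f 0
      left_inv := fun a => rfl
      right_inv := fun f => by
        funext i
        have hi : i = 0 := Fin.ext (by have := i.2; simp)
        rw [hi]
      map_mul' := fun a b => rfl }

end J11135

alias opP_incr := J11135.opP_incr

end

end Pool.Agent.H502.Bk
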