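import Pool.Agent.H502.BkSk
import Pool.Agent.H502.BkJ_pi_mem_opP
import Pool.Agent.H502.BkJ_opP_incr
set_option autoImplicit false

namespace Pool.Agent.H502.Bk

section
open Function

namespace J11139

/-! ### TARGET of this job: opP_idem -/

theorem opP_idem (X : Set FinSg) : opP (opP X) = opP X := by
  refine Set.Subset.antisymm ?_ (opP_mono (opP_incr X))
  rintro B ⟨n, A, hA, ⟨e⟩⟩
  choose m T hT e' using hA
  refine pi_mem_opP (ι := Σ i : Fin (n + 1), Fin (m i + 1)) (fun p => T p.1 p.2)
    (fun p => hT p.1 p.2) B (e.trans ?_)
  exact
    { toFun := fun x p => (Classical.choice (e' p.1)) (x p.1) p.2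
      invFun := fun y i => (Classical.choice (e' i)).symm (fun j => y ⟨i, j⟩)
      left_inv := fun x => by
        funext i
        exact (Classical.choice (e' i)).symm_apply_apply (x i)
      right_inv := fun y => by
        funext p
        have := (Classical.choice (e' p.1)).apply_symm_apply (fun j => y ⟨p.1, j⟩)
        exact congrFun this p.2
      map_mul' := fun x y => by
        funext p
        have := map_mul (Classical.choice (e' p.1)) (x p.1) (y p.1)
        exact congrFun this p.2 }

end J11139

alias opP_idem := J11139.opP_idem

end

end Pool.Agent.H502.Bk
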