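import Pool.Agent.H502.BkSk
set_option autoImplicit false

namespace Pool.Agent.H502.Bk

section
open Function

namespace J11137

/-! ### TARGET of this job: opS_idem -/

theorem opS_idem (X : Set FinSg) : opS (opS X) = opS X := by
  refine Set.Subset.antisymm ?_ (opS_mono (opS_incr X))
  rintro B ⟨A, ⟨C, hC, g, hg⟩, f, hf⟩
  exact ⟨C, hC, g.comp f, hg.comp hf⟩

end J11137

alias opS_idem := J11137.opS_idem

end

end Pool.Agent.H502.Bk
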