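import Pool.Agent.H502.BkSk
import Pool.Agent.H502.BkJ_rm_allSub
set_option autoImplicit false

namespace Pool.Agent.H502.Bk

section
open Function W

namespace J11124

/-! ### TARGET of this job: real_out -/

section realOut
open Classical

variable {S G : Type} [Group G]

/-- sandwich matrix -/
noncomputable def roP (D : Dig S) (lb : S → S → G) : S ⊕ S → S ⊕ S → Option G
  | Sum.inl s, Sum.inl t => if arc D s t then some (lb s t) else none
  | Sum.inl s, Sum.inr t => if s = t then some 1 else none
  | Sum.inr s, Sum.inl t => if s = t then some 1 else none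
  | Sum.inr _, Sum.inr _ => none

/-- generators -/
noncomputable def roG (D : Dig S) (lb : S → S → G) (s : S) : RM G (S ⊕ S) (S ⊕ S) (roP D lb) :=
  if D.1 s then RM.el (roP D lb) (Sum.inl s) 1 (Sum.inl s) else RM.zero (roP D lb)

theorem roP_zs [Nonempty S] (D : Dig S) (lb : S → S → G) :
    ZS (RM.zero (roP D lb) : RM G (S ⊕ S) (S ⊕ S) (roP D lb)) := by
  apply RM.zs
  · rintro (s | s)
    · exact ⟨Sum.inr s, 1, by simp [roP]⟩
    · exact ⟨Sum.inl s, 1, by simp [roP]⟩
  · rintro (s | s)
    · exact ⟨Sum.inr s, 1, by simp [roP]⟩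
    · exact ⟨Sum.inl s, 1, by simp [roP]⟩

theorem ro_ev (D : Dig S) (lb : S → S → G) (w : W S) :
    (path D w → ev (roG D lb) w = RM.el (roP D lb) (Sum.inl (head w)) (lab lb w)
      (Sum.inl (last w))) ∧ (¬ path D w → ev (roG D lb) w = RM.zero (roP D lb)) := by
  induction w with
  | one s =>
    constructor
    · intro h
      show roG D lb s = _
      exact if_pos h
    · intro h
      show roG D lb s = _
      exact if_neg h
  | snoc w t ih =>
    constructor
    · rintro ⟨h1, h2⟩
      show ev (roG D lb) w * roG D lb t = _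
      rw [ih.1 h1]
      have h3 : roG D lb t = RM.el (roP D lb) (Sum.inl t) 1 (Sum.inl t) := if_pos h2.2.1
      have h4 : roP D lb (Sum.inl (last w)) (Sum.inl t) = some (lb (last w) t) := if_pos h2
      rw [h3, RM.el_mul_el h4, mul_one]
      rfl
    · intro h
      show ev (roG D lb) w * roG D lb t = _
      by_cases h1 : path D w
      · have h2 : ¬ arc D (last w) t := fun h2 => h ⟨h1, h2⟩
        rw [ih.1 h1]
        by_cases h5 : D.1 t
        · have h3 : roG D lb t = RM.el (roP D lb) (Sum.inl t) 1 (Sum.inl t) := if_pos h5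
          have h4 : roP D lb (Sum.inl (last w)) (Sum.inl t) = none := if_neg h2
          rw [h3, RM.el_mul_el_none h4]
        · have h3 : roG D lb t = RM.zero (roP D lb) := if_neg h5
          rw [h3, RM.mul_zero']
      · rw [ih.2 h1, RM.zero_mul']

theorem ro_el_inj {I L : Type} {P : L → I → Option G} {i i' : I} {g g' : G} {l l' : L}
    (h : RM.el P i g l = RM.el P i' g' l') : i = i' ∧ g = g' ∧ l = l' := by
  have h1 := Option.some.inj h
  exact ⟨congrArg Prod.fst h1, congrArg (fun x => x.2.1) h1, congrArg (fun x => x.2.2) h1⟩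

end realOut

theorem real_out (V : PV) {S : Type} [Finite S] [Nonempty S] {D : Dig S} {R : W S → W S → Prop}
    {B : ℕ} (h : LabB V D R B) : ∃ (M : FinSg) (g : S → M), M ∈ ZSO V ∧
      Nat.card M ≤ (Nat.card S + Nat.card S) * (B * (Nat.card S + Nat.card S)) + 1 ∧
      ∀ w w', ev g w = ev g w' → (path D w ↔ path D w') ∧
        (path D w → head w = head w' ∧ last w = last w' ∧ R w w') := by
  obtain ⟨G, _, lb, hG, hc, hR⟩ := h
  have : Finite G := V.fin G hG
  refine ⟨⟨RM G (S ⊕ S) (S ⊕ S) (roP D lb), inferInstance, inferInstance,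
    ⟨RM.zero (roP D lb)⟩⟩, roG D lb, ⟨zeroSimple_of_zs (roP_zs D lb), rm_allSub V hG _⟩, ?_, ?_⟩
  · show Nat.card (RM G (S ⊕ S) (S ⊕ S) (roP D lb)) ≤ _
    rw [RM.card, Nat.card_sum]
    have h4 := Nat.mul_le_mul_left (Nat.card S + Nat.card S)
      (Nat.mul_le_mul_right (Nat.card S + Nat.card S) hc)
    omega
  · intro w w' h
    have key : ∀ {w w' : W S}, ev (roG D lb) w = ev (roG D lb) w' → path D w → path D w' := by
      intro w w' h hw
      by_contra hw'
      rw [(ro_ev D lb w).1 hw, (ro_ev D lb w').2 hw'] at h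
      exact Option.some_ne_none _ h
    refine ⟨⟨key h, key (w := w') (w' := w) h.symm⟩, fun hw => ?_⟩
    have hw' := key h hw
    have h' : ev (roG D lb) w = ev (roG D lb) w' := h
    rw [(ro_ev D lb w).1 hw, (ro_ev D lb w').1 hw'] at h'
    obtain ⟨h1, h2, h3⟩ := ro_el_inj h'
    have h1' := Sum.inl.inj h1
    have h3' := Sum.inl.inj h3
    exact ⟨h1', h3', hR w w' hw hw' h1' h3' h2⟩

end J11124

alias real_out := J11124.real_out

end

end Pool.Agent.H502.Bk
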