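import Pool.Agent.H502.BkSk
set_option autoImplicit false

namespace Pool.Agent.H502.Bk

section
open Function W

namespace J11443

/-! ### TARGET of this job: scc_mem -/

theorem scc_mem_lab {S G : Type} [Group G] (lb : S → S → G) (a c : W S) :
    lab lb (a * c) = lab lb a * lb (last a) (head c) * lab lb c := by
  induction c with
  | one t =>
    show lab lb a * lb (last a) t = lab lb a * lb (last a) t * 1
    rw [mul_one]
  | snoc v t ih =>
    show lab lb (a * v) * lb (last (a * v)) t =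
      lab lb a * lb (last a) (head v) * (lab lb v * lb (last v) t)
    rw [ih, last_mul]
    simp only [mul_assoc]

theorem scc_mem_gl {S G : Type} [Group G] (lb : S → S → G) (r : S) (a c : W S) :
    gl lb r (a * c) = gl lb r a * gl lb (last a) c := by
  unfold gl
  rw [scc_mem_lab, head_mul]
  simp only [mul_assoc]

theorem scc_mem {S G : Type} [Group G] {D : Dig S} (σ : Sel D) (lb : S → S → G) {b h l : S}
    (hlh : conn D l h) (hb : σ.rep h = b) (x : W S) (hx : Walk D h l x) :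
    σ.A lb h * gl lb h x * (σ.A lb l)⁻¹ ∈ LK D lb b := by
  have hhl : conn D h l := ⟨x, hx⟩
  have hhh : conn D h h := conn_trans hhl hlh
  have hll : conn D l l := conn_trans hlh hhl
  have hbl : σ.rep l = b := by rw [← σ.hrep h l hhl hlh]; exact hb
  obtain ⟨hu1, hu2, hu3⟩ := σ.hu h hhh
  obtain ⟨hul1, hul2, hul3⟩ := σ.hu l hll
  obtain ⟨hv1, hv2, hv3⟩ := σ.hv l hll
  obtain ⟨hx1, hx2, hx3⟩ := hx
  have hw1 : Loop D b (σ.u h * x * σ.v l) := by
    refine ⟨(path_mul _ _).2 ⟨(path_mul _ _).2 ⟨hu1, ?_, hx1⟩, ?_, hv1⟩, ?_, ?_⟩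
    · rw [hu3]; exact hx2
    · rw [last_mul, hx3]; exact hv2
    · rw [head_mul, head_mul, ← hb]; exact hu2
    · rw [last_mul, hv3, hbl]
  have hw2 : Loop D b (σ.u l * σ.v l) := by
    refine ⟨(path_mul _ _).2 ⟨hul1, ?_, hv1⟩, ?_, ?_⟩
    · rw [hul3]; exact hv2
    · rw [head_mul, ← hbl]; exact hul2
    · rw [last_mul, hv3, hbl]
  have g1 : gl lb b (σ.u h * x * σ.v l) = σ.A lb h * gl lb h x * gl lb l (σ.v l) := by
    rw [scc_mem_gl, scc_mem_gl, last_mul, hx3, hu3]
    unfold Sel.A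
    rw [hb]
  have g2 : gl lb b (σ.u l * σ.v l) = σ.A lb l * gl lb l (σ.v l) := by
    rw [scc_mem_gl, hul3]
    unfold Sel.A
    rw [hbl]
  have h3 : σ.A lb h * gl lb h x * (σ.A lb l)⁻¹ =
      gl lb b (σ.u h * x * σ.v l) * (gl lb b (σ.u l * σ.v l))⁻¹ := by
    rw [g1, g2]; group
  rw [h3]
  exact (LK D lb b).mul_mem (gl_mem lb hw1) ((LK D lb b).inv_mem (gl_mem lb hw2))

end J11443

alias scc_mem := J11443.scc_mem

end

end Pool.Agent.H502.Bk
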