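import Pool.Agent.H502.BkSk
import Pool.Agent.H502.BkJ_scc_mem
set_option autoImplicit false

namespace Pool.Agent.H502.Bk

section
open Function W

namespace J11445

/-! ### TARGET of this job: scc_step -/

theorem lab_mul {S G : Type} [Group G] (lb : S → S → G) (p q : W S) :
    lab lb (p * q) = lab lb p * gl lb (last p) q := by
  induction q with
  | one t =>
    show lab lb p * lb (last p) t = lab lb p * (lb (last p) t * 1)
    rw [mul_one]
  | snoc v t ih =>
    show lab lb (p * v) * lb (last (p * v)) t =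
      lab lb p * (lb (last p) (head v) * (lab lb v * lb (last v) t))
    rw [ih, last_mul]
    unfold gl
    simp only [mul_assoc]

theorem gl_mul {S G : Type} [Group G] (lb : S → S → G) (r : S) (p q : W S) :
    gl lb r (p * q) = gl lb r p * gl lb (last p) q := by
  unfold gl
  rw [head_mul, lab_mul]
  unfold gl
  simp only [mul_assoc]

theorem last_npw {S : Type} (c : W S) (k : ℕ) : last (npw c k) = last c := by
  cases k with
  | zero => rfl
  | succ k => exact last_mul _ _

theorem head_npw {S : Type} (c : W S) (k : ℕ) : head (npw c k) = head c := by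
  induction k with
  | zero => rfl
  | succ k ih =>
    show head (npw c k * c) = _
    rw [head_mul, ih]

theorem gl_npw {S G : Type} [Group G] (lb : S → S → G) (s : S) (c : W S) (hc : last c = s)
    (k : ℕ) : gl lb s (npw c k) = gl lb s c ^ (k + 1) := by
  induction k with
  | zero => show gl lb s c = _; rw [zero_add, pow_one]
  | succ k ih =>
    show gl lb s (npw c k * c) = _
    rw [gl_mul, ih, last_npw, hc, pow_succ _ (k + 1)]

theorem walk_mul {S : Type} {D : Dig S} {a b c : S} {x y : W S} (hx : Walk D a b x)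
    (hy : Walk D b c y) : Walk D a c (x * y) := by
  obtain ⟨h1, h2, rfl⟩ := hx
  obtain ⟨h3, h4, rfl⟩ := hy
  exact ⟨(path_mul x y).2 ⟨h1, h4, h3⟩, by rw [head_mul]; exact h2, last_mul x y⟩

theorem walk_npw {S : Type} {D : Dig S} {a : S} {x : W S} (hx : Walk D a a x) (k : ℕ) :
    Walk D a a (npw x k) := by
  induction k with
  | zero => exact hx
  | succ k ih => exact walk_mul ih hx

theorem path_walk {S : Type} {D : Dig S} {a b : S} {p x : W S} (hp : path D p) (hl : last p = a)
    (hx : Walk D a b x) : path D (p * x) ∧ last (p * x) = b := by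
  obtain ⟨h1, h2, rfl⟩ := hx
  subst hl
  exact ⟨(path_mul p x).2 ⟨hp, h2, h1⟩, last_mul p x⟩

theorem R_mul {S : Type} (R : Setoid (W S)) (hsnoc : ∀ p p' s, R p p' → R (snoc p s) (snoc p' s))
    (p p' d : W S) (h : R p p') : R (p * d) (p' * d) := by
  induction d with
  | one t => exact hsnoc _ _ _ h
  | snoc v t ih => exact hsnoc _ _ _ ih

theorem scc_step {S G : Type} [Group G] [Finite G] {D : Dig S} (σ : Sel D) (lb : S → S → G)
    (R : Setoid (W S)) (hsnoc : ∀ p p' s, R p p' → R (snoc p s) (snoc p' s))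
    (hR : ∀ p p', path D p → path D p' → head p = head p' → last p = last p' →
      lab lb p = lab lb p' → R p p') {b : S} {Γ : Type} [Group Γ] (φ : LK D lb b →* Γ)
    (hφ : ∀ c c' (hc : Loop D b c) (hc' : Loop D b c'),
      φ ⟨gl lb b c, gl_mem lb hc⟩ = φ ⟨gl lb b c', gl_mem lb hc'⟩ →
      ∀ p, path D p → last p = b → R (p * c) (p * c'))
    {h l : S} (hlh : conn D l h) (hb : σ.rep h = b) (x x' : W S)
    (hx : Walk D h l x) (hx' : Walk D h l x')
    (e : φ ⟨_, scc_mem σ lb hlh hb x hx⟩ = φ ⟨_, scc_mem σ lb hlh hb x' hx'⟩)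
    (q : W S) (hq : path D q) (hql : last q = h) : R (q * x) (q * x') := by
  subst hb
  have hhl : conn D h l := ⟨x, hx⟩
  have hhh : conn D h h := conn_trans hhl hlh
  have hll : conn D l l := conn_trans hlh hhl
  have hrep : σ.rep h = σ.rep l := σ.hrep h l hhl hlh
  have wu : Walk D (σ.rep h) h (σ.u h) := σ.hu h hhh
  have wv : Walk D h (σ.rep h) (σ.v h) := σ.hv h hhh
  have wul : Walk D (σ.rep h) l (σ.u l) := by rw [hrep]; exact σ.hu l hll
  have wvl : Walk D l (σ.rep h) (σ.v l) := by rw [hrep]; exact σ.hv l hll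
  obtain ⟨M, hM⟩ : ∃ M : ℕ, 2 * Nat.card G = M + 2 := ⟨2 * Nat.card G - 2, by
    have := Nat.card_pos (α := G)
    omega⟩
  have hpow : ∀ g : G, g ^ (M + 1) = g⁻¹ := by
    intro g
    have h1 : g ^ (M + 2) = 1 := by
      rw [← hM, mul_comm, pow_mul, pow_card_eq_one', one_pow]
    rw [pow_succ] at h1
    exact eq_inv_of_mul_eq_one_left h1
  have hAl : σ.A lb l = gl lb (σ.rep h) (σ.u l) := by
    unfold Sel.A
    rw [hrep]
  have hAh : σ.A lb h = gl lb (σ.rep h) (σ.u h) := rfl
  -- the path to the base point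
  have wq : Walk D h (σ.rep h) (npw (σ.v h * σ.u h) M * σ.v h) :=
    walk_mul (walk_npw (walk_mul wv wu) M) wv
  have lq : gl lb h (npw (σ.v h * σ.u h) M * σ.v h) = (σ.A lb h)⁻¹ := by
    rw [gl_mul, gl_npw lb h _ (by rw [last_mul]; exact wu.2.2), last_npw, last_mul, wu.2.2, hpow,
      gl_mul, wv.2.2, hAh, mul_inv_rev]
    group
  have wd : Walk D (σ.rep h) l (npw (σ.u l * σ.v l) M * σ.u l) :=
    walk_mul (walk_npw (walk_mul wul wvl) M) wul
  have ld : gl lb (σ.rep h) (npw (σ.u l * σ.v l) M * σ.u l) = (gl lb l (σ.v l))⁻¹ := by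
    rw [gl_mul, gl_npw lb _ _ (by rw [last_mul]; exact wvl.2.2), last_npw, last_mul, wvl.2.2, hpow,
      gl_mul, wul.2.2, mul_inv_rev]
    group
  have wc : ∀ y, Walk D h l y → Walk D (σ.rep h) (σ.rep h) (σ.u h * y * σ.v l) := fun y hy =>
    walk_mul (walk_mul wu hy) wvl
  have lc : ∀ y, Walk D h l y → gl lb (σ.rep h) (σ.u h * y * σ.v l) =
      σ.A lb h * gl lb h y * gl lb l (σ.v l) := by
    intro y hy
    rw [gl_mul, gl_mul, last_mul, wu.2.2, hy.2.2, hAh]
  -- replacement
  have hrepl : ∀ y, Walk D h l y → R (q * y)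
      (q * (npw (σ.v h * σ.u h) M * σ.v h) * (σ.u h * y * σ.v l) *
        (npw (σ.u l * σ.v l) M * σ.u l)) := by
    intro y hy
    have p0 := path_walk hq hql hy
    have p1 := path_walk hq hql wq
    have p2 := path_walk p1.1 p1.2 (wc y hy)
    have p3 := path_walk p2.1 p2.2 wd
    apply hR _ _ p0.1 p3.1
    · simp only [head_mul]
    · rw [p0.2, p3.2]
    · rw [lab_mul, lab_mul, lab_mul, lab_mul, p2.2, p1.2, hql, lq, ld, lc y hy]
      group
  have wuv : Walk D (σ.rep h) (σ.rep h) (σ.u l * σ.v l) := walk_mul wul wvl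
  have hgl : ∀ y (hy : Walk D h l y), (⟨gl lb (σ.rep h) (σ.u h * y * σ.v l),
      gl_mem lb (wc y hy)⟩ : LK D lb (σ.rep h)) =
      ⟨_, scc_mem σ lb hlh rfl y hy⟩ * ⟨gl lb (σ.rep h) (σ.u l * σ.v l), gl_mem lb wuv⟩ := by
    intro y hy
    apply Subtype.ext
    show gl lb (σ.rep h) (σ.u h * y * σ.v l) = σ.A lb h * gl lb h y * (σ.A lb l)⁻¹ *
      gl lb (σ.rep h) (σ.u l * σ.v l)
    rw [lc y hy, gl_mul, wul.2.2, hAl]
    group
  have hφ' : φ ⟨gl lb (σ.rep h) (σ.u h * x * σ.v l), gl_mem lb (wc x hx)⟩ =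
      φ ⟨gl lb (σ.rep h) (σ.u h * x' * σ.v l), gl_mem lb (wc x' hx')⟩ := by
    rw [hgl x hx, hgl x' hx', map_mul, map_mul, e]
  have p1 := path_walk hq hql wq
  have hmid := hφ _ _ (wc x hx) (wc x' hx') hφ' _ p1.1 p1.2
  have hmid' := R_mul R hsnoc _ _ (npw (σ.u l * σ.v l) M * σ.u l) hmid
  exact R.trans (hrepl x hx) (R.trans hmid' (R.symm (hrepl x' hx')))

end J11445

alias scc_step := J11445.scc_step

end

end Pool.Agent.H502.Bk
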