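import Pool.Agent.H502.BkSk
import Pool.Agent.H502.BkJ_scc_mem
import Pool.Agent.H502.BkJ_scc_step
set_option autoImplicit false

namespace Pool.Agent.H502.Bk

section
open Function W

namespace J11446


theorem sp_lab_mul {S G : Type} [Group G] (lb : S → S → G) (u v : W S) :
    lab lb (u * v) = lab lb u * gl lb (last u) v := by
  induction v with
  | one t =>
    show lab lb u * lb (last u) t = lab lb u * (lb (last u) t * 1)
    rw [mul_one]
  | snoc v t ih =>
    show lab lb (u * v) * lb (last (u * v)) t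
      = lab lb u * (lb (last u) (head v) * (lab lb v * lb (last v) t))
    rw [ih, last_mul]
    unfold gl
    simp only [mul_assoc]

theorem sp_gl_mul {S G : Type} [Group G] (lb : S → S → G) (h : S) (x y : W S) :
    gl lb h (x * y) = gl lb h x * gl lb (last x) y := by
  unfold gl
  rw [head_mul, sp_lab_mul, mul_assoc]
  rfl

theorem sp_walk_mul {S : Type} {D : Dig S} {h k l : S} {x y : W S} (hx : Walk D h k x)
    (hy : Walk D k l y) : Walk D h l (x * y) := by
  obtain ⟨h1, h2, rfl⟩ := hx
  obtain ⟨h3, h4, rfl⟩ := hy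
  exact ⟨(path_mul x y).2 ⟨h1, h4, h3⟩, by rw [head_mul]; exact h2, last_mul x y⟩

theorem sp_walk_npw {S : Type} {D : Dig S} {s : S} {x : W S} (hx : Walk D s s x) (K : ℕ) :
    Walk D s s (npw x K) := by
  induction K with
  | zero => exact hx
  | succ K ih => exact sp_walk_mul ih hx

theorem sp_gl_npw {S G : Type} [Group G] {D : Dig S} (lb : S → S → G) {s : S} {x : W S}
    (hx : Walk D s s x) (K : ℕ) : gl lb s (npw x K) = (gl lb s x) ^ (K + 1) := by
  induction K with
  | zero => exact (pow_one _).symm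
  | succ K ih =>
    show gl lb s (npw x K * x) = _
    rw [sp_gl_mul, ih, (sp_walk_npw hx K).2.2, ← pow_succ]

theorem sp_inn_conn {S : Type} {D : Dig S} {v : W S} (hi : Inn D v) (hp : path D v)
    (hL : Long v) : conn D (last v) (head v) := by
  induction v with
  | one s => exact hL.elim
  | snoc w t ih =>
    obtain ⟨h1, h2⟩ := hp
    obtain ⟨h3, h4⟩ := hi
    cases w with
    | one s => exact h4
    | snoc w s => exact conn_trans h4 (ih h3 h1 trivial)

theorem sp_lab_inn {S G : Type} [Group G] {D : Dig S} (σ : Sel D) (lb : S → S → G)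
    {b : S} {Γ : Type} [Group Γ] (φ : LK D lb b →* Γ) (v : W S) (hv : path D v) (hi : Inn D v)
    (hc : conn D (last v) (last v)) (hb : σ.rep (last v) = b) :
    ∃ hm : σ.A lb (head v) * lab lb v * (σ.A lb (last v))⁻¹ ∈ LK D lb b,
      lab (σ.lbi lb φ) v = φ ⟨_, hm⟩ := by
  induction v with
  | one s =>
    have h1 : σ.A lb (head (one s)) * lab lb (one s) * (σ.A lb (last (one s)))⁻¹ = 1 := by
      show σ.A lb s * 1 * (σ.A lb s)⁻¹ = 1
      group
    have hm : σ.A lb (head (one s)) * lab lb (one s) * (σ.A lb (last (one s)))⁻¹ ∈ LK D lb b := by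
      rw [h1]; exact one_mem _
    refine ⟨hm, ?_⟩
    have h2 : (⟨_, hm⟩ : LK D lb b) = 1 := Subtype.ext h1
    rw [h2, map_one]
    rfl
  | snoc w t ih =>
    obtain ⟨h1, h2⟩ := hv
    obtain ⟨h3, h4⟩ := hi
    have hct : conn D (last w) t := conn_of_arc h2
    have hrep : σ.rep (last w) = σ.rep t := σ.hrep _ _ hct h4
    have hbw : σ.rep (last w) = b := hrep.trans hb
    obtain ⟨hm1, he1⟩ := ih h1 h3 (conn_trans hct h4) hbw
    have hm2' := scc_mem σ lb h4 hbw (one t) ⟨h2.2.1, h2, rfl⟩
    have hgl : gl lb (last w) (one t) = lb (last w) t := by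
      show lb (last w) t * 1 = _
      rw [mul_one]
    have hm2 : σ.A lb (last w) * lb (last w) t * (σ.A lb t)⁻¹ ∈ LK D lb b := by
      rw [hgl] at hm2'; exact hm2'
    have he2 : σ.lbi lb φ (last w) t = φ ⟨_, hm2⟩ := by
      unfold Sel.lbi
      rw [dif_pos ⟨hm2, h4, h2, hbw⟩]
    have hprod : σ.A lb (head (snoc w t)) * lab lb (snoc w t) * (σ.A lb (last (snoc w t)))⁻¹ =
        (σ.A lb (head w) * lab lb w * (σ.A lb (last w))⁻¹) *
          (σ.A lb (last w) * lb (last w) t * (σ.A lb t)⁻¹) := by
      show σ.A lb (head w) * (lab lb w * lb (last w) t) * (σ.A lb t)⁻¹ = _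
      group
    have hm : σ.A lb (head (snoc w t)) * lab lb (snoc w t) * (σ.A lb (last (snoc w t)))⁻¹ ∈
        LK D lb b := by
      rw [hprod]; exact mul_mem hm1 hm2
    refine ⟨hm, ?_⟩
    show lab (σ.lbi lb φ) w * σ.lbi lb φ (last w) t = _
    rw [he1, he2, ← map_mul]
    congr 1
    exact Subtype.ext hprod.symm

/-- the case of a letter and a long word -/
theorem sp_one {S G : Type} [Group G] [Finite G] {D : Dig S} (σ : Sel D) (lb : S → S → G)
    (R : Setoid (W S)) (hsnoc : ∀ p p' s, R p p' → R (snoc p s) (snoc p' s))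
    (hR : ∀ p p', path D p → path D p' → head p = head p' → last p = last p' →
      lab lb p = lab lb p' → R p p') {b : S} {Γ : Type} [Group Γ] (φ : LK D lb b →* Γ)
    (hφ : ∀ c c' (hc : Loop D b c) (hc' : Loop D b c'),
      φ ⟨gl lb b c, gl_mem lb hc⟩ = φ ⟨gl lb b c', gl_mem lb hc'⟩ →
      ∀ p, path D p → last p = b → R (p * c) (p * c'))
    (s : S) (v' : W S) (hv' : path D v') (hi' : Inn D v') (hL : Long v')
    (hh : s = head v') (hl : s = last v') (hb : σ.rep s = b)
    (e : 1 = lab (σ.lbi lb φ) v') :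
    ∀ q, path D q → last q = s → R q (match v' with | one _ => q | snoc _ _ => q) ∧
      ∀ x', v' = one s * x' → R q (q * x') := by
  intro q hq hql
  refine ⟨by cases v' <;> exact R.refl' _, ?_⟩
  rintro x' rfl
  have hW : Walk D s s x' := by
    have h1 := (path_mul _ _).1 hv'
    exact ⟨h1.2.2, h1.2.1, by rw [hl, last_mul]⟩
  have hcs : conn D s s := ⟨x', hW.1, hW.2.1, hW.2.2⟩
  have hlast : last (one s * x') = s := hl.symm
  obtain ⟨hm, he⟩ := sp_lab_inn σ lb φ (one s * x') hv' hi' (by rw [hlast]; exact hcs)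
    (by rw [hlast]; exact hb)
  obtain ⟨K, hK⟩ : ∃ K : ℕ, (gl lb s x') ^ (K + 1) = 1 := by
    refine ⟨orderOf (gl lb s x') - 1, ?_⟩
    have h1 : 0 < orderOf (gl lb s x') := orderOf_pos _
    rw [Nat.sub_add_cancel h1]
    exact pow_orderOf_eq_one _
  have hWK := sp_walk_npw hW K
  have hglK : gl lb s (npw x' K) = 1 := by rw [sp_gl_npw lb hW, hK]
  have h1 : R (q * x') (q * npw x' K) := by
    refine scc_step σ lb R hsnoc hR φ hφ hcs hb x' (npw x' K) hW hWK ?_ q hq hql
    have e1 : φ ⟨_, scc_mem σ lb hcs hb x' hW⟩ = φ ⟨_, hm⟩ := by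
      congr 1
      apply Subtype.ext
      show σ.A lb s * gl lb s x' * (σ.A lb s)⁻¹ =
        σ.A lb (head (one s * x')) * lab lb (one s * x') * (σ.A lb (last (one s * x')))⁻¹
      rw [hlast, ← hh, sp_lab_mul]
      show _ = σ.A lb s * (1 * gl lb s x') * (σ.A lb s)⁻¹
      rw [one_mul]
    have e2 : φ ⟨_, scc_mem σ lb hcs hb (npw x' K) hWK⟩ = 1 := by
      rw [← map_one φ]
      congr 1
      apply Subtype.ext
      show σ.A lb s * gl lb s (npw x' K) * (σ.A lb s)⁻¹ = 1
      rw [hglK]
      group
    rw [e1, e2, ← he, ← e]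
  have h2 : R (q * npw x' K) q := by
    refine hR _ _ ((path_mul _ _).2 ⟨hq, by rw [hql]; exact hWK.2.1, hWK.1⟩) hq (head_mul _ _)
      (by rw [last_mul, hWK.2.2, hql]) ?_
    rw [sp_lab_mul, hql, hglK, mul_one]
  exact R.symm' (R.trans' h1 h2)

/-! ### TARGET of this job: scc_paths -/

theorem scc_paths {S G : Type} [Group G] [Finite G] {D : Dig S} (σ : Sel D) (lb : S → S → G)
    (R : Setoid (W S)) (hsnoc : ∀ p p' s, R p p' → R (snoc p s) (snoc p' s))
    (hR : ∀ p p', path D p → path D p' → head p = head p' → last p = last p' →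
      lab lb p = lab lb p' → R p p') {b : S} {Γ : Type} [Group Γ] (φ : LK D lb b →* Γ)
    (hφ : ∀ c c' (hc : Loop D b c) (hc' : Loop D b c'),
      φ ⟨gl lb b c, gl_mem lb hc⟩ = φ ⟨gl lb b c', gl_mem lb hc'⟩ →
      ∀ p, path D p → last p = b → R (p * c) (p * c'))
    (v v' : W S) (hv : path D v) (hv' : path D v') (hi : Inn D v) (hi' : Inn D v')
    (hh : head v = head v') (hl : last v = last v') (hb : σ.rep (last v) = b)
    (e : lab (σ.lbi lb φ) v = lab (σ.lbi lb φ) v') :
    R v v' ∧ ∀ p, path D (p * v) → R (p * v) (p * v') := by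
  cases v with
  | one s =>
    cases v' with
    | one s' =>
      have hs : s = s' := hh
      subst hs
      exact ⟨R.refl' _, fun p _ => R.refl' _⟩
    | snoc w t =>
      obtain ⟨s', x', hx'⟩ := Long.split (w := snoc w t) trivial
      have hs : s' = s := by
        have : head (snoc w t) = s' := by rw [hx', head_mul]; rfl
        rw [← this]; exact hh.symm
      subst hs
      have key := sp_one σ lb R hsnoc hR φ hφ s' (snoc w t) hv' hi' trivial hh hl hb e
      refine ⟨?_, fun p hp => ?_⟩
      · rw [hx']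
        exact (key (one s') hv rfl).2 x' hx'
      · rw [hx', ← mul_assoc]
        exact (key (p * one s') hp (last_mul _ _)).2 x' hx'
  | snoc w t =>
    obtain ⟨h0, x, hx⟩ := Long.split (w := snoc w t) trivial
    cases v' with
    | one s =>
      have hs : h0 = s := by
        have : head (snoc w t) = h0 := by rw [hx, head_mul]; rfl
        rw [← this]; exact hh
      subst hs
      have key := sp_one σ lb R hsnoc hR φ hφ h0 (snoc w t) hv hi trivial hh.symm hl.symm
        (by
          have h2 : last (snoc w t) = h0 := hl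
          rw [h2] at hb; exact hb) e.symm
      refine ⟨?_, fun p hp => ?_⟩
      · rw [hx]
        exact R.symm' ((key (one h0) hv' rfl).2 x hx)
      · have hp' : path D (p * one h0) := by
          rw [path_mul] at hp ⊢
          refine ⟨hp.1, ?_, hv'⟩
          have := hp.2.1
          rw [hh] at this; exact this
        rw [hx, ← mul_assoc]
        exact R.symm' ((key (p * one h0) hp' (last_mul _ _)).2 x hx)
    | snoc w' t' =>
      obtain ⟨h0', x', hx'⟩ := Long.split (w := snoc w' t') trivial
      have e1 : head (snoc w t) = h0 := by rw [hx, head_mul]; rfl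
      have e1' : head (snoc w' t') = h0' := by rw [hx', head_mul]; rfl
      have hs : h0' = h0 := by rw [← e1', ← hh, e1]
      subst hs
      have hlh : conn D (last (snoc w t)) h0' := by
        rw [← e1]; exact sp_inn_conn hi hv trivial
      have hW : Walk D h0' (last (snoc w t)) x := by
        have h1 := hv
        rw [hx, path_mul] at h1
        exact ⟨h1.2.2, h1.2.1, by rw [hx, last_mul]⟩
      have hW' : Walk D h0' (last (snoc w t)) x' := by
        have h1 := hv'
        rw [hx', path_mul] at h1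
        exact ⟨h1.2.2, h1.2.1, by rw [hl, hx', last_mul]⟩
      have hcl : conn D h0' (last (snoc w t)) := ⟨x, hW⟩
      have hb0 : σ.rep h0' = b := (σ.hrep _ _ hcl hlh).trans hb
      have hcc : conn D (last (snoc w t)) (last (snoc w t)) := conn_trans hlh hcl
      obtain ⟨hm, he⟩ := sp_lab_inn σ lb φ (snoc w t) hv hi hcc hb
      obtain ⟨hm', he'⟩ := sp_lab_inn σ lb φ (snoc w' t') hv' hi' (by rw [← hl]; exact hcc)
        (by rw [← hl]; exact hb)
      have hφe : φ ⟨_, scc_mem σ lb hlh hb0 x hW⟩ = φ ⟨_, scc_mem σ lb hlh hb0 x' hW'⟩ := by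
        have a1 : φ ⟨_, scc_mem σ lb hlh hb0 x hW⟩ = φ ⟨_, hm⟩ := by
          congr 1
          apply Subtype.ext
          show σ.A lb h0' * gl lb h0' x * (σ.A lb (last (snoc w t)))⁻¹ =
            σ.A lb (head (snoc w t)) * lab lb (snoc w t) * (σ.A lb (last (snoc w t)))⁻¹
          have : lab lb (snoc w t) = gl lb h0' x := by
            rw [hx, sp_lab_mul]
            show 1 * gl lb h0' x = _
            rw [one_mul]
          rw [e1, this]
        have a2 : φ ⟨_, scc_mem σ lb hlh hb0 x' hW'⟩ = φ ⟨_, hm'⟩ := by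
          congr 1
          apply Subtype.ext
          show σ.A lb h0' * gl lb h0' x' * (σ.A lb (last (snoc w t)))⁻¹ =
            σ.A lb (head (snoc w' t')) * lab lb (snoc w' t') * (σ.A lb (last (snoc w' t')))⁻¹
          have : lab lb (snoc w' t') = gl lb h0' x' := by
            rw [hx', sp_lab_mul]
            show 1 * gl lb h0' x' = _
            rw [one_mul]
          rw [e1', this, ← hl]
        rw [a1, a2, ← he, ← he']
        exact e
      have step := scc_step σ lb R hsnoc hR φ hφ hlh hb0 x x' hW hW' hφe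
      have hD0 : path D (one h0') := hW.2.1.1
      refine ⟨?_, fun p hp => ?_⟩
      · rw [hx, hx']
        exact step (one h0') hD0 rfl
      · have hp' : path D (p * one h0') := by
          rw [path_mul] at hp ⊢
          refine ⟨hp.1, ?_, hD0⟩
          have := hp.2.1
          rw [e1] at this; exact this
        rw [hx, hx', ← mul_assoc, ← mul_assoc]
        exact step (p * one h0') hp' (last_mul _ _)

end J11446

alias scc_paths := J11446.scc_paths

end

end Pool.Agent.H502.Bk
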