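import Pool.Agent.H502.BkSk
set_option autoImplicit false

namespace Pool.Agent.H502.Bk

section
open Function W

namespace J11432

/-! ### TARGET of this job: sel_exists -/

theorem sel_exists {S : Type} (D : Dig S) : Nonempty (Sel D) := by
  classical
  by_cases hne : Nonempty S
  · obtain ⟨s0⟩ := hne
    have hsp : ∀ s, conn D s s → conn D s (@Classical.epsilon S ⟨s0⟩ (fun t => conn D s t ∧ conn D t s)) ∧
        conn D (@Classical.epsilon S ⟨s0⟩ (fun t => conn D s t ∧ conn D t s)) s := by
      intro s hs
      exact @Classical.epsilon_spec S (fun t => conn D s t ∧ conn D t s) ⟨s, hs, hs⟩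
    have hU : ∀ s, ∃ x : W S, conn D s s →
        Walk D (@Classical.epsilon S ⟨s0⟩ (fun t => conn D s t ∧ conn D t s)) s x := by
      intro s
      by_cases hs : conn D s s
      · obtain ⟨x, hx⟩ := (hsp s hs).2
        exact ⟨x, fun _ => hx⟩
      · exact ⟨one s, fun h => absurd h hs⟩
    have hV : ∀ s, ∃ x : W S, conn D s s →
        Walk D s (@Classical.epsilon S ⟨s0⟩ (fun t => conn D s t ∧ conn D t s)) x := by
      intro s
      by_cases hs : conn D s s
      · obtain ⟨x, hx⟩ := (hsp s hs).1
        exact ⟨x, fun _ => hx⟩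
      · exact ⟨one s, fun h => absurd h hs⟩
    choose u hu using hU
    choose v hv using hV
    refine ⟨⟨_, u, v, hu, hv, ?_⟩⟩
    intro s t hst hts
    have : (fun r => conn D s r ∧ conn D r s) = fun r => conn D t r ∧ conn D r t := by
      funext r
      apply propext
      constructor
      · rintro ⟨h1, h2⟩
        exact ⟨conn_trans hts h1, conn_trans h2 hst⟩
      · rintro ⟨h1, h2⟩
        exact ⟨conn_trans hst h1, conn_trans h2 hts⟩
    show @Classical.epsilon S ⟨s0⟩ (fun r => conn D s r ∧ conn D r s) =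
      @Classical.epsilon S ⟨s0⟩ (fun r => conn D t r ∧ conn D r t)
    rw [this]
  · exact ⟨⟨id, fun s => (hne ⟨s⟩).elim, fun s => (hne ⟨s⟩).elim, fun s => (hne ⟨s⟩).elim,
      fun s => (hne ⟨s⟩).elim, fun s => (hne ⟨s⟩).elim⟩⟩

end J11432

alias sel_exists := J11432.sel_exists

end

end Pool.Agent.H502.Bk
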