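import Pool.Agent.H502.BkSk
import Pool.Agent.H502.BkJ_h_eq
import Pool.Agent.H502.BkJ_rm_allSub
import Pool.Agent.H502.BkJ_opS_idem
set_option autoImplicit false

namespace Pool.Agent.H502.Bk

section
open Function W

namespace J11134

/-! ### TARGET of this job: sh_eq -/

theorem sh_eq (V : PV) : opS (opH (ZSO V)) = opS (ZSO V) := by
  apply Set.Subset.antisymm
  · rintro B ⟨A, hA, f, hf⟩
    rw [h_eq] at hA
    rcases hA with hA | hA
    · exact ⟨A, hA, f, hf⟩
    · have hsub : Subsingleton A := (Nat.card_eq_one_iff_unique.1 hA).1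
      let P : Unit → Unit → Option Unit := fun _ _ => some 1
      let R : FinSg := ⟨RM Unit Unit Unit P, inferInstance, inferInstance, ⟨RM.zero P⟩⟩
      have hR : R ∈ ZSO V :=
        ⟨zeroSimple_of_zs (RM.zs (fun _ => ⟨(), (), rfl⟩) (fun _ => ⟨(), (), rfl⟩)),
          rm_allSub V V.unit P⟩
      exact ⟨R, hR, ⟨fun _ => RM.zero P, fun _ _ => (RM.zero_mul' _).symm⟩,
        fun x y _ => hf (Subsingleton.elim _ _)⟩
  · exact opS_mono (opH_incr _)

end J11134

alias sh_eq := J11134.sh_eq

end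

end Pool.Agent.H502.Bk
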