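import Pool.Agent.H502.BkSk
set_option autoImplicit false

namespace Pool.Agent.H502.Bk

section
open Function W

namespace J11131

/-! ### TARGET of this job: si_zeroSimple -/

theorem si_left {S : Type} [Semigroup S] [Finite S] {z x : S} (h : ZS z) (hx : x ≠ z) :
    ∃ e, e * x = x := by
  obtain ⟨p, q, hpq⟩ := h.2.2 x hx x
  have h1 : p * x ≠ z := h.mul_left_ne (by rw [hpq]; exact hx)
  obtain ⟨c, hc⟩ := h.left_inv h1
  exact ⟨c * p, by rw [mul_assoc, hc]⟩

theorem si_right {S : Type} [Semigroup S] [Finite S] {z x : S} (h : ZS z) (hx : x ≠ z) :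
    ∃ e, x * e = x := by
  obtain ⟨p, q, hpq⟩ := h.2.2 x hx x
  have h1 : x * q ≠ z := h.mul_right_ne (a := p) (by rw [← mul_assoc, hpq]; exact hx)
  obtain ⟨c, hc⟩ := h.right_inv h1
  exact ⟨q * c, by rw [← mul_assoc, hc]⟩

/-- a subdirectly irreducible image of a product of 0-simple semigroups is 0-simple -/
theorem si_zeroSimple {ι : Type} [Finite ι] (C : ι → Type) [∀ i, Semigroup (C i)]
    [∀ i, Finite (C i)] (z : ∀ i, C i) (hz : ∀ i, ZS (z i)) {R : Type} [Semigroup R]
    (f : (∀ i, C i) →ₙ* R) (hf : Surjective f) (a b : R) (hab : a ≠ b)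
    (hsi : ∀ c : Con R, c a b ∨ ∀ x y, c x y → x = y) : ZeroSimple R := by
  classical
  have hz1 : ∀ x : ∀ i, C i, z * x = z := fun x => funext fun i => ((hz i).1 (x i)).1
  have hz2 : ∀ x : ∀ i, C i, x * z = z := fun x => funext fun i => ((hz i).1 (x i)).2
  have hR1 : ∀ r : R, f z * r = f z := by
    intro r
    obtain ⟨x, rfl⟩ := hf r
    rw [← map_mul, hz1]
  have hR2 : ∀ r : R, r * f z = f z := by
    intro r
    obtain ⟨x, rfl⟩ := hf r
    rw [← map_mul, hz2]
  -- supports
  let supp : (∀ i, C i) → Set ι := fun t => {i | t i ≠ z i}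
  have hsup : ∀ u i, i ∈ supp u ↔ u i ≠ z i := fun u i => Iff.rfl
  have hex : {J : Set ι | ∃ t, f t ≠ f z ∧ supp t = J}.Nonempty := by
    by_cases ha : a = f z
    · obtain ⟨y, hy⟩ := hf b
      exact ⟨_, y, by rw [hy, ← ha]; exact hab.symm, rfl⟩
    · obtain ⟨x, hx⟩ := hf a
      exact ⟨_, x, by rw [hx]; exact ha, rfl⟩
  obtain ⟨J, ⟨t0, ht0, hJ⟩, hmin⟩ := (wellFounded_lt (α := Set ι)).has_min _ hex
  have hmin' : ∀ u, supp u ⊆ J → f u ≠ f z → supp u = J := by
    intro u hu hu2
    by_contra hne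
    exact hmin (supp u) ⟨u, hu2, rfl⟩ (lt_of_le_of_ne hu hne)
  have hmulL : ∀ u v, supp u ⊆ J → supp (u * v) ⊆ J := by
    intro u v hu i hi
    apply hu
    rw [hsup] at hi ⊢
    intro h0
    apply hi
    show u i * v i = z i
    rw [h0]; exact ((hz i).1 _).1
  have hmulR : ∀ u v, supp u ⊆ J → supp (v * u) ⊆ J := by
    intro u v hu i hi
    apply hu
    rw [hsup] at hi ⊢
    intro h0
    apply hi
    show v i * u i = z i
    rw [h0]; exact ((hz i).1 _).2
  have hout : ∀ u, supp u ⊆ J → ∀ i, i ∉ J → u i = z i := by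
    intro u hu i hi
    by_contra h0
    exact hi (hu h0)
  -- one-sided units
  have hEl : ∀ x, supp x ⊆ J → ∃ e, supp e ⊆ J ∧ e * x = x := by
    intro x hx
    have : ∀ i, ∃ e : C i, (i ∉ J → e = z i) ∧ e * x i = x i := by
      intro i
      by_cases h0 : x i = z i
      · exact ⟨z i, fun _ => rfl, by rw [h0]; exact ((hz i).1 _).1⟩
      · obtain ⟨e, he⟩ := si_left (hz i) h0
        exact ⟨e, fun hi => absurd (hout x hx i hi) h0, he⟩
    choose e he1 he2 using this
    refine ⟨e, ?_, funext he2⟩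
    intro i hi
    by_contra h1
    exact hi (he1 i h1)
  have hEr : ∀ x, supp x ⊆ J → ∃ e, supp e ⊆ J ∧ x * e = x := by
    intro x hx
    have : ∀ i, ∃ e : C i, (i ∉ J → e = z i) ∧ x i * e = x i := by
      intro i
      by_cases h0 : x i = z i
      · exact ⟨z i, fun _ => rfl, by rw [h0]; exact ((hz i).1 _).1⟩
      · obtain ⟨e, he⟩ := si_right (hz i) h0
        exact ⟨e, fun hi => absurd (hout x hx i hi) h0, he⟩
    choose e he1 he2 using this
    refine ⟨e, ?_, funext he2⟩
    intro i hi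
    by_contra h1
    exact hi (he1 i h1)
  -- the ideal M
  let M : Set R := {r | ∃ u, supp u ⊆ J ∧ f u = r}
  have hML : ∀ m ∈ M, ∀ r, m * r ∈ M := by
    rintro m ⟨u, hu, rfl⟩ r
    obtain ⟨x, rfl⟩ := hf r
    exact ⟨u * x, hmulL u x hu, map_mul f u x⟩
  have hMR : ∀ m ∈ M, ∀ r, r * m ∈ M := by
    rintro m ⟨u, hu, rfl⟩ r
    obtain ⟨x, rfl⟩ := hf r
    exact ⟨x * u, hmulR u x hu, map_mul f x u⟩
  have hMl : ∀ m ∈ M, ∃ e ∈ M, e * m = m := by
    rintro m ⟨u, hu, rfl⟩
    obtain ⟨e, he1, he2⟩ := hEl u hu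
    exact ⟨f e, ⟨e, he1, rfl⟩, by rw [← map_mul, he2]⟩
  have hMr : ∀ m ∈ M, ∃ e ∈ M, m * e = m := by
    rintro m ⟨u, hu, rfl⟩
    obtain ⟨e, he1, he2⟩ := hEr u hu
    exact ⟨f e, ⟨e, he1, rfl⟩, by rw [← map_mul, he2]⟩
  have ht0M : f t0 ∈ M := ⟨t0, hJ.le, rfl⟩
  have hzM : f z ∈ M := ⟨z, fun i hi => absurd rfl hi, rfl⟩
  -- Rees congruence
  let c0 : Con R :=
    { r := fun x y => x = y ∨ (x ∈ M ∧ y ∈ M)
      iseqv := ⟨fun x => Or.inl rfl, fun h => h.elim (fun h => Or.inl h.symm)
        (fun h => Or.inr ⟨h.2, h.1⟩), fun {x y w} h h' => by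
          rcases h with rfl | h
          · exact h'
          · rcases h' with rfl | h'
            · exact Or.inr h
            · exact Or.inr ⟨h.1, h'.2⟩⟩
      mul' := fun {w x y v} h h' => by
        rcases h with rfl | h
        · rcases h' with rfl | h'
          · exact Or.inl rfl
          · exact Or.inr ⟨hMR _ h'.1 _, hMR _ h'.2 _⟩
        · exact Or.inr ⟨hML _ h.1 _, hML _ h.2 _⟩ }
  have habM : a ∈ M ∧ b ∈ M := by
    rcases hsi c0 with h | h
    · rcases (h : a = b ∨ (a ∈ M ∧ b ∈ M)) with h | h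
      · exact absurd h hab
      · exact h
    · exact absurd (h (f t0) (f z) (Or.inr ⟨ht0M, hzM⟩)) ht0
  obtain ⟨haM, hbM⟩ := habM
  let c1 : Con R :=
    { r := fun x y => ∀ m ∈ M, m * x = m * y
      iseqv := ⟨fun x m _ => rfl, fun h m hm => (h m hm).symm,
        fun h h' m hm => (h m hm).trans (h' m hm)⟩
      mul' := fun {w x y v} h h' => by
        intro m hm
        rw [← mul_assoc, ← mul_assoc, h m hm]
        exact h' _ (hML m hm x) }
  let c2 : Con R :=
    { r := fun x y => ∀ m ∈ M, x * m = y * m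
      iseqv := ⟨fun x m _ => rfl, fun h m hm => (h m hm).symm,
        fun h h' m hm => (h m hm).trans (h' m hm)⟩
      mul' := fun {w x y v} h h' => by
        intro m hm
        rw [mul_assoc, mul_assoc, h' m hm]
        exact h _ (hMR m hm v) }
  have hnot : ¬ ((∀ m ∈ M, m * a = m * b) ∧ ∀ m ∈ M, a * m = b * m) := by
    rintro ⟨h1, h2⟩
    obtain ⟨e, he, hea⟩ := hMl a haM
    obtain ⟨e', he', hbe⟩ := hMr b hbM
    apply hab
    calc a = e * a := hea.symm
      _ = e * b := h1 e he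
      _ = e * (b * e') := by rw [hbe]
      _ = e * (a * e') := by rw [h2 e' he']
      _ = (e * a) * e' := (mul_assoc _ _ _).symm
      _ = a * e' := by rw [hea]
      _ = b * e' := h2 e' he'
      _ = b := hbe
  -- restriction
  let res : (∀ i, C i) → ∀ i, C i := fun w i => if i ∈ J then w i else z i
  have hres : ∀ w, supp (res w) ⊆ J := by
    intro w i hi
    by_contra h0
    apply hi
    show (if i ∈ J then w i else z i) = z i
    rw [if_neg h0]
  have hres1 : ∀ u w, supp u ⊆ J → u * w = u * res w := by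
    intro u w hu
    funext i
    show u i * w i = u i * (if i ∈ J then w i else z i)
    by_cases hi : i ∈ J
    · rw [if_pos hi]
    · rw [if_neg hi, hout u hu i hi, ((hz i).1 _).1, ((hz i).1 _).1]
  have hres2 : ∀ u w, supp u ⊆ J → w * u = res w * u := by
    intro u w hu
    funext i
    show w i * u i = (if i ∈ J then w i else z i) * u i
    by_cases hi : i ∈ J
    · rw [if_pos hi]
    · rw [if_neg hi, hout u hu i hi, ((hz i).1 _).2, ((hz i).1 _).1]
  have hall : ∀ r : R, r ∈ M := by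
    intro r
    obtain ⟨w, rfl⟩ := hf r
    by_cases h1 : ∀ m ∈ M, m * a = m * b
    · have h2 : ¬ ∀ m ∈ M, a * m = b * m := fun h2 => hnot ⟨h1, h2⟩
      rcases hsi c2 with h | h
      · exact absurd h h2
      · have : f w = f (res w) := by
          apply h
          rintro m ⟨u, hu, rfl⟩
          rw [← map_mul, ← map_mul, ← hres2 u w hu]
        rw [this]
        exact ⟨res w, hres w, rfl⟩
    · rcases hsi c1 with h | h
      · exact absurd h h1
      · have : f w = f (res w) := by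
          apply h
          rintro m ⟨u, hu, rfl⟩
          rw [← map_mul, ← map_mul, ← hres1 u w hu]
        rw [this]
        exact ⟨res w, hres w, rfl⟩
  refine zeroSimple_of_zs (z := f z) ⟨fun x => ⟨hR1 x, hR2 x⟩, ?_, ?_⟩
  · obtain ⟨e, -, he⟩ := hMl _ ht0M
    exact ⟨e, f t0, by rw [he]; exact ht0⟩
  · intro a0 ha0 b0
    obtain ⟨u, hu, rfl⟩ := hall a0
    obtain ⟨v, hv, rfl⟩ := hall b0
    have hu' := hmin' u hu ha0
    have : ∀ i, ∃ p q : C i, p * u i * q = v i := by
      intro i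
      by_cases hi : i ∈ J
      · have h0 : u i ≠ z i := by
          rw [← hu'] at hi
          exact hi
        exact (hz i).2.2 (u i) h0 (v i)
      · exact ⟨z i, z i, by rw [((hz i).1 _).1, ((hz i).1 _).1, hout v hv i hi]⟩
    choose p q hpq using this
    refine ⟨f p, f q, ?_⟩
    rw [← map_mul, ← map_mul]
    congr 1
    exact funext hpq

end J11131

alias si_zeroSimple := J11131.si_zeroSimple

end

end Pool.Agent.H502.Bk
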