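import Pool.Agent.H502.BkSk
import Pool.Agent.H502.BkJ_AllSub_pi
import Pool.Agent.H502.BkJ_AllSub_quot
import Pool.Agent.H502.BkJ_si_zeroSimple
import Pool.Agent.H502.BkJ_opS_idem
import Pool.Agent.H502.BkJ_pi_mem_opP
set_option autoImplicit false

namespace Pool.Agent.H502.Bk

section
open Function W

namespace J11132

/-! ### TARGET of this job: shp_eq -/

theorem shp_eq_sep (V : PV) {ι : Type} [Finite ι] (C : ι → Type) [∀ i, Semigroup (C i)]
    [∀ i, Finite (C i)] (z : ∀ i, C i) (hz : ∀ i, ZS (z i)) (R : FinSg)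
    (f : (∀ i, C i) →ₙ* R) (hf : Surjective f) (hR : AllSub V R) (a b : R) (hab : a ≠ b) :
    ∃ Q : FinSg, Q ∈ ZSO V ∧ ∃ q : R →ₙ* Q, q a ≠ q b := by
  classical
  have hfin : Finite (Con R) := by
    refine Finite.of_injective (fun (c : Con R) => (fun x y => c x y : R → R → Prop)) ?_
    intro c d h
    ext x y
    exact iff_of_eq (congrFun (congrFun h x) y)
  have hne : ({c : Con R | ¬ c a b}).Nonempty := by
    refine ⟨⊥, ?_⟩
    intro h
    exact hab h
  obtain ⟨c, hc, hmax⟩ := (Set.toFinite {c : Con R | ¬ c a b}).exists_maximal hne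
  have hfq : Finite c.Quotient :=
    Finite.of_surjective (fun x : R => (x : c.Quotient)) (fun x => Con.induction_on x (fun y => ⟨y, rfl⟩))
  have hneq : Nonempty c.Quotient := ⟨(a : c.Quotient)⟩
  let q : R →ₙ* c.Quotient := ⟨fun x => (x : c.Quotient), fun x y => rfl⟩
  have hq : Surjective q := fun x => Con.induction_on x (fun y => ⟨y, rfl⟩)
  have hqab : q a ≠ q b := fun h => hc ((Con.eq c).1 h)
  refine ⟨⟨c.Quotient, inferInstance, hfq, hneq⟩, ⟨?_, ?_⟩, q, hqab⟩
  · refine si_zeroSimple C z hz (q.comp f) (hq.comp hf) (q a) (q b) hqab ?_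
    intro d
    by_cases hd : d (q a) (q b)
    · exact Or.inl hd
    · right
      have hd' : Con.comap (fun x : R => (x : c.Quotient)) (fun x y => rfl) d ∈
          {c : Con R | ¬ c a b} := hd
      have hle : c ≤ Con.comap (fun x : R => (x : c.Quotient)) (fun x y => rfl) d := by
        intro x y hxy
        have h1 : ((x : R) : c.Quotient) = y := (Con.eq c).2 hxy
        show d (x : c.Quotient) (y : c.Quotient)
        rw [h1]
        exact d.refl _
      have hge := hmax hd' hle
      intro x y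
      refine Con.induction_on x (fun x' => Con.induction_on y (fun y' hxy => ?_))
      exact (Con.eq c).2 (hge hxy)
  · exact AllSub.quot q hq hR

theorem shp_eq (V : PV) : opS (opH (opP (ZSO V))) = opS (opP (ZSO V)) := by
  classical
  refine Set.Subset.antisymm ?_ (opS_mono (opH_incr _))
  rintro B ⟨R, ⟨A, ⟨n, T, hT, ⟨φ⟩⟩, f, hf⟩, e, he⟩
  choose z hz using fun i => zs_of_zeroSimple (hT i).1
  let F : (∀ i, T i) →ₙ* R := f.comp φ.symm.toMulHom
  have hF : Surjective F := hf.comp φ.symm.surjective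
  have hA : AllSub V (∀ i, T i) := AllSub.pi (fun i => (T i).carrier) (fun i => (hT i).2)
  have hR : AllSub V R := AllSub.quot F hF hA
  rcases subsingleton_or_nontrivial R with hs | hn
  · refine ⟨prodSg T, ⟨n, T, hT, ⟨MulEquiv.refl _⟩⟩, ⟨fun _ i => z i, fun _ _ => ?_⟩, ?_⟩
    · funext i
      exact ((hz i).1 (z i)).1.symm
    · intro x y _
      exact he (Subsingleton.elim _ _)
  · have hsep : ∀ p : {p : R × R // p.1 ≠ p.2}, ∃ Q : FinSg, Q ∈ ZSO V ∧
        ∃ q : R →ₙ* Q, q p.1.1 ≠ q p.1.2 := fun p =>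
      shp_eq_sep V (fun i => (T i).carrier) z hz R F hF hR p.1.1 p.1.2 p.2
    choose Q hQ q hq using hsep
    have hι : Nonempty {p : R × R // p.1 ≠ p.2} := by
      obtain ⟨x, y, hxy⟩ := hn.exists_pair_ne
      exact ⟨⟨(x, y), hxy⟩⟩
    refine ⟨⟨∀ p, Q p, inferInstance, inferInstance, inferInstance⟩,
      pi_mem_opP Q hQ _ (MulEquiv.refl _), ⟨fun x p => q p (e x), fun x y => ?_⟩, ?_⟩
    · funext p
      simp only [map_mul]
      rfl
    · intro x y hxy
      by_contra hne
      have h1 : e x ≠ e y := fun h => hne (he h)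
      exact hq ⟨(e x, e y), h1⟩ (congrFun hxy ⟨(e x, e y), h1⟩)

end J11132

alias shp_eq := J11132.shp_eq

end

end Pool.Agent.H502.Bk
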