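import Pool.Agent.H502.BkJ_PV_pi
import Pool.Agent.H502.BkJ_PV_cyc
import Pool.Agent.H502.BkJ_AllSub_pi
import Pool.Agent.H502.BkJ_AllSub_quot
import Pool.Agent.H502.BkJ_rm_allSub
import Pool.Agent.H502.BkJ_lab_zs
import Pool.Agent.H502.BkJ_Lab_pi
import Pool.Agent.H502.BkJ_loop_quot
import Pool.Agent.H502.BkJ_real_out
import Pool.Agent.H502.BkJ_mB_mono
import Pool.Agent.H502.BkJ_hs_bd
import Pool.Agent.H502.BkJ_hps_bd
import Pool.Agent.H502.BkJ_shps_bd
import Pool.Agent.H502.BkJ_hp_bd
import Pool.Agent.H502.BkJ_sp_bd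
import Pool.Agent.H502.BkJ_si_zeroSimple
import Pool.Agent.H502.BkJ_shp_eq
import Pool.Agent.H502.BkJ_h_eq
import Pool.Agent.H502.BkJ_sh_eq
import Pool.Agent.H502.BkJ_opP_incr
import Pool.Agent.H502.BkJ_opH_idem
import Pool.Agent.H502.BkJ_opS_idem
import Pool.Agent.H502.BkJ_pi_mem_opP
import Pool.Agent.H502.BkJ_opP_idem
import Pool.Agent.H502.BkJ_SH_le
import Pool.Agent.H502.BkJ_PH_le
import Pool.Agent.H502.BkJ_PS_le
import Pool.Agent.H502.BkJ_IsoC_ZSO
import Pool.Agent.H502.BkJ_dec_H
import Pool.Agent.H502.BkJ_dec_S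
import Pool.Agent.H502.BkJ_dec_P
import Pool.Agent.H502.BkJ_dec_union_one
import Pool.Agent.H502.BkJ_dec_ZSO
import Pool.Agent.H502.BkJ_comp_hsB
import Pool.Agent.H502.BkJ_comp_hpsB
import Pool.Agent.H502.BkJ_comp_shpsB
import Pool.Agent.H502.BkJ_comp_hspB
import Pool.Agent.H502.BkJ_comp_hpBp
import Pool.Agent.H502.BkJ_comp_spB
import Pool.Agent.H502.BkJ_sel_exists
import Pool.Agent.H502.BkJ_scc_mem
import Pool.Agent.H502.BkJ_scc_step
import Pool.Agent.H502.BkJ_scc_paths
import Pool.Agent.H502.BkJ_rcv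
import Pool.Agent.H502.BkJ_cover_exists
import Pool.Agent.H502.BkJ_plus_head
import Pool.Agent.H502.BkJ_plus_last
import Pool.Agent.H502.BkJ_plus_path
import Pool.Agent.H502.BkJ_plus_arcs
import Pool.Agent.H502.BkJ_arcs_le_plus
import Pool.Agent.H502.BkJ_plus_ev
import Pool.Agent.H502.BkJ_hsp_lab
import Pool.Agent.H502.BkJ_hsp_bd
import Pool.Agent.H502.BkJ_rees_coord
import Pool.Agent.H502.BkJ_alg_SZ
import Pool.Agent.H502.BkJ_dec_SZ
set_option autoImplicit false

namespace Pool.Agent.H502.Bk

section real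
open Function W

theorem real (V : PV) : ∃ m, 0 < m ∧ RealB V m := by
  obtain ⟨m, hm0, hm⟩ := rcv V
  refine ⟨m, hm0, ?_⟩
  intro S _ _ D R h1 h2 h3 h4
  exact real_out V (hm D R h1 h2 h3 h4)

end real

section final
open Function

/-- `ZSO V` is completely solvable -/
theorem completely_solvable (V : PV) (hV : V.DecUniv) (l : List Op) : DecClass (app l (ZSO V)) := by
  obtain ⟨m, hm0, hm⟩ := real V
  let Φ := ZSO V
  have iΦ : IsoC Φ := IsoC_ZSO V
  have d0 : DecClass Φ := dec_ZSO V hV
  have dH : DecClass (opH Φ) := by rw [h_eq]; exact dec_union_one d0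
  have dS : DecClass (opS Φ) := dec_SZ V hV
  have dP : DecClass (opP Φ) := dec_P d0 iΦ
  have dPH : DecClass (opP (opH Φ)) := dec_P dH (IsoC_H _)
  have dPS : DecClass (opP (opS Φ)) := dec_P dS (IsoC_S _)
  have dHS : DecClass (opH (opS Φ)) := dec_H dS (IsoC_S _) (comp_hsB m) (hs_bd hm)
  have dPHS : DecClass (opP (opH (opS Φ))) := dec_P dHS (IsoC_H _)
  have dHP : DecClass (opH (opP Φ)) := dec_H dP (IsoC_P _) comp_hpB' hp_bd
  have dHPS : DecClass (opH (opP (opS Φ))) := dec_H dPS (IsoC_P _) (comp_hpsB m) (hps_bd hm)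
  have gSP : ∀ X : Set FinSg, DecClass (opP (opS X)) → DecClass (opS (opP X)) := by
    intro X hX
    have e : opS (opP X) = opS (opP (opS X)) := by
      apply subset_antisymm
      · exact opS_mono (opP_mono (opS_incr X))
      · exact (opS_mono (PS_le X)).trans (opS_idem _).subset
    rw [e]
    refine dec_S hX (IsoC_P _) comp_spB ?_
    intro B hB
    rw [← e] at hB
    exact sp_bd X B hB
  have dSP : DecClass (opS (opP Φ)) := gSP Φ dPS
  have dSPHS : DecClass (opS (opP (opH (opS Φ)))) := by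
    apply gSP
    have e : opS (opH (opS Φ)) = opH (opS Φ) := by
      apply subset_antisymm
      · refine (SH_le _).trans ?_
        rw [opS_idem]
      · exact opS_incr _
    rw [e]
    exact dPHS
  have dSHPS : DecClass (opS (opH (opP (opS Φ)))) :=
    dec_S dHPS (IsoC_H _) (comp_shpsB m) (shps_bd hm)
  have dHSP : DecClass (opH (opS (opP Φ))) :=
    dec_H dSP (IsoC_S _) (comp_hspB m) (hsp_bd hm0 hm)
  -- the laws of the operator calculus
  have HPH : ∀ X, opH (opP (opH X)) = opH (opP X) := fun X => subset_antisymm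
    ((opH_mono (PH_le X)).trans (opH_idem _).subset) (opH_mono (opP_mono (opH_incr X)))
  have HSH : ∀ X, opH (opS (opH X)) = opH (opS X) := fun X => subset_antisymm
    ((opH_mono (SH_le X)).trans (opH_idem _).subset) (opH_mono (opS_mono (opH_incr X)))
  have SPS : ∀ X, opS (opP (opS X)) = opS (opP X) := fun X => subset_antisymm
    ((opS_mono (PS_le X)).trans (opS_idem _).subset) (opS_mono (opP_mono (opS_incr X)))
  have SHS : ∀ X, opS (opH (opS X)) = opH (opS X) := fun X => subset_antisymm
    ((SH_le _).trans (opH_mono (opS_idem X).subset)) (opS_incr _)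
  have PHP : ∀ X, opP (opH (opP X)) = opH (opP X) := fun X => subset_antisymm
    ((PH_le _).trans (opH_mono (opP_idem X).subset)) (opP_incr _)
  have PSP : ∀ X, opP (opS (opP X)) = opS (opP X) := fun X => subset_antisymm
    ((PS_le _).trans (opS_mono (opP_idem X).subset)) (opP_incr _)
  have HSPH : ∀ X, opH (opS (opP (opH X))) = opH (opS (opP X)) := fun X => subset_antisymm
    ((opH_mono ((opS_mono (PH_le X)).trans (SH_le _))).trans (opH_idem _).subset)
    (opH_mono (opS_mono (opP_mono (opH_incr X))))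
  have SPH : opS (opP (opH Φ)) = opS (opP Φ) := by
    rw [← SPS (opH Φ), sh_eq, SPS]
  let L : Set (Set FinSg) := {Φ, opH Φ, opS Φ, opP Φ, opP (opH Φ), opP (opS Φ), opH (opS Φ),
    opP (opH (opS Φ)), opH (opP Φ), opH (opP (opS Φ)), opS (opP Φ), opS (opH (opP (opS Φ))),
    opS (opP (opH (opS Φ))), opH (opS (opP Φ))}
  have hL : ∀ X ∈ L, DecClass X := by
    intro X hX
    simp only [L, Set.mem_insert_iff, Set.mem_singleton_iff] at hX
    rcases hX with h | h | h | h | h | h | h | h | h | h | h | h | h | h <;> rw [h] <;> assumption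
  have hH : ∀ X ∈ L, opH X ∈ L := by
    intro X hX
    simp only [L, Set.mem_insert_iff, Set.mem_singleton_iff] at hX
    rcases hX with h | h | h | h | h | h | h | h | h | h | h | h | h | h <;> rw [h]
    · simp [L]
    · rw [opH_idem]; simp [L]
    · simp [L]
    · simp [L]
    · rw [HPH]; simp [L]
    · simp [L]
    · rw [opH_idem]; simp [L]
    · rw [HPH]; simp [L]
    · rw [opH_idem]; simp [L]
    · rw [opH_idem]; simp [L]
    · simp [L]
    · rw [HSH, SPS]; simp [L]
    · rw [HSPH, SPS]; simp [L]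
    · rw [opH_idem]; simp [L]
  have hS : ∀ X ∈ L, opS X ∈ L := by
    intro X hX
    simp only [L, Set.mem_insert_iff, Set.mem_singleton_iff] at hX
    rcases hX with h | h | h | h | h | h | h | h | h | h | h | h | h | h <;> rw [h]
    · simp [L]
    · rw [sh_eq]; simp [L, Φ]
    · rw [opS_idem]; simp [L]
    · simp [L]
    · rw [SPH]; simp [L]
    · rw [SPS]; simp [L]
    · rw [SHS]; simp [L]
    · simp [L]
    · rw [shp_eq]; simp [L, Φ]
    · simp [L]
    · rw [opS_idem]; simp [L]
    · rw [opS_idem]; simp [L]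
    · rw [opS_idem]; simp [L]
    · rw [SHS]; simp [L]
  have hP : ∀ X ∈ L, opP X ∈ L := by
    intro X hX
    simp only [L, Set.mem_insert_iff, Set.mem_singleton_iff] at hX
    rcases hX with h | h | h | h | h | h | h | h | h | h | h | h | h | h <;> rw [h]
    · simp [L]
    · simp [L]
    · simp [L]
    · rw [opP_idem]; simp [L]
    · rw [opP_idem]; simp [L]
    · rw [opP_idem]; simp [L]
    · simp [L]
    · rw [opP_idem]; simp [L]
    · rw [PHP]; simp [L]
    · rw [PHP]; simp [L]
    · rw [PSP]; simp [L]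
    · have e : opP (opS (opH (opP (opS Φ)))) = opS (opH (opP (opS Φ))) := subset_antisymm
        ((PS_le _).trans (opS_mono (PHP _).subset)) (opP_incr _)
      rw [e]; simp [L]
    · rw [PSP]; simp [L]
    · have e : opP (opH (opS (opP Φ))) = opH (opS (opP Φ)) := subset_antisymm
        ((PH_le _).trans (opH_mono (PSP _).subset)) (opP_incr _)
      rw [e]; simp [L]
  have key : app l Φ ∈ L := by
    induction l with
    | nil => simp [L, app]
    | cons o l ih =>
      cases o
      · exact hH _ ih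
      · exact hS _ ih
      · exact hP _ ih
  exact hL _ key

end final

end Pool.Agent.H502.Bk
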