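import Pool.Agent.H502.BkSk
set_option autoImplicit false

namespace Pool.Agent.H502.Bk

section
open Function

namespace J11145

/-! ### TARGET of this job: dec_S -/

section
open Primrec

theorem dec_S_powPrim : Primrec₂ (fun a b : ℕ => a ^ b) := by
  refine (Primrec.nat_rec (f := fun _ : ℕ => 1) (g := fun a (p : ℕ × ℕ) => p.2 * a)
    (Primrec.const 1) ?_).of_eq ?_
  · exact (Primrec.nat_mul.comp (snd.comp snd) fst)
  · intro a n
    induction n with
    | zero => rfl
    | succ n ih => rw [pow_succ, ← ih]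

theorem dec_S_allLt {α : Type} [Primcodable α] {f : α → ℕ} {P : α → ℕ → Prop} (hf : Primrec f)
    (hP : PrimrecPred fun p : α × ℕ => P p.1 p.2) : PrimrecPred (fun a => ∀ x < f a, P a x) := by
  have hR : PrimrecRel (fun (x : ℕ) (a : α) => P a x) := hP.comp (snd.pair fst)
  exact ((PrimrecRel.forall_mem_list hR).comp (Primrec.list_range.comp hf) Primrec.id).of_eq
    (fun a => by simp)

theorem dec_S_exLt {α : Type} [Primcodable α] {f : α → ℕ} {P : α → ℕ → Prop} (hf : Primrec f)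
    (hP : PrimrecPred fun p : α × ℕ => P p.1 p.2) : PrimrecPred (fun a => ∃ x < f a, P a x) := by
  have hR : PrimrecRel (fun (x : ℕ) (a : α) => P a x) := hP.comp (snd.pair fst)
  exact ((PrimrecRel.exists_mem_list hR).comp (Primrec.list_range.comp hf) Primrec.id).of_eq
    (fun a => by simp)

theorem dec_S_allMem {α β : Type} [Primcodable α] [Primcodable β] {f : α → List β} {P : α → β → Prop}
    (hf : Primrec f) (hP : PrimrecPred fun p : α × β => P p.1 p.2) :
    PrimrecPred (fun a => ∀ x ∈ f a, P a x) := by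
  have hR : PrimrecRel (fun (x : β) (a : α) => P a x) := hP.comp (snd.pair fst)
  exact (PrimrecRel.forall_mem_list hR).comp hf Primrec.id

theorem dec_S_tmulPrim {α : Type} [Primcodable α] {n i j : α → ℕ} {l : α → List ℕ} (hn : Primrec n)
    (hl : Primrec l) (hi : Primrec i) (hj : Primrec j) :
    Primrec (fun a => tmul (n a) (l a) (i a) (j a)) := by
  unfold tmul
  exact (Primrec.list_getD 0).comp hl (Primrec.nat_add.comp (Primrec.nat_mul.comp hi hn) hj)

theorem dec_S_isTablePrim : PrimrecPred fun x : ℕ × List ℕ => IsTable x.1 x.2 := by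
  unfold IsTable
  refine PrimrecPred.and (Primrec.nat_lt.comp (Primrec.const 0) fst) (PrimrecPred.and
    (Primrec.eq.comp (Primrec.list_length.comp snd) (Primrec.nat_mul.comp fst fst))
    (PrimrecPred.and ?_ ?_))
  · exact dec_S_allMem (f := fun x : ℕ × List ℕ => x.2) (P := fun x y => y < x.1) snd
      (Primrec.nat_lt.comp snd (fst.comp fst))
  · refine dec_S_allLt (f := fun x : ℕ × List ℕ => x.1) fst ?_
    refine dec_S_allLt (f := fun x : (ℕ × List ℕ) × ℕ => x.1.1) (fst.comp fst) ?_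
    refine dec_S_allLt (f := fun x : ((ℕ × List ℕ) × ℕ) × ℕ => x.1.1.1) (fst.comp (fst.comp fst)) ?_
    have hn : Primrec fun x : (((ℕ × List ℕ) × ℕ) × ℕ) × ℕ => x.1.1.1.1 :=
      fst.comp (fst.comp (fst.comp fst))
    have hl : Primrec fun x : (((ℕ × List ℕ) × ℕ) × ℕ) × ℕ => x.1.1.1.2 :=
      snd.comp (fst.comp (fst.comp fst))
    have hi : Primrec fun x : (((ℕ × List ℕ) × ℕ) × ℕ) × ℕ => x.1.1.2 :=
      snd.comp (fst.comp fst)
    have hj : Primrec fun x : (((ℕ × List ℕ) × ℕ) × ℕ) × ℕ => x.1.2 := snd.comp fst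
    have hk : Primrec fun x : (((ℕ × List ℕ) × ℕ) × ℕ) × ℕ => x.2 := snd
    exact Primrec.eq.comp (dec_S_tmulPrim hn hl (dec_S_tmulPrim hn hl hi hj) hk)
      (dec_S_tmulPrim hn hl hi (dec_S_tmulPrim hn hl hj hk))

end

theorem dec_S_exists_digits (N : ℕ) : ∀ (n : ℕ) (f : ℕ → ℕ), (∀ i < n, f i < N) →
    ∃ m < N ^ n, ∀ i < n, m / N ^ i % N = f i := by
  intro n
  induction n with
  | zero => intro f _; exact ⟨0, by simp, by simp⟩
  | succ n ih =>
    intro f hf
    obtain ⟨m, hm, hd⟩ := ih f (fun i hi => hf i (by omega))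
    have hN : 0 < N := lt_of_le_of_lt (Nat.zero_le _) (hf n (Nat.lt_succ_self n))
    refine ⟨m + f n * N ^ n, ?_, ?_⟩
    · have h1 := hf n (Nat.lt_succ_self n)
      have h2 : (f n + 1) * N ^ n ≤ N * N ^ n := Nat.mul_le_mul_right _ h1
      rw [pow_succ, mul_comm (N ^ n) N]
      rw [add_mul, one_mul] at h2
      omega
    · intro i hi
      rcases Nat.lt_succ_iff_lt_or_eq.1 hi with h | h
      · have h3 : f n * N ^ n = N ^ i * (N * (f n * N ^ (n - i - 1))) := by
          have : N ^ n = N ^ i * (N * N ^ (n - i - 1)) := by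
            rw [← pow_succ', ← pow_add]; congr 1; omega
          rw [this]; ring
        rw [h3, Nat.add_mul_div_left _ _ (pow_pos hN i), Nat.add_mul_mod_self_left]
        exact hd i h
      · subst h
        rw [Nat.add_mul_div_right _ _ (pow_pos hN i), Nat.div_eq_of_lt hm, zero_add]
        exact Nat.mod_eq_of_lt (hf i (Nat.lt_succ_self i))

theorem dec_S_card_tableSg {n : ℕ} {l : List ℕ} (h : IsTable n l) : Nat.card (tableSg n l h) = n := by
  show Nat.card (Fin n) = n
  exact Nat.card_fin n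

/-- the list of the first `k` digits of `c` to the base `N` -/
def dec_S_dl (N k c : ℕ) : List ℕ := (List.range k).map fun j => c / N ^ j % N

theorem dec_S_exists_dl (N : ℕ) (l : List ℕ) (hl : ∀ x ∈ l, x < N) :
    ∃ c < N ^ l.length, dec_S_dl N l.length c = l := by
  obtain ⟨c, hc, hd⟩ := dec_S_exists_digits N l.length (fun i => l.getD i 0) (by
    intro i hi
    rw [List.getD_eq_getElem _ _ hi]
    exact hl _ (List.getElem_mem hi))
  refine ⟨c, hc, ?_⟩
  apply List.ext_getElem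
  · simp [dec_S_dl]
  · intro i h1 h2
    simp only [dec_S_dl, List.getElem_map, List.getElem_range]
    rw [hd i h2, List.getD_eq_getElem _ _ h2]

/-- every finite semigroup containing a table semigroup is given by a table extending it -/
theorem dec_S_exists_table {n : ℕ} {l : List ℕ} (h : IsTable n l) (R : FinSg)
    (e : tableSg n l h →ₙ* R) (he : Injective e) :
    ∃ (l' : List ℕ) (h' : IsTable (Nat.card R) l'), n ≤ Nat.card R ∧
      (∀ i < n, ∀ j < n, tmul (Nat.card R) l' i j = tmul n l i j) ∧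
        Nonempty (R ≃* tableSg (Nat.card R) l' h') := by
  classical
  have := Fintype.ofFinite R
  obtain ⟨m, hm⟩ : ∃ m, m = Nat.card R := ⟨_, rfl⟩
  rw [← hm]
  have hmc : Fintype.card R = m := by rw [hm, Nat.card_eq_fintype_card]
  have hnm : n ≤ m := by
    have := Nat.card_le_card_of_injective e he
    rwa [dec_S_card_tableSg h, ← hm] at this
  have hm0 : 0 < m := lt_of_lt_of_le h.1 hnm
  obtain ⟨r0⟩ := R.ne
  let e' : Fin n → R := fun i => e i
  have he' : Injective e' := he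
  obtain ⟨g0, hg0⟩ := Set.MapsTo.exists_equiv_extend_of_card_eq (α := Fin m)
    (t := (Finset.univ : Finset R)) (s := {j | (j : ℕ) < n})
    (f := fun j => if hj : (j : ℕ) < n then e' ⟨j, hj⟩ else r0) (by simp [hmc])
    (fun x _ => by simp) (by
      intro i hi j hj hij
      have hi' : (i : ℕ) < n := hi
      have hj' : (j : ℕ) < n := hj
      simp only [hi', hj', dif_pos] at hij
      have := he' hij
      simp only [Fin.mk.injEq] at this
      exact Fin.ext this)
  let g : Fin m ≃ R := g0.trans (Equiv.subtypeUnivEquiv (by simp))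
  have hg : ∀ (i : ℕ) (hi : i < n), g ⟨i, lt_of_lt_of_le hi hnm⟩ = e' ⟨i, hi⟩ := by
    intro i hi
    have := hg0 ⟨i, lt_of_lt_of_le hi hnm⟩ hi
    simp only [hi, dif_pos] at this
    exact this
  let gg : ℕ → R := fun i => g ⟨i % m, Nat.mod_lt _ hm0⟩
  have hgg : ∀ i (hi : i < m), gg i = g ⟨i, hi⟩ := by
    intro i hi
    show g ⟨i % m, _⟩ = _
    congr 1
    exact Fin.ext (Nat.mod_eq_of_lt hi)
  have hinv : ∀ x : R, gg (g.symm x) = x := by
    intro x
    rw [hgg _ (g.symm x).2]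
    exact g.apply_symm_apply x
  let l' : List ℕ := (List.range (m * m)).map fun q => ((g.symm (gg (q / m) * gg (q % m)) : Fin m) : ℕ)
  have hlen : l'.length = m * m := by simp [l']
  have htm : ∀ i < m, ∀ j < m, tmul m l' i j = (g.symm (gg i * gg j) : Fin m) := by
    intro i hi j hj
    have hlt : i * m + j < l'.length := by
      rw [hlen]
      calc i * m + j < i * m + m := by omega
        _ = (i + 1) * m := by ring
        _ ≤ m * m := Nat.mul_le_mul_right _ hi
    unfold tmul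
    rw [List.getD_eq_getElem _ _ hlt]
    simp only [l', List.getElem_map, List.getElem_range]
    have e1 : (i * m + j) / m = i := by
      rw [Nat.mul_comm i m, Nat.mul_add_div hm0, Nat.div_eq_of_lt hj, add_zero]
    have e2 : (i * m + j) % m = j := by
      rw [Nat.mul_add_mod_self_right]; exact Nat.mod_eq_of_lt hj
    rw [e1, e2]
  have hT : IsTable m l' := by
    refine ⟨hm0, hlen, ?_, ?_⟩
    · intro x hx
      simp only [l', List.mem_map] at hx
      obtain ⟨q, -, rfl⟩ := hx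
      exact (g.symm _).2
    · intro i hi j hj k hk
      rw [htm i hi j hj, htm j hj k hk, htm _ (g.symm _).2 k hk, htm i hi _ (g.symm _).2,
        hinv, hinv, mul_assoc]
  refine ⟨l', hT, hnm, ?_, ?_⟩
  · intro i hi j hj
    have hi' := lt_of_lt_of_le hi hnm
    have hj' := lt_of_lt_of_le hj hnm
    have hk : tmul n l i j < n := tmul_lt h i j
    rw [htm i hi' j hj', hgg i hi', hgg j hj', hg i hi, hg j hj]
    have h1 : e' ⟨i, hi⟩ * e' ⟨j, hj⟩ = e' ⟨tmul n l i j, hk⟩ :=
      (map_mul e (show tableSg n l h from (⟨i, hi⟩ : Fin n))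
        (show tableSg n l h from (⟨j, hj⟩ : Fin n))).symm
    rw [h1, ← hg _ hk, Equiv.symm_apply_apply]
  · let φ : R → tableSg m l' hT := fun x => (g.symm x : Fin m)
    have hφ : ∀ x y, φ (x * y) = φ x * φ y := by
      intro x y
      apply Fin.ext
      show ((g.symm (x * y) : Fin m) : ℕ) = tmul m l' (g.symm x : Fin m) (g.symm y : Fin m)
      rw [htm _ (g.symm x).2 _ (g.symm y).2, hinv, hinv]
    exact ⟨MulEquiv.mk' (g.symm : R ≃ Fin m) hφ⟩

theorem dec_S_ex {α : Type} [Primcodable α] {f : α → ℕ} {P : α × ℕ → Prop} (hf : Computable f)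
    (hP : ComputablePred P) : ComputablePred (fun a => ∃ x < f a, P (a, x)) := by
  obtain ⟨g, hg, rfl⟩ := ComputablePred.computable_iff.1 hP
  rw [ComputablePred.computable_iff]
  refine ⟨fun a => Nat.rec false (fun y IH => IH || g (a, y)) (f a), ?_, ?_⟩
  · refine Computable.nat_rec (h := fun a (p : ℕ × Bool) => p.2 || g (a, p.1)) hf
      (Computable.const false) ?_
    exact Primrec.or.to_comp.comp (Computable.snd.comp Computable.snd)
      (hg.comp (Computable.fst.pair (Computable.fst.comp Computable.snd)))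
  · funext a
    apply propext
    have key : ∀ n : ℕ, (∃ x < n, g (a, x) = true) ↔
        (Nat.rec false (fun y IH => IH || g (a, y)) n : Bool) = true := by
      intro n
      induction n with
      | zero => simp
      | succ n ih =>
      show _ ↔ ((Nat.rec false (fun y IH => IH || g (a, y)) n : Bool) || g (a, n)) = true
      rw [Bool.or_eq_true, ← ih]
      constructor
      · rintro ⟨x, hx, h⟩
        rcases Nat.lt_succ_iff_lt_or_eq.1 hx with h1 | h1
        · exact Or.inl ⟨x, h1, h⟩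
        · subst h1
          exact Or.inr h
      · rintro (⟨x, hx, h⟩ | h)
        · exact ⟨x, by omega, h⟩
        · exact ⟨n, by omega, h⟩
    exact key (f a)

theorem dec_S_and {α : Type} [Primcodable α] {P Q : α → Prop} (hP : ComputablePred P)
    (hQ : ComputablePred Q) : ComputablePred (fun a => P a ∧ Q a) := by
  obtain ⟨g, hg, rfl⟩ := ComputablePred.computable_iff.1 hP
  obtain ⟨g', hg', rfl⟩ := ComputablePred.computable_iff.1 hQ
  rw [ComputablePred.computable_iff]
  refine ⟨fun a => g a && g' a, Primrec.and.to_comp.comp hg hg', ?_⟩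
  funext a
  simp

theorem dec_S_prim {α : Type} [Primcodable α] {P : α → Prop} (hP : PrimrecPred P) :
    ComputablePred P := by
  obtain ⟨hd, hp⟩ := hP
  exact ⟨hd, hp.to_comp⟩

theorem dec_S_comp {α β : Type} [Primcodable α] [Primcodable β] {P : β → Prop} {f : α → β}
    (hP : ComputablePred P) (hf : Computable f) : ComputablePred (fun a => P (f a)) := by
  obtain ⟨g, hg, rfl⟩ := ComputablePred.computable_iff.1 hP
  rw [ComputablePred.computable_iff]
  exact ⟨fun a => g (f a), hg.comp hf, rfl⟩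

theorem dec_S_iff {X : Set FinSg} (hI : IsoC X) {b : ℕ → ℕ}
    (hb : ∀ B ∈ opS X, ∃ T ∈ X, Nat.card T ≤ b (Nat.card B) ∧ ∃ f : B →ₙ* T, Injective f)
    {n : ℕ} {l : List ℕ} (h : IsTable n l) :
    tableSg n l h ∈ opS X ↔ ∃ m < b n + 1, ∃ c < (b n + 1) ^ (m * m),
      (∃ h' : IsTable m (dec_S_dl (b n + 1) (m * m) c),
        tableSg m (dec_S_dl (b n + 1) (m * m) c) h' ∈ X) ∧ n ≤ m ∧
      (∀ i < n, ∀ j < n, tmul m (dec_S_dl (b n + 1) (m * m) c) i j = tmul n l i j) := by
  constructor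
  · intro hB
    obtain ⟨T, hT, hc, f, hf⟩ := hb _ hB
    rw [dec_S_card_tableSg h] at hc
    obtain ⟨l', h', hnm, hres, ⟨ψ⟩⟩ := dec_S_exists_table h T f hf
    obtain ⟨c, hc1, hc2⟩ := dec_S_exists_dl (b n + 1) l'
      (fun y hy => lt_of_lt_of_le (h'.2.2.1 y hy) (by omega))
    rw [h'.2.1] at hc1 hc2
    refine ⟨Nat.card T, by omega, c, hc1, ?_⟩
    rw [hc2]
    exact ⟨⟨h', hI T hT _ ⟨ψ⟩⟩, hnm, hres⟩
  · rintro ⟨m, -, c, -, ⟨h', hX⟩, hnm, hres⟩
    refine ⟨_, hX, ⟨fun i : Fin n => (⟨i, lt_of_lt_of_le i.2 hnm⟩ : Fin m), ?_⟩, ?_⟩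
    · intro (i : Fin n) (j : Fin n)
      apply Fin.ext
      exact (hres i i.2 j j.2).symm
    · intro (i : Fin n) (j : Fin n) hij
      have : (⟨i, lt_of_lt_of_le i.2 hnm⟩ : Fin m) = ⟨j, lt_of_lt_of_le j.2 hnm⟩ := hij
      simp only [Fin.mk.injEq] at this
      exact Fin.ext this

section
open Primrec

theorem dec_S_list : Primrec fun x : ℕ × ℕ × ℕ => dec_S_dl x.1 (x.2.1 * x.2.1) x.2.2 := by
  unfold dec_S_dl
  have pm : Primrec fun x : ℕ × ℕ × ℕ => x.2.1 := fst.comp snd
  have pc : Primrec fun x : ℕ × ℕ × ℕ => x.2.2 := snd.comp snd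
  have pN : Primrec fun x : ℕ × ℕ × ℕ => x.1 := fst
  refine Primrec.list_map (Primrec.list_range.comp (Primrec.nat_mul.comp pm pm)) ?_
  exact Primrec.nat_mod.comp (Primrec.nat_div.comp (pc.comp fst)
    (dec_S_powPrim.comp (pN.comp fst) snd)) (pN.comp fst)

theorem dec_S_p3 : PrimrecPred fun x : (ℕ × List ℕ) × (ℕ × List ℕ) => ∀ i < x.1.1, ∀ j < x.1.1,
    tmul x.2.1 x.2.2 i j = tmul x.1.1 x.1.2 i j := by
  let X := (ℕ × List ℕ) × (ℕ × List ℕ)
  have pn : Primrec fun x : X => x.1.1 := fst.comp fst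
  have pl : Primrec fun x : X => x.1.2 := snd.comp fst
  have pm : Primrec fun x : X => x.2.1 := fst.comp snd
  have pL : Primrec fun x : X => x.2.2 := snd.comp snd
  refine dec_S_allLt (f := fun x : X => x.1.1) pn ?_
  refine dec_S_allLt (f := fun x : X × ℕ => x.1.1.1) (pn.comp fst) ?_
  have qi : Primrec fun x : (X × ℕ) × ℕ => x.1.2 := snd.comp fst
  have qj : Primrec fun x : (X × ℕ) × ℕ => x.2 := snd
  have q0 : Primrec fun x : (X × ℕ) × ℕ => x.1.1 := fst.comp fst
  exact Primrec.eq.comp (dec_S_tmulPrim (pm.comp q0) (pL.comp q0) qi qj)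
    (dec_S_tmulPrim (pn.comp q0) (pl.comp q0) qi qj)

end

theorem dec_S_q1 {X : Set FinSg} (hX : DecClass X) (b1 : ℕ → ℕ) (hb1 : Computable b1)
    (L : ℕ × ℕ × ℕ → List ℕ) (hL : Computable L) :
    ComputablePred fun x : ((ℕ × List ℕ) × ℕ) × ℕ =>
      ∃ h' : IsTable x.1.2 (L (b1 x.1.1.1, x.1.2, x.2)),
        tableSg x.1.2 (L (b1 x.1.1.1, x.1.2, x.2)) h' ∈ X := by
  have c1 : Computable fun x : ((ℕ × List ℕ) × ℕ) × ℕ => b1 x.1.1.1 :=
    hb1.comp (Computable.fst.comp (Computable.fst.comp Computable.fst))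
  have cm : Computable fun x : ((ℕ × List ℕ) × ℕ) × ℕ => x.1.2 :=
    Computable.snd.comp Computable.fst
  have cc : Computable fun x : ((ℕ × List ℕ) × ℕ) × ℕ => x.2 := Computable.snd
  have cL : Computable fun x : ((ℕ × List ℕ) × ℕ) × ℕ => L (b1 x.1.1.1, x.1.2, x.2) :=
    hL.comp (c1.pair (cm.pair cc))
  exact dec_S_comp (f := fun x : ((ℕ × List ℕ) × ℕ) × ℕ => (x.1.2, L (b1 x.1.1.1, x.1.2, x.2)))
    (P := fun x : ℕ × List ℕ => ∃ h : IsTable x.1 x.2, tableSg x.1 x.2 h ∈ X) hX (cm.pair cL)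

theorem dec_S_q2 : ComputablePred fun x : ((ℕ × List ℕ) × ℕ) × ℕ => x.1.1.1 ≤ x.1.2 := by
  apply dec_S_prim
  exact Primrec.nat_le.comp (Primrec.fst.comp (Primrec.fst.comp Primrec.fst))
    (Primrec.snd.comp Primrec.fst)

theorem dec_S_q3 (b1 : ℕ → ℕ) (hb1 : Computable b1)
    (L : ℕ × ℕ × ℕ → List ℕ) (hL : Computable L) :
    ComputablePred fun x : ((ℕ × List ℕ) × ℕ) × ℕ => ∀ i < x.1.1.1, ∀ j < x.1.1.1,
      tmul x.1.2 (L (b1 x.1.1.1, x.1.2, x.2)) i j = tmul x.1.1.1 x.1.1.2 i j := by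
  have c1 : Computable fun x : ((ℕ × List ℕ) × ℕ) × ℕ => b1 x.1.1.1 :=
    hb1.comp (Computable.fst.comp (Computable.fst.comp Computable.fst))
  have cm : Computable fun x : ((ℕ × List ℕ) × ℕ) × ℕ => x.1.2 :=
    Computable.snd.comp Computable.fst
  have cc : Computable fun x : ((ℕ × List ℕ) × ℕ) × ℕ => x.2 := Computable.snd
  have cx : Computable fun x : ((ℕ × List ℕ) × ℕ) × ℕ => x.1.1 :=
    Computable.fst.comp Computable.fst
  have cL : Computable fun x : ((ℕ × List ℕ) × ℕ) × ℕ => L (b1 x.1.1.1, x.1.2, x.2) :=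
    hL.comp (c1.pair (cm.pair cc))
  exact dec_S_comp (f := fun x : ((ℕ × List ℕ) × ℕ) × ℕ =>
      (x.1.1, (x.1.2, L (b1 x.1.1.1, x.1.2, x.2))))
    (P := fun x : (ℕ × List ℕ) × (ℕ × List ℕ) => ∀ i < x.1.1, ∀ j < x.1.1,
      tmul x.2.1 x.2.2 i j = tmul x.1.1 x.1.2 i j) (dec_S_prim dec_S_p3)
    (cx.pair (cm.pair cL))

theorem dec_S_d1 (b1 : ℕ → ℕ) (hb1 : Computable b1) :
    Computable fun x : (ℕ × List ℕ) × ℕ => (b1 x.1.1) ^ (x.2 * x.2) :=
  dec_S_powPrim.to_comp.comp (hb1.comp (Computable.fst.comp Computable.fst))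
    (Primrec.nat_mul.to_comp.comp Computable.snd Computable.snd)

theorem dec_S_main {X : Set FinSg} (hX : DecClass X) (b1 : ℕ → ℕ) (hb1 : Computable b1)
    (L : ℕ × ℕ × ℕ → List ℕ) (hL : Computable L) :
    ComputablePred fun x : ℕ × List ℕ => IsTable x.1 x.2 ∧ ∃ m < b1 x.1,
      ∃ c < (b1 x.1) ^ (m * m), (∃ h' : IsTable m (L (b1 x.1, m, c)),
        tableSg m (L (b1 x.1, m, c)) h' ∈ X) ∧ x.1 ≤ m ∧
        (∀ i < x.1, ∀ j < x.1, tmul m (L (b1 x.1, m, c)) i j = tmul x.1 x.2 i j) := by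
  have q4 := dec_S_and (dec_S_q1 hX b1 hb1 L hL) (dec_S_and dec_S_q2 (dec_S_q3 b1 hb1 L hL))
  have q5 := dec_S_ex (dec_S_d1 b1 hb1) q4
  have q6 := dec_S_ex (hb1.comp Computable.fst : Computable fun x : ℕ × List ℕ => b1 x.1) q5
  exact dec_S_and (dec_S_prim dec_S_isTablePrim) q6

theorem dec_S {X : Set FinSg} (hX : DecClass X) (hI : IsoC X) {b : ℕ → ℕ} (hb : Computable b)
    (h : ∀ B ∈ opS X, ∃ T ∈ X, Nat.card T ≤ b (Nat.card B) ∧ ∃ f : B →ₙ* T, Injective f) :
    DecClass (opS X) := by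
  have hb1 : Computable fun n => b n + 1 := Primrec.succ.to_comp.comp hb
  refine (dec_S_main hX (fun n => b n + 1) hb1
    (fun x : ℕ × ℕ × ℕ => dec_S_dl x.1 (x.2.1 * x.2.1) x.2.2) dec_S_list.to_comp).of_eq ?_
  intro x
  constructor
  · rintro ⟨h1, h2⟩
    exact ⟨h1, (dec_S_iff hI h h1).2 h2⟩
  · rintro ⟨h1, h2⟩
    exact ⟨h1, (dec_S_iff hI h h1).1 h2⟩

end J11145

alias dec_S := J11145.dec_S

end

end Pool.Agent.H502.Bk
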