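import Pool.Agent.H502.BkSk
import Pool.Agent.H502.BkJ_PV_pi
import Pool.Agent.H502.BkJ_PV_cyc
import Pool.Agent.H502.BkJ_loop_quot
import Pool.Agent.H502.BkJ_sel_exists
import Pool.Agent.H502.BkJ_scc_mem
import Pool.Agent.H502.BkJ_scc_paths
set_option autoImplicit false

namespace Pool.Agent.H502.Bk

section
open Function W

namespace J11453

/-! ### TARGET of this job: rcv -/

theorem rcv_lab_mul {S G : Type} [Group G] (lb : S → S → G) (u v : W S) :
    lab lb (u * v) = lab lb u * lb (last u) (head v) * lab lb v := by
  induction v with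
  | one t =>
    show lab lb u * lb (last u) t = lab lb u * lb (last u) t * 1
    rw [mul_one]
  | snoc v t ih =>
    show lab lb (u * v) * lb (last (u * v)) t =
      lab lb u * lb (last u) (head v) * (lab lb v * lb (last v) t)
    rw [ih, last_mul]
    simp only [mul_assoc]

theorem rcv_map_lab {S G H : Type} [Group G] [Group H] (f : G →* H) (lb : S → S → G) (w : W S) :
    f (lab lb w) = lab (fun s t => f (lb s t)) w := by
  induction w with
  | one s => exact map_one f
  | snoc w t ih =>
    show f (lab lb w * lb (last w) t) = lab (fun s t => f (lb s t)) w * f (lb (last w) t)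
    rw [map_mul, ih]

/-- length of a word -/
def rcv_len {S : Type} : W S → ℕ
  | one _ => 1
  | snoc w _ => rcv_len w + 1

theorem rcv_len_pos {S : Type} (v : W S) : 0 < rcv_len v := by
  cases v with
  | one s => exact Nat.one_pos
  | snoc w t => exact Nat.succ_pos _

theorem rcv_len_mul {S : Type} (u v : W S) : rcv_len (u * v) = rcv_len u + rcv_len v := by
  induction v with
  | one t => rfl
  | snoc v t ih =>
    show rcv_len (u * v) + 1 = rcv_len u + (rcv_len v + 1)
    rw [ih]; ring

theorem rcv_decomp {S : Type} {D : Dig S} (w : W S) (hw : path D w) :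
    Inn D w ∨ ∃ u v, w = u * v ∧ arc D (last u) (head v) ∧ ¬ conn D (head v) (last u) ∧
      Inn D v ∧ path D u ∧ path D v := by
  induction w with
  | one s => exact Or.inl trivial
  | snoc w t ih =>
    obtain ⟨h1, h2⟩ := hw
    by_cases hc : conn D t (last w)
    · rcases ih h1 with h | ⟨u, v, rfl, ha, hn, hi, hu, hv⟩
      · exact Or.inl ⟨h, hc⟩
      · right
        rw [last_mul] at hc h2
        exact ⟨u, snoc v t, rfl, ha, hn, ⟨hi, hc⟩, hu, ⟨hv, h2⟩⟩
    · right
      exact ⟨w, one t, rfl, h2, hc, trivial, h1, h2.2.1⟩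

/-- the head of a path is before the last letter -/
theorem rcv_head_le {S : Type} {D : Dig S} (w : W S) (hw : path D w) :
    head w = last w ∨ conn D (head w) (last w) := by
  induction w with
  | one s => exact Or.inl rfl
  | snoc w t ih =>
    obtain ⟨h1, h2⟩ := hw
    right
    have h3 : conn D (last w) t := conn_of_arc h2
    rcases ih h1 with h | h
    · show conn D (head w) t
      rw [h]; exact h3
    · exact conn_trans h h3

theorem rcv_inn_le {S : Type} {D : Dig S} (w : W S) (hi : Inn D w) :
    last w = head w ∨ conn D (last w) (head w) := by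
  induction w with
  | one s => exact Or.inl rfl
  | snoc w t ih =>
    obtain ⟨h1, h2⟩ := hi
    right
    rcases ih h1 with h | h
    · show conn D t (head w)
      rw [← h]; exact h2
    · exact conn_trans h2 h

theorem rcv_inn_of {S : Type} {D : Dig S} (w : W S) (hw : path D w)
    (hl : last w = head w ∨ conn D (last w) (head w)) : Inn D w := by
  induction w with
  | one s => trivial
  | snoc w t ih =>
    obtain ⟨h1, h2⟩ := hw
    have h3 : conn D (last w) t := conn_of_arc h2
    have hl' : t = head w ∨ conn D t (head w) := hl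
    refine ⟨ih h1 ?_, ?_⟩
    · right
      rcases hl' with h | h
      · rw [← h]; exact h3
      · exact conn_trans h3 h
    · rcases hl' with h | h
      · rcases rcv_head_le w h1 with h' | h'
        · have e : t = last w := h.trans h'
          rw [e] at h3 ⊢
          exact h3
        · rw [h]; exact h'
      · rcases rcv_head_le w h1 with h' | h'
        · rw [← h']; exact h
        · exact conn_trans h h'

theorem rcv_inn_rep {S : Type} {D : Dig S} (σ : Sel D) (w : W S) (hw : path D w)
    (hi : Inn D w) : σ.rep (head w) = σ.rep (last w) := by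
  rcases rcv_head_le w hw with h | h
  · rw [h]
  · rcases rcv_inn_le w hi with h' | h'
    · rw [h']
    · exact σ.hrep _ _ h h'

theorem rcv_inn_conn {S : Type} {D : Dig S} (w : W S) (hw : path D w)
    (hi : Inn D w) (hc : conn D (last w) (last w)) : conn D (head w) (head w) := by
  rcases rcv_head_le w hw with h | h
  · rw [h]; exact hc
  · rcases rcv_inn_le w hi with h' | h'
    · rw [← h']; exact hc
    · exact conn_trans h h'

theorem rcv_inn_one {S : Type} {D : Dig S} (w : W S) (hw : path D w)
    (hi : Inn D w) (hc : ¬ conn D (last w) (last w)) : w = one (last w) := by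
  cases w with
  | one s => rfl
  | snoc w t =>
    exfalso
    apply hc
    exact conn_trans hi.2 (conn_of_arc hw.2)

open Classical in
/-- the label counting the outer arc `(x, y)` -/
noncomputable def rcv_co {S : Type} (D : Dig S) (m : ℕ) (x y s t : S) : Multiplicative (ZMod m) :=
  if x = s ∧ y = t ∧ arc D s t ∧ ¬ conn D t s then Multiplicative.ofAdd 1 else 1

theorem rcv_co_inn {S : Type} {D : Dig S} {m : ℕ} (x y : S) (v : W S) (hi : Inn D v) :
    lab (rcv_co D m x y) v = 1 := by
  induction v with
  | one s => rfl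
  | snoc w t ih =>
    show lab (rcv_co D m x y) w * rcv_co D m x y (last w) t = 1
    rw [ih hi.1, one_mul]
    unfold rcv_co
    rw [if_neg]
    rintro ⟨-, -, -, h⟩
    exact h hi.2

theorem rcv_co_out {S : Type} {D : Dig S} {m : ℕ} (x t : S) (u : W S) (hu : path D u)
    (ht : ¬ (t = last u ∨ conn D t (last u))) : lab (rcv_co D m x t) u = 1 := by
  induction u with
  | one s => rfl
  | snoc w y ih =>
    obtain ⟨h1, h2⟩ := hu
    have ht' : ¬ (t = y ∨ conn D t y) := ht
    show lab (rcv_co D m x t) w * rcv_co D m x t (last w) y = 1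
    rw [ih h1 ?_, one_mul]
    · unfold rcv_co
      rw [if_neg]
      rintro ⟨-, h, -, -⟩
      exact ht' (Or.inl h)
    · rintro (h | h)
      · exact ht' (Or.inr (by rw [h]; exact conn_of_arc h2))
      · exact ht' (Or.inr (conn_trans h (conn_of_arc h2)))

theorem rcv_co_split {S : Type} {D : Dig S} {m : ℕ} (s t : S) (w : W S)
    (hne : lab (rcv_co D m s t) w ≠ 1) : ∃ u v, w = u * v ∧ last u = s ∧ head v = t := by
  induction w with
  | one x => exact absurd rfl hne
  | snoc w y ih =>
    by_cases h : lab (rcv_co D m s t) w = 1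
    · have h2 : rcv_co D m s t (last w) y ≠ 1 := by
        intro h3
        apply hne
        show lab (rcv_co D m s t) w * rcv_co D m s t (last w) y = 1
        rw [h, h3, one_mul]
      unfold rcv_co at h2
      by_cases hc : s = last w ∧ t = y ∧ arc D (last w) y ∧ ¬ conn D y (last w)
      · exact ⟨w, one y, rfl, hc.1.symm, hc.2.1.symm⟩
      · rw [if_neg hc] at h2
        exact absurd rfl h2
    · obtain ⟨u, v, rfl, h1, h2⟩ := ih h
      exact ⟨u, snoc v y, rfl, h1, h2⟩

theorem rcv_lbi_out {S G : Type} [Group G] {D : Dig S} (σ : Sel D) (lb : S → S → G) {b : S}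
    {Γ : Type} [Group Γ] (φ : LK D lb b →* Γ) (t : S) (ht : conn D t t) (hb : σ.rep t = b)
    (u : W S) (hu : path D u) (hn : ¬ (t = last u ∨ conn D t (last u))) :
    lab (σ.lbi lb φ) u = 1 := by
  induction u with
  | one s => rfl
  | snoc w y ih =>
    obtain ⟨h1, h2⟩ := hu
    have hn' : ¬ (t = y ∨ conn D t y) := hn
    show lab (σ.lbi lb φ) w * σ.lbi lb φ (last w) y = 1
    rw [ih h1 ?_, one_mul]
    · unfold Sel.lbi
      rw [dif_neg]
      rintro ⟨-, hc, ha, hr⟩
      apply hn'
      right
      have c1 : conn D (last w) (last w) := conn_trans (conn_of_arc h2) hc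
      have c2 : conn D t (σ.rep t) := by
        obtain ⟨p1, p2, p3⟩ := σ.hv t ht
        exact ⟨σ.v t, p1, p2, p3⟩
      have c3 : conn D (σ.rep (last w)) (last w) := by
        obtain ⟨p1, p2, p3⟩ := σ.hu (last w) c1
        exact ⟨σ.u (last w), p1, p2, p3⟩
      rw [hr, ← hb] at c3
      exact conn_trans (conn_trans c2 c3) (conn_of_arc h2)
    · rintro (h | h)
      · exact hn' (Or.inr (by rw [h]; exact conn_of_arc h2))
      · exact hn' (Or.inr (conn_trans h (conn_of_arc h2)))

theorem rcv_lbi_inn {S G : Type} [Group G] {D : Dig S} (σ : Sel D) (lb : S → S → G) {b : S}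
    {Γ : Type} [Group Γ] (φ : LK D lb b →* Γ) (v : W S) (hv : path D v) (hi : Inn D v)
    (hb : b ≠ σ.rep (last v)) : lab (σ.lbi lb φ) v = 1 := by
  induction v with
  | one s => rfl
  | snoc w t ih =>
    obtain ⟨h1, h2⟩ := hv
    obtain ⟨h3, h4⟩ := hi
    have hb' : b ≠ σ.rep t := hb
    have hr : σ.rep (last w) = σ.rep t := σ.hrep _ _ (conn_of_arc h2) h4
    show lab (σ.lbi lb φ) w * σ.lbi lb φ (last w) t = 1
    rw [ih h1 h3 (by rw [hr]; exact hb'), one_mul]
    unfold Sel.lbi
    rw [dif_neg]
    rintro ⟨-, -, -, h⟩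
    exact hb' (h.symm.trans hr)

theorem rcv_R_mul {S : Type} (R : Setoid (W S))
    (hsnoc : ∀ p p' s, R p p' → R (snoc p s) (snoc p' s)) {p p' : W S} (h : R p p') (v : W S) :
    R (p * v) (p' * v) := by
  induction v with
  | one s => exact hsnoc _ _ s h
  | snoc v s ih => exact hsnoc _ _ s ih

theorem rcv_claim {S G : Type} [Group G] [Finite G] {D : Dig S} (σ : Sel D) (lb : S → S → G)
    (R : Setoid (W S)) (hsnoc : ∀ p p' s, R p p' → R (snoc p s) (snoc p' s))
    (hR : ∀ p p', path D p → path D p' → head p = head p' → last p = last p' →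
      lab lb p = lab lb p' → R p p') {Γ : S → Type} [∀ b, Group (Γ b)]
    (φ : ∀ b, LK D lb b →* Γ b)
    (hφ : ∀ b, ∀ c c' (hc : Loop D b c) (hc' : Loop D b c'),
      φ b ⟨gl lb b c, gl_mem lb hc⟩ = φ b ⟨gl lb b c', gl_mem lb hc'⟩ →
      ∀ p, path D p → last p = b → R (p * c) (p * c')) {m : ℕ} (hm : 2 ≤ m) :
    ∀ (N : ℕ) (w w' : W S), rcv_len w ≤ N → path D w → path D w' → head w = head w' →
      last w = last w' → (∀ x y, lab (rcv_co D m x y) w = lab (rcv_co D m x y) w') →
      (∀ b, lab (σ.lbi lb (φ b)) w = lab (σ.lbi lb (φ b)) w') → R w w' := by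
  intro N
  induction N with
  | zero =>
    intro w w' hN
    have := rcv_len_pos w
    omega
  | succ N ih =>
    intro w w' hN hw hw' hh hl hco hlb
    rcases rcv_decomp w hw with hi | ⟨u, v, rfl, ha, hn, hi, hu, hv⟩
    · have hi' : Inn D w' := by
        refine rcv_inn_of w' hw' ?_
        rw [← hh, ← hl]
        exact rcv_inn_le w hi
      exact (scc_paths σ lb R hsnoc hR (φ (σ.rep (last w))) (hφ _) w w' hw hw' hi hi' hh hl rfl
        (hlb _)).1
    · have hts : ¬ (head v = last u ∨ conn D (head v) (last u)) := by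
        rintro (h | h)
        · apply hn
          have := conn_of_arc ha
          rw [h] at this ⊢
          exact this
        · exact hn h
      have hne : lab (rcv_co D m (last u) (head v)) (u * v) ≠ 1 := by
        rw [rcv_lab_mul, rcv_co_out _ _ u hu hts, rcv_co_inn _ _ v hi, one_mul, mul_one]
        unfold rcv_co
        rw [if_pos ⟨rfl, rfl, ha, hn⟩]
        intro h
        have h1 : (1 : ZMod m) = 0 := by
          simpa using h
        haveI : Fact (1 < m) := ⟨by omega⟩
        exact one_ne_zero h1
      rw [hco] at hne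
      obtain ⟨u', v', rfl, hu's, hv't⟩ := rcv_co_split _ _ w' hne
      obtain ⟨hu', ha', hv'⟩ := (path_mul u' v').1 hw'
      rw [last_mul, last_mul] at hl
      rw [head_mul, head_mul] at hh
      have hi' : Inn D v' := by
        refine rcv_inn_of v' hv' ?_
        rw [hv't, ← hl]
        exact rcv_inn_le v hi
      -- first components
      have hcou : ∀ x y, lab (rcv_co D m x y) u = lab (rcv_co D m x y) u' := by
        intro x y
        have h := hco x y
        rw [rcv_lab_mul, rcv_lab_mul, rcv_co_inn _ _ v hi, rcv_co_inn _ _ v' hi', mul_one, mul_one,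
          hu's, hv't] at h
        exact mul_right_cancel h
      have hmid : ∀ b, σ.lbi lb (φ b) (last u) (head v) = 1 := by
        intro b
        unfold Sel.lbi
        rw [dif_neg]
        rintro ⟨-, h, -, -⟩
        exact hn h
      have hprod : ∀ b, lab (σ.lbi lb (φ b)) u * lab (σ.lbi lb (φ b)) v =
          lab (σ.lbi lb (φ b)) u' * lab (σ.lbi lb (φ b)) v' := by
        intro b
        have h := hlb b
        rw [rcv_lab_mul, rcv_lab_mul, hu's, hv't, hmid b, mul_one, mul_one] at h
        exact h
      have hboth : (∀ b, lab (σ.lbi lb (φ b)) u = lab (σ.lbi lb (φ b)) u') ∧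
          lab (σ.lbi lb (φ (σ.rep (last v)))) v = lab (σ.lbi lb (φ (σ.rep (last v)))) v' := by
        by_cases hc : conn D (last v) (last v)
        · have hct : conn D (head v) (head v) := rcv_inn_conn v hv hi hc
          have hrt : σ.rep (head v) = σ.rep (last v) := rcv_inn_rep σ v hv hi
          have e1 : lab (σ.lbi lb (φ (σ.rep (last v)))) u = 1 :=
            rcv_lbi_out σ lb (φ (σ.rep (last v))) (head v) hct hrt u hu hts
          have e2 : lab (σ.lbi lb (φ (σ.rep (last v)))) u' = 1 :=
            rcv_lbi_out σ lb (φ (σ.rep (last v))) (head v) hct hrt u' hu' (by rw [hu's]; exact hts)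
          refine ⟨fun b => ?_, ?_⟩
          · by_cases hb : b = σ.rep (last v)
            · subst hb
              rw [e1, e2]
            · have h := hprod b
              rw [rcv_lbi_inn σ lb (φ b) v hv hi hb,
                rcv_lbi_inn σ lb (φ b) v' hv' hi' (by rw [← hl]; exact hb), mul_one, mul_one] at h
              exact h
          · have h := hprod (σ.rep (last v))
            rw [e1, e2, one_mul, one_mul] at h
            exact h
        · have hv1 : v = one (last v) := rcv_inn_one v hv hi hc
          have hv2 : v' = one (last v') := rcv_inn_one v' hv' hi' (by rw [← hl]; exact hc)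
          have hvv : v = v' := by rw [hv1, hv2, hl]
          subst hvv
          exact ⟨fun b => mul_right_cancel (hprod b), rfl⟩
      have hlen : rcv_len u ≤ N := by
        rw [rcv_len_mul] at hN
        have := rcv_len_pos v
        omega
      have r1 : R u u' := ih u u' hlen hu hu' hh hu's.symm hcou hboth.1
      have r2 : R (u * v) (u' * v) := rcv_R_mul R hsnoc r1 v
      have r3 : R (u' * v) (u' * v') :=
        (scc_paths σ lb R hsnoc hR (φ (σ.rep (last v))) (hφ _) v v' hv hv' hi hi' hv't.symm hl rfl
          hboth.2).2 u' ((path_mul u' v).2 ⟨hu', by rw [hu's]; exact ha, hv⟩)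
      exact R.trans' r2 r3

theorem rcv (V : PV) : ∃ m : ℕ, 0 < m ∧ ∀ {S : Type} [Finite S] (D : Dig S) (R : Setoid (W S)),
    (∀ p p', R p p' → last p = last p') → (∀ p p' s, R p p' → R (snoc p s) (snoc p' s)) →
    Finite (Quotient R) → Lab V D (fun p p' => R p p') →
    LabB V D (fun p p' => R p p') (gB m (Nat.card S) (Nat.card (Quotient R))) := by
  classical
  rcases PV.cyc V with htriv | ⟨m, hm, hVm⟩
  · refine ⟨1, Nat.one_pos, ?_⟩
    intro S _ D R hlast hsnoc hfin hLab
    obtain ⟨G, iG, lb, hG, hR⟩ := hLab
    have hsub := htriv G hG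
    refine ⟨Unit, inferInstance, fun _ _ => 1, V.unit, ?_, ?_⟩
    · have h1 : 0 < (Nat.card (Quotient R)) ^ (Nat.card (Quotient R)) := by
        rcases Nat.eq_zero_or_pos (Nat.card (Quotient R)) with h | h
        · rw [h]; norm_num
        · exact Nat.pow_pos h
      unfold gB
      rw [one_pow, one_mul, Nat.card_unique]
      exact Nat.pow_pos h1
    · intro p p' hp hp' hh hl _
      exact hR p p' hp hp' hh hl (Subsingleton.elim _ _)
  · refine ⟨m, by omega, ?_⟩
    intro S _ D R hlast hsnoc hfin hLab
    obtain ⟨G, iG, lb, hG, hR⟩ := hLab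
    haveI : Finite G := V.fin G hG
    obtain ⟨σ⟩ := sel_exists D
    choose Γ iΓ φ hΓ hcard hφ using fun b => loop_quot V hG D lb R hlast hsnoc hR b
    refine ⟨(S → S → Multiplicative (ZMod m)) × (∀ b, Γ b), inferInstance,
      fun s t => (fun x y => rcv_co D m x y s t, fun b => σ.lbi lb (φ b) s t),
      V.prod _ _ (PV.pi V _ (fun s => PV.pi V _ (fun t => hVm))) (PV.pi V _ hΓ), ?_, ?_⟩
    · haveI := Fintype.ofFinite S
      have c1 : Nat.card (S → S → Multiplicative (ZMod m)) = m ^ (Nat.card S * Nat.card S) := by
        rw [Nat.card_fun, Nat.card_fun]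
        have : Nat.card (Multiplicative (ZMod m)) = m := by
          rw [Nat.card_congr Multiplicative.toAdd, Nat.card_zmod]
        rw [this, ← pow_mul]
      have c2 : Nat.card (∀ b, Γ b) ≤
          ((Nat.card (Quotient R)) ^ (Nat.card (Quotient R))) ^ (Nat.card S) := by
        rw [Nat.card_pi, Nat.card_eq_fintype_card (α := S)]
        calc ∏ b, Nat.card (Γ b) ≤
            ∏ _b : S, (Nat.card (Quotient R)) ^ (Nat.card (Quotient R)) :=
              Finset.prod_le_prod' (fun b _ => hcard b)
          _ = _ := by rw [Finset.prod_const, Finset.card_univ]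
      rw [Nat.card_prod, c1]
      exact Nat.mul_le_mul_left _ c2
    · intro p p' hp hp' hh hl he
      refine rcv_claim σ lb R hsnoc hR φ hφ hm (rcv_len p) p p' le_rfl hp hp' hh hl ?_ ?_
      · intro x y
        have h := congrArg (((Pi.evalMonoidHom (fun _ : S => Multiplicative (ZMod m)) y).comp
          (Pi.evalMonoidHom (fun _ : S => S → Multiplicative (ZMod m)) x)).comp
          (MonoidHom.fst (S → S → Multiplicative (ZMod m)) (∀ b, Γ b))) he
        rw [rcv_map_lab, rcv_map_lab] at h
        exact h
      · intro b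
        have h := congrArg ((Pi.evalMonoidHom Γ b).comp
          (MonoidHom.snd (S → S → Multiplicative (ZMod m)) (∀ b, Γ b))) he
        rw [rcv_map_lab, rcv_map_lab] at h
        exact h

end J11453

alias rcv := J11453.rcv

end

end Pool.Agent.H502.Bk
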