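import Pool.Agent.H502.BkSk
import Pool.Agent.H502.BkJ_pi_mem_opP
set_option autoImplicit false

namespace Pool.Agent.H502.Bk

section
open Function W

namespace J11130

/-! ### TARGET of this job: sp_bd -/

theorem sp_bd (X : Set FinSg) (B : FinSg) (hB : B ∈ opS (opP X)) :
    ∃ T ∈ opP (opS X), Nat.card T ≤ (Nat.card B) ^ (Nat.card B * Nat.card B) ∧
      ∃ f : B →ₙ* T, Injective f := by
  classical
  obtain ⟨A, ⟨k, T0, hT0, ⟨e⟩⟩, f, hf⟩ := hB
  let φ : B →ₙ* (∀ i, T0 i) := e.toMulHom.comp f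
  have hφ : Injective φ := e.injective.comp hf
  have hsep : ∀ p : B × B, ∃ i : Fin (k+1), p.1 ≠ p.2 → φ p.1 i ≠ φ p.2 i := by
    intro p
    by_cases hp : p.1 = p.2
    · exact ⟨0, fun h => absurd hp h⟩
    · by_contra hcon
      push Not at hcon
      apply hp
      apply hφ
      funext i
      exact (hcon i).2
  choose i hi using hsep
  let π : ∀ p : B × B, B →ₙ* T0 (i p) := fun p => (Pi.evalMulHom _ (i p)).comp φ
  obtain ⟨b0⟩ := B.ne
  let T : B × B → FinSg := fun p => ⟨(π p).srange, inferInstance, inferInstance,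
    ⟨⟨π p b0, ⟨b0, rfl⟩⟩⟩⟩
  have hT : ∀ p, T p ∈ opS X := fun p =>
    ⟨T0 (i p), hT0 _, MulMemClass.subtype (π p).srange, Subtype.coe_injective⟩
  have hcard : ∀ p, Nat.card (T p) ≤ Nat.card B := by
    intro p
    exact Nat.card_le_card_of_surjective (π p).srangeRestrict (MulHom.srangeRestrict_surjective _)
  haveI : Nonempty (B × B) := ⟨(b0, b0)⟩
  let P : FinSg := ⟨∀ p, T p, inferInstance, inferInstance, ⟨fun p => Classical.choice (T p).ne⟩⟩
  have hP : P ∈ opP (opS X) := pi_mem_opP T hT P (MulEquiv.refl _)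
  refine ⟨P, hP, ?_, ?_⟩
  · show Nat.card (∀ p, T p) ≤ _
    haveI := Fintype.ofFinite (B × B)
    rw [Nat.card_pi]
    refine le_trans (Finset.prod_le_pow_card _ _ (Nat.card B) fun p _ => hcard p) ?_
    rw [Finset.card_univ, ← Nat.card_eq_fintype_card, Nat.card_prod]
  · refine ⟨⟨fun b p => (π p).srangeRestrict b, fun a b => ?_⟩, ?_⟩
    · funext p
      exact map_mul _ _ _
    · intro a b hab
      by_contra hne
      apply hi (a, b) hne
      have := congrFun hab (a, b)
      exact congrArg Subtype.val this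

end J11130

alias sp_bd := J11130.sp_bd

end

end Pool.Agent.H502.Bk
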