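import Pool.Agent.H502.BkBase
set_option autoImplicit false

namespace Pool.Agent.H502.Bk

section grp

open Function W

theorem AllSub.inj {V : PV} {A B : Type} [Semigroup A] [Semigroup B] (f : A →ₙ* B)
    (hf : Injective f) (h : AllSub V B) : AllSub V A :=
  fun H _ g hg => h H (f.comp g) (hf.comp hg)

theorem Lab.mono {V : PV} {S : Type} {D : Dig S} {R R' : W S → W S → Prop} (h : Lab V D R)
    (hR : ∀ p p', R p p' → R' p p') : Lab V D R' := by
  obtain ⟨G, _, lb, h1, h2⟩ := h
  exact ⟨G, _, lb, h1, fun p p' a b c d e => hR _ _ (h2 p p' a b c d e)⟩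

/-- bound for the order of the group -/
def gB (m n q : ℕ) : ℕ := m ^ (n * n) * (q ^ q) ^ n

/-- closed path at `b` -/
def Loop {S : Type} (D : Dig S) (b : S) (c : W S) : Prop :=
  path D c ∧ arc D b (head c) ∧ last c = b

/-- label of a closed path at `b` -/
def gl {S G : Type} [Group G] (lb : S → S → G) (b : S) (c : W S) : G :=
  lb b (head c) * lab lb c

/-- the group generated by the labels of the closed paths at `b` -/
def LK {S G : Type} [Group G] (D : Dig S) (lb : S → S → G) (b : S) : Subgroup G :=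
  Subgroup.closure {g | ∃ c, Loop D b c ∧ gl lb b c = g}

theorem gl_mem {S G : Type} [Group G] {D : Dig S} (lb : S → S → G) {b : S} {c : W S}
    (hc : Loop D b c) : gl lb b c ∈ LK D lb b := Subgroup.subset_closure ⟨c, hc, rfl⟩

end grp

section rcvsec

open Function W

/-- a nonempty walk from `s` to `t` -/
def conn {S : Type} (D : Dig S) (s t : S) : Prop :=
  ∃ u : W S, path D u ∧ arc D s (head u) ∧ last u = t

theorem conn_of_arc {S : Type} {D : Dig S} {s t : S} (h : arc D s t) : conn D s t :=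
  ⟨one t, h.2.1, h, rfl⟩

theorem conn_trans {S : Type} {D : Dig S} {r s t : S} (h : conn D r s) (h' : conn D s t) :
    conn D r t := by
  obtain ⟨u, hu, hu', rfl⟩ := h
  obtain ⟨v, hv, hv', rfl⟩ := h'
  refine ⟨u * v, (path_mul u v).2 ⟨hu, hv', hv⟩, ?_, last_mul u v⟩
  rw [head_mul]; exact hu'

/-- a walk `x` from `h` to `l` (the letter `h` is not part of the word) -/
def Walk {S : Type} (D : Dig S) (h l : S) (x : W S) : Prop :=
  path D x ∧ arc D h (head x) ∧ last x = l

/-- choice of a base vertex in every strongly connected component and of walks from and to it -/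
structure Sel {S : Type} (D : Dig S) where
  rep : S → S
  u : S → W S
  v : S → W S
  hu : ∀ s, conn D s s → Walk D (rep s) s (u s)
  hv : ∀ s, conn D s s → Walk D s (rep s) (v s)
  hrep : ∀ s t, conn D s t → conn D t s → rep s = rep t

/-- label of the chosen walk from the base vertex to `s` -/
def Sel.A {S G : Type} [Group G] {D : Dig S} (σ : Sel D) (lb : S → S → G) (s : S) : G :=
  gl lb (σ.rep s) (σ.u s)

/-- all arcs of the word are inside strongly connected components -/
def Inn {S : Type} (D : Dig S) : W S → Prop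
  | one _ => True
  | snoc w t => Inn D w ∧ conn D t (last w)

open Classical in

/-- the labelling by `Γ` belonging to the base vertex `b` -/
noncomputable def Sel.lbi {S G : Type} [Group G] {D : Dig S} (σ : Sel D) (lb : S → S → G) {b : S}
    {Γ : Type} [Group Γ] (φ : LK D lb b →* Γ) (s t : S) : Γ :=
  if h : (σ.A lb s * lb s t * (σ.A lb t)⁻¹ ∈ LK D lb b) ∧ conn D t s ∧ arc D s t ∧ σ.rep s = b
  then φ ⟨_, h.1⟩ else 1

end rcvsec

section grp2

open Function W

/-- bound for the realising semigroup -/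
def mB (m n q : ℕ) : ℕ := (n + n) * (gB m n q * (n + n)) + 1

/-- realisation of right congruences in 0-simple semigroups over groups in `V`, of bounded size -/
def RealB (V : PV) (m : ℕ) : Prop :=
  ∀ (S : Type) [Finite S] [Nonempty S] (D : Dig S) (R : Setoid (W S)),
    (∀ p p', R p p' → last p = last p') → (∀ p p' s, R p p' → R (snoc p s) (snoc p' s)) →
    Finite (Quotient R) → Lab V D (fun p p' => R p p') →
    ∃ (M : FinSg) (g : S → M), M ∈ ZSO V ∧
      Nat.card M ≤ mB m (Nat.card S) (Nat.card (Quotient R)) ∧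
      ∀ w w', ev g w = ev g w' → (path D w ↔ path D w') ∧
        (path D w → head w = head w' ∧ last w = last w' ∧ R w w')

end grp2

section ops

open Function

/-- closed under isomorphism -/
def IsoC (X : Set FinSg) : Prop := ∀ A ∈ X, ∀ B : FinSg, Nonempty (A ≃* B) → B ∈ X

theorem opH_mono {X Y : Set FinSg} (h : X ⊆ Y) : opH X ⊆ opH Y := by
  rintro B ⟨A, hA, f, hf⟩
  exact ⟨A, h hA, f, hf⟩

theorem opS_mono {X Y : Set FinSg} (h : X ⊆ Y) : opS X ⊆ opS Y := by
  rintro B ⟨A, hA, f, hf⟩
  exact ⟨A, h hA, f, hf⟩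

theorem opP_mono {X Y : Set FinSg} (h : X ⊆ Y) : opP X ⊆ opP Y := by
  rintro B ⟨n, T, hT, e⟩
  exact ⟨n, T, fun i => h (hT i), e⟩

theorem opH_incr (X : Set FinSg) : X ⊆ opH X := fun A hA => ⟨A, hA, MulHom.id _, surjective_id⟩

theorem opS_incr (X : Set FinSg) : X ⊆ opS X := fun A hA => ⟨A, hA, MulHom.id _, injective_id⟩

theorem IsoC_H (X : Set FinSg) : IsoC (opH X) := by
  rintro A ⟨C, hC, f, hf⟩ B ⟨e⟩
  exact ⟨C, hC, e.toMulHom.comp f, e.surjective.comp hf⟩

theorem IsoC_S (X : Set FinSg) : IsoC (opS X) := by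
  rintro A ⟨C, hC, f, hf⟩ B ⟨e⟩
  exact ⟨C, hC, f.comp e.symm.toMulHom, hf.comp e.symm.injective⟩

theorem IsoC_P (X : Set FinSg) : IsoC (opP X) := by
  rintro A ⟨n, T, hT, ⟨e'⟩⟩ B ⟨e⟩
  exact ⟨n, T, hT, ⟨e.symm.trans e'⟩⟩

end ops

section hspsec

open Function W

open Classical in

/-- insertion of powers of the closed paths `c s` after every letter `s` -/
noncomputable def plus {S : Type} (E : Dig S) (c : S → W S) (K : ℕ) : W S → W S
  | one s => if conn E s s then one s * npw (c s) K else one s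
  | snoc w t => plus E c K w * (if conn E t t then one t * npw (c t) K else one t)

end hspsec

section bounds

open Function W

def hsB (m n : ℕ) : ℕ := mB m n (n * n)

/-- bound for the number of classes for `HPS` -/
def qB (n : ℕ) : ℕ := n + n ^ (n ^ (2 ^ n * 2 ^ (n * n))) * n

def hpsB (m n : ℕ) : ℕ := (mB m n (qB n)) ^ (2 ^ n * 2 ^ (n * n))

def shpsB (m n : ℕ) : ℕ := (mB m n (n * (n + n * n))) ^ (2 ^ n * 2 ^ (n * n))

def hspB (m n : ℕ) : ℕ := (mB m n (n * (n + 2))) ^ (2 ^ n * 2 ^ (n * n))

/-- bound for `HP` -/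
def hpB' (n : ℕ) : ℕ := (hpB n) ^ (numK n (hpB n))

end bounds

section szsec

open Function

/-- row equivalence of the elements outside of `Z` -/
def RowE {S : Type} [Semigroup S] (Z : S → Prop) : S → S → Prop :=
  Relation.EqvGen fun s t => ∃ v, t = s * v ∧ ¬ Z t

/-- column equivalence -/
def ColE {S : Type} [Semigroup S] (Z : S → Prop) : S → S → Prop :=
  Relation.EqvGen fun s t => ∃ u, t = u * s ∧ ¬ Z t

/-- `Z` is empty or consists of a zero, and the rest is categorical -/
def ZCat {S : Type} [Semigroup S] (Z : S → Prop) : Prop :=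
  (∀ s t, Z s → Z (s * t) ∧ Z (t * s)) ∧ (∀ s t, Z s → Z t → s = t) ∧
    ∀ u s t, ¬ Z (u * s) → ¬ Z (s * t) → ¬ Z (u * s * t)

/-- the system of equations and inequations -/
def SZsol {S : Type} [Semigroup S] (Z : S → Prop) {G : Type} [Group G] (g : S → G)
    (p : S → S → G) : Prop :=
  (∀ s t, ¬ Z (s * t) → g s * p s t * g t = g (s * t)) ∧
  (∀ u s t, ¬ Z (u * s) → ¬ Z (s * t) → p (u * s) t = p s t) ∧
  (∀ s t v, ¬ Z (s * t) → ¬ Z (t * v) → p s (t * v) = p s t) ∧
  ∀ s t, s ≠ t → ¬ Z s → ¬ Z t → RowE Z s t → ColE Z s t → g s ≠ g t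

end szsec

section comp

open Function

end comp

section final

open Function

end final

end Pool.Agent.H502.Bk
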