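import Mathlib
open Polynomial Finset

namespace JRB

variable {F : Type*} [Field F] [CharZero F]

/-- weights with vanishing low moments -/
theorem exists_weights (S : Finset ℕ) (m : ℕ) (hS : S.card = m + 1) :
    ∃ w : ℕ → F, (∀ k < m, ∑ e ∈ S, w e * (e.descFactorial k : F) = 0) ∧
      ∑ e ∈ S, w e * (e.descFactorial m : F) = 1 := by
  classical
  have hinj : Set.InjOn (fun e : ℕ => (e : F)) S := fun a _ b _ h => by simpa using h
  have key : ∀ k ≤ m, ∑ e ∈ S, (∏ j ∈ S.erase e, ((e : F) - (j : F)))⁻¹ * (e.descFactorial k : F)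
      = (descPochhammer F k).coeff m := by
    intro k hk
    have hdeg : (descPochhammer F k).degree < #S := by
      rw [degree_eq_natDegree (monic_descPochhammer F k).ne_zero, descPochhammer_natDegree, hS]
      exact_mod_cast (by omega : k < m + 1)
    have h := Lagrange.coeff_eq_sum (v := fun e : ℕ => (e : F)) hinj hdeg
    rw [hS, Nat.add_sub_cancel] at h
    rw [h]
    refine Finset.sum_congr rfl fun e _ => ?_
    rw [descPochhammer_eval_eq_descFactorial, div_eq_mul_inv, mul_comm]
  refine ⟨fun e => (∏ j ∈ S.erase e, ((e : F) - (j : F)))⁻¹, ?_, ?_⟩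
  · intro k hk
    rw [key k hk.le]
    apply coeff_eq_zero_of_natDegree_lt
    rw [descPochhammer_natDegree]; exact hk
  · rw [key m le_rfl]
    have := (monic_descPochhammer F m).coeff_natDegree
    rwa [descPochhammer_natDegree] at this

/-- binomial expansion -/
theorem binom_exp (M e : ℕ) (he : e ≤ M) :
    (1 + X : F[X]) ^ e * (1 - X) ^ (M - e) =
      ∑ k ∈ range (M + 1), (e.choose k : F[X]) * (2 * X) ^ k * (1 - X) ^ (M - k) := by
  have h1 : (1 + X : F[X]) = 2 * X + (1 - X) := by ring
  rw [h1, add_pow, Finset.sum_mul]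
  have : range (e + 1) ⊆ range (M + 1) := range_subset_range.2 (by omega)
  rw [← Finset.sum_subset this]
  · refine Finset.sum_congr rfl fun k hk => ?_
    have hk' : k ≤ e := by simpa [Nat.lt_succ_iff] using hk
    have : M - k = (e - k) + (M - e) := by omega
    rw [this, pow_add]; ring
  · intro k _ hk
    have : e < k := by simpa [Nat.lt_succ_iff] using hk
    rw [Nat.choose_eq_zero_of_lt this]; simp

omit [CharZero F] in
theorem comp_neg_X_coeff (p : F[X]) (j : ℕ) : (p.comp (-X)).coeff j = (-1) ^ j * p.coeff j := by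
  have h : (-X : F[X]) = C (-1) * X := by simp
  rw [h, comp_C_mul_X_coeff, mul_comm]

/-- the polynomial lemma -/
theorem poly_lemma (n c : ℕ) (hc : c < n) :
    ∃ q α β : F[X], q.natDegree ≤ n - 1 - c ∧ (∀ j, Odd j → q.coeff j = 0) ∧ q.coeff 0 ≠ 0 ∧
      α.natDegree ≤ c ∧ β.natDegree ≤ c ∧
      X ^ (2 * c + 1) * q = α * (1 + X) ^ n + β * (1 - X) ^ n := by
  classical
  set S : Finset ℕ := range (c + 1) ∪ (range (c + 1)).image (fun i => n + i) with hSdef
  have hdisj : Disjoint (range (c + 1)) ((range (c + 1)).image (fun i => n + i)) := by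
    rw [Finset.disjoint_left]
    intro a ha hb
    simp only [mem_range, mem_image] at ha hb
    obtain ⟨i, _, rfl⟩ := hb
    omega
  have hcard : S.card = (2 * c + 1) + 1 := by
    rw [hSdef, Finset.card_union_of_disjoint hdisj, Finset.card_image_of_injective _ (fun a b h => by simpa using h),
      card_range]; ring
  obtain ⟨w, hw0, hw1⟩ := exists_weights (F := F) S (2 * c + 1) hcard
  have hSle : ∀ e ∈ S, e ≤ n + c := by
    intro e he
    simp only [hSdef, mem_union, mem_range, mem_image] at he
    rcases he with h | ⟨i, hi, rfl⟩ <;> omega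
  set F0 : F[X] := ∑ e ∈ S, C (w e) * ((1 + X) ^ e * (1 - X) ^ (n + c - e)) with hF0
  have hom0 : ∀ k < 2 * c + 1, ∑ e ∈ S, w e * (e.choose k : F) = 0 := by
    intro k hk
    have h := hw0 k hk
    have : ∀ e : ℕ, (e.choose k : F) = (e.descFactorial k : F) * (k.factorial : F)⁻¹ := by
      intro e
      rw [Nat.descFactorial_eq_factorial_mul_choose]; push_cast
      have : (k.factorial : F) ≠ 0 := by exact_mod_cast k.factorial_ne_zero
      field_simp
    simp_rw [this, ← mul_assoc, ← Finset.sum_mul, h, zero_mul]
  have hom1 : ∑ e ∈ S, w e * (e.choose (2 * c + 1) : F) ≠ 0 := by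
    have : ∀ e : ℕ, (e.choose (2 * c + 1) : F) = (e.descFactorial (2 * c + 1) : F) * ((2 * c + 1).factorial : F)⁻¹ := by
      intro e
      rw [Nat.descFactorial_eq_factorial_mul_choose]; push_cast
      have : ((2 * c + 1).factorial : F) ≠ 0 := by exact_mod_cast (2 * c + 1).factorial_ne_zero
      field_simp
    simp_rw [this, ← mul_assoc, ← Finset.sum_mul, hw1, one_mul]
    have : ((2 * c + 1).factorial : F) ≠ 0 := by exact_mod_cast (2 * c + 1).factorial_ne_zero
    exact inv_ne_zero this
  set om : ℕ → F := fun k => ∑ e ∈ S, w e * (e.choose k : F) with hom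
  have hF0' : F0 = ∑ k ∈ range (n + c + 1), C (om k) * ((2 * X) ^ k * (1 - X) ^ (n + c - k)) := by
    rw [hF0]
    have : ∀ e ∈ S, C (w e) * ((1 + X : F[X]) ^ e * (1 - X) ^ (n + c - e)) =
        ∑ k ∈ range (n + c + 1), C (w e * (e.choose k : F)) * ((2 * X) ^ k * (1 - X) ^ (n + c - k)) := by
      intro e he
      rw [binom_exp _ _ (hSle e he), Finset.mul_sum]
      refine Finset.sum_congr rfl fun k _ => ?_
      rw [C_mul, map_natCast]; ring
    rw [Finset.sum_congr rfl this, Finset.sum_comm]
    refine Finset.sum_congr rfl fun k _ => ?_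
    rw [← Finset.sum_mul, ← map_sum]
  set P : F[X] := ∑ k ∈ range (n - c), C (om (2 * c + 1 + k) * 2 ^ (2 * c + 1 + k)) * (X ^ k * (1 - X) ^ (n - c - 1 - k)) with hP
  have hF0P : F0 = X ^ (2 * c + 1) * P := by
    rw [hF0']
    have : n + c + 1 = (2 * c + 1) + (n - c) := by omega
    rw [this, Finset.sum_range_add]
    rw [Finset.sum_eq_zero, zero_add, hP, Finset.mul_sum]
    · refine Finset.sum_congr rfl fun k hk => ?_
      have : n + c - (2 * c + 1 + k) = n - c - 1 - k := by omega
      rw [this, C_mul, mul_pow, map_pow, pow_add X]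
      have : (C (2:F)) = (2 : F[X]) := rfl
      rw [this]; ring
    · intro k hk
      rw [hom]; simp only
      rw [hom0 k (by simpa using hk)]; simp
  have hPdeg : P.natDegree ≤ n - 1 - c := by
    rw [hP]
    apply natDegree_sum_le_of_forall_le
    intro k hk
    have hk' : k < n - c := by simpa using hk
    refine (natDegree_C_mul_le _ _).trans ((natDegree_mul_le).trans ?_)
    rw [natDegree_X_pow]
    have : ((1 - X : F[X]) ^ (n - c - 1 - k)).natDegree ≤ (n - c - 1 - k) * 1 := by
      refine natDegree_pow_le_of_le _ ?_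
      exact (natDegree_sub_le _ _).trans (by simp)
    omega
  have hP0 : P.coeff 0 ≠ 0 := by
    rw [hP, coeff_zero_eq_eval_zero, eval_finsetSum]
    rw [Finset.sum_eq_single 0]
    · simp only [add_zero, pow_zero, one_mul, eval_mul, eval_C, eval_pow, eval_sub, eval_one, eval_X, sub_zero, one_pow, mul_one]
      exact mul_ne_zero hom1 (pow_ne_zero _ two_ne_zero)
    · intro k _ hk
      simp [hk]
    · intro h; exfalso; apply h; simp; omega
  -- splitting
  set A : F[X] := ∑ i ∈ range (c + 1), C (w (n + i)) * ((1 + X) ^ i * (1 - X) ^ (c - i)) with hA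
  set B : F[X] := ∑ i ∈ range (c + 1), C (w i) * ((1 + X) ^ i * (1 - X) ^ (c - i)) with hB
  have hsplit : F0 = A * (1 + X) ^ n + B * (1 - X) ^ n := by
    rw [hF0, hSdef, Finset.sum_union hdisj, Finset.sum_image (fun a _ b _ h => by simpa using h), add_comm, hA, hB,
      Finset.sum_mul, Finset.sum_mul]
    congr 1
    · refine Finset.sum_congr rfl fun i hi => ?_
      have : n + c - (n + i) = c - i := by omega
      rw [this, pow_add]; ring
    · refine Finset.sum_congr rfl fun i hi => ?_
      have hi' : i < c + 1 := by simpa using hi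
      have : n + c - i = (c - i) + n := by omega
      rw [this, pow_add]; ring
  have hdeg1 : ∀ u : ℕ → F, (∑ i ∈ range (c + 1), C (u i) * ((1 + X : F[X]) ^ i * (1 - X) ^ (c - i))).natDegree ≤ c := by
    intro u
    apply natDegree_sum_le_of_forall_le
    intro i hi
    have hi' : i < c + 1 := by simpa using hi
    refine (natDegree_C_mul_le _ _).trans ((natDegree_mul_le).trans ?_)
    have h1 : ((1 + X : F[X]) ^ i).natDegree ≤ i * 1 := by
      refine natDegree_pow_le_of_le _ ?_
      exact (natDegree_add_le _ _).trans (by simp)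
    have h2 : ((1 - X : F[X]) ^ (c - i)).natDegree ≤ (c - i) * 1 := by
      refine natDegree_pow_le_of_le _ ?_
      exact (natDegree_sub_le _ _).trans (by simp)
    omega
  have hcompdeg : ∀ p : F[X], (p.comp (-X)).natDegree = p.natDegree := by
    intro p
    rw [natDegree_comp, natDegree_neg, natDegree_X, mul_one]
  refine ⟨P + P.comp (-X), A - B.comp (-X), B - A.comp (-X), ?_, ?_, ?_, ?_, ?_, ?_⟩
  · refine (natDegree_add_le _ _).trans ?_
    rw [hcompdeg, max_self]; exact hPdeg
  · intro j hj
    rw [coeff_add, comp_neg_X_coeff, hj.neg_one_pow]; ring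
  · rw [coeff_add, comp_neg_X_coeff]; simp only [pow_zero, one_mul]
    intro h; apply hP0
    have : (2:F) * P.coeff 0 = 0 := by linear_combination h
    simpa using this
  · refine (natDegree_sub_le _ _).trans ?_
    rw [hcompdeg]; exact max_le (hdeg1 _) (hdeg1 _)
  · refine (natDegree_sub_le _ _).trans ?_
    rw [hcompdeg]; exact max_le (hdeg1 _) (hdeg1 _)
  · have h1 : X ^ (2 * c + 1) * P = A * (1 + X) ^ n + B * (1 - X) ^ n := by rw [← hF0P, hsplit]
    have h2 : (-X) ^ (2 * c + 1) * P.comp (-X) = A.comp (-X) * (1 - X) ^ n + B.comp (-X) * (1 + X) ^ n := by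
      have := congrArg (fun p : F[X] => p.comp (-X)) h1
      simp only [mul_comp, add_comp, pow_comp, X_comp, one_comp, sub_comp] at this
      rw [this]; ring
    have h3 : (-X : F[X]) ^ (2 * c + 1) = - X ^ (2 * c + 1) := by
      rw [Odd.neg_pow ⟨c, rfl⟩]
    rw [h3] at h2
    linear_combination h1 - h2


section hom

variable {E : Type*} [Ring E] [Algebra F E]

/-- homogenisation of a polynomial in two commuting elements -/
noncomputable def hom (s d : E) (M : ℕ) (p : F[X]) : E :=
  ∑ j ∈ range (M + 1), p.coeff j • (s ^ (M - j) * d ^ j)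

omit [CharZero F] in
theorem hom_zero (s d : E) (M : ℕ) : hom s d M (0 : F[X]) = 0 := by simp [hom]

omit [CharZero F] in
theorem hom_add (s d : E) (M : ℕ) (p q : F[X]) :
    hom s d M (p + q) = hom s d M p + hom s d M q := by
  simp [hom, add_smul, Finset.sum_add_distrib]

omit [CharZero F] in
theorem hom_mono (s d : E) (M i : ℕ) (a : F) (hi : i ≤ M) :
    hom s d M (C a * X ^ i) = a • (s ^ (M - i) * d ^ i) := by
  rw [hom, Finset.sum_eq_single i]
  · simp
  · intro j _ hj
    rw [coeff_C_mul, coeff_X_pow, if_neg hj]; simp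
  · intro h; exfalso; apply h; simp; omega

omit [CharZero F] in
theorem hom_mul (s d : E) (hc : Commute s d) (M K : ℕ) (p q : F[X]) (hp : p.natDegree ≤ M)
    (hq : q.natDegree ≤ K) : hom s d (M + K) (p * q) = hom s d M p * hom s d K q := by
  revert hp
  refine fun hp => Polynomial.induction_with_natDegree_le
    (motive := fun p => hom s d (M + K) (p * q) = hom s d M p * hom s d K q) M ?_ ?_ ?_ p hp
  · simp [hom_zero]
  · intro i a _ hi
    refine Polynomial.induction_with_natDegree_le
      (motive := fun q => hom s d (M + K) (C a * X ^ i * q) = hom s d M (C a * X ^ i) * hom s d K q) K ?_ ?_ ?_ q hq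
    · simp [hom_zero]
    · intro j b _ hj
      have : C a * X ^ i * (C b * X ^ j) = C (a * b) * X ^ (i + j) := by rw [C_mul, pow_add]; ring
      rw [this, hom_mono _ _ _ _ _ hi, hom_mono _ _ _ _ _ hj, hom_mono _ _ _ _ _ (by omega), smul_mul_smul_comm]
      congr 1
      have h1 : M + K - (i + j) = (M - i) + (K - j) := by omega
      rw [h1, pow_add, pow_add]
      have : Commute (d ^ i) (s ^ (K - j)) := (hc.symm.pow_pow i (K - j))
      calc s ^ (M - i) * s ^ (K - j) * (d ^ i * d ^ j) = s ^ (M - i) * (s ^ (K - j) * d ^ i) * d ^ j := by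
            simp only [mul_assoc]
        _ = s ^ (M - i) * (d ^ i * s ^ (K - j)) * d ^ j := by rw [this.eq]
        _ = s ^ (M - i) * d ^ i * (s ^ (K - j) * d ^ j) := by simp only [mul_assoc]
    · intro f g _ _ hf hg
      rw [mul_add, hom_add, hom_add, mul_add, hf, hg]
  · intro f g _ _ hf hg
    rw [add_mul, hom_add, hom_add, add_mul, hf, hg]

omit [CharZero F] in
theorem hom_pow_add (s d : E) (hc : Commute s d) (n : ℕ) :
    hom s d n ((1 + X : F[X]) ^ n) = (s + d) ^ n := by
  induction n with
  | zero => simp [hom]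
  | succ n ih =>
    have h1 : hom s d 1 (1 + X : F[X]) = s + d := by
      simp [hom, Finset.sum_range_succ, coeff_one, coeff_X]
    rw [pow_succ, hom_mul s d hc n 1 _ _ _ _, ih, h1, pow_succ]
    · have : ((1 + X : F[X]) ^ n).natDegree ≤ n * 1 := by
        refine natDegree_pow_le_of_le _ ?_
        exact (natDegree_add_le _ _).trans (by simp)
      omega
    · exact (natDegree_add_le _ _).trans (by simp)

omit [CharZero F] in
theorem hom_pow_sub (s d : E) (hc : Commute s d) (n : ℕ) :
    hom s d n ((1 - X : F[X]) ^ n) = (s - d) ^ n := by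
  induction n with
  | zero => simp [hom]
  | succ n ih =>
    have h1 : hom s d 1 (1 - X : F[X]) = s - d := by
      simp [hom, Finset.sum_range_succ, coeff_one, coeff_X, sub_eq_add_neg]
    rw [pow_succ, hom_mul s d hc n 1 _ _ _ _, ih, h1, pow_succ]
    · have : ((1 - X : F[X]) ^ n).natDegree ≤ n * 1 := by
        refine natDegree_pow_le_of_le _ ?_
        exact (natDegree_sub_le _ _).trans (by simp)
      omega
    · exact (natDegree_sub_le _ _).trans (by simp)

end hom


section main

variable {E : Type*} [Ring E] [Algebra F E]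

omit [CharZero F] in
/-- all words of length `≥ 2n-1` in two commuting nilpotent elements of index `n` vanish -/
theorem nil_words (L R : E) (hLR : Commute L R) (n i j : ℕ) (hL : L ^ n = 0) (hR : R ^ n = 0)
    (hij : 2 * n - 1 ≤ i + j) : (L + R) ^ i * (L - R) ^ j = 0 := by
  have hLz : ∀ k, n ≤ k → L ^ k = 0 := fun k hk => pow_eq_zero_of_le hk hL
  have hRz : ∀ k, n ≤ k → R ^ k = 0 := fun k hk => pow_eq_zero_of_le hk hR
  rw [hLR.add_pow, sub_eq_add_neg, (hLR.neg_right).add_pow, Finset.sum_mul_sum]
  refine Finset.sum_eq_zero fun k hk => Finset.sum_eq_zero fun l hl => ?_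
  have hk' : k ≤ i := by simpa [Nat.lt_succ_iff] using hk
  have hl' : l ≤ j := by simpa [Nat.lt_succ_iff] using hl
  have h1 : (-R) ^ (j - l) = (-1) ^ (j - l) * R ^ (j - l) := neg_pow R _
  have hswap : R ^ (i - k) * L ^ l = L ^ l * R ^ (i - k) := (hLR.symm.pow_pow _ _).eq
  have key : L ^ k * R ^ (i - k) * (L ^ l * R ^ (j - l)) = 0 := by
    have : L ^ k * R ^ (i - k) * (L ^ l * R ^ (j - l)) = L ^ (k + l) * R ^ ((i - k) + (j - l)) := by
      calc L ^ k * R ^ (i - k) * (L ^ l * R ^ (j - l)) = L ^ k * (R ^ (i - k) * L ^ l) * R ^ (j - l) := by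
            simp only [mul_assoc]
        _ = L ^ (k + l) * R ^ ((i - k) + (j - l)) := by rw [hswap, pow_add, pow_add]; simp only [mul_assoc]
    rw [this]
    by_cases h : n ≤ k + l
    · rw [hLz _ h, zero_mul]
    · rw [hRz _ (by omega), mul_zero]
  calc L ^ k * R ^ (i - k) * ↑(i.choose k) * (L ^ l * (-R) ^ (j - l) * ↑(j.choose l))
      = (i.choose k * j.choose l : ℕ) * ((-1) ^ (j - l)) * (L ^ k * R ^ (i - k) * (L ^ l * R ^ (j - l))) := by
        rw [h1]
        have c1 : ∀ (m : ℕ) (x : E), x * (m : E) = (m : E) * x := fun m x => (Nat.cast_commute m x).eq.symm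
        have c2 : ∀ (m : ℕ) (x : E), x * ((-1 : E) ^ m) = ((-1) ^ m) * x := fun m x => by
          rcases Nat.even_or_odd m with h | h
          · rw [h.neg_one_pow]; simp
          · rw [h.neg_one_pow]; simp
        rw [c1 (i.choose k), c1 (j.choose l), ← mul_assoc (L ^ l), c2 (j - l) (L ^ l)]
        rw [Nat.cast_mul]
        simp only [mul_assoc]
        congr 1
        rw [← mul_assoc (R ^ (i - k)) (↑(j.choose l)), c1 (j.choose l) (R ^ (i-k)), ← mul_assoc (L ^ k), ← mul_assoc (L ^ k)]
        rw [c1 (j.choose l) (L ^ k)]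
        simp only [mul_assoc]
        congr 1
        rw [← mul_assoc (R ^ (i - k)) ((-1) ^ (j - l)), c2 (j - l) (R ^ (i-k)), ← mul_assoc (L ^ k), ← mul_assoc (L ^ k), c2 (j - l) (L ^ k)]
        simp only [mul_assoc]
    _ = 0 := by rw [key, mul_zero]

omit [CharZero F] in
theorem sN_pow (s N : E) (h : s * N = N * s + N * N) (k : ℕ) :
    s ^ (k + 1) * N = N * s ^ (k + 1) + ((k + 1 : ℕ) : E) * (N * s ^ k * N) := by
  induction k with
  | zero => simp [h]
  | succ k ih =>
    rw [pow_succ' s (k + 1), mul_assoc, ih, mul_add, ← mul_assoc s N, h]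
    have e1 : s * (((k + 1 : ℕ) : E) * (N * s ^ k * N)) = ((k + 1 : ℕ) : E) * ((s * N) * s ^ k * N) := by
      rw [← mul_assoc, (Nat.cast_commute (k + 1) s).eq.symm]; simp only [mul_assoc]
    rw [e1, h]
    have e2 : (N * s + N * N) * s ^ k * N = N * s ^ (k + 1) * N + N * (N * s ^ k * N) := by
      rw [pow_succ' s k]; noncomm_ring
    rw [e2]
    have e3 : (N * s + N * N) * s ^ (k + 1) = N * (s * s ^ (k + 1)) + N * (N * s ^ (k + 1)) := by noncomm_ring
    rw [e3]
    have e4 : N * (N * s ^ (k + 1)) + ((k + 1 : ℕ) : E) * (N * (N * s ^ k * N)) = N * (s ^ (k + 1) * N) := by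
      rw [ih, mul_add]
      congr 1
      exact (Nat.cast_commute (k + 1) N).left_comm _
    have e5 : ((k + 1 : ℕ) : E) * (N * s ^ (k + 1) * N + N * (N * s ^ k * N)) =
        ((k + 1 : ℕ) : E) * (N * s ^ (k + 1) * N) + ((k + 1 : ℕ) : E) * (N * (N * s ^ k * N)) := mul_add _ _ _
    rw [e5]
    have e6 : ((k + 1 + 1 : ℕ) : E) * (N * s ^ (k + 1) * N) = ((k + 1 : ℕ) : E) * (N * s ^ (k + 1) * N) + N * s ^ (k + 1) * N := by
      push_cast; noncomm_ring
    rw [e6]
    calc N * (s * s ^ (k + 1)) + N * (N * s ^ (k + 1)) +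
          (((k + 1 : ℕ) : E) * (N * s ^ (k + 1) * N) + ((k + 1 : ℕ) : E) * (N * (N * s ^ k * N)))
        = N * (s * s ^ (k + 1)) + ((k + 1 : ℕ) : E) * (N * s ^ (k + 1) * N) +
          (N * (N * s ^ (k + 1)) + ((k + 1 : ℕ) : E) * (N * (N * s ^ k * N))) := by abel
      _ = _ := by rw [e4]; rw [mul_assoc N (s ^ (k+1)) N]; abel


/-- The main nilpotency theorem in operator form. -/
theorem main_abs (F : Type*) [Field F] [CharZero F] {E : Type*} [Ring E] [Algebra F E]
    (n : ℕ) (hn : 1 ≤ n) (s d N : E) (hsd : Commute s d)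
    (hsN : s * N = N * s + N * N) (hzN : d ^ 2 * N = N * d ^ 2)
    (hL : (s + d) ^ n = 0) (hR : (s - d) ^ n = 0)
    (H : ∀ (W : E) (k : ℕ), 1 ≤ k → k ≤ n → d * W = 0 → s ^ k * W = 0 → N ^ k * W = 0) :
    N ^ (2 * n - 1) = 0 := by
  classical
  have two_ne : (2 : F) ≠ 0 := two_ne_zero
  have hc : Commute d s := hsd.symm
  -- nil words
  have hnil : ∀ i j, 2 * n - 1 ≤ i + j → s ^ i * d ^ j = 0 := by
    intro i j hij
    have hLR : Commute (s + d) (s - d) := by
      apply Commute.add_left <;> apply Commute.sub_right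
      · exact Commute.refl s
      · exact hsd
      · exact hc
      · exact Commute.refl d
    have h := nil_words (s + d) (s - d) hLR n i j hL hR hij
    have e1 : (s + d) + (s - d) = (2 : F) • s := by rw [two_smul]; abel
    have e2 : (s + d) - (s - d) = (2 : F) • d := by rw [two_smul]; abel
    rw [e1, e2, _root_.smul_pow, _root_.smul_pow, smul_mul_smul_comm] at h
    have h2 : (2 : F) ^ i * 2 ^ j ≠ 0 := mul_ne_zero (pow_ne_zero _ two_ne) (pow_ne_zero _ two_ne)
    exact (smul_eq_zero.mp h).resolve_left h2
  set z : E := d ^ 2 with hz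
  have hzNk : ∀ a b : ℕ, z ^ a * N ^ b = N ^ b * z ^ a := fun a b =>
    ((show Commute z N from hzN).pow_pow a b).eq
  have hzs : ∀ a b : ℕ, z ^ a * s ^ b = s ^ b * z ^ a := fun a b =>
    ((hc.pow_left 2).pow_pow a b).eq
  -- the claim
  have claim : ∀ m c : ℕ, n - c ≤ m → ∀ i k l : ℕ, 2 * c + i + k + l = 2 * n - 1 →
      z ^ c * (N ^ i * s ^ k * N ^ l) = 0 := by
    intro m
    induction m with
    | zero => intro c hc' i k l h; omega
    | succ m ihm =>
      intro c hcm
      by_cases hcn : n ≤ c
      · intro i k l h; omega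
      rw [not_le] at hcn
      have ih : ∀ c', c < c' → ∀ i k l : ℕ, 2 * c' + i + k + l = 2 * n - 1 →
          z ^ c' * (N ^ i * s ^ k * N ^ l) = 0 := fun c' hc' => ihm c' (by omega)
      -- expansion lemma
      have expand : ∀ (q : F[X]) (dd i l : ℕ), (∀ j, Odd j → q.coeff j = 0) →
          2 * c + i + dd + l = 2 * n - 1 →
          z ^ c * (N ^ i * hom s d dd q * N ^ l) = q.coeff 0 • (z ^ c * (N ^ i * s ^ dd * N ^ l)) := by
        intro q dd i l hodd hw
        rw [hom, Finset.mul_sum, Finset.sum_mul, Finset.mul_sum, Finset.sum_eq_single 0]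
        · simp [mul_assoc]
        · intro j hj hj0
          have hj' : j ≤ dd := by simpa [Nat.lt_succ_iff] using hj
          rcases Nat.even_or_odd j with he | ho
          · obtain ⟨t, rfl⟩ := he
            have ht : t + t = 2 * t := by ring
            have hd : d ^ (t + t) = z ^ t := by rw [hz, ht, pow_mul]
            have := ih (c + t) (by omega) i (dd - (t + t)) l (by omega)
            rw [hd, mul_smul_comm, smul_mul_assoc, mul_smul_comm]
            have e : z ^ c * (N ^ i * (s ^ (dd - (t + t)) * z ^ t) * N ^ l) =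
                z ^ (c + t) * (N ^ i * s ^ (dd - (t + t)) * N ^ l) := by
              rw [← hzs, ← mul_assoc (N ^ i), ← hzNk, pow_add]
              simp only [mul_assoc]
            rw [e, this, smul_zero]
          · rw [hodd j ho]; simp
        · intro h; exact absurd (Finset.mem_range.2 (Nat.succ_pos _)) h
      obtain ⟨ν, hν⟩ : ∃ ν, n = c + ν := ⟨n - c, by omega⟩
      have hν1 : 1 ≤ ν := by omega
      -- relation (E)
      obtain ⟨qE, hEdeg, hEodd, hE0, hE⟩ : ∃ q : F[X], q.natDegree ≤ ν ∧ (∀ j, Odd j → q.coeff j = 0) ∧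
          q.coeff 0 ≠ 0 ∧ z ^ c * hom s d ν q = 0 := by
        rcases Nat.eq_zero_or_pos c with hc0 | hcpos
        · have hnν : n = ν := by omega
          refine ⟨(1 + X) ^ n + (1 - X) ^ n, ?_, ?_, ?_, ?_⟩
          · refine (natDegree_add_le _ _).trans (max_le ?_ ?_)
            · have : ((1 + X : F[X]) ^ n).natDegree ≤ n * 1 := by
                refine natDegree_pow_le_of_le _ ?_
                exact (natDegree_add_le _ _).trans (by simp)
              omega
            · have : ((1 - X : F[X]) ^ n).natDegree ≤ n * 1 := by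
                refine natDegree_pow_le_of_le _ ?_
                exact (natDegree_sub_le _ _).trans (by simp)
              omega
          · intro j hj
            have h1 : (1 - X : F[X]) ^ n = ((1 + X : F[X]) ^ n).comp (-X) := by
              simp [sub_eq_add_neg]
            rw [h1, coeff_add, comp_neg_X_coeff, hj.neg_one_pow]; ring
          · rw [coeff_zero_eq_eval_zero]; simp
          · rw [hc0, pow_zero, one_mul, hom_add, ← hnν, hom_pow_add s d hsd, hom_pow_sub s d hsd, hL, hR, add_zero]
        · obtain ⟨c1, rfl⟩ : ∃ c1, c = c1 + 1 := ⟨c - 1, by omega⟩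
          obtain ⟨q, α, β, hq, hqo, hq0, hα, hβ, he⟩ := poly_lemma (F := F) n c1 (by omega)
          refine ⟨q, by omega, hqo, hq0, ?_⟩
          have h1 := congrArg (hom s d (n + c1)) he
          have hX : hom s d (2 * c1 + 1) (X ^ (2 * c1 + 1) : F[X]) = d ^ (2 * c1 + 1) := by
            have := hom_mono (F := F) s d (2 * c1 + 1) (2 * c1 + 1) 1 le_rfl
            simpa using this
          have hb : ((1 + X : F[X]) ^ n).natDegree ≤ n := by
            have : ((1 + X : F[X]) ^ n).natDegree ≤ n * 1 := by
              refine natDegree_pow_le_of_le _ ?_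
              exact (natDegree_add_le _ _).trans (by simp)
            omega
          have hb' : ((1 - X : F[X]) ^ n).natDegree ≤ n := by
            have : ((1 - X : F[X]) ^ n).natDegree ≤ n * 1 := by
              refine natDegree_pow_le_of_le _ ?_
              exact (natDegree_sub_le _ _).trans (by simp)
            omega
          have e0 : n + c1 = (2 * c1 + 1) + ν := by omega
          have h2 : hom s d (n + c1) (X ^ (2 * c1 + 1) * q) = d ^ (2 * c1 + 1) * hom s d ν q := by
            rw [e0, hom_mul s d hsd _ _ _ _ (by simp) (by omega), hX]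
          have h3 : hom s d (n + c1) (α * (1 + X) ^ n + β * (1 - X) ^ n) = 0 := by
            rw [add_comm n c1, hom_add, hom_mul s d hsd _ _ _ _ hα hb, hom_mul s d hsd _ _ _ _ hβ hb',
              hom_pow_add s d hsd, hom_pow_sub s d hsd, hL, hR]; simp
          have h4 : d ^ (2 * c1 + 1) * hom s d ν q = 0 := by rw [← h2, h1, h3]
          have h5 : z ^ (c1 + 1) = d * d ^ (2 * c1 + 1) := by
            rw [hz, ← pow_mul, ← pow_succ']; congr 1
          rw [h5, mul_assoc, h4, mul_zero]
      -- relation (T)
      have hT : z ^ c * (N ^ ν * s ^ (ν - 1) * N ^ 0) = 0 := by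
        obtain ⟨q, α, β, hq, hqo, hq0, hα, hβ, he⟩ := poly_lemma (F := F) n c hcn
        have h1 := congrArg (hom s d (n + c)) he
        have hX : hom s d (2 * c + 1) (X ^ (2 * c + 1) : F[X]) = d ^ (2 * c + 1) := by
          have := hom_mono (F := F) s d (2 * c + 1) (2 * c + 1) 1 le_rfl
          simpa using this
        have hb : ((1 + X : F[X]) ^ n).natDegree ≤ n := by
          have : ((1 + X : F[X]) ^ n).natDegree ≤ n * 1 := by
            refine natDegree_pow_le_of_le _ ?_
            exact (natDegree_add_le _ _).trans (by simp)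
          omega
        have hb' : ((1 - X : F[X]) ^ n).natDegree ≤ n := by
          have : ((1 - X : F[X]) ^ n).natDegree ≤ n * 1 := by
            refine natDegree_pow_le_of_le _ ?_
            exact (natDegree_sub_le _ _).trans (by simp)
          omega
        have e0 : n + c = (2 * c + 1) + (ν - 1) := by omega
        have h2 : hom s d (n + c) (X ^ (2 * c + 1) * q) = d ^ (2 * c + 1) * hom s d (ν - 1) q := by
          rw [e0, hom_mul s d hsd _ _ _ _ (by simp) (by omega), hX]
        have h3 : hom s d (n + c) (α * (1 + X) ^ n + β * (1 - X) ^ n) = 0 := by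
          rw [add_comm n c, hom_add, hom_mul s d hsd _ _ _ _ hα hb, hom_mul s d hsd _ _ _ _ hβ hb',
            hom_pow_add s d hsd, hom_pow_sub s d hsd, hL, hR]; simp
        have h4 : d ^ (2 * c + 1) * hom s d (ν - 1) q = 0 := by rw [← h2, h1, h3]
        have hW1 : d * (z ^ c * hom s d (ν - 1) q) = 0 := by
          rw [← mul_assoc, hz, ← pow_mul, ← pow_succ', h4]
        have hW2 : s ^ ν * (z ^ c * hom s d (ν - 1) q) = 0 := by
          rw [hom, Finset.mul_sum, Finset.mul_sum]
          refine Finset.sum_eq_zero fun j hj => ?_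
          have hj' : j < ν := by
            have := Finset.mem_range.1 hj; omega
          rw [mul_smul_comm, mul_smul_comm]
          have : s ^ ν * (z ^ c * (s ^ (ν - 1 - j) * d ^ j)) = s ^ (ν + (ν - 1 - j)) * d ^ (2 * c + j) := by
            rw [← mul_assoc (z ^ c), hzs, pow_add, pow_add, hz, ← pow_mul]; simp only [mul_assoc]
          rw [this, hnil _ _ (by omega), smul_zero]
        have h6 := H _ ν hν1 (by omega) hW1 hW2
        have h7 := expand q (ν - 1) ν 0 hqo (by omega)
        have h8 : z ^ c * (N ^ ν * hom s d (ν - 1) q * N ^ 0) = 0 := by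
          rw [pow_zero, mul_one, ← mul_assoc, hzNk, mul_assoc, h6]
        rw [h8] at h7
        exact (smul_eq_zero.mp h7.symm).resolve_left hq0
      -- r = 0 family
      have hr0 : ∀ i, i ≤ ν - 1 → z ^ c * (N ^ i * s ^ ν * N ^ (ν - 1 - i)) = 0 := by
        intro i hi
        have h7 := expand qE ν i (ν - 1 - i) hEodd (by omega)
        have h8 : z ^ c * (N ^ i * hom s d ν qE * N ^ (ν - 1 - i)) = 0 := by
          rw [← mul_assoc, ← mul_assoc, hzNk, mul_assoc (N ^ i), hE, mul_zero, zero_mul]
        rw [h8] at h7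
        exact (smul_eq_zero.mp h7.symm).resolve_left hE0
      -- difference lemma
      have diff : ∀ i k l : ℕ, z ^ c * (N ^ i * s ^ (k + 1) * N ^ (l + 1)) = 0 →
          z ^ c * (N ^ (i + 1) * s ^ (k + 1) * N ^ l) = 0 →
          z ^ c * (N ^ (i + 1) * s ^ k * N ^ (l + 1)) = 0 := by
        intro i k l h1 h2
        have e1 : N ^ i * s ^ (k + 1) * N ^ (l + 1) = N ^ (i + 1) * s ^ (k + 1) * N ^ l +
            ((k + 1 : ℕ) : E) * (N ^ (i + 1) * s ^ k * N ^ (l + 1)) := by
          rw [pow_succ' N l, ← mul_assoc, mul_assoc (N ^ i), sN_pow s N hsN k, mul_add, add_mul]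
          congr 1
          · rw [pow_succ N i]; simp only [mul_assoc]
          · rw [← (Nat.cast_commute (k + 1) (N ^ i)).left_comm, mul_assoc (((k + 1 : ℕ) : E))]
            rw [pow_succ N i]; simp only [mul_assoc]
        rw [e1, mul_add, h2, zero_add, ← (Nat.cast_commute (k + 1) (z ^ c)).left_comm] at h1
        have h3 : ((k + 1 : ℕ) : F) • (z ^ c * (N ^ (i + 1) * s ^ k * N ^ (l + 1))) = 0 := by
          rw [Nat.cast_smul_eq_nsmul, nsmul_eq_mul]; exact h1
        exact (smul_eq_zero.mp h3).resolve_left (by exact_mod_cast (Nat.succ_ne_zero k))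
      -- the r-families
      have hr : ∀ r, 1 ≤ r → r ≤ ν → ∀ i, r ≤ i → i ≤ ν →
          z ^ c * (N ^ i * s ^ (ν - r) * N ^ (ν - 1 + r - i)) = 0 := by
        intro r
        induction r with
        | zero => intro h; omega
        | succ r ihr =>
          intro _ hrν i hri hiν
          obtain ⟨i', rfl⟩ : ∃ i', i = i' + 1 := ⟨i - 1, by omega⟩
          rcases Nat.eq_zero_or_pos r with hr0' | hrpos
          · subst hr0'
            rcases Nat.lt_or_ge (i' + 1) ν with hlt | hge
            · have h1 := hr0 i' (by omega)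
              have h2 := hr0 (i' + 1) (by omega)
              obtain ⟨k, hk⟩ : ∃ k, ν = k + 1 := ⟨ν - 1, by omega⟩
              have a1 : ν - 1 - i' = (ν - 1 - (i' + 1)) + 1 := by omega
              have a2 : ν - (0 + 1) = k := by omega
              have a3 : ν - 1 + (0 + 1) - (i' + 1) = (ν - 1 - (i' + 1)) + 1 := by omega
              rw [a3, a2]
              rw [a1] at h1
              have a4 : ν - 1 = k := by omega
              rw [a4] at h1 h2
              apply diff
              · rw [← hk]; exact h1
              · rw [← hk]; exact h2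
            · have : i' + 1 = ν := by omega
              rw [this]
              have a3 : ν - 1 + (0 + 1) - ν = 0 := by omega
              rw [a3]; simpa using hT
          · have h1 := ihr hrpos (by omega) i' (by omega) (by omega)
            have h2 := ihr hrpos (by omega) (i' + 1) (by omega) (by omega)
            obtain ⟨k, hk⟩ : ∃ k, ν - r = k + 1 := ⟨ν - r - 1, by omega⟩
            have a1 : ν - 1 + r - i' = (ν - 1 + r - (i' + 1)) + 1 := by omega
            have a2 : ν - (r + 1) = k := by omega
            have a3 : ν - 1 + (r + 1) - (i' + 1) = (ν - 1 + r - (i' + 1)) + 1 := by omega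
            rw [a2, a3]
            rw [a1] at h1
            apply diff
            · rw [← hk]; exact h1
            · rw [← hk]; exact h2
      -- all words
      have allw : ∀ k i l, 2 * c + i + k + l = 2 * n - 1 → z ^ c * (N ^ i * s ^ k * N ^ l) = 0 := by
        intro k
        induction k with
        | zero =>
          intro i l h
          have h1 := hr ν hν1 le_rfl ν le_rfl le_rfl
          have a1 : ν - ν = 0 := by omega
          rw [a1] at h1
          have e : N ^ i * s ^ 0 * N ^ l = N ^ ν * s ^ 0 * N ^ (ν - 1 + ν - ν) := by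
            rw [pow_zero, mul_one, mul_one, ← pow_add, ← pow_add]; congr 1; omega
          rw [e]; exact h1
        | succ k ihk =>
          by_cases hkν : k + 1 ≤ ν - 1
          · -- all `i` give the same value
            have step : ∀ i l, 2 * c + (i + 1) + (k + 1) + l = 2 * n - 1 →
                z ^ c * (N ^ i * s ^ (k + 1) * N ^ (l + 1)) = z ^ c * (N ^ (i + 1) * s ^ (k + 1) * N ^ l) := by
              intro i l hw
              have e1 : N ^ i * s ^ (k + 1) * N ^ (l + 1) = N ^ (i + 1) * s ^ (k + 1) * N ^ l +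
                  ((k + 1 : ℕ) : E) * (N ^ (i + 1) * s ^ k * N ^ (l + 1)) := by
                rw [pow_succ' N l, ← mul_assoc, mul_assoc (N ^ i), sN_pow s N hsN k, mul_add, add_mul]
                congr 1
                · rw [pow_succ N i]; simp only [mul_assoc]
                · rw [← (Nat.cast_commute (k + 1) (N ^ i)).left_comm, mul_assoc (((k + 1 : ℕ) : E))]
                  rw [pow_succ N i]; simp only [mul_assoc]
              rw [e1, mul_add, ← (Nat.cast_commute (k + 1) (z ^ c)).left_comm, ihk _ _ (by omega)]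
              simp
            have const : ∀ i, 2 * c + i + (k + 1) ≤ 2 * n - 1 →
                z ^ c * (N ^ i * s ^ (k + 1) * N ^ (2 * n - 1 - (2 * c + i + (k + 1)))) =
                z ^ c * (N ^ 0 * s ^ (k + 1) * N ^ (2 * n - 1 - (2 * c + 0 + (k + 1)))) := by
              intro i
              induction i with
              | zero => intro _; rfl
              | succ i ihi =>
                intro h
                rw [← ihi (by omega)]
                have a1 : 2 * n - 1 - (2 * c + i + (k + 1)) = (2 * n - 1 - (2 * c + (i + 1) + (k + 1))) + 1 := by omega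
                rw [a1]
                exact (step i _ (by omega)).symm
            have hz0 : z ^ c * (N ^ 0 * s ^ (k + 1) * N ^ (2 * n - 1 - (2 * c + 0 + (k + 1)))) = 0 := by
              rw [← const ν (by omega)]
              have h1 := hr (ν - (k + 1)) (by omega) (by omega) ν (by omega) le_rfl
              have a1 : ν - (ν - (k + 1)) = k + 1 := by omega
              have a2 : ν - 1 + (ν - (k + 1)) - ν = 2 * n - 1 - (2 * c + ν + (k + 1)) := by omega
              rw [a1, a2] at h1; exact h1
            intro i l h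
            have a : l = 2 * n - 1 - (2 * c + i + (k + 1)) := by omega
            rw [a, const i (by omega), hz0]
          · intro i l h
            have hge : ν ≤ k + 1 := by omega
            have h1 := expand qE (k + 1) i l hEodd h
            have h2 : hom s d (k + 1) qE = s ^ (k + 1 - ν) * hom s d ν qE := by
              have e0 : k + 1 = (k + 1 - ν) + ν := by omega
              have e1 : hom s d (k + 1 - ν) (1 : F[X]) = s ^ (k + 1 - ν) := by
                have := hom_mono (F := F) s d (k + 1 - ν) 0 1 (Nat.zero_le _)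
                simpa using this
              have e2 := hom_mul (F := F) s d hsd (k + 1 - ν) ν 1 qE (by simp) hEdeg
              rw [one_mul, ← e0, e1] at e2
              exact e2
            have h3 : z ^ c * (N ^ i * hom s d (k + 1) qE * N ^ l) = 0 := by
              rw [h2, ← mul_assoc, ← mul_assoc, hzNk, ← mul_assoc, mul_assoc (N ^ i), hzs,
                ← mul_assoc, mul_assoc (N ^ i * s ^ (k + 1 - ν)), hE, mul_zero, zero_mul]
            rw [h3] at h1
            exact (smul_eq_zero.mp h1.symm).resolve_left hE0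
      intro i k l h
      exact allw k i l h
  have := claim n 0 (by omega) (2 * n - 1) 0 0 (by omega)
  simpa using this

end main

end JRB
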