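import Mathlib
import Pool.Agent.H502.JRBAbs
open Polynomial

namespace JRB

/-- The Jordan product `x ∘ y = (xy + yx) / 2` of an associative algebra. -/
def jmul (F : Type*) [Field F] {A : Type*} [Ring A] [Algebra F A] (x y : A) : A :=
  (2 : F)⁻¹ • (x * y + y * x)

/-- `R` is a Rota-Baxter operator of weight `0` for the product `mul`. -/
def IsRB (F : Type*) [Field F] {V : Type*} [AddCommGroup V] [Module F V]
    (mul : V → V → V) (R : V →ₗ[F] V) : Prop :=
  ∀ x y, mul (R x) (R y) = R (mul (R x) y + mul x (R y))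

section conc

set_option linter.unusedSectionVars false

variable {F : Type*} [Field F] [CharZero F] {A : Type*} [Ring A] [Algebra F A]

theorem jmul_comm' (x y : A) : jmul F x y = jmul F y x := by
  unfold jmul; rw [add_comm]

theorem jmul_of_commute {x y : A} (h : x * y = y * x) : jmul F x y = x * y := by
  unfold jmul
  rw [← h, ← two_smul F, smul_smul, inv_mul_cancel₀ (two_ne_zero), one_smul]

theorem jmul_one (x : A) : jmul F x 1 = x := by
  rw [jmul_of_commute (by simp)]; simp

theorem one_jmul (x : A) : jmul F 1 x = x := by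
  rw [jmul_of_commute (by simp)]; simp

theorem jmul_add (x y z : A) : jmul F x (y + z) = jmul F x y + jmul F x z := by
  unfold jmul; rw [mul_add, add_mul, ← smul_add]; congr 1; abel

theorem jmul_smul (c : F) (x y : A) : jmul F x (c • y) = c • jmul F x y := by
  unfold jmul; rw [mul_smul_comm, smul_mul_assoc, ← smul_add, smul_comm]

theorem smul_jmul (c : F) (x y : A) : jmul F (c • x) y = c • jmul F x y := by
  unfold jmul; rw [mul_smul_comm, smul_mul_assoc, ← smul_add, smul_comm]

variable (N : A →ₗ[F] A) (hN : IsRB F (jmul F) N)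
include hN

theorem N_pow (k : ℕ) : N ((N 1) ^ k) = ((k + 1 : ℕ) : F)⁻¹ • (N 1) ^ (k + 1) := by
  induction k with
  | zero => simp
  | succ k ih =>
    have h := hN 1 ((N 1) ^ k)
    rw [ih, jmul_smul, jmul_smul, one_jmul, jmul_of_commute (by rw [← pow_succ, ← pow_succ']),
      jmul_of_commute (by rw [← pow_succ, ← pow_succ']), ← pow_succ', ← pow_succ', map_add,
      LinearMap.map_smul] at h
    have hk : ((k + 1 : ℕ) : F) ≠ 0 := by exact_mod_cast Nat.succ_ne_zero k
    have hk2 : ((k + 1 + 1 : ℕ) : F) ≠ 0 := by exact_mod_cast Nat.succ_ne_zero (k + 1)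
    have h2 : (((k + 1 + 1 : ℕ) : F) * ((k + 1 : ℕ) : F)⁻¹) • N ((N 1) ^ (k + 1)) =
        ((k + 1 : ℕ) : F)⁻¹ • (N 1) ^ (k + 1 + 1) := by
      rw [h]
      have e : ((k + 1 + 1 : ℕ) : F) * ((k + 1 : ℕ) : F)⁻¹ = 1 + ((k + 1 : ℕ) : F)⁻¹ := by
        rw [Nat.cast_succ (k + 1), add_mul, mul_inv_cancel₀ hk, one_mul]
      rw [e, add_smul, one_smul]
    calc N (N 1 ^ (k + 1)) = (((k + 1 : ℕ) : F) * ((k + 1 + 1 : ℕ) : F)⁻¹) •
          ((((k + 1 + 1 : ℕ) : F) * ((k + 1 : ℕ) : F)⁻¹) • N ((N 1) ^ (k + 1))) := by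
            rw [smul_smul]
            have : ((k + 1 : ℕ) : F) * ((k + 1 + 1 : ℕ) : F)⁻¹ * (((k + 1 + 1 : ℕ) : F) * ((k + 1 : ℕ) : F)⁻¹) = 1 := by
              field_simp
            rw [this, one_smul]
      _ = _ := by
            rw [h2, smul_smul]; congr 1; field_simp

theorem N_one_rel (y : A) : jmul F (N 1) (N y) = N (jmul F (N 1) y) + N (N y) := by
  rw [hN, one_jmul, map_add]

theorem N_pow_rel (k : ℕ) (y : A) : jmul F ((N 1) ^ (k + 1)) (N y) =
    N (jmul F ((N 1) ^ (k + 1)) y) + ((k + 1 : ℕ) : F) • N (jmul F ((N 1) ^ k) (N y)) := by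
  have hk : ((k + 1 : ℕ) : F) ≠ 0 := by exact_mod_cast Nat.succ_ne_zero k
  have h := hN ((N 1) ^ k) y
  rw [N_pow N hN k, smul_jmul, smul_jmul, map_add, LinearMap.map_smul] at h
  have h2 := congrArg (fun w => ((k + 1 : ℕ) : F) • w) h
  simp only [smul_add, smul_smul, mul_inv_cancel₀ hk, one_smul] at h2
  exact h2

/-- General bound: `N(1)^m = 0` implies `N^(2m) = 0`. -/
theorem general_bound (m : ℕ) (ha : (N 1) ^ m = 0) : N ^ (2 * m) = 0 := by
  have key : ∀ j, j ≤ m → ∀ y, (N ^ j) (jmul F ((N 1) ^ (m - j)) ((N ^ j) y)) = 0 := by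
    intro j
    induction j with
    | zero => intro _ y; simp [ha, jmul]
    | succ j ih =>
      intro hj y
      obtain ⟨k, hk⟩ : ∃ k, m - j = k + 1 := ⟨m - j - 1, by omega⟩
      have hk' : m - (j + 1) = k := by omega
      have h1 := N_pow_rel N hN k ((N ^ j) y)
      have h2 := ih (by omega)
      have h3 := congrArg (N ^ j) h1
      rw [map_add, LinearMap.map_smul, ← hk] at h3
      have h4 : (N ^ j) (jmul F (N 1 ^ (m - j)) (N ((N ^ j) y))) = 0 := by
        have := h2 (N y)
        rwa [← Module.End.mul_apply (N ^ j) N, ← pow_succ, pow_succ', Module.End.mul_apply] at this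
      have h5 : (N ^ j) (N (jmul F (N 1 ^ (m - j)) ((N ^ j) y))) = 0 := by
        rw [← Module.End.mul_apply (N ^ j) N, ← pow_succ, pow_succ', Module.End.mul_apply, h2, map_zero]
      rw [h4, h5, zero_add] at h3
      have hkk : ((k + 1 : ℕ) : F) ≠ 0 := by exact_mod_cast Nat.succ_ne_zero k
      rw [hk] at h3
      have h6 := (smul_eq_zero.mp h3.symm).resolve_left hkk
      have h7 : ∀ w, (N ^ (j + 1)) w = (N ^ j) (N w) := fun w => by rw [pow_succ, Module.End.mul_apply]
      have h8 : ∀ w, (N ^ (j + 1)) w = N ((N ^ j) w) := fun w => by rw [pow_succ', Module.End.mul_apply]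
      rw [hk', h8 y, h7]
      exact h6
  ext y
  have h := key m le_rfl y
  rw [Nat.sub_self, pow_zero, one_jmul, ← Module.End.mul_apply, ← pow_add, ← two_mul] at h
  simpa using h

theorem N_aeval (P : F[X]) : ∃ Q : F[X], aeval (N 1) Q = N (aeval (N 1) P) := by
  induction P using Polynomial.induction_on' with
  | add p q hp hq =>
    obtain ⟨u, hu⟩ := hp
    obtain ⟨v, hv⟩ := hq
    exact ⟨u + v, by rw [map_add, map_add, map_add, hu, hv]⟩
  | monomial k c =>
    refine ⟨monomial (k + 1) (c * ((k + 1 : ℕ) : F)⁻¹), ?_⟩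
    rw [aeval_monomial, aeval_monomial, ← Algebra.smul_def, ← Algebra.smul_def, LinearMap.map_smul,
      N_pow N hN, smul_smul]

theorem N_aeval_derivative (P : F[X]) : N (aeval (N 1) (derivative P)) = aeval (N 1) P - aeval (N 1) (C (P.coeff 0)) := by
  induction P using Polynomial.induction_on' with
  | add p q hp hq =>
    simp only [map_add, hp, hq, coeff_add]; abel
  | monomial k c =>
    rcases k with _ | k
    · simp
    · rw [derivative_monomial, aeval_monomial, aeval_monomial, ← Algebra.smul_def, ← Algebra.smul_def,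
        LinearMap.map_smul, Nat.add_sub_cancel, N_pow N hN, smul_smul]
      have hk : ((k + 1 : ℕ) : F) ≠ 0 := by exact_mod_cast Nat.succ_ne_zero k
      rw [mul_assoc, mul_inv_cancel₀ hk, mul_one]
      simp [coeff_monomial]

theorem commute_aeval (P Q : F[X]) (a : A) : aeval a P * aeval a Q = aeval a Q * aeval a P := by
  rw [← map_mul, ← map_mul, mul_comm]

/-- idempotents in `F[a]` that are values of `N` on `F[a]` vanish -/
theorem idem_zero (P Q : F[X]) (hPQ : N (aeval (N 1) P) = aeval (N 1) Q)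
    (hQ : aeval (N 1) Q * aeval (N 1) Q = aeval (N 1) Q) : aeval (N 1) Q = 0 := by
  set a := N 1 with ha
  set e := aeval a Q with he
  have h1 := hN (aeval a P) (aeval a P)
  rw [hPQ, jmul_of_commute rfl, hQ, jmul_of_commute (commute_aeval N hN _ _ _),
    jmul_of_commute (commute_aeval N hN _ _ _), commute_aeval N hN P Q, ← two_smul F, LinearMap.map_smul] at h1
  have h2 : N (e * aeval a P) = (2 : F)⁻¹ • e := by
    have := congrArg (fun w => (2 : F)⁻¹ • w) h1
    simp only [smul_smul, inv_mul_cancel₀ (two_ne_zero (α := F)), one_smul] at this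
    exact this.symm
  have h3 := hN (e * aeval a P) (e * aeval a P)
  have hcomm : e * (e * aeval a P) = e * aeval a P * e := by
    rw [mul_assoc, commute_aeval N hN P Q]
  rw [h2, jmul_smul, smul_jmul, jmul_of_commute rfl, hQ, smul_jmul, jmul_smul, jmul_of_commute hcomm,
    jmul_of_commute hcomm.symm, ← hcomm, ← mul_assoc, hQ, map_add, LinearMap.map_smul, h2] at h3
  simp only [smul_smul, ← add_smul] at h3
  have h4 : ((2 : F)⁻¹ * 2⁻¹ - (2⁻¹ * 2⁻¹ + 2⁻¹ * 2⁻¹)) • e = 0 := by rw [sub_smul, ← h3, sub_self]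
  refine (smul_eq_zero.mp h4).resolve_left ?_
  have : ((2 : F)⁻¹ * 2⁻¹ - (2⁻¹ * 2⁻¹ + 2⁻¹ * 2⁻¹)) = - (2⁻¹ * 2⁻¹) := by ring
  rw [this]
  exact neg_ne_zero.mpr (mul_ne_zero (inv_ne_zero two_ne_zero) (inv_ne_zero two_ne_zero))

theorem nilpotent_one [FiniteDimensional F A] : IsNilpotent (N 1) := by
  set a := N 1 with ha
  have hint : IsIntegral F a := IsIntegral.of_finite F a
  have hp0 : minpoly F a ≠ 0 := minpoly.ne_zero hint
  obtain ⟨g, hg, hXg⟩ := Polynomial.exists_eq_pow_rootMultiplicity_mul_and_not_dvd (minpoly F a) hp0 0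
  set k := rootMultiplicity 0 (minpoly F a)
  rw [C_0, sub_zero] at hg hXg
  have hcop : IsCoprime (X ^ (k + 1)) g := ((irreducible_X.coprime_iff_not_dvd).2 hXg).pow_left
  obtain ⟨u, v, huv⟩ := hcop
  have h1 := N_aeval_derivative N hN (u * X ^ (k + 1))
  have h2 : (u * X ^ (k + 1)).coeff 0 = 0 := by simp [coeff_zero_eq_eval_zero]
  rw [h2, C_0, map_zero, sub_zero] at h1
  have hmin : aeval a (X ^ k * g) = 0 := by rw [← hg]; exact minpoly.aeval F a
  have h3 : aeval a (u * X ^ (k + 1)) * aeval a (u * X ^ (k + 1)) = aeval a (u * X ^ (k + 1)) := by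
    have e : u * X ^ (k + 1) * (u * X ^ (k + 1)) = u * X ^ (k + 1) - (u * v * X) * (X ^ k * g) := by
      have : u * X ^ (k + 1) * (u * X ^ (k + 1)) = u * X ^ (k + 1) * (1 - v * g) := by
        rw [← huv]; ring
      rw [this]; ring
    rw [← map_mul, e, map_sub, map_mul _ (u * v * X), hmin, mul_zero, sub_zero]
  have h4 := idem_zero N hN _ _ h1 h3
  have h5 : aeval a g * aeval a v = 1 := by
    have := congrArg (aeval a) huv
    rw [map_add, h4, zero_add, map_one, mul_comm, map_mul] at this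
    exact this
  refine ⟨k, ?_⟩
  calc a ^ k = a ^ k * (aeval a g * aeval a v) := by rw [h5, mul_one]
    _ = aeval a (X ^ k * g) * aeval a v := by rw [map_mul, map_pow, aeval_X, mul_assoc]
    _ = 0 := by rw [hmin, zero_mul]

/-- Theorem T. -/
theorem thmT (n : ℕ) (hn : 1 ≤ n) (ha : (N 1) ^ n = 0)
    (H : ∀ (y : A) (k : ℕ), 1 ≤ k → k ≤ n → N 1 * y = y * N 1 → (N 1) ^ k * y = 0 → (N ^ k) y = 0) :
    N ^ (2 * n - 1) = 0 := by
  set a := N 1 with haa
  have h2 : (2 : F) ≠ 0 := two_ne_zero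
  set L : Module.End F A := LinearMap.mulLeft F a with hL
  set R : Module.End F A := LinearMap.mulRight F a with hR
  have hLR : Commute L R := by
    ext y; simp [hL, hR, mul_assoc]
  set s : Module.End F A := (2 : F)⁻¹ • (L + R) with hs
  set d : Module.End F A := (2 : F)⁻¹ • (L - R) with hd
  have hss : ∀ y, s y = jmul F a y := fun y => by
    simp [hs, hL, hR, jmul]
  have hsdL : s + d = L := by
    rw [hs, hd, ← smul_add, add_add_sub_cancel, ← two_smul F, smul_smul, inv_mul_cancel₀ h2, one_smul]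
  have hsdR : s - d = R := by
    have e : L + R - (L - R) = (2 : F) • R := by rw [two_smul]; abel
    have e' : (2 : F)⁻¹ • (L + R) - (2 : F)⁻¹ • (L - R) = (2 : F)⁻¹ • (L + R - (L - R)) := by
      ext y; simp [smul_sub]
    rw [hs, hd, e', e, smul_smul, inv_mul_cancel₀ h2, one_smul]
  have hsd : Commute s d := by
    apply Commute.smul_left; apply Commute.smul_right
    apply Commute.add_left <;> apply Commute.sub_right
    · exact Commute.refl L
    · exact hLR
    · exact hLR.symm
    · exact Commute.refl R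
  have hsN : s * N = N * s + N * N := by
    ext y
    simp only [Module.End.mul_apply, LinearMap.add_apply, hss]
    exact N_one_rel N hN y
  have hsdq : s ^ 2 + d ^ 2 = (2 : F)⁻¹ • (L ^ 2 + R ^ 2) := by
    rw [hs, hd, _root_.smul_pow, _root_.smul_pow, ← smul_add]
    have e : (L + R) ^ 2 + (L - R) ^ 2 = (2 : F) • (L ^ 2 + R ^ 2) := by
      rw [two_smul, hLR.add_sq, hLR.sub_sq]; abel
    rw [e, smul_smul, pow_two, mul_assoc, inv_mul_cancel₀ h2, mul_one]
  have hT2 : ∀ y, (s ^ 2 + d ^ 2) y = jmul F (a ^ 2) y := by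
    intro y
    rw [hsdq, hL, hR, LinearMap.pow_mulLeft, LinearMap.pow_mulRight]
    simp [jmul]
  have hzN : d ^ 2 * N = N * d ^ 2 := by
    have h1 : (s ^ 2 + d ^ 2) * N = N * (s ^ 2 + d ^ 2) + (2 : F) • (N * s * N) := by
      ext y
      have := N_pow_rel N hN 1 y
      simp only [Module.End.mul_apply, LinearMap.add_apply, LinearMap.smul_apply, hss] at *
      rw [hT2, hT2]
      simpa using this
    have h3 := sN_pow s N hsN 1
    have h4 : d ^ 2 * N = (s ^ 2 + d ^ 2) * N - s ^ (1 + 1) * N := by noncomm_ring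
    rw [h4, h1, h3]
    have h5 : (2 : F) • (N * s * N) = ((1 + 1 : ℕ) : Module.End F A) * (N * s ^ 1 * N) := by
      rw [two_smul, pow_one]; push_cast; noncomm_ring
    rw [h5]; noncomm_ring
  refine main_abs F n hn s d N hsd hsN hzN ?_ ?_ ?_
  · rw [hsdL, hL, LinearMap.pow_mulLeft, ha]; ext; simp
  · rw [hsdR, hR, LinearMap.pow_mulRight, ha]; ext; simp
  · intro W k hk1 hkn hdW hsW
    ext x
    have e1 : a * W x = W x * a := by
      have h := congrArg (fun T : Module.End F A => T x) hdW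
      simp only [Module.End.mul_apply, LinearMap.zero_apply, hd, LinearMap.smul_apply, LinearMap.sub_apply, hL, hR,
        LinearMap.mulLeft_apply, LinearMap.mulRight_apply] at h
      exact sub_eq_zero.mp ((smul_eq_zero.mp h).resolve_left (inv_ne_zero h2))
    have e2 : ∀ j, (s ^ j) (W x) = a ^ j * W x := by
      intro j
      induction j with
      | zero => simp
      | succ j ih =>
        rw [pow_succ', Module.End.mul_apply, ih, hss, jmul_of_commute, pow_succ', mul_assoc]
        rw [mul_assoc, ← e1, ← mul_assoc, ← mul_assoc, ← pow_succ, ← pow_succ']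
    have e3 : a ^ k * W x = 0 := by
      rw [← e2, ← Module.End.mul_apply, hsW]; rfl
    simpa using H (W x) k hk1 hkn e1 e3

theorem N_pow_pow (k j : ℕ) : ∃ c : F, c ≠ 0 ∧ (N ^ k) ((N 1) ^ j) = c • (N 1) ^ (j + k) := by
  induction k with
  | zero => exact ⟨1, one_ne_zero, by simp⟩
  | succ k ih =>
    obtain ⟨c, hc, h⟩ := ih
    have hk : ((j + k + 1 : ℕ) : F) ≠ 0 := by exact_mod_cast Nat.succ_ne_zero (j + k)
    refine ⟨c * ((j + k + 1 : ℕ) : F)⁻¹, mul_ne_zero hc (inv_ne_zero hk), ?_⟩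
    rw [pow_succ', Module.End.mul_apply, h, LinearMap.map_smul, N_pow N hN, smul_smul, add_assoc j k 1]

theorem poly_case (n : ℕ) (hn : 1 ≤ n) (ha : (N 1) ^ n = 0) (hreg : (N 1) ^ (n - 1) ≠ 0) (P : F[X])
    (k : ℕ) (h : (N 1) ^ k * aeval (N 1) P = 0) : (N ^ k) (aeval (N 1) P) = 0 := by
  set a := N 1 with haa
  have hdvd : minpoly F a ∣ X ^ n := minpoly.dvd F a (by simp [ha])
  obtain ⟨j, hj, hass⟩ := (dvd_prime_pow prime_X n).1 hdvd
  have haj : a ^ j = 0 := by
    have h1 : minpoly F a ∣ X ^ j := hass.dvd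
    obtain ⟨q, hq⟩ := h1
    have : aeval a (X ^ j : F[X]) = 0 := by rw [hq, map_mul, minpoly.aeval, zero_mul]
    simpa using this
  have hjn : j = n := by
    by_contra hne
    apply hreg
    have : n - 1 = j + (n - 1 - j) := by omega
    rw [this, pow_add, haj, zero_mul]
  subst hjn
  have h1 : minpoly F a ∣ P * X ^ k := minpoly.dvd F a (by rw [mul_comm, map_mul, map_pow, aeval_X]; exact h)
  have h2 : X ^ j ∣ P * X ^ k := hass.symm.dvd.trans h1
  have h3 : ∀ i, i + k < j → P.coeff i = 0 := by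
    intro i hi
    have := (X_pow_dvd_iff.1 h2) (i + k) hi
    rwa [coeff_mul_X_pow] at this
  rw [aeval_eq_sum_range, map_sum]
  refine Finset.sum_eq_zero fun i _ => ?_
  obtain ⟨c, -, hc⟩ := N_pow_pow N hN k i
  rw [LinearMap.map_smul, ← haa] at *
  rw [hc]
  by_cases hik : i + k < j
  · rw [h3 i hik, zero_smul]
  · have : i + k = j + (i + k - j) := by omega
    rw [this, pow_add, ha]; simp

end conc

end JRB
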