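import Mathlib
import Pool.Agent.H502.JRBConc
open Polynomial Matrix

namespace JRB

section herm

set_option linter.unusedSectionVars false

variable {F : Type*} [Field F] [CharZero F] {A : Type*} [Ring A] [Algebra F A]

/-- The space `H(A, τ)` of elements fixed by `τ`. -/
def Herm {F : Type*} [Field F] {A : Type*} [Ring A] [Algebra F A] (τ : A →ₗ[F] A) : Submodule F A where
  carrier := {a | τ a = a}
  add_mem' := fun {a b} ha hb => by
    change τ a = a at ha
    change τ b = b at hb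
    change τ (a + b) = a + b
    rw [map_add, ha, hb]
  zero_mem' := map_zero τ
  smul_mem' := fun c a ha => by
    change τ a = a at ha
    change τ (c • a) = c • a
    rw [LinearMap.map_smul, ha]

/-- The Jordan product on `H(A, τ)`, where `τ` is an involution of `A`. -/
def hermMul {F : Type*} [Field F] {A : Type*} [Ring A] [Algebra F A] (τ : A →ₗ[F] A)
    (hτ : ∀ x y, τ (x * y) = τ y * τ x) (x y : Herm τ) : Herm τ :=
  ⟨jmul F (x : A) (y : A), by
    have hx : τ (x : A) = x := x.2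
    have hy : τ (y : A) = y := y.2
    show τ (jmul F (x : A) (y : A)) = jmul F (x : A) (y : A)
    unfold jmul
    rw [LinearMap.map_smul, map_add, hτ, hτ, hx, hy, add_comm]⟩

variable (τ : A →ₗ[F] A) (hτ : ∀ x y, τ (x * y) = τ y * τ x) (hττ : ∀ x, τ (τ x) = x)

/-- projection onto `H(A, τ)` -/
def proj (hττ : ∀ x, τ (τ x) = x) : A →ₗ[F] Herm τ :=
  LinearMap.codRestrict (Herm τ) ((2 : F)⁻¹ • (LinearMap.id + τ)) (fun x => by
    show τ _ = _
    simp only [LinearMap.smul_apply, LinearMap.add_apply, LinearMap.id_apply, LinearMap.map_smul, map_add, hττ]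
    rw [add_comm])

theorem proj_coe (x : A) : ((proj τ hττ x : Herm τ) : A) = (2 : F)⁻¹ • (x + τ x) := rfl

theorem proj_herm (x : Herm τ) : proj τ hττ (x : A) = x := by
  have hx : τ (x : A) = x := x.2
  apply Subtype.ext
  rw [proj_coe, hx, ← two_smul F, smul_smul, inv_mul_cancel₀ two_ne_zero, one_smul]

include hτ in
theorem proj_jmul (x : Herm τ) (y : A) : proj τ hττ (jmul F (x : A) y) = hermMul τ hτ x (proj τ hττ y) := by
  have hx : τ (x : A) = x := x.2
  apply Subtype.ext
  rw [proj_coe]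
  show _ = jmul F (x : A) ((proj τ hττ y : Herm τ) : A)
  rw [proj_coe, jmul_smul, jmul_add]
  congr 2
  unfold jmul
  rw [LinearMap.map_smul, map_add, hτ, hτ, hx, add_comm]

/-- extension of an operator on `H(A, τ)` by zero on the skew part -/
def ext0 (N : Herm τ →ₗ[F] Herm τ) : A →ₗ[F] A := (Herm τ).subtype ∘ₗ N ∘ₗ proj τ hττ

include hτ in
theorem ext0_RB (N : Herm τ →ₗ[F] Herm τ) (hN : IsRB F (hermMul τ hτ) N) :
    IsRB F (jmul F) (ext0 τ hττ N) := by
  intro x y
  show jmul F ((N (proj τ hττ x) : Herm τ) : A) ((N (proj τ hττ y) : Herm τ) : A) =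
    ((N (proj τ hττ (jmul F ((N (proj τ hττ x) : Herm τ) : A) y + jmul F x ((N (proj τ hττ y) : Herm τ) : A))) : Herm τ) : A)
  rw [map_add, proj_jmul τ hτ hττ, jmul_comm' x, proj_jmul τ hτ hττ]
  have h := hN (proj τ hττ x) (proj τ hττ y)
  have h1 : hermMul τ hτ (proj τ hττ x) (N (proj τ hττ y)) = hermMul τ hτ (N (proj τ hττ y)) (proj τ hττ x) := by
    apply Subtype.ext; exact jmul_comm' _ _
  rw [h1] at h
  rw [← h]; rfl

theorem ext0_pow (N : Herm τ →ₗ[F] Herm τ) (k : ℕ) (x : Herm τ) :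
    ((ext0 τ hττ N) ^ k) (x : A) = ((N ^ k) x : Herm τ) := by
  induction k with
  | zero => simp
  | succ k ih =>
    rw [pow_succ', Module.End.mul_apply, ih, pow_succ', Module.End.mul_apply]
    show ((N (proj τ hττ ((N ^ k) x : Herm τ)) : Herm τ) : A) = _
    rw [proj_herm]

theorem ext0_pow_succ (N : Herm τ →ₗ[F] Herm τ) (k : ℕ) (hk : 1 ≤ k) (x : A) :
    ((ext0 τ hττ N) ^ k) x = ((N ^ k) (proj τ hττ x) : Herm τ) := by
  obtain ⟨j, rfl⟩ : ∃ j, k = j + 1 := ⟨k - 1, by omega⟩
  rw [pow_succ, Module.End.mul_apply, pow_succ N, Module.End.mul_apply]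
  show ((ext0 τ hττ N) ^ j) ((N (proj τ hττ x) : Herm τ) : A) = _
  rw [ext0_pow]

include hτ hττ in
theorem herm_bound [FiniteDimensional F A] (n : ℕ) (hn : 1 ≤ n)
    (hnil : ∀ a : A, τ a = a → IsNilpotent a → a ^ n = 0)
    (hreg : ∀ a : A, τ a = a → a ^ n = 0 → a ^ (n - 1) ≠ 0 → ∀ y : A, τ y = y → a * y = y * a → ∃ P : F[X], y = aeval a P)
    (N : Herm τ →ₗ[F] Herm τ) (hN : IsRB F (hermMul τ hτ) N) : N ^ (2 * n - 1) = 0 := by
  have hM := ext0_RB τ hτ hττ N hN
  set M := ext0 τ hττ N with hMdef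
  have hMpow := ext0_pow τ hττ N
  rw [← hMdef] at hMpow
  have hfin : M ^ (2 * n - 1) = 0 → N ^ (2 * n - 1) = 0 := by
    intro h
    ext x
    rw [← hMpow, h]; simp
  apply hfin
  have h1 : τ (M 1) = M 1 := (N (proj τ hττ 1)).2
  have ha : (M 1) ^ n = 0 := hnil _ h1 (nilpotent_one M hM)
  by_cases hr : (M 1) ^ (n - 1) = 0
  · have := general_bound M hM (n - 1) hr
    have e : 2 * n - 1 = 1 + 2 * (n - 1) := by omega
    rw [e, pow_add, this, mul_zero]
  · refine thmT M hM n hn ha ?_
    intro y k hk1 hkn hc hz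
    rw [hMdef, ext0_pow_succ τ hττ N k hk1 y, ← ext0_pow τ hττ N, ← hMdef]
    have hpy : τ ((proj τ hττ y : Herm τ) : A) = ((proj τ hττ y : Herm τ) : A) := (proj τ hττ y).2
    have hc' : τ y * M 1 = M 1 * τ y := by
      have := congrArg τ hc
      rwa [hτ, hτ, h1] at this
    have hc2 : M 1 * ((proj τ hττ y : Herm τ) : A) = ((proj τ hττ y : Herm τ) : A) * M 1 := by
      rw [proj_coe, mul_smul_comm, smul_mul_assoc, mul_add, add_mul, hc, hc']
    have hpow : ∀ j, τ (M 1 ^ j) = M 1 ^ j := by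
      intro j
      induction j with
      | zero =>
        have h11 : τ 1 = 1 := by
          have := hτ (τ 1) 1
          rw [mul_one, hττ, mul_one] at this
          exact this.symm
        simpa using h11
      | succ j ih => rw [pow_succ, hτ, ih, h1, ← pow_succ', ← pow_succ]
    have hz' : M 1 ^ k * τ y = 0 := by
      have h3 : y * M 1 ^ k = 0 := by
        rw [← hz]
        exact ((show Commute (M 1) y from hc).pow_left k).eq.symm
      have := congrArg τ h3
      rw [hτ, hpow, map_zero] at this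
      exact this
    have hz2 : M 1 ^ k * ((proj τ hττ y : Herm τ) : A) = 0 := by
      rw [proj_coe, mul_smul_comm, mul_add, hz, hz', add_zero, smul_zero]
    obtain ⟨P, hP⟩ := hreg _ h1 ha hr _ hpy hc2
    rw [hP] at hz2 ⊢
    exact poly_case M hM n hn ha hr P k hz2

end herm

end JRB
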