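import Mathlib
import Pool.Agent.H502.JRBHerm
open Polynomial Matrix

namespace JRB

section mat

set_option linter.unusedSectionVars false

variable {F : Type*} [Field F] {A : Type*} [Ring A] [Algebra F A]

theorem aeval_low (a : A) (m : ℕ) (ha : a ^ m = 0) (P : F[X]) (h : ∀ i, i < m → P.coeff i = 0) :
    aeval a P = 0 := by
  rw [aeval_eq_sum_range]
  refine Finset.sum_eq_zero fun i _ => ?_
  by_cases hi : i < m
  · rw [h i hi, zero_smul]
  · have : i = m + (i - m) := by omega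
    rw [this, pow_add, ha]; simp

theorem low_coeff (a : A) (m : ℕ) (ha : a ^ m = 0) (P : F[X]) :
    (∀ i, i < m → P.coeff i = 0) ∨ ∃ (j : ℕ) (c : F), c ≠ 0 ∧ a ^ j * aeval a P = c • a ^ (m - 1) := by
  classical
  by_cases h : ∀ i, i < m → P.coeff i = 0
  · exact Or.inl h
  · right
    have hex : ∃ i, i < m ∧ P.coeff i ≠ 0 := by
      by_contra hne
      apply h
      intro i hi
      by_contra h2
      exact hne ⟨i, hi, h2⟩
    set i0 := Nat.find hex with hi0
    obtain ⟨hlt, hne⟩ := Nat.find_spec hex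
    rw [← hi0] at hlt hne
    have hmin : ∀ i, i < i0 → P.coeff i = 0 := by
      intro i hi
      have := Nat.find_min hex hi
      by_contra h3
      exact this ⟨by omega, h3⟩
    refine ⟨m - 1 - i0, P.coeff i0, hne, ?_⟩
    have h4 : ∀ i, i < m → (P * X ^ (m - 1 - i0) - C (P.coeff i0) * X ^ (m - 1)).coeff i = 0 := by
      intro i hi
      rw [coeff_sub, coeff_C_mul, coeff_X_pow, coeff_mul_X_pow']
      by_cases h5 : i = m - 1
      · subst h5
        rw [if_pos (by omega), if_pos rfl, mul_one]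
        have : m - 1 - (m - 1 - i0) = i0 := by omega
        rw [this, sub_self]
      · rw [if_neg h5, mul_zero, sub_zero]
        split_ifs with h6
        · exact hmin _ (by omega)
        · rfl
    have h5 := aeval_low a m ha _ h4
    rw [map_sub, map_mul, map_mul, map_pow, map_pow, aeval_X, aeval_C, ← Algebra.smul_def, sub_eq_zero] at h5
    rw [← h5]
    have e : a ^ (m - 1 - i0) = aeval a (X ^ (m - 1 - i0) : F[X]) := by simp
    rw [e, ← map_mul, ← map_mul, mul_comm]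

theorem aeval_comm_of_comm (a y : A) (h : a * y = y * a) (Q : F[X]) : aeval a Q * y = y * aeval a Q := by
  rw [aeval_eq_sum_range, Finset.sum_mul, Finset.mul_sum]
  refine Finset.sum_congr rfl fun i _ => ?_
  rw [smul_mul_assoc, mul_smul_comm, ((show Commute a y from h).pow_left i).eq]

theorem poly_of_fn_coeff {m : ℕ} (c : Fin m → F) (i : Fin m) :
    (∑ j : Fin m, C (c j) * X ^ (j : ℕ) : F[X]).coeff (i : ℕ) = c i := by
  rw [finsetSum_coeff, Finset.sum_eq_single i]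
  · simp
  · intro j _ hj
    rw [coeff_C_mul, coeff_X_pow, if_neg, mul_zero]
    intro h; exact hj (Fin.ext h.symm)
  · intro h; exact absurd (Finset.mem_univ _) h

theorem aeval_poly_of_fn {m : ℕ} (c : Fin m → F) (a : A) :
    aeval a (∑ j : Fin m, C (c j) * X ^ (j : ℕ) : F[X]) = ∑ j : Fin m, c j • a ^ (j : ℕ) := by
  rw [map_sum]
  refine Finset.sum_congr rfl fun j _ => ?_
  rw [map_mul, aeval_C, map_pow, aeval_X, ← Algebra.smul_def]

variable {ι : Type*} [Fintype ι] [DecidableEq ι]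

theorem exists_vec (b : Matrix ι ι F) (hb : b ≠ 0) : ∃ f : ι → F, b *ᵥ f ≠ 0 := by
  by_contra h
  apply hb
  ext i j
  have h1 : b *ᵥ (Pi.single j 1) = 0 := by
    by_contra h2; exact h ⟨_, h2⟩
  have := congrFun h1 i
  simpa using this

/-- The commutant of a regular nilpotent matrix consists of polynomials. -/
theorem comm_M (n : ℕ) (hn : Fintype.card ι = n) (a : Matrix ι ι F) (ha : a ^ n = 0)
    (hr : a ^ (n - 1) ≠ 0) (y : Matrix ι ι F) (hy : a * y = y * a) : ∃ P : F[X], y = aeval a P := by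
  obtain ⟨f, hf⟩ := exists_vec _ hr
  set Φ : (Fin n → F) →ₗ[F] (ι → F) := Fintype.linearCombination F (fun i : Fin n => (a ^ (i : ℕ)) *ᵥ f) with hΦ
  have hΦc : ∀ c, Φ c = aeval a (∑ j : Fin n, C (c j) * X ^ (j : ℕ) : F[X]) *ᵥ f := by
    intro c
    rw [aeval_poly_of_fn, hΦ, Fintype.linearCombination_apply, Matrix.sum_mulVec]
    refine Finset.sum_congr rfl fun j _ => ?_
    rw [Matrix.smul_mulVec]
  have hinj : Function.Injective Φ := by
    rw [injective_iff_map_eq_zero]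
    intro c hc
    rw [hΦc] at hc
    rcases low_coeff a n ha (∑ j : Fin n, C (c j) * X ^ (j : ℕ) : F[X]) with h | ⟨j, c', hc', h⟩
    · funext i
      rw [← poly_of_fn_coeff c i]; exact h _ i.2
    · exfalso
      have h2 : (a ^ j * aeval a (∑ j : Fin n, C (c j) * X ^ (j : ℕ) : F[X])) *ᵥ f = 0 := by
        rw [← Matrix.mulVec_mulVec, hc, Matrix.mulVec_zero]
      rw [h, Matrix.smul_mulVec] at h2
      exact hf ((smul_eq_zero.mp h2).resolve_left hc')
  have hsurj : Function.Surjective Φ := by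
    refine (LinearMap.injective_iff_surjective_of_finrank_eq_finrank ?_).1 hinj
    simp [hn]
  obtain ⟨c, hc⟩ := hsurj (y *ᵥ f)
  refine ⟨∑ j : Fin n, C (c j) * X ^ (j : ℕ), ?_⟩
  set P : F[X] := ∑ j : Fin n, C (c j) * X ^ (j : ℕ) with hP
  rw [hΦc, ← hP] at hc
  have hcomm : ∀ Q : F[X], aeval a Q * y = y * aeval a Q := by
    intro Q
    exact aeval_comm_of_comm a y hy Q
  have key : ∀ v, y *ᵥ v = aeval a P *ᵥ v := by
    intro v
    obtain ⟨c2, hc2⟩ := hsurj v
    rw [hΦc] at hc2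
    rw [← hc2, Matrix.mulVec_mulVec, Matrix.mulVec_mulVec, ← hcomm, ← Matrix.mulVec_mulVec, ← hc,
      Matrix.mulVec_mulVec, ← map_mul, ← map_mul, mul_comm]
  ext i j
  have := congrFun (key (Pi.single j 1)) i
  simpa using this

/-- `x* = J⁻¹ xᵀ J`, the symplectic involution (here `J⁻¹ = -J`). -/
def sympInv (F : Type*) [Field F] (n : ℕ) :
    Matrix (Fin n ⊕ Fin n) (Fin n ⊕ Fin n) F →ₗ[F] Matrix (Fin n ⊕ Fin n) (Fin n ⊕ Fin n) F where
  toFun x := -(Matrix.J (Fin n) F * xᵀ * Matrix.J (Fin n) F)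
  map_add' x y := by simp [Matrix.mul_add, Matrix.add_mul]; abel
  map_smul' c x := by simp

theorem sympInv_apply (n : ℕ) (x : Matrix (Fin n ⊕ Fin n) (Fin n ⊕ Fin n) F) :
    sympInv F n x = -(Matrix.J (Fin n) F * xᵀ * Matrix.J (Fin n) F) := rfl

theorem sympInv_mul (n : ℕ) (x y : Matrix (Fin n ⊕ Fin n) (Fin n ⊕ Fin n) F) :
    sympInv F n (x * y) = sympInv F n y * sympInv F n x := by
  simp only [sympInv_apply, Matrix.transpose_mul]
  have hJ := Matrix.J_squared (Fin n) F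
  have : Matrix.J (Fin n) F * yᵀ * Matrix.J (Fin n) F * (Matrix.J (Fin n) F * xᵀ * Matrix.J (Fin n) F) =
      Matrix.J (Fin n) F * yᵀ * (Matrix.J (Fin n) F * Matrix.J (Fin n) F) * xᵀ * Matrix.J (Fin n) F := by
    simp only [mul_assoc]
  rw [neg_mul_neg, this, hJ]
  simp [mul_assoc]

theorem sympInv_inv (n : ℕ) (x : Matrix (Fin n ⊕ Fin n) (Fin n ⊕ Fin n) F) :
    sympInv F n (sympInv F n x) = x := by
  simp only [sympInv_apply, Matrix.transpose_neg, Matrix.transpose_mul, Matrix.transpose_transpose,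
    Matrix.J_transpose]
  have hJ := Matrix.J_squared (Fin n) F
  have e : -(Matrix.J (Fin n) F * -(-Matrix.J (Fin n) F * (x * -Matrix.J (Fin n) F)) * Matrix.J (Fin n) F)
      = (Matrix.J (Fin n) F * Matrix.J (Fin n) F) * x * (Matrix.J (Fin n) F * Matrix.J (Fin n) F) := by
    noncomm_ring
  rw [e, hJ]; simp

/-- the skew form -/
theorem symp_skew (n : ℕ) (t : Matrix (Fin n ⊕ Fin n) (Fin n ⊕ Fin n) F) (ht : sympInv F n t = t) :
    (Matrix.J (Fin n) F * t)ᵀ = -(Matrix.J (Fin n) F * t) := by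
  have hJ := Matrix.J_squared (Fin n) F
  rw [Matrix.transpose_mul, Matrix.J_transpose]
  have h1 : Matrix.J (Fin n) F * t = tᵀ * Matrix.J (Fin n) F := by
    conv_lhs => rw [← ht, sympInv_apply]
    have : Matrix.J (Fin n) F * -(Matrix.J (Fin n) F * tᵀ * Matrix.J (Fin n) F) =
      -((Matrix.J (Fin n) F * Matrix.J (Fin n) F) * tᵀ * Matrix.J (Fin n) F) := by noncomm_ring
    rw [this, hJ]; simp
  rw [h1]; simp

theorem skew_form (n : ℕ) (t : Matrix (Fin n ⊕ Fin n) (Fin n ⊕ Fin n) F) (ht : sympInv F n t = t)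
    (u v : Fin n ⊕ Fin n → F) :
    u ⬝ᵥ (Matrix.J (Fin n) F * t) *ᵥ v = -(v ⬝ᵥ (Matrix.J (Fin n) F * t) *ᵥ u) := by
  rw [Matrix.dotProduct_mulVec, ← Matrix.mulVec_transpose, symp_skew n t ht, Matrix.neg_mulVec,
    neg_dotProduct, dotProduct_comm]

theorem skew_self [CharZero F] (n : ℕ) (t : Matrix (Fin n ⊕ Fin n) (Fin n ⊕ Fin n) F) (ht : sympInv F n t = t)
    (u : Fin n ⊕ Fin n → F) :
    u ⬝ᵥ (Matrix.J (Fin n) F * t) *ᵥ u = 0 := by
  have h := skew_form n t ht u u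
  have : (2 : F) * (u ⬝ᵥ (Matrix.J (Fin n) F * t) *ᵥ u) = 0 := by
    rw [two_mul]; nth_rewrite 1 [h]; ring
  exact (mul_eq_zero.mp this).resolve_left two_ne_zero

theorem symp_one (n : ℕ) : sympInv F n 1 = 1 := by
  rw [sympInv_apply, Matrix.transpose_one, mul_one, Matrix.J_squared]; simp

theorem symp_pow (n : ℕ) (a : Matrix (Fin n ⊕ Fin n) (Fin n ⊕ Fin n) F) (ha : sympInv F n a = a) (k : ℕ) :
    sympInv F n (a ^ k) = a ^ k := by
  induction k with
  | zero => simpa using symp_one (F := F) n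
  | succ k ih => rw [pow_succ, sympInv_mul, ih, ha, ← pow_succ', ← pow_succ]

theorem symp_aeval (n : ℕ) (a : Matrix (Fin n ⊕ Fin n) (Fin n ⊕ Fin n) F) (ha : sympInv F n a = a) (P : F[X]) :
    sympInv F n (aeval a P) = aeval a P := by
  rw [aeval_eq_sum_range, map_sum]
  refine Finset.sum_congr rfl fun i _ => ?_
  rw [LinearMap.map_smul, symp_pow n a ha]

theorem pair_zero [CharZero F] (n m : ℕ) (a : Matrix (Fin n ⊕ Fin n) (Fin n ⊕ Fin n) F) (ha : sympInv F n a = a)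
    (ham : a ^ m = 0) (x y : Fin n ⊕ Fin n → F)
    (hxy : x ⬝ᵥ (Matrix.J (Fin n) F * a ^ (m - 1)) *ᵥ y ≠ 0) (P Q : F[X])
    (h : aeval a P *ᵥ x + aeval a Q *ᵥ y = 0) :
    (∀ i, i < m → P.coeff i = 0) ∧ (∀ i, i < m → Q.coeff i = 0) := by
  have hyx : y ⬝ᵥ (Matrix.J (Fin n) F * a ^ (m - 1)) *ᵥ x ≠ 0 := by
    intro h0
    apply hxy
    rw [skew_form n _ (symp_pow n a ha _), h0, neg_zero]
  have hj : ∀ (j : ℕ) (R : F[X]), sympInv F n (a ^ j * aeval a R) = a ^ j * aeval a R := by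
    intro j R
    have : a ^ j * aeval a R = aeval a (X ^ j * R) := by simp
    rw [this, symp_aeval n a ha]
  have hexp : ∀ (u : Fin n ⊕ Fin n → F) (j : ℕ),
      u ⬝ᵥ (Matrix.J (Fin n) F * (a ^ j * aeval a P)) *ᵥ x + u ⬝ᵥ (Matrix.J (Fin n) F * (a ^ j * aeval a Q)) *ᵥ y = 0 := by
    intro u j
    rw [← dotProduct_add, ← Matrix.mulVec_mulVec, ← Matrix.mulVec_mulVec, ← Matrix.mulVec_mulVec,
      ← Matrix.mulVec_mulVec, ← Matrix.mulVec_add, ← Matrix.mulVec_add, h]
    simp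
  constructor
  · rcases low_coeff a m ham P with h1 | ⟨j, c, hc, h1⟩
    · exact h1
    · exfalso
      have h2 := hexp y j
      rw [skew_self n _ (hj j Q), add_zero, h1, mul_smul_comm, Matrix.smul_mulVec, dotProduct_smul] at h2
      exact hyx ((smul_eq_zero.mp h2).resolve_left hc)
  · rcases low_coeff a m ham Q with h1 | ⟨j, c, hc, h1⟩
    · exact h1
    · exfalso
      have h2 := hexp x j
      rw [skew_self n _ (hj j P), zero_add, h1, mul_smul_comm, Matrix.smul_mulVec, dotProduct_smul] at h2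
      exact hxy ((smul_eq_zero.mp h2).resolve_left hc)

theorem symp_pair (n : ℕ) (t : Matrix (Fin n ⊕ Fin n) (Fin n ⊕ Fin n) F) (ht : t ≠ 0) :
    ∃ x y : Fin n ⊕ Fin n → F, x ⬝ᵥ (Matrix.J (Fin n) F * t) *ᵥ y ≠ 0 := by
  have hJt : Matrix.J (Fin n) F * t ≠ 0 := by
    intro h0
    apply ht
    have : Matrix.J (Fin n) F * (Matrix.J (Fin n) F * t) = 0 := by rw [h0, mul_zero]
    rw [← mul_assoc, Matrix.J_squared] at this
    simpa using this
  by_contra hcon
  apply hJt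
  ext i j
  have h1 : (Pi.single i 1 : Fin n ⊕ Fin n → F) ⬝ᵥ (Matrix.J (Fin n) F * t) *ᵥ (Pi.single j 1) = 0 := by
    by_contra h2
    exact hcon ⟨_, _, h2⟩
  simpa using h1

theorem symp_map [CharZero F] (n m : ℕ) (a : Matrix (Fin n ⊕ Fin n) (Fin n ⊕ Fin n) F) (ha : sympInv F n a = a)
    (ham : a ^ m = 0) (x y : Fin n ⊕ Fin n → F)
    (hxy : x ⬝ᵥ (Matrix.J (Fin n) F * a ^ (m - 1)) *ᵥ y ≠ 0) :
    ∃ Φ : (Fin m ⊕ Fin m → F) →ₗ[F] (Fin n ⊕ Fin n → F), Function.Injective Φ ∧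
      ∀ c, ∃ P Q : F[X], Φ c = aeval a P *ᵥ x + aeval a Q *ᵥ y := by
  set Φ : (Fin m ⊕ Fin m → F) →ₗ[F] (Fin n ⊕ Fin n → F) :=
    Fintype.linearCombination F (Sum.elim (fun i : Fin m => (a ^ (i : ℕ)) *ᵥ x) (fun i : Fin m => (a ^ (i : ℕ)) *ᵥ y)) with hΦ
  have hΦc : ∀ c, Φ c = aeval a (∑ j : Fin m, C (c (Sum.inl j)) * X ^ (j : ℕ) : F[X]) *ᵥ x +
      aeval a (∑ j : Fin m, C (c (Sum.inr j)) * X ^ (j : ℕ) : F[X]) *ᵥ y := by
    intro c
    rw [aeval_poly_of_fn (fun j => c (Sum.inl j)), aeval_poly_of_fn (fun j => c (Sum.inr j)), hΦ,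
      Fintype.linearCombination_apply, Fintype.sum_sum_type, Matrix.sum_mulVec, Matrix.sum_mulVec]
    congr 1
    · refine Finset.sum_congr rfl fun j _ => ?_
      rw [Matrix.smul_mulVec]; rfl
    · refine Finset.sum_congr rfl fun j _ => ?_
      rw [Matrix.smul_mulVec]; rfl
  refine ⟨Φ, ?_, fun c => ⟨_, _, hΦc c⟩⟩
  rw [injective_iff_map_eq_zero]
  intro c hc
  rw [hΦc] at hc
  obtain ⟨h1, h2⟩ := pair_zero n m a ha ham x y hxy _ _ hc
  funext i
  rcases i with i | i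
  · rw [← poly_of_fn_coeff (fun j => c (Sum.inl j)) i]; exact h1 _ i.2
  · rw [← poly_of_fn_coeff (fun j => c (Sum.inr j)) i]; exact h2 _ i.2

theorem symp_nil [CharZero F] (n : ℕ) (a : Matrix (Fin n ⊕ Fin n) (Fin n ⊕ Fin n) F) (ha : sympInv F n a = a)
    (hnil : IsNilpotent a) : a ^ n = 0 := by
  classical
  by_contra hne
  have hex : ∃ m, a ^ m = 0 := hnil
  set m := Nat.find hex with hm
  have hm0 : a ^ m = 0 := Nat.find_spec hex
  have hmn : n < m := by
    by_contra h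
    apply hne
    have : a ^ n = a ^ (m + (n - m)) := by congr 1; omega
    rw [this, pow_add, hm0, zero_mul]
  have hm1 : a ^ (m - 1) ≠ 0 := Nat.find_min hex (by omega)
  obtain ⟨x, y, hxy⟩ := symp_pair n _ hm1
  obtain ⟨Φ, hΦ, -⟩ := symp_map n m a ha hm0 x y hxy
  have := LinearMap.finrank_le_finrank_of_injective hΦ
  simp at this
  omega

theorem symp_comm [CharZero F] (n : ℕ) (a : Matrix (Fin n ⊕ Fin n) (Fin n ⊕ Fin n) F) (ha : sympInv F n a = a)
    (han : a ^ n = 0) (hr : a ^ (n - 1) ≠ 0) (z : Matrix (Fin n ⊕ Fin n) (Fin n ⊕ Fin n) F)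
    (hz : sympInv F n z = z) (haz : a * z = z * a) : ∃ P : F[X], z = aeval a P := by
  obtain ⟨x, y, hxy⟩ := symp_pair n _ hr
  obtain ⟨Φ, hΦ, hΦc⟩ := symp_map n n a ha han x y hxy
  have hyx : y ⬝ᵥ (Matrix.J (Fin n) F * a ^ (n - 1)) *ᵥ x ≠ 0 := by
    intro h0
    apply hxy
    rw [skew_form n _ (symp_pow n a ha _), h0, neg_zero]
  have hsurj : Function.Surjective Φ :=
    (LinearMap.injective_iff_surjective_of_finrank_eq_finrank rfl).1 hΦ
  have hcomm : ∀ Q : F[X], aeval a Q * z = z * aeval a Q := fun Q => aeval_comm_of_comm a z haz Q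
  -- `z` times powers
  have hfix : ∀ Q : F[X], sympInv F n (z * aeval a Q) = z * aeval a Q := by
    intro Q
    rw [sympInv_mul, hz, symp_aeval n a ha, hcomm]
  have hspan : ∀ v, ∃ P Q : F[X], v = aeval a P *ᵥ x + aeval a Q *ᵥ y := by
    intro v
    obtain ⟨c, hc⟩ := hsurj v
    obtain ⟨P, Q, h⟩ := hΦc c
    exact ⟨P, Q, by rw [← hc, h]⟩
  obtain ⟨p, q, hzx⟩ := hspan (z *ᵥ x)
  obtain ⟨r, t, hzy⟩ := hspan (z *ᵥ y)
  -- `q (a) = 0`
  have hq : aeval a q = 0 := by
    rcases low_coeff a n han q with h1 | ⟨j, c, hc, h1⟩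
    · exact aeval_low a n han q h1
    · exfalso
      have h2 := skew_self n _ (hfix (X ^ j)) x
      rw [← hcomm, ← Matrix.mulVec_mulVec, ← Matrix.mulVec_mulVec, hzx, Matrix.mulVec_add, Matrix.mulVec_mulVec,
        Matrix.mulVec_mulVec, Matrix.mulVec_add, dotProduct_add, Matrix.mulVec_mulVec, Matrix.mulVec_mulVec,
        ← map_mul, skew_self n _ (symp_aeval n a ha _), zero_add, map_pow, aeval_X, h1, mul_smul_comm,
        Matrix.smul_mulVec, dotProduct_smul] at h2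
      exact hxy ((smul_eq_zero.mp h2).resolve_left hc)
  have hr0 : aeval a r = 0 := by
    rcases low_coeff a n han r with h1 | ⟨j, c, hc, h1⟩
    · exact aeval_low a n han r h1
    · exfalso
      have h2 := skew_self n _ (hfix (X ^ j)) y
      rw [← hcomm, ← Matrix.mulVec_mulVec, ← Matrix.mulVec_mulVec, hzy, Matrix.mulVec_add, Matrix.mulVec_mulVec,
        Matrix.mulVec_mulVec, Matrix.mulVec_add, dotProduct_add, Matrix.mulVec_mulVec, Matrix.mulVec_mulVec,
        ← map_mul _ _ t, skew_self n _ (symp_aeval n a ha _), add_zero, map_pow, aeval_X, h1, mul_smul_comm,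
        Matrix.smul_mulVec, dotProduct_smul] at h2
      exact hyx ((smul_eq_zero.mp h2).resolve_left hc)
  rw [hq, Matrix.zero_mulVec, add_zero] at hzx
  rw [hr0, Matrix.zero_mulVec, zero_add] at hzy
  -- `t (a) = p (a)`
  have htp : aeval a (t - p) = 0 := by
    rcases low_coeff a n han (t - p) with h1 | ⟨j, c, hc, h1⟩
    · exact aeval_low a n han _ h1
    · exfalso
      have h2 := skew_form n _ (hfix (X ^ j)) x y
      have h3 : x ⬝ᵥ (Matrix.J (Fin n) F * (z * aeval a (X ^ j : F[X]))) *ᵥ y =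
          x ⬝ᵥ (Matrix.J (Fin n) F * aeval a (X ^ j * t)) *ᵥ y := by
        rw [← hcomm, ← Matrix.mulVec_mulVec, ← Matrix.mulVec_mulVec, hzy, Matrix.mulVec_mulVec,
          Matrix.mulVec_mulVec, mul_assoc, ← map_mul]
      have h4 : y ⬝ᵥ (Matrix.J (Fin n) F * (z * aeval a (X ^ j : F[X]))) *ᵥ x =
          y ⬝ᵥ (Matrix.J (Fin n) F * aeval a (X ^ j * p)) *ᵥ x := by
        rw [← hcomm, ← Matrix.mulVec_mulVec, ← Matrix.mulVec_mulVec, hzx, Matrix.mulVec_mulVec,
          Matrix.mulVec_mulVec, mul_assoc, ← map_mul]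
      rw [h3, h4, ← skew_form n _ (symp_aeval n a ha _)] at h2
      have h5 : x ⬝ᵥ (Matrix.J (Fin n) F * (a ^ j * aeval a (t - p))) *ᵥ y = 0 := by
        have e : a ^ j * aeval a (t - p) = aeval a (X ^ j * t) - aeval a (X ^ j * p) := by
          simp [mul_sub]
        rw [e, Matrix.mul_sub, Matrix.sub_mulVec, dotProduct_sub, h2, sub_self]
      rw [h1, mul_smul_comm, Matrix.smul_mulVec, dotProduct_smul] at h5
      exact hxy ((smul_eq_zero.mp h5).resolve_left hc)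
  have htp' : aeval a t = aeval a p := by rwa [map_sub, sub_eq_zero] at htp
  rw [htp'] at hzy
  refine ⟨p, ?_⟩
  have key : ∀ v, z *ᵥ v = aeval a p *ᵥ v := by
    intro v
    obtain ⟨P, Q, rfl⟩ := hspan v
    rw [Matrix.mulVec_add, Matrix.mulVec_add, Matrix.mulVec_mulVec, Matrix.mulVec_mulVec, ← hcomm, ← hcomm,
      ← Matrix.mulVec_mulVec, ← Matrix.mulVec_mulVec, hzx, hzy, Matrix.mulVec_mulVec, Matrix.mulVec_mulVec,
      Matrix.mulVec_mulVec, Matrix.mulVec_mulVec, ← map_mul, ← map_mul, ← map_mul, ← map_mul, mul_comm P, mul_comm Q]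
  ext i j
  have := congrFun (key (Pi.single j 1)) i
  simpa using this

end mat

end JRB
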