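import Mathlib
import Pool.Agent.H502.JRBMat
open Polynomial Matrix

namespace JRB

section lower

set_option linter.unusedSectionVars false

variable {F : Type*} [Field F] [CharZero F] (m : ℕ)

/-- auxiliary nilpotent matrix -/
def dmat (F : Type*) [Field F] (m : ℕ) : Matrix (Fin (m + 1)) (Fin (m + 1)) F :=
  Matrix.of fun i j => if (j : ℕ) = i + 1 then -((m - i : ℕ) : F) else 0

theorem d_mul_castSucc (b : Matrix (Fin (m + 1)) (Fin (m + 1)) F) (r : Fin m) (k : Fin (m + 1)) :
    (dmat F m * b) r.castSucc k = -((m - r : ℕ) : F) * b r.succ k := by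
  rw [Matrix.mul_apply, Finset.sum_eq_single r.succ]
  · simp [dmat]
  · intro j _ hj
    have : ¬ ((j : ℕ) = r + 1) := fun h => hj (Fin.ext (by simpa using h))
    simp [dmat, this]
  · intro h; exact absurd (Finset.mem_univ _) h

theorem d_mul_last (b : Matrix (Fin (m + 1)) (Fin (m + 1)) F) (k : Fin (m + 1)) :
    (dmat F m * b) (Fin.last m) k = 0 := by
  rw [Matrix.mul_apply]
  refine Finset.sum_eq_zero fun j _ => ?_
  have : ¬ ((j : ℕ) = m + 1) := by have := j.2; omega
  simp [dmat, this]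

theorem mul_d_succ (b : Matrix (Fin (m + 1)) (Fin (m + 1)) F) (i : Fin (m + 1)) (k : Fin m) :
    (b * dmat F m) i k.succ = -((m - k : ℕ) : F) * b i k.castSucc := by
  rw [Matrix.mul_apply, Finset.sum_eq_single k.castSucc]
  · simp [dmat, mul_comm]
  · intro j _ hj
    have : ¬ ((k : ℕ) = j) := fun h => hj (Fin.ext (by simpa using h.symm))
    simp [dmat, this]
  · intro h; exact absurd (Finset.mem_univ _) h

/-- the map `Θ` -/
def Theta (F : Type*) [Field F] (m : ℕ) :
    Matrix (Fin (m + 1)) (Fin (m + 1)) F →ₗ[F] Matrix (Fin (m + 1)) (Fin (m + 1)) F where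
  toFun b := Matrix.of fun i k => if k = 0 then b 0 i else (dmat F m * b - b * dmat F m) i k
  map_add' b c := by
    ext i k
    by_cases h : k = 0
    · simp [h]
    · simp only [Matrix.of_apply, h, if_false, Matrix.add_apply, Matrix.mul_add, Matrix.add_mul, Matrix.sub_apply]
      ring
  map_smul' t b := by
    ext i k
    by_cases h : k = 0
    · simp [h]
    · simp [h, mul_sub]

theorem Theta_zero (b : Matrix (Fin (m + 1)) (Fin (m + 1)) F) (i : Fin (m + 1)) : Theta F m b i 0 = b 0 i := by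
  simp [Theta]

theorem Theta_ne (b : Matrix (Fin (m + 1)) (Fin (m + 1)) F) (i k : Fin (m + 1)) (hk : k ≠ 0) :
    Theta F m b i k = (dmat F m * b - b * dmat F m) i k := by
  simp [Theta, hk]

theorem Theta_inj : Function.Injective (Theta F m) := by
  rw [injective_iff_map_eq_zero]
  intro b hb
  have h0 : ∀ k, b 0 k = 0 := fun k => by
    rw [← Theta_zero m b k, hb]; rfl
  have h1 : ∀ (i : Fin (m + 1)) (k : Fin m), (dmat F m * b - b * dmat F m) i k.succ = 0 := fun i k => by
    rw [← Theta_ne m b i k.succ (Fin.succ_ne_zero k), hb]; rfl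
  have hne : ∀ r : Fin m, ((m - r : ℕ) : F) ≠ 0 := fun r => by
    have := r.2
    exact_mod_cast (by omega : m - (r : ℕ) ≠ 0)
  have h2 : ∀ r k : Fin m, ((m - r : ℕ) : F) * b r.succ k.succ = ((m - k : ℕ) : F) * b r.castSucc k.castSucc := by
    intro r k
    have := h1 r.castSucc k
    rw [Matrix.sub_apply, d_mul_castSucc, mul_d_succ] at this
    linear_combination -this
  have h3 : ∀ k : Fin m, b (Fin.last m) k.castSucc = 0 := by
    intro k
    have := h1 (Fin.last m) k
    rw [Matrix.sub_apply, d_mul_last, mul_d_succ] at this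
    have h : ((m - k : ℕ) : F) * b (Fin.last m) k.castSucc = 0 := by linear_combination this
    exact (mul_eq_zero.mp h).resolve_left (hne k)
  have h4 : ∀ (i : ℕ) (hi : i < m + 1) (k : ℕ) (hk : k < m + 1), i ≤ k → b ⟨i, hi⟩ ⟨k, hk⟩ = 0 := by
    intro i
    induction i with
    | zero => intro hi k hk _; exact h0 _
    | succ i ih =>
      intro hi k hk hik
      obtain ⟨k', rfl⟩ : ∃ k', k = k' + 1 := ⟨k - 1, by omega⟩
      have h := h2 ⟨i, by omega⟩ ⟨k', by omega⟩
      have h5 : b (Fin.castSucc ⟨i, by omega⟩) (Fin.castSucc ⟨k', by omega⟩) = 0 := ih (by omega) k' (by omega) (by omega)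
      rw [h5, mul_zero] at h
      exact (mul_eq_zero.mp h).resolve_left (hne _)
  have h5 : ∀ (j i : ℕ) (hi : i < m + 1), m ≤ i + j → ∀ (k : ℕ) (hk : k < m + 1), b ⟨i, hi⟩ ⟨k, hk⟩ = 0 := by
    intro j
    induction j with
    | zero =>
      intro i hi hij k hk
      have : i = m := by omega
      subst this
      rcases Nat.lt_or_ge k i with h | h
      · exact h3 ⟨k, h⟩
      · exact h4 i hi k hk h
    | succ j ih =>
      intro i hi hij k hk
      rcases Nat.lt_or_ge k i with h | h
      · rcases Nat.lt_or_ge i m with h' | h'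
        · have h6 := h2 ⟨i, h'⟩ ⟨k, by omega⟩
          have h7 : b (Fin.succ ⟨i, h'⟩) (Fin.succ ⟨k, by omega⟩) = 0 := ih (i + 1) (by omega) (by omega) (k + 1) (by omega)
          rw [h7, mul_zero] at h6
          exact (mul_eq_zero.mp h6.symm).resolve_left (hne _)
        · exact ih i hi (by omega) k hk
      · exact h4 i hi k hk h
  ext i k
  exact h5 m i i.2 (by omega) k k.2

/-- `Θ` as a linear equivalence -/
noncomputable def ThetaEquiv (F : Type*) [Field F] [CharZero F] (m : ℕ) :
    Matrix (Fin (m + 1)) (Fin (m + 1)) F ≃ₗ[F] Matrix (Fin (m + 1)) (Fin (m + 1)) F :=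
  LinearEquiv.ofInjectiveEndo (Theta F m) (Theta_inj m)

/-- zero out column `0` -/
def colz (F : Type*) [Field F] (m : ℕ) :
    Matrix (Fin (m + 1)) (Fin (m + 1)) F →ₗ[F] Matrix (Fin (m + 1)) (Fin (m + 1)) F where
  toFun y := Matrix.of fun i k => if k = 0 then 0 else y i k
  map_add' b c := by
    ext i k
    by_cases h : k = 0 <;> simp [h]
  map_smul' t b := by
    ext i k
    by_cases h : k = 0 <;> simp [h]

/-- the Rota-Baxter operator -/
noncomputable def Nop (F : Type*) [Field F] [CharZero F] (m : ℕ) :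
    Matrix (Fin (m + 1)) (Fin (m + 1)) F →ₗ[F] Matrix (Fin (m + 1)) (Fin (m + 1)) F :=
  (ThetaEquiv F m).symm.toLinearMap ∘ₗ colz F m

theorem Nop_spec (y b : Matrix (Fin (m + 1)) (Fin (m + 1)) F) :
    Nop F m y = b ↔ (∀ k, b 0 k = 0) ∧ ∀ i k, k ≠ 0 → (dmat F m * b - b * dmat F m) i k = y i k := by
  have h1 : Nop F m y = b ↔ colz F m y = Theta F m b := by
    show (ThetaEquiv F m).symm (colz F m y) = b ↔ _
    rw [LinearEquiv.symm_apply_eq]; rfl
  rw [h1]
  constructor
  · intro h
    constructor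
    · intro k
      rw [← Theta_zero m b k, ← h]; simp [colz]
    · intro i k hk
      rw [← Theta_ne m b i k hk, ← h]; simp [colz, hk]
  · rintro ⟨h2, h3⟩
    ext i k
    by_cases hk : k = 0
    · subst hk
      rw [Theta_zero, h2]; simp [colz]
    · rw [Theta_ne m b i k hk, h3 i k hk]; simp [colz, hk]

theorem Nop_row (y : Matrix (Fin (m + 1)) (Fin (m + 1)) F) (k : Fin (m + 1)) : Nop F m y 0 k = 0 :=
  ((Nop_spec m y _).1 rfl).1 k

theorem Nop_D (y : Matrix (Fin (m + 1)) (Fin (m + 1)) F) (i k : Fin (m + 1)) (hk : k ≠ 0) :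
    (dmat F m * Nop F m y - Nop F m y * dmat F m) i k = y i k :=
  ((Nop_spec m y _).1 rfl).2 i k hk

theorem Nop_assoc (x y : Matrix (Fin (m + 1)) (Fin (m + 1)) F) :
    Nop F m (Nop F m x * y + x * Nop F m y) = Nop F m x * Nop F m y := by
  rw [Nop_spec]
  constructor
  · intro k
    rw [Matrix.mul_apply]
    refine Finset.sum_eq_zero fun j _ => ?_
    rw [Nop_row, zero_mul]
  · intro i k hk
    have e : dmat F m * (Nop F m x * Nop F m y) - Nop F m x * Nop F m y * dmat F m =
        (dmat F m * Nop F m x - Nop F m x * dmat F m) * Nop F m y +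
        Nop F m x * (dmat F m * Nop F m y - Nop F m y * dmat F m) := by noncomm_ring
    rw [e, Matrix.add_apply, Matrix.add_apply, add_comm]
    congr 1
    · rw [Matrix.mul_apply, Matrix.mul_apply]
      refine Finset.sum_congr rfl fun j _ => ?_
      rw [Nop_D m y j k hk]
    · rw [Matrix.mul_apply, Matrix.mul_apply]
      refine Finset.sum_congr rfl fun j _ => ?_
      by_cases hj : j = 0
      · subst hj; rw [Nop_row, mul_zero, mul_zero]
      · rw [Nop_D m x i j hj]

theorem Nop_RB : IsRB F (jmul F) (Nop F m) := by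
  intro x y
  unfold jmul
  rw [← Nop_assoc, ← Nop_assoc, ← map_add, ← LinearMap.map_smul]
  congr 1
  rw [← smul_add]
  congr 1
  abel

theorem Nop_single (r : Fin m) :
    Nop F m (Matrix.single r.castSucc (Fin.last m) 1) =
      (-((m - r : ℕ) : F)⁻¹) • Matrix.single r.succ (Fin.last m) (1 : F) := by
  have hne : ((m - r : ℕ) : F) ≠ 0 := by
    have := r.2
    exact_mod_cast (by omega : m - (r : ℕ) ≠ 0)
  rw [Nop_spec]
  constructor
  · intro k
    rw [Matrix.smul_apply, Matrix.single_apply_of_row_ne (Fin.succ_ne_zero r), smul_zero]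
  · intro i k hk
    obtain ⟨k', rfl⟩ := Fin.exists_succ_eq.2 hk
    rw [Matrix.sub_apply, mul_d_succ, Matrix.smul_apply,
      Matrix.single_apply_of_col_ne _ _ (Fin.castSucc_lt_last k').ne', smul_zero, mul_zero, sub_zero]
    rcases Fin.eq_castSucc_or_eq_last i with ⟨i', rfl⟩ | rfl
    · rw [d_mul_castSucc, Matrix.smul_apply]
      by_cases hir : r = i'
      · subst hir
        rw [Matrix.single_apply, Matrix.single_apply]
        by_cases hkl : Fin.last m = k'.succ
        · rw [if_pos ⟨rfl, hkl⟩, if_pos ⟨rfl, hkl⟩, smul_eq_mul, mul_one, neg_mul_neg, mul_inv_cancel₀ hne]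
        · simp [hkl]
      · rw [Matrix.single_apply_of_row_ne (by simpa using hir), Matrix.single_apply_of_row_ne (by simpa using hir)]
        simp
    · rw [d_mul_last, Matrix.single_apply_of_row_ne (Fin.castSucc_lt_last r).ne]

theorem Nop_pow_single (k : ℕ) (hk : k < m + 1) : ∃ c : F, c ≠ 0 ∧
    ((Nop F m) ^ k) (Matrix.single 0 (Fin.last m) 1) = c • Matrix.single ⟨k, hk⟩ (Fin.last m) (1 : F) := by
  induction k with
  | zero => exact ⟨1, one_ne_zero, by simp⟩
  | succ k ih =>
    obtain ⟨c, hc, h⟩ := ih (by omega)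
    have hne : ((m - k : ℕ) : F) ≠ 0 := by
      exact_mod_cast (by omega : m - k ≠ 0)
    refine ⟨c * (-((m - k : ℕ) : F)⁻¹), mul_ne_zero hc (neg_ne_zero.2 (inv_ne_zero hne)), ?_⟩
    rw [pow_succ', Module.End.mul_apply, h, LinearMap.map_smul]
    have := Nop_single (F := F) m ⟨k, by omega⟩
    rw [show (⟨k, by omega⟩ : Fin (m + 1)) = Fin.castSucc ⟨k, by omega⟩ from rfl, this, smul_smul]
    rfl

theorem Nop_last (y : Matrix (Fin (m + 1)) (Fin (m + 1)) F) (k : Fin m) :
    Nop F m y (Fin.last m) k.castSucc = ((m - k : ℕ) : F)⁻¹ * y (Fin.last m) k.succ := by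
  have hne : ((m - k : ℕ) : F) ≠ 0 := by
    have := k.2
    exact_mod_cast (by omega : m - (k : ℕ) ≠ 0)
  have h := Nop_D m y (Fin.last m) k.succ (Fin.succ_ne_zero k)
  rw [Matrix.sub_apply, d_mul_last, mul_d_succ] at h
  rw [← h]
  field_simp
  ring

theorem Nop_pow_last (k : ℕ) (hk : k ≤ m) : 
    ((Nop F m) ^ k) (Matrix.single (Fin.last m) (Fin.last m) 1) (Fin.last m) ⟨m - k, by omega⟩ ≠ 0 := by
  induction k with
  | zero =>
    have : (⟨m - 0, by omega⟩ : Fin (m + 1)) = Fin.last m := by ext; simp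
    rw [this]; simp
  | succ k ih =>
    rw [pow_succ', Module.End.mul_apply]
    have e : (⟨m - (k + 1), by omega⟩ : Fin (m + 1)) = Fin.castSucc ⟨m - (k + 1), by omega⟩ := rfl
    rw [e, Nop_last]
    have e2 : Fin.succ (⟨m - (k + 1), by omega⟩ : Fin m) = ⟨m - k, by omega⟩ := by
      ext; simp; omega
    rw [e2]
    refine mul_ne_zero (inv_ne_zero ?_) (ih (by omega))
    have : m - (m - (k + 1)) ≠ 0 := by omega
    exact_mod_cast this

theorem Nop_pow_ne : (Nop F m) ^ (2 * m) ≠ 0 := by
  intro h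
  obtain ⟨c, hc, h1⟩ := Nop_pow_single (F := F) m m (by omega)
  have h2 := Nop_pow_last (F := F) m m le_rfl
  apply h2
  have h3 : ((Nop F m) ^ (2 * m)) (Matrix.single 0 (Fin.last m) 1) = 0 := by rw [h]; rfl
  rw [two_mul, pow_add, Module.End.mul_apply, h1, LinearMap.map_smul] at h3
  have h4 := (smul_eq_zero.mp h3).resolve_left hc
  have e : (⟨m, by omega⟩ : Fin (m + 1)) = Fin.last m := rfl
  rw [e] at h4
  rw [h4]; rfl

end lower

end JRB
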