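import Mathlib
import Pool.Agent.H502.JRBLower
open Polynomial Matrix

namespace JRB

section final

set_option linter.unusedSectionVars false

variable {F : Type*} [Field F] [CharZero F]

/-- upper left block -/
def tl (F : Type*) [Field F] (n : ℕ) : Matrix (Fin n ⊕ Fin n) (Fin n ⊕ Fin n) F →ₗ[F] Matrix (Fin n) (Fin n) F where
  toFun X := X.toBlocks₁₁
  map_add' _ _ := rfl
  map_smul' _ _ := rfl

/-- `P ↦ diag (P, Pᵀ)` -/
def dg (F : Type*) [Field F] (n : ℕ) : Matrix (Fin n) (Fin n) F →ₗ[F] Matrix (Fin n ⊕ Fin n) (Fin n ⊕ Fin n) F where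
  toFun P := Matrix.fromBlocks P 0 0 Pᵀ
  map_add' P R := by rw [Matrix.transpose_add, Matrix.fromBlocks_add, add_zero]
  map_smul' c P := by rw [Matrix.transpose_smul, RingHom.id_apply, Matrix.fromBlocks_smul, smul_zero]

theorem tl_dg (n : ℕ) (P : Matrix (Fin n) (Fin n) F) : tl F n (dg F n P) = P :=
  Matrix.toBlocks_fromBlocks₁₁ _ _ _ _

theorem symp_dg (n : ℕ) (P : Matrix (Fin n) (Fin n) F) :
    sympInv F n (dg F n P) = dg F n P := by
  show -(Matrix.J (Fin n) F * (Matrix.fromBlocks P 0 0 Pᵀ)ᵀ * Matrix.J (Fin n) F) = Matrix.fromBlocks P 0 0 Pᵀ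
  rw [Matrix.J, Matrix.fromBlocks_transpose, Matrix.fromBlocks_multiply, Matrix.fromBlocks_multiply,
    Matrix.fromBlocks_neg]
  simp

theorem block_mul (n : ℕ) (P : Matrix (Fin n) (Fin n) F) (Y : Matrix (Fin n ⊕ Fin n) (Fin n ⊕ Fin n) F) :
    tl F n (jmul F (dg F n P) Y) = jmul F P (tl F n Y) := by
  obtain ⟨A, B, C, D, rfl⟩ : ∃ A B C D, Y = Matrix.fromBlocks A B C D :=
    ⟨_, _, _, _, (Matrix.fromBlocks_toBlocks Y).symm⟩
  show Matrix.toBlocks₁₁ (jmul F (Matrix.fromBlocks P 0 0 Pᵀ) (Matrix.fromBlocks A B C D)) =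
    jmul F P (Matrix.toBlocks₁₁ (Matrix.fromBlocks A B C D))
  rw [jmul, Matrix.fromBlocks_multiply, Matrix.fromBlocks_multiply, Matrix.fromBlocks_add, Matrix.fromBlocks_smul,
    Matrix.toBlocks_fromBlocks₁₁, Matrix.toBlocks_fromBlocks₁₁]
  simp [jmul]

theorem block_diag_mul (n : ℕ) (P R : Matrix (Fin n) (Fin n) F) :
    jmul F (dg F n P) (dg F n R) = dg F n (jmul F P R) := by
  show jmul F (Matrix.fromBlocks P 0 0 Pᵀ) (Matrix.fromBlocks R 0 0 Rᵀ) =
    Matrix.fromBlocks (jmul F P R) 0 0 (jmul F P R)ᵀ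
  rw [jmul, Matrix.fromBlocks_multiply, Matrix.fromBlocks_multiply, Matrix.fromBlocks_add, Matrix.fromBlocks_smul]
  simp [jmul, add_comm]

/-- the operator on `H_n(Q)` induced by an operator on `M_n(F)` -/
def NQ (n : ℕ) (N : Matrix (Fin n) (Fin n) F →ₗ[F] Matrix (Fin n) (Fin n) F) :
    Herm (sympInv F n) →ₗ[F] Herm (sympInv F n) :=
  LinearMap.codRestrict (Herm (sympInv F n)) (dg F n ∘ₗ N ∘ₗ tl F n ∘ₗ (Herm (sympInv F n)).subtype)
    (fun X => symp_dg n (N (tl F n X.1)))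

theorem NQ_coe (n : ℕ) (N : Matrix (Fin n) (Fin n) F →ₗ[F] Matrix (Fin n) (Fin n) F) (X : Herm (sympInv F n)) :
    (NQ n N X).1 = dg F n (N (tl F n X.1)) := rfl

theorem hermMul_coe {A : Type*} [Ring A] [Algebra F A] (τ : A →ₗ[F] A) (hτ : ∀ x y, τ (x * y) = τ y * τ x)
    (x y : Herm τ) : (hermMul τ hτ x y).1 = jmul F x.1 y.1 := rfl

theorem NQ_RB (n : ℕ) (N : Matrix (Fin n) (Fin n) F →ₗ[F] Matrix (Fin n) (Fin n) F) (hN : IsRB F (jmul F) N) :
    IsRB F (hermMul (sympInv F n) (sympInv_mul n)) (NQ n N) := by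
  intro X Y
  apply Subtype.ext
  rw [hermMul_coe, NQ_coe, NQ_coe, NQ_coe, block_diag_mul, Submodule.coe_add, hermMul_coe, hermMul_coe, NQ_coe, NQ_coe,
    map_add, block_mul, jmul_comm' X.1, block_mul, jmul_comm' (N (tl F n Y.1)), ← hN]

theorem NQ_pow (n : ℕ) (N : Matrix (Fin n) (Fin n) F →ₗ[F] Matrix (Fin n) (Fin n) F) (k : ℕ) (X : Herm (sympInv F n)) :
    tl F n (((NQ n N) ^ k) X).1 = (N ^ k) (tl F n X.1) := by
  induction k with
  | zero => simp
  | succ k ih =>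
    rw [pow_succ', Module.End.mul_apply, NQ_coe, tl_dg, ih, pow_succ', Module.End.mul_apply]

theorem NQ_pow_ne (n : ℕ) (N : Matrix (Fin n) (Fin n) F →ₗ[F] Matrix (Fin n) (Fin n) F) (k : ℕ) (hk : N ^ k ≠ 0) :
    (NQ n N) ^ k ≠ 0 := by
  intro h
  apply hk
  ext P : 1
  have h1 := NQ_pow n N k ⟨_, symp_dg n P⟩
  rw [h] at h1
  have h2 : tl F n (⟨dg F n P, symp_dg n P⟩ : Herm (sympInv F n)).1 = P := tl_dg n P
  rw [h2] at h1
  rw [← h1]
  exact map_zero (tl F n)

/-- `2n - 1` bound for `M_n(F)^+` -/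
theorem upper_M (n : ℕ) (hn : 1 ≤ n) (N : Matrix (Fin n) (Fin n) F →ₗ[F] Matrix (Fin n) (Fin n) F)
    (hN : IsRB F (jmul F) N) : N ^ (2 * n - 1) = 0 := by
  have ha : (N 1) ^ n = 0 := by
    have h := nilpotent_one N hN
    have h1 := Matrix.isNilpotent_charpoly_sub_pow_of_isNilpotent h
    rw [isNilpotent_iff_eq_zero, sub_eq_zero] at h1
    have h2 := Matrix.aeval_self_charpoly (N 1)
    rw [h1] at h2
    simpa using h2
  by_cases hr : (N 1) ^ (n - 1) = 0
  · have := general_bound N hN (n - 1) hr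
    have e : 2 * n - 1 = 1 + 2 * (n - 1) := by omega
    rw [e, pow_add, this, mul_zero]
  · refine thmT N hN n hn ha ?_
    intro y k hk1 hkn hc hz
    obtain ⟨P, rfl⟩ := comm_M n (by simp) _ ha hr y hc
    exact poly_case N hN n hn ha hr P k hz

theorem upper_Q (n : ℕ) (hn : 1 ≤ n) (N : Herm (sympInv F n) →ₗ[F] Herm (sympInv F n))
    (hN : IsRB F (hermMul (sympInv F n) (sympInv_mul n)) N) : N ^ (2 * n - 1) = 0 := by
  refine herm_bound (sympInv F n) (sympInv_mul n) (sympInv_inv n) n hn ?_ ?_ N hN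
  · intro a ha hnil
    exact symp_nil n a ha hnil
  · intro a ha han hr y hy hay
    exact symp_comm n a ha han hr y hy hay

/-- The transpose, as a linear map. -/
def transInv (F : Type*) [Field F] (n : ℕ) : Matrix (Fin n) (Fin n) F →ₗ[F] Matrix (Fin n) (Fin n) F where
  toFun x := xᵀ
  map_add' _ _ := Matrix.transpose_add _ _
  map_smul' _ _ := Matrix.transpose_smul _ _

theorem transInv_mul (n : ℕ) (x y : Matrix (Fin n) (Fin n) F) :
    transInv F n (x * y) = transInv F n y * transInv F n x := Matrix.transpose_mul _ _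

theorem upper_H (n : ℕ) (hn : 1 ≤ n) (N : Herm (transInv F n) →ₗ[F] Herm (transInv F n))
    (hN : IsRB F (hermMul (transInv F n) (transInv_mul n)) N) : N ^ (2 * n - 1) = 0 := by
  refine herm_bound (transInv F n) (transInv_mul n) (fun x => Matrix.transpose_transpose x) n hn ?_ ?_ N hN
  · intro a _ h
    have h1 := Matrix.isNilpotent_charpoly_sub_pow_of_isNilpotent h
    rw [isNilpotent_iff_eq_zero, sub_eq_zero] at h1
    have h2 := Matrix.aeval_self_charpoly a
    rw [h1] at h2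
    simpa using h2
  · intro a _ han hr y _ hay
    exact comm_M n (by simp) a han hr y hay

end final

end JRB
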