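import Pool.Agent.H502.NtDefs

set_option autoImplicit false

namespace Pool.Agent.H502.Nt

open Set Metric

/-- internal form of a normal tiling by convex tiles -/
structure NC (T : Set (Set ℂ)) (u U : ℝ) : Prop where
  upos : 0 < u
  closed : ∀ A ∈ T, IsClosed A
  conv : ∀ A ∈ T, Convex ℝ A
  cover : ∀ p : ℂ, ∃ A ∈ T, p ∈ A
  disj : ∀ A ∈ T, ∀ B ∈ T, A ≠ B → Disjoint (interior A) (interior B)
  inr : ∀ A ∈ T, ∃ c, closedBall c u ⊆ A
  outr : ∀ A ∈ T, ∃ c, A ⊆ closedBall c U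

def cross (a b : ℂ) : ℝ := a.re * b.im - a.im * b.re

def dot (a b : ℂ) : ℝ := a.re * b.re + a.im * b.im

/-- two tiles are adjacent if they share at least two points (hence a segment) -/
def Adj (A B : Set ℂ) : Prop := A ≠ B ∧ (A ∩ B).Nontrivial

/-- `q` is the final point of the common edge of `A` and `B` when this edge is traversed with `A` on the left -/
def Head (A B : Set ℂ) (q : ℂ) : Prop :=
  ∃ p, p ≠ q ∧ A ∩ B = segment ℝ p q ∧ ∀ z ∈ interior A, 0 < cross (q - p) (z - p)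

/-- `a` and `b` are joined by a walk inside `S` -/
def Jn {ι : Type} (adj : ι → ι → Prop) (S : Set ι) (a b : ι) : Prop :=
  a ∈ S ∧ Relation.ReflTransGen (fun x y => adj x y ∧ y ∈ S) a b

/-- `S` is connected in the graph `adj` -/
def Cn {ι : Type} (adj : ι → ι → Prop) (S : Set ι) : Prop := ∀ a ∈ S, ∀ b ∈ S, Jn adj S a b

namespace J26079

/-! ### TARGET of this job: jn_mem -/

theorem jn_mem {ι : Type} {adj : ι → ι → Prop} {S : Set ι} {a b : ι} (h : Jn adj S a b) : b ∈ S := by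
  obtain ⟨ha, h⟩ := h
  rcases Relation.ReflTransGen.cases_tail h with h | ⟨c, -, hc⟩
  · rw [h]; exact ha
  · exact hc.2

end J26079

alias jn_mem := J26079.jn_mem

namespace J26076

/-! ### TARGET of this job: jn_trans -/

theorem jn_trans {ι : Type} {adj : ι → ι → Prop} {S : Set ι} {a b c : ι} (h : Jn adj S a b)
    (h' : Jn adj S b c) : Jn adj S a c := by
  exact ⟨h.1, h.2.trans h'.2⟩

end J26076

alias jn_trans := J26076.jn_trans

namespace J26080

/-! ### TARGET of this job: jn_symm -/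

theorem jn_symm {ι : Type} {adj : ι → ι → Prop} {S : Set ι} {a b : ι}
    (hs : ∀ x y, adj x y → adj y x) (h : Jn adj S a b) : Jn adj S b a := by
  obtain ⟨ha, h⟩ := h
  have key : b ∈ S ∧ Relation.ReflTransGen (fun x y => adj x y ∧ y ∈ S) b a := by
    induction h with
    | refl => exact ⟨ha, Relation.ReflTransGen.refl⟩
    | tail _ hbc ih =>
      obtain ⟨hb, ih⟩ := ih
      exact ⟨hbc.2, Relation.ReflTransGen.head ⟨hs _ _ hbc.1, hb⟩ ih⟩
  exact key

end J26080

alias jn_symm := J26080.jn_symm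

namespace J26077

/-! ### TARGET of this job: jn_mono -/

theorem jn_mono {ι : Type} {adj : ι → ι → Prop} {S S' : Set ι} {a b : ι} (hS : S ⊆ S')
    (h : Jn adj S a b) : Jn adj S' a b := by
  refine ⟨hS h.1, ?_⟩
  obtain ⟨_, h2⟩ := h
  induction h2 with
  | refl => exact Relation.ReflTransGen.refl
  | tail _ hxy ih => exact ih.tail ⟨hxy.1, hS hxy.2⟩

end J26077

alias jn_mono := J26077.jn_mono

namespace J26075

/-! ### TARGET of this job: adj_symm -/

theorem adj_symm {A B : Set ℂ} (h : Adj A B) : Adj B A := by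
  refine ⟨h.1.symm, ?_⟩
  rw [Set.inter_comm]
  exact h.2

end J26075

alias adj_symm := J26075.adj_symm

namespace J26078

/-! ### TARGET of this job: nc_of_normal -/

theorem nc_of_normal (T : Set (Set ℂ)) (h : IsNormal T) (hc : ∀ A ∈ T, Convex ℝ A) :
    ∃ u U, NC T u U := by
  obtain ⟨u, U, hu, -, hb⟩ := h.bounded
  refine ⟨u, U, hu, h.tiling.closed, hc, ?_, h.tiling.disj, fun A hA => (hb A hA).1,
    fun A hA => (hb A hA).2⟩
  intro p
  have hp : p ∈ ⋃₀ T := by
    rw [h.tiling.cover]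
    exact mem_univ p
  exact mem_sUnion.1 hp

end J26078

alias nc_of_normal := J26078.nc_of_normal

namespace J26081

/-! ### TARGET of this job: normal_of_nc -/

theorem normal_of_nc {T : Set (Set ℂ)} {u U : ℝ} (h : NC T u U) : IsNormal T := by
  have hint : ∀ A ∈ T, (interior A).Nonempty := by
    intro A hA
    obtain ⟨c, hc⟩ := h.inr A hA
    exact ⟨c, interior_mono hc (ball_subset_interior_closedBall (mem_ball_self h.upos))⟩
  refine ⟨⟨?_, h.closed, ?_, h.disj⟩, ?_, ?_, ?_⟩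
  · refine Set.PairwiseDisjoint.countable_of_isOpen (s := fun A : Set ℂ => interior A) ?_
      (fun A _ => isOpen_interior) hint
    intro A hA B hB hAB
    exact h.disj A hA B hB hAB
  · rw [sUnion_eq_univ_iff]
    exact h.cover
  · intro A hA
    obtain ⟨c, hc⟩ := h.outr A hA
    obtain ⟨e, -, he, -⟩ := exists_homeomorph_image_interior_closure_frontier_eq_unitBall
      (h.conv A hA) (hint A hA) (isBounded_closedBall.subset hc)
    rw [(h.closed A hA).closure_eq] at he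
    exact ⟨(e.image A).trans (Homeomorph.setCongr he)⟩
  · intro A hA B hB _
    exact ((h.conv A hA).inter (h.conv B hB)).isPreconnected
  · refine ⟨u, max u U, h.upos, le_max_left _ _, fun A hA => ⟨h.inr A hA, ?_⟩⟩
    obtain ⟨c, hc⟩ := h.outr A hA
    exact ⟨c, hc.trans (closedBall_subset_closedBall (le_max_right _ _))⟩

end J26081

alias normal_of_nc := J26081.normal_of_nc

namespace J26082

/-! ### TARGET of this job: g_cl -/

theorem g_cl {T : Set (Set ℂ)} {u U : ℝ} (h : NC T u U) {A : Set ℂ} (hA : A ∈ T) :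
    closure (interior A) = A ∧ (interior A).Nonempty := by
  obtain ⟨c, hc⟩ := h.inr A hA
  have hne : (interior A).Nonempty :=
    ⟨c, interior_mono hc (ball_subset_interior_closedBall (mem_ball_self h.upos))⟩
  refine ⟨?_, hne⟩
  rw [(h.conv A hA).closure_interior_eq_closure_of_nonempty_interior hne,
    (h.closed A hA).closure_eq]

end J26082

alias g_cl := J26082.g_cl

namespace J26083

/-! ### TARGET of this job: g_locfin -/

theorem g_locfin_card {T : Set (Set ℂ)} {u U : ℝ} (h : NC T u U) (r : ℝ) (p : ℂ)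
    (F : Finset (Set ℂ)) (hF : (F : Set (Set ℂ)) ⊆ {A | A ∈ T ∧ (A ∩ closedBall p r).Nonempty}) :
    F.card ≤ ⌈(max (r + 2 * U) 0) ^ 2 / u ^ 2⌉₊ := by
  classical
  have hu := h.upos
  have hc : ∀ A : Set ℂ, ∃ c : ℂ, A ∈ T → closedBall c u ⊆ A := by
    intro A
    by_cases hA : A ∈ T
    · obtain ⟨c, hc⟩ := h.inr A hA
      exact ⟨c, fun _ => hc⟩
    · exact ⟨0, fun hA' => absurd hA' hA⟩
  choose c hc using hc
  have hint : ∀ A ∈ T, ball (c A) u ⊆ interior A := by
    intro A hA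
    exact interior_maximal (ball_subset_closedBall.trans (hc A hA)) isOpen_ball
  have hdisj : Set.PairwiseDisjoint (F : Set (Set ℂ)) (fun A => ball (c A) u) := by
    intro A hA B hB hAB
    exact (h.disj A (hF hA).1 B (hF hB).1 hAB).mono (hint A (hF hA).1) (hint B (hF hB).1)
  have hsub : (⋃ A ∈ F, ball (c A) u) ⊆ closedBall p (r + 2 * U) := by
    intro x hx
    rw [Set.mem_iUnion₂] at hx
    obtain ⟨A, hA, hx⟩ := hx
    have hAT := hF hA
    obtain ⟨q, hqA, hqp⟩ := hAT.2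
    obtain ⟨c', hc'⟩ := h.outr A hAT.1
    have hxA : x ∈ A := interior_subset (hint A hAT.1 hx)
    have h1 := hc' hxA
    have h2 := hc' hqA
    rw [mem_closedBall] at h1 h2 hqp ⊢
    have h3 := dist_triangle x c' p
    have h4 := dist_triangle c' q p
    rw [dist_comm c' q] at h4
    linarith
  have hvol := MeasureTheory.measure_mono (μ := MeasureTheory.volume) hsub
  rw [MeasureTheory.measure_biUnion_finset hdisj (fun A _ => measurableSet_ball)] at hvol
  simp only [Complex.volume_ball, Complex.volume_closedBall, Finset.sum_const, nsmul_eq_mul] at hvol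
  have hne : ENNReal.ofReal (r + 2 * U) ^ 2 * (NNReal.pi : ENNReal) ≠ ⊤ :=
    ENNReal.mul_ne_top (ENNReal.pow_ne_top ENNReal.ofReal_ne_top) ENNReal.coe_ne_top
  have hreal := ENNReal.toReal_mono hne hvol
  simp only [ENNReal.toReal_mul, ENNReal.toReal_pow, ENNReal.toReal_natCast,
    ENNReal.toReal_ofReal hu.le, ENNReal.coe_toReal, NNReal.coe_real_pi] at hreal
  have hmax : (ENNReal.ofReal (r + 2 * U)).toReal = max (r + 2 * U) 0 := by
    rw [ENNReal.ofReal, ENNReal.coe_toReal, Real.coe_toNNReal']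
  rw [hmax] at hreal
  have hpi := Real.pi_pos
  have h5 : (F.card : ℝ) * u ^ 2 ≤ (max (r + 2 * U) 0) ^ 2 := by
    have h6 : ((F.card : ℝ) * u ^ 2) * Real.pi ≤ ((max (r + 2 * U) 0) ^ 2) * Real.pi := by
      linarith
    exact le_of_mul_le_mul_right h6 hpi
  have h7 : (F.card : ℝ) ≤ (max (r + 2 * U) 0) ^ 2 / u ^ 2 := by
    rw [le_div_iff₀ (by positivity)]
    exact h5
  have h8 := h7.trans (Nat.le_ceil _)
  exact_mod_cast h8

theorem g_locfin {T : Set (Set ℂ)} {u U : ℝ} (h : NC T u U) (r : ℝ) :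
    ∃ N : ℕ, ∀ p : ℂ, {A | A ∈ T ∧ (A ∩ closedBall p r).Nonempty}.Finite ∧
      {A | A ∈ T ∧ (A ∩ closedBall p r).Nonempty}.ncard ≤ N := by
  refine ⟨⌈(max (r + 2 * U) 0) ^ 2 / u ^ 2⌉₊, ?_⟩
  intro p
  have hfin : {A | A ∈ T ∧ (A ∩ closedBall p r).Nonempty}.Finite := by
    by_contra hinf
    obtain ⟨F, hF, hcard⟩ := Set.Infinite.exists_subset_card_eq hinf
      (⌈(max (r + 2 * U) 0) ^ 2 / u ^ 2⌉₊ + 1)
    have := g_locfin_card h r p F hF
    omega
  refine ⟨hfin, ?_⟩
  rw [Set.ncard_eq_toFinset_card _ hfin]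
  apply g_locfin_card h r p
  rw [Set.Finite.coe_toFinset]

end J26083

alias g_locfin := J26083.g_locfin

namespace J26085

/-! ### TARGET of this job: g_count -/

theorem gc_side {A B : Set ℂ} (hA : Convex ℝ A) (hB : Convex ℝ B) {p q x y : ℂ}
    (hpA : p ∈ A) (hqA : q ∈ A) (hpB : p ∈ B) (hqB : q ∈ B)
    (hx : x ∈ interior A) (hy : y ∈ interior B)
    (hD : 0 < cross (q - p) (x - p)) (hE : 0 < cross (q - p) (y - p)) :
    (interior A ∩ interior B).Nonempty := by
  set D := cross (q - p) (x - p) with hDd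
  set E := cross (q - p) (y - p) with hEd
  set m : ℂ := (1 / 2 : ℝ) • p + (1 / 2 : ℝ) • q with hm
  set κ : ℝ := cross (x - m) (y - m) with hκ
  set ε : ℝ := 1 / (4 * (1 + D + E + |κ|)) with hε
  have habs : 0 ≤ |κ| := abs_nonneg _
  have hS : 0 < 4 * (1 + D + E + |κ|) := by positivity
  have hε0 : 0 < ε := by positivity
  have hεS : ε * (4 * (1 + D + E + |κ|)) = 1 := by
    rw [hε]; field_simp
  have h1 : ε * D ≤ 1 / 4 := by nlinarith [mul_pos hε0 hE, mul_nonneg hε0.le habs, mul_pos hε0 hD]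
  have h2 : ε * E ≤ 1 / 4 := by nlinarith [mul_pos hε0 hE, mul_nonneg hε0.le habs, mul_pos hε0 hD]
  have h3 : ε * |κ| ≤ 1 / 4 := by nlinarith [mul_pos hε0 hE, mul_nonneg hε0.le habs, mul_pos hε0 hD]
  have hmA : m ∈ A := hA hpA hqA (by norm_num) (by norm_num) (by norm_num)
  have hden : 0 < 1 - ε * D := by linarith
  set t : ℝ := ε * κ / (1 - ε * D) with ht
  have htt : t * (1 - ε * D) = ε * κ := by
    rw [ht]; field_simp
  have htabs : |t| ≤ 1 / 2 := by
    rw [ht, abs_div, abs_mul, abs_of_pos hε0, abs_of_pos hden, div_le_iff₀ hden]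
    linarith
  have ht1 := (abs_le.mp htabs).1
  have ht2 := (abs_le.mp htabs).2
  have hmB : (1 / 2 - t) • p + (1 / 2 + t) • q ∈ B :=
    hB hpB hqB (by linarith) (by linarith) (by ring)
  refine ⟨(1 - ε * E) • m + (ε * E) • x, ?_, ?_⟩
  · exact hA.combo_self_interior_mem_interior hmA hx (by linarith) (by positivity) (by ring)
  · have := hB.combo_self_interior_mem_interior hmB hy (a := 1 - ε * D) (b := ε * D)
      (by linarith) (by positivity) (by ring)
    convert this using 1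
    have key : E • (x - m) - D • (y - m) = κ • (q - p) := by
      rw [hκ, hEd, hDd, hm]
      unfold cross
      apply Complex.ext <;> simp <;> ring
    have e1 : (1 - ε * E) • m + (ε * E) • x = m + ε • (E • (x - m)) := by
      module
    have e2 : (1 - ε * D) • ((1 / 2 - t) • p + (1 / 2 + t) • q) + (ε * D) • y
        = m + (ε * D) • (y - m) + (t * (1 - ε * D)) • (q - p) := by
      rw [hm]
      module
    rw [e1, e2, htt]
    have e3 : E • (x - m) = D • (y - m) + κ • (q - p) := by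
      rw [← key]; abel
    rw [e3]
    module

theorem gc_off {A : Set ℂ} {p q : ℂ} (hpq : p ≠ q) (hA : (interior A).Nonempty) :
    ∃ x ∈ interior A, cross (q - p) (x - p) ≠ 0 := by
  obtain ⟨c, hc⟩ := hA
  by_cases h : cross (q - p) (c - p) = 0
  · obtain ⟨r, hr, hr2⟩ := Metric.isOpen_iff.mp isOpen_interior c hc
    have hv : q - p ≠ 0 := sub_ne_zero.mpr hpq.symm
    have hvn : 0 < ‖q - p‖ := norm_pos_iff.mpr hv
    obtain ⟨k, hk⟩ : ∃ k : ℝ, k = r / (2 * ‖q - p‖) := ⟨_, rfl⟩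
    have hk0 : 0 < k := by rw [hk]; positivity
    refine ⟨c + (k : ℂ) * (Complex.I * (q - p)), hr2 ?_, ?_⟩
    · rw [Metric.mem_ball, dist_eq_norm, add_sub_cancel_left, norm_mul, norm_mul, Complex.norm_I,
        Complex.norm_real, Real.norm_eq_abs, abs_of_pos hk0, hk]
      field_simp
      linarith
    · have : cross (q - p) (c + (k : ℂ) * (Complex.I * (q - p)) - p)
          = cross (q - p) (c - p) + k * ((q - p).re ^ 2 + (q - p).im ^ 2) := by
        unfold cross
        simp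
        ring
      rw [this, h, zero_add]
      have h2 : (q - p).re ^ 2 + (q - p).im ^ 2 = ‖q - p‖ ^ 2 := by
        rw [← Complex.normSq_eq_norm_sq, Complex.normSq_apply]; ring
      rw [h2]
      positivity
  · exact ⟨c, hc, h⟩

theorem gc_triple {T : Set (Set ℂ)} {u U : ℝ} (h : NC T u U) {A B C : Set ℂ} (hA : A ∈ T)
    (hB : B ∈ T) (hC : C ∈ T) (hAB : A ≠ B) (hAC : A ≠ C) (hBC : B ≠ C) {p q : ℂ}
    (hp : p ∈ A ∧ p ∈ B ∧ p ∈ C) (hq : q ∈ A ∧ q ∈ B ∧ q ∈ C) : p = q := by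
  by_contra hpq
  have hint : ∀ D ∈ T, (interior D).Nonempty := by
    intro D hD
    obtain ⟨c, hc⟩ := h.inr D hD
    exact ⟨c, interior_mono hc (by
      rw [interior_closedBall c h.upos.ne']
      exact mem_ball_self h.upos)⟩
  obtain ⟨x, hx, hx'⟩ := gc_off hpq (hint A hA)
  obtain ⟨y, hy, hy'⟩ := gc_off hpq (hint B hB)
  obtain ⟨z, hz, hz'⟩ := gc_off hpq (hint C hC)
  have sw : ∀ w : ℂ, cross (p - q) (w - q) = - cross (q - p) (w - p) := by
    intro w
    unfold cross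
    simp
    ring
  have key : ∀ A' B' : Set ℂ, A' ∈ T → B' ∈ T → A' ≠ B' → p ∈ A' → q ∈ A' → p ∈ B' → q ∈ B' →
      ∀ x' ∈ interior A', ∀ y' ∈ interior B',
      ¬ (0 < cross (q - p) (x' - p) * cross (q - p) (y' - p)) := by
    intro A' B' hA' hB' hne hpA hqA hpB hqB x' hx1 y' hy1 hpos
    have hd := h.disj A' hA' B' hB' hne
    rcases mul_pos_iff.mp hpos with ⟨h1, h2⟩ | ⟨h1, h2⟩
    · obtain ⟨w, hw⟩ := gc_side (h.conv A' hA') (h.conv B' hB') hpA hqA hpB hqB hx1 hy1 h1 h2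
      exact Set.disjoint_left.mp hd hw.1 hw.2
    · obtain ⟨w, hw⟩ := gc_side (h.conv A' hA') (h.conv B' hB') hqA hpA hqB hpB hx1 hy1
        (by rw [sw]; linarith) (by rw [sw]; linarith)
      exact Set.disjoint_left.mp hd hw.1 hw.2
  have k1 := key A B hA hB hAB hp.1 hq.1 hp.2.1 hq.2.1 x hx y hy
  have k2 := key A C hA hC hAC hp.1 hq.1 hp.2.2 hq.2.2 x hx z hz
  have k3 := key B C hB hC hBC hp.2.1 hq.2.1 hp.2.2 hq.2.2 y hy z hz
  rcases lt_or_gt_of_ne hx' with a1 | a1 <;> rcases lt_or_gt_of_ne hy' with a2 | a2 <;>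
    rcases lt_or_gt_of_ne hz' with a3 | a3
  all_goals first
    | exact k1 (mul_pos_of_neg_of_neg a1 a2)
    | exact k1 (mul_pos a1 a2)
    | exact k2 (mul_pos_of_neg_of_neg a1 a3)
    | exact k2 (mul_pos a1 a3)
    | exact k3 (mul_pos_of_neg_of_neg a2 a3)
    | exact k3 (mul_pos a2 a3)

theorem g_count {T : Set (Set ℂ)} {u U : ℝ} (h : NC T u U) :
    T.Countable ∧ {p | IsVertex T p}.Countable := by
  have hT : T.Countable := by
    have : T ⊆ ⋃ n : ℕ, {A | A ∈ T ∧ (A ∩ closedBall (0 : ℂ) (n : ℝ)).Nonempty} := by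
      intro A hA
      obtain ⟨c, hc⟩ := h.inr A hA
      have hcA : c ∈ A := hc (mem_closedBall_self h.upos.le)
      obtain ⟨n, hn⟩ := exists_nat_ge (dist c 0)
      exact mem_iUnion.mpr ⟨n, hA, c, hcA, mem_closedBall.mpr hn⟩
    refine Set.Countable.mono this (countable_iUnion fun n => ?_)
    obtain ⟨N, hN⟩ := g_locfin h (n : ℝ)
    exact (hN 0).1.countable
  refine ⟨hT, ?_⟩
  have hsub : {p | IsVertex T p} ⊆ ⋃ A ∈ T, ⋃ B ∈ T, ⋃ C ∈ T,
      {p : ℂ | A ≠ B ∧ A ≠ C ∧ B ≠ C ∧ p ∈ A ∧ p ∈ B ∧ p ∈ C} := by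
    rintro p ⟨A, hA, B, hB, C, hC, hp⟩
    simp only [mem_iUnion]
    exact ⟨A, hA, B, hB, C, hC, hp⟩
  refine Set.Countable.mono hsub ?_
  refine hT.biUnion fun A hA => hT.biUnion fun B hB => hT.biUnion fun C hC => ?_
  refine Set.Subsingleton.countable ?_
  rintro p ⟨h1, h2, h3, hp⟩ q ⟨-, -, -, hq⟩
  exact gc_triple h hA hB hC h1 h2 h3 hp hq

end J26085

alias g_count := J26085.g_count

namespace J26086

/-! ### TARGET of this job: g_int -/

theorem g_int {T : Set (Set ℂ)} {u U : ℝ} (h : NC T u U) {A B : Set ℂ} (hA : A ∈ T) (hB : B ∈ T)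
    {p : ℂ} (hp : p ∈ interior A) (hpB : p ∈ B) : B = A := by
  by_contra hne
  have h1 : p ∈ closure (interior B) := by
    rw [(g_cl h hB).1]; exact hpB
  rw [_root_.mem_closure_iff] at h1
  obtain ⟨q, hqA, hqB⟩ := h1 (interior A) isOpen_interior hp
  exact Set.disjoint_left.mp (h.disj B hB A hA hne) hqB hqA

end J26086

alias g_int := J26086.g_int

namespace J26084

/-! ### TARGET of this job: g_one -/

theorem g_one {T : Set (Set ℂ)} {u U : ℝ} (h : NC T u U) {A : Set ℂ} (hA : A ∈ T)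
    {p : ℂ} (h1 : ∀ B ∈ T, p ∈ B → B = A) : p ∈ interior A := by
  obtain ⟨N, hN⟩ := g_locfin h 1
  have hfin := (hN p).1
  have hfin' : ({B | B ∈ T ∧ (B ∩ closedBall p 1).Nonempty} \ {A}).Finite :=
    hfin.subset diff_subset
  have hcl : IsClosed (⋃₀ ({B | B ∈ T ∧ (B ∩ closedBall p 1).Nonempty} \ {A})) := by
    rw [sUnion_eq_biUnion]
    exact hfin'.isClosed_biUnion fun B hB => h.closed B hB.1.1
  have hp : p ∉ ⋃₀ ({B | B ∈ T ∧ (B ∩ closedBall p 1).Nonempty} \ {A}) := by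
    rintro ⟨B, ⟨⟨hBT, -⟩, hBA⟩, hpB⟩
    exact hBA (h1 B hBT hpB)
  rw [mem_interior_iff_mem_nhds]
  filter_upwards [hcl.isOpen_compl.mem_nhds hp, closedBall_mem_nhds p one_pos] with q hq hq1
  obtain ⟨B, hBT, hqB⟩ := h.cover q
  by_cases hBA : B = A
  · rw [← hBA]; exact hqB
  · exact absurd ⟨B, ⟨⟨hBT, ⟨q, hqB, hq1⟩⟩, hBA⟩, hqB⟩ hq

end J26084

alias g_one := J26084.g_one

namespace J26088

/-! ### TARGET of this job: g_two -/

theorem g_two_aux (A B : Set ℂ) (hA : IsClosed A) (f : ℂ →L[ℝ] ℝ) (p v : ℂ) (ε : ℝ)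
    (hv : f v < 0) (hcov : ∀ q, dist q p < ε → q ∈ A ∨ q ∈ B) (hB : ∀ q ∈ B, f p ≤ f q)
    (q : ℂ) (hq : dist q p < ε) (hfq : f q ≤ f p) : q ∈ A := by
  have htend : Filter.Tendsto (fun t : ℝ => q + (t : ℝ) • v) (nhdsWithin 0 (Ioi 0)) (nhds q) := by
    have h1 : Continuous (fun t : ℝ => q + t • v) := by fun_prop
    have h2 := h1.tendsto 0
    simp only [zero_smul, add_zero] at h2
    exact h2.mono_left nhdsWithin_le_nhds
  have hev : ∀ᶠ t : ℝ in nhdsWithin 0 (Ioi 0), q + t • v ∈ A := by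
    have h1 : ∀ᶠ t : ℝ in nhdsWithin 0 (Ioi 0), q + t • v ∈ ball p ε :=
      htend (isOpen_ball.mem_nhds (mem_ball.2 hq))
    have h2 : ∀ᶠ t : ℝ in nhdsWithin 0 (Ioi 0), (0:ℝ) < t := self_mem_nhdsWithin
    filter_upwards [h1, h2] with t ht1 ht2
    rcases hcov _ (mem_ball.1 ht1) with h | h
    · exact h
    · exfalso
      have h3 := hB _ h
      rw [map_add, map_smul, smul_eq_mul] at h3
      nlinarith [mul_neg_of_pos_of_neg ht2 hv]
  have : q ∈ closure A := mem_closure_of_tendsto htend hev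
  rwa [hA.closure_eq] at this

theorem g_two {T : Set (Set ℂ)} {u U : ℝ} (h : NC T u U) {A B : Set ℂ} (hA : A ∈ T) (hB : B ∈ T)
    (hne : A ≠ B) {p : ℂ} (hp : p ∈ A) (hpB : p ∈ B) (hv : ¬ IsVertex T p) :
    ∃ n : ℂ, n ≠ 0 ∧ ∃ ε > 0, (∀ q, dist q p < ε → (q ∈ A ↔ 0 ≤ cross n (q - p))) ∧
      (∀ q, dist q p < ε → (q ∈ B ↔ cross n (q - p) ≤ 0)) := by
  -- local covering
  obtain ⟨N, hN⟩ := g_locfin h 1
  have hfin := (hN p).1
  obtain ⟨F, hF⟩ : ∃ F : Set (Set ℂ), F = {C | C ∈ T ∧ (C ∩ closedBall p 1).Nonempty} \ {A, B} :=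
    ⟨_, rfl⟩
  have hFfin : F.Finite := by rw [hF]; exact hfin.subset diff_subset
  have hKcl : IsClosed (⋃₀ F) := by
    rw [sUnion_eq_biUnion]
    apply hFfin.isClosed_biUnion
    intro C hC
    rw [hF] at hC
    exact h.closed C hC.1.1
  have hpK : p ∉ ⋃₀ F := by
    rintro ⟨C, hC, hpC⟩
    rw [hF] at hC
    have h1 : ¬ (C = A ∨ C = B) := by
      intro hcon
      apply hC.2
      rcases hcon with hcon | hcon
      · rw [hcon]; exact Or.inl rfl
      · rw [hcon]; exact Or.inr rfl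
    push Not at h1
    exact hv ⟨A, hA, B, hB, C, hC.1.1, hne, h1.1.symm, h1.2.symm, hp, hpB, hpC⟩
  obtain ⟨ε0, hε0, hball⟩ := Metric.isOpen_iff.1 hKcl.isOpen_compl p hpK
  obtain ⟨ε, hε⟩ : ∃ ε : ℝ, ε = min ε0 1 := ⟨_, rfl⟩
  have hεpos : 0 < ε := by rw [hε]; exact lt_min hε0 one_pos
  have hε1 : ε ≤ 1 := by rw [hε]; exact min_le_right _ _
  have hεε : ε ≤ ε0 := by rw [hε]; exact min_le_left _ _
  have hcov : ∀ q, dist q p < ε → q ∈ A ∨ q ∈ B := by
    intro q hq
    obtain ⟨C, hCT, hqC⟩ := h.cover q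
    by_contra hcon
    push Not at hcon
    have hCA : C ≠ A := by rintro rfl; exact hcon.1 hqC
    have hCB : C ≠ B := by rintro rfl; exact hcon.2 hqC
    have hCF : C ∈ F := by
      rw [hF]
      refine ⟨⟨hCT, q, hqC, mem_closedBall.2 (by linarith)⟩, ?_⟩
      intro hcc
      rcases hcc with hcc | hcc
      · exact hCA hcc
      · exact hCB hcc
    exact hball (mem_ball.2 (lt_of_lt_of_le hq hεε)) ⟨C, hCF, hqC⟩
  -- separation
  obtain ⟨hclA, hneA⟩ := g_cl h hA
  obtain ⟨hclB, hneB⟩ := g_cl h hB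
  obtain ⟨f, s, hfA, hfB⟩ := geometric_hahn_banach_open_open (h.conv A hA).interior isOpen_interior
    (h.conv B hB).interior isOpen_interior (h.disj A hA B hB hne)
  have hfA' : ∀ q ∈ A, f q ≤ s := by
    intro q hq
    rw [← hclA] at hq
    have hcl : IsClosed {q : ℂ | f q ≤ s} := isClosed_le f.continuous continuous_const
    exact closure_minimal (fun x hx => (hfA x hx).le) hcl hq
  have hfB' : ∀ q ∈ B, s ≤ f q := by
    intro q hq
    rw [← hclB] at hq
    have hcl : IsClosed {q : ℂ | s ≤ f q} := isClosed_le continuous_const f.continuous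
    exact closure_minimal (fun x hx => (hfB x hx).le) hcl hq
  have hfp : f p = s := le_antisymm (hfA' p hp) (hfB' p hpB)
  obtain ⟨a0, ha0⟩ := hneA
  obtain ⟨b0, hb0⟩ := hneB
  have hva : f (a0 - p) < 0 := by
    rw [map_sub, hfp]; linarith [hfA a0 ha0]
  have hvb : (-f) (b0 - p) < 0 := by
    rw [neg_apply, map_sub, hfp]; linarith [hfB b0 hb0]
  have hfz : ∀ z : ℂ, f z = z.re * f 1 + z.im * f Complex.I := by
    intro z
    have h1 : z = z.re • (1:ℂ) + z.im • Complex.I := by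
      apply Complex.ext <;> simp
    conv_lhs => rw [h1]
    rw [map_add, map_smul, map_smul, smul_eq_mul, smul_eq_mul]
  have hcross : ∀ z : ℂ, cross ⟨-f Complex.I, f 1⟩ z = - f z := by
    intro z
    rw [hfz z]
    unfold cross
    ring
  refine ⟨⟨-f Complex.I, f 1⟩, ?_, ε, hεpos, ?_, ?_⟩
  · intro h0
    have h1 := hcross (a0 - p)
    rw [h0] at h1
    unfold cross at h1
    simp only [Complex.zero_re, Complex.zero_im, zero_mul, sub_zero] at h1
    linarith
  · intro q hq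
    rw [hcross, map_sub]
    constructor
    · intro hqA
      have := hfA' q hqA
      linarith
    · intro hle
      exact g_two_aux A B (h.closed A hA) f p (a0 - p) ε hva hcov
        (fun x hx => by rw [hfp]; exact hfB' x hx) q hq (by linarith)
  · intro q hq
    rw [hcross, map_sub]
    constructor
    · intro hqB
      have := hfB' q hqB
      linarith
    · intro hle
      exact g_two_aux B A (h.closed B hB) (-f) p (b0 - p) ε hvb
        (fun x hx => (hcov x hx).symm)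
        (fun x hx => by
          rw [neg_apply, neg_apply, hfp]
          have := hfA' x hx
          linarith) q hq (by
          rw [neg_apply, neg_apply]
          linarith)

end J26088

alias g_two := J26088.g_two

namespace J26089

/-! ### TARGET of this job: g_triple -/

theorem g_triple_off {X : Set ℂ} {a0 p q : ℂ} (ha : a0 ∈ interior X) (hpq : p ≠ q) :
    ∃ a ∈ interior X, cross (q - p) (a - p) ≠ 0 := by
  by_contra hcon
  push Not at hcon
  have hv : q - p ≠ 0 := sub_ne_zero.2 (Ne.symm hpq)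
  have hvn : 0 < ‖q - p‖ := norm_pos_iff.2 hv
  obtain ⟨ε, hε, hb⟩ := Metric.isOpen_iff.1 isOpen_interior a0 ha
  have h1 : a0 + ((ε / (2 * ‖q - p‖) : ℝ) : ℂ) * (Complex.I * (q - p)) ∈ interior X := by
    apply hb
    rw [mem_ball, dist_eq_norm, add_sub_cancel_left, norm_mul, norm_mul, Complex.norm_I, one_mul,
      Complex.norm_real, Real.norm_of_nonneg (by positivity)]
    have : ε / (2 * ‖q - p‖) * ‖q - p‖ = ε / 2 := by field_simp
    rw [this]
    linarith
  have h2 := hcon _ h1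
  have h3 := hcon _ ha
  have h4 : cross (q - p) (a0 + ((ε / (2 * ‖q - p‖) : ℝ) : ℂ) * (Complex.I * (q - p)) - p) =
      cross (q - p) (a0 - p) + (ε / (2 * ‖q - p‖)) * ((q - p).re ^ 2 + (q - p).im ^ 2) := by
    generalize ε / (2 * ‖q - p‖) = s
    simp only [cross, Complex.sub_re, Complex.sub_im, Complex.add_re, Complex.add_im,
      Complex.mul_re, Complex.mul_im, Complex.ofReal_re, Complex.ofReal_im, Complex.I_re,
      Complex.I_im]
    ring
  rw [h4, h3, zero_add] at h2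
  have h5 : (q - p).re ^ 2 + (q - p).im ^ 2 = ‖q - p‖ ^ 2 := by
    rw [← Complex.normSq_eq_norm_sq, Complex.normSq_apply]; ring
  rw [h5] at h2
  have h6 : 0 < ε / (2 * ‖q - p‖) * ‖q - p‖ ^ 2 := by positivity
  linarith

theorem g_triple_side {X : Set ℂ} (hX : Convex ℝ X) {a p q : ℂ} (hp : p ∈ X) (hq : q ∈ X)
    (ha : a ∈ interior X) (hpq : p ≠ q) (σ : ℝ) (hσ : σ * σ = 1)
    (hpos : 0 < σ * cross (q - p) (a - p)) :
    ∃ τ : ℝ, 0 < τ ∧ ∀ t : ℝ, 0 < t → t < τ →
      p + (1 / 2 : ℝ) • (q - p) + (t * σ) • (Complex.I * (q - p)) ∈ interior X := by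
  have hv : q - p ≠ 0 := sub_ne_zero.2 (Ne.symm hpq)
  set v : ℂ := q - p with hvdef
  have hN : 0 < v.re ^ 2 + v.im ^ 2 := by
    have h5 : v.re ^ 2 + v.im ^ 2 = ‖v‖ ^ 2 := by
      rw [← Complex.normSq_eq_norm_sq, Complex.normSq_apply]; ring
    rw [h5]
    have := norm_pos_iff.2 hv
    positivity
  set N : ℝ := v.re ^ 2 + v.im ^ 2 with hNdef
  set β : ℝ := σ * cross v (a - p) / N with hβ
  set α : ℝ := dot v (a - p) / N with hα
  have hβ0 : 0 < β := div_pos hpos hN
  have hdec : a = p + α • v + (β * σ) • (Complex.I * v) := by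
    have h1 : β * σ = cross v (a - p) / N := by
      rw [hβ]
      have : σ * cross v (a - p) / N * σ = (σ * σ) * cross v (a - p) / N := by ring
      rw [this, hσ, one_mul]
    rw [h1, hα]
    have hN' : N ≠ 0 := hN.ne'
    apply Complex.ext
    · simp only [cross, dot, Complex.add_re, Complex.smul_re, Complex.mul_re, Complex.I_re,
        Complex.I_im, smul_eq_mul, Complex.sub_re, Complex.sub_im]
      field_simp
      rw [hNdef]
      ring
    · simp only [cross, dot, Complex.add_im, Complex.smul_im, Complex.mul_im, Complex.I_re,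
        Complex.I_im, smul_eq_mul, Complex.sub_re, Complex.sub_im]
      field_simp
      rw [hNdef]
      ring
  refine ⟨β / (2 * (1 + |α|)), by positivity, fun t ht htτ => ?_⟩
  set ε : ℝ := t / β with hε
  have hε0 : 0 < ε := div_pos ht hβ0
  have hε1 : ε * (1 + |α|) < 1 / 2 := by
    rw [hε, div_mul_eq_mul_div, div_lt_iff₀ hβ0]
    rw [lt_div_iff₀ (by positivity)] at htτ
    linarith
  have hεβ : ε * β = t := by rw [hε]; field_simp
  have hαa := abs_le.1 (le_refl |α|)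
  have hα0 := abs_nonneg α
  have h1ε : 0 < 1 - ε := by nlinarith
  set κ : ℝ := (1 / 2 - ε * α) / (1 - ε) with hκ
  have hκm : κ * (1 - ε) = 1 / 2 - ε * α := by rw [hκ]; field_simp
  have hκ0 : 0 ≤ κ := by
    rw [hκ]
    refine div_nonneg ?_ h1ε.le
    nlinarith
  have hκ1 : κ ≤ 1 := by
    rw [hκ, div_le_one h1ε]
    nlinarith
  have hw : (1 - κ) • p + κ • q ∈ X := hX hp hq (by linarith) hκ0 (by ring)
  have hint := hX.combo_self_interior_mem_interior hw ha (a := 1 - ε) (b := ε) h1ε.le hε0 (by ring)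
  have heq : (1 - ε) • ((1 - κ) • p + κ • q) + ε • a =
      p + (1 / 2 : ℝ) • v + (t * σ) • (Complex.I * v) := by
    have hq' : q = p + v := by rw [hvdef]; ring
    rw [hdec, hq', ← hεβ]
    simp only [Complex.real_smul]
    have hκm' : ((κ : ℝ) : ℂ) * (1 - (ε : ℂ)) = 1 / 2 - (ε : ℂ) * (α : ℂ) := by
      have := congrArg (fun x : ℝ => (x : ℂ)) hκm
      push_cast at this
      exact this
    push_cast
    linear_combination v * hκm'
  rw [heq] at hint
  exact hint

theorem g_triple {T : Set (Set ℂ)} {u U : ℝ} (h : NC T u U) {A B C : Set ℂ} (hA : A ∈ T) (hB : B ∈ T)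
    (hC : C ∈ T) (h1 : A ≠ B) (h2 : A ≠ C) (h3 : B ≠ C) {p q : ℂ} (hp : p ∈ A ∩ B ∩ C)
    (hq : q ∈ A ∩ B ∩ C) : p = q := by
  by_contra hpq
  have key : ∀ X ∈ T, p ∈ X → q ∈ X → ∃ σ : ℝ, (σ = 1 ∨ σ = -1) ∧ ∃ τ : ℝ, 0 < τ ∧
      ∀ t : ℝ, 0 < t → t < τ →
        p + (1 / 2 : ℝ) • (q - p) + (t * σ) • (Complex.I * (q - p)) ∈ interior X := by
    intro X hX hpX hqX
    obtain ⟨a0, ha0⟩ := (g_cl h hX).2
    obtain ⟨a, ha, hne⟩ := g_triple_off ha0 hpq
    rcases lt_or_gt_of_ne hne with hlt | hgt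
    · exact ⟨-1, Or.inr rfl, g_triple_side (h.conv X hX) hpX hqX ha hpq (-1) (by norm_num)
        (by linarith)⟩
    · exact ⟨1, Or.inl rfl, g_triple_side (h.conv X hX) hpX hqX ha hpq 1 (by norm_num)
        (by linarith)⟩
  have two : ∀ X ∈ T, ∀ Y ∈ T, X ≠ Y → ∀ σ : ℝ,
      (∃ τ : ℝ, 0 < τ ∧ ∀ t : ℝ, 0 < t → t < τ →
        p + (1 / 2 : ℝ) • (q - p) + (t * σ) • (Complex.I * (q - p)) ∈ interior X) →
      (∃ τ : ℝ, 0 < τ ∧ ∀ t : ℝ, 0 < t → t < τ →
        p + (1 / 2 : ℝ) • (q - p) + (t * σ) • (Complex.I * (q - p)) ∈ interior Y) → False := by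
    rintro X hX Y hY hXY σ ⟨τ1, hτ1, k1⟩ ⟨τ2, hτ2, k2⟩
    have hm : 0 < min τ1 τ2 := lt_min hτ1 hτ2
    have m1 := min_le_left τ1 τ2
    have m2 := min_le_right τ1 τ2
    have e1 := k1 (min τ1 τ2 / 2) (by linarith) (by linarith)
    have e2 := k2 (min τ1 τ2 / 2) (by linarith) (by linarith)
    exact hXY (g_int h hX hY e1 (interior_subset e2)).symm
  obtain ⟨s1, hs1, k1⟩ := key A hA hp.1.1 hq.1.1
  obtain ⟨s2, hs2, k2⟩ := key B hB hp.1.2 hq.1.2
  obtain ⟨s3, hs3, k3⟩ := key C hC hp.2 hq.2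
  have hcase : s1 = s2 ∨ s1 = s3 ∨ s2 = s3 := by
    rcases hs1 with rfl | rfl <;> rcases hs2 with rfl | rfl <;> rcases hs3 with rfl | rfl <;> simp
  rcases hcase with rfl | rfl | rfl
  · exact two A hA B hB h1 _ k1 k2
  · exact two A hA C hC h2 _ k1 k3
  · exact two B hB C hC h3 _ k2 k3

end J26089

alias g_triple := J26089.g_triple

namespace J26087

theorem g_adj_coord (f : ℂ →L[ℝ] ℝ) (d e : ℂ) (hd : d ≠ 0) (hfd : f d = 0) (hfe : f e ≠ 0)
    (w : ℂ) : ∃ s γ : ℝ, w = s • d + γ • e ∧ γ * f e = f w := by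
  have hde : cross d e ≠ 0 := by
    intro h0
    apply hfe
    have hn : dot d d ≠ 0 := by
      intro h1
      apply hd
      unfold dot at h1
      have h2 : d.re = 0 := by nlinarith [mul_self_nonneg d.re, mul_self_nonneg d.im]
      have h3 : d.im = 0 := by nlinarith [mul_self_nonneg d.re, mul_self_nonneg d.im]
      exact Complex.ext h2 h3
    have h2 : e = (dot d e / dot d d) • d := by
      unfold cross at h0
      unfold dot at hn ⊢
      apply Complex.ext
      · rw [Complex.smul_re, smul_eq_mul, div_mul_eq_mul_div, eq_div_iff hn]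
        linear_combination (-d.im) * h0
      · rw [Complex.smul_im, smul_eq_mul, div_mul_eq_mul_div, eq_div_iff hn]
        linear_combination (d.re) * h0
    rw [h2, map_smul, hfd, smul_zero]
  have hw : w = (cross w e / cross d e) • d + (cross d w / cross d e) • e := by
    unfold cross at hde ⊢
    apply Complex.ext
    · rw [Complex.add_re, Complex.smul_re, Complex.smul_re, smul_eq_mul, smul_eq_mul,
        div_mul_eq_mul_div, div_mul_eq_mul_div, ← add_div, eq_div_iff hde]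
      ring
    · rw [Complex.add_im, Complex.smul_im, Complex.smul_im, smul_eq_mul, smul_eq_mul,
        div_mul_eq_mul_div, div_mul_eq_mul_div, ← add_div, eq_div_iff hde]
      ring
  refine ⟨cross w e / cross d e, cross d w / cross d e, hw, ?_⟩
  conv_rhs => rw [hw]
  rw [map_add, map_smul, map_smul, hfd, smul_zero, zero_add, smul_eq_mul]

theorem g_adj_push {S : Set ℂ} {b v : ℂ} (hb : b ∈ interior S) :
    ∃ t : ℝ, 0 < t ∧ b + t • v ∈ interior S := by
  have hc : Continuous fun t : ℝ => b + t • v := by fun_prop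
  have h1 : ∀ᶠ t in nhds (0:ℝ), b + t • v ∈ interior S := by
    have h2 := hc.tendsto 0
    apply h2
    have h3 : b + (0:ℝ) • v = b := by simp
    show interior S ∈ nhds (b + (0:ℝ) • v)
    rw [h3]
    exact isOpen_interior.mem_nhds hb
  obtain ⟨ε, hε, h2⟩ := Metric.eventually_nhds_iff.1 h1
  refine ⟨ε / 2, by positivity, h2 ?_⟩
  rw [Real.dist_eq, sub_zero, abs_of_pos (by positivity)]
  linarith

theorem g_adj_sep {T : Set (Set ℂ)} {u U : ℝ} (h : NC T u U) {A B : Set ℂ} (hA : A ∈ T)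
    (hB : B ∈ T) (hne : A ≠ B) : ∃ (f : ℂ →L[ℝ] ℝ) (c : ℝ), (∀ z ∈ A, f z ≤ c) ∧
      (∀ z ∈ B, c ≤ f z) ∧ (∃ a ∈ A, f a < c) ∧ (∃ b ∈ B, c < f b) := by
  have hdis : Disjoint (interior A) B := by
    rw [Set.disjoint_left]
    intro p hp hpB
    exact hne (g_int h hA hB hp hpB).symm
  obtain ⟨f, c, h1, h2⟩ := geometric_hahn_banach_open (h.conv A hA).interior isOpen_interior
    (h.conv B hB) hdis
  have hcA : ∀ z ∈ A, f z ≤ c := by
    intro z hz
    rw [← (g_cl h hA).1] at hz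
    have h3 : closure (interior A) ⊆ {z | f z ≤ c} :=
      closure_minimal (fun a ha => (h1 a ha).le) (isClosed_le f.continuous continuous_const)
    exact h3 hz
  obtain ⟨a, ha⟩ := (g_cl h hA).2
  obtain ⟨b, hb⟩ := (g_cl h hB).2
  refine ⟨f, c, hcA, h2, ⟨a, interior_subset ha, h1 a ha⟩, ?_⟩
  obtain ⟨t, ht, hbt⟩ := g_adj_push (v := b - a) hb
  refine ⟨_, interior_subset hbt, ?_⟩
  rw [map_add, map_smul, map_sub, smul_eq_mul]
  have h4 := h1 a ha
  have h5 := h2 b (interior_subset hb)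
  nlinarith

theorem g_adj_three {A : Set ℂ} (hA : Convex ℝ A) {p q a : ℂ} (hp : p ∈ A) (hq : q ∈ A)
    (ha : a ∈ A) {α β γ : ℝ} (hα : 0 ≤ α) (hβ : 0 ≤ β) (hγ : 0 ≤ γ) (h : α + β + γ = 1) :
    α • p + β • q + γ • a ∈ A := by
  have h1 := hA.sum_mem (t := Finset.univ) (w := ![α, β, γ]) (z := ![p, q, a])
    (by
      intro i _
      fin_cases i
      · exact hα
      · exact hβ
      · exact hγ)
    (by
      rw [Fin.sum_univ_three]
      exact h)
    (by
      intro i _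
      fin_cases i
      · exact hp
      · exact hq
      · exact ha)
  rw [Fin.sum_univ_three] at h1
  exact h1

theorem g_adj_in {T : Set (Set ℂ)} {u U : ℝ} (h : NC T u U) {A C : Set ℂ} (hA : A ∈ T)
    (hC : C ∈ T) {p q a : ℂ} (hp : p ∈ A) (hq : q ∈ A) (ha : a ∈ A) {x : ℂ}
    (hx : x ∈ openSegment ℝ p q) (hxC : x ∈ C) {c₀ : ℂ} (hc₀ : c₀ ∈ interior C) (s γ : ℝ)
    (hγ : 0 ≤ γ) (hc : c₀ - x = s • (q - p) + γ • (a - p)) : C = A := by
  obtain ⟨α, β, hα, hβ, hαβ, hxe⟩ := hx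
  obtain ⟨m, hm⟩ : ∃ m, m = min α β := ⟨_, rfl⟩
  have hm0 : 0 < m := by rw [hm]; exact lt_min hα hβ
  have hmα : m ≤ α := by rw [hm]; exact min_le_left _ _
  have hmβ : m ≤ β := by rw [hm]; exact min_le_right _ _
  have hD : 0 < |s| + γ + 1 := by positivity
  obtain ⟨t, ht⟩ : ∃ t, t = m / (|s| + γ + 1) := ⟨_, rfl⟩
  have ht0 : 0 < t := by rw [ht]; positivity
  have hte : t * (|s| + γ + 1) = m := by rw [ht]; field_simp
  have h1 : t * |s| ≤ m := by nlinarith [abs_nonneg s, mul_nonneg ht0.le hγ]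
  have h2 : t * |s| + t * γ ≤ m := by nlinarith
  have ht1 : t ≤ 1 := by nlinarith [abs_nonneg s, mul_nonneg ht0.le hγ, mul_nonneg ht0.le (abs_nonneg s)]
  have hs1 : t * s ≤ t * |s| := mul_le_mul_of_nonneg_left (le_abs_self s) ht0.le
  have hs2 : - (t * |s|) ≤ t * s := by
    have := mul_le_mul_of_nonneg_left (neg_abs_le s) ht0.le
    linarith
  have hz1 : t • c₀ + (1 - t) • x ∈ interior C :=
    (h.conv C hC).combo_interior_self_mem_interior hc₀ hxC ht0 (by linarith) (by ring)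
  have hz2 : t • c₀ + (1 - t) • x = (α - t * s - t * γ) • p + (β + t * s) • q + (t * γ) • a := by
    have h3 : c₀ = x + (s • (q - p) + γ • (a - p)) := by rw [← hc]; ring
    rw [h3, ← hxe]
    simp only [Complex.real_smul]
    push_cast
    ring
  have hz3 : t • c₀ + (1 - t) • x ∈ A := by
    rw [hz2]
    exact g_adj_three (h.conv A hA) hp hq ha (by linarith) (by linarith)
      (by positivity) (by linarith)
  exact (g_int h hC hA hz1 hz3).symm

theorem g_adj_third {T : Set (Set ℂ)} {u U : ℝ} (h : NC T u U) {A B C : Set ℂ} (hA : A ∈ T)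
    (hB : B ∈ T) (hC : C ∈ T) (hne : A ≠ B) {p q : ℂ} (hpq : p ≠ q) (hp : p ∈ A ∩ B)
    (hq : q ∈ A ∩ B) {x : ℂ} (hx : x ∈ openSegment ℝ p q) (hxC : x ∈ C) : C = A ∨ C = B := by
  obtain ⟨f, c, h1, h2, ⟨a, ha, hfa⟩, ⟨b, hb, hfb⟩⟩ := g_adj_sep h hA hB hne
  have hfp : f p = c := le_antisymm (h1 p hp.1) (h2 p hp.2)
  have hfq : f q = c := le_antisymm (h1 q hq.1) (h2 q hq.2)
  have hfx : f x = c := by
    obtain ⟨α, β, hα, hβ, hαβ, hxe⟩ := hx
    rw [← hxe, map_add, map_smul, map_smul, hfp, hfq, smul_eq_mul, smul_eq_mul, ← add_mul, hαβ,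
      one_mul]
  have hd : q - p ≠ 0 := sub_ne_zero.2 hpq.symm
  have hfd : f (q - p) = 0 := by rw [map_sub, hfp, hfq, sub_self]
  obtain ⟨c₀, hc₀, hfc⟩ : ∃ c₀ ∈ interior C, f c₀ ≠ c := by
    obtain ⟨c₁, hc₁⟩ := (g_cl h hC).2
    by_cases h3 : f c₁ = c
    · obtain ⟨t, ht, hct⟩ := g_adj_push (v := a - c₁) hc₁
      refine ⟨_, hct, ?_⟩
      rw [map_add, map_smul, map_sub, smul_eq_mul, h3]
      have : t * (f a - c) < 0 := mul_neg_of_pos_of_neg ht (by linarith)
      intro h4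
      linarith
    · exact ⟨c₁, hc₁, h3⟩
  rcases lt_or_gt_of_ne hfc with hlt | hgt
  · left
    have hfe : f (a - p) ≠ 0 := by rw [map_sub, hfp]; linarith
    obtain ⟨s, γ, hw, hγ⟩ := g_adj_coord f (q - p) (a - p) hd hfd hfe (c₀ - x)
    rw [map_sub, map_sub, hfp, hfx] at hγ
    refine g_adj_in h hA hC hp.1 hq.1 ha hx hxC hc₀ s γ ?_ hw
    by_contra hneg
    push Not at hneg
    have : 0 < γ * (f a - c) := mul_pos_of_neg_of_neg hneg (by linarith)
    linarith
  · right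
    have hfe : f (b - p) ≠ 0 := by rw [map_sub, hfp]; linarith
    obtain ⟨s, γ, hw, hγ⟩ := g_adj_coord f (q - p) (b - p) hd hfd hfe (c₀ - x)
    rw [map_sub, map_sub, hfp, hfx] at hγ
    refine g_adj_in h hB hC hp.2 hq.2 hb hx hxC hc₀ s γ ?_ hw
    by_contra hneg
    push Not at hneg
    have : γ * (f b - c) < 0 := mul_neg_of_neg_of_pos hneg (by linarith)
    linarith

theorem g_adj_end {T : Set (Set ℂ)} {u U : ℝ} (h : NC T u U) {A B : Set ℂ} (hA : A ∈ T)
    (hB : B ∈ T) (hne : A ≠ B) {p q : ℂ} (hpq : p ≠ q) (hseg : A ∩ B = segment ℝ p q) :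
    IsVertex T p := by
  by_contra hv
  have hp : p ∈ A ∩ B := by rw [hseg]; exact left_mem_segment ℝ p q
  obtain ⟨n, hn, ε, hε, h1, h2⟩ := g_two h hA hB hne hp.1 hp.2 hv
  have hd : 0 < ‖q - p‖ := norm_pos_iff.2 (sub_ne_zero.2 hpq.symm)
  obtain ⟨t, ht⟩ : ∃ t, t = min 1 (ε / (2 * ‖q - p‖)) := ⟨_, rfl⟩
  have ht0 : 0 < t := by rw [ht]; exact lt_min one_pos (by positivity)
  have ht1 : t ≤ 1 := by rw [ht]; exact min_le_left _ _
  have ht2 : t * ‖q - p‖ < ε := by
    have h3 : t ≤ ε / (2 * ‖q - p‖) := by rw [ht]; exact min_le_right _ _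
    have h4 : t * ‖q - p‖ ≤ ε / (2 * ‖q - p‖) * ‖q - p‖ := mul_le_mul_of_nonneg_right h3 hd.le
    have h5 : ε / (2 * ‖q - p‖) * ‖q - p‖ = ε / 2 := by field_simp
    linarith
  have hzp : p + t • (q - p) ∈ A ∩ B := by
    rw [hseg, segment_eq_image']
    exact ⟨t, ⟨ht0.le, ht1⟩, rfl⟩
  have hdp : dist (p + t • (q - p)) p < ε := by
    rw [dist_eq_norm, add_sub_cancel_left, norm_smul, Real.norm_eq_abs, abs_of_pos ht0]
    exact ht2
  have hdm : dist (p - t • (q - p)) p < ε := by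
    rw [dist_eq_norm, sub_sub_cancel_left, norm_neg, norm_smul, Real.norm_eq_abs, abs_of_pos ht0]
    exact ht2
  have h3 := (h1 _ hdp).1 hzp.1
  have h4 := (h2 _ hdp).1 hzp.2
  rw [add_sub_cancel_left] at h3 h4
  have h5 : cross n (p - t • (q - p) - p) = - cross n (t • (q - p)) := by
    rw [sub_sub_cancel_left]
    unfold cross
    rw [Complex.neg_re, Complex.neg_im]
    ring
  have hzm : p - t • (q - p) ∈ A ∩ B :=
    ⟨(h1 _ hdm).2 (by rw [h5]; linarith), (h2 _ hdm).2 (by rw [h5]; linarith)⟩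
  rw [hseg, segment_eq_image'] at hzm
  obtain ⟨r, hr, hre⟩ := hzm
  have h6 : (r + t) • (q - p) = 0 := by
    have h7 : p + r • (q - p) = p - t • (q - p) := hre
    rw [add_smul]
    linear_combination h7
  rcases smul_eq_zero.1 h6 with h8 | h8
  · linarith [hr.1]
  · exact hpq (sub_eq_zero.1 h8).symm


/-! ### TARGET of this job: g_adj -/

theorem g_adj {T : Set (Set ℂ)} {u U : ℝ} (h : NC T u U) {A B : Set ℂ} (hA : A ∈ T) (hB : B ∈ T)
    (had : Adj A B) : ∃ p q, p ≠ q ∧ A ∩ B = segment ℝ p q ∧ IsVertex T p ∧ IsVertex T q ∧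
      ∀ x ∈ openSegment ℝ p q, ∀ C ∈ T, x ∈ C → C = A ∨ C = B := by
  obtain ⟨hne, x₀, hx₀, y₀, hy₀, hxy⟩ := had
  obtain ⟨f, c, h1, h2, ⟨a, ha, hfa⟩, _⟩ := g_adj_sep h hA hB hne
  have hon : ∀ z ∈ A ∩ B, f z = c := fun z hz => le_antisymm (h1 z hz.1) (h2 z hz.2)
  have hd : y₀ - x₀ ≠ 0 := sub_ne_zero.2 hxy.symm
  have hfd : f (y₀ - x₀) = 0 := by rw [map_sub, hon _ hx₀, hon _ hy₀, sub_self]
  have hfe : f (a - x₀) ≠ 0 := by rw [map_sub, hon _ hx₀]; linarith
  obtain ⟨d, hdd⟩ : ∃ d, d = y₀ - x₀ := ⟨_, rfl⟩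
  rw [← hdd] at hd hfd
  have hn : dot d d ≠ 0 := by
    intro h1
    apply hd
    unfold dot at h1
    have h2 : d.re = 0 := by nlinarith [mul_self_nonneg d.re, mul_self_nonneg d.im]
    have h3 : d.im = 0 := by nlinarith [mul_self_nonneg d.re, mul_self_nonneg d.im]
    exact Complex.ext h2 h3
  obtain ⟨g, hg⟩ : ∃ g : ℂ → ℝ, g = fun z => dot d (z - x₀) / dot d d := ⟨_, rfl⟩
  have hgs : ∀ s : ℝ, g (x₀ + s • d) = s := by
    intro s
    rw [hg]
    show dot d (x₀ + s • d - x₀) / dot d d = s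
    rw [add_sub_cancel_left]
    have : dot d (s • d) = s * dot d d := by
      unfold dot
      rw [Complex.smul_re, Complex.smul_im, smul_eq_mul, smul_eq_mul]
      ring
    rw [this]
    field_simp
  have hz : ∀ z ∈ A ∩ B, z = x₀ + (g z) • d := by
    intro z hz
    obtain ⟨s, γ, hw, hγ⟩ := g_adj_coord f d (a - x₀) hd hfd hfe (z - x₀)
    rw [map_sub f z x₀, hon z hz, hon _ hx₀, sub_self] at hγ
    have hγ0 : γ = 0 := by
      rcases mul_eq_zero.1 hγ with h3 | h3
      · exact h3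
      · exact absurd h3 hfe
    rw [hγ0, zero_smul, add_zero] at hw
    have hz1 : z = x₀ + s • d := by rw [← hw]; ring
    rw [hz1, hgs]
  have hgc : Continuous g := by
    rw [hg]
    unfold dot
    fun_prop
  have hcomp : IsCompact (A ∩ B) := by
    obtain ⟨c', hc'⟩ := h.outr A hA
    exact (isCompact_closedBall c' U).of_isClosed_subset ((h.closed A hA).inter (h.closed B hB))
      (fun z hz => hc' hz.1)
  have hconn : IsConnected (A ∩ B) :=
    ⟨⟨x₀, hx₀⟩, ((h.conv A hA).inter (h.conv B hB)).isPreconnected⟩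
  have hS := eq_Icc_of_connected_compact (hconn.image g hgc.continuousOn) (hcomp.image hgc)
  obtain ⟨lo, hlo⟩ : ∃ lo, lo = sInf (g '' (A ∩ B)) := ⟨_, rfl⟩
  obtain ⟨hi, hhi⟩ : ∃ hi, hi = sSup (g '' (A ∩ B)) := ⟨_, rfl⟩
  rw [← hlo, ← hhi] at hS
  have hle : lo ≤ hi := by
    have h3 : g x₀ ∈ Icc lo hi := by rw [← hS]; exact ⟨x₀, hx₀, rfl⟩
    exact h3.1.trans h3.2
  have himg : A ∩ B = (AffineMap.lineMap x₀ y₀ : ℝ →ᵃ[ℝ] ℂ) '' Icc lo hi := by
    rw [← hS]
    ext z
    constructor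
    · intro hz1
      refine ⟨g z, ⟨z, hz1, rfl⟩, ?_⟩
      rw [AffineMap.lineMap_apply_module', ← hdd, add_comm]
      exact (hz z hz1).symm
    · rintro ⟨s, ⟨z', hz', rfl⟩, rfl⟩
      rw [AffineMap.lineMap_apply_module', ← hdd, add_comm, ← hz z' hz']
      exact hz'
  rw [← segment_eq_Icc (𝕜 := ℝ) hle, image_segment] at himg
  obtain ⟨p, hp⟩ : ∃ p, p = (AffineMap.lineMap x₀ y₀ : ℝ →ᵃ[ℝ] ℂ) lo := ⟨_, rfl⟩
  obtain ⟨q, hq⟩ : ∃ q, q = (AffineMap.lineMap x₀ y₀ : ℝ →ᵃ[ℝ] ℂ) hi := ⟨_, rfl⟩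
  rw [← hp, ← hq] at himg
  have hpq : p ≠ q := by
    intro hpq
    rw [hpq, segment_same] at himg
    rw [himg] at hx₀ hy₀
    exact hxy (hx₀.trans hy₀.symm)
  refine ⟨p, q, hpq, himg, g_adj_end h hA hB hne hpq himg,
    g_adj_end h hA hB hne hpq.symm (himg.trans (segment_symm ℝ p q)), ?_⟩
  intro x hx C hC hxC
  exact g_adj_third h hA hB hC hne hpq (by rw [himg]; exact left_mem_segment ℝ p q)
    (by rw [himg]; exact right_mem_segment ℝ p q) hx hxC

end J26087

alias g_adj := J26087.g_adj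

namespace J26091

/-! ### TARGET of this job: g_nv -/

theorem g_nv {T : Set (Set ℂ)} {u U : ℝ} (h : NC T u U) {A B : Set ℂ} (hA : A ∈ T) (hB : B ∈ T)
    (hne : A ≠ B) {p : ℂ} (hp : p ∈ A) (hpB : p ∈ B) (hv : ¬ IsVertex T p) : Adj A B := by
  obtain ⟨n, hn, ε, hε, h1, h2⟩ := g_two h hA hB hne hp hpB hv
  have hn' : 0 < ‖n‖ := norm_pos_iff.mpr hn
  have ht : 0 < ε / (2 * ‖n‖) := by positivity
  have e1 : p + ((ε / (2 * ‖n‖) : ℝ) : ℂ) * n - p = ((ε / (2 * ‖n‖) : ℝ) : ℂ) * n := by ring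
  have hd : dist (p + ((ε / (2 * ‖n‖) : ℝ) : ℂ) * n) p < ε := by
    rw [dist_eq_norm, e1, norm_mul, Complex.norm_real, Real.norm_of_nonneg ht.le]
    have e2 : ε / (2 * ‖n‖) * ‖n‖ = ε / 2 := by
      field_simp
    rw [e2]
    linarith
  have hc : cross n (p + ((ε / (2 * ‖n‖) : ℝ) : ℂ) * n - p) = 0 := by
    rw [e1]
    unfold cross
    rw [Complex.re_ofReal_mul, Complex.im_ofReal_mul]
    ring
  refine ⟨hne, p, ⟨hp, hpB⟩, p + ((ε / (2 * ‖n‖) : ℝ) : ℂ) * n,
    ⟨(h1 _ hd).mpr hc.ge, (h2 _ hd).mpr hc.le⟩, ?_⟩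
  intro heq
  have h3 : ((ε / (2 * ‖n‖) : ℝ) : ℂ) * n = 0 := by
    have h4 : p + ((ε / (2 * ‖n‖) : ℝ) : ℂ) * n = p + 0 := by rw [← heq, add_zero]
    exact add_left_cancel h4
  rcases mul_eq_zero.mp h3 with h4 | h4
  · rw [Complex.ofReal_eq_zero] at h4
    linarith
  · exact hn h4

end J26091

alias g_nv := J26091.g_nv

namespace J26090

/-! ### TARGET of this job: g_head -/

theorem g_head_cross (f : ℂ →L[ℝ] ℝ) (d z : ℂ) (hd : f d = 0) :
    f z * (d.re ^ 2 + d.im ^ 2) = cross d z * f (Complex.I * d) := by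
  have h1 : ((d.re ^ 2 + d.im ^ 2 : ℝ)) • z = (dot d z) • d + (cross d z) • (Complex.I * d) := by
    apply Complex.ext
    · simp only [dot, cross, Complex.add_re, Complex.smul_re, smul_eq_mul, Complex.mul_re,
        Complex.I_re, Complex.I_im]
      ring
    · simp only [dot, cross, Complex.add_im, Complex.smul_im, smul_eq_mul, Complex.mul_im,
        Complex.I_re, Complex.I_im]
      ring
  have h2 := congrArg f h1
  rw [map_smul, map_add, map_smul, map_smul, hd, smul_zero, zero_add, smul_eq_mul, smul_eq_mul] at h2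
  rw [mul_comm]; exact h2

theorem g_head_aux {A B : Set ℂ} (f : ℂ →L[ℝ] ℝ) (s : ℝ) (p q : ℂ) (hpq : p ≠ q)
    (hseg : A ∩ B = segment ℝ p q) (hfp : f p = s) (hfq : f q = s)
    (hA : ∀ a ∈ interior A, f a < s) (hB : ∀ b ∈ interior B, s < f b)
    (hc : f (Complex.I * (q - p)) < 0) : Head A B q ∧ Head B A p := by
  have hd : f (q - p) = 0 := by rw [map_sub, hfp, hfq, sub_self]
  have hn : 0 < (q - p).re ^ 2 + (q - p).im ^ 2 := by
    have h0 : q - p ≠ 0 := sub_ne_zero.2 hpq.symm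
    have h1 := Complex.normSq_pos.2 h0
    rw [Complex.normSq_apply] at h1
    nlinarith
  constructor
  · refine ⟨p, hpq, hseg, fun z hz => ?_⟩
    have h1 := g_head_cross f (q - p) (z - p) hd
    have h2 := hA z hz
    rw [map_sub f z p, hfp] at h1
    by_contra hle
    have h3 : (f z - s) * ((q - p).re ^ 2 + (q - p).im ^ 2) < 0 :=
      mul_neg_of_neg_of_pos (by linarith) hn
    have h4 : 0 ≤ cross (q - p) (z - p) * f (Complex.I * (q - p)) :=
      mul_nonneg_of_nonpos_of_nonpos (not_lt.1 hle) hc.le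
    linarith
  · refine ⟨q, hpq.symm, by rw [inter_comm, hseg, segment_symm], fun z hz => ?_⟩
    have e : cross (p - q) (z - q) = - cross (q - p) (z - p) := by
      simp only [cross, Complex.sub_re, Complex.sub_im]; ring
    have h1 := g_head_cross f (q - p) (z - p) hd
    have h2 := hB z hz
    rw [map_sub f z p, hfp] at h1
    rw [e]
    by_contra hle
    have h3 : 0 < (f z - s) * ((q - p).re ^ 2 + (q - p).im ^ 2) :=
      mul_pos (by linarith) hn
    have h5 : 0 ≤ cross (q - p) (z - p) := by linarith [not_lt.1 hle]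
    have h4 : cross (q - p) (z - p) * f (Complex.I * (q - p)) ≤ 0 :=
      mul_nonpos_of_nonneg_of_nonpos h5 hc.le
    linarith

theorem g_head {T : Set (Set ℂ)} {u U : ℝ} (h : NC T u U) {A B : Set ℂ} (hA : A ∈ T) (hB : B ∈ T)
    (had : Adj A B) : ∃ p q, p ≠ q ∧ A ∩ B = segment ℝ p q ∧ Head A B q ∧ Head B A p ∧
      IsVertex T p ∧ IsVertex T q := by
  obtain ⟨p, q, hpq, hseg, hvp, hvq, -⟩ := g_adj h hA hB had
  obtain ⟨hclA, a, ha⟩ := g_cl h hA
  obtain ⟨hclB, b, hb⟩ := g_cl h hB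
  obtain ⟨f, s, hfA, hfB⟩ := geometric_hahn_banach_open_open (h.conv A hA).interior isOpen_interior
    (h.conv B hB).interior isOpen_interior (h.disj A hA B hB had.1)
  have hA' : ∀ x ∈ A, f x ≤ s := by
    intro x hx
    rw [← hclA] at hx
    exact closure_minimal (fun y hy => (hfA y hy).le) (isClosed_le f.continuous continuous_const) hx
  have hB' : ∀ x ∈ B, s ≤ f x := by
    intro x hx
    rw [← hclB] at hx
    exact closure_minimal (fun y hy => (hfB y hy).le) (isClosed_le continuous_const f.continuous) hx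
  have hp : p ∈ A ∩ B := by rw [hseg]; exact left_mem_segment ℝ p q
  have hq : q ∈ A ∩ B := by rw [hseg]; exact right_mem_segment ℝ p q
  have hfp : f p = s := le_antisymm (hA' p hp.1) (hB' p hp.2)
  have hfq : f q = s := le_antisymm (hA' q hq.1) (hB' q hq.2)
  rcases lt_trichotomy (f (Complex.I * (q - p))) 0 with hc | hc | hc
  · obtain ⟨h1, h2⟩ := g_head_aux f s p q hpq hseg hfp hfq hfA hfB hc
    exact ⟨p, q, hpq, hseg, h1, h2, hvp, hvq⟩
  · exfalso
    have hd : f (q - p) = 0 := by rw [map_sub, hfp, hfq, sub_self]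
    have hn : 0 < (q - p).re ^ 2 + (q - p).im ^ 2 := by
      have h0 : q - p ≠ 0 := sub_ne_zero.2 hpq.symm
      have h1 := Complex.normSq_pos.2 h0
      rw [Complex.normSq_apply] at h1
      nlinarith
    have h1 := g_head_cross f (q - p) (b - a) hd
    rw [hc, mul_zero, map_sub f b a] at h1
    have h2 := hfA a ha
    have h3 := hfB b hb
    have h4 : 0 < (f b - f a) * ((q - p).re ^ 2 + (q - p).im ^ 2) := mul_pos (by linarith) hn
    linarith
  · have hc' : f (Complex.I * (p - q)) < 0 := by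
      have e : Complex.I * (p - q) = -(Complex.I * (q - p)) := by ring
      rw [e, map_neg]; linarith
    have hseg' : A ∩ B = segment ℝ q p := by rw [hseg, segment_symm]
    obtain ⟨h1, h2⟩ := g_head_aux f s q p hpq.symm hseg' hfq hfp hfA hfB hc'
    exact ⟨q, p, hpq.symm, hseg', h1, h2, hvq, hvp⟩

end J26090

alias g_head := J26090.g_head

namespace J26092


theorem hu_seg (p q x : ℂ) (hx : x ∈ segment ℝ p q) :
    ∃ t : ℝ, 0 ≤ t ∧ t ≤ 1 ∧ x = p + t • (q - p) := by
  rw [segment_eq_image'] at hx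
  obtain ⟨t, ht, rfl⟩ := hx
  exact ⟨t, ht.1, ht.2, rfl⟩

theorem hu_end (p q p' q' : ℂ) (hpq : p ≠ q) (h : segment ℝ p q = segment ℝ p' q') :
    q = q' ∨ (q' = p ∧ p' = q) := by
  have hne : q - p ≠ 0 := sub_ne_zero.2 hpq.symm
  obtain ⟨t, ht0, ht1, ht⟩ := hu_seg p q q' (h ▸ right_mem_segment ℝ p' q')
  obtain ⟨s, hs0, hs1, hs⟩ := hu_seg p q p' (h ▸ left_mem_segment ℝ p' q')
  obtain ⟨a, ha0, ha1, ha⟩ := hu_seg p' q' p (h ▸ left_mem_segment ℝ p q)
  obtain ⟨b, hb0, hb1, hb⟩ := hu_seg p' q' q (h ▸ right_mem_segment ℝ p q)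
  have e1 : (s + a * (t - s)) • (q - p) = 0 := by
    have h1 : q' - p' = (t - s) • (q - p) := by rw [ht, hs, sub_smul]; abel
    have h2 : p = p + s • (q - p) + a • ((t - s) • (q - p)) := by
      rw [← h1, ← hs]
      exact ha
    rw [smul_smul] at h2
    have h3 : p + (s • (q - p) + (a * (t - s)) • (q - p)) = p + 0 := by
      rw [add_zero, ← add_assoc]
      exact h2.symm
    rw [add_smul]
    exact add_left_cancel h3
  have e2 : (s + b * (t - s) - 1) • (q - p) = 0 := by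
    have h1 : q' - p' = (t - s) • (q - p) := by rw [ht, hs, sub_smul]; abel
    have h2 : q = p + s • (q - p) + b • ((t - s) • (q - p)) := by
      rw [← h1, ← hs]
      exact hb
    rw [smul_smul] at h2
    have h3 : (s + b * (t - s) - 1) • (q - p) =
        (p + s • (q - p) + (b * (t - s)) • (q - p)) - q := by
      rw [sub_smul, add_smul, one_smul]
      abel
    rw [h3, ← h2, sub_self]
  have f1 : s + a * (t - s) = 0 := (smul_eq_zero.1 e1).resolve_right hne
  have f2 : s + b * (t - s) - 1 = 0 := (smul_eq_zero.1 e2).resolve_right hne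
  by_cases ha' : a = 0
  · left
    rw [ha', zero_mul, add_zero] at f1
    rw [f1] at f2
    have f3 : b * t = 1 := by linarith
    have f4 : t = 1 := by
      have : b * t ≤ 1 * t := mul_le_mul_of_nonneg_right hb1 ht0
      linarith
    rw [ht, f4, one_smul]
    abel
  · right
    have ha2 : 0 < a := lt_of_le_of_ne ha0 (Ne.symm ha')
    have g1 : 0 ≤ s * (1 - a) := mul_nonneg hs0 (by linarith)
    have g2 : 0 ≤ a * t := mul_nonneg ha0 ht0
    have g3 : a * t = 0 := by nlinarith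
    have g4 : t = 0 := (mul_eq_zero.1 g3).resolve_left ha'
    rw [g4] at f2
    have g5 : s * (1 - b) = 1 := by linarith
    have g6 : s = 1 := by
      have : s * (1 - b) ≤ s * 1 := mul_le_mul_of_nonneg_left (by linarith) hs0
      linarith
    refine ⟨?_, ?_⟩
    · rw [ht, g4, zero_smul, add_zero]
    · rw [hs, g6, one_smul]
      abel

/-! ### TARGET of this job: g_head_uniq -/

theorem g_head_uniq {T : Set (Set ℂ)} {u U : ℝ} (h : NC T u U) {A B : Set ℂ} (hA : A ∈ T)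
    {q q' : ℂ} (h1 : Head A B q) (h2 : Head A B q') : q = q' := by
  obtain ⟨p, hpq, hseg, hc⟩ := h1
  obtain ⟨p', hpq', hseg', hc'⟩ := h2
  rcases hu_end p q p' q' hpq (by rw [← hseg, ← hseg']) with h3 | ⟨h3, h4⟩
  · exact h3
  · exfalso
    obtain ⟨z, hz⟩ := (g_cl h hA).2
    have k1 := hc z hz
    have k2 := hc' z hz
    rw [h3, h4] at k2
    simp only [cross, Complex.sub_re, Complex.sub_im] at k1 k2
    nlinarith

end J26092

alias g_head_uniq := J26092.g_head_uniq

namespace J26093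

/-! ### TARGET of this job: g_vfin -/

theorem g_vfin {T : Set (Set ℂ)} {u U : ℝ} (h : NC T u U) (c : ℂ) (r : ℝ) :
    {p | IsVertex T p ∧ p ∈ closedBall c r}.Finite := by
  obtain ⟨N, hN⟩ := g_locfin h r
  obtain ⟨F, hF⟩ : ∃ F : Set (Set ℂ), F = {A | A ∈ T ∧ (A ∩ closedBall c r).Nonempty} := ⟨_, rfl⟩
  have hFf : F.Finite := by
    rw [hF]
    exact (hN c).1
  have hsub : {p | IsVertex T p ∧ p ∈ closedBall c r} ⊆
      ⋃ A ∈ F, ⋃ B ∈ F, ⋃ C ∈ F, {p | A ∈ T ∧ B ∈ T ∧ C ∈ T ∧ A ≠ B ∧ A ≠ C ∧ B ≠ C ∧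
        p ∈ A ∩ B ∩ C} := by
    rintro p ⟨⟨A, hA, B, hB, C, hC, h1, h2, h3, pA, pB, pC⟩, hp⟩
    have mA : A ∈ F := by
      rw [hF]
      exact ⟨hA, p, pA, hp⟩
    have mB : B ∈ F := by
      rw [hF]
      exact ⟨hB, p, pB, hp⟩
    have mC : C ∈ F := by
      rw [hF]
      exact ⟨hC, p, pC, hp⟩
    refine Set.mem_biUnion mA (Set.mem_biUnion mB (Set.mem_biUnion mC ?_))
    exact ⟨hA, hB, hC, h1, h2, h3, ⟨pA, pB⟩, pC⟩
  refine Set.Finite.subset ?_ hsub
  apply hFf.biUnion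
  intro A _
  apply hFf.biUnion
  intro B _
  apply hFf.biUnion
  intro C _
  apply Set.Subsingleton.finite
  rintro p ⟨hA, hB, hC, h1, h2, h3, hp⟩ q ⟨-, -, -, -, -, -, hq⟩
  exact g_triple h hA hB hC h1 h2 h3 hp hq

end J26093

alias g_vfin := J26093.g_vfin

namespace J26095

/-! ### TARGET of this job: g_next -/

theorem gn_near {T : Set (Set ℂ)} {u U : ℝ} (h : NC T u U) (v : ℂ) :
    ∃ r : ℝ, 0 < r ∧ ∀ C ∈ T, (C ∩ closedBall v r).Nonempty → v ∈ C := by
  obtain ⟨N, hN⟩ := g_locfin h 1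
  have hfin := (hN v).1
  have hSfin : {C | C ∈ T ∧ (C ∩ closedBall v 1).Nonempty ∧ v ∉ C}.Finite :=
    hfin.subset (fun C hC => ⟨hC.1, hC.2.1⟩)
  have hK : IsClosed (⋃ C ∈ {C | C ∈ T ∧ (C ∩ closedBall v 1).Nonempty ∧ v ∉ C}, C) :=
    hSfin.isClosed_biUnion (fun C hC => h.closed C hC.1)
  have hvK : v ∈ (⋃ C ∈ {C | C ∈ T ∧ (C ∩ closedBall v 1).Nonempty ∧ v ∉ C}, C)ᶜ := by
    intro hv
    rw [mem_iUnion₂] at hv
    obtain ⟨C, hC, hvC⟩ := hv
    exact hC.2.2 hvC
  obtain ⟨ε, hε, hball⟩ := Metric.isOpen_iff.1 hK.isOpen_compl v hvK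
  refine ⟨min 1 (ε / 2), lt_min one_pos (half_pos hε), ?_⟩
  rintro C hC ⟨x, hxC, hx⟩
  by_contra hvC
  have hx' : dist x v ≤ min 1 (ε / 2) := hx
  have hx1 : dist x v ≤ 1 := hx'.trans (min_le_left _ _)
  have hx2 : dist x v < ε := (hx'.trans (min_le_right _ _)).trans_lt (half_lt_self hε)
  have := hball (show x ∈ ball v ε from hx2)
  apply this
  rw [mem_iUnion₂]
  exact ⟨C, ⟨hC, ⟨x, hxC, hx1⟩, hvC⟩, hxC⟩

theorem gn_arc {A : Set ℂ} (hcl : IsClosed A) (hco : Convex ℝ A) {v : ℂ} (hvA : v ∈ A)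
    (hvi : v ∉ interior A) (hne : (interior A).Nonempty) {r : ℝ} (hr : 0 < r) :
    ∃ z0 ∈ interior A, ∃ z1 ∈ A, z1 ∉ interior A ∧ z1 ≠ v ∧ dist z1 v ≤ r ∧
      cross (z1 - v) (z0 - v) < 0 := by
  obtain ⟨a0, ha0⟩ := hne
  have hav : a0 ≠ v := by
    rintro rfl
    exact hvi ha0
  have hav' : 0 < ‖a0 - v‖ := norm_pos_iff.2 (sub_ne_zero.2 hav)
  set s : ℝ := min 1 (r / ‖a0 - v‖) with hs
  have hs0 : 0 < s := lt_min one_pos (div_pos hr hav')
  have hs1 : s ≤ 1 := min_le_left _ _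
  set w : ℂ := s • (a0 - v) with hw
  have hw0 : w ≠ 0 := smul_ne_zero hs0.ne' (sub_ne_zero.2 hav)
  have hwr : ‖w‖ ≤ r := by
    rw [hw, norm_smul, Real.norm_of_nonneg hs0.le]
    calc s * ‖a0 - v‖ ≤ (r / ‖a0 - v‖) * ‖a0 - v‖ :=
          mul_le_mul_of_nonneg_right (min_le_right _ _) hav'.le
      _ = r := div_mul_cancel₀ _ hav'.ne'
  have hz0 : v + w ∈ interior A := hco.add_smul_sub_mem_interior hvA ha0 ⟨hs0, hs1⟩
  have hvw : v - w ∉ A := by
    intro hh
    apply hvi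
    have := hco.combo_interior_self_mem_interior hz0 hh (a := 1/2) (b := 1/2) (by norm_num)
      (by norm_num) (by norm_num)
    have h2 : ((1/2 : ℝ)) • (v + w) + ((1/2 : ℝ)) • (v - w) = v := by
      rw [← smul_add]
      have : v + w + (v - w) = (2 : ℝ) • v := by
        rw [two_smul]; ring
      rw [this, smul_smul]
      norm_num
    rwa [h2] at this
  -- the arc
  set f : ℝ → ℂ := fun t => v + ((Real.cos t : ℂ) + (Real.sin t : ℂ) * Complex.I) * w with hf
  have hfc : Continuous f := by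
    rw [hf]
    have h1 : Continuous (fun t : ℝ => (Real.cos t : ℂ)) :=
      Complex.continuous_ofReal.comp Real.continuous_cos
    have h2 : Continuous (fun t : ℝ => (Real.sin t : ℂ)) :=
      Complex.continuous_ofReal.comp Real.continuous_sin
    exact continuous_const.add ((h1.add (h2.mul continuous_const)).mul continuous_const)
  have hf0 : f 0 = v + w := by
    simp [hf]
  have hfpi : f Real.pi = v - w := by
    simp [hf]
    ring
  have hKc : IsCompact (Icc (0 : ℝ) Real.pi ∩ f ⁻¹' A) :=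
    isCompact_Icc.inter_right (hcl.preimage hfc)
  have hKne : (Icc (0 : ℝ) Real.pi ∩ f ⁻¹' A).Nonempty :=
    ⟨0, ⟨le_refl _, Real.pi_pos.le⟩, by
      show f 0 ∈ A
      rw [hf0]
      exact interior_subset hz0⟩
  obtain ⟨t1, ⟨⟨ht10, ht1pi⟩, ht1A⟩, ht1g⟩ := hKc.exists_isGreatest hKne
  have ht1lt : t1 < Real.pi := by
    rcases lt_or_eq_of_le ht1pi with h1 | h1
    · exact h1
    · exfalso
      apply hvw
      rw [← hfpi, ← h1]
      exact ht1A
  have ht1i : f t1 ∉ interior A := by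
    intro hh
    have hop : IsOpen (f ⁻¹' interior A) := isOpen_interior.preimage hfc
    obtain ⟨ε, hε, hball⟩ := Metric.isOpen_iff.1 hop t1 hh
    have h1 : min (t1 + ε / 2) Real.pi ∈ Icc (0 : ℝ) Real.pi ∩ f ⁻¹' A := by
      refine ⟨⟨le_min (by linarith) Real.pi_pos.le, min_le_right _ _⟩, ?_⟩
      have h3 : min (t1 + ε / 2) Real.pi ∈ ball t1 ε := by
        rw [Metric.mem_ball, Real.dist_eq, abs_lt]
        have h4 : t1 < min (t1 + ε / 2) Real.pi := lt_min (by linarith) ht1lt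
        have h5 : min (t1 + ε / 2) Real.pi ≤ t1 + ε / 2 := min_le_left _ _
        constructor <;> linarith
      have h4 : f (min (t1 + ε / 2) Real.pi) ∈ interior A := hball h3
      have h5 : f (min (t1 + ε / 2) Real.pi) ∈ A := interior_subset h4
      exact h5
    have h2 := ht1g h1
    have h4 : t1 < min (t1 + ε / 2) Real.pi := lt_min (by linarith) ht1lt
    linarith
  have ht1pos : 0 < t1 := by
    rcases lt_or_eq_of_le ht10 with h1 | h1
    · exact h1
    · exfalso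
      apply ht1i
      rw [← h1, hf0]
      exact hz0
  have hsin : 0 < Real.sin t1 := Real.sin_pos_of_pos_of_lt_pi ht1pos ht1lt
  have hnw : 0 < w.re ^ 2 + w.im ^ 2 := by
    have h1 : 0 < Complex.normSq w := Complex.normSq_pos.2 hw0
    rw [Complex.normSq_apply] at h1
    nlinarith
  have hfs : f t1 - v = ((Real.cos t1 : ℂ) + (Real.sin t1 : ℂ) * Complex.I) * w := by
    simp [hf]
  have hnorm : ‖(Real.cos t1 : ℂ) + (Real.sin t1 : ℂ) * Complex.I‖ = 1 := by
    have := Complex.norm_exp_ofReal_mul_I t1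
    rwa [Complex.exp_mul_I, ← Complex.ofReal_cos, ← Complex.ofReal_sin] at this
  have hd : ‖f t1 - v‖ = ‖w‖ := by
    rw [hfs, norm_mul, hnorm, one_mul]
  refine ⟨v + w, hz0, f t1, ht1A, ht1i, ?_, ?_, ?_⟩
  · intro hh
    apply hw0
    rw [← norm_eq_zero, ← hd, hh, sub_self, norm_zero]
  · rw [dist_eq_norm, hd]
    exact hwr
  · rw [hfs, add_sub_cancel_left]
    have hre : (((Real.cos t1 : ℂ) + (Real.sin t1 : ℂ) * Complex.I) * w).re
        = Real.cos t1 * w.re - Real.sin t1 * w.im := by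
      simp only [Complex.add_re, Complex.ofReal_re, Complex.mul_re, Complex.I_re,
        Complex.ofReal_im, Complex.I_im, Complex.add_im, Complex.mul_im]
      ring
    have him : (((Real.cos t1 : ℂ) + (Real.sin t1 : ℂ) * Complex.I) * w).im
        = Real.cos t1 * w.im + Real.sin t1 * w.re := by
      simp only [Complex.add_re, Complex.ofReal_re, Complex.mul_re, Complex.I_re,
        Complex.ofReal_im, Complex.I_im, Complex.add_im, Complex.mul_im]
      ring
    unfold cross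
    rw [hre, him]
    have : (Real.cos t1 * w.re - Real.sin t1 * w.im) * w.im
        - (Real.cos t1 * w.im + Real.sin t1 * w.re) * w.re
        = -(Real.sin t1 * (w.re ^ 2 + w.im ^ 2)) := by ring
    rw [this]
    exact neg_neg_of_pos (mul_pos hsin hnw)

theorem gn_seg_end {a b c d : ℂ} (hseg : segment ℝ a b = segment ℝ c d) : a = c ∨ a = d := by
  by_contra hcon
  push Not at hcon
  obtain ⟨hac, had⟩ := hcon
  have ha : a ∈ segment ℝ c d := hseg ▸ left_mem_segment ℝ a b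
  have hc : c ∈ segment ℝ a b := hseg ▸ left_mem_segment ℝ c d
  have hd : d ∈ segment ℝ a b := hseg ▸ right_mem_segment ℝ c d
  have hao : a ∈ openSegment ℝ c d := mem_openSegment_of_ne_left_right hac.symm had.symm ha
  obtain ⟨α, β, hα, hβ, hαβ, hα'⟩ := hao
  rw [segment_eq_image'] at hc hd
  obtain ⟨s, ⟨hs0, hs1⟩, hs⟩ := hc
  obtain ⟨t, ⟨ht0, ht1⟩, ht⟩ := hd
  simp only at hs ht
  have h1 : (α * s + β * t) • (b - a) = 0 := by
    have h2 : α • (a + s • (b - a)) + β • (a + t • (b - a)) = a := by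
      rw [hs, ht]; exact hα'
    have h3 : α • (a + s • (b - a)) + β • (a + t • (b - a))
        = (α + β) • a + (α * s + β * t) • (b - a) := by
      simp only [smul_add, add_smul, smul_smul]
      abel
    rw [h3, hαβ, one_smul] at h2
    exact add_eq_left.1 h2
  rcases smul_eq_zero.1 h1 with h2 | h2
  · have h3 : 0 ≤ α * s := mul_nonneg hα.le hs0
    have h4 : 0 ≤ β * t := mul_nonneg hβ.le ht0
    have h5 : α * s = 0 := by linarith
    have h6 : s = 0 := by
      rcases mul_eq_zero.1 h5 with h | h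
      · exact absurd h hα.ne'
      · exact h
    apply hac
    rw [← hs, h6, zero_smul, add_zero]
  · apply hac
    rw [← hs, h2, smul_zero, add_zero]

theorem gn_cross_nonneg {T : Set (Set ℂ)} {u U : ℝ} (h : NC T u U) {A : Set ℂ} (hA : A ∈ T)
    {a b : ℂ} (hpos : ∀ z ∈ interior A, 0 < cross a (z - b)) :
    ∀ z ∈ A, 0 ≤ cross a (z - b) := by
  have hc : IsClosed {z : ℂ | 0 ≤ cross a (z - b)} := by
    apply isClosed_le continuous_const
    unfold cross
    have h1 : Continuous (fun z : ℂ => (z - b).im) :=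
      Complex.continuous_im.comp (continuous_id.sub continuous_const)
    have h2 : Continuous (fun z : ℂ => (z - b).re) :=
      Complex.continuous_re.comp (continuous_id.sub continuous_const)
    exact (continuous_const.mul h1).sub (continuous_const.mul h2)
  intro z hz
  rw [← (g_cl h hA).1] at hz
  exact closure_minimal (fun x hx => (hpos x hx).le) hc hz

theorem gn_par {P Q : ℂ} (hP : P ≠ 0) (hc : cross P Q = 0) : ∃ l : ℝ, Q = l • P := by
  have hn : 0 < P.re ^ 2 + P.im ^ 2 := by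
    have h1 : 0 < Complex.normSq P := Complex.normSq_pos.2 hP
    rw [Complex.normSq_apply] at h1
    nlinarith
  unfold cross at hc
  refine ⟨(P.re * Q.re + P.im * Q.im) / (P.re ^ 2 + P.im ^ 2), ?_⟩
  apply Complex.ext
  · rw [Complex.real_smul, Complex.re_ofReal_mul, div_mul_eq_mul_div, eq_div_iff hn.ne']
    linear_combination (-P.im) * hc
  · rw [Complex.real_smul, Complex.im_ofReal_mul, div_mul_eq_mul_div, eq_div_iff hn.ne']
    linear_combination (P.re) * hc

theorem gn_uniq {T : Set (Set ℂ)} {u U : ℝ} (h : NC T u U) {A B C : Set ℂ} (hA : A ∈ T)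
    (hB : B ∈ T) (hC : C ∈ T) (hAB : A ≠ B) (hAC : A ≠ C) {v : ℂ} (h1 : Head A B v)
    (h2 : Head A C v) : C = B := by
  by_contra hCB
  obtain ⟨p, hpv, hseg, hpos⟩ := h1
  obtain ⟨p2, hp2v, hseg2, hpos2⟩ := h2
  have hnn := gn_cross_nonneg h hA hpos
  have hnn2 := gn_cross_nonneg h hA hpos2
  have hpA : p ∈ A ∩ B := by rw [hseg]; exact left_mem_segment ℝ p v
  have hvA : v ∈ A ∩ B := by rw [hseg]; exact right_mem_segment ℝ p v
  have hp2A : p2 ∈ A ∩ C := by rw [hseg2]; exact left_mem_segment ℝ p2 v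
  have hv2A : v ∈ A ∩ C := by rw [hseg2]; exact right_mem_segment ℝ p2 v
  have e1 := hnn p2 hp2A.1
  have e2 := hnn2 p hpA.1
  have hP0 : p - v ≠ 0 := sub_ne_zero.2 hpv
  have hP20 : p2 - v ≠ 0 := sub_ne_zero.2 hp2v
  have hc0 : cross (p - v) (p2 - v) = 0 := by
    unfold cross at e1 e2 ⊢
    simp only [Complex.sub_re, Complex.sub_im] at e1 e2 ⊢
    apply le_antisymm
    · nlinarith
    · nlinarith
  obtain ⟨l, hl⟩ := gn_par hP0 hc0
  have hl0 : l ≠ 0 := by
    rintro rfl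
    rw [zero_smul] at hl
    exact hP20 hl
  rcases lt_or_gt_of_ne hl0 with hneg | hposl
  · obtain ⟨a0, ha0⟩ := (g_cl h hA).2
    have g1 := hpos a0 ha0
    have g2 := hpos2 a0 ha0
    have k1 : cross (v - p) (a0 - p) = - cross (p - v) (a0 - v) := by
      unfold cross
      simp only [Complex.sub_re, Complex.sub_im]
      ring
    have k2 : cross (v - p2) (a0 - p2) = - cross (p2 - v) (a0 - v) := by
      unfold cross
      simp only [Complex.sub_re, Complex.sub_im]
      ring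
    have k3 : cross (p2 - v) (a0 - v) = l * cross (p - v) (a0 - v) := by
      rw [hl]
      unfold cross
      rw [Complex.real_smul, Complex.re_ofReal_mul, Complex.im_ofReal_mul]
      ring
    rw [k1] at g1
    rw [k2, k3] at g2
    nlinarith
  · set m : ℝ := min 1 l with hm
    have hm0 : 0 < m := lt_min one_pos hposl
    have hm1 : m ≤ 1 := min_le_left _ _
    have hml : m ≤ l := min_le_right _ _
    have hw1 : v + m • (p - v) ∈ segment ℝ p v := by
      rw [segment_symm, segment_eq_image']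
      exact ⟨m, ⟨hm0.le, hm1⟩, rfl⟩
    have hw2 : v + m • (p - v) ∈ segment ℝ p2 v := by
      rw [segment_symm, segment_eq_image']
      refine ⟨m / l, ⟨(div_pos hm0 hposl).le, (div_le_one hposl).2 hml⟩, ?_⟩
      simp only
      rw [hl, smul_smul, div_mul_cancel₀ _ hl0]
    rw [← hseg] at hw1
    rw [← hseg2] at hw2
    have := g_triple h hA hB hC hAB hAC (fun e => hCB e.symm) (p := v + m • (p - v)) (q := v)
      ⟨hw1, hw2.2⟩ ⟨hvA, hv2A.2⟩
    have h3 : m • (p - v) = 0 := add_eq_left.1 this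
    rcases smul_eq_zero.1 h3 with h4 | h4
    · exact hm0.ne' h4
    · exact hP0 h4

theorem g_next {T : Set (Set ℂ)} {u U : ℝ} (h : NC T u U) {v : ℂ} (hv : IsVertex T v)
    {A : Set ℂ} (hA : A ∈ T) (hvA : v ∈ A) :
    ∃ B ∈ T, Adj A B ∧ Head A B v ∧ ∀ C ∈ T, Adj A C → Head A C v → C = B := by
  obtain ⟨A1, hA1, A2, hA2, A3, hA3, h12, h13, h23, hv1, hv2, hv3⟩ := hv
  have hv : IsVertex T v := ⟨A1, hA1, A2, hA2, A3, hA3, h12, h13, h23, hv1, hv2, hv3⟩
  have hvi : v ∉ interior A := by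
    intro hh
    have e1 := g_int h hA hA1 hh hv1
    have e2 := g_int h hA hA2 hh hv2
    exact h12 (e1.trans e2.symm)
  obtain ⟨r, hr, hnear⟩ := gn_near h v
  obtain ⟨z0, hz0, z1, hz1A, hz1i, hz1v, hz1r, hcr⟩ :=
    gn_arc (h.closed A hA) (h.conv A hA) hvA hvi (g_cl h hA).2 hr
  obtain ⟨B, hB, hz1B, hBA⟩ : ∃ B ∈ T, z1 ∈ B ∧ B ≠ A := by
    by_contra hcon
    push Not at hcon
    exact hz1i (g_one h hA hcon)
  have hvB : v ∈ B := hnear B hB ⟨z1, hz1B, hz1r⟩
  have had : Adj A B := ⟨hBA.symm, v, ⟨hvA, hvB⟩, z1, ⟨hz1A, hz1B⟩, hz1v.symm⟩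
  obtain ⟨p', q', hp'q', hseg', -, -, hopen⟩ := g_adj h hA hB had
  have hvend : v = p' ∨ v = q' := by
    by_contra hcon
    push Not at hcon
    have hvs : v ∈ segment ℝ p' q' := by
      rw [← hseg']
      exact ⟨hvA, hvB⟩
    have hvo := mem_openSegment_of_ne_left_right hcon.1.symm hcon.2.symm hvs
    have e1 := hopen v hvo A1 hA1 hv1
    have e2 := hopen v hvo A2 hA2 hv2
    have e3 := hopen v hvo A3 hA3 hv3
    rcases e1 with e1 | e1 <;> rcases e2 with e2 | e2 <;> rcases e3 with e3 | e3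
    · exact h12 (e1.trans e2.symm)
    · exact h12 (e1.trans e2.symm)
    · exact h13 (e1.trans e3.symm)
    · exact h23 (e2.trans e3.symm)
    · exact h23 (e2.trans e3.symm)
    · exact h13 (e1.trans e3.symm)
    · exact h12 (e1.trans e2.symm)
    · exact h12 (e1.trans e2.symm)
  obtain ⟨p, q, hpq, hseg, hH1, hH2, hvp, hvq⟩ := g_head h hA hB had
  have hvpq : v = p ∨ v = q := by
    rcases hvend with e | e
    · apply gn_seg_end (b := q')
      rw [e, ← hseg', hseg]
    · apply gn_seg_end (b := p')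
      rw [e, segment_symm, ← hseg', hseg]
  have hHv : Head A B v := by
    rcases hvpq with e | e
    · exfalso
      subst e
      obtain ⟨p'', hp''q, hseg'', hpos⟩ := hH1
      have e3 : p'' = v := by
        have : segment ℝ p'' q = segment ℝ v q := by rw [← hseg'', hseg]
        rcases gn_seg_end this with e4 | e4
        · exact e4
        · exact absurd e4 hp''q
      subst e3
      have hz1s : z1 ∈ segment ℝ p'' q := by
        rw [← hseg]
        exact ⟨hz1A, hz1B⟩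
      rw [segment_eq_image'] at hz1s
      obtain ⟨s, ⟨hs0, hs1⟩, hs⟩ := hz1s
      simp only at hs
      have k1 : z1 - p'' = s • (q - p'') := by
        rw [← hs, add_sub_cancel_left]
      have k2 : cross (z1 - p'') (z0 - p'') = s * cross (q - p'') (z0 - p'') := by
        rw [k1]
        unfold cross
        rw [Complex.real_smul, Complex.re_ofReal_mul, Complex.im_ofReal_mul]
        ring
      have k3 := hpos z0 hz0
      rw [k2] at hcr
      have : 0 ≤ s * cross (q - p'') (z0 - p'') := mul_nonneg hs0 k3.le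
      linarith
    · rw [e]
      exact hH1
  refine ⟨B, hB, had, hHv, ?_⟩
  intro C hC hadC hHC
  exact gn_uniq h hA hB hC hBA.symm hadC.1 hHv hHC

end J26095

alias g_next := J26095.g_next

namespace J26096

/-! ### TARGET of this job: g_prev -/

noncomputable def cj147 : ℂ ≃ₗᵢ[ℝ] ℂ := Complex.conjLIE

theorem cj147_cj (z : ℂ) : cj147 (cj147 z) = z := by simp [cj147]

theorem cj147_im_im (A : Set ℂ) : cj147 '' (cj147 '' A) = A := by
  rw [← image_comp]
  have : (⇑cj147 ∘ ⇑cj147) = id := funext cj147_cj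
  rw [this, image_id]

theorem cross_cj147 (a b : ℂ) : cross (cj147 a) (cj147 b) = - cross a b := by
  simp [cross, cj147]
  ring

theorem line147 {w r : ℂ} (hw : w ≠ 0) (h : cross w r = 0) :
    r = (dot w r / (w.re ^ 2 + w.im ^ 2)) • w := by
  have hN : w.re ^ 2 + w.im ^ 2 ≠ 0 := by
    intro h0
    apply hw
    apply Complex.ext
    · simp only [Complex.zero_re]; nlinarith [sq_nonneg w.re, sq_nonneg w.im]
    · simp only [Complex.zero_im]; nlinarith [sq_nonneg w.re, sq_nonneg w.im]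
  unfold cross at h
  apply Complex.ext
  · simp only [Complex.real_smul, Complex.mul_re, Complex.ofReal_re, Complex.ofReal_im, zero_mul,
      sub_zero]
    rw [div_mul_eq_mul_div, eq_div_iff hN]
    unfold dot
    linear_combination (-w.im) * h
  · simp only [Complex.real_smul, Complex.mul_im, Complex.ofReal_re, Complex.ofReal_im, zero_mul,
      add_zero]
    rw [div_mul_eq_mul_div, eq_div_iff hN]
    unfold dot
    linear_combination w.re * h

theorem opp147 {A B : Set ℂ} (hA : Convex ℝ A) (hB : Convex ℝ B)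
    (hd : Disjoint (interior A) (interior B)) {a p v : ℂ} (ha : a ∈ interior A) (hpv : p ≠ v)
    (hseg : segment ℝ p v ⊆ A ∩ B) (hpos : 0 < cross (v - p) (a - p)) :
    ∀ z ∈ interior B, cross (v - p) (z - p) < 0 := by
  intro z hz
  by_contra hcon
  push Not at hcon
  have hw : v - p ≠ 0 := sub_ne_zero.2 hpv.symm
  have hN : 0 < (v - p).re ^ 2 + (v - p).im ^ 2 := by
    rcases lt_or_eq_of_le (by positivity : 0 ≤ (v - p).re ^ 2 + (v - p).im ^ 2) with h | h
    · exact h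
    · exfalso
      apply hw
      apply Complex.ext
      · simp only [Complex.zero_re]; nlinarith [sq_nonneg (v - p).re, sq_nonneg (v - p).im]
      · simp only [Complex.zero_im]; nlinarith [sq_nonneg (v - p).re, sq_nonneg (v - p).im]
  -- a point of the interior of B strictly on the left
  obtain ⟨z1, hz1, hz1p⟩ : ∃ z1 ∈ interior B, 0 < cross (v - p) (z1 - p) := by
    have hc : Continuous (fun ε : ℝ => z + (ε : ℂ) * (Complex.I * (v - p))) := by fun_prop
    have h0 : (fun ε : ℝ => z + (ε : ℂ) * (Complex.I * (v - p))) 0 ∈ interior B := by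
      simpa using hz
    have h1 : ∀ᶠ ε : ℝ in nhds (0 : ℝ), z + (ε : ℂ) * (Complex.I * (v - p)) ∈ interior B :=
      hc.continuousAt.eventually (isOpen_interior.mem_nhds h0)
    have h2 : ∀ᶠ ε : ℝ in nhdsWithin (0 : ℝ) (Ioi 0),
        z + (ε : ℂ) * (Complex.I * (v - p)) ∈ interior B :=
      h1.filter_mono nhdsWithin_le_nhds
    obtain ⟨ε, hε, hε0⟩ := (h2.and self_mem_nhdsWithin).exists
    have hε0' : 0 < ε := hε0
    refine ⟨_, hε, ?_⟩
    have e : cross (v - p) (z + (ε : ℂ) * (Complex.I * (v - p)) - p) =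
        cross (v - p) (z - p) + ε * ((v - p).re ^ 2 + (v - p).im ^ 2) := by
      unfold cross
      simp only [Complex.sub_re, Complex.sub_im, Complex.add_re, Complex.add_im, Complex.mul_re,
        Complex.mul_im, Complex.ofReal_re, Complex.ofReal_im, Complex.I_re, Complex.I_im]
      ring
    rw [e]
    positivity
  set ca := cross (v - p) (a - p) with hca
  set cz := cross (v - p) (z1 - p) with hcz
  set m : ℂ := p + (1 / 2 : ℝ) • (v - p) with hm
  set q : ℝ → ℂ := fun δ => (1 - δ * ca)⁻¹ • (m + (δ * cz) • (a - m) - (δ * ca) • z1) with hq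
  set tt : ℝ → ℝ := fun δ => dot (v - p) (q δ - p) / ((v - p).re ^ 2 + (v - p).im ^ 2) with htt
  have hq0 : q 0 = m := by simp [hq]
  have htt0 : tt 0 = 1 / 2 := by
    simp only [htt]
    rw [hq0, hm]
    unfold dot
    simp only [Complex.sub_re, Complex.sub_im, Complex.add_re, Complex.add_im, Complex.real_smul,
      Complex.mul_re, Complex.mul_im, Complex.ofReal_re, Complex.ofReal_im]
    rw [div_eq_iff]
    · ring
    · have := hN.ne'
      simpa only [Complex.sub_re, Complex.sub_im] using this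
  have hqc : ContinuousAt q 0 := by
    have h1 : ContinuousAt (fun δ : ℝ => (1 - δ * ca)⁻¹) 0 := by
      apply ContinuousAt.inv₀ (by fun_prop)
      simp
    exact h1.smul (by fun_prop)
  have httc : ContinuousAt tt 0 := by
    have h1 : ContinuousAt (fun δ => (q δ).re) 0 := Complex.continuous_re.continuousAt.comp hqc
    have h2 : ContinuousAt (fun δ => (q δ).im) 0 := Complex.continuous_im.continuousAt.comp hqc
    have h3 : tt = fun δ => ((v - p).re * ((q δ).re - p.re) + (v - p).im * ((q δ).im - p.im)) /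
        ((v - p).re ^ 2 + (v - p).im ^ 2) := by
      funext δ
      simp only [htt, dot, Complex.sub_re, Complex.sub_im]
    rw [h3]
    exact ((continuousAt_const.mul (h1.sub continuousAt_const)).add
      (continuousAt_const.mul (h2.sub continuousAt_const))).div_const _
  have e1 : ∀ᶠ δ in nhdsWithin (0 : ℝ) (Ioi 0), tt δ ∈ Ioo (0 : ℝ) 1 := by
    have : Ioo (0 : ℝ) 1 ∈ nhds (tt 0) := by
      rw [htt0]; exact Ioo_mem_nhds (by norm_num) (by norm_num)
    exact (httc.eventually this).filter_mono nhdsWithin_le_nhds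
  have e2 : ∀ᶠ δ in nhdsWithin (0 : ℝ) (Ioi 0), δ * cz < 1 := by
    have hc : ContinuousAt (fun δ : ℝ => δ * cz) 0 := by fun_prop
    have : Iio (1 : ℝ) ∈ nhds ((fun δ : ℝ => δ * cz) 0) := by
      simp only [zero_mul]; exact Iio_mem_nhds one_pos
    exact (hc.eventually this).filter_mono nhdsWithin_le_nhds
  have e3 : ∀ᶠ δ in nhdsWithin (0 : ℝ) (Ioi 0), δ * ca < 1 := by
    have hc : ContinuousAt (fun δ : ℝ => δ * ca) 0 := by fun_prop
    have : Iio (1 : ℝ) ∈ nhds ((fun δ : ℝ => δ * ca) 0) := by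
      simp only [zero_mul]; exact Iio_mem_nhds one_pos
    exact (hc.eventually this).filter_mono nhdsWithin_le_nhds
  obtain ⟨δ, ⟨⟨h12, h3⟩, h4⟩, h5⟩ := (((e1.and e2).and e3).and self_mem_nhdsWithin).exists
  have h1 : 0 < tt δ := h12.1
  have h2 : tt δ < 1 := h12.2
  have hδ : 0 < δ := h5
  have hg1 : 1 - δ * ca ≠ 0 := by linarith
  have hqδ : (1 - δ * ca) • q δ = m + (δ * cz) • (a - m) - (δ * ca) • z1 := by
    simp only [hq]
    rw [smul_smul, mul_inv_cancel₀ hg1, one_smul]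
  have hcross : cross (v - p) (q δ - p) = 0 := by
    have k1 : (1 - δ * ca) * cross (v - p) (q δ - p) =
        cross (v - p) ((1 - δ * ca) • q δ - (1 - δ * ca) • p) := by
      unfold cross
      simp only [Complex.sub_re, Complex.sub_im, Complex.real_smul,
        Complex.mul_re, Complex.mul_im, Complex.ofReal_re, Complex.ofReal_im]
      ring
    have k2 : cross (v - p) ((1 - δ * ca) • q δ - (1 - δ * ca) • p) = 0 := by
      rw [hqδ]
      have k3 : cross (v - p) (m + (δ * cz) • (a - m) - (δ * ca) • z1 - (1 - δ * ca) • p) =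
          (δ * cz) * cross (v - p) (a - p) - (δ * ca) * cross (v - p) (z1 - p) := by
        rw [hm]
        generalize δ * cz = s
        generalize δ * ca = g
        unfold cross
        simp only [Complex.sub_re, Complex.sub_im, Complex.add_re, Complex.add_im,
          Complex.real_smul, Complex.mul_re, Complex.mul_im, Complex.ofReal_re,
          Complex.ofReal_im]
        ring
      rw [k3, ← hca, ← hcz]
      ring
    rw [k2] at k1
    exact (mul_eq_zero.1 k1).resolve_left hg1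
  have hqseg : q δ ∈ segment ℝ p v := by
    rw [segment_eq_image']
    refine ⟨tt δ, ⟨h1.le, h2.le⟩, ?_⟩
    have := line147 hw hcross
    show p + tt δ • (v - p) = q δ
    simp only [htt]
    rw [← this]
    ring
  have hmseg : m ∈ segment ℝ p v := by
    rw [segment_eq_image']
    exact ⟨1 / 2, ⟨by norm_num, by norm_num⟩, rfl⟩
  have hyA : m + (δ * cz) • (a - m) ∈ interior A :=
    hA.add_smul_sub_mem_interior (hseg hmseg).1 ha ⟨by positivity, h3.le⟩
  have hyB : q δ + (δ * ca) • (z1 - q δ) ∈ interior B :=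
    hB.add_smul_sub_mem_interior (hseg hqseg).2 hz1 ⟨by positivity, h4.le⟩
  have heq : q δ + (δ * ca) • (z1 - q δ) = m + (δ * cz) • (a - m) := by
    have : q δ + (δ * ca) • (z1 - q δ) = (1 - δ * ca) • q δ + (δ * ca) • z1 := by
      rw [smul_sub, sub_smul, one_smul]
      abel
    rw [this, hqδ]
    abel
  rw [heq] at hyB
  exact Set.disjoint_left.1 hd hyA hyB

theorem opp147' {A B : Set ℂ} (hA : Convex ℝ A) (hB : Convex ℝ B)
    (hd : Disjoint (interior A) (interior B)) {a p v : ℂ} (ha : a ∈ interior A) (hpv : p ≠ v)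
    (hseg : segment ℝ p v ⊆ A ∩ B) (hneg : cross (v - p) (a - p) < 0) :
    ∀ z ∈ interior B, 0 < cross (v - p) (z - p) := by
  have hsw : ∀ z : ℂ, cross (p - v) (z - v) = - cross (v - p) (z - p) := by
    intro z
    unfold cross
    simp only [Complex.sub_re, Complex.sub_im]
    ring
  have h := opp147 hA hB hd ha hpv.symm (by rw [segment_symm]; exact hseg)
    (by rw [hsw]; linarith)
  intro z hz
  have := h z hz
  rw [hsw] at this
  linarith

theorem int_nonempty147 {T : Set (Set ℂ)} {u U : ℝ} (h : NC T u U) {A : Set ℂ} (hA : A ∈ T) :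
    (interior A).Nonempty := by
  obtain ⟨c, hc⟩ := h.inr A hA
  exact ⟨c, interior_mono hc (ball_subset_interior_closedBall (mem_ball_self h.upos))⟩

theorem NC_cj147 {T : Set (Set ℂ)} {u U : ℝ} (h : NC T u U) :
    NC ((fun A => cj147 '' A) '' T) u U := by
  have hint : ∀ A : Set ℂ, interior (cj147 '' A) = cj147 '' interior A := fun A =>
    (cj147.toHomeomorph.image_interior A).symm
  refine ⟨h.upos, ?_, ?_, ?_, ?_, ?_, ?_⟩
  · rintro _ ⟨A, hA, rfl⟩
    exact cj147.toHomeomorph.isClosedMap _ (h.closed A hA)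
  · rintro _ ⟨A, hA, rfl⟩
    exact (h.conv A hA).linear_image cj147.toLinearEquiv.toLinearMap
  · intro p
    obtain ⟨A, hA, hp⟩ := h.cover (cj147 p)
    exact ⟨_, ⟨A, hA, rfl⟩, ⟨cj147 p, hp, cj147_cj p⟩⟩
  · rintro _ ⟨A, hA, rfl⟩ _ ⟨B, hB, rfl⟩ hne
    have hAB : A ≠ B := fun e => hne (by rw [e])
    simp only
    rw [hint, hint]
    exact (Set.disjoint_image_iff cj147.injective).2 (h.disj A hA B hB hAB)
  · rintro _ ⟨A, hA, rfl⟩
    obtain ⟨c, hc⟩ := h.inr A hA
    refine ⟨cj147 c, ?_⟩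
    rw [← cj147.image_closedBall]
    exact image_mono hc
  · rintro _ ⟨A, hA, rfl⟩
    obtain ⟨c, hc⟩ := h.outr A hA
    refine ⟨cj147 c, ?_⟩
    rw [← cj147.image_closedBall]
    exact image_mono hc

theorem im_inj147 : Function.Injective (fun A : Set ℂ => cj147 '' A) :=
  cj147.injective.image_injective

theorem Adj_cj147 {A B : Set ℂ} (h : Adj A B) : Adj (cj147 '' A) (cj147 '' B) := by
  refine ⟨fun e => h.1 (im_inj147 e), ?_⟩
  rw [← image_inter cj147.injective]
  exact h.2.image cj147.injective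

theorem seg_cj147 (p q : ℂ) : cj147 '' segment ℝ p q = segment ℝ (cj147 p) (cj147 q) :=
  image_segment ℝ cj147.toLinearEquiv.toLinearMap.toAffineMap p q

/-- heads of the reflected tiling -/
theorem Head_cj147 {T : Set (Set ℂ)} {u U : ℝ} (h : NC T u U) {A C : Set ℂ} (hA : A ∈ T)
    (hC : C ∈ T) (hne : A ≠ C) {v : ℂ} :
    Head (cj147 '' A) (cj147 '' C) (cj147 v) ↔ Head C A v := by
  have hint : ∀ A : Set ℂ, interior (cj147 '' A) = cj147 '' interior A := fun A =>
    (cj147.toHomeomorph.image_interior A).symm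
  constructor
  · rintro ⟨p', hp', hseg, hcr⟩
    have hp : p' = cj147 (cj147 p') := (cj147_cj p').symm
    rw [hp] at hp' hseg hcr
    set p := cj147 p'
    have hpv : p ≠ v := fun e => hp' (by rw [e])
    have hs : A ∩ C = segment ℝ p v := by
      apply im_inj147
      simp only
      rw [image_inter cj147.injective, hseg, seg_cj147]
    refine ⟨p, hpv, by rw [inter_comm]; exact hs, ?_⟩
    obtain ⟨a, ha⟩ := int_nonempty147 h hA
    refine opp147' (h.conv A hA) (h.conv C hC) (h.disj A hA C hC hne) ha hpv hs.ge ?_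
    have := hcr (cj147 a) (by rw [hint]; exact ⟨a, ha, rfl⟩)
    rw [← map_sub, ← map_sub, cross_cj147] at this
    linarith
  · rintro ⟨p, hpv, hseg, hcr⟩
    refine ⟨cj147 p, fun e => hpv (cj147.injective e), ?_, ?_⟩
    · rw [← image_inter cj147.injective, inter_comm, hseg, seg_cj147]
    · intro z hz
      rw [hint] at hz
      obtain ⟨w, hw, rfl⟩ := hz
      rw [← map_sub, ← map_sub, cross_cj147]
      obtain ⟨c, hc⟩ := int_nonempty147 h hC
      have := opp147 (h.conv C hC) (h.conv A hA) (h.disj C hC A hA hne.symm) hc hpv hseg.ge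
        (hcr c hc) w hw
      linarith

theorem g_prev {T : Set (Set ℂ)} {u U : ℝ} (h : NC T u U) {v : ℂ} (hv : IsVertex T v)
    {A : Set ℂ} (hA : A ∈ T) (hvA : v ∈ A) :
    ∃ B ∈ T, Adj B A ∧ Head B A v ∧ ∀ C ∈ T, Adj C A → Head C A v → C = B := by
  have hv' : IsVertex ((fun A => cj147 '' A) '' T) (cj147 v) := by
    obtain ⟨A1, h1, A2, h2, A3, h3, h12, h13, h23, hv1, hv2, hv3⟩ := hv
    exact ⟨_, ⟨A1, h1, rfl⟩, _, ⟨A2, h2, rfl⟩, _, ⟨A3, h3, rfl⟩, fun e => h12 (im_inj147 e),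
      fun e => h13 (im_inj147 e), fun e => h23 (im_inj147 e), ⟨v, hv1, rfl⟩, ⟨v, hv2, rfl⟩,
      ⟨v, hv3, rfl⟩⟩
  obtain ⟨B', ⟨B, hB, rfl⟩, hadj, hhead, huniq⟩ := g_next (NC_cj147 h) hv'
    (A := cj147 '' A) ⟨A, hA, rfl⟩ ⟨v, hvA, rfl⟩
  have hadj' : Adj A B := by
    have := Adj_cj147 hadj
    rwa [cj147_im_im, cj147_im_im] at this
  have hsymm : ∀ X Y : Set ℂ, Adj X Y → Adj Y X := fun X Y hXY =>
    ⟨hXY.1.symm, by rw [inter_comm]; exact hXY.2⟩
  refine ⟨B, hB, hsymm _ _ hadj', (Head_cj147 h hA hB hadj'.1).1 hhead, ?_⟩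
  intro C hC hCA hCh
  exact im_inj147 (huniq _ ⟨C, hC, rfl⟩ (Adj_cj147 (hsymm _ _ hCA))
    ((Head_cj147 h hA hC hCA.1.symm).2 hCh))

end J26096

alias g_prev := J26096.g_prev

namespace J26094

/-! ### TARGET of this job: g_walk -/


theorem g_walk_closed {T : Set (Set ℂ)} {u U : ℝ} (h : NC T u U) (F : Set (Set ℂ)) (hF : F ⊆ T) :
    IsClosed (⋃ C : F, (C : Set ℂ)) := by
  refine LocallyFinite.isClosed_iUnion ?_ (fun C => h.closed _ (hF C.2))
  intro x
  refine ⟨closedBall x 1, closedBall_mem_nhds x one_pos, ?_⟩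
  obtain ⟨N, hN⟩ := g_locfin h 1
  have h1 : (Subtype.val ⁻¹' {A | A ∈ T ∧ (A ∩ closedBall x 1).Nonempty} : Set F).Finite :=
    (hN x).1.preimage Subtype.val_injective.injOn
  refine h1.subset fun C hC => ?_
  exact ⟨hF C.2, hC⟩

theorem g_walk {T : Set (Set ℂ)} {u U : ℝ} (h : NC T u U) (S : Set ℂ) (hS : IsPreconnected S)
    (hSv : ∀ p ∈ S, ¬ IsVertex T p) {A B : Set ℂ} (hA : A ∈ T) (hB : B ∈ T)
    (hAS : (A ∩ S).Nonempty) (hBS : (B ∩ S).Nonempty) :
    Jn Adj {C | C ∈ T ∧ (C ∩ S).Nonempty} A B := by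
  by_contra hcon
  let R : Set (Set ℂ) := {C | C ∈ T ∧ Jn Adj {C | C ∈ T ∧ (C ∩ S).Nonempty} A C}
  let R' : Set (Set ℂ) := {C | C ∈ T ∧ ¬ Jn Adj {C | C ∈ T ∧ (C ∩ S).Nonempty} A C}
  have c1 := g_walk_closed h R (fun C hC => hC.1)
  have c2 := g_walk_closed h R' (fun C hC => hC.1)
  have hcov : S ⊆ (⋃ C : R, (C : Set ℂ)) ∪ (⋃ C : R', (C : Set ℂ)) := by
    intro x _
    obtain ⟨C, hC, hxC⟩ := h.cover x
    by_cases hJ : Jn Adj {C | C ∈ T ∧ (C ∩ S).Nonempty} A C
    · exact Or.inl (Set.mem_iUnion.2 ⟨⟨C, hC, hJ⟩, hxC⟩)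
    · exact Or.inr (Set.mem_iUnion.2 ⟨⟨C, hC, hJ⟩, hxC⟩)
  have hAA : Jn Adj {C | C ∈ T ∧ (C ∩ S).Nonempty} A A := ⟨⟨hA, hAS⟩, Relation.ReflTransGen.refl⟩
  have n1 : (S ∩ ⋃ C : R, (C : Set ℂ)).Nonempty := by
    obtain ⟨x, hxA, hxS⟩ := hAS
    exact ⟨x, hxS, Set.mem_iUnion.2 ⟨⟨A, hA, hAA⟩, hxA⟩⟩
  have n2 : (S ∩ ⋃ C : R', (C : Set ℂ)).Nonempty := by
    obtain ⟨x, hxB, hxS⟩ := hBS
    exact ⟨x, hxS, Set.mem_iUnion.2 ⟨⟨B, hB, hcon⟩, hxB⟩⟩
  obtain ⟨x, hxS, hx1, hx2⟩ := isPreconnected_closed_iff.1 hS _ _ c1 c2 hcov n1 n2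
  obtain ⟨⟨C, hC, hCJ⟩, hxC⟩ := Set.mem_iUnion.1 hx1
  obtain ⟨⟨D, hD, hDJ⟩, hxD⟩ := Set.mem_iUnion.1 hx2
  have hne : C ≠ D := by
    rintro rfl
    exact hDJ hCJ
  have hadj := g_nv h hC hD hne hxC hxD (hSv x hxS)
  exact hDJ ⟨hCJ.1, hCJ.2.tail ⟨hadj, hD, x, hxD, hxS⟩⟩

end J26094

alias g_walk := J26094.g_walk

namespace J26097

/-! ### TARGET of this job: g_fr -/

theorem g_fr_circle (w : ℂ) (hw : ‖w‖ = 1) :
    sphere (0 : ℂ) 1 \ {w} =
      (fun θ : ℝ => w * Complex.exp (θ * Complex.I)) '' Ioo 0 (2 * Real.pi) := by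
  have hw0 : w ≠ 0 := by
    intro h
    rw [h, norm_zero] at hw
    exact zero_ne_one hw
  ext z
  constructor
  · rintro ⟨hz, hzw⟩
    rw [mem_sphere_zero_iff_norm] at hz
    have hzw' : z ≠ w := fun h => hzw h
    have hn : ‖z / w‖ = 1 := by rw [norm_div, hz, hw, div_one]
    have hexp : Complex.exp ((Complex.arg (z / w) : ℝ) * Complex.I) = z / w := by
      have := Complex.norm_mul_exp_arg_mul_I (z / w)
      rw [hn] at this
      simpa using this
    have hz2 : z = w * (z / w) := by field_simp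
    have h1 := Complex.neg_pi_lt_arg (z / w)
    have h2 := Complex.arg_le_pi (z / w)
    have hpi := Real.pi_pos
    rcases lt_trichotomy (Complex.arg (z / w)) 0 with h | h | h
    · refine ⟨Complex.arg (z / w) + 2 * Real.pi, ⟨by linarith, by linarith⟩, ?_⟩
      have e : ((Complex.arg (z / w) + 2 * Real.pi : ℝ) : ℂ) * Complex.I =
          (Complex.arg (z / w) : ℝ) * Complex.I + 2 * Real.pi * Complex.I := by
        push_cast
        ring
      beta_reduce
      rw [e, Complex.exp_add, Complex.exp_two_pi_mul_I, mul_one, hexp]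
      exact hz2.symm
    · exfalso
      rw [h] at hexp
      simp only [Complex.ofReal_zero, zero_mul, Complex.exp_zero] at hexp
      apply hzw'
      rw [hz2, ← hexp, mul_one]
    · refine ⟨Complex.arg (z / w), ⟨h, by linarith⟩, ?_⟩
      beta_reduce
      rw [hexp]
      exact hz2.symm
  · rintro ⟨θ, ⟨h1, h2⟩, rfl⟩
    constructor
    · rw [mem_sphere_zero_iff_norm, norm_mul, hw, Complex.norm_exp_ofReal_mul_I, mul_one]
    · intro h
      have h' : w * Complex.exp (θ * Complex.I) = w := h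
      have h3 : Complex.exp (θ * Complex.I) = 1 := by
        have : w * Complex.exp (θ * Complex.I) = w * 1 := by rw [h', mul_one]
        exact mul_left_cancel₀ hw0 this
      rw [Complex.exp_eq_one_iff] at h3
      obtain ⟨n, hn⟩ := h3
      have h4 : (θ : ℂ) = ((n * (2 * Real.pi) : ℝ) : ℂ) := by
        have h5 : (θ : ℂ) * Complex.I = ((n * (2 * Real.pi) : ℝ) : ℂ) * Complex.I := by
          rw [hn]
          push_cast
          ring
        exact mul_right_cancel₀ Complex.I_ne_zero h5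
      have h6 : θ = n * (2 * Real.pi) := by exact_mod_cast h4
      have hpi := Real.pi_pos
      rw [h6] at h1 h2
      have h7 : (0 : ℝ) < n := by
        by_contra hc
        have : (n : ℝ) * (2 * Real.pi) ≤ 0 :=
          mul_nonpos_of_nonpos_of_nonneg (not_lt.1 hc) (by positivity)
        linarith
      have h8 : (n : ℝ) < 1 := by
        by_contra hc
        have : 1 * (2 * Real.pi) ≤ (n : ℝ) * (2 * Real.pi) :=
          mul_le_mul_of_nonneg_right (not_lt.1 hc) (by positivity)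
        linarith
      have h9 : (0 : ℤ) < n := by exact_mod_cast h7
      have h10 : n < (1 : ℤ) := by exact_mod_cast h8
      omega

theorem g_fr_sphere (w : ℂ) : IsPreconnected (sphere (0 : ℂ) 1 \ {w}) := by
  by_cases hw : ‖w‖ = 1
  · rw [g_fr_circle w hw]
    apply isPreconnected_Ioo.image
    apply Continuous.continuousOn
    fun_prop
  · have : sphere (0 : ℂ) 1 \ {w} = sphere (0 : ℂ) 1 := by
      apply Set.sdiff_singleton_eq_self
      rw [mem_sphere_zero_iff_norm]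
      exact hw
    rw [this]
    apply isPreconnected_sphere
    rw [Complex.rank_real_complex]
    exact_mod_cast Nat.one_lt_two

theorem g_fr {T : Set (Set ℂ)} {u U : ℝ} (h : NC T u U) {A : Set ℂ} (hA : A ∈ T) (v0 : ℂ) :
    IsPreconnected (frontier A \ {v0}) := by
  have hne := (g_cl h hA).2
  obtain ⟨c, hc⟩ := h.outr A hA
  obtain ⟨e, -, -, he⟩ := exists_homeomorph_image_interior_closure_frontier_eq_unitBall
    (h.conv A hA) hne (Metric.isBounded_closedBall.subset hc)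
  have h1 : frontier A \ {v0} = e.symm '' (sphere (0 : ℂ) 1 \ {e v0}) := by
    rw [← he, Set.image_sdiff e.symm.injective, Set.image_singleton, e.symm_apply_apply,
      Set.image_image]
    simp
  rw [h1]
  exact (g_fr_sphere _).image _ e.symm.continuous.continuousOn

end J26097

alias g_fr := J26097.g_fr

namespace J26098

/-! ### TARGET of this job: g_bd -/

theorem g_bd_aux {T : Set (Set ℂ)} {u U : ℝ} (h : NC T u U) {A : Set ℂ} (hA : A ∈ T) (v0 : ℂ)
    (f : ℂ → ℤ)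
    (hf : ∀ B ∈ T, Adj A B → v0 ∉ A ∩ B → ∀ p q, A ∩ B = segment ℝ p q → f p = f q)
    (hv0 : v0 ∉ A ∨ IsVertex T v0) (B : Set ℂ) (hB : B ∈ T) (had : Adj A B) :
    ∃ k : ℤ, ∀ w, w ∈ A → w ∈ B → IsVertex T w → w ≠ v0 → f w = k := by
  obtain ⟨p, q, hne, hseg, hpv, hqv, hopen⟩ := g_adj h hA hB had
  have hend : ∀ w, w ∈ A → w ∈ B → IsVertex T w → w = p ∨ w = q := by
    intro w hwA hwB hwv
    have h1 : w ∈ segment ℝ p q := by
      rw [← hseg]
      exact ⟨hwA, hwB⟩
    rw [← insert_endpoints_openSegment] at h1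
    rcases h1 with h1 | h1 | h1
    · exact Or.inl h1
    · exact Or.inr h1
    · exfalso
      obtain ⟨C1, hC1, C2, hC2, C3, hC3, h12, h13, h23, m1, m2, m3⟩ := hwv
      have a1 := hopen w h1 C1 hC1 m1
      have a2 := hopen w h1 C2 hC2 m2
      have a3 := hopen w h1 C3 hC3 m3
      rcases a1 with a1 | a1 <;> rcases a2 with a2 | a2 <;> rcases a3 with a3 | a3 <;>
        first
        | exact h12 (a1.trans a2.symm)
        | exact h13 (a1.trans a3.symm)
        | exact h23 (a2.trans a3.symm)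
  by_cases hv : v0 ∈ A ∩ B
  · have hvv : IsVertex T v0 := hv0.resolve_left (not_not_intro hv.1)
    rcases hend v0 hv.1 hv.2 hvv with h1 | h1
    · refine ⟨f q, fun w hwA hwB hwv hw0 => ?_⟩
      rcases hend w hwA hwB hwv with h2 | h2
      · exact absurd (h2.trans h1.symm) hw0
      · rw [h2]
    · refine ⟨f p, fun w hwA hwB hwv hw0 => ?_⟩
      rcases hend w hwA hwB hwv with h2 | h2
      · rw [h2]
      · exact absurd (h2.trans h1.symm) hw0
  · refine ⟨f p, fun w hwA hwB hwv hw0 => ?_⟩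
    rcases hend w hwA hwB hwv with h2 | h2
    · rw [h2]
    · rw [h2]
      exact (hf B hB had hv p q hseg).symm

theorem g_bd {T : Set (Set ℂ)} {u U : ℝ} (h : NC T u U) {A : Set ℂ} (hA : A ∈ T) (v0 : ℂ)
    (f : ℂ → ℤ)
    (hf : ∀ B ∈ T, Adj A B → v0 ∉ A ∩ B → ∀ p q, A ∩ B = segment ℝ p q → f p = f q)
    (hv0 : v0 ∉ A ∨ IsVertex T v0)
    {p q : ℂ} (hp : p ∈ A) (hq : q ∈ A) (hpv : IsVertex T p) (hqv : IsVertex T q)
    (hp0 : p ≠ v0) (hq0 : q ≠ v0) : f p = f q := by
  classical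
  have hex : ∀ B : Set ℂ, ∃ k : ℤ, B ∈ T → Adj A B →
      ∀ w, w ∈ A → w ∈ B → IsVertex T w → w ≠ v0 → f w = k := by
    intro B
    by_cases hB : B ∈ T ∧ Adj A B
    · obtain ⟨k, hk⟩ := g_bd_aux h hA v0 f hf hv0 B hB.1 hB.2
      exact ⟨k, fun _ _ => hk⟩
    · exact ⟨0, fun h1 h2 => absurd ⟨h1, h2⟩ hB⟩
  choose k hk using hex
  obtain ⟨c, hc⟩ := h.outr A hA
  have hEfin : {B | B ∈ T ∧ Adj A B}.Finite := by
    obtain ⟨N, hN⟩ := g_locfin h U
    refine (hN c).1.subset ?_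
    rintro B ⟨hB, had⟩
    obtain ⟨x, hx⟩ := had.2.nonempty
    exact ⟨hB, x, hx.2, hc hx.1⟩
  have hVfin : {w | IsVertex T w ∧ w ∈ A}.Finite := by
    refine (g_vfin h c U).subset ?_
    rintro w ⟨hw, hwA⟩
    exact ⟨hw, hc hwA⟩
  have hAc : IsClosed A := h.closed A hA
  have hfr : ∀ z, z ∈ frontier A ↔ z ∈ A ∧ z ∉ interior A := by
    intro z
    rw [hAc.frontier_eq]
    rfl
  have hvfr : ∀ w, w ∈ A → IsVertex T w → w ∈ frontier A := by
    intro w hwA hwv
    rw [hfr]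
    refine ⟨hwA, fun hint => ?_⟩
    obtain ⟨C1, hC1, C2, hC2, C3, hC3, h12, h13, h23, m1, m2, m3⟩ := hwv
    have a1 := g_int h hA hC1 hint m1
    have a2 := g_int h hA hC2 hint m2
    exact h12 (a1.trans a2.symm)
  have hother : ∀ z, z ∈ frontier A → ¬ IsVertex T z → ∃ B ∈ T, Adj A B ∧ z ∈ B := by
    intro z hz hzv
    obtain ⟨hzA, hzi⟩ := (hfr z).mp hz
    by_contra hcon
    push Not at hcon
    apply hzi
    refine g_one h hA fun B hB hzB => ?_
    by_contra hne
    exact hcon B hB (g_nv h hA hB (Ne.symm hne) hzA hzB hzv) hzB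
  set F1 : Set ℂ := (⋃ B ∈ {B | (B ∈ T ∧ Adj A B) ∧ k B = f p}, A ∩ B) ∪ {p} with hF1
  set F2 : Set ℂ := (⋃ B ∈ {B | (B ∈ T ∧ Adj A B) ∧ k B ≠ f p}, A ∩ B) ∪
    {w | (IsVertex T w ∧ w ∈ A) ∧ w ∉ F1} with hF2
  have hF1c : IsClosed F1 := by
    refine IsClosed.union ?_ isClosed_singleton
    refine Set.Finite.isClosed_biUnion (hEfin.subset fun B hB => hB.1) ?_
    intro B hB
    exact hAc.inter (h.closed B hB.1.1)
  have hF2c : IsClosed F2 := by
    refine IsClosed.union ?_ (hVfin.subset fun w hw => hw.1).isClosed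
    refine Set.Finite.isClosed_biUnion (hEfin.subset fun B hB => hB.1) ?_
    intro B hB
    exact hAc.inter (h.closed B hB.1.1)
  have hcov : frontier A \ {v0} ⊆ F1 ∪ F2 := by
    rintro z ⟨hz, hz0⟩
    by_cases hzv : IsVertex T z
    · by_cases hz1 : z ∈ F1
      · exact Or.inl hz1
      · exact Or.inr (Or.inr ⟨⟨hzv, ((hfr z).mp hz).1⟩, hz1⟩)
    · obtain ⟨B, hB, had, hzB⟩ := hother z hz hzv
      by_cases hkB : k B = f p
      · refine Or.inl (Or.inl ?_)
        rw [Set.mem_iUnion₂]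
        exact ⟨B, ⟨⟨hB, had⟩, hkB⟩, ((hfr z).mp hz).1, hzB⟩
      · refine Or.inr (Or.inl ?_)
        rw [Set.mem_iUnion₂]
        exact ⟨B, ⟨⟨hB, had⟩, hkB⟩, ((hfr z).mp hz).1, hzB⟩
  have hdis : ¬ ((frontier A \ {v0}) ∩ (F1 ∩ F2)).Nonempty := by
    rintro ⟨z, ⟨hz, hz0⟩, hz1, hz2⟩
    have hz0' : z ≠ v0 := hz0
    rcases hz2 with hz2 | hz2
    swap
    · exact hz2.2 hz1
    rw [Set.mem_iUnion₂] at hz2
    obtain ⟨B2, ⟨⟨hB2, had2⟩, hk2⟩, hzA, hzB2⟩ := hz2
    rcases hz1 with hz1 | hz1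
    · rw [Set.mem_iUnion₂] at hz1
      obtain ⟨B1, ⟨⟨hB1, had1⟩, hk1⟩, -, hzB1⟩ := hz1
      by_cases hzv : IsVertex T z
      · have e1 := hk B1 hB1 had1 z hzA hzB1 hzv hz0'
        have e2 := hk B2 hB2 had2 z hzA hzB2 hzv hz0'
        apply hk2
        rw [← e2, e1, hk1]
      · have hBB : B1 = B2 := by
          by_contra hne
          exact hzv ⟨A, hA, B1, hB1, B2, hB2, had1.1, had2.1, hne, hzA, hzB1, hzB2⟩
        rw [hBB] at hk1
        exact hk2 hk1
    · have hzp : z = p := hz1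
      rw [hzp] at hzB2
      have e2 := hk B2 hB2 had2 p hp hzB2 hpv hp0
      exact hk2 e2.symm
  have hS := (isPreconnected_closed_iff.mp (g_fr h hA v0)) F1 F2 hF1c hF2c hcov
    ⟨p, ⟨hvfr p hp hpv, hp0⟩, Or.inr rfl⟩
  have hqS : q ∈ frontier A \ {v0} := ⟨hvfr q hq hqv, hq0⟩
  have hqF1 : q ∈ F1 := by
    rcases hcov hqS with h1 | h1
    · exact h1
    · exact absurd (hS ⟨q, hqS, h1⟩) hdis
  rcases hqF1 with h1 | h1
  · rw [Set.mem_iUnion₂] at h1
    obtain ⟨B1, ⟨⟨hB1, had1⟩, hk1⟩, -, hqB1⟩ := h1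
    rw [hk B1 hB1 had1 q hq hqB1 hqv hq0, hk1]
  · have : q = p := h1
    rw [this]

end J26098

alias g_bd := J26098.g_bd

namespace J26099

/-! ### TARGET of this job: g_bd2 -/

theorem g_bd2_aux {T : Set (Set ℂ)} {u U : ℝ} (h : NC T u U) {A : Set ℂ} (hA : A ∈ T)
    (P : Set ℂ → Prop)
    (hP : ∀ v, IsVertex T v → v ∈ A → ∀ B ∈ T, ∀ C ∈ T, Adj A B → Adj A C → v ∈ B → v ∈ C →
      (P B ↔ P C))
    {B C : Set ℂ} (hB : B ∈ T) (hC : C ∈ T) (hAB : Adj A B) (hAC : Adj A C) (hPB : P B)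
    (hPC : ¬ P C) : False := by
  obtain ⟨c, hc⟩ := h.outr A hA
  obtain ⟨v0, hv0⟩ := (g_cl h hA).2
  have hv0F : v0 ∉ frontier A := fun hf => Set.disjoint_left.1 disjoint_interior_frontier hv0 hf
  have hpre : IsPreconnected (frontier A) := by
    have h1 := g_fr h hA v0
    rwa [diff_singleton_eq_self hv0F] at h1
  have hFA : frontier A ⊆ A := (h.closed A hA).frontier_subset
  have hfin : ∀ R : Set ℂ → Prop, {D | D ∈ T ∧ Adj A D ∧ R D}.Finite := by
    intro R
    obtain ⟨N, hN⟩ := g_locfin h U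
    refine (hN c).1.subset ?_
    rintro D ⟨hD, hAD, -⟩
    obtain ⟨x, hx⟩ := hAD.2.nonempty
    exact ⟨hD, x, hx.2, hc hx.1⟩
  have hclosed : ∀ R : Set ℂ → Prop, IsClosed (⋃ D ∈ {D | D ∈ T ∧ Adj A D ∧ R D}, A ∩ D) := by
    intro R
    exact (hfin R).isClosed_biUnion fun D hD => (h.closed A hA).inter (h.closed D hD.1)
  have hfr : ∀ D, D ∈ T → Adj A D → ∃ x, x ∈ frontier A ∧ x ∈ A ∩ D := by
    intro D hD hAD
    obtain ⟨x, hx⟩ := hAD.2.nonempty
    refine ⟨x, ?_, hx⟩
    rw [(h.closed A hA).frontier_eq]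
    exact ⟨hx.1, fun hi => hAD.1 (g_int h hA hD hi hx.2).symm⟩
  have hVfin : {x | x ∈ frontier A ∧ IsVertex T x ∧
      x ∉ (⋃ D ∈ {D | D ∈ T ∧ Adj A D ∧ P D}, A ∩ D) ∧
      x ∉ (⋃ D ∈ {D | D ∈ T ∧ Adj A D ∧ ¬ P D}, A ∩ D)}.Finite := by
    refine (g_vfin h c U).subset ?_
    rintro x ⟨hx, hxv, -⟩
    exact ⟨hxv, hc (hFA hx)⟩
  have hkey := isPreconnected_closed_iff.1 hpre
    (⋃ D ∈ {D | D ∈ T ∧ Adj A D ∧ P D}, A ∩ D)
    ((⋃ D ∈ {D | D ∈ T ∧ Adj A D ∧ ¬ P D}, A ∩ D) ∪ {x | x ∈ frontier A ∧ IsVertex T x ∧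
      x ∉ (⋃ D ∈ {D | D ∈ T ∧ Adj A D ∧ P D}, A ∩ D) ∧
      x ∉ (⋃ D ∈ {D | D ∈ T ∧ Adj A D ∧ ¬ P D}, A ∩ D)})
    (hclosed P) ((hclosed _).union hVfin.isClosed) ?_ ?_ ?_
  · obtain ⟨x, hxF, hx1, hx2⟩ := hkey
    rcases hx2 with hx2 | hx2
    · simp only [mem_iUnion, exists_prop] at hx1 hx2
      obtain ⟨D, ⟨hD, hAD, hPD⟩, hxD⟩ := hx1
      obtain ⟨E, ⟨hE, hAE, hPE⟩, hxE⟩ := hx2
      have hDE : D ≠ E := by
        rintro rfl
        exact hPE hPD
      have hxv : IsVertex T x := ⟨A, hA, D, hD, E, hE, hAD.1, hAE.1, hDE, hxD.1, hxD.2, hxE.2⟩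
      exact hPE ((hP x hxv hxD.1 D hD E hE hAD hAE hxD.2 hxE.2).1 hPD)
    · exact hx2.2.2.1 hx1
  · intro x hx
    by_cases h1 : x ∈ (⋃ D ∈ {D | D ∈ T ∧ Adj A D ∧ P D}, A ∩ D)
    · exact Or.inl h1
    by_cases h2 : x ∈ (⋃ D ∈ {D | D ∈ T ∧ Adj A D ∧ ¬ P D}, A ∩ D)
    · exact Or.inr (Or.inl h2)
    by_cases hv : IsVertex T x
    · exact Or.inr (Or.inr ⟨hx, hv, h1, h2⟩)
    exfalso
    have hni : x ∉ interior A := fun hi => Set.disjoint_left.1 disjoint_interior_frontier hi hx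
    have hex : ∃ D ∈ T, x ∈ D ∧ D ≠ A := by
      by_contra hcon
      push Not at hcon
      exact hni (g_one h hA fun D hD hxD => hcon D hD hxD)
    obtain ⟨D, hD, hxD, hDA⟩ := hex
    have hAD := g_nv h hA hD hDA.symm (hFA hx) hxD hv
    by_cases hPD : P D
    · apply h1
      simp only [mem_iUnion, exists_prop]
      exact ⟨D, ⟨hD, hAD, hPD⟩, hFA hx, hxD⟩
    · apply h2
      simp only [mem_iUnion, exists_prop]
      exact ⟨D, ⟨hD, hAD, hPD⟩, hFA hx, hxD⟩
  · obtain ⟨x, hx1, hx2⟩ := hfr B hB hAB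
    refine ⟨x, hx1, ?_⟩
    simp only [mem_iUnion, exists_prop]
    exact ⟨B, ⟨hB, hAB, hPB⟩, hx2⟩
  · obtain ⟨x, hx1, hx2⟩ := hfr C hC hAC
    refine ⟨x, hx1, Or.inl ?_⟩
    simp only [mem_iUnion, exists_prop]
    exact ⟨C, ⟨hC, hAC, hPC⟩, hx2⟩

theorem g_bd2 {T : Set (Set ℂ)} {u U : ℝ} (h : NC T u U) {A : Set ℂ} (hA : A ∈ T)
    (P : Set ℂ → Prop)
    (hP : ∀ v, IsVertex T v → v ∈ A → ∀ B ∈ T, ∀ C ∈ T, Adj A B → Adj A C → v ∈ B → v ∈ C →
      (P B ↔ P C))
    {B C : Set ℂ} (hB : B ∈ T) (hC : C ∈ T) (hAB : Adj A B) (hAC : Adj A C) : P B ↔ P C := by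
  constructor
  · intro hPB
    by_contra hPC
    exact g_bd2_aux h hA P hP hB hC hAB hAC hPB hPC
  · intro hPC
    by_contra hPB
    exact g_bd2_aux h hA P hP hC hB hAC hAB hPC hPB

end J26099

alias g_bd2 := J26099.g_bd2

namespace J26100

/-! ### TARGET of this job: g_3v -/

theorem g_3v_ext {A : Set ℂ} {z n : ℂ} (hz : z ∈ extremePoints ℝ A) (hn : n ≠ 0) {δ : ℝ}
    (hδ : 0 < δ) (h1 : z + (δ : ℂ) * n ∈ A) (h2 : z - (δ : ℂ) * n ∈ A) : False := by
  have hmem : z ∈ openSegment ℝ (z + (δ : ℂ) * n) (z - (δ : ℂ) * n) := by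
    refine ⟨1 / 2, 1 / 2, by norm_num, by norm_num, by norm_num, ?_⟩
    simp only [Complex.real_smul]
    push_cast
    ring
  have h3 := (mem_extremePoints.1 hz).2 _ h1 _ h2 hmem
  have h4 : (δ : ℂ) * n = 0 := by
    have := h3.1
    linear_combination this
  rcases mul_eq_zero.1 h4 with h5 | h5
  · exact hδ.ne' (by exact_mod_cast h5)
  · exact hn h5

theorem g_3v_vertex {T : Set (Set ℂ)} {u U : ℝ} (h : NC T u U) {A : Set ℂ} (hA : A ∈ T)
    {z : ℂ} (hz : z ∈ extremePoints ℝ A) : IsVertex T z := by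
  by_contra hv
  have hzA : z ∈ A := hz.1
  have hzi : z ∉ interior A := by
    intro hi
    obtain ⟨ε, hε, hb⟩ := Metric.isOpen_iff.1 isOpen_interior z hi
    have e1 : z + ((ε / 2 : ℝ) : ℂ) * 1 ∈ A := by
      apply interior_subset
      apply hb
      rw [mem_ball, dist_eq_norm]
      simp only [mul_one, add_sub_cancel_left, Complex.norm_real, Real.norm_eq_abs]
      rw [abs_of_pos (by linarith)]; linarith
    have e2 : z - ((ε / 2 : ℝ) : ℂ) * 1 ∈ A := by
      apply interior_subset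
      apply hb
      rw [mem_ball, dist_eq_norm]
      have : z - ((ε / 2 : ℝ) : ℂ) * 1 - z = -((ε / 2 : ℝ) : ℂ) := by ring
      rw [this, norm_neg, Complex.norm_real, Real.norm_eq_abs, abs_of_pos (by linarith)]; linarith
    exact g_3v_ext hz one_ne_zero (by linarith) e1 e2
  have hB : ∃ B ∈ T, z ∈ B ∧ B ≠ A := by
    by_contra hcon
    push Not at hcon
    exact hzi (g_one h hA hcon)
  obtain ⟨B, hBT, hzB, hBA⟩ := hB
  obtain ⟨n, hn, ε, hε, hAn, -⟩ := g_two h hA hBT (Ne.symm hBA) hzA hzB hv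
  have hnn : 0 < ‖n‖ := norm_pos_iff.2 hn
  set δ : ℝ := ε / (2 * ‖n‖) with hδ
  have hδ0 : 0 < δ := by positivity
  have hδn : ‖((δ : ℝ) : ℂ) * n‖ < ε := by
    rw [norm_mul, Complex.norm_real, Real.norm_eq_abs, abs_of_pos hδ0, hδ]
    have : ε / (2 * ‖n‖) * ‖n‖ = ε / 2 := by field_simp
    rw [this]; linarith
  have e1 : z + ((δ : ℝ) : ℂ) * n ∈ A := by
    rw [hAn _ (by rw [dist_eq_norm, add_sub_cancel_left]; exact hδn)]
    rw [add_sub_cancel_left]
    simp only [cross, Complex.re_ofReal_mul, Complex.im_ofReal_mul]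
    apply le_of_eq
    ring
  have e2 : z - ((δ : ℝ) : ℂ) * n ∈ A := by
    have e3 : z - ((δ : ℝ) : ℂ) * n - z = -(((δ : ℝ) : ℂ) * n) := by ring
    rw [hAn _ (by rw [dist_eq_norm, e3, norm_neg]; exact hδn)]
    rw [e3]
    simp only [cross, Complex.neg_re, Complex.neg_im, Complex.re_ofReal_mul, Complex.im_ofReal_mul]
    apply le_of_eq
    ring
  exact g_3v_ext hz hn hδ0 e1 e2

theorem g_3v_seg {A : Set ℂ} {p q c : ℂ} {u : ℝ} (hu : 0 < u) (hc : closedBall c u ⊆ A)
    (hseg : A ⊆ segment ℝ p q) : False := by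
  have hcr : ∀ z ∈ segment ℝ p q, cross (q - p) (z - p) = 0 := by
    rintro z ⟨a, b, ha, hb, hab, rfl⟩
    have : a • p + b • q - p = (b : ℂ) * (q - p) := by
      have ha' : a = 1 - b := by linarith
      rw [ha']
      simp only [Complex.real_smul]
      push_cast; ring
    rw [this]
    simp only [cross, Complex.re_ofReal_mul, Complex.im_ofReal_mul]
    ring
  by_cases hd : q - p = 0
  · have hqp : q = p := sub_eq_zero.1 hd
    rw [hqp, segment_same] at hseg
    have e1 : c = p := hseg (hc (mem_closedBall_self hu.le))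
    have e2 : c + (u : ℂ) = p := hseg (hc (by
      rw [mem_closedBall, dist_eq_norm, add_sub_cancel_left, Complex.norm_real, Real.norm_eq_abs,
        abs_of_pos hu]))
    rw [e1] at e2
    have e3 : (u : ℂ) = 0 := by linear_combination e2
    exact hu.ne' (by exact_mod_cast e3)
  · set d := q - p with hdd
    have hdn : 0 < ‖d‖ := norm_pos_iff.2 hd
    have e1 := hcr c (hseg (hc (mem_closedBall_self hu.le)))
    have hmem : c + ((u / ‖d‖ : ℝ) : ℂ) * (Complex.I * d) ∈ A := hc (by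
      rw [mem_closedBall, dist_eq_norm, add_sub_cancel_left, norm_mul, Complex.norm_real,
        Real.norm_eq_abs, norm_mul, Complex.norm_I, one_mul, abs_of_pos (by positivity)]
      apply le_of_eq
      field_simp)
    have e2 := hcr _ (hseg hmem)
    have e3 : cross d (c + ((u / ‖d‖ : ℝ) : ℂ) * (Complex.I * d) - p)
        = cross d (c - p) + u / ‖d‖ * (d.re ^ 2 + d.im ^ 2) := by
      simp only [cross, Complex.add_re, Complex.add_im, Complex.sub_re, Complex.sub_im,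
        Complex.ofReal_re, Complex.ofReal_im, Complex.mul_re, Complex.mul_im,
        Complex.I_re, Complex.I_im]
      ring
    rw [e3, e1, zero_add] at e2
    have e4 : d.re ^ 2 + d.im ^ 2 = ‖d‖ ^ 2 := by
      rw [← Complex.normSq_eq_norm_sq, Complex.normSq_apply]; ring
    rw [e4] at e2
    have : 0 < u / ‖d‖ * ‖d‖ ^ 2 := by positivity
    linarith

theorem g_3v {T : Set (Set ℂ)} {u U : ℝ} (h : NC T u U) {A : Set ℂ} (hA : A ∈ T) :
    ∃ p q r, p ≠ q ∧ p ≠ r ∧ q ≠ r ∧ p ∈ A ∧ q ∈ A ∧ r ∈ A ∧ IsVertex T p ∧ IsVertex T q ∧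
      IsVertex T r := by
  obtain ⟨c, hc⟩ := h.inr A hA
  obtain ⟨c', hc'⟩ := h.outr A hA
  have hcomp : IsCompact A := (isCompact_closedBall c' U).of_isClosed_subset (h.closed A hA) hc'
  have hKM := closure_convexHull_extremePoints hcomp (h.conv A hA)
  have hcont : ∀ p q : ℂ, ¬ (extremePoints ℝ A ⊆ {p, q}) := by
    intro p q hsub
    have hseg : A ⊆ segment ℝ p q := by
      rw [← hKM]
      apply closure_minimal _ (by
        rw [segment_eq_image_lineMap]
        exact (isCompact_Icc.image (by fun_prop)).isClosed)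
      rw [← convexHull_pair]
      exact convexHull_mono hsub
    exact g_3v_seg h.upos hc hseg
  have hne : (extremePoints ℝ A).Nonempty := by
    by_contra hcon
    rw [Set.not_nonempty_iff_eq_empty] at hcon
    exact hcont 0 0 (by rw [hcon]; exact empty_subset _)
  obtain ⟨p, hp⟩ := hne
  have h2 : ∃ q ∈ extremePoints ℝ A, q ≠ p := by
    by_contra hcon
    push Not at hcon
    exact hcont p p (fun x hx => Or.inl (hcon x hx))
  obtain ⟨q, hq, hqp⟩ := h2
  have h3 : ∃ r ∈ extremePoints ℝ A, r ≠ p ∧ r ≠ q := by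
    by_contra hcon
    push Not at hcon
    apply hcont p q
    intro x hx
    by_cases hxp : x = p
    · exact Or.inl hxp
    · exact Or.inr (hcon x hx hxp)
  obtain ⟨r, hr, hrp, hrq⟩ := h3
  exact ⟨p, q, r, hqp.symm, hrp.symm, hrq.symm, hp.1, hq.1, hr.1, g_3v_vertex h hA hp,
    g_3v_vertex h hA hq, g_3v_vertex h hA hr⟩

end J26100

alias g_3v := J26100.g_3v

namespace J26101

/-! ### TARGET of this job: g_edge -/

theorem g_edge_aux {T : Set (Set ℂ)} {u U : ℝ} (h : NC T u U) {A B : Set ℂ} (hA : A ∈ T)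
    (hB : B ∈ T) (had : Adj A B) :
    ∃ p1 q1 : ℂ, A ∩ B = segment ℝ p1 q1 ∧ IsVertex T p1 ∧ IsVertex T q1 ∧
      openSegment ℝ p1 q1 ⊆ frontier A \ {q | IsVertex T q} ∧
      ∀ p ∈ openSegment ℝ p1 q1,
        closure (connectedComponentIn (frontier A \ {q | IsVertex T q}) p) = A ∩ B := by
  obtain ⟨p1, q1, hne, hseg, hv1, hv2, hop⟩ := g_adj h hA hB had
  have hfr : frontier A = A \ interior A := (h.closed A hA).frontier_eq
  have hOsub : openSegment ℝ p1 q1 ⊆ frontier A \ {q | IsVertex T q} := by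
    intro x hx
    have hxs : x ∈ A ∩ B := by
      rw [hseg]; exact openSegment_subset_segment ℝ p1 q1 hx
    refine ⟨?_, ?_⟩
    · rw [hfr]
      refine ⟨hxs.1, fun hxi => ?_⟩
      exact had.1 (g_int h hA hB hxi hxs.2).symm
    · rintro ⟨C1, h1, C2, h2, C3, h3, n12, n13, n23, m1, m2, m3⟩
      have e1 := hop x hx C1 h1 m1
      have e2 := hop x hx C2 h2 m2
      have e3 := hop x hx C3 h3 m3
      rcases e1 with rfl | rfl <;> rcases e2 with rfl | rfl <;> rcases e3 with rfl | rfl <;>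
        first
          | exact n12 rfl
          | exact n13 rfl
          | exact n23 rfl
  have hback : ∀ y, y ∈ segment ℝ p1 q1 → ¬ IsVertex T y → y ∈ openSegment ℝ p1 q1 := by
    intro y hy hyv
    refine mem_openSegment_of_ne_left_right ?_ ?_ hy
    · rintro rfl; exact hyv hv1
    · rintro rfl; exact hyv hv2
  have hloc : ∀ x ∈ openSegment ℝ p1 q1, ∃ ε > 0, ∀ y, dist y x < ε →
      y ∈ frontier A \ {q | IsVertex T q} → y ∈ openSegment ℝ p1 q1 := by
    intro x hx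
    have hxs : x ∈ A ∩ B := by
      rw [hseg]; exact openSegment_subset_segment ℝ p1 q1 hx
    obtain ⟨n, hn, ε, hε, hAε, hBε⟩ := g_two h hA hB had.1 hxs.1 hxs.2 (hOsub hx).2
    refine ⟨ε, hε, fun y hy hyF => ?_⟩
    refine hback y ?_ hyF.2
    rw [← hseg]
    have hyA := hyF.1
    rw [hfr] at hyA
    refine ⟨hyA.1, ?_⟩
    rw [hBε y hy]
    by_contra hpos
    push Not at hpos
    apply hyA.2
    rw [mem_interior]
    refine ⟨ball x ε ∩ {z | 0 < cross n (z - x)}, ?_, ?_, ?_, ?_⟩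
    · rintro z ⟨hz1, hz2⟩
      exact (hAε z hz1).2 (le_of_lt hz2)
    · refine isOpen_ball.inter (isOpen_lt continuous_const ?_)
      unfold cross
      fun_prop
    · exact hy
    · exact hpos
  refine ⟨p1, q1, hseg, hv1, hv2, hOsub, ?_⟩
  intro p hp
  have hC : connectedComponentIn (frontier A \ {q | IsVertex T q}) p = openSegment ℝ p1 q1 := by
    apply Subset.antisymm
    · choose! ε hε hεy using hloc
      have hpre : IsPreconnected (connectedComponentIn (frontier A \ {q | IsVertex T q}) p) :=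
        isPreconnected_connectedComponentIn
      have hCF : connectedComponentIn (frontier A \ {q | IsVertex T q}) p ⊆
          frontier A \ {q | IsVertex T q} := connectedComponentIn_subset _ _
      have hUo : IsOpen (⋃ x ∈ openSegment ℝ p1 q1, ball x (ε x)) :=
        isOpen_biUnion fun x _ => isOpen_ball
      have hVo : IsOpen (segment ℝ p1 q1)ᶜ := by
        rw [isOpen_compl_iff, ← hseg]
        exact (h.closed A hA).inter (h.closed B hB)
      have hUF : ∀ y ∈ frontier A \ {q | IsVertex T q},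
          y ∈ (⋃ x ∈ openSegment ℝ p1 q1, ball x (ε x)) → y ∈ openSegment ℝ p1 q1 := by
        intro y hy hyU
        rw [mem_iUnion₂] at hyU
        obtain ⟨x, hx, hyx⟩ := hyU
        exact hεy x hx y hyx hy
      have hUmem : ∀ y ∈ openSegment ℝ p1 q1, y ∈ ⋃ x ∈ openSegment ℝ p1 q1, ball x (ε x) := by
        intro y hy
        rw [mem_iUnion₂]
        exact ⟨y, hy, mem_ball_self (hε y hy)⟩
      intro y hy
      by_contra hyO
      have hyF := hCF hy
      have hyV : y ∈ (segment ℝ p1 q1)ᶜ := fun hys => hyO (hback y hys hyF.2)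
      obtain ⟨z, hz, hzU, hzV⟩ := hpre _ _ hUo hVo (by
          intro w hw
          by_cases hws : w ∈ segment ℝ p1 q1
          · exact Or.inl (hUmem w (hback w hws (hCF hw).2))
          · exact Or.inr hws)
        ⟨p, mem_connectedComponentIn (hOsub hp), hUmem p hp⟩ ⟨y, hy, hyV⟩
      exact hzV (openSegment_subset_segment ℝ p1 q1 (hUF z (hCF hz) hzU))
    · exact (convex_openSegment p1 q1).isPreconnected.subset_connectedComponentIn hp hOsub
  rw [hC, closure_openSegment, hseg]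

theorem g_edge {T : Set (Set ℂ)} {u U : ℝ} (h : NC T u U) (e : Set ℂ) :
    IsEdge T e ↔ ∃ A ∈ T, ∃ B ∈ T, Adj A B ∧ e = A ∩ B := by
  constructor
  · rintro ⟨A, hA, p, hp, rfl⟩
    have hfr : frontier A = A \ interior A := (h.closed A hA).frontier_eq
    have hp1 := hp.1
    rw [hfr] at hp1
    have hex : ∃ B ∈ T, p ∈ B ∧ B ≠ A := by
      by_contra hcon
      push Not at hcon
      exact hp1.2 (g_one h hA hcon)
    obtain ⟨B, hB, hpB, hBA⟩ := hex
    have had : Adj A B := g_nv h hA hB hBA.symm hp1.1 hpB hp.2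
    obtain ⟨p1, q1, hseg, hv1, hv2, hOsub, hmain⟩ := g_edge_aux h hA hB had
    refine ⟨A, hA, B, hB, had, ?_⟩
    apply hmain
    have hps : p ∈ segment ℝ p1 q1 := by
      rw [← hseg]; exact ⟨hp1.1, hpB⟩
    refine mem_openSegment_of_ne_left_right ?_ ?_ hps
    · rintro rfl; exact hp.2 hv1
    · rintro rfl; exact hp.2 hv2
  · rintro ⟨A, hA, B, hB, had, rfl⟩
    obtain ⟨p1, q1, hseg, hv1, hv2, hOsub, hmain⟩ := g_edge_aux h hA hB had
    have hmid : ((1/2 : ℝ) • p1 + (1/2 : ℝ) • q1) ∈ openSegment ℝ p1 q1 :=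
      ⟨1/2, 1/2, by norm_num, by norm_num, by norm_num, rfl⟩
    exact ⟨A, hA, _, hOsub hmid, (hmain _ hmid).symm⟩

end J26101

alias g_edge := J26101.g_edge

namespace J26104

/-! ### TARGET of this job: g_elem -/

theorem g_elem {T : Set (Set ℂ)} {u U : ℝ} (h : NC T u U) (e : Set ℂ) (he : e ∈ elements T) :
    e = ⋂₀ {t | t ∈ T ∧ e ⊆ t} := by
  refine Set.Subset.antisymm (fun x hx => ?_) (fun x hx => ?_)
  · rintro t ⟨_, ht⟩
    exact ht hx
  · rcases he with he | he | ⟨p, hp, rfl⟩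
    · exact hx e ⟨he, Set.Subset.rfl⟩
    · obtain ⟨A, hA, B, hB, _, rfl⟩ := (g_edge h e).1 he
      exact ⟨hx A ⟨hA, Set.inter_subset_left⟩, hx B ⟨hB, Set.inter_subset_right⟩⟩
    · obtain ⟨A, hA, B, hB, C, hC, h1, h2, h3, pA, pB, pC⟩ := hp
      have xA : x ∈ A := hx A ⟨hA, Set.singleton_subset_iff.2 pA⟩
      have xB : x ∈ B := hx B ⟨hB, Set.singleton_subset_iff.2 pB⟩
      have xC : x ∈ C := hx C ⟨hC, Set.singleton_subset_iff.2 pC⟩
      exact g_triple h hA hB hC h1 h2 h3 ⟨⟨xA, xB⟩, xC⟩ ⟨⟨pA, pB⟩, pC⟩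


end J26104

alias g_elem := J26104.g_elem

namespace J26103

/-! ### TARGET of this job: g_3conn -/

theorem g_3conn_dir (f g : StrongDual ℝ ℂ) : ∃ d : ℂ, d ≠ 0 ∧ f d ≤ 0 ∧ g d ≤ 0 := by
  have key : ∃ d : ℂ, d ≠ 0 ∧ f d = 0 := by
    by_cases h : f 1 = 0
    · exact ⟨1, one_ne_zero, h⟩
    · refine ⟨(f Complex.I) • (1 : ℂ) - (f 1) • Complex.I, ?_, ?_⟩
      · intro h0
        have := congrArg Complex.im h0
        simp at this
        exact h this
      · rw [map_sub, map_smul, map_smul, smul_eq_mul, smul_eq_mul]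
        ring
  obtain ⟨d, hd, hfd⟩ := key
  rcases le_total (g d) 0 with hg | hg
  · exact ⟨d, hd, hfd.le, hg⟩
  · refine ⟨-d, neg_ne_zero.2 hd, ?_, ?_⟩
    · rw [map_neg, hfd, neg_zero]
    · rw [map_neg]
      linarith

theorem g_3conn_ray {T : Set (Set ℂ)} {u U : ℝ} (h : NC T u U) {a b s : Set ℂ} (ha : a ∈ T)
    (hb : b ∈ T) (hs : s ∈ T) (h1 : s ≠ a) (h2 : s ≠ b) :
    ∃ p ∈ s, ∃ d : ℂ, d ≠ 0 ∧ ∀ τ : ℝ, 0 ≤ τ →
      p + τ • d ∉ a ∧ p + τ • d ∉ b ∧ ¬ IsVertex T (p + τ • d) := by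
  obtain ⟨p0, hp0⟩ := (g_cl h hs).2
  have hpa : p0 ∉ a := fun hp => h1 (g_int h hs ha hp0 hp).symm
  have hpb : p0 ∉ b := fun hp => h2 (g_int h hs hb hp0 hp).symm
  obtain ⟨f, v, hf1, hf2⟩ := geometric_hahn_banach_point_closed (h.conv a ha) (h.closed a ha) hpa
  obtain ⟨g, w, hg1, hg2⟩ := geometric_hahn_banach_point_closed (h.conv b hb) (h.closed b hb) hpb
  obtain ⟨d, hd, hfd, hgd⟩ := g_3conn_dir f g
  have hcont : Continuous (fun ε : ℝ => p0 + ε • (Complex.I * d)) :=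
    continuous_const.add (continuous_id.smul continuous_const)
  have hO : IsOpen {ε : ℝ | p0 + ε • (Complex.I * d) ∈ interior s ∧
      f (p0 + ε • (Complex.I * d)) < v ∧ g (p0 + ε • (Complex.I * d)) < w} := by
    refine (isOpen_interior.preimage hcont).inter (IsOpen.inter ?_ ?_)
    · exact isOpen_lt (f.continuous.comp hcont) continuous_const
    · exact isOpen_lt (g.continuous.comp hcont) continuous_const
  have hne : {ε : ℝ | p0 + ε • (Complex.I * d) ∈ interior s ∧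
      f (p0 + ε • (Complex.I * d)) < v ∧ g (p0 + ε • (Complex.I * d)) < w}.Nonempty := by
    refine ⟨0, ?_⟩
    simp only [Set.mem_ofPred_eq, zero_smul, add_zero]
    exact ⟨hp0, hf1, hg1⟩
  have hbad : ((fun x : ℂ => ((x - p0) / d).im) '' {p | IsVertex T p}).Countable :=
    (g_count h).2.image _
  obtain ⟨ε, hε1, hε2⟩ := (hbad.dense_compl ℝ).exists_mem_open hO hne
  obtain ⟨k1, k2, k3⟩ := hε2
  refine ⟨p0 + ε • (Complex.I * d), interior_subset k1, d, hd, ?_⟩
  intro τ hτ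
  refine ⟨?_, ?_, ?_⟩
  · intro hm
    have := hf2 _ hm
    rw [map_add f (p0 + ε • (Complex.I * d)), map_smul f τ d, smul_eq_mul] at this
    have h5 : τ * f d ≤ 0 := mul_nonpos_of_nonneg_of_nonpos hτ hfd
    linarith
  · intro hm
    have := hg2 _ hm
    rw [map_add g (p0 + ε • (Complex.I * d)), map_smul g τ d, smul_eq_mul] at this
    have h5 : τ * g d ≤ 0 := mul_nonpos_of_nonneg_of_nonpos hτ hgd
    linarith
  · intro hv
    apply hε1
    refine ⟨p0 + ε • (Complex.I * d) + τ • d, hv, ?_⟩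
    have : (p0 + ε • (Complex.I * d) + τ • d - p0) / d = (τ : ℂ) + (ε : ℂ) * Complex.I := by
      rw [Complex.real_smul, Complex.real_smul]
      field_simp
      ring
    simp only [this]
    simp

theorem g_3conn_meet (p d : ℂ) (hd : d ≠ 0) (R : ℝ) (hR : ‖p‖ < R) :
    ∃ τ : ℝ, 0 ≤ τ ∧ ‖p + τ • d‖ = R := by
  have hdn : 0 < ‖d‖ := norm_pos_iff.2 hd
  have hp := norm_nonneg p
  have hτ : 0 ≤ (R + ‖p‖) / ‖d‖ := div_nonneg (by linarith) hdn.le
  have hcont : Continuous (fun τ : ℝ => ‖p + τ • d‖) :=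
    (continuous_const.add (continuous_id.smul continuous_const)).norm
  have hiv := intermediate_value_Icc hτ hcont.continuousOn
  have hmem : R ∈ Icc ((fun τ : ℝ => ‖p + τ • d‖) 0)
      ((fun τ : ℝ => ‖p + τ • d‖) ((R + ‖p‖) / ‖d‖)) := by
    constructor
    · simp only [zero_smul, add_zero]
      exact hR.le
    · simp only
      have e1 : ‖((R + ‖p‖) / ‖d‖) • d‖ = R + ‖p‖ := by
        rw [norm_smul, Real.norm_of_nonneg hτ]
        field_simp
      have e2 : ‖((R + ‖p‖) / ‖d‖) • d‖ ≤ ‖p + ((R + ‖p‖) / ‖d‖) • d‖ + ‖p‖ := by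
        have := norm_sub_le (p + ((R + ‖p‖) / ‖d‖) • d) p
        rwa [add_sub_cancel_left] at this
      linarith
  obtain ⟨τ, hτ1, hτ2⟩ := hiv hmem
  exact ⟨τ, hτ1.1, hτ2⟩

theorem g_3conn {T : Set (Set ℂ)} {u U : ℝ} (h : NC T u U) {a b s t : Set ℂ} (ha : a ∈ T)
    (hb : b ∈ T) (hs : s ∈ T) (ht : t ∈ T) (h1 : s ≠ a) (h2 : s ≠ b) (h3 : t ≠ a) (h4 : t ≠ b) :
    Jn Adj {q | q ∈ T ∧ q ≠ a ∧ q ≠ b} s t := by
  obtain ⟨p1, hp1, d1, hd1, hr1⟩ := g_3conn_ray h ha hb hs h1 h2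
  obtain ⟨p2, hp2, d2, hd2, hr2⟩ := g_3conn_ray h ha hb ht h3 h4
  obtain ⟨ca, hca⟩ := h.outr a ha
  obtain ⟨cb, hcb⟩ := h.outr b hb
  have hbad : ((fun x : ℂ => ‖x‖) '' {p | IsVertex T p}).Countable := (g_count h).2.image _
  have hO : IsOpen (Ioi (max (max (‖ca‖ + U) (‖cb‖ + U)) (max ‖p1‖ ‖p2‖))) := isOpen_Ioi
  obtain ⟨R, hR1, hR2⟩ := (hbad.dense_compl ℝ).exists_mem_open hO nonempty_Ioi
  rw [mem_Ioi, max_lt_iff, max_lt_iff, max_lt_iff] at hR2
  obtain ⟨⟨Ra, Rb⟩, R1, R2⟩ := hR2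
  obtain ⟨τ1, hτ1, e1⟩ := g_3conn_meet p1 d1 hd1 R R1
  obtain ⟨τ2, hτ2, e2⟩ := g_3conn_meet p2 d2 hd2 R R2
  have hrk : 1 < Module.rank ℝ ℂ := by
    rw [Complex.rank_real_complex]
    norm_num
  have hsph : IsPreconnected (sphere (0 : ℂ) R) := isPreconnected_sphere hrk 0 R
  have hray : ∀ p d : ℂ, IsPreconnected ((fun τ : ℝ => p + τ • d) '' Ici 0) := by
    intro p d
    apply isPreconnected_Ici.image
    exact (continuous_const.add (continuous_id.smul continuous_const)).continuousOn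
  have hS1 : IsPreconnected (((fun τ : ℝ => p1 + τ • d1) '' Ici 0) ∪ sphere (0 : ℂ) R) := by
    apply IsPreconnected.union (p1 + τ1 • d1) _ _ (hray p1 d1) hsph
    · exact ⟨τ1, hτ1, rfl⟩
    · rw [mem_sphere_zero_iff_norm]
      exact e1
  have hS : IsPreconnected ((((fun τ : ℝ => p1 + τ • d1) '' Ici 0) ∪ sphere (0 : ℂ) R) ∪
      ((fun τ : ℝ => p2 + τ • d2) '' Ici 0)) := by
    apply IsPreconnected.union (p2 + τ2 • d2) _ _ hS1 (hray p2 d2)
    · right
      rw [mem_sphere_zero_iff_norm]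
      exact e2
    · exact ⟨τ2, hτ2, rfl⟩
  have hprop : ∀ p ∈ (((fun τ : ℝ => p1 + τ • d1) '' Ici 0) ∪ sphere (0 : ℂ) R) ∪
      ((fun τ : ℝ => p2 + τ • d2) '' Ici 0), p ∉ a ∧ p ∉ b ∧ ¬ IsVertex T p := by
    rintro p ((⟨τ, hτ, rfl⟩ | hp) | ⟨τ, hτ, rfl⟩)
    · exact hr1 τ hτ
    · rw [mem_sphere_zero_iff_norm] at hp
      refine ⟨?_, ?_, ?_⟩
      · intro hm
        have h5 := hca hm
        rw [mem_closedBall, dist_eq_norm] at h5
        have h6 := norm_sub_norm_le p ca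
        linarith
      · intro hm
        have h5 := hcb hm
        rw [mem_closedBall, dist_eq_norm] at h5
        have h6 := norm_sub_norm_le p cb
        linarith
      · intro hv
        exact hR1 ⟨p, hv, hp⟩
    · exact hr2 τ hτ
  have hw := g_walk h _ hS (fun p hp => (hprop p hp).2.2) hs ht
    ⟨p1, hp1, Or.inl (Or.inl ⟨0, self_mem_Ici, by simp⟩)⟩
    ⟨p2, hp2, Or.inr ⟨0, self_mem_Ici, by simp⟩⟩
  refine ⟨⟨hs, h1, h2⟩, ?_⟩
  refine Relation.ReflTransGen.mono ?_ _ _ hw.2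
  rintro x y ⟨hxy, hy, z, hz1, hz2⟩
  refine ⟨hxy, hy, ?_, ?_⟩
  · rintro rfl
    exact (hprop z hz2).1 hz1
  · rintro rfl
    exact (hprop z hz2).2.1 hz1

end J26103

alias g_3conn := J26103.g_3conn

namespace J26102

/-! ### TARGET of this job: g_seg -/

theorem g_seg_line (a v : ℂ) :
    MeasureTheory.volume ((AffineSubspace.mk' a (Submodule.span ℝ {v - a}) :
      AffineSubspace ℝ ℂ) : Set ℂ) = 0 := by
  apply MeasureTheory.Measure.addHaar_affineSubspace
  intro h
  have h1 := congrArg AffineSubspace.direction h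
  rw [AffineSubspace.direction_mk', AffineSubspace.direction_top] at h1
  have h2 := finrank_span_le_card (R := ℝ) ({v - a} : Set ℂ)
  rw [h1, finrank_top, Complex.finrank_real_complex] at h2
  simp at h2

theorem g_seg {T : Set (Set ℂ)} {u U : ℝ} (h : NC T u U) {s t : Set ℂ} (hs : s ∈ T) (ht : t ∈ T) :
    Jn Adj {q | q ∈ T ∧ ∃ a ∈ s, ∃ b ∈ t, (q ∩ segment ℝ a b).Nonempty} s t := by
  obtain ⟨-, hV⟩ := g_count h
  have hsi := (g_cl h hs).2
  have hti := (g_cl h ht).2
  obtain ⟨a, has, hav⟩ : ∃ a ∈ interior s, ¬ IsVertex T a := by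
    obtain ⟨a, ha1, ha2⟩ := (Set.Countable.dense_compl ℝ hV).inter_open_nonempty
      (interior s) isOpen_interior hsi
    exact ⟨a, ha1, ha2⟩
  obtain ⟨b, hbt, hb⟩ : ∃ b ∈ interior t, ∀ v ∈ {p | IsVertex T p},
      b ∉ ((AffineSubspace.mk' a (Submodule.span ℝ {v - a}) : AffineSubspace ℝ ℂ) : Set ℂ) := by
    by_contra hcon
    push Not at hcon
    have h1 : interior t ⊆ ⋃ v ∈ {p | IsVertex T p},
        ((AffineSubspace.mk' a (Submodule.span ℝ {v - a}) : AffineSubspace ℝ ℂ) : Set ℂ) := by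
      intro b hb
      obtain ⟨v, hv1, hv2⟩ := hcon b hb
      exact Set.mem_biUnion hv1 hv2
    have h2 : MeasureTheory.volume (⋃ v ∈ {p | IsVertex T p},
        ((AffineSubspace.mk' a (Submodule.span ℝ {v - a}) : AffineSubspace ℝ ℂ) : Set ℂ)) = 0 := by
      rw [MeasureTheory.measure_biUnion_null_iff hV]
      intro v _
      exact g_seg_line a v
    have h3 := MeasureTheory.measure_mono_null h1 h2
    have h4 := isOpen_interior.measure_pos MeasureTheory.volume hti
    exact absurd h3 h4.ne'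
  have hS : ∀ p ∈ segment ℝ a b, ¬ IsVertex T p := by
    intro p hp hpv
    apply hb p hpv
    rw [segment_eq_image'] at hp
    obtain ⟨θ, -, rfl⟩ := hp
    have hθ : θ ≠ 0 := by
      rintro rfl
      apply hav
      simpa using hpv
    rw [SetLike.mem_coe, AffineSubspace.mem_mk', Submodule.mem_span_singleton]
    refine ⟨θ⁻¹, ?_⟩
    simp only [vsub_eq_sub, add_sub_cancel_left]
    rw [smul_smul, inv_mul_cancel₀ hθ, one_smul]
  have hw := g_walk h (segment ℝ a b) (convex_segment a b).isPreconnected hS hs ht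
    ⟨a, interior_subset has, left_mem_segment ℝ a b⟩
    ⟨b, interior_subset hbt, right_mem_segment ℝ a b⟩
  refine ⟨⟨hs, a, interior_subset has, b, interior_subset hbt, a, interior_subset has,
    left_mem_segment ℝ a b⟩, ?_⟩
  refine Relation.ReflTransGen.mono ?_ _ _ hw.2
  rintro x y ⟨hxy, hyT, hyS⟩
  exact ⟨hxy, hyT, a, interior_subset has, b, interior_subset hbt, hyS⟩

end J26102

alias g_seg := J26102.g_seg

namespace J26105

/-! ### TARGET of this job: arg4 -/

theorem arg4_slit {a b c : ℂ} (h : c ∉ segment ℝ a b) : (a - c) / (b - c) ∈ Complex.slitPlane := by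
  by_contra hn
  rw [Complex.mem_slitPlane_iff, not_or, not_lt, not_not] at hn
  obtain ⟨hre, him⟩ := hn
  have hbc : b - c ≠ 0 := by
    intro hb
    exact h (by rw [← sub_eq_zero.1 hb]; exact right_mem_segment ℝ a b)
  set ζ := (a - c) / (b - c) with hζ
  have h1 : a - c = ζ * (b - c) := by rw [hζ]; field_simp
  have h2 : ζ = ((ζ.re : ℝ) : ℂ) := by
    apply Complex.ext
    · simp
    · simp [him]
  have hr : 0 < 1 - ζ.re := by linarith
  apply h
  refine ⟨1 / (1 - ζ.re), -ζ.re / (1 - ζ.re), by positivity, by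
    apply div_nonneg <;> linarith, by field_simp; ring, ?_⟩
  have hrc : (1 - ((ζ.re : ℝ) : ℂ)) ≠ 0 := by
    have : ((1 - ζ.re : ℝ) : ℂ) ≠ 0 := by exact_mod_cast hr.ne'
    simpa using this
  rw [h2] at h1
  have h3 : a = ((ζ.re : ℝ) : ℂ) * (b - c) + c := by rw [← h1]; ring
  rw [Complex.real_smul, Complex.real_smul]
  push_cast
  rw [h3]
  field_simp
  ring

theorem arg4_const (F : ℝ → ℝ) (hc : ContinuousOn F (Icc 0 1))
    (hF : ∀ t ∈ Icc (0 : ℝ) 1, ∃ n : ℤ, F t = n * (2 * Real.pi)) (h0 : F 0 = 0) : F 1 = 0 := by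
  have hpi := Real.pi_pos
  have key : ∀ t ∈ Icc (0 : ℝ) 1, F t ≠ Real.pi ∧ F t ≠ -Real.pi := by
    intro t ht
    obtain ⟨m, hm⟩ := hF t ht
    constructor
    · intro h
      rw [hm] at h
      have h1 : (2 * m : ℝ) = 1 := mul_right_cancel₀ hpi.ne' (by linarith)
      have h2 : (2 * m : ℤ) = 1 := by exact_mod_cast h1
      omega
    · intro h
      rw [hm] at h
      have h1 : (2 * m : ℝ) = -1 := mul_right_cancel₀ hpi.ne' (by linarith)
      have h2 : (2 * m : ℤ) = -1 := by exact_mod_cast h1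
      omega
  obtain ⟨n, hn⟩ := hF 1 ⟨zero_le_one, le_rfl⟩
  by_contra hne
  rcases lt_or_gt_of_ne hne with h | h
  · have hn1 : n ≤ -1 := by
      by_contra hcc
      have h3 : 0 ≤ n := by omega
      have h4 : (0 : ℝ) ≤ n := by exact_mod_cast h3
      rw [hn] at h
      nlinarith [mul_nonneg h4 (by linarith : (0 : ℝ) ≤ 2 * Real.pi)]
    have hn2 : (n : ℝ) ≤ -1 := by exact_mod_cast hn1
    have h5 : F 1 ≤ -Real.pi := by
      rw [hn]
      nlinarith
    obtain ⟨t, ht, hte⟩ := intermediate_value_Icc' zero_le_one hc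
      (show -Real.pi ∈ Icc (F 1) (F 0) from ⟨h5, by rw [h0]; linarith⟩)
    exact (key t ht).2 hte
  · have hn1 : 1 ≤ n := by
      by_contra hcc
      have h3 : n ≤ 0 := by omega
      have h4 : (n : ℝ) ≤ 0 := by exact_mod_cast h3
      rw [hn] at h
      nlinarith [mul_nonneg (neg_nonneg.2 h4) (by linarith : (0 : ℝ) ≤ 2 * Real.pi)]
    have hn2 : (1 : ℝ) ≤ n := by exact_mod_cast hn1
    have h5 : Real.pi ≤ F 1 := by
      rw [hn]
      nlinarith
    obtain ⟨t, ht, hte⟩ := intermediate_value_Icc zero_le_one hc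
      (show Real.pi ∈ Icc (F 0) (F 1) from ⟨by rw [h0]; linarith, h5⟩)
    exact (key t ht).1 hte

theorem arg4 (z w p q : ℂ) (hd : Disjoint (segment ℝ z w) (segment ℝ p q)) :
    Complex.arg ((w - p) / (z - p)) - Complex.arg ((w - q) / (z - q)) =
      Complex.arg ((w - p) / (w - q)) - Complex.arg ((z - p) / (z - q)) := by
  set W : ℝ → ℂ := fun t => z + (t : ℂ) * (w - z) with hW
  have hW0 : W 0 = z := by simp [hW]
  have hW1 : W 1 = w := by simp [hW]
  have hWc : Continuous W := by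
    rw [hW]
    fun_prop
  have hWm : ∀ t ∈ Icc (0 : ℝ) 1, W t ∈ segment ℝ z w := by
    intro t ht
    rw [segment_eq_image']
    exact ⟨t, ht, by simp [hW]⟩
  have hp : p ∈ segment ℝ p q := left_mem_segment ℝ p q
  have hq : q ∈ segment ℝ p q := right_mem_segment ℝ p q
  have hz : z ∈ segment ℝ z w := left_mem_segment ℝ z w
  have hsub : ∀ t ∈ Icc (0 : ℝ) 1, segment ℝ (W t) z ⊆ segment ℝ z w := fun t ht =>
    (convex_segment z w).segment_subset (hWm t ht) hz
  have hA : ∀ t ∈ Icc (0 : ℝ) 1, (W t - p) / (z - p) ∈ Complex.slitPlane := fun t ht =>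
    arg4_slit fun h => Set.disjoint_left.1 hd (hsub t ht h) hp
  have hB : ∀ t ∈ Icc (0 : ℝ) 1, (W t - q) / (z - q) ∈ Complex.slitPlane := fun t ht =>
    arg4_slit fun h => Set.disjoint_left.1 hd (hsub t ht h) hq
  have hC : ∀ t ∈ Icc (0 : ℝ) 1, (W t - p) / (W t - q) ∈ Complex.slitPlane := by
    intro t ht
    have h1 : (W t - p) / (W t - q) = (p - W t) / (q - W t) := by
      rw [← neg_sub p, ← neg_sub q, neg_div_neg_eq]
    rw [h1]
    exact arg4_slit fun h => Set.disjoint_left.1 hd (hWm t ht) h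
  have hWp : ∀ t ∈ Icc (0 : ℝ) 1, W t - p ≠ 0 := by
    intro t ht h
    exact Set.disjoint_left.1 hd (hWm t ht) (by rw [sub_eq_zero.1 h]; exact hp)
  have hWq : ∀ t ∈ Icc (0 : ℝ) 1, W t - q ≠ 0 := by
    intro t ht h
    exact Set.disjoint_left.1 hd (hWm t ht) (by rw [sub_eq_zero.1 h]; exact hq)
  have h01 : (0 : ℝ) ∈ Icc (0 : ℝ) 1 := ⟨le_rfl, zero_le_one⟩
  have hzp : z - p ≠ 0 := by have := hWp 0 h01; rwa [hW0] at this
  have hzq : z - q ≠ 0 := by have := hWq 0 h01; rwa [hW0] at this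
  have hF := arg4_const (fun t => Complex.arg ((W t - p) / (z - p)) -
    Complex.arg ((W t - q) / (z - q)) - (Complex.arg ((W t - p) / (W t - q)) -
      Complex.arg ((z - p) / (z - q)))) ?_ ?_ ?_
  · simp only [hW1] at hF
    linarith
  · intro t ht
    apply ContinuousAt.continuousWithinAt
    refine (ContinuousAt.sub ?_ ?_).sub (ContinuousAt.sub ?_ continuousAt_const)
    · exact ContinuousAt.comp (f := fun t => (W t - p) / (z - p)) (g := Complex.arg)
        (Complex.continuousAt_arg (hA t ht))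
        ((hWc.continuousAt.sub continuousAt_const).div_const _)
    · exact ContinuousAt.comp (f := fun t => (W t - q) / (z - q)) (g := Complex.arg)
        (Complex.continuousAt_arg (hB t ht))
        ((hWc.continuousAt.sub continuousAt_const).div_const _)
    · exact ContinuousAt.comp (f := fun t => (W t - p) / (W t - q)) (g := Complex.arg)
        (Complex.continuousAt_arg (hC t ht))
        ((hWc.continuousAt.sub continuousAt_const).div
          (hWc.continuousAt.sub continuousAt_const) (hWq t ht))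
  · intro t ht
    have h1 : ((Complex.arg ((W t - p) / (z - p)) - Complex.arg ((W t - q) / (z - q)) -
        (Complex.arg ((W t - p) / (W t - q)) - Complex.arg ((z - p) / (z - q))) : ℝ) :
        Real.Angle) = 0 := by
      rw [Real.Angle.coe_sub, Real.Angle.coe_sub, Real.Angle.coe_sub,
        ← Complex.arg_div_coe_angle (div_ne_zero (hWp t ht) hzp) (div_ne_zero (hWq t ht) hzq),
        ← Complex.arg_div_coe_angle (div_ne_zero (hWp t ht) (hWq t ht)) (div_ne_zero hzp hzq),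
        sub_eq_zero]
      congr 2
      have h2 := hWq t ht
      field_simp
    rw [Real.Angle.coe_eq_zero_iff] at h1
    obtain ⟨n, hn⟩ := h1
    exact ⟨n, by rw [← hn, zsmul_eq_mul]⟩
  · simp only [hW0]
    rw [div_self hzp, div_self hzq]
    ring

end J26105

alias arg4 := J26105.arg4

namespace J26107

/-! ### TARGET of this job: arg_cross -/

theorem arg_cross (s t m p q : ℂ) (hs : 0 < cross (q - p) (s - p)) (ht : cross (q - p) (t - p) < 0)
    (hm : m ∈ openSegment ℝ p q) :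
    (Complex.arg ((m - q) / (s - q)) + Complex.arg ((t - q) / (m - q))) -
      (Complex.arg ((m - p) / (s - p)) + Complex.arg ((t - p) / (m - p))) =
      Complex.arg ((t - q) / (t - p)) - Complex.arg ((s - q) / (s - p)) + 2 * Real.pi := by
  have argdiv : ∀ x y : ℂ, x ≠ 0 → y ≠ 0 → Complex.arg y ≠ Real.pi →
      Complex.arg x - Complex.arg y ∈ Set.Ioc (-Real.pi) Real.pi →
      Complex.arg (x / y) = Complex.arg x - Complex.arg y := by
    intro x y hx hy hpi h
    rw [div_eq_mul_inv, Complex.arg_mul hx (inv_ne_zero hy), Complex.arg_inv, if_neg hpi]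
    · ring
    · rw [Complex.arg_inv, if_neg hpi]
      simpa [sub_eq_add_neg] using h
  have hd : q - p ≠ 0 := by
    intro h
    rw [h] at hs
    simp [cross] at hs
  obtain ⟨a, b, ha, hb, hab, rfl⟩ := hm
  obtain ⟨s', hs'⟩ : ∃ s', s = p + (q - p) * s' := ⟨(s - p) / (q - p), by field_simp; ring⟩
  obtain ⟨t', ht'⟩ : ∃ t', t = p + (q - p) * t' := ⟨(t - p) / (q - p), by field_simp; ring⟩
  have hN : 0 < (q - p).re ^ 2 + (q - p).im ^ 2 := by
    rcases eq_or_ne (q - p).re 0 with h | h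
    · rcases eq_or_ne (q - p).im 0 with h' | h'
      · exact absurd (Complex.ext h h') hd
      · positivity
    · positivity
  have hsim : 0 < s'.im := by
    have h1 : s - p = (q - p) * s' := by rw [hs']; ring
    rw [h1] at hs
    have h2 : cross (q - p) ((q - p) * s') = ((q - p).re ^ 2 + (q - p).im ^ 2) * s'.im := by
      simp only [cross, Complex.mul_re, Complex.mul_im]; ring
    rw [h2] at hs
    exact (mul_pos_iff_of_pos_left hN).1 hs
  have htim : t'.im < 0 := by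
    have h1 : t - p = (q - p) * t' := by rw [ht']; ring
    rw [h1] at ht
    have h2 : cross (q - p) ((q - p) * t') = ((q - p).re ^ 2 + (q - p).im ^ 2) * t'.im := by
      simp only [cross, Complex.mul_re, Complex.mul_im]; ring
    rw [h2] at ht
    by_contra hcon
    push Not at hcon
    have := mul_nonneg hN.le hcon
    linarith
  have hs0 : s' ≠ 0 := by rintro rfl; simp at hsim
  have ht0 : t' ≠ 0 := by rintro rfl; simp at htim
  have hs1 : s' - 1 ≠ 0 := by
    intro h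
    have := congrArg Complex.im h
    simp at this
    linarith
  have ht1 : t' - 1 ≠ 0 := by
    intro h
    have := congrArg Complex.im h
    simp at this
    linarith
  have hs1' : 1 - s' ≠ 0 := by
    intro h; apply hs1; linear_combination -h
  have ht1' : 1 - t' ≠ 0 := by
    intro h; apply ht1; linear_combination -h
  have hab' : (a : ℂ) + b = 1 := by exact_mod_cast hab
  have haC : (a : ℂ) ≠ 0 := by exact_mod_cast ha.ne'
  have hbC : (b : ℂ) ≠ 0 := by exact_mod_cast hb.ne'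
  have em1 : a • p + b • q - q = -(a : ℂ) * (q - p) := by
    simp only [Complex.real_smul]
    linear_combination q * hab'
  have em2 : a • p + b • q - p = (b : ℂ) * (q - p) := by
    simp only [Complex.real_smul]
    linear_combination p * hab'
  have es1 : s - q = (q - p) * (s' - 1) := by rw [hs']; ring
  have es2 : s - p = (q - p) * s' := by rw [hs']; ring
  have et1 : t - q = (q - p) * (t' - 1) := by rw [ht']; ring
  have et2 : t - p = (q - p) * t' := by rw [ht']; ring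
  have q1 : (a • p + b • q - q) / (s - q) = (a : ℂ) * (1 - s')⁻¹ := by
    rw [em1, es1]
    have : s' - 1 = -(1 - s') := by ring
    rw [this]
    field_simp
  have q2 : (t - q) / (a • p + b • q - q) = ((a⁻¹ : ℝ) : ℂ) * (1 - t') := by
    rw [em1, et1]
    push_cast
    field_simp
    ring
  have q3 : (a • p + b • q - p) / (s - p) = (b : ℂ) * s'⁻¹ := by
    rw [em2, es2]
    field_simp
  have q4 : (t - p) / (a • p + b • q - p) = ((b⁻¹ : ℝ) : ℂ) * t' := by
    rw [em2, et2]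
    push_cast
    field_simp
  have q5 : (t - q) / (t - p) = (t' - 1) / t' := by
    rw [et1, et2]; field_simp
  have q6 : (s - q) / (s - p) = (s' - 1) / s' := by
    rw [es1, es2]; field_simp
  -- arguments
  have hpi := Real.pi_pos
  have as1 : 0 ≤ Complex.arg s' := Complex.arg_nonneg_iff.2 hsim.le
  have as2 : Complex.arg s' < Real.pi := Complex.arg_lt_pi_iff.2 (Or.inr hsim.ne')
  have hsim1 : 0 < (s' - 1).im := by simpa using hsim
  have htim1 : (t' - 1).im < 0 := by simpa using htim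
  have as3 : 0 ≤ Complex.arg (s' - 1) := Complex.arg_nonneg_iff.2 hsim1.le
  have as4 : Complex.arg (s' - 1) < Real.pi := Complex.arg_lt_pi_iff.2 (Or.inr hsim1.ne')
  have at1 : Complex.arg t' < 0 := Complex.arg_neg_iff.2 htim
  have at2 : -Real.pi < Complex.arg t' := Complex.neg_pi_lt_arg _
  have at3 : Complex.arg (t' - 1) < 0 := Complex.arg_neg_iff.2 htim1
  have at4 : -Real.pi < Complex.arg (t' - 1) := Complex.neg_pi_lt_arg _
  have n1 : Complex.arg (1 - s') = Complex.arg (s' - 1) - Real.pi := by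
    rw [← Complex.arg_neg_eq_arg_sub_pi_of_im_pos hsim1]
    congr 1; ring
  have n2 : Complex.arg (1 - t') = Complex.arg (t' - 1) + Real.pi := by
    rw [← Complex.arg_neg_eq_arg_add_pi_of_im_neg htim1]
    congr 1; ring
  rw [q1, q2, q3, q4, q5, q6, Complex.arg_real_mul _ ha, Complex.arg_real_mul _ (inv_pos.2 ha),
    Complex.arg_real_mul _ hb, Complex.arg_real_mul _ (inv_pos.2 hb), Complex.arg_inv,
    Complex.arg_inv, argdiv _ _ ht1 ht0 (by linarith) ⟨by linarith, by linarith⟩,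
    argdiv _ _ hs1 hs0 (by linarith) ⟨by linarith, by linarith⟩, if_neg as2.ne, if_neg, n1, n2]
  · ring
  · rw [n1]; linarith

end J26107

alias arg_cross := J26107.arg_cross

/-- balanced chains of ordered pairs -/
def Bal {ι : Type} (c : (ι × ι) →₀ ℤ) : Prop :=
  ∀ g : ι → ℝ, c.sum (fun p a => (a : ℝ) * (g p.2 - g p.1)) = 0

namespace J26106

/-! ### TARGET of this job: chain -/

theorem chain_seg_left {p p' q : ℂ} (h : segment ℝ p' q = segment ℝ p q) : p' = p := by
  have h1 : p ∈ segment ℝ p' q := by rw [h]; exact left_mem_segment ℝ p q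
  have h2 : p' ∈ segment ℝ p q := by rw [← h]; exact left_mem_segment ℝ p' q
  have d1 := dist_add_dist_of_mem_segment h1
  have d2 := dist_add_dist_of_mem_segment h2
  have d3 : dist p' p = dist p p' := dist_comm _ _
  have d4 : dist p' p = 0 := by linarith
  exact dist_eq_zero.1 d4

theorem chain_mid_ne {p q p0 q0 : ℂ} (hpq : p ≠ q) (hne : p0 ≠ q0)
    (h0 : p0 ∈ segment ℝ p q) (h1 : q0 ∈ segment ℝ p q) : p ≠ (p0 + q0) / 2 := by
  rw [segment_eq_image'] at h0 h1
  obtain ⟨s, hs, rfl⟩ := h0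
  obtain ⟨t, ht, rfl⟩ := h1
  intro h
  simp only [Complex.real_smul] at h hne
  have h2 : ((s + t : ℝ) : ℂ) * (q - p) = 0 := by
    push_cast
    linear_combination (-2) * h
  rcases mul_eq_zero.1 h2 with h3 | h3
  · have h4 : s + t = 0 := by exact_mod_cast h3
    have hs0 : s = 0 := by linarith [hs.1, ht.1]
    have ht0 : t = 0 := by linarith [hs.1, ht.1]
    apply hne
    rw [hs0, ht0]
  · exact hpq (sub_eq_zero.1 h3).symm

theorem chain_mid (E : Set ℂ) (hE : ∃ p q : ℂ, p ≠ q ∧ E = segment ℝ p q) :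
    ∃ m : ℂ, ∀ p q : ℂ, p ≠ q → E = segment ℝ p q → m ∈ openSegment ℝ p q := by
  obtain ⟨p0, q0, hne, hE0⟩ := hE
  refine ⟨(p0 + q0) / 2, fun p q hpq hEpq => ?_⟩
  have hp0 : p0 ∈ segment ℝ p q := by
    rw [← hEpq, hE0]; exact left_mem_segment ℝ p0 q0
  have hq0 : q0 ∈ segment ℝ p q := by
    rw [← hEpq, hE0]; exact right_mem_segment ℝ p0 q0
  have hm : (p0 + q0) / 2 ∈ segment ℝ p q := by
    rw [← hEpq, hE0]
    refine ⟨1 / 2, 1 / 2, by norm_num, by norm_num, by norm_num, ?_⟩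
    simp only [Complex.real_smul]
    push_cast
    ring
  apply mem_openSegment_of_ne_left_right _ _ hm
  · exact chain_mid_ne hpq hne hp0 hq0
  · rw [segment_symm] at hp0 hq0
    exact chain_mid_ne hpq.symm hne hp0 hq0

theorem chain_disj {T : Set (Set ℂ)} {u U : ℝ} (h : NC T u U) {A B A2 : Set ℂ} (hA : A ∈ T)
    (hB : B ∈ T) (hA2 : A2 ∈ T) (hAB : A ≠ B) {z m p q : ℂ} (hz : z ∈ interior A2) (hm : m ∈ A2)
    (hseg : A ∩ B = segment ℝ p q) (hmn : m ∉ A ∩ B) :
    Disjoint (segment ℝ z m) (segment ℝ p q) := by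
  rw [Set.disjoint_left]
  intro x hx hxpq
  rw [← hseg] at hxpq
  have hint : x ∈ interior A2 → False := by
    intro hxi
    have h1 := g_int h hA2 hA hxi hxpq.1
    have h2 := g_int h hA2 hB hxi hxpq.2
    exact hAB (h1.trans h2.symm)
  rw [← insert_endpoints_openSegment] at hx
  rcases hx with hx | hx | hx
  · exact hint (by rw [hx]; exact hz)
  · rw [hx] at hxpq
    exact hmn hxpq
  · exact hint ((h.conv A2 hA2).openSegment_interior_closure_subset_interior hz
      (subset_closure hm) hx)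

theorem chain_vint {T : Set (Set ℂ)} {u U : ℝ} (h : NC T u U) {p : ℂ} (hp : IsVertex T p)
    {A : Set ℂ} (hA : A ∈ T) : p ∉ interior A := by
  intro hpi
  obtain ⟨C1, h1, C2, h2, C3, h3, h12, h13, h23, p1, p2, p3⟩ := hp
  have e1 := g_int h hA h1 hpi p1
  have e2 := g_int h hA h2 hpi p2
  exact h12 (e1.trans e2.symm)

theorem chain_vmid {T : Set (Set ℂ)} {p m : ℂ} (hp : IsVertex T p)
    {A B : Set ℂ} (hm : ∀ C ∈ T, m ∈ C → C = A ∨ C = B) : p ≠ m := by
  rintro rfl
  obtain ⟨C1, h1, C2, h2, C3, h3, h12, h13, h23, p1, p2, p3⟩ := hp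
  rcases hm C1 h1 p1 with e1 | e1 <;> rcases hm C2 h2 p2 with e2 | e2 <;>
    rcases hm C3 h3 p3 with e3 | e3
  · exact h12 (e1.trans e2.symm)
  · exact h12 (e1.trans e2.symm)
  · exact h13 (e1.trans e3.symm)
  · exact h23 (e2.trans e3.symm)
  · exact h23 (e2.trans e3.symm)
  · exact h13 (e1.trans e3.symm)
  · exact h12 (e1.trans e2.symm)
  · exact h12 (e1.trans e2.symm)

theorem chain_arg_inv {p q z : ℂ} (hc : cross (q - p) (z - p) ≠ 0) :
    Complex.arg ((z - p) / (z - q)) = - Complex.arg ((z - q) / (z - p)) := by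
  have h1 : (z - p) / (z - q) = ((z - q) / (z - p))⁻¹ := by rw [inv_div]
  rw [h1, Complex.arg_inv, if_neg]
  intro hpi
  rw [Complex.arg_eq_pi_iff] at hpi
  obtain ⟨hre, him⟩ := hpi
  apply hc
  have hzp : z - p ≠ 0 := by
    intro h0
    rw [h0, div_zero] at hre
    simp at hre
  set w := (z - q) / (z - p) with hw
  have h2 : z - q = w * (z - p) := by rw [hw]; field_simp
  have h3 : q - p = (1 - w) * (z - p) := by linear_combination -h2
  unfold cross
  rw [h3]
  simp only [Complex.mul_re, Complex.mul_im, Complex.sub_re, Complex.sub_im, Complex.one_re,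
    Complex.one_im, him]
  ring

theorem chain_theta_int {p m a b : ℂ} (hm : m ≠ p) (ha : a ≠ p) (hb : b ≠ p) :
    ∃ k : ℤ, Complex.arg ((m - p) / (a - p)) + Complex.arg ((b - p) / (m - p)) =
      Complex.arg (b - p) - Complex.arg (a - p) + 2 * Real.pi * k := by
  have hm' := sub_ne_zero.2 hm
  have ha' := sub_ne_zero.2 ha
  have hb' := sub_ne_zero.2 hb
  have h1 := Complex.arg_div_coe_angle hm' ha'
  have h2 := Complex.arg_div_coe_angle hb' hm'
  have h3 : ((Complex.arg ((m - p) / (a - p)) + Complex.arg ((b - p) / (m - p)) : ℝ) :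
      Real.Angle) = ((Complex.arg (b - p) - Complex.arg (a - p) : ℝ) : Real.Angle) := by
    rw [Real.Angle.coe_add, h1, h2, Real.Angle.coe_sub]
    abel
  rw [Real.Angle.angle_eq_iff_two_pi_dvd_sub] at h3
  obtain ⟨k, hk⟩ := h3
  exact ⟨k, by linarith⟩

theorem chain_far {R : ℝ} {p x y : ℂ} (hx : ‖x‖ ≤ R) (hy : ‖y‖ ≤ R) (hp : 3 * R + 1 < ‖p‖) :
    |Complex.arg ((x - p) / (y - p))| < Real.pi / 2 := by
  rw [Complex.abs_arg_lt_pi_div_two_iff]
  left
  have h1 : 2 * R + 1 < ‖y - p‖ := by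
    have := norm_sub_norm_le p y
    rw [norm_sub_rev] at this
    linarith
  have hR : 0 ≤ R := (norm_nonneg x).trans hx
  have hyp : y - p ≠ 0 := by
    intro h0
    rw [h0, norm_zero] at h1
    linarith
  have e1 : (x - p) / (y - p) = 1 + (x - y) / (y - p) := by
    field_simp
    ring
  have h2 : ‖(x - y) / (y - p)‖ < 1 := by
    rw [norm_div, div_lt_one (norm_pos_iff.2 hyp)]
    have := norm_sub_le x y
    linarith
  have h3 := Complex.abs_re_le_norm ((x - y) / (y - p))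
  rw [e1, Complex.add_re, Complex.one_re]
  have h4 := neg_abs_le ((x - y) / (y - p)).re
  linarith

theorem chain_far2 {R : ℝ} {p x y : ℂ} (hx : ‖x‖ ≤ R) (hy : ‖y‖ ≤ R) (hp : 3 * R + 1 < ‖p‖) :
    Complex.arg ((x - p) / (y - p)) = Complex.arg ((x - p) / (0 - p)) -
      Complex.arg ((y - p) / (0 - p)) := by
  have hR : 0 ≤ R := (norm_nonneg x).trans hx
  have h0 : ‖(0 : ℂ)‖ ≤ R := by rw [norm_zero]; exact hR
  have a1 := chain_far hx hy hp
  have a2 := chain_far hy h0 hp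
  have hne : ∀ w : ℂ, ‖w‖ ≤ R → w - p ≠ 0 := by
    intro w hw hwp
    rw [sub_eq_zero.1 hwp] at hw
    linarith
  have hxp := hne x hx
  have hyp := hne y hy
  have h0p := hne 0 h0
  rw [abs_lt] at a1 a2
  have hpi := Real.pi_pos
  have h1 := Complex.arg_mul (div_ne_zero hxp hyp) (div_ne_zero hyp h0p)
    ⟨by linarith [a1.1, a2.1], by linarith [a1.2, a2.2]⟩
  have e1 : (x - p) / (y - p) * ((y - p) / (0 - p)) = (x - p) / (0 - p) := by
    field_simp
  rw [e1] at h1
  linarith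

theorem chain {T : Set (Set ℂ)} {u U : ℝ} (h : NC T u U) (c : (Set ℂ × Set ℂ) →₀ ℤ)
    (hs : ∀ p ∈ c.support, p.1 ∈ T ∧ p.2 ∈ T ∧ Adj p.1 p.2) (hb : Bal c) :
    ∃ W : ℂ → ℤ, (∀ A ∈ T, ∀ B ∈ T, Adj A B → ∀ p q, Head A B q → Head B A p →
      W q - W p = c (A, B) - c (B, A)) ∧ {p | IsVertex T p ∧ W p ≠ 0}.Finite := by
  classical
  choose! mid hmid using chain_mid
  have hzex : ∀ A, A ∈ T → ∃ z, z ∈ interior A := fun A hA => (g_cl h hA).2
  choose! z hz using hzex
  -- properties of the midpoints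
  have hM : ∀ A ∈ T, ∀ B ∈ T, Adj A B → mid (A ∩ B) ∈ A ∩ B ∧
      ∀ C ∈ T, mid (A ∩ B) ∈ C → C = A ∨ C = B := by
    intro A hA B hB had
    obtain ⟨p, q, hpq, hseg, -, -, hC⟩ := g_adj h hA hB had
    have h1 := hmid (A ∩ B) ⟨p, q, hpq, hseg⟩ p q hpq hseg
    refine ⟨?_, fun C hC' hmC => hC _ h1 C hC' hmC⟩
    have h2 : mid (A ∩ B) ∈ segment ℝ p q := openSegment_subset_segment ℝ p q h1
    rw [← hseg] at h2
    exact h2
  let θ : ℂ → Set ℂ × Set ℂ → ℝ := fun p x =>
    Complex.arg ((mid (x.1 ∩ x.2) - p) / (z x.1 - p)) +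
      Complex.arg ((z x.2 - p) / (mid (x.1 ∩ x.2) - p))
  let S : ℂ → ℝ := fun p => ∑ x ∈ c.support, (c x : ℝ) * θ p x
  have hpi := Real.pi_pos
  have hbal : ∀ g : Set ℂ → ℝ, ∑ x ∈ c.support, (c x : ℝ) * (g x.2 - g x.1) = 0 := fun g => hb g
  -- integrality
  have hint : ∀ p, IsVertex T p → ((round (S p / (2 * Real.pi)) : ℤ) : ℝ) * (2 * Real.pi) = S p := by
    intro p hp
    have hk : ∀ x ∈ c.support, ∃ k : ℤ, θ p x =
        Complex.arg (z x.2 - p) - Complex.arg (z x.1 - p) + 2 * Real.pi * k := by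
      intro x hx
      obtain ⟨h1, h2, h3⟩ := hs x hx
      refine chain_theta_int ?_ ?_ ?_
      · exact (chain_vmid hp (hM x.1 h1 x.2 h2 h3).2).symm
      · intro he
        exact chain_vint h hp h1 (he ▸ hz x.1 h1)
      · intro he
        exact chain_vint h hp h2 (he ▸ hz x.2 h2)
    choose! k hk using hk
    have e1 : S p = 2 * Real.pi * ((∑ x ∈ c.support, c x * k x : ℤ) : ℝ) := by
      have h1 := hbal (fun A => Complex.arg (z A - p))
      have h2 : S p = ∑ x ∈ c.support, (c x : ℝ) * (Complex.arg (z x.2 - p) -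
          Complex.arg (z x.1 - p)) + ∑ x ∈ c.support, (c x : ℝ) * (2 * Real.pi * k x) := by
        rw [← Finset.sum_add_distrib]
        apply Finset.sum_congr rfl
        intro x hx
        rw [hk x hx]
        ring
      rw [h2, h1, zero_add]
      push_cast
      rw [Finset.mul_sum]
      apply Finset.sum_congr rfl
      intro x _
      ring
    have e2 : S p / (2 * Real.pi) = ((∑ x ∈ c.support, c x * k x : ℤ) : ℝ) := by
      rw [e1]
      field_simp
    rw [e2, round_intCast, e1]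
    ring
  refine ⟨fun p => round (S p / (2 * Real.pi)), ?_, ?_⟩
  · intro A hA B hB had p q hq hp
    obtain ⟨p0, q0, hpq0, hseg, hq0, hp0, hvp, hvq⟩ := g_head h hA hB had
    have eq1 := g_head_uniq h hA hq0 hq
    have eq2 := g_head_uniq h hB hp0 hp
    subst eq1
    subst eq2
    have hAB : A ≠ B := had.1
    have hcA : ∀ w ∈ interior A, 0 < cross (q0 - p0) (w - p0) := by
      obtain ⟨p', hp'q, hseg', hcr⟩ := hq
      have : p' = p0 := chain_seg_left (hseg'.symm.trans hseg)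
      subst this
      exact hcr
    have hcB : ∀ w ∈ interior B, cross (q0 - p0) (w - p0) < 0 := by
      obtain ⟨q', hq'p, hseg', hcr⟩ := hp
      have : q' = q0 := by
        apply chain_seg_left (q := p0)
        rw [← hseg', Set.inter_comm, hseg, segment_symm]
      subst this
      intro w hw
      have h1 := hcr w hw
      have h2 : cross (q' - p0) (w - p0) = - cross (p0 - q') (w - q') := by
        unfold cross
        simp only [Complex.sub_re, Complex.sub_im]
        ring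
      rw [h2]
      linarith
    let G : Set ℂ → ℝ := fun X => Complex.arg ((z X - q0) / (z X - p0))
    have hm0 := hmid (A ∩ B) ⟨p0, q0, hpq0, hseg⟩ p0 q0 hpq0 hseg
    have hzA := hcA _ (hz A hA)
    have hzB := hcB _ (hz B hB)
    have hstep : ∀ x ∈ c.support, θ q0 x - θ p0 x = (G x.2 - G x.1) +
        2 * Real.pi * ((if x = (A, B) then 1 else 0) - (if x = (B, A) then 1 else 0)) := by
      intro x hx
      obtain ⟨h1, h2, h3⟩ := hs x hx
      by_cases hx1 : x = (A, B)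
      · have hx2 : x ≠ (B, A) := by
          rw [hx1]
          intro he
          exact hAB (Prod.ext_iff.1 he).1
        rw [if_pos hx1, if_neg hx2]
        subst hx1
        have := arg_cross (z A) (z B) (mid (A ∩ B)) p0 q0 hzA hzB hm0
        show (Complex.arg ((mid (A ∩ B) - q0) / (z A - q0)) +
          Complex.arg ((z B - q0) / (mid (A ∩ B) - q0))) -
          (Complex.arg ((mid (A ∩ B) - p0) / (z A - p0)) +
          Complex.arg ((z B - p0) / (mid (A ∩ B) - p0))) =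
          (Complex.arg ((z B - q0) / (z B - p0)) - Complex.arg ((z A - q0) / (z A - p0))) + _
        rw [this]
        ring
      · by_cases hx2 : x = (B, A)
        · rw [if_neg hx1, if_pos hx2]
          subst hx2
          have hm1 : mid (B ∩ A) ∈ openSegment ℝ q0 p0 := by
            rw [Set.inter_comm, openSegment_symm]
            exact hm0
          have k1 : 0 < cross (p0 - q0) (z B - q0) := by
            have h2 : cross (p0 - q0) (z B - q0) = - cross (q0 - p0) (z B - p0) := by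
              unfold cross
              simp only [Complex.sub_re, Complex.sub_im]
              ring
            rw [h2]
            linarith
          have k2 : cross (p0 - q0) (z A - q0) < 0 := by
            have h2 : cross (p0 - q0) (z A - q0) = - cross (q0 - p0) (z A - p0) := by
              unfold cross
              simp only [Complex.sub_re, Complex.sub_im]
              ring
            rw [h2]
            linarith
          have := arg_cross (z B) (z A) (mid (B ∩ A)) q0 p0 k1 k2 hm1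
          rw [chain_arg_inv hzA.ne', chain_arg_inv hzB.ne] at this
          show (Complex.arg ((mid (B ∩ A) - q0) / (z B - q0)) +
            Complex.arg ((z A - q0) / (mid (B ∩ A) - q0))) -
            (Complex.arg ((mid (B ∩ A) - p0) / (z B - p0)) +
            Complex.arg ((z A - p0) / (mid (B ∩ A) - p0))) =
            (Complex.arg ((z A - q0) / (z A - p0)) - Complex.arg ((z B - q0) / (z B - p0))) + _
          linarith
        · rw [if_neg hx1, if_neg hx2]
          obtain ⟨A2, B2⟩ := x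
          have hmm := hM A2 h1 B2 h2 h3
          have hmn : mid (A2 ∩ B2) ∉ A ∩ B := by
            rintro ⟨hmA, hmB⟩
            rcases hmm.2 A hA hmA with e1 | e1 <;> rcases hmm.2 B hB hmB with e2 | e2
            · exact hAB (e1.trans e2.symm)
            · apply hx1
              rw [e1, e2]
            · apply hx2
              rw [e1, e2]
            · exact hAB (e1.trans e2.symm)
          have hseg' : A ∩ B = segment ℝ q0 p0 := by rw [hseg, segment_symm]
          have d1 := chain_disj h hA hB h1 hAB (hz A2 h1) hmm.1.1 hseg' hmn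
          have d2 := chain_disj h hA hB h2 hAB (hz B2 h2) hmm.1.2 hseg' hmn
          rw [segment_symm] at d2
          have e1 := arg4 (z A2) (mid (A2 ∩ B2)) q0 p0 d1
          have e2 := arg4 (mid (A2 ∩ B2)) (z B2) q0 p0 d2
          show (Complex.arg ((mid (A2 ∩ B2) - q0) / (z A2 - q0)) +
            Complex.arg ((z B2 - q0) / (mid (A2 ∩ B2) - q0))) -
            (Complex.arg ((mid (A2 ∩ B2) - p0) / (z A2 - p0)) +
            Complex.arg ((z B2 - p0) / (mid (A2 ∩ B2) - p0))) =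
            (Complex.arg ((z B2 - q0) / (z B2 - p0)) -
              Complex.arg ((z A2 - q0) / (z A2 - p0))) + _
          linarith
    have hsum : S q0 - S p0 = 2 * Real.pi * ((c (A, B) : ℝ) - c (B, A)) := by
      have e1 : S q0 - S p0 = ∑ x ∈ c.support, (c x : ℝ) * (θ q0 x - θ p0 x) := by
        show ∑ x ∈ c.support, (c x : ℝ) * θ q0 x - ∑ x ∈ c.support, (c x : ℝ) * θ p0 x = _
        rw [← Finset.sum_sub_distrib]
        apply Finset.sum_congr rfl
        intro x _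
        ring
      have e2 : ∑ x ∈ c.support, (c x : ℝ) * (θ q0 x - θ p0 x) =
          ∑ x ∈ c.support, (c x : ℝ) * (G x.2 - G x.1) +
          2 * Real.pi * (∑ x ∈ c.support, (if x = (A, B) then (c x : ℝ) else 0) -
            ∑ x ∈ c.support, (if x = (B, A) then (c x : ℝ) else 0)) := by
        rw [← Finset.sum_sub_distrib, Finset.mul_sum, ← Finset.sum_add_distrib]
        apply Finset.sum_congr rfl
        intro x hx
        rw [hstep x hx]
        split_ifs <;> ring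
      have e3 : ∀ a, ∑ x ∈ c.support, (if x = a then (c x : ℝ) else 0) = c a := by
        intro a
        rw [Finset.sum_ite_eq']
        by_cases ha : a ∈ c.support
        · rw [if_pos ha]
        · rw [if_neg ha]
          rw [Finsupp.notMem_support_iff.1 ha]
          simp
      rw [e1, e2, hbal G, e3, e3, zero_add]
    have i1 := hint p0 hvp
    have i2 := hint q0 hvq
    have hfin : ((round (S q0 / (2 * Real.pi)) - round (S p0 / (2 * Real.pi)) : ℤ) : ℝ) =
        ((c (A, B) - c (B, A) : ℤ) : ℝ) := by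
      have h2pi : (0:ℝ) < 2 * Real.pi := by linarith
      apply mul_right_cancel₀ h2pi.ne'
      push_cast
      rw [sub_mul, i1, i2, hsum]
      ring
    exact_mod_cast hfin
  · -- finite support
    obtain ⟨R, hR0, hR⟩ : ∃ R : ℝ, 0 ≤ R ∧ ∀ x ∈ c.support, ‖z x.1‖ ≤ R ∧ ‖z x.2‖ ≤ R ∧
        ‖mid (x.1 ∩ x.2)‖ ≤ R := by
      refine ⟨∑ x ∈ c.support, (‖z x.1‖ + ‖z x.2‖ + ‖mid (x.1 ∩ x.2)‖), by positivity,
        fun x hx => ?_⟩
      have h1 := Finset.single_le_sum (f := fun x : Set ℂ × Set ℂ =>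
        ‖z x.1‖ + ‖z x.2‖ + ‖mid (x.1 ∩ x.2)‖) (fun i _ => by positivity) hx
      have h2 := norm_nonneg (z x.1)
      have h3 := norm_nonneg (z x.2)
      have h4 := norm_nonneg (mid (x.1 ∩ x.2))
      refine ⟨by linarith, by linarith, by linarith⟩
    refine (g_vfin h 0 (3 * R + 1)).subset ?_
    rintro p ⟨hv, hW⟩
    refine ⟨hv, ?_⟩
    by_contra hcon
    rw [mem_closedBall, dist_zero_right, not_le] at hcon
    apply hW
    have hS : S p = 0 := by
      rw [← hbal (fun X => Complex.arg ((z X - p) / (0 - p)))]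
      apply Finset.sum_congr rfl
      intro x hx
      obtain ⟨r1, r2, r3⟩ := hR x hx
      show (c x : ℝ) * (Complex.arg ((mid (x.1 ∩ x.2) - p) / (z x.1 - p)) +
        Complex.arg ((z x.2 - p) / (mid (x.1 ∩ x.2) - p))) = _
      rw [chain_far2 r3 r1 hcon, chain_far2 r2 r3 hcon]
      ring
    show round (S p / (2 * Real.pi)) = 0
    rw [hS, zero_div, round_zero]

end J26106

alias chain := J26106.chain

/-- the pairs `(A, B)` of adjacent tiles at the vertex `v` (counterclockwise) -/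
def ring (T : Set (Set ℂ)) (v : ℂ) : Set (Set ℂ × Set ℂ) :=
  {p | p.1 ∈ T ∧ p.2 ∈ T ∧ Adj p.1 p.2 ∧ Head p.1 p.2 v}

namespace J26108

/-! ### TARGET of this job: ring_fin -/

theorem ring_fin {T : Set (Set ℂ)} {u U : ℝ} (h : NC T u U) (v : ℂ) : (ring T v).Finite := by
  obtain ⟨N, hN⟩ := g_locfin h 0
  have hf := (hN v).1
  refine (hf.prod hf).subset ?_
  rintro ⟨A, B⟩ ⟨hA, hB, -, ⟨p, -, hAB, -⟩⟩
  have hv : v ∈ A ∩ B := by
    have : v ∈ segment ℝ p v := right_mem_segment ℝ p v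
    rw [← hAB] at this
    exact this
  exact ⟨⟨hA, v, hv.1, mem_closedBall_self le_rfl⟩, ⟨hB, v, hv.2, mem_closedBall_self le_rfl⟩⟩

end J26108

alias ring_fin := J26108.ring_fin

namespace J26109

/-! ### TARGET of this job: ring_bal -/

theorem ring_bal {T : Set (Set ℂ)} {u U : ℝ} (h : NC T u U) {v : ℂ} (hv : IsVertex T v)
    (g : Set ℂ → ℝ) : ∑ p ∈ (ring_fin h v).toFinset, (g p.2 - g p.1) = 0 := by
  classical
  have hhead : ∀ A B : Set ℂ, Head A B v → v ∈ A ∧ v ∈ B := by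
    rintro A B ⟨p, -, hseg, -⟩
    have h1 : v ∈ A ∩ B := by
      rw [hseg]
      exact right_mem_segment ℝ p v
    exact h1
  obtain ⟨R, hR⟩ : ∃ R, R = (ring_fin h v).toFinset := ⟨_, rfl⟩
  have hRm : ∀ p, p ∈ R ↔ p ∈ ring T v := by
    intro p
    rw [hR, Set.Finite.mem_toFinset]
  rw [← hR, Finset.sum_sub_distrib, sub_eq_zero]
  have i1 : Set.InjOn Prod.fst (R : Set (Set ℂ × Set ℂ)) := by
    rintro ⟨A, B⟩ hp ⟨A', B'⟩ hq (hAA : A = A')
    subst hAA
    rw [Finset.mem_coe, hRm] at hp hq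
    obtain ⟨p1, p2, p3, p4⟩ := hp
    obtain ⟨q1, q2, q3, q4⟩ := hq
    obtain ⟨C, -, -, -, hC⟩ := g_next h hv p1 (hhead _ _ p4).1
    have e1 : B = C := hC B p2 p3 p4
    have e2 : B' = C := hC B' q2 q3 q4
    rw [e1, e2]
  have i2 : Set.InjOn Prod.snd (R : Set (Set ℂ × Set ℂ)) := by
    rintro ⟨A, B⟩ hp ⟨A', B'⟩ hq (hAA : B = B')
    subst hAA
    rw [Finset.mem_coe, hRm] at hp hq
    obtain ⟨p1, p2, p3, p4⟩ := hp
    obtain ⟨q1, q2, q3, q4⟩ := hq
    obtain ⟨C, -, -, -, hC⟩ := g_prev h hv p2 (hhead _ _ p4).2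
    have e1 : A = C := hC A p1 p3 p4
    have e2 : A' = C := hC A' q1 q3 q4
    rw [e1, e2]
  have himg : R.image Prod.snd = R.image Prod.fst := by
    ext A
    rw [Finset.mem_image, Finset.mem_image]
    constructor
    · rintro ⟨p, hp, rfl⟩
      rw [hRm] at hp
      obtain ⟨p1, p2, p3, p4⟩ := hp
      obtain ⟨B, b1, b2, b3, -⟩ := g_next h hv p2 (hhead _ _ p4).2
      exact ⟨(p.2, B), (hRm _).2 ⟨p2, b1, b2, b3⟩, rfl⟩
    · rintro ⟨p, hp, rfl⟩
      rw [hRm] at hp
      obtain ⟨p1, p2, p3, p4⟩ := hp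
      obtain ⟨B, b1, b2, b3, -⟩ := g_prev h hv p1 (hhead _ _ p4).1
      exact ⟨(B, p.1), (hRm _).2 ⟨b1, p1, b2, b3⟩, rfl⟩
  calc ∑ p ∈ R, g p.2 = ∑ A ∈ R.image Prod.snd, g A := by rw [Finset.sum_image i2]
    _ = ∑ A ∈ R.image Prod.fst, g A := by rw [himg]
    _ = ∑ p ∈ R, g p.1 := by rw [Finset.sum_image i1]

end J26109

alias ring_bal := J26109.ring_bal

namespace J26110

/-! ### TARGET of this job: k33_joined -/

namespace H400VK

open Complex Set

/-- Continuous logarithms on the plane. -/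
lemma exists_log2 (F : ℝ × ℝ → ℂ) (hF : Continuous F) (h0 : ∀ x, F x ≠ 0) :
    ∃ L : ℝ × ℝ → ℂ, Continuous L ∧ ∀ x, exp (L x) = F x := by
  have hs : IsSimplyConnected (Set.univ : Set (ℝ × ℝ)) := by
    have : ContractibleSpace (Set.univ : Set (ℝ × ℝ)) :=
      (convex_univ (𝕜 := ℝ) (E := ℝ × ℝ)).contractibleSpace ⟨(0, 0), mem_univ _⟩
    exact SimplyConnectedSpace.ofContractible _
  obtain ⟨f, hf, he⟩ := exists_continuousOn_eqOn_exp_comp hs isOpen_univ hF.continuousOn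
    (by rintro ⟨x, -, hx⟩; exact h0 x hx)
  exact ⟨f, continuousOn_univ.mp hf, fun x => he (mem_univ x)⟩

lemma exists_log1 (F : ℝ → ℂ) (hF : Continuous F) (h0 : ∀ x, F x ≠ 0) :
    ∃ L : ℝ → ℂ, Continuous L ∧ ∀ x, exp (L x) = F x := by
  obtain ⟨L, hL, he⟩ := exists_log2 (fun x => F x.1) (hF.comp continuous_fst) (fun x => h0 _)
  exact ⟨fun t => L (t, 0), hL.comp (by fun_prop), fun x => he _⟩

/-- Two continuous logarithms of the same function have the same increments. -/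
lemma inc_unique (f g : ℝ → ℂ) (hf : Continuous f) (hg : Continuous g)
    (h : ∀ x, exp (f x) = exp (g x)) : f 1 - f 0 = g 1 - g 0 := by
  have key : ∀ x, ∃ n : ℤ, f x = g x + n * (2 * Real.pi * I) :=
    fun x => exp_eq_exp_iff_exists_int.mp (h x)
  choose n hn using key
  have hc : Continuous fun x => (n x : ℝ) := by
    have : (fun x => ((n x : ℝ))) = fun x => ((f x - g x) / (2 * Real.pi * I)).re := by
      funext x
      have : (f x - g x) / (2 * Real.pi * I) = ((n x : ℝ) : ℂ) := by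
        rw [hn x]
        field_simp [Real.pi_ne_zero, I_ne_zero]
        push_cast
        ring
      rw [this]; simp
    rw [this]
    exact continuous_re.comp ((hf.sub hg).div_const _)
  have hcn : Continuous n := Int.isClosedEmbedding_coe_real.isEmbedding.continuous_iff.mpr hc
  have : n 1 = n 0 := PreconnectedSpace.constant inferInstance hcn
  rw [hn 1, hn 0, this]; ring

/-- Increment of a continuous logarithm of `h` over `[0,1]`. -/
noncomputable def inc (h : ℝ → ℂ) : ℂ := by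
  classical
  exact if H : ∃ f : ℝ → ℂ, Continuous f ∧ ∀ x, exp (f x) = h x then
    H.choose 1 - H.choose 0 else 0

lemma inc_eq (h f : ℝ → ℂ) (hf : Continuous f) (he : ∀ x, exp (f x) = h x) :
    inc h = f 1 - f 0 := by
  have H : ∃ f : ℝ → ℂ, Continuous f ∧ ∀ x, exp (f x) = h x := ⟨f, hf, he⟩
  unfold inc
  rw [dif_pos H]
  exact inc_unique _ _ H.choose_spec.1 hf (fun x => by rw [H.choose_spec.2 x, he x])

lemma inc_square (u v : ℝ → ℂ) (hu : Continuous u) (hv : Continuous v)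
    (hne : ∀ s t, u s ≠ v t) :
    inc (fun s => u s - v 0) - inc (fun s => u s - v 1) + inc (fun t => v t - u 1)
      - inc (fun t => v t - u 0) = 0 := by
  obtain ⟨L, hL, he⟩ := exists_log2 (fun x => u x.1 - v x.2)
    ((hu.comp continuous_fst).sub (hv.comp continuous_snd)) (fun x => sub_ne_zero.mpr (hne _ _))
  have hpi : ∀ z : ℂ, exp (z + Real.pi * I) = - exp z := by
    intro z; rw [exp_add, exp_pi_mul_I]; ring
  rw [inc_eq (fun s => u s - v 0) (fun s => L (s, 0)) (hL.comp (by fun_prop)) (fun x => he _),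
    inc_eq (fun s => u s - v 1) (fun s => L (s, 1)) (hL.comp (by fun_prop)) (fun x => he _),
    inc_eq (fun t => v t - u 1) (fun t => L (1, t) + Real.pi * I)
      ((hL.comp (by fun_prop)).add continuous_const) (fun x => by rw [hpi, he]; ring),
    inc_eq (fun t => v t - u 0) (fun t => L (0, t) + Real.pi * I)
      ((hL.comp (by fun_prop)).add continuous_const) (fun x => by rw [hpi, he]; ring)]
  ring

lemma inc_mod (h : ℝ → ℂ) (hc : Continuous h) (h0 : ∀ x, h x ≠ 0) :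
    ∃ n : ℤ, inc h = log (h 1) - log (h 0) + n * (2 * Real.pi * I) := by
  obtain ⟨f, hf, he⟩ := exists_log1 h hc h0
  obtain ⟨n1, hn1⟩ := exp_eq_exp_iff_exists_int.mp ((he 1).trans (exp_log (h0 1)).symm)
  obtain ⟨n0, hn0⟩ := exp_eq_exp_iff_exists_int.mp ((he 0).trans (exp_log (h0 0)).symm)
  refine ⟨n1 - n0, ?_⟩
  rw [inc_eq h f hf he, hn1, hn0]; push_cast; ring

lemma log_sub_log_neg (z : ℂ) (hz : z ≠ 0) :
    ∃ n : ℤ, log z - log (-z) = (2 * n + 1) * (Real.pi * I) := by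
  have h : exp (log z - log (-z)) = exp (Real.pi * I) := by
    rw [exp_sub, exp_log hz, exp_log (neg_ne_zero.mpr hz), exp_pi_mul_I, div_neg, div_self hz]
  obtain ⟨n, hn⟩ := exp_eq_exp_iff_exists_int.mp h
  exact ⟨n, by rw [hn]; ring⟩

/-- Interleaving indicator (for `a < b`, `c < d`, all distinct). -/
def beta {V : Type*} [LinearOrder V] (a b c d : V) : ZMod 2 :=
  (if a < c ∧ c < b then 1 else 0) + (if a < d ∧ d < b then 1 else 0)

/-- The van Kampen relations mod 2: a drawing in the plane gives labels `m a b c` for an edge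
`ab` and a vertex `c` such that for any two vertex-disjoint edges with disjoint images, the
interleaving indicator is a sum of labels. -/
theorem exists_labels {V : Type*} [LinearOrder V] (p : V → ℂ) (hp : Function.Injective p)
    (E : V → V → Prop) (γ : V → V → ℝ → ℂ)
    (hc : ∀ a b, a < b → E a b → Continuous (γ a b))
    (h0 : ∀ a b, a < b → E a b → γ a b 0 = p a)
    (h1 : ∀ a b, a < b → E a b → γ a b 1 = p b)
    (hv : ∀ a b c, a < b → E a b → c ≠ a → c ≠ b → ∀ t, γ a b t ≠ p c) :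
    ∃ m : V → V → V → ZMod 2, ∀ a b c d, a < b → c < d → E a b → E c d →
      a ≠ c → a ≠ d → b ≠ c → b ≠ d → (∀ s t, γ a b s ≠ γ c d t) →
      beta a b c d = m a b c + m a b d + m c d a + m c d b := by
  classical
  -- integers attached to edge/vertex pairs
  have hn : ∀ a b c, ∃ n : ℤ, a < b → E a b → c ≠ a → c ≠ b →
      inc (fun t => γ a b t - p c) = log (p b - p c) - log (p a - p c) + n * (2 * Real.pi * I) := by
    intro a b c
    by_cases h : a < b ∧ E a b ∧ c ≠ a ∧ c ≠ b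
    · obtain ⟨hab, hE, hca, hcb⟩ := h
      obtain ⟨n, hn⟩ := inc_mod (fun t => γ a b t - p c) ((hc a b hab hE).sub continuous_const)
        (fun t => sub_ne_zero.mpr (hv a b c hab hE hca hcb t))
      refine ⟨n, fun _ _ _ _ => ?_⟩
      rw [hn]; simp only [h0 a b hab hE, h1 a b hab hE]
    · exact ⟨0, fun h1 h2 h3 h4 => absurd ⟨h1, h2, h3, h4⟩ h⟩
  choose n hn using hn
  have hB : ∀ x y, ∃ k : ℤ, x ≠ y →
      log (p x - p y) - log (p y - p x) = (2 * k + 1) * (Real.pi * I) := by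
    intro x y
    by_cases h : x = y
    · exact ⟨0, fun h' => absurd h h'⟩
    · obtain ⟨k, hk⟩ := log_sub_log_neg (p x - p y) (sub_ne_zero.mpr (fun h' => h (hp h')))
      refine ⟨k, fun _ => ?_⟩
      rw [← hk]; congr 2; ring
  choose B hB using hB
  -- `D x y` integer with  `2 B + 1 = σ + 2 D`, `σ = 1` if `y < x` and `-1` otherwise
  let D : V → V → ℤ := fun x y => if y < x then B x y else B x y + 1
  have hpiI : (Real.pi * I : ℂ) ≠ 0 := by simp [Real.pi_ne_zero]
  have hDsymm : ∀ x y, x ≠ y → D y x = - D x y := by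
    intro x y hxy
    have e1 := hB x y hxy
    have e2 := hB y x hxy.symm
    have e3 : ((2 * (B x y : ℂ) + 1) + (2 * (B y x : ℂ) + 1)) * (Real.pi * I) = 0 := by
      rw [add_mul, ← e1, ← e2]; ring
    have e4 : (2 * (B x y : ℂ) + 1) + (2 * (B y x : ℂ) + 1) = 0 := by
      rcases mul_eq_zero.mp e3 with h | h
      · exact h
      · exact absurd h hpiI
    have e5 : (2 * (B x y) + 1) + (2 * (B y x) + 1) = 0 := by exact_mod_cast e4
    simp only [D]
    rcases lt_trichotomy x y with h | h | h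
    · rw [if_pos h, if_neg (not_lt.mpr h.le)]; omega
    · exact absurd h hxy
    · rw [if_neg (not_lt.mpr h.le), if_pos h]; omega
  let m : V → V → V → ZMod 2 := fun a b c =>
    ((n a b c + (if a < c then D a c else 0) + (if b < c then D b c else 0) : ℤ) : ZMod 2)
  refine ⟨m, ?_⟩
  intro a b c d hab hcd hEab hEcd hac had hbc hbd hdis
  have sq := inc_square (γ a b) (γ c d) (hc a b hab hEab) (hc c d hcd hEcd) hdis
  rw [h0 a b hab hEab, h1 a b hab hEab, h0 c d hcd hEcd, h1 c d hcd hEcd,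
    hn a b c hab hEab hac.symm hbc.symm, hn a b d hab hEab had.symm hbd.symm,
    hn c d b hcd hEcd hbc hbd, hn c d a hcd hEcd hac had] at sq
  have b1 := hB b c hbc
  have b2 := hB a c hac
  have b3 := hB b d hbd
  have b4 := hB a d had
  have e1 : ((B b c : ℂ) - B a c - B b d + B a d + n a b c - n a b d + n c d b - n c d a) *
      (Real.pi * I) = 0 := by
    linear_combination (1/2) * sq - (1/2) * b1 + (1/2) * b2 + (1/2) * b3 - (1/2) * b4
  have e2 : (B b c : ℂ) - B a c - B b d + B a d + n a b c - n a b d + n c d b - n c d a = 0 := by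
    rcases mul_eq_zero.mp e1 with h | h
    · exact h
    · exact absurd h hpiI
  have e3 : B b c - B a c - B b d + B a d + n a b c - n a b d + n c d b - n c d a = 0 := by
    exact_mod_cast e2
  -- reduce mod 2
  have d1 := hDsymm a c hac
  have d2 := hDsymm a d had
  have d3 := hDsymm b c hbc
  have d4 := hDsymm b d hbd
  have goalZ : ∃ k : ℤ, ((if a < c ∧ c < b then 1 else 0) + (if a < d ∧ d < b then 1 else 0) : ℤ) -
      ((n a b c + (if a < c then D a c else 0) + (if b < c then D b c else 0)) +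
      (n a b d + (if a < d then D a d else 0) + (if b < d then D b d else 0)) +
      (n c d a + (if c < a then D c a else 0) + (if d < a then D d a else 0)) +
      (n c d b + (if c < b then D c b else 0) + (if d < b then D d b else 0))) = 2 * k := by
    have key : ∀ x y : V, x ≠ y → (if x < y then D x y else 0) + (if y < x then D y x else 0)
        = D x y - 2 * (if y < x then D x y else 0) := by
      intro x y hxy
      rcases lt_trichotomy x y with h | h | h
      · rw [if_pos h, if_neg (not_lt.mpr h.le), if_neg (not_lt.mpr h.le)]; ring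
      · exact absurd h hxy
      · rw [if_neg (not_lt.mpr h.le), if_pos h, if_pos h, hDsymm x y hxy]; ring
    have k1 := key a c hac
    have k2 := key a d had
    have k3 := key b c hbc
    have k4 := key b d hbd
    have Dv : ∀ x y : V, D x y = B x y + (if y < x then 0 else 1) := by
      intro x y; simp only [D]; split_ifs <;> ring
    have s1 : ((if c < b then 0 else 1) - (if c < a then 0 else 1) : ℤ) =
        - (if a < c ∧ c < b then 1 else 0) := by
      rcases lt_trichotomy a c with h | h | h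
      · rcases lt_trichotomy c b with h' | h' | h'
        · simp [h, h', not_lt.mpr h.le]
        · exact absurd h'.symm hbc
        · simp [h, not_lt.mpr h'.le, not_lt.mpr h.le]
      · exact absurd h hac
      · simp [h, not_lt.mpr h.le, h.trans hab]
    have s2 : ((if d < b then 0 else 1) - (if d < a then 0 else 1) : ℤ) =
        - (if a < d ∧ d < b then 1 else 0) := by
      rcases lt_trichotomy a d with h | h | h
      · rcases lt_trichotomy d b with h' | h' | h'
        · simp [h, h', not_lt.mpr h.le]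
        · exact absurd h'.symm hbd
        · simp [h, not_lt.mpr h'.le, not_lt.mpr h.le]
      · exact absurd h had
      · simp [h, not_lt.mpr h.le, h.trans hab]
    have v1 := Dv a c
    have v2 := Dv a d
    have v3 := Dv b c
    have v4 := Dv b d
    generalize (if a < c ∧ c < b then (1:ℤ) else 0) = x1 at *
    generalize (if a < d ∧ d < b then (1:ℤ) else 0) = x2 at *
    generalize (if c < b then (0:ℤ) else 1) = y1 at *
    generalize (if c < a then (0:ℤ) else 1) = y2 at *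
    generalize (if d < b then (0:ℤ) else 1) = y3 at *
    generalize (if d < a then (0:ℤ) else 1) = y4 at *
    generalize (if c < a then D a c else 0) = w1 at *
    generalize (if d < a then D a d else 0) = w2 at *
    generalize (if c < b then D b c else 0) = w3 at *
    generalize (if d < b then D b d else 0) = w4 at *
    generalize (if a < c then D a c else 0) = u1 at *
    generalize (if a < d then D a d else 0) = u2 at *
    generalize (if b < c then D b c else 0) = u3 at *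
    generalize (if b < d then D b d else 0) = u4 at *
    generalize (if c < a then D c a else 0) = t1 at *
    generalize (if d < a then D d a else 0) = t2 at *
    generalize (if c < b then D c b else 0) = t3 at *
    generalize (if d < b then D d b else 0) = t4 at *
    generalize D a c = g1 at *
    generalize D a d = g2 at *
    generalize D b c = g3 at *
    generalize D b d = g4 at *
    generalize D c a = g5 at *
    generalize D d a = g6 at *
    generalize D c b = g7 at *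
    generalize D d b = g8 at *
    generalize B a c = f1 at *
    generalize B a d = f2 at *
    generalize B b c = f3 at *
    generalize B b d = f4 at *
    generalize n a b c = n1 at *
    generalize n a b d = n2 at *
    generalize n c d a = n3 at *
    generalize n c d b = n4 at *
    clear b1 b2 b3 b4 e1 e2 sq
    exact ⟨x1 + x2 - f1 - f4 - n2 - n3 - y2 - y4 + w1 + w2 + w3 + w4, by omega⟩
  obtain ⟨k, hk⟩ := goalZ
  have hz := congrArg (Int.cast : ℤ → ZMod 2) hk
  have h2 : ((2 * k : ℤ) : ZMod 2) = 0 := by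
    push_cast
    have : (2 : ZMod 2) = 0 := rfl
    rw [this, zero_mul]
  rw [h2, Int.cast_sub, sub_eq_zero] at hz
  simp only [m, beta]
  have hl : (((if a < c ∧ c < b then 1 else 0) + (if a < d ∧ d < b then 1 else 0) : ℤ) : ZMod 2)
      = (if a < c ∧ c < b then 1 else 0) + (if a < d ∧ d < b then 1 else 0) := by
    push_cast; rfl
  rw [← hl, hz]
  push_cast
  ring


end H400VK

theorem k33_joined (a b : Fin 3 → ℂ) (S : Fin 3 → Fin 3 → Set ℂ)
    (hS : ∀ i j, JoinedIn (S i j) (a i) (b j))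
    (hd : ∀ i j k l, i ≠ k → j ≠ l → Disjoint (S i j) (S k l)) : False := by
  classical
  have ha : ∀ i j, a i ∈ S i j := fun i j => (hS i j).source_mem
  have hb : ∀ i j, b j ∈ S i j := fun i j => (hS i j).target_mem
  obtain ⟨la, hla⟩ : ∃ la : Fin 6 → Fin 3, la = ![0, 1, 2, 0, 1, 2] := ⟨_, rfl⟩
  obtain ⟨p, hp⟩ : ∃ p : Fin 6 → ℂ, p = fun x => if x.val < 3 then a (la x) else b (la x) :=
    ⟨_, rfl⟩
  have hpa : ∀ x : Fin 6, x.val < 3 → p x = a (la x) := by
    intro x hx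
    rw [hp]
    exact if_pos hx
  have hpb : ∀ x : Fin 6, 3 ≤ x.val → p x = b (la x) := by
    intro x hx
    rw [hp]
    exact if_neg (not_lt.mpr hx)
  obtain ⟨γ, hγ⟩ : ∃ γ : Fin 6 → Fin 6 → ℝ → ℂ,
      γ = fun x y t => (hS (la x) (la y)).somePath.extend t := ⟨_, rfl⟩
  have hmem : ∀ x y t, γ x y t ∈ S (la x) (la y) := by
    intro x y t
    rw [hγ]
    have h1 : (hS (la x) (la y)).somePath.extend t ∈
        Set.range (hS (la x) (la y)).somePath.extend := ⟨t, rfl⟩
    rw [Path.extend_range] at h1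
    obtain ⟨s, hs⟩ := h1
    show (hS (la x) (la y)).somePath.extend t ∈ _
    rw [← hs]
    exact (hS (la x) (la y)).somePath_mem s
  have hdis : ∀ x y x' y', la x ≠ la x' → la y ≠ la y' → ∀ s t, γ x y s ≠ γ x' y' t := by
    intro x y x' y' h1 h2 s t he
    exact Set.disjoint_left.mp (hd _ _ _ _ h1 h2) (hmem x y s) (he ▸ hmem x' y' t)
  have hother : ∀ i : Fin 3, ∃ k, i ≠ k := by decide
  have hla1 : ∀ x z : Fin 6, x ≠ z → x.val < 3 → z.val < 3 → la x ≠ la z := by
    rw [hla]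
    decide
  have hla2 : ∀ x z : Fin 6, x ≠ z → 3 ≤ x.val → 3 ≤ z.val → la x ≠ la z := by
    rw [hla]
    decide
  have hv : ∀ x y z : Fin 6, x < y → (x.val < 3 ∧ 3 ≤ y.val) → z ≠ x → z ≠ y →
      ∀ t, γ x y t ≠ p z := by
    intro x y z _ hE hzx hzy t he
    have h1 := hmem x y t
    rw [he] at h1
    by_cases hz : z.val < 3
    · obtain ⟨j, hj⟩ := hother (la y)
      rw [hpa z hz] at h1
      exact Set.disjoint_left.mp (hd _ _ _ _ (hla1 x z hzx.symm hE.1 hz) hj) h1 (ha (la z) j)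
    · obtain ⟨i, hi⟩ := hother (la x)
      have hz' : 3 ≤ z.val := not_lt.mp hz
      rw [hpb z hz'] at h1
      exact Set.disjoint_left.mp (hd _ _ _ _ hi (hla2 y z hzy.symm hE.2 hz')) h1 (hb i (la z))
  have haa : ∀ i k, i ≠ k → a i ≠ a k := by
    intro i k hik he
    have h1 := ha i 0
    rw [he] at h1
    exact Set.disjoint_left.mp (hd i 0 k 1 hik (by decide)) h1 (ha k 1)
  have hbb : ∀ i k, i ≠ k → b i ≠ b k := by
    intro i k hik he
    have h1 := hb 0 i
    rw [he] at h1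
    exact Set.disjoint_left.mp (hd 0 i 1 k (by decide) hik) h1 (hb 1 k)
  have hab : ∀ i j, a i ≠ b j := by
    intro i j he
    obtain ⟨j', hj'⟩ := hother j
    obtain ⟨i', hi'⟩ := hother i
    have h1 := ha i j'
    rw [he] at h1
    exact Set.disjoint_left.mp (hd i j' i' j hi' hj'.symm) h1 (hb i' j)
  have hpinj : Function.Injective p := by
    intro x z hxz
    by_contra hne
    by_cases hx : x.val < 3
    · by_cases hz : z.val < 3
      · rw [hpa x hx, hpa z hz] at hxz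
        exact haa _ _ (hla1 x z hne hx hz) hxz
      · rw [hpa x hx, hpb z (not_lt.mp hz)] at hxz
        exact hab _ _ hxz
    · by_cases hz : z.val < 3
      · rw [hpb x (not_lt.mp hx), hpa z hz] at hxz
        exact hab _ _ hxz.symm
      · rw [hpb x (not_lt.mp hx), hpb z (not_lt.mp hz)] at hxz
        exact hbb _ _ (hla2 x z hne (not_lt.mp hx) (not_lt.mp hz)) hxz
  obtain ⟨m, hm⟩ := H400VK.exists_labels p hpinj (fun x y => x.val < 3 ∧ 3 ≤ y.val) γ
    (fun x y _ _ => by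
      rw [hγ]
      exact (hS (la x) (la y)).somePath.continuous_extend)
    (fun x y _ hE => by
      rw [hγ, hpa x hE.1]
      simp)
    (fun x y _ hE => by
      rw [hγ, hpb y hE.2]
      simp) hv
  subst hla
  have r0 := hm 0 3 1 4 (by decide) (by decide) ⟨by decide, by decide⟩ ⟨by decide, by decide⟩
    (by decide) (by decide) (by decide) (by decide) (hdis _ _ _ _ (by decide) (by decide))
  rw [show H400VK.beta ((0 : Fin 6)) 3 1 4 = 1 from by decide] at r0
  have r1 := hm 0 3 1 5 (by decide) (by decide) ⟨by decide, by decide⟩ ⟨by decide, by decide⟩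
    (by decide) (by decide) (by decide) (by decide) (hdis _ _ _ _ (by decide) (by decide))
  rw [show H400VK.beta ((0 : Fin 6)) 3 1 5 = 1 from by decide] at r1
  have r2 := hm 0 4 1 3 (by decide) (by decide) ⟨by decide, by decide⟩ ⟨by decide, by decide⟩
    (by decide) (by decide) (by decide) (by decide) (hdis _ _ _ _ (by decide) (by decide))
  rw [show H400VK.beta ((0 : Fin 6)) 4 1 3 = 0 from by decide] at r2
  have r3 := hm 0 4 1 5 (by decide) (by decide) ⟨by decide, by decide⟩ ⟨by decide, by decide⟩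
    (by decide) (by decide) (by decide) (by decide) (hdis _ _ _ _ (by decide) (by decide))
  rw [show H400VK.beta ((0 : Fin 6)) 4 1 5 = 1 from by decide] at r3
  have r4 := hm 0 5 1 3 (by decide) (by decide) ⟨by decide, by decide⟩ ⟨by decide, by decide⟩
    (by decide) (by decide) (by decide) (by decide) (hdis _ _ _ _ (by decide) (by decide))
  rw [show H400VK.beta ((0 : Fin 6)) 5 1 3 = 0 from by decide] at r4
  have r5 := hm 0 5 1 4 (by decide) (by decide) ⟨by decide, by decide⟩ ⟨by decide, by decide⟩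
    (by decide) (by decide) (by decide) (by decide) (hdis _ _ _ _ (by decide) (by decide))
  rw [show H400VK.beta ((0 : Fin 6)) 5 1 4 = 0 from by decide] at r5
  have r6 := hm 0 3 2 4 (by decide) (by decide) ⟨by decide, by decide⟩ ⟨by decide, by decide⟩
    (by decide) (by decide) (by decide) (by decide) (hdis _ _ _ _ (by decide) (by decide))
  rw [show H400VK.beta ((0 : Fin 6)) 3 2 4 = 1 from by decide] at r6
  have r7 := hm 0 3 2 5 (by decide) (by decide) ⟨by decide, by decide⟩ ⟨by decide, by decide⟩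
    (by decide) (by decide) (by decide) (by decide) (hdis _ _ _ _ (by decide) (by decide))
  rw [show H400VK.beta ((0 : Fin 6)) 3 2 5 = 1 from by decide] at r7
  have r8 := hm 0 4 2 3 (by decide) (by decide) ⟨by decide, by decide⟩ ⟨by decide, by decide⟩
    (by decide) (by decide) (by decide) (by decide) (hdis _ _ _ _ (by decide) (by decide))
  rw [show H400VK.beta ((0 : Fin 6)) 4 2 3 = 0 from by decide] at r8
  have r9 := hm 0 4 2 5 (by decide) (by decide) ⟨by decide, by decide⟩ ⟨by decide, by decide⟩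
    (by decide) (by decide) (by decide) (by decide) (hdis _ _ _ _ (by decide) (by decide))
  rw [show H400VK.beta ((0 : Fin 6)) 4 2 5 = 1 from by decide] at r9
  have r10 := hm 0 5 2 3 (by decide) (by decide) ⟨by decide, by decide⟩ ⟨by decide, by decide⟩
    (by decide) (by decide) (by decide) (by decide) (hdis _ _ _ _ (by decide) (by decide))
  rw [show H400VK.beta ((0 : Fin 6)) 5 2 3 = 0 from by decide] at r10
  have r11 := hm 0 5 2 4 (by decide) (by decide) ⟨by decide, by decide⟩ ⟨by decide, by decide⟩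
    (by decide) (by decide) (by decide) (by decide) (hdis _ _ _ _ (by decide) (by decide))
  rw [show H400VK.beta ((0 : Fin 6)) 5 2 4 = 0 from by decide] at r11
  have r12 := hm 1 3 2 4 (by decide) (by decide) ⟨by decide, by decide⟩ ⟨by decide, by decide⟩
    (by decide) (by decide) (by decide) (by decide) (hdis _ _ _ _ (by decide) (by decide))
  rw [show H400VK.beta ((1 : Fin 6)) 3 2 4 = 1 from by decide] at r12
  have r13 := hm 1 3 2 5 (by decide) (by decide) ⟨by decide, by decide⟩ ⟨by decide, by decide⟩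
    (by decide) (by decide) (by decide) (by decide) (hdis _ _ _ _ (by decide) (by decide))
  rw [show H400VK.beta ((1 : Fin 6)) 3 2 5 = 1 from by decide] at r13
  have r14 := hm 1 4 2 3 (by decide) (by decide) ⟨by decide, by decide⟩ ⟨by decide, by decide⟩
    (by decide) (by decide) (by decide) (by decide) (hdis _ _ _ _ (by decide) (by decide))
  rw [show H400VK.beta ((1 : Fin 6)) 4 2 3 = 0 from by decide] at r14
  have r15 := hm 1 4 2 5 (by decide) (by decide) ⟨by decide, by decide⟩ ⟨by decide, by decide⟩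
    (by decide) (by decide) (by decide) (by decide) (hdis _ _ _ _ (by decide) (by decide))
  rw [show H400VK.beta ((1 : Fin 6)) 4 2 5 = 1 from by decide] at r15
  have r16 := hm 1 5 2 3 (by decide) (by decide) ⟨by decide, by decide⟩ ⟨by decide, by decide⟩
    (by decide) (by decide) (by decide) (by decide) (hdis _ _ _ _ (by decide) (by decide))
  rw [show H400VK.beta ((1 : Fin 6)) 5 2 3 = 0 from by decide] at r16
  have r17 := hm 1 5 2 4 (by decide) (by decide) ⟨by decide, by decide⟩ ⟨by decide, by decide⟩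
    (by decide) (by decide) (by decide) (by decide) (hdis _ _ _ _ (by decide) (by decide))
  rw [show H400VK.beta ((1 : Fin 6)) 5 2 4 = 0 from by decide] at r17
  have two : (2 : ZMod 2) = 0 := rfl
  have one : (1 : ZMod 2) = 0 := by
    linear_combination r0 + r1 + r2 + r3 + r4 + r5 + r6 + r7 + r8 + r9 + r10 + r11 + r12 + r13 + r14 + r15 + r16 + r17 + ((m 0 3 1 + m 0 3 2 + m 0 3 4 + m 0 3 5 + m 0 4 1 + m 0 4 2 + m 0 4 3 + m 0 4 5 + m 0 5 1 + m 0 5 2 + m 0 5 3 + m 0 5 4 + m 1 3 0 + m 1 3 2 + m 1 3 4 + m 1 3 5 + m 1 4 0 + m 1 4 2 + m 1 4 3 + m 1 4 5 + m 1 5 0 + m 1 5 2 + m 1 5 3 + m 1 5 4 + m 2 3 0 + m 2 3 1 + m 2 3 4 + m 2 3 5 + m 2 4 0 + m 2 4 1 + m 2 4 3 + m 2 4 5 + m 2 5 0 + m 2 5 1 + m 2 5 3 + m 2 5 4) - 4) * two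
  exact one_ne_zero one

end J26110

alias k33_joined := J26110.k33_joined

namespace J26111

/-! ### TARGET of this job: g_path -/

open Topology in
theorem g_path_half {A : Set ℂ} (hA : Convex ℝ A) {d m a : ℂ} (hd : d ≠ 0) (ha : a ∈ A)
    (hc : cross d (a - m) ≠ 0) (hseg : ∀ s : ℝ, |s| ≤ 1 / 2 → m + s • d ∈ A) :
    ∀ᶠ z in 𝓝 m, 0 ≤ cross d (z - m) / cross d (a - m) → z ∈ A := by
  have hdd : dot d d ≠ 0 := by
    intro h0
    apply hd
    unfold dot at h0
    have h1 : d.re = 0 := by nlinarith [mul_self_nonneg d.re, mul_self_nonneg d.im]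
    have h2 : d.im = 0 := by nlinarith [mul_self_nonneg d.re, mul_self_nonneg d.im]
    exact Complex.ext h1 h2
  set α : ℂ → ℝ := fun z => cross d (z - m) / cross d (a - m) with hα
  set τ : ℂ → ℝ := fun z => dot d (z - m - α z • (a - m)) / dot d d with hτ
  have hαc : Continuous α := by
    rw [hα]
    unfold cross
    fun_prop
  have hτc : Continuous τ := by
    rw [hτ]
    unfold dot
    simp only [Complex.sub_re, Complex.sub_im, Complex.real_smul, Complex.mul_re, Complex.mul_im,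
      Complex.ofReal_re, Complex.ofReal_im]
    fun_prop
  have hα0 : α m = 0 := by simp [hα, cross]
  have hτ0 : τ m = 0 := by
    simp only [hτ]
    rw [hα0]
    simp [dot]
  have e1 : ∀ᶠ z in 𝓝 m, α z < 1 / 2 := by
    have := hαc.tendsto m
    rw [hα0] at this
    exact this.eventually (gt_mem_nhds (by norm_num))
  have e2 : ∀ᶠ z in 𝓝 m, |τ z| < 1 / 4 := by
    have := (hτc.abs).tendsto m
    rw [hτ0, abs_zero] at this
    exact this.eventually (gt_mem_nhds (by norm_num))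
  filter_upwards [e1, e2] with z h1 h2 h3
  have h3' : 0 ≤ α z := h3
  -- z - m - α (a - m) = τ d
  have hcr : cross d (z - m - α z • (a - m)) = 0 := by
    have h4 : α z * cross d (a - m) = cross d (z - m) := by
      simp only [hα]
      field_simp
    have h5 : cross d (z - m - α z • (a - m)) = cross d (z - m) - α z * cross d (a - m) := by
      unfold cross
      simp only [Complex.sub_re, Complex.sub_im, Complex.real_smul, Complex.mul_re, Complex.mul_im,
        Complex.ofReal_re, Complex.ofReal_im]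
      ring
    rw [h5, h4, sub_self]
  have hpar : z - m - α z • (a - m) = τ z • d := by
    have h6 : τ z * dot d d = dot d (z - m - α z • (a - m)) := by
      simp only [hτ]
      field_simp
    generalize z - m - α z • (a - m) = v at hcr h6 ⊢
    generalize τ z = t at h6 ⊢
    unfold cross at hcr
    unfold dot at h6 hdd
    apply Complex.ext
    · simp only [Complex.real_smul, Complex.mul_re, Complex.ofReal_re, Complex.ofReal_im]
      apply mul_left_cancel₀ hdd
      linear_combination (-d.re) * h6 - d.im * hcr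
    · simp only [Complex.real_smul, Complex.mul_im, Complex.ofReal_re, Complex.ofReal_im]
      apply mul_left_cancel₀ hdd
      linear_combination (-d.im) * h6 + d.re * hcr
  have h7 : 0 < 1 - α z := by linarith
  have h8 : m + (τ z / (1 - α z)) • d ∈ A := by
    apply hseg
    rw [abs_div, abs_of_pos h7, div_le_iff₀ h7]
    linarith
  have h9 := hA ha h8 h3' h7.le (by ring)
  have h10 : z = α z • a + (1 - α z) • (m + (τ z / (1 - α z)) • d) := by
    have h11 : (1 - α z) • ((τ z / (1 - α z)) • d) = τ z • d := by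
      rw [smul_smul]
      congr 1
      field_simp
    rw [smul_add, h11, ← hpar, smul_sub, sub_smul, one_smul]
    abel
  rw [h10]
  exact h9

theorem g_path_mid {T : Set (Set ℂ)} {u U : ℝ} (h : NC T u U) {A B : Set ℂ} (hA : A ∈ T)
    (hB : B ∈ T) (had : Adj A B) : ∃ m, m ∈ A ∧ m ∈ B ∧ m ∈ interior (A ∪ B) := by
  obtain ⟨p, q, hpq, hseg, hAB, hBA, _, _⟩ := g_head h hA hB had
  obtain ⟨a, ha⟩ := (g_cl h hA).2
  obtain ⟨b, hb⟩ := (g_cl h hB).2
  obtain ⟨p', hp', hs', hl⟩ := hAB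
  obtain ⟨q', hq', hs'', hr⟩ := hBA
  have hpp' : p' = p := by
    have h1 : segment ℝ p q = segment ℝ p' q := by rw [← hseg, hs']
    have h2 : p ∈ segment ℝ p' q := by rw [← h1]; exact left_mem_segment ℝ p q
    have h3 : p' ∈ segment ℝ p q := by rw [h1]; exact left_mem_segment ℝ p' q
    have d1 := dist_add_dist_of_mem_segment h2
    have d2 := dist_add_dist_of_mem_segment h3
    have : dist p' p = 0 := by
      have := dist_nonneg (x := p') (y := p)
      rw [dist_comm p p'] at d2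
      linarith
    exact dist_eq_zero.1 this
  have hqq' : q' = q := by
    have h1 : segment ℝ p q = segment ℝ q' p := by rw [← hseg, Set.inter_comm, hs'']
    have h2 : q ∈ segment ℝ q' p := by rw [← h1]; exact right_mem_segment ℝ p q
    have h3 : q' ∈ segment ℝ p q := by rw [h1]; exact left_mem_segment ℝ q' p
    have d1 := dist_add_dist_of_mem_segment h2
    have d2 := dist_add_dist_of_mem_segment h3
    have : dist q' q = 0 := by
      have := dist_nonneg (x := q') (y := q)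
      rw [dist_comm p q', dist_comm p q] at d2
      linarith
    exact dist_eq_zero.1 this
  subst hpp' hqq'
  have hla := hl a ha
  have hrb := hr b hb
  set m : ℂ := p' + (1 / 2 : ℝ) • (q' - p') with hm
  have hd : q' - p' ≠ 0 := sub_ne_zero.2 hq'
  have hmem : ∀ s : ℝ, |s| ≤ 1 / 2 → m + s • (q' - p') ∈ segment ℝ p' q' := by
    intro s hs
    rw [abs_le] at hs
    refine ⟨1 / 2 - s, 1 / 2 + s, by linarith, by linarith, by ring, ?_⟩
    rw [hm]
    apply Complex.ext
    · simp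
      ring
    · simp
      ring
  have hca : cross (q' - p') (a - m) = cross (q' - p') (a - p') := by
    rw [hm]
    unfold cross
    simp
    ring
  have hcb : cross (q' - p') (b - m) = - cross (p' - q') (b - q') := by
    rw [hm]
    unfold cross
    simp
    ring
  have hsA : segment ℝ p' q' ⊆ A := by rw [← hseg]; exact Set.inter_subset_left
  have hsB : segment ℝ p' q' ⊆ B := by rw [← hseg]; exact Set.inter_subset_right
  have hm0 : m ∈ segment ℝ p' q' := by
    have := hmem 0 (by norm_num)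
    rwa [zero_smul, add_zero] at this
  refine ⟨m, hsA hm0, hsB hm0, ?_⟩
  rw [mem_interior_iff_mem_nhds]
  have e1 := g_path_half (h.conv A hA) hd (interior_subset ha) (by rw [hca]; exact hla.ne')
    (fun s hs => hsA (hmem s hs))
  have e2 := g_path_half (h.conv B hB) hd (interior_subset hb)
    (by rw [hcb]; exact neg_ne_zero.2 hrb.ne') (fun s hs => hsB (hmem s hs))
  filter_upwards [e1, e2] with z h1 h2
  by_cases hz : 0 ≤ cross (q' - p') (z - m)
  · left
    apply h1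
    rw [hca]
    exact div_nonneg hz hla.le
  · right
    apply h2
    rw [hcb]
    push Not at hz
    exact div_nonneg_of_nonpos hz.le (by linarith)

theorem g_path_seg {T : Set (Set ℂ)} {u U : ℝ} (h : NC T u U) (S : Set (Set ℂ)) {A : Set ℂ}
    (hA : A ∈ T) (hAS : A ∈ S) {a m : ℂ} (ha : a ∈ interior A) (hmA : m ∈ A)
    (hm : m ∈ interior (⋃₀ S)) : JoinedIn (interior (⋃₀ S)) a m := by
  have hsub : interior A ⊆ interior (⋃₀ S) := interior_mono (Set.subset_sUnion_of_mem hAS)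
  apply JoinedIn.of_segment_subset
  intro x hx
  rw [← insert_endpoints_openSegment] at hx
  rcases hx with hx | hx | hx
  · rw [hx]; exact hsub ha
  · rw [Set.mem_singleton_iff.1 hx]; exact hm
  · exact hsub ((h.conv A hA).openSegment_interior_self_subset_interior ha hmA hx)

theorem g_path {T : Set (Set ℂ)} {u U : ℝ} (h : NC T u U) (S : Set (Set ℂ)) (hST : S ⊆ T)
    {A B : Set ℂ} (hj : Jn Adj S A B) {p q : ℂ} (hp : p ∈ interior A) (hq : q ∈ interior B) :
    JoinedIn (interior (⋃₀ S)) p q := by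
  obtain ⟨hAS, hw⟩ := hj
  have key : B ∈ S ∧ ∀ q ∈ interior B, JoinedIn (interior (⋃₀ S)) p q := by
    clear hq
    induction hw with
    | refl =>
      refine ⟨hAS, fun q hq => ?_⟩
      have hsub : interior A ⊆ interior (⋃₀ S) := interior_mono (Set.subset_sUnion_of_mem hAS)
      exact g_path_seg h S (hST hAS) hAS hp (interior_subset hq) (hsub hq)
    | tail hab hbc ih =>
      rename_i B C
      obtain ⟨hBS, ih⟩ := ih
      obtain ⟨hadj, hCS⟩ := hbc
      refine ⟨hCS, fun q hq => ?_⟩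
      obtain ⟨m, hmB, hmC, hmi⟩ := g_path_mid h (hST hBS) (hST hCS) hadj
      have hmS : m ∈ interior (⋃₀ S) := by
        refine interior_mono ?_ hmi
        exact Set.union_subset (Set.subset_sUnion_of_mem hBS) (Set.subset_sUnion_of_mem hCS)
      obtain ⟨b, hb⟩ := (g_cl h (hST hBS)).2
      have j1 := ih b hb
      have j2 := g_path_seg h S (hST hBS) hBS hb hmB hmS
      have j3 := g_path_seg h S (hST hCS) hCS hq hmC hmS
      exact (j1.trans j2).trans j3.symm
  exact key.2 q hq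

end J26111

alias g_path := J26111.g_path

namespace J26113

/-! ### TARGET of this job: g_disj -/

theorem g_disj {T : Set (Set ℂ)} {u U : ℝ} (h : NC T u U) (S S' : Set (Set ℂ)) (hST : S ⊆ T)
    (hST' : S' ⊆ T) (hd : Disjoint S S') : Disjoint (interior (⋃₀ S)) (interior (⋃₀ S')) := by
  rw [Set.disjoint_left]
  intro y hy hy'
  obtain ⟨A, hAS, hyA⟩ := interior_subset hy
  have hcl := (g_cl h (hST hAS)).1
  have hyc : y ∈ closure (interior A) := by rw [hcl]; exact hyA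
  obtain ⟨y2, hy2O, hy2A⟩ := mem_closure_iff.1 hyc (interior (⋃₀ S) ∩ interior (⋃₀ S'))
    (isOpen_interior.inter isOpen_interior) ⟨hy, hy'⟩
  obtain ⟨B, hBS', hyB⟩ := interior_subset hy2O.2
  have hBA := g_int h (hST hAS) (hST' hBS') hy2A hyB
  rw [hBA] at hBS'
  exact Set.disjoint_left.1 hd hAS hBS'

end J26113

alias g_disj := J26113.g_disj

/-- no K33 minor formed by three connected families of tiles and three tiles -/
def K33A {ι : Type} (T : Set ι) (adj : ι → ι → Prop) : Prop :=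
  ∀ (F : Fin 3 → Set ι) (e : Fin 3 → ι), (∀ j, F j ⊆ T) → (∀ j, Cn adj (F j)) →
    (∀ j k, j ≠ k → Disjoint (F j) (F k)) → (∀ i, e i ∈ T) → Function.Injective e →
    (∀ i j, e i ∉ F j) → (∀ i j, ∃ f ∈ F j, adj (e i) f) → False

/-- no K33 formed by a common point of the tiles in `V`, two connected families and three tiles -/
def K33V {ι : Type} (T V : Set ι) (adj : ι → ι → Prop) : Prop :=
  ∀ (F : Fin 2 → Set ι) (e : Fin 3 → ι), (∀ j, F j ⊆ T) → (∀ j, Cn adj (F j)) →
    Disjoint (F 0) (F 1) → (∀ i, e i ∈ V) → Function.Injective e →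
    (∀ i j, e i ∉ F j) → (∀ i j, ∃ f ∈ F j, adj (e i) f) → False

namespace J26112

/-! ### TARGET of this job: k33a -/

theorem k33a {T : Set (Set ℂ)} {u U : ℝ} (h : NC T u U) : K33A T Adj := by
  intro F e hFT hFc hFd heT hinj hnot hadj
  have hint : ∀ i, (interior (e i)).Nonempty := fun i => (g_cl h (heT i)).2
  choose a ha using hint
  choose f hfF hfadj using fun j => hadj 0 j
  have hintb : ∀ j, (interior (f j)).Nonempty := fun j => (g_cl h (hFT j (hfF j))).2
  choose b hb using hintb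
  have hsub : ∀ i j, insert (e i) (F j) ⊆ T := by
    intro i j x hx
    rcases hx with rfl | hx
    · exact heT i
    · exact hFT j hx
  refine k33_joined a b (fun i j => interior (⋃₀ (insert (e i) (F j)))) ?_ ?_
  · intro i j
    refine g_path h (insert (e i) (F j)) (hsub i j) (A := e i) (B := f j) ?_ (ha i) (hb j)
    obtain ⟨f', hf'F, hf'a⟩ := hadj i j
    have h1 : Jn Adj (insert (e i) (F j)) (e i) f' :=
      ⟨Set.mem_insert _ _, Relation.ReflTransGen.single ⟨hf'a, Set.mem_insert_of_mem _ hf'F⟩⟩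
    have h2 : Jn Adj (insert (e i) (F j)) f' (f j) :=
      jn_mono (Set.subset_insert _ _) (hFc j f' hf'F (f j) (hfF j))
    exact jn_trans h1 h2
  · intro i j k l hik hjl
    refine g_disj h _ _ (hsub i j) (hsub k l) ?_
    rw [Set.disjoint_left]
    rintro x (rfl | hx) (hx' | hx')
    · exact hik (hinj hx')
    · exact hnot i l hx'
    · rw [hx'] at hx
      exact hnot k j hx
    · exact Set.disjoint_left.mp (hFd j l hjl) hx hx'

end J26112

alias k33a := J26112.k33a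

namespace J26115

/-! ### TARGET of this job: k33v -/

theorem k33v {T : Set (Set ℂ)} {u U : ℝ} (h : NC T u U) (v : ℂ) :
    K33V T {A | A ∈ T ∧ v ∈ A} Adj := by
  intro F e hFT hFc hFd heV hinj heF hadj
  have heT : ∀ i, e i ∈ T := fun i => (heV i).1
  have hve : ∀ i, v ∈ e i := fun i => (heV i).2
  -- interior points
  have hai : ∀ i, ∃ a, a ∈ interior (e i) := fun i => (g_cl h (heT i)).2
  choose a ha using hai
  have hBj : ∀ j : Fin 2, ∃ B, B ∈ F j ∧ ∃ b, b ∈ interior B := by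
    intro j
    obtain ⟨f, hf, -⟩ := hadj 0 j
    exact ⟨f, hf, (g_cl h (hFT j hf)).2⟩
  choose B hB b hb using hBj
  have hinsT : ∀ i j, insert (e i) (F j) ⊆ T := by
    intro i j x hx
    rcases hx with rfl | hx
    · exact heT i
    · exact hFT j hx
  have hjoin : ∀ (i : Fin 3) (j : Fin 2),
      JoinedIn (interior (⋃₀ (insert (e i) (F j)))) (a i) (b j) := by
    intro i j
    refine g_path h (insert (e i) (F j)) (hinsT i j) ?_ (ha i) (hb j)
    obtain ⟨f, hf, haf⟩ := hadj i j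
    have h1 : Jn Adj (insert (e i) (F j)) (e i) f :=
      ⟨Or.inl rfl, Relation.ReflTransGen.single ⟨haf, Or.inr hf⟩⟩
    have h2 : Jn Adj (insert (e i) (F j)) f (B j) :=
      jn_mono (Set.subset_insert _ _) (hFc j f hf (B j) (hB j))
    exact jn_trans h1 h2
  have hnot : ∀ (i k : Fin 3) (j : Fin 2), i ≠ k → ∀ p ∈ interior (e k),
      p ∈ ⋃₀ (insert (e i) (F j)) → False := by
    intro i k j hik p hp hpu
    obtain ⟨C, hC, hpC⟩ := hpu
    have hCk : C = e k := g_int h (heT k) (hinsT i j hC) hp hpC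
    rcases hC with hC | hC
    · exact hik (hinj (hC.symm.trans hCk))
    · exact heF k j (hCk ▸ hC)
  have hd2 : ∀ (i k : Fin 3) (j : Fin 2), i ≠ k →
      Disjoint (interior (⋃₀ (insert (e i) (F j)))) (insert v (interior (e k))) := by
    intro i k j hik
    rw [Set.disjoint_left]
    intro p hp hp'
    rcases hp' with rfl | hp'
    · have hcl : p ∈ closure (interior (e k)) := by
        rw [(g_cl h (heT k)).1]; exact hve k
      rw [_root_.mem_closure_iff] at hcl
      obtain ⟨z, hz1, hz2⟩ := hcl _ isOpen_interior hp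
      exact hnot i k j hik z hz2 (interior_subset hz1)
    · exact hnot i k j hik p hp' (interior_subset hp)
  have hd1 : ∀ (i k : Fin 3) (j l : Fin 2), i ≠ k → j ≠ l →
      Disjoint (interior (⋃₀ (insert (e i) (F j)))) (interior (⋃₀ (insert (e k) (F l)))) := by
    intro i k j l hik hjl
    refine g_disj h _ _ (hinsT i j) (hinsT k l) ?_
    have hFjl : Disjoint (F j) (F l) := by
      fin_cases j <;> fin_cases l
      · exact absurd rfl hjl
      · exact hFd
      · exact hFd.symm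
      · exact absurd rfl hjl
    rw [Set.disjoint_left]
    intro x hx hx'
    rcases hx with rfl | hx
    · rcases hx' with hx' | hx'
      · exact hik (hinj hx')
      · exact heF i l hx'
    · rcases hx' with rfl | hx'
      · exact heF k j hx
      · exact Set.disjoint_left.1 hFjl hx hx'
  have hseg : ∀ i, JoinedIn (insert v (interior (e i))) (a i) v := by
    intro i
    apply JoinedIn.of_segment_subset
    rw [← insert_endpoints_openSegment]
    intro x hx
    rcases hx with rfl | rfl | hx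
    · exact Or.inr (ha i)
    · exact Or.inl rfl
    · exact Or.inr ((h.conv _ (heT i)).openSegment_interior_closure_subset_interior (ha i)
        (subset_closure (hve i)) hx)
  refine k33_joined a (![b 0, b 1, v])
    (fun i j => (![interior (⋃₀ (insert (e i) (F 0))), interior (⋃₀ (insert (e i) (F 1))),
      insert v (interior (e i))] : Fin 3 → Set ℂ) j) ?_ ?_
  · intro i j
    fin_cases j
    · exact hjoin i 0
    · exact hjoin i 1
    · exact hseg i
  · intro i j k l hik hjl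
    fin_cases j <;> fin_cases l
    · exact absurd rfl hjl
    · exact hd1 i k 0 1 hik (by decide)
    · exact hd2 i k 0 hik
    · exact hd1 i k 1 0 hik (by decide)
    · exact absurd rfl hjl
    · exact hd2 i k 1 hik
    · exact (hd2 k i 0 hik.symm).symm
    · exact (hd2 k i 1 hik.symm).symm
    · exact absurd rfl hjl

end J26115

alias k33v := J26115.k33v

namespace J26114

/-! ### TARGET of this job: dirichlet -/

theorem dirichlet (D : ℕ) (κ : ℝ) (hκ : 0 < κ) : ∃ K : ℝ, 0 < K ∧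
    ∀ {ι : Type} (T H : Set ι) (w : ι → ι → ℝ) (ρ : ι → ℕ) (z : ι → ℂ) (b : ℝ), 0 ≤ b →
      (∀ t ∈ T, t ∉ H → (Function.support (w t)).Finite) → (∀ t ∈ T, t ∉ H → ∀ s, 0 ≤ w t s) →
      (∀ t ∈ T, t ∉ H → ∀ s, w t s ≠ 0 → s ∈ T) → (∀ t ∈ T, t ∉ H → ∑ᶠ s, w t s = 1) →
      (∀ t ∈ T, ρ t ≤ D) → (∀ t ∈ T, t ∉ H → ∃ s, ρ s < ρ t ∧ κ ≤ w t s) →
      (∀ t ∈ T, t ∉ H → ‖(∑ᶠ s, (w t s : ℂ) * z s) - z t‖ ≤ b) →
      ∃ x : ι → ℂ, (∀ t ∈ T, t ∈ H → x t = z t) ∧
        (∀ t ∈ T, t ∉ H → x t = ∑ᶠ s, (w t s : ℂ) * x s) ∧ ∀ t ∈ T, ‖x t - z t‖ ≤ K * b := by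
  classical
  obtain ⟨M, hM⟩ : ∃ M : ℝ, M = 2 / κ + 1 := ⟨_, rfl⟩
  have hM1 : 1 ≤ M := by rw [hM]; have : 0 < 2 / κ := by positivity
                         linarith
  have hκM : κ * M = 2 + κ := by rw [hM]; field_simp
  obtain ⟨K0, hK0⟩ : ∃ K0 : ℝ, K0 = M ^ D + 1 := ⟨_, rfl⟩
  have hMD : 1 ≤ M ^ D := one_le_pow₀ hM1
  have hK0' : 2 ≤ K0 := by rw [hK0]; linarith
  refine ⟨K0 * K0, by positivity, ?_⟩
  intro ι T H w ρ z b hb hfin hw0 hwT hw1 hρ hκs hz
  -- finite supports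
  have hS : ∃ S : ι → Finset ι, ∀ t ∈ T, t ∉ H → ∀ s, s ∉ S t → w t s = 0 := by
    refine ⟨fun t => if h : (Function.support (w t)).Finite then h.toFinset else ∅, ?_⟩
    intro t ht htH s hs
    by_contra hne
    have h1 := hfin t ht htH
    apply hs
    simp only [dif_pos h1]
    exact h1.mem_toFinset.2 hne
  obtain ⟨S, hS⟩ := hS
  have hfs : ∀ t ∈ T, t ∉ H → ∀ f : ι → ℂ, ∑ᶠ s, (w t s : ℂ) * f s = ∑ s ∈ S t, (w t s : ℂ) * f s := by
    intro t ht htH f
    apply finsum_eq_sum_of_support_subset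
    intro s hs
    by_contra hns
    apply hs
    show (w t s : ℂ) * f s = 0
    rw [hS t ht htH s hns]
    simp
  have hf1 : ∀ t ∈ T, t ∉ H → ∑ s ∈ S t, w t s = 1 := by
    intro t ht htH
    rw [← hw1 t ht htH]
    symm
    apply finsum_eq_sum_of_support_subset
    intro s hs
    by_contra hns
    exact hs (hS t ht htH s hns)
  -- the supersolution
  obtain ⟨V, hV⟩ : ∃ V : ι → ℝ, V = fun t => K0 - M ^ (D - ρ t) := ⟨_, rfl⟩
  have hE1 : ∀ t, 1 ≤ M ^ (D - ρ t) := fun t => one_le_pow₀ hM1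
  have hV1 : ∀ t, 1 ≤ V t := by
    intro t
    have h1 : M ^ (D - ρ t) ≤ M ^ D := pow_le_pow_right₀ hM1 (Nat.sub_le _ _)
    rw [hV, hK0]
    show 1 ≤ M ^ D + 1 - M ^ (D - ρ t)
    linarith
  have hVK : ∀ t, V t ≤ K0 := by
    intro t
    have h1 := hE1 t
    rw [hV]
    show K0 - M ^ (D - ρ t) ≤ K0
    linarith
  have hsup : ∀ t ∈ T, t ∉ H → ∑ s ∈ S t, w t s * V s ≤ V t - 1 := by
    intro t ht htH
    obtain ⟨s0, hs0, hks0⟩ := hκs t ht htH
    have hs0S : s0 ∈ S t := by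
      by_contra h
      rw [hS t ht htH s0 h] at hks0
      linarith
    have e1 : ∑ s ∈ S t, w t s * V s = K0 - ∑ s ∈ S t, w t s * M ^ (D - ρ s) := by
      have e2 : ∀ s ∈ S t, w t s * V s = w t s * K0 - w t s * M ^ (D - ρ s) := by
        intro s _
        rw [hV]
        ring
      rw [Finset.sum_congr rfl e2, Finset.sum_sub_distrib, ← Finset.sum_mul, hf1 t ht htH, one_mul]
    have e3 : w t s0 * M ^ (D - ρ s0) ≤ ∑ s ∈ S t, w t s * M ^ (D - ρ s) :=
      Finset.single_le_sum (f := fun s => w t s * M ^ (D - ρ s))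
        (fun s _ => mul_nonneg (hw0 t ht htH s) (by positivity)) hs0S
    have hρt := hρ t ht
    have e4 : M ^ (D - ρ t) * M ≤ M ^ (D - ρ s0) := by
      rw [← pow_succ]
      exact pow_le_pow_right₀ hM1 (by omega)
    have e5 : κ * (M ^ (D - ρ t) * M) ≤ w t s0 * M ^ (D - ρ s0) :=
      mul_le_mul hks0 e4 (by positivity) (hw0 t ht htH s0)
    have e6 : κ * (M ^ (D - ρ t) * M) = (2 + κ) * M ^ (D - ρ t) := by
      rw [← hκM]; ring
    have e7 := hE1 t
    have e8 : V t = K0 - M ^ (D - ρ t) := by rw [hV]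
    rw [e1, e8]
    nlinarith
  obtain ⟨q, hq⟩ : ∃ q : ℝ, q = 1 - 1 / K0 := ⟨_, rfl⟩
  have hK0p : 0 < K0 := by linarith
  have hinv : 1 / K0 ≤ 1 / 2 := one_div_le_one_div_of_le (by norm_num) hK0'
  have hinv0 : 0 < 1 / K0 := by positivity
  have hq0 : 0 ≤ q := by rw [hq]; linarith
  have hq1 : q < 1 := by rw [hq]; linarith
  have hqV : ∀ t, V t - 1 ≤ q * V t := by
    intro t
    have h1 : 1 / K0 * V t ≤ 1 := by
      rw [one_div, inv_mul_le_iff₀ hK0p, mul_one]
      exact hVK t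
    rw [hq]
    nlinarith
  -- the iteration
  let r : ι → ℂ := fun t => (∑ s ∈ S t, (w t s : ℂ) * z s) - z t
  have hr : ∀ t ∈ T, t ∉ H → ‖r t‖ ≤ b := by
    intro t ht htH
    have := hz t ht htH
    rw [hfs t ht htH] at this
    exact this
  let F : (ι → ℂ) → ι → ℂ := fun y t =>
    if t ∈ T ∧ t ∉ H then (∑ s ∈ S t, (w t s : ℂ) * y s) + r t else 0
  let y : ℕ → ι → ℂ := fun n => F^[n] 0
  have hy0 : y 0 = 0 := rfl
  have hys : ∀ n, y (n+1) = F (y n) := fun n => Function.iterate_succ_apply' F n 0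
  have hyz : ∀ n t, ¬ (t ∈ T ∧ t ∉ H) → y n t = 0 := by
    intro n t h
    cases n with
    | zero => rfl
    | succ n =>
      rw [hys]
      show (if t ∈ T ∧ t ∉ H then _ else (0:ℂ)) = 0
      rw [if_neg h]
  have hyf : ∀ n t, t ∈ T → t ∉ H → y (n+1) t = (∑ s ∈ S t, (w t s : ℂ) * y n s) + r t := by
    intro n t h h'
    rw [hys]
    show (if t ∈ T ∧ t ∉ H then _ else (0:ℂ)) = _
    rw [if_pos ⟨h, h'⟩]
  have hstep : ∀ n, ∀ t, dist (y n t) (y (n+1) t) ≤ b * V t * q ^ n := by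
    intro n
    induction n with
    | zero =>
      intro t
      by_cases ht : t ∈ T ∧ t ∉ H
      · rw [dist_comm, dist_eq_norm, hyf 0 t ht.1 ht.2, hy0]
        simp only [Pi.zero_apply, mul_zero, Finset.sum_const_zero, zero_add, sub_zero, pow_zero,
          mul_one]
        have h1 := hr t ht.1 ht.2
        have h2 := hV1 t
        nlinarith
      · rw [hyz 0 t ht, hyz 1 t ht, dist_self]
        have h2 := hV1 t
        positivity
    | succ n ih =>
      intro t
      by_cases ht : t ∈ T ∧ t ∉ H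
      · rw [dist_comm, dist_eq_norm, hyf (n+1) t ht.1 ht.2, hyf n t ht.1 ht.2, add_sub_add_right_eq_sub,
          ← Finset.sum_sub_distrib]
        calc ‖∑ s ∈ S t, ((w t s : ℂ) * y (n+1) s - (w t s : ℂ) * y n s)‖
            ≤ ∑ s ∈ S t, ‖(w t s : ℂ) * y (n+1) s - (w t s : ℂ) * y n s‖ := norm_sum_le _ _
          _ ≤ ∑ s ∈ S t, (b * q ^ n) * (w t s * V s) := by
              refine Finset.sum_le_sum fun s _ => ?_
              rw [← mul_sub, norm_mul, Complex.norm_real, Real.norm_eq_abs,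
                abs_of_nonneg (hw0 t ht.1 ht.2 s)]
              have h1 := ih s
              rw [dist_comm, dist_eq_norm] at h1
              have h2 := mul_le_mul_of_nonneg_left h1 (hw0 t ht.1 ht.2 s)
              calc w t s * ‖y (n+1) s - y n s‖ ≤ w t s * (b * V s * q ^ n) := h2
                _ = _ := by ring
          _ = (b * q ^ n) * ∑ s ∈ S t, w t s * V s := by rw [Finset.mul_sum]
          _ ≤ (b * q ^ n) * (q * V t) := by
              refine mul_le_mul_of_nonneg_left ((hsup t ht.1 ht.2).trans (hqV t)) (by positivity)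
          _ = b * V t * q ^ (n+1) := by ring
      · rw [hyz (n+1) t ht, hyz (n+1+1) t ht, dist_self]
        have h2 := hV1 t
        positivity
  have hlim : ∀ t, ∃ Y, Filter.Tendsto (fun n => y n t) Filter.atTop (nhds Y) := fun t =>
    cauchySeq_tendsto_of_complete (cauchySeq_of_le_geometric q (b * V t) hq1 (fun n => hstep n t))
  choose Y hY using hlim
  have hYb : ∀ t, ‖Y t‖ ≤ b * V t * K0 := by
    intro t
    have h1 := dist_le_of_le_geometric_of_tendsto₀ q (b * V t) hq1 (fun n => hstep n t) (hY t)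
    have e0 : y 0 t = 0 := rfl
    rw [e0, dist_comm, dist_zero_right] at h1
    have e1 : b * V t / (1 - q) = b * V t * K0 := by
      have : 1 - q = 1 / K0 := by rw [hq]; ring
      rw [this, div_div_eq_mul_div, div_one]
    rw [e1] at h1
    exact h1
  refine ⟨fun t => z t + Y t, ?_, ?_, ?_⟩
  · intro t ht htH
    have h1 : Y t = 0 := by
      refine tendsto_nhds_unique (hY t) ?_
      have : (fun n => y n t) = fun _ => 0 := by
        funext n
        exact hyz n t (fun h => h.2 htH)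
      rw [this]
      exact tendsto_const_nhds
    show z t + Y t = z t
    rw [h1, add_zero]
  · intro t ht htH
    have h1 : Filter.Tendsto (fun n => y (n+1) t) Filter.atTop
        (nhds ((∑ s ∈ S t, (w t s : ℂ) * Y s) + r t)) := by
      have : (fun n => y (n+1) t) = fun n => (∑ s ∈ S t, (w t s : ℂ) * y n s) + r t := by
        funext n
        exact hyf n t ht htH
      rw [this]
      refine Filter.Tendsto.add ?_ tendsto_const_nhds
      exact tendsto_finset_sum _ fun s _ => (hY s).const_mul _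
    have h2 : Y t = (∑ s ∈ S t, (w t s : ℂ) * Y s) + r t :=
      tendsto_nhds_unique ((Filter.tendsto_add_atTop_iff_nat 1).2 (hY t)) h1
    rw [hfs t ht htH (fun t => z t + Y t)]
    show z t + Y t = ∑ s ∈ S t, (w t s : ℂ) * (z s + Y s)
    simp only [mul_add, Finset.sum_add_distrib]
    rw [h2]
    show z t + ((∑ s ∈ S t, (w t s : ℂ) * Y s) + ((∑ s ∈ S t, (w t s : ℂ) * z s) - z t)) = _
    ring
  · intro t ht
    have h1 := hYb t
    have e : (z t + Y t) - z t = Y t := by ring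
    show ‖(z t + Y t) - z t‖ ≤ _
    rw [e]
    have h3 := hVK t
    have h4 : b * V t * K0 ≤ b * K0 * K0 := by
      refine mul_le_mul_of_nonneg_right (mul_le_mul_of_nonneg_left h3 hb) hK0p.le
    linarith

end J26114

alias dirichlet := J26114.dirichlet

/-- real valued harmonic function with nodes -/
structure Harm {ι : Type} (T H : Set ι) (adj : ι → ι → Prop) (w : ι → ι → ℝ) (ρ : ι → ℕ)
    (y : ι → ℝ) (wm g : ℝ) (D : ℕ) : Prop where
  gpos : 0 < g
  wpos : 0 < wm
  symm : ∀ s t, adj s t → adj t s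
  fin : ∀ t ∈ T, {s | s ∈ T ∧ adj t s}.Finite
  wadj : ∀ t ∈ T, t ∉ H → ∀ s, w t s ≠ 0 → s ∈ T ∧ adj t s
  wge : ∀ t ∈ T, t ∉ H → ∀ s ∈ T, adj t s → wm ≤ w t s
  wsum : ∀ t ∈ T, t ∉ H → ∑ᶠ s, w t s = 1
  harm : ∀ t ∈ T, t ∉ H → y t = ∑ᶠ s, w t s * y s
  up : ∀ t ∈ T, t ∈ H → ∃ s ∈ T, adj t s ∧ y t + g ≤ y s
  dn : ∀ t ∈ T, t ∈ H → ∃ s ∈ T, adj t s ∧ y s + g ≤ y t
  rk : ∀ t ∈ T, ρ t ≤ D
  rk' : ∀ t ∈ T, t ∉ H → ∃ s ∈ T, adj t s ∧ ρ s < ρ t

namespace J26116

/-! ### TARGET of this job: climb -/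

theorem jn_mem_26116 {ι : Type} {adj : ι → ι → Prop} {S : Set ι} {a b : ι}
    (h : Jn adj S a b) : b ∈ S := by
  obtain ⟨ha, h⟩ := h
  induction h with
  | refl => exact ha
  | tail _ h2 _ => exact h2.2

theorem jn_step_26116 {ι : Type} {adj : ι → ι → Prop} {S : Set ι} {a b c : ι}
    (h : Jn adj S a b) (h1 : adj b c) (h2 : c ∈ S) : Jn adj S a c :=
  ⟨h.1, Relation.ReflTransGen.tail h.2 ⟨h1, h2⟩⟩

theorem wsum_26116 {ι : Type} {T H : Set ι} {adj : ι → ι → Prop} {w : ι → ι → ℝ} {ρ : ι → ℕ}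
    {y : ι → ℝ} {wm g : ℝ} {D : ℕ} (hH : Harm T H adj w ρ y wm g D) (m : ι) (hm : m ∈ T)
    (hmH : m ∉ H) (C : ℝ) (hC : ∀ s ∈ T, adj m s → y s ≤ C) (m1 : ι) (hm1 : m1 ∈ T)
    (ha : adj m m1) : wm * (C - y m1) ≤ C - y m := by
  classical
  have hfin := hH.fin m hm
  obtain ⟨N, hN⟩ : ∃ N, N = hfin.toFinset := ⟨_, rfl⟩
  have hmem : ∀ s, s ∈ N ↔ s ∈ T ∧ adj m s := by
    intro s
    rw [hN, Set.Finite.mem_toFinset]
    exact Iff.rfl
  have e1 : ∑ᶠ s, w m s = ∑ s ∈ N, w m s := by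
    apply finsum_eq_sum_of_support_subset
    intro s hs
    exact (hmem s).2 (hH.wadj m hm hmH s hs)
  have e2 : ∑ᶠ s, w m s * y s = ∑ s ∈ N, w m s * y s := by
    apply finsum_eq_sum_of_support_subset
    intro s hs
    have : w m s ≠ 0 := by
      intro h0
      apply hs
      show w m s * y s = 0
      rw [h0, zero_mul]
    exact (hmem s).2 (hH.wadj m hm hmH s this)
  have h1 := hH.wsum m hm hmH
  have h2 := hH.harm m hm hmH
  rw [e1] at h1
  rw [e2] at h2
  have e3 : C - y m = ∑ s ∈ N, w m s * (C - y s) := by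
    have : ∑ s ∈ N, w m s * (C - y s) = (∑ s ∈ N, w m s) * C - ∑ s ∈ N, w m s * y s := by
      rw [Finset.sum_mul, ← Finset.sum_sub_distrib]
      apply Finset.sum_congr rfl
      intro s _
      ring
    rw [this, h1, ← h2, one_mul]
  rw [e3]
  have hnn : ∀ s ∈ N, 0 ≤ w m s * (C - y s) := by
    intro s hs
    obtain ⟨hs1, hs2⟩ := (hmem s).1 hs
    exact mul_nonneg (hH.wpos.le.trans (hH.wge m hm hmH s hs1 hs2)) (sub_nonneg.2 (hC s hs1 hs2))
  refine le_trans ?_ (Finset.single_le_sum hnn ((hmem m1).2 ⟨hm1, ha⟩))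
  exact mul_le_mul_of_nonneg_right (hH.wge m hm hmH m1 hm1 ha) (sub_nonneg.2 (hC m1 hm1 ha))

theorem climb {ι : Type} {T H : Set ι} {adj : ι → ι → Prop} {w : ι → ι → ℝ} {ρ : ι → ℕ}
    {y : ι → ℝ} {wm g : ℝ} {D : ℕ} (hH : Harm T H adj w ρ y wm g D) (t : ι) (ht : t ∈ T) :
    ∃ t' ∈ T, Jn adj {s | s ∈ T ∧ y t ≤ y s} t t' ∧ y t + g ≤ y t' := by
  classical
  by_contra hcon
  obtain ⟨S, hS⟩ : ∃ S : Set ι, S = {s | s ∈ T ∧ y t ≤ y s} := ⟨_, rfl⟩
  rw [← hS] at hcon
  have memS : ∀ s, s ∈ S ↔ s ∈ T ∧ y t ≤ y s := by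
    intro s
    rw [hS]
    exact Iff.rfl
  have hlt : ∀ s, Jn adj S t s → y s < y t + g := by
    intro s hs
    by_contra h
    exact hcon ⟨s, ((memS s).1 (jn_mem_26116 hs)).1, hs, not_lt.1 h⟩
  have hK0 : Jn adj S t t := ⟨(memS t).2 ⟨ht, le_refl _⟩, Relation.ReflTransGen.refl⟩
  have hnH : ∀ s, Jn adj S t s → s ∉ H := by
    intro s hs hsH
    obtain ⟨hsT, hys⟩ := (memS s).1 (jn_mem_26116 hs)
    obtain ⟨s', hs'T, ha, hy⟩ := hH.up s hsT hsH
    have hg := hH.gpos
    have hK : Jn adj S t s' := jn_step_26116 hs ha ((memS s').2 ⟨hs'T, by linarith⟩)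
    have := hlt s' hK
    linarith
  obtain ⟨M, hM⟩ : ∃ M, M = sSup (y '' {s | Jn adj S t s}) := ⟨_, rfl⟩
  have hbdd : BddAbove (y '' {s | Jn adj S t s}) := by
    refine ⟨y t + g, ?_⟩
    rintro _ ⟨s, hs, rfl⟩
    exact (hlt s hs).le
  have hle : ∀ s, Jn adj S t s → y s ≤ M := by
    intro s hs
    rw [hM]
    exact le_csSup hbdd ⟨s, hs, rfl⟩
  have hM0 : y t ≤ M := hle t hK0
  have hnb : ∀ m, Jn adj S t m → ∀ s ∈ T, adj m s → y s ≤ M := by
    intro m hm s hs ha
    by_cases h : y t ≤ y s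
    · exact hle s (jn_step_26116 hm ha ((memS s).2 ⟨hs, h⟩))
    · exact (not_le.1 h).le.trans hM0
  obtain ⟨c, hc⟩ : ∃ c, c = min wm 1 := ⟨_, rfl⟩
  have hc0 : 0 < c := by
    rw [hc]
    exact lt_min hH.wpos one_pos
  have hc1 : c ≤ 1 := by
    rw [hc]
    exact min_le_right _ _
  have hcw : c ≤ wm := by
    rw [hc]
    exact min_le_left _ _
  have key : ∀ n : ℕ, ∀ m, Jn adj S t m → ρ m ≤ n → c ^ (n + 1) * (M - y t) < M - y m := by
    intro n
    induction n with
    | zero =>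
      intro m hm hρ
      obtain ⟨hmT, hym⟩ := (memS m).1 (jn_mem_26116 hm)
      obtain ⟨m1, hm1, ha, hr⟩ := hH.rk' m hmT (hnH m hm)
      omega
    | succ n ih =>
      intro m hm hρ
      obtain ⟨hmT, hym⟩ := (memS m).1 (jn_mem_26116 hm)
      obtain ⟨m1, hm1, ha, hr⟩ := hH.rk' m hmT (hnH m hm)
      have hE := wsum_26116 hH m hmT (hnH m hm) M (hnb m hm) m1 hm1 ha
      have hE2 : c * (M - y m1) ≤ M - y m :=
        (mul_le_mul_of_nonneg_right hcw (sub_nonneg.2 (hnb m hm m1 hm1 ha))).trans hE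
      by_cases h : y t ≤ y m1
      · have hK1 := jn_step_26116 hm ha ((memS m1).2 ⟨hm1, h⟩)
        have h3 := ih m1 hK1 (by omega)
        have h4 := mul_lt_mul_of_pos_left h3 hc0
        have e : c ^ (n + 1 + 1) * (M - y t) = c * (c ^ (n + 1) * (M - y t)) := by ring
        rw [e]
        exact h4.trans_le hE2
      · have h1 : M - y t < M - y m1 := by linarith [not_le.1 h]
        have h4 := mul_lt_mul_of_pos_left h1 hc0
        have h5 : c ^ (n + 1 + 1) * (M - y t) ≤ c * (M - y t) := by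
          apply mul_le_mul_of_nonneg_right _ (sub_nonneg.2 hM0)
          calc c ^ (n + 1 + 1) ≤ c ^ 1 := pow_le_pow_of_le_one hc0.le hc1 (by omega)
            _ = c := pow_one c
        exact (h5.trans_lt h4).trans_le hE2
  have hcD : 0 < c ^ (D + 1) := pow_pos hc0 _
  have hub : M ≤ M - c ^ (D + 1) * (M - y t) := by
    conv_lhs => rw [hM]
    apply csSup_le
    · exact ⟨y t, t, hK0, rfl⟩
    · rintro _ ⟨s, hs, rfl⟩
      have hsT := ((memS s).1 (jn_mem_26116 hs)).1
      have := key D s hs (hH.rk s hsT)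
      linarith
  have h0 : c ^ (D + 1) * (M - y t) ≤ 0 := by linarith
  have hMy : M - y t ≤ 0 := by
    by_contra h
    have := mul_pos hcD (not_le.1 h)
    linarith
  have hMe : M = y t := le_antisymm (by linarith) hM0
  have hfin := key D t hK0 (hH.rk t ht)
  rw [hMe] at hfin
  simp at hfin

end J26116

alias climb := J26116.climb

namespace J26117

/-! ### TARGET of this job: climb_far -/

theorem climb_far {ι : Type} {T H : Set ι} {adj : ι → ι → Prop} {w : ι → ι → ℝ} {ρ : ι → ℕ}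
    {y : ι → ℝ} {wm g : ℝ} {D : ℕ} (hH : Harm T H adj w ρ y wm g D) (t : ι) (ht : t ∈ T) (M : ℝ) :
    ∃ t' ∈ T, Jn adj {s | s ∈ T ∧ y t ≤ y s} t t' ∧ M ≤ y t' := by
  have hg := hH.gpos
  have key : ∀ n : ℕ, ∃ t' ∈ T, Jn adj {s | s ∈ T ∧ y t ≤ y s} t t' ∧ y t + n * g ≤ y t' := by
    intro n
    induction n with
    | zero => exact ⟨t, ht, ⟨⟨ht, le_refl _⟩, Relation.ReflTransGen.refl⟩, by simp⟩
    | succ n ih =>
      obtain ⟨a, haT, haJ, hay⟩ := ih
      obtain ⟨b, hbT, hbJ, hby⟩ := climb hH a haT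
      have hta : y t ≤ y a := by
        have : 0 ≤ (n : ℝ) * g := mul_nonneg (Nat.cast_nonneg _) hg.le
        linarith
      refine ⟨b, hbT, jn_trans haJ (jn_mono ?_ hbJ), ?_⟩
      · rintro s ⟨hs1, hs2⟩
        exact ⟨hs1, le_trans hta hs2⟩
      · push_cast
        linarith
  obtain ⟨n, hn⟩ := exists_nat_gt ((M - y t) / g)
  obtain ⟨t', h1, h2, h3⟩ := key n
  refine ⟨t', h1, h2, ?_⟩
  rw [div_lt_iff₀ hg] at hn
  linarith

end J26117

alias climb_far := J26117.climb_far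

namespace J26118

/-! ### TARGET of this job: twoside -/

theorem twoside {ι : Type} {T H : Set ι} {adj : ι → ι → Prop} {w : ι → ι → ℝ} {ρ : ι → ℕ}
    {y : ι → ℝ} {wm g : ℝ} {D : ℕ} (hH : Harm T H adj w ρ y wm g D) (t s : ι) (ht : t ∈ T)
    (hs : s ∈ T) (hts : adj t s) (hne : y s ≠ y t) :
    ∃ s' ∈ T, adj t s' ∧ y t < y s' := by
  by_cases htH : t ∈ H
  · obtain ⟨s', hs', ha, hy⟩ := hH.up t ht htH
    exact ⟨s', hs', ha, by linarith [hH.gpos]⟩
  · by_contra hcon
    push Not at hcon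
    set S : Finset ι := (hH.fin t ht).toFinset with hS
    have hmem : ∀ x, x ∈ S ↔ x ∈ T ∧ adj t x := by
      intro x
      rw [hS, Set.Finite.mem_toFinset]
      exact Iff.rfl
    have hsub1 : (Function.support fun x => w t x) ⊆ (S : Set ι) := by
      intro x hx
      rw [Finset.mem_coe, hmem]
      exact hH.wadj t ht htH x hx
    have hsub2 : (Function.support fun x => w t x * y x) ⊆ (S : Set ι) := by
      intro x hx
      rw [Finset.mem_coe, hmem]
      refine hH.wadj t ht htH x ?_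
      intro h0
      apply hx
      show w t x * y x = 0
      rw [h0, zero_mul]
    have h1 := hH.wsum t ht htH
    have h2 := hH.harm t ht htH
    rw [finsum_eq_sum_of_support_subset _ hsub1] at h1
    rw [finsum_eq_sum_of_support_subset _ hsub2] at h2
    have h3 : ∑ x ∈ S, w t x * (y t - y x) = 0 := by
      have h4 : ∑ x ∈ S, w t x * (y t - y x) = (∑ x ∈ S, w t x) * y t - ∑ x ∈ S, w t x * y x := by
        rw [Finset.sum_mul, ← Finset.sum_sub_distrib]
        exact Finset.sum_congr rfl fun x _ => by ring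
      rw [h4, h1, ← h2]
      ring
    have h5 : 0 < ∑ x ∈ S, w t x * (y t - y x) := by
      refine Finset.sum_pos' ?_ ⟨s, (hmem s).mpr ⟨hs, hts⟩, ?_⟩
      · intro x hx
        obtain ⟨hx1, hx2⟩ := (hmem x).mp hx
        have h6 := hH.wge t ht htH x hx1 hx2
        have h7 := hcon x hx1 hx2
        exact mul_nonneg (by linarith [hH.wpos]) (by linarith)
      · have h6 := hH.wge t ht htH s hs hts
        have h7 := hcon s hs hts
        have h8 : y s < y t := lt_of_le_of_ne h7 hne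
        exact mul_pos (by linarith [hH.wpos]) (by linarith)
    linarith


end J26118

alias twoside := J26118.twoside

namespace J26119

/-! ### TARGET of this job: quant -/

theorem quant_aux {ι : Type} (F : Finset ι) (w y : ι → ℝ) (yt wm a : ℝ) (hwm : 0 < wm)
    (ha : 0 < a) (hs1 : ∑ s ∈ F, w s = 1) (hs2 : yt = ∑ s ∈ F, w s * y s)
    (hw : ∀ s ∈ F, wm ≤ w s) (s : ι) (hs : s ∈ F) (h1 : 3 / wm * a < y s - yt)
    (h2 : ∀ s' ∈ F, yt - 2 * a ≤ y s') : False := by
  classical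
  have h3 : ∑ s' ∈ F, w s' * (y s' - yt) = 0 := by
    simp_rw [mul_sub]
    rw [Finset.sum_sub_distrib, ← Finset.sum_mul, hs1, ← hs2]
    ring
  rw [← Finset.add_sum_erase F _ hs] at h3
  have h4 : ∑ s' ∈ F.erase s, w s' * (-(2 * a)) ≤ ∑ s' ∈ F.erase s, w s' * (y s' - yt) := by
    refine Finset.sum_le_sum fun s' hs' => ?_
    have h5 := Finset.mem_of_mem_erase hs'
    refine mul_le_mul_of_nonneg_left ?_ (hwm.le.trans (hw s' h5))
    have := h2 s' h5
    linarith
  rw [← Finset.sum_mul] at h4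
  have h6 : w s + ∑ s' ∈ F.erase s, w s' = 1 := by rw [Finset.add_sum_erase F _ hs, hs1]
  have h7 : wm * (3 / wm * a) = 3 * a := by field_simp
  have h8 : wm * (3 / wm * a) ≤ w s * (y s - yt) := by
    refine mul_le_mul (hw s hs) h1.le ?_ (hwm.le.trans (hw s hs))
    positivity
  have h9 := hw s hs
  nlinarith

theorem quant {ι : Type} {T H : Set ι} {adj : ι → ι → Prop} {w : ι → ι → ℝ} {ρ : ι → ℕ}
    {y : ι → ℝ} {wm g : ℝ} {D : ℕ} (hH : Harm T H adj w ρ y wm g D) (c a : ℝ) (ha : 0 < a)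
    (hag : a < g / 2) (t s : ι) (ht : t ∈ T) (hs : s ∈ T) (hts : adj t s) (h1 : |y t - c| ≤ a)
    (h2 : (1 + 3 / wm) * a < |y s - c|) :
    (∃ s' ∈ T, adj t s' ∧ c + a < y s') ∧ (∃ s' ∈ T, adj t s' ∧ y s' < c - a) := by
  have hwm := hH.wpos
  obtain ⟨h3, h4⟩ := abs_le.1 h1
  by_cases htH : t ∈ H
  · obtain ⟨s1, hs1, hs2, hs3⟩ := hH.up t ht htH
    obtain ⟨s4, hs4, hs5, hs6⟩ := hH.dn t ht htH
    exact ⟨⟨s1, hs1, hs2, by linarith⟩, ⟨s4, hs4, hs5, by linarith⟩⟩
  · obtain ⟨F, hF⟩ : ∃ F, F = (hH.fin t ht).toFinset := ⟨_, rfl⟩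
    have hmem : ∀ s', s' ∈ F ↔ s' ∈ T ∧ adj t s' := by
      intro s'
      rw [hF, Set.Finite.mem_toFinset]
      rfl
    have hsup : Function.support (w t) ⊆ (F : Set ι) := by
      intro s' hs'
      exact (hmem s').2 (hH.wadj t ht htH s' hs')
    have hsum1 : ∑ s' ∈ F, w t s' = 1 := by
      rw [← hH.wsum t ht htH]
      exact (finsum_eq_sum_of_support_subset _ hsup).symm
    have hsum2 : y t = ∑ s' ∈ F, w t s' * y s' := by
      rw [hH.harm t ht htH]
      refine finsum_eq_sum_of_support_subset _ ?_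
      intro s' hs'
      apply hsup
      intro h0
      apply hs'
      change w t s' * y s' = 0
      rw [h0, zero_mul]
    have hw : ∀ s' ∈ F, wm ≤ w t s' := fun s' hs' =>
      hH.wge t ht htH s' ((hmem s').1 hs').1 ((hmem s').1 hs').2
    have hsF : s ∈ F := (hmem s).2 ⟨hs, hts⟩
    have hpos : 0 < 3 / wm * a := by positivity
    rcases lt_abs.1 h2 with h5 | h5
    · refine ⟨⟨s, hs, hts, by nlinarith⟩, ?_⟩
      by_contra hc
      push Not at hc
      refine quant_aux F (w t) y (y t) wm a hwm ha hsum1 hsum2 hw s hsF (by nlinarith) ?_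
      intro s' hs'
      have := hc s' ((hmem s').1 hs').1 ((hmem s').1 hs').2
      linarith
    · refine ⟨?_, ⟨s, hs, hts, by nlinarith⟩⟩
      by_contra hc
      push Not at hc
      refine quant_aux F (w t) (fun s => - y s) (- y t) wm a hwm ha hsum1 ?_ hw s hsF
        (by nlinarith) ?_
      · rw [hsum2, ← Finset.sum_neg_distrib]
        refine Finset.sum_congr rfl fun s' _ => ?_
        ring
      · intro s' hs'
        have := hc s' ((hmem s').1 hs').1 ((hmem s').1 hs').2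
        linarith

end J26119

alias quant := J26119.quant

namespace J26120

/-! ### TARGET of this job: nonflat_abs -/

/-- balls -/
def nfB {ι : Type} (T : Set ι) (adj : ι → ι → Prop) (S : Set ι) : ℕ → Set ι
  | 0 => S
  | (j + 1) => nfB T adj S j ∪ {s | s ∈ T ∧ ∃ t ∈ nfB T adj S j, adj t s}

theorem nfB_mono {ι : Type} {T : Set ι} {adj : ι → ι → Prop} {S : Set ι} {j k : ℕ} (h : j ≤ k) :
    nfB T adj S j ⊆ nfB T adj S k := by
  induction h with
  | refl => exact Subset.rfl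
  | step _ ih => exact ih.trans subset_union_left

theorem nfB_sub {ι : Type} {T : Set ι} {adj : ι → ι → Prop} {S : Set ι} (hS : S ⊆ T) (j : ℕ) :
    nfB T adj S j ⊆ T := by
  induction j with
  | zero => exact hS
  | succ j ih =>
    rintro s (hs | hs)
    · exact ih hs
    · exact hs.1

theorem nfB_mono' {ι : Type} {T T' : Set ι} {adj : ι → ι → Prop} {S S' : Set ι} (hT : T' ⊆ T)
    (hS : S' ⊆ S) (j : ℕ) : nfB T' adj S' j ⊆ nfB T adj S j := by
  induction j with
  | zero => exact hS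
  | succ j ih =>
    rintro s (hs | ⟨hs, t, ht, hts⟩)
    · exact Or.inl (ih hs)
    · exact Or.inr ⟨hT hs, t, ih ht, hts⟩

theorem nfB_step {ι : Type} {T : Set ι} {adj : ι → ι → Prop} {S : Set ι} {j : ℕ} {t s : ι}
    (ht : t ∈ nfB T adj S j) (hs : s ∈ T) (hts : adj t s) : s ∈ nfB T adj S (j + 1) :=
  Or.inr ⟨hs, t, ht, hts⟩

theorem nf_biU {ι : Type} (P : ι → Set ι) (N : ℕ) (A : Set ι) (hA : A.Finite)
    (h : ∀ t ∈ A, (P t).Finite ∧ (P t).ncard ≤ N) :
    {s | ∃ t ∈ A, s ∈ P t}.Finite ∧ {s | ∃ t ∈ A, s ∈ P t}.ncard ≤ A.ncard * N := by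
  induction A, hA using Set.Finite.induction_on with
  | empty =>
    have : {s | ∃ t ∈ (∅ : Set ι), s ∈ P t} = ∅ := by
      ext s; simp
    rw [this]
    simp
  | @insert a A ha hA ih =>
    obtain ⟨h1, h2⟩ := ih (fun t ht => h t (mem_insert_of_mem _ ht))
    obtain ⟨h3, h4⟩ := h a (mem_insert _ _)
    have he : {s | ∃ t ∈ insert a A, s ∈ P t} = P a ∪ {s | ∃ t ∈ A, s ∈ P t} := by
      ext s
      constructor
      · rintro ⟨t, ht, hs⟩
        rcases mem_insert_iff.1 ht with rfl | ht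
        · exact Or.inl hs
        · exact Or.inr ⟨t, ht, hs⟩
      · rintro (hs | ⟨t, ht, hs⟩)
        · exact ⟨a, mem_insert _ _, hs⟩
        · exact ⟨t, mem_insert_of_mem _ ht, hs⟩
    rw [he]
    refine ⟨h3.union h1, (ncard_union_le _ _).trans ?_⟩
    rw [ncard_insert_of_notMem ha hA]
    nlinarith

theorem nfB_card {ι : Type} {T : Set ι} {adj : ι → ι → Prop} {S : Set ι} {N m : ℕ} (hS : S ⊆ T)
    (hf : S.Finite) (hm : S.ncard ≤ m)
    (hN : ∀ t ∈ T, {s | s ∈ T ∧ adj t s}.Finite ∧ {s | s ∈ T ∧ adj t s}.ncard ≤ N) (j : ℕ) :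
    (nfB T adj S j).Finite ∧ (nfB T adj S j).ncard ≤ m * (N + 1) ^ j := by
  induction j with
  | zero => simpa [nfB] using ⟨hf, hm⟩
  | succ j ih =>
    obtain ⟨h1, h2⟩ := ih
    obtain ⟨h3, h4⟩ := nf_biU (fun t => {s | s ∈ T ∧ adj t s}) N _ h1
      (fun t ht => hN t (nfB_sub hS j ht))
    have he : {s | ∃ t ∈ nfB T adj S j, s ∈ {s | s ∈ T ∧ adj t s}} =
        {s | s ∈ T ∧ ∃ t ∈ nfB T adj S j, adj t s} := by
      ext s
      constructor
      · rintro ⟨t, ht, hs, hts⟩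
        exact ⟨hs, t, ht, hts⟩
      · rintro ⟨hs, t, ht, hts⟩
        exact ⟨t, ht, hs, hts⟩
    rw [he] at h3 h4
    refine ⟨h1.union h3, (ncard_union_le _ _).trans ?_⟩
    calc (nfB T adj S j).ncard + {s | s ∈ T ∧ ∃ t ∈ nfB T adj S j, adj t s}.ncard
        ≤ (nfB T adj S j).ncard + (nfB T adj S j).ncard * N := by omega
      _ = (nfB T adj S j).ncard * (N + 1) := by ring
      _ ≤ (m * (N + 1) ^ j) * (N + 1) := Nat.mul_le_mul_right _ h2
      _ = m * (N + 1) ^ (j + 1) := by ring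

/-- the connected sets -/
theorem nfB_conn {ι : Type} {T : Set ι} {adj : ι → ι → Prop} (hs : ∀ x y, adj x y → adj y x)
    (t0 : ι) (j : ℕ) : Cn adj (nfB T adj {t0} j) := by
  have key : ∀ j, ∀ a ∈ nfB T adj {t0} j, Jn adj (nfB T adj {t0} j) t0 a := by
    intro j
    induction j with
    | zero =>
      intro a ha
      have : a = t0 := ha
      rw [this]
      exact ⟨rfl, Relation.ReflTransGen.refl⟩
    | succ j ih =>
      rintro a (ha | ⟨ha, t, ht, hta⟩)
      · exact jn_mono subset_union_left (ih a ha)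
      · have h1 := jn_mono (subset_union_left (t := {s | s ∈ T ∧ ∃ t ∈ nfB T adj {t0} j, adj t s}))
          (ih t ht)
        exact ⟨h1.1, h1.2.tail ⟨hta, nfB_step ht ha hta⟩⟩
  intro a ha b hb
  exact jn_trans (jn_symm hs (key j a ha)) (key j b hb)

theorem nf_pair {ι : Type} (X : Set ι) (t1 : ι)
    (h : ¬ ∃ a ∈ X, ∃ b ∈ X, ∃ c ∈ X, a ≠ b ∧ a ≠ c ∧ b ≠ c) :
    ∃ p q, X ⊆ {p, q} ∧ (p ∈ X ∨ p = t1) ∧ (q ∈ X ∨ q = t1) := by
  by_cases h0 : X.Nonempty
  · obtain ⟨p, hp⟩ := h0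
    by_cases h1 : ∃ q ∈ X, q ≠ p
    · obtain ⟨q, hq, hqp⟩ := h1
      refine ⟨p, q, ?_, Or.inl hp, Or.inl hq⟩
      intro x hx
      by_contra hx'
      simp only [mem_insert_iff, mem_singleton_iff, not_or] at hx'
      exact h ⟨p, hp, q, hq, x, hx, hqp.symm, fun e => hx'.1 e.symm, fun e => hx'.2 e.symm⟩
    · refine ⟨p, p, ?_, Or.inl hp, Or.inl hp⟩
      intro x hx
      by_contra hx'
      exact h1 ⟨x, hx, fun e => hx' (by simp [e])⟩
  · refine ⟨t1, t1, ?_, Or.inr rfl, Or.inr rfl⟩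
    intro x hx
    exact absurd ⟨x, hx⟩ h0

theorem nf_stable {ι : Type} (C : ℕ → Set ι) (hmono : ∀ j, C j ⊆ C (j + 1)) (M : ℕ)
    (hfin : (C (M + 1)).Finite) (h0 : (C 0).Nonempty) (hcard : (C (M + 1)).ncard ≤ M) :
    ∃ j ≤ M, C j = C (j + 1) := by
  by_contra hcon
  push Not at hcon
  have hm : ∀ j k, j ≤ k → C j ⊆ C k := by
    intro j k h
    induction h with
    | refl => exact Subset.rfl
    | step _ ih => exact ih.trans (hmono _)
  have key : ∀ j, j ≤ M + 1 → j + 1 ≤ (C j).ncard := by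
    intro j
    induction j with
    | zero =>
      intro _
      exact (ncard_pos (hfin.subset (hm _ _ (Nat.zero_le _)))).2 h0
    | succ j ih =>
      intro hj
      have h1 := ih (by omega)
      have h2 : C j ⊂ C (j + 1) :=
        (hmono j).ssubset_of_ne (hcon j (by omega))
      have h3 := ncard_lt_ncard h2 (hfin.subset (hm _ _ hj))
      omega
  have := key (M + 1) le_rfl
  omega

theorem nf_pig {ι : Type} (W : Set ι) (hW : W.Finite) (n : ℕ) (hn : W.ncard ≤ n) (z : ι → ℝ)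
    (κ η : ℝ) (hκ : 1 ≤ κ) (hη : 0 < η) :
    ∃ i ≤ n, ∀ t ∈ W, ¬ (κ ^ i * η < z t ∧ z t ≤ κ ^ (i + 1) * η) := by
  classical
  by_contra hcon
  push Not at hcon
  have hne : Nonempty ι := ⟨(hcon 0 (Nat.zero_le _)).choose⟩
  choose! f hf1 hf2 hf3 using hcon
  have hinj : Set.InjOn f ((Finset.range (n + 1) : Finset ℕ) : Set ℕ) := by
    have aux : ∀ i i', i < i' → i' ≤ n → f i ≠ f i' := by
      intro i i' hii hi' he
      have h1 := hf3 i (by omega)
      have h2 := hf2 i' hi'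
      rw [he] at h1
      have h3 : κ ^ (i + 1) * η ≤ κ ^ i' * η :=
        mul_le_mul_of_nonneg_right (pow_le_pow_right₀ hκ hii) hη.le
      linarith
    intro i hi i' hi' he
    simp only [Finset.coe_range, mem_Iio] at hi hi'
    rcases lt_trichotomy i i' with h | h | h
    · exact absurd he (aux i i' h (by omega))
    · exact h
    · exact absurd he.symm (aux i' i h (by omega))
  have h1 := Finset.card_image_of_injOn hinj
  rw [Finset.card_range] at h1
  have h2 : ((Finset.range (n + 1)).image f : Set ι) ⊆ W := by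
    intro x hx
    simp only [Finset.coe_image, Finset.coe_range, mem_image, mem_Iio] at hx
    obtain ⟨i, hi, rfl⟩ := hx
    exact hf1 i (by omega)
  have h3 := ncard_le_ncard h2 hW
  rw [ncard_coe_finset, h1] at h3
  omega

theorem nonflat_abs (N D : ℕ) (wm g : ℝ) (hwm : 0 < wm) (hg : 0 < g) : ∃ η : ℝ, 0 < η ∧
    ∀ {ι : Type} (T H : Set ι) (adj : ι → ι → Prop) (w : ι → ι → ℝ) (ρ : ι → ℕ) (y : ι → ℝ),
      Harm T H adj w ρ y wm g D →
      (∀ t ∈ T, {s | s ∈ T ∧ adj t s}.Finite ∧ {s | s ∈ T ∧ adj t s}.ncard ≤ N) →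
      (∀ a ∈ T, ∀ b ∈ T, ∀ s ∈ T, ∀ t ∈ T, s ≠ a → s ≠ b → t ≠ a → t ≠ b →
        Jn adj {q | q ∈ T ∧ q ≠ a ∧ q ≠ b} s t) →
      (∀ c : ℝ, Cn adj {q | q ∈ T ∧ c < y q}) → (∀ c : ℝ, Cn adj {q | q ∈ T ∧ y q < c}) →
      K33A T adj → ∀ V : Set ι, V ⊆ T → V.Finite → V.ncard ≤ N →
      (∃ a ∈ V, ∃ b ∈ V, ∃ c ∈ V, a ≠ b ∧ a ≠ c ∧ b ≠ c) → K33V T V adj →
      ∀ c : ℝ, ∃ t ∈ V, η < |y t - c| := by
  set M : ℕ := 2 * (N + 1) ^ (D + 1) with hM
  set J : ℕ := M + 1 + D with hJ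
  set R : ℕ := J + 2 with hR
  set Nw : ℕ := N * (N + 1) ^ R with hNw
  set κ : ℝ := 1 + 3 / wm with hκ
  have hκ1 : 1 ≤ κ := by
    have : 0 < 3 / wm := by positivity
    linarith
  have hκ0 : 0 < κ := by linarith
  refine ⟨g / (4 * κ ^ (Nw + 2)), by positivity, ?_⟩
  intro ι T H adj w ρ y hH hN h3c hup hdn hKA V hVT hVf hVN hV3 hKV c
  set η : ℝ := g / (4 * κ ^ (Nw + 2)) with hη
  have hη0 : 0 < η := by positivity
  by_contra hcon
  push Not at hcon
  obtain ⟨hWf, hWc⟩ := nfB_card hVT hVf hVN hN R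
  obtain ⟨i, hi, hgap⟩ := nf_pig (nfB T adj V R) hWf Nw hWc (fun t => |y t - c|) κ η hκ1 hη0
  set a : ℝ := κ ^ i * η with ha
  have ha0 : 0 < a := by positivity
  have hηa : η ≤ a := by
    have h1 : 1 ≤ κ ^ i := one_le_pow₀ hκ1
    nlinarith
  have hκa : κ * a < g / 2 := by
    have h1 : κ ^ i ≤ κ ^ Nw := pow_le_pow_right₀ hκ1 hi
    have h2 : κ * a ≤ κ ^ (Nw + 1) * η := by
      rw [ha, pow_succ]
      have : κ * (κ ^ i * η) ≤ κ * (κ ^ Nw * η) :=
        mul_le_mul_of_nonneg_left (mul_le_mul_of_nonneg_right h1 hη0.le) hκ0.le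
      calc κ * (κ ^ i * η) ≤ κ * (κ ^ Nw * η) := this
        _ = κ ^ Nw * κ * η := by ring
    have h3 : κ ^ (Nw + 1) * η ≤ κ ^ (Nw + 2) * η :=
      mul_le_mul_of_nonneg_right (pow_le_pow_right₀ hκ1 (by omega)) hη0.le
    have h4 : κ ^ (Nw + 2) * η = g / 4 := by
      rw [hη]
      field_simp
    linarith
  have hag : a < g / 2 := by
    have : a ≤ κ * a := by nlinarith
    linarith
  have hgap' : ∀ t ∈ nfB T adj V R, |y t - c| ≤ a ∨ κ * a < |y t - c| := by
    intro t ht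
    have h1 := hgap t ht
    by_contra h2
    push Not at h2
    apply h1
    refine ⟨h2.1, ?_⟩
    have : κ ^ (i + 1) * η = κ * a := by rw [ha]; ring
    rw [this]
    exact h2.2
  -- flat tiles and exits
  let Fl : Set ι := {t | t ∈ T ∧ |y t - c| ≤ a ∧ ∀ s ∈ T, adj t s → |y s - c| ≤ a}
  let Ex : Set ι := {t | t ∈ T ∧ |y t - c| ≤ a ∧ (∃ s' ∈ T, adj t s' ∧ c + a < y s') ∧
    (∃ s' ∈ T, adj t s' ∧ y s' < c - a)}
  have hexcl : ∀ t, t ∈ Fl → t ∉ Ex := by
    rintro t ⟨_, _, h1⟩ ⟨_, _, ⟨s, hs, hts, h2⟩, _⟩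
    have h3 := h1 s hs hts
    rw [abs_le] at h3
    linarith
  have hdich : ∀ t, t ∈ nfB T adj V (J + 1) → |y t - c| ≤ a → t ∈ Fl ∨ t ∈ Ex := by
    intro t ht h1
    have htT : t ∈ T := nfB_sub hVT _ ht
    by_cases h2 : ∀ s ∈ T, adj t s → |y s - c| ≤ a
    · exact Or.inl ⟨htT, h1, h2⟩
    · push Not at h2
      obtain ⟨s, hs, hts, h3⟩ := h2
      have h4 : κ * a < |y s - c| := by
        rcases hgap' s (nfB_step ht hs hts) with h | h
        · linarith
        · exact h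
      obtain ⟨h5, h6⟩ := quant hH c a ha0 hag t s htT hs hts h1 h4
      exact Or.inr ⟨htT, h1, h5, h6⟩
  have hFlH : ∀ t ∈ Fl, t ∉ H := by
    rintro t ⟨htT, h1, h2⟩ hH'
    obtain ⟨s, hs, hts, h3⟩ := hH.up t htT hH'
    have h4 := h2 s hs hts
    rw [abs_le] at h1 h4
    linarith
  have hdisj : Disjoint {q | q ∈ T ∧ c + a < y q} {q | q ∈ T ∧ y q < c - a} := by
    rw [Set.disjoint_left]
    rintro q ⟨_, h1⟩ ⟨_, h2⟩
    linarith
  have hZA : ∀ q, |y q - c| ≤ a → q ∉ {q | q ∈ T ∧ c + a < y q} := by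
    rintro q hq ⟨_, h1⟩
    rw [abs_le] at hq
    linarith
  have hZB : ∀ q, |y q - c| ≤ a → q ∉ {q | q ∈ T ∧ y q < c - a} := by
    rintro q hq ⟨_, h1⟩
    rw [abs_le] at hq
    linarith
  by_cases hfl : ∃ t0 ∈ V, t0 ∈ Fl
  swap
  · -- all tiles of V are exits
    push Not at hfl
    have hVE : ∀ t ∈ V, t ∈ Ex := by
      intro t ht
      rcases hdich t (nfB_mono (Nat.zero_le _) ht) ((hcon t ht).trans hηa) with h | h
      · exact absurd h (hfl t ht)
      · exact h
    obtain ⟨p1, hp1, p2, hp2, p3, hp3, h12, h13, h23⟩ := hV3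
    refine hKV ![{q | q ∈ T ∧ c + a < y q}, {q | q ∈ T ∧ y q < c - a}] ![p1, p2, p3]
      ?_ ?_ ?_ ?_ ?_ ?_ ?_
    · intro j
      fin_cases j
      · exact fun q hq => hq.1
      · exact fun q hq => hq.1
    · intro j
      fin_cases j
      · exact hup (c + a)
      · exact hdn (c - a)
    · exact hdisj
    · intro j
      fin_cases j
      · exact hp1
      · exact hp2
      · exact hp3
    · intro i j hij
      fin_cases i <;> fin_cases j <;> simp_all
    · have : ∀ t ∈ V, ∀ j, t ∉ (![{q | q ∈ T ∧ c + a < y q}, {q | q ∈ T ∧ y q < c - a}] :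
          Fin 2 → Set ι) j := by
        intro t ht j
        have h1 := (hVE t ht).2.1
        fin_cases j
        · exact hZA t h1
        · exact hZB t h1
      intro i j
      fin_cases i
      · exact this p1 hp1 j
      · exact this p2 hp2 j
      · exact this p3 hp3 j
    · have : ∀ t ∈ V, ∀ j, ∃ f ∈ (![{q | q ∈ T ∧ c + a < y q}, {q | q ∈ T ∧ y q < c - a}] :
          Fin 2 → Set ι) j, adj t f := by
        intro t ht j
        obtain ⟨_, _, ⟨s, hs, hts, h1⟩, ⟨s', hs', hts', h1'⟩⟩ := hVE t ht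
        fin_cases j
        · exact ⟨s, ⟨hs, h1⟩, hts⟩
        · exact ⟨s', ⟨hs', h1'⟩, hts'⟩
      intro i j
      fin_cases i
      · exact this p1 hp1 j
      · exact this p2 hp2 j
      · exact this p3 hp3 j
  obtain ⟨t0, ht0V, ht0F⟩ := hfl
  -- the sets `C j`
  have hCF : ∀ j, nfB Fl adj {t0} j ⊆ Fl := fun j =>
    nfB_sub (by rintro x rfl; exact ht0F) j
  have hCB : ∀ j, nfB Fl adj {t0} j ⊆ nfB T adj V j := fun j =>
    nfB_mono' (fun t ht => ht.1) (by rintro x rfl; exact ht0V) j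
  -- no three exits
  have hno3 : ¬ ∃ e1 ∈ {e | e ∈ Ex ∧ ∃ f ∈ nfB Fl adj {t0} J, adj f e},
      ∃ e2 ∈ {e | e ∈ Ex ∧ ∃ f ∈ nfB Fl adj {t0} J, adj f e},
      ∃ e3 ∈ {e | e ∈ Ex ∧ ∃ f ∈ nfB Fl adj {t0} J, adj f e}, e1 ≠ e2 ∧ e1 ≠ e3 ∧ e2 ≠ e3 := by
    rintro ⟨p1, hp1, p2, hp2, p3, hp3, h12, h13, h23⟩
    have hCA : Disjoint (nfB Fl adj {t0} J) {q | q ∈ T ∧ c + a < y q} := by
      rw [Set.disjoint_left]
      exact fun q hq => hZA q (hCF J hq).2.1
    have hCB' : Disjoint (nfB Fl adj {t0} J) {q | q ∈ T ∧ y q < c - a} := by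
      rw [Set.disjoint_left]
      exact fun q hq => hZB q (hCF J hq).2.1
    refine hKA ![nfB Fl adj {t0} J, {q | q ∈ T ∧ c + a < y q}, {q | q ∈ T ∧ y q < c - a}]
      ![p1, p2, p3] ?_ ?_ ?_ ?_ ?_ ?_ ?_
    · intro j
      fin_cases j
      · exact fun q hq => (hCF J hq).1
      · exact fun q hq => hq.1
      · exact fun q hq => hq.1
    · intro j
      fin_cases j
      · exact nfB_conn hH.symm t0 J
      · exact hup (c + a)
      · exact hdn (c - a)
    · intro j k hjk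
      fin_cases j <;> fin_cases k
      · exact absurd rfl hjk
      · exact hCA
      · exact hCB'
      · exact hCA.symm
      · exact absurd rfl hjk
      · exact hdisj
      · exact hCB'.symm
      · exact hdisj.symm
      · exact absurd rfl hjk
    · intro j
      fin_cases j
      · exact hp1.1.1
      · exact hp2.1.1
      · exact hp3.1.1
    · intro i j hij
      fin_cases i <;> fin_cases j <;> simp_all
    · have : ∀ t ∈ Ex, ∀ j, t ∉ (![nfB Fl adj {t0} J, {q | q ∈ T ∧ c + a < y q},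
          {q | q ∈ T ∧ y q < c - a}] : Fin 3 → Set ι) j := by
        intro t ht j
        fin_cases j
        · exact fun h => hexcl t (hCF J h) ht
        · exact hZA t ht.2.1
        · exact hZB t ht.2.1
      intro i j
      fin_cases i
      · exact this p1 hp1.1 j
      · exact this p2 hp2.1 j
      · exact this p3 hp3.1 j
    · have : ∀ t ∈ {e | e ∈ Ex ∧ ∃ f ∈ nfB Fl adj {t0} J, adj f e}, ∀ j,
          ∃ f ∈ (![nfB Fl adj {t0} J, {q | q ∈ T ∧ c + a < y q},
          {q | q ∈ T ∧ y q < c - a}] : Fin 3 → Set ι) j, adj t f := by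
        rintro t ⟨⟨_, _, ⟨s, hs, hts, h1⟩, ⟨s', hs', hts', h1'⟩⟩, f, hf, hft⟩ j
        fin_cases j
        · exact ⟨f, hf, hH.symm _ _ hft⟩
        · exact ⟨s, ⟨hs, h1⟩, hts⟩
        · exact ⟨s', ⟨hs', h1'⟩, hts'⟩
      intro i j
      fin_cases i
      · exact this p1 hp1 j
      · exact this p2 hp2 j
      · exact this p3 hp3 j
  -- far tiles
  obtain ⟨t1, ht1T, -, ht1⟩ := climb_far hH t0 ht0F.1 (c + a + 1)
  obtain ⟨t2, ht2T, -, ht2⟩ := climb_far hH t0 ht0F.1 (y t1 + 1)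
  obtain ⟨p, q, hpq, hp, hq⟩ := nf_pair _ t1 hno3
  have hxp : ∀ x, (x ∈ {e | e ∈ Ex ∧ ∃ f ∈ nfB Fl adj {t0} J, adj f e} ∨ x = t1) →
      x ∈ T ∧ t0 ≠ x ∧ t2 ≠ x := by
    rintro x (hx | rfl)
    · refine ⟨hx.1.1, ?_, ?_⟩
      · rintro rfl
        exact hexcl t0 ht0F hx.1
      · rintro rfl
        have := hx.1.2.1
        rw [abs_le] at this
        linarith
    · refine ⟨ht1T, ?_, ?_⟩
      · rintro rfl
        have := ht0F.2.1
        rw [abs_le] at this
        linarith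
      · rintro rfl
        linarith
  obtain ⟨hpT, hp0, hp2⟩ := hxp p hp
  obtain ⟨hqT, hq0, hq2⟩ := hxp q hq
  -- descent of ranks
  have hdesc : ∀ n : ℕ, ∀ t j, t ∈ nfB Fl adj {t0} j → ρ t ≤ n → j + n ≤ J →
      ∃ e, e ∈ Ex ∧ (∃ f ∈ nfB Fl adj {t0} (j + n), adj f e) ∧ t ∈ nfB T adj {e} (n + 1) := by
    intro n
    induction n with
    | zero =>
      intro t j ht hρ hj
      have htF := hCF j ht
      obtain ⟨s, hs, hts, hlt⟩ := hH.rk' t htF.1 (hFlH t htF)
      omega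
    | succ n ih =>
      intro t j ht hρ hj
      have htF := hCF j ht
      obtain ⟨s, hs, hts, hlt⟩ := hH.rk' t htF.1 (hFlH t htF)
      have hsB : s ∈ nfB T adj V (J + 1) :=
        nfB_mono (by omega) (nfB_step (hCB j ht) hs hts)
      rcases hdich s hsB (htF.2.2 s hs hts) with h | h
      · obtain ⟨e, he, ⟨f, hf, hfe⟩, hse⟩ := ih s (j + 1) (nfB_step ht h hts) (by omega) (by omega)
        refine ⟨e, he, ⟨f, ?_, hfe⟩, nfB_step hse htF.1 (hH.symm _ _ hts)⟩
        rw [show j + (n + 1) = j + 1 + n by omega]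
        exact hf
      · refine ⟨s, h, ⟨t, nfB_mono (by omega) ht, hts⟩, ?_⟩
        have h1 : t ∈ nfB T adj {s} 1 :=
          nfB_step (j := 0) (show s ∈ ({s} : Set ι) from rfl) htF.1 (hH.symm _ _ hts)
        exact nfB_mono (by omega) h1
  have hCsub : nfB Fl adj {t0} (M + 1) ⊆ nfB T adj {p, q} (D + 1) := by
    intro t ht
    obtain ⟨e, he, ⟨f, hf, hfe⟩, hte⟩ := hdesc D t (M + 1) ht (hH.rk t (hCF _ ht).1) le_rfl
    have hepq : e ∈ ({p, q} : Set ι) := hpq ⟨he, f, hf, hfe⟩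
    exact nfB_mono' Subset.rfl (by rintro x rfl; exact hepq) _ hte
  obtain ⟨hbf, hbc⟩ := nfB_card (N := N) (m := 2) (S := {p, q})
    (by
      rintro x (rfl | rfl)
      · exact hpT
      · exact hqT) ((finite_singleton q).insert p) (ncard_insert_le p {q} |>.trans (by simp))
    hN (D + 1)
  obtain ⟨j, hj, hjj⟩ := nf_stable (fun j => nfB Fl adj {t0} j) (fun j => subset_union_left) M
    (hbf.subset hCsub) ⟨t0, rfl⟩ ((ncard_le_ncard hCsub hbf).trans hbc)
  -- `C j` is closed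
  have hclosed : ∀ x ∈ nfB Fl adj {t0} j, ∀ z, adj x z → z ∈ {r | r ∈ T ∧ r ≠ p ∧ r ≠ q} →
      z ∈ nfB Fl adj {t0} j := by
    rintro x hx z hxz ⟨hzT, hzp, hzq⟩
    have hxF := hCF j hx
    have hzB : z ∈ nfB T adj V (J + 1) :=
      nfB_mono (by omega) (nfB_step (hCB j hx) hzT hxz)
    rcases hdich z hzB (hxF.2.2 z hzT hxz) with h | h
    · have : z ∈ nfB Fl adj {t0} (j + 1) := nfB_step hx h hxz
      rw [← hjj] at this
      exact this
    · have h1 : z ∈ ({p, q} : Set ι) := hpq ⟨h, x, nfB_mono (by omega) hx, hxz⟩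
      rcases h1 with h1 | h1
      · exact absurd h1 hzp
      · exact absurd h1 hzq
  obtain ⟨-, hwalk⟩ := h3c p hpT q hqT t0 ht0F.1 t2 ht2T hp0 hq0 hp2 hq2
  have hwalk' : ∀ z, Relation.ReflTransGen
      (fun x y => adj x y ∧ y ∈ {r | r ∈ T ∧ r ≠ p ∧ r ≠ q}) t0 z → z ∈ nfB Fl adj {t0} j := by
    intro z hz
    induction hz with
    | refl => exact nfB_mono (Nat.zero_le _) rfl
    | tail _ hstep ih => exact hclosed _ ih _ hstep.1 hstep.2
  have hfin : t2 ∈ nfB Fl adj {t0} j := hwalk' t2 hwalk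
  have h1 := (hCF j hfin).2.1
  rw [abs_le] at h1
  linarith

end J26120

alias nonflat_abs := J26120.nonflat_abs

namespace J26668

/-! ### TARGET of this job: seg_avoid -/

theorem seg_avoid {T : Set (Set ℂ)} {u U : ℝ} (h : NC T u U) (O1 O2 : Set ℂ) (h1 : IsOpen O1)
    (h2 : IsOpen O2) (hn1 : O1.Nonempty) (hn2 : O2.Nonempty) :
    ∃ p ∈ O1, ∃ q ∈ O2, ∀ x ∈ segment ℝ p q, ¬ IsVertex T x := by
  have hV := (g_count h).2
  obtain ⟨p, hp1, hpV⟩ : ∃ p ∈ O1, ¬ IsVertex T p := by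
    obtain ⟨p, hp⟩ := (hV.dense_compl ℝ).inter_open_nonempty O1 h1 hn1
    exact ⟨p, hp.1, hp.2⟩
  obtain ⟨q0, hq0, hne⟩ : ∃ q0 ∈ O2, q0 ≠ p := by
    obtain ⟨q, hq⟩ := ((Set.countable_singleton p).dense_compl ℝ).inter_open_nonempty O2 h2 hn2
    exact ⟨q, hq.1, hq.2⟩
  obtain ⟨w, hw⟩ : ∃ w, w = q0 - p := ⟨_, rfl⟩
  have hw0 : w ≠ 0 := by rw [hw]; exact sub_ne_zero.2 hne
  obtain ⟨q, hq⟩ : ∃ q : ℝ → ℂ, q = fun s : ℝ => p + w * (1 + (s : ℂ) * Complex.I) := ⟨_, rfl⟩
  have hqc : Continuous q := by rw [hq]; fun_prop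
  have hq00 : q 0 = q0 := by rw [hq, hw]; simp
  have hsub : ∀ v, IsVertex T v → {s : ℝ | v ∈ segment ℝ p (q s)}.Subsingleton := by
    intro v hv s hs s' hs'
    have hvp : v ≠ p := fun hvp => hpV (hvp ▸ hv)
    change v ∈ segment ℝ p (q s) at hs
    change v ∈ segment ℝ p (q s') at hs'
    rw [segment_eq_image'] at hs hs'
    obtain ⟨t, -, ht⟩ := hs
    obtain ⟨t', -, ht'⟩ := hs'
    simp only [hq, add_sub_cancel_left, Complex.real_smul] at ht ht'
    have e1 : (t : ℂ) * (1 + s * Complex.I) = t' * (1 + s' * Complex.I) := by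
      apply mul_left_cancel₀ hw0
      linear_combination ht - ht'
    have e2 := congrArg Complex.re e1
    have e3 := congrArg Complex.im e1
    simp at e2 e3
    have ht0 : t ≠ 0 := by
      rintro rfl
      apply hvp
      rw [← ht]
      simp
    rw [← e2] at e3
    first
      | exact mul_left_cancel₀ ht0 e3
      | exact (mul_eq_mul_left_iff.1 e3).resolve_right ht0
      | exact e3.resolve_right ht0
  have hbad : {s : ℝ | ∃ x ∈ segment ℝ p (q s), IsVertex T x}.Countable := by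
    have hsubset : {s : ℝ | ∃ x ∈ segment ℝ p (q s), IsVertex T x} ⊆
        ⋃ v ∈ {p | IsVertex T p}, {s : ℝ | v ∈ segment ℝ p (q s)} := by
      rintro s ⟨x, hx, hxV⟩
      rw [Set.mem_iUnion₂]
      exact ⟨x, hxV, hx⟩
    refine Set.Countable.mono hsubset (hV.biUnion fun v hv => ?_)
    exact (hsub v hv).countable
  obtain ⟨s, hs1, hs2⟩ := (hbad.dense_compl ℝ).inter_open_nonempty (q ⁻¹' O2)
    (h2.preimage hqc) ⟨0, by rw [Set.mem_preimage, hq00]; exact hq0⟩
  refine ⟨p, hp1, q s, hs1, fun x hx hxV => hs2 ⟨x, hx, hxV⟩⟩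


end J26668

alias seg_avoid := J26668.seg_avoid

/-- the tiles meeting an open ball -/
def Core (T : Set (Set ℂ)) (c : ℂ) (r : ℝ) : Set (Set ℂ) := {A | A ∈ T ∧ (A ∩ ball c r).Nonempty}

namespace J26667

/-! ### TARGET of this job: core_conn -/

theorem core_conn {T : Set (Set ℂ)} {u U : ℝ} (h : NC T u U) (c : ℂ) (r : ℝ) : Cn Adj (Core T c r) := by
  rintro A ⟨hA, x, hxA, hxb⟩ B ⟨hB, y, hyB, hyb⟩
  have hxcl : x ∈ closure (interior A) := by rw [(g_cl h hA).1]; exact hxA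
  have hycl : y ∈ closure (interior B) := by rw [(g_cl h hB).1]; exact hyB
  have h1 := mem_closure_iff.mp hxcl (ball c r) isOpen_ball hxb
  have h2 := mem_closure_iff.mp hycl (ball c r) isOpen_ball hyb
  obtain ⟨p, ⟨hpb, hpA⟩, q, ⟨hqb, hqB⟩, hpq⟩ := seg_avoid h (ball c r ∩ interior A)
    (ball c r ∩ interior B) (isOpen_ball.inter isOpen_interior)
    (isOpen_ball.inter isOpen_interior) h1 h2
  have hw := g_walk h (segment ℝ p q) (convex_segment p q).isPreconnected hpq hA hB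
    ⟨p, interior_subset hpA, left_mem_segment ℝ p q⟩
    ⟨q, interior_subset hqB, right_mem_segment ℝ p q⟩
  refine jn_mono ?_ hw
  rintro C ⟨hC, z, hzC, hzs⟩
  exact ⟨hC, z, hzC, (convex_ball c r).segment_subset hpb hqb hzs⟩

end J26667

alias core_conn := J26667.core_conn

namespace J26665

/-! ### TARGET of this job: arm_jn -/

theorem arm_jn {T : Set (Set ℂ)} {u U : ℝ} (h : NC T u U) (c c' : ℂ) :
    ∃ A ∈ Core T c 1, ∃ B ∈ Core T c' 1,
      Jn Adj {X | X ∈ T ∧ ∃ y ∈ X, ∃ s ∈ segment ℝ c c', ‖y - s‖ ≤ 1} A B := by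
  obtain ⟨p, hp, q, hq, hv⟩ := seg_avoid h (ball c 1) (ball c' 1) isOpen_ball isOpen_ball
    ⟨c, mem_ball_self one_pos⟩ ⟨c', mem_ball_self one_pos⟩
  obtain ⟨A, hA, hpA⟩ := h.cover p
  obtain ⟨B, hB, hqB⟩ := h.cover q
  refine ⟨A, ⟨hA, p, hpA, hp⟩, B, ⟨hB, q, hqB, hq⟩, ?_⟩
  have hw := g_walk h (segment ℝ p q) (convex_segment p q).isPreconnected hv hA hB
    ⟨p, hpA, left_mem_segment ℝ p q⟩ ⟨q, hqB, right_mem_segment ℝ p q⟩
  refine jn_mono ?_ hw
  rintro C ⟨hC, x, hxC, hx⟩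
  refine ⟨hC, x, hxC, ?_⟩
  obtain ⟨a, b, ha, hb, hab, rfl⟩ := hx
  refine ⟨a • c + b • c', ⟨a, b, ha, hb, hab, rfl⟩, ?_⟩
  have h1 : ‖p - c‖ < 1 := by rw [← dist_eq_norm]; exact hp
  have h2 : ‖q - c'‖ < 1 := by rw [← dist_eq_norm]; exact hq
  have h3 : a • p + b • q - (a • c + b • c') = a • (p - c) + b • (q - c') := by
    rw [smul_sub, smul_sub]; abel
  rw [h3]
  calc ‖a • (p - c) + b • (q - c')‖ ≤ ‖a • (p - c)‖ + ‖b • (q - c')‖ := norm_add_le _ _
    _ = a * ‖p - c‖ + b * ‖q - c'‖ := by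
        rw [norm_smul, norm_smul, Real.norm_of_nonneg ha, Real.norm_of_nonneg hb]
    _ ≤ a * 1 + b * 1 := by
        apply add_le_add
        · exact mul_le_mul_of_nonneg_left h1.le ha
        · exact mul_le_mul_of_nonneg_left h2.le hb
    _ = 1 := by rw [mul_one, mul_one, hab]


end J26665

alias arm_jn := J26665.arm_jn

namespace J26669

/-! ### TARGET of this job: tripod -/

theorem tripod_short {ι : Type} (adj : ι → ι → Prop) (S P : Set ι) (a : ι)
    (h : ∃ m : ℕ, ∃ q : ℕ → ι, q 0 = a ∧ q m ∈ P ∧ (∀ i ≤ m, q i ∈ S) ∧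
      (∀ i < m, adj (q i) (q (i + 1)))) :
    ∃ (q : ℕ → ι) (m : ℕ), q 0 = a ∧ q m ∈ P ∧ (∀ i ≤ m, q i ∈ S) ∧
      (∀ i < m, adj (q i) (q (i + 1))) ∧ (∀ i ≤ m, ∀ j ≤ m, q i = q j → i = j) ∧
      ∀ i < m, q i ∉ P := by
  classical
  set m := Nat.find h with hm
  obtain ⟨q, h0, hP, hS, hA⟩ := Nat.find_spec h
  have hmin : ∀ m' < m, ¬ ∃ q : ℕ → ι, q 0 = a ∧ q m' ∈ P ∧ (∀ i ≤ m', q i ∈ S) ∧
      (∀ i < m', adj (q i) (q (i + 1))) := fun m' hm' => Nat.find_min h hm'
  have key : ∀ i j : ℕ, i < j → j ≤ m → q i = q j → False := by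
    intro i j hij hjm hq
    apply hmin (m - (j - i)) (by omega)
    refine ⟨fun k => if k ≤ i then q k else q (k + (j - i)), ?_, ?_, ?_, ?_⟩
    · show (if 0 ≤ i then q 0 else _) = a
      rw [if_pos (Nat.zero_le i)]; exact h0
    · show (if m - (j - i) ≤ i then q (m - (j - i)) else q (m - (j - i) + (j - i))) ∈ P
      split_ifs with hc
      · have e1 : m - (j - i) = i := by omega
        have e2 : m = j := by omega
        rw [e1, hq, ← e2]; exact hP
      · have e1 : m - (j - i) + (j - i) = m := by omega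
        rw [e1]; exact hP
    · intro k hk
      show (if k ≤ i then q k else q (k + (j - i))) ∈ S
      split_ifs with hc
      · exact hS k (by omega)
      · exact hS _ (by omega)
    · intro k hk
      show adj (if k ≤ i then q k else q (k + (j - i)))
        (if k + 1 ≤ i then q (k + 1) else q (k + 1 + (j - i)))
      by_cases h1 : k + 1 ≤ i
      · rw [if_pos (by omega), if_pos h1]
        exact hA k (by omega)
      · by_cases h2 : k ≤ i
        · have e1 : k = i := by omega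
          have e2 : k + 1 + (j - i) = j + 1 := by omega
          rw [if_pos h2, if_neg h1, e2, e1, hq]
          exact hA j (by omega)
        · rw [if_neg h2, if_neg h1]
          have e2 : k + 1 + (j - i) = k + (j - i) + 1 := by omega
          rw [e2]
          exact hA _ (by omega)
  refine ⟨q, m, h0, hP, hS, hA, ?_, ?_⟩
  · intro i hi j hj hq
    rcases lt_trichotomy i j with hlt | heq | hgt
    · exact (key i j hlt hj hq).elim
    · exact heq
    · exact (key j i hgt hi hq.symm).elim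
  · intro i hi hiP
    exact hmin i hi ⟨q, h0, hiP, fun k hk => hS k (by omega), fun k hk => hA k (by omega)⟩

theorem tripod_walk {ι : Type} {adj : ι → ι → Prop} {S : Set ι} {a b : ι} (h : Jn adj S a b) :
    ∃ m : ℕ, ∃ q : ℕ → ι, q 0 = a ∧ q m = b ∧ (∀ i ≤ m, q i ∈ S) ∧
      (∀ i < m, adj (q i) (q (i + 1))) := by
  obtain ⟨ha, hr⟩ := h
  induction hr with
  | refl => exact ⟨0, fun _ => a, rfl, rfl, fun _ _ => ha, fun i hi => absurd hi (Nat.not_lt_zero i)⟩
  | tail _ hbc ih =>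
    rename_i b' c _
    obtain ⟨m, q, h0, hm, hS, hA⟩ := ih
    refine ⟨m + 1, fun k => if k ≤ m then q k else c, ?_, ?_, ?_, ?_⟩
    · show (if 0 ≤ m then q 0 else c) = a
      rw [if_pos (Nat.zero_le m)]; exact h0
    · show (if m + 1 ≤ m then q (m + 1) else c) = c
      rw [if_neg (by omega)]
    · intro k _
      show (if k ≤ m then q k else c) ∈ S
      split_ifs with hc
      · exact hS k hc
      · exact hbc.2
    · intro k hk
      show adj (if k ≤ m then q k else c) (if k + 1 ≤ m then q (k + 1) else c)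
      by_cases h1 : k + 1 ≤ m
      · rw [if_pos (by omega), if_pos h1]
        exact hA k (by omega)
      · have e : k = m := by omega
        rw [if_pos (by omega), if_neg h1, e, hm]
        exact hbc.1

theorem tripod {ι : Type} (adj : ι → ι → Prop) (hs : ∀ x y, adj x y → adj y x) (S : Set ι)
    (hS : Cn adj S) (v : Fin 3 → ι) (hv : ∀ k, v k ∈ S) (hinj : Function.Injective v) :
    ∃ h ∈ S, ∃ (p : Fin 3 → ℕ → ι) (n : Fin 3 → ℕ),
      (∀ k, p k 0 = h ∧ p k (n k) = v k ∧ (∀ i ≤ n k, p k i ∈ S) ∧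
        (∀ i < n k, adj (p k i) (p k (i + 1))) ∧
        (∀ i ≤ n k, ∀ j ≤ n k, p k i = p k j → i = j)) ∧
      (∀ k k', k ≠ k' → ∀ i ≤ n k, ∀ j ≤ n k', p k i = p k' j → i = 0 ∧ j = 0) := by
  obtain ⟨m₀, q₀, w0, w1, w2, w3⟩ := tripod_walk (hS (v 0) (hv 0) (v 1) (hv 1))
  obtain ⟨P, pm, P0, P1, PS, PA, Pinj, -⟩ := tripod_short adj S {v 1} (v 0) ⟨m₀, q₀, w0, w1, w2, w3⟩
  obtain ⟨m₁, q₁, u0, u1, u2, u3⟩ := tripod_walk (hS (v 2) (hv 2) (v 0) (hv 0))
  obtain ⟨Q, qm, Q0, Q1, QS, QA, Qinj, Qav⟩ := tripod_short adj S {x | ∃ j ≤ pm, P j = x} (v 2)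
    ⟨m₁, q₁, u0, ⟨0, Nat.zero_le _, by rw [u1, P0]⟩, u2, u3⟩
  obtain ⟨j, hj, hjQ⟩ := Q1
  have P1' : P pm = v 1 := P1
  have c01 : ∀ i ≤ j, ∀ i' ≤ pm - j, P (j - i) = P (j + i') → i = 0 ∧ i' = 0 := by
    intro i hi i' hi' he
    have := Pinj (j - i) (by omega) (j + i') (by omega) he
    omega
  have cQ : ∀ a ≤ pm, ∀ i' ≤ qm, P a = Q (qm - i') → i' = 0 ∧ a = j := by
    intro a ha i' hi' he
    have h1 : ¬ (qm - i' < qm) := fun hlt => Qav _ hlt ⟨a, ha, he⟩
    have h2 : i' = 0 := by omega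
    refine ⟨h2, ?_⟩
    rw [h2, Nat.sub_zero, ← hjQ] at he
    exact Pinj a ha j hj he
  have c02 : ∀ i ≤ j, ∀ i' ≤ qm, P (j - i) = Q (qm - i') → i = 0 ∧ i' = 0 := by
    intro i hi i' hi' he
    obtain ⟨h1, h2⟩ := cQ (j - i) (by omega) i' hi' he
    omega
  have c12 : ∀ i ≤ pm - j, ∀ i' ≤ qm, P (j + i) = Q (qm - i') → i = 0 ∧ i' = 0 := by
    intro i hi i' hi' he
    obtain ⟨h1, h2⟩ := cQ (j + i) (by omega) i' hi' he
    omega
  refine ⟨P j, PS j hj, ![fun i => P (j - i), fun i => P (j + i), fun i => Q (qm - i)],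
    ![j, pm - j, qm], ?_, ?_⟩
  · intro k
    fin_cases k
    · show P (j - 0) = P j ∧ P (j - j) = v 0 ∧ (∀ i ≤ j, P (j - i) ∈ S) ∧
        (∀ i < j, adj (P (j - i)) (P (j - (i + 1)))) ∧
        (∀ i ≤ j, ∀ i' ≤ j, P (j - i) = P (j - i') → i = i')
      refine ⟨rfl, by rw [Nat.sub_self, P0], fun i hi => PS _ (by omega), ?_, ?_⟩
      · intro i hi
        have e : j - i = (j - (i + 1)) + 1 := by omega
        rw [e]
        exact hs _ _ (PA _ (by omega))
      · intro i hi i' hi' he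
        have := Pinj _ (by omega) _ (by omega) he
        omega
    · show P (j + 0) = P j ∧ P (j + (pm - j)) = v 1 ∧ (∀ i ≤ pm - j, P (j + i) ∈ S) ∧
        (∀ i < pm - j, adj (P (j + i)) (P (j + (i + 1)))) ∧
        (∀ i ≤ pm - j, ∀ i' ≤ pm - j, P (j + i) = P (j + i') → i = i')
      refine ⟨rfl, ?_, fun i hi => PS _ (by omega), ?_, ?_⟩
      · have e : j + (pm - j) = pm := by omega
        rw [e]; exact P1'
      · intro i hi
        exact PA (j + i) (by omega)
      · intro i hi i' hi' he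
        have := Pinj _ (by omega) _ (by omega) he
        omega
    · show Q (qm - 0) = P j ∧ Q (qm - qm) = v 2 ∧ (∀ i ≤ qm, Q (qm - i) ∈ S) ∧
        (∀ i < qm, adj (Q (qm - i)) (Q (qm - (i + 1)))) ∧
        (∀ i ≤ qm, ∀ i' ≤ qm, Q (qm - i) = Q (qm - i') → i = i')
      refine ⟨hjQ.symm, by rw [Nat.sub_self, Q0], fun i hi => QS _ (by omega), ?_, ?_⟩
      · intro i hi
        have e : qm - i = (qm - (i + 1)) + 1 := by omega
        rw [e]
        exact hs _ _ (QA _ (by omega))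
      · intro i hi i' hi' he
        have := Qinj _ (by omega) _ (by omega) he
        omega
  · intro k k' hk i hi i' hi' he
    fin_cases k <;> fin_cases k'
    · exact absurd rfl hk
    · exact c01 i hi i' hi' he
    · exact c02 i hi i' hi' he
    · exact (c01 i' hi' i hi he.symm).symm
    · exact absurd rfl hk
    · exact c12 i hi i' hi' he
    · exact (c02 i' hi' i hi he.symm).symm
    · exact (c12 i' hi' i hi he.symm).symm
    · exact absurd rfl hk

end J26669

alias tripod := J26669.tripod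

namespace J26666

/-! ### TARGET of this job: arm_path -/

theorem arm_path_aux_640 {ι : Type} (adj : ι → ι → Prop) (S : Set ι) (a b : ι) (ha : a ∈ S)
    (h : Relation.ReflTransGen (fun x y => adj x y ∧ y ∈ S) a b) :
    ∃ (m : ℕ) (q : ℕ → ι), q 0 = a ∧ q m = b ∧ (∀ i ≤ m, q i ∈ S) ∧
      (∀ i < m, adj (q i) (q (i + 1))) := by
  induction h with
  | refl => exact ⟨0, fun _ => a, rfl, rfl, fun _ _ => ha, fun i hi => absurd hi (Nat.not_lt_zero i)⟩
  | @tail b' c _ hbc ih =>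
    obtain ⟨m, q, h0, hm, hS, hadj⟩ := ih
    refine ⟨m + 1, fun i => if i ≤ m then q i else c, ?_, ?_, ?_, ?_⟩
    · simp [h0]
    · simp
    · intro i hi
      by_cases h : i ≤ m
      · simp only [h, if_true]
        exact hS i h
      · simp only [h, if_false]
        exact hbc.2
    · intro i hi
      by_cases h : i < m
      · have h1 : i ≤ m := h.le
        have h2 : i + 1 ≤ m := h
        simp only [h1, h2, if_true]
        exact hadj i h
      · have h1 : i = m := by omega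
        subst h1
        have h2 : ¬ (i + 1 ≤ i) := by omega
        simp only [le_refl, h2, if_true, if_false]
        rw [hm]
        exact hbc.1

theorem arm_path {ι : Type} (adj : ι → ι → Prop) (S C1 C2 : Set ι)
    (hd : Disjoint C1 C2) (a b : ι) (ha : a ∈ C1) (hb : b ∈ C2) (hj : Jn adj S a b) :
    ∃ (q : ℕ → ι) (m : ℕ), 1 ≤ m ∧ q 0 ∈ C1 ∧ q m ∈ C2 ∧ (∀ i ≤ m, q i ∈ S) ∧
      (∀ i < m, adj (q i) (q (i + 1))) ∧ (∀ i, 0 < i → i < m → q i ∉ C1 ∧ q i ∉ C2) ∧
      (∀ i ≤ m, ∀ j ≤ m, q i = q j → i = j) := by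
  classical
  have hex : ∃ m : ℕ, ∃ q : ℕ → ι, q 0 ∈ C1 ∧ q m ∈ C2 ∧ (∀ i ≤ m, q i ∈ S) ∧
      (∀ i < m, adj (q i) (q (i + 1))) := by
    obtain ⟨m, q, h0, hm, h3, h4⟩ := arm_path_aux_640 adj S a b hj.1 hj.2
    exact ⟨m, q, by rw [h0]; exact ha, by rw [hm]; exact hb, h3, h4⟩
  have hmin := fun (k : ℕ) (hk : k < Nat.find hex) => Nat.find_min hex hk
  obtain ⟨q, h0, hm, hS, hadj⟩ := Nat.find_spec hex
  generalize Nat.find hex = m at hmin h0 hm hS hadj
  have hinj : ∀ i ≤ m, ∀ j ≤ m, i < j → q i ≠ q j := by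
    intro i hi j hj' hij he
    refine hmin (m - (j - i)) (by omega)
      ⟨fun k => if k ≤ i then q k else q (k + (j - i)), ?_, ?_, ?_, ?_⟩
    · simp only [Nat.zero_le, if_true]
      exact h0
    · by_cases h : m - (j - i) ≤ i
      · simp only [h, if_true]
        have e1 : m - (j - i) = i := by omega
        have e2 : j = m := by omega
        rw [e1, he, e2]
        exact hm
      · simp only [h, if_false]
        have e1 : m - (j - i) + (j - i) = m := by omega
        rw [e1]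
        exact hm
    · intro k hk
      by_cases h : k ≤ i
      · simp only [h, if_true]
        exact hS k (by omega)
      · simp only [h, if_false]
        exact hS _ (by omega)
    · intro k hk
      by_cases h : k ≤ i
      · by_cases h' : k + 1 ≤ i
        · simp only [h, h', if_true]
          exact hadj k (by omega)
        · have e1 : k = i := by omega
          subst e1
          simp only [le_refl, h', if_true, if_false]
          rw [he]
          have e2 : k + 1 + (j - k) = j + 1 := by omega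
          rw [e2]
          exact hadj j (by omega)
      · have h' : ¬ (k + 1 ≤ i) := by omega
        simp only [h, h', if_false]
        have e2 : k + 1 + (j - i) = k + (j - i) + 1 := by omega
        rw [e2]
        exact hadj _ (by omega)
  refine ⟨q, m, ?_, h0, hm, hS, hadj, ?_, ?_⟩
  · rcases Nat.eq_zero_or_pos m with h | h
    · subst h
      exact absurd hm (Set.disjoint_left.1 hd h0)
    · exact h
  · intro i hi0 him
    refine ⟨fun hc => ?_, fun hc => ?_⟩
    · refine hmin (m - i) (by omega) ⟨fun k => q (i + k), ?_, ?_, ?_, ?_⟩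
      · simpa using hc
      · have e : i + (m - i) = m := by omega
        simp only [e]
        exact hm
      · intro k hk
        exact hS _ (by omega)
      · intro k hk
        have := hadj (i + k) (by omega)
        exact this
    · exact hmin i him ⟨q, h0, hc, fun k hk => hS k (by omega), fun k hk => hadj k (by omega)⟩
  · intro i hi j hj' he
    rcases lt_trichotomy i j with h | h | h
    · exact absurd he (hinj i hi j hj' h)
    · exact h
    · exact absurd he.symm (hinj j hj' i hi h)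

end J26666

alias arm_path := J26666.arm_path

/-- the three directions -/
noncomputable def dir (k : Fin 3) : ℂ := ![1, ⟨-1/2, √3/2⟩, ⟨-1/2, -(√3/2)⟩] k

/-- the first sublattice of the hexagonal lattice -/
noncomputable def PA (R : ℝ) (a : ℤ × ℤ) : ℂ :=
  (R : ℂ) * ((a.1 : ℂ) * (dir 0 - dir 1) + (a.2 : ℂ) * (dir 0 - dir 2))

/-- the second sublattice of the hexagonal lattice -/
noncomputable def PB (R : ℝ) (a : ℤ × ℤ) : ℂ := PA R a + R

/-- the three neighbours -/
def nb (a : ℤ × ℤ) (k : Fin 3) : ℤ × ℤ := ![a, (a.1 - 1, a.2), (a.1, a.2 - 1)] k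

namespace J26670

/-! ### TARGET of this job: hex_nb -/

theorem hex_nb (R : ℝ) (a : ℤ × ℤ) (k : Fin 3) : PB R (nb a k) = PA R a + R * dir k := by
  have d0 : dir 0 = 1 := rfl
  fin_cases k
  · show PB R a = PA R a + R * dir 0
    unfold PB
    rw [d0, mul_one]
  · show PB R (a.1 - 1, a.2) = PA R a + R * dir 1
    unfold PB PA
    rw [d0]
    push_cast
    ring
  · show PB R (a.1, a.2 - 1) = PA R a + R * dir 2
    unfold PB PA
    rw [d0]
    push_cast
    ring

end J26670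

alias hex_nb := J26670.hex_nb

namespace J26672

/-! ### TARGET of this job: hex_sep -/

theorem hex_sep_PA (R : ℝ) (a : ℤ × ℤ) :
    PA R a = ⟨R * (3 / 2) * (a.1 + a.2), R * (√3 / 2) * (a.2 - a.1)⟩ := by
  unfold PA dir
  apply Complex.ext
  · simp
    ring
  · simp
    ring

theorem hex_sep_le (R : ℝ) (hR : 0 < R) (z : ℂ) (q : ℤ) (hq : 1 ≤ q)
    (h : z.re ^ 2 + z.im ^ 2 = R ^ 2 * q) : R ≤ ‖z‖ := by
  have h1 : ‖z‖ ^ 2 = z.re ^ 2 + z.im ^ 2 := by
    rw [← Complex.normSq_eq_norm_sq, Complex.normSq_apply]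
    ring
  have h2 : (1 : ℝ) ≤ q := by exact_mod_cast hq
  have h3 : R ^ 2 ≤ ‖z‖ ^ 2 := by
    rw [h1, h]
    have := sq_nonneg R
    nlinarith
  by_contra hc
  push Not at hc
  have := norm_nonneg z
  nlinarith

theorem hex_sep_sqrt : (√3 : ℝ) ^ 2 = 3 := Real.sq_sqrt (by norm_num)

theorem hex_sep_aux (R : ℝ) (hR : 0 < R) (a b : ℤ × ℤ) (hab : a ≠ b) :
    R ≤ ‖PA R a - PA R b‖ := by
  have h3 := hex_sep_sqrt
  refine hex_sep_le R hR _ (3 * ((a.1 - b.1) ^ 2 + (a.1 - b.1) * (a.2 - b.2) + (a.2 - b.2) ^ 2)) ?_ ?_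
  · have h1 : a.1 - b.1 ≠ 0 ∨ a.2 - b.2 ≠ 0 := by
      by_contra hc
      push Not at hc
      exact hab (Prod.ext (by linarith [hc.1]) (by linarith [hc.2]))
    set i : ℤ := a.1 - b.1
    set j : ℤ := a.2 - b.2
    have h2 : 0 < i ^ 2 + i * j + j ^ 2 := by
      rcases h1 with h1 | h1
      · have h4 : 0 < i ^ 2 := by positivity
        nlinarith [sq_nonneg (i + 2 * j)]
      · have h4 : 0 < j ^ 2 := by positivity
        nlinarith [sq_nonneg (2 * i + j)]
    omega
  · rw [hex_sep_PA, hex_sep_PA, Complex.sub_re, Complex.sub_im]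
    push_cast
    ring_nf
    rw [h3]
    ring

theorem hex_sep (R : ℝ) (hR : 0 < R) :
    (∀ a b, a ≠ b → R ≤ ‖PA R a - PA R b‖) ∧ (∀ a b, a ≠ b → R ≤ ‖PB R a - PB R b‖) ∧
      (∀ a b, R ≤ ‖PA R a - PB R b‖) := by
  refine ⟨fun a b hab => hex_sep_aux R hR a b hab, fun a b hab => ?_, fun a b => ?_⟩
  · have : PB R a - PB R b = PA R a - PA R b := by
      unfold PB
      ring
    rw [this]
    exact hex_sep_aux R hR a b hab
  · have h3 := hex_sep_sqrt
    refine hex_sep_le R hR _ (3 * ((a.1 - b.1) ^ 2 + (a.1 - b.1) * (a.2 - b.2) + (a.2 - b.2) ^ 2 -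
      (a.1 - b.1) - (a.2 - b.2)) + 1) ?_ ?_
    · set i : ℤ := a.1 - b.1
      set j : ℤ := a.2 - b.2
      have h4 : 0 ≤ 4 * (3 * (i ^ 2 + i * j + j ^ 2 - i - j) + 1) := by
        nlinarith [sq_nonneg (3 * (i + j) - 2), sq_nonneg (j - i)]
      omega
    · unfold PB
      rw [hex_sep_PA, hex_sep_PA, Complex.sub_re, Complex.sub_im, Complex.add_re, Complex.add_im,
        Complex.ofReal_re, Complex.ofReal_im]
      push_cast
      ring_nf
      rw [h3]
      ring

end J26672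

alias hex_sep := J26672.hex_sep

namespace J26671

/-! ### TARGET of this job: hex_cov -/

theorem hex_cov_re (R : ℝ) (a b : ℤ) : (PA R (a, b)).re = R * (3 / 2 * ((a : ℝ) + b)) := by
  have h0 : dir 0 = 1 := rfl
  have h1 : dir 1 = ⟨-1/2, √3/2⟩ := rfl
  have h2 : dir 2 = ⟨-1/2, -(√3/2)⟩ := rfl
  unfold PA
  rw [h0, h1, h2]
  simp
  ring_nf
  simp

theorem hex_cov_im (R : ℝ) (a b : ℤ) : (PA R (a, b)).im = R * (√3 / 2 * ((b : ℝ) - a)) := by
  have h0 : dir 0 = 1 := rfl
  have h1 : dir 1 = ⟨-1/2, √3/2⟩ := rfl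
  have h2 : dir 2 = ⟨-1/2, -(√3/2)⟩ := rfl
  unfold PA
  rw [h0, h1, h2]
  simp
  ring_nf
  simp

theorem hex_cov (R : ℝ) (hR : 0 < R) (z : ℂ) : ∃ a, ‖z - PA R a‖ ≤ 2 * R := by
  have h3 : (0 : ℝ) < √3 := Real.sqrt_pos.mpr (by norm_num)
  have h33 : √3 ^ 2 = (3 : ℝ) := Real.sq_sqrt (by norm_num)
  obtain ⟨s, hs⟩ : ∃ s : ℝ, s = (2 * z.re / (3 * R) - 2 * z.im / (√3 * R)) / 2 := ⟨_, rfl⟩
  obtain ⟨t, ht⟩ : ∃ t : ℝ, t = (2 * z.re / (3 * R) + 2 * z.im / (√3 * R)) / 2 := ⟨_, rfl⟩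
  have hre : z.re = R * (3 / 2 * (s + t)) := by
    rw [hs, ht]; field_simp; ring
  have him : z.im = R * (√3 / 2 * (t - s)) := by
    rw [hs, ht]; field_simp; ring
  refine ⟨(round s, round t), ?_⟩
  have ha := abs_le.mp (abs_sub_round s)
  have hb := abs_le.mp (abs_sub_round t)
  obtain ⟨α, hα⟩ : ∃ α : ℝ, α = s - round s := ⟨_, rfl⟩
  obtain ⟨β, hβ⟩ : ∃ β : ℝ, β = t - round t := ⟨_, rfl⟩
  rw [← hα] at ha
  rw [← hβ] at hb
  have h1 : (z - PA R (round s, round t)).re = R * (3 / 2 * (α + β)) := by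
    rw [Complex.sub_re, hex_cov_re, hre, hα, hβ]; ring
  have h2 : (z - PA R (round s, round t)).im = R * (√3 / 2 * (β - α)) := by
    rw [Complex.sub_im, hex_cov_im, him, hα, hβ]; ring
  apply abs_le_of_sq_le_sq' _ (by positivity) |>.2
  rw [Complex.sq_norm, Complex.normSq_apply, h1, h2]
  have h4 : R * (3 / 2 * (α + β)) * (R * (3 / 2 * (α + β))) +
      R * (√3 / 2 * (β - α)) * (R * (√3 / 2 * (β - α))) =
      R ^ 2 * (9 / 4 * (α + β) ^ 2 + √3 ^ 2 / 4 * (β - α) ^ 2) := by ring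
  rw [h4, h33]
  have h5 : 9 / 4 * (α + β) ^ 2 + 3 / 4 * (β - α) ^ 2 ≤ 4 := by nlinarith
  nlinarith [sq_nonneg R]

end J26671

alias hex_cov := J26671.hex_cov

namespace J26675

/-! ### TARGET of this job: hex_node -/

theorem hn_d0 : dir 0 = 1 := by simp [dir]
theorem hn_d1 : dir 1 = ⟨-1/2, √3/2⟩ := by simp [dir]
theorem hn_d2 : dir 2 = ⟨-1/2, -(√3/2)⟩ := by simp [dir]

theorem hn_norm (k : Fin 3) : ‖dir k‖ = 1 := by
  have h3 : √3 ^ 2 = 3 := Real.sq_sqrt (by norm_num)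
  have h : ‖dir k‖ ^ 2 = 1 := by
    rw [Complex.sq_norm, Complex.normSq_apply]
    fin_cases k
    · change (dir 0).re * (dir 0).re + (dir 0).im * (dir 0).im = 1
      rw [hn_d0]
      simp
    · change (dir 1).re * (dir 1).re + (dir 1).im * (dir 1).im = 1
      rw [hn_d1]
      change (-1/2 : ℝ) * (-1/2) + √3/2 * (√3/2) = 1
      nlinarith
    · change (dir 2).re * (dir 2).re + (dir 2).im * (dir 2).im = 1
      rw [hn_d2]
      change (-1/2 : ℝ) * (-1/2) + (-(√3/2)) * (-(√3/2)) = 1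
      nlinarith
  have h0 : 0 ≤ ‖dir k‖ := norm_nonneg _
  nlinarith

theorem le_of_sq_le_sq_hn {x y : ℝ} (h : x ^ 2 ≤ y ^ 2) (hy : 0 ≤ y) : x ≤ y := by
  by_contra hlt
  push Not at hlt
  nlinarith

theorem hn_lat (R : ℝ) (hR : 0 < R) (a b : ℤ × ℤ) (h : b ≠ a) :
    3 / 2 * R ≤ ‖PA R a - PA R b‖ := by
  have h3 : √3 ^ 2 = 3 := Real.sq_sqrt (by norm_num)
  have hre : (PA R a - PA R b).re =
      R * (3 / 2 * (((a.1 - b.1 : ℤ) : ℝ) + ((a.2 - b.2 : ℤ) : ℝ))) := by
    unfold PA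
    rw [hn_d0, hn_d1, hn_d2]
    simp only [Complex.sub_re, Complex.mul_re, Complex.add_re, Complex.ofReal_re,
      Complex.ofReal_im, Complex.intCast_re, Complex.intCast_im, Complex.one_re, zero_mul, sub_zero]
    push_cast
    ring
  have him : (PA R a - PA R b).im =
      R * (√3 / 2 * (((a.2 - b.2 : ℤ) : ℝ) - ((a.1 - b.1 : ℤ) : ℝ))) := by
    unfold PA
    rw [hn_d0, hn_d1, hn_d2]
    simp only [Complex.sub_im, Complex.mul_im, Complex.add_im, Complex.ofReal_re,
      Complex.ofReal_im, Complex.intCast_re, Complex.intCast_im, Complex.one_im, zero_mul,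
      Complex.sub_re, Complex.mul_re, Complex.add_re, add_zero]
    push_cast
    ring
  have hint : (1 : ℤ) ≤ (a.1 - b.1) ^ 2 + (a.1 - b.1) * (a.2 - b.2) + (a.2 - b.2) ^ 2 := by
    by_contra hlt
    have h1 : (a.1 - b.1) ^ 2 + (a.1 - b.1) * (a.2 - b.2) + (a.2 - b.2) ^ 2 ≤ 0 := by omega
    have h2 : (a.1 - b.1) = 0 := by nlinarith [sq_nonneg (a.1 - b.1 + 2 * (a.2 - b.2)), sq_nonneg (a.1 - b.1)]
    have h4 : (a.2 - b.2) = 0 := by nlinarith [sq_nonneg (a.2 - b.2 + 2 * (a.1 - b.1)), sq_nonneg (a.2 - b.2)]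
    apply h
    exact Prod.ext (by omega) (by omega)
  have hintR : (1 : ℝ) ≤ ((a.1 - b.1 : ℤ) : ℝ) ^ 2 + ((a.1 - b.1 : ℤ) : ℝ) * ((a.2 - b.2 : ℤ) : ℝ)
      + ((a.2 - b.2 : ℤ) : ℝ) ^ 2 := by exact_mod_cast hint
  have hsq : (3 / 2 * R) ^ 2 ≤ ‖PA R a - PA R b‖ ^ 2 := by
    rw [Complex.sq_norm, Complex.normSq_apply, hre, him]
    generalize ((a.1 - b.1 : ℤ) : ℝ) = x at *
    generalize ((a.2 - b.2 : ℤ) : ℝ) = y at *
    have e : R * (3 / 2 * (x + y)) * (R * (3 / 2 * (x + y))) +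
        R * (√3 / 2 * (y - x)) * (R * (√3 / 2 * (y - x))) =
        R ^ 2 * (9 / 4 * (x + y) ^ 2 + √3 ^ 2 / 4 * (y - x) ^ 2) := by ring
    rw [e, h3]
    have hR2 : 0 < R ^ 2 := by positivity
    have h5 : (9 / 4 : ℝ) ≤ 9 / 4 * (x + y) ^ 2 + 3 / 4 * (y - x) ^ 2 := by nlinarith
    nlinarith
  exact le_of_sq_le_sq_hn hsq (norm_nonneg _)

theorem hex_node (R : ℝ) (hR : 0 < R) (a : ℤ × ℤ) (k : Fin 3) (y : ℂ)
    (hy : y ∈ segment ℝ (PA R a) (PB R (nb a k))) :
    (∀ b, b ≠ a → R / 2 ≤ ‖y - PA R b‖) ∧ (∀ b, b ≠ nb a k → R / 2 ≤ ‖y - PB R b‖) := by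
  have hn := hex_nb R a k
  obtain ⟨α, β, hα, hβ, hαβ, rfl⟩ := hy
  have hdn : ‖(R : ℂ) * dir k‖ = R := by
    rw [norm_mul, hn_norm, mul_one, Complex.norm_real, Real.norm_of_nonneg hR.le]
  constructor
  · intro b hb
    have e : α • PA R a + β • PB R (nb a k) - PA R b =
        (PA R a - PA R b) - (-(β • ((R : ℂ) * dir k))) := by
      rw [hn, smul_add]
      have : α • PA R a + β • PA R a = PA R a := by rw [← add_smul, hαβ, one_smul]
      linear_combination this
    rw [e]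
    have h1 := norm_sub_norm_le (PA R a - PA R b) (-(β • ((R : ℂ) * dir k)))
    have h2 : ‖-(β • ((R : ℂ) * dir k))‖ = β * R := by
      rw [norm_neg, norm_smul, hdn, Real.norm_of_nonneg hβ]
    have h3 := hn_lat R hR a b hb
    have h4 : β * R ≤ R := by nlinarith
    rw [h2] at h1
    linarith
  · intro b hb
    have e : α • PA R a + β • PB R (nb a k) - PB R b =
        (PA R (nb a k) - PA R b) - (α • ((R : ℂ) * dir k)) := by
      have h1 : PA R a = PB R (nb a k) - (R : ℂ) * dir k := by rw [hn]; ring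
      rw [h1, smul_sub]
      have h2 : α • PB R (nb a k) + β • PB R (nb a k) = PB R (nb a k) := by
        rw [← add_smul, hαβ, one_smul]
      have h3 : PB R (nb a k) = PA R (nb a k) + R := rfl
      have h4 : PB R b = PA R b + R := rfl
      linear_combination h2 + h3 - h4
    rw [e]
    have h1 := norm_sub_norm_le (PA R (nb a k) - PA R b) (α • ((R : ℂ) * dir k))
    have h2 : ‖α • ((R : ℂ) * dir k)‖ = α * R := by
      rw [norm_smul, hdn, Real.norm_of_nonneg hα]
    have h3 := hn_lat R hR (nb a k) b hb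
    have h4 : α * R ≤ R := by nlinarith
    rw [h2] at h1
    linarith

end J26675

alias hex_node := J26675.hex_node

namespace J26673

/-! ### TARGET of this job: hex_seg -/

theorem hex_seg_00 (i j : ℤ) (s s' η : ℝ) (hs0 : 0 ≤ s) (hs1 : s ≤ 1) (hs0' : 0 ≤ s')
    (hs1' : s' ≤ 1) (hη : η ≤ 1 / 10) (h01 : |(2 * (i:ℝ) + (j:ℝ)) + 1 * s + -1 * s'| ≤ η)
    (h02 : |((i:ℝ) + 2 * (j:ℝ)) + 1 * s + -1 * s'| ≤ η)
    (h12 : |((j:ℝ) - (i:ℝ)) + 0 * s + 0 * s'| ≤ η) :
    i = 0 ∧ j = 0 := by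
  obtain ⟨h01a, h01b⟩ := abs_le.1 h01
  have h01c : 2 * i + j ≤ 1 := by
    by_contra hcon
    push Not at hcon
    have hcon' : ((1 : ℤ) : ℝ) + 1 ≤ ((2 * i + j : ℤ) : ℝ) := by exact_mod_cast hcon
    push_cast at hcon'
    linarith
  have h01d : -1 ≤ 2 * i + j := by
    by_contra hcon
    push Not at hcon
    have hcon' : ((2 * i + j : ℤ) : ℝ) + 1 ≤ ((-1 : ℤ) : ℝ) := by exact_mod_cast hcon
    push_cast at hcon'
    linarith
  obtain ⟨h02a, h02b⟩ := abs_le.1 h02
  have h02c : i + 2 * j ≤ 1 := by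
    by_contra hcon
    push Not at hcon
    have hcon' : ((1 : ℤ) : ℝ) + 1 ≤ ((i + 2 * j : ℤ) : ℝ) := by exact_mod_cast hcon
    push_cast at hcon'
    linarith
  have h02d : -1 ≤ i + 2 * j := by
    by_contra hcon
    push Not at hcon
    have hcon' : ((i + 2 * j : ℤ) : ℝ) + 1 ≤ ((-1 : ℤ) : ℝ) := by exact_mod_cast hcon
    push_cast at hcon'
    linarith
  obtain ⟨h12a, h12b⟩ := abs_le.1 h12
  have h12c : j - i ≤ 0 := by
    by_contra hcon
    push Not at hcon
    have hcon' : ((0 : ℤ) : ℝ) + 1 ≤ ((j - i : ℤ) : ℝ) := by exact_mod_cast hcon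
    push_cast at hcon'
    linarith
  have h12d : 0 ≤ j - i := by
    by_contra hcon
    push Not at hcon
    have hcon' : ((j - i : ℤ) : ℝ) + 1 ≤ ((0 : ℤ) : ℝ) := by exact_mod_cast hcon
    push_cast at hcon'
    linarith
  constructor <;> omega

theorem hex_seg_01 (i j : ℤ) (s s' η : ℝ) (hs0 : 0 ≤ s) (hs1 : s ≤ 1) (hs0' : 0 ≤ s')
    (hs1' : s' ≤ 1) (hη : η ≤ 1 / 10) (h01 : |(2 * (i:ℝ) + (j:ℝ)) + 1 * s + 1 * s'| ≤ η)
    (h02 : |((i:ℝ) + 2 * (j:ℝ)) + 1 * s + 0 * s'| ≤ η)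
    (h12 : |((j:ℝ) - (i:ℝ)) + 0 * s + -1 * s'| ≤ η) :
    (i = 0 ∧ j = 0 ∧ s ≤ η) ∨ (i = -1 ∧ j = 0 ∧ 1 - s ≤ η) := by
  obtain ⟨h01a, h01b⟩ := abs_le.1 h01
  have h01c : 2 * i + j ≤ 0 := by
    by_contra hcon
    push Not at hcon
    have hcon' : ((0 : ℤ) : ℝ) + 1 ≤ ((2 * i + j : ℤ) : ℝ) := by exact_mod_cast hcon
    push_cast at hcon'
    linarith
  have h01d : -2 ≤ 2 * i + j := by
    by_contra hcon
    push Not at hcon
    have hcon' : ((2 * i + j : ℤ) : ℝ) + 1 ≤ ((-2 : ℤ) : ℝ) := by exact_mod_cast hcon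
    push_cast at hcon'
    linarith
  obtain ⟨h02a, h02b⟩ := abs_le.1 h02
  have h02c : i + 2 * j ≤ 0 := by
    by_contra hcon
    push Not at hcon
    have hcon' : ((0 : ℤ) : ℝ) + 1 ≤ ((i + 2 * j : ℤ) : ℝ) := by exact_mod_cast hcon
    push_cast at hcon'
    linarith
  have h02d : -1 ≤ i + 2 * j := by
    by_contra hcon
    push Not at hcon
    have hcon' : ((i + 2 * j : ℤ) : ℝ) + 1 ≤ ((-1 : ℤ) : ℝ) := by exact_mod_cast hcon
    push_cast at hcon'
    linarith
  obtain ⟨h12a, h12b⟩ := abs_le.1 h12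
  have h12c : j - i ≤ 1 := by
    by_contra hcon
    push Not at hcon
    have hcon' : ((1 : ℤ) : ℝ) + 1 ≤ ((j - i : ℤ) : ℝ) := by exact_mod_cast hcon
    push_cast at hcon'
    linarith
  have h12d : 0 ≤ j - i := by
    by_contra hcon
    push Not at hcon
    have hcon' : ((j - i : ℤ) : ℝ) + 1 ≤ ((0 : ℤ) : ℝ) := by exact_mod_cast hcon
    push_cast at hcon'
    linarith
  have hor : (i = 0 ∧ j = 0) ∨ (i = -1 ∧ j = 0) := by omega
  rcases hor with ⟨hi, hj⟩ | ⟨hi, hj⟩
  · subst hi hj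
    refine Or.inl ⟨rfl, rfl, ?_⟩
    push_cast at *
    linarith
  · subst hi hj
    refine Or.inr ⟨rfl, rfl, ?_⟩
    push_cast at *
    linarith

theorem hex_seg_02 (i j : ℤ) (s s' η : ℝ) (hs0 : 0 ≤ s) (hs1 : s ≤ 1) (hs0' : 0 ≤ s')
    (hs1' : s' ≤ 1) (hη : η ≤ 1 / 10) (h01 : |(2 * (i:ℝ) + (j:ℝ)) + 1 * s + 0 * s'| ≤ η)
    (h02 : |((i:ℝ) + 2 * (j:ℝ)) + 1 * s + 1 * s'| ≤ η)
    (h12 : |((j:ℝ) - (i:ℝ)) + 0 * s + 1 * s'| ≤ η) :
    (i = 0 ∧ j = 0 ∧ s ≤ η) ∨ (i = 0 ∧ j = -1 ∧ 1 - s ≤ η) := by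
  obtain ⟨h01a, h01b⟩ := abs_le.1 h01
  have h01c : 2 * i + j ≤ 0 := by
    by_contra hcon
    push Not at hcon
    have hcon' : ((0 : ℤ) : ℝ) + 1 ≤ ((2 * i + j : ℤ) : ℝ) := by exact_mod_cast hcon
    push_cast at hcon'
    linarith
  have h01d : -1 ≤ 2 * i + j := by
    by_contra hcon
    push Not at hcon
    have hcon' : ((2 * i + j : ℤ) : ℝ) + 1 ≤ ((-1 : ℤ) : ℝ) := by exact_mod_cast hcon
    push_cast at hcon'
    linarith
  obtain ⟨h02a, h02b⟩ := abs_le.1 h02
  have h02c : i + 2 * j ≤ 0 := by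
    by_contra hcon
    push Not at hcon
    have hcon' : ((0 : ℤ) : ℝ) + 1 ≤ ((i + 2 * j : ℤ) : ℝ) := by exact_mod_cast hcon
    push_cast at hcon'
    linarith
  have h02d : -2 ≤ i + 2 * j := by
    by_contra hcon
    push Not at hcon
    have hcon' : ((i + 2 * j : ℤ) : ℝ) + 1 ≤ ((-2 : ℤ) : ℝ) := by exact_mod_cast hcon
    push_cast at hcon'
    linarith
  obtain ⟨h12a, h12b⟩ := abs_le.1 h12
  have h12c : j - i ≤ 0 := by
    by_contra hcon
    push Not at hcon
    have hcon' : ((0 : ℤ) : ℝ) + 1 ≤ ((j - i : ℤ) : ℝ) := by exact_mod_cast hcon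
    push_cast at hcon'
    linarith
  have h12d : -1 ≤ j - i := by
    by_contra hcon
    push Not at hcon
    have hcon' : ((j - i : ℤ) : ℝ) + 1 ≤ ((-1 : ℤ) : ℝ) := by exact_mod_cast hcon
    push_cast at hcon'
    linarith
  have hor : (i = 0 ∧ j = 0) ∨ (i = 0 ∧ j = -1) := by omega
  rcases hor with ⟨hi, hj⟩ | ⟨hi, hj⟩
  · subst hi hj
    refine Or.inl ⟨rfl, rfl, ?_⟩
    push_cast at *
    linarith
  · subst hi hj
    refine Or.inr ⟨rfl, rfl, ?_⟩
    push_cast at *
    linarith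

theorem hex_seg_10 (i j : ℤ) (s s' η : ℝ) (hs0 : 0 ≤ s) (hs1 : s ≤ 1) (hs0' : 0 ≤ s')
    (hs1' : s' ≤ 1) (hη : η ≤ 1 / 10) (h01 : |(2 * (i:ℝ) + (j:ℝ)) + -1 * s + -1 * s'| ≤ η)
    (h02 : |((i:ℝ) + 2 * (j:ℝ)) + 0 * s + -1 * s'| ≤ η)
    (h12 : |((j:ℝ) - (i:ℝ)) + 1 * s + 0 * s'| ≤ η) :
    (i = 0 ∧ j = 0 ∧ s ≤ η) ∨ (i = 1 ∧ j = 0 ∧ 1 - s ≤ η) := by
  obtain ⟨h01a, h01b⟩ := abs_le.1 h01
  have h01c : 2 * i + j ≤ 2 := by
    by_contra hcon
    push Not at hcon
    have hcon' : ((2 : ℤ) : ℝ) + 1 ≤ ((2 * i + j : ℤ) : ℝ) := by exact_mod_cast hcon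
    push_cast at hcon'
    linarith
  have h01d : 0 ≤ 2 * i + j := by
    by_contra hcon
    push Not at hcon
    have hcon' : ((2 * i + j : ℤ) : ℝ) + 1 ≤ ((0 : ℤ) : ℝ) := by exact_mod_cast hcon
    push_cast at hcon'
    linarith
  obtain ⟨h02a, h02b⟩ := abs_le.1 h02
  have h02c : i + 2 * j ≤ 1 := by
    by_contra hcon
    push Not at hcon
    have hcon' : ((1 : ℤ) : ℝ) + 1 ≤ ((i + 2 * j : ℤ) : ℝ) := by exact_mod_cast hcon
    push_cast at hcon'
    linarith
  have h02d : 0 ≤ i + 2 * j := by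
    by_contra hcon
    push Not at hcon
    have hcon' : ((i + 2 * j : ℤ) : ℝ) + 1 ≤ ((0 : ℤ) : ℝ) := by exact_mod_cast hcon
    push_cast at hcon'
    linarith
  obtain ⟨h12a, h12b⟩ := abs_le.1 h12
  have h12c : j - i ≤ 0 := by
    by_contra hcon
    push Not at hcon
    have hcon' : ((0 : ℤ) : ℝ) + 1 ≤ ((j - i : ℤ) : ℝ) := by exact_mod_cast hcon
    push_cast at hcon'
    linarith
  have h12d : -1 ≤ j - i := by
    by_contra hcon
    push Not at hcon
    have hcon' : ((j - i : ℤ) : ℝ) + 1 ≤ ((-1 : ℤ) : ℝ) := by exact_mod_cast hcon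
    push_cast at hcon'
    linarith
  have hor : (i = 0 ∧ j = 0) ∨ (i = 1 ∧ j = 0) := by omega
  rcases hor with ⟨hi, hj⟩ | ⟨hi, hj⟩
  · subst hi hj
    refine Or.inl ⟨rfl, rfl, ?_⟩
    push_cast at *
    linarith
  · subst hi hj
    refine Or.inr ⟨rfl, rfl, ?_⟩
    push_cast at *
    linarith

theorem hex_seg_11 (i j : ℤ) (s s' η : ℝ) (hs0 : 0 ≤ s) (hs1 : s ≤ 1) (hs0' : 0 ≤ s')
    (hs1' : s' ≤ 1) (hη : η ≤ 1 / 10) (h01 : |(2 * (i:ℝ) + (j:ℝ)) + -1 * s + 1 * s'| ≤ η)
    (h02 : |((i:ℝ) + 2 * (j:ℝ)) + 0 * s + 0 * s'| ≤ η)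
    (h12 : |((j:ℝ) - (i:ℝ)) + 1 * s + -1 * s'| ≤ η) :
    i = 0 ∧ j = 0 := by
  obtain ⟨h01a, h01b⟩ := abs_le.1 h01
  have h01c : 2 * i + j ≤ 1 := by
    by_contra hcon
    push Not at hcon
    have hcon' : ((1 : ℤ) : ℝ) + 1 ≤ ((2 * i + j : ℤ) : ℝ) := by exact_mod_cast hcon
    push_cast at hcon'
    linarith
  have h01d : -1 ≤ 2 * i + j := by
    by_contra hcon
    push Not at hcon
    have hcon' : ((2 * i + j : ℤ) : ℝ) + 1 ≤ ((-1 : ℤ) : ℝ) := by exact_mod_cast hcon
    push_cast at hcon'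
    linarith
  obtain ⟨h02a, h02b⟩ := abs_le.1 h02
  have h02c : i + 2 * j ≤ 0 := by
    by_contra hcon
    push Not at hcon
    have hcon' : ((0 : ℤ) : ℝ) + 1 ≤ ((i + 2 * j : ℤ) : ℝ) := by exact_mod_cast hcon
    push_cast at hcon'
    linarith
  have h02d : 0 ≤ i + 2 * j := by
    by_contra hcon
    push Not at hcon
    have hcon' : ((i + 2 * j : ℤ) : ℝ) + 1 ≤ ((0 : ℤ) : ℝ) := by exact_mod_cast hcon
    push_cast at hcon'
    linarith
  obtain ⟨h12a, h12b⟩ := abs_le.1 h12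
  have h12c : j - i ≤ 1 := by
    by_contra hcon
    push Not at hcon
    have hcon' : ((1 : ℤ) : ℝ) + 1 ≤ ((j - i : ℤ) : ℝ) := by exact_mod_cast hcon
    push_cast at hcon'
    linarith
  have h12d : -1 ≤ j - i := by
    by_contra hcon
    push Not at hcon
    have hcon' : ((j - i : ℤ) : ℝ) + 1 ≤ ((-1 : ℤ) : ℝ) := by exact_mod_cast hcon
    push_cast at hcon'
    linarith
  constructor <;> omega

theorem hex_seg_12 (i j : ℤ) (s s' η : ℝ) (hs0 : 0 ≤ s) (hs1 : s ≤ 1) (hs0' : 0 ≤ s')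
    (hs1' : s' ≤ 1) (hη : η ≤ 1 / 10) (h01 : |(2 * (i:ℝ) + (j:ℝ)) + -1 * s + 0 * s'| ≤ η)
    (h02 : |((i:ℝ) + 2 * (j:ℝ)) + 0 * s + 1 * s'| ≤ η)
    (h12 : |((j:ℝ) - (i:ℝ)) + 1 * s + 1 * s'| ≤ η) :
    (i = 0 ∧ j = 0 ∧ s ≤ η) ∨ (i = 1 ∧ j = -1 ∧ 1 - s ≤ η) := by
  obtain ⟨h01a, h01b⟩ := abs_le.1 h01
  have h01c : 2 * i + j ≤ 1 := by
    by_contra hcon
    push Not at hcon
    have hcon' : ((1 : ℤ) : ℝ) + 1 ≤ ((2 * i + j : ℤ) : ℝ) := by exact_mod_cast hcon
    push_cast at hcon'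
    linarith
  have h01d : 0 ≤ 2 * i + j := by
    by_contra hcon
    push Not at hcon
    have hcon' : ((2 * i + j : ℤ) : ℝ) + 1 ≤ ((0 : ℤ) : ℝ) := by exact_mod_cast hcon
    push_cast at hcon'
    linarith
  obtain ⟨h02a, h02b⟩ := abs_le.1 h02
  have h02c : i + 2 * j ≤ 0 := by
    by_contra hcon
    push Not at hcon
    have hcon' : ((0 : ℤ) : ℝ) + 1 ≤ ((i + 2 * j : ℤ) : ℝ) := by exact_mod_cast hcon
    push_cast at hcon'
    linarith
  have h02d : -1 ≤ i + 2 * j := by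
    by_contra hcon
    push Not at hcon
    have hcon' : ((i + 2 * j : ℤ) : ℝ) + 1 ≤ ((-1 : ℤ) : ℝ) := by exact_mod_cast hcon
    push_cast at hcon'
    linarith
  obtain ⟨h12a, h12b⟩ := abs_le.1 h12
  have h12c : j - i ≤ 0 := by
    by_contra hcon
    push Not at hcon
    have hcon' : ((0 : ℤ) : ℝ) + 1 ≤ ((j - i : ℤ) : ℝ) := by exact_mod_cast hcon
    push_cast at hcon'
    linarith
  have h12d : -2 ≤ j - i := by
    by_contra hcon
    push Not at hcon
    have hcon' : ((j - i : ℤ) : ℝ) + 1 ≤ ((-2 : ℤ) : ℝ) := by exact_mod_cast hcon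
    push_cast at hcon'
    linarith
  have hor : (i = 0 ∧ j = 0) ∨ (i = 1 ∧ j = -1) := by omega
  rcases hor with ⟨hi, hj⟩ | ⟨hi, hj⟩
  · subst hi hj
    refine Or.inl ⟨rfl, rfl, ?_⟩
    push_cast at *
    linarith
  · subst hi hj
    refine Or.inr ⟨rfl, rfl, ?_⟩
    push_cast at *
    linarith

theorem hex_seg_20 (i j : ℤ) (s s' η : ℝ) (hs0 : 0 ≤ s) (hs1 : s ≤ 1) (hs0' : 0 ≤ s')
    (hs1' : s' ≤ 1) (hη : η ≤ 1 / 10) (h01 : |(2 * (i:ℝ) + (j:ℝ)) + 0 * s + -1 * s'| ≤ η)
    (h02 : |((i:ℝ) + 2 * (j:ℝ)) + -1 * s + -1 * s'| ≤ η)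
    (h12 : |((j:ℝ) - (i:ℝ)) + -1 * s + 0 * s'| ≤ η) :
    (i = 0 ∧ j = 0 ∧ s ≤ η) ∨ (i = 0 ∧ j = 1 ∧ 1 - s ≤ η) := by
  obtain ⟨h01a, h01b⟩ := abs_le.1 h01
  have h01c : 2 * i + j ≤ 1 := by
    by_contra hcon
    push Not at hcon
    have hcon' : ((1 : ℤ) : ℝ) + 1 ≤ ((2 * i + j : ℤ) : ℝ) := by exact_mod_cast hcon
    push_cast at hcon'
    linarith
  have h01d : 0 ≤ 2 * i + j := by
    by_contra hcon
    push Not at hcon
    have hcon' : ((2 * i + j : ℤ) : ℝ) + 1 ≤ ((0 : ℤ) : ℝ) := by exact_mod_cast hcon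
    push_cast at hcon'
    linarith
  obtain ⟨h02a, h02b⟩ := abs_le.1 h02
  have h02c : i + 2 * j ≤ 2 := by
    by_contra hcon
    push Not at hcon
    have hcon' : ((2 : ℤ) : ℝ) + 1 ≤ ((i + 2 * j : ℤ) : ℝ) := by exact_mod_cast hcon
    push_cast at hcon'
    linarith
  have h02d : 0 ≤ i + 2 * j := by
    by_contra hcon
    push Not at hcon
    have hcon' : ((i + 2 * j : ℤ) : ℝ) + 1 ≤ ((0 : ℤ) : ℝ) := by exact_mod_cast hcon
    push_cast at hcon'
    linarith
  obtain ⟨h12a, h12b⟩ := abs_le.1 h12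
  have h12c : j - i ≤ 1 := by
    by_contra hcon
    push Not at hcon
    have hcon' : ((1 : ℤ) : ℝ) + 1 ≤ ((j - i : ℤ) : ℝ) := by exact_mod_cast hcon
    push_cast at hcon'
    linarith
  have h12d : 0 ≤ j - i := by
    by_contra hcon
    push Not at hcon
    have hcon' : ((j - i : ℤ) : ℝ) + 1 ≤ ((0 : ℤ) : ℝ) := by exact_mod_cast hcon
    push_cast at hcon'
    linarith
  have hor : (i = 0 ∧ j = 0) ∨ (i = 0 ∧ j = 1) := by omega
  rcases hor with ⟨hi, hj⟩ | ⟨hi, hj⟩
  · subst hi hj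
    refine Or.inl ⟨rfl, rfl, ?_⟩
    push_cast at *
    linarith
  · subst hi hj
    refine Or.inr ⟨rfl, rfl, ?_⟩
    push_cast at *
    linarith

theorem hex_seg_21 (i j : ℤ) (s s' η : ℝ) (hs0 : 0 ≤ s) (hs1 : s ≤ 1) (hs0' : 0 ≤ s')
    (hs1' : s' ≤ 1) (hη : η ≤ 1 / 10) (h01 : |(2 * (i:ℝ) + (j:ℝ)) + 0 * s + 1 * s'| ≤ η)
    (h02 : |((i:ℝ) + 2 * (j:ℝ)) + -1 * s + 0 * s'| ≤ η)
    (h12 : |((j:ℝ) - (i:ℝ)) + -1 * s + -1 * s'| ≤ η) :
    (i = 0 ∧ j = 0 ∧ s ≤ η) ∨ (i = -1 ∧ j = 1 ∧ 1 - s ≤ η) := by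
  obtain ⟨h01a, h01b⟩ := abs_le.1 h01
  have h01c : 2 * i + j ≤ 0 := by
    by_contra hcon
    push Not at hcon
    have hcon' : ((0 : ℤ) : ℝ) + 1 ≤ ((2 * i + j : ℤ) : ℝ) := by exact_mod_cast hcon
    push_cast at hcon'
    linarith
  have h01d : -1 ≤ 2 * i + j := by
    by_contra hcon
    push Not at hcon
    have hcon' : ((2 * i + j : ℤ) : ℝ) + 1 ≤ ((-1 : ℤ) : ℝ) := by exact_mod_cast hcon
    push_cast at hcon'
    linarith
  obtain ⟨h02a, h02b⟩ := abs_le.1 h02
  have h02c : i + 2 * j ≤ 1 := by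
    by_contra hcon
    push Not at hcon
    have hcon' : ((1 : ℤ) : ℝ) + 1 ≤ ((i + 2 * j : ℤ) : ℝ) := by exact_mod_cast hcon
    push_cast at hcon'
    linarith
  have h02d : 0 ≤ i + 2 * j := by
    by_contra hcon
    push Not at hcon
    have hcon' : ((i + 2 * j : ℤ) : ℝ) + 1 ≤ ((0 : ℤ) : ℝ) := by exact_mod_cast hcon
    push_cast at hcon'
    linarith
  obtain ⟨h12a, h12b⟩ := abs_le.1 h12
  have h12c : j - i ≤ 2 := by
    by_contra hcon
    push Not at hcon
    have hcon' : ((2 : ℤ) : ℝ) + 1 ≤ ((j - i : ℤ) : ℝ) := by exact_mod_cast hcon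
    push_cast at hcon'
    linarith
  have h12d : 0 ≤ j - i := by
    by_contra hcon
    push Not at hcon
    have hcon' : ((j - i : ℤ) : ℝ) + 1 ≤ ((0 : ℤ) : ℝ) := by exact_mod_cast hcon
    push_cast at hcon'
    linarith
  have hor : (i = 0 ∧ j = 0) ∨ (i = -1 ∧ j = 1) := by omega
  rcases hor with ⟨hi, hj⟩ | ⟨hi, hj⟩
  · subst hi hj
    refine Or.inl ⟨rfl, rfl, ?_⟩
    push_cast at *
    linarith
  · subst hi hj
    refine Or.inr ⟨rfl, rfl, ?_⟩
    push_cast at *
    linarith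

theorem hex_seg_22 (i j : ℤ) (s s' η : ℝ) (hs0 : 0 ≤ s) (hs1 : s ≤ 1) (hs0' : 0 ≤ s')
    (hs1' : s' ≤ 1) (hη : η ≤ 1 / 10) (h01 : |(2 * (i:ℝ) + (j:ℝ)) + 0 * s + 0 * s'| ≤ η)
    (h02 : |((i:ℝ) + 2 * (j:ℝ)) + -1 * s + 1 * s'| ≤ η)
    (h12 : |((j:ℝ) - (i:ℝ)) + -1 * s + 1 * s'| ≤ η) :
    i = 0 ∧ j = 0 := by
  obtain ⟨h01a, h01b⟩ := abs_le.1 h01
  have h01c : 2 * i + j ≤ 0 := by
    by_contra hcon
    push Not at hcon
    have hcon' : ((0 : ℤ) : ℝ) + 1 ≤ ((2 * i + j : ℤ) : ℝ) := by exact_mod_cast hcon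
    push_cast at hcon'
    linarith
  have h01d : 0 ≤ 2 * i + j := by
    by_contra hcon
    push Not at hcon
    have hcon' : ((2 * i + j : ℤ) : ℝ) + 1 ≤ ((0 : ℤ) : ℝ) := by exact_mod_cast hcon
    push_cast at hcon'
    linarith
  obtain ⟨h02a, h02b⟩ := abs_le.1 h02
  have h02c : i + 2 * j ≤ 1 := by
    by_contra hcon
    push Not at hcon
    have hcon' : ((1 : ℤ) : ℝ) + 1 ≤ ((i + 2 * j : ℤ) : ℝ) := by exact_mod_cast hcon
    push_cast at hcon'
    linarith
  have h02d : -1 ≤ i + 2 * j := by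
    by_contra hcon
    push Not at hcon
    have hcon' : ((i + 2 * j : ℤ) : ℝ) + 1 ≤ ((-1 : ℤ) : ℝ) := by exact_mod_cast hcon
    push_cast at hcon'
    linarith
  obtain ⟨h12a, h12b⟩ := abs_le.1 h12
  have h12c : j - i ≤ 1 := by
    by_contra hcon
    push Not at hcon
    have hcon' : ((1 : ℤ) : ℝ) + 1 ≤ ((j - i : ℤ) : ℝ) := by exact_mod_cast hcon
    push_cast at hcon'
    linarith
  have h12d : -1 ≤ j - i := by
    by_contra hcon
    push Not at hcon
    have hcon' : ((j - i : ℤ) : ℝ) + 1 ≤ ((-1 : ℤ) : ℝ) := by exact_mod_cast hcon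
    push_cast at hcon'
    linarith
  constructor <;> omega

theorem hex_seg_dir (k : Fin 3) : ‖dir k‖ ≤ 1 := by
  have h3 : √3 ^ 2 = (3 : ℝ) := Real.sq_sqrt (by norm_num)
  have : ‖dir k‖ ^ 2 ≤ 1 := by
    rw [Complex.sq_norm, Complex.normSq_apply]
    fin_cases k
    · simp [dir]
    · simp [dir]; nlinarith
    · simp [dir]; nlinarith
  nlinarith [norm_nonneg (dir k)]

theorem hex_seg_pt (R : ℝ) (a : ℤ × ℤ) (k : Fin 3) (y : ℂ)
    (hy : y ∈ segment ℝ (PA R a) (PB R (nb a k))) :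
    ∃ s : ℝ, 0 ≤ s ∧ s ≤ 1 ∧ y = PA R a + (s : ℂ) * ((R : ℂ) * dir k) := by
  rw [segment_eq_image'] at hy
  obtain ⟨s, ⟨h0, h1⟩, rfl⟩ := hy
  refine ⟨s, h0, h1, ?_⟩
  rw [hex_nb]
  simp only [Complex.real_smul]
  ring

/-- bounds on the three coordinate differences -/
theorem hex_seg_bd (R δ p q m : ℝ) (hR : 0 < R) (z : ℂ) (hz : ‖z‖ ≤ δ)
    (hre : z.re = R * ((p + q) / 2)) (him : z.im = R * (√3 / 2 * m)) (hm : m = q - p) :
    |p| ≤ 2 * δ / R ∧ |q| ≤ 2 * δ / R ∧ |m| ≤ 2 * δ / R := by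
  have h3 : √3 ^ 2 = (3 : ℝ) := Real.sq_sqrt (by norm_num)
  have h30 : 0 ≤ √3 := Real.sqrt_nonneg 3
  have h31 : 1.7 ≤ √3 := by nlinarith
  have h1 := (Complex.abs_re_le_norm z).trans hz
  have h2 := (Complex.abs_im_le_norm z).trans hz
  rw [hre, abs_mul, abs_of_pos hR] at h1
  rw [him, abs_mul, abs_of_pos hR, abs_mul, abs_of_nonneg (by positivity : 0 ≤ √3 / 2)] at h2
  have hRm : R * |m| ≤ 2 / 1.7 * δ := by
    have : R * (0.85 * |m|) ≤ R * (√3 / 2 * |m|) :=
      mul_le_mul_of_nonneg_left (mul_le_mul_of_nonneg_right (by linarith) (abs_nonneg m)) hR.le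
    nlinarith
  have hδ : 0 ≤ δ := (norm_nonneg z).trans hz
  have hp : p = (p + q) / 2 - m / 2 := by rw [hm]; ring
  have hq : q = (p + q) / 2 + m / 2 := by rw [hm]; ring
  have hpb : |p| ≤ |(p + q) / 2| + |m| / 2 := by
    calc |p| = |(p + q) / 2 - m / 2| := by rw [← hp]
      _ ≤ |(p + q) / 2| + |m / 2| := abs_sub _ _
      _ = _ := by rw [abs_div m 2, abs_two]
  have hqb : |q| ≤ |(p + q) / 2| + |m| / 2 := by
    calc |q| = |(p + q) / 2 + m / 2| := by rw [← hq]
      _ ≤ |(p + q) / 2| + |m / 2| := abs_add_le _ _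
      _ = _ := by rw [abs_div m 2, abs_two]
  refine ⟨?_, ?_, ?_⟩
  · rw [le_div_iff₀ hR]; nlinarith
  · rw [le_div_iff₀ hR]; nlinarith
  · rw [le_div_iff₀ hR]; nlinarith

theorem hex_seg (R δ : ℝ) (hR : 0 < R) (hδ : 0 < δ) (hδR : 20 * δ ≤ R) (a a' : ℤ × ℤ) (k k' : Fin 3)
    (hne : (a, k) ≠ (a', k')) (y y' : ℂ) (hy : y ∈ segment ℝ (PA R a) (PB R (nb a k)))
    (hy' : y' ∈ segment ℝ (PA R a') (PB R (nb a' k'))) (hyy : ‖y - y'‖ ≤ δ) :
    (a = a' ∧ ‖y - PA R a‖ ≤ 2 * δ) ∨ (nb a k = nb a' k' ∧ ‖y - PB R (nb a k)‖ ≤ 2 * δ) := by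
  obtain ⟨s, hs0, hs1, hs⟩ := hex_seg_pt R a k y hy
  obtain ⟨s', hs0', hs1', hs'⟩ := hex_seg_pt R a' k' y' hy'
  set η : ℝ := 2 * δ / R with hη
  have hη1 : η ≤ 1 / 10 := by rw [hη, div_le_iff₀ hR]; linarith
  have hηR : η * R = 2 * δ := by rw [hη]; field_simp
  obtain ⟨a1, a2⟩ := a
  obtain ⟨b1, b2⟩ := a'
  -- the two conclusions
  have hA : s ≤ η → ‖y - PA R (a1, a2)‖ ≤ 2 * δ := by
    intro h
    rw [hs, add_sub_cancel_left, norm_mul, norm_mul, Complex.norm_real, Complex.norm_real,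
      Real.norm_of_nonneg hs0, Real.norm_of_nonneg hR.le, ← hηR]
    have := hex_seg_dir k
    have h4 : R * ‖dir k‖ ≤ R := by nlinarith
    exact mul_le_mul h h4 (by positivity) (hs0.trans h)
  have hB : 1 - s ≤ η → ‖y - PB R (nb (a1, a2) k)‖ ≤ 2 * δ := by
    intro h
    have e : y - PB R (nb (a1, a2) k) = -(((1 - s : ℝ) : ℂ) * ((R : ℂ) * dir k)) := by
      rw [hs, hex_nb]; push_cast; ring
    have h5 : 0 ≤ 1 - s := by linarith
    rw [e, norm_neg, norm_mul, norm_mul, Complex.norm_real, Complex.norm_real,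
      Real.norm_of_nonneg h5, Real.norm_of_nonneg hR.le, ← hηR]
    have := hex_seg_dir k
    have h4 : R * ‖dir k‖ ≤ R := by nlinarith
    exact mul_le_mul h h4 (by positivity) (h5.trans h)
  -- coordinates
  have key : ∀ (c c' : Fin 3 → ℝ), (dir k = (c 0 : ℂ) * dir 0 + (c 1 : ℂ) * dir 1 + (c 2 : ℂ) * dir 2) →
      (dir k' = (c' 0 : ℂ) * dir 0 + (c' 1 : ℂ) * dir 1 + (c' 2 : ℂ) * dir 2) →
      |(2 * ((a1 - b1 : ℤ) : ℝ) + ((a2 - b2 : ℤ) : ℝ)) + (c 0 - c 1) * s + -(c' 0 - c' 1) * s'| ≤ η ∧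
      |(((a1 - b1 : ℤ) : ℝ) + 2 * ((a2 - b2 : ℤ) : ℝ)) + (c 0 - c 2) * s + -(c' 0 - c' 2) * s'| ≤ η ∧
      |(((a2 - b2 : ℤ) : ℝ) - ((a1 - b1 : ℤ) : ℝ)) + (c 1 - c 2) * s + -(c' 1 - c' 2) * s'| ≤ η := by
    intro c c' hc hc'
    have hz : y - y' = (R : ℂ) * (((a1 - b1 : ℤ) : ℂ) * (dir 0 - dir 1) +
        ((a2 - b2 : ℤ) : ℂ) * (dir 0 - dir 2) + (s : ℂ) * dir k - (s' : ℂ) * dir k') := by
      rw [hs, hs']; unfold PA; push_cast; ring
    rw [hc, hc'] at hz
    have hre : (y - y').re = R * (((2 * ((a1 - b1 : ℤ) : ℝ) + ((a2 - b2 : ℤ) : ℝ)) +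
        (c 0 - c 1) * s + -(c' 0 - c' 1) * s' + ((((a1 - b1 : ℤ) : ℝ) + 2 * ((a2 - b2 : ℤ) : ℝ)) +
        (c 0 - c 2) * s + -(c' 0 - c' 2) * s')) / 2) := by
      rw [hz]; simp [dir]; left; ring
    have him : (y - y').im = R * (√3 / 2 * ((((a2 - b2 : ℤ) : ℝ) - ((a1 - b1 : ℤ) : ℝ)) +
        (c 1 - c 2) * s + -(c' 1 - c' 2) * s')) := by
      rw [hz]; simp [dir]; left; ring
    exact hex_seg_bd R δ _ _ _ hR _ hyy hre him (by ring)
  fin_cases k <;> fin_cases k'
  · obtain ⟨h1, h2, h3⟩ := key ![1, 0, 0] ![1, 0, 0] (by simp [dir]) (by simp [dir])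
    have h := hex_seg_00 (a1 - b1) (a2 - b2) s s' η hs0 hs1 hs0' hs1' hη1
      (by simpa using h1) (by simpa using h2) (by simpa using h3)
    exact absurd (by rw [Prod.mk.injEq, Prod.mk.injEq]; exact ⟨⟨by omega, by omega⟩, rfl⟩) hne
  · obtain ⟨h1, h2, h3⟩ := key ![1, 0, 0] ![0, 1, 0] (by simp [dir]) (by simp [dir])
    have h := hex_seg_01 (a1 - b1) (a2 - b2) s s' η hs0 hs1 hs0' hs1' hη1
      (by simpa using h1) (by simpa using h2) (by simpa using h3)
    rcases h with ⟨h4, h5, h6⟩ | ⟨h4, h5, h6⟩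
    · exact Or.inl ⟨by rw [Prod.mk.injEq]; constructor <;> omega, hA h6⟩
    · refine Or.inr ⟨?_, hB h6⟩
      simp only [nb, Fin.isValue, Fin.zero_eta, Fin.mk_one, Fin.reduceFinMk, Matrix.cons_val_zero, Matrix.cons_val_one, Matrix.cons_val]
      rw [Prod.mk.injEq]; constructor <;> omega
  · obtain ⟨h1, h2, h3⟩ := key ![1, 0, 0] ![0, 0, 1] (by simp [dir]) (by simp [dir])
    have h := hex_seg_02 (a1 - b1) (a2 - b2) s s' η hs0 hs1 hs0' hs1' hη1
      (by simpa using h1) (by simpa using h2) (by simpa using h3)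
    rcases h with ⟨h4, h5, h6⟩ | ⟨h4, h5, h6⟩
    · exact Or.inl ⟨by rw [Prod.mk.injEq]; constructor <;> omega, hA h6⟩
    · refine Or.inr ⟨?_, hB h6⟩
      simp only [nb, Fin.isValue, Fin.zero_eta, Fin.mk_one, Fin.reduceFinMk, Matrix.cons_val_zero, Matrix.cons_val_one, Matrix.cons_val]
      rw [Prod.mk.injEq]; constructor <;> omega
  · obtain ⟨h1, h2, h3⟩ := key ![0, 1, 0] ![1, 0, 0] (by simp [dir]) (by simp [dir])
    have h := hex_seg_10 (a1 - b1) (a2 - b2) s s' η hs0 hs1 hs0' hs1' hη1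
      (by simpa using h1) (by simpa using h2) (by simpa using h3)
    rcases h with ⟨h4, h5, h6⟩ | ⟨h4, h5, h6⟩
    · exact Or.inl ⟨by rw [Prod.mk.injEq]; constructor <;> omega, hA h6⟩
    · refine Or.inr ⟨?_, hB h6⟩
      simp only [nb, Fin.isValue, Fin.zero_eta, Fin.mk_one, Fin.reduceFinMk, Matrix.cons_val_zero, Matrix.cons_val_one, Matrix.cons_val]
      rw [Prod.mk.injEq]; constructor <;> omega
  · obtain ⟨h1, h2, h3⟩ := key ![0, 1, 0] ![0, 1, 0] (by simp [dir]) (by simp [dir])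
    have h := hex_seg_11 (a1 - b1) (a2 - b2) s s' η hs0 hs1 hs0' hs1' hη1
      (by simpa using h1) (by simpa using h2) (by simpa using h3)
    exact absurd (by rw [Prod.mk.injEq, Prod.mk.injEq]; exact ⟨⟨by omega, by omega⟩, rfl⟩) hne
  · obtain ⟨h1, h2, h3⟩ := key ![0, 1, 0] ![0, 0, 1] (by simp [dir]) (by simp [dir])
    have h := hex_seg_12 (a1 - b1) (a2 - b2) s s' η hs0 hs1 hs0' hs1' hη1
      (by simpa using h1) (by simpa using h2) (by simpa using h3)
    rcases h with ⟨h4, h5, h6⟩ | ⟨h4, h5, h6⟩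
    · exact Or.inl ⟨by rw [Prod.mk.injEq]; constructor <;> omega, hA h6⟩
    · refine Or.inr ⟨?_, hB h6⟩
      simp only [nb, Fin.isValue, Fin.zero_eta, Fin.mk_one, Fin.reduceFinMk, Matrix.cons_val_zero, Matrix.cons_val_one, Matrix.cons_val]
      rw [Prod.mk.injEq]; constructor <;> omega
  · obtain ⟨h1, h2, h3⟩ := key ![0, 0, 1] ![1, 0, 0] (by simp [dir]) (by simp [dir])
    have h := hex_seg_20 (a1 - b1) (a2 - b2) s s' η hs0 hs1 hs0' hs1' hη1
      (by simpa using h1) (by simpa using h2) (by simpa using h3)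
    rcases h with ⟨h4, h5, h6⟩ | ⟨h4, h5, h6⟩
    · exact Or.inl ⟨by rw [Prod.mk.injEq]; constructor <;> omega, hA h6⟩
    · refine Or.inr ⟨?_, hB h6⟩
      simp only [nb, Fin.isValue, Fin.zero_eta, Fin.mk_one, Fin.reduceFinMk, Matrix.cons_val_zero, Matrix.cons_val_one, Matrix.cons_val]
      rw [Prod.mk.injEq]; constructor <;> omega
  · obtain ⟨h1, h2, h3⟩ := key ![0, 0, 1] ![0, 1, 0] (by simp [dir]) (by simp [dir])
    have h := hex_seg_21 (a1 - b1) (a2 - b2) s s' η hs0 hs1 hs0' hs1' hη1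
      (by simpa using h1) (by simpa using h2) (by simpa using h3)
    rcases h with ⟨h4, h5, h6⟩ | ⟨h4, h5, h6⟩
    · exact Or.inl ⟨by rw [Prod.mk.injEq]; constructor <;> omega, hA h6⟩
    · refine Or.inr ⟨?_, hB h6⟩
      simp only [nb, Fin.isValue, Fin.zero_eta, Fin.mk_one, Fin.reduceFinMk, Matrix.cons_val_zero, Matrix.cons_val_one, Matrix.cons_val]
      rw [Prod.mk.injEq]; constructor <;> omega
  · obtain ⟨h1, h2, h3⟩ := key ![0, 0, 1] ![0, 0, 1] (by simp [dir]) (by simp [dir])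
    have h := hex_seg_22 (a1 - b1) (a2 - b2) s s' η hs0 hs1 hs0' hs1' hη1
      (by simpa using h1) (by simpa using h2) (by simpa using h3)
    exact absurd (by rw [Prod.mk.injEq, Prod.mk.injEq]; exact ⟨⟨by omega, by omega⟩, rfl⟩) hne

end J26673

alias hex_seg := J26673.hex_seg

/-- the skeleton: a subdivided hexagonal lattice in the tile graph -/
structure Skel (T : Set (Set ℂ)) (R r0 : ℝ) (L : ℕ) (hA hB : ℤ × ℤ → Set ℂ)
    (p : ℤ × ℤ → Fin 3 → ℕ → Set ℂ) (n : ℤ × ℤ → Fin 3 → ℕ) : Prop where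
  Rpos : 0 < R
  memA : ∀ a, hA a ∈ T ∧ ∃ y ∈ hA a, ‖y - PA R a‖ ≤ r0
  memB : ∀ a, hB a ∈ T ∧ ∃ y ∈ hB a, ‖y - PB R a‖ ≤ r0
  start : ∀ a k, p a k 0 = hA a
  stop : ∀ a k, p a k (n a k) = hB (nb a k)
  len : ∀ a k, 1 ≤ n a k ∧ n a k ≤ L
  mem : ∀ a k i, i ≤ n a k → p a k i ∈ T ∧ ∃ y ∈ p a k i, ‖y - PA R a‖ ≤ 2 * R
  step : ∀ a k i, i < n a k → Adj (p a k i) (p a k (i + 1))
  inj : ∀ a k i a' k' i', 0 < i → i < n a k → 0 < i' → i' < n a' k' →
    p a k i = p a' k' i' → a = a' ∧ k = k' ∧ i = i'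
  nodeA : ∀ a k i b, 0 < i → i < n a k → p a k i ≠ hA b
  nodeB : ∀ a k i b, 0 < i → i < n a k → p a k i ≠ hB b
  injA : Function.Injective hA
  injB : Function.Injective hB
  AB : ∀ a b, hA a ≠ hB b

namespace J26674

/-! ### TARGET of this job: skel_arms -/

theorem sa_diam {T : Set (Set ℂ)} {u U : ℝ} (h : NC T u U) {X : Set ℂ} (hX : X ∈ T) {y y' : ℂ}
    (hy : y ∈ X) (hy' : y' ∈ X) : ‖y - y'‖ ≤ 2 * U := by
  obtain ⟨c, hc⟩ := h.outr X hX
  have h1 := hc hy
  have h2 := hc hy'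
  rw [mem_closedBall_iff_norm] at h1 h2
  have h3 : y - y' = (y - c) - (y' - c) := by ring
  rw [h3]
  refine (norm_sub_le _ _).trans ?_
  linarith

theorem sa_disj {T : Set (Set ℂ)} {u U : ℝ} (h : NC T u U) (r : ℝ) (c c' : ℂ)
    (hcc : 2 * r + 2 * U ≤ ‖c - c'‖) : Disjoint (Core T c r) (Core T c' r) := by
  rw [Set.disjoint_left]
  rintro X ⟨hX, y, hy, hyc⟩ ⟨-, y', hy', hyc'⟩
  have h1 := sa_diam h hX hy hy'
  rw [mem_ball_iff_norm] at hyc hyc'
  have h3 : c - c' = (y' - c') + (y - y') - (y - c) := by ring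
  have h4 : ‖c - c'‖ ≤ ‖y' - c'‖ + ‖y - y'‖ + ‖y - c‖ := by
    rw [h3]
    refine (norm_sub_le _ _).trans ?_
    have := norm_add_le (y' - c') (y - y')
    linarith
  linarith

theorem sa_nb (a : ℤ × ℤ) (k k' : Fin 3) (h : nb a k = nb a k') : k = k' := by
  obtain ⟨x, y⟩ := a
  fin_cases k <;> fin_cases k' <;> simp [nb] at h ⊢ <;> omega

theorem sa_dir (k : Fin 3) : ‖dir k‖ = 1 := by
  have h3 : √3 * √3 = 3 := Real.mul_self_sqrt (by norm_num)
  fin_cases k
  · simp [dir]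
  · show ‖(⟨-1/2, √3/2⟩ : ℂ)‖ = 1
    rw [Complex.norm_def, Complex.normSq_mk]
    rw [show -1 / 2 * (-1 / 2) + √3 / 2 * (√3 / 2) = 1 by nlinarith]
    exact Real.sqrt_one
  · show ‖(⟨-1/2, -(√3/2)⟩ : ℂ)‖ = 1
    rw [Complex.norm_def, Complex.normSq_mk]
    rw [show -1 / 2 * (-1 / 2) + -(√3 / 2) * -(√3 / 2) = 1 by nlinarith]
    exact Real.sqrt_one

theorem sa_seg (R : ℝ) (hR : 0 < R) (a : ℤ × ℤ) (k : Fin 3) (s : ℂ)
    (hs : s ∈ segment ℝ (PA R a) (PB R (nb a k))) : ‖s - PA R a‖ ≤ R := by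
  obtain ⟨t, ⟨ht0, ht1⟩, rfl⟩ := (segment_eq_image' ℝ (PA R a) (PB R (nb a k))) ▸ hs
  rw [hex_nb]
  have : PA R a + t • (PA R a + R * dir k - PA R a) - PA R a = t • ((R : ℂ) * dir k) := by
    rw [add_sub_cancel_left, add_sub_cancel_left]
  show ‖PA R a + t • (PA R a + R * dir k - PA R a) - PA R a‖ ≤ R
  rw [this, norm_smul, norm_mul, sa_dir, Complex.norm_real, Real.norm_of_nonneg hR.le,
    Real.norm_of_nonneg ht0, mul_one]
  nlinarith

theorem skel_arms {T : Set (Set ℂ)} {u U : ℝ} (h : NC T u U) : ∃ r R0 : ℝ, 0 < r ∧ ∀ R ≥ R0,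
    0 < R ∧ 8 * r ≤ R ∧ 8 * U ≤ R ∧
    (∀ a b, a ≠ b → Disjoint (Core T (PA R a) r) (Core T (PA R b) r)) ∧
    (∀ a b, a ≠ b → Disjoint (Core T (PB R a) r) (Core T (PB R b) r)) ∧
    (∀ a b, Disjoint (Core T (PA R a) r) (Core T (PB R b) r)) ∧
    ∃ (q : ℤ × ℤ → Fin 3 → ℕ → Set ℂ) (m : ℤ × ℤ → Fin 3 → ℕ),
      (∀ a k, 1 ≤ m a k ∧ q a k 0 ∈ Core T (PA R a) r ∧ q a k (m a k) ∈ Core T (PB R (nb a k)) r ∧
        (∀ i ≤ m a k, q a k i ∈ T ∧ ∃ y ∈ q a k i, ‖y - PA R a‖ ≤ 2 * R) ∧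
        (∀ i < m a k, Adj (q a k i) (q a k (i + 1))) ∧
        (∀ i ≤ m a k, ∀ j ≤ m a k, q a k i = q a k j → i = j) ∧
        (∀ i b, 0 < i → i < m a k → q a k i ∉ Core T (PA R b) r ∧ q a k i ∉ Core T (PB R b) r)) ∧
      (∀ a k a' k' i i', (a, k) ≠ (a', k') → 0 < i → i < m a k → 0 < i' → i' < m a' k' →
        q a k i ≠ q a' k' i') ∧
      (∀ a k k', k ≠ k' → q a k 0 ≠ q a k' 0) ∧
      (∀ a k a' k', (a, k) ≠ (a', k') → nb a k = nb a' k' → q a k (m a k) ≠ q a' k' (m a' k')) := by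
  have hU : 0 ≤ U := by
    obtain ⟨A, hA, h0⟩ := h.cover 0
    have := sa_diam h hA h0 h0
    rw [sub_self, norm_zero] at this
    linarith
  set δ : ℝ := 2 * U + 2 with hδ
  set r : ℝ := 4 * δ + 2 * U + 4 with hr
  have hδ0 : 0 < δ := by rw [hδ]; linarith
  have hr0 : 0 < r := by rw [hr]; linarith
  refine ⟨r, 100 * (r + δ + U + 1), hr0, ?_⟩
  intro R hR
  have hR0 : 0 < R := by linarith
  obtain ⟨sep1, sep2, sep3⟩ := hex_sep R hR0
  have hd1 : ∀ a b, a ≠ b → Disjoint (Core T (PA R a) r) (Core T (PA R b) r) := by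
    intro a b hab
    exact sa_disj h r _ _ (le_trans (by linarith) (sep1 a b hab))
  have hd2 : ∀ a b, a ≠ b → Disjoint (Core T (PB R a) r) (Core T (PB R b) r) := by
    intro a b hab
    exact sa_disj h r _ _ (le_trans (by linarith) (sep2 a b hab))
  have hd3 : ∀ a b, Disjoint (Core T (PA R a) r) (Core T (PB R b) r) := by
    intro a b
    exact sa_disj h r _ _ (le_trans (by linarith) (sep3 a b))
  refine ⟨hR0, by linarith, by linarith, hd1, hd2, hd3, ?_⟩
  have hcore : ∀ c : ℂ, Core T c 1 ⊆ Core T c r := by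
    rintro c X ⟨hX, y, hy, hyc⟩
    exact ⟨hX, y, hy, ball_subset_ball (by linarith) hyc⟩
  have harm : ∀ (a : ℤ × ℤ) (k : Fin 3), ∃ (q : ℕ → Set ℂ) (m : ℕ), 1 ≤ m ∧
      q 0 ∈ Core T (PA R a) r ∧ q m ∈ Core T (PB R (nb a k)) r ∧
      (∀ i ≤ m, q i ∈ {X | X ∈ T ∧ ∃ y ∈ X, ∃ s ∈ segment ℝ (PA R a) (PB R (nb a k)),
        ‖y - s‖ ≤ 1}) ∧
      (∀ i < m, Adj (q i) (q (i + 1))) ∧
      (∀ i, 0 < i → i < m → q i ∉ Core T (PA R a) r ∧ q i ∉ Core T (PB R (nb a k)) r) ∧
      (∀ i ≤ m, ∀ j ≤ m, q i = q j → i = j) := by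
    intro a k
    obtain ⟨A, hA, B, hB, hj⟩ := arm_jn h (PA R a) (PB R (nb a k))
    exact arm_path Adj _ (Core T (PA R a) r) (Core T (PB R (nb a k)) r) (hd3 a (nb a k)) A B
      (hcore _ hA) (hcore _ hB) hj
  choose q m hm1 hq0 hqm hqS hqadj hqint hqinj using harm
  -- two segment points coming from the same tile are close
  have hclose : ∀ (a : ℤ × ℤ) (k : Fin 3) (a' : ℤ × ℤ) (k' : Fin 3) (i i' : ℕ),
      (a, k) ≠ (a', k') → i ≤ m a k → i' ≤ m a' k' → q a k i = q a' k' i' →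
      (a = a' ∧ ∃ y ∈ q a k i, ‖y - PA R a‖ ≤ 2 * δ + 1) ∨
        (nb a k = nb a' k' ∧ ∃ y ∈ q a k i, ‖y - PB R (nb a k)‖ ≤ 2 * δ + 1) := by
    intro a k a' k' i i' hne hi hi' heq
    obtain ⟨hT, y, hy, s, hs, hys⟩ := hqS a k i hi
    obtain ⟨-, y', hy', s', hs', hys'⟩ := hqS a' k' i' hi'
    rw [← heq] at hy'
    have h1 := sa_diam h hT hy hy'
    have h2 : ‖s - s'‖ ≤ δ := by
      have e : s - s' = (y - y') - (y - s) + (y' - s') := by ring
      rw [e]
      refine (norm_add_le _ _).trans ?_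
      have := norm_sub_le (y - y') (y - s)
      linarith
    rcases hex_seg R δ hR0 hδ0 (by linarith) a a' k k' hne s s' hs hs' h2 with ⟨e1, e2⟩ | ⟨e1, e2⟩
    · left
      refine ⟨e1, y, hy, ?_⟩
      have e : y - PA R a = (y - s) + (s - PA R a) := by ring
      rw [e]
      refine (norm_add_le _ _).trans ?_
      linarith
    · right
      refine ⟨e1, y, hy, ?_⟩
      have e : y - PB R (nb a k) = (y - s) + (s - PB R (nb a k)) := by ring
      rw [e]
      refine (norm_add_le _ _).trans ?_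
      linarith
  have hmem : ∀ (X : Set ℂ) (c : ℂ), X ∈ T → (∃ y ∈ X, ‖y - c‖ ≤ 2 * δ + 1) → X ∈ Core T c r := by
    rintro X c hX ⟨y, hy, hyc⟩
    refine ⟨hX, y, hy, ?_⟩
    rw [mem_ball_iff_norm]
    linarith
  -- a tile close to the node and a neighbour outside the core
  have hfar : ∀ (X Z : Set ℂ) (c : ℂ), X ∈ T → Z ∈ T → (X ∩ Z).Nonempty → Z ∉ Core T c r →
      (∃ y ∈ X, ‖y - c‖ ≤ 2 * δ + 1) → False := by
    rintro X Z c hX hZ ⟨w, hwX, hwZ⟩ hZc ⟨y, hy, hyc⟩
    apply hZc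
    refine ⟨hZ, w, hwZ, ?_⟩
    rw [mem_ball_iff_norm]
    have h1 := sa_diam h hX hwX hy
    have e : w - c = (w - y) + (y - c) := by ring
    rw [e]
    refine lt_of_le_of_lt (norm_add_le _ _) ?_
    linarith
  refine ⟨q, m, ?_, ?_, ?_, ?_⟩
  · intro a k
    refine ⟨hm1 a k, hq0 a k, hqm a k, ?_, hqadj a k, hqinj a k, ?_⟩
    · intro i hi
      obtain ⟨hT, y, hy, s, hs, hys⟩ := hqS a k i hi
      refine ⟨hT, y, hy, ?_⟩
      have h1 := sa_seg R hR0 a k s hs
      have e : y - PA R a = (y - s) + (s - PA R a) := by ring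
      rw [e]
      refine (norm_add_le _ _).trans ?_
      linarith
    · intro i b hi0 him
      obtain ⟨hT, y, hy, s, hs, hys⟩ := hqS a k i him.le
      obtain ⟨hn1, hn2⟩ := hex_node R hR0 a k s hs
      have aux : ∀ c : ℂ, R / 2 ≤ ‖s - c‖ → q a k i ∉ Core T c r := by
        rintro c hc ⟨-, y', hy', hyc'⟩
        rw [mem_ball_iff_norm] at hyc'
        have h1 := sa_diam h hT hy hy'
        have e : s - c = (y' - c) + (y - y') - (y - s) := by ring
        have h2 : ‖s - c‖ ≤ ‖y' - c‖ + ‖y - y'‖ + ‖y - s‖ := by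
          rw [e]
          refine (norm_sub_le _ _).trans ?_
          have := norm_add_le (y' - c) (y - y')
          linarith
        linarith
      constructor
      · by_cases hba : b = a
        · rw [hba]
          exact (hqint a k i hi0 him).1
        · exact aux _ (hn1 b hba)
      · by_cases hba : b = nb a k
        · rw [hba]
          exact (hqint a k i hi0 him).2
        · exact aux _ (hn2 b hba)
  · intro a k a' k' i i' hne hi0 him hi0' him' heq
    rcases hclose a k a' k' i i' hne him.le him'.le heq with ⟨-, e⟩ | ⟨-, e⟩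
    · exact (hqint a k i hi0 him).1 (hmem _ _ (hqS a k i him.le).1 e)
    · exact (hqint a k i hi0 him).2 (hmem _ _ (hqS a k i him.le).1 e)
  · intro a k k' hkk heq
    have hne : (a, k) ≠ (a, k') := by
      intro he
      exact hkk (Prod.mk.inj he).2
    rcases hclose a k a k' 0 0 hne (Nat.zero_le _) (Nat.zero_le _) heq with ⟨-, e⟩ | ⟨e, -⟩
    · have hZ : q a k 1 ∉ Core T (PA R a) r := by
        rcases Nat.lt_or_ge 1 (m a k) with h1 | h1
        · exact (hqint a k 1 one_pos h1).1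
        · have h2 : m a k = 1 := le_antisymm h1 (hm1 a k)
          intro h3
          have h4 := hqm a k
          rw [h2] at h4
          exact Set.disjoint_left.1 (hd3 a (nb a k)) h3 h4
      have hadj := hqadj a k 0 (hm1 a k)
      exact hfar (q a k 0) (q a k 1) (PA R a) (hqS a k 0 (Nat.zero_le _)).1
        (hqS a k 1 (hm1 a k)).1 hadj.2.nonempty hZ e
    · exact hkk (sa_nb a k k' e)
  · intro a k a' k' hne hnb heq
    rcases hclose a k a' k' (m a k) (m a' k') hne le_rfl le_rfl heq with ⟨e, -⟩ | ⟨-, e⟩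
    · subst e
      exact hne (by rw [sa_nb a k k' hnb])
    · obtain ⟨j, hj⟩ : ∃ j, m a k = j + 1 := ⟨m a k - 1, by have := hm1 a k; omega⟩
      have hZ : q a k j ∉ Core T (PB R (nb a k)) r := by
        rcases Nat.eq_zero_or_pos j with h1 | h1
        · intro h3
          rw [h1] at h3
          exact Set.disjoint_left.1 (hd3 a (nb a k)) (hq0 a k) h3
        · exact (hqint a k j h1 (by omega)).2
      have hadj := hqadj a k j (by omega)
      rw [hj] at e
      refine hfar (q a k (j + 1)) (q a k j) (PB R (nb a k)) (hqS a k (j + 1) (by omega)).1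
        (hqS a k j (by omega)).1 ?_ hZ e
      rw [Set.inter_comm]
      exact hadj.2.nonempty

end J26674

alias skel_arms := J26674.skel_arms

namespace J26676

/-- auxiliary: inverse of the neighbour map -/
def skel_ex_ia (b : ℤ × ℤ) (k : Fin 3) : ℤ × ℤ := ![b, (b.1 + 1, b.2), (b.1, b.2 + 1)] k

theorem skel_ex_nb_ia (b : ℤ × ℤ) (k : Fin 3) : nb (skel_ex_ia b k) k = b := by
  fin_cases k <;> simp [nb, skel_ex_ia]

theorem skel_ex_ia_nb (a : ℤ × ℤ) (k : Fin 3) : skel_ex_ia (nb a k) k = a := by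
  fin_cases k <;> simp [nb, skel_ex_ia]

theorem skel_ex_dir (k : Fin 3) : ‖dir k‖ ≤ 1 := by
  have h3 : (√3 / 2) * (√3 / 2) = 3 / 4 := by
    have := Real.mul_self_sqrt (show (0:ℝ) ≤ 3 by norm_num)
    nlinarith
  fin_cases k
  · simp [dir]
  · change ‖(⟨-1/2, √3/2⟩ : ℂ)‖ ≤ 1
    have : ‖(⟨-1/2, √3/2⟩ : ℂ)‖ ^ 2 = 1 := by
      rw [← Complex.normSq_eq_norm_sq, Complex.normSq_apply]
      simp only
      rw [h3]
      norm_num
    nlinarith [norm_nonneg (⟨-1/2, √3/2⟩ : ℂ)]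
  · change ‖(⟨-1/2, -(√3/2)⟩ : ℂ)‖ ≤ 1
    have : ‖(⟨-1/2, -(√3/2)⟩ : ℂ)‖ ^ 2 = 1 := by
      rw [← Complex.normSq_eq_norm_sq, Complex.normSq_apply]
      simp only
      rw [neg_mul_neg, h3]
      norm_num
    nlinarith [norm_nonneg (⟨-1/2, -(√3/2)⟩ : ℂ)]

/-- auxiliary: concatenation of three paths, the last one reversed -/
def skel_ex_pp (NA M NB : ℕ) (A Q B : ℕ → Set ℂ) (i : ℕ) : Set ℂ :=
  if i ≤ NA then A i else if i ≤ NA + M then Q (i - NA) else B (NA + M + NB - i)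

theorem skel_ex_ppA {NA M NB : ℕ} {A Q B : ℕ → Set ℂ} {i : ℕ} (hi : i ≤ NA) :
    skel_ex_pp NA M NB A Q B i = A i := by
  simp [skel_ex_pp, hi]

theorem skel_ex_ppQ {NA M NB : ℕ} {A Q B : ℕ → Set ℂ} {i : ℕ} (hAQ : A NA = Q 0)
    (hi : NA ≤ i) (hi' : i ≤ NA + M) :
    skel_ex_pp NA M NB A Q B i = Q (i - NA) := by
  by_cases h : i ≤ NA
  · have : i = NA := le_antisymm h hi
    subst this
    simp [skel_ex_pp, hAQ]
  · simp [skel_ex_pp, h, hi']

theorem skel_ex_ppB {NA M NB : ℕ} {A Q B : ℕ → Set ℂ} {i : ℕ} (hM : 1 ≤ M)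
    (hQB : Q M = B NB) (hi : NA + M ≤ i) :
    skel_ex_pp NA M NB A Q B i = B (NA + M + NB - i) := by
  have h1 : ¬ i ≤ NA := by omega
  by_cases h : i ≤ NA + M
  · have : i = NA + M := le_antisymm h hi
    subst this
    simp [skel_ex_pp, h1, hQB]
  · simp [skel_ex_pp, h1, h]

/-! ### TARGET of this job: skel_ex -/

theorem skel_ex {T : Set (Set ℂ)} {u U : ℝ} (h : NC T u U) :
    ∃ (R r0 : ℝ) (L : ℕ) (hA hB : ℤ × ℤ → Set ℂ) (p : ℤ × ℤ → Fin 3 → ℕ → Set ℂ)
      (n : ℤ × ℤ → Fin 3 → ℕ), Skel T R r0 L hA hB p n := by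
  classical
  obtain ⟨r, R0, hr, H⟩ := skel_arms h
  obtain ⟨hR, h8r, -, dAA, dBB, dAB, q, m, hq, hqd, hqA, hqB⟩ := H R0 (le_refl R0)
  have hadj : ∀ x y : Set ℂ, Adj x y → Adj y x := fun x y hxy => adj_symm hxy
  have tA : ∀ a : ℤ × ℤ, ∃ hh ∈ Core T (PA R0 a) r, ∃ (p : Fin 3 → ℕ → Set ℂ) (n : Fin 3 → ℕ),
      (∀ k, p k 0 = hh ∧ p k (n k) = q a k 0 ∧ (∀ i ≤ n k, p k i ∈ Core T (PA R0 a) r) ∧
        (∀ i < n k, Adj (p k i) (p k (i + 1))) ∧
        (∀ i ≤ n k, ∀ j ≤ n k, p k i = p k j → i = j)) ∧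
      (∀ k k', k ≠ k' → ∀ i ≤ n k, ∀ j ≤ n k', p k i = p k' j → i = 0 ∧ j = 0) := by
    intro a
    refine tripod Adj hadj (Core T (PA R0 a) r) (core_conn h _ _) (fun k => q a k 0)
      (fun k => (hq a k).2.1) ?_
    intro k k' hkk
    by_contra hne
    exact hqA a k k' hne hkk
  have tB : ∀ b : ℤ × ℤ, ∃ hh ∈ Core T (PB R0 b) r, ∃ (p : Fin 3 → ℕ → Set ℂ) (n : Fin 3 → ℕ),
      (∀ k, p k 0 = hh ∧ p k (n k) = q (skel_ex_ia b k) k (m (skel_ex_ia b k) k) ∧
        (∀ i ≤ n k, p k i ∈ Core T (PB R0 b) r) ∧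
        (∀ i < n k, Adj (p k i) (p k (i + 1))) ∧
        (∀ i ≤ n k, ∀ j ≤ n k, p k i = p k j → i = j)) ∧
      (∀ k k', k ≠ k' → ∀ i ≤ n k, ∀ j ≤ n k', p k i = p k' j → i = 0 ∧ j = 0) := by
    intro b
    refine tripod Adj hadj (Core T (PB R0 b) r) (core_conn h _ _)
      (fun k => q (skel_ex_ia b k) k (m (skel_ex_ia b k) k)) ?_ ?_
    · intro k
      have := (hq (skel_ex_ia b k) k).2.2.1
      rw [skel_ex_nb_ia] at this
      exact this
    · intro k k' hkk
      by_contra hne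
      refine hqB (skel_ex_ia b k) k (skel_ex_ia b k') k' ?_ ?_ hkk
      · intro he
        exact hne (Prod.mk.inj he).2
      · rw [skel_ex_nb_ia, skel_ex_nb_ia]
  choose hA hAmem pA nA hA1 hA2 using tA
  choose hB hBmem pB nB hB1 hB2 using tB
  -- endpoints of the arms
  have eAQ : ∀ a k, pA a k (nA a k) = q a k 0 := fun a k => (hA1 a k).2.1
  have eQB : ∀ a k, q a k (m a k) = pB (nb a k) k (nB (nb a k) k) := by
    intro a k
    rw [(hB1 (nb a k) k).2.1, skel_ex_ia_nb]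
  obtain ⟨n, hn⟩ : ∃ n : ℤ × ℤ → Fin 3 → ℕ, ∀ a k, n a k = nA a k + m a k + nB (nb a k) k :=
    ⟨_, fun a k => rfl⟩
  obtain ⟨p, hp⟩ : ∃ p : ℤ × ℤ → Fin 3 → ℕ → Set ℂ, ∀ a k i, p a k i =
      skel_ex_pp (nA a k) (m a k) (nB (nb a k) k) (pA a k) (q a k) (pB (nb a k) k) i :=
    ⟨_, fun a k i => rfl⟩
  have vA : ∀ a k i, i ≤ nA a k → p a k i = pA a k i := by
    intro a k i hi
    rw [hp]
    exact skel_ex_ppA hi
  have vQ : ∀ a k i, nA a k ≤ i → i ≤ nA a k + m a k → p a k i = q a k (i - nA a k) := by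
    intro a k i hi hi'
    rw [hp]
    exact skel_ex_ppQ (eAQ a k) hi hi'
  have vB : ∀ a k i, nA a k + m a k ≤ i → p a k i = pB (nb a k) k (n a k - i) := by
    intro a k i hi
    rw [hp, hn]
    exact skel_ex_ppB (hq a k).1 (eQB a k) hi
  have zone : ∀ a k i, i ≤ n a k →
      (i ≤ nA a k ∧ p a k i = pA a k i ∧ p a k i ∈ Core T (PA R0 a) r) ∨
      (nA a k < i ∧ i < nA a k + m a k ∧ p a k i = q a k (i - nA a k) ∧
        ∀ b, p a k i ∉ Core T (PA R0 b) r ∧ p a k i ∉ Core T (PB R0 b) r) ∨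
      (nA a k + m a k ≤ i ∧ n a k - i ≤ nB (nb a k) k ∧ p a k i = pB (nb a k) k (n a k - i) ∧
        p a k i ∈ Core T (PB R0 (nb a k)) r) := by
    intro a k i hi
    have hnn := hn a k
    by_cases h1 : i ≤ nA a k
    · left
      refine ⟨h1, vA a k i h1, ?_⟩
      rw [vA a k i h1]
      exact (hA1 a k).2.2.1 i h1
    · by_cases h2 : i < nA a k + m a k
      · right; left
        have e := vQ a k i (by omega) (by omega)
        refine ⟨by omega, h2, e, ?_⟩
        intro b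
        rw [e]
        exact (hq a k).2.2.2.2.2.2 (i - nA a k) b (by omega) (by omega)
      · right; right
        have e := vB a k i (by omega)
        have h3 : n a k - i ≤ nB (nb a k) k := by omega
        refine ⟨by omega, h3, e, ?_⟩
        rw [e]
        exact (hB1 (nb a k) k).2.2.1 _ h3
  have cAA : ∀ {X : Set ℂ} {a b : ℤ × ℤ}, X ∈ Core T (PA R0 a) r → X ∈ Core T (PA R0 b) r →
      a = b := by
    intro X a b h1 h2
    by_contra hne
    exact Set.disjoint_left.1 (dAA a b hne) h1 h2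
  have cBB : ∀ {X : Set ℂ} {a b : ℤ × ℤ}, X ∈ Core T (PB R0 a) r → X ∈ Core T (PB R0 b) r →
      a = b := by
    intro X a b h1 h2
    by_contra hne
    exact Set.disjoint_left.1 (dBB a b hne) h1 h2
  have cAB : ∀ {X : Set ℂ} {a b : ℤ × ℤ}, X ∈ Core T (PA R0 a) r → X ∈ Core T (PB R0 b) r →
      False := by
    intro X a b h1 h2
    exact Set.disjoint_left.1 (dAB a b) h1 h2
  have hinj : ∀ a k i a' k' i', 0 < i → i < n a k → 0 < i' → i' < n a' k' →
      p a k i = p a' k' i' → a = a' ∧ k = k' ∧ i = i' := by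
    intro a k i a' k' i' hi hin hi' hin' he
    rcases zone a k i hin.le with ⟨z1, z2, z3⟩ | ⟨z1, z2, z3, z4⟩ | ⟨z1, z2, z3, z4⟩
    · rcases zone a' k' i' hin'.le with ⟨y1, y2, y3⟩ | ⟨y1, y2, y3, y4⟩ | ⟨y1, y2, y3, y4⟩
      · rw [he] at z3
        have haa : a = a' := cAA z3 y3
        subst haa
        rw [z2, y2] at he
        by_cases hk : k = k'
        · subst hk
          exact ⟨rfl, rfl, (hA1 a k).2.2.2.2 i z1 i' y1 he⟩
        · have := (hA2 a k k' hk i z1 i' y1 he).1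
          omega
      · rw [he] at z3
        exact absurd z3 (y4 a).1
      · rw [he] at z3
        exact (cAB z3 y4).elim
    · rcases zone a' k' i' hin'.le with ⟨y1, y2, y3⟩ | ⟨y1, y2, y3, y4⟩ | ⟨y1, y2, y3, y4⟩
      · rw [← he] at y3
        exact absurd y3 (z4 a').1
      · by_cases hk : (a, k) = (a', k')
        · have h1 : a = a' := (Prod.mk.inj hk).1
          have h2 : k = k' := (Prod.mk.inj hk).2
          subst h1
          subst h2
          rw [z3, y3] at he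
          have := (hq a k).2.2.2.2.2.1 (i - nA a k) (by omega) (i' - nA a k) (by omega) he
          exact ⟨rfl, rfl, by omega⟩
        · rw [z3, y3] at he
          exact absurd he (hqd a k a' k' (i - nA a k) (i' - nA a' k') hk (by omega) (by omega)
            (by omega) (by omega))
      · rw [← he] at y4
        exact absurd y4 (z4 _).2
    · rcases zone a' k' i' hin'.le with ⟨y1, y2, y3⟩ | ⟨y1, y2, y3, y4⟩ | ⟨y1, y2, y3, y4⟩
      · rw [← he] at y3
        exact (cAB y3 z4).elim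
      · rw [he] at z4
        exact absurd z4 (y4 _).2
      · rw [he] at z4
        have hbb : nb a k = nb a' k' := cBB z4 y4
        rw [z3, y3, hbb] at he
        rw [hbb] at z2
        by_cases hk : k = k'
        · subst hk
          have haa : a = a' := by
            rw [← skel_ex_ia_nb a k, hbb, skel_ex_ia_nb]
          subst haa
          have := (hB1 (nb a k) k).2.2.2.2 _ z2 _ y2 he
          exact ⟨rfl, rfl, by omega⟩
        · have := (hB2 (nb a' k') k k' hk _ z2 _ y2 he).1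
          omega
  have hnodeA : ∀ a k i b, 0 < i → i < n a k → p a k i ≠ hA b := by
    intro a k i b hi hin he
    have hbm := hAmem b
    rw [← he] at hbm
    rcases zone a k i hin.le with ⟨z1, z2, z3⟩ | ⟨z1, z2, z3, z4⟩ | ⟨z1, z2, z3, z4⟩
    · have hab : a = b := cAA z3 hbm
      subst hab
      rw [z2, ← (hA1 a k).1] at he
      have := (hA1 a k).2.2.2.2 i z1 0 (Nat.zero_le _) he
      omega
    · exact (z4 b).1 hbm
    · exact cAB hbm z4
  have hnodeB : ∀ a k i b, 0 < i → i < n a k → p a k i ≠ hB b := by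
    intro a k i b hi hin he
    have hbm := hBmem b
    rw [← he] at hbm
    rcases zone a k i hin.le with ⟨z1, z2, z3⟩ | ⟨z1, z2, z3, z4⟩ | ⟨z1, z2, z3, z4⟩
    · exact cAB z3 hbm
    · exact (z4 b).2 hbm
    · have hab : nb a k = b := cBB z4 hbm
      subst hab
      rw [z3, ← (hB1 (nb a k) k).1] at he
      have := (hB1 (nb a k) k).2.2.2.2 _ z2 0 (Nat.zero_le _) he
      omega
  have hAB : ∀ a b, hA a ≠ hB b := by
    intro a b he
    have h1 := hAmem a
    rw [he] at h1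
    exact cAB h1 (hBmem b)
  have hstart : ∀ a k, p a k 0 = hA a := by
    intro a k
    rw [vA a k 0 (Nat.zero_le _), (hA1 a k).1]
  have hstop : ∀ a k, p a k (n a k) = hB (nb a k) := by
    intro a k
    rw [vB a k (n a k) (by rw [hn]; omega), Nat.sub_self, (hB1 (nb a k) k).1]
  have hmem : ∀ a k i, i ≤ n a k → p a k i ∈ T ∧ ∃ y ∈ p a k i, ‖y - PA R0 a‖ ≤ 2 * R0 := by
    intro a k i hi
    rcases zone a k i hi with ⟨z1, z2, z3⟩ | ⟨z1, z2, z3, z4⟩ | ⟨z1, z2, z3, z4⟩
    · obtain ⟨hT, y, hy1, hy2⟩ := z3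
      refine ⟨hT, y, hy1, ?_⟩
      rw [mem_ball, dist_eq_norm] at hy2
      linarith
    · rw [z3]
      exact (hq a k).2.2.2.1 (i - nA a k) (by omega)
    · obtain ⟨hT, y, hy1, hy2⟩ := z4
      refine ⟨hT, y, hy1, ?_⟩
      rw [mem_ball, dist_eq_norm, hex_nb] at hy2
      have e : y - PA R0 a = (y - (PA R0 a + R0 * dir k)) + R0 * dir k := by ring
      rw [e]
      have h1 : ‖(R0 : ℂ) * dir k‖ ≤ R0 := by
        rw [norm_mul, Complex.norm_real, Real.norm_eq_abs, abs_of_pos hR]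
        have := skel_ex_dir k
        nlinarith
      have h2 := norm_add_le (y - (PA R0 a + R0 * dir k)) (R0 * dir k)
      linarith
  have hpinj : ∀ a k i j, i ≤ n a k → j ≤ n a k → p a k i = p a k j → i = j := by
    intro a k i j hi hj he
    by_cases i0 : i = 0
    · by_cases j0 : j = 0
      · omega
      · subst i0
        rw [hstart] at he
        by_cases jn : j = n a k
        · rw [jn, hstop] at he
          exact absurd he (hAB _ _)
        · exact absurd he.symm (hnodeA a k j a (by omega) (by omega))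
    · by_cases j0 : j = 0
      · subst j0
        rw [hstart] at he
        by_cases jn : i = n a k
        · rw [jn, hstop] at he
          exact absurd he.symm (hAB _ _)
        · exact absurd he (hnodeA a k i a (by omega) (by omega))
      · by_cases inn : i = n a k
        · by_cases jn : j = n a k
          · omega
          · rw [inn, hstop] at he
            exact absurd he.symm (hnodeB a k j _ (by omega) (by omega))
        · by_cases jn : j = n a k
          · rw [jn, hstop] at he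
            exact absurd he (hnodeB a k i _ (by omega) (by omega))
          · exact (hinj a k i a k j (by omega) (by omega) (by omega) (by omega) he).2.2
  obtain ⟨N, hN⟩ := g_locfin h (2 * R0)
  refine ⟨R0, r, N, hA, hB, p, n, ?_⟩
  refine
    { Rpos := hR
      memA := ?_
      memB := ?_
      start := hstart
      stop := hstop
      len := ?_
      mem := hmem
      step := ?_
      inj := hinj
      nodeA := hnodeA
      nodeB := hnodeB
      injA := ?_
      injB := ?_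
      AB := hAB }
  · intro a
    obtain ⟨hT, y, hy1, hy2⟩ := hAmem a
    refine ⟨hT, y, hy1, ?_⟩
    rw [mem_ball, dist_eq_norm] at hy2
    exact hy2.le
  · intro a
    obtain ⟨hT, y, hy1, hy2⟩ := hBmem a
    refine ⟨hT, y, hy1, ?_⟩
    rw [mem_ball, dist_eq_norm] at hy2
    exact hy2.le
  · intro a k
    constructor
    · rw [hn]
      have := (hq a k).1
      omega
    · obtain ⟨hfin, hcard⟩ := hN (PA R0 a)
      have hsub : (((Finset.range (n a k + 1)).image (p a k) : Finset (Set ℂ)) : Set (Set ℂ)) ⊆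
          {A | A ∈ T ∧ (A ∩ closedBall (PA R0 a) (2 * R0)).Nonempty} := by
        intro X hX
        rw [Finset.mem_coe, Finset.mem_image] at hX
        obtain ⟨i, hi, rfl⟩ := hX
        rw [Finset.mem_range] at hi
        obtain ⟨h1, y, hy1, hy2⟩ := hmem a k i (by omega)
        refine ⟨h1, y, hy1, ?_⟩
        rw [mem_closedBall, dist_eq_norm]
        exact hy2
      have h1 := Set.ncard_le_ncard hsub hfin
      rw [Set.ncard_coe_finset, Finset.card_image_of_injOn, Finset.card_range] at h1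
      · omega
      · intro i hi j hj he
        rw [Finset.mem_coe, Finset.mem_range] at hi hj
        exact hpinj a k i j (by omega) (by omega) he
  · intro a k i hi
    have hnn := hn a k
    by_cases h1 : i < nA a k
    · rw [vA a k i h1.le, vA a k (i + 1) h1]
      exact (hA1 a k).2.2.2.1 i h1
    · by_cases h2 : i < nA a k + m a k
      · rw [vQ a k i (by omega) h2.le, vQ a k (i + 1) (by omega) h2]
        have e : i + 1 - nA a k = (i - nA a k) + 1 := by omega
        rw [e]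
        exact (hq a k).2.2.2.2.1 (i - nA a k) (by omega)
      · rw [vB a k i (by omega), vB a k (i + 1) (by omega)]
        have e : n a k - i = (n a k - (i + 1)) + 1 := by omega
        rw [e]
        exact hadj _ _ ((hB1 (nb a k) k).2.2.2.1 (n a k - (i + 1)) (by omega))
  · intro a b he
    have h1 := hAmem a
    rw [he] at h1
    exact cAA h1 (hAmem b)
  · intro a b he
    have h1 := hBmem a
    rw [he] at h1
    exact cBB h1 (hBmem b)

end J26676

alias skel_ex := J26676.skel_ex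

namespace J26678

/-! ### TARGET of this job: dr_side -/

theorem dr_side (d : ℕ → ℝ) (n : ℕ) (b : ℝ) (hb : 0 ≤ b) (h0 : d 0 ≤ 0) (hn : d n ≤ 0)
    (hd : ∀ i, 0 < i → i < n → d i ≤ (d (i - 1) + d (i + 1)) / 2 + b) :
    ∀ i ≤ n, d i ≤ b * n ^ 2 := by
  classical
  obtain ⟨e, he⟩ : ∃ e : ℕ → ℝ, ∀ i, e i = d i - b * i * (n - i) := ⟨_, fun _ => rfl⟩
  have h1 : ∀ i, 0 < i → i < n → e i ≤ (e (i - 1) + e (i + 1)) / 2 := by
    intro i hi hin
    have h2 := hd i hi hin
    rw [he, he, he]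
    obtain ⟨k, rfl⟩ : ∃ k, i = k + 1 := ⟨i - 1, by omega⟩
    simp only [Nat.add_sub_cancel] at h2 ⊢
    push_cast at h2 ⊢
    nlinarith
  have h2 : ∀ i ≤ n, e i ≤ 0 := by
    by_contra hc
    push Not at hc
    obtain ⟨i0, hi0, hpos⟩ := hc
    obtain ⟨j, hj, hmax⟩ := Finset.exists_max_image (Finset.range (n + 1)) e
      ⟨0, Finset.mem_range.2 (by omega)⟩
    have hmax' : ∀ i ≤ n, e i ≤ e j := fun i hi => hmax i (Finset.mem_range.2 (by omega))
    have hjn : j ≤ n := by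
      have := Finset.mem_range.1 hj
      omega
    have hjp : 0 < e j := lt_of_lt_of_le hpos (hmax' i0 hi0)
    have hex : ∃ i, i ≤ n ∧ e i = e j := ⟨j, hjn, rfl⟩
    have hs := Nat.find_spec hex
    have hmin := fun m (hm : m < Nat.find hex) => Nat.find_min hex hm
    set i := Nat.find hex with hi
    have hi0' : i ≠ 0 := by
      intro h
      have h3 := hs.2
      rw [h, he 0] at h3
      simp at h3
      linarith
    have hin : i ≠ n := by
      intro h
      have h3 := hs.2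
      rw [h, he n] at h3
      simp at h3
      linarith
    have hlt : i < n := lt_of_le_of_ne hs.1 hin
    have h4 := h1 i (Nat.pos_of_ne_zero hi0') hlt
    have h5 := hmax' (i + 1) hlt
    have h6 : e (i - 1) < e j := by
      refine lt_of_le_of_ne (hmax' (i - 1) (by omega)) fun h => ?_
      exact hmin (i - 1) (by omega) ⟨by omega, h⟩
    rw [hs.2] at h4
    linarith
  intro i hi
  have h3 := h2 i hi
  rw [he] at h3
  have hi' : (i : ℝ) ≤ n := by exact_mod_cast hi
  have hi0 : (0 : ℝ) ≤ i := Nat.cast_nonneg i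
  have h4 : (i : ℝ) * (n - i) ≤ n ^ 2 := by nlinarith
  have h5 := mul_le_mul_of_nonneg_left h4 hb
  nlinarith

end J26678

alias dr_side := J26678.dr_side

namespace J26677

/-! ### TARGET of this job: dir_dot -/

theorem dir_dot (z : ℂ) (hz : ‖z‖ = 1) : (∃ k, 1 / 2 ≤ dot z (dir k)) ∧ (∃ k, dot z (dir k) ≤ -(1 / 2)) := by
  have key : ∀ z : ℂ, ‖z‖ = 1 → ∃ k, 1 / 2 ≤ dot z (dir k) := by
    intro z hz
    have hsq : z.re ^ 2 + z.im ^ 2 = 1 := by
      have := Complex.normSq_eq_norm_sq z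
      rw [hz, Complex.normSq_apply] at this
      nlinarith
    have h3 : √3 ^ 2 = 3 := Real.sq_sqrt (by norm_num)
    have h3p : 0 < √3 := Real.sqrt_pos.mpr (by norm_num)
    by_cases h1 : 1 / 2 ≤ z.re
    · refine ⟨0, ?_⟩
      simp [dot, dir]
      linarith
    · push Not at h1
      have hre : -1 ≤ z.re := by nlinarith [sq_nonneg z.im]
      rcases le_total 0 z.im with h | h
      · refine ⟨1, ?_⟩
        simp [dot, dir]
        by_contra hcon
        push Not at hcon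
        have h4 : √3 * z.im < 1 + z.re := by linarith
        have h5 : 0 ≤ √3 * z.im := by positivity
        have h6 : (√3 * z.im) ^ 2 < (1 + z.re) ^ 2 := by
          apply pow_lt_pow_left₀ h4 h5 (by norm_num)
        have h7 : (√3 * z.im) ^ 2 = 3 * (1 - z.re ^ 2) := by
          rw [mul_pow, h3]; nlinarith
        nlinarith
      · refine ⟨2, ?_⟩
        simp [dot, dir]
        by_contra hcon
        push Not at hcon
        have h4 : √3 * (-z.im) < 1 + z.re := by linarith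
        have h5 : 0 ≤ √3 * (-z.im) := mul_nonneg h3p.le (by linarith)
        have h6 : (√3 * (-z.im)) ^ 2 < (1 + z.re) ^ 2 := by
          apply pow_lt_pow_left₀ h4 h5 (by norm_num)
        have h7 : (√3 * (-z.im)) ^ 2 = 3 * (1 - z.re ^ 2) := by
          rw [mul_pow, h3]; nlinarith
        nlinarith
  refine ⟨key z hz, ?_⟩
  obtain ⟨k, hk⟩ := key (-z) (by rw [norm_neg, hz])
  refine ⟨k, ?_⟩
  have e : dot (-z) (dir k) = - dot z (dir k) := by
    simp [dot]
    try ring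
  rw [e] at hk
  linarith

end J26677

alias dir_dot := J26677.dir_dot

/-- nodes -/
def Nodes (hA hB : ℤ × ℤ → Set ℂ) : Set (Set ℂ) := {t | ∃ a, t = hA a ∨ t = hB a}

namespace J26679

/-! ### TARGET of this job: rank_ex -/

/-- `x` is joined to `Z` by a walk of length `k` with vertices in `S` -/
def rank_ex_Wk {ι : Type} (adj : ι → ι → Prop) (S Z : Set ι) : ℕ → ι → Prop
  | 0, x => x ∈ Z
  | (k + 1), x => ∃ c ∈ S, adj x c ∧ rank_ex_Wk adj S Z k c

theorem rank_ex_mono {ι : Type} {adj : ι → ι → Prop} {S Z S' Z' : Set ι} (hS : S ⊆ S')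
    (hZ : Z ⊆ Z') : ∀ (k : ℕ) (x : ι), rank_ex_Wk adj S Z k x → rank_ex_Wk adj S' Z' k x := by
  intro k
  induction k with
  | zero => intro x hx; exact hZ hx
  | succ k ih =>
    rintro x ⟨c, hc, h1, h2⟩
    exact ⟨c, hS hc, h1, ih c h2⟩

theorem rank_ex_of_jn {ι : Type} {adj : ι → ι → Prop} {S Z : Set ι} {a b : ι} (h : Jn adj S a b)
    (hb : b ∈ Z) : ∃ k, rank_ex_Wk adj S Z k a := by
  have h2 := h.2
  clear h
  induction h2 using Relation.ReflTransGen.head_induction_on with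
  | refl => exact ⟨0, hb⟩
  | head h1 _ ih =>
    obtain ⟨k, hk⟩ := ih
    exact ⟨k + 1, _, h1.2, h1.1, hk⟩

theorem rank_ex_layers {ι : Type} {adj : ι → ι → Prop} {S Z : Set ι} :
    ∀ (K : ℕ) (x : ι), x ∈ S → rank_ex_Wk adj S Z K x → (∀ j < K, ¬ rank_ex_Wk adj S Z j x) →
      ∀ m ≤ K, ∃ y ∈ S, rank_ex_Wk adj S Z m y ∧ ∀ j < m, ¬ rank_ex_Wk adj S Z j y := by
  intro K
  induction K with
  | zero =>
    intro x hx h1 h2 m hm
    obtain rfl : m = 0 := by omega
    exact ⟨x, hx, h1, h2⟩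
  | succ K ih =>
    intro x hx h1 h2 m hm
    rcases Nat.lt_or_ge K m with h3 | h3
    · obtain rfl : m = K + 1 := by omega
      exact ⟨x, hx, h1, h2⟩
    · obtain ⟨c, hc, h4, h5⟩ := h1
      refine ih c hc h5 ?_ m h3
      intro j hj h6
      exact h2 (j + 1) (by omega) ⟨c, hc, h4, h6⟩

theorem rank_ex_bound {ι : Type} {adj : ι → ι → Prop} {S Z : Set ι} (hfin : S.Finite) {x : ι}
    (hx : x ∈ S) (h : ∃ k, rank_ex_Wk adj S Z k x) : ∃ k ≤ S.ncard, rank_ex_Wk adj S Z k x := by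
  classical
  refine ⟨Nat.find h, ?_, Nat.find_spec h⟩
  have h1 := rank_ex_layers (Nat.find h) x hx (Nat.find_spec h)
    (fun j hj => Nat.find_min h hj)
  have h2 : ∀ m : Fin (Nat.find h + 1), ∃ y ∈ S, rank_ex_Wk adj S Z m y ∧
      ∀ j < (m : ℕ), ¬ rank_ex_Wk adj S Z j y := fun m => h1 m (by omega)
  choose f hf1 hf2 hf3 using h2
  have hinj : Function.Injective f := by
    intro m m' hmm
    by_contra hne
    rcases Nat.lt_trichotomy (m : ℕ) (m' : ℕ) with h4 | h4 | h4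
    · exact hf3 m' m h4 (hmm ▸ hf2 m)
    · exact hne (Fin.ext h4)
    · exact hf3 m m' h4 (hmm ▸ hf2 m')
  have h5 : (Set.range f) ⊆ S := by
    rintro _ ⟨m, rfl⟩
    exact hf1 m
  have h6 := Set.ncard_le_ncard h5 hfin
  have h7 : (Set.range f).ncard = Nat.find h + 1 := by
    rw [← Set.image_univ, Set.ncard_image_of_injective _ hinj, Set.ncard_univ, Nat.card_eq_fintype_card,
      Fintype.card_fin]
  omega

/-- every tile is joined to a node by a walk of bounded length -/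
theorem rank_ex_walk {T : Set (Set ℂ)} {u U : ℝ} (h : NC T u U) {R r0 : ℝ} {L : ℕ}
    {hA hB : ℤ × ℤ → Set ℂ} {p : ℤ × ℤ → Fin 3 → ℕ → Set ℂ} {n : ℤ × ℤ → Fin 3 → ℕ}
    (hS : Skel T R r0 L hA hB p n) :
    ∃ N : ℕ, ∀ t ∈ T, ∃ k ≤ N, rank_ex_Wk Adj T (Nodes hA hB) k t := by
  obtain ⟨N, hN⟩ := g_locfin h (2 * R + r0 + 2 * U)
  refine ⟨N, ?_⟩
  intro t ht
  have hu := h.upos
  have hR := hS.Rpos
  obtain ⟨z, hz⟩ : ∃ z, z ∈ t := by
    obtain ⟨c, hc⟩ := h.inr t ht
    exact ⟨c, hc (Metric.mem_closedBall_self hu.le)⟩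
  obtain ⟨a, ha⟩ := hex_cov R hR z
  obtain ⟨hAT, y, hy, hyr⟩ := hS.memA a
  have hr0 : 0 ≤ r0 := le_trans (norm_nonneg _) hyr
  -- diameters
  have hdiam : ∀ A ∈ T, ∀ x ∈ A, ∀ x' ∈ A, ‖x - x'‖ ≤ 2 * U := by
    intro A hAm x hx x' hx'
    obtain ⟨c, hc⟩ := h.outr A hAm
    have e1 := Metric.mem_closedBall.mp (hc hx)
    have e2 := Metric.mem_closedBall.mp (hc hx')
    rw [dist_eq_norm] at e1 e2
    calc ‖x - x'‖ = ‖(x - c) - (x' - c)‖ := by congr 1; ring
      _ ≤ ‖x - c‖ + ‖x' - c‖ := norm_sub_le _ _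
      _ ≤ 2 * U := by linarith
  have hU : 0 ≤ U := by
    have := hdiam t ht z hz z hz
    rw [sub_self, norm_zero] at this
    linarith
  set Q : Set (Set ℂ) := {q | q ∈ T ∧ ∃ a' ∈ t, ∃ b' ∈ hA a, (q ∩ segment ℝ a' b').Nonempty} with hQ
  have hsub : Q ⊆ {A | A ∈ T ∧ (A ∩ closedBall (PA R a) (2 * R + r0 + 2 * U)).Nonempty} := by
    rintro q ⟨hqT, a', ha', b', hb', w, hwq, hws⟩
    refine ⟨hqT, w, hwq, ?_⟩
    have h1 : a' ∈ closedBall (PA R a) (2 * R + r0 + 2 * U) := by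
      rw [Metric.mem_closedBall, dist_eq_norm]
      have e1 := hdiam t ht a' ha' z hz
      calc ‖a' - PA R a‖ = ‖(a' - z) + (z - PA R a)‖ := by congr 1; ring
        _ ≤ ‖a' - z‖ + ‖z - PA R a‖ := norm_add_le _ _
        _ ≤ 2 * R + r0 + 2 * U := by linarith
    have h2 : b' ∈ closedBall (PA R a) (2 * R + r0 + 2 * U) := by
      rw [Metric.mem_closedBall, dist_eq_norm]
      have e1 := hdiam (hA a) hAT b' hb' y hy
      calc ‖b' - PA R a‖ = ‖(b' - y) + (y - PA R a)‖ := by congr 1; ring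
        _ ≤ ‖b' - y‖ + ‖y - PA R a‖ := norm_add_le _ _
        _ ≤ 2 * R + r0 + 2 * U := by linarith
    exact (convex_closedBall _ _).segment_subset h1 h2 hws
  have hQfin : Q.Finite := (hN (PA R a)).1.subset hsub
  have hQcard : Q.ncard ≤ N :=
    le_trans (Set.ncard_le_ncard hsub (hN (PA R a)).1) (hN (PA R a)).2
  have hJ : Jn Adj Q t (hA a) := g_seg h ht hAT
  obtain ⟨k, hk, hw⟩ := rank_ex_bound hQfin hJ.1 (rank_ex_of_jn (Z := Nodes hA hB) hJ ⟨a, Or.inl rfl⟩)
  exact ⟨k, le_trans hk hQcard, rank_ex_mono (fun q hq => hq.1) (fun _ hx => hx) k t hw⟩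

theorem rank_ex {T : Set (Set ℂ)} {u U : ℝ} (h : NC T u U) {R r0 : ℝ} {L : ℕ}
    {hA hB : ℤ × ℤ → Set ℂ} {p : ℤ × ℤ → Fin 3 → ℕ → Set ℂ} {n : ℤ × ℤ → Fin 3 → ℕ}
    (hS : Skel T R r0 L hA hB p n) :
    ∃ (ρ : Set ℂ → ℕ) (D : ℕ), (∀ t ∈ T, ρ t ≤ D) ∧
      (∀ a k i, 0 < i → i < n a k → ρ (p a k (i - 1)) < ρ (p a k i)) ∧
      (∀ t ∈ T, t ∉ Nodes hA hB → (∀ a k i, 0 < i → i < n a k → t ≠ p a k i) →
        ∃ s ∈ T, Adj t s ∧ ρ s < ρ t) := by
  classical
  obtain ⟨N, hN⟩ := rank_ex_walk h hS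
  let ρ : Set ℂ → ℕ := fun t =>
    if t ∈ Nodes hA hB then 0
    else if hs : ∃ x : (ℤ × ℤ) × Fin 3 × ℕ, 0 < x.2.2 ∧ x.2.2 < n x.1 x.2.1 ∧ t = p x.1 x.2.1 x.2.2
      then (Classical.choose hs).2.2
      else L + sInf {k | rank_ex_Wk Adj T (Nodes hA hB) k t}
  have ρnode : ∀ t, t ∈ Nodes hA hB → ρ t = 0 := by
    intro t ht
    simp only [ρ]
    rw [if_pos ht]
  have ρside : ∀ a k i, 0 < i → i < n a k → ρ (p a k i) = i := by
    intro a k i hi hin
    have h1 : p a k i ∉ Nodes hA hB := by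
      rintro ⟨b, hb | hb⟩
      · exact hS.nodeA a k i b hi hin hb
      · exact hS.nodeB a k i b hi hin hb
    have h2 : ∃ x : (ℤ × ℤ) × Fin 3 × ℕ, 0 < x.2.2 ∧ x.2.2 < n x.1 x.2.1 ∧
        p a k i = p x.1 x.2.1 x.2.2 := ⟨(a, k, i), hi, hin, rfl⟩
    simp only [ρ]
    rw [if_neg h1, dif_pos h2]
    have h3 := Classical.choose_spec h2
    exact ((hS.inj a k i _ _ _ hi hin h3.1 h3.2.1 h3.2.2).2.2).symm
  have ρother : ∀ t, t ∉ Nodes hA hB → (∀ a k i, 0 < i → i < n a k → t ≠ p a k i) →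
      ρ t = L + sInf {k | rank_ex_Wk Adj T (Nodes hA hB) k t} := by
    intro t h1 h2
    have h3 : ¬ ∃ x : (ℤ × ℤ) × Fin 3 × ℕ, 0 < x.2.2 ∧ x.2.2 < n x.1 x.2.1 ∧
        t = p x.1 x.2.1 x.2.2 := by
      rintro ⟨⟨a, k, i⟩, hi, hin, he⟩
      exact h2 a k i hi hin he
    simp only [ρ]
    rw [if_neg h1, dif_neg h3]
  -- upper bound for all tiles
  have hub : ∀ t, ∀ k, rank_ex_Wk Adj T (Nodes hA hB) k t → ρ t ≤ L + k := by
    intro t k hk
    by_cases h1 : t ∈ Nodes hA hB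
    · rw [ρnode t h1]; omega
    · by_cases h2 : ∀ a k i, 0 < i → i < n a k → t ≠ p a k i
      · rw [ρother t h1 h2]
        have := Nat.sInf_le (s := {k | rank_ex_Wk Adj T (Nodes hA hB) k t}) hk
        omega
      · push Not at h2
        obtain ⟨a, k', i, hi, hin, he⟩ := h2
        rw [he, ρside a k' i hi hin]
        have := (hS.len a k').2
        omega
  refine ⟨ρ, L + N, ?_, ?_, ?_⟩
  · intro t ht
    obtain ⟨k, hk, hw⟩ := hN t ht
    exact le_trans (hub t k hw) (by omega)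
  · intro a k i hi hin
    rw [ρside a k i hi hin]
    rcases Nat.eq_or_lt_of_le hi with h1 | h1
    · have h2 : i - 1 = 0 := by omega
      rw [h2, hS.start a k, ρnode (hA a) ⟨a, Or.inl rfl⟩]
      exact hi
    · rw [ρside a k (i - 1) (by omega) (by omega)]
      omega
  · intro t ht h1 h2
    obtain ⟨k, hk, hw⟩ := hN t ht
    have hmem := Nat.sInf_mem (s := {k | rank_ex_Wk Adj T (Nodes hA hB) k t}) ⟨k, hw⟩
    have hρ := ρother t h1 h2
    generalize hK : sInf {k | rank_ex_Wk Adj T (Nodes hA hB) k t} = K at hmem hρ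
    cases K with
    | zero => exact absurd hmem h1
    | succ K =>
      obtain ⟨c, hc, h3, h4⟩ := hmem
      refine ⟨c, hc, h3, ?_⟩
      have := hub c K h4
      omega

end J26679

alias rank_ex := J26679.rank_ex

namespace J26680

/-! ### TARGET of this job: drw_mid -/

theorem fs_gen508 {ι V : Type} [AddCommGroup V] [Module ℝ V] {S : Set ι} (hfin : S.Finite) (e : ℝ)
    (pv nx : ι) (uu d1 d2 : ι → ℝ) (hs : ∀ s, uu s ≠ 0 → s ∈ S) (h1 : d1 pv = 1 / 2)
    (h1' : ∀ s, s ≠ pv → d1 s = 0) (h2 : d2 nx = 1 / 2) (h2' : ∀ s, s ≠ nx → d2 s = 0) (f : ι → V) :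
    (∑ᶠ s, ((1 - e) * (d1 s + d2 s) + e * uu s) • f s) =
      ((1 - e) / 2) • (f pv + f nx) + e • ∑ᶠ s, uu s • f s := by
  classical
  set F : Finset ι := hfin.toFinset ∪ {pv, nx} with hF
  have hpv : pv ∈ F := by simp [hF]
  have hnx : nx ∈ F := by simp [hF]
  have e1 : (∑ᶠ s, ((1 - e) * (d1 s + d2 s) + e * uu s) • f s) =
      ∑ s ∈ F, ((1 - e) * (d1 s + d2 s) + e * uu s) • f s := by
    apply finsum_eq_sum_of_support_subset
    intro s hs'
    by_contra hsF
    simp only [hF, Finset.coe_union, Finset.coe_insert, Finset.coe_singleton, Set.Finite.coe_toFinset,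
      mem_union, mem_insert_iff, mem_singleton_iff, not_or] at hsF
    apply hs'
    have : uu s = 0 := by
      by_contra h
      exact hsF.1 (hs s h)
    show ((1 - e) * (d1 s + d2 s) + e * uu s) • f s = 0
    rw [this, h1' s hsF.2.1, h2' s hsF.2.2]
    simp
  have e2 : (∑ᶠ s, uu s • f s) = ∑ s ∈ F, uu s • f s := by
    apply finsum_eq_sum_of_support_subset
    intro s hs'
    have : uu s ≠ 0 := fun h => hs' (by simp [h])
    simp only [hF, Finset.coe_union, Finset.coe_insert, Finset.coe_singleton, Set.Finite.coe_toFinset,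
      mem_union]
    exact Or.inl (hs s this)
  rw [e1, e2]
  have e3 : ∀ s, ((1 - e) * (d1 s + d2 s) + e * uu s) • f s =
      ((if s = pv then ((1 - e) / 2) • f s else 0) + (if s = nx then ((1 - e) / 2) • f s else 0)) +
        e • (uu s • f s) := by
    intro s
    have k1 : d1 s = if s = pv then 1 / 2 else 0 := by
      split_ifs with h
      · rw [h, h1]
      · exact h1' s h
    have k2 : d2 s = if s = nx then 1 / 2 else 0 := by
      split_ifs with h
      · rw [h, h2]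
      · exact h2' s h
    rw [k1, k2]
    split_ifs <;> module
  rw [Finset.sum_congr rfl fun s _ => e3 s, Finset.sum_add_distrib, Finset.sum_add_distrib,
    Finset.sum_ite_eq', Finset.sum_ite_eq', if_pos hpv, if_pos hnx, Finset.smul_sum, smul_add]

theorem usum508 {ι : Type} {S : Set ι} (hfin : S.Finite) (hne : S.Nonempty) (v : ι → ℝ)
    (h1 : ∀ s ∈ S, v s = 1 / (S.ncard : ℝ)) (h2 : ∀ s, s ∉ S → v s = 0) :
    (∑ᶠ s, v s) = 1 := by
  classical
  have e1 : (∑ᶠ s, v s) = ∑ s ∈ hfin.toFinset, v s := by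
    apply finsum_eq_sum_of_support_subset
    intro s hs
    rw [Set.Finite.coe_toFinset]
    by_contra h
    exact hs (h2 s h)
  rw [e1, Finset.sum_congr rfl (fun s hs => h1 s ((Set.Finite.mem_toFinset hfin).1 hs)),
    Finset.sum_const, nsmul_eq_mul, ← Set.ncard_eq_toFinset_card S hfin]
  have : (S.ncard : ℝ) ≠ 0 := by
    have := (Set.ncard_pos hfin).2 hne
    positivity
  field_simp

theorem drw_mid {T : Set (Set ℂ)} {u U : ℝ} (h : NC T u U) {R r0 : ℝ} {L : ℕ}
    {hA hB : ℤ × ℤ → Set ℂ} {p : ℤ × ℤ → Fin 3 → ℕ → Set ℂ} {n : ℤ × ℤ → Fin 3 → ℕ}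
    (hS : Skel T R r0 L hA hB p n) :
    ∃ (ρ : Set ℂ → ℕ) (D : ℕ) (C0 : ℝ) (N : ℕ), 0 < C0 ∧ 0 < N ∧ (∀ t ∈ T, ρ t ≤ D) ∧
      (∀ t ∈ T, t ∉ Nodes hA hB → ∃ s ∈ T, Adj t s ∧ ρ s < ρ t) ∧
      ∀ ε : ℝ, 0 < ε → ε ≤ 1 / 2 → ∃ (w : Set ℂ → Set ℂ → ℝ) (x : Set ℂ → ℂ),
        (∀ t ∈ T, t ∉ Nodes hA hB → (∀ s, w t s ≠ 0 → s ∈ T ∧ Adj t s) ∧
          (∀ s ∈ T, Adj t s → ε / N ≤ w t s) ∧ ∑ᶠ s, w t s = 1 ∧
          x t = ∑ᶠ s, (w t s : ℂ) * x s) ∧
        (∀ a, x (hA a) = PA R a) ∧ (∀ a, x (hB a) = PB R a) ∧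
        (∀ t ∈ T, ∀ y ∈ t, ‖x t - y‖ ≤ C0) ∧
        (∀ a k i, 0 < i → i < n a k →
          ‖x (p a k i) - (x (p a k (i - 1)) + x (p a k (i + 1))) / 2‖ ≤ ε * C0) := by
  classical
  obtain ⟨ρ, D, hρD, hρs, hρo⟩ := rank_ex h hS
  obtain ⟨N₀, hN₀⟩ := g_locfin h U
  -- neighbours
  set nbr : Set ℂ → Set (Set ℂ) := fun t => {s | s ∈ T ∧ Adj t s} with hnbr
  have nbrsub : ∀ t ∈ T, ∃ c, nbr t ⊆ {A | A ∈ T ∧ (A ∩ closedBall c U).Nonempty} := by
    intro t ht
    obtain ⟨c, hc⟩ := h.outr t ht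
    refine ⟨c, fun s hs => ⟨hs.1, ?_⟩⟩
    obtain ⟨y, hy⟩ := hs.2.2.nonempty
    exact ⟨y, hy.2, hc hy.1⟩
  have nbrfin : ∀ t ∈ T, (nbr t).Finite := by
    intro t ht
    obtain ⟨c, hc⟩ := nbrsub t ht
    exact (hN₀ c).1.subset hc
  have nbrcard : ∀ t ∈ T, (nbr t).ncard ≤ N₀ := by
    intro t ht
    obtain ⟨c, hc⟩ := nbrsub t ht
    exact (Set.ncard_le_ncard hc (hN₀ c).1).trans (hN₀ c).2
  -- side tiles
  set Side : Set ℂ → Prop := fun t => ∃ a k i, 0 < i ∧ i < n a k ∧ t = p a k i with hSide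
  have hpn : ∀ t, ∃ pv nx : Set ℂ, ∀ a k i, 0 < i → i < n a k → t = p a k i →
      pv = p a k (i - 1) ∧ nx = p a k (i + 1) := by
    intro t
    by_cases hs : Side t
    · obtain ⟨a, k, i, hi, hin, rfl⟩ := hs
      refine ⟨p a k (i - 1), p a k (i + 1), fun a' k' i' hi' hin' he => ?_⟩
      obtain ⟨rfl, rfl, rfl⟩ := hS.inj a k i a' k' i' hi hin hi' hin' he
      exact ⟨rfl, rfl⟩
    · exact ⟨t, t, fun a k i hi hin he => absurd ⟨a, k, i, hi, hin, he⟩ hs⟩
  choose pv nx hpv using hpn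
  have sideP : ∀ t, Side t → t ∈ T ∧ t ∉ Nodes hA hB ∧ pv t ∈ nbr t ∧ nx t ∈ nbr t ∧ ρ (pv t) < ρ t := by
    rintro t ⟨a, k, i, hi, hin, rfl⟩
    obtain ⟨e1, e2⟩ := hpv _ a k i hi hin rfl
    rw [e1, e2]
    refine ⟨(hS.mem a k i hin.le).1, ?_, ⟨(hS.mem a k (i - 1) (by omega)).1, ?_⟩,
      ⟨(hS.mem a k (i + 1) hin).1, hS.step a k i hin⟩, hρs a k i hi hin⟩
    · rintro ⟨b, hb | hb⟩
      · exact hS.nodeA a k i b hi hin hb
      · exact hS.nodeB a k i b hi hin hb
    · have := hS.step a k (i - 1) (by omega)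
      rw [Nat.sub_add_cancel hi] at this
      exact adj_symm this
  have rkall : ∀ t ∈ T, t ∉ Nodes hA hB → ∃ s ∈ T, Adj t s ∧ ρ s < ρ t := by
    intro t ht htn
    by_cases hs : Side t
    · obtain ⟨-, -, h1, -, h2⟩ := sideP t hs
      exact ⟨pv t, h1.1, h1.2, h2⟩
    · exact hρo t ht htn fun a k i hi hin he => hs ⟨a, k, i, hi, hin, he⟩
  have nbrne : ∀ t ∈ T, t ∉ Nodes hA hB → (nbr t).Nonempty := by
    intro t ht htn
    obtain ⟨s, h1, h2, -⟩ := rkall t ht htn
    exact ⟨s, h1, h2⟩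
  set N : ℕ := N₀ + 1 with hN
  have hNpos : (0 : ℝ) < N := by rw [hN]; positivity
  have hN' : (0 : ℝ) < (N : ℝ)⁻¹ := by positivity
  set κ : ℝ := min (1 / 4) (1 / N) with hκ
  have hκpos : 0 < κ := lt_min (by norm_num) (by positivity)
  obtain ⟨K, hK, hdir⟩ := dirichlet D κ hκpos
  -- the reference points
  have hU : 0 ≤ U := by
    obtain ⟨A, hA', -⟩ := h.cover 0
    obtain ⟨c, hc⟩ := h.outr A hA'
    obtain ⟨c', hc'⟩ := h.inr A hA'
    have h1 : c' ∈ closedBall c U := hc (hc' (mem_closedBall_self h.upos.le))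
    exact dist_nonneg.trans h1
  have hdiam : ∀ t ∈ T, ∀ y ∈ t, ∀ y' ∈ t, ‖y - y'‖ ≤ 2 * U := by
    intro t ht y hy y' hy'
    obtain ⟨c, hc⟩ := h.outr t ht
    have h1 := hc hy
    have h2 := hc hy'
    rw [mem_closedBall] at h1 h2
    rw [← dist_eq_norm]
    have := dist_triangle_right y y' c
    linarith
  have hr0 : 0 ≤ r0 := by
    obtain ⟨-, y, -, hy⟩ := hS.memA (0, 0)
    exact (norm_nonneg _).trans hy
  have hz : ∀ t, ∃ z : ℂ, (∀ a, t = hA a → z = PA R a) ∧ (∀ a, t = hB a → z = PB R a) ∧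
      (t ∈ T → ∀ y ∈ t, ‖z - y‖ ≤ r0 + 2 * U) := by
    intro t
    by_cases h1 : ∃ a, t = hA a
    · obtain ⟨a, rfl⟩ := h1
      refine ⟨PA R a, fun a' he => by rw [hS.injA he], fun b hb => absurd hb (hS.AB a b), ?_⟩
      intro ht y hy
      obtain ⟨-, y', hy', hy''⟩ := hS.memA a
      have := hdiam _ ht y' hy' y hy
      calc ‖PA R a - y‖ = ‖(PA R a - y') + (y' - y)‖ := by congr 1; ring
        _ ≤ ‖PA R a - y'‖ + ‖y' - y‖ := norm_add_le _ _
        _ ≤ _ := by rw [norm_sub_rev (PA R a) y']; linarith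
    · by_cases h2 : ∃ b, t = hB b
      · obtain ⟨b, rfl⟩ := h2
        refine ⟨PB R b, fun a he => absurd he.symm (hS.AB a b), fun b' he => by rw [hS.injB he], ?_⟩
        intro ht y hy
        obtain ⟨-, y', hy', hy''⟩ := hS.memB b
        have := hdiam _ ht y' hy' y hy
        calc ‖PB R b - y‖ = ‖(PB R b - y') + (y' - y)‖ := by congr 1; ring
          _ ≤ ‖PB R b - y'‖ + ‖y' - y‖ := norm_add_le _ _
          _ ≤ _ := by rw [norm_sub_rev (PB R b) y']; linarith
      · by_cases h3 : t.Nonempty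
        · obtain ⟨z, hz⟩ := h3
          refine ⟨z, fun a he => absurd ⟨a, he⟩ h1, fun b he => absurd ⟨b, he⟩ h2, ?_⟩
          intro ht y hy
          have := hdiam t ht z hz y hy
          linarith
        · exact ⟨0, fun a he => absurd ⟨a, he⟩ h1, fun b he => absurd ⟨b, he⟩ h2,
            fun _ y hy => absurd ⟨y, hy⟩ h3⟩
  choose z hzA hzB hzT using hz
  set c1 : ℝ := r0 + 2 * U with hc1
  have hc1n : 0 ≤ c1 := by positivity
  set b : ℝ := 2 * c1 with hb
  have hbn : 0 ≤ b := by positivity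
  have hadjz : ∀ t ∈ T, ∀ s ∈ nbr t, ‖z s - z t‖ ≤ b := by
    intro t ht s hs
    obtain ⟨y, hy⟩ := hs.2.2.nonempty
    have h1 := hzT s hs.1 y hy.2
    have h2 := hzT t ht y hy.1
    calc ‖z s - z t‖ = ‖(z s - y) - (z t - y)‖ := by congr 1; ring
      _ ≤ ‖z s - y‖ + ‖z t - y‖ := norm_sub_le _ _
      _ ≤ b := by rw [hb]; linarith
  refine ⟨ρ, D, 4 * (K * b + c1) + 1, N, by positivity, by omega, hρD, rkall, ?_⟩
  intro ε hε hε2
  set uu : Set ℂ → Set ℂ → ℝ := fun t s => if s ∈ nbr t then (1 / ((nbr t).ncard : ℝ)) else 0 with huu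
  set e : Set ℂ → ℝ := fun t => if Side t then ε else 1 with he
  set w : Set ℂ → Set ℂ → ℝ := fun t s => (1 - e t) * ((if s = pv t then (1 / 2 : ℝ) else 0) +
      (if s = nx t then (1 / 2 : ℝ) else 0)) + e t * uu t s with hw
  have heε : ∀ t, ε ≤ e t := by
    intro t; simp only [he]; split_ifs <;> linarith
  have he1 : ∀ t, e t ≤ 1 := by
    intro t; simp only [he]; split_ifs <;> linarith
  have huu0 : ∀ t s, 0 ≤ uu t s := by
    intro t s; simp only [huu]; split_ifs <;> positivity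
  have huus : ∀ t s, uu t s ≠ 0 → s ∈ nbr t := by
    intro t s hs
    by_contra hn
    exact hs (by simp only [huu, if_neg hn])
  have hind : ∀ t s, 0 ≤ ((if s = pv t then (1 / 2 : ℝ) else 0) + (if s = nx t then (1 / 2 : ℝ) else 0)) := by
    intro t s; split_ifs <;> norm_num
  have hw0 : ∀ t s, 0 ≤ w t s := by
    intro t s
    have := hind t s
    have := huu0 t s
    have := he1 t
    have := heε t
    simp only [hw]
    exact add_nonneg (mul_nonneg (by linarith) (hind t s)) (mul_nonneg (by linarith) (huu0 t s))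
  have huule : ∀ t ∈ T, ∀ s ∈ nbr t, 1 / (N : ℝ) ≤ uu t s := by
    intro t ht s hs
    simp only [huu, if_pos hs]
    have h1 : 0 < (nbr t).ncard := (Set.ncard_pos (nbrfin t ht)).2 ⟨s, hs⟩
    have h2 := nbrcard t ht
    have h1' : (0 : ℝ) < (nbr t).ncard := by exact_mod_cast h1
    have h2' : ((nbr t).ncard : ℝ) ≤ N := by rw [hN]; exact_mod_cast h2.trans (Nat.le_succ _)
    exact one_div_le_one_div_of_le h1' h2'
  have huusum : ∀ t ∈ T, t ∉ Nodes hA hB → ∑ᶠ s, uu t s = 1 := fun t ht htn =>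
    usum508 (nbrfin t ht) (nbrne t ht htn) (uu t) (fun s hs => if_pos hs) (fun s hs => if_neg hs)
  have hwgen : ∀ t ∈ T, ∀ f : Set ℂ → ℂ, (∑ᶠ s, (w t s : ℂ) * f s) =
      ((1 - e t) / 2) • (f (pv t) + f (nx t)) + e t • ∑ᶠ s, uu t s • f s := by
    intro t ht f
    have := fs_gen508 (nbrfin t ht) (e t) (pv t) (nx t) (uu t)
      (fun s => if s = pv t then (1 / 2 : ℝ) else 0) (fun s => if s = nx t then (1 / 2 : ℝ) else 0) (huus t)
      (if_pos rfl) (fun s hs => if_neg hs) (if_pos rfl) (fun s hs => if_neg hs) f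
    rw [← this]
    refine finsum_congr fun s => ?_
    rw [Complex.real_smul]
  have hwsum : ∀ t ∈ T, t ∉ Nodes hA hB → ∑ᶠ s, w t s = 1 := by
    intro t ht htn
    have := fs_gen508 (nbrfin t ht) (e t) (pv t) (nx t) (uu t)
      (fun s => if s = pv t then (1 / 2 : ℝ) else 0) (fun s => if s = nx t then (1 / 2 : ℝ) else 0) (huus t)
      (if_pos rfl) (fun s hs => if_neg hs) (if_pos rfl) (fun s hs => if_neg hs) (fun _ => (1 : ℝ))
    simp only [smul_eq_mul, mul_one] at this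
    rw [show (∑ᶠ s, w t s) = _ from this, huusum t ht htn]
    ring
  have hwnz : ∀ t ∈ T, ∀ s, w t s ≠ 0 → s ∈ nbr t := by
    intro t ht s hs
    by_contra hn
    apply hs
    have h1 : uu t s = 0 := by
      by_contra h; exact hn (huus t s h)
    by_cases hsd : Side t
    · obtain ⟨-, -, h2, h3, -⟩ := sideP t hsd
      have h4 : s ≠ pv t := fun h => hn (h ▸ h2)
      have h5 : s ≠ nx t := fun h => hn (h ▸ h3)
      simp only [hw, h1, if_neg h4, if_neg h5]; ring
    · have h4 : e t = 1 := by simp only [he, if_neg hsd]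
      simp only [hw, h1, h4]; ring
  have hwavg : ∀ (t : Set ℂ) (v : Set ℂ → ℝ) (f : Set ℂ → ℂ) (c : ℂ) (M : ℝ), (∀ s, 0 ≤ v s) →
      ∑ᶠ s, v s = 1 → (∀ s, v s ≠ 0 → ‖f s - c‖ ≤ M) → ‖(∑ᶠ s, v s • f s) - c‖ ≤ M := by
    intro t v f c M h0 h1 h2
    have := (convex_closedBall c M).finsum_mem h0 h1 (z := f) fun s hs => by
      rw [mem_closedBall, dist_eq_norm]; exact h2 s hs
    rwa [mem_closedBall, dist_eq_norm] at this
  obtain ⟨x, hx1, hx2, hx3⟩ := hdir T (Nodes hA hB) w ρ z b hbn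
    (fun t ht _ => (nbrfin t ht).subset fun s hs => hwnz t ht s hs)
    (fun t _ _ s => hw0 t s) (fun t ht _ s hs => (hwnz t ht s hs).1) hwsum hρD
    (by
      intro t ht htn
      by_cases hsd : Side t
      · obtain ⟨-, -, h2, h3, h4⟩ := sideP t hsd
        refine ⟨pv t, h4, ?_⟩
        have h5 : e t = ε := by simp only [he, if_pos hsd]
        have h6 : κ ≤ 1 / 4 := min_le_left _ _
        have h7 : (0 : ℝ) ≤ if pv t = nx t then (1 / 2 : ℝ) else 0 := by split_ifs <;> norm_num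
        have h8 : 0 ≤ e t * uu t (pv t) := mul_nonneg (by rw [h5]; linarith) (huu0 _ _)
        simp only [hw, if_true]
        rw [h5] at h8 ⊢
        nlinarith
      · obtain ⟨s, h1, h2, h3⟩ := rkall t ht htn
        refine ⟨s, h3, ?_⟩
        have h5 : e t = 1 := by simp only [he, if_neg hsd]
        have h6 : κ ≤ 1 / N := min_le_right _ _
        have h7 := huule t ht s ⟨h1, h2⟩
        simp only [hw, h5]
        linarith)
    (by
      intro t ht htn
      have := hwavg t (w t) z (z t) b (hw0 t) (hwsum t ht htn) fun s hs => hadjz t ht s (hwnz t ht s hs)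
      simpa only [Complex.real_smul] using this)
  have hTA : ∀ a, hA a ∈ T := fun a => (hS.memA a).1
  have hTB : ∀ a, hB a ∈ T := fun a => (hS.memB a).1
  have hdist : ∀ t ∈ T, ∀ y ∈ t, ‖x t - y‖ ≤ K * b + c1 := by
    intro t ht y hy
    have h1 := hx3 t ht
    have h2 := hzT t ht y hy
    calc ‖x t - y‖ = ‖(x t - z t) + (z t - y)‖ := by congr 1; ring
      _ ≤ ‖x t - z t‖ + ‖z t - y‖ := norm_add_le _ _
      _ ≤ _ := by linarith
  have hadjx : ∀ t ∈ T, ∀ s ∈ nbr t, ‖x s - x t‖ ≤ 2 * (K * b + c1) := by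
    intro t ht s hs
    obtain ⟨y, hy⟩ := hs.2.2.nonempty
    have h1 := hdist s hs.1 y hy.2
    have h2 := hdist t ht y hy.1
    calc ‖x s - x t‖ = ‖(x s - y) - (x t - y)‖ := by congr 1; ring
      _ ≤ ‖x s - y‖ + ‖x t - y‖ := norm_sub_le _ _
      _ ≤ _ := by linarith
  have hMn : 0 ≤ K * b + c1 := by positivity
  refine ⟨w, x, ?_, ?_, ?_, ?_, ?_⟩
  · intro t ht htn
    refine ⟨fun s hs => hwnz t ht s hs, ?_, hwsum t ht htn, hx2 t ht htn⟩
    intro s hs1 hs2
    have h1 := huule t ht s ⟨hs1, hs2⟩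
    have h2 : 0 ≤ (1 - e t) * ((if s = pv t then (1 / 2 : ℝ) else 0) + (if s = nx t then (1 / 2 : ℝ) else 0)) :=
      mul_nonneg (by linarith [he1 t]) (hind t s)
    have h3 : ε * (1 / N) ≤ e t * uu t s := mul_le_mul (heε t) h1 (by positivity) (hε.le.trans (heε t))
    simp only [hw]
    calc ε / N = ε * (1 / N) := by ring
      _ ≤ _ := by linarith
  · intro a
    rw [hx1 (hA a) (hTA a) ⟨a, Or.inl rfl⟩, hzA (hA a) a rfl]
  · intro a
    rw [hx1 (hB a) (hTB a) ⟨a, Or.inr rfl⟩, hzB (hB a) a rfl]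
  · intro t ht y hy
    have := hdist t ht y hy
    linarith
  · intro a k i hi hin
    have hsd : Side (p a k i) := ⟨a, k, i, hi, hin, rfl⟩
    obtain ⟨ht, htn, h2, h3, -⟩ := sideP _ hsd
    obtain ⟨e1, e2⟩ := hpv _ a k i hi hin rfl
    have h5 : e (p a k i) = ε := by simp only [he, if_pos hsd]
    have hh := hx2 _ ht htn
    rw [hwgen _ ht x, h5] at hh
    rw [← e1, ← e2]
    set t := p a k i with htt
    set Q : ℂ := ∑ᶠ s, uu t s • x s with hQ
    have hQb : ‖Q - x t‖ ≤ 2 * (K * b + c1) :=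
      hwavg t (uu t) x (x t) _ (huu0 t) (huusum t ht htn) fun s hs => hadjx t ht s (huus t s hs)
    have hp1 := hadjx t ht _ h2
    have hp2 := hadjx t ht _ h3
    have hid : x t - (x (pv t) + x (nx t)) / 2 = (ε : ℂ) * ((Q - x t) -
        ((x (pv t) - x t) / 2 + (x (nx t) - x t) / 2)) := by
      simp only [Complex.real_smul] at hh
      push_cast at hh
      linear_combination hh
    rw [hid, norm_mul, Complex.norm_real, Real.norm_of_nonneg hε.le]
    have hb1 : ‖(x (pv t) - x t) / 2 + (x (nx t) - x t) / 2‖ ≤ 2 * (K * b + c1) := by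
      refine (norm_add_le _ _).trans ?_
      rw [norm_div, norm_div]
      simp only [Complex.norm_ofNat]
      linarith
    have hb2 := (norm_sub_le (Q - x t) ((x (pv t) - x t) / 2 + (x (nx t) - x t) / 2))
    gcongr
    linarith

end J26680

alias drw_mid := J26680.drw_mid

/-- a drawing `x` of the dual map: harmonic away from nodes, at bounded distance from the tiling -/
structure Drw (T : Set (Set ℂ)) (x : Set ℂ → ℂ) (H : Set (Set ℂ)) (w : Set ℂ → Set ℂ → ℝ)
    (ρ : Set ℂ → ℕ) (C g wm : ℝ) (D : ℕ) : Prop where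
  gpos : 0 < g
  wpos : 0 < wm
  wadj : ∀ t ∈ T, t ∉ H → ∀ s, w t s ≠ 0 → s ∈ T ∧ Adj t s
  wge : ∀ t ∈ T, t ∉ H → ∀ s ∈ T, Adj t s → wm ≤ w t s
  wsum : ∀ t ∈ T, t ∉ H → ∑ᶠ s, w t s = 1
  harm : ∀ t ∈ T, t ∉ H → x t = ∑ᶠ s, (w t s : ℂ) * x s
  node : ∀ t ∈ T, t ∈ H → ∀ z : ℂ, ‖z‖ = 1 → ∃ s ∈ T, Adj t s ∧ dot z (x t) + g ≤ dot z (x s)
  rk : ∀ t ∈ T, ρ t ≤ D
  rk' : ∀ t ∈ T, t ∉ H → ∃ s ∈ T, Adj t s ∧ ρ s < ρ t
  near : ∀ t ∈ T, ∀ y ∈ t, ‖x t - y‖ ≤ C

namespace J26681

theorem drw_ex_side {T : Set (Set ℂ)} {R r0 : ℝ} {L : ℕ} {hA hB : ℤ × ℤ → Set ℂ}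
    {p : ℤ × ℤ → Fin 3 → ℕ → Set ℂ} {n : ℤ × ℤ → Fin 3 → ℕ} (hS : Skel T R r0 L hA hB p n)
    (x : Set ℂ → ℂ) (hxA : ∀ a, x (hA a) = PA R a) (hxB : ∀ a, x (hB a) = PB R a) (b : ℝ)
    (hb : 0 ≤ b)
    (hside : ∀ a k i, 0 < i → i < n a k →
      ‖x (p a k i) - (x (p a k (i - 1)) + x (p a k (i + 1))) / 2‖ ≤ b) (a : ℤ × ℤ) (k : Fin 3) :
    ∀ i ≤ n a k, ‖x (p a k i) - (PA R a + ((i : ℂ) / (n a k : ℂ)) * (R * dir k))‖ ≤
      b * (n a k : ℝ) ^ 2 := by
  have hn : (n a k : ℂ) ≠ 0 := by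
    have := (hS.len a k).1
    exact_mod_cast (by omega : n a k ≠ 0)
  apply dr_side (fun i => ‖x (p a k i) - (PA R a + ((i : ℂ) / (n a k : ℂ)) * (R * dir k))‖) _ b hb
  · show ‖x (p a k 0) - (PA R a + (((0 : ℕ) : ℂ) / (n a k : ℂ)) * (R * dir k))‖ ≤ 0
    rw [hS.start, hxA]
    simp
  · show ‖x (p a k (n a k)) - (PA R a + ((n a k : ℂ) / (n a k : ℂ)) * (R * dir k))‖ ≤ 0
    rw [hS.stop, hxB, hex_nb, div_self hn]
    simp
  · intro i hi0 hi
    obtain ⟨j, rfl⟩ : ∃ j, i = j + 1 := ⟨i - 1, by omega⟩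
    have h1 := hside a k (j + 1) hi0 hi
    rw [Nat.add_sub_cancel] at h1
    show ‖x (p a k (j + 1)) - (PA R a + (((j + 1 : ℕ) : ℂ) / (n a k : ℂ)) * (R * dir k))‖ ≤
      (‖x (p a k (j + 1 - 1)) - (PA R a + (((j + 1 - 1 : ℕ) : ℂ) / (n a k : ℂ)) * (R * dir k))‖ +
      ‖x (p a k (j + 1 + 1)) - (PA R a + (((j + 1 + 1 : ℕ) : ℂ) / (n a k : ℂ)) * (R * dir k))‖) / 2
        + b
    rw [Nat.add_sub_cancel]
    obtain ⟨u, hu⟩ : ∃ u, u = x (p a k j) - (PA R a + ((j : ℂ) / (n a k : ℂ)) * (R * dir k)) :=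
      ⟨_, rfl⟩
    obtain ⟨v, hv⟩ : ∃ v, v = x (p a k (j + 1 + 1)) -
      (PA R a + (((j + 1 + 1 : ℕ) : ℂ) / (n a k : ℂ)) * (R * dir k)) := ⟨_, rfl⟩
    obtain ⟨m, hm⟩ : ∃ m, m = x (p a k (j + 1)) - (x (p a k j) + x (p a k (j + 1 + 1))) / 2 :=
      ⟨_, rfl⟩
    rw [← hu, ← hv]
    rw [← hm] at h1
    have h2 : x (p a k (j + 1)) - (PA R a + (((j + 1 : ℕ) : ℂ) / (n a k : ℂ)) * (R * dir k)) =
        m + (u + v) / 2 := by
      rw [hu, hv, hm]
      push_cast
      ring
    rw [h2]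
    have h3 : ‖(u + v) / 2‖ ≤ (‖u‖ + ‖v‖) / 2 := by
      rw [norm_div, Complex.norm_ofNat]
      have := norm_add_le u v
      linarith
    have h4 := norm_add_le m ((u + v) / 2)
    linarith

theorem drw_ex_dot (z v : ℂ) (hz : ‖z‖ = 1) : -‖v‖ ≤ dot z v := by
  have h1 : dot z v = (starRingEnd ℂ z * v).re := by
    unfold dot
    rw [Complex.mul_re, Complex.conj_re, Complex.conj_im]
    ring
  have h2 : ‖starRingEnd ℂ z * v‖ = ‖v‖ := by
    rw [norm_mul, RCLike.norm_conj, hz, one_mul]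
  have h3 := Complex.abs_re_le_norm (starRingEnd ℂ z * v)
  rw [h2, ← h1] at h3
  exact (abs_le.1 h3).1

theorem drw_ex_nb (b : ℤ × ℤ) (k : Fin 3) : ∃ a, nb a k = b := by
  fin_cases k
  · exact ⟨b, rfl⟩
  · refine ⟨(b.1 + 1, b.2), ?_⟩
    show (b.1 + 1 - 1, b.2) = b
    rw [add_sub_cancel_right]
  · refine ⟨(b.1, b.2 + 1), ?_⟩
    show (b.1, b.2 + 1 - 1) = b
    rw [add_sub_cancel_right]


/-! ### TARGET of this job: drw_ex -/

theorem drw_ex {T : Set (Set ℂ)} {u U : ℝ} (h : NC T u U) :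
    ∃ x H w ρ C g wm D, Drw T x H w ρ C g wm D := by
  obtain ⟨R, r0, L, hA, hB, p, n, hS⟩ := skel_ex h
  obtain ⟨ρ, D, C0, N, hC0, hN, hρ, hρ', hmain⟩ := drw_mid h hS
  have hL : 1 ≤ L := (hS.len (0, 0) 0).1.trans (hS.len (0, 0) 0).2
  have hLr : (1 : ℝ) ≤ L := by exact_mod_cast hL
  have hR := hS.Rpos
  obtain ⟨ε, hεd⟩ : ∃ ε, ε = min (1 / 2 : ℝ) (R / (16 * L ^ 3 * (C0 + 1))) := ⟨_, rfl⟩
  have hε0 : 0 < ε := by
    rw [hεd]
    exact lt_min (by norm_num) (by positivity)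
  have hε1 : ε ≤ 1 / 2 := by rw [hεd]; exact min_le_left _ _
  have hε2 : ε ≤ R / (16 * L ^ 3 * (C0 + 1)) := by rw [hεd]; exact min_le_right _ _
  obtain ⟨w, x, hw, hxA, hxB, hnear, hside⟩ := hmain ε hε0 hε1
  have hbd := drw_ex_side hS x hxA hxB (ε * C0) (by positivity) hside
  have hsmall : ε * C0 * (L : ℝ) ^ 2 ≤ R / (16 * L) := by
    have h1 : ε * C0 * (L : ℝ) ^ 2 ≤ R / (16 * L ^ 3 * (C0 + 1)) * (C0 + 1) * (L : ℝ) ^ 2 := by
      have h2 : ε * C0 ≤ R / (16 * L ^ 3 * (C0 + 1)) * (C0 + 1) :=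
        mul_le_mul hε2 (by linarith) hC0.le (by positivity)
      exact mul_le_mul_of_nonneg_right h2 (by positivity)
    have h3 : R / (16 * L ^ 3 * (C0 + 1)) * (C0 + 1) * (L : ℝ) ^ 2 = R / (16 * L) := by
      field_simp
    rw [h3] at h1
    exact h1
  have hbd2 : ∀ a k i, i ≤ n a k →
      ‖x (p a k i) - (PA R a + ((i : ℂ) / (n a k : ℂ)) * (R * dir k))‖ ≤ R / (16 * L) := by
    intro a k i hi
    refine (hbd a k i hi).trans (le_trans ?_ hsmall)
    have h1 : (n a k : ℝ) ≤ L := by exact_mod_cast (hS.len a k).2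
    have h2 : (n a k : ℝ) ^ 2 ≤ (L : ℝ) ^ 2 := by
      exact pow_le_pow_left₀ (by positivity) h1 2
    exact mul_le_mul_of_nonneg_left h2 (by positivity)
  have hRn : ∀ a k, R / L ≤ R / (n a k : ℝ) := by
    intro a k
    have h0 : (1 : ℝ) ≤ n a k := by exact_mod_cast (hS.len a k).1
    have h1 : (n a k : ℝ) ≤ L := by exact_mod_cast (hS.len a k).2
    exact div_le_div_of_nonneg_left hR.le (by linarith) h1
  have hdotadd : ∀ z u v : ℂ, dot z (u + v) = dot z u + dot z v := by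
    intro z u v
    unfold dot
    rw [Complex.add_re, Complex.add_im]
    ring
  have hdotmul : ∀ (z v : ℂ) (c : ℝ), dot z ((c : ℂ) * v) = c * dot z v := by
    intro z v c
    unfold dot
    rw [Complex.re_ofReal_mul, Complex.im_ofReal_mul]
    ring
  have hg : 4 * (R / (16 * L)) = R / (4 * L) := by
    field_simp
    norm_num
  have hg2 : R / L = 4 * (R / (4 * L)) := by
    field_simp
  have hg3 : 0 < R / (4 * L) := by positivity
  refine ⟨x, Nodes hA hB, w, ρ, C0, R / (4 * L), ε / N, D,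
    ⟨by positivity, by positivity, fun t ht htH => (hw t ht htH).1,
      fun t ht htH => (hw t ht htH).2.1, fun t ht htH => (hw t ht htH).2.2.1,
      fun t ht htH => (hw t ht htH).2.2.2, ?_, hρ, hρ', hnear⟩⟩
  rintro t ht ⟨a, rfl | rfl⟩ z hz
  · obtain ⟨k, hk⟩ := (dir_dot z hz).1
    have hn1 := (hS.len a k).1
    have hnr : (1 : ℝ) ≤ n a k := by exact_mod_cast hn1
    refine ⟨p a k 1, (hS.mem a k 1 hn1).1, ?_, ?_⟩
    · have := hS.step a k 0 hn1
      rw [hS.start] at this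
      exact this
    · have h1 := hbd2 a k 1 hn1
      obtain ⟨e, he⟩ : ∃ e, e = x (p a k 1) -
        (PA R a + (((1 : ℕ) : ℂ) / (n a k : ℂ)) * (R * dir k)) := ⟨_, rfl⟩
      rw [← he] at h1
      have h2 : x (p a k 1) = x (hA a) + (((R / (n a k : ℝ) : ℝ) : ℂ) * dir k + e) := by
        rw [he, hxA]
        push_cast
        ring
      rw [h2, hdotadd, hdotadd, hdotmul]
      have h3 := drw_ex_dot z e hz
      have h4 := hRn a k
      have h5 : R / (n a k : ℝ) * (1 / 2) ≤ R / (n a k : ℝ) * dot z (dir k) :=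
        mul_le_mul_of_nonneg_left hk (by positivity)
      linarith
  · obtain ⟨k, hk⟩ := (dir_dot z hz).2
    obtain ⟨b, hb⟩ := drw_ex_nb a k
    have hn1 := (hS.len b k).1
    have hnr : (1 : ℝ) ≤ n b k := by exact_mod_cast hn1
    refine ⟨p b k (n b k - 1), (hS.mem b k _ (by omega)).1, ?_, ?_⟩
    · have h1 := hS.step b k (n b k - 1) (by omega)
      rw [Nat.sub_add_cancel hn1, hS.stop, hb] at h1
      exact ⟨h1.1.symm, by rw [Set.inter_comm]; exact h1.2⟩
    · have h1 := hbd2 b k (n b k - 1) (by omega)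
      obtain ⟨e, he⟩ : ∃ e, e = x (p b k (n b k - 1)) -
        (PA R b + (((n b k - 1 : ℕ) : ℂ) / (n b k : ℂ)) * (R * dir k)) := ⟨_, rfl⟩
      rw [← he] at h1
      have hnc : (n b k : ℂ) ≠ 0 := by
        exact_mod_cast (by omega : n b k ≠ 0)
      have h2 : x (p b k (n b k - 1)) =
          x (hB a) + (((-(R / (n b k : ℝ)) : ℝ) : ℂ) * dir k + e) := by
        rw [he, hxB, ← hb, hex_nb]
        rw [Nat.cast_sub hn1]
        push_cast
        field_simp
        ring
      rw [h2, hdotadd, hdotadd, hdotmul]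
      have h3 := drw_ex_dot z e hz
      have h4 := hRn b k
      have h5 : R / (n b k : ℝ) * (1 / 2) ≤ R / (n b k : ℝ) * (- dot z (dir k)) :=
        mul_le_mul_of_nonneg_left (by linarith) (by positivity)
      linarith

end J26681

alias drw_ex := J26681.drw_ex

namespace J26682

/-! ### TARGET of this job: drw_harm -/

theorem drw_harm_neg (z y : ℂ) : dot (-z) y = - dot z y := by
  simp only [dot, Complex.neg_re, Complex.neg_im]
  ring

/-- the real linear functional `dot z` -/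
def drw_harm_f (z : ℂ) : ℂ →+ ℝ where
  toFun := dot z
  map_zero' := by simp [dot]
  map_add' a b := by
    simp only [dot, Complex.add_re, Complex.add_im]
    ring

theorem drw_harm_smul (z y : ℂ) (r : ℝ) : dot z ((r : ℂ) * y) = r * dot z y := by
  simp only [dot, Complex.mul_re, Complex.mul_im, Complex.ofReal_re, Complex.ofReal_im]
  ring

theorem drw_harm {T : Set (Set ℂ)} {u U : ℝ} (h : NC T u U) {x : Set ℂ → ℂ} {H : Set (Set ℂ)}
    {w : Set ℂ → Set ℂ → ℝ} {ρ : Set ℂ → ℕ} {C g wm : ℝ} {D : ℕ} (hd : Drw T x H w ρ C g wm D)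
    (z : ℂ) (hz : ‖z‖ = 1) : Harm T H Adj w ρ (fun t => dot z (x t)) wm g D := by
  have hfin : ∀ t ∈ T, {s | s ∈ T ∧ Adj t s}.Finite := by
    intro t ht
    obtain ⟨c, hc⟩ := h.outr t ht
    obtain ⟨N, hN⟩ := g_locfin h U
    refine (hN c).1.subset ?_
    rintro s ⟨hs, hadj⟩
    obtain ⟨p, hp⟩ := hadj.2.nonempty
    exact ⟨hs, p, hp.2, hc hp.1⟩
  refine ⟨hd.gpos, hd.wpos, fun s t hst => adj_symm hst, hfin, hd.wadj, hd.wge, hd.wsum, ?_, ?_, ?_,
    hd.rk, hd.rk'⟩
  · intro t ht htH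
    have h1 := congrArg (drw_harm_f z) (hd.harm t ht htH)
    rw [AddMonoidHom.map_finsum] at h1
    · have h2 : ∀ s, drw_harm_f z ((w t s : ℂ) * x s) = w t s * dot z (x s) := fun s =>
        drw_harm_smul z (x s) (w t s)
      rw [finsum_congr h2] at h1
      exact h1
    · refine (hfin t ht).subset ?_
      intro s hs
      refine hd.wadj t ht htH s ?_
      intro h0
      apply hs
      show (w t s : ℂ) * x s = 0
      rw [h0, Complex.ofReal_zero, zero_mul]
  · intro t ht htH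
    exact hd.node t ht htH z hz
  · intro t ht htH
    obtain ⟨s, hs, hadj, hle⟩ := hd.node t ht htH (-z) (by rw [norm_neg]; exact hz)
    refine ⟨s, hs, hadj, ?_⟩
    rw [drw_harm_neg, drw_harm_neg] at hle
    show dot z (x s) + g ≤ dot z (x t)
    linarith

end J26682

alias drw_harm := J26682.drw_harm

namespace J26683

/-! ### TARGET of this job: conn_ge -/

theorem conn_ge_dot_le (a b : ℂ) : |dot a b| ≤ ‖a‖ * ‖b‖ := by
  have h1 : dot a b = ((starRingEnd ℂ) a * b).re := by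
    unfold dot
    simp
  rw [h1]
  calc |((starRingEnd ℂ) a * b).re| ≤ ‖(starRingEnd ℂ) a * b‖ := Complex.abs_re_le_norm _
    _ = ‖a‖ * ‖b‖ := by rw [norm_mul, RCLike.norm_conj]

theorem conn_ge_dot_sub (a b c : ℂ) : dot a (b - c) = dot a b - dot a c := by
  unfold dot
  simp
  ring

theorem conn_ge_one {T : Set (Set ℂ)} {u U : ℝ} (h : NC T u U) {x : Set ℂ → ℂ} {H : Set (Set ℂ)}
    {w : Set ℂ → Set ℂ → ℝ} {ρ : Set ℂ → ℕ} {C g wm : ℝ} {D : ℕ} (hd : Drw T x H w ρ C g wm D)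
    (z : ℂ) (hz : ‖z‖ = 1) (c : ℝ) : Cn Adj {q | q ∈ T ∧ c ≤ dot z (x q)} := by
  have hH := drw_harm h hd z hz
  intro s hs t ht
  obtain ⟨hsT, hsc⟩ := hs
  obtain ⟨htT, htc⟩ := ht
  obtain ⟨s', hs'T, hjs, hs'M⟩ := climb_far hH s hsT (c + 2 * C)
  obtain ⟨t', ht'T, hjt, ht'M⟩ := climb_far hH t htT (c + 2 * C)
  have hnear : ∀ q ∈ T, ∀ y ∈ q, |dot z (x q) - dot z y| ≤ C := by
    intro q hq y hy
    rw [← conn_ge_dot_sub]
    calc |dot z (x q - y)| ≤ ‖z‖ * ‖x q - y‖ := conn_ge_dot_le _ _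
      _ = ‖x q - y‖ := by rw [hz, one_mul]
      _ ≤ C := hd.near q hq y hy
  have h1 : Jn Adj {q | q ∈ T ∧ c ≤ dot z (x q)} s s' := by
    apply jn_mono _ hjs
    rintro q ⟨hq, hyq⟩
    exact ⟨hq, le_trans hsc hyq⟩
  have h2 : Jn Adj {q | q ∈ T ∧ c ≤ dot z (x q)} t t' := by
    apply jn_mono _ hjt
    rintro q ⟨hq, hyq⟩
    exact ⟨hq, le_trans htc hyq⟩
  have h3 : Jn Adj {q | q ∈ T ∧ c ≤ dot z (x q)} s' t' := by
    apply jn_mono _ (g_seg h hs'T ht'T)
    rintro q ⟨hq, a, ha, b, hb, p, hpq, hpseg⟩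
    refine ⟨hq, ?_⟩
    have ha' := abs_le.mp (hnear s' hs'T a ha)
    have hb' := abs_le.mp (hnear t' ht'T b hb)
    have hp' := abs_le.mp (hnear q hq p hpq)
    have hs'M' : c + 2 * C ≤ dot z (x s') := hs'M
    have ht'M' : c + 2 * C ≤ dot z (x t') := ht'M
    have hA : c + C ≤ dot z a := by linarith [ha'.2]
    have hB : c + C ≤ dot z b := by linarith [hb'.2]
    obtain ⟨α, β, hα, hβ, hαβ, hp⟩ := hpseg
    have hdp : dot z p = α * dot z a + β * dot z b := by
      rw [← hp]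
      unfold dot
      simp
      ring
    have hP : c + C ≤ dot z p := by
      rw [hdp]
      have e1 := mul_le_mul_of_nonneg_left hA hα
      have e2 := mul_le_mul_of_nonneg_left hB hβ
      have e3 : α * (c + C) + β * (c + C) = c + C := by rw [← add_mul, hαβ, one_mul]
      linarith
    linarith [hp'.1]
  exact jn_trans (jn_trans h1 h3) (jn_symm (fun _ _ hab => adj_symm hab) h2)

theorem conn_ge {T : Set (Set ℂ)} {u U : ℝ} (h : NC T u U) {x : Set ℂ → ℂ} {H : Set (Set ℂ)}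
    {w : Set ℂ → Set ℂ → ℝ} {ρ : Set ℂ → ℕ} {C g wm : ℝ} {D : ℕ} (hd : Drw T x H w ρ C g wm D)
    (z : ℂ) (hz : z ≠ 0) (c : ℝ) : Cn Adj {q | q ∈ T ∧ c ≤ dot z (x q)} := by
  have hn : 0 < ‖z‖ := norm_pos_iff.mpr hz
  have h1 : ‖((‖z‖⁻¹ : ℝ) : ℂ) * z‖ = 1 := by
    rw [norm_mul, Complex.norm_real, Real.norm_eq_abs, abs_of_pos (inv_pos.mpr hn)]
    exact inv_mul_cancel₀ hn.ne'
  have h2 : ∀ w : ℂ, dot (((‖z‖⁻¹ : ℝ) : ℂ) * z) w = ‖z‖⁻¹ * dot z w := by
    intro w
    unfold dot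
    simp
    ring
  have h3 := conn_ge_one h hd _ h1 (‖z‖⁻¹ * c)
  have h4 : {q | q ∈ T ∧ ‖z‖⁻¹ * c ≤ dot (((‖z‖⁻¹ : ℝ) : ℂ) * z) (x q)} =
      {q | q ∈ T ∧ c ≤ dot z (x q)} := by
    ext q
    simp only [mem_setOf_eq]
    rw [h2]
    refine and_congr_right (fun _ => ?_)
    exact mul_le_mul_iff_right₀ (inv_pos.mpr hn)
  rw [h4] at h3
  exact h3

end J26683

alias conn_ge := J26683.conn_ge

namespace J26684

/-! ### TARGET of this job: conn_gt -/

theorem conn_gt {T : Set (Set ℂ)} {u U : ℝ} (h : NC T u U) {x : Set ℂ → ℂ} {H : Set (Set ℂ)}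
    {w : Set ℂ → Set ℂ → ℝ} {ρ : Set ℂ → ℕ} {C g wm : ℝ} {D : ℕ} (hd : Drw T x H w ρ C g wm D)
    (z : ℂ) (hz : z ≠ 0) (c : ℝ) : Cn Adj {q | q ∈ T ∧ c < dot z (x q)} := by
  intro s hs t ht
  obtain ⟨hsT, hs1⟩ := hs
  obtain ⟨htT, ht1⟩ := ht
  have h1 := conn_ge h hd z hz (min (dot z (x s)) (dot z (x t))) s ⟨hsT, min_le_left _ _⟩ t
    ⟨htT, min_le_right _ _⟩
  refine jn_mono ?_ h1
  rintro q ⟨hqT, hq⟩
  exact ⟨hqT, lt_of_lt_of_le (lt_min hs1 ht1) hq⟩

end J26684

alias conn_gt := J26684.conn_gt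

namespace J26685

/-! ### TARGET of this job: two_sided -/

theorem two_sided_dot (z a : ℂ) (hz : z ≠ 0) :
    dot z a = ‖z‖ * dot (((‖z‖⁻¹ : ℝ) : ℂ) * z) a := by
  have h : ‖z‖ ≠ 0 := norm_ne_zero_iff.2 hz
  unfold dot
  rw [Complex.re_ofReal_mul, Complex.im_ofReal_mul]
  field_simp

theorem two_sided {T : Set (Set ℂ)} {u U : ℝ} (h : NC T u U) {x : Set ℂ → ℂ} {H : Set (Set ℂ)}
    {w : Set ℂ → Set ℂ → ℝ} {ρ : Set ℂ → ℕ} {C g wm : ℝ} {D : ℕ} (hd : Drw T x H w ρ C g wm D)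
    (z : ℂ) (hz : z ≠ 0) (t s : Set ℂ) (ht : t ∈ T) (hs : s ∈ T) (hts : Adj t s)
    (hne : dot z (x s) ≠ dot z (x t)) : ∃ s' ∈ T, Adj t s' ∧ dot z (x t) < dot z (x s') := by
  have hn : 0 < ‖z‖ := norm_pos_iff.2 hz
  have hz1 : ‖((‖z‖⁻¹ : ℝ) : ℂ) * z‖ = 1 := by
    rw [norm_mul, Complex.norm_real, Real.norm_eq_abs, abs_of_pos (inv_pos.2 hn),
      inv_mul_cancel₀ hn.ne']
  have hH := drw_harm h hd _ hz1
  obtain ⟨s', hs', hadj, hlt⟩ := twoside hH t s ht hs hts (by
    intro he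
    apply hne
    rw [two_sided_dot z (x s) hz, two_sided_dot z (x t) hz, he])
  refine ⟨s', hs', hadj, ?_⟩
  rw [two_sided_dot z (x t) hz, two_sided_dot z (x s') hz]
  exact mul_lt_mul_of_pos_left hlt hn

end J26685

alias two_sided := J26685.two_sided

namespace J26686

/-! ### TARGET of this job: nonflat -/

theorem nonflat {T : Set (Set ℂ)} {u U : ℝ} (h : NC T u U) {x : Set ℂ → ℂ} {H : Set (Set ℂ)}
    {w : Set ℂ → Set ℂ → ℝ} {ρ : Set ℂ → ℕ} {C g wm : ℝ} {D : ℕ} (hd : Drw T x H w ρ C g wm D) :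
    ∃ η : ℝ, 0 < η ∧ ∀ v, IsVertex T v → ∀ z : ℂ, ‖z‖ = 1 → ∀ c : ℝ,
      ∃ t ∈ T, v ∈ t ∧ η < |dot z (x t) - c| := by
  obtain ⟨N, hN⟩ := g_locfin h (|U| + 1)
  obtain ⟨η, hη0, hη⟩ := nonflat_abs N D wm g hd.wpos hd.gpos
  refine ⟨η, hη0, ?_⟩
  intro v hv z hz c
  have hz0 : z ≠ 0 := by
    intro h0
    rw [h0, norm_zero] at hz
    exact zero_ne_one hz
  have hr : (0 : ℝ) ≤ |U| + 1 := by positivity
  have hsubV : {A | A ∈ T ∧ v ∈ A} ⊆ {A | A ∈ T ∧ (A ∩ closedBall v (|U| + 1)).Nonempty} := by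
    rintro A ⟨hA, hvA⟩
    exact ⟨hA, v, hvA, mem_closedBall_self hr⟩
  obtain ⟨A, hA, B, hB, C', hC, hAB, hAC, hBC, hvA, hvB, hvC⟩ := hv
  obtain ⟨t, ht, htη⟩ := hη T H Adj w ρ (fun t => dot z (x t)) (drw_harm h hd z hz)
    (by
      intro t ht
      obtain ⟨c0, hc0⟩ := h.outr t ht
      have hsub : {s | s ∈ T ∧ Adj t s} ⊆
          {A | A ∈ T ∧ (A ∩ closedBall c0 (|U| + 1)).Nonempty} := by
        rintro s ⟨hs, hts⟩
        obtain ⟨y, hy⟩ := hts.2.nonempty
        refine ⟨hs, y, hy.2, ?_⟩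
        have h1 := hc0 hy.1
        rw [mem_closedBall] at h1 ⊢
        have h2 := le_abs_self U
        linarith
      exact ⟨(hN c0).1.subset hsub, (Set.ncard_le_ncard hsub (hN c0).1).trans (hN c0).2⟩)
    (fun a ha b hb s hs t ht h1 h2 h3 h4 => g_3conn h ha hb hs ht h1 h2 h3 h4)
    (fun c => conn_gt h hd z hz0 c)
    (by
      intro c
      have h1 := conn_gt h hd (-z) (neg_ne_zero.2 hz0) (-c)
      have h2 : {q | q ∈ T ∧ -c < dot (-z) (x q)} = {q | q ∈ T ∧ dot z (x q) < c} := by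
        ext q
        have h3 : dot (-z) (x q) = -dot z (x q) := by
          unfold dot
          rw [Complex.neg_re, Complex.neg_im]
          ring
        simp only [mem_ofPred_eq, h3, neg_lt_neg_iff]
      rw [h2] at h1
      exact h1)
    (k33a h) {A | A ∈ T ∧ v ∈ A} (fun A hA => hA.1) ((hN v).1.subset hsubV)
    ((Set.ncard_le_ncard hsubV (hN v).1).trans (hN v).2)
    ⟨A, ⟨hA, hvA⟩, B, ⟨hB, hvB⟩, C', ⟨hC, hvC⟩, hAB, hAC, hBC⟩ (k33v h v) c
  exact ⟨t, ht.1, ht.2, htη⟩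

end J26686

alias nonflat := J26686.nonflat

namespace J26688

/-! ### TARGET of this job: nonflat' -/

/-- a nonzero linear functional is not constant on the images of the tiles at a vertex -/
theorem nonflat' {T : Set (Set ℂ)} {u U : ℝ} (h : NC T u U) {x : Set ℂ → ℂ} {H : Set (Set ℂ)}
    {w : Set ℂ → Set ℂ → ℝ} {ρ : Set ℂ → ℕ} {C g wm : ℝ} {D : ℕ} (hd : Drw T x H w ρ C g wm D)
    (v : ℂ) (hv : IsVertex T v) (z : ℂ) (hz : z ≠ 0) (c : ℝ) :
    ∃ t ∈ T, v ∈ t ∧ dot z (x t) ≠ c := by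
  obtain ⟨η, hη, H0⟩ := nonflat h hd
  have hz' : ‖z‖ ≠ 0 := norm_ne_zero_iff.2 hz
  have h1 : ‖((‖z‖⁻¹ : ℝ) : ℂ) * z‖ = 1 := by
    rw [norm_mul, Complex.norm_real, norm_inv, norm_norm, inv_mul_cancel₀ hz']
  obtain ⟨t, ht, hvt, hlt⟩ := H0 v hv (((‖z‖⁻¹ : ℝ) : ℂ) * z) h1 (‖z‖⁻¹ * c)
  refine ⟨t, ht, hvt, fun he => ?_⟩
  have : dot (((‖z‖⁻¹ : ℝ) : ℂ) * z) (x t) = ‖z‖⁻¹ * dot z (x t) := by
    unfold dot
    rw [Complex.re_ofReal_mul, Complex.im_ofReal_mul]
    ring
  rw [this, he, sub_self, abs_zero] at hlt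
  linarith

end J26688

alias nonflat' := J26688.nonflat'

namespace J26687

/-! ### TARGET of this job: edge_lem -/

theorem ed_dot_sub (z a b : ℂ) : dot z a = dot z b + dot z (a - b) := by
  simp only [dot, Complex.sub_re, Complex.sub_im]; ring

theorem ed_dot_neg (z a : ℂ) : dot (-z) a = - dot z a := by
  simp only [dot, Complex.neg_re, Complex.neg_im]; ring

theorem ed_dot_abs (z a : ℂ) : |dot z a| ≤ ‖z‖ * ‖a‖ := by
  have h1 : dot z a = ((starRingEnd ℂ) z * a).re := by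
    simp [dot, Complex.mul_re]
  rw [h1]
  refine (Complex.abs_re_le_norm _).trans ?_
  rw [norm_mul, Complex.norm_conj]

theorem ed_far {T : Set (Set ℂ)} {u U : ℝ} (h : NC T u U) {x : Set ℂ → ℂ} {H : Set (Set ℂ)}
    {w : Set ℂ → Set ℂ → ℝ} {ρ : Set ℂ → ℕ} {C g wm : ℝ} {D : ℕ} (hd : Drw T x H w ρ C g wm D)
    (z : ℂ) (hz : z ≠ 0) (c : ℝ) : ∃ b ∈ T, c < dot z (x b) := by
  have hzz : 0 < dot z z := by
    have h1 : dot z z = Complex.normSq z := by
      simp [dot, Complex.normSq_apply]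
    rw [h1]
    exact Complex.normSq_pos.2 hz
  obtain ⟨N, hN⟩ : ∃ N : ℝ, N = (|c| + ‖z‖ * C + 1) / dot z z := ⟨_, rfl⟩
  obtain ⟨b, hb, hyb⟩ := h.cover ((N : ℂ) * z)
  refine ⟨b, hb, ?_⟩
  have h2 := hd.near b hb _ hyb
  have h3 : dot z ((N : ℂ) * z) = |c| + ‖z‖ * C + 1 := by
    have h4 : dot z ((N : ℂ) * z) = N * dot z z := by
      simp only [dot, Complex.mul_re, Complex.mul_im, Complex.ofReal_re, Complex.ofReal_im]; ring
    rw [h4, hN]
    field_simp
  have h5 := ed_dot_sub z (x b) ((N : ℂ) * z)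
  have h6 := (abs_le.1 (ed_dot_abs z (x b - (N : ℂ) * z))).1
  have h7 : ‖z‖ * ‖x b - (N : ℂ) * z‖ ≤ ‖z‖ * C := mul_le_mul_of_nonneg_left h2 (norm_nonneg _)
  have h8 := le_abs_self c
  linarith

theorem ed_mono {ι : Type} {adj : ι → ι → Prop} {S S' : Set ι} (hSS : S ⊆ S') {a b : ι}
    (h : Jn adj S a b) : Jn adj S' a b := by
  refine ⟨hSS h.1, ?_⟩
  obtain ⟨_, h2⟩ := h
  induction h2 with
  | refl => exact Relation.ReflTransGen.refl
  | tail _ hbc ih => exact ih.tail ⟨hbc.1, hSS hbc.2⟩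

theorem ed_exit {ι : Type} {adj : ι → ι → Prop} {S P : Set ι} {a b : ι} (h : Jn adj S a b)
    (ha : a ∈ P) (hb : b ∉ P) : ∃ e f, Jn adj (S ∩ P) a e ∧ f ∈ S ∧ adj e f ∧ f ∉ P := by
  have key : Jn adj (S ∩ P) a b ∨ ∃ e f, Jn adj (S ∩ P) a e ∧ f ∈ S ∧ adj e f ∧ f ∉ P := by
    obtain ⟨haS, hab⟩ := h
    clear hb
    induction hab with
    | refl => exact Or.inl ⟨⟨haS, ha⟩, Relation.ReflTransGen.refl⟩
    | @tail b c _ hbc ih =>
      rcases ih with ih | ih
      · by_cases hc : c ∈ P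
        · exact Or.inl ⟨ih.1, ih.2.tail ⟨hbc.1, hbc.2, hc⟩⟩
        · exact Or.inr ⟨b, c, ih, hbc.2, hbc.1, hc⟩
      · exact Or.inr ih
  rcases key with key | key
  · exact absurd (jn_mem key).2 hb
  · exact key

theorem ed_out {T : Set (Set ℂ)} {u U : ℝ} (h : NC T u U) {x : Set ℂ → ℂ} {H : Set (Set ℂ)}
    {w : Set ℂ → Set ℂ → ℝ} {ρ : Set ℂ → ℕ} {C g wm : ℝ} {D : ℕ} (hd : Drw T x H w ρ C g wm D)
    (z : ℂ) (hz : z ≠ 0) (c : ℝ) (s t : Set ℂ) (hs : s ∈ T) (ht : t ∈ T) (hst : s ≠ t)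
    (h1 : dot z (x s) = c) (h2 : dot z (x t) = c) :
    ∃ e a, Jn Adj {q | q ∈ T ∧ q ≠ t ∧ dot z (x q) = c} s e ∧ a ∈ T ∧ Adj e a ∧
      c < dot z (x a) := by
  obtain ⟨b0, hb0, hcb⟩ := ed_far h hd z hz c
  have hb0t : b0 ≠ t := by
    intro hh
    rw [hh, h2] at hcb
    exact lt_irrefl _ hcb
  have hj := g_3conn h ht ht hs hb0 hst hst hb0t hb0t
  obtain ⟨e, f, he, hf, hef, hfP⟩ := ed_exit (P := {q | dot z (x q) = c}) hj h1
    (fun hh => (ne_of_gt hcb) hh)
  have heM := jn_mem he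
  have heT : e ∈ T := heM.1.1
  have hev : dot z (x e) = c := heM.2
  obtain ⟨a, haT, hea, hlt⟩ := two_sided h hd z hz e f heT hf.1 hef
    (fun hh => hfP (hh.trans hev))
  refine ⟨e, a, ed_mono ?_ he, haT, hea, ?_⟩
  · rintro r ⟨⟨hr1, hr2, -⟩, hr3⟩
    exact ⟨hr1, hr2, hr3⟩
  · rw [hev] at hlt
    exact hlt

theorem ed_sum_add {ι : Type} (c c' : (ι × ι) →₀ ℤ) (g : ι → ℝ) :
    (c + c').sum (fun p m => (m : ℝ) * (g p.2 - g p.1)) =
      c.sum (fun p m => (m : ℝ) * (g p.2 - g p.1)) +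
        c'.sum (fun p m => (m : ℝ) * (g p.2 - g p.1)) := by
  classical
  apply Finsupp.sum_add_index'
  · intro p
    simp
  · intro p m m'
    push_cast
    ring

theorem ed_sum_single {ι : Type} (a b : ι) (g : ι → ℝ) :
    (Finsupp.single (a, b) (1 : ℤ)).sum (fun p m => (m : ℝ) * (g p.2 - g p.1)) = g b - g a := by
  rw [Finsupp.sum_single_index]
  · simp
  · simp

theorem ed_chain {ι : Type} {adj : ι → ι → Prop} {S : Set ι} {a b : ι} (h : Jn adj S a b) :
    ∃ c : (ι × ι) →₀ ℤ, (∀ p, c p ≠ 0 → p.1 ∈ S ∧ p.2 ∈ S ∧ adj p.1 p.2) ∧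
      ∀ g : ι → ℝ, c.sum (fun p m => (m : ℝ) * (g p.2 - g p.1)) = g b - g a := by
  classical
  obtain ⟨haS, hab⟩ := h
  induction hab with
  | refl => exact ⟨0, fun p hp => absurd rfl hp, fun g => by simp⟩
  | @tail b d hab hbd ih =>
    obtain ⟨c, hc1, hc2⟩ := ih
    have hbS : b ∈ S := jn_mem (⟨haS, hab⟩ : Jn adj S a b)
    refine ⟨c + Finsupp.single (b, d) 1, ?_, ?_⟩
    · intro p hp
      by_cases hcp : c p = 0
      · rw [Finsupp.add_apply, hcp, zero_add, Finsupp.single_apply] at hp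
        by_cases hpe : (b, d) = p
        · rw [← hpe]
          exact ⟨hbS, hbd.2, hbd.1⟩
        · rw [if_neg hpe] at hp
          exact absurd rfl hp
      · exact hc1 p hcp
    · intro g
      rw [ed_sum_add, ed_sum_single, hc2]
      ring

theorem ed_seg {p q p' q' : ℂ} (hpq : p ≠ q) (h : segment ℝ p q = segment ℝ p' q') :
    (p' = p ∧ q' = q) ∨ (p' = q ∧ q' = p) := by
  have hp' : p' ∈ segment ℝ p q := by rw [h]; exact left_mem_segment ℝ _ _
  have hq' : q' ∈ segment ℝ p q := by rw [h]; exact right_mem_segment ℝ _ _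
  have hp : p ∈ segment ℝ p' q' := by rw [← h]; exact left_mem_segment ℝ _ _
  have hq : q ∈ segment ℝ p' q' := by rw [← h]; exact right_mem_segment ℝ _ _
  rw [segment_eq_image'] at hp' hq' hp hq
  obtain ⟨a, ⟨ha0, ha1⟩, ha⟩ := hp'
  obtain ⟨b, ⟨hb0, hb1⟩, hb⟩ := hq'
  obtain ⟨α, ⟨hα0, hα1⟩, hα⟩ := hp
  obtain ⟨β, ⟨hβ0, hβ1⟩, hβ⟩ := hq
  have hne : q - p ≠ 0 := sub_ne_zero.2 hpq.symm
  simp only at ha hb hα hβ
  have e1 : (a + α * (b - a)) • (q - p) = 0 := by
    have : (a + α * (b - a)) • (q - p) = (p' + α • (q' - p')) - p := by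
      rw [← ha, ← hb]
      simp only [Complex.real_smul]
      push_cast
      ring
    rw [this, hα, sub_self]
  have e2 : (a + β * (b - a) - 1) • (q - p) = 0 := by
    have : (a + β * (b - a) - 1) • (q - p) = (p' + β • (q' - p')) - q := by
      rw [← ha, ← hb]
      simp only [Complex.real_smul]
      push_cast
      ring
    rw [this, hβ, sub_self]
  have f1 : a + α * (b - a) = 0 := (smul_eq_zero.1 e1).resolve_right hne
  have f2 : a + β * (b - a) - 1 = 0 := (smul_eq_zero.1 e2).resolve_right hne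
  have g1 : 0 ≤ (1 - α) * a := mul_nonneg (by linarith) ha0
  have g2 : 0 ≤ α * b := mul_nonneg hα0 hb0
  have g3 : (1 - α) * a = 0 := by nlinarith
  have g4 : α * b = 0 := by nlinarith
  rcases mul_eq_zero.1 g3 with k | k
  · have hα' : α = 1 := by linarith
    rw [hα', one_mul] at g4
    have hb' : b = 0 := g4
    have ha' : a = 1 := by
      rw [hb'] at f2
      have : (1 - β) * a = 1 := by linarith
      nlinarith
    right
    rw [ha', one_smul] at ha
    rw [hb', zero_smul] at hb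
    exact ⟨by rw [← ha]; ring, by rw [← hb]; ring⟩
  · have hb' : b = 1 := by
      rw [k] at f2
      have : β * b = 1 := by linarith
      nlinarith
    left
    rw [k, zero_smul] at ha
    rw [hb', one_smul] at hb
    exact ⟨by rw [← ha]; ring, by rw [← hb]; ring⟩

theorem ed_const {T : Set (Set ℂ)} {u U : ℝ} (h : NC T u U) {A : Set ℂ} (hA : A ∈ T)
    (W : ℂ → ℤ) (hW : ∀ B ∈ T, Adj A B → ∀ p q, Head A B q → Head B A p → W q = W p)
    {p q : ℂ} (hp : p ∈ A) (hq : q ∈ A) (hpv : IsVertex T p) (hqv : IsVertex T q) :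
    W p = W q := by
  obtain ⟨c, hc⟩ := h.outr A hA
  have hv0 : (c + ((|U| + 1 : ℝ) : ℂ)) ∉ A := by
    intro hh
    have h1 := hc hh
    rw [mem_closedBall, dist_eq_norm, add_sub_cancel_left, Complex.norm_real, Real.norm_eq_abs,
      abs_of_nonneg (by positivity)] at h1
    have := le_abs_self U
    linarith
  apply g_bd h hA (c + ((|U| + 1 : ℝ) : ℂ)) W _ (Or.inl hv0) hp hq hpv hqv
  · intro hh
    exact hv0 (hh ▸ hp)
  · intro hh
    exact hv0 (hh ▸ hq)
  · intro B hB hAB _ r r' hrr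
    by_cases hr : r = r'
    · rw [hr]
    · obtain ⟨p', q', -, hseg, hH1, hH2, -, -⟩ := g_head h hA hB hAB
      have h2 := hW B hB hAB p' q' hH1 hH2
      rw [hrr] at hseg
      rcases ed_seg hr hseg with ⟨k1, k2⟩ | ⟨k1, k2⟩
      · rw [← k1, ← k2]; exact h2.symm
      · rw [← k1, ← k2]; exact h2

theorem edge_lem {T : Set (Set ℂ)} {u U : ℝ} (h : NC T u U) {x : Set ℂ → ℂ} {H : Set (Set ℂ)}
    {w : Set ℂ → Set ℂ → ℝ} {ρ : Set ℂ → ℕ} {C g wm : ℝ} {D : ℕ} (hd : Drw T x H w ρ C g wm D)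
    (s t : Set ℂ) (hs : s ∈ T) (ht : t ∈ T) (hst : Adj s t) (p q : ℂ) (hp : Head t s p)
    (hq : Head s t q) (z : ℂ) (hz : z ≠ 0) (c : ℝ) (h1 : dot z (x s) = c) (h2 : dot z (x t) = c)
    (w1 w2 : Set ℂ) (hw1 : w1 ∈ T) (hw2 : w2 ∈ T) (hpw : p ∈ w1) (hqw : q ∈ w2)
    (h3 : dot z (x w1) < c) (h4 : dot z (x w2) < c) : False := by
  classical
  have hne : s ≠ t := hst.1
  obtain ⟨e, a, hse, haT, hea, hca⟩ := ed_out h hd z hz c s t hs ht hne h1 h2
  obtain ⟨f, b, htf, hbT, hfb, hcb⟩ := ed_out h hd z hz c t s ht hs hne.symm h2 h1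
  have hab : Jn Adj {q | q ∈ T ∧ c < dot z (x q)} a b :=
    conn_gt h hd z hz c a ⟨haT, hca⟩ b ⟨hbT, hcb⟩
  have hft := jn_symm (fun _ _ => adj_symm) htf
  obtain ⟨c1, hc1, hc1'⟩ := ed_chain hse
  obtain ⟨c2, hc2, hc2'⟩ := ed_chain hab
  obtain ⟨c3, hc3, hc3'⟩ := ed_chain hft
  have heM := jn_mem hse
  have hfM := jn_mem htf
  obtain ⟨c0, hc0⟩ : ∃ c0 : (Set ℂ × Set ℂ) →₀ ℤ, c0 = c1 + Finsupp.single (e, a) 1 + c2 +
    Finsupp.single (b, f) 1 + c3 + Finsupp.single (t, s) 1 := ⟨_, rfl⟩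
  have happ : ∀ r, c0 r = c1 r + (if (e, a) = r then 1 else 0) + c2 r +
      (if (b, f) = r then 1 else 0) + c3 r + (if (t, s) = r then 1 else 0) := by
    intro r
    rw [hc0]
    simp only [Finsupp.add_apply, Finsupp.single_apply]
  have hsupp : ∀ r, c0 r ≠ 0 → r.1 ∈ T ∧ r.2 ∈ T ∧ Adj r.1 r.2 ∧ c ≤ dot z (x r.1) ∧
      c ≤ dot z (x r.2) := by
    intro r hr
    by_cases k1 : c1 r = 0
    · by_cases k2 : (e, a) = r
      · rw [← k2]
        exact ⟨heM.1, haT, hea, heM.2.2.ge, hca.le⟩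
      · by_cases k3 : c2 r = 0
        · by_cases k4 : (b, f) = r
          · rw [← k4]
            exact ⟨hbT, hfM.1, adj_symm hfb, hcb.le, hfM.2.2.ge⟩
          · by_cases k5 : c3 r = 0
            · by_cases k6 : (t, s) = r
              · rw [← k6]
                exact ⟨ht, hs, adj_symm hst, h2.ge, h1.ge⟩
              · exfalso
                apply hr
                rw [happ, k1, if_neg k2, k3, if_neg k4, k5, if_neg k6]
                rfl
            · obtain ⟨m1, m2, m3⟩ := hc3 r k5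
              exact ⟨m1.1, m2.1, m3, m1.2.2.ge, m2.2.2.ge⟩
        · obtain ⟨m1, m2, m3⟩ := hc2 r k3
          exact ⟨m1.1, m2.1, m3, m1.2.le, m2.2.le⟩
    · obtain ⟨m1, m2, m3⟩ := hc1 r k1
      exact ⟨m1.1, m2.1, m3, m1.2.2.ge, m2.2.2.ge⟩
  have hbal : Bal c0 := by
    intro G
    rw [hc0, ed_sum_add, ed_sum_add, ed_sum_add, ed_sum_add, ed_sum_add, ed_sum_single,
      ed_sum_single, ed_sum_single, hc1', hc2', hc3']
    ring
  obtain ⟨W, hW, -⟩ := chain h c0 (fun r hr => by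
    obtain ⟨m1, m2, m3, -, -⟩ := hsupp r (Finsupp.mem_support_iff.1 hr)
    exact ⟨m1, m2, m3⟩) hbal
  have hst0 : c0 (s, t) = 0 := by
    rw [happ]
    have k1 : c1 (s, t) = 0 := by
      by_contra hh
      exact (hc1 _ hh).2.1.2.1 rfl
    have k2 : ¬ (e, a) = (s, t) := by
      intro hh
      rw [Prod.mk.injEq] at hh
      rw [hh.2, h2] at hca
      exact lt_irrefl _ hca
    have k3 : c2 (s, t) = 0 := by
      by_contra hh
      have := (hc2 _ hh).1.2
      rw [h1] at this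
      exact lt_irrefl _ this
    have k4 : ¬ (b, f) = (s, t) := by
      intro hh
      rw [Prod.mk.injEq] at hh
      rw [hh.1, h1] at hcb
      exact lt_irrefl _ hcb
    have k5 : c3 (s, t) = 0 := by
      by_contra hh
      exact (hc3 _ hh).1.2.1 rfl
    have k6 : ¬ (t, s) = (s, t) := by
      intro hh
      rw [Prod.mk.injEq] at hh
      exact hne hh.2
    rw [k1, if_neg k2, k3, if_neg k4, k5, if_neg k6]
    rfl
  have hts1 : c0 (t, s) = 1 := by
    rw [happ]
    have k1 : c1 (t, s) = 0 := by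
      by_contra hh
      exact (hc1 _ hh).1.2.1 rfl
    have k2 : ¬ (e, a) = (t, s) := by
      intro hh
      rw [Prod.mk.injEq] at hh
      rw [hh.2, h1] at hca
      exact lt_irrefl _ hca
    have k3 : c2 (t, s) = 0 := by
      by_contra hh
      have := (hc2 _ hh).1.2
      rw [h2] at this
      exact lt_irrefl _ this
    have k4 : ¬ (b, f) = (t, s) := by
      intro hh
      rw [Prod.mk.injEq] at hh
      rw [hh.1, h2] at hcb
      exact lt_irrefl _ hcb
    have k5 : c3 (t, s) = 0 := by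
      by_contra hh
      exact (hc3 _ hh).2.1.2.1 rfl
    rw [k1, if_neg k2, k3, if_neg k4, k5, if_pos rfl]
    rfl
  have hWpq := hW s hs t ht hst p q hq hp
  rw [hst0, hts1] at hWpq
  -- constancy on tiles of value < c
  have hcon : ∀ A ∈ T, dot z (x A) < c → ∀ r r', r ∈ A → r' ∈ A → IsVertex T r → IsVertex T r' →
      W r = W r' := by
    intro A hA hAc r r' hr hr' hrv hrv'
    apply ed_const h hA W _ hr hr' hrv hrv'
    intro B hB hAB p' q' hq' hp'
    have k1 := hW A hA B hB hAB p' q' hq' hp'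
    have k2 : c0 (A, B) = 0 := by
      by_contra hh
      have := (hsupp _ hh).2.2.2.1
      simp only at this
      linarith
    have k3 : c0 (B, A) = 0 := by
      by_contra hh
      have := (hsupp _ hh).2.2.2.2
      simp only at this
      linarith
    rw [k2, k3] at k1
    omega
  obtain ⟨p', q', -, -, hH1, hH2, hpv, hqv⟩ := g_head h hs ht hst
  have hpp : p = p' := g_head_uniq h ht hp hH2
  have hqq : q = q' := g_head_uniq h hs hq hH1
  rw [← hpp] at hpv
  rw [← hqq] at hqv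
  have hj : Jn Adj {r | r ∈ T ∧ -c < dot (-z) (x r)} w1 w2 := by
    apply conn_gt h hd (-z) (neg_ne_zero.2 hz) (-c)
    · refine ⟨hw1, ?_⟩
      rw [ed_dot_neg]
      linarith
    · refine ⟨hw2, ?_⟩
      rw [ed_dot_neg]
      linarith
  have hall : ∀ w' , Relation.ReflTransGen (fun x' y' => Adj x' y' ∧
      y' ∈ {r | r ∈ T ∧ -c < dot (-z) (x r)}) w1 w' → ∀ r ∈ w', IsVertex T r → W r = W p := by
    intro w' hw'
    induction hw' with
    | refl => intro r hr hrv; exact hcon w1 hw1 h3 r p hr hpw hrv hpv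
    | @tail b' d' hb' hbd ih =>
      intro r hr hrv
      have hbM := jn_mem (⟨hj.1, hb'⟩ : Jn Adj {r | r ∈ T ∧ -c < dot (-z) (x r)} w1 b')
      have hdM := hbd.2
      have hdc : dot z (x d') < c := by
        have := hdM.2
        rw [ed_dot_neg] at this
        linarith
      obtain ⟨p1, q1, -, hseg, -, -, hp1v, -⟩ := g_head h hbM.1 hdM.1 hbd.1
      have hp1 : p1 ∈ b' ∩ d' := by rw [hseg]; exact left_mem_segment ℝ _ _
      rw [← ih p1 hp1.1 hp1v]
      exact hcon d' hdM.1 hdc r p1 hr hp1.2 hrv hp1v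
  have hfin := hall w2 hj.2 q hqw hqv
  rw [hfin] at hWpq
  omega

end J26687

alias edge_lem := J26687.edge_lem

namespace J26689

/-! ### TARGET of this job: spike_lem -/

theorem spike_lem_walk {ι : Type} (adj : ι → ι → Prop) (S : Set ι) (a b : ι)
    (h : Jn adj S a b) : ∃ c : (ι × ι) →₀ ℤ, (∀ p ∈ c.support, p.1 ∈ S ∧ p.2 ∈ S ∧ adj p.1 p.2) ∧
      ∀ g : ι → ℝ, c.sum (fun p a => (a : ℝ) * (g p.2 - g p.1)) = g b - g a := by
  classical
  obtain ⟨haS, h⟩ := h
  induction h with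
  | refl => exact ⟨0, by simp, by simp⟩
  | @tail b' c' hab hbc ih =>
    obtain ⟨c, hc1, hc2⟩ := ih
    have hb' : b' ∈ S := jn_mem ⟨haS, hab⟩
    refine ⟨c + Finsupp.single (b', c') 1, ?_, ?_⟩
    · intro p hp
      rcases Finset.mem_union.1 (Finsupp.support_add hp) with hp | hp
      · exact hc1 p hp
      · have hp' : p = (b', c') := by
          have := Finsupp.support_single_subset hp
          simpa using this
        subst hp'
        exact ⟨hb', hbc.2, hbc.1⟩
    · intro g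
      rw [Finsupp.sum_add_index' (by intro a; simp) (by intro a b₁ b₂; push_cast; ring), hc2 g,
        Finsupp.sum_single_index (by simp)]
      push_cast
      ring

theorem spike_lem_seg {p q p' q' : ℂ} (hpq : p' ≠ q') (h : segment ℝ p q = segment ℝ p' q') :
    (p = p' ∧ q = q') ∨ (p = q' ∧ q = p') := by
  have e1 : p' ∈ segment ℝ p q := by rw [h]; exact left_mem_segment ℝ _ _
  have e2 : q' ∈ segment ℝ p q := by rw [h]; exact right_mem_segment ℝ _ _
  have e3 : p ∈ segment ℝ p' q' := by rw [← h]; exact left_mem_segment ℝ _ _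
  have e4 : q ∈ segment ℝ p' q' := by rw [← h]; exact right_mem_segment ℝ _ _
  rw [segment_eq_image'] at e1 e2 e3 e4
  obtain ⟨α, ⟨hα0, hα1⟩, e1⟩ := e1
  obtain ⟨β, ⟨hβ0, hβ1⟩, e2⟩ := e2
  obtain ⟨γ, ⟨hγ0, hγ1⟩, e3⟩ := e3
  obtain ⟨δ, ⟨hδ0, hδ1⟩, e4⟩ := e4
  simp only at e1 e2 e3 e4
  have hd1 : q' - p' = (β - α) • (q - p) := by
    rw [← e1, ← e2, sub_smul]; abel
  have hd2 : q - p = (δ - γ) • (q' - p') := by
    nth_rewrite 1 [← e4]
    nth_rewrite 1 [← e3]
    rw [sub_smul]; abel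
  have hne : q' - p' ≠ 0 := sub_ne_zero.2 hpq.symm
  have hprod : (β - α) * (δ - γ) = 1 := by
    have h5 : ((β - α) * (δ - γ)) • (q' - p') = (1 : ℝ) • (q' - p') := by
      rw [mul_smul, ← hd2, ← hd1, one_smul]
    exact smul_left_injective ℝ hne h5
  rcases le_total α β with hab | hab
  · have h6 : 0 ≤ δ - γ := by
      by_contra h7
      push Not at h7
      nlinarith
    have h8 : β - α = 1 := by nlinarith
    have hβ : β = 1 := by linarith
    have hα : α = 0 := by linarith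
    left
    constructor
    · rw [← e1, hα]; simp
    · rw [← e2, hβ]; simp
  · have h6 : δ - γ ≤ 0 := by
      by_contra h7
      push Not at h7
      nlinarith
    have h8 : α - β = 1 := by nlinarith
    have hβ : β = 0 := by linarith
    have hα : α = 1 := by linarith
    right
    constructor
    · rw [← e2, hβ]; simp
    · rw [← e1, hα]; simp

theorem spike_lem {T : Set (Set ℂ)} {u U : ℝ} (h : NC T u U) {x : Set ℂ → ℂ} {H : Set (Set ℂ)}
    {w : Set ℂ → Set ℂ → ℝ} {ρ : Set ℂ → ℕ} {C g wm : ℝ} {D : ℕ} (hd : Drw T x H w ρ C g wm D)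
    (v : ℂ) (hv : IsVertex T v) (r s t : Set ℂ) (hr : r ∈ T) (hs : s ∈ T) (ht : t ∈ T)
    (hrs : Adj r s) (hst : Adj s t) (h1 : Head r s v) (h2 : Head s t v) (z : ℂ) (hz : z ≠ 0)
    (c : ℝ) (h3 : c < dot z (x r)) (h4 : c < dot z (x t)) (h5 : dot z (x s) ≤ c)
    (w1 : Set ℂ) (hw1 : w1 ∈ T) (hvw : v ∈ w1) (hw1s : w1 ≠ s) (h6 : dot z (x w1) ≤ c) : False := by
  classical
  -- `r ≠ t`
  have hrt : r ≠ t := by
    rintro rfl
    obtain ⟨p, q, hpq, -, hq, hp, -, -⟩ := g_head h hr hs hrs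
    exact hpq ((g_head_uniq h hs hp h2).trans (g_head_uniq h hr hq h1).symm)
  have hvr : v ∈ r ∩ s := by
    obtain ⟨p, -, e, -⟩ := h1
    rw [e]; exact right_mem_segment ℝ _ _
  have hvt : v ∈ s ∩ t := by
    obtain ⟨p, -, e, -⟩ := h2
    rw [e]; exact right_mem_segment ℝ _ _
  -- the closed walk
  have hconn := conn_gt h hd z hz c
  have hsA : s ∉ {q | q ∈ T ∧ c < dot z (x q)} := fun hh => absurd hh.2 (not_lt.2 h5)
  obtain ⟨c1, hc1, hc2⟩ := spike_lem_walk Adj _ r t (hconn r ⟨hr, h3⟩ t ⟨ht, h4⟩)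
  set c0 : (Set ℂ × Set ℂ) →₀ ℤ := c1 + Finsupp.single (t, s) 1 + Finsupp.single (s, r) 1 with hc0
  have hsupp : ∀ p ∈ c0.support, p.1 ∈ T ∧ p.2 ∈ T ∧ Adj p.1 p.2 := by
    intro p hp
    rcases Finset.mem_union.1 (Finsupp.support_add hp) with hp | hp
    · rcases Finset.mem_union.1 (Finsupp.support_add hp) with hp | hp
      · obtain ⟨a1, a2, a3⟩ := hc1 p hp
        exact ⟨a1.1, a2.1, a3⟩
      · have hp' : p = (t, s) := by
          have := Finsupp.support_single_subset hp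
          simpa using this
        subst hp'
        exact ⟨ht, hs, adj_symm hst⟩
    · have hp' : p = (s, r) := by
        have := Finsupp.support_single_subset hp
        simpa using this
      subst hp'
      exact ⟨hs, hr, adj_symm hrs⟩
  have hbal : Bal c0 := by
    intro g
    rw [hc0, Finsupp.sum_add_index' (by intro a; simp) (by intro a b₁ b₂; push_cast; ring),
      Finsupp.sum_add_index' (by intro a; simp) (by intro a b₁ b₂; push_cast; ring), hc2 g,
      Finsupp.sum_single_index (by simp), Finsupp.sum_single_index (by simp)]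
    push_cast
    ring
  obtain ⟨W, hW, -⟩ := chain h c0 hsupp hbal
  have hc1L : ∀ A B, A ∉ {q | q ∈ T ∧ c < dot z (x q)} → c1 (A, B) = 0 := by
    intro A B hA
    by_contra hne
    exact hA (hc1 (A, B) (Finsupp.mem_support_iff.2 hne)).1
  have hc1R : ∀ A B, B ∉ {q | q ∈ T ∧ c < dot z (x q)} → c1 (A, B) = 0 := by
    intro A B hB
    by_contra hne
    exact hB (hc1 (A, B) (Finsupp.mem_support_iff.2 hne)).2.1
  have hrs' : r ≠ s := hrs.1
  have hst' : s ≠ t := hst.1
  have hv0 : ∀ A B, c0 (A, B) = c1 (A, B) + (if (t, s) = (A, B) then 1 else 0) +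
      (if (s, r) = (A, B) then 1 else 0) := by
    intro A B
    rw [hc0, Finsupp.add_apply, Finsupp.add_apply, Finsupp.single_apply, Finsupp.single_apply]
  -- edges not crossed
  have hedge : ∀ A ∈ T, ∀ B ∈ T, Adj A B → c0 (A, B) = c0 (B, A) → ∀ p q,
      A ∩ B = segment ℝ p q → W p = W q := by
    intro A hA B hB hAB hcc p q hpq
    obtain ⟨p', q', hne, e, hq', hp', -, -⟩ := g_head h hA hB hAB
    have h7 := hW A hA B hB hAB p' q' hq' hp'
    have h8 : W q' = W p' := by rw [hcc] at h7; linarith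
    rcases spike_lem_seg hne (hpq.symm.trans e) with ⟨rfl, rfl⟩ | ⟨rfl, rfl⟩
    · exact h8.symm
    · exact h8
  -- the other end of `s ∩ r`
  obtain ⟨p1, v1, hne1, e1, hv1, hp1, -, hv1v⟩ := g_head h hs hr (adj_symm hrs)
  have hp1v : p1 = v := g_head_uniq h hr hp1 h1
  subst hp1v
  have hWv1 : W v1 = W p1 + 1 := by
    have h7 := hW s hs r hr (adj_symm hrs) p1 v1 hv1 hp1
    rw [hv0, hv0, hc1L s r hsA, hc1R r s hsA, if_neg, if_pos rfl, if_neg, if_neg] at h7
    · linarith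
    · intro h8; exact hrs' (Prod.ext_iff.1 h8).1.symm
    · intro h8; exact hrt (Prod.ext_iff.1 h8).1.symm
    · intro h8; exact hst' (Prod.ext_iff.1 h8).1.symm
  have hv1s : v1 ∈ s := by
    have : v1 ∈ s ∩ r := by rw [e1]; exact right_mem_segment ℝ _ _
    exact this.1
  -- all vertices of `s`
  have hall : ∀ p ∈ s, IsVertex T p → p ≠ p1 → W p = W p1 + 1 := by
    intro p hp hpv hpne
    rw [← hWv1]
    refine g_bd h hs p1 W ?_ (Or.inr hv) hp hv1s hpv hv1v hpne hne1.symm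
    intro B hB hadj hnot a b hab
    refine hedge s hs B hB hadj ?_ a b hab
    have hBr : r ≠ B := by
      rintro rfl; exact hnot ⟨hvr.2, hvr.1⟩
    have hBt : t ≠ B := by
      rintro rfl; exact hnot hvt
    rw [hv0, hv0, hc1L s B hsA, hc1R B s hsA, if_neg, if_neg, if_neg, if_neg]
    · intro h8; exact hrs' (Prod.ext_iff.1 h8).2
    · intro h8; exact hBt (Prod.ext_iff.1 h8).1
    · intro h8; exact hBr (Prod.ext_iff.1 h8).2
    · intro h8; exact hst' (Prod.ext_iff.1 h8).1.symm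
  -- a point outside of the other tiles
  obtain ⟨o, ho⟩ := h.inr s hs
  have hos : o ∈ interior s := by
    rw [mem_interior]
    exact ⟨ball o u, ball_subset_closedBall.trans ho, isOpen_ball, mem_ball_self h.upos⟩
  -- the second walk
  have hconn2 := conn_ge h hd (-z) (neg_ne_zero.2 hz) (-c)
  have hdot : ∀ y : ℂ, dot (-z) y = - dot z y := by
    intro y; simp [dot]; ring
  have hwalk := hconn2 s ⟨hs, by rw [hdot]; linarith⟩ w1 ⟨hw1, by rw [hdot]; linarith⟩
  obtain ⟨-, hwalk⟩ := hwalk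
  have key : ∀ b, Relation.ReflTransGen
      (fun x' y => Adj x' y ∧ y ∈ {q | q ∈ T ∧ -c ≤ dot (-z) (x q)}) s b →
      b ∈ T ∧ (∀ p ∈ b, IsVertex T p → p ≠ p1 → W p = W p1 + 1) ∧
        (b ≠ s → ∀ p ∈ b, IsVertex T p → W p = W p1 + 1) := by
    intro b hb
    induction hb with
    | refl => exact ⟨hs, hall, fun hh => absurd rfl hh⟩
    | @tail b b' _ hstep ih =>
      obtain ⟨hbT, ih1, ih2⟩ := ih
      obtain ⟨hadj, hb'⟩ := hstep
      by_cases hb's : b' = s
      · subst hb's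
        exact ⟨hs, hall, fun hh => absurd rfl hh⟩
      · have hb'A : b' ∉ {q | q ∈ T ∧ c < dot z (x q)} := by
          intro hh
          have h8 := hb'.2
          rw [hdot] at h8
          exact absurd hh.2 (not_lt.2 (by linarith))
        have hb't : t ≠ b' := by
          rintro rfl; exact hb'A ⟨ht, h4⟩
        have hb'r : r ≠ b' := by
          rintro rfl; exact hb'A ⟨hr, h3⟩
        have hconst : ∀ p ∈ b', ∀ q ∈ b', IsVertex T p → IsVertex T q → W p = W q := by
          intro p hp q hq hpv hqv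
          have hob : o ∉ b' := fun hh => hb's (g_int h hs hb'.1 hos hh)
          refine g_bd h hb'.1 o W ?_ (Or.inl hob) hp hq hpv hqv ?_ ?_
          · intro B hB hadjB _ a b'' hab
            refine hedge b' hb'.1 B hB hadjB ?_ a b'' hab
            rw [hv0, hv0, hc1L b' B hb'A, hc1R B b' hb'A, if_neg, if_neg, if_neg, if_neg]
            · intro h8; exact hb'r (Prod.ext_iff.1 h8).2
            · intro h8; exact hb's (Prod.ext_iff.1 h8).2.symm
            · intro h8; exact hb's (Prod.ext_iff.1 h8).1.symm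
            · intro h8; exact hb't (Prod.ext_iff.1 h8).1
          · rintro rfl; exact hob hp
          · rintro rfl; exact hob hq
        obtain ⟨p', q', hne, e, -, -, hp'v, hq'v⟩ := g_head h hbT hb'.1 hadj
        have hp'm : p' ∈ b ∩ b' := by rw [e]; exact left_mem_segment ℝ _ _
        have hq'm : q' ∈ b ∩ b' := by rw [e]; exact right_mem_segment ℝ _ _
        have hex : ∃ e', e' ∈ b' ∧ IsVertex T e' ∧ W e' = W p1 + 1 := by
          by_cases hp'1 : p' = p1
          · refine ⟨q', hq'm.2, hq'v, ih1 q' hq'm.1 hq'v ?_⟩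
            rintro rfl
            exact hne hp'1
          · exact ⟨p', hp'm.2, hp'v, ih1 p' hp'm.1 hp'v hp'1⟩
        obtain ⟨e', he'b, he'v, he'W⟩ := hex
        have hfin : ∀ p ∈ b', IsVertex T p → W p = W p1 + 1 := fun p hp hpv =>
          (hconst p hp e' he'b hpv he'v).trans he'W
        exact ⟨hb'.1, fun p hp hpv _ => hfin p hp hpv, fun _ => hfin⟩
  have hfinal := (key w1 hwalk).2.2 hw1s p1 hvw hv
  omega

end J26689

alias spike_lem := J26689.spike_lem

namespace J26690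

/-! ### TARGET of this job: x_ne -/

theorem x_ne {T : Set (Set ℂ)} {u U : ℝ} (h : NC T u U) {x : Set ℂ → ℂ} {H : Set (Set ℂ)}
    {w : Set ℂ → Set ℂ → ℝ} {ρ : Set ℂ → ℕ} {C g wm : ℝ} {D : ℕ} (hd : Drw T x H w ρ C g wm D)
    (s t : Set ℂ) (hs : s ∈ T) (ht : t ∈ T) (hst : Adj s t) : x s ≠ x t := by
  intro hx
  obtain ⟨p, q, hpq, hseg, hq, hp, hvp, hvq⟩ := g_head h hs ht hst
  obtain ⟨w1, hw1, hpw, hb⟩ := nonflat' h hd p hvp 1 one_ne_zero (dot 1 (x s))
  have hbne : x w1 - x s ≠ 0 := by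
    intro h0
    rw [sub_eq_zero] at h0
    rw [h0] at hb
    exact hb rfl
  obtain ⟨w2, hw2, hqw, ha⟩ := nonflat' h hd q hvq ⟨-(x w1 - x s).im, (x w1 - x s).re⟩
    (by
      intro h0
      apply hbne
      have h1 := congrArg Complex.re h0
      have h2 := congrArg Complex.im h0
      simp only [Complex.zero_re, Complex.zero_im, neg_eq_zero] at h1 h2
      exact Complex.ext h2 h1)
    (dot ⟨-(x w1 - x s).im, (x w1 - x s).re⟩ (x s))
  have hE : (x w2 - x s).re * (x w1 - x s).im - (x w2 - x s).im * (x w1 - x s).re ≠ 0 := by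
    intro h0
    apply ha
    unfold dot
    simp only [Complex.sub_re, Complex.sub_im] at h0 ⊢
    linarith
  set E : ℝ := (x w2 - x s).re * (x w1 - x s).im - (x w2 - x s).im * (x w1 - x s).re with hEd
  set z : ℂ := ⟨((x w2 - x s).im - (x w1 - x s).im) / E, ((x w1 - x s).re - (x w2 - x s).re) / E⟩
    with hz
  have h1 : dot z (x w2 - x s) = -1 := by
    unfold dot
    rw [hz]
    simp only
    field_simp
    rw [hEd]
    ring
  have h2 : dot z (x w1 - x s) = -1 := by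
    unfold dot
    rw [hz]
    simp only
    field_simp
    rw [hEd]
    ring
  have hz0 : z ≠ 0 := by
    intro h0
    rw [h0] at h1
    unfold dot at h1
    simp at h1
  have h3 : dot z (x w2 - x s) = dot z (x w2) - dot z (x s) := by
    unfold dot
    simp only [Complex.sub_re, Complex.sub_im]
    ring
  have h4 : dot z (x w1 - x s) = dot z (x w1) - dot z (x s) := by
    unfold dot
    simp only [Complex.sub_re, Complex.sub_im]
    ring
  exact edge_lem h hd s t hs ht hst p q hp hq z hz0 (dot z (x s)) rfl (by rw [hx]) w1 w2 hw1 hw2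
    hpw hqw (by linarith) (by linarith)

end J26690

alias x_ne := J26690.x_ne

/-- orientation `σ` of the image of the edge between `s` and `t` -/
def Sg (T : Set (Set ℂ)) (x : Set ℂ → ℂ) (σ : ℝ) (s t : Set ℂ) : Prop :=
  ∀ q, Head s t q → ∀ w ∈ T, q ∈ w → 0 ≤ σ * cross (x t - x s) (x w - x s)

namespace J26692

/-! ### TARGET of this job: sign_pair -/

theorem sign_pair {T : Set (Set ℂ)} {u U : ℝ} (h : NC T u U) {x : Set ℂ → ℂ} {H : Set (Set ℂ)}
    {w : Set ℂ → Set ℂ → ℝ} {ρ : Set ℂ → ℕ} {C g wm : ℝ} {D : ℕ} (hd : Drw T x H w ρ C g wm D)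
    (s t : Set ℂ) (hs : s ∈ T) (ht : t ∈ T) (hst : Adj s t) :
    ∃ σ : ℝ, (σ = 1 ∨ σ = -1) ∧ Sg T x σ s t ∧ Sg T x σ t s := by
  obtain ⟨p, q, hpq, hseg, hq, hp, vp, vq⟩ := g_head h hs ht hst
  have hne := x_ne h hd s t hs ht hst
  set z : ℂ := ⟨-(x t - x s).im, (x t - x s).re⟩ with hzdef
  have hz : z ≠ 0 := by
    intro h0
    apply hne
    have h1 : z.re = 0 := by rw [h0]; rfl
    have h2 : z.im = 0 := by rw [h0]; rfl
    simp only [hzdef, Complex.sub_re, Complex.sub_im] at h1 h2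
    apply Complex.ext <;> linarith
  have hz' : -z ≠ 0 := neg_ne_zero.mpr hz
  set c : ℝ := dot z (x s) with hc
  have h2 : dot z (x t) = c := by
    simp only [hc, dot, hzdef, Complex.sub_re, Complex.sub_im]
    ring
  have hneg : ∀ y : ℂ, dot (-z) y = - dot z y := by
    intro y
    simp only [dot, Complex.neg_re, Complex.neg_im]
    ring
  have hcr : ∀ y : ℂ, cross (x t - x s) (y - x s) = dot z y - c := by
    intro y
    simp only [hc, dot, cross, hzdef, Complex.sub_re, Complex.sub_im]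
    ring
  have hcr' : ∀ y : ℂ, cross (x s - x t) (y - x t) = -(dot z y - c) := by
    intro y
    simp only [hc, dot, cross, hzdef, Complex.sub_re, Complex.sub_im]
    ring
  have eA : ∀ w1 ∈ T, ∀ w2 ∈ T, p ∈ w1 → q ∈ w2 → dot z (x w1) < c → dot z (x w2) < c → False :=
    fun w1 hw1 w2 hw2 hpw hqw h3 h4 =>
      edge_lem h hd s t hs ht hst p q hp hq z hz c rfl h2 w1 w2 hw1 hw2 hpw hqw h3 h4
  have eB : ∀ w1 ∈ T, ∀ w2 ∈ T, p ∈ w1 → q ∈ w2 → c < dot z (x w1) → c < dot z (x w2) → False :=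
    fun w1 hw1 w2 hw2 hpw hqw h3 h4 =>
      edge_lem h hd s t hs ht hst p q hp hq (-z) hz' (-c) (by rw [hneg]) (by rw [hneg, h2])
        w1 w2 hw1 hw2 hpw hqw (by rw [hneg]; linarith) (by rw [hneg]; linarith)
  obtain ⟨w0, hw0, hqw0, hn0⟩ := nonflat' h hd q vq z hz c
  obtain ⟨w1, hw1, hpw1, hn1⟩ := nonflat' h hd p vp z hz c
  rcases lt_or_gt_of_ne hn0 with hlt | hgt
  · -- `q` has a tile below: all tiles at `p` are above
    have hp_ge : ∀ w' ∈ T, p ∈ w' → c ≤ dot z (x w') := by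
      intro w' hw' hpw'
      by_contra hcon
      exact eA w' hw' w0 hw0 hpw' hqw0 (lt_of_not_ge hcon) hlt
    have h1gt : c < dot z (x w1) := lt_of_le_of_ne (hp_ge w1 hw1 hpw1) (Ne.symm hn1)
    have hq_le : ∀ w' ∈ T, q ∈ w' → dot z (x w') ≤ c := by
      intro w' hw' hqw'
      by_contra hcon
      exact eB w1 hw1 w' hw' hpw1 hqw' h1gt (lt_of_not_ge hcon)
    refine ⟨-1, Or.inr rfl, ?_, ?_⟩
    · intro q' hq' w' hw' hqw'
      have hqq : q' = q := g_head_uniq h hs hq' hq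
      subst hqq
      rw [hcr]
      have := hq_le w' hw' hqw'
      linarith
    · intro q' hq' w' hw' hqw'
      have hqq : q' = p := g_head_uniq h ht hq' hp
      subst hqq
      rw [hcr']
      have := hp_ge w' hw' hqw'
      linarith
  · have hp_le : ∀ w' ∈ T, p ∈ w' → dot z (x w') ≤ c := by
      intro w' hw' hpw'
      by_contra hcon
      exact eB w' hw' w0 hw0 hpw' hqw0 (lt_of_not_ge hcon) hgt
    have h1lt : dot z (x w1) < c := lt_of_le_of_ne (hp_le w1 hw1 hpw1) hn1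
    have hq_ge : ∀ w' ∈ T, q ∈ w' → c ≤ dot z (x w') := by
      intro w' hw' hqw'
      by_contra hcon
      exact eA w1 hw1 w' hw' hpw1 hqw' h1lt (lt_of_not_ge hcon)
    refine ⟨1, Or.inl rfl, ?_, ?_⟩
    · intro q' hq' w' hw' hqw'
      have hqq : q' = q := g_head_uniq h hs hq' hq
      subst hqq
      rw [hcr]
      have := hq_ge w' hw' hqw'
      linarith
    · intro q' hq' w' hw' hqw'
      have hqq : q' = p := g_head_uniq h ht hq' hp
      subst hqq
      rw [hcr']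
      have := hp_le w' hw' hqw'
      linarith

end J26692

alias sign_pair := J26692.sign_pair

namespace J26691

/-! ### TARGET of this job: sign_uniq -/

theorem sign_uniq {T : Set (Set ℂ)} {u U : ℝ} (h : NC T u U) {x : Set ℂ → ℂ} {H : Set (Set ℂ)}
    {w : Set ℂ → Set ℂ → ℝ} {ρ : Set ℂ → ℕ} {C g wm : ℝ} {D : ℕ} (hd : Drw T x H w ρ C g wm D)
    (s t : Set ℂ) (hs : s ∈ T) (ht : t ∈ T) (hst : Adj s t) (h1 : Sg T x 1 s t)
    (h2 : Sg T x (-1) s t) : False := by
  obtain ⟨p, q, hpq, hseg, hq, hp, hvp, hvq⟩ := g_head h hs ht hst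
  have hne := x_ne h hd s t hs ht hst
  have hz : (⟨-(x t - x s).im, (x t - x s).re⟩ : ℂ) ≠ 0 := by
    intro h0
    apply hne
    have e1 := congrArg Complex.re h0
    have e2 := congrArg Complex.im h0
    simp only [Complex.zero_re, Complex.zero_im, Complex.sub_re, Complex.sub_im] at e1 e2
    apply Complex.ext
    · linarith
    · linarith
  obtain ⟨w', hw'T, hqw', hdot⟩ := nonflat' h hd q hvq _ hz
    (dot ⟨-(x t - x s).im, (x t - x s).re⟩ (x s))
  apply hdot
  have a1 := h1 q hq w' hw'T hqw'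
  have a2 := h2 q hq w' hw'T hqw'
  have a3 : cross (x t - x s) (x w' - x s) = 0 := by linarith
  simp only [cross, Complex.sub_re, Complex.sub_im] at a3
  simp only [dot, Complex.sub_re, Complex.sub_im]
  linarith

end J26691

alias sign_uniq := J26691.sign_uniq

namespace J26693

/-! ### TARGET of this job: sign_vertex -/

theorem sign_vertex_head {A B : Set ℂ} {q : ℂ} (h : Head A B q) : q ∈ A ∧ q ∈ B := by
  obtain ⟨p, _, hp, _⟩ := h
  have h1 : q ∈ segment ℝ p q := right_mem_segment ℝ p q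
  rw [← hp] at h1
  exact h1

theorem sign_vertex_par (a b : ℂ) (ha : a ≠ 0) (h : cross a b = 0) :
    ∃ l : ℝ, b.re = l * a.re ∧ b.im = l * a.im := by
  have h1 : 0 < a.re * a.re + a.im * a.im := by
    have h2 := Complex.normSq_pos.2 ha
    rwa [Complex.normSq_apply] at h2
  refine ⟨(a.re * b.re + a.im * b.im) / (a.re * a.re + a.im * a.im), ?_, ?_⟩
  · rw [div_mul_eq_mul_div, eq_div_iff h1.ne']
    simp only [cross] at h
    linear_combination (-a.im) * h
  · rw [div_mul_eq_mul_div, eq_div_iff h1.ne']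
    simp only [cross] at h
    linear_combination a.re * h

theorem sign_vertex {T : Set (Set ℂ)} {u U : ℝ} (h : NC T u U) {x : Set ℂ → ℂ} {H : Set (Set ℂ)}
    {w : Set ℂ → Set ℂ → ℝ} {ρ : Set ℂ → ℕ} {C g wm : ℝ} {D : ℕ} (hd : Drw T x H w ρ C g wm D)
    (v : ℂ) (hv : IsVertex T v) (r s t : Set ℂ) (hr : r ∈ T) (hs : s ∈ T) (ht : t ∈ T)
    (hrs : Adj r s) (hst : Adj s t) (h1 : Head r s v) (h2 : Head s t v) (σ τ : ℝ)
    (hσ : σ = 1 ∨ σ = -1) (hτ : τ = 1 ∨ τ = -1) (h3 : Sg T x σ r s) (h4 : Sg T x τ s t) : σ = τ := by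
  by_contra hne
  have hτσ : τ = -σ := by
    rcases hσ with rfl | rfl <;> rcases hτ with rfl | rfl
    · exact absurd rfl hne
    · rfl
    · norm_num
    · exact absurd rfl hne
  have hσ2 : σ * σ = 1 := by rcases hσ with rfl | rfl <;> norm_num
  obtain ⟨hvr, hvs⟩ := sign_vertex_head h1
  obtain ⟨_, hvt⟩ := sign_vertex_head h2
  have h3' := h3 v h1
  have h4' := h4 v h2
  subst hτσ
  have ha : x s - x r ≠ 0 := sub_ne_zero.2 (Ne.symm (x_ne h hd r s hr hs hrs))
  have hb : x t - x s ≠ 0 := sub_ne_zero.2 (Ne.symm (x_ne h hd s t hs ht hst))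
  have hcr : cross (x s - x r) (x t - x s) = 0 := by
    have h5 := h3' t ht hvt
    have h6 := h4' r hr hvr
    have h7 : cross (x s - x r) (x t - x r) = cross (x s - x r) (x t - x s) := by
      simp only [cross, Complex.sub_re, Complex.sub_im]; ring
    have h8 : cross (x t - x s) (x r - x s) = cross (x s - x r) (x t - x s) := by
      simp only [cross, Complex.sub_re, Complex.sub_im]; ring
    rw [h7] at h5
    rw [h8] at h6
    have h9 : σ * cross (x s - x r) (x t - x s) = 0 := by linarith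
    rcases mul_eq_zero.1 h9 with h10 | h10
    · rw [h10] at hσ2
      norm_num at hσ2
    · exact h10
  obtain ⟨l, hl1, hl2⟩ := sign_vertex_par _ _ ha hcr
  have hl0 : l ≠ 0 := by
    rintro rfl
    apply hb
    apply Complex.ext
    · rw [hl1]; simp
    · rw [hl2]; simp
  have hν : ∀ y ∈ T, v ∈ y → 0 ≤ σ * cross (x s - x r) (x y - x s) := by
    intro y hy hvy
    have h5 := h3' y hy hvy
    have h7 : cross (x s - x r) (x y - x r) = cross (x s - x r) (x y - x s) := by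
      simp only [cross, Complex.sub_re, Complex.sub_im]; ring
    rwa [h7] at h5
  have hν' : ∀ y ∈ T, v ∈ y → l * (σ * cross (x s - x r) (x y - x s)) ≤ 0 := by
    intro y hy hvy
    have h5 := h4' y hy hvy
    have h7 : cross (x t - x s) (x y - x s) = l * cross (x s - x r) (x y - x s) := by
      unfold cross
      rw [hl1, hl2]
      ring
    rw [h7] at h5
    linarith
  have hn0 : (⟨-(x s - x r).im, (x s - x r).re⟩ : ℂ) ≠ 0 := by
    intro h5
    apply ha
    have h6 := congrArg Complex.re h5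
    have h7 := congrArg Complex.im h5
    simp only [Complex.zero_re, Complex.zero_im] at h6 h7
    apply Complex.ext
    · simpa using h7
    · rw [Complex.zero_im]
      linarith
  obtain ⟨w1, hw1, hvw1, hw1'⟩ := nonflat' h hd v hv _ hn0
    (dot (⟨-(x s - x r).im, (x s - x r).re⟩ : ℂ) (x s))
  have hν1 : cross (x s - x r) (x w1 - x s) ≠ 0 := by
    intro h5
    apply hw1'
    simp only [cross, dot, Complex.sub_re, Complex.sub_im] at h5 ⊢
    linarith
  have hν2 : 0 < σ * cross (x s - x r) (x w1 - x s) := by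
    apply lt_of_le_of_ne (hν w1 hw1 hvw1)
    intro h5
    rcases mul_eq_zero.1 h5.symm with h10 | h10
    · rw [h10] at hσ2
      norm_num at hσ2
    · exact hν1 h10
  have hlneg : l < 0 := by
    have h5 := hν' w1 hw1 hvw1
    by_contra h6
    rw [not_lt] at h6
    have h7 : 0 < l := lt_of_le_of_ne h6 (Ne.symm hl0)
    have h8 := mul_pos h7 hν2
    linarith
  have hw1s : w1 ≠ s := by
    rintro rfl
    apply hν1
    simp [cross]
  set N := σ * cross (x s - x r) (x w1 - x s) with hN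
  set K := dot (x r - x s) (x w1 - x s) / N with hK
  have hKN : K * N = dot (x r - x s) (x w1 - x s) := div_mul_cancel₀ _ hν2.ne'
  set z : ℂ := ⟨(x r - x s).re - K * (σ * -(x s - x r).im),
    (x r - x s).im - K * (σ * (x s - x r).re)⟩ with hz
  have hdz : ∀ y : ℂ, dot z y - dot z (x s) =
      dot (x r - x s) (y - x s) - K * (σ * cross (x s - x r) (y - x s)) := by
    intro y
    simp only [hz, dot, cross, Complex.sub_re, Complex.sub_im]
    ring
  have hpos : 0 < (x s - x r).re * (x s - x r).re + (x s - x r).im * (x s - x r).im := by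
    have h5 := Complex.normSq_pos.2 ha
    rwa [Complex.normSq_apply] at h5
  have hzr : dot z (x r) - dot z (x s) =
      (x s - x r).re * (x s - x r).re + (x s - x r).im * (x s - x r).im := by
    rw [hdz]
    simp only [dot, cross, Complex.sub_re, Complex.sub_im]
    ring
  have hzt : dot z (x t) - dot z (x s) =
      (-l) * ((x s - x r).re * (x s - x r).re + (x s - x r).im * (x s - x r).im) := by
    rw [hdz, hcr]
    simp only [dot, hl1, hl2]
    simp only [Complex.sub_re, Complex.sub_im]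
    ring
  have hzw : dot z (x w1) - dot z (x s) = 0 := by
    rw [hdz, ← hN, hKN, sub_self]
  have hz0 : z ≠ 0 := by
    intro h5
    rw [h5] at hzr
    simp only [dot, Complex.zero_re, Complex.zero_im] at hzr
    linarith
  exact spike_lem h hd v hv r s t hr hs ht hrs hst h1 h2 z hz0 (dot z (x s))
    (by linarith) (by
      have h5 := mul_pos (neg_pos.2 hlneg) hpos
      linarith) le_rfl w1 hw1 hvw1 hw1s (by linarith)

end J26693

alias sign_vertex := J26693.sign_vertex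

namespace J26694

/-! ### TARGET of this job: sign_all -/

theorem sa_par {d e : ℂ} (hd : d ≠ 0) (h : cross d e = 0) : ∃ a : ℝ, e = (a : ℂ) * d := by
  have hn : 0 < d.re ^ 2 + d.im ^ 2 := by
    rcases eq_or_ne d.re 0 with h1 | h1
    · rcases eq_or_ne d.im 0 with h2 | h2
      · exact absurd (Complex.ext h1 h2) hd
      · positivity
    · positivity
  refine ⟨(d.re * e.re + d.im * e.im) / (d.re ^ 2 + d.im ^ 2), ?_⟩
  unfold cross at h
  apply Complex.ext
  · simp only [Complex.mul_re, Complex.ofReal_re, Complex.ofReal_im, zero_mul, sub_zero]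
    field_simp
    linear_combination (- d.im) * h
  · simp only [Complex.mul_im, Complex.ofReal_re, Complex.ofReal_im, zero_mul, add_zero]
    field_simp
    linear_combination d.re * h

theorem sa_cl {T : Set (Set ℂ)} {u U : ℝ} (h : NC T u U) {A : Set ℂ} (hA : A ∈ T) (d p : ℂ)
    (hpos : ∀ z ∈ interior A, 0 < cross d (z - p)) : ∀ z ∈ A, 0 ≤ cross d (z - p) := by
  intro z hz
  obtain ⟨c, hc⟩ := h.inr A hA
  have hci : c ∈ interior A := by
    rw [mem_interior]
    exact ⟨ball c u, ball_subset_closedBall.trans hc, isOpen_ball, mem_ball_self h.upos⟩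
  have hcl : z ∈ closure (interior A) := by
    rw [(h.conv A hA).closure_interior_eq_closure_of_nonempty_interior ⟨c, hci⟩]
    exact subset_closure hz
  have hclosed : IsClosed {z : ℂ | 0 ≤ cross d (z - p)} := by
    apply isClosed_le continuous_const
    unfold cross
    fun_prop
  exact closure_minimal (fun y hy => (hpos y hy).le) hclosed hcl

theorem sa_end {T : Set (Set ℂ)} {u U : ℝ} (h : NC T u U) {s B : Set ℂ} (hs : s ∈ T) (hB : B ∈ T)
    (had : Adj s B) {v : ℂ} (hv : IsVertex T v) (hvs : v ∈ s) (hvB : v ∈ B) :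
    Head s B v ∨ Head B s v := by
  by_contra hcon
  push Not at hcon
  obtain ⟨hc1, hc2⟩ := hcon
  obtain ⟨p, q, hpq, hseg, hq, hp, -, -⟩ := g_head h hs hB had
  have hvp : v ≠ p := fun e => hc2 (e ▸ hp)
  have hvq : v ≠ q := fun e => hc1 (e ▸ hq)
  obtain ⟨B1, hB1, had1, hh1, -⟩ := g_next h hv hs hvs
  have hne : B ≠ B1 := fun e => hc1 (e ▸ hh1)
  obtain ⟨p1, hp1, hs1, hpos⟩ := hh1
  have hnn := sa_cl h hs (v - p1) p1 hpos
  have hpseg : p ∈ s ∩ B := by rw [hseg]; exact left_mem_segment ℝ p q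
  have hqseg : q ∈ s ∩ B := by rw [hseg]; exact right_mem_segment ℝ p q
  have hvseg : v ∈ segment ℝ p q := by rw [← hseg]; exact ⟨hvs, hvB⟩
  obtain ⟨a, b, ha, hb, hab, hvab⟩ := hvseg
  have ha' : a ≠ 0 := by
    rintro rfl
    apply hvq
    rw [← hvab]
    have : b = 1 := by linarith
    simp [this]
  have hb' : b ≠ 0 := by
    rintro rfl
    apply hvp
    rw [← hvab]
    have : a = 1 := by linarith
    simp [this]
  have hapos : 0 < a := lt_of_le_of_ne ha (Ne.symm ha')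
  have hbpos : 0 < b := lt_of_le_of_ne hb (Ne.symm hb')
  have hvp1 : v - p1 ≠ 0 := sub_ne_zero.mpr (Ne.symm hp1)
  have hvab' : v = (a : ℂ) * p + (b : ℂ) * q := by
    rw [← hvab]; simp [Complex.real_smul]
  have habc : (a : ℂ) + (b : ℂ) = 1 := by exact_mod_cast hab
  have hsum : a * cross (v - p1) (p - p1) + b * cross (v - p1) (q - p1) = 0 := by
    have e1 : v - p1 = (a : ℂ) * (p - p1) + (b : ℂ) * (q - p1) := by
      rw [hvab']
      linear_combination p1 * habc
    have er : (v - p1).re = a * (p - p1).re + b * (q - p1).re := by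
      rw [e1]; simp
    have ei : (v - p1).im = a * (p - p1).im + b * (q - p1).im := by
      rw [e1]; simp
    unfold cross
    rw [er, ei]
    ring
  have hc1' := hnn p hpseg.1
  have hc2' := hnn q hqseg.1
  have hz1 : cross (v - p1) (p - p1) = 0 := by
    have h1 : 0 ≤ a * cross (v - p1) (p - p1) := by positivity
    have h2 : 0 ≤ b * cross (v - p1) (q - p1) := by positivity
    have h3 : a * cross (v - p1) (p - p1) = 0 := by linarith
    exact (mul_eq_zero.mp h3).resolve_left ha'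
  have hz2 : cross (v - p1) (q - p1) = 0 := by
    have h1 : 0 ≤ a * cross (v - p1) (p - p1) := by positivity
    have h2 : 0 ≤ b * cross (v - p1) (q - p1) := by positivity
    have h3 : b * cross (v - p1) (q - p1) = 0 := by linarith
    exact (mul_eq_zero.mp h3).resolve_left hb'
  obtain ⟨c, hc⟩ := sa_par hvp1 hz1
  obtain ⟨d, hd⟩ := sa_par hvp1 hz2
  have hcd : a * c + b * d = 1 := by
    have e1 : ((a * c + b * d : ℝ) : ℂ) * (v - p1) = 1 * (v - p1) := by
      push_cast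
      have e2 : v - p1 = (a : ℂ) * (p - p1) + (b : ℂ) * (q - p1) := by
        rw [hvab']
        linear_combination p1 * habc
      rw [hc, hd] at e2
      linear_combination - e2
    have e3 := mul_right_cancel₀ hvp1 e1
    exact_mod_cast e3
  have hcne : c ≠ 1 := by
    rintro rfl
    apply hvp
    have : p - p1 = v - p1 := by rw [hc]; simp
    exact (sub_left_inj.mp this).symm
  have hdne : d ≠ 1 := by
    rintro rfl
    apply hvq
    have : q - p1 = v - p1 := by rw [hd]; simp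
    exact (sub_left_inj.mp this).symm
  -- point with parameter m
  have key : ∀ m : ℝ, 0 ≤ m → m < 1 → (∃ θ : ℝ, 0 ≤ θ ∧ θ ≤ 1 ∧ m = (1 - θ) * c + θ * d) → False := by
    rintro m hm0 hm1 ⟨θ, hθ0, hθ1, hm⟩
    have hy1 : p1 + (m : ℂ) * (v - p1) ∈ s ∩ B1 := by
      rw [hs1]
      refine ⟨1 - m, m, by linarith, hm0, by ring, ?_⟩
      simp only [Complex.real_smul]
      push_cast
      ring
    have hy2 : p1 + (m : ℂ) * (v - p1) ∈ s ∩ B := by
      rw [hseg]
      refine ⟨1 - θ, θ, by linarith, hθ0, by ring, ?_⟩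
      simp only [Complex.real_smul]
      rw [hm]
      have hc' : p = p1 + (c : ℂ) * (v - p1) := by linear_combination hc
      have hd' : q = p1 + (d : ℂ) * (v - p1) := by linear_combination hd
      rw [hc', hd']
      push_cast
      ring
    have hv1 : v ∈ B1 := by
      have : v ∈ s ∩ B1 := by rw [hs1]; exact right_mem_segment ℝ p1 v
      exact this.2
    have heq := g_triple h hs hB hB1 had.1 had1.1 hne (p := p1 + (m : ℂ) * (v - p1)) (q := v)
      ⟨hy2, hy1.2⟩ ⟨⟨hvs, hvB⟩, hv1⟩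
    have : ((m - 1 : ℝ) : ℂ) * (v - p1) = 0 := by
      push_cast
      linear_combination heq
    rcases mul_eq_zero.mp this with h0 | h0
    · have : m - 1 = 0 := by exact_mod_cast h0
      linarith
    · exact hvp1 h0
  have hb1 : b = 1 - a := by linarith
  rcases lt_or_gt_of_ne hcne with hc1'' | hc1''
  · -- c < 1, so d > 1
    rcases le_or_gt 0 c with hc0 | hc0
    · exact key c hc0 hc1'' ⟨0, le_rfl, zero_le_one, by ring⟩
    · have hd1 : 0 < d := by nlinarith
      have hdc : 0 < d - c := by linarith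
      refine key 0 le_rfl zero_lt_one ⟨-c / (d - c), div_nonneg (by linarith) hdc.le, ?_, ?_⟩
      · rw [div_le_one hdc]; linarith
      · field_simp
        ring
  · have hd1 : d < 1 := by
      by_contra hge
      push Not at hge
      nlinarith
    rcases le_or_gt 0 d with hd0 | hd0
    · exact key d hd0 hd1 ⟨1, zero_le_one, le_rfl, by ring⟩
    · have hdc : 0 < c - d := by linarith
      refine key 0 le_rfl zero_lt_one ⟨c / (c - d), div_nonneg (by linarith) hdc.le, ?_, ?_⟩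
      · rw [div_le_one hdc]; linarith
      · field_simp
        ring

theorem sa_eq {T : Set (Set ℂ)} {u U : ℝ} (h : NC T u U) {x : Set ℂ → ℂ} {H : Set (Set ℂ)}
    {w : Set ℂ → Set ℂ → ℝ} {ρ : Set ℂ → ℕ} {C g wm : ℝ} {D : ℕ} (hd : Drw T x H w ρ C g wm D)
    {s t : Set ℂ} (hs : s ∈ T) (ht : t ∈ T) (hst : Adj s t) {σ τ : ℝ}
    (hσ : σ = 1 ∨ σ = -1) (hτ : τ = 1 ∨ τ = -1) (h1 : Sg T x σ s t) (h2 : Sg T x τ s t) :
    σ = τ := by
  rcases hσ with rfl | rfl <;> rcases hτ with rfl | rfl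
  · rfl
  · exact (sign_uniq h hd s t hs ht hst h1 h2).elim
  · exact (sign_uniq h hd s t hs ht hst h2 h1).elim
  · rfl

theorem sa_symm {T : Set (Set ℂ)} {u U : ℝ} (h : NC T u U) {x : Set ℂ → ℂ} {H : Set (Set ℂ)}
    {w : Set ℂ → Set ℂ → ℝ} {ρ : Set ℂ → ℕ} {C g wm : ℝ} {D : ℕ} (hd : Drw T x H w ρ C g wm D)
    {s t : Set ℂ} (hs : s ∈ T) (ht : t ∈ T) (hst : Adj s t) {σ : ℝ}
    (hσ : σ = 1 ∨ σ = -1) (h1 : Sg T x σ s t) : Sg T x σ t s := by
  obtain ⟨τ, hτ, h2, h3⟩ := sign_pair h hd s t hs ht hst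
  have := sa_eq h hd hs ht hst hσ hτ h1 h2
  rw [this]
  exact h3

theorem sa_step {T : Set (Set ℂ)} {u U : ℝ} (h : NC T u U) {x : Set ℂ → ℂ} {H : Set (Set ℂ)}
    {w : Set ℂ → Set ℂ → ℝ} {ρ : Set ℂ → ℕ} {C g wm : ℝ} {D : ℕ} (hd : Drw T x H w ρ C g wm D)
    {s B E : Set ℂ} (hs : s ∈ T) (hB : B ∈ T) (hE : E ∈ T) (hsB : Adj s B) (hsE : Adj s E)
    {v : ℂ} (hv : IsVertex T v) (h1 : Head s B v) (h2 : Head E s v)
    {σ : ℝ} (hσ : σ = 1 ∨ σ = -1) : Sg T x σ s B ↔ Sg T x σ s E := by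
  constructor
  · intro h3
    obtain ⟨τ, hτ, h4, h5⟩ := sign_pair h hd E s hE hs (adj_symm hsE)
    have := sign_vertex h hd v hv E s B hE hs hB (adj_symm hsE) hsB h2 h1 τ σ hτ hσ h4 h3
    rw [← this]
    exact h5
  · intro h3
    obtain ⟨τ, hτ, h4, h5⟩ := sign_pair h hd s B hs hB hsB
    have h6 : Sg T x σ E s := sa_symm h hd hs hE hsE hσ h3
    have := sign_vertex h hd v hv E s B hE hs hB (adj_symm hsE) hsB h2 h1 σ τ hσ hτ h6 h4
    rw [this]
    exact h4

theorem sa_tile {T : Set (Set ℂ)} {u U : ℝ} (h : NC T u U) {x : Set ℂ → ℂ} {H : Set (Set ℂ)}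
    {w : Set ℂ → Set ℂ → ℝ} {ρ : Set ℂ → ℕ} {C g wm : ℝ} {D : ℕ} (hd : Drw T x H w ρ C g wm D)
    {s B E : Set ℂ} (hs : s ∈ T) (hB : B ∈ T) (hE : E ∈ T) (hsB : Adj s B) (hsE : Adj s E)
    {σ : ℝ} (hσ : σ = 1 ∨ σ = -1) : Sg T x σ s B ↔ Sg T x σ s E := by
  refine g_bd2 h hs (fun B => Sg T x σ s B) ?_ hB hE hsB hsE
  intro v hv hvs B hB E hE hsB hsE hvB hvE
  rcases sa_end h hs hB hsB hv hvs hvB with h1 | h1
  · rcases sa_end h hs hE hsE hv hvs hvE with h2 | h2
    · obtain ⟨B', -, -, -, hun⟩ := g_next h hv hs hvs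
      have e1 := hun B hB hsB h1
      have e2 := hun E hE hsE h2
      rw [e1, e2]
    · exact sa_step h hd hs hB hE hsB hsE hv h1 h2 hσ
  · rcases sa_end h hs hE hsE hv hvs hvE with h2 | h2
    · exact (sa_step h hd hs hE hB hsE hsB hv h2 h1 hσ).symm
    · obtain ⟨B', -, -, -, hun⟩ := g_prev h hv hs hvs
      have e1 := hun B hB (adj_symm hsB) h1
      have e2 := hun E hE (adj_symm hsE) h2
      rw [e1, e2]

theorem sign_all {T : Set (Set ℂ)} {u U : ℝ} (h : NC T u U) {x : Set ℂ → ℂ} {H : Set (Set ℂ)}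
    {w : Set ℂ → Set ℂ → ℝ} {ρ : Set ℂ → ℕ} {C g wm : ℝ} {D : ℕ} (hd : Drw T x H w ρ C g wm D) :
    ∃ σ : ℝ, (σ = 1 ∨ σ = -1) ∧ ∀ s ∈ T, ∀ t ∈ T, Adj s t → Sg T x σ s t := by
  by_cases hex : ∃ s ∈ T, ∃ t ∈ T, Adj s t
  · obtain ⟨s0, hs0, t0, ht0, h0⟩ := hex
    obtain ⟨σ, hσ, h1, -⟩ := sign_pair h hd s0 t0 hs0 ht0 h0
    refine ⟨σ, hσ, ?_⟩
    intro s hs
    obtain ⟨-, hwalk⟩ := g_seg h hs0 hs
    have main : ∀ y : Set ℂ, Relation.ReflTransGen (fun x y => Adj x y ∧
        y ∈ {q | q ∈ T ∧ ∃ a ∈ s0, ∃ b ∈ s, (q ∩ segment ℝ a b).Nonempty}) s0 y →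
        y ∈ T ∧ ∀ t ∈ T, Adj y t → Sg T x σ y t := by
      intro y hy
      induction hy with
      | refl =>
        refine ⟨hs0, fun t ht hst => ?_⟩
        exact (sa_tile h hd hs0 ht0 ht h0 hst hσ).mp h1
      | tail _ hbc ih =>
        rename_i b c _
        obtain ⟨hbT, hb⟩ := ih
        have hcT : c ∈ T := hbc.2.1
        refine ⟨hcT, fun t ht hct => ?_⟩
        have h2 := hb c hcT hbc.1
        have h3 : Sg T x σ c b := sa_symm h hd hbT hcT hbc.1 hσ h2
        exact (sa_tile h hd hcT hbT ht (adj_symm hbc.1) hct hσ).mp h3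
    exact (main s hwalk).2
  · refine ⟨1, Or.inl rfl, fun s hs t ht hst => ?_⟩
    exact absurd ⟨s, hs, t, ht, hst⟩ hex

end J26694

alias sign_all := J26694.sign_all

/-- base points in the tiles and points on the edges -/
structure Pts (T : Set (Set ℂ)) (z : Set ℂ → ℂ) (m : Set ℂ → Set ℂ → ℂ) : Prop where
  hz : ∀ A ∈ T, z A ∈ interior A
  hm : ∀ A ∈ T, ∀ B ∈ T, Adj A B → ∀ p q, p ≠ q → A ∩ B = segment ℝ p q → m A B ∈ openSegment ℝ p q
  hs : ∀ A B, m A B = m B A

namespace J27053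

/-! ### TARGET of this job: pts_ex -/

theorem pts_ex_aux (p q p0 q0 : ℂ) (hpq : p ≠ q) (h0 : p0 ≠ q0) (h1 : p0 ∈ segment ℝ p q)
    (h2 : q0 ∈ segment ℝ p q) : (p0 + q0) / 2 ≠ p := by
  rw [segment_eq_image'] at h1 h2
  obtain ⟨s, hs, rfl⟩ := h1
  obtain ⟨t, ht, rfl⟩ := h2
  intro he
  have h3 : ((s + t : ℝ) : ℂ) * (q - p) = 0 := by
    simp only [Complex.real_smul] at he
    push_cast
    linear_combination 2 * he
  have h4 : q - p ≠ 0 := sub_ne_zero.mpr hpq.symm
  have h5 : ((s + t : ℝ) : ℂ) = 0 := (mul_eq_zero.mp h3).resolve_right h4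
  have h6 : s + t = 0 := by exact_mod_cast h5
  have h7 : s = 0 := by have := hs.1; have := ht.1; linarith
  have h8 : t = 0 := by linarith
  apply h0
  rw [h7, h8]

theorem pts_ex_mid (p q p0 q0 : ℂ) (hpq : p ≠ q) (h0 : p0 ≠ q0) (h : segment ℝ p0 q0 = segment ℝ p q) :
    (p0 + q0) / 2 ∈ openSegment ℝ p q := by
  have h1 : p0 ∈ segment ℝ p q := h ▸ left_mem_segment ℝ p0 q0
  have h2 : q0 ∈ segment ℝ p q := h ▸ right_mem_segment ℝ p0 q0
  have h3 : (p0 + q0) / 2 ∈ segment ℝ p q := by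
    rw [← h]
    refine ⟨1/2, 1/2, by norm_num, by norm_num, by norm_num, ?_⟩
    simp only [Complex.real_smul]
    push_cast
    ring
  rw [← insert_endpoints_openSegment] at h3
  rcases h3 with h3 | h3 | h3
  · exact absurd h3 (pts_ex_aux p q p0 q0 hpq h0 h1 h2)
  · rw [segment_symm] at h1 h2
    exact absurd h3 (pts_ex_aux q p p0 q0 hpq.symm h0 h1 h2)
  · exact h3

theorem pts_ex {T : Set (Set ℂ)} {u U : ℝ} (h : NC T u U) : ∃ z m, Pts T z m := by
  classical
  let f : Set ℂ → ℂ := fun S => if hS : ∃ pq : ℂ × ℂ, pq.1 ≠ pq.2 ∧ S = segment ℝ pq.1 pq.2 then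
    (hS.choose.1 + hS.choose.2) / 2 else 0
  let z : Set ℂ → ℂ := fun A => if hA : (interior A).Nonempty then hA.choose else 0
  refine ⟨z, fun A B => f (A ∩ B), ?_, ?_, ?_⟩
  · intro A hA
    have h1 := (g_cl h hA).2
    simp only [z, dif_pos h1]
    exact h1.choose_spec
  · intro A hA B hB hAB p q hpq he
    have hS : ∃ pq : ℂ × ℂ, pq.1 ≠ pq.2 ∧ A ∩ B = segment ℝ pq.1 pq.2 := ⟨(p, q), hpq, he⟩
    simp only [f, dif_pos hS]
    have h2 := hS.choose_spec
    exact pts_ex_mid p q _ _ hpq h2.1 (h2.2.symm.trans he)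
  · intro A B
    simp only [Set.inter_comm]

end J27053

alias pts_ex := J27053.pts_ex

/-- the angle swept by the broken segment `z A, m A B, z B` seen from `y` -/
noncomputable def th (z : Set ℂ → ℂ) (m : Set ℂ → Set ℂ → ℂ) (y : ℂ) (p : Set ℂ × Set ℂ) : ℝ :=
  Complex.arg ((m p.1 p.2 - y) / (z p.1 - y)) + Complex.arg ((z p.2 - y) / (m p.1 p.2 - y))

namespace J27052

/-! ### TARGET of this job: chain_exp -/

theorem chain_exp_seg_left {p p' q : ℂ} (h : segment ℝ p' q = segment ℝ p q) : p' = p := by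
  have h1 : p ∈ segment ℝ p' q := by rw [h]; exact left_mem_segment ℝ p q
  have h2 : p' ∈ segment ℝ p q := by rw [← h]; exact left_mem_segment ℝ p' q
  have d1 := dist_add_dist_of_mem_segment h1
  have d2 := dist_add_dist_of_mem_segment h2
  have d3 : dist p' p = dist p p' := dist_comm _ _
  have d4 : dist p' p = 0 := by linarith
  exact dist_eq_zero.1 d4

theorem chain_exp_disj {T : Set (Set ℂ)} {u U : ℝ} (h : NC T u U) {A B A2 : Set ℂ} (hA : A ∈ T)
    (hB : B ∈ T) (hA2 : A2 ∈ T) (hAB : A ≠ B) {z m p q : ℂ} (hz : z ∈ interior A2) (hm : m ∈ A2)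
    (hseg : A ∩ B = segment ℝ p q) (hmn : m ∉ A ∩ B) :
    Disjoint (segment ℝ z m) (segment ℝ p q) := by
  rw [Set.disjoint_left]
  intro x hx hxpq
  rw [← hseg] at hxpq
  have hint : x ∈ interior A2 → False := by
    intro hxi
    have h1 := g_int h hA2 hA hxi hxpq.1
    have h2 := g_int h hA2 hB hxi hxpq.2
    exact hAB (h1.trans h2.symm)
  rw [← insert_endpoints_openSegment] at hx
  rcases hx with hx | hx | hx
  · exact hint (by rw [hx]; exact hz)
  · rw [hx] at hxpq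
    exact hmn hxpq
  · exact hint ((h.conv A2 hA2).openSegment_interior_closure_subset_interior hz
      (subset_closure hm) hx)

theorem chain_exp_arg_inv {p q z : ℂ} (hc : cross (q - p) (z - p) ≠ 0) :
    Complex.arg ((z - p) / (z - q)) = - Complex.arg ((z - q) / (z - p)) := by
  have h1 : (z - p) / (z - q) = ((z - q) / (z - p))⁻¹ := by rw [inv_div]
  rw [h1, Complex.arg_inv, if_neg]
  intro hpi
  rw [Complex.arg_eq_pi_iff] at hpi
  obtain ⟨hre, him⟩ := hpi
  apply hc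
  have hzp : z - p ≠ 0 := by
    intro h0
    rw [h0, div_zero] at hre
    simp at hre
  set w := (z - q) / (z - p) with hw
  have h2 : z - q = w * (z - p) := by rw [hw]; field_simp
  have h3 : q - p = (1 - w) * (z - p) := by linear_combination -h2
  unfold cross
  rw [h3]
  simp only [Complex.mul_re, Complex.mul_im, Complex.sub_re, Complex.sub_im, Complex.one_re,
    Complex.one_im, him]
  ring

theorem chain_exp_far {R : ℝ} {p x y : ℂ} (hx : ‖x‖ ≤ R) (hy : ‖y‖ ≤ R) (hp : 3 * R + 1 < ‖p‖) :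
    |Complex.arg ((x - p) / (y - p))| < Real.pi / 2 := by
  rw [Complex.abs_arg_lt_pi_div_two_iff]
  left
  have h1 : 2 * R + 1 < ‖y - p‖ := by
    have := norm_sub_norm_le p y
    rw [norm_sub_rev] at this
    linarith
  have hR : 0 ≤ R := (norm_nonneg x).trans hx
  have hyp : y - p ≠ 0 := by
    intro h0
    rw [h0, norm_zero] at h1
    linarith
  have e1 : (x - p) / (y - p) = 1 + (x - y) / (y - p) := by
    field_simp
    ring
  have h2 : ‖(x - y) / (y - p)‖ < 1 := by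
    rw [norm_div, div_lt_one (norm_pos_iff.2 hyp)]
    have := norm_sub_le x y
    linarith
  have h3 := Complex.abs_re_le_norm ((x - y) / (y - p))
  rw [e1, Complex.add_re, Complex.one_re]
  have h4 := neg_abs_le ((x - y) / (y - p)).re
  linarith

theorem chain_exp_far2 {R : ℝ} {p x y : ℂ} (hx : ‖x‖ ≤ R) (hy : ‖y‖ ≤ R) (hp : 3 * R + 1 < ‖p‖) :
    Complex.arg ((x - p) / (y - p)) = Complex.arg ((x - p) / (0 - p)) -
      Complex.arg ((y - p) / (0 - p)) := by
  have hR : 0 ≤ R := (norm_nonneg x).trans hx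
  have h0 : ‖(0 : ℂ)‖ ≤ R := by rw [norm_zero]; exact hR
  have a1 := chain_exp_far hx hy hp
  have a2 := chain_exp_far hy h0 hp
  have hne : ∀ w : ℂ, ‖w‖ ≤ R → w - p ≠ 0 := by
    intro w hw hwp
    rw [sub_eq_zero.1 hwp] at hw
    linarith
  have hxp := hne x hx
  have hyp := hne y hy
  have h0p := hne 0 h0
  rw [abs_lt] at a1 a2
  have hpi := Real.pi_pos
  have h1 := Complex.arg_mul (div_ne_zero hxp hyp) (div_ne_zero hyp h0p)
    ⟨by linarith [a1.1, a2.1], by linarith [a1.2, a2.2]⟩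
  have e1 : (x - p) / (y - p) * ((y - p) / (0 - p)) = (x - p) / (0 - p) := by
    field_simp
  rw [e1] at h1
  linarith

theorem chain_exp {T : Set (Set ℂ)} {u U : ℝ} (h : NC T u U) {z : Set ℂ → ℂ}
    {m : Set ℂ → Set ℂ → ℂ} (hP : Pts T z m) (c : (Set ℂ × Set ℂ) →₀ ℤ)
    (hs : ∀ p ∈ c.support, p.1 ∈ T ∧ p.2 ∈ T ∧ Adj p.1 p.2) (hb : Bal c) :
    (∀ A ∈ T, ∀ B ∈ T, Adj A B → ∀ p q, Head A B q → Head B A p →
      c.sum (fun P a => (a : ℝ) * th z m q P) - c.sum (fun P a => (a : ℝ) * th z m p P) =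
        2 * Real.pi * (c (A, B) - c (B, A))) ∧
      ∃ R0 : ℝ, ∀ p, R0 ≤ ‖p‖ → c.sum (fun P a => (a : ℝ) * th z m p P) = 0 := by
  classical
  have hz : ∀ A, A ∈ T → z A ∈ interior A := hP.hz
  -- properties of the midpoints
  have hM : ∀ A ∈ T, ∀ B ∈ T, Adj A B → m A B ∈ A ∩ B ∧
      ∀ C ∈ T, m A B ∈ C → C = A ∨ C = B := by
    intro A hA B hB had
    obtain ⟨p, q, hpq, hseg, -, -, hC⟩ := g_adj h hA hB had
    have h1 := hP.hm A hA B hB had p q hpq hseg
    refine ⟨?_, fun C hC' hmC => hC _ h1 C hC' hmC⟩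
    have h2 : m A B ∈ segment ℝ p q := openSegment_subset_segment ℝ p q h1
    rw [← hseg] at h2
    exact h2
  let θ : ℂ → Set ℂ × Set ℂ → ℝ := fun p x =>
    Complex.arg ((m x.1 x.2 - p) / (z x.1 - p)) +
      Complex.arg ((z x.2 - p) / (m x.1 x.2 - p))
  let S : ℂ → ℝ := fun p => ∑ x ∈ c.support, (c x : ℝ) * θ p x
  have hS : ∀ p, c.sum (fun P a => (a : ℝ) * th z m p P) = S p := fun p => rfl
  have hpi := Real.pi_pos
  have hbal : ∀ g : Set ℂ → ℝ, ∑ x ∈ c.support, (c x : ℝ) * (g x.2 - g x.1) = 0 := fun g => hb g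
  constructor
  · intro A hA B hB had p q hq hp
    rw [hS, hS]
    obtain ⟨p0, q0, hpq0, hseg, hq0, hp0, hvp, hvq⟩ := g_head h hA hB had
    have eq1 := g_head_uniq h hA hq0 hq
    have eq2 := g_head_uniq h hB hp0 hp
    subst eq1
    subst eq2
    have hAB : A ≠ B := had.1
    have hcA : ∀ w ∈ interior A, 0 < cross (q0 - p0) (w - p0) := by
      obtain ⟨p', hp'q, hseg', hcr⟩ := hq
      have : p' = p0 := chain_exp_seg_left (hseg'.symm.trans hseg)
      subst this
      exact hcr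
    have hcB : ∀ w ∈ interior B, cross (q0 - p0) (w - p0) < 0 := by
      obtain ⟨q', hq'p, hseg', hcr⟩ := hp
      have : q' = q0 := by
        apply chain_exp_seg_left (q := p0)
        rw [← hseg', Set.inter_comm, hseg, segment_symm]
      subst this
      intro w hw
      have h1 := hcr w hw
      have h2 : cross (q' - p0) (w - p0) = - cross (p0 - q') (w - q') := by
        unfold cross
        simp only [Complex.sub_re, Complex.sub_im]
        ring
      rw [h2]
      linarith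
    let G : Set ℂ → ℝ := fun X => Complex.arg ((z X - q0) / (z X - p0))
    have hm0 := hP.hm A hA B hB had p0 q0 hpq0 hseg
    have hzA := hcA _ (hz A hA)
    have hzB := hcB _ (hz B hB)
    have hstep : ∀ x ∈ c.support, θ q0 x - θ p0 x = (G x.2 - G x.1) +
        2 * Real.pi * ((if x = (A, B) then 1 else 0) - (if x = (B, A) then 1 else 0)) := by
      intro x hx
      obtain ⟨h1, h2, h3⟩ := hs x hx
      by_cases hx1 : x = (A, B)
      · have hx2 : x ≠ (B, A) := by
          rw [hx1]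
          intro he
          exact hAB (Prod.ext_iff.1 he).1
        rw [if_pos hx1, if_neg hx2]
        subst hx1
        have := arg_cross (z A) (z B) (m A B) p0 q0 hzA hzB hm0
        show (Complex.arg ((m A B - q0) / (z A - q0)) +
          Complex.arg ((z B - q0) / (m A B - q0))) -
          (Complex.arg ((m A B - p0) / (z A - p0)) +
          Complex.arg ((z B - p0) / (m A B - p0))) =
          (Complex.arg ((z B - q0) / (z B - p0)) - Complex.arg ((z A - q0) / (z A - p0))) + _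
        rw [this]
        ring
      · by_cases hx2 : x = (B, A)
        · rw [if_neg hx1, if_pos hx2]
          subst hx2
          have hm1 : m B A ∈ openSegment ℝ q0 p0 := by
            rw [hP.hs B A, openSegment_symm]
            exact hm0
          have k1 : 0 < cross (p0 - q0) (z B - q0) := by
            have h2 : cross (p0 - q0) (z B - q0) = - cross (q0 - p0) (z B - p0) := by
              unfold cross
              simp only [Complex.sub_re, Complex.sub_im]
              ring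
            rw [h2]
            linarith
          have k2 : cross (p0 - q0) (z A - q0) < 0 := by
            have h2 : cross (p0 - q0) (z A - q0) = - cross (q0 - p0) (z A - p0) := by
              unfold cross
              simp only [Complex.sub_re, Complex.sub_im]
              ring
            rw [h2]
            linarith
          have := arg_cross (z B) (z A) (m B A) q0 p0 k1 k2 hm1
          rw [chain_exp_arg_inv hzA.ne', chain_exp_arg_inv hzB.ne] at this
          show (Complex.arg ((m B A - q0) / (z B - q0)) +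
            Complex.arg ((z A - q0) / (m B A - q0))) -
            (Complex.arg ((m B A - p0) / (z B - p0)) +
            Complex.arg ((z A - p0) / (m B A - p0))) =
            (Complex.arg ((z A - q0) / (z A - p0)) - Complex.arg ((z B - q0) / (z B - p0))) + _
          linarith
        · rw [if_neg hx1, if_neg hx2]
          obtain ⟨A2, B2⟩ := x
          have hmm := hM A2 h1 B2 h2 h3
          have hmn : m A2 B2 ∉ A ∩ B := by
            rintro ⟨hmA, hmB⟩
            rcases hmm.2 A hA hmA with e1 | e1 <;> rcases hmm.2 B hB hmB with e2 | e2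
            · exact hAB (e1.trans e2.symm)
            · apply hx1
              rw [e1, e2]
            · apply hx2
              rw [e1, e2]
            · exact hAB (e1.trans e2.symm)
          have hseg' : A ∩ B = segment ℝ q0 p0 := by rw [hseg, segment_symm]
          have d1 := chain_exp_disj h hA hB h1 hAB (hz A2 h1) hmm.1.1 hseg' hmn
          have d2 := chain_exp_disj h hA hB h2 hAB (hz B2 h2) hmm.1.2 hseg' hmn
          rw [segment_symm] at d2
          have e1 := arg4 (z A2) (m A2 B2) q0 p0 d1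
          have e2 := arg4 (m A2 B2) (z B2) q0 p0 d2
          show (Complex.arg ((m A2 B2 - q0) / (z A2 - q0)) +
            Complex.arg ((z B2 - q0) / (m A2 B2 - q0))) -
            (Complex.arg ((m A2 B2 - p0) / (z A2 - p0)) +
            Complex.arg ((z B2 - p0) / (m A2 B2 - p0))) =
            (Complex.arg ((z B2 - q0) / (z B2 - p0)) -
              Complex.arg ((z A2 - q0) / (z A2 - p0))) + _
          linarith
    have e1 : S q0 - S p0 = ∑ x ∈ c.support, (c x : ℝ) * (θ q0 x - θ p0 x) := by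
      show ∑ x ∈ c.support, (c x : ℝ) * θ q0 x - ∑ x ∈ c.support, (c x : ℝ) * θ p0 x = _
      rw [← Finset.sum_sub_distrib]
      apply Finset.sum_congr rfl
      intro x _
      ring
    have e2 : ∑ x ∈ c.support, (c x : ℝ) * (θ q0 x - θ p0 x) =
        ∑ x ∈ c.support, (c x : ℝ) * (G x.2 - G x.1) +
        2 * Real.pi * (∑ x ∈ c.support, (if x = (A, B) then (c x : ℝ) else 0) -
          ∑ x ∈ c.support, (if x = (B, A) then (c x : ℝ) else 0)) := by
      rw [← Finset.sum_sub_distrib, Finset.mul_sum, ← Finset.sum_add_distrib]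
      apply Finset.sum_congr rfl
      intro x hx
      rw [hstep x hx]
      split_ifs <;> ring
    have e3 : ∀ a, ∑ x ∈ c.support, (if x = a then (c x : ℝ) else 0) = c a := by
      intro a
      rw [Finset.sum_ite_eq']
      by_cases ha : a ∈ c.support
      · rw [if_pos ha]
      · rw [if_neg ha]
        rw [Finsupp.notMem_support_iff.1 ha]
        simp
    rw [e1, e2, hbal G, e3, e3, zero_add]
  · -- far away
    obtain ⟨R, hR0, hR⟩ : ∃ R : ℝ, 0 ≤ R ∧ ∀ x ∈ c.support, ‖z x.1‖ ≤ R ∧ ‖z x.2‖ ≤ R ∧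
        ‖m x.1 x.2‖ ≤ R := by
      refine ⟨∑ x ∈ c.support, (‖z x.1‖ + ‖z x.2‖ + ‖m x.1 x.2‖), by positivity,
        fun x hx => ?_⟩
      have h1 := Finset.single_le_sum (f := fun x : Set ℂ × Set ℂ =>
        ‖z x.1‖ + ‖z x.2‖ + ‖m x.1 x.2‖) (fun i _ => by positivity) hx
      have h2 := norm_nonneg (z x.1)
      have h3 := norm_nonneg (z x.2)
      have h4 := norm_nonneg (m x.1 x.2)
      refine ⟨by linarith, by linarith, by linarith⟩
    refine ⟨3 * R + 2, fun p hp => ?_⟩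
    have hcon : 3 * R + 1 < ‖p‖ := by linarith
    rw [hS, ← hbal (fun X => Complex.arg ((z X - p) / (0 - p)))]
    apply Finset.sum_congr rfl
    intro x hx
    obtain ⟨r1, r2, r3⟩ := hR x hx
    show (c x : ℝ) * (Complex.arg ((m x.1 x.2 - p) / (z x.1 - p)) +
      Complex.arg ((z x.2 - p) / (m x.1 x.2 - p))) = _
    rw [chain_exp_far2 r3 r1 hcon, chain_exp_far2 r2 r3 hcon]
    ring

end J27052

alias chain_exp := J27052.chain_exp

namespace J27051

/-! ### TARGET of this job: vert_const -/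

theorem vert_const_seg {p q p1 q1 : ℂ} (hne : p1 ≠ q1) (h : segment ℝ p q = segment ℝ p1 q1) :
    (p = p1 ∧ q = q1) ∨ (p = q1 ∧ q = p1) := by
  have hp : p ∈ segment ℝ p1 q1 := by rw [← h]; exact left_mem_segment ℝ p q
  have hq : q ∈ segment ℝ p1 q1 := by rw [← h]; exact right_mem_segment ℝ p q
  have hp1 : p1 ∈ segment ℝ p q := by rw [h]; exact left_mem_segment ℝ p1 q1
  have hq1 : q1 ∈ segment ℝ p q := by rw [h]; exact right_mem_segment ℝ p1 q1
  rw [segment_eq_image'] at hp hq hp1 hq1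
  obtain ⟨s, hs, es⟩ := hp
  obtain ⟨t, ht, et⟩ := hq
  obtain ⟨s', hs', es'⟩ := hp1
  obtain ⟨t', ht', et'⟩ := hq1
  simp only [] at es et es' et'
  have h1 : q1 - p1 = (t' - s') • (q - p) := by
    rw [← es', ← et', sub_smul]
    abel
  have h2 : q - p = (t - s) • (q1 - p1) := by
    rw [← es, ← et, sub_smul]
    abel
  have hn : 0 < ‖q1 - p1‖ := norm_pos_iff.2 (sub_ne_zero.2 hne.symm)
  have h3 : ‖q1 - p1‖ = |t' - s'| * ‖q - p‖ := by
    conv_lhs => rw [h1]
    rw [norm_smul, Real.norm_eq_abs]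
  have h4 : ‖q - p‖ = |t - s| * ‖q1 - p1‖ := by
    conv_lhs => rw [h2]
    rw [norm_smul, Real.norm_eq_abs]
  have h5 : |t' - s'| ≤ 1 := by
    rw [abs_le]
    constructor <;> linarith [hs'.1, hs'.2, ht'.1, ht'.2]
  have h6 : 1 ≤ |t - s| := by
    by_contra hc
    push Not at hc
    have h7 : ‖q - p‖ < ‖q1 - p1‖ := by
      rw [h4]
      calc |t - s| * ‖q1 - p1‖ < 1 * ‖q1 - p1‖ := mul_lt_mul_of_pos_right hc hn
        _ = ‖q1 - p1‖ := one_mul _
    have h8 : ‖q1 - p1‖ ≤ ‖q - p‖ := by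
      rw [h3]
      calc |t' - s'| * ‖q - p‖ ≤ 1 * ‖q - p‖ := mul_le_mul_of_nonneg_right h5 (norm_nonneg _)
        _ = ‖q - p‖ := one_mul _
    linarith
  rcases le_abs.1 h6 with h9 | h9
  · left
    have hs0 : s = 0 := by linarith [hs.1, ht.2]
    have ht1 : t = 1 := by linarith [hs.1, ht.2]
    subst hs0 ht1
    exact ⟨by rw [← es]; simp, by rw [← et]; simp⟩
  · right
    have hs1 : s = 1 := by linarith [hs.2, ht.1]
    have ht0 : t = 0 := by linarith [hs.2, ht.1]
    subst hs1 ht0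
    exact ⟨by rw [← es]; simp, by rw [← et]; simp⟩

theorem vert_const_tile {T : Set (Set ℂ)} {u U : ℝ} (h : NC T u U) (f : ℂ → ℝ)
    (hf : ∀ A ∈ T, ∀ B ∈ T, Adj A B → ∀ p q, Head A B q → Head B A p → f p = f q)
    {A : Set ℂ} (hA : A ∈ T) {p q : ℂ} (hpA : p ∈ A) (hqA : q ∈ A)
    (hp : IsVertex T p) (hq : IsVertex T q) : f p = f q := by
  classical
  obtain ⟨c, hc⟩ := h.outr A hA
  have hv0 : c + ((|U| + 1 : ℝ) : ℂ) ∉ A := by
    intro hm
    have h1 := hc hm
    rw [mem_closedBall, dist_eq_norm, add_sub_cancel_left, Complex.norm_real,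
      Real.norm_eq_abs, abs_of_nonneg (by positivity)] at h1
    linarith [le_abs_self U]
  have key := g_bd h hA (c + ((|U| + 1 : ℝ) : ℂ)) (fun x => if f x = f p then 1 else 0) ?_
    (Or.inl hv0) hpA hqA hp hq (fun hh => hv0 (hh ▸ hpA)) (fun hh => hv0 (hh ▸ hqA))
  · by_contra hne
    simp only [if_true, if_neg (fun hh => hne (Eq.symm hh) : ¬ f q = f p)] at key
    exact absurd key one_ne_zero
  · intro B hB hAB _ a b hab
    obtain ⟨p1, q1, hne, hseg, hh1, hh2, _, _⟩ := g_head h hA hB hAB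
    have hfe : f p1 = f q1 := hf A hA B hB hAB p1 q1 hh1 hh2
    rw [hseg] at hab
    have hfab : f a = f b := by
      rcases vert_const_seg hne hab.symm with ⟨rfl, rfl⟩ | ⟨rfl, rfl⟩
      · exact hfe
      · exact hfe.symm
    simp only [hfab]

theorem vert_const {T : Set (Set ℂ)} {u U : ℝ} (h : NC T u U) (f : ℂ → ℝ)
    (hf : ∀ A ∈ T, ∀ B ∈ T, Adj A B → ∀ p q, Head A B q → Head B A p → f p = f q)
    {p q : ℂ} (hp : IsVertex T p) (hq : IsVertex T q) : f p = f q := by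
  obtain ⟨A, hA, _, _, _, _, _, _, _, hpA, _, _⟩ := id hp
  obtain ⟨B, hB, _, _, _, _, _, _, _, hqB, _, _⟩ := id hq
  have hj := (g_seg h hA hB).2
  have key : ∀ C, Relation.ReflTransGen (fun x y => Adj x y ∧
      y ∈ {q | q ∈ T ∧ ∃ a ∈ A, ∃ b ∈ B, (q ∩ segment ℝ a b).Nonempty}) A C →
      C ∈ T ∧ ∀ v, v ∈ C → IsVertex T v → f p = f v := by
    intro C hC
    induction hC with
    | refl => exact ⟨hA, fun v hv hvv => vert_const_tile h f hf hA hpA hv hp hvv⟩
    | tail _ hst ih =>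
      obtain ⟨hCT, ih⟩ := ih
      obtain ⟨hadj, hmem⟩ := hst
      refine ⟨hmem.1, fun v hv hvv => ?_⟩
      obtain ⟨p1, q1, hne, hseg, hh1, hh2, hv1, hv2⟩ := g_head h hCT hmem.1 hadj
      have hp1 := left_mem_segment ℝ p1 q1
      rw [← hseg] at hp1
      rw [ih p1 hp1.1 hv1]
      exact vert_const_tile h f hf hmem.1 hp1.2 hv hv1 hvv
  exact (key B hj).2 q hqB hq

end J27051

alias vert_const := J27051.vert_const

namespace J27050

/-! ### TARGET of this job: vert_far -/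

theorem vert_far {T : Set (Set ℂ)} {u U : ℝ} (h : NC T u U) (R0 : ℝ) : ∃ p, IsVertex T p ∧ R0 ≤ ‖p‖ := by
  obtain ⟨A, hA, hz⟩ := h.cover (((|R0| + 2 * |U| + 1 : ℝ)) : ℂ)
  obtain ⟨c, hc⟩ := h.outr A hA
  obtain ⟨p, q, r, -, -, -, hp, -, -, hvp, -, -⟩ := g_3v h hA
  refine ⟨p, hvp, ?_⟩
  have h1 := hc hz
  have h2 := hc hp
  rw [mem_closedBall] at h1 h2
  have h3 : dist p (((|R0| + 2 * |U| + 1 : ℝ)) : ℂ) ≤ U + U := by
    calc dist p (((|R0| + 2 * |U| + 1 : ℝ)) : ℂ) ≤ dist p c + dist c (((|R0| + 2 * |U| + 1 : ℝ)) : ℂ) :=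
          dist_triangle _ _ _
      _ ≤ U + U := by
          rw [dist_comm c]
          exact add_le_add h2 h1
  have h4 : ‖(((|R0| + 2 * |U| + 1 : ℝ)) : ℂ)‖ = |R0| + 2 * |U| + 1 := by
    rw [Complex.norm_real, Real.norm_eq_abs, abs_of_nonneg (by positivity)]
  have h5 : ‖(((|R0| + 2 * |U| + 1 : ℝ)) : ℂ)‖ ≤ ‖p‖ + dist p (((|R0| + 2 * |U| + 1 : ℝ)) : ℂ) := by
    rw [dist_eq_norm]
    have := norm_sub_le p (p - (((|R0| + 2 * |U| + 1 : ℝ)) : ℂ))
    simpa using this
  have h6 := le_abs_self R0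
  have h7 := le_abs_self U
  rw [h4] at h5
  linarith

end J27050

alias vert_far := J27050.vert_far

namespace J27049

/-! ### TARGET of this job: ring_th -/

theorem ring_th {T : Set (Set ℂ)} {u U : ℝ} (h : NC T u U) {z : Set ℂ → ℂ}
    {m : Set ℂ → Set ℂ → ℂ} (hP : Pts T z m) {v v0 : ℂ} (hv : IsVertex T v) (hv0 : IsVertex T v0) :
    ∑ p ∈ (ring_fin h v).toFinset, th z m v0 p = if v0 = v then 2 * Real.pi else 0 := by
  classical
  set s := (ring_fin h v).toFinset with hsdef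
  have hmem : ∀ p, p ∈ s ↔ p ∈ ring T v := fun p => (ring_fin h v).mem_toFinset
  let c : (Set ℂ × Set ℂ) →₀ ℤ := Finsupp.onFinset s (fun p => if p ∈ s then 1 else 0)
    (fun p hp => by by_contra hc; simp [hc] at hp)
  have hc : ∀ p, c p = if p ∈ s then 1 else 0 := fun p => rfl
  have hsum : ∀ G : Set ℂ × Set ℂ → ℝ, c.sum (fun P a => (a : ℝ) * G P) = ∑ P ∈ s, G P := by
    intro G
    rw [Finsupp.onFinset_sum _ (fun a => by simp)]
    apply Finset.sum_congr rfl
    intro P hP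
    simp [hP]
  have hsupp : ∀ p ∈ c.support, p.1 ∈ T ∧ p.2 ∈ T ∧ Adj p.1 p.2 := by
    intro p hp
    have h1 : p ∈ s := Finsupp.support_onFinset_subset hp
    have h2 := (hmem p).1 h1
    exact ⟨h2.1, h2.2.1, h2.2.2.1⟩
  have hbal : Bal c := by
    intro g
    rw [hsum (fun p => g p.2 - g p.1)]
    exact ring_bal h hv g
  obtain ⟨hjump, R0, hfar⟩ := chain_exp h hP c hsupp hbal
  have hconst := fun (p q : ℂ) (hp : IsVertex T p) (hq : IsVertex T q) =>
    vert_const h (fun p => ∑ P ∈ s, th z m p P - if p = v then 2 * Real.pi else 0) (by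
      intro A hA B hB hAB p q hq1 hp1
      have h1 := hjump A hA B hB hAB p q hq1 hp1
      rw [hsum, hsum] at h1
      have e1 : (c (A, B) : ℝ) = if q = v then 1 else 0 := by
        rw [hc]
        by_cases hqv : q = v
        · have : (A, B) ∈ s := (hmem _).2 ⟨hA, hB, hAB, hqv ▸ hq1⟩
          simp [this, hqv]
        · have : (A, B) ∉ s := fun hh => hqv (g_head_uniq h hA hq1 ((hmem _).1 hh).2.2.2)
          simp [this, hqv]
      have e2 : (c (B, A) : ℝ) = if p = v then 1 else 0 := by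
        rw [hc]
        by_cases hpv : p = v
        · have hBA : Adj B A := ⟨hAB.1.symm, by rw [inter_comm]; exact hAB.2⟩
          have : (B, A) ∈ s := (hmem _).2 ⟨hB, hA, hBA, hpv ▸ hp1⟩
          simp [this, hpv]
        · have : (B, A) ∉ s := fun hh => hpv (g_head_uniq h hB hp1 ((hmem _).1 hh).2.2.2)
          simp [this, hpv]
      rw [e1, e2] at h1
      by_cases hqv : q = v <;> by_cases hpv : p = v <;> simp only [hqv, hpv, if_true, if_false] at h1 ⊢ <;>
        linarith) hp hq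
  obtain ⟨p, hp, hpR⟩ := vert_far h (max R0 (‖v‖ + 1))
  have h1 := hconst v0 p hv0 hp
  have h2 := hfar p ((le_max_left _ _).trans hpR)
  rw [hsum] at h2
  have hpv : p ≠ v := by
    rintro rfl
    have := (le_max_right R0 (‖p‖ + 1)).trans hpR
    linarith
  simp only [hpv, if_false] at h1
  rw [h2] at h1
  linarith

end J27049

alias ring_th := J27049.ring_th

namespace J27054

/-! ### TARGET of this job: arg_anti -/

theorem arg_anti_ne (p q y : ℂ) (h : y ∉ segment ℝ p q) :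
    Complex.arg ((q - y) / (p - y)) ≠ Real.pi := by
  intro h1
  rw [Complex.arg_eq_pi_iff] at h1
  obtain ⟨hre, him⟩ := h1
  have hp : p - y ≠ 0 := by
    intro h0
    rw [h0, div_zero, Complex.zero_re] at hre
    exact lt_irrefl _ hre
  set x : ℂ := (q - y) / (p - y) with hx
  have hxr : x = ((x.re : ℝ) : ℂ) := by
    apply Complex.ext
    · rw [Complex.ofReal_re]
    · rw [Complex.ofReal_im, him]
  have hq : q - y = ((x.re : ℝ) : ℂ) * (p - y) := by
    rw [← hxr, hx, div_mul_cancel₀ _ hp]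
  apply h
  have hpos : 0 < 1 - x.re := by linarith
  have hne : (1 - x.re) ≠ 0 := hpos.ne'
  refine ⟨-x.re / (1 - x.re), 1 / (1 - x.re), div_nonneg (by linarith) hpos.le,
    div_nonneg zero_le_one hpos.le, ?_, ?_⟩
  · field_simp
    ring
  · have hne' : (1 : ℂ) - ((x.re : ℝ) : ℂ) ≠ 0 := by
      rw [← Complex.ofReal_one, ← Complex.ofReal_sub]
      exact Complex.ofReal_ne_zero.2 hne
    rw [Complex.real_smul, Complex.real_smul]
    push_cast
    field_simp
    linear_combination hq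

theorem arg_anti_inv (p q y : ℂ) (h : y ∉ segment ℝ p q) :
    Complex.arg ((p - y) / (q - y)) = - Complex.arg ((q - y) / (p - y)) := by
  have h1 := arg_anti_ne p q y h
  rw [← inv_div, Complex.arg_inv, if_neg h1]

theorem arg_anti (a m b y : ℂ) (h1 : y ∉ segment ℝ a m) (h2 : y ∉ segment ℝ m b) :
    Complex.arg ((m - y) / (b - y)) + Complex.arg ((a - y) / (m - y)) =
      -(Complex.arg ((m - y) / (a - y)) + Complex.arg ((b - y) / (m - y))) := by
  rw [arg_anti_inv m b y h2, arg_anti_inv a m y h1]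
  ring

end J27054

alias arg_anti := J27054.arg_anti

namespace J27055

/-! ### TARGET of this job: arg_mid -/

theorem arg_mid_aux (x z c : ℂ) (hx : x = (1 + c) / 2) (hz : x * z = c) (hx0 : x ≠ 0) (hz0 : z ≠ 0)
    (hc : c.im ≠ 0 ∨ 0 < c.re) : Complex.arg x + Complex.arg z = Complex.arg c := by
  have hxre : x.re = (1 + c.re) / 2 := by
    rw [hx]
    simp
  have hxim : x.im = c.im / 2 := by
    rw [hx]
    simp
  have hre : x.re * z.re - x.im * z.im = c.re := by
    rw [← Complex.mul_re, hz]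
  have him : x.re * z.im + x.im * z.re = c.im := by
    rw [← Complex.mul_im, hz]
  have hN : 0 < x.re ^ 2 + x.im ^ 2 := by
    have := Complex.normSq_pos.2 hx0
    rw [Complex.normSq_apply] at this
    nlinarith
  have hzim : z.im * (x.re ^ 2 + x.im ^ 2) = c.im / 2 := by
    have : z.im * (x.re ^ 2 + x.im ^ 2) = c.im * x.re - c.re * x.im := by
      rw [← hre, ← him]; ring
    rw [this, hxre, hxim]; ring
  have hzre : z.re * (x.re ^ 2 + x.im ^ 2) = (c.re + c.re ^ 2 + c.im ^ 2) / 2 := by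
    have : z.re * (x.re ^ 2 + x.im ^ 2) = c.re * x.re + c.im * x.im := by
      rw [← hre, ← him]; ring
    rw [this, hxre, hxim]; ring
  have hang : ((Complex.arg x + Complex.arg z : ℝ) : Real.Angle) = (Complex.arg c : ℝ) := by
    rw [← hz, Complex.arg_mul_coe_angle hx0 hz0]
    rfl
  obtain ⟨k, hk⟩ := Real.Angle.angle_eq_iff_two_pi_dvd_sub.1 hang
  have hpi := Real.pi_pos
  have bx1 := Complex.neg_pi_lt_arg x
  have bz1 := Complex.neg_pi_lt_arg z
  have bc1 := Complex.neg_pi_lt_arg c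
  have bc2 := Complex.arg_le_pi c
  have key : -1 < (k : ℝ) ∧ (k : ℝ) < 1 := by
    rcases lt_or_ge c.im 0 with hneg | hpos
    · have i1 : x.im < 0 := by rw [hxim]; linarith
      have i2 : z.im < 0 := by
        by_contra hcon
        push Not at hcon
        have := mul_nonneg hcon hN.le
        rw [hzim] at this
        linarith
      have a1 := Complex.arg_neg_iff.2 i1
      have a2 := Complex.arg_neg_iff.2 i2
      have a3 := Complex.arg_neg_iff.2 hneg
      constructor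
      · by_contra hcon
        push Not at hcon
        have : 2 * Real.pi * k ≤ 2 * Real.pi * (-1) := mul_le_mul_of_nonneg_left hcon (by linarith)
        linarith
      · by_contra hcon
        push Not at hcon
        have : 2 * Real.pi * 1 ≤ 2 * Real.pi * k := mul_le_mul_of_nonneg_left hcon (by linarith)
        linarith
    · have i1 : 0 ≤ x.im := by rw [hxim]; linarith
      have i2 : 0 ≤ z.im := by
        by_contra hcon
        push Not at hcon
        have := mul_neg_of_neg_of_pos hcon hN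
        rw [hzim] at this
        linarith
      have a1 := Complex.arg_nonneg_iff.2 i1
      have a2 := Complex.arg_nonneg_iff.2 i2
      have a3 := Complex.arg_nonneg_iff.2 hpos
      have a4 : Complex.arg x < Real.pi := by
        refine Complex.arg_lt_pi_iff.2 ?_
        rcases hc with h | h
        · right
          rw [hxim]
          intro h2
          apply h
          linarith
        · left
          rw [hxre]
          linarith
      have a5 : Complex.arg z < Real.pi := by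
        refine Complex.arg_lt_pi_iff.2 ?_
        rcases hc with h | h
        · right
          intro h2
          rw [h2, zero_mul] at hzim
          apply h
          linarith
        · left
          by_contra hcon
          push Not at hcon
          have h3 := mul_neg_of_neg_of_pos hcon hN
          rw [hzre] at h3
          nlinarith [sq_nonneg c.re, sq_nonneg c.im]
      constructor
      · by_contra hcon
        push Not at hcon
        have : 2 * Real.pi * k ≤ 2 * Real.pi * (-1) := mul_le_mul_of_nonneg_left hcon (by linarith)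
        linarith
      · by_contra hcon
        push Not at hcon
        have : 2 * Real.pi * 1 ≤ 2 * Real.pi * k := mul_le_mul_of_nonneg_left hcon (by linarith)
        linarith
  have hk0 : k = 0 := by
    have h1 : -1 < k := by exact_mod_cast key.1
    have h2 : k < 1 := by exact_mod_cast key.2
    omega
  rw [hk0] at hk
  simp at hk
  linarith

theorem arg_mid (a b y : ℂ) (h1 : y ∉ segment ℝ a b) :
    Complex.arg (((a + b) / 2 - y) / (a - y)) + Complex.arg ((b - y) / ((a + b) / 2 - y)) =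
      Complex.arg ((b - y) / (a - y)) := by
  have hA : a - y ≠ 0 := by
    intro h
    apply h1
    rw [← sub_eq_zero.1 h]
    exact left_mem_segment ℝ a b
  have hB : b - y ≠ 0 := by
    intro h
    apply h1
    rw [← sub_eq_zero.1 h]
    exact right_mem_segment ℝ a b
  have hM : (a + b) / 2 - y ≠ 0 := by
    intro h
    apply h1
    rw [← sub_eq_zero.1 h]
    refine ⟨1 / 2, 1 / 2, by norm_num, by norm_num, by norm_num, ?_⟩
    rw [Complex.real_smul, Complex.real_smul]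
    push_cast
    ring
  refine arg_mid_aux _ _ _ ?_ ?_ (div_ne_zero hM hA) (div_ne_zero hB hM) ?_
  · field_simp
    ring
  · rw [div_mul_div_comm, mul_comm (a - y) ((a + b) / 2 - y), mul_div_mul_left _ _ hM]
  · by_contra hcon
    push Not at hcon
    obtain ⟨hc1, hc2⟩ := hcon
    set c := (b - y) / (a - y) with hc
    have hcr : c = (c.re : ℂ) := Complex.ext (by simp) (by simp [hc1])
    have hmul : b - y = (c.re : ℂ) * (a - y) := by
      rw [← hcr, hc, div_mul_cancel₀ _ hA]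
    apply h1
    have hpos : 0 < 1 - c.re := by linarith
    have hne : ((1 - c.re : ℝ) : ℂ) ≠ 0 := by
      exact_mod_cast hpos.ne'
    refine ⟨-c.re / (1 - c.re), 1 / (1 - c.re), div_nonneg (by linarith) hpos.le,
      div_nonneg zero_le_one hpos.le, ?_, ?_⟩
    · rw [← add_div, div_eq_one_iff_eq hpos.ne']
      ring
    · rw [Complex.real_smul, Complex.real_smul]
      have hb : b = y + (c.re : ℂ) * (a - y) := by rw [← hmul]; ring
      rw [hb]
      push_cast at hne ⊢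
      field_simp
      ring

end J27055

alias arg_mid := J27055.arg_mid

namespace J27056

/-! ### TARGET of this job: v_disc_fin -/

theorem v_disc_fin {T : Set (Set ℂ)} {u U : ℝ} (h : NC T u U) (ρ : ℝ) :
    {v | IsVertex T v ∧ ‖v‖ ≤ ρ}.Finite := by
  refine (g_vfin h 0 ρ).subset ?_
  rintro v ⟨hv, hn⟩
  exact ⟨hv, mem_closedBall_zero_iff.2 hn⟩

end J27056

alias v_disc_fin := J27056.v_disc_fin

/-- the ordered pairs whose edge leaves the disc of radius `ρ` -/
def bd (T : Set (Set ℂ)) (ρ : ℝ) : Set (Set ℂ × Set ℂ) :=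
  {P | P.1 ∈ T ∧ P.2 ∈ T ∧ Adj P.1 P.2 ∧ (∃ q, Head P.1 P.2 q ∧ ‖q‖ ≤ ρ) ∧
    (∃ p, Head P.2 P.1 p ∧ ρ < ‖p‖)}

namespace J27057

/-! ### TARGET of this job: bd_fin -/

theorem bd_fin {T : Set (Set ℂ)} {u U : ℝ} (h : NC T u U) (ρ : ℝ) : (bd T ρ).Finite := by
  obtain ⟨N, hN⟩ := g_locfin h ρ
  have hf := (hN 0).1
  refine (hf.prod hf).subset ?_
  rintro ⟨A, B⟩ ⟨hA, hB, -, ⟨q, ⟨p, -, hseg, -⟩, hq⟩, -⟩
  have hqAB : q ∈ A ∩ B := by
    show q ∈ (A, B).1 ∩ (A, B).2
    rw [hseg]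
    exact right_mem_segment ℝ p q
  have hqb : q ∈ closedBall (0 : ℂ) ρ := by
    rw [mem_closedBall, dist_zero_right]
    exact hq
  exact ⟨⟨hA, q, hqAB.1, hqb⟩, ⟨hB, q, hqAB.2, hqb⟩⟩


end J27057

alias bd_fin := J27057.bd_fin

namespace J27058

/-! ### TARGET of this job: tot_split -/

theorem tot_split {T : Set (Set ℂ)} {u U : ℝ} (h : NC T u U) (ρ : ℝ) (f : Set ℂ × Set ℂ → ℝ)
    (hf : ∀ A ∈ T, ∀ B ∈ T, Adj A B → f (B, A) = - f (A, B)) :
    ∑ v ∈ (v_disc_fin h ρ).toFinset, ∑ p ∈ (ring_fin h v).toFinset, f p =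
      ∑ p ∈ (bd_fin h ρ).toFinset, f p := by
  classical
  have hdisj : (((v_disc_fin h ρ).toFinset : Finset ℂ) : Set ℂ).PairwiseDisjoint
      (fun v => (ring_fin h v).toFinset) := by
    intro v _ v' _ hvv'
    rw [Function.onFun, Finset.disjoint_left]
    intro p hp hp'
    rw [Set.Finite.mem_toFinset] at hp hp'
    exact hvv' (g_head_uniq h hp.1 hp.2.2.2 hp'.2.2.2)
  rw [← Finset.sum_biUnion hdisj]
  set E1 : Finset (Set ℂ × Set ℂ) :=
    (v_disc_fin h ρ).toFinset.biUnion (fun v => (ring_fin h v).toFinset) with hE1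
  have hmem : ∀ p, p ∈ E1 ↔ p.1 ∈ T ∧ p.2 ∈ T ∧ Adj p.1 p.2 ∧ ∃ q, Head p.1 p.2 q ∧ ‖q‖ ≤ ρ := by
    intro p
    rw [hE1, Finset.mem_biUnion]
    constructor
    · rintro ⟨v, hv, hp⟩
      rw [Set.Finite.mem_toFinset] at hv hp
      exact ⟨hp.1, hp.2.1, hp.2.2.1, v, hp.2.2.2, hv.2⟩
    · rintro ⟨h1, h2, h3, q, hq, hqρ⟩
      obtain ⟨-, q', -, -, hq', -, -, hvq'⟩ := g_head h h1 h2 h3
      have he := g_head_uniq h h1 hq hq'
      subst he
      refine ⟨q, ?_, ?_⟩
      · rw [Set.Finite.mem_toFinset]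
        exact ⟨hvq', hqρ⟩
      · rw [Set.Finite.mem_toFinset]
        exact ⟨h1, h2, h3, hq⟩
  rw [← Finset.sum_filter_add_sum_filter_not E1 (fun p => p ∈ bd T ρ)]
  have e1 : E1.filter (fun p => p ∈ bd T ρ) = (bd_fin h ρ).toFinset := by
    ext p
    rw [Finset.mem_filter, Set.Finite.mem_toFinset, hmem]
    constructor
    · exact fun hp => hp.2
    · intro hp
      exact ⟨⟨hp.1, hp.2.1, hp.2.2.1, hp.2.2.2.1⟩, hp⟩
  have e2 : ∑ p ∈ E1.filter (fun p => ¬ p ∈ bd T ρ), f p = 0 := by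
    refine Finset.sum_involution (fun p _ => (p.2, p.1)) ?_ ?_ ?_ ?_
    · rintro ⟨A, B⟩ hp
      rw [Finset.mem_filter, hmem] at hp
      have := hf A hp.1.1 B hp.1.2.1 hp.1.2.2.1
      simp only
      rw [this]
      ring
    · rintro ⟨A, B⟩ hp _ heq
      rw [Finset.mem_filter, hmem] at hp
      have h1 : B = A := congrArg Prod.fst heq
      exact hp.1.2.2.1.1 h1.symm
    · rintro ⟨A, B⟩ hp
      rw [Finset.mem_filter, hmem] at hp
      obtain ⟨⟨h1, h2, h3, q, hq, hqρ⟩, hnb⟩ := hp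
      simp only at h1 h2 h3 hq
      have h3' : Adj B A := ⟨fun h => h3.1 h.symm, by rw [Set.inter_comm]; exact h3.2⟩
      obtain ⟨p, q', -, -, hq', hpB, -, -⟩ := g_head h h1 h2 h3
      have hpρ : ‖p‖ ≤ ρ := by
        by_contra hcon
        push Not at hcon
        exact hnb ⟨h1, h2, h3, ⟨q, hq, hqρ⟩, ⟨p, hpB, hcon⟩⟩
      rw [Finset.mem_filter, hmem]
      refine ⟨⟨h2, h1, h3', p, hpB, hpρ⟩, fun hb => ?_⟩
      obtain ⟨-, -, -, -, p', hp', hp'ρ⟩ := hb
      have he := g_head_uniq h h1 hq hp'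
      rw [← he] at hp'ρ
      linarith
    · rintro ⟨A, B⟩ hp
      rfl
  rw [e1, e2, add_zero]

end J27058

alias tot_split := J27058.tot_split

namespace J27059

/-! ### TARGET of this job: bd_bal -/

theorem bd_bal {T : Set (Set ℂ)} {u U : ℝ} (h : NC T u U) (ρ : ℝ) (f : Set ℂ → ℝ) :
    ∑ p ∈ (bd_fin h ρ).toFinset, (f p.2 - f p.1) = 0 := by
  rw [← tot_split h ρ (fun P => f P.2 - f P.1) (fun A _ B _ _ => by ring)]
  refine Finset.sum_eq_zero fun v hv => ?_
  have hv' : IsVertex T v := ((v_disc_fin h ρ).mem_toFinset.1 hv).1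
  exact ring_bal h hv' f

end J27059

alias bd_bal := J27059.bd_bal

namespace J27060

/-! ### TARGET of this job: bd_const -/

theorem hom_aux {ι : Type} (s : Finset (ι × ι)) (a0 a1 : ι → ℂ) (b0 b1 : ι → ι → ℂ)
    (hb : ∀ f : ι → ℝ, ∑ p ∈ s, (f p.2 - f p.1) = 0)
    (h : ∀ t ∈ Icc (0:ℝ) 1, ∀ p ∈ s,
      ‖(b0 p.1 p.2 + (t : ℂ) * (b1 p.1 p.2 - b0 p.1 p.2)) - (a0 p.1 + (t : ℂ) * (a1 p.1 - a0 p.1))‖
        < ‖a0 p.1 + (t : ℂ) * (a1 p.1 - a0 p.1)‖ ∧
      ‖(a0 p.2 + (t : ℂ) * (a1 p.2 - a0 p.2)) - (b0 p.1 p.2 + (t : ℂ) * (b1 p.1 p.2 - b0 p.1 p.2))‖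
        < ‖b0 p.1 p.2 + (t : ℂ) * (b1 p.1 p.2 - b0 p.1 p.2)‖ ∧
      a0 p.2 + (t : ℂ) * (a1 p.2 - a0 p.2) ≠ 0) :
    ∑ p ∈ s, (Complex.arg (b1 p.1 p.2 / a1 p.1) + Complex.arg (a1 p.2 / b1 p.1 p.2)) =
      ∑ p ∈ s, (Complex.arg (b0 p.1 p.2 / a0 p.1) + Complex.arg (a0 p.2 / b0 p.1 p.2)) := by
  classical
  set a : ℝ → ι → ℂ := fun t i => a0 i + (t : ℂ) * (a1 i - a0 i) with ha
  set b : ℝ → ι → ι → ℂ := fun t i j => b0 i j + (t : ℂ) * (b1 i j - b0 i j) with hbdef
  set G : ℝ → ℝ := fun t => ∑ p ∈ s, (Complex.arg (b t p.1 p.2 / a t p.1) +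
    Complex.arg (a t p.2 / b t p.1 p.2)) with hG
  have h' : ∀ t ∈ Icc (0:ℝ) 1, ∀ p ∈ s, ‖b t p.1 p.2 - a t p.1‖ < ‖a t p.1‖ ∧
      ‖a t p.2 - b t p.1 p.2‖ < ‖b t p.1 p.2‖ ∧ a t p.2 ≠ 0 := h
  have hne : ∀ w v : ℂ, ‖w - v‖ < ‖v‖ → v ≠ 0 := by
    intro w v hwv hv
    rw [hv, norm_zero] at hwv
    exact absurd hwv (not_lt.mpr (norm_nonneg _))
  have hslit : ∀ w v : ℂ, ‖w - v‖ < ‖v‖ → w / v ∈ Complex.slitPlane := by
    intro w v hwv
    have hv := hne w v hwv
    have h1 : w / v = 1 + (w - v) / v := by field_simp; ring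
    rw [h1]
    apply Complex.mem_slitPlane_of_norm_lt_one
    rw [norm_div, div_lt_one (norm_pos_iff.mpr hv)]
    exact hwv
  have hca : ∀ i, Continuous (fun t => a t i) := by
    intro i; simp only [ha]; fun_prop
  have hcb : ∀ i j, Continuous (fun t => b t i j) := by
    intro i j; simp only [hbdef]; fun_prop
  have hcont : ContinuousOn G (Icc 0 1) := by
    apply continuousOn_finset_sum
    intro p hp t ht
    apply ContinuousAt.continuousWithinAt
    obtain ⟨h1, h2, h3⟩ := h' t ht p hp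
    apply ContinuousAt.add
    · have hc : ContinuousAt (fun t => b t p.1 p.2 / a t p.1) t :=
        (hcb _ _).continuousAt.div (hca _).continuousAt (hne _ _ h1)
      exact ContinuousAt.comp (g := Complex.arg) (Complex.continuousAt_arg (hslit _ _ h1)) hc
    · have hc : ContinuousAt (fun t => a t p.2 / b t p.1 p.2) t :=
        (hca _).continuousAt.div (hcb _ _).continuousAt (hne _ _ h2)
      exact ContinuousAt.comp (g := Complex.arg) (Complex.continuousAt_arg (hslit _ _ h2)) hc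
  have hint : ∀ t ∈ Icc (0:ℝ) 1, ∃ n : ℤ, G t = n * (2 * Real.pi) := by
    intro t ht
    have hz : ((G t : ℝ) : Real.Angle) = 0 := by
      have e1 : ((G t : ℝ) : Real.Angle) = ∑ p ∈ s, (((Complex.arg (b t p.1 p.2 / a t p.1) +
          Complex.arg (a t p.2 / b t p.1 p.2) : ℝ)) : Real.Angle) := by
        simp only [hG]
        exact map_sum Real.Angle.coeHom _ _
      have e2 : ∀ p ∈ s, (((Complex.arg (b t p.1 p.2 / a t p.1) +
          Complex.arg (a t p.2 / b t p.1 p.2) : ℝ)) : Real.Angle) =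
          ((Complex.arg (a t p.2) - Complex.arg (a t p.1) : ℝ) : Real.Angle) := by
        intro p hp
        obtain ⟨h1, h2, h3⟩ := h' t ht p hp
        rw [Real.Angle.coe_add, Real.Angle.coe_sub, Complex.arg_div_coe_angle (hne _ _ h2) (hne _ _ h1),
          Complex.arg_div_coe_angle h3 (hne _ _ h2)]
        abel
      rw [e1, Finset.sum_congr rfl e2]
      have e3 := hb (fun i => Complex.arg (a t i))
      have e4 : ∑ p ∈ s, ((Complex.arg (a t p.2) - Complex.arg (a t p.1) : ℝ) : Real.Angle) =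
          ((∑ p ∈ s, (Complex.arg (a t p.2) - Complex.arg (a t p.1)) : ℝ) : Real.Angle) :=
        (map_sum Real.Angle.coeHom _ _).symm
      rw [e4, e3, Real.Angle.coe_zero]
    obtain ⟨n, hn⟩ := Real.Angle.coe_eq_zero_iff.mp hz
    exact ⟨n, by rw [← hn, zsmul_eq_mul]⟩
  have hG01 : G 0 = G 1 := by
    obtain ⟨n0, hn0⟩ := hint 0 ⟨le_refl _, zero_le_one⟩
    obtain ⟨n1, hn1⟩ := hint 1 ⟨zero_le_one, le_refl _⟩
    have hpi := Real.pi_pos
    by_contra hne
    have hnn : n0 ≠ n1 := by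
      rintro rfl
      exact hne (by rw [hn0, hn1])
    rcases lt_or_gt_of_ne hnn with hlt | hlt
    · have h1 : (n0 : ℝ) + 1 ≤ n1 := by exact_mod_cast hlt
      have hm : (n0 : ℝ) * (2 * Real.pi) + Real.pi ∈ Icc (G 0) (G 1) := by
        rw [hn0, hn1]
        constructor
        · linarith
        · nlinarith
      obtain ⟨t, ht, hGt⟩ := intermediate_value_Icc zero_le_one hcont hm
      obtain ⟨n, hn⟩ := hint t ht
      rw [hn] at hGt
      have h2 : (2 * (n : ℝ)) = 2 * n0 + 1 := by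
        have h3 : ((2 * (n : ℝ)) - (2 * n0 + 1)) * Real.pi = 0 := by linarith
        rcases mul_eq_zero.mp h3 with h4 | h4
        · linarith
        · exact absurd h4 hpi.ne'
      have h5 : 2 * n = 2 * n0 + 1 := by exact_mod_cast h2
      omega
    · have h1 : (n1 : ℝ) + 1 ≤ n0 := by exact_mod_cast hlt
      have hm : (n1 : ℝ) * (2 * Real.pi) + Real.pi ∈ Icc (G 1) (G 0) := by
        rw [hn0, hn1]
        constructor
        · linarith
        · nlinarith
      obtain ⟨t, ht, hGt⟩ := intermediate_value_Icc' zero_le_one hcont hm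
      obtain ⟨n, hn⟩ := hint t ht
      rw [hn] at hGt
      have h2 : (2 * (n : ℝ)) = 2 * n1 + 1 := by
        have h3 : ((2 * (n : ℝ)) - (2 * n1 + 1)) * Real.pi = 0 := by linarith
        rcases mul_eq_zero.mp h3 with h4 | h4
        · linarith
        · exact absurd h4 hpi.ne'
      have h5 : 2 * n = 2 * n1 + 1 := by exact_mod_cast h2
      omega
  have g0 : G 0 = ∑ p ∈ s, (Complex.arg (b0 p.1 p.2 / a0 p.1) + Complex.arg (a0 p.2 / b0 p.1 p.2)) := by
    simp [hG, ha, hbdef]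
  have g1 : G 1 = ∑ p ∈ s, (Complex.arg (b1 p.1 p.2 / a1 p.1) + Complex.arg (a1 p.2 / b1 p.1 p.2)) := by
    simp [hG, ha, hbdef]
  rw [← g0, ← g1, hG01]

theorem bd_const {T : Set (Set ℂ)} {u U : ℝ} (h : NC T u U) {z : Set ℂ → ℂ}
    {m : Set ℂ → Set ℂ → ℂ} (hP : Pts T z m) (K r : ℝ) : ∃ ρ0 : ℝ, ∀ ρ ≥ ρ0,
    ∀ (X : Set ℂ → ℂ) (M : Set ℂ → Set ℂ → ℂ), (∀ A ∈ T, ‖X A - z A‖ ≤ K) →
      (∀ A ∈ T, ∀ B ∈ T, Adj A B → ‖M A B - m A B‖ ≤ K) →
      ∀ y y0 : ℂ, ‖y‖ ≤ r → ‖y0‖ ≤ r →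
        ∑ p ∈ (bd_fin h ρ).toFinset, th X M y p = ∑ p ∈ (bd_fin h ρ).toFinset, th z m y0 p := by
  refine ⟨3 * (2 * |U| + |K|) + |r|, ?_⟩
  intro ρ hρ X M hX hM y y0 hy hy0
  have key := hom_aux (bd_fin h ρ).toFinset (fun A => z A - y0) (fun A => X A - y)
    (fun A B => m A B - y0) (fun A B => M A B - y) (bd_bal h ρ) ?_
  · exact key
  intro t ht P hPm
  rw [Set.Finite.mem_toFinset] at hPm
  obtain ⟨hA, hB, hadj, -, p, ⟨p', hpp, hseg, -⟩, hρp⟩ := hPm
  obtain ⟨A, B⟩ := P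
  simp only at hA hB hadj hseg ⊢
  have hsegAB : A ∩ B = segment ℝ p' p := by rw [inter_comm]; exact hseg
  have hpAB : p ∈ A ∩ B := by rw [hsegAB]; exact right_mem_segment ℝ p' p
  have hmAB : m A B ∈ A ∩ B := by
    rw [hsegAB]
    exact openSegment_subset_segment ℝ _ _ (hP.hm A hA B hB hadj p' p hpp hsegAB)
  have hzA : z A ∈ A := interior_subset (hP.hz A hA)
  have hzB : z B ∈ B := interior_subset (hP.hz B hB)
  have hdiam : ∀ C ∈ T, ∀ v ∈ C, ∀ w ∈ C, ‖v - w‖ ≤ 2 * |U| := by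
    intro C hC v hv w hw
    obtain ⟨c, hc⟩ := h.outr C hC
    have h1 := hc hv
    have h2 := hc hw
    rw [mem_closedBall, dist_eq_norm] at h1 h2
    calc ‖v - w‖ = ‖(v - c) - (w - c)‖ := by congr 1; ring
      _ ≤ ‖v - c‖ + ‖w - c‖ := norm_sub_le _ _
      _ ≤ 2 * |U| := by linarith [le_abs_self U]
  have d1 : ‖z A - p‖ ≤ 2 * |U| := hdiam A hA _ hzA _ hpAB.1
  have d2 : ‖z B - p‖ ≤ 2 * |U| := hdiam B hB _ hzB _ hpAB.2
  have d3 : ‖m A B - p‖ ≤ 2 * |U| := hdiam A hA _ hmAB.1 _ hpAB.1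
  have kX : ‖X A - z A‖ ≤ |K| := (hX A hA).trans (le_abs_self K)
  have kX' : ‖X B - z B‖ ≤ |K| := (hX B hB).trans (le_abs_self K)
  have kM : ‖M A B - m A B‖ ≤ |K| := (hM A hA B hB hadj).trans (le_abs_self K)
  have ky : ‖y‖ ≤ |r| := hy.trans (le_abs_self r)
  have ky0 : ‖y0‖ ≤ |r| := hy0.trans (le_abs_self r)
  -- generic estimates
  have ht0 := ht.1
  have ht1 := ht.2
  set yt : ℂ := y0 + (t : ℂ) * (y - y0) with hyt
  have hytn : ‖yt‖ ≤ |r| := by
    have e : yt = ((1 - t : ℝ) : ℂ) * y0 + (t : ℂ) * y := by rw [hyt]; push_cast; ring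
    rw [e]
    calc ‖((1 - t : ℝ) : ℂ) * y0 + (t : ℂ) * y‖ ≤ ‖((1 - t : ℝ) : ℂ) * y0‖ + ‖(t : ℂ) * y‖ :=
          norm_add_le _ _
      _ = (1 - t) * ‖y0‖ + t * ‖y‖ := by
          rw [norm_mul, norm_mul, Complex.norm_real, Complex.norm_real, Real.norm_of_nonneg ht0,
            Real.norm_of_nonneg (by linarith : (0:ℝ) ≤ 1 - t)]
      _ ≤ (1 - t) * |r| + t * |r| := by
          have := mul_le_mul_of_nonneg_left ky0 (by linarith : (0:ℝ) ≤ 1 - t)
          have := mul_le_mul_of_nonneg_left ky ht0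
          linarith
      _ = |r| := by ring
  have gen : ∀ v w : ℂ, ‖v - p‖ ≤ 2 * |U| → ‖w - v‖ ≤ |K| →
      ‖(v + (t : ℂ) * (w - v)) - p‖ ≤ 2 * |U| + |K| := by
    intro v w hv hw
    calc ‖(v + (t : ℂ) * (w - v)) - p‖ = ‖(v - p) + (t : ℂ) * (w - v)‖ := by congr 1; ring
      _ ≤ ‖v - p‖ + ‖(t : ℂ) * (w - v)‖ := norm_add_le _ _
      _ ≤ 2 * |U| + |K| := by
        rw [norm_mul, Complex.norm_real, Real.norm_of_nonneg ht0]
        have h1 : t * ‖w - v‖ ≤ 1 * ‖w - v‖ := mul_le_mul_of_nonneg_right ht1 (norm_nonneg _)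
        linarith
  have low : ∀ x : ℂ, ‖x - p‖ ≤ 2 * |U| + |K| → 2 * (2 * |U| + |K|) < ‖x - yt‖ := by
    intro x hx
    have h1 : ‖p‖ ≤ ‖x - yt‖ + ‖x - p‖ + ‖yt‖ := by
      calc ‖p‖ = ‖(x - yt) - (x - p) + yt‖ := by congr 1; ring
        _ ≤ ‖(x - yt) - (x - p)‖ + ‖yt‖ := norm_add_le _ _
        _ ≤ _ := by linarith [norm_sub_le (x - yt) (x - p)]
    linarith
  have dif : ∀ x x' : ℂ, ‖x - p‖ ≤ 2 * |U| + |K| → ‖x' - p‖ ≤ 2 * |U| + |K| →
      ‖x - x'‖ ≤ 2 * (2 * |U| + |K|) := by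
    intro x x' hx hx'
    calc ‖x - x'‖ = ‖(x - p) - (x' - p)‖ := by congr 1; ring
      _ ≤ ‖x - p‖ + ‖x' - p‖ := norm_sub_le _ _
      _ ≤ _ := by linarith
  have g1 := gen _ _ d1 kX
  have g2 := gen _ _ d2 kX'
  have g3 := gen _ _ d3 kM
  have e1 : z A - y0 + (t : ℂ) * (X A - y - (z A - y0)) = (z A + (t : ℂ) * (X A - z A)) - yt := by
    rw [hyt]; ring
  have e2 : z B - y0 + (t : ℂ) * (X B - y - (z B - y0)) = (z B + (t : ℂ) * (X B - z B)) - yt := by
    rw [hyt]; ring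
  have e3 : m A B - y0 + (t : ℂ) * (M A B - y - (m A B - y0)) =
      (m A B + (t : ℂ) * (M A B - m A B)) - yt := by
    rw [hyt]; ring
  rw [e1, e2, e3]
  refine ⟨?_, ?_, ?_⟩
  · rw [sub_sub_sub_cancel_right]
    exact (dif _ _ g3 g1).trans_lt (low _ g1)
  · rw [sub_sub_sub_cancel_right]
    exact (dif _ _ g2 g3).trans_lt (low _ g3)
  · have h1 := low _ g2
    have h2 : 0 ≤ 2 * (2 * |U| + |K|) := by positivity
    exact norm_pos_iff.mp (h2.trans_lt h1)

end J27060

alias bd_const := J27060.bd_const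

/-- `y` is on no image of an edge -/
def Gen (T : Set (Set ℂ)) (x : Set ℂ → ℂ) (y : ℂ) : Prop :=
  ∀ s ∈ T, ∀ t ∈ T, Adj s t → y ∉ segment ℝ (x s) (x t)

/-- the polygon of the dual tiling at the vertex `v` -/
def Poly (T : Set (Set ℂ)) (x : Set ℂ → ℂ) (v : ℂ) : Set ℂ :=
  convexHull ℝ {z | ∃ t ∈ T, v ∈ t ∧ z = x t}

noncomputable def aw (x : Set ℂ → ℂ) (y : ℂ) (p : Set ℂ × Set ℂ) : ℝ :=
  Complex.arg ((x p.2 - y) / (x p.1 - y))

namespace J27061

theorem h396_vint {T : Set (Set ℂ)} {u U : ℝ} (h : NC T u U) {A : Set ℂ} (hA : A ∈ T) {v : ℂ}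
    (hv : IsVertex T v) : v ∉ interior A := by
  intro hi
  obtain ⟨A1, h1, A2, h2, A3, h3, h12, _, _, m1, m2, _⟩ := hv
  exact h12 ((g_int h hA h1 hi m1).trans (g_int h hA h2 hi m2).symm)

theorem h396_mem {T : Set (Set ℂ)} {u U : ℝ} (h : NC T u U) {z : Set ℂ → ℂ}
    {m : Set ℂ → Set ℂ → ℂ} (hP : Pts T z m) {A B : Set ℂ} (hA : A ∈ T) (hB : B ∈ T)
    (had : Adj A B) : m A B ∈ A ∩ B ∧ ¬ IsVertex T (m A B) := by
  obtain ⟨p, q, hpq, hseg, _, _, hop⟩ := g_adj h hA hB had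
  have hm := hP.hm A hA B hB had p q hpq hseg
  refine ⟨?_, ?_⟩
  · rw [hseg]
    exact openSegment_subset_segment ℝ p q hm
  · rintro ⟨A1, h1, A2, h2, A3, h3, h12, h13, h23, m1, m2, m3⟩
    have e1 := hop _ hm A1 h1 m1
    have e2 := hop _ hm A2 h2 m2
    have e3 := hop _ hm A3 h3 m3
    rcases e1 with e1 | e1 <;> rcases e2 with e2 | e2 <;> rcases e3 with e3 | e3
    all_goals first
      | exact h12 (e1.trans e2.symm)
      | exact h13 (e1.trans e3.symm)
      | exact h23 (e2.trans e3.symm)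

theorem h396_seg {T : Set (Set ℂ)} {u U : ℝ} (h : NC T u U) {z : Set ℂ → ℂ}
    {m : Set ℂ → Set ℂ → ℂ} (hP : Pts T z m) {A B : Set ℂ} (hA : A ∈ T) (hB : B ∈ T)
    (had : Adj A B) {v : ℂ} (hv : IsVertex T v) :
    v ∉ segment ℝ (z A) (m A B) ∧ v ∉ segment ℝ (m A B) (z B) := by
  obtain ⟨⟨hmA, hmB⟩, hmv⟩ := h396_mem h hP hA hB had
  have key : ∀ D ∈ T, m A B ∈ D → v ∉ segment ℝ (z D) (m A B) := by
    intro D hD hmD hmem
    rw [segment_eq_image_lineMap] at hmem
    obtain ⟨t, ⟨ht0, ht1⟩, hte⟩ := hmem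
    rcases ht1.lt_or_eq with ht1 | ht1
    · have hi : v ∈ interior D := by
        rcases ht0.lt_or_eq with ht0 | ht0
        · have h1 : v ∈ openSegment ℝ (z D) (m A B) := by
            rw [openSegment_eq_image_lineMap]
            exact ⟨t, ⟨ht0, ht1⟩, hte⟩
          exact (h.conv D hD).openSegment_interior_self_subset_interior (hP.hz D hD) hmD h1
        · rw [← ht0, AffineMap.lineMap_apply_zero] at hte
          rw [← hte]
          exact hP.hz D hD
      exact h396_vint h hD hv hi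
    · rw [ht1, AffineMap.lineMap_apply_one] at hte
      rw [hte] at hmv
      exact hmv hv
  refine ⟨key A hA hmA, ?_⟩
  rw [segment_symm]
  exact key B hB hmB

theorem h396_halves (a b y : ℂ) (h : y ∉ segment ℝ a b) :
    y ∉ segment ℝ a ((a + b) / 2) ∧ y ∉ segment ℝ ((a + b) / 2) b := by
  have hm : (a + b) / 2 ∈ segment ℝ a b := by
    refine ⟨1 / 2, 1 / 2, by norm_num, by norm_num, by norm_num, ?_⟩
    simp only [Complex.real_smul]
    push_cast
    ring
  constructor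
  · intro h1
    exact h ((convex_segment a b).segment_subset (left_mem_segment ℝ a b) hm h1)
  · intro h1
    exact h ((convex_segment a b).segment_subset hm (right_mem_segment ℝ a b) h1)

/-! ### TARGET of this job: total -/

theorem total {T : Set (Set ℂ)} {u U : ℝ} (h : NC T u U) {x : Set ℂ → ℂ} {H : Set (Set ℂ)}
    {w : Set ℂ → Set ℂ → ℝ} {ρ : Set ℂ → ℕ} {C g wm : ℝ} {D : ℕ} (hd : Drw T x H w ρ C g wm D) (y : ℂ) (hy : Gen T x y) : ∃ F : Finset ℂ, (∀ v ∈ F, IsVertex T v) ∧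
      (∀ v, IsVertex T v → y ∈ Poly T x v → v ∈ F) ∧
      ∑ v ∈ F, ∑ p ∈ (ring_fin h v).toFinset, aw x y p = 2 * Real.pi := by
  obtain ⟨z, m, hP⟩ := pts_ex h
  obtain ⟨v0, hv0, _⟩ := vert_far h 0
  obtain ⟨ρ0, hρ0⟩ := bd_const h hP C (max ‖y‖ ‖v0‖)
  obtain ⟨R, hR⟩ : ∃ R, R = max ρ0 (max ‖v0‖ (‖y‖ + C)) := ⟨_, rfl⟩
  have hR0 : ρ0 ≤ R := by rw [hR]; exact le_max_left _ _
  have hR1 : ‖v0‖ ≤ R := by rw [hR]; exact (le_max_left _ _).trans (le_max_right _ _)
  have hR2 : ‖y‖ + C ≤ R := by rw [hR]; exact (le_max_right _ _).trans (le_max_right _ _)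
  have hmemF : ∀ v, v ∈ (v_disc_fin h R).toFinset ↔ IsVertex T v ∧ ‖v‖ ≤ R := by
    intro v
    rw [Set.Finite.mem_toFinset]
    exact Iff.rfl
  have hseg : ∀ A ∈ T, ∀ B ∈ T, Adj A B → y ∉ segment ℝ (x A) (x B) := hy
  refine ⟨(v_disc_fin h R).toFinset, fun v hv => ((hmemF v).1 hv).1, ?_, ?_⟩
  · intro v hv hyv
    rw [hmemF]
    refine ⟨hv, ?_⟩
    have hsub : Poly T x v ⊆ closedBall v C := by
      apply convexHull_min
      · rintro _ ⟨t, ht, hvt, rfl⟩
        rw [mem_closedBall, dist_eq_norm]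
        exact hd.near t ht v hvt
      · exact convex_closedBall v C
    have h1 := hsub hyv
    rw [mem_closedBall, dist_eq_norm] at h1
    have h2 : ‖v‖ ≤ ‖y‖ + ‖y - v‖ := by
      have e : v = y - (y - v) := by ring
      calc ‖v‖ = ‖y - (y - v)‖ := by rw [← e]
        _ ≤ ‖y‖ + ‖y - v‖ := norm_sub_le _ _
    linarith
  · have hanti : ∀ A ∈ T, ∀ B ∈ T, Adj A B → aw x y (B, A) = - aw x y (A, B) := by
      intro A hA B hB had
      have h1 := hseg A hA B hB had
      obtain ⟨h2, h3⟩ := h396_halves _ _ _ h1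
      have e1 := arg_mid (x A) (x B) y h1
      have e2 := arg_mid (x B) (x A) y (by rw [segment_symm]; exact h1)
      have e3 := arg_anti (x A) ((x A + x B) / 2) (x B) y h2 h3
      have e4 : (x B + x A) / 2 = (x A + x B) / 2 := by ring
      rw [e4] at e2
      simp only [aw]
      rw [← e1, ← e2]
      exact e3
    rw [tot_split h R (aw x y) hanti]
    have hb : ∀ p ∈ (bd_fin h R).toFinset, p.1 ∈ T ∧ p.2 ∈ T ∧ Adj p.1 p.2 := by
      intro p hp
      rw [Set.Finite.mem_toFinset] at hp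
      exact ⟨hp.1, hp.2.1, hp.2.2.1⟩
    have e1 : ∑ p ∈ (bd_fin h R).toFinset, aw x y p =
        ∑ p ∈ (bd_fin h R).toFinset, th x (fun A B => (x A + x B) / 2) y p := by
      apply Finset.sum_congr rfl
      intro p hp
      obtain ⟨h1, h2, h3⟩ := hb p hp
      simp only [aw, th]
      exact (arg_mid (x p.1) (x p.2) y (hseg _ h1 _ h2 h3)).symm
    have hCm : ∀ A ∈ T, ∀ B ∈ T, Adj A B → ‖(x A + x B) / 2 - m A B‖ ≤ C := by
      intro A hA B hB had
      obtain ⟨⟨hmA, hmB⟩, _⟩ := h396_mem h hP hA hB had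
      have k1 := hd.near A hA _ hmA
      have k2 := hd.near B hB _ hmB
      have e : (x A + x B) / 2 - m A B = ((x A - m A B) + (x B - m A B)) / 2 := by ring
      rw [e, norm_div]
      have k3 := norm_add_le (x A - m A B) (x B - m A B)
      have k4 : ‖(2 : ℂ)‖ = 2 := by norm_num
      rw [k4]
      linarith
    have e2 := hρ0 R hR0 x (fun A B => (x A + x B) / 2)
      (fun A hA => hd.near A hA _ (interior_subset (hP.hz A hA))) hCm y v0
      (le_max_left _ _) (le_max_right _ _)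
    have hanti2 : ∀ A ∈ T, ∀ B ∈ T, Adj A B → th z m v0 (B, A) = - th z m v0 (A, B) := by
      intro A hA B hB had
      obtain ⟨k1, k2⟩ := h396_seg h hP hA hB had hv0
      have e3 := arg_anti (z A) (m A B) (z B) v0 k1 k2
      simp only [th]
      rw [hP.hs B A]
      exact e3
    rw [e1, e2, ← tot_split h R (th z m v0) hanti2]
    have e3 : ∑ v ∈ (v_disc_fin h R).toFinset, ∑ p ∈ (ring_fin h v).toFinset, th z m v0 p =
        ∑ v ∈ (v_disc_fin h R).toFinset, (if v0 = v then 2 * Real.pi else 0) := by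
      apply Finset.sum_congr rfl
      intro v hv
      exact ring_th h hP ((hmemF v).1 hv).1 hv0
    rw [e3, Finset.sum_ite_eq, if_pos ((hmemF v0).2 ⟨hv0, hR1⟩)]

end J27061

alias total := J27061.total

namespace J27062

/-! ### TARGET of this job: aw_int -/

theorem aw_int_one (a b y : ℂ) (ha : a ≠ y) (hb : b ≠ y) :
    ∃ k : ℤ, Complex.arg ((b - y) / (a - y)) =
      (Complex.arg (b - y) - Complex.arg (a - y)) + 2 * Real.pi * k := by
  have h1 := Complex.arg_div_coe_angle (sub_ne_zero.2 hb) (sub_ne_zero.2 ha)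
  rw [← Real.Angle.coe_sub, Real.Angle.angle_eq_iff_two_pi_dvd_sub] at h1
  obtain ⟨k, hk⟩ := h1
  exact ⟨k, by linarith⟩

theorem aw_int {T : Set (Set ℂ)} {u U : ℝ} (h : NC T u U) (x : Set ℂ → ℂ) {v : ℂ}
    (hv : IsVertex T v) (y : ℂ) (hy : ∀ p ∈ ring T v, y ∉ segment ℝ (x p.1) (x p.2)) :
    ∃ k : ℤ, ∑ p ∈ (ring_fin h v).toFinset, aw x y p = 2 * Real.pi * k := by
  classical
  have hex : ∀ p : Set ℂ × Set ℂ, ∃ k : ℤ, p ∈ ring T v →
      aw x y p = (Complex.arg (x p.2 - y) - Complex.arg (x p.1 - y)) + 2 * Real.pi * k := by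
    intro p
    by_cases hp : p ∈ ring T v
    · have h1 : x p.1 ≠ y := by
        intro he
        exact hy p hp (he ▸ left_mem_segment ℝ (x p.1) (x p.2))
      have h2 : x p.2 ≠ y := by
        intro he
        exact hy p hp (he ▸ right_mem_segment ℝ (x p.1) (x p.2))
      obtain ⟨k, hk⟩ := aw_int_one (x p.1) (x p.2) y h1 h2
      exact ⟨k, fun _ => hk⟩
    · exact ⟨0, fun h => absurd h hp⟩
  choose k hk using hex
  refine ⟨∑ p ∈ (ring_fin h v).toFinset, k p, ?_⟩
  have h1 : ∑ p ∈ (ring_fin h v).toFinset, aw x y p =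
      ∑ p ∈ (ring_fin h v).toFinset,
        ((Complex.arg (x p.2 - y) - Complex.arg (x p.1 - y)) + 2 * Real.pi * k p) := by
    refine Finset.sum_congr rfl ?_
    intro p hp
    exact hk p ((ring_fin h v).mem_toFinset.1 hp)
  rw [h1, Finset.sum_add_distrib, ring_bal h hv (fun A => Complex.arg (x A - y)), zero_add,
    ← Finset.mul_sum]
  push_cast
  rfl

end J27062

alias aw_int := J27062.aw_int

namespace J27063

/-! ### TARGET of this job: aw_out -/

theorem aw_out_arg {a b : ℂ} (ha : 0 < a.re) (hb : 0 < b.re) :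
    Complex.arg (b / a) = Complex.arg b - Complex.arg a := by
  have ha0 : a ≠ 0 := by
    rintro rfl
    simp at ha
  have hb0 : b ≠ 0 := by
    rintro rfl
    simp at hb
  have h1 := (Complex.abs_arg_lt_pi_div_two_iff (z := a)).2 (Or.inl ha)
  have h2 := (Complex.abs_arg_lt_pi_div_two_iff (z := b)).2 (Or.inl hb)
  rw [abs_lt] at h1 h2
  have hpi := Real.pi_pos
  have h3 : Complex.arg a⁻¹ = -Complex.arg a := by
    rw [Complex.arg_inv, if_neg]
    intro h
    linarith [h1.2]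
  rw [div_eq_mul_inv, Complex.arg_mul hb0 (inv_ne_zero ha0), h3]
  · ring
  · rw [h3]
    constructor <;> linarith [h1.1, h1.2, h2.1, h2.2]

theorem aw_out {T : Set (Set ℂ)} {u U : ℝ} (h : NC T u U) (x : Set ℂ → ℂ) {v : ℂ}
    (hv : IsVertex T v) (y : ℂ) (hy : y ∉ Poly T x v) :
    ∑ p ∈ (ring_fin h v).toFinset, aw x y p = 0 := by
  classical
  set S : Set ℂ := (fun p : Set ℂ × Set ℂ => x p.1) '' ring T v ∪
    (fun p : Set ℂ × Set ℂ => x p.2) '' ring T v with hS
  have hSf : S.Finite := ((ring_fin h v).image _).union ((ring_fin h v).image _)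
  have hmem : ∀ p ∈ ring T v, v ∈ p.1 ∧ v ∈ p.2 := by
    rintro p ⟨_, _, _, q, _, hq, _⟩
    have h1 : v ∈ p.1 ∩ p.2 := by
      rw [hq]
      exact right_mem_segment ℝ q v
    exact h1
  have hSP : S ⊆ {z | ∃ t ∈ T, v ∈ t ∧ z = x t} := by
    rintro z (⟨p, hp, rfl⟩ | ⟨p, hp, rfl⟩)
    · exact ⟨p.1, hp.1, (hmem p hp).1, rfl⟩
    · exact ⟨p.2, hp.2.1, (hmem p hp).2, rfl⟩
  have hyS : y ∉ convexHull ℝ S := fun hc => hy (convexHull_mono hSP hc)
  obtain ⟨f, c, hfy, hfS⟩ := geometric_hahn_banach_point_closed (convex_convexHull ℝ S)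
    (hSf.isClosed_convexHull ℝ) hyS
  have hfz : ∀ z : ℂ, f z = z.re * f 1 + z.im * f Complex.I := by
    intro z
    have h1 : z = z.re • (1 : ℂ) + z.im • Complex.I := by
      apply Complex.ext <;> simp
    conv_lhs => rw [h1]
    rw [map_add, map_smul, map_smul, smul_eq_mul, smul_eq_mul]
  have hpos : ∀ z ∈ S, 0 < (z - y).re * f 1 + (z - y).im * f Complex.I := by
    intro z hz
    have h1 := hfS z (subset_convexHull ℝ S hz)
    rw [← hfz, map_sub]
    linarith
  set n : ℂ := ⟨f 1, f Complex.I⟩ with hn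
  have hre : ∀ z ∈ S, 0 < ((z - y) / n).re := by
    intro z hz
    have h1 := hpos z hz
    have hn0 : n ≠ 0 := by
      intro h0
      have h2 : f 1 = 0 := congrArg Complex.re h0
      have h3 : f Complex.I = 0 := congrArg Complex.im h0
      rw [h2, h3] at h1
      simp at h1
    have hns : 0 < Complex.normSq n := Complex.normSq_pos.2 hn0
    rw [Complex.div_re, ← add_div]
    exact div_pos h1 hns
  have hn0 : ∀ z ∈ S, n ≠ 0 := by
    intro z hz h0
    have h1 := hre z hz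
    rw [h0, div_zero] at h1
    simp at h1
  rw [← ring_bal h hv (fun t => Complex.arg ((x t - y) / n))]
  apply Finset.sum_congr rfl
  intro p hp
  rw [Set.Finite.mem_toFinset] at hp
  have h1 : x p.1 ∈ S := Or.inl ⟨p, hp, rfl⟩
  have h2 : x p.2 ∈ S := Or.inr ⟨p, hp, rfl⟩
  have h3 := hre _ h1
  have h4 := hre _ h2
  have h5 := hn0 _ h1
  rw [← aw_out_arg h3 h4]
  unfold aw
  congr 1
  rw [div_div_div_cancel_right₀ h5]

end J27063

alias aw_out := J27063.aw_out

namespace J27064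

/-! ### TARGET of this job: no_spike -/

theorem no_spike {T : Set (Set ℂ)} {u U : ℝ} (h : NC T u U) {x : Set ℂ → ℂ} {H : Set (Set ℂ)}
    {w : Set ℂ → Set ℂ → ℝ} {ρ : Set ℂ → ℕ} {C g wm : ℝ} {D : ℕ} (hd : Drw T x H w ρ C g wm D) (v : ℂ) (hv : IsVertex T v) (r s t : Set ℂ) (hr : r ∈ T) (hs : s ∈ T)
    (ht : t ∈ T) (hrs : Adj r s) (hst : Adj s t) (h1 : Head r s v) (h2 : Head s t v) (l : ℝ)
    (hl : l < 0) : x t - x s ≠ (l : ℂ) * (x s - x r) := by
  intro heq
  have hne := x_ne h hd r s hr hs hrs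
  have e1 : (x t).re - (x s).re = l * ((x s).re - (x r).re) := by
    have := congrArg Complex.re heq
    rw [Complex.re_ofReal_mul, Complex.sub_re, Complex.sub_re] at this
    exact this
  have e2 : (x t).im - (x s).im = l * ((x s).im - (x r).im) := by
    have := congrArg Complex.im heq
    rw [Complex.im_ofReal_mul, Complex.sub_im, Complex.sub_im] at this
    exact this
  have hpos : 0 < ((x r).re - (x s).re) ^ 2 + ((x r).im - (x s).im) ^ 2 := by
    by_contra hc
    have q1 := sq_nonneg ((x r).re - (x s).re)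
    have q2 := sq_nonneg ((x r).im - (x s).im)
    have a1 : (x r).re - (x s).re = 0 := by nlinarith
    have a2 : (x r).im - (x s).im = 0 := by nlinarith
    exact hne (Complex.ext (by linarith) (by linarith))
  have hz' : (⟨-((x s).im - (x r).im), (x s).re - (x r).re⟩ : ℂ) ≠ 0 := by
    intro h0
    have a1 := congrArg Complex.re h0
    have a2 := congrArg Complex.im h0
    simp only [Complex.zero_re, Complex.zero_im] at a1 a2
    nlinarith
  obtain ⟨w1, hw1, hvw, hne1⟩ := nonflat' h hd v hv _ hz'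
    (dot ⟨-((x s).im - (x r).im), (x s).re - (x r).re⟩ (x s))
  unfold dot at hne1
  simp only at hne1
  obtain ⟨ν, hν⟩ : ∃ ν : ℝ, ν = -((x s).im - (x r).im) * ((x w1).re - (x s).re) +
    ((x s).re - (x r).re) * ((x w1).im - (x s).im) := ⟨_, rfl⟩
  have hν0 : ν ≠ 0 := by
    intro h0
    apply hne1
    rw [hν] at h0
    linarith
  obtain ⟨K, hK⟩ : ∃ K : ℝ, K * ν = ((x r).re - (x s).re) * ((x w1).re - (x s).re) +
      ((x r).im - (x s).im) * ((x w1).im - (x s).im) :=
    ⟨_, div_mul_cancel₀ _ hν0⟩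
  obtain ⟨z, hz1, hz2⟩ : ∃ z : ℂ, z.re = ((x r).re - (x s).re) - K * (-((x s).im - (x r).im)) ∧
      z.im = ((x r).im - (x s).im) - K * ((x s).re - (x r).re) := ⟨⟨_, _⟩, rfl, rfl⟩
  have h3 : dot z (x s) < dot z (x r) := by
    unfold dot
    rw [hz1, hz2]
    nlinarith
  have h4 : dot z (x s) < dot z (x t) := by
    have t1 : (x t).re = (x s).re + l * ((x s).re - (x r).re) := by linarith
    have t2 : (x t).im = (x s).im + l * ((x s).im - (x r).im) := by linarith
    unfold dot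
    rw [hz1, hz2, t1, t2]
    have hp := mul_pos (neg_pos.2 hl) hpos
    nlinarith
  have hz0 : z ≠ 0 := by
    intro h0
    rw [h0] at h3
    simp [dot] at h3
  have hw1s : w1 ≠ s := by
    intro h0
    apply hν0
    rw [hν, h0]
    ring
  have h6 : dot z (x w1) ≤ dot z (x s) := by
    unfold dot
    rw [hz1, hz2]
    rw [hν] at hK
    nlinarith
  exact spike_lem h hd v hv r s t hr hs ht hrs hst h1 h2 z hz0 (dot z (x s)) h3 h4 le_rfl w1 hw1
    hvw hw1s h6

end J27064

alias no_spike := J27064.no_spike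

namespace J27066

/-! ### TARGET of this job: aw_in -/

theorem aw_in_head {s t : Set ℂ} {v : ℂ} (hh : Head s t v) : v ∈ s ∧ v ∈ t := by
  obtain ⟨p, _, he, _⟩ := hh
  have : v ∈ s ∩ t := by rw [he]; exact right_mem_segment ℝ p v
  exact this

theorem aw_in_cross (A B y : ℂ) : cross (B - A) (y - A) = cross (A - y) (B - y) := by
  simp only [cross, Complex.sub_re, Complex.sub_im]; ring

theorem aw_in_im (a b : ℂ) : (b / a).im = cross a b / Complex.normSq a := by
  rw [Complex.div_im]; unfold cross; ring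

theorem aw_in_pos (A B y : ℂ) (hy : y ∉ segment ℝ A B) (h0 : ((B - y) / (A - y)).im = 0) :
    ∃ c : ℝ, 0 < c ∧ B - y = (c : ℂ) * (A - y) := by
  have hA : A - y ≠ 0 := by
    intro h; apply hy; rw [← sub_eq_zero.1 h]; exact left_mem_segment ℝ A B
  set c := ((B - y) / (A - y)).re with hc
  have hq : (B - y) / (A - y) = (c : ℂ) := Complex.ext (by simp [hc]) (by simp [h0])
  have hB : B - y = (c : ℂ) * (A - y) := by rw [← hq]; field_simp
  refine ⟨c, ?_, hB⟩
  by_contra hcon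
  apply hy
  have hc0 : c ≤ 0 := not_lt.1 hcon
  have h1 : 0 < 1 - c := by linarith
  refine ⟨-c / (1 - c), 1 / (1 - c), div_nonneg (by linarith) h1.le, by positivity, ?_, ?_⟩
  · field_simp; ring
  · have h1' : ((1 : ℂ) - c) ≠ 0 := by exact_mod_cast h1.ne'
    have hB' : B = y + (c : ℂ) * (A - y) := by rw [← hB]; ring
    rw [Complex.real_smul, Complex.real_smul, hB']
    push_cast
    field_simp
    ring

theorem aw_in_arg (σ : ℝ) (hσ : σ = 1 ∨ σ = -1) (A B y : ℂ) (hy : y ∉ segment ℝ A B)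
    (hc : 0 ≤ σ * cross (B - A) (y - A)) : 0 ≤ σ * Complex.arg ((B - y) / (A - y)) := by
  have him : 0 ≤ σ * ((B - y) / (A - y)).im := by
    rw [aw_in_im, ← aw_in_cross, mul_div_assoc']
    exact div_nonneg hc (Complex.normSq_nonneg _)
  rcases hσ with rfl | rfl
  · rw [one_mul] at him ⊢
    exact Complex.arg_nonneg_iff.2 him
  · have him' : ((B - y) / (A - y)).im ≤ 0 := by linarith
    rcases him'.lt_or_eq with hlt | heq
    · have := Complex.arg_neg_iff.2 hlt
      linarith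
    · obtain ⟨c, hc0, hB⟩ := aw_in_pos A B y hy heq
      have hA : A - y ≠ 0 := by
        intro h; apply hy; rw [← sub_eq_zero.1 h]; exact left_mem_segment ℝ A B
      have : (B - y) / (A - y) = (c : ℂ) := by rw [hB]; field_simp
      rw [this, Complex.arg_ofReal_of_nonneg hc0.le]
      simp

theorem aw_in_half (σ : ℝ) (a b : ℂ) : Convex ℝ {z : ℂ | 0 ≤ σ * cross a (z - b)} := by
  intro z hz z' hz' p q hp hq hpq
  simp only [mem_setOf_eq] at hz hz' ⊢
  have : σ * cross a (p • z + q • z' - b) = p * (σ * cross a (z - b)) + q * (σ * cross a (z' - b)) := by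
    have hp' : p = 1 - q := by linarith
    subst hp'
    simp only [cross, Complex.sub_re, Complex.sub_im, Complex.add_re, Complex.add_im,
      Complex.real_smul, Complex.mul_re, Complex.mul_im, Complex.ofReal_re, Complex.ofReal_im]
    ring
  rw [this]
  exact add_nonneg (mul_nonneg hp hz) (mul_nonneg hq hz')

theorem aw_in {T : Set (Set ℂ)} {u U : ℝ} (h : NC T u U) {x : Set ℂ → ℂ} {H : Set (Set ℂ)}
    {w : Set ℂ → Set ℂ → ℝ} {ρ : Set ℂ → ℕ} {C g wm : ℝ} {D : ℕ} (hd : Drw T x H w ρ C g wm D) (σ : ℝ) (hσ : σ = 1 ∨ σ = -1)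
    (hs : ∀ s ∈ T, ∀ t ∈ T, Adj s t → Sg T x σ s t) {v : ℂ} (hv : IsVertex T v) (y : ℂ)
    (hg : ∀ p ∈ ring T v, y ∉ segment ℝ (x p.1) (x p.2)) (hy : y ∈ Poly T x v) :
    2 * Real.pi ≤ σ * ∑ p ∈ (ring_fin h v).toFinset, aw x y p := by
  have hA : ∀ p ∈ ring T v, 0 ≤ σ * aw x y p := by
    intro p hp
    have hp' := hp
    obtain ⟨h1, h2, h3, h4⟩ := hp'
    refine aw_in_arg σ hσ _ _ _ (hg p hp) ?_
    have hsub : Poly T x v ⊆ {z : ℂ | 0 ≤ σ * cross (x p.2 - x p.1) (z - x p.1)} := by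
      refine convexHull_min ?_ (aw_in_half σ _ _)
      rintro z ⟨t, ht, hvt, rfl⟩
      exact hs p.1 h1 p.2 h2 h3 v h4 t ht hvt
    exact hsub hy
  obtain ⟨k, hk⟩ := aw_int h x hv y hg
  have hsum : 0 ≤ σ * ∑ p ∈ (ring_fin h v).toFinset, aw x y p := by
    rw [Finset.mul_sum]
    refine Finset.sum_nonneg fun p hp => hA p ?_
    simpa using hp
  have hpi := Real.pi_pos
  by_cases hk0 : k = 0
  · exfalso
    -- all the terms vanish
    have hz : ∑ p ∈ (ring_fin h v).toFinset, σ * aw x y p = 0 := by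
      rw [← Finset.mul_sum, hk, hk0]; simp
    have hz' := (Finset.sum_eq_zero_iff_of_nonneg (fun p hp => hA p (by simpa using hp))).1 hz
    have hσ0 : σ ≠ 0 := by rcases hσ with rfl | rfl <;> norm_num
    have him : ∀ p ∈ ring T v, ∃ c : ℝ, 0 < c ∧ x p.2 - y = (c : ℂ) * (x p.1 - y) := by
      intro p hp
      have h1 := hz' p (by simpa using hp)
      have h2 : aw x y p = 0 := (mul_eq_zero.1 h1).resolve_left hσ0
      have h3 := (Complex.arg_eq_zero_iff.1 h2).2
      exact aw_in_pos _ _ _ (hg p hp) h3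
    -- the maximal tile
    obtain ⟨N, hN⟩ := g_locfin h 0
    have hfin := (hN v).1
    have hne : {A | A ∈ T ∧ (A ∩ closedBall v 0).Nonempty}.Nonempty := by
      obtain ⟨A, hAT, _, _, _, _, _, _, _, hvA, _⟩ := hv
      exact ⟨A, hAT, v, hvA, by simp⟩
    obtain ⟨s, ⟨hsT, hsv⟩, hmax⟩ := hfin.exists_maximalFor (fun A => ‖x A - y‖) _ hne
    have hvs : v ∈ s := by
      obtain ⟨q, hq, hq'⟩ := hsv
      rw [closedBall_zero, mem_singleton_iff] at hq'
      rwa [hq'] at hq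
    have hmax' : ∀ t ∈ T, v ∈ t → ‖x t - y‖ ≤ ‖x s - y‖ := by
      intro t ht hvt
      by_contra hcon
      have hlt := not_le.1 hcon
      have := hmax (⟨ht, v, hvt, by simp⟩ : t ∈ {A | A ∈ T ∧ (A ∩ closedBall v 0).Nonempty}) hlt.le
      exact hcon this
    obtain ⟨r, hrT, hrs, hrh, -⟩ := g_prev h hv hsT hvs
    obtain ⟨t, htT, hst, hth, -⟩ := g_next h hv hsT hvs
    obtain ⟨c1, hc1, e1⟩ := him (r, s) ⟨hrT, hsT, hrs, hrh⟩
    obtain ⟨c2, hc2, e2⟩ := him (s, t) ⟨hsT, htT, hst, hth⟩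
    dsimp only at e1 e2
    have hr := hmax' r hrT (aw_in_head hrh).1
    have ht := hmax' t htT (aw_in_head hth).2
    have hsy : 0 < ‖x s - y‖ := by
      rw [norm_pos_iff, sub_ne_zero]
      intro h0
      apply hg (s, t) ⟨hsT, htT, hst, hth⟩
      rw [← h0]
      exact left_mem_segment ℝ _ _
    have hry : 0 < ‖x r - y‖ := by
      rw [norm_pos_iff, sub_ne_zero]
      intro h0
      apply hg (r, s) ⟨hrT, hsT, hrs, hrh⟩
      rw [← h0]
      exact left_mem_segment ℝ _ _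
    have hc2' : c2 < 1 := by
      refine lt_of_le_of_ne ?_ ?_
      · rw [e2, norm_mul, Complex.norm_real, Real.norm_eq_abs, abs_of_pos hc2] at ht
        by_contra hcon
        nlinarith [not_le.1 hcon]
      · intro h0
        rw [h0] at e2
        apply x_ne h hd s t hsT htT hst
        have : x t - y = x s - y := by rw [e2]; simp
        exact (sub_left_inj.1 this).symm
    have hc1' : 1 < c1 := by
      refine lt_of_le_of_ne ?_ ?_
      · rw [e1, norm_mul, Complex.norm_real, Real.norm_eq_abs, abs_of_pos hc1] at hr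
        by_contra hcon
        nlinarith [not_le.1 hcon]
      · intro h0
        rw [← h0] at e1
        apply x_ne h hd r s hrT hsT hrs
        have : x s - y = x r - y := by rw [e1]; simp
        exact (sub_left_inj.1 this).symm
    -- x t - x s = (c2 - 1) (x s - y), x s - x r = (c1 - 1) (x r - y), x s - y = c1 (x r - y)
    refine no_spike h hd v hv r s t hrT hsT htT hrs hst hrh hth ((c2 - 1) * c1 / (c1 - 1)) ?_ ?_
    · refine div_neg_of_neg_of_pos ?_ (by linarith)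
      exact mul_neg_of_neg_of_pos (by linarith) hc1
    · have h1 : (c1 : ℂ) - 1 ≠ 0 := by
        have : c1 - 1 ≠ 0 := by linarith
        exact_mod_cast this
      have e3 : x t - x s = ((c2 : ℂ) - 1) * (x s - y) := by
        have : x t - x s = (x t - y) - (x s - y) := by ring
        rw [this, e2]; ring
      have e4 : x s - x r = ((c1 : ℂ) - 1) * (x r - y) := by
        have : x s - x r = (x s - y) - (x r - y) := by ring
        rw [this, e1]; ring
      rw [e3, e4, e1]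
      push_cast
      field_simp
  · rw [hk] at hsum ⊢
    rcases hσ with rfl | rfl
    · rw [one_mul] at hsum ⊢
      have hk1 : (0 : ℝ) ≤ k := by
        by_contra hcon
        nlinarith [not_le.1 hcon]
      have hk2 : 1 ≤ k := by
        have : 0 ≤ k := by exact_mod_cast hk1
        omega
      have hk3 : (1 : ℝ) ≤ k := by exact_mod_cast hk2
      nlinarith
    · have hk1 : (k : ℝ) ≤ 0 := by
        by_contra hcon
        nlinarith [not_le.1 hcon]
      have hk2 : k ≤ -1 := by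
        have : k ≤ 0 := by exact_mod_cast hk1
        omega
      have hk3 : (k : ℝ) ≤ -1 := by exact_mod_cast hk2
      nlinarith

end J27066

alias aw_in := J27066.aw_in

namespace J27065

/-! ### TARGET of this job: gen_dense -/

theorem gen_dense_seg (a b : ℂ) : MeasureTheory.volume (segment ℝ a b) = 0 := by
  have hne : line[ℝ, a, b] ≠ ⊤ := by
    intro h
    have h1 : Collinear ℝ ({a, b} : Set ℂ) := collinear_pair ℝ a b
    rw [collinear_iff_finrank_le_one] at h1
    rw [← direction_affineSpan, h, AffineSubspace.direction_top, finrank_top,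
      Complex.finrank_real_complex] at h1
    omega
  refine MeasureTheory.measure_mono_null ?_
    (MeasureTheory.Measure.addHaar_affineSubspace MeasureTheory.volume _ hne)
  exact (AffineSubspace.convex _).segment_subset (left_mem_affineSpan_pair ℝ a b)
    (right_mem_affineSpan_pair ℝ a b)

theorem gen_dense {T : Set (Set ℂ)} {u U : ℝ} (h : NC T u U) (x : Set ℂ → ℂ) :
    Dense {y | Gen T x y} := by
  have hc := (g_count h).1
  apply MeasureTheory.Measure.dense_of_ae (μ := MeasureTheory.volume)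
  unfold Gen
  rw [MeasureTheory.ae_ball_iff hc]
  intro s hs
  rw [MeasureTheory.ae_ball_iff hc]
  intro t ht
  by_cases hadj : Adj s t
  · have h0 := gen_dense_seg (x s) (x t)
    filter_upwards [MeasureTheory.measure_eq_zero_iff_ae_notMem.1 h0] with y hy _
    exact hy
  · exact Filter.Eventually.of_forall fun y h => absurd h hadj

end J27065

alias gen_dense := J27065.gen_dense

namespace J27067

/-! ### TARGET of this job: sigma_one -/

theorem sigma_one {T : Set (Set ℂ)} {u U : ℝ} (h : NC T u U) {x : Set ℂ → ℂ} {H : Set (Set ℂ)}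
    {w : Set ℂ → Set ℂ → ℝ} {ρ : Set ℂ → ℕ} {C g wm : ℝ} {D : ℕ} (hd : Drw T x H w ρ C g wm D) : ∀ s ∈ T, ∀ t ∈ T, Adj s t → Sg T x 1 s t := by
  obtain ⟨σ, hσ, hs⟩ := sign_all h hd
  rcases hσ with rfl | rfl
  · exact hs
  · exfalso
    obtain ⟨y, hy⟩ := (gen_dense h x).nonempty
    obtain ⟨F, hF, hF', hsum⟩ := total h hd y hy
    have hle : ∑ v ∈ F, ∑ p ∈ (ring_fin h v).toFinset, aw x y p ≤ 0 := by
      apply Finset.sum_nonpos
      intro v hv
      by_cases hP : y ∈ Poly T x v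
      · have := aw_in h hd (-1) (Or.inr rfl) hs (hF v hv) y
          (fun p hp => hy p.1 hp.1 p.2 hp.2.1 hp.2.2.1) hP
        have hpi := Real.pi_pos
        linarith
      · exact (aw_out h x (hF v hv) y hP).le
    have hpi := Real.pi_pos
    linarith

end J27067

alias sigma_one := J27067.sigma_one

namespace J27068

/-! ### TARGET of this job: one_poly -/

theorem one_poly {T : Set (Set ℂ)} {u U : ℝ} (h : NC T u U) {x : Set ℂ → ℂ} {H : Set (Set ℂ)}
    {w : Set ℂ → Set ℂ → ℝ} {ρ : Set ℂ → ℕ} {C g wm : ℝ} {D : ℕ} (hd : Drw T x H w ρ C g wm D) (y : ℂ) (hy : Gen T x y) : ∃ v, IsVertex T v ∧ y ∈ Poly T x v ∧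
      ∀ v', IsVertex T v' → y ∈ Poly T x v' → v' = v := by
  obtain ⟨F, hF, hF2, hsum⟩ := total h hd y hy
  have hg : ∀ v : ℂ, ∀ p ∈ ring T v, y ∉ segment ℝ (x p.1) (x p.2) := by
    intro v p hp
    exact hy p.1 hp.1 p.2 hp.2.1 hp.2.2.1
  have hin : ∀ v, IsVertex T v → y ∈ Poly T x v →
      2 * Real.pi ≤ ∑ p ∈ (ring_fin h v).toFinset, aw x y p := by
    intro v hv hyv
    have := aw_in h hd 1 (Or.inl rfl) (sigma_one h hd) hv y (hg v) hyv
    rwa [one_mul] at this
  have hnn : ∀ v ∈ F, 0 ≤ ∑ p ∈ (ring_fin h v).toFinset, aw x y p := by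
    intro v hv
    by_cases hyv : y ∈ Poly T x v
    · have := hin v (hF v hv) hyv
      have := Real.pi_pos
      linarith
    · rw [aw_out h x (hF v hv) y hyv]
  have hex : ∃ v ∈ F, y ∈ Poly T x v := by
    by_contra hcon
    push Not at hcon
    have : ∑ v ∈ F, ∑ p ∈ (ring_fin h v).toFinset, aw x y p = 0 :=
      Finset.sum_eq_zero (fun v hv => aw_out h x (hF v hv) y (hcon v hv))
    rw [this] at hsum
    have := Real.pi_pos
    linarith
  obtain ⟨v, hvF, hyv⟩ := hex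
  refine ⟨v, hF v hvF, hyv, ?_⟩
  intro v' hv' hyv'
  by_contra hne
  have hv'F := hF2 v' hv' hyv'
  classical
  have hsub : ({v', v} : Finset ℂ) ⊆ F := by
    intro z hz
    simp only [Finset.mem_insert, Finset.mem_singleton] at hz
    rcases hz with rfl | rfl
    · exact hv'F
    · exact hvF
  have h1 := Finset.sum_le_sum_of_subset_of_nonneg (f := fun v => ∑ p ∈ (ring_fin h v).toFinset, aw x y p)
    hsub (fun i hi _ => hnn i hi)
  rw [Finset.sum_pair hne, hsum] at h1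
  have h2 := hin v (hF v hvF) hyv
  have h3 := hin v' hv' hyv'
  have := Real.pi_pos
  linarith


end J27068

alias one_poly := J27068.one_poly

/-- the dual tiling -/
def Dl (T : Set (Set ℂ)) (x : Set ℂ → ℂ) : Set (Set ℂ) := {P | ∃ v, IsVertex T v ∧ P = Poly T x v}

namespace J27069

/-! ### TARGET of this job: poly_ball -/

theorem poly_ball_cross (p q : ℂ) : |cross p q| ≤ ‖p‖ * ‖q‖ := by
  have h1 : (cross p q) ^ 2 ≤ (‖p‖ * ‖q‖) ^ 2 := by
    rw [mul_pow, Complex.sq_norm, Complex.sq_norm, Complex.normSq_apply, Complex.normSq_apply]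
    unfold cross
    nlinarith [sq_nonneg (p.re * q.re + p.im * q.im)]
  exact abs_le_of_sq_le_sq h1 (by positivity)

theorem poly_ball_bary (a b e p : ℂ) :
    ((cross (b - a) (e - a) : ℝ) : ℂ) * p = (cross (e - b) (p - b) : ℂ) * a +
      (cross (a - e) (p - e) : ℂ) * b + (cross (b - a) (p - a) : ℂ) * e := by
  apply Complex.ext
  · simp only [cross, Complex.add_re, Complex.mul_re, Complex.ofReal_re, Complex.ofReal_im,
      Complex.sub_re, Complex.sub_im]
    ring
  · simp only [cross, Complex.add_im, Complex.mul_im, Complex.ofReal_re, Complex.ofReal_im,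
      Complex.sub_re, Complex.sub_im]
    ring

theorem poly_ball_three {S : Set ℂ} (hS : Convex ℝ S) {a b e : ℂ} (ha : a ∈ S) (hb : b ∈ S)
    (he : e ∈ S) {α β γ : ℝ} (h1 : 0 ≤ α) (h2 : 0 ≤ β) (h3 : 0 ≤ γ) (hs : α + β + γ = 1) :
    (α : ℂ) * a + (β : ℂ) * b + (γ : ℂ) * e ∈ S := by
  have h := hS.sum_mem (t := Finset.univ) (w := ![α, β, γ]) (z := ![a, b, e])
    (by intro i _; fin_cases i <;> simpa)
    (by rw [Fin.sum_univ_three]; simpa using hs)
    (by intro i _; fin_cases i <;> simpa)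
  rw [Fin.sum_univ_three] at h
  simpa using h

theorem poly_ball_tri {S : Set ℂ} (hS : Convex ℝ S) {a b e : ℂ} (ha : a ∈ S) (hb : b ∈ S)
    (he : e ∈ S) {η : ℝ} (hη : 0 < η) (hab : 0 < ‖b - a‖) (h1 : ‖e - b‖ ≤ ‖b - a‖)
    (h2 : ‖a - e‖ ≤ ‖b - a‖) (hΔ : η * ‖b - a‖ < |cross (b - a) (e - a)|) :
    closedBall ((a + b + e) / 3) (η / 4) ⊆ S := by
  intro p hp
  rw [mem_closedBall, dist_eq_norm] at hp
  set w := p - (a + b + e) / 3 with hw
  set Δ := cross (b - a) (e - a) with hΔd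
  have hΔ0 : Δ ≠ 0 := by
    intro h0
    rw [h0, abs_zero] at hΔ
    nlinarith
  have hΔp : 0 < |Δ| := abs_pos.2 hΔ0
  have hpw : p = (a + b + e) / 3 + w := by rw [hw]; ring
  -- general estimate
  have key : ∀ q : ℂ, ‖q‖ ≤ ‖b - a‖ → 0 ≤ 1 / 3 + cross q w / Δ := by
    intro q hq
    have h3 : |cross q w / Δ| ≤ 1 / 4 := by
      rw [abs_div, div_le_iff₀ hΔp]
      calc |cross q w| ≤ ‖q‖ * ‖w‖ := poly_ball_cross q w
        _ ≤ ‖b - a‖ * (η / 4) := mul_le_mul hq hp (norm_nonneg _) hab.le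
        _ ≤ 1 / 4 * |Δ| := by linarith
    have h4 := (abs_le.1 h3).1
    linarith
  have e3 : ∀ z : ℂ, (z / 3).re = z.re / 3 ∧ (z / 3).im = z.im / 3 := by
    intro z
    constructor
    · have := Complex.div_ofNat_re z 3; simpa using this
    · have := Complex.div_ofNat_im z 3; simpa using this
  have eA : cross (e - b) (p - b) / Δ = 1 / 3 + cross (e - b) w / Δ := by
    rw [eq_comm, ← sub_eq_zero]
    field_simp
    rw [hpw, hΔd]
    simp only [cross, Complex.add_re, Complex.add_im, Complex.sub_re, Complex.sub_im, (e3 _).1,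
      (e3 _).2]
    ring
  have eB : cross (a - e) (p - e) / Δ = 1 / 3 + cross (a - e) w / Δ := by
    rw [eq_comm, ← sub_eq_zero]
    field_simp
    rw [hpw, hΔd]
    simp only [cross, Complex.add_re, Complex.add_im, Complex.sub_re, Complex.sub_im, (e3 _).1,
      (e3 _).2]
    ring
  have eE : cross (b - a) (p - a) / Δ = 1 / 3 + cross (b - a) w / Δ := by
    rw [eq_comm, ← sub_eq_zero]
    field_simp
    rw [hpw, hΔd]
    simp only [cross, Complex.add_re, Complex.add_im, Complex.sub_re, Complex.sub_im, (e3 _).1,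
      (e3 _).2]
    ring
  have hsum : cross (e - b) (p - b) / Δ + cross (a - e) (p - e) / Δ +
      cross (b - a) (p - a) / Δ = 1 := by
    rw [← add_div, ← add_div, div_eq_one_iff_eq hΔ0, hΔd]
    simp only [cross, Complex.sub_re, Complex.sub_im]
    ring
  have hmem := poly_ball_three hS ha hb he (by rw [eA]; exact key _ h1) (by rw [eB]; exact key _ h2)
    (by rw [eE]; exact key _ le_rfl) hsum
  have hb2 := poly_ball_bary a b e p
  have hΔc : ((Δ : ℝ) : ℂ) ≠ 0 := by exact_mod_cast hΔ0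
  have hfin : p = ((cross (e - b) (p - b) / Δ : ℝ) : ℂ) * a +
      ((cross (a - e) (p - e) / Δ : ℝ) : ℂ) * b + ((cross (b - a) (p - a) / Δ : ℝ) : ℂ) * e := by
    rw [← hΔd] at hb2
    push_cast
    field_simp
    linear_combination hb2
  rw [hfin]
  exact hmem

theorem poly_ball {T : Set (Set ℂ)} {u U : ℝ} (h : NC T u U) {x : Set ℂ → ℂ} {H : Set (Set ℂ)}
    {w : Set ℂ → Set ℂ → ℝ} {ρ : Set ℂ → ℕ} {C g wm : ℝ} {D : ℕ} (hd : Drw T x H w ρ C g wm D) : ∃ r > 0, ∀ v, IsVertex T v → ∃ c, closedBall c r ⊆ Poly T x v := by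
  obtain ⟨η, hη, hnf⟩ := nonflat h hd
  refine ⟨η / 4, by positivity, fun v hv => ?_⟩
  set P : Set ℂ := {z | ∃ t ∈ T, v ∈ t ∧ z = x t} with hP
  have hfin : P.Finite := by
    obtain ⟨N, hN⟩ := g_locfin h 0
    have h1 := (hN v).1
    refine (h1.image x).subset ?_
    rintro z ⟨t, ht, hvt, rfl⟩
    exact ⟨t, ⟨ht, ⟨v, hvt, mem_closedBall_self le_rfl⟩⟩, rfl⟩
  obtain ⟨A, hA, B, hB, C', hC', _, _, _, hvA, hvB, hvC⟩ := hv
  have hne : (P ×ˢ P).Nonempty := ⟨(x A, x A), ⟨A, hA, hvA, rfl⟩, ⟨A, hA, hvA, rfl⟩⟩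
  have hv' : IsVertex T v := ⟨A, hA, B, hB, C', hC', by assumption, by assumption, by assumption,
    hvA, hvB, hvC⟩
  obtain ⟨⟨a, b⟩, ⟨ha, hb⟩, hmax⟩ := (hfin.prod hfin).exists_maximalFor
    (fun q : ℂ × ℂ => ‖q.2 - q.1‖) _ hne
  have hmax' : ∀ a' ∈ P, ∀ b' ∈ P, ‖b' - a'‖ ≤ ‖b - a‖ := by
    intro a' ha' b' hb'
    rcases le_total ‖b' - a'‖ ‖b - a‖ with h1 | h1
    · exact h1
    · exact hmax (show (a', b') ∈ P ×ˢ P from ⟨ha', hb'⟩) h1
  have hdη : η < ‖b - a‖ := by
    obtain ⟨t, ht, hvt, hlt⟩ := hnf v hv' 1 (by simp) (dot 1 a)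
    refine lt_of_lt_of_le hlt (le_trans ?_ (hmax' a ha (x t) ⟨t, ht, hvt, rfl⟩))
    have h2 : dot 1 (x t) - dot 1 a = (x t - a).re := by
      simp [dot]
    rw [h2]
    exact Complex.abs_re_le_norm _
  have hd0 : 0 < ‖b - a‖ := hη.trans hdη
  set z : ℂ := ⟨-(b - a).im / ‖b - a‖, (b - a).re / ‖b - a‖⟩ with hz
  have hz1 : ‖z‖ = 1 := by
    have h3 : ‖z‖ ^ 2 = 1 := by
      rw [Complex.sq_norm, Complex.normSq_apply]
      simp only [hz]
      have h4 : ‖b - a‖ ^ 2 = (b - a).re * (b - a).re + (b - a).im * (b - a).im := by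
        rw [Complex.sq_norm, Complex.normSq_apply]
      field_simp
      rw [h4]
      ring
    have h5 : (‖z‖ - 1) * (‖z‖ + 1) = 0 := by ring_nf; linarith
    rcases mul_eq_zero.1 h5 with h6 | h6
    · linarith
    · have := norm_nonneg z; linarith
  obtain ⟨t, ht, hvt, hlt⟩ := hnf v hv' z hz1 (dot z a)
  have he : x t ∈ P := ⟨t, ht, hvt, rfl⟩
  have hcr : dot z (x t) - dot z a = cross (b - a) (x t - a) / ‖b - a‖ := by
    simp only [dot, cross, hz]
    simp only [Complex.sub_re, Complex.sub_im]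
    ring
  rw [hcr, abs_div, abs_of_pos hd0, lt_div_iff₀ hd0] at hlt
  have hsub : P ⊆ Poly T x v := subset_convexHull ℝ P
  have h7 := poly_ball_tri (convex_convexHull ℝ P) (hsub ha) (hsub hb) (hsub he) hη hd0
    (hmax' b hb (x t) he) (hmax' (x t) he a ha) hlt
  exact ⟨_, h7⟩

end J27069

alias poly_ball := J27069.poly_ball

namespace J27070

/-! ### TARGET of this job: nc_dual -/

theorem nc_dual {T : Set (Set ℂ)} {u U : ℝ} (h : NC T u U) {x : Set ℂ → ℂ} {H : Set (Set ℂ)}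
    {w : Set ℂ → Set ℂ → ℝ} {ρ : Set ℂ → ℕ} {C g wm : ℝ} {D : ℕ} (hd : Drw T x H w ρ C g wm D) : ∃ u' U', NC (Dl T x) u' U' := by
  obtain ⟨r, hr, hball⟩ := poly_ball h hd
  have hfinE : ∀ v : ℂ, {z | ∃ t ∈ T, v ∈ t ∧ z = x t}.Finite := by
    intro v
    obtain ⟨N, hN⟩ := g_locfin h 0
    apply ((hN v).1.image x).subset
    rintro z ⟨t, ht, hvt, rfl⟩
    exact ⟨t, ⟨ht, v, hvt, by simp⟩, rfl⟩
  have hclosed : ∀ v : ℂ, IsClosed (Poly T x v) := fun v => (hfinE v).isClosed_convexHull ℝ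
  have hsub : ∀ v : ℂ, Poly T x v ⊆ closedBall v C := by
    intro v
    apply convexHull_min _ (convex_closedBall v C)
    rintro z ⟨t, ht, hvt, rfl⟩
    rw [mem_closedBall, dist_eq_norm]
    exact hd.near t ht v hvt
  have hdense := gen_dense h x
  refine ⟨r, C, ?_, ?_, ?_, ?_, ?_, ?_, ?_⟩
  · exact hr
  · rintro A ⟨v, hv, rfl⟩
    exact hclosed v
  · rintro A ⟨v, hv, rfl⟩
    exact convex_convexHull ℝ _
  · intro y
    have hVfin : {v | IsVertex T v ∧ (Poly T x v ∩ closedBall y 1).Nonempty}.Finite := by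
      apply (g_vfin h y (C + 1)).subset
      rintro v ⟨hv, z, hz1, hz2⟩
      refine ⟨hv, ?_⟩
      have h1 := hsub v hz1
      rw [mem_closedBall] at h1 hz2 ⊢
      calc dist v y ≤ dist v z + dist z y := dist_triangle _ _ _
        _ ≤ C + 1 := by rw [dist_comm v z]; linarith
    have hKc : IsClosed (⋃ v ∈ {v | IsVertex T v ∧ (Poly T x v ∩ closedBall y 1).Nonempty}, Poly T x v) :=
      hVfin.isClosed_biUnion (fun v _ => hclosed v)
    by_cases hy : y ∈ ⋃ v ∈ {v | IsVertex T v ∧ (Poly T x v ∩ closedBall y 1).Nonempty}, Poly T x v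
    · simp only [Set.mem_iUnion] at hy
      obtain ⟨v, hv, hyv⟩ := hy
      exact ⟨Poly T x v, ⟨v, hv.1, rfl⟩, hyv⟩
    · exfalso
      obtain ⟨y', hy'1, hy'2⟩ := hdense.inter_open_nonempty _ (hKc.isOpen_compl.inter (isOpen_ball (x := y) (ε := 1)))
        ⟨y, hy, mem_ball_self one_pos⟩
      obtain ⟨v, hv, hyv, _⟩ := one_poly h hd y' hy'2
      apply hy'1.1
      simp only [Set.mem_iUnion]
      exact ⟨v, ⟨hv, y', hyv, ball_subset_closedBall hy'1.2⟩, hyv⟩
  · rintro A ⟨v, hv, rfl⟩ B ⟨v', hv', rfl⟩ hne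
    rw [Set.disjoint_iff_inter_eq_empty]
    by_contra hcon
    have hne' : (interior (Poly T x v) ∩ interior (Poly T x v')).Nonempty := Set.nonempty_iff_ne_empty.mpr hcon
    obtain ⟨y, hy1, hy2⟩ := hdense.inter_open_nonempty _ (isOpen_interior.inter isOpen_interior) hne'
    obtain ⟨v'', _, _, hu⟩ := one_poly h hd y hy2
    have e1 := hu v hv (interior_subset hy1.1)
    have e2 := hu v' hv' (interior_subset hy1.2)
    exact hne (by rw [e1, e2])
  · rintro A ⟨v, hv, rfl⟩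
    exact hball v hv
  · rintro A ⟨v, hv, rfl⟩
    exact ⟨v, hsub v⟩

end J27070

alias nc_dual := J27070.nc_dual

namespace J27071

/-! ### TARGET of this job: poly_inj -/

theorem poly_inj {T : Set (Set ℂ)} {u U : ℝ} (h : NC T u U) {x : Set ℂ → ℂ} {H : Set (Set ℂ)}
    {w : Set ℂ → Set ℂ → ℝ} {ρ : Set ℂ → ℕ} {C g wm : ℝ} {D : ℕ} (hd : Drw T x H w ρ C g wm D) {v v' : ℂ} (hv : IsVertex T v) (hv' : IsVertex T v')
    (he : Poly T x v = Poly T x v') : v = v' := by
  obtain ⟨r, hr, hball⟩ := poly_ball h hd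
  obtain ⟨c, hc⟩ := hball v hv
  obtain ⟨y, hy1, hy2⟩ := (gen_dense h x).inter_open_nonempty (ball c r) isOpen_ball
    ⟨c, mem_ball_self hr⟩
  have hyP : y ∈ Poly T x v := hc (ball_subset_closedBall hy1)
  obtain ⟨v0, -, -, huniq⟩ := one_poly h hd y hy2
  have h1 := huniq v hv hyP
  have h2 := huniq v' hv' (he ▸ hyP)
  rw [h1, h2]

end J27071

alias poly_inj := J27071.poly_inj

namespace J27073

/-! ### TARGET of this job: poly_left -/

theorem poly_left_convex (a b : ℂ) : Convex ℝ {z : ℂ | 0 ≤ cross a (z - b)} := by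
  intro p hp q hq s t hs ht hst
  have hp' : 0 ≤ cross a (p - b) := hp
  have hq' : 0 ≤ cross a (q - b) := hq
  show 0 ≤ cross a (s • p + t • q - b)
  have e : cross a (s • p + t • q - b) = s * cross a (p - b) + t * cross a (q - b) := by
    have h1 : s = 1 - t := by linarith
    unfold cross
    simp only [Complex.sub_re, Complex.sub_im, Complex.add_re, Complex.add_im, Complex.smul_re,
      Complex.smul_im, smul_eq_mul]
    rw [h1]
    ring
  rw [e]
  positivity

theorem poly_left {T : Set (Set ℂ)} {u U : ℝ} (h : NC T u U) {x : Set ℂ → ℂ} {H : Set (Set ℂ)}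
    {w : Set ℂ → Set ℂ → ℝ} {ρ : Set ℂ → ℕ} {C g wm : ℝ} {D : ℕ} (hd : Drw T x H w ρ C g wm D) {v : ℂ} {s t : Set ℂ} (hs : s ∈ T) (ht : t ∈ T) (hst : Adj s t)
    (hh : Head s t v) {z : ℂ} (hz : z ∈ Poly T x v) : 0 ≤ cross (x t - x s) (z - x s) := by
  have h1 := sigma_one h hd s hs t ht hst v hh
  have h2 : Poly T x v ⊆ {z : ℂ | 0 ≤ cross (x t - x s) (z - x s)} := by
    apply convexHull_min _ (poly_left_convex _ _)
    rintro y ⟨w', hw', hv, rfl⟩
    have h3 := h1 w' hw' hv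
    rw [one_mul] at h3
    exact h3
  exact h2 hz

end J27073

alias poly_left := J27073.poly_left

namespace J27072

/-! ### TARGET of this job: edge_nbhd -/

theorem en_seg_end {a b c d : ℂ} (hseg : segment ℝ a b = segment ℝ c d) : a = c ∨ a = d := by
  by_contra hcon
  push Not at hcon
  obtain ⟨hac, had⟩ := hcon
  have ha : a ∈ segment ℝ c d := hseg ▸ left_mem_segment ℝ a b
  have hc : c ∈ segment ℝ a b := hseg ▸ left_mem_segment ℝ c d
  have hd : d ∈ segment ℝ a b := hseg ▸ right_mem_segment ℝ c d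
  have hao : a ∈ openSegment ℝ c d := mem_openSegment_of_ne_left_right hac.symm had.symm ha
  obtain ⟨α, β, hα, hβ, hαβ, hα'⟩ := hao
  rw [segment_eq_image'] at hc hd
  obtain ⟨s, ⟨hs0, hs1⟩, hs⟩ := hc
  obtain ⟨t, ⟨ht0, ht1⟩, ht⟩ := hd
  simp only at hs ht
  have h1 : (α * s + β * t) • (b - a) = 0 := by
    have h2 : α • (a + s • (b - a)) + β • (a + t • (b - a)) = a := by
      rw [hs, ht]; exact hα'
    have h3 : α • (a + s • (b - a)) + β • (a + t • (b - a))
        = (α + β) • a + (α * s + β * t) • (b - a) := by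
      simp only [smul_add, add_smul, smul_smul]
      abel
    rw [h3, hαβ, one_smul] at h2
    exact add_eq_left.1 h2
  rcases smul_eq_zero.1 h1 with h2 | h2
  · have h3 : 0 ≤ α * s := mul_nonneg hα.le hs0
    have h4 : 0 ≤ β * t := mul_nonneg hβ.le ht0
    have h5 : α * s = 0 := by linarith
    have h6 : s = 0 := by
      rcases mul_eq_zero.1 h5 with h | h
      · exact absurd h hα.ne'
      · exact h
    apply hac
    rw [← hs, h6, zero_smul, add_zero]
  · apply hac
    rw [← hs, h2, smul_zero, add_zero]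

theorem en_head_uniq {T : Set (Set ℂ)} {u U : ℝ} (h : NC T u U) {s t : Set ℂ} (hs : s ∈ T)
    {q q' : ℂ} (h1 : Head s t q) (h2 : Head s t q') : q = q' := by
  obtain ⟨p1, hp1, hseg1, hpos1⟩ := h1
  obtain ⟨p2, hp2, hseg2, hpos2⟩ := h2
  obtain ⟨c, hc⟩ := h.inr s hs
  have hci : c ∈ interior s := by
    apply interior_maximal (ball_subset_closedBall.trans hc) isOpen_ball
    exact mem_ball_self h.upos
  have e0 : segment ℝ p1 q = segment ℝ p2 q' := by rw [← hseg1, hseg2]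
  have e1 : q = q' ∨ q = p2 := by
    apply en_seg_end (b := p1) (c := q') (d := p2)
    rw [segment_symm, e0, segment_symm]
  rcases e1 with e1 | e1
  · exact e1
  · exfalso
    subst e1
    have e2 : p1 = q' := by
      rcases en_seg_end e0 with e | e
      · exact absurd e hp1
      · exact e
    subst e2
    have g1 := hpos1 c hci
    have g2 := hpos2 c hci
    unfold cross at g1 g2
    simp only [Complex.sub_re, Complex.sub_im] at g1 g2
    nlinarith

theorem en_comb3 {S : Set ℂ} (hS : Convex ℝ S) {a b c : ℂ} (ha : a ∈ S) (hb : b ∈ S) (hc : c ∈ S)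
    {α β γ : ℝ} (hα : 0 ≤ α) (hβ : 0 ≤ β) (hγ : 0 ≤ γ) (h1 : α + β + γ = 1) :
    α • a + β • b + γ • c ∈ S := by
  have := hS.sum_mem (t := (Finset.univ : Finset (Fin 3))) (w := ![α, β, γ]) (z := ![a, b, c])
    (by intro i _; fin_cases i <;> simp [hα, hβ, hγ])
    (by rw [Fin.sum_univ_three]; simpa using h1)
    (by intro i _; fin_cases i <;> simp [ha, hb, hc])
  rw [Fin.sum_univ_three] at this
  simpa using this

theorem en_cont (a b : ℂ) : Continuous (fun z : ℂ => cross a (z - b)) := by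
  unfold cross
  have h1 : Continuous (fun z : ℂ => (z - b).im) :=
    Complex.continuous_im.comp (continuous_id.sub continuous_const)
  have h2 : Continuous (fun z : ℂ => (z - b).re) :=
    Complex.continuous_re.comp (continuous_id.sub continuous_const)
  exact (continuous_const.mul h1).sub (continuous_const.mul h2)

theorem en_anti (a b : ℂ) : cross a b = - cross b a := by
  unfold cross
  ring

theorem en_tri {S : Set ℂ} (hS : Convex ℝ S) {a b c : ℂ} (ha : a ∈ S) (hb : b ∈ S) (hc : c ∈ S)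
    (hD : 0 < cross (b - a) (c - a)) {y : ℂ} (hy : y ∈ openSegment ℝ a b) :
    ∃ ε > 0, ∀ z ∈ ball y ε, 0 ≤ cross (b - a) (z - a) → z ∈ S := by
  set D := cross (b - a) (c - a) with hDdef
  rw [openSegment_eq_image'] at hy
  obtain ⟨l, ⟨hl0, hl1⟩, hl⟩ := hy
  simp only at hl
  have hcont1 : Continuous (fun z : ℂ => - cross (c - a) (z - a) / D) :=
    (en_cont _ _).neg.div_const _
  have hcont2 : Continuous (fun z : ℂ =>
      1 - (- cross (c - a) (z - a) / D) - cross (b - a) (z - a) / D) :=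
    (continuous_const.sub hcont1).sub ((en_cont _ _).div_const _)
  have hyb : - cross (c - a) (y - a) / D = l := by
    rw [div_eq_iff hD.ne', ← hl, add_sub_cancel_left, hDdef]
    unfold cross
    rw [Complex.real_smul, Complex.re_ofReal_mul, Complex.im_ofReal_mul]
    ring
  have hyc : cross (b - a) (y - a) = 0 := by
    rw [← hl, add_sub_cancel_left]
    unfold cross
    rw [Complex.real_smul, Complex.re_ofReal_mul, Complex.im_ofReal_mul]
    ring
  have hopen : IsOpen ({z : ℂ | 0 < - cross (c - a) (z - a) / D} ∩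
      {z : ℂ | 0 < 1 - (- cross (c - a) (z - a) / D) - cross (b - a) (z - a) / D}) :=
    (isOpen_lt continuous_const hcont1).inter (isOpen_lt continuous_const hcont2)
  have hmem : y ∈ ({z : ℂ | 0 < - cross (c - a) (z - a) / D} ∩
      {z : ℂ | 0 < 1 - (- cross (c - a) (z - a) / D) - cross (b - a) (z - a) / D}) := by
    refine ⟨?_, ?_⟩
    · show 0 < - cross (c - a) (y - a) / D
      rw [hyb]; exact hl0
    · show 0 < 1 - (- cross (c - a) (y - a) / D) - cross (b - a) (y - a) / D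
      rw [hyb, hyc]
      simp
      linarith
  obtain ⟨ε, hε, hball⟩ := Metric.isOpen_iff.1 hopen y hmem
  refine ⟨ε, hε, ?_⟩
  intro z hz hpos
  obtain ⟨h1, h2⟩ := hball hz
  have h1' : 0 < - cross (c - a) (z - a) / D := h1
  have h2' : 0 < 1 - (- cross (c - a) (z - a) / D) - cross (b - a) (z - a) / D := h2
  have hz' : z = (1 - (- cross (c - a) (z - a) / D) - cross (b - a) (z - a) / D) • a
      + (- cross (c - a) (z - a) / D) • b + (cross (b - a) (z - a) / D) • c := by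
    have hD' : D ≠ 0 := hD.ne'
    have hDe : D = (b - a).re * (c - a).im - (b - a).im * (c - a).re := hDdef
    apply Complex.ext
    · simp only [Complex.add_re, Complex.real_smul, Complex.re_ofReal_mul]
      have : (z.re - a.re) * D = (- cross (c - a) (z - a)) * (b.re - a.re)
          + cross (b - a) (z - a) * (c.re - a.re) := by
        rw [hDe]
        unfold cross
        simp only [Complex.sub_re, Complex.sub_im]
        ring
      field_simp
      linear_combination this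
    · simp only [Complex.add_im, Complex.real_smul, Complex.im_ofReal_mul]
      have : (z.im - a.im) * D = (- cross (c - a) (z - a)) * (b.im - a.im)
          + cross (b - a) (z - a) * (c.im - a.im) := by
        rw [hDe]
        unfold cross
        simp only [Complex.sub_re, Complex.sub_im]
        ring
      field_simp
      linear_combination this
  rw [hz']
  exact en_comb3 hS ha hb hc h2'.le h1'.le (div_nonneg hpos hD.le) (by ring)

/-- one side -/
theorem en_side {T : Set (Set ℂ)} {u U : ℝ} (h : NC T u U) {x : Set ℂ → ℂ} {H : Set (Set ℂ)}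
    {w : Set ℂ → Set ℂ → ℝ} {ρ : Set ℂ → ℕ} {C g wm : ℝ} {D : ℕ} (hd : Drw T x H w ρ C g wm D)
    {q : ℂ} {s t : Set ℂ} (hs : s ∈ T) (ht : t ∈ T) (hst : Adj s t)
    (hq : Head s t q) {y : ℂ} (hy : y ∈ openSegment ℝ (x s) (x t)) :
    ∃ ε > 0, ∀ z ∈ ball y ε, 0 ≤ cross (x t - x s) (z - x s) → z ∈ Poly T x q := by
  obtain ⟨p', q', hpq', hseg', hH1, hH2, hvp, hvq⟩ := g_head h hs ht hst
  have hqq : q = q' := en_head_uniq h hs hq hH1
  have hqv : IsVertex T q := by rw [hqq]; exact hvq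
  have hne : x s ≠ x t := x_ne h hd s t hs ht hst
  have hqst : q ∈ s ∩ t := by
    obtain ⟨p1, hp1, hseg1, -⟩ := hq
    rw [hseg1]
    exact right_mem_segment ℝ p1 q
  set n : ℂ := ⟨-(x t - x s).im, (x t - x s).re⟩ with hn
  have hn0 : n ≠ 0 := by
    intro h0
    apply hne
    have h1 : (x t - x s).re = 0 := by
      have := congrArg Complex.im h0
      simpa [hn] using this
    have h2 : (x t - x s).im = 0 := by
      have := congrArg Complex.re h0
      simp [hn] at this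
      simp
      linarith
    have h3 : x t - x s = 0 := Complex.ext h1 h2
    exact (sub_eq_zero.1 h3).symm
  obtain ⟨w1, hw1, hqw1, hdot⟩ := nonflat' h hd q hqv n hn0 (dot n (x s))
  have hcr : cross (x t - x s) (x w1 - x s) ≠ 0 := by
    intro h0
    apply hdot
    unfold cross at h0
    unfold dot
    simp only [hn]
    simp only [Complex.sub_re, Complex.sub_im] at h0 ⊢
    linarith
  have hnn := sigma_one h hd s hs t ht hst q hq w1 hw1 hqw1
  rw [one_mul] at hnn
  have hpos : 0 < cross (x t - x s) (x w1 - x s) := lt_of_le_of_ne hnn hcr.symm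
  have hS : Convex ℝ (Poly T x q) := convex_convexHull ℝ _
  exact en_tri hS (subset_convexHull ℝ _ ⟨s, hs, hqst.1, rfl⟩)
    (subset_convexHull ℝ _ ⟨t, ht, hqst.2, rfl⟩) (subset_convexHull ℝ _ ⟨w1, hw1, hqw1, rfl⟩)
    hpos hy

theorem edge_nbhd {T : Set (Set ℂ)} {u U : ℝ} (h : NC T u U) {x : Set ℂ → ℂ} {H : Set (Set ℂ)}
    {w : Set ℂ → Set ℂ → ℝ} {ρ : Set ℂ → ℕ} {C g wm : ℝ} {D : ℕ} (hd : Drw T x H w ρ C g wm D) {p q : ℂ} {s t : Set ℂ} (hs : s ∈ T) (ht : t ∈ T) (hst : Adj s t)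
    (hq : Head s t q) (hp : Head t s p) {y : ℂ} (hy : y ∈ openSegment ℝ (x s) (x t)) :
    ∃ ε > 0, ball y ε ⊆ Poly T x q ∪ Poly T x p := by
  have hts : Adj t s := ⟨hst.1.symm, by rw [inter_comm]; exact hst.2⟩
  obtain ⟨ε1, hε1, h1⟩ := en_side h hd hs ht hst hq hy
  obtain ⟨ε2, hε2, h2⟩ := en_side h hd ht hs hts hp (by rw [openSegment_symm]; exact hy)
  refine ⟨min ε1 ε2, lt_min hε1 hε2, ?_⟩
  intro z hz
  have hz1 : z ∈ ball y ε1 := ball_subset_ball (min_le_left _ _) hz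
  have hz2 : z ∈ ball y ε2 := ball_subset_ball (min_le_right _ _) hz
  rcases le_total 0 (cross (x t - x s) (z - x s)) with h3 | h3
  · exact Or.inl (h1 z hz1 h3)
  · right
    apply h2 z hz2
    have : cross (x s - x t) (z - x t) = - cross (x t - x s) (z - x s) := by
      unfold cross
      simp only [Complex.sub_re, Complex.sub_im]
      ring
    rw [this]
    linarith

end J27072

alias edge_nbhd := J27072.edge_nbhd

namespace J27074

/-! ### TARGET of this job: poly_sector -/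

theorem poly_sector_tri {S : Set ℂ} (hS : Convex ℝ S) {a b c : ℂ} (ha : a ∈ S) (hb : b ∈ S)
    (hc : c ∈ S) {α β γ : ℝ} (h1 : 0 ≤ α) (h2 : 0 ≤ β) (h3 : 0 ≤ γ) (h4 : α + β + γ = 1) :
    (α : ℂ) * a + (β : ℂ) * b + (γ : ℂ) * c ∈ S := by
  have h := hS.sum_mem (t := Finset.univ) (w := ![α, β, γ]) (z := ![a, b, c])
    (by
      intro i _
      fin_cases i
      · exact h1
      · exact h2
      · exact h3)
    (by
      rw [Fin.sum_univ_three]
      exact h4)
    (by
      intro i _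
      fin_cases i
      · exact ha
      · exact hb
      · exact hc)
  rw [Fin.sum_univ_three] at h
  simpa [Complex.real_smul] using h

theorem poly_sector_id (p q y : ℂ) :
    (cross p q : ℂ) * y = -(cross q y : ℂ) * p + (cross p y : ℂ) * q := by
  apply Complex.ext
  · simp [cross]
    ring
  · simp [cross]
    ring

theorem poly_sector_id2 (p u : ℂ) : ((dot p p : ℝ) : ℂ) * u =
    (dot p u : ℂ) * p + (cross p u : ℂ) * (Complex.I * p) := by
  apply Complex.ext
  · simp [cross, dot]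
    ring
  · simp [cross, dot]
    ring

theorem poly_sector_sub (p a b : ℂ) : cross p (a - b) = cross p a - cross p b := by
  simp [cross]
  ring

theorem poly_sector_self (p : ℂ) : cross p p = 0 := by
  simp [cross]
  ring

theorem poly_sector_mul (p u : ℂ) (r : ℝ) : cross p ((r : ℂ) * u) = r * cross p u := by
  simp [cross]
  ring

theorem poly_sector_dot_pos {p : ℂ} (hp : p ≠ 0) : 0 < dot p p := by
  have h1 : dot p p = Complex.normSq p := by
    simp [dot, Complex.normSq_apply]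
  rw [h1]
  exact Complex.normSq_pos.2 hp

theorem poly_sector_c1 {S : Set ℂ} (hS : Convex ℝ S) {a b c : ℂ} (ha : a ∈ S) (hb : b ∈ S)
    (hc : c ∈ S) (hκ : 0 < cross (b - a) (c - b)) : ∃ ε > 0, ∀ z, dist z b < ε →
      0 ≤ cross (b - a) (z - b) → 0 ≤ cross (c - b) (z - b) → z ∈ S := by
  set κ := cross (b - a) (c - b) with hκd
  have hcont : Continuous (fun z : ℂ => cross (c - b) (z - b) / κ + cross (b - a) (z - b) / κ) := by
    unfold cross
    fun_prop
  have h0 : cross (c - b) (b - b) / κ + cross (b - a) (b - b) / κ < 1 := by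
    simp [cross]
  have hev := hcont.continuousAt.eventually (gt_mem_nhds h0)
  obtain ⟨ε, hε, h1⟩ := Metric.eventually_nhds_iff.1 hev
  refine ⟨ε, hε, fun z hz hz1 hz2 => ?_⟩
  have h2 := h1 hz
  have hα : 0 ≤ cross (c - b) (z - b) / κ := div_nonneg hz2 hκ.le
  have hγ : 0 ≤ cross (b - a) (z - b) / κ := div_nonneg hz1 hκ.le
  have h3 := poly_sector_tri hS ha hb hc hα
    (β := 1 - cross (c - b) (z - b) / κ - cross (b - a) (z - b) / κ) (by linarith) hγ (by ring)
  have h4 : z = ((cross (c - b) (z - b) / κ : ℝ) : ℂ) * a +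
      ((1 - cross (c - b) (z - b) / κ - cross (b - a) (z - b) / κ : ℝ) : ℂ) * b +
      ((cross (b - a) (z - b) / κ : ℝ) : ℂ) * c := by
    have h5 := poly_sector_id (b - a) (c - b) (z - b)
    rw [← hκd] at h5
    have hκ0 : (κ : ℂ) ≠ 0 := by exact_mod_cast hκ.ne'
    push_cast
    field_simp
    linear_combination h5
  rw [h4]
  exact h3

theorem poly_sector_c2 {S : Set ℂ} (hS : Convex ℝ S) {a b c d : ℂ} (ha : a ∈ S)
    (hc : c ∈ S) (hd : d ∈ S) (hab : a ≠ b) {l : ℝ} (hl : 0 < l)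
    (hcb : c - b = (l : ℂ) * (b - a)) (hδ : 0 < cross (b - a) (d - b)) :
    ∃ ε > 0, ∀ z, dist z b < ε → 0 ≤ cross (b - a) (z - b) → z ∈ S := by
  set δ := cross (b - a) (d - b) with hδd
  set γ : ℂ → ℝ := fun z => cross (b - a) (z - b) / δ with hγd
  set s : ℂ → ℝ := fun z => dot (b - a) (z - b - (γ z : ℂ) * (d - b)) / dot (b - a) (b - a)
    with hsd
  have hγc : Continuous γ := by
    rw [hγd]
    unfold cross
    fun_prop
  have hsc : Continuous s := by
    have h1 : Continuous (fun z => z - b - (γ z : ℂ) * (d - b)) := by fun_prop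
    rw [hsd]
    unfold dot
    exact ((continuous_const.mul (Complex.continuous_re.comp h1)).add
      (continuous_const.mul (Complex.continuous_im.comp h1))).div_const _
  have hγ0 : γ b = 0 := by
    simp [hγd, cross]
  have hs0 : s b = 0 := by
    simp [hsd, hγ0, dot]
  have hev1 := hγc.continuousAt.eventually (gt_mem_nhds (show γ b < 1 / 2 by rw [hγ0]; norm_num))
  have hev2 := hsc.continuousAt.eventually (gt_mem_nhds (show s b < l / 2 by rw [hs0]; linarith))
  have hev3 := hsc.continuousAt.eventually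
    (lt_mem_nhds (show -(1 / 2) < s b by rw [hs0]; norm_num))
  obtain ⟨ε, hε, h1⟩ := Metric.eventually_nhds_iff.1 (hev1.and (hev2.and hev3))
  refine ⟨ε, hε, fun z hz hz1 => ?_⟩
  obtain ⟨e1, e2, e3⟩ := h1 hz
  have hγn : 0 ≤ γ z := div_nonneg hz1 hδ.le
  have hab' : b - a ≠ 0 := sub_ne_zero.2 hab.symm
  have hdp := poly_sector_dot_pos hab'
  have hl1 : (0 : ℝ) < 1 + l := by linarith
  have key : z - b - (γ z : ℂ) * (d - b) = (s z : ℂ) * (b - a) := by
    have h2 := poly_sector_id2 (b - a) (z - b - (γ z : ℂ) * (d - b))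
    have h3 : cross (b - a) (z - b - (γ z : ℂ) * (d - b)) = 0 := by
      rw [poly_sector_sub, poly_sector_mul, ← hδd]
      simp only [hγd]
      field_simp
      ring
    rw [h3] at h2
    have hdp0 : ((dot (b - a) (b - a) : ℝ) : ℂ) ≠ 0 := by exact_mod_cast hdp.ne'
    have h4 : (s z : ℂ) = ((dot (b - a) (z - b - (γ z : ℂ) * (d - b)) : ℝ) : ℂ) /
        ((dot (b - a) (b - a) : ℝ) : ℂ) := by
      simp only [hsd]
      push_cast
      rfl
    rw [h4]
    field_simp
    rw [Complex.ofReal_zero, zero_mul, add_zero] at h2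
    linear_combination h2
  have h3 := poly_sector_tri hS ha hc hd (α := ((1 - γ z) * l - s z) / (1 + l))
    (β := ((1 - γ z) + s z) / (1 + l)) (γ := γ z)
    (div_nonneg (by nlinarith) hl1.le) (div_nonneg (by linarith) hl1.le) hγn (by
      field_simp
      ring)
  have h4 : z = ((((1 - γ z) * l - s z) / (1 + l) : ℝ) : ℂ) * a +
      ((((1 - γ z) + s z) / (1 + l) : ℝ) : ℂ) * c + (γ z : ℂ) * d := by
    have hl0 : (1 : ℂ) + (l : ℂ) ≠ 0 := by exact_mod_cast hl1.ne'
    have hc' : c = b + (l : ℂ) * (b - a) := by linear_combination hcb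
    rw [hc']
    push_cast
    field_simp
    linear_combination (1 + (l : ℂ)) * key
  rw [h4]
  exact h3

theorem poly_sector {T : Set (Set ℂ)} {u U : ℝ} (h : NC T u U) {x : Set ℂ → ℂ} {H : Set (Set ℂ)}
    {w : Set ℂ → Set ℂ → ℝ} {ρ : Set ℂ → ℕ} {C g wm : ℝ} {D : ℕ} (hd : Drw T x H w ρ C g wm D) {v : ℂ} (hv : IsVertex T v) {r t r' : Set ℂ} (hr : r ∈ T) (ht : t ∈ T)
    (hr' : r' ∈ T) (h1 : Adj r t) (h2 : Adj t r') (h3 : Head r t v) (h4 : Head t r' v) :
    ∃ ε > 0, ∀ z, dist z (x t) < ε → 0 ≤ cross (x t - x r) (z - x t) →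
      0 ≤ cross (x r' - x t) (z - x t) → z ∈ Poly T x v := by
  have hvr : v ∈ r ∧ v ∈ t := by
    obtain ⟨p, -, hp, -⟩ := h3
    have := right_mem_segment ℝ p v
    rw [← hp] at this
    exact this
  have hvr' : v ∈ t ∧ v ∈ r' := by
    obtain ⟨p, -, hp, -⟩ := h4
    have := right_mem_segment ℝ p v
    rw [← hp] at this
    exact this
  have hmem : ∀ w ∈ T, v ∈ w → x w ∈ Poly T x v := fun w hw hvw =>
    subset_convexHull ℝ _ ⟨w, hw, hvw, rfl⟩
  have hconv : Convex ℝ (Poly T x v) := convex_convexHull ℝ _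
  have hsg : ∀ w ∈ T, v ∈ w → 0 ≤ cross (x t - x r) (x w - x r) := by
    intro w hw hvw
    have := sigma_one h hd r hr t ht h1 v h3 w hw hvw
    rwa [one_mul] at this
  have hab : x r ≠ x t := x_ne h hd r t hr ht h1
  have hbc : x t ≠ x r' := x_ne h hd t r' ht hr' h2
  have hab' : x t - x r ≠ 0 := sub_ne_zero.2 hab.symm
  have hcr : ∀ y : ℂ, cross (x t - x r) (y - x t) = cross (x t - x r) (y - x r) := by
    intro y
    simp [cross]
    ring
  have hκ : 0 ≤ cross (x t - x r) (x r' - x t) := by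
    rw [hcr]
    exact hsg r' hr' hvr'.2
  rcases hκ.lt_or_eq with hκ | hκ
  · exact poly_sector_c1 hconv (hmem r hr hvr.1) (hmem t ht hvr.2) (hmem r' hr' hvr'.2) hκ
  · obtain ⟨l, hl⟩ : ∃ l : ℝ, x r' - x t = (l : ℂ) * (x t - x r) := by
      have h5 := poly_sector_id2 (x t - x r) (x r' - x t)
      rw [← hκ, Complex.ofReal_zero, zero_mul, add_zero] at h5
      have hdp := poly_sector_dot_pos hab'
      have hdp0 : ((dot (x t - x r) (x t - x r) : ℝ) : ℂ) ≠ 0 := by exact_mod_cast hdp.ne'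
      refine ⟨dot (x t - x r) (x r' - x t) / dot (x t - x r) (x t - x r), ?_⟩
      push_cast
      field_simp
      linear_combination h5
    have hl0 : 0 < l := by
      rcases lt_trichotomy l 0 with h6 | h6 | h6
      · exact absurd hl (no_spike h hd v hv r t r' hr ht hr' h1 h2 h3 h4 l h6)
      · exfalso
        rw [h6, Complex.ofReal_zero, zero_mul] at hl
        exact hbc (sub_eq_zero.1 hl).symm
      · exact h6
    have hz0 : (⟨-(x t - x r).im, (x t - x r).re⟩ : ℂ) ≠ 0 := by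
      intro h6
      apply hab'
      have h7 := congrArg Complex.re h6
      have h8 := congrArg Complex.im h6
      simp only [Complex.zero_re, Complex.zero_im] at h7 h8
      exact Complex.ext h8 (by rw [Complex.zero_im]; linarith)
    obtain ⟨w', hw', hvw', hne⟩ := nonflat' h hd v hv ⟨-(x t - x r).im, (x t - x r).re⟩ hz0
      (cross (x t - x r) (x r))
    have hdc : dot (⟨-(x t - x r).im, (x t - x r).re⟩ : ℂ) (x w') =
        cross (x t - x r) (x w') := by
      simp only [dot, cross]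
      ring
    rw [hdc] at hne
    have hδ : 0 < cross (x t - x r) (x w' - x t) := by
      rw [hcr]
      refine lt_of_le_of_ne (hsg w' hw' hvw') ?_
      rw [poly_sector_sub]
      intro h6
      exact hne (by linarith)
    obtain ⟨ε, hε, h6⟩ := poly_sector_c2 hconv (hmem r hr hvr.1) (hmem r' hr' hvr'.2)
      (hmem w' hw' hvw') hab hl0 hl hδ
    exact ⟨ε, hε, fun z hz hz1 _ => h6 z hz hz1⟩

end J27074

alias poly_sector := J27074.poly_sector

namespace J27075

/-! ### TARGET of this job: star_nbhd -/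

theorem star_par (a b : ℂ) (ha : a ≠ 0) (h : cross a b = 0) : ∃ l : ℝ, b = (l : ℂ) * a := by
  have hn : a.re ^ 2 + a.im ^ 2 ≠ 0 := by
    intro h0
    apply ha
    have h1 : a.re = 0 := by nlinarith [sq_nonneg a.re, sq_nonneg a.im]
    have h2 : a.im = 0 := by nlinarith [sq_nonneg a.re, sq_nonneg a.im]
    exact Complex.ext h1 h2
  unfold cross at h
  refine ⟨(a.re * b.re + a.im * b.im) / (a.re ^ 2 + a.im ^ 2), ?_⟩
  apply Complex.ext
  · rw [Complex.re_ofReal_mul, div_mul_eq_mul_div, eq_div_iff hn]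
    linear_combination (-a.im) * h
  · rw [Complex.im_ofReal_mul, div_mul_eq_mul_div, eq_div_iff hn]
    linear_combination a.re * h

theorem star_alg (α β ζ : ℂ) (hα : α ≠ 0) (hβ : β ≠ 0) (hζ : ζ ≠ 0) (c1 : 0 ≤ cross α ζ)
    (c2 : 0 ≤ cross β ζ) (c3 : 0 ≤ cross α β) (hsp : ∀ l : ℝ, l < 0 → β ≠ (l : ℂ) * α)
    (hz : cross α ζ = 0 ∨ cross β ζ = 0) :
    (∃ l : ℝ, 0 < l ∧ ζ = -((l : ℂ) * α)) ∨ (∃ l : ℝ, 0 < l ∧ ζ = (l : ℂ) * β) := by
  have hμ : cross α β = 0 → ∃ μ : ℝ, 0 < μ ∧ β = (μ : ℂ) * α := by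
    intro h0
    obtain ⟨μ, hμ⟩ := star_par α β hα h0
    refine ⟨μ, ?_, hμ⟩
    rcases lt_trichotomy μ 0 with h | h | h
    · exact absurd hμ (hsp μ h)
    · exfalso
      apply hβ
      rw [hμ, h]
      simp
    · exact h
  rcases hz with hz | hz
  · obtain ⟨κ, hκ⟩ := star_par α ζ hα hz
    rcases lt_trichotomy κ 0 with h | h | h
    · left
      refine ⟨-κ, by linarith, ?_⟩
      rw [hκ]
      push_cast
      ring
    · exfalso
      apply hζ
      rw [hκ, h]
      simp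
    · right
      have e1 : cross β ζ = -(κ * cross α β) := by
        rw [hκ]
        simp only [cross, Complex.re_ofReal_mul, Complex.im_ofReal_mul]
        ring
      rw [e1] at c2
      have h0 : cross α β = 0 := by
        have : 0 ≤ κ * cross α β := mul_nonneg h.le c3
        have h2 : κ * cross α β = 0 := by linarith
        rcases mul_eq_zero.mp h2 with h3 | h3
        · exact absurd h3 h.ne'
        · exact h3
      obtain ⟨μ, hμ0, hμ1⟩ := hμ h0
      refine ⟨κ / μ, by positivity, ?_⟩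
      have hμ2 : (μ : ℂ) ≠ 0 := by exact_mod_cast hμ0.ne'
      rw [hκ, hμ1]
      push_cast
      field_simp
  · obtain ⟨κ, hκ⟩ := star_par β ζ hβ hz
    rcases lt_trichotomy κ 0 with h | h | h
    · left
      have e1 : cross α ζ = κ * cross α β := by
        rw [hκ]
        simp only [cross, Complex.re_ofReal_mul, Complex.im_ofReal_mul]
        ring
      rw [e1] at c1
      have h0 : cross α β = 0 := by
        have h1 : κ * cross α β ≤ 0 := mul_nonpos_of_nonpos_of_nonneg h.le c3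
        have h2 : κ * cross α β = 0 := by linarith
        rcases mul_eq_zero.mp h2 with h3 | h3
        · exact absurd h3 h.ne
        · exact h3
      obtain ⟨μ, hμ0, hμ1⟩ := hμ h0
      refine ⟨-κ * μ, mul_pos (by linarith) hμ0, ?_⟩
      rw [hκ, hμ1]
      push_cast
      ring
    · exfalso
      apply hζ
      rw [hκ, h]
      simp
    · right
      exact ⟨κ, h, hκ⟩

theorem star_seg (a b z : ℂ) (l : ℝ) (hl : 0 < l) (hz : z - b = (l : ℂ) * (a - b))
    (hn : ‖z - b‖ < ‖a - b‖) : z ∈ openSegment ℝ a b := by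
  have h1 : ‖z - b‖ = l * ‖a - b‖ := by
    rw [hz, norm_mul, Complex.norm_real, Real.norm_of_nonneg hl.le]
  have h2 : l < 1 := by
    by_contra h3
    have h4 : 1 ≤ l := not_lt.mp h3
    have h5 : ‖a - b‖ ≤ l * ‖a - b‖ := le_mul_of_one_le_left (norm_nonneg _) h4
    linarith
  refine ⟨l, 1 - l, hl, by linarith, by ring, ?_⟩
  have h3 : z = b + (l : ℂ) * (a - b) := by rw [← hz]; ring
  rw [h3, Complex.real_smul, Complex.real_smul]
  push_cast
  ring

theorem star_nbhd {T : Set (Set ℂ)} {u U : ℝ} (h : NC T u U) {x : Set ℂ → ℂ} {H : Set (Set ℂ)}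
    {w : Set ℂ → Set ℂ → ℝ} {ρ : Set ℂ → ℕ} {C g wm : ℝ} {D : ℕ} (hd : Drw T x H w ρ C g wm D) {t : Set ℂ} (ht : t ∈ T) :
    ∃ ε > 0, ∀ z, dist z (x t) < ε → ∃ v, IsVertex T v ∧ v ∈ t ∧ z ∈ Poly T x v := by
  obtain ⟨S, hS⟩ : ∃ S : Set ℂ, S = {z | ∃ v, IsVertex T v ∧ v ∈ t ∧ z ∈ Poly T x v} := ⟨_, rfl⟩
  have hSm : ∀ z, z ∈ S ↔ ∃ v, IsVertex T v ∧ v ∈ t ∧ z ∈ Poly T x v := fun z => by
    rw [hS]; exact Iff.rfl
  -- the vertices of `t`
  have hVfin : {v | IsVertex T v ∧ v ∈ t}.Finite := by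
    obtain ⟨c, hc⟩ := h.outr t ht
    exact (g_vfin h c U).subset (fun v hv => ⟨hv.1, hc hv.2⟩)
  have hPc : ∀ v, IsClosed (Poly T x v) := by
    intro v
    obtain ⟨N, hN⟩ := g_locfin h 0
    have h1 : {s | s ∈ T ∧ v ∈ s}.Finite :=
      (hN v).1.subset (fun s hs => ⟨hs.1, v, hs.2, by simp⟩)
    have h2 : {z | ∃ s ∈ T, v ∈ s ∧ z = x s}.Finite := by
      refine (h1.image x).subset ?_
      rintro z ⟨s, hs, hvs, rfl⟩
      exact ⟨s, ⟨hs, hvs⟩, rfl⟩
    exact (Set.Finite.isCompact_convexHull (𝕜 := ℝ) h2).isClosed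
  have hSc : IsClosed S := by
    have h1 : S = ⋃ v ∈ {v | IsVertex T v ∧ v ∈ t}, Poly T x v := by
      ext z
      rw [hSm]
      simp only [Set.mem_iUnion, Set.mem_ofPred_eq, exists_prop, and_assoc]
    rw [h1]
    exact hVfin.isClosed_biUnion (fun v _ => hPc v)
  -- edges
  have hE : ∀ s ∈ T, Adj s t → ∀ z ∈ openSegment ℝ (x s) (x t), S ∈ nhds z := by
    intro s hs hst z hz
    obtain ⟨p, q, hpq, hseg, hq, hp, hvp, hvq⟩ := g_head h hs ht hst
    obtain ⟨ε, hε, hball⟩ := edge_nbhd h hd hs ht hst hq hp hz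
    refine Filter.mem_of_superset (Metric.ball_mem_nhds z hε) (hball.trans ?_)
    have hpt : p ∈ t := (hseg ▸ left_mem_segment ℝ p q : p ∈ s ∩ t).2
    have hqt : q ∈ t := (hseg ▸ right_mem_segment ℝ p q : q ∈ s ∩ t).2
    rintro y (hy | hy)
    · exact (hSm y).mpr ⟨q, hvq, hqt, hy⟩
    · exact (hSm y).mpr ⟨p, hvp, hpt, hy⟩
  have hadj : ∀ A B : Set ℂ, Adj A B → Adj B A := fun A B hAB =>
    ⟨hAB.1.symm, by rw [Set.inter_comm]; exact hAB.2⟩
  -- data at the vertices
  have hdata : ∀ v, IsVertex T v ∧ v ∈ t → ∃ δ : ℝ, 0 < δ ∧ ∃ r ∈ T, ∃ r' ∈ T, Adj r t ∧ Adj t r' ∧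
      Head r t v ∧ Head t r' v ∧ δ ≤ ‖x r - x t‖ ∧ δ ≤ ‖x r' - x t‖ ∧
      ∀ z, dist z (x t) < δ → 0 ≤ cross (x t - x r) (z - x t) →
      0 ≤ cross (x r' - x t) (z - x t) → z ∈ Poly T x v := by
    rintro v ⟨hv, hvt⟩
    obtain ⟨r, hr, hrt, hrv, -⟩ := g_prev h hv ht hvt
    obtain ⟨r', hr', hrt', hrv', -⟩ := g_next h hv ht hvt
    obtain ⟨ε, hε, hsec⟩ := poly_sector h hd hv hr ht hr' hrt hrt' hrv hrv'
    have h1 : 0 < ‖x r - x t‖ := norm_pos_iff.mpr (sub_ne_zero.mpr (x_ne h hd r t hr ht hrt))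
    have h2 : 0 < ‖x r' - x t‖ :=
      norm_pos_iff.mpr (sub_ne_zero.mpr (x_ne h hd r' t hr' ht (hadj _ _ hrt')))
    refine ⟨min ε (min ‖x r - x t‖ ‖x r' - x t‖), lt_min hε (lt_min h1 h2), r, hr, r', hr', hrt,
      hrt', hrv, hrv', ?_, ?_, ?_⟩
    · exact (min_le_right _ _).trans (min_le_left _ _)
    · exact (min_le_right _ _).trans (min_le_right _ _)
    · intro z hz
      exact hsec z (lt_of_lt_of_le hz (min_le_left _ _))
  choose! δ hδ0 hδ using hdata
  obtain ⟨ε, hε0, hεδ⟩ : ∃ ε : ℝ, 0 < ε ∧ ∀ v ∈ {v | IsVertex T v ∧ v ∈ t}, ε ≤ δ v := by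
    have h1 : ∀ᶠ ε : ℝ in nhdsWithin 0 (Set.Ioi 0), ∀ v ∈ {v | IsVertex T v ∧ v ∈ t}, ε ≤ δ v := by
      rw [hVfin.eventually_all]
      intro v hv
      exact nhdsWithin_le_nhds (eventually_le_nhds (hδ0 v hv))
    obtain ⟨ε, h2, h3⟩ := (h1.and self_mem_nhdsWithin).exists
    exact ⟨ε, h3, h2⟩
  -- interior points
  have hN : ∀ z, z ≠ x t → dist z (x t) < ε → z ∈ S → S ∈ nhds z := by
    intro z hzt hzε hzS
    obtain ⟨v, hv, hvt, hzP⟩ := (hSm z).mp hzS
    obtain ⟨r, hr, r', hr', hrt, hrt', hrv, hrv', hd1, hd2, hsec⟩ := hδ v ⟨hv, hvt⟩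
    have hεv := hεδ v ⟨hv, hvt⟩
    have c1 : 0 ≤ cross (x t - x r) (z - x t) := by
      have h1 := poly_left h hd hr ht hrt hrv hzP
      have h2 : cross (x t - x r) (z - x r) = cross (x t - x r) (z - x t) := by
        simp only [cross, Complex.sub_re, Complex.sub_im]
        ring
      rwa [h2] at h1
    have c2 : 0 ≤ cross (x r' - x t) (z - x t) := poly_left h hd ht hr' hrt' hrv' hzP
    have c3 : 0 ≤ cross (x t - x r) (x r' - x t) := by
      have hvr' : v ∈ r' := by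
        obtain ⟨p, -, hseg, -⟩ := hrv'
        exact (hseg ▸ right_mem_segment ℝ p v : v ∈ t ∩ r').2
      have h1 := sigma_one h hd r hr t ht hrt v hrv r' hr' hvr'
      have h2 : cross (x t - x r) (x r' - x r) = cross (x t - x r) (x r' - x t) := by
        simp only [cross, Complex.sub_re, Complex.sub_im]
        ring
      rw [h2, one_mul] at h1
      exact h1
    by_cases hboth : 0 < cross (x t - x r) (z - x t) ∧ 0 < cross (x r' - x t) (z - x t)
    · have hcont : ∀ a : ℂ, Continuous (fun z' : ℂ => cross a (z' - x t)) := by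
        intro a
        unfold cross
        exact (continuous_const.mul (Complex.continuous_im.comp (continuous_id.sub
          continuous_const))).sub (continuous_const.mul (Complex.continuous_re.comp
          (continuous_id.sub continuous_const)))
      have e1 := (hcont (x t - x r)).continuousAt.eventually (lt_mem_nhds hboth.1)
      have e2 := (hcont (x r' - x t)).continuousAt.eventually (lt_mem_nhds hboth.2)
      have e3 : ∀ᶠ z' in nhds z, dist z' (x t) < ε :=
        (continuous_id.dist continuous_const).continuousAt.eventually_lt_const hzε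
      filter_upwards [e1, e2, e3] with z' h1 h2 h3
      exact (hSm z').mpr ⟨v, hv, hvt, hsec z' (lt_of_lt_of_le h3 hεv) h1.le h2.le⟩
    · have hz0 : cross (x t - x r) (z - x t) = 0 ∨ cross (x r' - x t) (z - x t) = 0 := by
        rcases c1.lt_or_eq with h1 | h1
        · rcases c2.lt_or_eq with h2 | h2
          · exact absurd ⟨h1, h2⟩ hboth
          · exact Or.inr h2.symm
        · exact Or.inl h1.symm
      rcases star_alg (x t - x r) (x r' - x t) (z - x t)
        (sub_ne_zero.mpr (x_ne h hd t r ht hr (hadj _ _ hrt)))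
        (sub_ne_zero.mpr (x_ne h hd r' t hr' ht (hadj _ _ hrt'))) (sub_ne_zero.mpr hzt) c1 c2 c3
        (fun l hl => no_spike h hd v hv r t r' hr ht hr' hrt hrt' hrv hrv' l hl) hz0 with
        ⟨l, hl, hl2⟩ | ⟨l, hl, hl2⟩
      · apply hE r hr hrt z
        apply star_seg (x r) (x t) z l hl
        · rw [hl2]
          ring
        · rw [← dist_eq_norm]
          linarith
      · apply hE r' hr' (hadj _ _ hrt') z
        apply star_seg (x r') (x t) z l hl hl2
        rw [← dist_eq_norm]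
        linarith
  obtain ⟨p, -, -, -, -, -, hpt, -, -, hvp, -, -⟩ := g_3v h ht
  obtain ⟨r, hr, r', hr', hrt, hrt', hrv, hrv', hd1, hd2, hsec⟩ := hδ p ⟨hvp, hpt⟩
  have hεp := hεδ p ⟨hvp, hpt⟩
  refine ⟨ε, hε0, ?_⟩
  intro z hz
  rw [← hSm]
  by_cases hzt : z = x t
  · rw [hzt]
    exact (hSm _).mpr ⟨p, hvp, hpt, subset_convexHull ℝ _ ⟨t, ht, hpt, rfl⟩⟩
  · have hρ : 0 < dist z (x t) := dist_pos.mpr hzt
    have hsph : sphere (x t) (dist z (x t)) ⊆ interior S := by
      apply (isPreconnected_sphere (by rw [Complex.rank_real_complex]; norm_num) (x t)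
        (dist z (x t))).subset_of_closure_inter_subset isOpen_interior
      · have hn : 0 < ‖x r - x t‖ := by linarith
        have hz0 : ‖(x t + ((dist z (x t) / ‖x r - x t‖ : ℝ) : ℂ) * (x r - x t)) - x t‖ =
            dist z (x t) := by
          rw [add_sub_cancel_left, norm_mul, Complex.norm_real,
            Real.norm_of_nonneg (by positivity), div_mul_cancel₀ _ hn.ne']
        refine ⟨x t + ((dist z (x t) / ‖x r - x t‖ : ℝ) : ℂ) * (x r - x t), ?_, ?_⟩
        · rw [mem_sphere, dist_eq_norm, hz0]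
        · apply mem_interior_iff_mem_nhds.mpr
          apply hE r hr hrt
          apply star_seg (x r) (x t) _ (dist z (x t) / ‖x r - x t‖) (by positivity)
          · ring
          · rw [hz0]
            linarith
      · rintro y ⟨hy1, hy2⟩
        have hyS : y ∈ S := by
          have h1 := closure_mono interior_subset hy1
          rwa [hSc.closure_eq] at h1
        rw [mem_sphere] at hy2
        refine mem_interior_iff_mem_nhds.mpr (hN y ?_ (by rw [hy2]; exact hz) hyS)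
        intro h1
        rw [h1, dist_self] at hy2
        linarith
    exact interior_subset (hsph (mem_sphere.mpr rfl))

end J27075

alias star_nbhd := J27075.star_nbhd

namespace J27076

/-! ### TARGET of this job: dual_in -/

theorem dual_in {T : Set (Set ℂ)} {u U : ℝ} (h : NC T u U) {x : Set ℂ → ℂ} {H : Set (Set ℂ)}
    {w : Set ℂ → Set ℂ → ℝ} {ρ : Set ℂ → ℕ} {C g wm : ℝ} {D : ℕ} (hd : Drw T x H w ρ C g wm D) {t : Set ℂ} (ht : t ∈ T) {v : ℂ} (hv : IsVertex T v)
    (hx : x t ∈ Poly T x v) : v ∈ t := by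
  obtain ⟨u', U', hD⟩ := nc_dual h hd
  obtain ⟨ε, hε, hstar⟩ := star_nbhd h hd ht
  have hP : Poly T x v ∈ Dl T x := ⟨v, hv, rfl⟩
  have hcl := (g_cl hD hP).1
  rw [← hcl, Metric.mem_closure_iff] at hx
  obtain ⟨z, hz, hdz⟩ := hx ε hε
  obtain ⟨v2, hv2, hv2t, hz2⟩ := hstar z (by rw [dist_comm]; exact hdz)
  have hP2 : Poly T x v2 ∈ Dl T x := ⟨v2, hv2, rfl⟩
  have he := g_int hD hP hP2 hz hz2
  have := poly_inj h hd hv2 hv he
  rw [← this]
  exact hv2t

end J27076

alias dual_in := J27076.dual_in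

namespace J27077

/-! ### TARGET of this job: x_inj -/

theorem x_inj {T : Set (Set ℂ)} {u U : ℝ} (h : NC T u U) {x : Set ℂ → ℂ} {H : Set (Set ℂ)}
    {w : Set ℂ → Set ℂ → ℝ} {ρ : Set ℂ → ℕ} {C g wm : ℝ} {D : ℕ} (hd : Drw T x H w ρ C g wm D) {s t : Set ℂ} (hs : s ∈ T) (ht : t ∈ T) (he : x s = x t) : s = t := by
  by_contra hne
  have hvt : ∀ v, IsVertex T v → v ∈ s → v ∈ t := by
    intro v hv hvs
    apply dual_in h hd ht hv
    rw [← he]
    exact subset_convexHull ℝ _ ⟨s, hs, hvs, rfl⟩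
  obtain ⟨p, q, r, hpq, hpr, hqr, hp, hq, hr, hvp, hvq, hvr⟩ := g_3v h hs
  have hpt := hvt p hvp hp
  have hqt := hvt q hvq hq
  have hrt := hvt r hvr hr
  have had : Adj s t := ⟨hne, p, ⟨hp, hpt⟩, q, ⟨hq, hqt⟩, hpq⟩
  obtain ⟨a, b, hab, hseg, -, -, hop⟩ := g_adj h hs ht had
  have hend : ∀ v, IsVertex T v → v ∈ s → v = a ∨ v = b := by
    intro v hv hvs
    have hv2 : v ∈ s ∩ t := ⟨hvs, hvt v hv hvs⟩
    rw [hseg, ← insert_endpoints_openSegment] at hv2
    rcases hv2 with hv2 | hv2 | hv2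
    · exact Or.inl hv2
    · exact Or.inr hv2
    · exfalso
      obtain ⟨A, hA, B, hB, E, hE, h1, h2, h3, h4, h5, h6⟩ := hv
      have k1 := hop v hv2 A hA h4
      have k2 := hop v hv2 B hB h5
      have k3 := hop v hv2 E hE h6
      rcases k1 with k1 | k1 <;> rcases k2 with k2 | k2 <;> rcases k3 with k3 | k3 <;>
        subst_vars <;> simp_all
  rcases hend p hvp hp with k1 | k1 <;> rcases hend q hvq hq with k2 | k2 <;>
    rcases hend r hvr hr with k3 | k3 <;> subst_vars <;> simp_all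

end J27077

alias x_inj := J27077.x_inj

namespace J27078

/-! ### TARGET of this job: fr_poly -/

theorem slit_of_not_seg_27078 (a b y : ℂ) (hy : y ∉ segment ℝ a b) :
    a - y ≠ 0 ∧ (b - y) / (a - y) ∈ Complex.slitPlane := by
  have ha : a - y ≠ 0 := by
    intro h
    apply hy
    rw [sub_eq_zero.1 h]
    exact left_mem_segment ℝ y b
  refine ⟨ha, ?_⟩
  by_contra hns
  rw [Complex.mem_slitPlane_iff, not_or, not_lt, not_not] at hns
  obtain ⟨hre, him⟩ := hns
  set r : ℝ := -((b - y) / (a - y)).re with hr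
  have hr0 : 0 ≤ r := by rw [hr]; linarith
  have hq : (b - y) / (a - y) = ((-r : ℝ) : ℂ) := by
    apply Complex.ext
    · simp [hr]
    · simp [him]
  rw [div_eq_iff ha] at hq
  apply hy
  have h1r : (1 + r) ≠ 0 := by positivity
  have h1rc : ((1 + r : ℝ) : ℂ) ≠ 0 := by exact_mod_cast h1r
  refine ⟨r / (1 + r), 1 / (1 + r), by positivity, by positivity, by field_simp; ring, ?_⟩
  have : ((1 + r : ℝ) : ℂ) * y = b + r * a := by
    push_cast at hq ⊢
    linear_combination -hq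
  have h2 : ((r / (1 + r) : ℝ) : ℂ) * a + ((1 / (1 + r) : ℝ) : ℂ) * b = y := by
    have h3 : ((1 + r : ℝ) : ℂ) * (((r / (1 + r) : ℝ) : ℂ) * a + ((1 / (1 + r) : ℝ) : ℂ) * b)
        = ((1 + r : ℝ) : ℂ) * y := by
      rw [this]
      push_cast at h1rc ⊢
      field_simp
      ring
    exact mul_left_cancel₀ h1rc h3
  simpa [Complex.real_smul] using h2

theorem fr_poly {T : Set (Set ℂ)} {u U : ℝ} (h : NC T u U) {x : Set ℂ → ℂ} {H : Set (Set ℂ)}
    {w : Set ℂ → Set ℂ → ℝ} {ρ : Set ℂ → ℕ} {C g wm : ℝ} {D : ℕ} (hd : Drw T x H w ρ C g wm D) {v : ℂ} (hv : IsVertex T v) {y : ℂ} (hy : y ∈ Poly T x v)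
    (hy' : y ∉ interior (Poly T x v)) :
    ∃ s ∈ T, ∃ t ∈ T, Adj s t ∧ Head s t v ∧ y ∈ segment ℝ (x s) (x t) := by
  by_contra hno
  push Not at hno
  have hseg : ∀ p ∈ ring T v, y ∉ segment ℝ (x p.1) (x p.2) := by
    rintro p ⟨h1, h2, h3, h4⟩
    exact hno p.1 h1 p.2 h2 h3 h4
  have hin := aw_in h hd 1 (Or.inl rfl) (sigma_one h hd) hv y hseg hy
  rw [one_mul] at hin
  have hcont : ContinuousAt (fun y' : ℂ => ∑ p ∈ (ring_fin h v).toFinset, aw x y' p) y := by
    apply tendsto_finset_sum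
    intro p hp
    have hpr : p ∈ ring T v := by simpa using hp
    obtain ⟨hne, hsl⟩ := slit_of_not_seg_27078 (x p.1) (x p.2) y (hseg p hpr)
    have hc1 : ContinuousAt (fun y' : ℂ => (x p.2 - y') / (x p.1 - y')) y := by
      apply ContinuousAt.div
      · fun_prop
      · fun_prop
      · exact hne
    exact (Complex.continuousAt_arg hsl).comp_of_eq hc1 rfl
  have hpos : (0 : ℝ) < (fun y' : ℂ => ∑ p ∈ (ring_fin h v).toFinset, aw x y' p) y := by
    have := Real.pi_pos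
    simp only
    linarith
  have hev := hcont.eventually_const_lt hpos
  apply hy'
  rw [mem_interior_iff_mem_nhds]
  filter_upwards [hev] with y' hy2
  by_contra hy3
  have h0 := aw_out h x hv y' hy3
  rw [h0] at hy2
  exact lt_irrefl _ hy2

end J27078

alias fr_poly := J27078.fr_poly

namespace J27079

/-! ### TARGET of this job: dual_vertex -/

theorem dual_vertex {T : Set (Set ℂ)} {u U : ℝ} (h : NC T u U) {x : Set ℂ → ℂ} {H : Set (Set ℂ)}
    {w : Set ℂ → Set ℂ → ℝ} {ρ : Set ℂ → ℕ} {C g wm : ℝ} {D : ℕ} (hd : Drw T x H w ρ C g wm D) (y : ℂ) : IsVertex (Dl T x) y ↔ ∃ t ∈ T, y = x t := by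
  classical
  constructor
  · rintro ⟨P1, hP1, P2, hP2, P3, hP3, h12, h13, h23, hy1, hy2, hy3⟩
    obtain ⟨u', U', hN⟩ := nc_dual h hd
    obtain ⟨v1, hv1, rfl⟩ := hP1
    have hyi : y ∉ interior (Poly T x v1) := by
      intro hyi
      exact h12 (g_int hN ⟨v1, hv1, rfl⟩ hP2 hyi hy2).symm
    obtain ⟨s, hs, t, ht, hst, hhd, hseg⟩ := fr_poly h hd hv1 hy1 hyi
    by_cases hys : y = x s
    · exact ⟨s, hs, hys⟩
    by_cases hyt : y = x t
    · exact ⟨t, ht, hyt⟩
    exfalso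
    have hop : y ∈ openSegment ℝ (x s) (x t) :=
      mem_openSegment_of_ne_left_right (Ne.symm hys) (Ne.symm hyt) hseg
    obtain ⟨p, q, hpq, hI, hq, hp, hvp, hvq⟩ := g_head h hs ht hst
    obtain ⟨ε, hε, hball⟩ := edge_nbhd h hd hs ht hst hhd hp hop
    have hex : ∃ P ∈ Dl T x, P ≠ Poly T x v1 ∧ P ≠ Poly T x p ∧ y ∈ P := by
      by_cases h2 : P2 = Poly T x p
      · exact ⟨P3, hP3, Ne.symm h13, fun h3 => h23 (h2.trans h3.symm), hy3⟩
      · exact ⟨P2, hP2, Ne.symm h12, h2, hy2⟩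
    obtain ⟨P, hP, hPv, hPp, hyP⟩ := hex
    have hcl := (g_cl hN hP).1
    rw [← hcl] at hyP
    obtain ⟨z, hz1, hz2⟩ := Metric.mem_closure_iff.1 hyP ε hε
    have hzb : z ∈ ball y ε := by rw [Metric.mem_ball, dist_comm]; exact hz2
    rcases hball hzb with hz | hz
    · exact hPv (g_int hN hP ⟨v1, hv1, rfl⟩ hz1 hz).symm
    · exact hPp (g_int hN hP ⟨p, hvp, rfl⟩ hz1 hz).symm
  · rintro ⟨t, ht, rfl⟩
    obtain ⟨p, q, r, hpq, hpr, hqr, hp, hq, hr, hvp, hvq, hvr⟩ := g_3v h ht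
    exact ⟨Poly T x p, ⟨p, hvp, rfl⟩, Poly T x q, ⟨q, hvq, rfl⟩, Poly T x r, ⟨r, hvr, rfl⟩,
      fun he => hpq (poly_inj h hd hvp hvq he), fun he => hpr (poly_inj h hd hvp hvr he),
      fun he => hqr (poly_inj h hd hvq hvr he),
      subset_convexHull ℝ _ ⟨t, ht, hp, rfl⟩, subset_convexHull ℝ _ ⟨t, ht, hq, rfl⟩,
      subset_convexHull ℝ _ ⟨t, ht, hr, rfl⟩⟩

end J27079

alias dual_vertex := J27079.dual_vertex

namespace J27080

/-! ### TARGET of this job: dual_edge -/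

theorem dual_edge_end {p' q p0 q0 : ℂ} (h : segment ℝ p' q = segment ℝ p0 q0) :
    q = p0 ∨ q = q0 := by
  have hq : q ∈ segment ℝ p0 q0 := h ▸ right_mem_segment ℝ p' q
  have hp0 : p0 ∈ segment ℝ p' q := h.symm ▸ left_mem_segment ℝ p0 q0
  have hq0 : q0 ∈ segment ℝ p' q := h.symm ▸ right_mem_segment ℝ p0 q0
  obtain ⟨a, b, ha, hb, hab, e3⟩ := hq
  obtain ⟨α, α', hα, hα', hαs, e1⟩ := hp0
  obtain ⟨β, β', hβ, hβ', hβs, e2⟩ := hq0
  obtain rfl : α' = 1 - α := by linarith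
  obtain rfl : β' = 1 - β := by linarith
  obtain rfl : b = 1 - a := by linarith
  have key : (a * α + (1 - a) * β) • (p' - q) = 0 := by
    simp only [Complex.real_smul] at e1 e2 e3 ⊢
    push_cast at e1 e2 e3 ⊢
    linear_combination (a : ℂ) * e1 + (1 - (a : ℂ)) * e2 + e3
  rcases smul_eq_zero.1 key with h1 | h1
  · have h2 : a * α = 0 := by nlinarith [mul_nonneg ha hα, mul_nonneg hb hβ]
    rcases mul_eq_zero.1 h2 with h3 | h3
    · right
      rw [h3] at e3
      simpa using e3.symm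
    · left
      rw [h3] at e1
      simpa using e1
  · left
    have h2 : p' = q := sub_eq_zero.1 h1
    rw [h2, ← add_smul] at e1
    simpa using e1

theorem dual_edge_uniq {A B : Set ℂ} {q q0 : ℂ} (hint : (interior A).Nonempty) (h1 : Head A B q)
    (h2 : Head A B q0) : q = q0 := by
  obtain ⟨p1, hne1, hs1, hc1⟩ := h1
  obtain ⟨p2, hne2, hs2, hc2⟩ := h2
  have hs : segment ℝ p1 q = segment ℝ p2 q0 := hs1.symm.trans hs2
  rcases dual_edge_end hs with h | h
  · exfalso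
    have hs' : segment ℝ q p1 = segment ℝ p2 q0 := by rw [segment_symm]; exact hs
    rcases dual_edge_end hs' with h' | h'
    · exact hne1 (h'.trans h.symm)
    · obtain ⟨z, hz⟩ := hint
      have a1 := hc1 z hz
      have a2 := hc2 z hz
      rw [h'] at a1
      rw [← h] at a2
      have e : cross (q - q0) (z - q0) + cross (q0 - q) (z - q) = 0 := by
        simp only [cross, Complex.sub_re, Complex.sub_im]; ring
      linarith
  · exact h

theorem dual_edge_open {a b r1 r2 v : ℂ} (h1 : r1 ∈ segment ℝ a b) (h2 : r2 ∈ segment ℝ a b)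
    (hne : r1 ≠ r2) (hv : v ∈ openSegment ℝ r1 r2) : v ∈ openSegment ℝ a b := by
  obtain ⟨s1, t1, hs1, ht1, e1, rfl⟩ := h1
  obtain ⟨s2, t2, hs2, ht2, e2, rfl⟩ := h2
  obtain ⟨k, l, hk, hl, ekl, rfl⟩ := hv
  refine ⟨k * s1 + l * s2, k * t1 + l * t2, ?_, ?_, ?_, ?_⟩
  · rcases hs1.eq_or_lt with h | h
    · rcases hs2.eq_or_lt with h' | h'
      · exfalso
        apply hne
        have ht : t1 = t2 := by linarith
        rw [← h, ← h', ht]
      · have := mul_nonneg hk.le hs1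
        have := mul_pos hl h'
        linarith
    · have := mul_pos hk h
      have := mul_nonneg hl.le hs2
      linarith
  · rcases ht1.eq_or_lt with h | h
    · rcases ht2.eq_or_lt with h' | h'
      · exfalso
        apply hne
        have ht : s1 = s2 := by linarith
        rw [← h, ← h', ht]
      · have := mul_nonneg hk.le ht1
        have := mul_pos hl h'
        linarith
    · have := mul_pos hk h
      have := mul_nonneg hl.le ht2
      linarith
  · calc k * s1 + l * s2 + (k * t1 + l * t2) = k * (s1 + t1) + l * (s2 + t2) := by ring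
      _ = 1 := by rw [e1, e2]; linarith
  · simp only [smul_add, smul_smul, add_smul]
    abel

theorem dual_edge {T : Set (Set ℂ)} {u U : ℝ} (h : NC T u U) {x : Set ℂ → ℂ} {H : Set (Set ℂ)}
    {w : Set ℂ → Set ℂ → ℝ} {ρ : Set ℂ → ℕ} {C g wm : ℝ} {D : ℕ} (hd : Drw T x H w ρ C g wm D) {p q : ℂ} {s t : Set ℂ} (hs : s ∈ T) (ht : t ∈ T) (hst : Adj s t)
    (hq : Head s t q) (hp : Head t s p) : Poly T x q ∩ Poly T x p = segment ℝ (x s) (x t) := by
  have hint : ∀ A ∈ T, (interior A).Nonempty := by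
    intro A hA
    obtain ⟨c, hc⟩ := h.inr A hA
    exact ⟨c, mem_interior.2 ⟨ball c u, ball_subset_closedBall.trans hc, isOpen_ball,
      mem_ball_self h.upos⟩⟩
  have hts : Adj t s := ⟨hst.1.symm, by rw [inter_comm]; exact hst.2⟩
  obtain ⟨p0, q0, hpq0, hseg, hq0, hp0, hvp, hvq⟩ := g_head h hs ht hst
  have eq1 : q = q0 := dual_edge_uniq (hint s hs) hq hq0
  have ep1 : p = p0 := dual_edge_uniq (hint t ht) hp hp0
  subst eq1
  subst ep1
  have hpm : p ∈ s ∩ t := by rw [hseg]; exact left_mem_segment ℝ p q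
  have hqm : q ∈ s ∩ t := by rw [hseg]; exact right_mem_segment ℝ p q
  have hsq : x s ∈ Poly T x q := subset_convexHull ℝ _ ⟨s, hs, hqm.1, rfl⟩
  have htq : x t ∈ Poly T x q := subset_convexHull ℝ _ ⟨t, ht, hqm.2, rfl⟩
  have hsp : x s ∈ Poly T x p := subset_convexHull ℝ _ ⟨s, hs, hpm.1, rfl⟩
  have htp : x t ∈ Poly T x p := subset_convexHull ℝ _ ⟨t, ht, hpm.2, rfl⟩
  have hxne : x s ≠ x t := x_ne h hd s t hs ht hst
  obtain ⟨u', U', hNC⟩ := nc_dual h hd
  have hPq : Poly T x q ∈ Dl T x := ⟨q, hvq, rfl⟩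
  have hPp : Poly T x p ∈ Dl T x := ⟨p, hvp, rfl⟩
  have hPne : Poly T x q ≠ Poly T x p := fun he => hpq0 (poly_inj h hd hvq hvp he).symm
  have hadj : Adj (Poly T x q) (Poly T x p) :=
    ⟨hPne, x s, ⟨hsq, hsp⟩, x t, ⟨htq, htp⟩, hxne⟩
  obtain ⟨a, b, hab, hsegab, -, -, hopen⟩ := g_adj hNC hPq hPp hadj
  have hno : ∀ r1 ∈ Poly T x q ∩ Poly T x p, ∀ r2 ∈ Poly T x q ∩ Poly T x p, r1 ≠ r2 →
      ∀ t' ∈ T, x t' ∉ openSegment ℝ r1 r2 := by
    intro r1 hr1 r2 hr2 hr t' ht' hmem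
    rw [hsegab] at hr1 hr2
    have h1 := dual_edge_open hr1 hr2 hr hmem
    obtain ⟨A, hA, B, hB, C', hC, hAB, hAC, hBC, hxA, hxB, hxC⟩ := (dual_vertex h hd (x t')).2 ⟨t', ht', rfl⟩
    rcases hopen _ h1 A hA hxA with e1 | e1 <;> rcases hopen _ h1 B hB hxB with e2 | e2 <;>
      rcases hopen _ h1 C' hC hxC with e3 | e3
    · exact hAB (e1.trans e2.symm)
    · exact hAB (e1.trans e2.symm)
    · exact hAC (e1.trans e3.symm)
    · exact hBC (e2.trans e3.symm)
    · exact hBC (e2.trans e3.symm)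
    · exact hAC (e1.trans e3.symm)
    · exact hAB (e1.trans e2.symm)
    · exact hAB (e1.trans e2.symm)
  apply Subset.antisymm
  · rintro y ⟨hyq, hyp⟩
    have h1 := poly_left h hd hs ht hst hq hyq
    have h2 := poly_left h hd ht hs hts hp hyp
    have h3 : cross (x s - x t) (y - x t) = - cross (x t - x s) (y - x s) := by
      simp only [cross, Complex.sub_re, Complex.sub_im]; ring
    rw [h3] at h2
    have h4 : cross (x t - x s) (y - x s) = 0 := by linarith
    obtain ⟨d, hdd⟩ : ∃ d : ℂ, d = x t - x s := ⟨_, rfl⟩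
    rw [← hdd] at h4
    have hd0 : d ≠ 0 := by rw [hdd]; exact sub_ne_zero.2 hxne.symm
    have hn : 0 < d.re ^ 2 + d.im ^ 2 := by
      have h5 := Complex.normSq_pos.2 hd0
      rw [Complex.normSq_apply] at h5
      nlinarith
    obtain ⟨c, hc⟩ : ∃ c : ℝ, c = dot d (y - x s) / (d.re ^ 2 + d.im ^ 2) := ⟨_, rfl⟩
    have hyc : y = x s + (c : ℂ) * d := by
      have hcn : c * (d.re ^ 2 + d.im ^ 2) = dot d (y - x s) := by
        rw [hc, div_mul_cancel₀ _ hn.ne']
      have e1 : (y - x s).re * (d.re ^ 2 + d.im ^ 2) = c * d.re * (d.re ^ 2 + d.im ^ 2) := by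
        simp only [dot, cross] at hcn h4
        linear_combination (-d.re) * hcn + (-d.im) * h4
      have e2 : (y - x s).im * (d.re ^ 2 + d.im ^ 2) = c * d.im * (d.re ^ 2 + d.im ^ 2) := by
        simp only [dot, cross] at hcn h4
        linear_combination (-d.im) * hcn + (d.re) * h4
      have e1' := mul_right_cancel₀ hn.ne' e1
      have e2' := mul_right_cancel₀ hn.ne' e2
      apply Complex.ext
      · rw [Complex.add_re, Complex.re_ofReal_mul]
        rw [Complex.sub_re] at e1'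
        linarith
      · rw [Complex.add_im, Complex.im_ofReal_mul]
        rw [Complex.sub_im] at e2'
        linarith
    rcases lt_or_ge c 0 with hc0 | hc0
    · exfalso
      have hyne : x t ≠ y := by
        intro he
        have e3 : ((1 - c : ℝ) : ℂ) * d = 0 := by
          push_cast
          have : x t = x s + (c : ℂ) * d := he.trans hyc
          rw [hdd] at this ⊢
          linear_combination this
        rcases mul_eq_zero.1 e3 with h5 | h5
        · have : (1 - c : ℝ) = 0 := by exact_mod_cast h5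
          linarith
        · exact hd0 h5
      refine hno (x t) ⟨htq, htp⟩ y ⟨hyq, hyp⟩ hyne s hs ?_
      have h1c : (0 : ℝ) < 1 - c := by linarith
      refine ⟨-c / (1 - c), 1 / (1 - c), by apply div_pos <;> linarith, by positivity, ?_, ?_⟩
      · rw [← add_div, div_eq_one_iff_eq h1c.ne']; ring
      · rw [hyc, hdd]
        simp only [Complex.real_smul]
        push_cast
        have h1c' : (1 - (c : ℂ)) ≠ 0 := by exact_mod_cast h1c.ne'
        field_simp
        ring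
    rcases le_or_gt c 1 with hc1 | hc1
    · refine ⟨1 - c, c, by linarith, hc0, by ring, ?_⟩
      rw [hyc, hdd]
      simp only [Complex.real_smul]
      push_cast
      ring
    · exfalso
      have hyne : x s ≠ y := by
        intro he
        have e3 : (c : ℂ) * d = 0 := by
          have := he.trans hyc
          linear_combination -this
        rcases mul_eq_zero.1 e3 with h5 | h5
        · have : (c : ℝ) = 0 := by exact_mod_cast h5
          linarith
        · exact hd0 h5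
      refine hno (x s) ⟨hsq, hsp⟩ y ⟨hyq, hyp⟩ hyne t ht ?_
      have hcp : (0 : ℝ) < c := by linarith
      refine ⟨(c - 1) / c, 1 / c, by apply div_pos <;> linarith, by positivity, ?_, ?_⟩
      · rw [← add_div, div_eq_one_iff_eq hcp.ne']; ring
      · rw [hyc, hdd]
        simp only [Complex.real_smul]
        push_cast
        have hc' : (c : ℂ) ≠ 0 := by exact_mod_cast hcp.ne'
        field_simp
        ring
  · intro y hy
    exact ⟨(convex_convexHull ℝ _).segment_subset hsq htq hy,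
      (convex_convexHull ℝ _).segment_subset hsp htp hy⟩

end J27080

alias dual_edge := J27080.dual_edge

namespace J27081

/-! ### TARGET of this job: dual_adj -/

theorem dual_adj_head_unique {A B : Set ℂ} {v q : ℂ} (hne : (interior A).Nonempty)
    (h1 : Head A B v) (h2 : Head A B q) : v = q := by
  obtain ⟨p1, hp1, e1, c1⟩ := h1
  obtain ⟨p, hp, e2, c2⟩ := h2
  obtain ⟨z, hz⟩ := hne
  have c1z := c1 z hz
  have c2z := c2 z hz
  have hv : v ∈ segment ℝ p q := by
    rw [← e2, e1]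
    exact right_mem_segment ℝ _ _
  have hp1' : p1 ∈ segment ℝ p q := by
    rw [← e2, e1]
    exact left_mem_segment ℝ _ _
  have hq : q ∈ segment ℝ p1 v := by
    rw [← e1, e2]
    exact right_mem_segment ℝ _ _
  obtain ⟨a1, τ, ha1, hτ, hs1, hv⟩ := hv
  obtain ⟨a2, σ, ha2, hσ, hs2, hp1e⟩ := hp1'
  obtain ⟨a3, ρ, ha3, hρ, hs3, hqe⟩ := hq
  have vr : v.re = a1 * p.re + τ * q.re := by rw [← hv]; simp
  have vi : v.im = a1 * p.im + τ * q.im := by rw [← hv]; simp
  have pr : p1.re = a2 * p.re + σ * q.re := by rw [← hp1e]; simp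
  have pi : p1.im = a2 * p.im + σ * q.im := by rw [← hp1e]; simp
  have qr : q.re = a3 * p1.re + ρ * v.re := by
    have := congrArg Complex.re hqe
    simpa using this.symm
  have qi : q.im = a3 * p1.im + ρ * v.im := by
    have := congrArg Complex.im hqe
    simpa using this.symm
  have e1' : a1 = 1 - τ := by linarith
  have e2' : a2 = 1 - σ := by linarith
  have e3' : a3 = 1 - ρ := by linarith
  subst e1' e2' e3'
  have hcr : cross (v - p1) (z - p1) = (τ - σ) * cross (q - p) (z - p) := by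
    simp only [cross, Complex.sub_re, Complex.sub_im, vr, vi, pr, pi]
    ring
  rw [hcr] at c1z
  have hτσ : 0 < τ - σ := by
    by_contra hcon
    push Not at hcon
    have := mul_nonpos_of_nonpos_of_nonneg hcon c2z.le
    linarith
  have hlam : σ + ρ * (τ - σ) = 1 := by
    by_contra hcon
    apply hp
    have k1 : (1 - (σ + ρ * (τ - σ))) * (q.re - p.re) = 0 := by
      rw [pr, vr] at qr
      linear_combination qr
    have k2 : (1 - (σ + ρ * (τ - σ))) * (q.im - p.im) = 0 := by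
      rw [pi, vi] at qi
      linear_combination qi
    have k0 : 1 - (σ + ρ * (τ - σ)) ≠ 0 := fun h => hcon (by linarith)
    have k3 := (mul_eq_zero.1 k1).resolve_left k0
    have k4 := (mul_eq_zero.1 k2).resolve_left k0
    exact Complex.ext (by linarith) (by linarith)
  have hτ1 : τ = 1 := by
    have h5 : ρ ≤ 1 := by linarith
    have h6 : ρ * (τ - σ) ≤ 1 * (τ - σ) := mul_le_mul_of_nonneg_right h5 hτσ.le
    linarith
  rw [hτ1] at vr vi
  exact Complex.ext (by linarith) (by linarith)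

theorem dual_adj {T : Set (Set ℂ)} {u U : ℝ} (h : NC T u U) {x : Set ℂ → ℂ} {H : Set (Set ℂ)}
    {w : Set ℂ → Set ℂ → ℝ} {ρ : Set ℂ → ℕ} {C g wm : ℝ} {D : ℕ} (hd : Drw T x H w ρ C g wm D) {v v' : ℂ} (hv : IsVertex T v) (hv' : IsVertex T v')
    (ha : Adj (Poly T x v) (Poly T x v')) :
    ∃ s ∈ T, ∃ t ∈ T, Adj s t ∧ Head s t v ∧ Head t s v' := by
  obtain ⟨u', U', hN⟩ := nc_dual h hd
  have hA : Poly T x v ∈ Dl T x := ⟨v, hv, rfl⟩
  have hB : Poly T x v' ∈ Dl T x := ⟨v', hv', rfl⟩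
  obtain ⟨a, b, hab, hseg, _, _, hopen⟩ := g_adj hN hA hB ha
  have hy : midpoint ℝ a b ∈ openSegment ℝ a b :=
    ⟨1 / 2, 1 / 2, by norm_num, by norm_num, by norm_num, by
      rw [midpoint_eq_smul_add, smul_add]
      norm_num⟩
  have hyAB : midpoint ℝ a b ∈ Poly T x v ∩ Poly T x v' := by
    rw [hseg]
    exact openSegment_subset_segment ℝ a b hy
  have hyint : midpoint ℝ a b ∉ interior (Poly T x v) := fun hi =>
    ha.1 (g_int hN hA hB hi hyAB.2).symm
  obtain ⟨s, hs, t, ht, hst, hhead, hyst⟩ := fr_poly h hd hv hyAB.1 hyint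
  obtain ⟨p, q, hpq, hseg2, hq, hp, hvp, hvq⟩ := g_head h hs ht hst
  have hne : (interior s).Nonempty := by
    obtain ⟨c, hc⟩ := h.inr s hs
    refine ⟨c, ?_⟩
    exact interior_mono hc (ball_subset_interior_closedBall (mem_ball_self h.upos))
  have hvq' : v = q := dual_adj_head_unique hne hhead hq
  have hps : p ∈ s ∩ t := by
    rw [hseg2]
    exact left_mem_segment ℝ _ _
  have hyp : midpoint ℝ a b ∈ Poly T x p := by
    have h1 : x s ∈ Poly T x p := subset_convexHull ℝ _ ⟨s, hs, hps.1, rfl⟩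
    have h2 : x t ∈ Poly T x p := subset_convexHull ℝ _ ⟨t, ht, hps.2, rfl⟩
    exact (convex_convexHull ℝ _).segment_subset h1 h2 hyst
  rcases hopen _ hy (Poly T x p) ⟨p, hvp, rfl⟩ hyp with he | he
  · exact absurd ((poly_inj h hd hvp hv he).trans hvq') hpq
  · have := poly_inj h hd hvp hv' he
    exact ⟨s, hs, t, ht, hst, hhead, this ▸ hp⟩

end J27081

alias dual_adj := J27081.dual_adj

namespace J27082

/-! ### TARGET of this job: conv_sub -/

theorem conv_sub {T : Set (Set ℂ)} {u U : ℝ} (h : NC T u U) {x : Set ℂ → ℂ} {H : Set (Set ℂ)}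
    {w : Set ℂ → Set ℂ → ℝ} {ρ : Set ℂ → ℕ} {C g wm : ℝ} {D : ℕ} (hd : Drw T x H w ρ C g wm D) (a : Set ℂ) (ha : a ∈ elements T) {t : Set ℂ} (ht : t ∈ T)
    (hx : x t ∈ convexHull ℝ {z | ∃ s ∈ T, a ⊆ s ∧ z = x s}) : a ⊆ t := by
  rcases ha with ha | ha | ⟨v, hv, rfl⟩
  · obtain ⟨hcl, p, hp⟩ := g_cl h ha
    have hset : {z | ∃ s ∈ T, a ⊆ s ∧ z = x s} ⊆ {x a} := by
      rintro z ⟨s, hs, has, rfl⟩
      have : s = a := g_int h ha hs hp (has (interior_subset hp))
      rw [this]; rfl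
    have h1 := convexHull_mono hset hx
    rw [convexHull_singleton, mem_singleton_iff] at h1
    rw [x_inj h hd ht ha h1]
  · obtain ⟨A, hA, B, hB, had, rfl⟩ := (g_edge h a).1 ha
    obtain ⟨p, q, hpq, hseg, hq, hp, hvp, hvq⟩ := g_head h hA hB had
    obtain ⟨p', q', hpq', hseg', _, _, hopen⟩ := g_adj h hA hB had
    have hmid : midpoint ℝ p' q' ∈ openSegment ℝ p' q' := midpoint_mem_openSegment p' q'
    have hset : {z | ∃ s ∈ T, A ∩ B ⊆ s ∧ z = x s} ⊆ {x A, x B} := by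
      rintro z ⟨s, hs, has, rfl⟩
      have hm : midpoint ℝ p' q' ∈ s := by
        apply has
        rw [hseg']
        exact openSegment_subset_segment ℝ _ _ hmid
      rcases hopen _ hmid s hs hm with h1 | h1
      · rw [h1]; exact Or.inl rfl
      · rw [h1]; exact Or.inr rfl
    have h1 := convexHull_mono hset hx
    rw [convexHull_pair, ← dual_edge h hd hA hB had hq hp] at h1
    have h2 := dual_in h hd ht hvq h1.1
    have h3 := dual_in h hd ht hvp h1.2
    rw [hseg]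
    exact (h.conv t ht).segment_subset h3 h2
  · rw [singleton_subset_iff]
    apply dual_in h hd ht hv
    unfold Poly
    have : {z | ∃ s ∈ T, {v} ⊆ s ∧ z = x s} = {z | ∃ t ∈ T, v ∈ t ∧ z = x t} := by
      simp only [singleton_subset_iff]
    rw [← this]
    exact hx

end J27082

alias conv_sub := J27082.conv_sub

namespace J27083

/-! ### TARGET of this job: is_dual -/

/-- the dual element -/
def is_dual_P (T : Set (Set ℂ)) (x : Set ℂ → ℂ) (a : Set ℂ) : Set ℂ :=
  convexHull ℝ {z | ∃ s ∈ T, a ⊆ s ∧ z = x s}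

theorem is_dual_tile {T : Set (Set ℂ)} {u U : ℝ} (h : NC T u U) (x : Set ℂ → ℂ) {a : Set ℂ}
    (ha : a ∈ T) : is_dual_P T x a = {x a} := by
  have h1 : {z | ∃ s ∈ T, a ⊆ s ∧ z = x s} = {x a} := by
    ext z
    simp only [Set.mem_setOf_eq, Set.mem_singleton_iff]
    constructor
    · rintro ⟨s, hs, has, rfl⟩
      obtain ⟨p, hp⟩ := (g_cl h ha).2
      rw [g_int h ha hs hp (has (interior_subset hp))]
    · rintro rfl
      exact ⟨a, ha, Subset.rfl, rfl⟩
  unfold is_dual_P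
  rw [h1, convexHull_singleton]

theorem is_dual_seg {T : Set (Set ℂ)} {u U : ℝ} (h : NC T u U) (x : Set ℂ → ℂ) {A B : Set ℂ}
    (hA : A ∈ T) (hB : B ∈ T) (hAB : Adj A B) :
    is_dual_P T x (A ∩ B) = segment ℝ (x A) (x B) := by
  obtain ⟨p, q, hpq, hseg, _, _, hopen⟩ := g_adj h hA hB hAB
  have h1 : {z | ∃ s ∈ T, A ∩ B ⊆ s ∧ z = x s} = {x A, x B} := by
    ext z
    simp only [Set.mem_setOf_eq, Set.mem_insert_iff, Set.mem_singleton_iff]
    constructor
    · rintro ⟨s, hs, has, rfl⟩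
      have hmid : midpoint ℝ p q ∈ openSegment ℝ p q := midpoint_mem_openSegment p q
      have hms : midpoint ℝ p q ∈ s := has (by rw [hseg]; exact openSegment_subset_segment ℝ p q hmid)
      rcases hopen _ hmid s hs hms with h2 | h2
      · left; rw [h2]
      · right; rw [h2]
    · rintro (rfl | rfl)
      · exact ⟨A, hA, inter_subset_left, rfl⟩
      · exact ⟨B, hB, inter_subset_right, rfl⟩
  unfold is_dual_P
  rw [h1, convexHull_pair]

theorem is_dual_vert (T : Set (Set ℂ)) (x : Set ℂ → ℂ) (v : ℂ) :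
    is_dual_P T x {v} = Poly T x v := by
  unfold is_dual_P Poly
  simp only [Set.singleton_subset_iff]

theorem is_dual {T : Set (Set ℂ)} {u U : ℝ} (h : NC T u U) {x : Set ℂ → ℂ} {H : Set (Set ℂ)}
    {w : Set ℂ → Set ℂ → ℝ} {ρ : Set ℂ → ℕ} {C g wm : ℝ} {D : ℕ} (hd : Drw T x H w ρ C g wm D) : IsDual T (Dl T x) := by
  obtain ⟨u', U', hD⟩ := nc_dual h hd
  have hmem : ∀ a ∈ elements T, is_dual_P T x a ∈ elements (Dl T x) := by
    intro a ha
    rcases ha with ha | ha | ⟨v, hv, rfl⟩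
    · rw [is_dual_tile h x ha]
      exact Or.inr (Or.inr ⟨x a, (dual_vertex h hd (x a)).2 ⟨a, ha, rfl⟩, rfl⟩)
    · obtain ⟨A, hA, B, hB, hAB, rfl⟩ := (g_edge h a).1 ha
      rw [is_dual_seg h x hA hB hAB]
      obtain ⟨p, q, hpq, _, hq, hp, hvp, hvq⟩ := g_head h hA hB hAB
      right; left
      rw [g_edge hD]
      have hde := dual_edge h hd hA hB hAB hq hp
      refine ⟨Poly T x q, ⟨q, hvq, rfl⟩, Poly T x p, ⟨p, hvp, rfl⟩, ⟨?_, ?_⟩, hde.symm⟩
      · intro he
        exact hpq (poly_inj h hd hvq hvp he).symm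
      · rw [hde]
        exact ⟨x A, left_mem_segment ℝ _ _, x B, right_mem_segment ℝ _ _, fun he =>
          hAB.1 (x_inj h hd hA hB he)⟩
    · rw [is_dual_vert]
      exact Or.inl ⟨v, hv, rfl⟩
  have hord : ∀ a ∈ elements T, ∀ b ∈ elements T,
      (is_dual_P T x b ⊆ is_dual_P T x a ↔ a ⊆ b) := by
    intro a ha b hb
    constructor
    · intro hsub
      rw [g_elem h b hb]
      intro z hz t ht
      have h1 : x t ∈ is_dual_P T x b := subset_convexHull ℝ _ ⟨t, ht.1, ht.2, rfl⟩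
      exact conv_sub h hd a ha ht.1 (hsub h1) hz
    · intro hab
      apply convexHull_mono
      rintro z ⟨s, hs, hbs, rfl⟩
      exact ⟨s, hs, hab.trans hbs, rfl⟩
  have hbij : Function.Bijective (fun a : elements T =>
      (⟨is_dual_P T x a, hmem a a.2⟩ : elements (Dl T x))) := by
    constructor
    · intro a b hab
      have h1 : is_dual_P T x a = is_dual_P T x b := congrArg Subtype.val hab
      apply Subtype.ext
      apply Subset.antisymm
      · exact (hord a a.2 b b.2).1 h1.symm.subset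
      · exact (hord b b.2 a a.2).1 h1.subset
    · rintro ⟨e, he⟩
      rcases he with ⟨v, hv, rfl⟩ | he | ⟨p, hp, rfl⟩
      · exact ⟨⟨{v}, Or.inr (Or.inr ⟨v, hv, rfl⟩)⟩, Subtype.ext (is_dual_vert T x v)⟩
      · obtain ⟨P, ⟨v, hv, rfl⟩, Q, ⟨v', hv', rfl⟩, hPQ, rfl⟩ := (g_edge hD e).1 he
        obtain ⟨s, hs, t, ht, hst, h1, h2⟩ := dual_adj h hd hv hv' hPQ
        refine ⟨⟨s ∩ t, Or.inr (Or.inl ((g_edge h _).2 ⟨s, hs, t, ht, hst, rfl⟩))⟩,
          Subtype.ext ?_⟩
        exact (is_dual_seg h x hs ht hst).trans (dual_edge h hd hs ht hst h1 h2).symm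
      · obtain ⟨t, ht, rfl⟩ := (dual_vertex h hd p).1 hp
        exact ⟨⟨t, Or.inl ht⟩, Subtype.ext (is_dual_tile h x ht)⟩
  exact ⟨Equiv.ofBijective _ hbij, fun a b => hord a a.2 b b.2⟩

end J27083

alias is_dual := J27083.is_dual

namespace J27084

/-! ### TARGET of this job: main -/

theorem main (T : Set (Set ℂ)) (hT : IsNormal T) (hc : ∀ A ∈ T, IsConvexPolygon A) :
    ∃ T' : Set (Set ℂ), IsNormal T' ∧ (∀ A ∈ T', IsConvexPolygon A) ∧ IsDual T T' := by
  have hconv : ∀ A ∈ T, Convex ℝ A := by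
    intro A hA
    obtain ⟨s, rfl⟩ := hc A hA
    exact convex_convexHull ℝ _
  obtain ⟨u, U, h⟩ := nc_of_normal T hT hconv
  obtain ⟨x, H, w, ρ, C, g, wm, D, hd⟩ := drw_ex h
  obtain ⟨u', U', h'⟩ := nc_dual h hd
  refine ⟨Dl T x, normal_of_nc h', ?_, is_dual h hd⟩
  rintro A ⟨v, -, rfl⟩
  obtain ⟨N, hN⟩ := g_locfin h 1
  have hfin : {z | ∃ t ∈ T, v ∈ t ∧ z = x t}.Finite := by
    refine ((hN v).1.image x).subset ?_
    rintro z ⟨t, ht, hvt, rfl⟩
    exact ⟨t, ⟨ht, v, hvt, mem_closedBall_self zero_le_one⟩, rfl⟩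
  refine ⟨hfin.toFinset, ?_⟩
  rw [Set.Finite.coe_toFinset]
  rfl

end J27084

alias main := J27084.main


end Pool.Agent.H502.Nt
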