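import Mathlib

set_option autoImplicit false

namespace Pool.Agent.H502.Nt

/-!
Definitions for normal tilings of the Euclidean plane and their duals.
-/

open Set Metric

/-- A tiling of the Euclidean plane `ℂ`. -/
structure IsTiling (T : Set (Set ℂ)) : Prop where
  countable : T.Countable
  closed : ∀ A ∈ T, IsClosed A
  cover : ⋃₀ T = univ
  disj : ∀ A ∈ T, ∀ B ∈ T, A ≠ B → Disjoint (interior A) (interior B)

/-- A normal tiling: (N.1), (N.2), (N.3). -/
structure IsNormal (T : Set (Set ℂ)) : Prop where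
  tiling : IsTiling T
  disk : ∀ A ∈ T, Nonempty (A ≃ₜ closedBall (0 : ℂ) 1)
  inter : ∀ A ∈ T, ∀ B ∈ T, A ≠ B → IsPreconnected (A ∩ B)
  bounded : ∃ u U : ℝ, 0 < u ∧ u ≤ U ∧
    ∀ A ∈ T, (∃ c, closedBall c u ⊆ A) ∧ (∃ c, A ⊆ closedBall c U)

/-- A vertex of a tiling: a point in at least three tiles. -/
def IsVertex (T : Set (Set ℂ)) (p : ℂ) : Prop :=
  ∃ A ∈ T, ∃ B ∈ T, ∃ C ∈ T, A ≠ B ∧ A ≠ C ∧ B ≠ C ∧ p ∈ A ∧ p ∈ B ∧ p ∈ C

/-- An edge of a tiling: the closed arcs into which the vertices divide the boundary of a tile. -/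
def IsEdge (T : Set (Set ℂ)) (e : Set ℂ) : Prop :=
  ∃ A ∈ T, ∃ p ∈ frontier A \ {q | IsVertex T q},
    e = closure (connectedComponentIn (frontier A \ {q | IsVertex T q}) p)

/-- The elements of a tiling: tiles, edges and vertices. -/
def elements (T : Set (Set ℂ)) : Set (Set ℂ) :=
  {e | e ∈ T ∨ IsEdge T e ∨ ∃ p, IsVertex T p ∧ e = {p}}

/-- Duality of tilings: an inclusion-reversing bijection between the elements. -/
def IsDual (T T' : Set (Set ℂ)) : Prop :=
  ∃ Ψ : elements T ≃ elements T', ∀ a b : elements T,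
    ((Ψ b : Set ℂ) ⊆ (Ψ a : Set ℂ) ↔ (a : Set ℂ) ⊆ (b : Set ℂ))

/-- A convex polygon. -/
def IsConvexPolygon (A : Set ℂ) : Prop := ∃ s : Finset ℂ, A = convexHull ℝ (s : Set ℂ)

end Pool.Agent.H502.Nt
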