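import Pool.Agent.H502.PcDefs
set_option autoImplicit false

namespace Pool.Agent.H502.Pc

section basics

variable {α : Type} (M : Chain α)

namespace J15952

/-! ### TARGET of this job: hit_nonneg -/

theorem hit_nonneg (T : Set M.S) (n : ℕ) (s : M.S) : 0 ≤ M.hit T n s := by
  induction n generalizing s with
  | zero =>
    simp only [Chain.hit]
    split_ifs
    · exact zero_le_one
    · exact le_refl _
  | succ n ih =>
    simp only [Chain.hit]
    split_ifs
    · exact zero_le_one
    · exact Finset.sum_nonneg fun u _ => mul_nonneg (M.nonneg s u) (ih u)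

end J15952

alias hit_nonneg := J15952.hit_nonneg

namespace J15953

/-! ### TARGET of this job: hit_le_one -/

theorem hit_le_one (T : Set M.S) (n : ℕ) (s : M.S) : M.hit T n s ≤ 1 := by
  induction n generalizing s with
  | zero =>
    unfold Chain.hit
    split_ifs <;> norm_num
  | succ n ih =>
    unfold Chain.hit
    split_ifs
    · exact le_refl _
    · calc ∑ u, M.P s u * M.hit T n u ≤ ∑ u, M.P s u * 1 :=
          Finset.sum_le_sum fun u _ => mul_le_mul_of_nonneg_left (ih u) (M.nonneg s u)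
        _ = 1 := by simp only [mul_one]; exact M.row s

end J15953

alias hit_le_one := J15953.hit_le_one

namespace J15954

/-! ### TARGET of this job: hit_mono_n -/

theorem hit_mono_n (T : Set M.S) (s : M.S) : Monotone (fun n => M.hit T n s) := by
  apply monotone_nat_of_le_succ
  intro n
  induction n generalizing s with
  | zero =>
    by_cases hs : s ∈ T
    · simp [Chain.hit, hs]
    · have h1 := hit_nonneg M T 1 s
      simp only [Chain.hit, if_neg hs] at h1 ⊢
      exact h1
  | succ n ih =>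
    by_cases hs : s ∈ T
    · simp [Chain.hit, hs]
    · change M.hit T (n + 1) s ≤ M.hit T (n + 1 + 1) s
      rw [Chain.hit, Chain.hit, if_neg hs, if_neg hs]
      exact Finset.sum_le_sum fun u _ => mul_le_mul_of_nonneg_left (ih u) (M.nonneg s u)

end J15954

alias hit_mono_n := J15954.hit_mono_n

namespace J15955

/-! ### TARGET of this job: hit_mono_T -/

theorem hit_le_one_aux (T : Set M.S) (n : ℕ) (s : M.S) : M.hit T n s ≤ 1 := by
  induction n generalizing s with
  | zero =>
    rw [Chain.hit]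
    split_ifs
    · exact le_refl _
    · exact zero_le_one
  | succ n ih =>
    rw [Chain.hit]
    split_ifs
    · exact le_refl _
    · calc ∑ u, M.P s u * M.hit T n u ≤ ∑ u, M.P s u * 1 :=
            Finset.sum_le_sum fun u _ => mul_le_mul_of_nonneg_left (ih u) (M.nonneg s u)
        _ = 1 := by simp only [mul_one]; exact M.row s

theorem hit_mono_T (T T' : Set M.S) (h : T ⊆ T') (n : ℕ) (s : M.S) :
    M.hit T n s ≤ M.hit T' n s := by
  induction n generalizing s with
  | zero =>
    by_cases hs : s ∈ T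
    · rw [Chain.hit, Chain.hit, if_pos hs, if_pos (h hs)]
    · rw [Chain.hit, Chain.hit, if_neg hs]
      split_ifs
      · exact zero_le_one
      · exact le_refl _
  | succ n ih =>
    by_cases hs' : s ∈ T'
    · have h1 := hit_le_one_aux M T (n + 1) s
      have h2 : M.hit T' (n + 1) s = 1 := by rw [Chain.hit, if_pos hs']
      rw [h2]
      exact h1
    · have hs : s ∉ T := fun hh => hs' (h hh)
      rw [Chain.hit, Chain.hit, if_neg hs, if_neg hs']
      exact Finset.sum_le_sum fun u _ => mul_le_mul_of_nonneg_left (ih u) (M.nonneg s u)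

end J15955

alias hit_mono_T := J15955.hit_mono_T

namespace J15957

/-! ### TARGET of this job: prF_nonneg -/

theorem prF_nonneg (T : Set M.S) (s : M.S) : 0 ≤ M.prF T s := by
  unfold Chain.prF
  have hb : BddAbove (Set.range fun n => M.hit T n s) := by
    refine ⟨1, ?_⟩
    rintro x ⟨n, rfl⟩
    exact hit_le_one M T n s
  exact le_ciSup_of_le hb 0 (hit_nonneg M T 0 s)

end J15957

alias prF_nonneg := J15957.prF_nonneg

namespace J15958

/-! ### TARGET of this job: prF_le_one -/

theorem prF_le_one (T : Set M.S) (s : M.S) : M.prF T s ≤ 1 :=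
  ciSup_le fun n => hit_le_one M T n s


end J15958

alias prF_le_one := J15958.prF_le_one

namespace J15959

/-! ### TARGET of this job: prF_mono -/

theorem prF_mono (T T' : Set M.S) (h : T ⊆ T') (s : M.S) : M.prF T s ≤ M.prF T' s := by
  unfold Chain.prF
  refine ciSup_mono ⟨1, ?_⟩ (fun n => hit_mono_T M T T' h n s)
  rintro _ ⟨n, rfl⟩
  exact hit_le_one M T' n s

end J15959

alias prF_mono := J15959.prF_mono

namespace J15960

/-! ### TARGET of this job: prF_mem -/

theorem prF_mem (T : Set M.S) (s : M.S) (h : s ∈ T) : M.prF T s = 1 := by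
  have h1 : ∀ n, M.hit T n s = 1 := by
    intro n
    cases n <;> simp [Chain.hit, h]
  unfold Chain.prF
  simp only [h1]
  exact ciSup_const

end J15960

alias prF_mem := J15960.prF_mem

namespace J15961

/-! ### TARGET of this job: prF_step -/

theorem prF_step (T : Set M.S) (s : M.S) (h : s ∉ T) :
    M.prF T s = ∑ u, M.P s u * M.prF T u := by
  have ht : ∀ x, Filter.Tendsto (fun n => M.hit T n x) Filter.atTop (nhds (M.prF T x)) := by
    intro x
    refine tendsto_atTop_ciSup (hit_mono_n M T x) ?_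
    exact ⟨1, by rintro _ ⟨n, rfl⟩; exact hit_le_one M T n x⟩
  have h1 : Filter.Tendsto (fun n => M.hit T (n+1) s) Filter.atTop (nhds (M.prF T s)) :=
    (Filter.tendsto_add_atTop_iff_nat 1).2 (ht s)
  have h2 : Filter.Tendsto (fun n => ∑ u, M.P s u * M.hit T n u) Filter.atTop
      (nhds (∑ u, M.P s u * M.prF T u)) :=
    tendsto_finset_sum _ (fun u _ => (ht u).const_mul _)
  have h3 : (fun n => M.hit T (n+1) s) = (fun n => ∑ u, M.P s u * M.hit T n u) := by
    funext n
    simp [Chain.hit, h]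
  rw [h3] at h1
  exact tendsto_nhds_unique h1 h2

end J15961

alias prF_step := J15961.prF_step

namespace J15962

/-! ### TARGET of this job: prF_leaf -/

theorem prF_leaf (T : Set M.S) (s : M.S) (h : s ∉ T) (hl : ∀ u, u ≠ s → M.P s u = 0) :
    M.prF T s = 0 := by
  have h0 : ∀ n, M.hit T n s = 0 := by
    intro n
    induction n with
    | zero => rw [Chain.hit, if_neg h]
    | succ n ih =>
      rw [Chain.hit, if_neg h]
      apply Finset.sum_eq_zero
      intro u _
      by_cases hu : u = s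
      · subst hu
        rw [ih, mul_zero]
      · rw [hl u hu, zero_mul]
  unfold Chain.prF
  simp [h0]

end J15962

alias prF_leaf := J15962.prF_leaf

/-- proper edges -/
def Ed (s u : M.S) : Prop := 0 < M.P s u ∧ u ≠ s

/-- reachability -/
def Rc : M.S → M.S → Prop := Relation.ReflTransGen (Ed M)

namespace J15963

/-! ### TARGET of this job: tree_wf -/

theorem tree_wf (h : M.TreeLike) : WellFounded (fun u s => Relation.TransGen (Ed M) s u) := by
  obtain ⟨r, par, d, hr, hd, he, hl⟩ := h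
  have hE : ∀ s u, Ed M s u → d u = d s + 1 := by
    rintro s u ⟨h1, h2⟩
    obtain ⟨h3, h4⟩ := (he s u (fun h => h2 h.symm)).1 h1
    rw [hd u h3, h4]
  have hT : ∀ s u, Relation.TransGen (Ed M) s u → d s < d u := by
    intro s u h
    induction h with
    | single h => rw [hE _ _ h]; omega
    | tail _ h ih => rw [hE _ _ h]; omega
  obtain ⟨B, hB⟩ : ∃ B, ∀ s, d s ≤ B := by
    refine ⟨∑ s, d s, fun s => ?_⟩
    exact Finset.single_le_sum (f := d) (fun _ _ => Nat.zero_le _) (Finset.mem_univ s)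
  refine Subrelation.wf (r := fun u s => B - d u < B - d s) ?_ (measure fun s => B - d s).wf
  intro u s h
  have h1 := hT _ _ h
  have h2 := hB u
  omega


end J15963

alias tree_wf := J15963.tree_wf

namespace J15964

/-! ### TARGET of this job: tree_loop -/

theorem tree_loop (h : M.TreeLike) (s : M.S) (hs : M.P s s ≠ 0) : ∀ u, u ≠ s → M.P s u = 0 := by
  obtain ⟨r, par, d, hd0, hd1, h1, h2⟩ := h
  intro u hu
  by_contra hne
  have hpos : 0 < M.P s s := lt_of_le_of_ne (M.nonneg s s) (Ne.symm hs)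
  have hpos' : 0 < M.P s u := lt_of_le_of_ne (M.nonneg s u) (Ne.symm hne)
  obtain ⟨h3, h4⟩ := (h1 s u (Ne.symm hu)).mp hpos'
  exact (h2 s).mp hpos u h3 h4

end J15964

alias tree_loop := J15964.tree_loop

namespace J15965

/-! ### TARGET of this job: rc_zero -/

theorem rc_zero (T : Set M.S) (s u : M.S) (h : M.prF T s = 0) (hr : Rc M s u) :
    u ∉ T ∧ M.prF T u = 0 := by
  have key : ∀ w : M.S, M.prF T w = 0 → w ∉ T := by
    intro w hw hT
    have h1 := prF_mem M T w hT
    rw [hw] at h1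
    exact zero_ne_one h1
  have hz : M.prF T u = 0 := by
    unfold Rc at hr
    induction hr with
    | refl => exact h
    | @tail b c _ hbc ih =>
      have hb : b ∉ T := key b ih
      have hs := prF_step M T b hb
      rw [ih] at hs
      have hn : ∀ x ∈ (Finset.univ : Finset M.S), 0 ≤ M.P b x * M.prF T x := by
        intro x _
        exact mul_nonneg (M.nonneg b x) (prF_nonneg M T x)
      have h0 := (Finset.sum_eq_zero_iff_of_nonneg hn).1 hs.symm c (Finset.mem_univ c)
      rcases mul_eq_zero.1 h0 with h2 | h2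
      · exact absurd h2 (ne_of_gt hbc.1)
      · exact h2
  exact ⟨key u hz, hz⟩

end J15965

alias rc_zero := J15965.rc_zero

namespace J15966

/-! ### TARGET of this job: decomp -/

theorem decomp (h : M.TreeLike) (H : Set M.S) (s : M.S) (hs : M.prF H s = 1) :
    ∃ a : M.S → ℝ, (∀ u, 0 ≤ a u) ∧ (∀ u, a u ≠ 0 → u ∈ H ∧ Rc M s u) ∧ ∑ u, a u = 1 ∧
      ∀ E : Set M.S, (∀ x, Rc M s x → x ∈ E → x ∈ H ∨ M.prF H x < 1) →
        M.prF E s = ∑ u, a u * M.prF E u := by
  classical
  revert hs
  refine (tree_wf M h).induction (C := fun s => M.prF H s = 1 → ∃ a : M.S → ℝ,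
    (∀ u, 0 ≤ a u) ∧ (∀ u, a u ≠ 0 → u ∈ H ∧ Rc M s u) ∧ ∑ u, a u = 1 ∧
      ∀ E : Set M.S, (∀ x, Rc M s x → x ∈ E → x ∈ H ∨ M.prF H x < 1) →
        M.prF E s = ∑ u, a u * M.prF E u) s ?_
  intro s ih hs
  by_cases hsH : s ∈ H
  · refine ⟨fun u => if u = s then 1 else 0, ?_, ?_, ?_, ?_⟩
    · intro u
      dsimp only
      split_ifs <;> norm_num
    · intro u hu
      have : u = s := by
        by_contra hne
        simp [hne] at hu
      subst this
      exact ⟨hsH, Relation.ReflTransGen.refl⟩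
    · simp
    · intro E _
      simp
  · have hss : M.P s s = 0 := by
      by_contra hne
      have := prF_leaf M H s hsH (tree_loop M h s hne)
      rw [this] at hs
      norm_num at hs
    have hstep := prF_step M H s hsH
    have hone : ∀ u, M.P s u ≠ 0 → M.prF H u = 1 := by
      have hsum : ∑ u, M.P s u * (1 - M.prF H u) = 0 := by
        simp only [mul_sub, mul_one, Finset.sum_sub_distrib, M.row, ← hstep, hs]
        norm_num
      have hnn : ∀ u ∈ Finset.univ, 0 ≤ M.P s u * (1 - M.prF H u) := fun u _ =>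
        mul_nonneg (M.nonneg s u) (sub_nonneg.2 (prF_le_one M H u))
      rw [Finset.sum_eq_zero_iff_of_nonneg hnn] at hsum
      intro u hu
      have := hsum u (Finset.mem_univ u)
      rcases mul_eq_zero.1 this with h1 | h1
      · exact absurd h1 hu
      · linarith
    have hEd : ∀ u, M.P s u ≠ 0 → Ed M s u := fun u hu =>
      ⟨lt_of_le_of_ne (M.nonneg s u) (Ne.symm hu), by rintro rfl; exact hu hss⟩
    have key : ∀ u, ∃ A : M.S → ℝ, (∀ x, 0 ≤ A x) ∧ (M.P s u ≠ 0 →
        (∀ x, A x ≠ 0 → x ∈ H ∧ Rc M u x) ∧ ∑ x, A x = 1 ∧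
        ∀ E : Set M.S, (∀ x, Rc M u x → x ∈ E → x ∈ H ∨ M.prF H x < 1) →
          M.prF E u = ∑ x, A x * M.prF E x) := by
      intro u
      by_cases hu : M.P s u ≠ 0
      · obtain ⟨a, h1, h2, h3, h4⟩ := ih u (Relation.TransGen.single (hEd u hu)) (hone u hu)
        exact ⟨a, h1, fun _ => ⟨h2, h3, h4⟩⟩
      · exact ⟨fun _ => 0, fun _ => le_rfl, fun h => absurd h hu⟩
    choose A hA0 hA using key
    refine ⟨fun x => ∑ u, M.P s u * A u x, ?_, ?_, ?_, ?_⟩
    · intro x
      exact Finset.sum_nonneg (fun u _ => mul_nonneg (M.nonneg s u) (hA0 u x))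
    · intro x hx
      obtain ⟨u, -, hu⟩ := Finset.exists_ne_zero_of_sum_ne_zero hx
      have hPu : M.P s u ≠ 0 := left_ne_zero_of_mul hu
      obtain ⟨h1, h2⟩ := (hA u hPu).1 x (right_ne_zero_of_mul hu)
      exact ⟨h1, Relation.ReflTransGen.head (hEd u hPu) h2⟩
    · rw [Finset.sum_comm, ← M.row s]
      refine Finset.sum_congr rfl (fun u _ => ?_)
      rw [← Finset.mul_sum]
      by_cases hu : M.P s u = 0
      · simp [hu]
      · rw [(hA u hu).2.1, mul_one]
    · intro E hE
      have hsE : s ∉ E := by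
        intro hs'
        rcases hE s Relation.ReflTransGen.refl hs' with h1 | h1
        · exact hsH h1
        · rw [hs] at h1
          exact lt_irrefl _ h1
      rw [prF_step M E s hsE]
      have hr : ∀ u, M.P s u * M.prF E u = ∑ x, M.P s u * A u x * M.prF E x := by
        intro u
        by_cases hu : M.P s u = 0
        · simp [hu]
        · rw [(hA u hu).2.2 E (fun x hx hxE => hE x
            (Relation.ReflTransGen.head (hEd u hu) hx) hxE), Finset.mul_sum]
          simp [mul_assoc]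
      simp only [hr]
      rw [Finset.sum_comm]
      simp only [Finset.sum_mul]

end J15966

alias decomp := J15966.decomp

/-- states with a proposition in `A` -/
def U (A : Set α) : Set M.S := {s | ∃ a ∈ A, a ∈ M.v s}

/-- probability to visit eventually a state with a proposition in `A` -/
noncomputable def pq (A : Set α) (s : M.S) : ℝ := M.prF (U M A) s

namespace J15967

/-! ### TARGET of this job: pq_mono -/

theorem pq_mono (A B : Set α) (h : A ⊆ B) (s : M.S) : pq M A s ≤ pq M B s := by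
  apply prF_mono
  rintro u ⟨a, ha, hv⟩
  exact ⟨a, h ha, hv⟩

end J15967

alias pq_mono := J15967.pq_mono

end basics

section glue

variable {α ι : Type} [Fintype ι] (M : ι → Chain α) (r : ∀ k, (M k).S) (p : ι → ℝ)

open Classical in
/-- transition probabilities of the chain obtained from a new root by joining the roots `r k` -/
noncomputable def glP : Option (Σ k, (M k).S) → Option (Σ k, (M k).S) → ℝ
  | none, none => 0
  | none, some y => if y.2 = r y.1 then p y.1 else 0
  | some _, none => 0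
  | some x, some y => if h : y.1 = x.1 then (M x.1).P x.2 (h ▸ y.2) else 0

namespace J15968

/-! ### TARGET of this job: glP_nonneg -/

theorem glP_nonneg (hp : ∀ k, 0 < p k) (s u : Option (Σ k, (M k).S)) : 0 ≤ glP M r p s u := by
  rcases s with _ | x <;> rcases u with _ | y
  · simp [glP]
  · simp only [glP]
    split_ifs
    · exact (hp _).le
    · exact le_refl _
  · simp [glP]
  · simp only [glP]
    split_ifs
    · exact (M x.1).nonneg _ _
    · exact le_refl _

end J15968

alias glP_nonneg := J15968.glP_nonneg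

namespace J15969

/-! ### TARGET of this job: glP_row -/

theorem glP_row (hs : ∑ k, p k = 1) (s : Option (Σ k, (M k).S)) : ∑ u, glP M r p s u = 1 := by
  classical
  rw [Fintype.sum_option]
  rcases s with _ | ⟨k, x⟩
  · simp only [glP, zero_add]
    rw [Fintype.sum_sigma]
    have : ∀ k : ι, ∑ y : (M k).S, (if (⟨k, y⟩ : Σ k, (M k).S).2 = r (⟨k, y⟩ : Σ k, (M k).S).1
        then p (⟨k, y⟩ : Σ k, (M k).S).1 else 0) = p k := by
      intro k
      simp
    rw [← hs]
    exact Finset.sum_congr rfl fun k _ => this k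
  · simp only [glP, zero_add]
    rw [Fintype.sum_sigma]
    rw [Finset.sum_eq_single k]
    · simpa using (M k).row x
    · intro k2 _ hne
      apply Finset.sum_eq_zero
      intro y _
      exact dif_neg hne
    · intro h
      exact absurd (Finset.mem_univ k) h

end J15969

alias glP_row := J15969.glP_row

/-- the chain obtained from a new root with label `L` by joining the roots `r k` -/
noncomputable def gl (hp : ∀ k, 0 < p k) (hs : ∑ k, p k = 1) (L : Set α) : Chain α where
  S := Option (Σ k, (M k).S)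
  fin := inferInstance
  P := glP M r p
  nonneg := glP_nonneg M r p hp
  row := glP_row M r p hs
  v := fun s => match s with
    | none => L
    | some x => (M x.1).v x.2

variable (hp : ∀ k, 0 < p k) (hs : ∑ k, p k = 1) (L : Set α)

namespace J15970

/-! ### TARGET of this job: gl_rooted -/

include hs in
theorem gl_rooted_nonempty : Nonempty ι := by
  by_contra h
  rw [not_nonempty_iff] at h
  simp at hs

theorem gl_rooted_eq (k : ι) (x y : (M k).S) :
    glP M r p (some ⟨k, x⟩) (some ⟨k, y⟩) = (M k).P x y := by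
  simp [glP]

theorem gl_rooted_ne (k k' : ι) (x : (M k).S) (y : (M k').S) (h : k' ≠ k) :
    glP M r p (some ⟨k, x⟩) (some ⟨k', y⟩) = 0 := by
  simp [glP, h]

theorem gl_rooted (hM : ∀ k, (M k).RootedAt (r k)) : (gl M r p hp hs L).RootedAt none := by
  classical
  unfold Chain.RootedAt at hM
  choose par d hd0 hds hP hloop using hM
  let par' : Option (Σ k, (M k).S) → Option (Σ k, (M k).S) := fun s => match s with
    | none => none
    | some x => if x.2 = r x.1 then none else some ⟨x.1, par x.1 x.2⟩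
  let d' : Option (Σ k, (M k).S) → ℕ := fun s => match s with
    | none => 0
    | some x => d x.1 x.2 + 1
  have par_root : ∀ k, par' (some ⟨k, r k⟩) = none := fun k => if_pos rfl
  have par_ne : ∀ k (y : (M k).S), y ≠ r k → par' (some ⟨k, y⟩) = some ⟨k, par k y⟩ :=
    fun k y h => if_neg h
  refine ⟨par', d', rfl, ?_, ?_, ?_⟩
  · rintro (_ | ⟨k, x⟩) hs'
    · exact absurd rfl hs'
    · by_cases hx : x = r k
      · subst hx
        rw [par_root]
        show d k (r k) + 1 = 0 + 1
        rw [hd0]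
      · rw [par_ne k x hx]
        show d k x + 1 = d k (par k x) + 1 + 1
        rw [hds k x hx]
  · rintro (_ | ⟨k, x⟩) (_ | ⟨k', y⟩) hne
    · exact absurd rfl hne
    · show 0 < (if y = r k' then p k' else 0) ↔ _
      by_cases hy : y = r k'
      · subst hy
        rw [if_pos rfl]
        exact ⟨fun _ => ⟨by simp, par_root k'⟩, fun _ => hp k'⟩
      · rw [if_neg hy]
        refine ⟨fun h => absurd h (lt_irrefl _), fun h => ?_⟩
        have h2 := h.2
        rw [par_ne k' y hy] at h2
        exact absurd h2 (by simp)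
    · show (0 : ℝ) < 0 ↔ _
      exact ⟨fun h => absurd h (lt_irrefl _), fun h => absurd rfl h.1⟩
    · show 0 < glP M r p (some ⟨k, x⟩) (some ⟨k', y⟩) ↔ _
      by_cases hk : k' = k
      · subst hk
        rw [gl_rooted_eq]
        have hxy : x ≠ y := by
          rintro rfl
          exact hne rfl
        rw [hP k' x y hxy]
        constructor
        · rintro ⟨h1, h2⟩
          refine ⟨by simp, ?_⟩
          rw [par_ne k' y h1, h2]
        · rintro ⟨-, h2⟩
          by_cases hy : y = r k'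
          · subst hy
            rw [par_root] at h2
            exact absurd h2 (by simp)
          · rw [par_ne k' y hy] at h2
            refine ⟨hy, ?_⟩
            have h3 := Option.some.inj h2
            simpa using h3
      · rw [gl_rooted_ne M r p k k' x y hk]
        refine ⟨fun h => absurd h (lt_irrefl _), fun h => ?_⟩
        exfalso
        have h2 := h.2
        by_cases hy : y = r k'
        · subst hy
          rw [par_root] at h2
          exact absurd h2 (by simp)
        · rw [par_ne k' y hy] at h2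
          have h3 := Option.some.inj h2
          exact hk (congrArg Sigma.fst h3)
  · rintro (_ | ⟨k, x⟩)
    · show (0 : ℝ) < 0 ↔ _
      refine ⟨fun h => absurd h (lt_irrefl _), fun h => ?_⟩
      obtain ⟨k⟩ := gl_rooted_nonempty p hs
      exact absurd (par_root k) (h (some ⟨k, r k⟩) (by simp))
    · show 0 < glP M r p (some ⟨k, x⟩) (some ⟨k, x⟩) ↔ _
      rw [gl_rooted_eq, hloop k x]
      constructor
      · rintro h (_ | ⟨k', y⟩) hu h2
        · exact hu rfl
        · by_cases hy : y = r k'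
          · subst hy
            rw [par_root] at h2
            exact absurd h2 (by simp)
          · rw [par_ne k' y hy] at h2
            have h3 := Option.some.inj h2
            obtain rfl : k' = k := congrArg Sigma.fst h3
            have h4 : par k' y = x := by simpa using h3
            exact h y hy h4
      · intro h y hy h2
        apply h (some ⟨k, y⟩) (by simp)
        rw [par_ne k y hy, h2]

end J15970

alias gl_rooted := J15970.gl_rooted

namespace J15972


theorem hit_mem' {α : Type} (M : Chain α) (T : Set M.S) (n : ℕ) (s : M.S) (h : s ∈ T) :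
    M.hit T n s = 1 := by
  cases n with
  | zero => simp [Chain.hit, h]
  | succ n => simp [Chain.hit, h]

theorem hit_zero_not' {α : Type} (M : Chain α) (T : Set M.S) (s : M.S) (h : s ∉ T) :
    M.hit T 0 s = 0 := by
  simp [Chain.hit, h]

theorem hit_succ_not' {α : Type} (M : Chain α) (T : Set M.S) (n : ℕ) (s : M.S) (h : s ∉ T) :
    M.hit T (n + 1) s = ∑ u, M.P s u * M.hit T n u := by
  simp [Chain.hit, h]

theorem gl_hit_some (A : Set α) (n : ℕ) : ∀ (k : ι) (x : (M k).S),
    (gl M r p hp hs L).hit (U (gl M r p hp hs L) A) n (some ⟨k, x⟩)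
      = (M k).hit (U (M k) A) n x := by
  induction n with
  | zero =>
    intro k x
    have h : ((some ⟨k, x⟩ : (gl M r p hp hs L).S) ∈ U (gl M r p hp hs L) A)
        ↔ x ∈ U (M k) A := Iff.rfl
    by_cases hx : x ∈ U (M k) A
    · rw [hit_mem' _ _ _ _ hx, hit_mem' _ _ _ _ (h.2 hx)]
    · rw [hit_zero_not' _ _ _ hx, hit_zero_not' _ _ _ (fun h' => hx (h.1 h'))]
  | succ n ih =>
    intro k x
    have h : ((some ⟨k, x⟩ : (gl M r p hp hs L).S) ∈ U (gl M r p hp hs L) A)
        ↔ x ∈ U (M k) A := Iff.rfl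
    by_cases hx : x ∈ U (M k) A
    · rw [hit_mem' _ _ _ _ hx, hit_mem' _ _ _ _ (h.2 hx)]
    · rw [hit_succ_not' _ _ _ _ hx, hit_succ_not' _ _ _ _ (fun h' => hx (h.1 h'))]
      have h2 : ∑ u : (gl M r p hp hs L).S, (gl M r p hp hs L).P (some ⟨k, x⟩) u *
            (gl M r p hp hs L).hit (U (gl M r p hp hs L) A) n u
          = ∑ u : Option (Σ k, (M k).S), glP M r p (some ⟨k, x⟩) u *
            (gl M r p hp hs L).hit (U (gl M r p hp hs L) A) n u := rfl
      rw [h2, Fintype.sum_option]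
      have h3 : glP M r p (some ⟨k, x⟩) none = 0 := rfl
      rw [h3, zero_mul, zero_add, Fintype.sum_sigma, Finset.sum_eq_single k]
      · apply Finset.sum_congr rfl
        intro y _
        rw [ih k y]
        congr 1
        simp [glP]
      · intro j _ hj
        apply Finset.sum_eq_zero
        intro y _
        have h4 : glP M r p (some ⟨k, x⟩) (some ⟨j, y⟩) = 0 := by
          simp [glP, hj]
        rw [h4, zero_mul]
      · intro hk
        exact absurd (Finset.mem_univ _) hk

/-! ### TARGET of this job: gl_pq_some -/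

theorem gl_pq_some (A : Set α) (k : ι) (x : (M k).S) :
    pq (gl M r p hp hs L) A (some ⟨k, x⟩) = pq (M k) A x := by
  unfold pq Chain.prF
  congr 1
  funext n
  exact gl_hit_some M r p hp hs L A n k x


end J15972

alias gl_pq_some := J15972.gl_pq_some

namespace J15973

/-! ### TARGET of this job: gl_pq_none -/

theorem gl_pq_none (A : Set α) (h : ∀ a ∈ A, a ∉ L) :
    pq (gl M r p hp hs L) A none = ∑ k, p k * pq (M k) A (r k) := by
  classical
  have hn : (none : (gl M r p hp hs L).S) ∉ U (gl M r p hp hs L) A := by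
    rintro ⟨a, ha, hL⟩
    exact h a ha hL
  have h1 : pq (gl M r p hp hs L) A none =
      ∑ u, (gl M r p hp hs L).P none u * (gl M r p hp hs L).prF (U (gl M r p hp hs L) A) u :=
    prF_step _ _ _ hn
  have h2 : (∑ u, (gl M r p hp hs L).P none u * (gl M r p hp hs L).prF (U (gl M r p hp hs L) A) u) =
      ∑ u : Option (Σ k, (M k).S), glP M r p none u * pq (gl M r p hp hs L) A u := rfl
  rw [h1, h2, Fintype.sum_option, Fintype.sum_sigma]
  have h3 : glP M r p none none = 0 := rfl
  rw [h3, zero_mul, zero_add]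
  refine Finset.sum_congr rfl fun k _ => ?_
  have h4 : ∀ y : (M k).S, glP M r p none (some ⟨k, y⟩) * pq (gl M r p hp hs L) A (some ⟨k, y⟩) =
      if y = r k then p k * pq (M k) A (r k) else 0 := by
    intro y
    have h5 : glP M r p none (some ⟨k, y⟩) = if y = r k then p k else 0 := by
      simp only [glP]
    rw [h5]
    split_ifs with hy
    · rw [hy, gl_pq_some]
    · rw [zero_mul]
  simp_rw [h4]
  simp

end J15973

alias gl_pq_none := J15973.gl_pq_none

end glue

section machine

/-- registers -/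
abbrev Rg := Bool × Bool

/-- operations on a register -/
inductive Op
  | add (a : ℕ) | zadd (a : ℕ) | dec

def Op.rel : Op → ℕ → ℕ → Prop
  | .add a, m, n => n = m + a
  | .zadd a, m, n => m = 0 ∧ n = a
  | .dec, m, n => m = n + 1

/-- nondeterministic register machine with four registers -/
structure NS (Q T : Type) where
  src : T → Q
  tgt : T → Q
  op : T → Rg → Op
  q0 : Q

/-- reachable configurations -/
inductive NS.Rch {Q T : Type} (W : NS Q T) (c0 : Rg → ℕ) : Q → (Rg → ℕ) → Prop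
  | init : W.Rch c0 W.q0 c0
  | step (t : T) (c c' : Rg → ℕ) : W.Rch c0 (W.src t) c → (∀ j, (W.op t j).rel (c j) (c' j)) →
      W.Rch c0 (W.tgt t) c'

/-- coordinates of the point of the parabola representing `n` -/
noncomputable def Pt (n : ℕ) (c : Bool) : ℝ := if c then (1 / 4) ^ n else (1 / 2) ^ n

/-- source triangle of an operation -/
def Op.Sq : Op → Fin 3 → Bool → ℚ
  | .add _, 0, _ => 0
  | .add _, 1, c => if c then 0 else 1
  | .add _, 2, _ => 1
  | .zadd _, _, _ => 1
  | .dec, 0, _ => 0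
  | .dec, 1, c => if c then 0 else 1 / 2
  | .dec, 2, c => if c then 1 / 4 else 1 / 2

/-- target triangle of an operation -/
def Op.Tq : Op → Fin 3 → Bool → ℚ
  | .add _, 0, _ => 0
  | .add a, 1, c => if c then 0 else (1 / 2) ^ a
  | .add a, 2, c => if c then (1 / 4) ^ a else (1 / 2) ^ a
  | .zadd a, _, c => if c then (1 / 4) ^ a else (1 / 2) ^ a
  | .dec, 0, _ => 0
  | .dec, 1, c => if c then 0 else 1
  | .dec, 2, _ => 1

/-- the convex region spanned by the origin and the points `Pt n` -/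
def inK (V : Bool → ℝ) : Prop :=
  0 ≤ V true ∧ V true ≤ V false ∧ V false ≤ 1 ∧
    ∀ n : ℕ, 3 * 2 ^ n * V false - 1 ≤ 2 ^ (2 * n + 1) * V true

namespace J15974

/-! ### TARGET of this job: Sq_bd -/

theorem Sq_bd (o : Op) (k : Fin 3) (c : Bool) : 0 ≤ o.Sq k c ∧ o.Sq k c ≤ 1 := by
  cases o <;> fin_cases k <;> cases c <;> simp [Op.Sq] <;> norm_num

end J15974

alias Sq_bd := J15974.Sq_bd

namespace J15975

/-! ### TARGET of this job: Tq_bd -/

theorem Tq_bd (o : Op) (k : Fin 3) (c : Bool) : 0 ≤ o.Tq k c ∧ o.Tq k c ≤ 1 := by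
  have h4 : ∀ a : ℕ, (0 : ℚ) ≤ (1 / 4) ^ a ∧ ((1 : ℚ) / 4) ^ a ≤ 1 := fun a =>
    ⟨by positivity, pow_le_one₀ (by norm_num) (by norm_num)⟩
  have h2 : ∀ a : ℕ, (0 : ℚ) ≤ (1 / 2) ^ a ∧ ((1 : ℚ) / 2) ^ a ≤ 1 := fun a =>
    ⟨by positivity, pow_le_one₀ (by norm_num) (by norm_num)⟩
  cases o with
  | add a =>
    fin_cases k <;> cases c
    · exact ⟨le_rfl, zero_le_one⟩
    · exact ⟨le_rfl, zero_le_one⟩
    · exact h2 a
    · exact ⟨le_rfl, zero_le_one⟩
    · exact h2 a
    · exact h4 a
  | zadd a =>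
    cases c
    · exact h2 a
    · exact h4 a
  | dec =>
    fin_cases k <;> cases c
    · exact ⟨le_rfl, zero_le_one⟩
    · exact ⟨le_rfl, zero_le_one⟩
    · exact ⟨zero_le_one, le_rfl⟩
    · exact ⟨le_rfl, zero_le_one⟩
    · exact ⟨zero_le_one, le_rfl⟩
    · exact ⟨zero_le_one, le_rfl⟩

end J15975

alias Tq_bd := J15975.Tq_bd

namespace J15976

/-! ### TARGET of this job: Pt_inK -/

theorem Pt_inK (n : ℕ) : inK (Pt n) := by
  have ht : Pt n true = (1 / 4 : ℝ) ^ n := rfl
  have hf : Pt n false = (1 / 2 : ℝ) ^ n := rfl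
  unfold inK
  rw [ht, hf]
  refine ⟨by positivity, pow_le_pow_left₀ (by norm_num) (by norm_num) n,
    pow_le_one₀ (by norm_num) (by norm_num), ?_⟩
  intro m
  have h1 : (1 / 4 : ℝ) ^ n = ((1 / 2 : ℝ) ^ n) ^ 2 := by
    rw [← pow_mul, mul_comm, pow_mul]
    norm_num
  have h2 : (2 : ℝ) ^ (2 * m + 1) = 2 * ((2 : ℝ) ^ m) ^ 2 := by
    rw [pow_succ, mul_comm 2 m, pow_mul]
    ring
  have hz : 0 ≤ (2 * ((2 : ℝ) ^ m * (1 / 2 : ℝ) ^ n) - 1) * ((2 : ℝ) ^ m * (1 / 2 : ℝ) ^ n - 1) := by
    rcases Nat.lt_or_ge m n with h | h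
    · obtain ⟨k, rfl⟩ : ∃ k, n = m + 1 + k := ⟨n - (m + 1), by omega⟩
      have h3 : (2 : ℝ) ^ m * (1 / 2 : ℝ) ^ (m + 1 + k) = (1 / 2) * (1 / 2 : ℝ) ^ k := by
        rw [pow_add, pow_succ, ← mul_assoc, ← mul_assoc, ← mul_pow]
        norm_num
      have h4 : (1 / 2 : ℝ) ^ k ≤ 1 := pow_le_one₀ (by norm_num) (by norm_num)
      rw [h3]
      apply mul_nonneg_of_nonpos_of_nonpos
      · linarith
      · linarith
    · obtain ⟨k, rfl⟩ : ∃ k, m = n + k := ⟨m - n, by omega⟩
      have h3 : (2 : ℝ) ^ (n + k) * (1 / 2 : ℝ) ^ n = (2 : ℝ) ^ k := by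
        rw [pow_add, mul_assoc, mul_comm ((2 : ℝ) ^ k), ← mul_assoc, ← mul_pow]
        norm_num
      have h4 : 1 ≤ (2 : ℝ) ^ k := one_le_pow₀ (by norm_num)
      rw [h3]
      apply mul_nonneg
      · linarith
      · linarith
  rw [h1, h2]
  nlinarith [hz]

end J15976

alias Pt_inK := J15976.Pt_inK

namespace J15977

/-! ### TARGET of this job: Pt_inj -/

theorem Pt_inj (m n : ℕ) (h : Pt m false = Pt n false) : m = n := by
  have h1 : ((1 : ℝ) / 2) ^ m = (1 / 2) ^ n := by simpa only [Pt, Bool.false_eq_true, if_false] using h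
  have hs : StrictAnti (fun k : ℕ => ((1 : ℝ) / 2) ^ k) :=
    pow_right_strictAnti₀ (by norm_num) (by norm_num)
  exact hs.injective h1

end J15977

alias Pt_inj := J15977.Pt_inj

namespace J15978

/-! ### TARGET of this job: inK_conv -/

theorem inK_conv_aux {ι : Type} (a : ι → ℝ) (ha : ∀ u, 0 ≤ a u) (X Y : ι → ℝ)
    (h : ∀ u, a u ≠ 0 → X u ≤ Y u) (u : ι) : a u * X u ≤ a u * Y u := by
  by_cases h0 : a u = 0
  · rw [h0]; simp
  · exact mul_le_mul_of_nonneg_left (h u h0) (ha u)

theorem inK_conv {ι : Type} [Fintype ι] (a : ι → ℝ) (V : ι → Bool → ℝ) (ha : ∀ u, 0 ≤ a u)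
    (hs : ∑ u, a u = 1) (hV : ∀ u, a u ≠ 0 → inK (V u)) : inK (fun c => ∑ u, a u * V u c) := by
  refine ⟨?_, ?_, ?_, fun n => ?_⟩
  · refine Finset.sum_nonneg fun u _ => ?_
    have := inK_conv_aux a ha (fun _ => 0) (fun u => V u true) (fun u h => (hV u h).1) u
    simpa using this
  · exact Finset.sum_le_sum fun u _ =>
      inK_conv_aux a ha (fun u => V u true) (fun u => V u false) (fun u h => (hV u h).2.1) u
  · show ∑ u, a u * V u false ≤ 1
    rw [← hs]
    refine Finset.sum_le_sum fun u _ => ?_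
    have := inK_conv_aux a ha (fun u => V u false) (fun _ => 1) (fun u h => (hV u h).2.2.1) u
    simpa using this
  · show 3 * 2 ^ n * (∑ u, a u * V u false) - 1 ≤ 2 ^ (2 * n + 1) * ∑ u, a u * V u true
    have h1 : ∑ u, a u * (3 * 2 ^ n * V u false - 1) ≤ ∑ u, a u * (2 ^ (2 * n + 1) * V u true) :=
      Finset.sum_le_sum fun u _ => inK_conv_aux a ha (fun u => 3 * 2 ^ n * V u false - 1)
        (fun u => 2 ^ (2 * n + 1) * V u true) (fun u h => (hV u h).2.2.2 n) u
    have h2 : ∑ u, a u * (3 * 2 ^ n * V u false - 1) = 3 * 2 ^ n * (∑ u, a u * V u false) - 1 := by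
      rw [Finset.mul_sum]
      conv_rhs => rw [← hs]
      rw [← Finset.sum_sub_distrib]
      refine Finset.sum_congr rfl fun u _ => ?_
      ring
    have h3 : ∑ u, a u * (2 ^ (2 * n + 1) * V u true) =
        2 ^ (2 * n + 1) * ∑ u, a u * V u true := by
      rw [Finset.mul_sum]
      refine Finset.sum_congr rfl fun u _ => ?_
      ring
    rw [← h2, ← h3]
    exact h1

end J15978

alias inK_conv := J15978.inK_conv

namespace J15980

/-! ### TARGET of this job: Pt_extreme -/

theorem Pt_extreme_aux {ι : Type} [Fintype ι] (a L : ι → ℝ) (ha : ∀ u, 0 ≤ a u)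
    (hL : ∀ u, a u ≠ 0 → 0 ≤ L u) (hs : ∑ u, a u * L u = 0) (u : ι) (hu : a u ≠ 0) : L u = 0 := by
  have h1 : ∀ u ∈ Finset.univ, 0 ≤ a u * L u := by
    intro u _
    by_cases h : a u = 0
    · rw [h, zero_mul]
    · exact mul_nonneg (ha u) (hL u h)
  have h2 := (Finset.sum_eq_zero_iff_of_nonneg h1).1 hs u (Finset.mem_univ u)
  exact (mul_eq_zero.1 h2).resolve_left hu

theorem Pt_extreme_comb {ι : Type} [Fintype ι] (a : ι → ℝ) (V : ι → Bool → ℝ)
    (hs : ∑ u, a u = 1) (n : ℕ) (hn : ∀ c, ∑ u, a u * V u c = Pt n c) (x y z : ℝ) :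
    ∑ u, a u * (x * V u true + y * V u false + z) = x * (1 / 4) ^ n + y * (1 / 2) ^ n + z := by
  have h1 : ∀ u, a u * (x * V u true + y * V u false + z) =
      x * (a u * V u true) + y * (a u * V u false) + z * a u := by intro u; ring
  simp only [h1, Finset.sum_add_distrib, ← Finset.mul_sum]
  rw [hn, hn, hs]
  simp [Pt]

theorem Pt_extreme {ι : Type} [Fintype ι] (a : ι → ℝ) (V : ι → Bool → ℝ) (ha : ∀ u, 0 ≤ a u)
    (hs : ∑ u, a u = 1) (hV : ∀ u, a u ≠ 0 → inK (V u)) (n : ℕ)
    (hn : ∀ c, ∑ u, a u * V u c = Pt n c) (u : ι) (hu : a u ≠ 0) : V u = Pt n := by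
  have comb := Pt_extreme_comb a V hs n hn
  cases n with
  | zero =>
    have h1 := Pt_extreme_aux a (fun u => 0 * V u true + (-1) * V u false + 1) ha
      (fun u hu => by have := (hV u hu).2.2.1; linarith)
      (by rw [comb]; norm_num) u hu
    have h2 := Pt_extreme_aux a (fun u => (-1) * V u true + 1 * V u false + 0) ha
      (fun u hu => by have := (hV u hu).2.1; linarith)
      (by rw [comb]; norm_num) u hu

    funext c
    cases c
    · simp only [Pt, pow_zero]; simp; linarith
    · simp only [Pt, pow_zero]; simp; linarith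
  | succ m =>
    have hX : (0 : ℝ) < 2 ^ m := by positivity
    have hq2 : (1 / 2 : ℝ) ^ m * 2 ^ m = 1 := by
      rw [← mul_pow]; norm_num
    have hq4 : (1 / 4 : ℝ) ^ m * (2 ^ m) ^ 2 = 1 := by
      rw [← pow_mul, mul_comm m 2, pow_mul, ← mul_pow]; norm_num
    have e2 : (1 / 2 : ℝ) ^ (m + 1) = (1 / 2) ^ m * (1 / 2) := pow_succ _ _
    have e4 : (1 / 4 : ℝ) ^ (m + 1) = (1 / 4) ^ m * (1 / 4) := pow_succ _ _
    have p1 : (2 : ℝ) ^ (2 * m + 1) = (2 ^ m) ^ 2 * 2 := by rw [pow_succ, mul_comm 2 m, pow_mul]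
    have p2 : (2 : ℝ) ^ (2 * (m + 1) + 1) = (2 ^ m) ^ 2 * 8 := by
      have : 2 * (m + 1) + 1 = m * 2 + 3 := by ring
      rw [this, pow_add, pow_mul]; norm_num
    have p3 : (2 : ℝ) ^ (m + 1) = 2 ^ m * 2 := pow_succ _ _
    have h1 := Pt_extreme_aux a (fun u => ((2 ^ m) ^ 2 * 2) * V u true + (-(3 * 2 ^ m)) * V u false + 1)
      ha (fun u hu => by
        have := (hV u hu).2.2.2 m
        rw [p1] at this
        linarith)
      (by rw [comb, e2, e4]; linear_combination (1 / 2 : ℝ) * hq4 - (3 / 2 : ℝ) * hq2) u hu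
    have h2 := Pt_extreme_aux a (fun u => ((2 ^ m) ^ 2 * 8) * V u true +
      (-(3 * (2 ^ m * 2))) * V u false + 1)
      ha (fun u hu => by
        have := (hV u hu).2.2.2 (m + 1)
        rw [p2, p3] at this
        linarith)
      (by rw [comb, e2, e4]; linear_combination (2 : ℝ) * hq4 - (3 : ℝ) * hq2) u hu

    have hF : 2 ^ m * V u false = 1 / 2 := by linarith
    have hT : (2 ^ m) ^ 2 * V u true = 1 / 4 := by linarith
    funext c
    cases c
    · simp only [Pt, e2]
      simp only [Bool.false_eq_true, if_false]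
      apply mul_left_cancel₀ hX.ne'
      linear_combination hF - (1 / 2 : ℝ) * hq2
    · simp only [Pt, e4, if_true]
      apply mul_left_cancel₀ (pow_pos hX 2).ne'
      linear_combination hT - (1 / 4 : ℝ) * hq4

end J15980

alias Pt_extreme := J15980.Pt_extreme

namespace J15982

/-! ### TARGET of this job: op_K -/

/-- halving keeps the region -/
theorem op_K_half (x y : ℝ) (h0 : 0 ≤ y) (h1 : y ≤ x) (h2 : x ≤ 1)
    (h3 : ∀ n : ℕ, 3 * 2 ^ n * x - 1 ≤ 2 ^ (2 * n + 1) * y) :
    0 ≤ y / 4 ∧ y / 4 ≤ x / 2 ∧ x / 2 ≤ 1 ∧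
      ∀ n : ℕ, 3 * 2 ^ n * (x / 2) - 1 ≤ 2 ^ (2 * n + 1) * (y / 4) := by
  refine ⟨by linarith, by linarith, by linarith, ?_⟩
  intro n
  cases n with
  | zero =>
    have := h3 0
    norm_num at this ⊢
    linarith
  | succ n =>
    have := h3 n
    have e1 : (3 : ℝ) * 2 ^ (n + 1) * (x / 2) = 3 * 2 ^ n * x := by rw [pow_succ]; ring
    have e2 : (2 : ℝ) ^ (2 * (n + 1) + 1) * (y / 4) = 2 ^ (2 * n + 1) * y := by
      have : 2 * (n + 1) + 1 = (2 * n + 1) + 2 := by ring
      rw [this, pow_add]; ring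
    rw [e1, e2]; exact this

theorem op_K_pow (a : ℕ) (x y : ℝ) (h0 : 0 ≤ y) (h1 : y ≤ x) (h2 : x ≤ 1)
    (h3 : ∀ n : ℕ, 3 * 2 ^ n * x - 1 ≤ 2 ^ (2 * n + 1) * y) :
    0 ≤ (1/4)^a * y ∧ (1/4)^a * y ≤ (1/2)^a * x ∧ (1/2)^a * x ≤ 1 ∧
      ∀ n : ℕ, 3 * 2 ^ n * ((1/2)^a * x) - 1 ≤ 2 ^ (2 * n + 1) * ((1/4)^a * y) := by
  induction a with
  | zero =>
    rw [pow_zero, pow_zero, one_mul, one_mul]
    exact ⟨h0, h1, h2, h3⟩
  | succ a ih =>
    obtain ⟨i0, i1, i2, i3⟩ := ih
    have := op_K_half _ _ i0 i1 i2 i3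
    have e1 : (1/4 : ℝ)^(a+1) * y = (1/4)^a * y / 4 := by rw [pow_succ]; ring
    have e2 : (1/2 : ℝ)^(a+1) * x = (1/2)^a * x / 2 := by rw [pow_succ]; ring
    rw [e1, e2]; exact this

theorem op_K_inK (V : Bool → ℝ) (x y : ℝ) (hx : V false = x) (hy : V true = y) :
    inK V ↔ 0 ≤ y ∧ y ≤ x ∧ x ≤ 1 ∧ ∀ n : ℕ, 3 * 2 ^ n * x - 1 ≤ 2 ^ (2 * n + 1) * y := by
  unfold inK; rw [hx, hy]

theorem op_K_one : ∀ n : ℕ, 3 * 2 ^ n * (1:ℝ) - 1 ≤ 2 ^ (2 * n + 1) * 1 := by
  intro n
  have e : (2:ℝ) ^ (2 * n + 1) = 2 * (2 ^ n) ^ 2 := by rw [pow_succ, pow_mul, ← pow_mul, mul_comm 2 n, pow_mul]; ring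
  rw [e]
  have h1 : (1:ℝ) ≤ 2 ^ n := one_le_pow₀ (by norm_num)
  rcases Nat.eq_zero_or_pos n with h | h
  · subst h; norm_num
  · have h2 : (2:ℝ) ≤ 2 ^ n := by
      calc (2:ℝ) = 2 ^ 1 := by norm_num
        _ ≤ 2 ^ n := pow_le_pow_right₀ (by norm_num) h
    nlinarith

theorem op_K (o : Op) (w : Fin 3 → ℝ) (hw : ∀ k, 0 ≤ w k) (hs : ∑ k, w k = 1)
    (h : inK (fun c => ∑ k, w k * (o.Sq k c : ℝ))) :
    inK (fun c => ∑ k, w k * (o.Tq k c : ℝ)) := by
  have w0 := hw 0
  have w1 := hw 1
  have w2 := hw 2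
  rw [Fin.sum_univ_three] at hs
  cases o with
  | add a =>
    rw [op_K_inK _ (w 1 + w 2) (w 2) (by simp [Fin.sum_univ_three, Op.Sq])
      (by simp [Fin.sum_univ_three, Op.Sq])] at h
    obtain ⟨h0, h1, h2, h3⟩ := h
    rw [op_K_inK _ ((1/2)^a * (w 1 + w 2)) ((1/4)^a * w 2)
      (by simp only [Fin.sum_univ_three, Op.Tq, Bool.false_eq_true, if_false]; push_cast; ring)
      (by simp only [Fin.sum_univ_three, Op.Tq, if_true]; push_cast; ring)]
    exact op_K_pow a _ _ h0 h1 h2 h3
  | zadd a =>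
    rw [op_K_inK _ ((1/2)^a * 1) ((1/4)^a * 1)
      (by simp only [Fin.sum_univ_three, Op.Tq, Bool.false_eq_true, if_false]; push_cast; linear_combination (1/2:ℝ)^a * hs)
      (by simp only [Fin.sum_univ_three, Op.Tq, if_true]; push_cast; linear_combination (1/4:ℝ)^a * hs)]
    exact op_K_pow a _ _ (by norm_num) (by norm_num) (by norm_num) op_K_one
  | dec =>
    rw [op_K_inK _ ((w 1 + w 2) / 2) (w 2 / 4)
      (by simp only [Fin.sum_univ_three, Op.Sq, Bool.false_eq_true, if_false]; push_cast; ring)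
      (by simp only [Fin.sum_univ_three, Op.Sq, if_true]; push_cast; ring)] at h
    obtain ⟨h0, h1, h2, h3⟩ := h
    rw [op_K_inK _ (w 1 + w 2) (w 2)
      (by simp only [Fin.sum_univ_three, Op.Tq, Bool.false_eq_true, if_false]; push_cast; ring)
      (by simp only [Fin.sum_univ_three, Op.Tq, if_true]; push_cast; ring)]
    refine ⟨by linarith, by linarith, by linarith, ?_⟩
    intro n
    have := h3 (n + 1)
    have e1 : (3 : ℝ) * 2 ^ (n + 1) * ((w 1 + w 2) / 2) = 3 * 2 ^ n * (w 1 + w 2) := by rw [pow_succ]; ring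
    have e2 : (2 : ℝ) ^ (2 * (n + 1) + 1) * (w 2 / 4) = 2 ^ (2 * n + 1) * w 2 := by
      have : 2 * (n + 1) + 1 = (2 * n + 1) + 2 := by ring
      rw [this, pow_add]; ring
    rw [e1, e2] at this; exact this

end J15982

alias op_K := J15982.op_K

namespace J15983

/-! ### TARGET of this job: op_pt -/

theorem op_pt (o : Op) (w : Fin 3 → ℝ) (hw : ∀ k, 0 ≤ w k) (hs : ∑ k, w k = 1)
    (h : inK (fun c => ∑ k, w k * (o.Sq k c : ℝ))) (n : ℕ)
    (hn : ∀ c, ∑ k, w k * (o.Tq k c : ℝ) = Pt n c) :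
    ∃ m, o.rel m n ∧ ∀ c, ∑ k, w k * (o.Sq k c : ℝ) = Pt m c := by
  have hf := hn false
  have ht := hn true
  simp only [Fin.sum_univ_three] at hs hf ht ⊢
  have h0 := hw 0
  cases o with
  | add a =>
    simp only [Op.Tq, Pt, Rat.cast_zero, mul_zero, zero_add, if_true, Bool.false_eq_true,
      if_false, Rat.cast_pow, Rat.cast_div, Rat.cast_one, Rat.cast_ofNat] at hf ht
    have hpa : (0 : ℝ) < (1 / 2) ^ a := by positivity
    have hpa4 : (0 : ℝ) < (1 / 4) ^ a := by positivity
    have hx : w 1 + w 2 ≤ 1 := by linarith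
    have hle : ((1 : ℝ) / 2) ^ n ≤ (1 / 2) ^ a := by
      rw [← hf]
      nlinarith
    have han : a ≤ n := by
      by_contra hlt
      push Not at hlt
      have := pow_lt_pow_right_of_lt_one₀ (a := (1 / 2 : ℝ)) (by norm_num) (by norm_num) hlt
      linarith
    obtain ⟨m, rfl⟩ := Nat.exists_eq_add_of_le' han
    refine ⟨m, rfl, ?_⟩
    rw [pow_add] at hf ht
    intro c
    cases c with
    | false =>
      simp only [Op.Sq, Pt, Rat.cast_zero, mul_zero, zero_add, Bool.false_eq_true, if_false,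
        Rat.cast_one, mul_one]
      have : (1 / 2 : ℝ) ^ a * (w 1 + w 2) = (1 / 2) ^ a * (1 / 2) ^ m := by linarith
      exact mul_left_cancel₀ hpa.ne' this
    | true =>
      simp only [Op.Sq, Pt, Rat.cast_zero, mul_zero, zero_add, if_true, Rat.cast_one, mul_one]
      have : (1 / 4 : ℝ) ^ a * w 2 = (1 / 4) ^ a * (1 / 4) ^ m := by linarith
      exact mul_left_cancel₀ hpa4.ne' this
  | zadd a =>
    simp only [Op.Tq, Pt, if_true, Bool.false_eq_true,
      if_false, Rat.cast_pow, Rat.cast_div, Rat.cast_one, Rat.cast_ofNat] at hf ht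
    have h1 : ((1 : ℝ) / 2) ^ a = (1 / 2) ^ n := by
      rw [← hf, ← add_mul, ← add_mul, hs, one_mul]
    have h2 : a = n := pow_right_injective₀ (by norm_num : (0 : ℝ) < 1 / 2) (by norm_num) h1
    refine ⟨0, ⟨rfl, h2.symm⟩, ?_⟩
    intro c
    cases c with
    | false => simp only [Op.Sq, Pt, Rat.cast_one, mul_one, pow_zero, Bool.false_eq_true, if_false]
               exact hs
    | true => simp only [Op.Sq, Pt, Rat.cast_one, mul_one, pow_zero, if_true]
              exact hs
  | dec =>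
    simp only [Op.Tq, Pt, if_true, Bool.false_eq_true, if_false, Rat.cast_zero, mul_zero,
      zero_add, Rat.cast_one, mul_one] at hf ht
    refine ⟨n + 1, rfl, ?_⟩
    intro c
    cases c with
    | false =>
      simp only [Op.Sq, Pt, Rat.cast_zero, mul_zero, zero_add, Bool.false_eq_true, if_false,
        Rat.cast_one, Rat.cast_div, Rat.cast_ofNat]
      rw [pow_succ, ← hf]
      ring
    | true =>
      simp only [Op.Sq, Pt, Rat.cast_zero, mul_zero, zero_add, if_true, Rat.cast_one,
        Rat.cast_div, Rat.cast_ofNat]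
      rw [pow_succ, ← ht]

end J15983

alias op_pt := J15983.op_pt

namespace J15985

/-! ### TARGET of this job: op_bary -/

theorem op_bary_aux (m : ℕ) : (0:ℝ) < (1/4)^m ∧ (1/4:ℝ)^m ≤ (1/2)^m ∧ (1/2:ℝ)^m ≤ 1 := by
  refine ⟨by positivity, ?_, ?_⟩
  · exact pow_le_pow_left₀ (by norm_num) (by norm_num) m
  · exact pow_le_one₀ (by norm_num) (by norm_num)

theorem op_bary (o : Op) (m n : ℕ) (h : o.rel m n) :
    ∃ w : Fin 3 → ℝ, (∀ k, 0 ≤ w k) ∧ ∑ k, w k = 1 ∧ (∀ c, ∑ k, w k * (o.Sq k c : ℝ) = Pt m c) ∧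
      ∀ c, ∑ k, w k * (o.Tq k c : ℝ) = Pt n c := by
  cases o with
  | add a =>
    have hn : n = m + a := h
    subst hn
    obtain ⟨h1, h2, h3⟩ := op_bary_aux m
    refine ⟨![1 - (1/2)^m, (1/2)^m - (1/4)^m, (1/4)^m], ?_, ?_, ?_, ?_⟩
    · intro k
      fin_cases k
      · simpa using h3
      · simpa using h2
      · simpa using h1.le
    · simp [Fin.sum_univ_three]
    · intro c
      cases c <;> simp [Fin.sum_univ_three, Op.Sq, Pt]
    · intro c
      cases c
      · simp only [Fin.sum_univ_three, Op.Tq, Pt]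
        simp only [Matrix.cons_val_zero, Matrix.cons_val_one, Matrix.cons_val, Bool.false_eq_true, if_false]
        push_cast
        rw [pow_add]; ring
      · simp only [Fin.sum_univ_three, Op.Tq, Pt]
        simp only [Matrix.cons_val_zero, Matrix.cons_val_one, Matrix.cons_val, if_true]
        push_cast
        rw [pow_add]; ring
  | zadd a =>
    obtain ⟨hm, hn⟩ : m = 0 ∧ n = a := h
    subst hm; subst hn
    refine ⟨![1, 0, 0], ?_, ?_, ?_, ?_⟩
    · intro k; fin_cases k <;> simp
    · simp [Fin.sum_univ_three]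
    · intro c
      cases c <;> simp [Fin.sum_univ_three, Op.Sq, Pt]
    · intro c
      cases c <;> simp [Fin.sum_univ_three, Op.Tq, Pt]
  | dec =>
    have hm : m = n + 1 := h
    subst hm
    obtain ⟨h1, h2, h3⟩ := op_bary_aux n
    refine ⟨![1 - (1/2)^n, (1/2)^n - (1/4)^n, (1/4)^n], ?_, ?_, ?_, ?_⟩
    · intro k
      fin_cases k
      · simpa using h3
      · simpa using h2
      · simpa using h1.le
    · simp [Fin.sum_univ_three]
    · intro c
      cases c
      · simp only [Fin.sum_univ_three, Op.Sq, Pt]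
        simp only [Matrix.cons_val_zero, Matrix.cons_val_one, Matrix.cons_val, Bool.false_eq_true, if_false]
        push_cast
        rw [pow_succ]; ring
      · simp only [Fin.sum_univ_three, Op.Sq, Pt]
        simp only [Matrix.cons_val_zero, Matrix.cons_val_one, Matrix.cons_val, if_true]
        push_cast
        rw [pow_succ]; ring
    · intro c
      cases c <;> simp [Fin.sum_univ_three, Op.Tq, Pt]

end J15985

alias op_bary := J15985.op_bary

end machine

section src

/-- A deterministic register machine: in state `p` the register `reg p` is inspected; the machine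
moves to `nxt p b` and adds `vec p b` to the registers, where `b` tells whether the register is
positive. -/
structure DM (P J : Type) where
  reg : P → J
  nxt : P → Bool → Option P
  vec : P → Bool → J → ℤ
  hz : ∀ p j, 0 ≤ vec p false j
  hp : ∀ p j, j ≠ reg p → 0 ≤ vec p true j
  hp' : ∀ p, vec p true (reg p) = -1

/-- the branch taken -/
def DM.br {P J : Type} (M : DM P J) (p : P) (c : J → ℤ) : Bool := decide (0 < c (M.reg p))

/-- one step -/
def DM.st {P J : Type} (M : DM P J) : Option P × (J → ℤ) → Option P × (J → ℤ)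
  | (none, c) => (none, c)
  | (some p, c) => (M.nxt p (M.br p c), c + M.vec p (M.br p c))

/-- halting -/
def DM.Halts {P J : Type} (M : DM P J) (x : Option P × (J → ℤ)) : Prop :=
  ∃ k, (M.st^[k] x).1 = none

/-- the nondeterministic machine: the state `none` (halted) may decrease all registers -/
def nsOf {P : Type} (D : DM P Rg) (p0 : P) : NS (Option P) ((P × Bool) ⊕ Rg) where
  src
    | .inl x => some x.1
    | .inr _ => none
  tgt
    | .inl x => D.nxt x.1 x.2
    | .inr _ => none
  op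
    | .inl (p, true), j => if j = D.reg p then .dec else .add (D.vec p true j).toNat
    | .inl (p, false), j => if j = D.reg p then .zadd (D.vec p false j).toNat
        else .add (D.vec p false j).toNat
    | .inr j0, j => if j = j0 then .dec else .add 0
  q0 := some p0

namespace J15986

/-! ### TARGET of this job: ns_sound -/

theorem ns_sound {P : Type} (D : DM P Rg) (p0 : P) (c0 : Rg → ℕ) (q : Option P) (c : Rg → ℕ)
    (h : (nsOf D p0).Rch c0 q c) : (q = none ∧ D.Halts (some p0, fun j => (c0 j : ℤ))) ∨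
      ∃ k, D.st^[k] (some p0, fun j => (c0 j : ℤ)) = (q, fun j => (c j : ℤ)) := by
  induction h with
  | init => right; exact ⟨0, rfl⟩
  | step t c c' _ hrel ih =>
    rcases t with ⟨p, b⟩ | j0
    · have hsrc : (nsOf D p0).src (Sum.inl (p, b)) = some p := rfl
      rw [hsrc] at ih
      rcases ih with ⟨h1, _⟩ | ⟨k, hk⟩
      · exact absurd h1 (by simp)
      · right
        refine ⟨k + 1, ?_⟩
        rw [Function.iterate_succ_apply', hk]
        have htgt : (nsOf D p0).tgt (Sum.inl (p, b)) = D.nxt p b := rfl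
        rw [htgt]
        show (D.nxt p (D.br p fun j => (c j : ℤ)),
          (fun j => (c j : ℤ)) + D.vec p (D.br p fun j => (c j : ℤ))) = _
        have hbr : (D.br p fun j => (c j : ℤ)) = b := by
          have h2 := hrel (D.reg p)
          cases b
          · have h3 : (nsOf D p0).op (Sum.inl (p, false)) (D.reg p) =
                .zadd (D.vec p false (D.reg p)).toNat := by
              show (if D.reg p = D.reg p then _ else _) = _
              rw [if_pos rfl]
            rw [h3] at h2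
            have h4 : c (D.reg p) = 0 := h2.1
            unfold DM.br
            simp [h4]
          · have h3 : (nsOf D p0).op (Sum.inl (p, true)) (D.reg p) = .dec := by
              show (if D.reg p = D.reg p then _ else _) = _
              rw [if_pos rfl]
            rw [h3] at h2
            have h4 : c (D.reg p) = c' (D.reg p) + 1 := h2
            unfold DM.br
            rw [decide_eq_true_eq]
            show (0 : ℤ) < (c (D.reg p) : ℤ)
            rw [h4]
            positivity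
        rw [hbr]
        congr 1
        funext j
        show (c j : ℤ) + D.vec p b j = (c' j : ℤ)
        have h2 := hrel j
        cases b
        · by_cases hj : j = D.reg p
          · have h3 : (nsOf D p0).op (Sum.inl (p, false)) j = .zadd (D.vec p false j).toNat := by
              show (if j = D.reg p then _ else _) = _
              rw [if_pos hj]
            rw [h3] at h2
            obtain ⟨h4, h5⟩ : c j = 0 ∧ c' j = (D.vec p false j).toNat := h2
            have h6 := Int.toNat_of_nonneg (D.hz p j)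
            rw [h4, h5, h6]
            simp
          · have h3 : (nsOf D p0).op (Sum.inl (p, false)) j = .add (D.vec p false j).toNat := by
              show (if j = D.reg p then _ else _) = _
              rw [if_neg hj]
            rw [h3] at h2
            have h5 : c' j = c j + (D.vec p false j).toNat := h2
            have h6 := Int.toNat_of_nonneg (D.hz p j)
            rw [h5]
            push_cast
            omega
        · by_cases hj : j = D.reg p
          · have h3 : (nsOf D p0).op (Sum.inl (p, true)) j = .dec := by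
              show (if j = D.reg p then _ else _) = _
              rw [if_pos hj]
            rw [h3] at h2
            have h4 : c j = c' j + 1 := h2
            have h5 := D.hp' p
            rw [hj] at h4 ⊢
            rw [h5, h4]
            push_cast
            ring
          · have h3 : (nsOf D p0).op (Sum.inl (p, true)) j = .add (D.vec p true j).toNat := by
              show (if j = D.reg p then _ else _) = _
              rw [if_neg hj]
            rw [h3] at h2
            have h5 : c' j = c j + (D.vec p true j).toNat := h2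
            have h6 := Int.toNat_of_nonneg (D.hp p j hj)
            rw [h5]
            push_cast
            omega
    · have hsrc : (nsOf D p0).src (Sum.inr j0) = none := rfl
      have htgt : (nsOf D p0).tgt (Sum.inr j0) = none := rfl
      rw [hsrc] at ih
      left
      refine ⟨htgt, ?_⟩
      rcases ih with ⟨_, h1⟩ | ⟨k, hk⟩
      · exact h1
      · exact ⟨k, by rw [hk]⟩

end J15986

alias ns_sound := J15986.ns_sound

namespace J15987

/-! ### TARGET of this job: ns_iter -/

theorem ns_iter {P : Type} (D : DM P Rg) (p0 : P) (c0 : Rg → ℕ) (k : ℕ) :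
    ∃ (q : Option P) (c : Rg → ℕ), D.st^[k] (some p0, fun j => (c0 j : ℤ)) =
      (q, fun j => (c j : ℤ)) ∧ (nsOf D p0).Rch c0 q c := by
  induction k with
  | zero => exact ⟨some p0, c0, rfl, NS.Rch.init⟩
  | succ k ih =>
    obtain ⟨q, c, h1, h2⟩ := ih
    rw [Function.iterate_succ_apply', h1]
    cases q with
    | none => exact ⟨none, c, rfl, h2⟩
    | some p =>
      by_cases h0 : c (D.reg p) = 0
      · have hbr : D.br p (fun j => (c j : ℤ)) = false := by
          simp [DM.br, h0]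
        refine ⟨D.nxt p false, fun j => c j + (D.vec p false j).toNat, ?_, ?_⟩
        · simp only [DM.st, hbr]
          refine Prod.ext rfl ?_
          funext j
          have := D.hz p j
          simp only [Pi.add_apply]
          push_cast
          rw [Int.toNat_of_nonneg this]
        · refine NS.Rch.step (W := nsOf D p0) (Sum.inl (p, false)) c _ h2 ?_
          intro j
          by_cases hj : j = D.reg p
          · subst hj
            simp [nsOf, Op.rel, h0]
          · simp [nsOf, Op.rel, hj]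
      · have hpos : 0 < c (D.reg p) := Nat.pos_of_ne_zero h0
        have hbr : D.br p (fun j => (c j : ℤ)) = true := by
          simp [DM.br, hpos]
        refine ⟨D.nxt p true, fun j => if j = D.reg p then c j - 1 else
          c j + (D.vec p true j).toNat, ?_, ?_⟩
        · simp only [DM.st, hbr]
          refine Prod.ext rfl ?_
          funext j
          simp only [Pi.add_apply]
          by_cases hj : j = D.reg p
          · subst hj
            rw [if_pos rfl, D.hp' p]
            omega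
          · rw [if_neg hj]
            have := D.hp p j hj
            push_cast
            rw [Int.toNat_of_nonneg this]
        · refine NS.Rch.step (W := nsOf D p0) (Sum.inl (p, true)) c _ h2 ?_
          intro j
          by_cases hj : j = D.reg p
          · subst hj
            simp [nsOf, Op.rel]
            omega
          · simp [nsOf, Op.rel, hj]

end J15987

alias ns_iter := J15987.ns_iter

namespace J15989

/-! ### TARGET of this job: ns_clean -/

theorem ns_clean {P : Type} (D : DM P Rg) (p0 : P) (c0 : Rg → ℕ) (c : Rg → ℕ)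
    (h : (nsOf D p0).Rch c0 none c) : (nsOf D p0).Rch c0 none (fun _ => 0) := by
  obtain ⟨n, hn⟩ : ∃ n, n = ∑ j, c j := ⟨_, rfl⟩
  induction n generalizing c with
  | zero =>
    have h0 : c = fun _ => 0 := by
      funext j
      exact (Finset.sum_eq_zero_iff.1 hn.symm) j (Finset.mem_univ j)
    rw [← h0]
    exact h
  | succ n ih =>
    have hex : ∃ j0, c j0 ≠ 0 := by
      by_contra hne
      push Not at hne
      rw [Finset.sum_eq_zero (fun j _ => hne j)] at hn
      omega
    obtain ⟨j0, hj0⟩ := hex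
    have hstep : (nsOf D p0).Rch c0 none (fun j => if j = j0 then c j - 1 else c j) := by
      refine NS.Rch.step (W := nsOf D p0) (.inr j0) c _ h ?_
      intro j
      show ((if j = j0 then Op.dec else Op.add 0) : Op).rel (c j) (if j = j0 then c j - 1 else c j)
      by_cases hj : j = j0
      · rw [if_pos hj, if_pos hj]
        subst hj
        show c j = c j - 1 + 1
        omega
      · rw [if_neg hj, if_neg hj]
        show c j = c j + 0
        rfl
    refine ih _ hstep ?_
    have h1 : ∑ j, c j = c j0 + ∑ j ∈ Finset.univ.erase j0, c j :=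
      (Finset.add_sum_erase _ _ (Finset.mem_univ j0)).symm
    have h2 : ∑ j, (if j = j0 then c j - 1 else c j) = (c j0 - 1) + ∑ j ∈ Finset.univ.erase j0, c j := by
      rw [← Finset.add_sum_erase _ _ (Finset.mem_univ j0), if_pos rfl]
      congr 1
      refine Finset.sum_congr rfl fun j hj => ?_
      rw [if_neg (Finset.ne_of_mem_erase hj)]
    rw [h2]
    omega

end J15989

alias ns_clean := J15989.ns_clean

theorem ns_iff {P : Type} (D : DM P Rg) (p0 : P) (c0 : Rg → ℕ) :
    (nsOf D p0).Rch c0 none (fun _ => 0) ↔ D.Halts (some p0, fun j => (c0 j : ℤ)) := by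
  constructor
  · intro h
    rcases ns_sound D p0 c0 none _ h with h | ⟨k, hk⟩
    · exact h.2
    · exact ⟨k, by rw [hk]⟩
  · rintro ⟨k, hk⟩
    obtain ⟨q, c, h1, h2⟩ := ns_iter D p0 c0 k
    rw [h1] at hk
    subst hk
    exact ns_clean D p0 c0 c h2

end src

section cstr

/-- propositions -/
inductive Pr (T : Type)
  | ini
  | cf (i : Bool) (t : T)
  | jk (i : Bool) (t : T) (j : Rg) (k : Fin 3)
  | dt (i : Bool) (j : Rg) (c : Bool)

variable {Q T : Type} (W : NS Q T)

/-- labels: all propositions except the data propositions -/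
def labS : Set (Pr T) := {x | ∀ i j c, x ≠ Pr.dt i j c}

/-- configurations of phase `i` -/
def phS (i : Bool) : Set (Pr T) := {x | (∃ t, x = Pr.cf i t) ∨ (i = false ∧ x = Pr.ini)}

/-- configurations of phase `i` with state `q` -/
def cfS (i : Bool) (q : Q) : Set (Pr T) :=
  {x | (∃ t, W.tgt t = q ∧ x = Pr.cf i t) ∨ (i = false ∧ q = W.q0 ∧ x = Pr.ini)}

/-- auxiliary labels of a transition and a register -/
def gS (i : Bool) (t : T) (j : Rg) : Set (Pr T) := {x | ∃ k, x = Pr.jk i t j k}

/-- auxiliary labels of a transition -/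
def gaS (i : Bool) (t : T) : Set (Pr T) := {x | ∃ j k, x = Pr.jk i t j k}

/-- configurations of phase `i` with a state different from the target of `t` -/
def b2S (i : Bool) (t : T) : Set (Pr T) := {x | ∃ q, q ≠ W.tgt t ∧ x ∈ cfS W i q}

/-- rational value of a data proposition in an auxiliary state -/
def jvq (o : Op) (i : Bool) (j : Rg) (k : Fin 3) (i' : Bool) (j' : Rg) (c : Bool) : ℚ :=
  if j' = j then (if i' = i then (1 + o.Tq k c) / 8 else (2 - o.Sq k c) / 16) else 0

/-- the constraint on the label `L` of a state and on the probabilities `q A` to see `A` -/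
def Cstr (c0 : Rg → ℕ) (L : Set (Pr T)) (q : Set (Pr T) → ℝ) : Prop :=
  (∀ i t, Pr.cf i t ∈ L → q (gaS i t ∪ phS !i) = 1 ∧ (∀ j, q (gS i t j ∪ phS !i) = 5 / 8) ∧
    q (cfS W (!i) (W.src t)) = 1 / 2 ∧ q (b2S W i t ∪ phS !i) = 1 / 2 ∧
    ∀ j c, q {Pr.dt (!i) j c} = 1 / 32) ∧
  (Pr.ini ∈ L → q (labS \ {Pr.ini}) = 0 ∧ (∀ j c, q {Pr.dt false j c} = (1 + Pt (c0 j) c / 2) / 32) ∧
    ∀ j c, q {Pr.dt true j c} = 1 / 32) ∧
  (∀ i t j k, Pr.jk i t j k ∈ L → q (labS \ {Pr.jk i t j k}) = 0 ∧
    ∀ i' j' c, q {Pr.dt i' j' c} = (jvq (W.op t j) i j k i' j' c : ℝ)) ∧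
  (∀ i j c, Pr.dt i j c ∈ L → q labS = 0)

/-- the condition on the root -/
def RootC (qh : Q) (L : Set (Pr T)) (q : Set (Pr T) → ℝ) : Prop :=
  ∃ i, (∃ x ∈ cfS W i qh, x ∈ L) ∧ ∀ j c, q {Pr.dt i j c} = 3 / 64

end cstr

section sound

variable {Q T : Type} (W : NS Q T) (c0 : Rg → ℕ) (M : Chain (Pr T))

/-- all states reachable from `s` satisfy the constraint -/
def Gd (s : M.S) : Prop := ∀ u, Rc M s u → Cstr W c0 (M.v u) (fun A => pq M A u)

namespace J16016

/-! ### TARGET of this job: gd_rc -/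

theorem gd_rc (s u : M.S) (h : Gd W c0 M s) (hr : Rc M s u) : Gd W c0 M u := by
  intro w hw
  exact h w (Relation.ReflTransGen.trans hr hw)

end J16016

alias gd_rc := J16016.gd_rc

namespace J16017

/-! ### TARGET of this job: gd_jk -/

theorem gd_jk (s : M.S) (h : Gd W c0 M s) (i : Bool) (t : T) (j : Rg) (k : Fin 3)
    (hs : Pr.jk i t j k ∈ M.v s) :
    (∀ x ∈ M.v s, x ∈ labS → x = Pr.jk i t j k) ∧
      (∀ A : Set (Pr T), A ⊆ labS → Pr.jk i t j k ∉ A → pq M A s = 0) := by
  have hC := h s Relation.ReflTransGen.refl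
  have h0 : pq M (labS \ {Pr.jk i t j k}) s = 0 := (hC.2.2.1 i t j k hs).1
  refine ⟨?_, ?_⟩
  · intro x hx hxl
    by_contra hne
    have hmem : s ∈ U M (labS \ {Pr.jk i t j k}) := ⟨x, ⟨hxl, hne⟩, hx⟩
    have h1 : pq M (labS \ {Pr.jk i t j k}) s = 1 := prF_mem M _ s hmem
    rw [h0] at h1
    exact zero_ne_one h1
  · intro A hA hjA
    have hsub : A ⊆ labS \ {Pr.jk i t j k} := by
      intro x hx
      refine ⟨hA hx, ?_⟩
      intro he
      rw [Set.mem_singleton_iff] at he
      exact hjA (he ▸ hx)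
    apply le_antisymm
    · rw [← h0]; exact pq_mono M _ _ hsub s
    · exact prF_nonneg M _ s

end J16017

alias gd_jk := J16017.gd_jk

namespace J16018

/-! ### TARGET of this job: cf_not_H -/

theorem cf_not_H (s : M.S) (h : Gd W c0 M s) (i : Bool) (t : T) (hs : Pr.cf i t ∈ M.v s) :
    s ∉ U M (gaS i t ∪ phS !i) := by
  rintro ⟨x, hx, hxs⟩
  rcases hx with hx | hx
  · obtain ⟨j, k, rfl⟩ := hx
    have h1 := (gd_jk W c0 M s h i t j k hxs).1 (Pr.cf i t) hs (by intro i' j' c' h'; cases h')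
    cases h1
  · have h1 : s ∈ U M (gS i t (false, false) ∪ phS !i) := ⟨x, Or.inr hx, hxs⟩
    have h2 : pq M (gS i t (false, false) ∪ phS !i) s = 1 := prF_mem M _ s h1
    have h3 := ((h s Relation.ReflTransGen.refl).1 i t hs).2.1 (false, false)
    have h4 : pq M (gS i t (false, false) ∪ phS !i) s = 5 / 8 := h3
    rw [h2] at h4
    norm_num at h4

end J16018

alias cf_not_H := J16018.cf_not_H

/-- properties of the first-hit distribution at a configuration -/
def FH (s : M.S) (i : Bool) (t : T) (a : M.S → ℝ) : Prop :=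
  (∀ u, 0 ≤ a u) ∧ (∀ u, a u ≠ 0 → u ∈ U M (gaS i t ∪ phS !i) ∧ Relation.TransGen (Ed M) s u) ∧
    ∑ u, a u = 1 ∧ (∀ A : Set (Pr T), A ⊆ gaS i t ∪ phS !i → pq M A s = ∑ u, a u * pq M A u) ∧
    ∀ i' j c, pq M {Pr.dt i' j c} s = ∑ u, a u * pq M {Pr.dt i' j c} u

namespace J16019

/-! ### TARGET of this job: cf_fh -/

theorem cf_fh (hM : M.TreeLike) (s : M.S) (h : Gd W c0 M s) (i : Bool) (t : T)
    (hs : Pr.cf i t ∈ M.v s) : ∃ a : M.S → ℝ, FH M s i t a := by
  have hC := h s Relation.ReflTransGen.refl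
  have h1 : M.prF (U M (gaS i t ∪ phS !i)) s = 1 := (hC.1 i t hs).1
  obtain ⟨a, ha0, haH, ha1, haE⟩ := decomp M hM (U M (gaS i t ∪ phS !i)) s h1
  have hnot := cf_not_H W c0 M s h i t hs
  refine ⟨a, ha0, ?_, ha1, ?_, ?_⟩
  · intro u hu
    obtain ⟨hu1, hu2⟩ := haH u hu
    refine ⟨hu1, ?_⟩
    rcases Relation.reflTransGen_iff_eq_or_transGen.1 hu2 with h2 | h2
    · exact absurd (h2 ▸ hu1) hnot
    · exact h2
  · intro A hA
    apply haE
    intro x hx1 hx2
    left
    obtain ⟨b, hb1, hb2⟩ := hx2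
    exact ⟨b, hA hb1, hb2⟩
  · intro i' j c
    apply haE
    intro x hx1 hx2
    right
    obtain ⟨b, hb1, hb2⟩ := hx2
    rw [Set.mem_singleton_iff] at hb1
    subst hb1
    have hCx := h x hx1
    have h3 : M.prF (U M (labS : Set (Pr T))) x = 0 := hCx.2.2.2 i' j c hb2
    have h4 : M.prF (U M (gaS i t ∪ phS !i)) x ≤ M.prF (U M (labS : Set (Pr T))) x := by
      apply prF_mono
      rintro y ⟨b, hb, hby⟩
      refine ⟨b, ?_, hby⟩
      intro i2 j2 c2 hbe
      subst hbe
      rcases hb with ⟨j3, k3, h5⟩ | h5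
      · cases h5
      · rcases h5 with ⟨t', h6⟩ | ⟨_, h6⟩
        · cases h6
        · cases h6
    rw [h3] at h4
    linarith

end J16019

alias cf_fh := J16019.cf_fh

namespace J16020

theorem cfm_phS_lab (i : Bool) (x : Pr T) (h : x ∈ (phS i : Set (Pr T))) : x ∈ (labS : Set (Pr T)) := by
  intro i' j c hx
  subst hx
  rcases h with ⟨t, h'⟩ | ⟨_, h'⟩ <;> cases h'

theorem cfm_gS_lab (i : Bool) (t : T) (j : Rg) (x : Pr T) (h : x ∈ (gS i t j : Set (Pr T))) :
    x ∈ (labS : Set (Pr T)) := by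
  intro i' j' c hx
  subst hx
  obtain ⟨k, h'⟩ := h
  cases h'

theorem cfm_aux (s : M.S) (h : Gd W c0 M s) (i : Bool) (t : T)
    (a : M.S → ℝ) (ha : FH M s i t a) (u : M.S) (hu : a u ≠ 0) :
    (u ∈ U M (phS !i) ∧ ∀ j, u ∉ U M (gS i t j)) ∨
    (u ∉ U M (phS !i) ∧ ∃ j' k', Gd W c0 M u ∧ Pr.jk i t j' k' ∈ M.v u ∧
      ∀ j, u ∈ U M (gS i t j) ↔ j = j') := by
  obtain ⟨h0, h1, h2, h3, h4⟩ := ha
  obtain ⟨hmem, htr⟩ := h1 u hu
  have hG := gd_rc W c0 M s u h htr.to_reflTransGen
  by_cases hp : u ∈ U M (phS !i)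
  · left
    refine ⟨hp, fun j hj => ?_⟩
    obtain ⟨x, ⟨k, rfl⟩, hx⟩ := hj
    obtain ⟨y, hy, hyv⟩ := hp
    have h5 := (gd_jk W c0 M u hG i t j k hx).1 y hyv (cfm_phS_lab _ y hy)
    subst h5
    rcases hy with ⟨t', h'⟩ | ⟨_, h'⟩ <;> cases h'
  · right
    refine ⟨hp, ?_⟩
    obtain ⟨x, hx, hxv⟩ := hmem
    rcases hx with ⟨j', k', rfl⟩ | hx
    · refine ⟨j', k', hG, hxv, fun j => ⟨?_, ?_⟩⟩
      · rintro ⟨y, ⟨k, rfl⟩, hy⟩
        have h5 := (gd_jk W c0 M u hG i t j' k' hxv).1 _ hy (cfm_gS_lab i t j _ ⟨k, rfl⟩)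
        injection h5
      · rintro rfl
        exact ⟨_, ⟨k', rfl⟩, hxv⟩
    · exact absurd ⟨x, hx, hxv⟩ hp

open Classical in
theorem cfm_one (s : M.S) (h : Gd W c0 M s) (i : Bool) (t : T)
    (a : M.S → ℝ) (ha : FH M s i t a) (u : M.S) :
    a u = (if u ∈ U M (phS !i) then a u else 0) + ∑ j : Rg, (if u ∈ U M (gS i t j) then a u else 0) := by
  by_cases hu : a u = 0
  · simp [hu]
  rcases cfm_aux W c0 M s h i t a ha u hu with ⟨h1, h2⟩ | ⟨h1, j', k', _, h3, h4⟩
  · rw [if_pos h1, Finset.sum_eq_zero (fun j _ => if_neg (h2 j)), add_zero]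
  · rw [if_neg h1, zero_add, Finset.sum_eq_single j']
    · rw [if_pos ((h4 j').2 rfl)]
    · intro j _ hj
      rw [if_neg (fun h5 => hj ((h4 j).1 h5))]
    · intro h5
      exact absurd (Finset.mem_univ _) h5

open Classical in
theorem cfm_two (s : M.S) (h : Gd W c0 M s) (i : Bool) (t : T)
    (a : M.S → ℝ) (ha : FH M s i t a) (j : Rg) (u : M.S) :
    a u * pq M (gS i t j ∪ phS !i) u = (if u ∈ U M (phS !i) then a u else 0) +
      (if u ∈ U M (gS i t j) then a u else 0) := by
  by_cases hu : a u = 0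
  · simp [hu]
  rcases cfm_aux W c0 M s h i t a ha u hu with ⟨h1, h2⟩ | ⟨h1, j', k', hG, h3, h4⟩
  · have h5 : pq M (gS i t j ∪ phS !i) u = 1 := by
      refine prF_mem M _ u ?_
      obtain ⟨x, hx, hxv⟩ := h1
      exact ⟨x, Or.inr hx, hxv⟩
    rw [if_pos h1, if_neg (h2 j), h5]; ring
  · by_cases hj : j = j'
    · have h5 : pq M (gS i t j ∪ phS !i) u = 1 := by
        refine prF_mem M _ u ?_
        obtain ⟨x, hx, hxv⟩ := (h4 j).2 hj
        exact ⟨x, Or.inl hx, hxv⟩
      rw [if_neg h1, if_pos ((h4 j).2 hj), h5]; ring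
    · have h5 : pq M (gS i t j ∪ phS !i) u = 0 := by
        refine (gd_jk W c0 M u hG i t j' k' h3).2 _ ?_ ?_
        · rintro x (hx | hx)
          · exact cfm_gS_lab i t j x hx
          · exact cfm_phS_lab _ x hx
        · rintro (⟨k, hx⟩ | (⟨t', hx⟩ | ⟨_, hx⟩))
          · injection hx with e1 e2 e3 e4
            exact hj e3.symm
          · cases hx
          · cases hx
      rw [if_neg h1, if_neg (fun h6 => hj ((h4 j).1 h6)), h5]; ring


/-! ### TARGET of this job: cf_mass -/

open Classical in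
theorem cf_mass (s : M.S) (h : Gd W c0 M s) (i : Bool) (t : T) (hs : Pr.cf i t ∈ M.v s)
    (a : M.S → ℝ) (ha : FH M s i t a) :
    (∑ u, (if u ∈ U M (phS !i) then a u else 0) = 1 / 2) ∧
      ∀ j, ∑ u, (if u ∈ U M (gS i t j) then a u else 0) = 1 / 8 := by
  have hC := h s Relation.ReflTransGen.refl
  obtain ⟨hC1, _⟩ := hC
  obtain ⟨_, hq, _⟩ := hC1 i t hs
  have hsum : ∑ u, a u = 1 := ha.2.2.1
  have hpq := ha.2.2.2.1
  have hj : ∀ j, (∑ u, (if u ∈ U M (phS !i) then a u else 0)) +
      ∑ u, (if u ∈ U M (gS i t j) then a u else 0) = 5 / 8 := by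
    intro j
    have h1 : pq M (gS i t j ∪ phS !i) s = 5 / 8 := hq j
    rw [← h1, hpq (gS i t j ∪ phS !i) (by
      rintro x (⟨k, hx⟩ | hx)
      · exact Or.inl ⟨j, k, hx⟩
      · exact Or.inr hx), ← Finset.sum_add_distrib]
    exact Finset.sum_congr rfl fun u _ => (cfm_two W c0 M s h i t a ha j u).symm
  have htot : (∑ u, (if u ∈ U M (phS !i) then a u else 0)) +
      ∑ j : Rg, ∑ u, (if u ∈ U M (gS i t j) then a u else 0) = 1 := by
    rw [Finset.sum_comm, ← Finset.sum_add_distrib, ← hsum]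
    exact Finset.sum_congr rfl fun u _ => (cfm_one W c0 M s h i t a ha u).symm
  have hcard : ∑ j : Rg, ∑ u, (if u ∈ U M (gS i t j) then a u else 0) =
      4 * (5 / 8 - ∑ u, (if u ∈ U M (phS !i) then a u else 0)) := by
    rw [Finset.sum_congr rfl (fun j _ => (show ∑ u, (if u ∈ U M (gS i t j) then a u else 0) =
      5 / 8 - ∑ u, (if u ∈ U M (phS !i) then a u else 0) by linarith [hj j])), Finset.sum_const]
    simp only [Finset.card_univ, Fintype.card_prod, Fintype.card_bool, nsmul_eq_mul]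
    norm_num
  have hα : ∑ u, (if u ∈ U M (phS !i) then a u else 0) = 1 / 2 := by linarith
  refine ⟨hα, fun j => ?_⟩
  have := hj j
  linarith

end J16020

alias cf_mass := J16020.cf_mass

namespace J16022

/-! ### TARGET of this job: cf_pure -/

theorem cf_pure (s : M.S) (h : Gd W c0 M s) (i : Bool) (q : Q) (hs : s ∈ U M (phS i))
    (hq : pq M (cfS W i q) s = 1) : s ∈ U M (cfS W i q) := by
  have hC : Cstr W c0 (M.v s) (fun A => pq M A s) := h s Relation.ReflTransGen.refl
  obtain ⟨x, hx, hxs⟩ := hs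
  obtain ⟨h1, h2, _, _⟩ := hC
  rcases hx with ⟨t, rfl⟩ | ⟨rfl, rfl⟩
  · by_cases ht : W.tgt t = q
    · exact ⟨_, Or.inl ⟨t, ht, rfl⟩, hxs⟩
    · exfalso
      have h3 : pq M (b2S W i t ∪ phS !i) s = 1 / 2 := (h1 i t hxs).2.2.2.1
      have hsub : cfS W i q ⊆ b2S W i t ∪ phS !i := by
        intro y hy
        exact Or.inl ⟨q, fun e => ht e.symm, hy⟩
      have h4 := pq_mono M _ _ hsub s
      rw [hq, h3] at h4
      norm_num at h4
  · by_cases hq0 : q = W.q0
    · exact ⟨_, Or.inr ⟨rfl, hq0, rfl⟩, hxs⟩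
    · exfalso
      have h3 : pq M (labS \ {Pr.ini}) s = 0 := (h2 hxs).1
      have hsub : cfS W false q ⊆ labS \ {Pr.ini} := by
        rintro y (⟨t, _, rfl⟩ | ⟨_, hq1, _⟩)
        · refine ⟨fun i j c hh => ?_, fun hh => ?_⟩
          · cases hh
          · cases hh
        · exact absurd hq1 hq0
      have h4 := pq_mono M _ _ hsub s
      rw [hq, h3] at h4
      norm_num at h4

end J16022

alias cf_pure := J16022.cf_pure

namespace J16023

/-! ### TARGET of this job: cf_ph -/

theorem cf_ph (s : M.S) (h : Gd W c0 M s) (i : Bool) (t : T) (hs : Pr.cf i t ∈ M.v s)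
    (a : M.S → ℝ) (ha : FH M s i t a) (u : M.S) (hu : a u ≠ 0) (hp : u ∈ U M (phS !i)) :
    u ∈ U M (cfS W (!i) (W.src t)) := by
  classical
  obtain ⟨a0, asup, asum, aq, adt⟩ := ha
  have hC := (h s Relation.ReflTransGen.refl).1 i t hs
  have hhalf : pq M (cfS W (!i) (W.src t)) s = 1 / 2 := hC.2.2.1
  have hmass := (cf_mass W c0 M s h i t hs a ⟨a0, asup, asum, aq, adt⟩).1
  have hrc : ∀ x, a x ≠ 0 → Gd W c0 M x := fun x hx =>
    gd_rc W c0 M s x h ((asup x hx).2.to_reflTransGen)
  have hsub : cfS W (!i) (W.src t) ⊆ gaS i t ∪ phS !i := by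
    rintro x (⟨t', h1, rfl⟩ | ⟨h1, h2, rfl⟩)
    · exact Or.inr (Or.inl ⟨t', rfl⟩)
    · exact Or.inr (Or.inr ⟨h1, rfl⟩)
  have hq := aq _ hsub
  rw [hhalf] at hq
  have hz : ∀ x, a x * pq M (cfS W (!i) (W.src t)) x =
      (if x ∈ U M (phS !i) then a x else 0) * pq M (cfS W (!i) (W.src t)) x := by
    intro x
    by_cases hx : a x = 0
    · simp [hx]
    by_cases hx2 : x ∈ U M (phS !i)
    · rw [if_pos hx2]
    rw [if_neg hx2]
    obtain ⟨y, hy, hyv⟩ := (asup x hx).1
    rcases hy with ⟨j, k, rfl⟩ | hy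
    · have h3 := (gd_jk W c0 M x (hrc x hx) i t j k hyv).2 (cfS W (!i) (W.src t)) (by
        rintro z (⟨t', h1, rfl⟩ | ⟨h1, h2, rfl⟩) i' j' c' hz
        · cases hz
        · cases hz) (by
        rintro (⟨t', h1, h2⟩ | ⟨h1, h2, h3⟩)
        · cases h2
        · cases h3)
      rw [h3]; ring
    · exact absurd ⟨y, hy, hyv⟩ hx2
  rw [Finset.sum_congr rfl (fun x _ => hz x)] at hq
  have hsum0 : ∑ x, (if x ∈ U M (phS !i) then a x else 0) *
      (1 - pq M (cfS W (!i) (W.src t)) x) = 0 := by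
    have : ∀ x, (if x ∈ U M (phS !i) then a x else 0) *
      (1 - pq M (cfS W (!i) (W.src t)) x) = (if x ∈ U M (phS !i) then a x else 0) -
        (if x ∈ U M (phS !i) then a x else 0) * pq M (cfS W (!i) (W.src t)) x := fun x => by ring
    rw [Finset.sum_congr rfl (fun x _ => this x), Finset.sum_sub_distrib, ← hq]
    have h5 : ∑ x, (if x ∈ U M (phS !i) then a x else 0) = 1 / 2 := by
      convert hmass
    rw [h5]; ring
  have hnn : ∀ x ∈ Finset.univ, 0 ≤ (if x ∈ U M (phS !i) then a x else 0) *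
      (1 - pq M (cfS W (!i) (W.src t)) x) := by
    intro x _
    apply mul_nonneg
    · split_ifs
      · exact a0 x
      · exact le_refl _
    · have := prF_le_one M (U M (cfS W (!i) (W.src t))) x
      have h6 : pq M (cfS W (!i) (W.src t)) x ≤ 1 := this
      linarith
  have hu0 := (Finset.sum_eq_zero_iff_of_nonneg hnn).1 hsum0 u (Finset.mem_univ u)
  rw [if_pos hp] at hu0
  have h1 : pq M (cfS W (!i) (W.src t)) u = 1 := by
    rcases mul_eq_zero.1 hu0 with h7 | h7
    · exact absurd h7 hu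
    · linarith
  exact cf_pure W c0 M u (hrc u hu) (!i) (W.src t) hp h1

end J16023

alias cf_ph := J16023.cf_ph

namespace J16024

/-! ### TARGET of this job: cf_decomp -/

/-- first-hit decomposition at a configuration: masses and classes -/
theorem cf_decomp (hM : M.TreeLike) (s : M.S) (h : Gd W c0 M s) (i : Bool) (t : T)
    (hs : Pr.cf i t ∈ M.v s) :
    ∃ (a : M.S → ℝ) (κ : M.S → Option (Rg × Fin 3)), (∀ u, 0 ≤ a u) ∧
      (∀ u, a u ≠ 0 → Relation.TransGen (Ed M) s u) ∧
      (∀ u, a u ≠ 0 → κ u = none → u ∈ U M (cfS W (!i) (W.src t))) ∧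
      (∀ u, a u ≠ 0 → ∀ j k, κ u = some (j, k) → Pr.jk i t j k ∈ M.v u) ∧
      (∑ u, (if κ u = none then a u else 0) = 1 / 2) ∧
      (∀ j, ∑ k, ∑ u, (if κ u = some (j, k) then a u else 0) = 1 / 8) ∧
      ∀ i' j c, pq M {Pr.dt i' j c} s = ∑ u, a u * pq M {Pr.dt i' j c} u := by
  classical
  obtain ⟨a, ha⟩ := cf_fh W c0 M hM s h i t hs
  have hmass := cf_mass W c0 M s h i t hs a ha
  have hph := cf_ph W c0 M s h i t hs a ha
  obtain ⟨ha0, ha1, ha2, ha3, ha4⟩ := id ha
  obtain ⟨κ, hκ⟩ : ∃ κ : M.S → Option (Rg × Fin 3), ∀ u, κ u = if u ∈ U M (phS !i) then none else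
      if h : ∃ y : Rg × Fin 3, Pr.jk i t y.1 y.2 ∈ M.v u then some h.choose else none := ⟨_, fun u => rfl⟩
  have f2 : ∀ u j k, κ u = some (j, k) → Pr.jk i t j k ∈ M.v u ∧ u ∉ U M (phS !i) := by
    intro u j k hk
    rw [hκ u] at hk
    by_cases h1 : u ∈ U M (phS !i)
    · rw [if_pos h1] at hk; exact absurd hk (by simp)
    · rw [if_neg h1] at hk
      by_cases h2 : ∃ y : Rg × Fin 3, Pr.jk i t y.1 y.2 ∈ M.v u
      · rw [dif_pos h2] at hk
        have h3 := h2.choose_spec
        rw [Option.some.inj hk] at h3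
        exact ⟨h3, h1⟩
      · rw [dif_neg h2] at hk; exact absurd hk (by simp)
  have f1 : ∀ u, a u ≠ 0 → (κ u = none ↔ u ∈ U M (phS !i)) := by
    intro u hu
    constructor
    · intro hk
      by_contra h1
      obtain ⟨x, hx, hxu⟩ := (ha1 u hu).1
      rcases hx with hx | hx
      · obtain ⟨j, k, rfl⟩ := hx
        have h2 : ∃ y : Rg × Fin 3, Pr.jk i t y.1 y.2 ∈ M.v u := ⟨(j, k), hxu⟩
        rw [hκ u, if_neg h1, dif_pos h2] at hk
        exact absurd hk (by simp)
      · exact h1 ⟨x, hx, hxu⟩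
    · intro h1
      rw [hκ u, if_pos h1]
  have hgd : ∀ u, a u ≠ 0 → Gd W c0 M u := fun u hu =>
    gd_rc W c0 M s u h (ha1 u hu).2.to_reflTransGen
  have f3 : ∀ u, a u ≠ 0 → ∀ j k, Pr.jk i t j k ∈ M.v u → κ u = some (j, k) := by
    intro u hu j k hk
    have hl := (gd_jk W c0 M u (hgd u hu) i t j k hk).1
    have hn : u ∉ U M (phS !i) := by
      rintro ⟨x, hx, hxu⟩
      have hxl : x ∈ labS (T := T) := by
        intro i1 j1 c1 he
        rcases hx with ⟨t1, h1⟩ | ⟨_, h1⟩
        · rw [he] at h1; cases h1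
        · rw [he] at h1; cases h1
      have he := hl x hxu hxl
      rcases hx with ⟨t1, h1⟩ | ⟨_, h1⟩
      · rw [he] at h1; cases h1
      · rw [he] at h1; cases h1
    have h2 : ∃ y : Rg × Fin 3, Pr.jk i t y.1 y.2 ∈ M.v u := ⟨(j, k), hk⟩
    rw [hκ u, if_neg hn, dif_pos h2]
    have h3 := h2.choose_spec
    have h4 : Pr.jk i t h2.choose.1 h2.choose.2 = Pr.jk i t j k := by
      apply hl _ h3
      intro i1 j1 c1 he
      cases he
    have h5 : h2.choose.1 = j ∧ h2.choose.2 = k := by
      injection h4 with _ _ h6 h7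
      exact ⟨h6, h7⟩
    congr 1
    exact Prod.ext h5.1 h5.2
  refine ⟨a, κ, ha0, fun u hu => (ha1 u hu).2, fun u hu hk => hph u hu ((f1 u hu).1 hk),
    fun u hu j k hk => (f2 u j k hk).1, ?_, ?_, ha4⟩
  · rw [← hmass.1]
    refine Finset.sum_congr rfl fun u _ => ?_
    by_cases hu : a u = 0
    · simp [hu]
    · simp only [f1 u hu]
  · intro j
    rw [← hmass.2 j, Finset.sum_comm]
    refine Finset.sum_congr rfl fun u _ => ?_
    by_cases hu : a u = 0
    · simp [hu]
    · by_cases hj : u ∈ U M (gS i t j)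
      · rw [if_pos hj]
        obtain ⟨x, ⟨k, rfl⟩, hxu⟩ := hj
        have hk := f3 u hu j k hxu
        rw [Finset.sum_eq_single k]
        · rw [if_pos hk]
        · intro k' _ hk'
          rw [if_neg]
          intro hk2
          rw [hk] at hk2
          apply hk'
          have := Option.some.inj hk2
          exact (Prod.ext_iff.1 this).2.symm
        · intro hk'; exact absurd (Finset.mem_univ k) hk'
      · rw [if_neg hj]
        apply Finset.sum_eq_zero
        intro k _
        rw [if_neg]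
        intro hk
        exact hj ⟨_, ⟨k, rfl⟩, (f2 u j k hk).1⟩

end J16024

alias cf_decomp := J16024.cf_decomp

namespace J16025

/-! ### TARGET of this job: cf_values -/

/-- values of the data probabilities from the decomposition -/
theorem cf_values (hM : M.TreeLike) (s : M.S) (h : Gd W c0 M s) (i : Bool) (t : T)
    (hs : Pr.cf i t ∈ M.v s) :
    ∃ (b : M.S → ℝ) (w : Rg → Fin 3 → ℝ), (∀ u, 0 ≤ b u) ∧ ∑ u, b u = 1 ∧
      (∀ u, b u ≠ 0 → Relation.TransGen (Ed M) s u ∧ u ∈ U M (cfS W (!i) (W.src t))) ∧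
      (∀ j k, 0 ≤ w j k) ∧ (∀ j, ∑ k, w j k = 1) ∧
      (∀ j c, ∑ u, b u * (64 * pq M {Pr.dt (!i) j c} u - 2) =
        ∑ k, w j k * ((W.op t j).Sq k c : ℝ)) ∧
      (∀ j c, 64 * pq M {Pr.dt i j c} s - 2 = ∑ k, w j k * ((W.op t j).Tq k c : ℝ)) := by
  classical
  obtain ⟨a, κ, ha0, hatr, hnone, hsome, hs2, hs8, hpq⟩ := cf_decomp W c0 M hM s h i t hs
  -- pointwise partition of `a`
  have hpart : ∀ u, a u = (if κ u = none then a u else 0) +
      ∑ j, ∑ k, (if κ u = some (j, k) then a u else 0) := by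
    intro u
    rcases hκ : κ u with _ | ⟨j0, k0⟩
    · simp
    · have h1 : ∀ j, (∑ k, (if (some (j0, k0) : Option (Rg × Fin 3)) = some (j, k) then a u else 0))
          = if j0 = j then a u else 0 := by
        intro j
        by_cases hj : j0 = j
        · subst hj
          simp
        · simp [hj]
      rw [Finset.sum_congr rfl (fun j _ => h1 j)]
      simp
  have hsplit : ∀ f : M.S → ℝ, ∑ u, a u * f u = ∑ u, (if κ u = none then a u else 0) * f u +
      ∑ j, ∑ k, ∑ u, (if κ u = some (j, k) then a u else 0) * f u := by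
    intro f
    have h1 : ∀ u, a u * f u = (if κ u = none then a u else 0) * f u +
        ∑ j, ∑ k, (if κ u = some (j, k) then a u else 0) * f u := by
      intro u
      conv_lhs => rw [hpart u]
      rw [add_mul, Finset.sum_mul]
      congr 1
      refine Finset.sum_congr rfl fun j _ => ?_
      rw [Finset.sum_mul]
    rw [Finset.sum_congr rfl (fun u _ => h1 u), Finset.sum_add_distrib]
    congr 1
    rw [Finset.sum_comm]
    refine Finset.sum_congr rfl fun j _ => ?_
    rw [Finset.sum_comm]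
  -- values at the auxiliary states
  have hjk : ∀ (i2 : Bool) (j : Rg) (c : Bool) (j2 : Rg) (k : Fin 3),
      ∑ u, (if κ u = some (j2, k) then a u else 0) * pq M {Pr.dt i2 j c} u =
        (jvq (W.op t j2) i j2 k i2 j c : ℝ) * ∑ u, (if κ u = some (j2, k) then a u else 0) := by
    intro i2 j c j2 k
    rw [Finset.mul_sum]
    refine Finset.sum_congr rfl fun u _ => ?_
    by_cases hk : κ u = some (j2, k)
    · by_cases hau : a u = 0
      · simp [hau]
      · rw [if_pos hk]
        have hc := (h u (hatr u hau).to_reflTransGen).2.2.1 i t j2 k (hsome u hau j2 k hk)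
        have hc2 := hc.2 i2 j c
        simp only at hc2
        rw [hc2]
        ring
    · simp [hk]
  -- values at the configurations
  have hcf : ∀ (j : Rg) (c : Bool),
      ∑ u, (if κ u = none then a u else 0) * pq M {Pr.dt i j c} u = 1 / 64 := by
    intro j c
    have h1 : ∀ u, (if κ u = none then a u else 0) * pq M {Pr.dt i j c} u =
        (1 / 32) * (if κ u = none then a u else 0) := by
      intro u
      by_cases hk : κ u = none
      · by_cases hau : a u = 0
        · simp [hau]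
        · rw [if_pos hk]
          have hC := h u (hatr u hau).to_reflTransGen
          have hval : pq M {Pr.dt i j c} u = 1 / 32 := by
            obtain ⟨x, hx, hxv⟩ := hnone u hau hk
            rcases hx with ⟨t2, ht2, rfl⟩ | ⟨hi, hq, rfl⟩
            · have := (hC.1 (!i) t2 hxv).2.2.2.2 j c
              simpa using this
            · have hi' : i = true := by simpa using hi
              have := (hC.2.1 hxv).2.2 j c
              rw [hi']
              exact this
          rw [hval]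
          ring
      · simp [hk]
    rw [Finset.sum_congr rfl (fun u _ => h1 u), ← Finset.mul_sum, hs2]
    norm_num
  have hval : ∀ (i2 : Bool) (j : Rg) (c : Bool),
      ∑ j2, ∑ k, ∑ u, (if κ u = some (j2, k) then a u else 0) * pq M {Pr.dt i2 j c} u =
        ∑ k, ((if i2 = i then (1 + (W.op t j).Tq k c) / 8 else (2 - (W.op t j).Sq k c) / 16 : ℚ) : ℝ)
          * ∑ u, (if κ u = some (j, k) then a u else 0) := by
    intro i2 j c
    rw [Finset.sum_eq_single j]
    · refine Finset.sum_congr rfl fun k _ => ?_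
      rw [hjk]
      simp [jvq]
    · intro j2 _ hj2
      refine Finset.sum_eq_zero fun k _ => ?_
      rw [hjk]
      have : ¬ (j = j2) := fun hh => hj2 hh.symm
      simp [jvq, this]
    · intro hj
      exact absurd (Finset.mem_univ _) hj
  refine ⟨fun u => 2 * (if κ u = none then a u else 0),
    fun j k => 8 * ∑ u, (if κ u = some (j, k) then a u else 0), ?_, ?_, ?_, ?_, ?_, ?_, ?_⟩
  · intro u
    have := ha0 u
    dsimp only
    split_ifs <;> simp [this]
  · rw [← Finset.mul_sum, hs2]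
    norm_num
  · intro u hu
    have hk : κ u = none := by
      by_contra hk
      exact hu (by simp [hk])
    have hau : a u ≠ 0 := by
      intro hau
      exact hu (by simp [hau])
    exact ⟨hatr u hau, hnone u hau hk⟩
  · intro j k
    have : 0 ≤ ∑ u, (if κ u = some (j, k) then a u else 0) := by
      refine Finset.sum_nonneg fun u _ => ?_
      split_ifs
      · exact ha0 u
      · exact le_rfl
    positivity
  · intro j
    rw [← Finset.mul_sum, hs8 j]
    norm_num
  · intro j c
    have h1 : pq M {Pr.dt (!i) j c} s = 1 / 32 :=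
      (h s Relation.ReflTransGen.refl).1 i t hs |>.2.2.2.2 j c
    rw [hpq, hsplit, hval] at h1
    have hne : ¬ ((!i) = i) := by simp
    simp only [hne, if_false] at h1
    have h2 : ∑ u, 2 * (if κ u = none then a u else 0) * (64 * pq M {Pr.dt (!i) j c} u - 2) =
        128 * ∑ u, (if κ u = none then a u else 0) * pq M {Pr.dt (!i) j c} u -
          4 * ∑ u, (if κ u = none then a u else 0) := by
      rw [Finset.mul_sum, Finset.mul_sum, ← Finset.sum_sub_distrib]
      refine Finset.sum_congr rfl fun u _ => ?_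
      ring
    rw [h2, hs2]
    have h3 : ∑ k, ((((2 - (W.op t j).Sq k c) / 16 : ℚ)) : ℝ) *
        ∑ u, (if κ u = some (j, k) then a u else 0) =
        (1 / 8) * ∑ k, ∑ u, (if κ u = some (j, k) then a u else 0) -
          (1 / 128) * ∑ k, 8 * (∑ u, (if κ u = some (j, k) then a u else 0)) *
            ((W.op t j).Sq k c : ℝ) := by
      rw [Finset.mul_sum, Finset.mul_sum, ← Finset.sum_sub_distrib]
      refine Finset.sum_congr rfl fun k _ => ?_
      push_cast
      ring
    rw [h3, hs8 j] at h1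
    linarith
  · intro j c
    rw [hpq, hsplit, hcf, hval]
    simp only [if_true]
    have h3 : ∑ k, ((((1 + (W.op t j).Tq k c) / 8 : ℚ)) : ℝ) *
        ∑ u, (if κ u = some (j, k) then a u else 0) =
        (1 / 8) * ∑ k, ∑ u, (if κ u = some (j, k) then a u else 0) +
          (1 / 64) * ∑ k, 8 * (∑ u, (if κ u = some (j, k) then a u else 0)) *
            ((W.op t j).Tq k c : ℝ) := by
      rw [Finset.mul_sum, Finset.mul_sum, ← Finset.sum_add_distrib]
      refine Finset.sum_congr rfl fun k _ => ?_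
      push_cast
      ring
    rw [h3, hs8 j]
    ring

end J16025

alias cf_values := J16025.cf_values

namespace J16026

/-! ### TARGET of this job: sound_main -/

theorem sound_main (hM : M.TreeLike) (s : M.S) (h : Gd W c0 M s) (i : Bool) (q : Q)
    (hs : s ∈ U M (cfS W i q)) :
    (∀ j, inK (fun c => 64 * pq M {Pr.dt i j c} s - 2)) ∧
      ∀ n : Rg → ℕ, (∀ j c, 64 * pq M {Pr.dt i j c} s - 2 = Pt (n j) c) → W.Rch c0 q n := by
  classical
  revert h i q hs
  refine (tree_wf M hM).induction (C := fun s => ∀ (h : Gd W c0 M s) (i : Bool) (q : Q)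
    (hs : s ∈ U M (cfS W i q)), (∀ j, inK (fun c => 64 * pq M {Pr.dt i j c} s - 2)) ∧
      ∀ n : Rg → ℕ, (∀ j c, 64 * pq M {Pr.dt i j c} s - 2 = Pt (n j) c) → W.Rch c0 q n) s ?_
  intro s ih h i q hs
  obtain ⟨a, ha, has⟩ := hs
  rcases ha with ⟨t, ht, rfl⟩ | ⟨rfl, rfl, rfl⟩
  · obtain ⟨b, w, hb0, hb1, hbu, hw0, hw1, hS, hT⟩ := cf_values W c0 M hM s h i t has
    have hih : ∀ u, b u ≠ 0 → (∀ j, inK (fun c => 64 * pq M {Pr.dt (!i) j c} u - 2)) ∧
        ∀ n : Rg → ℕ, (∀ j c, 64 * pq M {Pr.dt (!i) j c} u - 2 = Pt (n j) c) →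
          W.Rch c0 (W.src t) n := fun u hu =>
      ih u (hbu u hu).1 (gd_rc W c0 M s u h (hbu u hu).1.to_reflTransGen) (!i) (W.src t)
        (hbu u hu).2
    have hKS : ∀ j, inK (fun c => ∑ k, w j k * ((W.op t j).Sq k c : ℝ)) := by
      intro j
      have := inK_conv b (fun u c => 64 * pq M {Pr.dt (!i) j c} u - 2) hb0 hb1
        (fun u hu => (hih u hu).1 j)
      simp only [hS] at this
      exact this
    constructor
    · intro j
      have := op_K (W.op t j) (w j) (hw0 j) (hw1 j) (hKS j)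
      simp only [← hT] at this
      exact this
    · intro n hn
      have h1 : ∀ j, ∃ m, (W.op t j).rel m (n j) ∧
          ∀ c, ∑ k, w j k * ((W.op t j).Sq k c : ℝ) = Pt m c := fun j =>
        op_pt (W.op t j) (w j) (hw0 j) (hw1 j) (hKS j) (n j)
          (fun c => by rw [← hT]; exact hn j c)
      choose m hm1 hm2 using h1
      have hne : ∃ u, b u ≠ 0 := by
        by_contra hcon
        push Not at hcon
        simp [hcon] at hb1
      obtain ⟨u, hu⟩ := hne
      have h2 : ∀ j, (fun c => 64 * pq M {Pr.dt (!i) j c} u - 2) = Pt (m j) := fun j =>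
        Pt_extreme b (fun u c => 64 * pq M {Pr.dt (!i) j c} u - 2) hb0 hb1
          (fun u hu => (hih u hu).1 j) (m j) (fun c => (hS j c).trans (hm2 j c)) u hu
      have h3 := (hih u hu).2 m (fun j c => congrFun (h2 j) c)
      rw [← ht]
      exact NS.Rch.step t m n h3 hm1
  · have hC := h s Relation.ReflTransGen.refl
    have h1 := (hC.2.1 has).2.1
    have h2 : ∀ j c, 64 * pq M {Pr.dt false j c} s - 2 = Pt (c0 j) c := by
      intro j c
      have h3 : pq M {Pr.dt false j c} s = (1 + Pt (c0 j) c / 2) / 32 := h1 j c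
      rw [h3]
      ring
    constructor
    · intro j
      have h3 : (fun c => 64 * pq M {Pr.dt false j c} s - 2) = Pt (c0 j) := funext (h2 j)
      rw [h3]
      exact Pt_inK _
    · intro n hn
      have h3 : n = c0 := by
        funext j
        refine Pt_inj _ _ ?_
        rw [← hn j false, h2 j false]
      rw [h3]
      exact NS.Rch.init

end J16026

alias sound_main := J16026.sound_main

namespace J16027

/-! ### TARGET of this job: sound -/

theorem sound (hM : M.TreeLike) (s : M.S) (h : Gd W c0 M s) (qh : Q)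
    (hr : RootC W qh (M.v s) (fun A => pq M A s)) : W.Rch c0 qh (fun _ => 0) := by
  obtain ⟨i, ⟨x, hx, hxL⟩, hv⟩ := hr
  refine (sound_main W c0 M hM s h i qh ⟨x, hx, hxL⟩).2 (fun _ => 0) ?_
  intro j c
  have h1 : pq M {Pr.dt i j c} s = 3 / 64 := hv j c
  rw [h1]
  simp only [Pt]
  split_ifs <;> norm_num

end J16027

alias sound := J16027.sound

end sound

section complete

variable {Q T : Type} (W : NS Q T) (c0 : Rg → ℕ)

namespace J16028

/-! ### TARGET of this job: fan -/

/-- single-state chain -/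
noncomputable def fanLeaf {T : Type} (V : Set (Pr T)) : Chain (Pr T) where
  S := Unit
  fin := inferInstance
  P := fun _ _ => 1
  nonneg := by intro _ _; norm_num
  row := by intro _; simp
  v := fun _ => V

/-- its state -/
noncomputable def fanPt {T : Type} (V : Set (Pr T)) : (fanLeaf V).S := ()

theorem fanLeaf_rooted {T : Type} (V : Set (Pr T)) : (fanLeaf V).RootedAt (fanPt V) := by
  refine ⟨id, fun _ => 0, rfl, ?_, ?_, ?_⟩
  · intro s hs; exact absurd rfl hs
  · intro s u hs; exact absurd rfl hs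
  · intro s
    constructor
    · intro _ u hu; exact absurd rfl hu
    · intro _
      show (0 : ℝ) < 1
      norm_num

open Classical in
theorem fanLeaf_pq {T : Type} (V : Set (Pr T)) (A : Set (Pr T)) (s : (fanLeaf V).S) :
    pq (fanLeaf V) A s = if (∃ a ∈ A, a ∈ V) then 1 else 0 := by
  unfold pq
  split_ifs with h
  · exact prF_mem (fanLeaf V) _ s h
  · exact prF_leaf (fanLeaf V) _ s h (fun u hu => absurd rfl hu)

/-- labels of the leaves -/
def fanLab {T : Type} : Option (Bool × Rg × Bool) → Set (Pr T)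
  | none => ∅
  | some y => {Pr.dt y.1 y.2.1 y.2.2}

theorem fanLab_not {T : Type} (k : Option (Bool × Rg × Bool)) (A : Set (Pr T)) (hA : A ⊆ labS) :
    ¬ ∃ a ∈ A, a ∈ fanLab k := by
  rintro ⟨a, ha, hb⟩
  cases k with
  | none => exact hb
  | some y => exact hA ha _ _ _ hb

/-- weights -/
noncomputable def fanP (f : Bool → Rg → Bool → ℝ) : Option (Bool × Rg × Bool) → ℝ
  | none => 1 - ∑ i, ∑ j, ∑ c, f i j c
  | some y => f y.1 y.2.1 y.2.2

theorem fanP_nonneg (f : Bool → Rg → Bool → ℝ) (hf : ∀ i j c, 0 ≤ f i j c)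
    (hf1 : ∑ i, ∑ j, ∑ c, f i j c < 1) (k : Option (Bool × Rg × Bool)) : 0 ≤ fanP f k := by
  cases k with
  | none => exact (sub_pos.mpr hf1).le
  | some y => exact hf _ _ _

open Classical in
theorem fanP_key (f : Bool → Rg → Bool → ℝ) (hf : ∀ i j c, 0 ≤ f i j c)
    (hf1 : ∑ i, ∑ j, ∑ c, f i j c < 1) (F : Option (Bool × Rg × Bool) → ℝ) :
    ∑ k : {k // 0 < fanP f k}, fanP f k.1 * F k.1 = ∑ k, fanP f k * F k := by
  rw [← Finset.sum_subtype (Finset.univ.filter (fun k => 0 < fanP f k)) (by simp)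
    (fun k => fanP f k * F k)]
  apply Finset.sum_filter_of_ne
  intro k _ hk
  exact lt_of_le_of_ne (fanP_nonneg f hf hf1 k) (fun h => hk (by rw [← h]; simp))

/-- a root with prescribed data probabilities -/
theorem fan (L : Set (Pr T)) (hL : ∀ i j c, Pr.dt i j c ∉ L) (f : Bool → Rg → Bool → ℝ)
    (hf : ∀ i j c, 0 ≤ f i j c) (hf1 : ∑ i, ∑ j, ∑ c, f i j c < 1) :
    ∃ (M : Chain (Pr T)) (s : M.S), M.RootedAt s ∧ M.v s = L ∧
      (∀ i j c, pq M {Pr.dt i j c} s = f i j c) ∧
      (∀ A : Set (Pr T), A ⊆ labS → (∀ a ∈ A, a ∉ L) → pq M A s = 0) ∧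
      ∀ u, u ≠ s → (∀ a ∈ M.v u, a ∉ labS) ∧ ∀ A : Set (Pr T), A ⊆ labS → pq M A u = 0 := by
  classical
  have hs : ∑ k : {k // 0 < fanP f k}, fanP f k.1 = 1 := by
    have h := fanP_key f hf hf1 (fun _ => 1)
    simp only [mul_one] at h
    rw [h, Fintype.sum_option]
    have h2 : ∑ y : Bool × Rg × Bool, fanP f (some y) = ∑ i, ∑ j, ∑ c, f i j c := by
      rw [Fintype.sum_prod_type]
      apply Finset.sum_congr rfl
      intro i _
      rw [Fintype.sum_prod_type]
      rfl
    rw [h2]
    show (1 - ∑ i, ∑ j, ∑ c, f i j c) + _ = 1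
    ring
  refine ⟨gl (fun k : {k // 0 < fanP f k} => fanLeaf (fanLab k.1)) (fun k => fanPt (fanLab k.1))
    (fun k => fanP f k.1) (fun k => k.2) hs L, none, ?_, rfl, ?_, ?_, ?_⟩
  · exact gl_rooted _ _ _ _ _ _ (fun k => fanLeaf_rooted _)
  · intro i j c
    rw [gl_pq_none _ _ _ _ _ _ _ (by rintro a rfl; exact hL i j c)]
    simp only [fanLeaf_pq]
    rw [fanP_key f hf hf1 (fun k => if (∃ a ∈ ({Pr.dt i j c} : Set (Pr T)), a ∈ fanLab k) then 1 else 0),
      Fintype.sum_option]
    rw [Finset.sum_eq_single (i, j, c)]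
    · simp [fanLab, fanP]
    · intro y _ hy
      rw [if_neg, mul_zero]
      rintro ⟨a, ha, hb⟩
      have hb' : a = Pr.dt y.1 y.2.1 y.2.2 := hb
      have ha' : a = Pr.dt i j c := ha
      rw [ha'] at hb'
      injection hb' with h1 h2 h3
      exact hy (by rw [h1, h2, h3])
    · intro h; exact absurd (Finset.mem_univ _) h
  · intro A hA hAL
    rw [gl_pq_none _ _ _ _ _ _ _ hAL]
    apply Finset.sum_eq_zero
    intro k _
    rw [fanLeaf_pq, if_neg (fanLab_not k.1 A hA), mul_zero]
  · intro u hu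
    rcases u with _ | ⟨k, x⟩
    · exact absurd rfl hu
    · constructor
      · intro a ha hlab
        exact fanLab_not k.1 labS (fun _ h => h) ⟨a, hlab, ha⟩
      · intro A hA
        rw [gl_pq_some, fanLeaf_pq, if_neg (fanLab_not k.1 A hA)]

end J16028

alias fan := J16028.fan

namespace J16029

/-! ### TARGET of this job: junk_model -/

theorem jvq_nonneg (o : Op) (i : Bool) (j : Rg) (k : Fin 3) (i' : Bool) (j' : Rg) (c : Bool) :
    0 ≤ jvq o i j k i' j' c := by
  unfold jvq
  have h1 := Tq_bd o k c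
  have h2 := Sq_bd o k c
  split_ifs
  · have := h1.1
    positivity
  · have : 0 ≤ 2 - o.Sq k c := by linarith [h2.2]
    positivity
  · exact le_rfl

theorem jvq_le (o : Op) (i : Bool) (j : Rg) (k : Fin 3) (i' : Bool) (j' : Rg) (c : Bool) :
    jvq o i j k i' j' c ≤ if j' = j then (if i' = i then 1 / 4 else 1 / 8) else 0 := by
  unfold jvq
  have h1 := Tq_bd o k c
  have h2 := Sq_bd o k c
  split_ifs
  · linarith [h1.2]
  · linarith [h2.1]
  · exact le_rfl

theorem jvq_sum (o : Op) (i : Bool) (j : Rg) (k : Fin 3) :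
    ∑ i', ∑ j' : Rg, ∑ c, (jvq o i j k i' j' c : ℝ) < 1 := by
  have h1 : ∑ i', ∑ j' : Rg, ∑ c, (jvq o i j k i' j' c : ℚ) < 1 := by
    calc ∑ i', ∑ j' : Rg, ∑ c, (jvq o i j k i' j' c : ℚ)
        ≤ ∑ i' : Bool, ∑ j' : Rg, ∑ _c : Bool,
            (if j' = j then (if i' = i then (1 : ℚ) / 4 else 1 / 8) else 0) :=
          Finset.sum_le_sum fun i' _ => Finset.sum_le_sum fun j' _ =>
            Finset.sum_le_sum fun c _ => jvq_le o i j k i' j' c
      _ = ∑ i' : Bool, ∑ _c : Bool, (if i' = i then (1 : ℚ) / 4 else 1 / 8) := by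
          refine Finset.sum_congr rfl fun i' _ => ?_
          rw [Finset.sum_comm]
          refine Finset.sum_congr rfl fun c _ => ?_
          rw [Finset.sum_ite_eq' Finset.univ j, if_pos (Finset.mem_univ _)]
      _ < 1 := by
          rw [Fintype.sum_bool]
          simp only [Fintype.sum_bool]
          cases i <;> norm_num
  have h2 : ((∑ i', ∑ j' : Rg, ∑ c, (jvq o i j k i' j' c : ℚ) : ℚ) : ℝ) < 1 := by exact_mod_cast h1
  push_cast at h2
  exact h2

/-- auxiliary trees -/
theorem junk_model (i : Bool) (t : T) (j : Rg) (k : Fin 3) :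
    ∃ (M : Chain (Pr T)) (s : M.S), M.RootedAt s ∧ M.v s = {Pr.jk i t j k} ∧
      (∀ i' j' c, pq M {Pr.dt i' j' c} s = (jvq (W.op t j) i j k i' j' c : ℝ)) ∧
      (∀ A : Set (Pr T), A ⊆ labS → Pr.jk i t j k ∉ A → pq M A s = 0) ∧
      ∀ u, Cstr W c0 (M.v u) (fun A => pq M A u) := by
  obtain ⟨M, s, hr, hv, hd, hA, hu⟩ := fan (T := T) {Pr.jk i t j k}
    (by
      intro i' j' c h
      rw [Set.mem_singleton_iff] at h
      cases h)
    (fun i' j' c => (jvq (W.op t j) i j k i' j' c : ℝ))
    (by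
      intro i' j' c
      exact_mod_cast jvq_nonneg _ _ _ _ _ _ _)
    (jvq_sum (W.op t j) i j k)
  refine ⟨M, s, hr, hv, hd, ?_, ?_⟩
  · intro A hAl hnot
    refine hA A hAl ?_
    intro a ha h
    rw [Set.mem_singleton_iff] at h
    rw [h] at ha
    exact hnot ha
  · intro u
    by_cases hus : u = s
    · subst hus
      refine ⟨?_, ?_, ?_, ?_⟩
      · intro i2 t2 h
        rw [hv, Set.mem_singleton_iff] at h
        cases h
      · intro h
        rw [hv, Set.mem_singleton_iff] at h
        cases h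
      · intro i2 t2 j2 k2 h
        rw [hv, Set.mem_singleton_iff] at h
        injection h with e1 e2 e3 e4
        subst e1 e2 e3 e4
        refine ⟨?_, ?_⟩
        · refine hA _ Set.diff_subset ?_
          intro a ha h'
          exact ha.2 h'
        · intro i' j' c
          exact hd i' j' c
      · intro i2 j2 c h
        rw [hv, Set.mem_singleton_iff] at h
        cases h
    · obtain ⟨hu1, hu2⟩ := hu u hus
      refine ⟨?_, ?_, ?_, ?_⟩
      · intro i2 t2 h
        exact absurd (fun _ _ _ h' => by cases h') (hu1 _ h)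
      · intro h
        exact absurd (fun _ _ _ h' => by cases h') (hu1 _ h)
      · intro i2 t2 j2 k2 h
        exact absurd (fun _ _ _ h' => by cases h') (hu1 _ h)
      · intro i2 j2 c _
        exact hu2 _ subset_rfl

end J16029

alias junk_model := J16029.junk_model

namespace J16030

/-! ### TARGET of this job: ini_model -/


theorem Pt_mem' (n : ℕ) (c : Bool) : 0 ≤ Pt n c ∧ Pt n c ≤ 1 := by
  unfold Pt
  split_ifs
  · exact ⟨by positivity, pow_le_one₀ (by norm_num) (by norm_num)⟩
  · exact ⟨by positivity, pow_le_one₀ (by norm_num) (by norm_num)⟩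

theorem ini_model :
    ∃ (M : Chain (Pr T)) (s : M.S), M.RootedAt s ∧ M.v s = {Pr.ini} ∧
      (∀ j c, pq M {Pr.dt false j c} s = (1 + Pt (c0 j) c / 2) / 32) ∧
      (∀ j c, pq M {Pr.dt true j c} s = 1 / 32) ∧
      ∀ u, Cstr W c0 (M.v u) (fun A => pq M A u) := by
  let f : Bool → Rg → Bool → ℝ := fun i j c =>
    if i = false then (1 + Pt (c0 j) c / 2) / 32 else 1 / 32
  have hL : ∀ i j c, (Pr.dt i j c : Pr T) ∉ ({Pr.ini} : Set (Pr T)) := by
    intro i j c h
    have h' : (Pr.dt i j c : Pr T) = Pr.ini := h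
    exact absurd h' (by simp)
  have hf : ∀ i j c, 0 ≤ f i j c := by
    intro i j c
    show 0 ≤ (if i = false then (1 + Pt (c0 j) c / 2) / 32 else 1 / 32 : ℝ)
    have := (Pt_mem' (c0 j) c).1
    split_ifs <;> positivity
  have hf2 : ∀ i j c, f i j c ≤ 3 / 64 := by
    intro i j c
    show (if i = false then (1 + Pt (c0 j) c / 2) / 32 else 1 / 32 : ℝ) ≤ 3 / 64
    have := (Pt_mem' (c0 j) c).2
    split_ifs <;> linarith
  have hf1 : ∑ i, ∑ j, ∑ c, f i j c < 1 := by
    calc ∑ i, ∑ j, ∑ c, f i j c ≤ ∑ _i : Bool, ∑ _j : Rg, ∑ _c : Bool, (3 / 64 : ℝ) :=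
          Finset.sum_le_sum fun i _ => Finset.sum_le_sum fun j _ =>
            Finset.sum_le_sum fun c _ => hf2 i j c
      _ < 1 := by
        simp only [Finset.sum_const, Finset.card_univ, Fintype.card_bool, Fintype.card_prod,
          nsmul_eq_mul]
        norm_num
  obtain ⟨M, s, hroot, hv, hdt, hlab, hoth⟩ := fan {Pr.ini} hL f hf hf1
  refine ⟨M, s, hroot, hv, fun j c => ?_, fun j c => ?_, fun u => ?_⟩
  · rw [hdt]
    exact if_pos rfl
  · rw [hdt]
    exact if_neg (by decide)
  · by_cases hu : u = s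
    · subst hu
      rw [hv]
      refine ⟨?_, ?_, ?_, ?_⟩
      · intro i t h
        have h' : (Pr.cf i t : Pr T) = Pr.ini := h
        exact absurd h' (by simp)
      · intro _
        refine ⟨?_, fun j c => ?_, fun j c => ?_⟩
        · exact hlab _ Set.sdiff_subset (fun a ha => ha.2)
        · show pq M {Pr.dt false j c} u = _
          rw [hdt]
          exact if_pos rfl
        · show pq M {Pr.dt true j c} u = _
          rw [hdt]
          exact if_neg (by decide)
      · intro i t j k h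
        have h' : (Pr.jk i t j k : Pr T) = Pr.ini := h
        exact absurd h' (by simp)
      · intro i j c h
        exact absurd h (hL i j c)
    · obtain ⟨h1, h2⟩ := hoth u hu
      refine ⟨?_, ?_, ?_, ?_⟩
      · intro i t h
        exact absurd (fun _ _ _ => by simp) (h1 _ h)
      · intro h
        exact absurd (fun _ _ _ => by simp) (h1 _ h)
      · intro i t j k h
        exact absurd (fun _ _ _ => by simp) (h1 _ h)
      · intro i j c _
        exact h2 labS (fun _ h => h)

end J16030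

alias ini_model := J16030.ini_model

namespace J16031

/-! ### TARGET of this job: step_glue -/

theorem sg_prF_mem {α : Type} (M : Chain α) (T' : Set M.S) (s : M.S) (h : s ∈ T') :
    M.prF T' s = 1 := by
  unfold Chain.prF
  have h1 : ∀ n, M.hit T' n s = 1 := by
    intro n
    cases n with
    | zero => unfold Chain.hit; rw [if_pos h]
    | succ n => unfold Chain.hit; rw [if_pos h]
  simp only [h1]
  exact ciSup_const

/-- family of chains -/
def sgM {α Y : Type} (M0 : Chain α) (MJ : Y → Chain α) : Option Y → Chain α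
  | none => M0
  | some y => MJ y

/-- family of roots -/
def sgr {α Y : Type} (M0 : Chain α) (MJ : Y → Chain α) (s0 : M0.S) (sJ : ∀ y, (MJ y).S) :
    ∀ k, (sgM M0 MJ k).S
  | none => s0
  | some y => sJ y

/-- family of weights -/
noncomputable def sgp {Y : Type} (w : Y → ℝ) : Option Y → ℝ
  | none => 1 / 2
  | some y => w y / 8

open Classical in
theorem sg_sum (w : Rg → Fin 3 → ℝ) (f : Rg × Fin 3 → ℝ)
    (hf : ∀ y, ¬ 0 < w y.1 y.2 → f y = 0) :
    ∑ y : {y : Rg × Fin 3 // 0 < w y.1 y.2}, f y.1 = ∑ j, ∑ k, f (j, k) := by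
  rw [← Fintype.sum_prod_type]
  have h1 : ∑ a ∈ Finset.univ.filter (fun y : Rg × Fin 3 => 0 < w y.1 y.2), f a =
      ∑ a : {y : Rg × Fin 3 // 0 < w y.1 y.2}, f a.1 :=
    Finset.sum_subtype _ (by intro x; simp) f
  rw [← h1]
  refine Finset.sum_filter_of_ne ?_
  intro y _ hy
  by_contra hcon
  exact hy (hf y hcon)

open Classical in
/-- one simulation step, before the choice of the weights -/
theorem step_glue (i : Bool) (t : T) (w : Rg → Fin 3 → ℝ) (hw : ∀ j k, 0 ≤ w j k)
    (hs : ∀ j, ∑ k, w j k = 1) (M0 : Chain (Pr T)) (s0 : M0.S) (h0 : M0.RootedAt s0)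
    (hC0 : ∀ u, Cstr W c0 (M0.v u) (fun A => pq M0 A u)) :
    ∃ (M : Chain (Pr T)) (s : M.S), M.RootedAt s ∧ M.v s = {Pr.cf i t} ∧
      (∀ A : Set (Pr T), A ⊆ labS → Pr.cf i t ∉ A → pq M A s = 1 / 2 * pq M0 A s0 +
        ∑ j, ∑ k, w j k / 8 * (if Pr.jk i t j k ∈ A then 1 else 0)) ∧
      (∀ i' j' c, pq M {Pr.dt i' j' c} s = 1 / 2 * pq M0 {Pr.dt i' j' c} s0 +
        ∑ j, ∑ k, w j k / 8 * (jvq (W.op t j) i j k i' j' c : ℝ)) ∧
      ∀ u, u ≠ s → Cstr W c0 (M.v u) (fun A => pq M A u) := by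
  have hj := fun y : {y : Rg × Fin 3 // 0 < w y.1 y.2} => junk_model W c0 i t y.1.1 y.1.2
  choose MJ sJ hJ1 hJ2 hJ3 hJ4 hJ5 using hj
  set w' : {y : Rg × Fin 3 // 0 < w y.1 y.2} → ℝ := fun y => w y.1.1 y.1.2 with hw'
  have hp : ∀ k, 0 < sgp w' k := by
    intro k
    cases k with
    | none => unfold sgp; norm_num
    | some y =>
      have := y.2
      unfold sgp
      rw [hw']
      positivity
  have hsum : ∑ k, sgp w' k = 1 := by
    rw [Fintype.sum_option]
    unfold sgp
    rw [hw']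
    have h1 := sg_sum w (fun y => w y.1 y.2 / 8) (by
      intro y hy
      have : w y.1 y.2 = 0 := le_antisymm (not_lt.mp hy) (hw _ _)
      simp [this])
    rw [h1]
    have h2 : ∀ j : Rg, ∑ k, w j k / 8 = 1 / 8 := by
      intro j
      rw [← Finset.sum_div, hs]
    simp only [h2]
    simp
    norm_num
  refine ⟨gl (sgM M0 MJ) (sgr M0 MJ s0 sJ) (sgp w') hp hsum {Pr.cf i t}, none, ?_, rfl, ?_, ?_, ?_⟩
  · apply gl_rooted
    intro k
    cases k with
    | none => exact h0
    | some y => exact hJ1 y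
  · intro A hA hcf
    rw [gl_pq_none (sgM M0 MJ) (sgr M0 MJ s0 sJ) (sgp w') hp hsum {Pr.cf i t} A (by
      intro a ha hmem
      rw [Set.mem_singleton_iff] at hmem
      rw [hmem] at ha
      exact hcf ha)]
    rw [Fintype.sum_option]
    have h1 : ∀ y : {y : Rg × Fin 3 // 0 < w y.1 y.2},
        sgp w' (some y) * pq (sgM M0 MJ (some y)) A (sgr M0 MJ s0 sJ (some y)) =
        w y.1.1 y.1.2 / 8 * (if Pr.jk i t y.1.1 y.1.2 ∈ A then 1 else 0) := by
      intro y
      have e1 : sgp w' (some y) = w y.1.1 y.1.2 / 8 := rfl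
      have e2 : pq (sgM M0 MJ (some y)) A (sgr M0 MJ s0 sJ (some y)) = pq (MJ y) A (sJ y) := rfl
      rw [e1, e2]
      congr 1
      split_ifs with hjk
      · unfold pq
        apply sg_prF_mem
        refine ⟨_, hjk, ?_⟩
        rw [hJ2 y]
        exact Set.mem_singleton _
      · exact hJ4 y A hA hjk
    rw [Finset.sum_congr rfl (fun y _ => h1 y)]
    have h2 := sg_sum w (fun y => w y.1 y.2 / 8 * (if Pr.jk i t y.1 y.2 ∈ A then 1 else 0)) (by
      intro y hy
      have : w y.1 y.2 = 0 := le_antisymm (not_lt.mp hy) (hw _ _)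
      simp [this])
    rw [h2]
    rfl
  · intro i' j' c
    rw [gl_pq_none (sgM M0 MJ) (sgr M0 MJ s0 sJ) (sgp w') hp hsum {Pr.cf i t} {Pr.dt i' j' c} (by
      intro a ha hmem
      rw [Set.mem_singleton_iff] at hmem ha
      rw [hmem] at ha
      cases ha)]
    rw [Fintype.sum_option]
    have h1 : ∀ y : {y : Rg × Fin 3 // 0 < w y.1 y.2},
        sgp w' (some y) * pq (sgM M0 MJ (some y)) {Pr.dt i' j' c} (sgr M0 MJ s0 sJ (some y)) =
        w y.1.1 y.1.2 / 8 * (jvq (W.op t y.1.1) i y.1.1 y.1.2 i' j' c : ℝ) := by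
      intro y
      have e1 : sgp w' (some y) = w y.1.1 y.1.2 / 8 := rfl
      have e2 : pq (sgM M0 MJ (some y)) {Pr.dt i' j' c} (sgr M0 MJ s0 sJ (some y)) =
        pq (MJ y) {Pr.dt i' j' c} (sJ y) := rfl
      rw [e1, e2, hJ3 y]
    rw [Finset.sum_congr rfl (fun y _ => h1 y)]
    have h2 := sg_sum w (fun y => w y.1 y.2 / 8 *
        (jvq (W.op t y.1) i y.1 y.2 i' j' c : ℝ)) (by
      intro y hy
      have : w y.1 y.2 = 0 := le_antisymm (not_lt.mp hy) (hw _ _)
      simp [this])
    rw [h2]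
    rfl
  · intro u hu
    cases u with
    | none => exact absurd rfl hu
    | some kx =>
      obtain ⟨k, x⟩ := kx
      have h1 : (fun A => pq (gl (sgM M0 MJ) (sgr M0 MJ s0 sJ) (sgp w') hp hsum {Pr.cf i t}) A
          (some ⟨k, x⟩)) = fun A => pq (sgM M0 MJ k) A x := by
        funext A
        exact gl_pq_some _ _ _ hp hsum _ A k x
      rw [h1]
      cases k with
      | none => exact hC0 x
      | some y => exact hJ5 y x

end J16031

alias step_glue := J16031.step_glue

namespace J16033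

/-! ### TARGET of this job: step_model -/

theorem sm_cfS_sub {Q T : Type} (W : NS Q T) (i : Bool) (q : Q) : cfS W i q ⊆ (phS i : Set (Pr T)) := by
  rintro x (⟨t, _, rfl⟩ | ⟨h1, _, rfl⟩)
  · exact Or.inl ⟨t, rfl⟩
  · exact Or.inr ⟨h1, rfl⟩

theorem sm_phS_lab {T : Type} (i : Bool) : (phS i : Set (Pr T)) ⊆ labS := by
  rintro x (⟨t, rfl⟩ | ⟨_, rfl⟩) i' j c <;> simp

theorem sm_cfS_lab {Q T : Type} (W : NS Q T) (i : Bool) (q : Q) : cfS W i q ⊆ (labS : Set (Pr T)) :=
  (sm_cfS_sub W i q).trans (sm_phS_lab i)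

theorem sm_gaS_lab {T : Type} (i : Bool) (t : T) : (gaS i t : Set (Pr T)) ⊆ labS := by
  rintro x ⟨j, k, rfl⟩ i' j' c
  simp

theorem sm_gS_lab {T : Type} (i : Bool) (t : T) (j : Rg) : (gS i t j : Set (Pr T)) ⊆ labS := by
  rintro x ⟨k, rfl⟩ i' j' c
  simp

theorem sm_b2S_lab {Q T : Type} (W : NS Q T) (i : Bool) (t : T) : b2S W i t ⊆ (labS : Set (Pr T)) := by
  rintro x ⟨q, _, hx⟩
  exact sm_cfS_lab W i q hx

theorem sm_cf_phS {T : Type} (i : Bool) (t : T) : Pr.cf i t ∉ (phS (!i) : Set (Pr T)) := by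
  rintro (⟨t', h⟩ | ⟨_, h⟩)
  · rw [Pr.cf.injEq] at h
    cases i <;> simp at h
  · cases h

theorem sm_jk_phS {T : Type} (i i' : Bool) (t : T) (j : Rg) (k : Fin 3) :
    Pr.jk i t j k ∉ (phS i' : Set (Pr T)) := by
  rintro (⟨t', h⟩ | ⟨_, h⟩)
  · cases h
  · cases h

/-- one simulation step -/
theorem step_model (i : Bool) (t : T) (n n' : Rg → ℕ) (hn : ∀ j, (W.op t j).rel (n j) (n' j))
    (M0 : Chain (Pr T)) (s0 : M0.S) (h0 : M0.RootedAt s0)
    (hc0 : ∃ x ∈ cfS W (!i) (W.src t), x ∈ M0.v s0)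
    (hd0 : ∀ j c, pq M0 {Pr.dt (!i) j c} s0 = (1 + Pt (n j) c / 2) / 32)
    (he0 : ∀ j c, pq M0 {Pr.dt i j c} s0 = 1 / 32)
    (hC0 : ∀ u, Cstr W c0 (M0.v u) (fun A => pq M0 A u)) :
    ∃ (M : Chain (Pr T)) (s : M.S), M.RootedAt s ∧ M.v s = {Pr.cf i t} ∧
      (∀ j c, pq M {Pr.dt i j c} s = (1 + Pt (n' j) c / 2) / 32) ∧
      (∀ j c, pq M {Pr.dt (!i) j c} s = 1 / 32) ∧
      ∀ u, Cstr W c0 (M.v u) (fun A => pq M A u) := by
  classical
  choose w hw hsum hS hT using fun j => op_bary (W.op t j) (n j) (n' j) (hn j)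
  obtain ⟨M, s, hroot, hv, hA, hD, hC⟩ := step_glue W c0 i t w hw hsum M0 s0 h0 hC0
  obtain ⟨x, hx, hxs⟩ := hc0
  have hxph : x ∈ (phS (!i) : Set (Pr T)) := sm_cfS_sub W (!i) _ hx
  have hone : ∀ A : Set (Pr T), x ∈ A → pq M0 A s0 = 1 := by
    intro A hxA
    exact prF_mem M0 _ s0 ⟨x, hxA, hxs⟩
  have hjk : ∀ (A : Set (Pr T)), (∀ j k, Pr.jk i t j k ∉ A) →
      ∑ j, ∑ k, w j k / 8 * (if Pr.jk i t j k ∈ A then (1 : ℝ) else 0) = 0 := by
    intro A hn
    apply Finset.sum_eq_zero
    intro j _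
    apply Finset.sum_eq_zero
    intro k _
    rw [if_neg (hn j k), mul_zero]
  have hsum8 : ∀ j, ∑ k, w j k / 8 = 1 / 8 := by
    intro j
    rw [← Finset.sum_div, hsum]
  have hjk1 : ∀ (A : Set (Pr T)), (∀ j k, Pr.jk i t j k ∈ A) →
      ∑ j, ∑ k, w j k / 8 * (if Pr.jk i t j k ∈ A then (1 : ℝ) else 0) = 1 / 2 := by
    intro A hn
    have e : ∀ j, ∑ k, w j k / 8 * (if Pr.jk i t j k ∈ A then (1 : ℝ) else 0) = 1 / 8 := by
      intro j
      rw [← hsum8 j]
      apply Finset.sum_congr rfl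
      intro k _
      rw [if_pos (hn j k), mul_one]
    rw [Finset.sum_congr rfl fun j _ => e j]
    simp
    norm_num
  have hjk2 : ∀ (A : Set (Pr T)) (j0 : Rg), (∀ j k, Pr.jk i t j k ∈ A ↔ j = j0) →
      ∑ j, ∑ k, w j k / 8 * (if Pr.jk i t j k ∈ A then (1 : ℝ) else 0) = 1 / 8 := by
    intro A j0 hn
    rw [Finset.sum_eq_single j0]
    · rw [← hsum8 j0]
      apply Finset.sum_congr rfl
      intro k _
      rw [if_pos ((hn j0 k).2 rfl), mul_one]
    · intro j' _ hj'
      apply Finset.sum_eq_zero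
      intro k _
      rw [if_neg (fun h => hj' ((hn j' k).1 h)), mul_zero]
    · intro h; exact absurd (Finset.mem_univ j0) h
  -- the data sums
  have hdt : ∀ (i' : Bool) (j : Rg) (c : Bool), ∑ j', ∑ k, w j' k / 8 *
      (jvq (W.op t j') i j' k i' j c : ℝ) =
      ∑ k, w j k / 8 * (jvq (W.op t j) i j k i' j c : ℝ) := by
    intro i' j c
    apply Finset.sum_eq_single j
    · intro j' _ hj'
      apply Finset.sum_eq_zero
      intro k _
      unfold jvq
      rw [if_neg (fun h => hj' h.symm)]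
      simp
    · intro h; exact absurd (Finset.mem_univ j) h
  have hdi : ∀ j c, pq M {Pr.dt i j c} s = (1 + Pt (n' j) c / 2) / 32 := by
    intro j c
    rw [hD, he0, hdt]
    have e : ∀ k, w j k / 8 * (jvq (W.op t j) i j k i j c : ℝ) =
        w j k / 64 + (w j k * ((W.op t j).Tq k c : ℝ)) / 64 := by
      intro k
      unfold jvq
      rw [if_pos rfl, if_pos rfl]
      push_cast
      ring
    rw [Finset.sum_congr rfl fun k _ => e k, Finset.sum_add_distrib, ← Finset.sum_div,
      ← Finset.sum_div, hsum, hT]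
    ring
  have hdni : ∀ j c, pq M {Pr.dt (!i) j c} s = 1 / 32 := by
    intro j c
    rw [hD, hd0, hdt]
    have hne : (!i) ≠ i := by cases i <;> simp
    have e : ∀ k, w j k / 8 * (jvq (W.op t j) i j k (!i) j c : ℝ) =
        w j k / 64 - (w j k * ((W.op t j).Sq k c : ℝ)) / 128 := by
      intro k
      unfold jvq
      rw [if_pos rfl, if_neg hne]
      push_cast
      ring
    rw [Finset.sum_congr rfl fun k _ => e k, Finset.sum_sub_distrib, ← Finset.sum_div,
      ← Finset.sum_div, hsum, hS]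
    ring
  refine ⟨M, s, hroot, hv, hdi, hdni, ?_⟩
  intro u
  by_cases hu : u = s
  · subst hu
    refine ⟨?_, ?_, ?_, ?_⟩
    · intro i' t' hmem
      rw [hv, Set.mem_singleton_iff, Pr.cf.injEq] at hmem
      obtain ⟨rfl, rfl⟩ := hmem
      refine ⟨?_, ?_, ?_, ?_, hdni⟩
      · show pq M (gaS i' t' ∪ phS !i') u = 1
        rw [hA _ (Set.union_subset (sm_gaS_lab _ _) (sm_phS_lab _)), hone _ (Or.inr hxph),
          hjk1 _ (fun j k => Or.inl ⟨j, k, rfl⟩)]
        · norm_num
        · rintro (⟨j, k, h⟩ | h)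
          · cases h
          · exact sm_cf_phS _ _ h
      · intro j
        show pq M (gS i' t' j ∪ phS !i') u = 5 / 8
        rw [hA _ (Set.union_subset (sm_gS_lab _ _ _) (sm_phS_lab _)), hone _ (Or.inr hxph),
          hjk2 _ j]
        · norm_num
        · intro j' k
          constructor
          · rintro (⟨k', h⟩ | h)
            · rw [Pr.jk.injEq] at h
              exact h.2.2.1
            · exact absurd h (sm_jk_phS _ _ _ _ _)
          · rintro rfl
            exact Or.inl ⟨k, rfl⟩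
        · rintro (⟨k, h⟩ | h)
          · cases h
          · exact sm_cf_phS _ _ h
      · show pq M (cfS W (!i') (W.src t')) u = 1 / 2
        rw [hA _ (sm_cfS_lab _ _ _), hone _ hx, hjk]
        · norm_num
        · intro j k h
          exact sm_jk_phS _ _ _ _ _ (sm_cfS_sub _ _ _ h)
        · intro h
          exact sm_cf_phS _ _ (sm_cfS_sub _ _ _ h)
      · show pq M (b2S W i' t' ∪ phS !i') u = 1 / 2
        rw [hA _ (Set.union_subset (sm_b2S_lab _ _ _) (sm_phS_lab _)), hone _ (Or.inr hxph), hjk]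
        · norm_num
        · rintro j k (⟨q, _, h⟩ | h)
          · exact sm_jk_phS _ _ _ _ _ (sm_cfS_sub _ _ _ h)
          · exact sm_jk_phS _ _ _ _ _ h
        · rintro (⟨q, hq, h⟩ | h)
          · rcases h with ⟨t'', ht'', h⟩ | ⟨_, _, h⟩
            · rw [Pr.cf.injEq] at h
              apply hq
              rw [← ht'', h.2]
            · cases h
          · exact sm_cf_phS _ _ h
    · intro h
      rw [hv, Set.mem_singleton_iff] at h
      cases h
    · intro i' t' j k h
      rw [hv, Set.mem_singleton_iff] at h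
      cases h
    · intro i' j c h
      rw [hv, Set.mem_singleton_iff] at h
      cases h
  · exact hC u hu

end J16033

alias step_model := J16033.step_model

namespace J16036

/-! ### TARGET of this job: complete_main -/

theorem complete_main (q : Q) (n : Rg → ℕ) (h : W.Rch c0 q n) :
    ∃ (i : Bool) (M : Chain (Pr T)) (s : M.S), M.RootedAt s ∧
      (∃ x ∈ cfS W i q, x ∈ M.v s) ∧
      (∀ j c, pq M {Pr.dt i j c} s = (1 + Pt (n j) c / 2) / 32) ∧
      (∀ j c, pq M {Pr.dt (!i) j c} s = 1 / 32) ∧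
      ∀ u, Cstr W c0 (M.v u) (fun A => pq M A u) := by
  induction h with
  | init =>
    obtain ⟨M, s, h1, h2, h3, h4, h5⟩ := ini_model W c0
    refine ⟨false, M, s, h1, ?_, h3, ?_, h5⟩
    · refine ⟨Pr.ini, ?_, ?_⟩
      · unfold cfS
        exact Or.inr ⟨rfl, rfl, rfl⟩
      · rw [h2]; rfl
    · intro j c
      exact h4 j c
  | step t c c' hr hrel ih =>
    obtain ⟨i0, M0, s0, g1, g2, g3, g4, g5⟩ := ih
    obtain ⟨M, s, h1, h2, h3, h4, h5⟩ := step_model W c0 (!i0) t c c' hrel M0 s0 g1
      (by rw [Bool.not_not]; exact g2) (by rw [Bool.not_not]; exact g3) g4 g5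
    refine ⟨!i0, M, s, h1, ?_, h3, h4, h5⟩
    refine ⟨Pr.cf (!i0) t, ?_, ?_⟩
    · unfold cfS
      exact Or.inl ⟨t, rfl, rfl⟩
    · rw [h2]; rfl

end J16036

alias complete_main := J16036.complete_main

end complete

section formula

/-- the disjunction of a list -/
def orl {α : Type} (a0 : α) : List (Form α) → Form α
  | [] => .and (.atom a0) (.neg (.atom a0))
  | φ :: l => .or φ (orl a0 l)

/-- the conjunction of a list -/
def andl {α : Type} (a0 : α) : List (Form α) → Form α
  | [] => .or (.atom a0) (.neg (.atom a0))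
  | φ :: l => .and φ (andl a0 l)

namespace J16037

/-! ### TARGET of this job: sat_orl -/

theorem sat_orl {α : Type} (a0 : α) (M : Chain α) (l : List (Form α)) (s : M.S) :
    s ∈ M.sat (orl a0 l) ↔ ∃ φ ∈ l, s ∈ M.sat φ := by
  induction l with
  | nil =>
    constructor
    · intro h
      exact absurd h.1 h.2
    · rintro ⟨φ, hφ, _⟩
      simp at hφ
  | cons φ l ih =>
    constructor
    · intro h
      rcases h with h | h
      · exact ⟨φ, List.mem_cons_self, h⟩
      · obtain ⟨ψ, h1, h2⟩ := ih.1 h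
        exact ⟨ψ, List.mem_cons_of_mem _ h1, h2⟩
    · rintro ⟨ψ, h1, h2⟩
      rcases List.mem_cons.1 h1 with h3 | h3
      · subst h3
        exact Or.inl h2
      · exact Or.inr (ih.2 ⟨ψ, h3, h2⟩)

end J16037

alias sat_orl := J16037.sat_orl

namespace J16038

/-! ### TARGET of this job: sat_andl -/

theorem sat_andl {α : Type} (a0 : α) (M : Chain α) (l : List (Form α)) (s : M.S) :
    s ∈ M.sat (andl a0 l) ↔ ∀ φ ∈ l, s ∈ M.sat φ := by
  induction l with
  | nil =>
    constructor
    · intro _ φ hφ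
      simp at hφ
    · intro _
      show s ∈ M.sat (.atom a0) ∪ (M.sat (.atom a0))ᶜ
      rw [Set.union_compl_self]
      trivial
  | cons φ l ih =>
    constructor
    · intro h ψ hψ
      have h' : s ∈ M.sat φ ∩ M.sat (andl a0 l) := h
      rcases List.mem_cons.mp hψ with rfl | h2
      · exact h'.1
      · exact ih.mp h'.2 ψ h2
    · intro h
      show s ∈ M.sat φ ∩ M.sat (andl a0 l)
      exact ⟨h φ List.mem_cons_self, ih.mpr fun ψ hψ => h ψ (List.mem_cons_of_mem _ hψ)⟩

end J16038

alias sat_andl := J16038.sat_andl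

/-- conjunction over a finite type -/
noncomputable def allF {α ι : Type} [Fintype ι] (a0 : α) (f : ι → Form α) : Form α :=
  andl a0 ((Finset.univ : Finset ι).toList.map f)

/-- disjunction over a finite type -/
noncomputable def anyF {α ι : Type} [Fintype ι] (a0 : α) (f : ι → Form α) : Form α :=
  orl a0 ((Finset.univ : Finset ι).toList.map f)

namespace J16039

/-! ### TARGET of this job: sat_allF -/

theorem sat_allF {α ι : Type} [Fintype ι] (a0 : α) (f : ι → Form α) (M : Chain α) (s : M.S) :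
    s ∈ M.sat (allF a0 f) ↔ ∀ x, s ∈ M.sat (f x) := by
  unfold allF
  rw [sat_andl]
  constructor
  · intro h x
    exact h (f x) (List.mem_map.2 ⟨x, Finset.mem_toList.2 (Finset.mem_univ x), rfl⟩)
  · intro h φ hφ
    obtain ⟨x, -, rfl⟩ := List.mem_map.1 hφ
    exact h x

end J16039

alias sat_allF := J16039.sat_allF

namespace J16040

/-! ### TARGET of this job: sat_anyF -/

theorem sat_anyF {α ι : Type} [Fintype ι] (a0 : α) (f : ι → Form α) (M : Chain α) (s : M.S) :
    s ∈ M.sat (anyF a0 f) ↔ ∃ x, s ∈ M.sat (f x) := by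
  unfold anyF
  rw [sat_orl]
  constructor
  · rintro ⟨φ, h, hs⟩
    obtain ⟨x, _, rfl⟩ := List.mem_map.mp h
    exact ⟨x, hs⟩
  · rintro ⟨x, hs⟩
    exact ⟨f x, List.mem_map.mpr ⟨x, by simp, rfl⟩, hs⟩

end J16040

alias sat_anyF := J16040.sat_anyF

variable {Q T : Type} [Fintype T] (W : NS Q T)

noncomputable instance : Fintype (Pr T) := by
  classical
  exact Fintype.ofInjective (β := Option ((Bool × T) ⊕ (Bool × T × Rg × Fin 3) ⊕ (Bool × Rg × Bool)))
    (fun x => match x with
      | .ini => none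
      | .cf i t => some (.inl (i, t))
      | .jk i t j k => some (.inr (.inl (i, t, j, k)))
      | .dt i j c => some (.inr (.inr (i, j, c)))) (by
      intro x y h
      cases x <;> cases y <;> simp_all)

/-- the formula saying that a proposition of `A` holds -/
noncomputable def fA (A : Set (Pr T)) : Form (Pr T) := by
  classical
  exact orl Pr.ini (((Finset.univ : Finset (Pr T)).filter (· ∈ A)).toList.map Form.atom)

namespace J16041

/-! ### TARGET of this job: sat_fA -/

theorem sat_fA (A : Set (Pr T)) (M : Chain (Pr T)) (s : M.S) :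
    s ∈ M.sat (fA A) ↔ s ∈ U M A := by
  classical
  unfold fA
  rw [sat_orl]
  constructor
  · rintro ⟨φ, hφ, hs⟩
    rw [List.mem_map] at hφ
    obtain ⟨a, ha, rfl⟩ := hφ
    rw [Finset.mem_toList, Finset.mem_filter] at ha
    exact ⟨a, ha.2, hs⟩
  · rintro ⟨a, ha, hs⟩
    refine ⟨Form.atom a, ?_, hs⟩
    rw [List.mem_map]
    refine ⟨a, ?_, rfl⟩
    rw [Finset.mem_toList, Finset.mem_filter]
    exact ⟨Finset.mem_univ _, ha⟩

end J16041

alias sat_fA := J16041.sat_fA

/-- `P(F A) = r`, for a rational number `r` clamped to `[0,1]` -/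
noncomputable def eqP (A : Set (Pr T)) (r : ℚ) : Form (Pr T) :=
  .PF (fA A) .eq (Set.projIcc 0 1 zero_le_one r)

namespace J16042

/-! ### TARGET of this job: sat_eqP -/

theorem sat_eqP (A : Set (Pr T)) (r : ℚ) (h0 : 0 ≤ r) (h1 : r ≤ 1) (M : Chain (Pr T)) (s : M.S) :
    s ∈ M.sat (eqP A r) ↔ pq M A s = (r : ℝ) := by
  have hset : M.sat (fA A) = U M A := by
    ext u
    exact sat_fA A M u
  have hpr : ((Set.projIcc (0 : ℚ) 1 zero_le_one r : Set.Icc (0 : ℚ) 1) : ℚ) = r := by
    rw [Set.projIcc_of_mem zero_le_one ⟨h0, h1⟩]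
  show (M.prF (M.sat (fA A)) s = (((Set.projIcc (0 : ℚ) 1 zero_le_one r : Set.Icc (0 : ℚ) 1) : ℚ) : ℝ)) ↔ _
  rw [hset, hpr]
  rfl

end J16042

alias sat_eqP := J16042.sat_eqP

/-- implication -/
def imp {α : Type} (φ ψ : Form α) : Form α := .or (.neg φ) ψ

/-- the part of the constraint that does not depend on the input -/
noncomputable def gam : Form (Pr T) :=
  .and (allF Pr.ini fun x : Bool × T => imp (.atom (Pr.cf x.1 x.2))
      (.and (eqP (gaS x.1 x.2 ∪ phS !x.1) 1) (.and (allF Pr.ini fun j : Rg =>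
        eqP (gS x.1 x.2 j ∪ phS !x.1) (5 / 8)) (.and (eqP (cfS W (!x.1) (W.src x.2)) (1 / 2))
        (.and (eqP (b2S W x.1 x.2 ∪ phS !x.1) (1 / 2)) (allF Pr.ini fun y : Rg × Bool =>
          eqP {Pr.dt (!x.1) y.1 y.2} (1 / 32)))))))
  (.and (allF Pr.ini fun x : Bool × T × Rg × Fin 3 =>
      imp (.atom (Pr.jk x.1 x.2.1 x.2.2.1 x.2.2.2))
        (.and (eqP (labS \ {Pr.jk x.1 x.2.1 x.2.2.1 x.2.2.2}) 0)
          (allF Pr.ini fun y : Bool × Rg × Bool => eqP {Pr.dt y.1 y.2.1 y.2.2}
            (jvq (W.op x.2.1 x.2.2.1) x.1 x.2.2.1 x.2.2.2 y.1 y.2.1 y.2.2))))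
    (allF Pr.ini fun x : Bool × Rg × Bool => imp (.atom (Pr.dt x.1 x.2.1 x.2.2)) (eqP labS 0)))

/-- the part of the constraint for initial states that does not depend on the input -/
noncomputable def ini1 : Form (Pr T) :=
  .and (eqP (labS \ {Pr.ini}) 0) (.and (allF Pr.ini fun y : Rg × Bool =>
      eqP {Pr.dt true y.1 y.2} (1 / 32))
    (allF Pr.ini fun y : Rg × Bool => if y.1 = (false, true) then .or (.atom Pr.ini) (.neg (.atom Pr.ini))
      else eqP {Pr.dt false y.1 y.2} (3 / 64)))

/-- value of the data probability encoding the input -/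
def rin (n : ℕ) : ℚ := (1 + (1 / 2) ^ n / 2) / 32

/-- the constraint -/
noncomputable def Gam (n : ℕ) : Form (Pr T) :=
  .and (gam W) (.or (.neg (.atom Pr.ini)) (.and ini1 (.and
    (eqP {Pr.dt false (false, true) false} (rin n))
    (eqP {Pr.dt false (false, true) true} (rin (2 * n))))))

/-- the formula -/
noncomputable def Phi (qh : Q) (n : ℕ) : Form (Pr T) :=
  .and (.PG (Gam W n) .eq ⟨1, by constructor <;> norm_num⟩)
    (anyF Pr.ini fun i : Bool => .and (fA (cfS W i qh)) (allF Pr.ini fun y : Rg × Bool =>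
      eqP {Pr.dt i y.1 y.2} (3 / 64)))

/-- initial register contents -/
def cin (n : ℕ) : Rg → ℕ := fun j => if j = (false, true) then n else 0

namespace J16043

/-! ### TARGET of this job: sat_Gam -/

theorem sat_Gam_and {α : Type} (M : Chain α) (φ ψ : Form α) (s : M.S) :
    s ∈ M.sat (.and φ ψ) ↔ s ∈ M.sat φ ∧ s ∈ M.sat ψ := Iff.rfl

theorem sat_Gam_imp {α : Type} (M : Chain α) (φ ψ : Form α) (s : M.S) :
    s ∈ M.sat (imp φ ψ) ↔ (s ∈ M.sat φ → s ∈ M.sat ψ) := by
  show (s ∉ M.sat φ ∨ s ∈ M.sat ψ) ↔ _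
  tauto

theorem sat_Gam_or {α : Type} (M : Chain α) (φ ψ : Form α) (s : M.S) :
    s ∈ M.sat (.or (.neg φ) ψ) ↔ (s ∈ M.sat φ → s ∈ M.sat ψ) := sat_Gam_imp M φ ψ s

theorem sat_Gam_atom {α : Type} (M : Chain α) (a : α) (s : M.S) :
    s ∈ M.sat (.atom a) ↔ a ∈ M.v s := Iff.rfl

theorem sat_Gam_triv {α : Type} (M : Chain α) (a : α) (s : M.S) :
    s ∈ M.sat (.or (.atom a) (.neg (.atom a))) ↔ True := by
  show (s ∈ M.sat (.atom a) ∨ s ∉ M.sat (.atom a)) ↔ True
  tauto

theorem sat_Gam_eqP (A : Set (Pr T)) (r : ℚ) (x : ℝ) (h0 : 0 ≤ r) (h1 : r ≤ 1) (hx : (r : ℝ) = x)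
    (M : Chain (Pr T)) (s : M.S) : s ∈ M.sat (eqP A r) ↔ pq M A s = x := by
  rw [sat_eqP A r h0 h1 M s, hx]

theorem sat_Gam_jvq (o : Op) (i : Bool) (j : Rg) (k : Fin 3) (i' : Bool) (j' : Rg) (c : Bool) :
    0 ≤ jvq o i j k i' j' c ∧ jvq o i j k i' j' c ≤ 1 := by
  have h1 := Sq_bd o k c
  have h2 := Tq_bd o k c
  unfold jvq
  split_ifs
  · constructor <;> linarith
  · constructor <;> linarith
  · constructor <;> norm_num

theorem sat_Gam_rin (n : ℕ) : 0 ≤ rin n ∧ rin n ≤ 1 := by
  unfold rin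
  have h1 : (0 : ℚ) ≤ (1 / 2) ^ n := by positivity
  have h2 : ((1 / 2 : ℚ)) ^ n ≤ 1 := pow_le_one₀ (by norm_num) (by norm_num)
  constructor
  · linarith
  · linarith

theorem sat_Gam_gam (M : Chain (Pr T)) (s : M.S) :
    s ∈ M.sat (gam W) ↔
      (∀ i t, Pr.cf i t ∈ M.v s → pq M (gaS i t ∪ phS !i) s = 1 ∧
        (∀ j, pq M (gS i t j ∪ phS !i) s = 5 / 8) ∧
        pq M (cfS W (!i) (W.src t)) s = 1 / 2 ∧ pq M (b2S W i t ∪ phS !i) s = 1 / 2 ∧
        ∀ j c, pq M {Pr.dt (!i) j c} s = 1 / 32) ∧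
      (∀ i t j k, Pr.jk i t j k ∈ M.v s → pq M (labS \ {Pr.jk i t j k}) s = 0 ∧
        ∀ i' j' c, pq M {Pr.dt i' j' c} s = (jvq (W.op t j) i j k i' j' c : ℝ)) ∧
      (∀ i j c, Pr.dt i j c ∈ M.v s → pq M labS s = 0) := by
  have e1 : ∀ A : Set (Pr T), s ∈ M.sat (eqP A 1) ↔ pq M A s = 1 := fun A =>
    sat_Gam_eqP A 1 1 (by norm_num) (by norm_num) (by norm_num) M s
  have e0 : ∀ A : Set (Pr T), s ∈ M.sat (eqP A 0) ↔ pq M A s = 0 := fun A =>
    sat_Gam_eqP A 0 0 (by norm_num) (by norm_num) (by norm_num) M s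
  have e58 : ∀ A : Set (Pr T), s ∈ M.sat (eqP A (5 / 8)) ↔ pq M A s = 5 / 8 := fun A =>
    sat_Gam_eqP A _ _ (by norm_num) (by norm_num) (by norm_num) M s
  have e12 : ∀ A : Set (Pr T), s ∈ M.sat (eqP A (1 / 2)) ↔ pq M A s = 1 / 2 := fun A =>
    sat_Gam_eqP A _ _ (by norm_num) (by norm_num) (by norm_num) M s
  have e132 : ∀ A : Set (Pr T), s ∈ M.sat (eqP A (1 / 32)) ↔ pq M A s = 1 / 32 := fun A =>
    sat_Gam_eqP A _ _ (by norm_num) (by norm_num) (by norm_num) M s
  have ej : ∀ (A : Set (Pr T)) (o : Op) (i : Bool) (j : Rg) (k : Fin 3) (i' : Bool) (j' : Rg)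
      (c : Bool), s ∈ M.sat (eqP A (jvq o i j k i' j' c)) ↔
        pq M A s = (jvq o i j k i' j' c : ℝ) := fun A o i j k i' j' c =>
    sat_Gam_eqP A _ _ (sat_Gam_jvq o i j k i' j' c).1 (sat_Gam_jvq o i j k i' j' c).2 rfl M s
  unfold gam
  rw [sat_Gam_and, sat_Gam_and, sat_allF, sat_allF, sat_allF]
  refine and_congr ?_ (and_congr ?_ ?_)
  · rw [Prod.forall]
    refine forall_congr' fun i => forall_congr' fun t => ?_
    rw [sat_Gam_imp, sat_Gam_atom]
    refine imp_congr Iff.rfl ?_
    rw [sat_Gam_and, sat_Gam_and, sat_Gam_and, sat_Gam_and, sat_allF, sat_allF, e1, e12, e12]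
    refine and_congr Iff.rfl (and_congr (forall_congr' fun j => e58 _)
      (and_congr Iff.rfl (and_congr Iff.rfl (Prod.forall.trans ?_))))
    exact forall_congr' fun j => forall_congr' fun c => e132 _
  · rw [Prod.forall]
    refine forall_congr' fun i => ?_
    rw [Prod.forall]
    refine forall_congr' fun t => ?_
    rw [Prod.forall]
    refine forall_congr' fun j => forall_congr' fun k => ?_
    rw [sat_Gam_imp, sat_Gam_atom]
    refine imp_congr Iff.rfl ?_
    rw [sat_Gam_and, sat_allF, e0, Prod.forall]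
    refine and_congr Iff.rfl (forall_congr' fun i' => ?_)
    rw [Prod.forall]
    exact forall_congr' fun j' => forall_congr' fun c => ej _ _ _ _ _ _ _ _
  · rw [Prod.forall]
    refine forall_congr' fun i => ?_
    rw [Prod.forall]
    refine forall_congr' fun j => forall_congr' fun c => ?_
    rw [sat_Gam_imp, sat_Gam_atom]
    exact imp_congr Iff.rfl (e0 _)

theorem sat_Gam_ini (n : ℕ) (M : Chain (Pr T)) (s : M.S) :
    s ∈ M.sat (.and ini1 (.and
      (eqP {Pr.dt false (false, true) false} (rin n))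
      (eqP {Pr.dt false (false, true) true} (rin (2 * n)))) : Form (Pr T)) ↔
    pq M (labS \ {Pr.ini}) s = 0 ∧
      (∀ j c, pq M {Pr.dt false j c} s = (1 + Pt (cin n j) c / 2) / 32) ∧
      ∀ j c, pq M {Pr.dt true j c} s = 1 / 32 := by
  have e0 : ∀ A : Set (Pr T), s ∈ M.sat (eqP A 0) ↔ pq M A s = 0 := fun A =>
    sat_Gam_eqP A 0 0 (by norm_num) (by norm_num) (by norm_num) M s
  have e132 : ∀ A : Set (Pr T), s ∈ M.sat (eqP A (1 / 32)) ↔ pq M A s = 1 / 32 := fun A =>
    sat_Gam_eqP A _ _ (by norm_num) (by norm_num) (by norm_num) M s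
  have e364 : ∀ A : Set (Pr T), s ∈ M.sat (eqP A (3 / 64)) ↔ pq M A s = 3 / 64 := fun A =>
    sat_Gam_eqP A _ _ (by norm_num) (by norm_num) (by norm_num) M s
  have er1 : s ∈ M.sat (eqP {Pr.dt false (false, true) false} (rin n)) ↔
      pq M {Pr.dt false (false, true) false} s =
        (1 + Pt (cin n (false, true)) false / 2) / 32 := by
    refine sat_Gam_eqP _ _ _ (sat_Gam_rin n).1 (sat_Gam_rin n).2 ?_ M s
    unfold rin Pt cin
    push_cast
    simp
  have er2 : s ∈ M.sat (eqP {Pr.dt false (false, true) true} (rin (2 * n))) ↔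
      pq M {Pr.dt false (false, true) true} s =
        (1 + Pt (cin n (false, true)) true / 2) / 32 := by
    refine sat_Gam_eqP _ _ _ (sat_Gam_rin (2 * n)).1 (sat_Gam_rin (2 * n)).2 ?_ M s
    unfold rin Pt cin
    push_cast
    rw [pow_mul]
    norm_num
  have hcin : ∀ j c, j ≠ ((false, true) : Rg) → (1 + Pt (cin n j) c / 2) / 32 = (3 / 64 : ℝ) := by
    intro j c hj
    unfold Pt cin
    rw [if_neg hj]
    split_ifs <;> norm_num
  unfold ini1
  rw [sat_Gam_and, sat_Gam_and, sat_Gam_and, sat_Gam_and, sat_allF, sat_allF, e0, er1, er2]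
  constructor
  · rintro ⟨⟨h1, h2, h3⟩, h4, h5⟩
    refine ⟨h1, ?_, fun j c => (e132 _).1 (h2 (j, c))⟩
    intro j c
    by_cases hj : j = (false, true)
    · rw [hj]
      cases c
      · exact h4
      · exact h5
    · rw [hcin j c hj]
      have h6 := h3 (j, c)
      rw [if_neg hj] at h6
      exact (e364 _).1 h6
  · rintro ⟨h1, h2, h3⟩
    refine ⟨⟨h1, fun y => (e132 _).2 (h3 y.1 y.2), fun y => ?_⟩, h2 _ _, h2 _ _⟩
    by_cases hj : y.1 = (false, true)
    · rw [if_pos hj, sat_Gam_triv]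
      trivial
    · rw [if_neg hj, e364, h2, hcin _ _ hj]

theorem sat_Gam (n : ℕ) (M : Chain (Pr T)) (s : M.S) :
    s ∈ M.sat (Gam W n) ↔ Cstr W (cin n) (M.v s) (fun A => pq M A s) := by
  unfold Gam
  rw [sat_Gam_and, sat_Gam_or, sat_Gam_atom, sat_Gam_ini, sat_Gam_gam]
  unfold Cstr
  constructor
  · rintro ⟨⟨h1, h3, h4⟩, h2⟩
    exact ⟨h1, h2, h3, h4⟩
  · rintro ⟨h1, h2, h3, h4⟩
    exact ⟨⟨h1, h3, h4⟩, h2⟩

end J16043

alias sat_Gam := J16043.sat_Gam

namespace J16045

/-! ### TARGET of this job: sat_Phi -/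

theorem sat_Phi (qh : Q) (n : ℕ) (M : Chain (Pr T)) (s : M.S) :
    s ∈ M.sat (Phi W qh n) ↔
      M.prF (M.sat (Gam W n))ᶜ s = 0 ∧ RootC W qh (M.v s) (fun A => pq M A s) := by
  have h1 : s ∈ M.sat (.PG (Gam W n) .eq ⟨1, by constructor <;> norm_num⟩) ↔
      M.prF (M.sat (Gam W n))ᶜ s = 0 := by
    show (1 - M.prF (M.sat (Gam W n))ᶜ s = (((1 : ℚ)) : ℝ)) ↔ _
    push_cast
    constructor <;> intro h <;> linarith
  have h2 : s ∈ M.sat (anyF Pr.ini fun i : Bool => .and (fA (cfS W i qh)) (allF Pr.ini fun y : Rg × Bool =>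
      eqP {Pr.dt i y.1 y.2} (3 / 64))) ↔ RootC W qh (M.v s) (fun A => pq M A s) := by
    rw [sat_anyF]
    unfold RootC
    apply exists_congr
    intro i
    have h3 : s ∈ M.sat (.and (fA (cfS W i qh)) (allF Pr.ini fun y : Rg × Bool =>
      eqP {Pr.dt i y.1 y.2} (3 / 64))) ↔ s ∈ M.sat (fA (cfS W i qh)) ∧
        s ∈ M.sat (allF Pr.ini fun y : Rg × Bool => eqP {Pr.dt i y.1 y.2} (3 / 64)) := Iff.rfl
    rw [h3, sat_fA, sat_allF]
    apply and_congr
    · exact Iff.rfl
    · constructor
      · intro h j c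
        have := h (j, c)
        rw [sat_eqP _ _ (by norm_num) (by norm_num)] at this
        refine Eq.trans this ?_
        norm_num
      · intro h y
        rw [sat_eqP _ _ (by norm_num) (by norm_num)]
        have := h y.1 y.2
        simp only at this
        rw [this]; norm_num
  exact and_congr h1 h2

end J16045

alias sat_Phi := J16045.sat_Phi

namespace J16046

/-! ### TARGET of this job: phi_iff -/

theorem phi_iff_hit {α : Type} (M : Chain α) (n : ℕ) : ∀ s : M.S, M.hit ∅ n s = 0 := by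
  induction n with
  | zero =>
    intro s
    unfold Chain.hit
    rw [if_neg (Set.notMem_empty s)]
  | succ n ih =>
    intro s
    unfold Chain.hit
    rw [if_neg (Set.notMem_empty s)]
    refine Finset.sum_eq_zero fun u _ => ?_
    rw [ih u, mul_zero]

theorem phi_iff_prF {α : Type} (M : Chain α) (s : M.S) : M.prF ∅ s = 0 := by
  unfold Chain.prF
  have h : (fun n => M.hit ∅ n s) = fun _ : ℕ => (0 : ℝ) := by
    funext n
    exact phi_iff_hit M n s
  rw [h]
  exact ciSup_const

theorem phi_iff (qh : Q) (n : ℕ) : HasTreeModel (Phi W qh n) ↔ W.Rch (cin n) qh (fun _ => 0) := by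
  constructor
  · rintro ⟨M, hM, s, hs⟩
    rw [sat_Phi] at hs
    refine sound W (cin n) M hM s ?_ qh hs.2
    intro u hu
    have h1 := (rc_zero M _ s u hs.1 hu).1
    rw [Set.notMem_compl_iff] at h1
    exact (sat_Gam W n M u).1 h1
  · intro h
    obtain ⟨i, M, s, hroot, hx, h1, h2, h3⟩ := complete_main W (cin n) qh (fun _ => 0) h
    refine ⟨M, ⟨s, hroot⟩, s, ?_⟩
    rw [sat_Phi]
    refine ⟨?_, i, hx, ?_⟩
    · have h4 : (M.sat (Gam W n))ᶜ = ∅ := by
        rw [Set.eq_empty_iff_forall_notMem]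
        intro u hu
        exact hu ((sat_Gam W n M u).2 (h3 u))
      rw [h4]
      exact phi_iff_prF M s
    · intro j c
      show pq M {Pr.dt i j c} s = 3 / 64
      rw [h1 j c]
      unfold Pt
      split_ifs <;> norm_num

end J16046

alias phi_iff := J16046.phi_iff

/-- renaming of propositions -/
def Form.map {α β : Type} (e : α → β) : Form α → Form β
  | .atom a => .atom (e a)
  | .neg φ => .neg (φ.map e)
  | .and φ ψ => .and (φ.map e) (ψ.map e)
  | .or φ ψ => .or (φ.map e) (ψ.map e)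
  | .PF φ c r => .PF (φ.map e) c r
  | .PG φ c r => .PG (φ.map e) c r

namespace J16047

/-- the same chain with another valuation -/
def reval {α β : Type} (M : Chain β) (w : M.S → Set α) : Chain α where
  S := M.S
  fin := M.fin
  P := M.P
  nonneg := M.nonneg
  row := M.row
  v := w

theorem reval_hit {α β : Type} (M : Chain β) (w : M.S → Set α) (T : Set M.S) (n : ℕ) :
    ∀ s : M.S, Chain.hit (reval M w) T n s = M.hit T n s := by
  induction n with
  | zero => intro s; rfl
  | succ n ih =>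
    intro s
    have h1 : Chain.hit (reval M w) T (n + 1) s =
      (by classical exact if s ∈ T then 1 else ∑ u : M.S, M.P s u * Chain.hit (reval M w) T n u) := rfl
    have h2 : M.hit T (n + 1) s =
      (by classical exact if s ∈ T then 1 else ∑ u : M.S, M.P s u * M.hit T n u) := rfl
    rw [h1, h2]
    by_cases hs : s ∈ T
    · simp [hs]
    · simp only [hs, if_false]
      exact Finset.sum_congr rfl fun u _ => by rw [ih u]

theorem reval_prF {α β : Type} (M : Chain β) (w : M.S → Set α) (T : Set M.S) (s : M.S) :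
    Chain.prF (reval M w) T s = M.prF T s := by
  have h : (fun n => Chain.hit (reval M w) T n s) = fun n => M.hit T n s :=
    funext fun n => reval_hit M w T n s
  exact congrArg iSup h

theorem reval_sat {α β : Type} (e : α → β) (M : Chain β) (w : M.S → Set α)
    (hw : ∀ s a, a ∈ w s ↔ e a ∈ M.v s) (φ : Form α) :
    ∀ s : M.S, s ∈ (reval M w).sat φ ↔ s ∈ M.sat (φ.map e) := by
  induction φ with
  | atom a => intro s; exact hw s a
  | neg φ ih => intro s; exact not_congr (ih s)
  | and φ ψ ih1 ih2 => intro s; exact and_congr (ih1 s) (ih2 s)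
  | or φ ψ ih1 ih2 => intro s; exact or_congr (ih1 s) (ih2 s)
  | PF φ c r ih =>
    intro s
    have hset : ((reval M w).sat φ : Set M.S) = M.sat (φ.map e) := Set.ext ih
    have h1 : s ∈ (reval M w).sat (.PF φ c r) ↔
      c.holds (Chain.prF (reval M w) ((reval M w).sat φ) s) ((r : ℚ) : ℝ) := Iff.rfl
    have h2 : s ∈ M.sat (Form.map e (.PF φ c r)) ↔
      c.holds (M.prF (M.sat (φ.map e)) s) ((r : ℚ) : ℝ) := Iff.rfl
    have h3 : Chain.prF (reval M w) ((reval M w).sat φ) s = M.prF (M.sat (φ.map e)) s := by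
      rw [← hset]
      exact reval_prF M w _ s
    rw [h1, h2, h3]
  | PG φ c r ih =>
    intro s
    have hset : ((reval M w).sat φ : Set M.S) = M.sat (φ.map e) := Set.ext ih
    have h1 : s ∈ (reval M w).sat (.PG φ c r) ↔
      c.holds (1 - Chain.prF (reval M w) ((reval M w).sat φ)ᶜ s) ((r : ℚ) : ℝ) := Iff.rfl
    have h2 : s ∈ M.sat (Form.map e (.PG φ c r)) ↔
      c.holds (1 - M.prF (M.sat (φ.map e))ᶜ s) ((r : ℚ) : ℝ) := Iff.rfl
    have h3 : Chain.prF (reval M w) ((reval M w).sat φ)ᶜ s = M.prF (M.sat (φ.map e))ᶜ s := by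
      rw [← hset]
      exact reval_prF M w _ s
    rw [h1, h2, h3]

theorem reval_tree {α β : Type} (M : Chain β) (w : M.S → Set α) (h : M.TreeLike) :
    (reval M w).TreeLike := h

theorem reval_sat' {α β : Type} (e : α → β) (M : Chain α) (w : M.S → Set β)
    (hw : ∀ s a, e a ∈ w s ↔ a ∈ M.v s) (φ : Form α) :
    ∀ s : M.S, s ∈ (reval M w).sat (φ.map e) ↔ s ∈ M.sat φ := by
  intro s
  have h := reval_sat e (reval M w) (M.v) (fun s a => (hw s a).symm) φ s
  exact h.symm

/-! ### TARGET of this job: map_iff -/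

theorem map_iff {α β : Type} (e : α → β) (he : Function.Injective e) (φ : Form α) :
    HasTreeModel (φ.map e) ↔ HasTreeModel φ := by
  constructor
  · rintro ⟨M, hM, s, hs⟩
    exact ⟨reval M (fun s => {a | e a ∈ M.v s}), reval_tree M _ hM, s,
      (reval_sat e M _ (fun s a => Iff.rfl) φ s).2 hs⟩
  · rintro ⟨M, hM, s, hs⟩
    refine ⟨reval M (fun s => e '' M.v s), reval_tree M _ hM, s,
      (reval_sat' e M _ (fun s a => ?_) φ s).2 hs⟩
    exact he.mem_set_image

end J16047

alias map_iff := J16047.map_iff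

namespace J16049

/-! ### TARGET of this job: rin_num -/

theorem rin_num (n : ℕ) : (rin n).num = 2 ^ (n + 1) + 1 := by
  have h1 : rin n = (((2 ^ (n + 1) + 1 : ℤ)) : ℚ) / (((2 ^ (n + 6) : ℤ)) : ℚ) := by
    unfold rin
    push_cast
    rw [one_div, inv_pow]
    have h2 : (2 : ℚ) ^ n ≠ 0 := by positivity
    field_simp
    ring
  have hc : Nat.Coprime (2 ^ (n + 1) + 1 : ℤ).natAbs (2 ^ (n + 6) : ℤ).natAbs := by
    have e1 : (2 ^ (n + 1) + 1 : ℤ).natAbs = 2 ^ (n + 1) + 1 := by
      have : (2 ^ (n + 1) + 1 : ℤ) = ((2 ^ (n + 1) + 1 : ℕ) : ℤ) := by push_cast; ring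
      rw [this, Int.natAbs_natCast]
    have e2 : (2 ^ (n + 6) : ℤ).natAbs = 2 ^ (n + 6) := by
      have : (2 ^ (n + 6) : ℤ) = ((2 ^ (n + 6) : ℕ) : ℤ) := by push_cast; ring
      rw [this, Int.natAbs_natCast]
    rw [e1, e2]
    apply Nat.Coprime.pow_right
    rw [Nat.coprime_two_right]
    exact ⟨2 ^ n, by rw [pow_succ]; ring⟩
  rw [h1]
  exact Rat.num_div_eq_of_coprime (by positivity) hc

end J16049

alias rin_num := J16049.rin_num

namespace J16050

/-! ### TARGET of this job: rin_den -/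

theorem rin_den (n : ℕ) : (rin n).den = 2 ^ (n + 6) := by
  have h1 : rin n = (((2 : ℤ) ^ (n + 1) + 1 : ℤ) : ℚ) / (((2 : ℤ) ^ (n + 6) : ℤ) : ℚ) := by
    unfold rin
    push_cast
    rw [div_pow, one_pow, eq_div_iff (by positivity)]
    field_simp
    ring
  have h2 : (((2 : ℤ) ^ (n + 1) + 1 : ℤ)).natAbs.Coprime (((2 : ℤ) ^ (n + 6) : ℤ)).natAbs := by
    have e1 : (((2 : ℤ) ^ (n + 1) + 1 : ℤ)).natAbs = 2 ^ (n + 1) + 1 := by
      have : ((2 : ℤ) ^ (n + 1) + 1 : ℤ) = ((2 ^ (n + 1) + 1 : ℕ) : ℤ) := by push_cast; ring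
      rw [this, Int.natAbs_natCast]
    have e2 : (((2 : ℤ) ^ (n + 6) : ℤ)).natAbs = 2 ^ (n + 6) := by
      rw [Int.natAbs_pow]
      rfl
    rw [e1, e2]
    apply Nat.Coprime.pow_right
    rw [Nat.coprime_two_right]
    refine Even.add_one ?_
    exact (even_two).pow_of_ne_zero (by omega)
  have h3 := Rat.den_div_eq_of_coprime (a := (2 : ℤ) ^ (n + 1) + 1) (b := (2 : ℤ) ^ (n + 6))
    (by positivity) h2
  rw [← h1] at h3
  exact_mod_cast h3

end J16050

alias rin_den := J16050.rin_den

namespace J16051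

/-! ### TARGET of this job: code_comp -/

theorem code_comp_eqP (A : Set (Pr T)) (e : Pr T → ℕ) (n : ℕ) :
    ((eqP A (rin n)).map e).code = Nat.pair 4 (Nat.pair ((fA A).map e).code
      (Nat.pair 2 (Nat.pair (2 ^ (n + 1) + 1) (2 ^ (n + 6))))) := by
  have h1 : (1 / 2 : ℚ) ^ n ≤ 1 := pow_le_one₀ (by norm_num) (by norm_num)
  have h0 : 0 ≤ (1 / 2 : ℚ) ^ n := by positivity
  have hm : rin n ∈ Set.Icc (0 : ℚ) 1 := by
    unfold rin
    constructor
    · positivity
    · linarith
  have h2 : (2 ^ (n + 1) + 1 : ℤ).toNat = 2 ^ (n + 1) + 1 := by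
    have : (2 ^ (n + 1) + 1 : ℤ) = ((2 ^ (n + 1) + 1 : ℕ) : ℤ) := by push_cast; rfl
    rw [this, Int.toNat_natCast]
  simp only [eqP, Form.map, Form.code, Cmp.code, Set.projIcc_of_mem zero_le_one hm, rin_num, rin_den, h2]

theorem code_comp_pow : Primrec (fun n : ℕ => 2 ^ n) :=
  (Primrec₂.unpaired'.1 Nat.Primrec.pow : Primrec₂ fun a b : ℕ => a ^ b).comp (Primrec.const 2) Primrec.id

theorem code_comp_eqP' (c : ℕ) : Primrec (fun n : ℕ => Nat.pair 4 (Nat.pair c
      (Nat.pair 2 (Nat.pair (2 ^ (n + 1) + 1) (2 ^ (n + 6)))))) := by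
  have h1 : Primrec (fun n : ℕ => 2 ^ (n + 1) + 1) :=
    Primrec.succ.comp (code_comp_pow.comp (Primrec.nat_add.comp Primrec.id (Primrec.const 1)))
  have h2 : Primrec (fun n : ℕ => 2 ^ (n + 6)) :=
    code_comp_pow.comp (Primrec.nat_add.comp Primrec.id (Primrec.const 6))
  exact Primrec₂.natPair.comp (Primrec.const 4) (Primrec₂.natPair.comp (Primrec.const c)
    (Primrec₂.natPair.comp (Primrec.const 2) (Primrec₂.natPair.comp h1 h2)))

theorem code_comp (qh : Q) (e : Pr T → ℕ) (N : ℕ → ℕ) (hN : Computable N) :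
    Computable (fun n => ((Phi W qh (N n)).map e).code) := by
  have hP : ∀ {f g : ℕ → ℕ}, Primrec f → Primrec g → Primrec (fun n => Nat.pair (f n) (g n)) :=
    fun hf hg => Primrec₂.natPair.comp hf hg
  have key : Primrec (fun n => ((Phi W qh n).map e).code) := by
    have e1 : (fun n => ((Phi W qh n).map e).code) = fun n => Nat.pair 2 (Nat.pair
        (Nat.pair 5 (Nat.pair (Nat.pair 2 (Nat.pair ((gam W).map e).code (Nat.pair 3 (Nat.pair
          ((Form.neg (.atom Pr.ini) : Form (Pr T)).map e).code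
          (Nat.pair 2 (Nat.pair (ini1.map e : Form ℕ).code (Nat.pair 2 (Nat.pair
            ((eqP {Pr.dt false (false, true) false} (rin n) : Form (Pr T)).map e).code
            ((eqP {Pr.dt false (false, true) true} (rin (2 * n)) : Form (Pr T)).map e).code))))))))
          (Nat.pair 2 (Nat.pair ((1 : ℚ).num.toNat) ((1 : ℚ).den)))))
        ((anyF Pr.ini fun i : Bool => Form.and (fA (cfS W i qh)) (allF Pr.ini fun y : Rg × Bool =>
          eqP {Pr.dt i y.1 y.2} (3 / 64))).map e).code) := by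
      funext n
      rfl
    rw [e1]
    have h1 : Primrec (fun n => ((eqP {Pr.dt false (false, true) false} (rin n) : Form (Pr T)).map e).code) := by
      simp only [code_comp_eqP]
      exact code_comp_eqP' _
    have h2 : Primrec (fun n => ((eqP {Pr.dt false (false, true) true} (rin (2 * n)) : Form (Pr T)).map e).code) := by
      simp only [code_comp_eqP]
      exact (code_comp_eqP' _).comp (Primrec.nat_mul.comp (Primrec.const 2) Primrec.id)
    exact hP (Primrec.const _) (hP (hP (Primrec.const _) (hP (hP (Primrec.const _) (hP (Primrec.const _)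
      (hP (Primrec.const _) (hP (Primrec.const _) (hP (Primrec.const _) (hP (Primrec.const _)
      (hP (Primrec.const _) (hP h1 h2)))))))) (Primrec.const _))) (Primrec.const _))
  exact key.to_comp.comp hN

end J16051

alias code_comp := J16051.code_comp

end formula

end Pool.Agent.H502.Pc
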