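import Mathlib
set_option autoImplicit false

/-!
# The F,G-fragment of PCTL and tree-like Markov chains
-/

namespace Pool.Agent.H502.Pc

/-- comparison symbols -/
inductive Cmp
  | lt | le | eq | ge | gt

/-- meaning of the comparison symbols -/
def Cmp.holds : Cmp → ℝ → ℝ → Prop
  | .lt, x, y => x < y
  | .le, x, y => x ≤ y
  | .eq, x, y => x = y
  | .ge, x, y => x ≥ y
  | .gt, x, y => x > y

/-- state formulas of the F,G-fragment of PCTL over the propositions `α`; `PF φ c r` is
`P(F φ) c r` and `PG φ c r` is `P(G φ) c r`, with a rational `r` in `[0,1]` -/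
inductive Form (α : Type)
  | atom (a : α)
  | neg (φ : Form α)
  | and (φ ψ : Form α)
  | or (φ ψ : Form α)
  | PF (φ : Form α) (c : Cmp) (r : Set.Icc (0 : ℚ) 1)
  | PG (φ : Form α) (c : Cmp) (r : Set.Icc (0 : ℚ) 1)

/-- A finite Markov chain with a valuation in sets of propositions. -/
structure Chain (α : Type) where
  S : Type
  fin : Fintype S
  P : S → S → ℝ
  nonneg : ∀ s u, 0 ≤ P s u
  row : ∀ s, ∑ u, P s u = 1
  v : S → Set α

attribute [instance] Chain.fin

namespace Chain

variable {α : Type} (M : Chain α)

open Classical in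
/-- `hit T n s` is the probability that a run starting in `s` visits `T` within `n` steps -/
noncomputable def hit (T : Set M.S) : ℕ → M.S → ℝ
  | 0, s => if s ∈ T then 1 else 0
  | n + 1, s => if s ∈ T then 1 else ∑ u, M.P s u * hit T n u

/-- the probability that a run starting in `s` eventually visits `T` -/
noncomputable def prF (T : Set M.S) (s : M.S) : ℝ := ⨆ n, M.hit T n s

/-- the states satisfying a formula; the runs from `s` that always satisfy `φ` are those that never
visit a state violating `φ` -/
noncomputable def sat : Form α → Set M.S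
  | .atom a => {s | a ∈ M.v s}
  | .neg φ => (sat φ)ᶜ
  | .and φ ψ => sat φ ∩ sat ψ
  | .or φ ψ => sat φ ∪ sat ψ
  | .PF φ c r => {s | c.holds (M.prF (sat φ) s) ((r : ℚ) : ℝ)}
  | .PG φ c r => {s | c.holds (1 - M.prF (sat φ)ᶜ s) ((r : ℚ) : ℝ)}

/-- The directed graph of the pairs of distinct states with positive transition probability is a
rooted tree with root `r`, directed away from the root (`par` gives the parent of the states other
than `r`, `d` is the depth), and exactly the leaves have a self-loop. -/
def RootedAt (r : M.S) : Prop :=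
  ∃ (par : M.S → M.S) (d : M.S → ℕ), d r = 0 ∧ (∀ s, s ≠ r → d s = d (par s) + 1) ∧
    (∀ s u, s ≠ u → (0 < M.P s u ↔ u ≠ r ∧ par u = s)) ∧
    (∀ s, 0 < M.P s s ↔ ∀ u, u ≠ r → par u ≠ s)

/-- tree-like Markov chains -/
def TreeLike : Prop := ∃ r, M.RootedAt r

end Chain

/-- the formula has a tree-like model -/
def HasTreeModel {α : Type} (φ : Form α) : Prop :=
  ∃ M : Chain α, M.TreeLike ∧ ∃ s, s ∈ M.sat φ

/-- code of a comparison symbol -/
def Cmp.code : Cmp → ℕ
  | .lt => 0
  | .le => 1
  | .eq => 2
  | .ge => 3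
  | .gt => 4

/-- Goedel number of a formula over the propositions `0, 1, 2, ...`; a rational number is given by
its numerator and denominator in lowest terms -/
def Form.code : Form ℕ → ℕ
  | .atom a => Nat.pair 0 a
  | .neg φ => Nat.pair 1 φ.code
  | .and φ ψ => Nat.pair 2 (Nat.pair φ.code ψ.code)
  | .or φ ψ => Nat.pair 3 (Nat.pair φ.code ψ.code)
  | .PF φ c r => Nat.pair 4 (Nat.pair φ.code (Nat.pair c.code (Nat.pair r.1.num.toNat r.1.den)))
  | .PG φ c r => Nat.pair 5 (Nat.pair φ.code (Nat.pair c.code (Nat.pair r.1.num.toNat r.1.den)))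

end Pool.Agent.H502.Pc
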