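import Mathlib
import Pool.Agent.H502.PcSource

set_option autoImplicit false

namespace Pool.Agent.H502.PcSrc

/-- A deterministic register machine: in state `p` the register `reg p` is inspected; the machine
moves to `nxt p b` and adds `vec p b` to the registers, where `b` tells whether the register is
positive. -/
structure DM (P J : Type) where
  reg : P → J
  nxt : P → Bool → Option P
  vec : P → Bool → J → ℤ
  hz : ∀ p j, 0 ≤ vec p false j
  hp : ∀ p j, j ≠ reg p → 0 ≤ vec p true j
  hp' : ∀ p, vec p true (reg p) = -1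

namespace DM

variable {P J : Type} (M : DM P J)

/-- the branch taken -/
def br (p : P) (c : J → ℤ) : Bool := decide (0 < c (M.reg p))

/-- one step -/
def st : Option P × (J → ℤ) → Option P × (J → ℤ)
  | (none, c) => (none, c)
  | (some p, c) => (M.nxt p (M.br p c), c + M.vec p (M.br p c))

/-- halting -/
def Halts (x : Option P × (J → ℤ)) : Prop := ∃ k, (M.st^[k] x).1 = none

theorem st_none (c : J → ℤ) : M.st (none, c) = (none, c) := rfl

theorem st_iter_none (k : ℕ) (c : J → ℤ) : M.st^[k] (none, c) = (none, c) := by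
  induction k with
  | zero => rfl
  | succ k ih => rw [Function.iterate_succ_apply, st_none, ih]

theorem halts_st (x : Option P × (J → ℤ)) : M.Halts (M.st x) ↔ M.Halts x := by
  constructor
  · rintro ⟨k, hk⟩
    exact ⟨k + 1, by rwa [Function.iterate_succ_apply]⟩
  · rintro ⟨k, hk⟩
    rcases k with _ | k
    · refine ⟨0, ?_⟩
      obtain ⟨o, c⟩ := x
      simp only [Function.iterate_zero, id_eq] at hk
      subst hk
      rfl
    · exact ⟨k, by rwa [Function.iterate_succ_apply] at hk⟩

theorem halts_iter (x : Option P × (J → ℤ)) (k : ℕ) : M.Halts (M.st^[k] x) ↔ M.Halts x := by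
  induction k generalizing x with
  | zero => rfl
  | succ k ih => rw [Function.iterate_succ_apply, ih, halts_st]

theorem st_nonneg (x : Option P × (J → ℤ)) (h : ∀ j, 0 ≤ x.2 j) : ∀ j, 0 ≤ (M.st x).2 j := by
  obtain ⟨o, c⟩ := x
  rcases o with _ | p
  · exact h
  · intro j
    have hj : 0 ≤ c j := h j
    change 0 ≤ c j + M.vec p (M.br p c) j
    by_cases hb : 0 < c (M.reg p)
    · have e : M.br p c = true := by simp [br, hb]
      rw [e]
      by_cases hjr : j = M.reg p
      · subst hjr
        rw [M.hp']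
        omega
      · have := M.hp p j hjr
        omega
    · have e : M.br p c = false := by simp [br, hb]
      rw [e]
      have := M.hz p j
      omega

end DM

section sim

variable {Q : Type} (M : Sys Q Bool)

/-- states of the register machine simulating a residue-affine machine -/
inductive RS : Type
  | init : RS
  | d1 (q : Q) (s : Fin M.B) : RS
  | d2 (q : Q) (r s : Fin M.B) : RS
  | e1 (q : Q) (r s : Fin M.B) : RS
  | e2 (q : Q) (r s : Fin M.B) : RS

instance [Finite Q] : Finite (RS M) := by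
  refine Finite.of_injective (β := Option (Q × Fin M.B × Fin M.B × Fin 4)) (fun x => match x with
    | .init => none
    | .d1 q s => some (q, s, s, 0)
    | .d2 q r s => some (q, r, s, 1)
    | .e1 q r s => some (q, r, s, 2)
    | .e2 q r s => some (q, r, s, 3)) ?_
  intro x y h
  cases x <;> cases y <;> simp_all

/-- zero residue -/
def z0 : Fin M.B := ⟨0, M.hB⟩

/-- residue vector -/
def rr (r s : Fin M.B) : Bool → Fin M.B := fun j => if j then r else s

/-- successor residue -/
def sc (s : Fin M.B) : Fin M.B := ⟨(s + 1) % M.B, Nat.mod_lt _ M.hB⟩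

/-- carry -/
def cy (s : Fin M.B) : ℤ := if (s : ℕ) + 1 = M.B then 1 else 0

/-- the vector with prescribed entries -/
def v4 (a b c d : ℤ) : Bool × Bool → ℤ
  | (false, true) => a
  | (false, false) => b
  | (true, true) => c
  | (true, false) => d

/-- the register machine; `n` is the input, `q0` the initial state -/
def dm (q0 : Q) (n : ℕ) : DM (RS M) (Bool × Bool) where
  reg
    | .init => (false, true)
    | .d1 _ _ => (false, true)
    | .d2 _ _ _ => (false, false)
    | .e1 _ _ _ => (true, true)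
    | .e2 _ _ _ => (true, false)
  nxt
    | .init, true => some .init
    | .init, false => some (.d1 q0 (z0 M))
    | .d1 q s, true => some (.d1 q (sc M s))
    | .d1 q s, false => some (.d2 q s (z0 M))
    | .d2 q r s, true => some (.d2 q r (sc M s))
    | .d2 q r s, false => some (.e1 q r s)
    | .e1 q r s, true => some (.e1 q r s)
    | .e1 q r s, false => some (.e2 q r s)
    | .e2 q r s, true => some (.e2 q r s)
    | .e2 q r s, false => (M.nxt q (rr M r s)).map (fun q' => .d1 q' (z0 M))
  vec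
    | .init, true => v4 (-1) 0 0 0
    | .init, false => v4 n 0 0 0
    | .d1 _ s, true => v4 (-1) 0 (cy M s) 0
    | .d1 _ _, false => v4 0 0 0 0
    | .d2 _ _ s, true => v4 0 (-1) 0 (cy M s)
    | .d2 _ _ _, false => v4 0 0 0 0
    | .e1 q r s, true => v4 (M.a q (rr M r s) true) 0 (-1) 0
    | .e1 q r s, false => v4 (M.b q (rr M r s) true) 0 0 0
    | .e2 q r s, true => v4 0 (M.a q (rr M r s) false) 0 (-1)
    | .e2 q r s, false => v4 0 (M.b q (rr M r s) false) 0 0
  hz p j := by
    obtain ⟨j1, j2⟩ := j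
    cases p <;> cases j1 <;> cases j2 <;> simp [v4]
  hp p j := by
    obtain ⟨j1, j2⟩ := j
    cases p <;> cases j1 <;> cases j2 <;> simp [v4, cy] <;> split_ifs <;> omega
  hp' p := by
    cases p <;> simp [v4]

variable (q0 : Q) (n0 : ℕ)

theorem v4_add (a b c d a' b' c' d' : ℤ) :
    v4 a b c d + v4 a' b' c' d' = v4 (a + a') (b + b') (c + c') (d + d') := by
  funext ⟨j1, j2⟩
  cases j1 <;> cases j2 <;> rfl

theorem loop_d1 (q : Q) (x : ℕ) : ∀ (s : Fin M.B) (b c d : ℤ),
    (dm M q0 n0).st^[x + 1] (some (.d1 q s), v4 x b c d) =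
      (some (.d2 q ⟨(s + x) % M.B, Nat.mod_lt _ M.hB⟩ (z0 M)),
        v4 0 b (c + ((s + x) / M.B : ℕ)) d) := by
  induction x with
  | zero =>
    intro s b c d
    have h : (dm M q0 n0).st (some (.d1 q s), v4 (0 : ℕ) b c d) =
        (some (.d2 q s (z0 M)), v4 (0 : ℕ) b c d + v4 0 0 0 0) := rfl
    have hs := s.2
    have e1 : ((s : ℕ) + 0) % M.B = s := by rw [add_zero, Nat.mod_eq_of_lt hs]
    have e2 : ((s : ℕ) + 0) / M.B = 0 := by rw [add_zero, Nat.div_eq_of_lt hs]
    rw [Function.iterate_one, h, v4_add]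
    simp only [e2]
    congr 1
    · congr 2
      apply Fin.ext
      exact e1.symm
    · simp
  | succ x ih =>
    intro s b c d
    have hbr : (dm M q0 n0).br (.d1 q s) (v4 ((x + 1 : ℕ) : ℤ) b c d) = true := by
      simp only [DM.br, decide_eq_true_eq]
      change (0 : ℤ) < ((x + 1 : ℕ) : ℤ)
      omega
    have h : (dm M q0 n0).st (some (.d1 q s), v4 ((x + 1 : ℕ) : ℤ) b c d) =
        (some (.d1 q (sc M s)), v4 ((x + 1 : ℕ) : ℤ) b c d + v4 (-1) 0 (cy M s) 0) := by
      simp only [DM.st]
      rw [hbr]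
      rfl
    rw [Function.iterate_succ_apply, h, v4_add]
    have e : (((x + 1 : ℕ) : ℤ) + -1) = (x : ℤ) := by push_cast; ring
    rw [e, ih]
    have hs := s.2
    have key : ((sc M s : ℕ) + x) % M.B = (s + (x + 1)) % M.B ∧
        (cy M s) + (((sc M s : ℕ) + x) / M.B : ℕ) = ((s + (x + 1)) / M.B : ℕ) := by
      unfold sc cy
      simp only
      by_cases hc : (s : ℕ) + 1 = M.B
      · rw [if_pos hc, hc, Nat.mod_self]
        have e3 : (s : ℕ) + (x + 1) = x + M.B := by omega
        rw [e3, Nat.add_mod_right, zero_add, Nat.add_div_right _ M.hB]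
        refine ⟨rfl, ?_⟩
        push_cast
        ring
      · rw [if_neg hc, Nat.mod_eq_of_lt (show (s : ℕ) + 1 < M.B by omega)]
        have e3 : (s : ℕ) + 1 + x = (s : ℕ) + (x + 1) := by omega
        rw [e3]
        simp
    congr 1
    · congr 2
      apply Fin.ext
      exact key.1
    · rw [← key.2]
      congr 1
      · ring
      · ring
      · ring

theorem loop_d2 (q : Q) (r : Fin M.B) (x : ℕ) : ∀ (s : Fin M.B) (a c d : ℤ),
    (dm M q0 n0).st^[x + 1] (some (.d2 q r s), v4 a x c d) =
      (some (.e1 q r ⟨(s + x) % M.B, Nat.mod_lt _ M.hB⟩),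
        v4 a 0 c (d + ((s + x) / M.B : ℕ))) := by
  induction x with
  | zero =>
    intro s a c d
    have h : (dm M q0 n0).st (some (.d2 q r s), v4 a (0 : ℕ) c d) =
        (some (.e1 q r s), v4 a (0 : ℕ) c d + v4 0 0 0 0) := rfl
    have hs := s.2
    have e1 : ((s : ℕ) + 0) % M.B = s := by rw [add_zero, Nat.mod_eq_of_lt hs]
    have e2 : ((s : ℕ) + 0) / M.B = 0 := by rw [add_zero, Nat.div_eq_of_lt hs]
    rw [Function.iterate_one, h, v4_add]
    simp only [e2]
    congr 1
    · congr 2
      apply Fin.ext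
      exact e1.symm
    · simp
  | succ x ih =>
    intro s a c d
    have hbr : (dm M q0 n0).br (.d2 q r s) (v4 a ((x + 1 : ℕ) : ℤ) c d) = true := by
      simp only [DM.br, decide_eq_true_eq]
      change (0 : ℤ) < ((x + 1 : ℕ) : ℤ)
      omega
    have h : (dm M q0 n0).st (some (.d2 q r s), v4 a ((x + 1 : ℕ) : ℤ) c d) =
        (some (.d2 q r (sc M s)), v4 a ((x + 1 : ℕ) : ℤ) c d + v4 0 (-1) 0 (cy M s)) := by
      simp only [DM.st]
      rw [hbr]
      rfl
    rw [Function.iterate_succ_apply, h, v4_add]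
    have e : (((x + 1 : ℕ) : ℤ) + -1) = (x : ℤ) := by push_cast; ring
    rw [e, ih]
    have hs := s.2
    have key : ((sc M s : ℕ) + x) % M.B = (s + (x + 1)) % M.B ∧
        (cy M s) + (((sc M s : ℕ) + x) / M.B : ℕ) = ((s + (x + 1)) / M.B : ℕ) := by
      unfold sc cy
      simp only
      by_cases hc : (s : ℕ) + 1 = M.B
      · rw [if_pos hc, hc, Nat.mod_self]
        have e3 : (s : ℕ) + (x + 1) = x + M.B := by omega
        rw [e3, Nat.add_mod_right, zero_add, Nat.add_div_right _ M.hB]
        refine ⟨rfl, ?_⟩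
        push_cast
        ring
      · rw [if_neg hc, Nat.mod_eq_of_lt (show (s : ℕ) + 1 < M.B by omega)]
        have e3 : (s : ℕ) + 1 + x = (s : ℕ) + (x + 1) := by omega
        rw [e3]
        simp
    congr 1
    · congr 2
      apply Fin.ext
      exact key.1
    · rw [← key.2]
      congr 1
      · ring
      · ring
      · ring

theorem loop_e1 (q : Q) (r s : Fin M.B) (y : ℕ) : ∀ (a b d : ℤ),
    (dm M q0 n0).st^[y + 1] (some (.e1 q r s), v4 a b y d) =
      (some (.e2 q r s),
        v4 (a + (M.a q (rr M r s) true) * y + (M.b q (rr M r s) true)) b 0 d) := by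
  induction y with
  | zero =>
    intro a b d
    have h : (dm M q0 n0).st (some (.e1 q r s), v4 a b (0 : ℕ) d) =
        (some (.e2 q r s), v4 a b (0 : ℕ) d + v4 (M.b q (rr M r s) true) 0 0 0) := rfl
    rw [Function.iterate_one, h, v4_add]
    congr 2 <;> simp
  | succ x ih =>
    intro a b d
    have hbr : (dm M q0 n0).br (.e1 q r s) (v4 a b ((x + 1 : ℕ) : ℤ) d) = true := by
      simp only [DM.br, decide_eq_true_eq]
      change (0 : ℤ) < ((x + 1 : ℕ) : ℤ)
      omega
    have h : (dm M q0 n0).st (some (.e1 q r s), v4 a b ((x + 1 : ℕ) : ℤ) d) =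
        (some (.e1 q r s), v4 a b ((x + 1 : ℕ) : ℤ) d +
          v4 (M.a q (rr M r s) true) 0 (-1) 0) := by
      simp only [DM.st]
      rw [hbr]
      rfl
    rw [Function.iterate_succ_apply, h, v4_add]
    have e : (((x + 1 : ℕ) : ℤ) + -1) = (x : ℤ) := by push_cast; ring
    rw [e, ih]
    congr 2
    · push_cast; ring
    · ring
    · ring

theorem loop_e2 (q : Q) (r s : Fin M.B) (y : ℕ) : ∀ (a b c : ℤ),
    (dm M q0 n0).st^[y + 1] (some (.e2 q r s), v4 a b c y) =
      ((M.nxt q (rr M r s)).map (fun q' => .d1 q' (z0 M)),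
        v4 a (b + (M.a q (rr M r s) false) * y + (M.b q (rr M r s) false)) c 0) := by
  induction y with
  | zero =>
    intro a b c
    have h : (dm M q0 n0).st (some (.e2 q r s), v4 a b c (0 : ℕ)) =
        ((M.nxt q (rr M r s)).map (fun q' => .d1 q' (z0 M)),
          v4 a b c (0 : ℕ) + v4 0 (M.b q (rr M r s) false) 0 0) := rfl
    rw [Function.iterate_one, h, v4_add]
    congr 2 <;> simp
  | succ x ih =>
    intro a b c
    have hbr : (dm M q0 n0).br (.e2 q r s) (v4 a b c ((x + 1 : ℕ) : ℤ)) = true := by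
      simp only [DM.br, decide_eq_true_eq]
      change (0 : ℤ) < ((x + 1 : ℕ) : ℤ)
      omega
    have h : (dm M q0 n0).st (some (.e2 q r s), v4 a b c ((x + 1 : ℕ) : ℤ)) =
        (some (.e2 q r s), v4 a b c ((x + 1 : ℕ) : ℤ) +
          v4 0 (M.a q (rr M r s) false) 0 (-1)) := by
      simp only [DM.st]
      rw [hbr]
      rfl
    rw [Function.iterate_succ_apply, h, v4_add]
    have e : (((x + 1 : ℕ) : ℤ) + -1) = (x : ℤ) := by push_cast; ring
    rw [e, ih]
    congr 2
    · ring
    · push_cast; ring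
    · ring

theorem iter4 {α : Type} (f : α → α) (a b c d : ℕ) (x y1 y2 y3 y4 : α) (h1 : f^[a] x = y1)
    (h2 : f^[b] y1 = y2) (h3 : f^[c] y2 = y3) (h4 : f^[d] y3 = y4) :
    f^[d + (c + (b + a))] x = y4 := by
  rw [Function.iterate_add_apply, Function.iterate_add_apply, Function.iterate_add_apply,
    h1, h2, h3, h4]

theorem macro_step (q : Q) (n : Bool → ℕ) : ∃ k : ℕ, 1 ≤ k ∧
    (dm M q0 n0).st^[k] (some (.d1 q (z0 M)), v4 (n true) (n false) 0 0) =
      ((M.nxt q (M.res n)).map (fun q' => .d1 q' (z0 M)),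
        v4 (M.nn q n true) (M.nn q n false) 0 0) := by
  have hr : rr M ⟨((z0 M : Fin M.B) + n true) % M.B, Nat.mod_lt _ M.hB⟩
      ⟨((z0 M : Fin M.B) + n false) % M.B, Nat.mod_lt _ M.hB⟩ = M.res n := by
    funext j
    apply Fin.ext
    cases j <;> simp [rr, Sys.res, z0]
  have hz : ((z0 M : Fin M.B) : ℕ) = 0 := rfl
  have hn := Nat.zero_le (n false / M.B)
  refine ⟨(n false / M.B + 1) + ((n true / M.B + 1) + ((n false + 1) + (n true + 1))),
    ?_, ?_⟩
  · generalize n false / M.B = A
    generalize n true / M.B = B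
    clear hn
    omega
  have h1 := loop_d1 M q0 n0 q (n true) (z0 M) (n false) 0 0
  have h2 := loop_d2 M q0 n0 q ⟨((z0 M : Fin M.B) + n true) % M.B, Nat.mod_lt _ M.hB⟩ (n false)
    (z0 M) 0 (0 + (((z0 M : ℕ) + n true) / M.B : ℕ)) 0
  have e1 : (0 : ℤ) + (((z0 M : ℕ) + n true) / M.B : ℕ) = ((n true / M.B : ℕ) : ℤ) := by
    rw [hz, zero_add, zero_add]
  have e2 : (0 : ℤ) + (((z0 M : ℕ) + n false) / M.B : ℕ) = ((n false / M.B : ℕ) : ℤ) := by
    rw [hz, zero_add, zero_add]
  have h3 := loop_e1 M q0 n0 q ⟨((z0 M : Fin M.B) + n true) % M.B, Nat.mod_lt _ M.hB⟩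
    ⟨((z0 M : Fin M.B) + n false) % M.B, Nat.mod_lt _ M.hB⟩ (n true / M.B) 0 0
    (0 + (((z0 M : ℕ) + n false) / M.B : ℕ))
  rw [← e1] at h3
  rw [hr] at h3
  have h4 := loop_e2 M q0 n0 q ⟨((z0 M : Fin M.B) + n true) % M.B, Nat.mod_lt _ M.hB⟩
    ⟨((z0 M : Fin M.B) + n false) % M.B, Nat.mod_lt _ M.hB⟩ (n false / M.B)
    (0 + (M.a q (M.res n) true) * (0 + (((z0 M : ℕ) + n true) / M.B : ℕ)) +
      (M.b q (M.res n) true)) 0 0
  rw [← e2] at h4
  rw [hr] at h4
  have := iter4 _ _ _ _ _ _ _ _ _ _ h1 h2 h3 h4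
  rw [this]
  congr 2
  · rw [e1]; simp [Sys.nn]
  · rw [e2]; simp [Sys.nn]

theorem dm_halts_iff (q : Q) (n : Bool → ℕ) :
    (dm M q0 n0).Halts (some (.d1 q (z0 M)), v4 (n true) (n false) 0 0) ↔
      M.Halts (some q) n := by
  constructor
  · rintro ⟨k, hk⟩
    induction k using Nat.strong_induction_on generalizing q n with
    | _ k ih =>
      obtain ⟨k0, hk0, h0⟩ := macro_step M q0 n0 q n
      apply Sys.Halts.step
      rcases ho : M.nxt q (M.res n) with _ | q'
      · exact Sys.Halts.stop _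
      · rw [ho] at h0
        by_cases hlt : k < k0
        · exfalso
          obtain ⟨i, rfl⟩ : ∃ i, k0 = i + k := ⟨k0 - k, by omega⟩
          rw [Function.iterate_add_apply] at h0
          have : ∀ x : Option (RS M) × (Bool × Bool → ℤ), x.1 = none →
              ((dm M q0 n0).st^[i] x).1 = none := by
            rintro ⟨o, c⟩ rfl
            rw [DM.st_iter_none]
          have h1 := this _ hk
          rw [h0] at h1
          exact absurd h1 (by simp)
        · obtain ⟨i, rfl⟩ : ∃ i, k = i + k0 := ⟨k - k0, by omega⟩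
          rw [Function.iterate_add_apply, h0] at hk
          exact ih i (by omega) q' _ hk
  · intro h
    generalize ho : some q = o at h
    induction h generalizing q with
    | stop n => exact absurd ho (by simp)
    | step q' n _ ih =>
      obtain rfl : q = q' := Option.some.inj ho
      obtain ⟨k0, hk0, h0⟩ := macro_step M q0 n0 q n
      rw [← DM.halts_iter _ _ k0, h0]
      rcases ho : M.nxt q (M.res n) with _ | q'
      · exact ⟨0, rfl⟩
      · exact ih q' ho.symm

theorem dm_init_halts :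
    (dm M q0 n0).Halts (some .init, 0) ↔ M.Halts (some q0) (ini n0) := by
  rw [← DM.halts_st]
  have : (dm M q0 n0).st (some .init, 0) =
      (some (.d1 q0 (z0 M)), v4 (ini n0 true) (ini n0 false) 0 0) := by
    change (some (RS.d1 q0 (z0 M)), 0 + v4 n0 0 0 0) = _
    rw [zero_add]
    simp [ini]
  rw [this, dm_halts_iff]

end sim

/-- A fixed finite register machine, one vector of which depends on the input. -/
theorem exists_dm : ∃ (Q : Type) (_ : Finite Q) (M : Sys Q Bool) (q0 : Q),
    ∃ N : ℕ → ℕ, Computable N ∧ ¬ ComputablePred (fun n => (dm M q0 (N n)).Halts (some .init, 0)) := by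
  obtain ⟨Q, hQ, M, q0, N, _, hN, h⟩ := exists_sys
  refine ⟨Q, hQ, M, q0, N, hN, ?_⟩
  intro hc
  apply h
  refine hc.of_eq ?_
  intro n
  exact dm_init_halts M q0 (N n)

end Pool.Agent.H502.PcSrc
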