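import Pool.Agent.H502.PcAll
import Pool.Agent.H502.PcReg
set_option autoImplicit false

namespace Pool.Agent.H502.Pc

open PcSrc

theorem Cmp.code_inj (c d : Cmp) (h : c.code = d.code) : c = d := by
  cases c <;> cases d <;> simp_all [Cmp.code]

theorem icc_inj (r s : Set.Icc (0 : ℚ) 1) (h1 : r.1.num.toNat = s.1.num.toNat)
    (h2 : r.1.den = s.1.den) : r = s := by
  apply Subtype.ext
  apply Rat.ext _ h2
  have hr : 0 ≤ r.1.num := Rat.num_nonneg.2 r.2.1
  have hs : 0 ≤ s.1.num := Rat.num_nonneg.2 s.2.1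
  omega

/-- different formulas have different Goedel numbers -/
theorem Form.code_injective : Function.Injective Form.code := by
  intro φ
  induction φ with
  | atom a =>
    intro ψ h
    cases ψ <;> simp_all [Form.code, Nat.pair_eq_pair]
  | neg φ ih =>
    intro ψ h
    cases ψ with
    | neg ψ => rw [ih (Nat.pair_eq_pair.1 h).2]
    | _ => simp_all [Form.code, Nat.pair_eq_pair]
  | and φ χ ih1 ih2 =>
    intro ψ h
    cases ψ with
    | and ψ1 ψ2 =>
      have h2 := Nat.pair_eq_pair.1 (Nat.pair_eq_pair.1 h).2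
      rw [ih1 h2.1, ih2 h2.2]
    | _ => simp_all [Form.code, Nat.pair_eq_pair]
  | or φ χ ih1 ih2 =>
    intro ψ h
    cases ψ with
    | or ψ1 ψ2 =>
      have h2 := Nat.pair_eq_pair.1 (Nat.pair_eq_pair.1 h).2
      rw [ih1 h2.1, ih2 h2.2]
    | _ => simp_all [Form.code, Nat.pair_eq_pair]
  | PF φ c r ih =>
    intro ψ h
    cases ψ with
    | PF ψ d s =>
      have h2 := Nat.pair_eq_pair.1 (Nat.pair_eq_pair.1 h).2
      have h3 := Nat.pair_eq_pair.1 h2.2
      have h4 := Nat.pair_eq_pair.1 h3.2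
      rw [ih h2.1, Cmp.code_inj _ _ h3.1, icc_inj _ _ h4.1 h4.2]
    | _ => simp_all [Form.code, Nat.pair_eq_pair]
  | PG φ c r ih =>
    intro ψ h
    cases ψ with
    | PG ψ d s =>
      have h2 := Nat.pair_eq_pair.1 (Nat.pair_eq_pair.1 h).2
      have h3 := Nat.pair_eq_pair.1 h2.2
      have h4 := Nat.pair_eq_pair.1 h3.2
      rw [ih h2.1, Cmp.code_inj _ _ h3.1, icc_inj _ _ h4.1 h4.2]
    | _ => simp_all [Form.code, Nat.pair_eq_pair]

/-- the probability to visit a set eventually is the limit of the probabilities to visit it within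
`n` steps -/
theorem prF_limit {α : Type} (M : Chain α) (T : Set M.S) (s : M.S) :
    Filter.Tendsto (fun n => M.hit T n s) Filter.atTop (nhds (M.prF T s)) :=
  tendsto_atTop_ciSup (hit_mono_n M T s) ⟨1, by rintro _ ⟨n, rfl⟩; exact hit_le_one M T n s⟩


/-- change of type of the machine -/
def toDM {P J : Type} (D : PcSrc.DM P J) : Pc.DM P J := ⟨D.reg, D.nxt, D.vec, D.hz, D.hp, D.hp'⟩

theorem toDM_st {P J : Type} (D : PcSrc.DM P J) (x : Option P × (J → ℤ)) :
    (toDM D).st x = D.st x := by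
  obtain ⟨o, c⟩ := x
  cases o <;> rfl

theorem toDM_halts {P J : Type} (D : PcSrc.DM P J) (x : Option P × (J → ℤ)) :
    (toDM D).Halts x ↔ D.Halts x := by
  have : (toDM D).st = D.st := funext (toDM_st D)
  unfold Pc.DM.Halts PcSrc.DM.Halts
  rw [this]

theorem undecidable : ¬ ∃ D : ℕ → Prop, ComputablePred D ∧
    ∀ φ : Form ℕ, D φ.code ↔ HasTreeModel φ := by
  classical
  rintro ⟨D, hD, h⟩
  obtain ⟨Q, hQ, M, q0, N, _, hN, hU⟩ := PcSrc.exists_sys
  let p0 : RS M := .d1 q0 (z0 M)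
  let W := nsOf (toDM (dm M q0 0)) p0
  let _ : Fintype ((RS M × Bool) ⊕ Rg) := Fintype.ofFinite _
  obtain ⟨e, he⟩ := exists_injective_nat (Pr ((RS M × Bool) ⊕ Rg))
  apply hU
  refine ComputablePred.computable_of_manyOneReducible (q := D)
    ⟨fun n => ((Phi W none (N n)).map e).code, code_comp W none e N hN, fun n => ?_⟩ hD
  change M.Halts (some q0) (PcSrc.ini (N n)) ↔ D ((Phi W none (N n)).map e).code
  rw [h, map_iff e he, phi_iff, ns_iff, toDM_halts, ← dm_halts_iff M q0 0 q0 (PcSrc.ini (N n))]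
  have : (v4 (PcSrc.ini (N n) true) (PcSrc.ini (N n) false) 0 0 : Bool × Bool → ℤ) =
      fun j => (cin (N n) j : ℤ) := by
    funext ⟨a, b⟩
    cases a <;> cases b <;> simp [v4, cin, PcSrc.ini]
  rw [this]

end Pool.Agent.H502.Pc
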